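import Pool.Agent.MP_57341d_ag.Mg.H73_Arith

section

/-! The filter of complements of analytic hypersurfaces; meromorphic functions. -/

open MvPolynomial Filter Topology

namespace GPC73

variable {g : ℕ}

/-- Entire functions. -/
abbrev En (f : (Fin g → ℂ) → ℂ) : Prop := AnalyticOnNhd ℂ f Set.univ

/-- Sets containing the complement of the zero set of a nonzero entire function. -/
def gen (g : ℕ) : Filter (Fin g → ℂ) where
  sets := {s | ∃ b, En b ∧ (∃ z, b z ≠ 0) ∧ ∀ z, b z ≠ 0 → z ∈ s}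
  univ_sets := ⟨fun _ => 1, analyticOnNhd_const, ⟨0, one_ne_zero⟩, fun _ _ => trivial⟩
  sets_of_superset := fun ⟨b, h1, h2, h3⟩ h => ⟨b, h1, h2, fun z hz => h (h3 z hz)⟩
  inter_sets := fun ⟨b, h1, h2, h3⟩ ⟨b', h1', h2', h3'⟩ => by
    obtain ⟨z, hz, hz'⟩ := norm_ne h1 h1' h2 h2'
    exact ⟨b * b', h1.mul h1', ⟨z, mul_ne_zero hz hz'⟩, fun w hw =>
      ⟨h3 w (left_ne_zero_of_mul hw), h3' w (right_ne_zero_of_mul hw)⟩⟩

theorem gen_iff {p : (Fin g → ℂ) → Prop} :
    (∀ᶠ z in gen g, p z) ↔ ∃ b, En b ∧ (∃ z, b z ≠ 0) ∧ ∀ z, b z ≠ 0 → p z := Iff.rfl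

theorem gen_ne {b : (Fin g → ℂ) → ℂ} (hb : En b) (h : ∃ z, b z ≠ 0) :
    ∀ᶠ z in gen g, b z ≠ 0 := ⟨b, hb, h, fun _ hz => hz⟩

instance : (gen g).NeBot := ⟨fun h => by
  have : (∅ : Set (Fin g → ℂ)) ∈ gen g := by rw [h]; trivial
  obtain ⟨b, -, ⟨z, hz⟩, h3⟩ := this
  exact h3 z hz⟩

/-- Identity theorem (`AnalyticOnNhd.eqOn_zero_of_preconnected_of_eventuallyEq_zero`). -/
theorem gen_dense {p : (Fin g → ℂ) → Prop} (h : ∀ᶠ z in gen g, p z) : Dense {z | p z} := by
  obtain ⟨b, h1, ⟨z, hz⟩, h3⟩ := h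
  intro w
  rw [mem_closure_iff_frequently]
  by_contra hn
  rw [not_frequently] at hn
  have h0 : b =ᶠ[𝓝 w] 0 := hn.mono fun x hx => by
    by_contra hb
    exact hx (h3 x hb)
  exact hz (h1.eqOn_zero_of_preconnected_of_eventuallyEq_zero isPreconnected_univ
    (Set.mem_univ w) h0 (Set.mem_univ z))

/-- Two functions continuous at `z` that agree generically agree at `z`. -/
theorem gen_eq_at {u v : (Fin g → ℂ) → ℂ} (h : u =ᶠ[gen g] v) {z : Fin g → ℂ}
    (hu : ContinuousAt u z) (hv : ContinuousAt v z) : u z = v z := by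
  exact tendsto_nhds_unique_of_frequently_eq hu hv
    (mem_closure_iff_frequently.1 (gen_dense h z))

theorem gen_nhds {p : (Fin g → ℂ) → Prop} (h : ∀ᶠ z in gen g, p z) :
    ∀ᶠ z in gen g, ∀ᶠ w in 𝓝 z, p w := by
  obtain ⟨b, h1, h2, h3⟩ := h
  exact ⟨b, h1, h2, fun z hz =>
    ((h1 z trivial).continuousAt.eventually_ne hz).mono fun w hw => h3 w hw⟩

theorem gen_tr (c : Fin g → ℂ) : Tendsto (fun z => z + c) (gen g) (gen g) := by
  rintro s ⟨b, h1, ⟨z, hz⟩, h3⟩
  exact ⟨fun z => b (z + c), fun z _ => (h1 (z + c) trivial).comp (f := fun z => z + c)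
    (analyticAt_id.add analyticAt_const), ⟨z - c, by simpa using hz⟩, fun w hw => h3 _ hw⟩

theorem gen_pd {u v : (Fin g → ℂ) → ℂ} (h : u =ᶠ[gen g] v) (j : Fin g) :
    pd j u =ᶠ[gen g] pd j v := by
  filter_upwards [gen_nhds h] with z hz
  unfold pd
  rw [Filter.EventuallyEq.fderiv_eq hz]

/-- Quotients of entire functions. -/
def Mer (u : (Fin g → ℂ) → ℂ) : Prop :=
  ∃ a b, En a ∧ En b ∧ (∃ z, b z ≠ 0) ∧ u =ᶠ[gen g] fun z => a z / b z

variable {u v : (Fin g → ℂ) → ℂ}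

theorem Mer.congr (h : Mer u) (e : u =ᶠ[gen g] v) : Mer v := by
  obtain ⟨a, b, h1, h2, h3, h4⟩ := h
  exact ⟨a, b, h1, h2, h3, e.symm.trans h4⟩

theorem En.mer (h : En u) : Mer u := by
  exact ⟨u, fun _ => 1, h, analyticOnNhd_const, ⟨0, one_ne_zero⟩,
    Eventually.of_forall fun z => by simp⟩

theorem mer_const (c : ℂ) : Mer fun _ : Fin g → ℂ => c := by
  exact En.mer analyticOnNhd_const

theorem Mer.add (h : Mer u) (h' : Mer v) : Mer fun z => u z + v z := by
  obtain ⟨a, b, h1, h2, h3, h4⟩ := h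
  obtain ⟨a', b', h1', h2', h3', h4'⟩ := h'
  obtain ⟨z, hz, hz'⟩ := norm_ne h2 h2' h3 h3'
  refine ⟨fun z => a z * b' z + b z * a' z, fun z => b z * b' z, (h1.mul h2').add (h2.mul h1'),
    h2.mul h2', ⟨z, mul_ne_zero hz hz'⟩, ?_⟩
  filter_upwards [h4, h4', gen_ne h2 h3, gen_ne h2' h3'] with w e e' n n'
  rw [e, e', div_add_div _ _ n n']

theorem Mer.sub (h : Mer u) (h' : Mer v) : Mer fun z => u z - v z := by
  obtain ⟨a, b, h1, h2, h3, h4⟩ := h
  obtain ⟨a', b', h1', h2', h3', h4'⟩ := h'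
  obtain ⟨z, hz, hz'⟩ := norm_ne h2 h2' h3 h3'
  refine ⟨fun z => a z * b' z - b z * a' z, fun z => b z * b' z, (h1.mul h2').sub (h2.mul h1'),
    h2.mul h2', ⟨z, mul_ne_zero hz hz'⟩, ?_⟩
  filter_upwards [h4, h4', gen_ne h2 h3, gen_ne h2' h3'] with w e e' n n'
  rw [e, e', div_sub_div _ _ n n']

theorem Mer.mul (h : Mer u) (h' : Mer v) : Mer fun z => u z * v z := by
  obtain ⟨a, b, h1, h2, h3, h4⟩ := h
  obtain ⟨a', b', h1', h2', h3', h4'⟩ := h'
  obtain ⟨z, hz, hz'⟩ := norm_ne h2 h2' h3 h3'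
  refine ⟨fun z => a z * a' z, fun z => b z * b' z, h1.mul h1', h2.mul h2',
    ⟨z, mul_ne_zero hz hz'⟩, ?_⟩
  filter_upwards [h4, h4'] with w e e'
  rw [e, e', div_mul_div_comm]

/-- If the numerator of `v` is identically zero the quotient is generically `0`. -/
theorem Mer.div (h : Mer u) (h' : Mer v) : Mer fun z => u z / v z := by
  obtain ⟨a', b', h1', h2', h3', h4'⟩ := h'
  have : Mer fun z => b' z / a' z := by
    by_cases ha : ∃ z, a' z ≠ 0
    · exact ⟨b', a', h2', h1', ha, EventuallyEq.rfl⟩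
    · push Not at ha
      exact (mer_const 0).congr (Eventually.of_forall fun z => by simp [ha z])
  refine (h.mul this).congr ?_
  filter_upwards [h4'] with w e
  rw [e, div_eq_mul_inv (u w), inv_div]

theorem mer_sum {ι : Type} (s : Finset ι) {u : ι → (Fin g → ℂ) → ℂ} (h : ∀ i, Mer (u i)) :
    Mer fun z => ∑ i ∈ s, u i z := by
  classical
  induction s using Finset.induction_on with
  | empty => simpa using mer_const 0
  | insert i s hi ih =>
    simp only [Finset.sum_insert hi]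
    exact (h i).add ih

theorem mer_eval {ι : Type} {u : ι → (Fin g → ℂ) → ℂ} (h : ∀ i, Mer (u i))
    (f : MvPolynomial ι ℂ) : Mer fun z => eval (fun i => u i z) f := by
  induction f using MvPolynomial.induction_on with
  | C c => simpa using mer_const c
  | add p q hp hq => simpa using hp.add hq
  | mul_X p i hp => simpa using hp.mul (h i)

theorem Mer.an (h : Mer u) : ∀ᶠ z in gen g, AnalyticAt ℂ u z := by
  obtain ⟨a, b, h1, h2, h3, h4⟩ := h
  filter_upwards [gen_nhds h4, gen_ne h2 h3] with z e n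
  exact ((h1 z trivial).div (h2 z trivial) n).congr (EventuallyEq.symm e)

theorem Mer.zero_or_ne (h : Mer u) : u =ᶠ[gen g] (fun _ => 0) ∨ ∀ᶠ z in gen g, u z ≠ 0 := by
  obtain ⟨a, b, h1, h2, h3, h4⟩ := h
  by_cases ha : ∃ z, a z ≠ 0
  · right
    filter_upwards [h4, gen_ne h2 h3, gen_ne h1 ha] with z e n n'
    rw [e]
    exact div_ne_zero n' n
  · left
    push Not at ha
    filter_upwards [h4] with z e
    rw [e, ha z, zero_div]

/-- With `u = a / b`: near a point where `u` is analytic, equal to `a / b` and has vanishing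
derivative, `u` is a constant `c` (`IsOpen.is_const_of_fderiv_eq_zero` or `Convex.is_const_of_fderivWithin_eq_zero` on a ball; a linear form
that kills the `Pi.single j 1` is zero), so the entire function `a - c b` vanishes. -/
theorem Mer.const_of_pd (h : Mer u) (h0 : ∀ j, pd j u =ᶠ[gen g] fun _ => 0) :
    ∃ c : ℂ, u =ᶠ[gen g] fun _ => c := by
  have han := h.an
  obtain ⟨a, b, h1, h2, h3, h4⟩ := h
  have hf : ∀ᶠ z in gen g, fderiv ℂ u z = 0 := by
    filter_upwards [eventually_all.2 h0] with z hz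
    refine ContinuousLinearMap.coe_injective (LinearMap.pi_ext' fun j => ?_)
    ext
    simpa [pd] using hz j
  obtain ⟨z, hz⟩ := (gen_nhds (han.and (hf.and (h4.and (gen_ne h2 h3))))).exists
  obtain ⟨r, hr, hb⟩ := Metric.eventually_nhds_iff_ball.1 hz
  have hc : ∀ w ∈ Metric.ball z r, u w = u z := fun w hw =>
    Metric.isOpen_ball.is_const_of_fderiv_eq_zero (𝕜 := ℂ) (convex_ball z r).isPreconnected
      (fun x hx => (hb x hx).1.differentiableAt.differentiableWithinAt)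
      (fun x hx => (hb x hx).2.1) hw (Metric.mem_ball_self hr)
  have he : En fun w => a w - u z * b w := h1.sub (analyticOnNhd_const.mul h2)
  have h5 := he.eqOn_zero_of_preconnected_of_eventuallyEq_zero isPreconnected_univ
    (Set.mem_univ z) (by
      filter_upwards [Metric.ball_mem_nhds z hr] with w hw
      have e := (hb w hw).2.2.1
      rw [← hc w hw, e, div_mul_cancel₀ _ (hb w hw).2.2.2, sub_self]
      rfl)
  refine ⟨u z, ?_⟩
  filter_upwards [h4, gen_ne h2 h3] with w e n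
  rw [e, div_eq_iff n]
  exact sub_eq_zero.1 (h5 (Set.mem_univ w))

/-- With `u = a / b` one has `u * b = a` near `z₀` (`gen_eq_at`), so `t ↦ a (z₀ + t • v)` vanishes
near `0`, hence at `t = 1`. -/
theorem Mer.zero_of_lines (h : Mer u) {z₀ : Fin g → ℂ} (ha : AnalyticAt ℂ u z₀)
    (h0 : ∀ v : Fin g → ℂ, ∀ᶠ t in 𝓝 (0 : ℂ), u (z₀ + t • v) = 0) :
    u =ᶠ[gen g] fun _ => 0 := by
  obtain ⟨a, b, h1, h2, h3, h4⟩ := h
  have e1 : (fun z => u z * b z) =ᶠ[gen g] a := by
    filter_upwards [h4, gen_ne h2 h3] with w e n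
    rw [e, div_mul_cancel₀ _ n]
  have e2 : ∀ᶠ w in 𝓝 z₀, u w * b w = a w := ha.eventually_analyticAt.mono fun w hw =>
    gen_eq_at e1 (hw.mul (h2 w trivial)).continuousAt (h1 w trivial).continuousAt
  have e3 : ∀ w, a w = 0 := by
    intro w
    have hl : AnalyticOnNhd ℂ (fun t : ℂ => z₀ + t • (w - z₀)) Set.univ := fun t _ => by fun_prop
    have ht : Tendsto (fun t : ℂ => z₀ + t • (w - z₀)) (𝓝 0) (𝓝 z₀) := by
      simpa [ContinuousAt] using (hl 0 trivial).continuousAt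
    have h5 : AnalyticOnNhd ℂ (fun t : ℂ => a (z₀ + t • (w - z₀))) Set.univ := fun t _ =>
      (h1 _ trivial).comp (f := fun t : ℂ => z₀ + t • (w - z₀)) (hl t trivial)
    have h6 := h5.eqOn_zero_of_preconnected_of_eventuallyEq_zero isPreconnected_univ
      (Set.mem_univ 0) (by
        filter_upwards [ht.eventually e2, h0 (w - z₀)] with t e e'
        rw [← e, e', zero_mul]
        rfl) (Set.mem_univ 1)
    simpa using h6
  filter_upwards [h4] with w e
  rw [e, e3 w, zero_div]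

end GPC73

end

section

/-! Locally bounded meromorphic functions. -/

open Filter Topology

namespace GPC73

variable {g : ℕ} {u v : (Fin g → ℂ) → ℂ} {z₀ : Fin g → ℂ}

/-- `u` is generically bounded near `z₀`. -/
def LB (u : (Fin g → ℂ) → ℂ) (z₀ : Fin g → ℂ) : Prop :=
  ∃ C : ℝ, ∃ U ∈ 𝓝 z₀, ∀ᶠ z in gen g, z ∈ U → ‖u z‖ ≤ C

theorem LB.congr (h : LB u z₀) (e : u =ᶠ[gen g] v) : LB v z₀ := by
  obtain ⟨C, U, hU, h⟩ := h
  refine ⟨C, U, hU, ?_⟩
  filter_upwards [h, e] with z h1 h2 hz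
  rw [← h2]
  exact h1 hz

theorem LB.sub (h : LB u z₀) (h' : LB v z₀) : LB (fun z => u z - v z) z₀ := by
  obtain ⟨C, U, hU, h⟩ := h
  obtain ⟨C', U', hU', h'⟩ := h'
  refine ⟨C + C', U ∩ U', inter_mem hU hU', ?_⟩
  filter_upwards [h, h'] with z h1 h2 hz
  exact (norm_sub_le _ _).trans (add_le_add (h1 hz.1) (h2 hz.2))

theorem lb_of_cont (h : ContinuousAt u z₀) : LB u z₀ := by
  refine ⟨‖u z₀‖ + 1, {z | ‖u z‖ < ‖u z₀‖ + 1}, ?_, Eventually.of_forall fun z hz => le_of_lt hz⟩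
  exact h.norm.eventually (gt_mem_nhds (lt_add_one _))

theorem lb_le_of_pow {d x C M : ℝ} (hd : 0 < d) (hM : 0 < M) (h : ∀ n : ℕ, d * x ^ n ≤ C * M ^ n) :
    x ≤ M := by
  by_contra hx
  obtain ⟨n, hn⟩ := pow_unbounded_of_one_lt (C / d) ((one_lt_div hM).2 (not_le.1 hx))
  rw [div_pow, div_lt_div_iff₀ hd (pow_pos hM n)] at hn
  linarith [h n]

theorem lb_circle {O : Set (Fin g → ℂ)} (hO : IsOpen O) {b : (Fin g → ℂ) → ℂ} (hb : En b)
    (hb0 : ∃ z, b z ≠ 0) (hz : z₀ ∈ O) : ∃ (w : Fin g → ℂ) (r ε : ℝ), 0 < r ∧ 0 < ε ∧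
      ∀ z ∈ Metric.closedBall z₀ ε, (∀ s ∈ Metric.closedBall (0 : ℂ) r, z + s • w ∈ O) ∧
        ∀ s ∈ Metric.sphere (0 : ℂ) r, b (z + s • w) ≠ 0 := by
  obtain ⟨z₁, hz₁⟩ := hb0
  set w := z₁ - z₀ with hw
  have hbc : Continuous b := continuousOn_univ.1 hb.continuousOn
  have hφ : AnalyticOnNhd ℂ (fun s : ℂ => b (z₀ + s • w)) Set.univ := fun s _ =>
    (hb _ trivial).comp (f := fun s : ℂ => z₀ + s • w)
      (analyticAt_const.add (analyticAt_id.smul analyticAt_const))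
  have h1 : ∀ᶠ s in 𝓝[≠] (0 : ℂ), b (z₀ + s • w) ≠ 0 := by
    refine (hφ 0 trivial).eventually_eq_zero_or_eventually_ne_zero.resolve_left fun h => hz₁ ?_
    have := hφ.eqOn_zero_of_preconnected_of_eventuallyEq_zero isPreconnected_univ
      (Set.mem_univ 0) h (Set.mem_univ 1)
    simpa [hw] using this
  have h2 : ∀ᶠ s in 𝓝 (0 : ℂ), z₀ + s • w ∈ O := by
    have : ContinuousAt (fun s : ℂ => z₀ + s • w) 0 := by fun_prop
    exact this.eventually (hO.mem_nhds (by simpa using hz))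
  obtain ⟨r, hr, h3⟩ := Metric.nhds_basis_closedBall.eventually_iff.1
    ((eventually_nhdsWithin_iff.1 h1).and h2)
  have hc : Continuous fun p : (Fin g → ℂ) × ℂ => p.1 + p.2 • w := by fun_prop
  have h4 : ∀ᶠ z in 𝓝 z₀, ∀ s ∈ Metric.closedBall (0 : ℂ) r, z + s • w ∈ O :=
    (isCompact_closedBall 0 r).eventually_forall_of_forall_eventually
      (P := fun z s => z + s • w ∈ O) fun s hs =>
        hc.continuousAt.eventually (hO.mem_nhds (h3 hs).2)
  have h5 : ∀ᶠ z in 𝓝 z₀, ∀ s ∈ Metric.sphere (0 : ℂ) r, b (z + s • w) ≠ 0 :=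
    (isCompact_sphere 0 r).eventually_forall_of_forall_eventually
      (P := fun z s => b (z + s • w) ≠ 0) fun s hs =>
        (hbc.comp hc).continuousAt.eventually_ne
          ((h3 (Metric.sphere_subset_closedBall hs)).1 (Metric.ne_of_mem_sphere hs hr.ne'))
  obtain ⟨ε, hε, h6⟩ := Metric.nhds_basis_closedBall.eventually_iff.1 (h4.and h5)
  exact ⟨w, r, ε, hr, hε, fun z hz => h6 hz⟩

/-- Almost integral functions are locally bounded.  Write `u = a / b`; then `Δ a ^ n = f b ^ n` on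
`O` (`gen_eq_at`).  Choose `v` with `b (z₀ + v) ≠ 0` and `r > 0` with `z₀ + s • v ∈ O` for
`‖s‖ ≤ r` and `b (z₀ + s • v) ≠ 0` for `‖s‖ = r` (isolated zeros).  For `z` near `z₀` the same
holds with uniform bounds `‖a‖, ‖Δ‖ ≤ C`, `c ≤ ‖b‖` on the circle (compactness:
`IsCompact.eventually_forall_of_forall_eventually` or `generalized_tube_lemma`).  The maximum
principle (`Complex.norm_le_of_forall_mem_frontier_norm_le`) for `s ↦ f (z + s • v)` gives
`‖Δ z‖ * ‖u z‖ ^ n ≤ C * (C / c) ^ n` for all `n`, so `‖u z‖ ≤ C / c` if `Δ z ≠ 0`, `b z ≠ 0`. -/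
theorem lb_of_pow {O : Set (Fin g → ℂ)} (hO : IsOpen O) {Δ : (Fin g → ℂ) → ℂ} (hu : Mer u)
    (hΔ : AnalyticOnNhd ℂ Δ O) (h0 : ∀ᶠ z in gen g, Δ z ≠ 0)
    (h : ∀ n : ℕ, ∃ f, AnalyticOnNhd ℂ f O ∧ ∀ᶠ z in gen g, Δ z * u z ^ n = f z)
    (hz : z₀ ∈ O) : LB u z₀ := by
  obtain ⟨a, b, ha, hb, hb0, hab⟩ := hu
  obtain ⟨w, r, ε, hr, hε, hw⟩ := lb_circle hO hb hb0 hz
  have hac : Continuous a := continuousOn_univ.1 ha.continuousOn
  have hbc : Continuous b := continuousOn_univ.1 hb.continuousOn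
  have hc : Continuous fun p : (Fin g → ℂ) × ℂ => p.1 + p.2 • w := by fun_prop
  have hK := ((isCompact_closedBall z₀ ε).prod (isCompact_sphere (0 : ℂ) r)).image hc
  set K := (fun p : (Fin g → ℂ) × ℂ => p.1 + p.2 • w) ''
    Metric.closedBall z₀ ε ×ˢ Metric.sphere (0 : ℂ) r
  have hK1 : ∀ y ∈ K, y ∈ O ∧ b y ≠ 0 := by
    rintro _ ⟨p, hp, rfl⟩
    exact ⟨(hw _ hp.1).1 _ (Metric.sphere_subset_closedBall hp.2), (hw _ hp.1).2 _ hp.2⟩
  obtain ⟨C, hC⟩ := hK.exists_bound_of_continuousOn (f := Δ)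
    (hΔ.continuousOn.mono fun y hy => (hK1 y hy).1)
  obtain ⟨M, hM⟩ := hK.exists_bound_of_continuousOn (f := fun y => a y / b y)
    (hac.continuousOn.div hbc.continuousOn fun y hy => (hK1 y hy).2)
  refine ⟨max M 1, Metric.closedBall z₀ ε, Metric.closedBall_mem_nhds _ hε, ?_⟩
  filter_upwards [h0, gen_ne hb hb0, hab] with z hz0 hz1 hz2 hz3
  rw [hz2]
  refine lb_le_of_pow (C := C) (norm_pos_iff.2 hz0) (lt_max_of_lt_right one_pos) fun n => ?_
  obtain ⟨f, hf, hf1⟩ := h n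
  have key : ∀ y ∈ O, b y ≠ 0 → f y = Δ y * (a y / b y) ^ n := fun y hy hy' => by
    refine gen_eq_at (v := fun y => Δ y * (a y / b y) ^ n) ?_ (hf y hy).continuousAt
      ((hΔ y hy).continuousAt.mul ((hac.continuousAt.div hbc.continuousAt hy').pow n))
    filter_upwards [hf1, hab] with x h1 h2
    rw [← h1, h2]
  have hd : DiffContOnCl ℂ (fun s : ℂ => f (z + s • w)) (Metric.closedBall 0 r) := by
    refine DifferentiableOn.diffContOnCl ?_
    rw [Metric.isClosed_closedBall.closure_eq]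
    intro s hs
    exact ((hf _ ((hw z hz3).1 s hs)).differentiableAt.comp s
      (f := fun s : ℂ => z + s • w) (by fun_prop)).differentiableWithinAt
  have hmax := Complex.norm_le_of_forall_mem_frontier_norm_le Metric.isBounded_closedBall hd
    (C := C * max M 1 ^ n) (fun s hs => by
      rw [frontier_closedBall _ hr.ne'] at hs
      have hy : z + s • w ∈ K := ⟨(z, s), ⟨hz3, hs⟩, rfl⟩
      rw [key _ (hK1 _ hy).1 (hK1 _ hy).2, _root_.norm_mul, norm_pow]
      exact mul_le_mul (hC _ hy) (pow_le_pow_left₀ (norm_nonneg _)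
        ((hM _ hy).trans (le_max_left _ _)) n) (by positivity) ((norm_nonneg _).trans (hC _ hy)))
    (z := 0) (subset_closure (Metric.mem_closedBall_self hr.le))
  have hzO : z ∈ O := by simpa using (hw z hz3).1 0 (Metric.mem_closedBall_self hr.le)
  simp only [zero_smul, add_zero] at hmax
  rwa [key z hzO hz1, _root_.norm_mul, norm_pow] at hmax

end GPC73

end

section

/-! Periodic locally bounded meromorphic functions are constant. -/

open Filter Topology

namespace GPC73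

variable {g : ℕ} {u : (Fin g → ℂ) → ℂ}

/-- One variable: removable singularities and Liouville.  The function
`s ↦ limUnder (𝓝[≠] s) (a / b)` is entire (`Complex.differentiableOn_update_limUnder_of_bddAbove`,
isolated zeros of `b`) and bounded. -/
theorem lb_liouville {a b : ℂ → ℂ} (ha : Differentiable ℂ a) (hb : Differentiable ℂ b) {C : ℝ}
    (h : ∀ s, ‖a s‖ ≤ C * ‖b s‖) {s t : ℂ} (hs : b s ≠ 0) (ht : b t ≠ 0) :
    a s / b s = a t / b t := by
  have hb0 : ∀ c : ℂ, ∀ᶠ z in 𝓝[≠] c, b z ≠ 0 := by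
    intro c
    rcases (hb.analyticAt c).eventually_eq_zero_or_eventually_ne_zero with h0 | h0
    · exfalso
      have hA : AnalyticOnNhd ℂ b Set.univ := fun z _ => hb.analyticAt z
      exact hs (hA.eqOn_zero_of_preconnected_of_eventuallyEq_zero isPreconnected_univ
        (Set.mem_univ c) h0 (Set.mem_univ s))
    · exact h0
  set q : ℂ → ℂ := fun z => a z / b z with hq
  have hqb : ∀ z, ‖q z‖ ≤ |C| := by
    intro z
    by_cases hz : b z = 0
    · simp [hq, hz]
    · have h1 : 0 < ‖b z‖ := norm_pos_iff.2 hz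
      simp only [hq, norm_div]
      rw [div_le_iff₀ h1]
      exact (h z).trans (mul_le_mul_of_nonneg_right (le_abs_self C) h1.le)
  have hqd : ∀ z, b z ≠ 0 → DifferentiableAt ℂ q z := fun z hz => (ha z).div (hb z) hz
  set F : ℂ → ℂ := fun c => limUnder (𝓝[≠] c) q with hF
  have hFq : ∀ z, b z ≠ 0 → F z = q z := fun z hz =>
    ((hqd z hz).continuousAt.tendsto.mono_left nhdsWithin_le_nhds).limUnder_eq
  have hFd : Differentiable ℂ F := by
    intro c
    obtain ⟨S, hS, hSb⟩ : ∃ S ∈ 𝓝 c, ∀ z ∈ S, z ≠ c → b z ≠ 0 := by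
      have h1 := eventually_nhdsWithin_iff.1 (hb0 c)
      exact ⟨_, h1, fun z hz hzc => hz hzc⟩
    have h2 : DifferentiableOn ℂ (Function.update q c (limUnder (𝓝[≠] c) q)) S := by
      refine Complex.differentiableOn_update_limUnder_of_bddAbove hS
        (fun z hz => (hqd z (hSb z hz.1 hz.2)).differentiableWithinAt) ⟨|C|, ?_⟩
      rintro _ ⟨z, -, rfl⟩
      exact hqb z
    refine (h2.differentiableAt hS).congr_of_eventuallyEq ?_
    filter_upwards [hS] with z hz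
    by_cases hzc : z = c
    · subst hzc
      simp [hF]
    · rw [Function.update_of_ne hzc]
      exact hFq z (hSb z hz hzc)
  have hFb : ∀ c, ‖F c‖ ≤ |C| := by
    intro c
    have h1 : Tendsto (fun z => ‖F z‖) (𝓝[≠] c) (𝓝 ‖F c‖) :=
      ((hFd c).continuousAt.norm.tendsto).mono_left nhdsWithin_le_nhds
    refine le_of_tendsto h1 ?_
    filter_upwards [hb0 c] with z hz
    rw [hFq z hz]
    exact hqb z
  have h3 : F s = F t := by
    refine hFd.apply_eq_apply_of_bounded (isBounded_iff_forall_norm_le.2 ⟨|C|, ?_⟩) s t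
    rintro _ ⟨z, rfl⟩
    exact hFb z
  rw [hFq s hs, hFq t ht] at h3
  exact h3

theorem lb2_per {ι : Type} {ω : ι → Fin g → ℂ}
    (hp : ∀ j, (fun z => u (z + ω j)) =ᶠ[gen g] u) {c : Fin g → ℂ}
    (hc : c ∈ Submodule.span ℤ (Set.range ω)) : (fun z => u (z + c)) =ᶠ[gen g] u := by
  let S : AddSubgroup (Fin g → ℂ) :=
    { carrier := {c | (fun z => u (z + c)) =ᶠ[gen g] u}
      zero_mem' := by
        show (fun z => u (z + 0)) =ᶠ[gen g] u
        simp only [add_zero]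
        rfl
      add_mem' := by
        intro c d hc hd
        show (fun z => u (z + (c + d))) =ᶠ[gen g] u
        filter_upwards [(gen_tr c).eventually hd, hc] with z h1 h2
        rw [← add_assoc]
        exact h1.trans h2
      neg_mem' := by
        intro c hc
        show (fun z => u (z + -c)) =ᶠ[gen g] u
        filter_upwards [(gen_tr (-c)).eventually hc] with z h1
        simp only [neg_add_cancel_right] at h1
        exact h1.symm }
  show c ∈ S
  induction hc using Submodule.span_induction with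
  | mem x hx =>
    obtain ⟨j, rfl⟩ := hx
    exact hp j
  | zero => exact S.zero_mem
  | add x y _ _ hx hy => exact S.add_mem hx hy
  | smul n x _ hx => exact S.zsmul_mem hx n

/-- A periodic locally bounded meromorphic function is constant.  With `u = a / b`: by compactness
of the closure of `ZSpan.fundamentalDomain ω` there are `C` and an open `U` containing it with
`‖a‖ ≤ C ‖b‖` on `U` (`gen_dense`).  The `c` with `(fun z => u (z + c)) =ᶠ u` form a subgroup
(`gen_tr`) containing the lattice, so the closed set `‖a‖ ≤ C ‖b‖` contains a dense subset of every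
`c + U`, hence everything (`ZSpan.fract`).  Then `lb_liouville` on lines. -/
theorem const_of_lb (ω : Module.Basis (Fin (2 * g)) ℝ (Fin g → ℂ)) (hu : Mer u)
    (hp : ∀ j, (fun z => u (z + ω j)) =ᶠ[gen g] u) (hb : ∀ z, LB u z) :
    ∃ c : ℂ, u =ᶠ[gen g] fun _ => c := by
  classical
  obtain ⟨a, b, ha, hb', ⟨z₀, hz₀⟩, hab⟩ := hu
  choose C U hU hC using hb
  have hK : IsCompact (closure (ZSpan.fundamentalDomain ω)) :=
    (ZSpan.fundamentalDomain_isBounded ω).isCompact_closure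
  obtain ⟨t, -, ht⟩ := hK.elim_nhds_subcover (fun x => interior (U x))
    (fun x _ => interior_mem_nhds.2 (hU x))
  have hper : ∀ c ∈ Submodule.span ℤ (Set.range ω), (fun z => u (z + c)) =ᶠ[gen g] u :=
    fun c hc => lb2_per hp hc
  have hac : Continuous a := continuous_iff_continuousAt.2 fun z => (ha z trivial).continuousAt
  have hbc : Continuous b := continuous_iff_continuousAt.2 fun z => (hb' z trivial).continuousAt
  have key : ∀ z, ‖a z‖ ≤ (∑ i ∈ t, |C i|) * ‖b z‖ := by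
    intro z
    have h1 := ht (subset_closure (ZSpan.fract_mem_fundamentalDomain ω z))
    simp only [Set.mem_iUnion] at h1
    obtain ⟨i, hi, hz⟩ := h1
    set c : Fin g → ℂ := -(ZSpan.floor ω z : Fin g → ℂ) with hc
    have hcm : c ∈ Submodule.span ℤ (Set.range ω) := neg_mem (ZSpan.floor ω z).2
    have hzc : z + c ∈ interior (U i) := by
      rw [ZSpan.fract_apply, sub_eq_add_neg] at hz
      exact hz
    have hCi : C i ≤ ∑ i ∈ t, |C i| :=
      (le_abs_self _).trans (Finset.single_le_sum (f := fun i => |C i|)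
        (fun _ _ => abs_nonneg _) hi)
    have h2 : ∀ᶠ w in gen g, w + c ∈ interior (U i) → ‖a w‖ ≤ (∑ i ∈ t, |C i|) * ‖b w‖ := by
      filter_upwards [(gen_tr c).eventually (hC i), hper c hcm, hab,
        gen_ne hb' ⟨z₀, hz₀⟩] with w h3 h4 h5 h6 h7
      have h8 := h3 (interior_subset h7)
      have h9 : 0 < ‖b w‖ := norm_pos_iff.2 h6
      rw [h4, h5, norm_div, div_le_iff₀ h9] at h8
      exact h8.trans (mul_le_mul_of_nonneg_right hCi h9.le)
    have hV : IsOpen {w : Fin g → ℂ | w + c ∈ interior (U i)} :=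
      isOpen_interior.preimage (continuous_id.add continuous_const)
    have h3 := (gen_dense h2).open_subset_closure_inter hV hzc
    have h4 : IsClosed {w : Fin g → ℂ | ‖a w‖ ≤ (∑ i ∈ t, |C i|) * ‖b w‖} :=
      isClosed_le hac.norm (continuous_const.mul hbc.norm)
    exact closure_minimal (fun w hw => hw.2 hw.1) h4 h3
  refine ⟨a z₀ / b z₀, ?_⟩
  filter_upwards [hab, gen_ne hb' ⟨z₀, hz₀⟩] with z h1 h2
  have hl : Differentiable ℂ fun s : ℂ => z₀ + s • (z - z₀) := by fun_prop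
  have had : Differentiable ℂ a := fun w => (ha w trivial).differentiableAt
  have hbd : Differentiable ℂ b := fun w => (hb' w trivial).differentiableAt
  have h3 := lb_liouville (a := fun s : ℂ => a (z₀ + s • (z - z₀)))
    (b := fun s : ℂ => b (z₀ + s • (z - z₀))) (had.comp hl) (hbd.comp hl)
    (fun s => key _) (s := 1) (t := 0) (by simpa using h2) (by simpa using hz₀)
  rw [h1]
  simpa using h3

end GPC73

end

section

/-! Sections on the abelian variety and the standard affine charts. -/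

open MvPolynomial Filter Topology

namespace GPC73

variable {g N : ℕ}

/-- Theta functions of weight `D`. -/
def Sc (A : AbVar g N) (D : ℕ) (Ψ : (Fin g → ℂ) → ℂ) : Prop :=
  En Ψ ∧ ∀ j z, Ψ (z + A.ω j) = Complex.exp (D * (A.a j z + A.b j)) * Ψ z

/-- Affine coordinates. -/
noncomputable def xc (A : AbVar g N) (k : Fin (N + 1)) (z : Fin g → ℂ) (i : Fin (N + 1)) : ℂ :=
  A.θ i z / A.θ k z

/-- Polynomials in the affine coordinates. -/
noncomputable def ev (A : AbVar g N) (k : Fin (N + 1)) (f : MvPolynomial (Fin (N + 1)) ℂ)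
    (z : Fin g → ℂ) : ℂ := eval (xc A k z) f

variable {A : AbVar g N} {D D' : ℕ} {Ψ Φ : (Fin g → ℂ) → ℂ} {k : Fin (N + 1)}

theorem Sc.mul (h : Sc A D Ψ) (h' : Sc A D' Φ) : Sc A (D + D') fun z => Ψ z * Φ z := by
  refine ⟨h.1.mul h'.1, fun j z => ?_⟩
  simp only [h.2 j z, h'.2 j z, Nat.cast_add, add_mul (D : ℂ), Complex.exp_add]
  ring

theorem Sc.pow (h : Sc A D Ψ) (n : ℕ) : Sc A (D * n) fun z => Ψ z ^ n := by
  refine ⟨h.1.pow n, fun j z => ?_⟩
  simp only [h.2 j z, mul_pow, ← Complex.exp_nat_mul, Nat.cast_mul]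
  congr 2
  ring

theorem sc_theta (A : AbVar g N) (i : Fin (N + 1)) : Sc A 1 (A.θ i) := by
  refine ⟨A.hol i, fun j z => ?_⟩
  rw [A.aut, Nat.cast_one, one_mul]

/-- `Gx.gx_hom`, `an_eval`. -/
theorem sc_eval {ι : Type} {Ψ : ι → (Fin g → ℂ) → ℂ} (h : ∀ i, Sc A D (Ψ i))
    {q : MvPolynomial ι ℂ} {e : ℕ} (hq : q.IsHomogeneous e) :
    Sc A (D * e) fun z => eval (fun i => Ψ i z) q := by
  refine ⟨an_eval Ψ (fun i => (h i).1) q, fun j z => ?_⟩
  simp only [fun i => (h i).2 j z]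
  rw [Gx.gx_hom hq, ← Complex.exp_nat_mul, Nat.cast_mul]
  congr 2
  ring

/-- `gen_tr`, `gen_eq_at`. -/
theorem sc_of_per {u : (Fin g → ℂ) → ℂ} (h : Sc A D Φ) (hΨ : En Ψ)
    (hu : ∀ j, (fun z => u (z + A.ω j)) =ᶠ[gen g] u) (e : Ψ =ᶠ[gen g] fun z => u z * Φ z) :
    Sc A D Ψ := by
  refine ⟨hΨ, fun j z => ?_⟩
  have hc : Continuous Ψ := continuousOn_univ.1 hΨ.continuousOn
  have h1 : (fun z => Ψ (z + A.ω j)) =ᶠ[gen g]
      fun z => Complex.exp (D * (A.a j z + A.b j)) * Ψ z := by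
    filter_upwards [(gen_tr (A.ω j)).eventually e, e, hu j] with w h1 h2 h3
    simp only [h1, h2, h3, h.2 j w]
    ring
  refine gen_eq_at h1 (z := z) ?_ ?_
  · exact (hc.comp (continuous_id.add continuous_const)).continuousAt
  · exact Continuous.continuousAt (by fun_prop)

theorem xc_per (j : Fin (2 * g)) (z : Fin g → ℂ) : xc A k (z + A.ω j) = xc A k z := by
  funext i
  simp only [xc, A.aut]
  exact mul_div_mul_left _ _ (Complex.exp_ne_zero _)

theorem ev_an (f : MvPolynomial (Fin (N + 1)) ℂ) :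
    AnalyticOnNhd ℂ (ev A k f) {z | A.θ k z ≠ 0} := by
  refine an_eval (fun i z => xc A k z i) (fun i z hz => ?_) f
  exact (A.hol i z trivial).div (A.hol k z trivial) hz

theorem ev_mer (f : MvPolynomial (Fin (N + 1)) ℂ) : Mer (ev A k f) := by
  exact mer_eval (u := fun i z => xc A k z i)
    (fun i => (En.mer (A.hol i)).div (En.mer (A.hol k))) f

/-- `gen_eq_at`. -/
theorem ev_zero_iff (hk : ∃ z, A.θ k z ≠ 0) {f : MvPolynomial (Fin (N + 1)) ℂ} :
    ev A k f =ᶠ[gen g] (fun _ => 0) ↔ ∀ z, A.θ k z ≠ 0 → ev A k f z = 0 := by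
  constructor
  · intro h z hz
    exact gen_eq_at h (ev_an f z hz).continuousAt continuousAt_const
  · intro h
    filter_upwards [gen_ne (A.hol k) hk] with z hz using h z hz

/-- `Mer.zero_or_ne`. -/
theorem ev_ne_iff (hk : ∃ z, A.θ k z ≠ 0) {f : MvPolynomial (Fin (N + 1)) ℂ} :
    (∀ᶠ z in gen g, ev A k f z ≠ 0) ↔ ∃ z, A.θ k z ≠ 0 ∧ ev A k f z ≠ 0 := by
  constructor
  · intro h
    exact ((gen_ne (A.hol k) hk).and h).exists
  · rintro ⟨z, hz, h⟩
    rcases (ev_mer (A := A) (k := k) f).zero_or_ne with h0 | h0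
    · exact absurd ((ev_zero_iff hk).1 h0 z hz) h
    · exact h0

/-- Points of the chart: finitely many equations over `Qb` suffice (the ideal spanned by the forms
of `A.alg` is finitely generated; `norm_hom`). -/
theorem exists_eqs (A : AbVar g N) (k : Fin (N + 1)) :
    ∃ s : Finset (MvPolynomial (Fin (N + 1)) Qb),
      (∀ p ∈ s, ∀ z, A.θ k z ≠ 0 → aeval (xc A k z) p = 0) ∧
      ∀ y : Fin (N + 1) → ℂ, y k = 1 → (∀ p ∈ s, aeval y p = 0) →
        ∃ z, A.θ k z ≠ 0 ∧ xc A k z = y := by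
  obtain ⟨S, -, hS⟩ := A.alg
  obtain ⟨s, hs⟩ : (Ideal.span S).FG := IsNoetherian.noetherian _
  have key : ∀ (y : Fin (N + 1) → ℂ) (T : Set (MvPolynomial (Fin (N + 1)) Qb)),
      (∀ p ∈ T, aeval y p = 0) → ∀ p ∈ Ideal.span T, aeval y p = 0 := fun y T hT p hp =>
    (Ideal.span_le (I := RingHom.ker (aeval (R := Qb) y))).2 hT hp
  have hne : ∀ y : Fin (N + 1) → ℂ, y k = 1 → y ≠ 0 := fun y hy h0 => by
    rw [h0] at hy
    exact zero_ne_one hy
  refine ⟨s, fun p hp z hz => ?_, fun y hy h => ?_⟩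
  · refine key _ S ((hS _ (hne _ (div_self hz))).2 ⟨z, (A.θ k z)⁻¹, fun i => ?_⟩) p ?_
    · rw [xc, div_eq_inv_mul]
    · rw [← hs]
      exact Ideal.subset_span hp
  · obtain ⟨z, c, hc⟩ := (hS y (hne y hy)).1 fun p hp =>
      key y s h p (by rw [hs]; exact Ideal.subset_span hp)
    have hk : c * A.θ k z = 1 := by rw [← hc, hy]
    have hz : A.θ k z ≠ 0 := right_ne_zero_of_mul (hk.symm ▸ one_ne_zero)
    refine ⟨z, hz, funext fun i => ?_⟩
    rw [xc, div_eq_iff hz, hc i]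
    linear_combination (-A.θ i z) * hk

theorem xc_inj {z w : Fin g → ℂ} (hz : A.θ k z ≠ 0) (hw : A.θ k w ≠ 0)
    (h : xc A k z = xc A k w) : ∃ n, w = z + A.per n := by
  refine A.inj z w (A.θ k w / A.θ k z) fun i => ?_
  have := congrFun h i
  simp only [xc] at this
  rw [div_eq_div_iff hz hw] at this
  field_simp
  linear_combination -this

end GPC73

end

section

/-! Sections are rational in each standard chart. -/

open MvPolynomial Filter Topology

namespace GPC73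

variable {g N : ℕ} {A : AbVar g N} {D : ℕ} {Ψ : (Fin g → ℂ) → ℂ} {k : Fin (N + 1)}

/-- Translations under which the theta functions are automorphic. -/
def cht2Grp (A : AbVar g N) : AddSubgroup (Fin g → ℂ) where
  carrier := {x | ∃ c : (Fin g → ℂ) → ℂ, (∀ z, c z ≠ 0) ∧ (∀ z i, A.θ i (z + x) = c z * A.θ i z) ∧
    ∀ D Ψ, Sc A D Ψ → ∀ z, Ψ (z + x) = c z ^ D * Ψ z}
  zero_mem' := ⟨fun _ => 1, fun _ => one_ne_zero, fun z i => by simp, fun D Ψ _ p => by simp⟩
  add_mem' := by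
    rintro x y ⟨c, h1, h2, h3⟩ ⟨c', h1', h2', h3'⟩
    refine ⟨fun z => c' (z + x) * c z, fun z => mul_ne_zero (h1' _) (h1 _), fun z i => ?_,
      fun D Ψ h p => ?_⟩
    · rw [← add_assoc, h2', h2, mul_assoc]
    · rw [← add_assoc, h3' D Ψ h, h3 D Ψ h, mul_pow, mul_assoc]
  neg_mem' := by
    rintro x ⟨c, h1, h2, h3⟩
    refine ⟨fun z => (c (z + -x))⁻¹, fun z => inv_ne_zero (h1 _), fun z i => ?_,
      fun D Ψ h p => ?_⟩
    · have := h2 (z + -x) i
      rw [neg_add_cancel_right] at this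
      rw [this, inv_mul_cancel_left₀ (h1 _)]
    · have := h3 D Ψ h (p + -x)
      rw [neg_add_cancel_right] at this
      rw [this, inv_pow, inv_mul_cancel_left₀ (pow_ne_zero _ (h1 _))]

theorem cht2_per (A : AbVar g N) (n : Fin (2 * g) → ℤ) : A.per n ∈ cht2Grp A := by
  refine sum_mem fun j _ => zsmul_mem ?_ _
  refine ⟨fun z => Complex.exp (A.a j z + A.b j), fun z => Complex.exp_ne_zero _,
    fun z i => A.aut i j z, fun D Ψ hΨ p => ?_⟩
  rw [hΨ.2 j p, Complex.exp_nat_mul]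

/-- The function `‖Ψ z‖ / ‖fun i => θ i z‖ ^ D` is continuous and periodic, hence bounded (compare
`Gx.growth`). -/
theorem sc_bound (h : Sc A D Ψ) : ∃ C : ℝ, ∀ z, ‖Ψ z‖ ≤ C * ‖fun i => A.θ i z‖ ^ D := by
  have hK := isCompact_closedBall (0 : Fin g → ℂ) (∑ j, ‖A.ω j‖)
  have hθ : Continuous fun z => fun i => A.θ i z :=
    continuous_pi fun i => continuousOn_univ.1 (A.hol i).continuousOn
  have hΨ : Continuous Ψ := continuousOn_univ.1 h.1.continuousOn
  have hc : ∀ z, 0 < ‖fun i => A.θ i z‖ ^ D := fun z => by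
    obtain ⟨i, hi⟩ := A.ne z
    exact pow_pos (norm_pos_iff.2 fun h0 => hi (congrFun h0 i)) D
  have hq : Continuous fun z => ‖Ψ z‖ / ‖fun i => A.θ i z‖ ^ D :=
    hΨ.norm.div (hθ.norm.pow D) fun z => (hc z).ne'
  obtain ⟨M, hM⟩ := hK.exists_bound_of_continuousOn hq.continuousOn
  refine ⟨M, fun z => ?_⟩
  let n : Fin (2 * g) → ℤ := fun j => -⌊A.ω.repr z j⌋
  have h3 : z + A.per n = ZSpan.fract A.ω z := by
    rw [ZSpan.fract_apply, ZSpan.floor, sub_eq_add_neg, AbVar.per, Submodule.coe_sum,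
      ← Finset.sum_neg_distrib]
    congr 1
    refine Finset.sum_congr rfl fun j _ => ?_
    rw [Submodule.coe_smul, Module.Basis.restrictScalars_apply, neg_smul]
  have h4 := hM (z + A.per n)
    (mem_closedBall_zero_iff.2 (le_of_eq_of_le (congrArg norm h3) (ZSpan.norm_fract_le A.ω z)))
  obtain ⟨c, a1, a2, a3⟩ := cht2_per A n
  have e : (fun i => A.θ i (z + A.per n)) = c z • fun i => A.θ i z := funext fun i => a2 z i
  rw [a3 D Ψ h z, e, norm_smul, _root_.norm_mul, _root_.norm_pow, mul_pow,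
    mul_div_mul_left _ _ (pow_ne_zero D (norm_ne_zero_iff.2 (a1 z)))] at h4
  exact (div_le_iff₀ (hc z)).1 ((le_abs_self _).trans h4)

/-- Polynomials vanishing on the chart. -/
def cht2I (A : AbVar g N) (k : Fin (N + 1)) : Ideal (MvPolynomial (Fin (N + 1)) ℂ) where
  carrier := {f | ∀ z, A.θ k z ≠ 0 → ev A k f z = 0}
  add_mem' := fun {a b} ha hb z hz => by
    have h1 := ha z hz
    have h2 := hb z hz
    simp only [ev] at h1 h2 ⊢
    rw [map_add, h1, h2, add_zero]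
  zero_mem' := fun z _ => by simp [ev]
  smul_mem' := fun c a ha z hz => by
    have h1 := ha z hz
    simp only [ev] at h1 ⊢
    rw [smul_eq_mul, map_mul, h1, mul_zero]

theorem cht2_ne {f : MvPolynomial (Fin (N + 1)) ℂ} (hk : ∃ z, A.θ k z ≠ 0) (hf : f ∉ cht2I A k) :
    ∀ᶠ z in gen g, ev A k f z ≠ 0 := by
  refine (ev_ne_iff hk).2 ?_
  by_contra hn
  exact hf fun z hz => by_contra fun h0 => hn ⟨z, hz, h0⟩

theorem cht2_prime (hk : ∃ z, A.θ k z ≠ 0) : (cht2I A k).IsPrime := by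
  refine ⟨fun h => ?_, fun {a b} hab => ?_⟩
  · obtain ⟨z, hz⟩ := hk
    have h1 : (1 : MvPolynomial (Fin (N + 1)) ℂ) ∈ cht2I A k := by rw [h]; trivial
    have := h1 z hz
    simp [ev] at this
  · by_contra hn
    rw [not_or] at hn
    obtain ⟨z, ⟨h1, h2⟩, h3⟩ :=
      (((cht2_ne hk hn.1).and (cht2_ne hk hn.2)).and (gen_ne (A.hol k) hk)).exists
    have := hab z h3
    simp only [ev] at h1 h2 this
    rw [map_mul] at this
    exact mul_ne_zero h1 h2 this

theorem cht2_an (i : Fin (N + 1)) : AnalyticOnNhd ℂ (fun z => xc A k z i) {z | A.θ k z ≠ 0} :=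
  fun z hz => (A.hol i z trivial).div (A.hol k z trivial) hz

theorem cht2_map (x : Fin (N + 1) → ℂ) (p : MvPolynomial (Fin (N + 1)) Qb) :
    eval x (map (algebraMap Qb ℂ) p) = aeval x p := by
  rw [eval_map, aeval_def]

theorem cht2_ns (χ : Fin (N + 1) → ℂ) (h : ∀ f ∈ cht2I A k, eval χ f = 0) :
    ∃ z ∈ {z | A.θ k z ≠ 0}, χ = fun i => xc A k z i := by
  obtain ⟨s, hs1, hs2⟩ := exists_eqs A k
  have h1 : χ k = 1 := by
    have := h (X k - 1) fun z hz => by
      simp only [ev, xc, map_sub, eval_X, map_one]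
      rw [div_self hz, sub_self]
    simpa [sub_eq_zero] using this
  obtain ⟨z, hz, e⟩ := hs2 χ h1 fun p hp => by
    rw [← cht2_map]
    refine h _ fun z hz => ?_
    rw [ev, cht2_map]
    exact hs1 p hp z hz
  exact ⟨z, hz, e.symm⟩

theorem cht2_et {z : Fin g → ℂ} (hk : A.θ k z ≠ 0) (v : Fin g → ℂ)
    (h : ∀ i, fderiv ℂ (fun z => xc A k z i) z v = 0) : v = 0 := by
  have hd : ∀ i, HasDerivAt (fun t : ℂ => A.θ i (z + t • v)) (fderiv ℂ (A.θ i) z v) 0 :=
    fun i => mk1_line (A.hol i z trivial).differentiableAt v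
  refine A.imm z v (fderiv ℂ (A.θ k) z v / A.θ k z) fun i => ?_
  have h1 := mk1_line (cht2_an (A := A) (k := k) i z hk).differentiableAt v
  rw [h i] at h1
  have h2 := (hd i).div (hd k) (by simpa using hk)
  have h3 := h2.unique h1
  simp only [zero_smul, add_zero] at h3
  rw [div_eq_zero_iff, or_iff_left (pow_ne_zero 2 hk), sub_eq_zero] at h3
  rw [div_mul_eq_mul_div, eq_div_iff hk, h3, mul_comm]

/-- `alg_of_growth` for `O = {θ k ≠ 0}`, `ξ i z = θ i z / θ k z` and the ideal of polynomials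
vanishing on the chart (prime by `ev_zero_iff`, `ev_ne_iff`); `ns` from `exists_eqs`, `et` from
`A.imm` (compare `Gx.etl`), `u = Ψ / θ k ^ D` is invariant under all periods. -/
theorem gaga_chart (hk : ∃ z, A.θ k z ≠ 0) : ∃ Δ : MvPolynomial (Fin (N + 1)) ℂ,
    (∀ᶠ z in gen g, ev A k Δ z ≠ 0) ∧ ∀ D Ψ, Sc A D Ψ → ∃ f : MvPolynomial (Fin (N + 1)) ℂ,
      ∀ z, A.θ k z ≠ 0 → ev A k Δ z * (Ψ z / A.θ k z ^ D) = ev A k f z := by
  have := cht2_prime hk
  have hO : IsOpen {z | A.θ k z ≠ 0} :=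
    isOpen_ne_fun (continuousOn_univ.1 (A.hol k).continuousOn) continuous_const
  obtain ⟨Δ, c, hΔ, H⟩ := alg_of_growth hO (fun i z => xc A k z i) cht2_an (cht2I A k)
    (fun f hf z hz => hf z hz) cht2_ns (fun z hz v hv => cht2_et hz v hv)
  refine ⟨Δ, cht2_ne hk hΔ, fun D Ψ hΨ => ?_⟩
  obtain ⟨f, -, hf⟩ := H D (fun z => Ψ z / A.θ k z ^ D) (fun z hz =>
      (((hΨ.1 z trivial).div ((A.hol k z trivial).pow D)
        (pow_ne_zero D hz)).differentiableAt).differentiableWithinAt)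
    (fun z hz w hw e => by
      obtain ⟨n, rfl⟩ := xc_inj hz hw (funext e)
      obtain ⟨c, a1, a2, a3⟩ := cht2_per A n
      rw [a3 D Ψ hΨ z, a2 z k, mul_pow, mul_div_mul_left _ _ (pow_ne_zero D (a1 z))])
    (by
      obtain ⟨C, hC⟩ := sc_bound hΨ
      refine ⟨|C|, fun z hz => ?_⟩
      have hz' : A.θ k z ≠ 0 := hz
      have hp : 0 < ‖A.θ k z‖ ^ D := pow_pos (norm_pos_iff.2 hz') D
      have e : (fun i => A.θ i z) = A.θ k z • fun i => xc A k z i := funext fun i => by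
        simp only [xc, Pi.smul_apply, smul_eq_mul]
        rw [mul_div_cancel₀ _ hz']
      rw [norm_div, _root_.norm_pow, div_le_iff₀ hp]
      refine (hC z).trans ?_
      rw [e, norm_smul, mul_pow, mul_comm (‖A.θ k z‖ ^ D), ← mul_assoc]
      refine mul_le_mul_of_nonneg_right ?_ hp.le
      exact mul_le_mul (le_abs_self C)
        (pow_le_pow_left₀ (norm_nonneg _) (by linarith) D) (by positivity) (abs_nonneg C))
  exact ⟨f, fun z hz => hf z hz⟩

end GPC73

end

section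

/-! Embeddings of `ℂ` over the algebraic numbers; linear projections of polynomials. -/

open MvPolynomial

namespace GPC73

theorem sig_bases {κ : Type} {v w : κ → ℂ} (hv : IsTranscendenceBasis Qb v)
    (hw : IsTranscendenceBasis Qb w) : ∃ σ : ℂ →ₐ[Qb] ℂ, ∀ i, σ (v i) = w i := by
  have i1 := IsAlgClosed.isAlgClosure_of_transcendence_basis v hv
  have i2 := IsAlgClosed.isAlgClosure_of_transcendence_basis w hw
  have key : ∀ p, IsAlgClosure.equivOfEquiv ℂ ℂ
      (hv.1.aevalEquiv.symm.trans hw.1.aevalEquiv).toRingEquiv (aeval v p) = aeval w p := fun p => by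
    rw [← hv.1.algebraMap_aevalEquiv, IsAlgClosure.equivOfEquiv_algebraMap,
      ← hw.1.algebraMap_aevalEquiv]
    exact congrArg _ (congrArg hw.1.aevalEquiv (hv.1.aevalEquiv.symm_apply_apply p))
  refine ⟨⟨(IsAlgClosure.equivOfEquiv ℂ ℂ
    (hv.1.aevalEquiv.symm.trans hw.1.aevalEquiv).toRingEquiv).toRingHom, fun r => ?_⟩, fun i => ?_⟩
  · have := key (C r)
    rw [aeval_C, aeval_C] at this
    exact this
  · have := key (X i)
    rw [aeval_X, aeval_X] at this
    exact this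

theorem sig_super {c : ℂ} (hc : Transcendental ℚ c) :
    ∃ t : Set ℂ, c ∈ t ∧ IsTranscendenceBasis Qb ((↑) : t → ℂ) := by
  obtain ⟨t, h1, h2⟩ := exists_isTranscendenceBasis_superset (R := Qb) (s := {c})
    ((algebraicIndependent_singleton_iff (⟨c, rfl⟩ : ({c} : Set ℂ))).2 hc.algebraicClosure)
  exact ⟨t, h1 rfl, h2⟩

/-- Choose a transcendental `c' ∉ S` (the algebraic numbers are countable:
`Algebraic.countable`; `ℂ` is not).  Extend `c` and `c'` to transcendence bases `v`, `w` of `ℂ` over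
`Qb` (`exists_isTranscendenceBasis_superset`), of the same cardinality
(`IsTranscendenceBasis.cardinalMk_eq`), take a bijection `e` of the index sets with `c ↦ c'`
(`Equiv.setValue` or `Equiv.swap`), and use `IsAlgClosed.lift` over `R = MvPolynomial ι Qb` acting
on `ℂ` by `aeval v` and on a copy of `ℂ` by `aeval (w ∘ e)` (or `IsAlgClosure.equivOfEquiv` with
`equivOfEquiv_algebraMap`). -/
theorem exists_sigma {c : ℂ} (hc : Transcendental ℚ c) {S : Set ℂ} (hS : S.Countable) :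
    ∃ σ : ℂ →ₐ[Qb] ℂ, σ c ∉ S := by
  classical
  obtain ⟨c', hc'⟩ : ∃ c', c' ∉ S ∪ {x : ℂ | IsAlgebraic ℚ x} := by
    by_contra h
    exact not_countable_complex ((hS.union (Algebraic.countable ℚ ℂ)).mono fun x _ =>
      not_not.1 fun q => h ⟨x, q⟩)
  obtain ⟨t, h1, h2⟩ := sig_super hc
  obtain ⟨t', h1', h2'⟩ := sig_super (c := c') fun q => hc' (Or.inr q)
  obtain ⟨e⟩ := Cardinal.eq.1 (h2.cardinalMk_eq h2')
  obtain ⟨σ, hσ⟩ := sig_bases h2 (h2'.comp_equiv (e.setValue ⟨c, h1⟩ ⟨c', h1'⟩))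
  refine ⟨σ, fun q => hc' (Or.inl ?_)⟩
  have := hσ ⟨c, h1⟩
  rw [Function.comp_apply, Equiv.setValue_eq] at this
  exact (show σ c = c' from this) ▸ q

theorem alg_of_countable {c : ℂ} {S : Set ℂ} (hS : S.Countable) (h : ∀ σ : ℂ →ₐ[Qb] ℂ, σ c ∈ S) :
    IsAlgebraic ℚ c := by
  by_contra hc
  obtain ⟨σ, hσ⟩ := exists_sigma hc hS
  exact hσ (h σ)

theorem sigma_alg (σ : ℂ →ₐ[Qb] ℂ) {c : ℂ} (hc : IsAlgebraic ℚ c) : σ c = c :=
  σ.commutes (⟨c, mem_algebraicClosure_iff.2 hc⟩ : Qb)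

variable {ι : Type}

theorem map_sigma (σ : ℂ →ₐ[Qb] ℂ) {f : MvPolynomial ι ℂ} (h : ∀ α, IsAlgebraic ℚ (coeff α f)) :
    map (σ : ℂ →+* ℂ) f = f := by
  ext α
  rw [coeff_map]
  exact sigma_alg σ (h α)

theorem map_sigma_map (σ : ℂ →ₐ[Qb] ℂ) (f : MvPolynomial ι Qb) :
    map (σ : ℂ →+* ℂ) (map (algebraMap Qb ℂ) f) = map (algebraMap Qb ℂ) f := by
  rw [map_map, σ.comp_algebraMap]

theorem eval_sigma (σ : ℂ →ₐ[Qb] ℂ) (y : ι → Qb) (f : MvPolynomial ι ℂ) :
    eval (fun i => (y i : ℂ)) (map (σ : ℂ →+* ℂ) f) = σ (eval (fun i => (y i : ℂ)) f) := by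
  have : (fun i => (y i : ℂ)) = (σ : ℂ →+* ℂ) ∘ fun i => (y i : ℂ) :=
    funext fun i => (σ.commutes (y i)).symm
  conv_lhs => rw [this]
  exact (map_eval (σ : ℂ →+* ℂ) _ f).symm

/-- A linear form applied to the coefficients. -/
noncomputable def pm (π : ℂ →ₗ[Qb] Qb) (f : MvPolynomial ι ℂ) : MvPolynomial ι Qb :=
  ∑ α ∈ f.support, monomial α (π (coeff α f))

theorem sig_coeff (π : ℂ →ₗ[Qb] Qb) (f : MvPolynomial ι ℂ) (α : ι →₀ ℕ) :
    coeff α (pm π f) = π (coeff α f) := by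
  classical
  simp only [pm, coeff_sum, coeff_monomial]
  rw [Finset.sum_ite_eq']
  split_ifs with h
  · rfl
  · rw [notMem_support_iff.1 h, map_zero]

theorem aeval_pm (π : ℂ →ₗ[Qb] Qb) (y : ι → Qb) (f : MvPolynomial ι ℂ) :
    aeval (fun i => (y i : ℂ)) (pm π f) = (π (eval (fun i => (y i : ℂ)) f) : ℂ) := by
  have e : ∀ α : ι →₀ ℕ, coeff α f * ∏ i ∈ α.support, (y i : ℂ) ^ α i =
      (∏ i ∈ α.support, y i ^ α i) • coeff α f := fun α => by
    rw [Algebra.smul_def, map_prod, mul_comm]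
    simp only [map_pow]
    rfl
  rw [pm, map_sum, eval_eq]
  simp only [e, map_sum, map_smul, aeval_monomial]
  change _ = algebraMap Qb ℂ _
  rw [map_sum]
  refine Finset.sum_congr rfl fun α _ => ?_
  rw [smul_eq_mul, map_mul, map_prod, mul_comm]
  simp only [map_pow]
  rfl

/-- Expand the finitely many coefficients of `f` in `Module.Basis.ofVectorSpace Qb ℂ`:
`f = ∑ s, C (b s) * map _ (pm (b.coord s) f)`. -/
theorem mem_of_pm (I : Ideal (MvPolynomial ι ℂ)) (f : MvPolynomial ι ℂ)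
    (h : ∀ π : ℂ →ₗ[Qb] Qb, map (algebraMap Qb ℂ) (pm π f) ∈ I) : f ∈ I := by
  classical
  obtain ⟨κ, b, -⟩ : ∃ (κ : Type) (_ : Module.Basis κ Qb ℂ), True :=
    ⟨_, Module.Basis.ofVectorSpace Qb ℂ, trivial⟩
  have e : f = ∑ s ∈ f.support.biUnion fun α => (b.repr (coeff α f)).support,
      C (b s) * map (algebraMap Qb ℂ) (pm (b.coord s) f) := by
    ext α
    simp only [coeff_sum, coeff_C_mul, coeff_map, sig_coeff, Module.Basis.coord_apply]
    by_cases hα : α ∈ f.support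
    · conv_lhs => rw [← b.linearCombination_repr (coeff α f), Finsupp.linearCombination_apply,
        Finsupp.sum_of_support_subset _
          (Finset.subset_biUnion_of_mem (fun α => (b.repr (coeff α f)).support) hα)
          (fun i a => a • b i) fun _ _ => zero_smul _ _]
      exact Finset.sum_congr rfl fun s _ => by rw [Algebra.smul_def, mul_comm]
    · simp [notMem_support_iff.1 hα]
  rw [e]
  exact I.sum_mem fun s _ => I.mul_mem_left _ (h _)

end GPC73

end

section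

/-! Algebraic points are dense. -/

open MvPolynomial Filter Topology

namespace GPC73

variable {g N : ℕ} {A : AbVar g N} {k : Fin (N + 1)}

/-- Density of algebraic points, for polynomials over `Qb`: as `exists_point` (in `Arith.lean`),
without homogeneity; use `exists_eqs` and the ideal spanned by `s` and `X k - 1`. -/
theorem exists_apt₀ (q : MvPolynomial (Fin (N + 1)) Qb)
    (h : ∃ z, A.θ k z ≠ 0 ∧ aeval (xc A k z) q ≠ 0) :
    ∃ (z : Fin g → ℂ) (y : Fin (N + 1) → Qb), A.θ k z ≠ 0 ∧ (xc A k z = fun i => (y i : ℂ)) ∧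
      aeval (xc A k z) q ≠ 0 := by
  obtain ⟨s, hs, hs'⟩ := exists_eqs A k
  obtain ⟨z, hz, hqz⟩ := h
  have : IsAlgClosed Qb := (algebraicClosure.isAlgClosure ℚ ℂ).isAlgClosed
  set I : Ideal (MvPolynomial (Fin (N + 1)) Qb) :=
    Ideal.span (insert (X k - 1) (s : Set (MvPolynomial (Fin (N + 1)) Qb))) with hI
  have key : ∃ x₀ ∈ zeroLocus Qb I, aeval x₀ q ≠ 0 := by
    by_contra hcon
    push Not at hcon
    have h1 : q ∈ I.radical := by
      rw [← vanishingIdeal_zeroLocus_eq_radical (K := Qb)]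
      exact hcon
    obtain ⟨n, hn⟩ := h1
    have hle : I ≤ RingHom.ker (aeval (xc A k z) : MvPolynomial (Fin (N + 1)) Qb →ₐ[Qb] ℂ) := by
      rw [hI, Ideal.span_le]
      rintro p (rfl | hp)
      · simp [xc, hz]
      · exact hs p hp z hz
    have h2 : aeval (xc A k z) q ^ n = 0 := by
      rw [← map_pow]
      exact hle hn
    exact hqz (pow_eq_zero_iff' .. |>.1 h2).1
  obtain ⟨x₀, hx₀, hq₀⟩ := key
  have hev : ∀ p : MvPolynomial (Fin (N + 1)) Qb,
      aeval (fun i => (x₀ i : ℂ)) p = ((aeval x₀ p : Qb) : ℂ) := fun p =>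
    aeval_algebraMap_apply ℂ x₀ p
  have hk : x₀ k = 1 := by
    have := hx₀ (X k - 1) (Ideal.subset_span (Set.mem_insert _ _))
    simpa [sub_eq_zero] using this
  obtain ⟨x, hx, hx'⟩ := hs' (fun i => (x₀ i : ℂ)) (by simp [hk]) fun p hp => by
    rw [hev, hx₀ p (Ideal.subset_span (Set.mem_insert_of_mem _ hp))]
    rfl
  refine ⟨x, x₀, hx, hx', fun h0 => hq₀ ?_⟩
  rw [hx', hev] at h0
  exact Subtype.ext h0

/-- `mem_of_pm` for the ideal of polynomials vanishing on the chart. -/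
theorem exists_pm {f : MvPolynomial (Fin (N + 1)) ℂ} (h : ∃ z, A.θ k z ≠ 0 ∧ ev A k f z ≠ 0) :
    ∃ π : ℂ →ₗ[Qb] Qb, ∃ z, A.θ k z ≠ 0 ∧ aeval (xc A k z) (pm π f) ≠ 0 := by
  by_contra hcon
  push Not at hcon
  obtain ⟨z, hz, hf⟩ := h
  refine hf (mem_of_pm (RingHom.ker (eval (xc A k z))) f fun π => ?_)
  rw [RingHom.mem_ker, eval_map, ← aeval_def]
  exact hcon π z hz

/-- `exists_pm`, `exists_apt₀`, `aeval_pm`. -/
theorem exists_apt {f : MvPolynomial (Fin (N + 1)) ℂ} (h : ∃ z, A.θ k z ≠ 0 ∧ ev A k f z ≠ 0) :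
    ∃ (z : Fin g → ℂ) (y : Fin (N + 1) → Qb), A.θ k z ≠ 0 ∧ (xc A k z = fun i => (y i : ℂ)) ∧
      ev A k f z ≠ 0 := by
  obtain ⟨π, h1⟩ := exists_pm h
  obtain ⟨z, y, hz, hy, h2⟩ := exists_apt₀ _ h1
  refine ⟨z, y, hz, hy, fun h0 => h2 ?_⟩
  rw [ev, hy] at h0
  rw [hy, aeval_pm, h0, map_zero]
  rfl

/-- `exists_apt`, `eval_sigma`, `ev_zero_iff`, `ev_ne_iff`, `Mer.zero_or_ne`. -/
theorem conj_zero (hk : ∃ z, A.θ k z ≠ 0) (σ : ℂ →ₐ[Qb] ℂ) {f : MvPolynomial (Fin (N + 1)) ℂ}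
    (h : ev A k f =ᶠ[gen g] fun _ => 0) :
    ev A k (map (σ : ℂ →+* ℂ) f) =ᶠ[gen g] fun _ => 0 := by
  rw [ev_zero_iff hk] at h ⊢
  by_contra hcon
  push Not at hcon
  obtain ⟨z, y, hz, hy, h1⟩ := exists_apt hcon
  have h2 := h z hz
  rw [ev, hy] at h1 h2
  rw [eval_sigma, h2, map_zero] at h1
  exact h1 rfl

theorem conj_ne (hk : ∃ z, A.θ k z ≠ 0) (σ : ℂ →ₐ[Qb] ℂ) {f : MvPolynomial (Fin (N + 1)) ℂ}
    (h : ∀ᶠ z in gen g, ev A k f z ≠ 0) :
    ∀ᶠ z in gen g, ev A k (map (σ : ℂ →+* ℂ) f) z ≠ 0 := by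
  rw [ev_ne_iff hk] at h ⊢
  obtain ⟨z, y, hz, hy, h1⟩ := exists_apt h
  refine ⟨z, hz, ?_⟩
  rw [ev, hy] at h1 ⊢
  rw [eval_sigma]
  exact (map_ne_zero σ).2 h1

end GPC73

end

section

/-! Conjugates of rational functions under embeddings of `ℂ` over the algebraic numbers. -/

open MvPolynomial Filter Topology

namespace GPC73

variable {g N : ℕ} {A : AbVar g N} {k : Fin (N + 1)}

/-- `u` is a rational function and `v` is its conjugate by `σ`. -/
def Cj (A : AbVar g N) (k : Fin (N + 1)) (σ : ℂ →ₐ[Qb] ℂ) (u v : (Fin g → ℂ) → ℂ) : Prop :=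
  (∃ z, A.θ k z ≠ 0) ∧ ∃ p q : MvPolynomial (Fin (N + 1)) ℂ, (∀ᶠ z in gen g, ev A k q z ≠ 0) ∧
    (u =ᶠ[gen g] fun z => ev A k p z / ev A k q z) ∧
    v =ᶠ[gen g] fun z => ev A k (map (σ : ℂ →+* ℂ) p) z / ev A k (map (σ : ℂ →+* ℂ) q) z

variable {σ : ℂ →ₐ[Qb] ℂ} {u v u' v' : (Fin g → ℂ) → ℂ}

theorem cj_ev_add (p q : MvPolynomial (Fin (N + 1)) ℂ) (z : Fin g → ℂ) :
    ev A k (p + q) z = ev A k p z + ev A k q z := map_add _ _ _

theorem cj_ev_mul (p q : MvPolynomial (Fin (N + 1)) ℂ) (z : Fin g → ℂ) :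
    ev A k (p * q) z = ev A k p z * ev A k q z := map_mul _ _ _

theorem cj_mul (h : Cj A k σ u v) (h' : Cj A k σ u' v') :
    Cj A k σ (fun z => u z * u' z) fun z => v z * v' z := by
  obtain ⟨hk, p, q, hq, hu, hv⟩ := h
  obtain ⟨-, p', q', hq', hu', hv'⟩ := h'
  refine ⟨hk, p * p', q * q', ?_, ?_, ?_⟩
  · filter_upwards [hq, hq'] with z h1 h2
    rw [cj_ev_mul]
    exact mul_ne_zero h1 h2
  · filter_upwards [hu, hu'] with z h3 h4
    rw [h3, h4, cj_ev_mul, cj_ev_mul, div_mul_div_comm]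
  · filter_upwards [hv, hv'] with z h3 h4
    rw [h3, h4, map_mul, map_mul, cj_ev_mul, cj_ev_mul, div_mul_div_comm]

theorem Cj.congr (h : Cj A k σ u v) (e : u =ᶠ[gen g] u') (e' : v =ᶠ[gen g] v') :
    Cj A k σ u' v' := by
  obtain ⟨hk, p, q, hq, hu, hv⟩ := h
  exact ⟨hk, p, q, hq, e.symm.trans hu, e'.symm.trans hv⟩

theorem cj_const (hk : ∃ z, A.θ k z ≠ 0) (σ : ℂ →ₐ[Qb] ℂ) (c : ℂ) :
    Cj A k σ (fun _ => c) fun _ => σ c := by
  refine ⟨hk, C c, 1, ?_, ?_, ?_⟩ <;> exact Eventually.of_forall fun z => by simp [ev]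

/-- `θ i / θ l = (θ i / θ k) / (θ l / θ k)`; if `θ l` is identically zero both functions vanish. -/
theorem cj_x (hk : ∃ z, A.θ k z ≠ 0) (σ : ℂ →ₐ[Qb] ℂ) (l i : Fin (N + 1)) :
    Cj A k σ (fun z => xc A l z i) fun z => xc A l z i := by
  by_cases hl : ∃ z, A.θ l z ≠ 0
  · have h1 : (fun z => xc A l z i) =ᶠ[gen g] fun z => ev A k (X i) z / ev A k (X l) z := by
      filter_upwards [gen_ne (A.hol k) hk] with z hz
      simp only [ev, eval_X, xc]
      rw [div_div_div_cancel_right₀ hz]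
    refine ⟨hk, X i, X l, ?_, h1, by simpa only [map_X] using h1⟩
    filter_upwards [gen_ne (A.hol k) hk, gen_ne (A.hol l) hl] with z hz hz'
    simp only [ev, eval_X, xc]
    exact div_ne_zero hz' hz
  · push Not at hl
    refine (cj_const hk σ 0).congr ?_ ?_ <;> exact Eventually.of_forall fun z => by simp [xc, hl]

theorem Cj.add (h : Cj A k σ u v) (h' : Cj A k σ u' v') :
    Cj A k σ (fun z => u z + u' z) fun z => v z + v' z := by
  obtain ⟨hk, p, q, hq, hu, hv⟩ := h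
  obtain ⟨-, p', q', hq', hu', hv'⟩ := h'
  refine ⟨hk, p * q' + q * p', q * q', ?_, ?_, ?_⟩
  · filter_upwards [hq, hq'] with z h1 h2
    rw [cj_ev_mul]
    exact mul_ne_zero h1 h2
  · filter_upwards [hq, hq', hu, hu'] with z h1 h2 h3 h4
    rw [h3, h4, cj_ev_add, cj_ev_mul, cj_ev_mul, cj_ev_mul, div_add_div _ _ h1 h2]
  · filter_upwards [conj_ne hk σ hq, conj_ne hk σ hq', hv, hv'] with z h1 h2 h3 h4
    rw [h3, h4, map_add, map_mul, map_mul, map_mul, cj_ev_add, cj_ev_mul, cj_ev_mul, cj_ev_mul,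
      div_add_div _ _ h1 h2]

theorem Cj.sub (h : Cj A k σ u v) (h' : Cj A k σ u' v') :
    Cj A k σ (fun z => u z - u' z) fun z => v z - v' z := by
  refine (h.add (cj_mul (cj_const h.1 σ (-1)) h')).congr ?_ ?_ <;>
    exact Eventually.of_forall fun z => by simp [sub_eq_add_neg]

theorem Cj.mul (h : Cj A k σ u v) (h' : Cj A k σ u' v') :
    Cj A k σ (fun z => u z * u' z) fun z => v z * v' z := by
  exact cj_mul h h'

theorem Cj.pow (h : Cj A k σ u v) (n : ℕ) :
    Cj A k σ (fun z => u z ^ n) fun z => v z ^ n := by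
  induction n with
  | zero => simpa using cj_const h.1 σ 1
  | succ n ih => simpa only [pow_succ] using ih.mul h

theorem Cj.zero (h : Cj A k σ u v) (e : u =ᶠ[gen g] fun _ => 0) : v =ᶠ[gen g] fun _ => 0 := by
  obtain ⟨hk, p, q, hq, hu, hv⟩ := h
  have h1 : ev A k p =ᶠ[gen g] fun _ => 0 := by
    filter_upwards [hq, hu, e] with z h1 h2 h3
    exact (div_eq_zero_iff.1 (h2.symm.trans h3)).resolve_right h1
  filter_upwards [hv, conj_zero hk σ h1] with z h2 h3
  rw [h2, h3, zero_div]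

theorem Cj.ne (h : Cj A k σ u v) (e : ∀ᶠ z in gen g, u z ≠ 0) : ∀ᶠ z in gen g, v z ≠ 0 := by
  obtain ⟨hk, p, q, hq, hu, hv⟩ := h
  have h1 : ∀ᶠ z in gen g, ev A k p z ≠ 0 := by
    filter_upwards [hu, e] with z h2 h3
    rw [h2] at h3
    exact (div_ne_zero_iff.1 h3).1
  filter_upwards [hv, conj_ne hk σ h1, conj_ne hk σ hq] with z h2 h3 h4
  rw [h2]
  exact div_ne_zero h3 h4

theorem Cj.unique (h : Cj A k σ u v) (h' : Cj A k σ u' v') (e : u =ᶠ[gen g] u') :
    v =ᶠ[gen g] v' := by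
  have h1 := (h.sub h').zero (by
    filter_upwards [e] with z hz
    rw [hz, sub_self])
  filter_upwards [h1] with z hz
  exact sub_eq_zero.1 hz

theorem Cj.mer (h : Cj A k σ u v) : Mer u ∧ Mer v := by
  obtain ⟨-, p, q, -, hu, hv⟩ := h
  exact ⟨((ev_mer p).div (ev_mer q)).congr hu.symm, ((ev_mer _).div (ev_mer _)).congr hv.symm⟩

/-- If `u'` is generically zero so is `v'`, and both quotients vanish. -/
theorem Cj.div (h : Cj A k σ u v) (h' : Cj A k σ u' v') :
    Cj A k σ (fun z => u z / u' z) fun z => v z / v' z := by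
  rcases h'.mer.1.zero_or_ne with e | e
  · refine (cj_const h.1 σ 0).congr ?_ ?_
    · filter_upwards [e] with z hz
      rw [hz, div_zero]
    · filter_upwards [h'.zero e] with z hz
      rw [hz, div_zero, map_zero]
  obtain ⟨hk, p, q, hq, hu, hv⟩ := h
  obtain ⟨-, p', q', hq', hu', hv'⟩ := h'
  refine ⟨hk, p * q', q * p', ?_, ?_, ?_⟩
  · filter_upwards [hq, hu', e] with z h1 h2 h3
    rw [h2] at h3
    rw [cj_ev_mul]
    exact mul_ne_zero h1 (div_ne_zero_iff.1 h3).1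
  · filter_upwards [hu, hu'] with z h3 h4
    rw [h3, h4, cj_ev_mul, cj_ev_mul, div_div_div_eq]
  · filter_upwards [hv, hv'] with z h3 h4
    rw [h3, h4, map_mul, map_mul, cj_ev_mul, cj_ev_mul, div_div_div_eq]

theorem cj_sum (hk : ∃ z, A.θ k z ≠ 0) {ι : Type} (s : Finset ι) {u v : ι → (Fin g → ℂ) → ℂ}
    (h : ∀ i, Cj A k σ (u i) (v i)) :
    Cj A k σ (fun z => ∑ i ∈ s, u i z) fun z => ∑ i ∈ s, v i z := by
  classical
  induction s using Finset.induction_on with
  | empty => simpa using cj_const hk σ 0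
  | insert a s ha ih => simpa only [Finset.sum_insert ha] using (h a).add ih

theorem cj_eval (hk : ∃ z, A.θ k z ≠ 0) {ι : Type} {u v : ι → (Fin g → ℂ) → ℂ}
    (h : ∀ i, Cj A k σ (u i) (v i)) (f : MvPolynomial ι ℂ) :
    Cj A k σ (fun z => eval (fun i => u i z) f)
      fun z => eval (fun i => v i z) (map (σ : ℂ →+* ℂ) f) := by
  induction f using MvPolynomial.induction_on with
  | C a => simpa using cj_const hk σ a
  | add p q hp hq => simpa only [map_add] using hp.add hq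
  | mul_X p i hp => simpa only [map_mul, map_X, eval_X] using hp.mul (h i)

/-- `xc_per`, `gen_tr`. -/
theorem Cj.per (h : Cj A k σ u v) (j : Fin (2 * g)) :
    (fun z => u (z + A.ω j)) =ᶠ[gen g] u ∧ (fun z => v (z + A.ω j)) =ᶠ[gen g] v := by
  obtain ⟨-, p, q, -, hu, hv⟩ := h
  constructor
  · filter_upwards [(gen_tr (A.ω j)).eventually hu, hu] with z h1 h2
    rw [h1, h2]
    simp only [ev, xc_per]
  · filter_upwards [(gen_tr (A.ω j)).eventually hv, hv] with z h1 h2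
    rw [h1, h2]
    simp only [ev, xc_per]

/-- Quotients of sections of the same weight are rational (`gaga_chart`). -/
theorem cj_sc (hk : ∃ z, A.θ k z ≠ 0) (σ : ℂ →ₐ[Qb] ℂ) {D : ℕ} {Ψ Φ : (Fin g → ℂ) → ℂ}
    (h : Sc A D Ψ) (h' : Sc A D Φ) : ∃ v, Cj A k σ (fun z => Ψ z / Φ z) v := by
  by_cases hΦ : ∃ z, Φ z ≠ 0
  · obtain ⟨Δ, hΔ, hf⟩ := gaga_chart hk
    obtain ⟨f, h1⟩ := hf D Ψ h
    obtain ⟨f', h2⟩ := hf D Φ h'
    refine ⟨_, hk, f, f', ?_, ?_, EventuallyEq.rfl⟩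
    · filter_upwards [hΔ, gen_ne (A.hol k) hk, gen_ne h'.1 hΦ] with z a1 a2 a3
      rw [← h2 z a2]
      exact mul_ne_zero a1 (div_ne_zero a3 (pow_ne_zero _ a2))
    · filter_upwards [hΔ, gen_ne (A.hol k) hk] with z a1 a2
      rw [← h1 z a2, ← h2 z a2, mul_div_mul_left _ _ a1,
        div_div_div_cancel_right₀ (pow_ne_zero _ a2)]
  · push Not at hΦ
    exact ⟨_, (cj_const hk σ 0).congr (Eventually.of_forall fun z => by simp [hΦ])
      EventuallyEq.rfl⟩

end GPC73

end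

section

/-! Derivatives of conjugates; descent to the algebraic numbers. -/

open MvPolynomial Filter Topology

namespace GPC73

variable {g N : ℕ} {A : AbVar g N} {k : Fin (N + 1)} {σ : ℂ →ₐ[Qb] ℂ} {u v : (Fin g → ℂ) → ℂ}

theorem cj2_map (p : MvPolynomial (Fin (N + 1)) Qb) (z : Fin g → ℂ) :
    ev A k (map (algebraMap Qb ℂ) p) z = aeval (xc A k z) p := by
  rw [ev, eval_map, aeval_def]

theorem cj2_val {d : ℕ} {p : MvPolynomial (Fin (N + 1)) Qb} (hp : p.IsHomogeneous d)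
    {z : Fin g → ℂ} (hz : A.θ k z ≠ 0) : val A.θ p z = A.θ k z ^ d * aeval (xc A k z) p := by
  rw [← norm_hom hp, val]
  congr 2
  funext i
  rw [xc, mul_div_cancel₀ _ hz]

theorem cj2_ev (hk : ∃ z, A.θ k z ≠ 0) (σ : ℂ →ₐ[Qb] ℂ) (f : MvPolynomial (Fin (N + 1)) ℂ) :
    Cj A k σ (ev A k f) (ev A k (map (σ : ℂ →+* ℂ) f)) :=
  ⟨hk, f, 1, Eventually.of_forall fun z => by simp [ev], Eventually.of_forall fun z => by simp [ev],
    Eventually.of_forall fun z => by simp [ev]⟩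

/-- Dehomogenise (`norm_hom`, `map_sigma_map`); if `b` is generically zero both quotients vanish. -/
theorem cj_isRat (hk : ∃ z, A.θ k z ≠ 0) (σ : ℂ →ₐ[Qb] ℂ) {a b : (Fin g → ℂ) → ℂ} (hb : En b)
    (h : IsRat A.θ a b) : Cj A k σ (fun z => a z / b z) fun z => a z / b z := by
  obtain ⟨d, p, q, hp, hq, hq0, h⟩ := h
  by_cases hb0 : ∃ z, b z ≠ 0
  · have e : (fun z => a z / b z) =ᶠ[gen g] fun z =>
        ev A k (map (algebraMap Qb ℂ) p) z / ev A k (map (algebraMap Qb ℂ) q) z := by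
      filter_upwards [gen_ne (A.hol k) hk, gen_ne (norm_an A q) hq0, gen_ne hb hb0] with z h1 h2 h3
      have h4 := h z
      rw [cj2_val (k := k) hq h1] at h2 h4
      rw [cj2_val (k := k) hp h1] at h4
      rw [cj2_map, cj2_map, div_eq_div_iff h3 (right_ne_zero_of_mul h2)]
      refine mul_left_cancel₀ (left_ne_zero_of_mul h2) ?_
      linear_combination h4
    refine ⟨hk, map (algebraMap Qb ℂ) p, map (algebraMap Qb ℂ) q, ?_, e, ?_⟩
    · filter_upwards [gen_ne (A.hol k) hk, gen_ne (norm_an A q) hq0] with z h1 h2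
      rw [cj2_val (k := k) hq h1] at h2
      rw [cj2_map]
      exact right_ne_zero_of_mul h2
    · rw [map_sigma_map, map_sigma_map]
      exact e
  · push Not at hb0
    refine (cj_const hk σ 0).congr (Eventually.of_forall fun z => ?_)
      (Eventually.of_forall fun z => ?_) <;> simp [hb0]

theorem cj2_dx (i : Fin (N + 1)) {z : Fin g → ℂ} (hz : A.θ k z ≠ 0) :
    DifferentiableAt ℂ (fun w => xc A k w i) z :=
  Gx.gx_ddiv (A.hol i z trivial).differentiableAt (A.hol k z trivial).differentiableAt hz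

theorem cj2_pdx (hk : ∃ z, A.θ k z ≠ 0) (σ : ℂ →ₐ[Qb] ℂ) (j : Fin g) (i : Fin (N + 1)) :
    Cj A k σ (pd j fun w => xc A k w i) (pd j fun w => xc A k w i) := by
  have e : (fun z => (A.θ k * pd j (A.θ i) - A.θ i * pd j (A.θ k)) z / (A.θ k ^ 2) z) =ᶠ[gen g]
      pd j fun w => xc A k w i := by
    filter_upwards [gen_ne (A.hol k) hk] with z hz
    exact (Gx.gx_div (A.hol i z trivial).differentiableAt (A.hol k z trivial).differentiableAt
      hz j).symm
  exact (cj_isRat hk σ ((A.hol k).pow 2) (A.der i k j)).congr e e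

theorem cj2_chain (hk : ∃ z, A.θ k z ≠ 0) (j : Fin g) (f : MvPolynomial (Fin (N + 1)) ℂ) :
    (fun z => ∑ i, ev A k (pderiv i f) z * pd j (fun w => xc A k w i) z) =ᶠ[gen g]
      pd j (ev A k f) := by
  filter_upwards [gen_ne (A.hol k) hk] with z hz
  exact (Gx.gx_chain (x := fun i w => xc A k w i) (fun i => cj2_dx i hz) j f).2.symm

theorem cj2_pdev (hk : ∃ z, A.θ k z ≠ 0) (σ : ℂ →ₐ[Qb] ℂ) (j : Fin g)
    (f : MvPolynomial (Fin (N + 1)) ℂ) :
    Cj A k σ (pd j (ev A k f)) (pd j (ev A k (map (σ : ℂ →+* ℂ) f))) := by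
  refine (cj_sum hk Finset.univ fun i =>
    (cj2_ev hk σ (pderiv i f)).mul (cj2_pdx hk σ j i)).congr (cj2_chain hk j f) ?_
  have := cj2_chain hk j (map (σ : ℂ →+* ℂ) f)
  simpa only [pderiv_map] using this

theorem cj2_quot (hk : ∃ z, A.θ k z ≠ 0) (j : Fin g) {p q : MvPolynomial (Fin (N + 1)) ℂ}
    (hq : ∀ᶠ z in gen g, ev A k q z ≠ 0) (hu : u =ᶠ[gen g] fun z => ev A k p z / ev A k q z) :
    (fun z => (ev A k q z * pd j (ev A k p) z - ev A k p z * pd j (ev A k q) z) /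
      ev A k q z ^ 2) =ᶠ[gen g] pd j u := by
  refine EventuallyEq.trans ?_ (gen_pd hu j).symm
  filter_upwards [gen_ne (A.hol k) hk, hq] with z hz h0
  exact (Gx.gx_div (ev_an p z hz).differentiableAt (ev_an q z hz).differentiableAt h0 j).symm

/-- `Gx.gx_chain`, `pderiv_map`, `Gx.gx_div`; the functions `pd j (θ i / θ k)` are their own
conjugates by `A.der` and `cj_isRat`; `gen_pd`. -/
theorem Cj.der (h : Cj A k σ u v) (j : Fin g) : Cj A k σ (pd j u) (pd j v) := by
  obtain ⟨hk, p, q, hq, hu, hv⟩ := h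
  exact ((((cj2_ev hk σ q).mul (cj2_pdev hk σ j p)).sub
    ((cj2_ev hk σ p).mul (cj2_pdev hk σ j q))).div ((cj2_ev hk σ q).pow 2)).congr
    (cj2_quot hk j hq hu) (cj2_quot hk j (conj_ne hk σ hq) hv)

/-- The value of `p / q` at an algebraic point. -/
theorem cj2_pt {s : ℂ} (h : Cj A k σ u fun z => u z + s) {p q : MvPolynomial (Fin (N + 1)) ℂ}
    (hq : ∀ᶠ z in gen g, ev A k q z ≠ 0) (hu : u =ᶠ[gen g] fun z => ev A k p z / ev A k q z)
    {z : Fin g → ℂ} {y : Fin (N + 1) → Qb} (hz : A.θ k z ≠ 0) (hy : xc A k z = fun i => (y i : ℂ))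
    (h0 : ev A k q z ≠ 0) : σ (ev A k p z / ev A k q z) = ev A k p z / ev A k q z + s := by
  have hk := h.1
  have h1 := h.unique (⟨hk, p, q, hq, hu, EventuallyEq.rfl⟩ : Cj A k σ u _) EventuallyEq.rfl
  have h2 : ev A k (map (σ : ℂ →+* ℂ) p * q - (p + C s * q) * map (σ : ℂ →+* ℂ) q) =ᶠ[gen g]
      fun _ => 0 := by
    filter_upwards [h1, hu, hq, conj_ne hk σ hq] with w e1 e2 e3 e4
    rw [e2, eq_div_iff e4] at e1
    simp only [ev, map_sub, map_mul, map_add, eval_C] at e1 e3 ⊢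
    rw [← e1]
    field_simp
    ring
  have h3 := (ev_zero_iff hk).1 h2 z hz
  simp only [ev, map_sub, map_mul, map_add, eval_C, hy, eval_sigma] at h0 h3 ⊢
  have h4 := (map_ne_zero σ).2 h0
  rw [map_div₀]
  field_simp
  linear_combination h3

/-- Let `u = p / q` (case `σ = id`) and `x₀` an algebraic point with `q ≠ 0` (`exists_apt`),
`s = p / q (x₀)`.  By `Cj.unique`, `σ p * q - (p + s' q) * σ q` vanishes on the chart
(`ev_zero_iff`); at `x₀` this gives `σ s = s + s'` (`eval_sigma`). -/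
theorem cj_shift (h : ∀ σ, ∃ s : ℂ, Cj A k σ u fun z => u z + s) :
    ∃ s : ℂ, ∀ σ, Cj A k σ (fun z => u z - s) fun z => u z - s := by
  obtain ⟨-, hk, p, q, hq, hu, -⟩ := h (AlgHom.id _ _)
  obtain ⟨z, y, hz, hy, h0⟩ := exists_apt ((ev_ne_iff hk).1 hq)
  refine ⟨ev A k p z / ev A k q z, fun σ => ?_⟩
  obtain ⟨s, hs⟩ := h σ
  refine (hs.sub (cj_const hk σ _)).congr EventuallyEq.rfl (Eventually.of_forall fun w => ?_)
  simp only [cj2_pt hs hq hu hz hy h0]
  ring

/-- Let `u = p / q`.  At an algebraic point with `q ≠ 0` the value `p / q` is fixed by all `σ`, so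
algebraic (`alg_of_countable`).  Take `π` from `exists_pm`; then `(π q * p - π p * q) * q` vanishes
at all algebraic points (`aeval_pm`), hence on the chart (`exists_apt`). -/
theorem cj_descent (h : ∀ σ, Cj A k σ u u) : ∃ p q : MvPolynomial (Fin (N + 1)) Qb,
    (∀ᶠ z in gen g, aeval (xc A k z) q ≠ 0) ∧
      u =ᶠ[gen g] fun z => aeval (xc A k z) p / aeval (xc A k z) q := by
  obtain ⟨hk, p, q, hq, hu, -⟩ := h (AlgHom.id _ _)
  obtain ⟨π, hπ⟩ := exists_pm ((ev_ne_iff hk).1 hq)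
  have h1 : ∀ᶠ z in gen g, aeval (xc A k z) (pm π q) ≠ 0 := by
    have := (ev_ne_iff hk (f := map (algebraMap Qb ℂ) (pm π q))).2 (by simpa only [cj2_map] using hπ)
    simpa only [cj2_map] using this
  have h2 : ∀ z, A.θ k z ≠ 0 → ev A k ((map (algebraMap Qb ℂ) (pm π q) * p -
      map (algebraMap Qb ℂ) (pm π p) * q) * q) z = 0 := by
    intro z hz
    by_contra hne
    obtain ⟨w, y, hw, hy, h0⟩ := exists_apt ⟨z, hz, hne⟩
    have e : ev A k ((map (algebraMap Qb ℂ) (pm π q) * p -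
        map (algebraMap Qb ℂ) (pm π p) * q) * q) w = ((π (ev A k q w) : ℂ) * ev A k p w -
          (π (ev A k p w) : ℂ) * ev A k q w) * ev A k q w := by
      have e1 := cj2_map (A := A) (k := k) (pm π q) w
      have e2 := cj2_map (A := A) (k := k) (pm π p) w
      rw [hy, aeval_pm, ← hy] at e1 e2
      simp only [ev, map_sub, map_mul] at e1 e2 ⊢
      rw [e1, e2]
    rw [e] at h0
    have h3 := right_ne_zero_of_mul h0
    have h4 : IsAlgebraic ℚ (ev A k p w / ev A k q w) :=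
      alg_of_countable (Set.countable_singleton (ev A k p w / ev A k q w)) fun σ => by
        have := cj2_pt (s := 0) ((h σ).congr EventuallyEq.rfl
          (Eventually.of_forall fun z => (add_zero _).symm)) hq hu hw hy h3
        rw [add_zero] at this
        exact this
    obtain ⟨c, hc⟩ : ∃ c : Qb, ev A k p w = c • ev A k q w :=
      ⟨⟨_, mem_algebraicClosure_iff.2 h4⟩, (div_mul_cancel₀ _ h3).symm⟩
    refine left_ne_zero_of_mul h0 ?_
    rw [hc, map_smul, smul_eq_mul, IntermediateField.coe_mul, IntermediateField.smul_def,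
      smul_eq_mul]
    ring
  refine ⟨pm π p, pm π q, h1, ?_⟩
  filter_upwards [h1, hu, hq, gen_ne (A.hol k) hk] with z e1 e2 e3 e4
  have e5 := h2 z e4
  have e6 := cj2_map (A := A) (k := k) (pm π q) z
  have e7 := cj2_map (A := A) (k := k) (pm π p) z
  simp only [ev, map_sub, map_mul] at e2 e3 e5 e6 e7
  rw [e6, e7] at e5
  rw [e2, div_eq_div_iff e3 e1]
  linear_combination (mul_eq_zero.1 e5).resolve_right e3

/-- Homogenisation: `∑ i ∈ range (d + 1), X k ^ (d - i) * homogeneousComponent i p`. -/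
theorem exists_form (k : Fin (N + 1)) (p : MvPolynomial (Fin (N + 1)) Qb) {d : ℕ}
    (hd : p.totalDegree ≤ d) : ∃ f : MvPolynomial (Fin (N + 1)) Qb, f.IsHomogeneous d ∧
      ∀ y : Fin (N + 1) → ℂ, y k ≠ 0 → aeval y f = y k ^ d * aeval (fun i => y i / y k) p := by
  refine ⟨∑ i ∈ Finset.range (d + 1), X k ^ (d - i) * homogeneousComponent i p, ?_, fun y hy => ?_⟩
  · refine IsHomogeneous.sum _ _ _ fun i hi => ?_
    have := (isHomogeneous_X_pow (R := Qb) k (d - i)).mul (homogeneousComponent_isHomogeneous i p)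
    rwa [Nat.sub_add_cancel (Nat.lt_succ_iff.1 (Finset.mem_range.1 hi))] at this
  · have hp : ∑ i ∈ Finset.range (d + 1), homogeneousComponent i p = p := by
      conv_rhs => rw [← sum_homogeneousComponent p]
      refine (Finset.sum_subset (Finset.range_mono (by omega)) fun i _ hi => ?_).symm
      exact homogeneousComponent_eq_zero _ _ (by simpa using hi)
    conv_rhs => rw [← hp]
    rw [map_sum, map_sum, Finset.mul_sum]
    refine Finset.sum_congr rfl fun i hi => ?_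
    have h1 := norm_hom (homogeneousComponent_isHomogeneous i p) (y k) fun i => y i / y k
    simp only [mul_div_cancel₀ _ hy] at h1
    rw [map_mul, map_pow, aeval_X, h1, ← mul_assoc, ← pow_add,
      Nat.sub_add_cancel (Nat.lt_succ_iff.1 (Finset.mem_range.1 hi))]

/-- `cj_descent`, `exists_form`, `gen_eq_at`. -/
theorem isRat_of_cj {a b : (Fin g → ℂ) → ℂ} (ha : En a) (hb : En b) (h0 : ∃ z, b z ≠ 0)
    (h : ∀ σ, Cj A k σ (fun z => a z / b z) fun z => a z / b z) : IsRat A.θ a b := by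
  have hk := gen_ne (A.hol k) (h (AlgHom.id _ _)).1
  obtain ⟨p, q, hq, hu⟩ := cj_descent h
  obtain ⟨P, hP, eP⟩ := exists_form k p (le_max_left _ q.totalDegree)
  obtain ⟨Q, hQ, eQ⟩ := exists_form k q (le_max_right p.totalDegree _)
  refine ⟨_, P, Q, hP, hQ, ?_, fun z => ?_⟩
  · obtain ⟨z, h1, h2⟩ := (hk.and hq).exists
    exact ⟨z, by rw [val, eQ _ h1]; exact mul_ne_zero (pow_ne_zero _ h1) h2⟩
  · refine gen_eq_at (u := fun z => val A.θ Q z * a z) (v := fun z => val A.θ P z * b z) ?_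
      ((norm_an A Q z trivial).mul (ha z trivial)).continuousAt
      ((norm_an A P z trivial).mul (hb z trivial)).continuousAt
    filter_upwards [hk, hq, hu, gen_ne hb h0] with w e1 e2 e3 e4
    rw [div_eq_div_iff e4 e2] at e3
    rw [val, val, eP _ e1, eQ _ e1]
    change _ * aeval (xc A k w) q * _ = _ * aeval (xc A k w) p * _
    linear_combination A.θ k w ^ max p.totalDegree q.totalDegree * e3

end GPC73

end
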