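import Pool.Agent.MP_57341d_ag.Mg.H73_Small
import Pool.Agent.MP_57341d_ag.Mg.H73_Mer

section

/-! The Riemann form. -/

open Matrix Complex

namespace GPC73

variable {g N : ℕ}

/-- `2 π i` times the Riemann form. -/
noncomputable def AbVar.Ec (A : AbVar g N) : Matrix (Fin (2 * g)) (Fin (2 * g)) ℂ :=
  Matrix.of fun j k => A.a j (A.ω k) - A.a k (A.ω j)

/-- The form that is real linear in `u`, complex linear in `v`, and equal to `a j v` at `ω j`. -/
noncomputable def pol_a (A : AbVar g N) (u v : Fin g → ℂ) : ℂ :=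
  ∑ j, (A.ω.repr u j : ℂ) * A.a j v

theorem pol_a_add_left (A : AbVar g N) (u u' v : Fin g → ℂ) :
    pol_a A (u + u') v = pol_a A u v + pol_a A u' v := by
  simp only [pol_a, map_add, Finsupp.add_apply, Complex.ofReal_add, add_mul,
    Finset.sum_add_distrib]

theorem pol_a_add_right (A : AbVar g N) (u v v' : Fin g → ℂ) :
    pol_a A u (v + v') = pol_a A u v + pol_a A u v' := by
  simp only [pol_a, map_add, mul_add, Finset.sum_add_distrib]

theorem pol_a_smul_left (A : AbVar g N) (t : ℝ) (u v : Fin g → ℂ) :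
    pol_a A (t • u) v = t * pol_a A u v := by
  simp only [pol_a, map_smul, Finsupp.smul_apply, smul_eq_mul, Complex.ofReal_mul,
    Finset.mul_sum, mul_assoc]

theorem pol_a_smul_right (A : AbVar g N) (c : ℂ) (u v : Fin g → ℂ) :
    pol_a A u (c • v) = c * pol_a A u v := by
  simp only [pol_a, map_smul, smul_eq_mul, Finset.mul_sum]
  exact Finset.sum_congr rfl fun j _ => mul_left_comm _ _ _

theorem pol_a_basis (A : AbVar g N) (k : Fin (2 * g)) (v : Fin g → ℂ) :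
    pol_a A (A.ω k) v = A.a k v := by
  simp [pol_a, Finsupp.single_apply, apply_ite]

theorem pol_a_eq (A : AbVar g N) (u v : Fin g → ℂ) :
    pol_a A u v = ∑ j, ∑ k, (A.ω.repr u j : ℂ) * (A.ω.repr v k : ℂ) * A.a j (A.ω k) := by
  refine Finset.sum_congr rfl fun j _ => ?_
  conv_lhs => rw [← A.ω.sum_repr v]
  simp only [map_sum, ContinuousLinearMap.map_smul_of_tower, Complex.real_smul, Finset.mul_sum,
    mul_assoc]

theorem pol_a_cont (A : AbVar g N) : Continuous fun z => pol_a A z z := by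
  refine continuous_finsetSum _ fun j _ => Continuous.mul ?_ (A.a j).continuous
  exact Complex.continuous_ofReal.comp (A.ω.coord j).continuous_of_finiteDimensional

theorem pol_int (A : AbVar g N) (j k : Fin (2 * g)) :
    ∃ n : ℤ, A.Ec j k = 2 * Real.pi * I * n := by
  obtain ⟨i, hi⟩ := A.ne 0
  have h1 := A.aut i j (0 + A.ω k)
  have h2 := A.aut i k (0 + A.ω j)
  rw [add_right_comm, h1, A.aut, A.aut, ← mul_assoc, ← mul_assoc] at h2
  have h3 := mul_right_cancel₀ hi h2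
  simp only [← Complex.exp_add, zero_add, map_zero] at h3
  obtain ⟨n, hn⟩ := Complex.exp_eq_exp_iff_exists_int.1 h3
  exact ⟨n, by simp only [AbVar.Ec, Matrix.of_apply]; linear_combination hn⟩

/-- The real bilinear form with matrix `E` in the basis of periods. -/
noncomputable def pol_e (A : AbVar g N) (E : Matrix (Fin (2 * g)) (Fin (2 * g)) ℤ)
    (u v : Fin g → ℂ) : ℝ := ∑ j, ∑ k, A.ω.repr u j * A.ω.repr v k * E j k

theorem pol_B (A : AbVar g N) {E : Matrix (Fin (2 * g)) (Fin (2 * g)) ℤ}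
    (hE : ∀ j k, A.Ec j k = 2 * Real.pi * I * E j k) (u v : Fin g → ℂ) :
    pol_a A u v - pol_a A v u = 2 * Real.pi * I * pol_e A E u v := by
  rw [pol_a_eq A u v, pol_a_eq A v u, Finset.sum_comm (f := fun j k =>
    (A.ω.repr v j : ℂ) * (A.ω.repr u k : ℂ) * A.a j (A.ω k)), pol_e]
  push_cast
  simp only [← Finset.sum_sub_distrib, Finset.mul_sum]
  refine Finset.sum_congr rfl fun j _ => Finset.sum_congr rfl fun k _ => ?_
  have := hE j k
  simp only [AbVar.Ec, Matrix.of_apply] at this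
  linear_combination (A.ω.repr u j : ℂ) * (A.ω.repr v k : ℂ) * this

theorem pol_compat (A : AbVar g N) {E : Matrix (Fin (2 * g)) (Fin (2 * g)) ℤ}
    (hE : ∀ j k, A.Ec j k = 2 * Real.pi * I * E j k) (u v : Fin g → ℂ) :
    pol_e A E (I • u) (I • v) = pol_e A E u v := by
  have h1 := pol_B A hE (I • u) (I • v)
  have h2 := pol_B A hE (I • u) v
  have h3 := pol_B A hE (I • v) u
  have h4 := pol_B A hE u v
  rw [pol_a_smul_right, pol_a_smul_right] at h1
  rw [pol_a_smul_right] at h2 h3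
  have h5 : (2 * Real.pi : ℂ) * (I * (pol_e A E (I • u) (I • v) - pol_e A E u v) +
      (pol_e A E (I • u) v - pol_e A E (I • v) u)) = 0 := by
    linear_combination -h1 + I * h2 - I * h3 + h4 +
      (2 * Real.pi * (pol_e A E (I • u) v - pol_e A E (I • v) u) + pol_a A v u - pol_a A u v) *
        Complex.I_sq
  have h6 := (mul_eq_zero.1 h5).resolve_left
    (mul_ne_zero two_ne_zero (Complex.ofReal_ne_zero.2 Real.pi_ne_zero))
  have h7 := congrArg Complex.im h6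
  simp only [Complex.add_im, Complex.mul_im, Complex.I_re, Complex.I_im, Complex.sub_im,
    Complex.sub_re, Complex.ofReal_im, Complex.ofReal_re, Complex.zero_im] at h7
  linarith

theorem pol_bound (A : AbVar g N) {φ : (Fin g → ℂ) → ℝ} (hc : Continuous φ)
    (hφ : ∀ j z, φ (z + A.ω j) = φ z + (A.a j z + A.b j).re) (i : Fin (N + 1)) :
    ∃ C : ℝ, ∀ z, ‖A.θ i z‖ * Real.exp (-φ z) ≤ C := by
  set G : (Fin g → ℂ) → ℝ := fun z => ‖A.θ i z‖ * Real.exp (-φ z) with hG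
  have hθ : Continuous (A.θ i) := continuousOn_univ.1 (A.hol i).continuousOn
  have hGc : Continuous G := by fun_prop
  have h1 : ∀ j, Function.Periodic G (A.ω j) := fun j z => by
    simp only [hG]
    rw [A.aut, hφ, _root_.norm_mul, Complex.norm_exp, mul_comm (Real.exp _), mul_assoc, ← Real.exp_add]
    congr 2
    ring
  have h2 : ∀ ν : Fin (2 * g) → ℤ, Function.Periodic G (A.per ν) := fun ν =>
    Finset.sum_induction _ (Function.Periodic G) (fun _ _ ha hb => ha.add_period hb)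
      (fun p => by rw [add_zero]) fun j _ => (h1 j).zsmul _
  obtain ⟨C, hC⟩ := (isCompact_closedBall (0 : Fin g → ℂ)
    (2 * ∑ j, ‖A.ω j‖)).bddAbove_image hGc.continuousOn
  refine ⟨C, fun z => ?_⟩
  obtain ⟨c, ν, h⟩ := small_grid A one_pos z
  have h3 := small_pt A c
  have h4 : G z = G (z - A.per ν) := ((h2 ν).sub_eq z).symm
  show G z ≤ C
  rw [h4]
  refine hC ⟨_, ?_, rfl⟩
  rw [mem_closedBall_zero_iff]
  have h5 := norm_add_le (z - (∑ j, (((c j : ℕ) : ℝ) / (1 : ℕ)) • A.ω j + A.per ν))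
    (∑ j, (((c j : ℕ) : ℝ) / (1 : ℕ)) • A.ω j)
  rw [show z - (∑ j, (((c j : ℕ) : ℝ) / (1 : ℕ)) • A.ω j + A.per ν) +
    ∑ j, (((c j : ℕ) : ℝ) / (1 : ℕ)) • A.ω j = z - A.per ν by abel] at h5
  rw [Nat.cast_one, div_one] at h
  rw [Nat.cast_one] at h3 h5
  linarith

theorem pol_pos (A : AbVar g N) {E : Matrix (Fin (2 * g)) (Fin (2 * g)) ℤ}
    (hE : ∀ j k, A.Ec j k = 2 * Real.pi * I * E j k) {w : Fin g → ℂ} (hw : w ≠ 0) :
    0 < pol_e A E w (I • w) := by
  by_contra he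
  rw [not_lt] at he
  set l : (Fin g → ℂ) →ₗ[ℝ] ℝ := A.ω.constr ℝ fun j => (A.b j).re - (A.a j (A.ω j)).re / 2
    with hl
  set φ : (Fin g → ℂ) → ℝ := fun z => (pol_a A z z).re / 2 + l z with hφ
  have hc : Continuous φ :=
    ((Complex.continuous_re.comp (pol_a_cont A)).div_const 2).add
      l.continuous_of_finiteDimensional
  have hlaw : ∀ j z, φ (z + A.ω j) = φ z + (A.a j z + A.b j).re := by
    intro j z
    have h1 := congrArg Complex.re (pol_B A hE z (A.ω j))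
    have h2 : l (A.ω j) = (A.b j).re - (A.a j (A.ω j)).re / 2 := A.ω.constr_basis ℝ _ j
    simp only [Complex.sub_re, Complex.mul_re, Complex.mul_im, Complex.I_re, Complex.I_im,
      Complex.ofReal_im, Complex.ofReal_re, Complex.re_ofNat, Complex.im_ofNat,
      pol_a_basis] at h1
    simp only [hφ, pol_a_add_left, pol_a_add_right, pol_a_basis, map_add, h2, Complex.add_re]
    linarith
  set p : ℂ := pol_a A w w with hp
  set c : ℂ := (l w : ℂ) - I * (l (I • w) : ℂ) with hcdef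
  have hq : pol_a A (I • w) w = I * p - 2 * Real.pi * I * pol_e A E w (I • w) := by
    have := pol_B A hE w (I • w)
    rw [pol_a_smul_right] at this
    linear_combination -this
  have hle : ∀ t : ℂ, φ (t • w) ≤ (p * t ^ 2 / 2 + c * t).re := by
    intro t
    have e1 : t • w = t.re • w + t.im • (I • w) := by
      conv_lhs => rw [← Complex.re_add_im t]
      rw [add_smul, mul_smul, Complex.coe_smul, Complex.coe_smul]
    have e2 : pol_a A (t • w) (t • w) =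
        p * t ^ 2 - 2 * Real.pi * I * pol_e A E w (I • w) * t.im * t := by
      rw [pol_a_smul_right]
      conv_lhs => rw [e1]
      rw [pol_a_add_left, pol_a_smul_left, pol_a_smul_left, hq, ← hp]
      linear_combination p * t * Complex.re_add_im t
    have e3 : l (t • w) = (c * t).re := by
      conv_lhs => rw [e1]
      simp only [map_add, map_smul, smul_eq_mul, hcdef, Complex.mul_re, Complex.sub_re,
        Complex.sub_im, Complex.mul_im, Complex.I_re, Complex.I_im, Complex.ofReal_im,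
        Complex.ofReal_re]
      ring
    have e4 : (2 * Real.pi * I * pol_e A E w (I • w) * t.im * t).re =
        -(2 * Real.pi * pol_e A E w (I • w) * t.im ^ 2) := by
      simp only [Complex.mul_re, Complex.mul_im, Complex.I_re, Complex.I_im, Complex.ofReal_im,
        Complex.ofReal_re, Complex.re_ofNat, Complex.im_ofNat]
      ring
    have e5 : 2 * Real.pi * pol_e A E w (I • w) * t.im ^ 2 ≤ 0 :=
      mul_nonpos_of_nonpos_of_nonneg (mul_nonpos_of_nonneg_of_nonpos (by positivity) he)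
        (sq_nonneg _)
    simp only [hφ, e2, e3, Complex.sub_re, e4, Complex.add_re, Complex.div_ofNat_re]
    linarith
  refine hw (A.imm 0 w c fun i => ?_)
  obtain ⟨C, hC⟩ := pol_bound A hc hlaw i
  have hd : Differentiable ℂ (A.θ i) := differentiableOn_univ.1 (A.hol i).differentiableOn
  set F : ℂ → ℂ := fun t => A.θ i (t • w) * Complex.exp (-(p * t ^ 2 / 2 + c * t)) with hF
  have hFd : Differentiable ℂ F := by fun_prop
  have hFb : Bornology.IsBounded (Set.range F) := by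
    rw [isBounded_iff_forall_norm_le]
    refine ⟨C, ?_⟩
    rintro _ ⟨t, rfl⟩
    refine le_trans ?_ (hC (t • w))
    simp only [hF, _root_.norm_mul, Complex.norm_exp, Complex.neg_re]
    exact mul_le_mul_of_nonneg_left (Real.exp_le_exp.2 (neg_le_neg (hle t))) (norm_nonneg _)
  have hconst : ∀ t : ℂ, A.θ i (t • w) = A.θ i 0 * Complex.exp (p * t ^ 2 / 2 + c * t) := by
    intro t
    have h1 := hFd.apply_eq_apply_of_bounded hFb t 0
    simp only [hF, zero_smul, ne_eq, OfNat.ofNat_ne_zero, not_false_eq_true, zero_pow, mul_zero,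
      zero_div, add_zero, neg_zero, Complex.exp_zero, mul_one] at h1
    rw [← h1, mul_assoc, ← Complex.exp_add, neg_add_cancel, Complex.exp_zero, mul_one]
  have d1 : HasDerivAt (fun t : ℂ => A.θ i (t • w)) (fderiv ℂ (A.θ i) 0 w) 0 := by
    have h1 : HasDerivAt (fun t : ℂ => t • w) w 0 := by
      simpa using (hasDerivAt_id (0 : ℂ)).smul_const w
    have h2 : HasFDerivAt (A.θ i) (fderiv ℂ (A.θ i) 0) ((0 : ℂ) • w) := by
      rw [zero_smul]; exact (hd 0).hasFDerivAt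
    exact h2.comp_hasDerivAt 0 h1
  have d2 : HasDerivAt (fun t : ℂ => A.θ i 0 * Complex.exp (p * t ^ 2 / 2 + c * t))
      (c * A.θ i 0) 0 := by
    have h1 : HasDerivAt (fun t : ℂ => p * t ^ 2 / 2 + c * t) c 0 := by
      have := (((hasDerivAt_pow 2 (0 : ℂ)).const_mul p).div_const 2).add
        ((hasDerivAt_id (0 : ℂ)).const_mul c)
      exact this.congr_deriv (by simp)
    have h2 := h1.cexp.const_mul (A.θ i 0)
    simpa [mul_comm] using h2
  rw [funext hconst] at d1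
  exact d1.unique d2

/-- Integrality: compute `θ i (ω j + ω k)` in two ways (`samp_symm`), `Complex.exp_eq_exp_iff_exists_int`.
Put `a u v = ∑ j, repr u j * a j v` (real linear in `u`, complex linear in `v`),
`B u v = a u v - a v u = 2 π i E u v`, purely imaginary.  One has
`B (I u) (I v) = B u v + I * (B (I u) v - B (I v) u)`, so `B (I u) (I v) = B u v`.
Positivity: with `S u v = re (a u v) / 2` and the weight `φ z = S z z + l z` of (the proof of)
`exists_weight`, `‖θ i z‖ ≤ C exp (φ z)`; `φ (t • w) = re (α t ^ 2 + λ t) + ‖t‖ ^ 2 * h / 2` with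
`h = S w w + S (I w) (I w) = π E w (I w)`.  If `h ≤ 0` then `t ↦ θ i (t • w) exp (-α t ^ 2 - λ t)` is
bounded, so constant (`Differentiable.apply_eq_apply_of_bounded`), and its derivative at `0` gives
`fderiv (θ i) 0 w = λ * θ i 0` for all `i`, so `w = 0` by `A.imm`. -/
theorem pol (A : AbVar g N) : ∃ (E : Matrix (Fin (2 * g)) (Fin (2 * g)) ℤ)
    (J : Matrix (Fin (2 * g)) (Fin (2 * g)) ℝ),
    (∀ j k, A.Ec j k = 2 * Real.pi * I * E j k) ∧ (∀ j, I • A.ω j = ∑ k, J j k • A.ω k) ∧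
    J * E.map (Int.cast : ℤ → ℝ) * Jᵀ = E.map (Int.cast : ℤ → ℝ) ∧
    ∀ u : Fin (2 * g) → ℝ, u ≠ 0 → 0 < (u ᵥ* E.map (Int.cast : ℤ → ℝ)) ⬝ᵥ (u ᵥ* J) := by
  choose E hE using pol_int A
  refine ⟨E, Matrix.of fun j k => A.ω.repr (I • A.ω j) k, hE,
    fun j => (A.ω.sum_repr _).symm, ?_, fun u hu => ?_⟩
  · ext j k
    have h1 := pol_compat A (E := E) hE (A.ω j) (A.ω k)
    have h2 : pol_e A E (A.ω j) (A.ω k) = E j k := by
      simp [pol_e, Finsupp.single_apply, apply_ite]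
    rw [h2, pol_e, Finset.sum_comm] at h1
    simp only [Matrix.mul_apply, Matrix.map_apply, Matrix.transpose_apply, Matrix.of_apply,
      Finset.sum_mul]
    rw [← h1]
    exact Finset.sum_congr rfl fun m _ => Finset.sum_congr rfl fun l _ => by ring
  · set w : Fin g → ℂ := ∑ j, u j • A.ω j with hw
    have h1 : ∀ j, A.ω.repr w j = u j := fun j => congrFun (A.ω.repr_sum_self u) j
    have h2 : w ≠ 0 := fun h => hu (funext fun j => by rw [← h1, h]; simp)
    have h3 : ∀ k, A.ω.repr (I • w) k = ∑ j, u j * A.ω.repr (I • A.ω j) k := by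
      intro k
      rw [hw, Finset.smul_sum]
      simp only [smul_comm I (u _), map_sum, map_smul, Finsupp.coe_finsetSum, Finset.sum_apply,
        Finsupp.smul_apply, smul_eq_mul]
    have h4 := pol_pos A (E := E) hE h2
    rw [pol_e, Finset.sum_comm] at h4
    simp only [h1, h3] at h4
    convert h4 using 1
    simp only [dotProduct, Matrix.vecMul, Matrix.map_apply, Matrix.of_apply]
    refine Finset.sum_congr rfl fun k _ => ?_
    rw [Finset.sum_mul]
    exact Finset.sum_congr rfl fun j _ => by ring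

/-- A real matrix comes from a complex linear map iff it commutes with the complex structure. -/
theorem cl_iff (A : AbVar g N) {J : Matrix (Fin (2 * g)) (Fin (2 * g)) ℝ}
    (hJ : ∀ j, I • A.ω j = ∑ k, J j k • A.ω k) (φ : Matrix (Fin (2 * g)) (Fin (2 * g)) ℝ) :
    (∃ α : (Fin g → ℂ) →L[ℂ] (Fin g → ℂ), ∀ j, α (A.ω j) = ∑ k, φ j k • A.ω k) ↔
      φ * J = J * φ := by
  have hsum : ∀ (X Y : Matrix (Fin (2 * g)) (Fin (2 * g)) ℝ) (j : Fin (2 * g)),
      ∑ k, X j k • ∑ l, Y k l • A.ω l = ∑ l, (X * Y) j l • A.ω l := by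
    intro X Y j
    simp only [Finset.smul_sum, smul_smul, Matrix.mul_apply, Finset.sum_smul]
    exact Finset.sum_comm
  have hI : ∀ j, I • ∑ k, φ j k • A.ω k = ∑ l, (φ * J) j l • A.ω l := by
    intro j
    rw [Finset.smul_sum, ← hsum]
    exact Finset.sum_congr rfl fun k _ => by rw [smul_comm, hJ]
  constructor
  · rintro ⟨α, hα⟩
    ext j l
    have h1 : α (I • A.ω j) = ∑ l, (J * φ) j l • A.ω l := by
      rw [hJ, map_sum, ← hsum]
      exact Finset.sum_congr rfl fun k _ => by rw [ContinuousLinearMap.map_smul_of_tower, hα]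
    rw [map_smul, hα, hI] at h1
    have h2 := congrArg (fun x => A.ω.repr x l) h1
    simpa only [Module.Basis.repr_sum_self] using h2
  · intro h
    set β : (Fin g → ℂ) →ₗ[ℝ] (Fin g → ℂ) := A.ω.constr ℝ fun j => ∑ k, φ j k • A.ω k with hβ
    have h1 : ∀ j, β (A.ω j) = ∑ k, φ j k • A.ω k := fun j => A.ω.constr_basis ℝ _ j
    have h2 : ∀ j, β (I • A.ω j) = I • β (A.ω j) := by
      intro j
      rw [h1, hI, h, hJ, map_sum, ← hsum]
      exact Finset.sum_congr rfl fun k _ => by rw [map_smul, h1]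
    have h3 : ∀ v, β (I • v) = I • β v := by
      intro v
      rw [← A.ω.sum_repr v, Finset.smul_sum, map_sum, map_sum, Finset.smul_sum]
      exact Finset.sum_congr rfl fun k _ => by
        rw [smul_comm I, β.map_smul, β.map_smul, h2, smul_comm I]
    have h4 : ∀ (c : ℂ) (v : Fin g → ℂ), c • v = c.re • v + c.im • (I • v) := by
      intro c v
      conv_lhs => rw [← Complex.re_add_im c]
      rw [add_smul, mul_smul, Complex.coe_smul, Complex.coe_smul]
    let α : (Fin g → ℂ) →ₗ[ℂ] (Fin g → ℂ) :=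
      { toFun := β
        map_add' := β.map_add
        map_smul' := fun c v => by
          rw [RingHom.id_apply, h4 c v, h4 c (β v), map_add, map_smul, map_smul, h3] }
    exact ⟨LinearMap.toContinuousLinearMap α, h1⟩

theorem ec_det (A : AbVar g N) : A.Ec.det ≠ 0 := by
  obtain ⟨E, J, hE, -, -, hpos⟩ := pol A
  have h1 : (E.map (Int.cast : ℤ → ℝ)).det ≠ 0 := by
    intro h
    obtain ⟨u, hu, h0⟩ := Matrix.exists_vecMul_eq_zero_iff.2 h
    have := hpos u hu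
    rw [h0, zero_dotProduct] at this
    exact lt_irrefl _ this
  have h2 : E.det ≠ 0 := by
    intro h
    apply h1
    rw [← Int.cast_det, h, Int.cast_zero]
  have h3 : A.Ec = (2 * Real.pi * I : ℂ) • E.map (Int.cast : ℤ → ℂ) := by
    ext j k
    rw [hE, Matrix.smul_apply, Matrix.map_apply, smul_eq_mul]
  rw [h3, Matrix.det_smul, ← Int.cast_det]
  exact mul_ne_zero (pow_ne_zero _ Complex.two_pi_I_ne_zero) (Int.cast_ne_zero.2 h2)

end GPC73

end

section

/-! The Cayley transform for a polarisation. -/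

open Matrix

namespace GPC73

theorem cay_det {n : Type} [Fintype n] [DecidableEq n] {E φ : Matrix n n ℚ} {J : Matrix n n ℝ}
    (hpos : ∀ u : n → ℝ, u ≠ 0 → 0 < (u ᵥ* E.map (algebraMap ℚ ℝ)) ⬝ᵥ (u ᵥ* J))
    (hφ : φ.map (algebraMap ℚ ℝ) * J = J * φ.map (algebraMap ℚ ℝ)) {t : ℚ} (ht : 0 ≤ t) :
    (E + t • (φ * E * φᵀ)).det ≠ 0 := by
  intro h0
  have h1 : ((E + t • (φ * E * φᵀ)).map (algebraMap ℚ ℝ)).det = 0 := by
    rw [← RingHom.mapMatrix_apply, ← RingHom.map_det, h0, map_zero]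
  obtain ⟨u, hu, h2⟩ := exists_vecMul_eq_zero_iff.2 h1
  have e1 : (E + t • (φ * E * φᵀ)).map (algebraMap ℚ ℝ) = E.map (algebraMap ℚ ℝ) +
      (t : ℝ) • (φ.map (algebraMap ℚ ℝ) * E.map (algebraMap ℚ ℝ) * (φ.map (algebraMap ℚ ℝ))ᵀ) := by
    rw [← transpose_map, ← Matrix.map_mul, ← Matrix.map_mul]
    generalize φ * E * φᵀ = F
    ext i j
    simp
  set D := φ.map (algebraMap ℚ ℝ)
  set F := E.map (algebraMap ℚ ℝ)
  have h3 : (u ᵥ* (D * F * Dᵀ)) ⬝ᵥ (u ᵥ* J) = ((u ᵥ* D) ᵥ* F) ⬝ᵥ ((u ᵥ* D) ᵥ* J) := by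
    rw [← vecMul_vecMul, ← dotProduct_mulVec, mulVec_transpose, vecMul_vecMul u J, ← hφ,
      ← vecMul_vecMul, ← vecMul_vecMul]
  have h4 : 0 ≤ ((u ᵥ* D) ᵥ* F) ⬝ᵥ ((u ᵥ* D) ᵥ* J) := by
    by_cases e3 : u ᵥ* D = 0
    · simp [e3]
    · exact (hpos _ e3).le
  have h5 := congrArg (· ⬝ᵥ (u ᵥ* J)) h2
  simp only [e1, vecMul_add, vecMul_smul, add_dotProduct, smul_dotProduct, zero_dotProduct, h3,
    smul_eq_mul] at h5
  have h6 : (0 : ℝ) ≤ t := by exact_mod_cast ht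
  nlinarith [hpos u hu, mul_nonneg h6 h4]

/-- The Cayley transform.  `E` is invertible by positivity and antisymmetric, `J * J = -1` is not
needed: `J` is invertible since `J E Jᵀ = E`.  Put `S = φ E φᵀ E⁻¹`, `ν = 1 + S`,
`φ₁ = ν⁻¹ (1 - S)`, `φ₂ = 2 ν⁻¹ φ`.  One has `S E = φ E φᵀ = E Sᵀ`; `S` commutes with `J` because
`J (φ E φᵀ) Jᵀ = φ E φᵀ`; `ν` is invertible: if `u ν = 0` then
`0 = u E (u J)ᵀ + (u φ) E (u φ J)ᵀ > 0`.  Finally `φ = (1 + φ₁)⁻¹ φ₂` since `1 + φ₁ = 2 ν⁻¹`. -/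
theorem cayley {n : Type} [Fintype n] [DecidableEq n] (E φ : Matrix n n ℚ) (J : Matrix n n ℝ)
    (hE : Eᵀ = -E) (hJ : J * E.map (Rat.cast : ℚ → ℝ) * Jᵀ = E.map (Rat.cast : ℚ → ℝ))
    (hpos : ∀ u : n → ℝ, u ≠ 0 → 0 < (u ᵥ* E.map (Rat.cast : ℚ → ℝ)) ⬝ᵥ (u ᵥ* J))
    (hφ : φ.map (Rat.cast : ℚ → ℝ) * J = J * φ.map (Rat.cast : ℚ → ℝ)) :
    ∃ φ₁ φ₂ : Matrix n n ℚ, φ₁.map (Rat.cast : ℚ → ℝ) * J = J * φ₁.map (Rat.cast : ℚ → ℝ) ∧
      φ₂.map (Rat.cast : ℚ → ℝ) * J = J * φ₂.map (Rat.cast : ℚ → ℝ) ∧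
      φ₁ * E * φ₁ᵀ + φ₂ * E * φ₂ᵀ = E ∧ (1 + φ₁).det ≠ 0 ∧ (1 + φ₁) * φ = φ₂ := by
  set f : Matrix n n ℚ →+* Matrix n n ℝ := (algebraMap ℚ ℝ).mapMatrix with hf
  have d0 : E.det ≠ 0 := by simpa using cay_det hpos hφ le_rfl
  have d1 : (E + φ * E * φᵀ).det ≠ 0 := by simpa using cay_det hpos hφ zero_le_one
  change J * f E * Jᵀ = f E at hJ
  change f φ * J = J * f φ at hφ
  change ∃ φ₁ φ₂ : Matrix n n ℚ, f φ₁ * J = J * f φ₁ ∧ f φ₂ * J = J * f φ₂ ∧ _
  set G := E + φ * E * φᵀ with hG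
  set T := E * G⁻¹ with hT
  have h1 : T * G = E := nonsing_inv_mul_cancel_right _ _ d1.isUnit
  have h2 : Gᵀ = -G := by
    simp only [hG, transpose_add, transpose_mul, transpose_transpose, hE, Matrix.neg_mul,
      Matrix.mul_neg, Matrix.mul_assoc, neg_add]
  have h3 : G * Tᵀ = E := by
    have := congrArg transpose h1
    rw [transpose_mul, h2, hE, Matrix.neg_mul] at this
    exact neg_injective this
  have h4 : E * Tᵀ = T * E := by
    calc _ = T * G * Tᵀ := by rw [h1]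
      _ = _ := by rw [Matrix.mul_assoc, h3]
  have dd : ∀ X : Matrix n n ℚ, X.det ≠ 0 → (f X).det ≠ 0 := fun X hX => by
    rw [hf, ← RingHom.map_det]
    exact (map_ne_zero _).2 hX
  have h5 : J * f G * Jᵀ = f G := by
    have e1 : f φᵀ = (f φ)ᵀ := rfl
    have e2 : (f φ)ᵀ * Jᵀ = Jᵀ * (f φ)ᵀ := by rw [← transpose_mul, ← hφ, transpose_mul]
    rw [hG, map_add, map_mul, map_mul, e1, Matrix.mul_add, Matrix.add_mul, hJ]
    congr 1
    calc _ = J * f φ * f E * ((f φ)ᵀ * Jᵀ) := by simp only [Matrix.mul_assoc]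
      _ = f φ * (J * f E * Jᵀ) * (f φ)ᵀ := by rw [← hφ, e2]; simp only [Matrix.mul_assoc]
      _ = _ := by rw [hJ]
  have h6 : f T * J = J * f T := by
    have e1 : J.det ≠ 0 := fun h0 => dd E d0 (by rw [← hJ, det_mul, det_mul, h0, zero_mul, zero_mul])
    have e2 : IsUnit (f G * Jᵀ) := by
      rw [isUnit_iff_isUnit_det, det_mul, det_transpose]
      exact (mul_ne_zero (dd G d1) e1).isUnit
    refine e2.mul_right_cancel ?_
    calc _ = f T * (J * f G * Jᵀ) := by simp only [Matrix.mul_assoc]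
      _ = J * (f T * f G) * Jᵀ := by rw [h5, ← map_mul, h1, hJ]
      _ = _ := by simp only [Matrix.mul_assoc]
  refine ⟨T + T - 1, (T + T) * φ, ?_, ?_, ?_, ?_, by rw [add_sub_cancel]⟩
  · simp only [map_sub, map_add, map_one, sub_mul, add_mul, mul_sub, mul_add, h6, mul_one, one_mul]
  · rw [map_mul, map_add, mul_assoc, hφ, ← mul_assoc, add_mul, h6, ← mul_add, mul_assoc]
  · have e1 : T * (φ * (E * (φᵀ * Tᵀ))) = T * E - T * (E * Tᵀ) := by
      rw [← mul_sub]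
      congr 1
      rw [eq_sub_iff_add_eq', ← h3]
      conv_rhs => rw [hG]
      simp only [h3, add_mul, mul_assoc]
    simp only [transpose_sub, transpose_add, transpose_mul, transpose_one, sub_mul, add_mul, mul_sub,
      mul_add, mul_one, one_mul, mul_assoc, e1]
    rw [h4]
    abel
  · rw [add_sub_cancel, ← two_smul ℚ T, det_smul, hT, det_mul, det_nonsing_inv, Ring.inverse_eq_inv']
    exact mul_ne_zero (pow_ne_zero _ two_ne_zero) (mul_ne_zero d0 (inv_ne_zero d1))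

end GPC73

end

section

/-! Pull-backs of theta functions by endomorphisms. -/

open Matrix

namespace GPC73

variable {g N : ℕ} (A : AbVar g N)

theorem end1_per_add (n m : Fin (2 * g) → ℤ) : A.per (n + m) = A.per n + A.per m := by
  simp only [AbVar.per, Pi.add_apply, add_smul, Finset.sum_add_distrib]

theorem end1_per_neg (n : Fin (2 * g) → ℤ) : A.per (-n) = - A.per n := by
  simp only [AbVar.per, Pi.neg_apply, neg_smul, Finset.sum_neg_distrib]

theorem end1_per_single (j : Fin (2 * g)) : A.per (Pi.single j 1) = A.ω j := by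
  unfold AbVar.per
  rw [Finset.sum_eq_single j]
  · simp
  · intro b _ hb
    simp [Pi.single_eq_of_ne hb]
  · simp

/-- The integer vectors for which the automorphy relation holds. -/
def end1Grp : AddSubgroup (Fin (2 * g) → ℤ) where
  carrier := {n | ∃ c : ℂ, ∀ i w,
    A.θ i (w + A.per n) = Complex.exp (∑ l, n l * A.a l w + c) * A.θ i w}
  zero_mem' := ⟨0, fun i w => by simp [AbVar.per]⟩
  add_mem' := by
    rintro n m ⟨c, hc⟩ ⟨d, hd⟩
    refine ⟨c + d + ∑ l, m l * A.a l (A.per n), fun i w => ?_⟩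
    rw [end1_per_add, ← add_assoc, hd, hc, ← mul_assoc, ← Complex.exp_add]
    congr 2
    simp only [map_add, Pi.add_apply, Int.cast_add, mul_add, add_mul, Finset.sum_add_distrib]
    ring
  neg_mem' := by
    rintro n ⟨c, hc⟩
    refine ⟨-c + ∑ l, n l * A.a l (A.per n), fun i w => ?_⟩
    have h := hc i (w + A.per (-n))
    rw [end1_per_neg, neg_add_cancel_right] at h
    rw [end1_per_neg, h, ← mul_assoc, ← Complex.exp_add]
    have e : ∑ l, ((-n) l : ℂ) * A.a l w + (-c + ∑ l, n l * A.a l (A.per n)) +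
        (∑ l, n l * A.a l (w + -A.per n) + c) = 0 := by
      simp only [map_add, map_neg, Pi.neg_apply, Int.cast_neg, mul_add, mul_neg, neg_mul,
        Finset.sum_add_distrib, Finset.sum_neg_distrib]
      ring
    rw [e, Complex.exp_zero, one_mul]

/-- The `n` with this property form a subgroup containing the standard basis
(`Pi.single`); or use `AddSubgroup.closure_induction`, compare `mk1Grp`, `mk1_per`. -/
theorem theta_per (n : Fin (2 * g) → ℤ) : ∃ c : ℂ, ∀ i w,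
    A.θ i (w + A.per n) = Complex.exp (∑ l, n l * A.a l w + c) * A.θ i w := by
  have h1 : ∀ j, (Pi.single j 1 : Fin (2 * g) → ℤ) ∈ end1Grp A := by
    intro j
    refine ⟨A.b j, fun i w => ?_⟩
    rw [end1_per_single, A.aut, Finset.sum_eq_single j]
    · simp
    · intro b _ hb
      simp [Pi.single_eq_of_ne hb]
    · simp
  have h2 : n = ∑ j, n j • (Pi.single j 1 : Fin (2 * g) → ℤ) := by
    funext k
    rw [Finset.sum_apply, Finset.sum_eq_single k]
    · simp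
    · intro b _ hb
      simp [Pi.single_eq_of_ne hb.symm]
    · simp
  have h3 : n ∈ end1Grp A := by
    rw [h2]
    exact AddSubgroup.sum_mem _ fun j _ => AddSubgroup.zsmul_mem _ (h1 j) _
  exact h3

theorem end1_lin (c : (Fin g → ℂ) →L[ℂ] ℂ) (v : Fin g → ℂ) :
    c v = ∑ m, (A.ω.repr v m : ℂ) * c (A.ω m) := by
  conv_lhs => rw [← A.ω.sum_repr v]
  rw [map_sum]
  refine Finset.sum_congr rfl fun m _ => ?_
  rw [← Complex.coe_smul, map_smul, smul_eq_mul]

theorem end1_en_clm (c : (Fin g → ℂ) →L[ℂ] ℂ) : En fun z => c z := c.analyticOnNhd _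

/-- `S u v = ∑ l, repr u l * c l v` is real bilinear and symmetric, complex linear in `v`, hence in
`u`; `Q z = S z z / 2 = ∑ j, z j * S z (Pi.single j 1) / 2` is a polynomial. -/
theorem exists_quad (c : Fin (2 * g) → (Fin g → ℂ) →L[ℂ] ℂ)
    (h : ∀ l m, c l (A.ω m) = c m (A.ω l)) :
    ∃ Q : (Fin g → ℂ) → ℂ, En Q ∧ ∀ l, ∃ d : ℂ, ∀ z, Q (z + A.ω l) = Q z + c l z + d := by
  obtain ⟨T, hT⟩ : ∃ T : (Fin g → ℂ) → (Fin g → ℂ) →L[ℂ] ℂ,
      ∀ u v, T u v = ∑ l, (A.ω.repr u l : ℂ) * c l v :=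
    ⟨fun u => ∑ l, (A.ω.repr u l : ℂ) • c l, fun u v => by
      simp only [_root_.sum_apply, _root_.smul_apply, smul_eq_mul]⟩
  have hs : ∀ u v, T u v = T v u := by
    intro u v
    rw [hT, hT]
    have e1 : ∀ l, (A.ω.repr u l : ℂ) * c l v =
        ∑ m, (A.ω.repr u l : ℂ) * (A.ω.repr v m : ℂ) * c l (A.ω m) := by
      intro l
      rw [end1_lin A (c l) v, Finset.mul_sum]
      exact Finset.sum_congr rfl fun m _ => by ring
    have e2 : ∀ m, (A.ω.repr v m : ℂ) * c m u =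
        ∑ l, (A.ω.repr u l : ℂ) * (A.ω.repr v m : ℂ) * c l (A.ω m) := by
      intro m
      rw [end1_lin A (c m) u, Finset.mul_sum]
      exact Finset.sum_congr rfl fun l _ => by rw [h l m]; ring
    simp only [e1, e2]
    exact Finset.sum_comm
  have hω : ∀ l v, T (A.ω l) v = c l v := by
    intro l v
    rw [hT, Finset.sum_eq_single l]
    · simp
    · intro b _ hb
      simp [Finsupp.single_eq_of_ne hb]
    · simp
  have hQ : (fun z => T z z / 2) = fun z => (∑ j, z j * T (Pi.single j 1) z) / 2 := by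
    funext z
    congr 1
    have e : z = ∑ j, z j • (Pi.single j 1 : Fin g → ℂ) := by
      funext k
      rw [Finset.sum_apply, Finset.sum_eq_single k]
      · simp
      · intro b _ hb
        simp [Pi.single_eq_of_ne hb.symm]
      · simp
    have e2 : T z z = T z (∑ j, z j • (Pi.single j 1 : Fin g → ℂ)) := by rw [← e]
    rw [e2, map_sum]
    refine Finset.sum_congr rfl fun j _ => ?_
    rw [map_smul, smul_eq_mul, hs]
  refine ⟨fun z => T z z / 2, ?_, fun l => ⟨c l (A.ω l) / 2, fun z => ?_⟩⟩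
  · rw [hQ]
    intro z hz
    refine AnalyticAt.div_const ?_
    refine Finset.analyticAt_fun_sum _ fun j _ => ?_
    exact (end1_en_clm (ContinuousLinearMap.proj j) z hz).mul (end1_en_clm _ z hz)
  · show T (z + A.ω l) (z + A.ω l) / 2 = T z z / 2 + c l z + c l (A.ω l) / 2
    rw [map_add, hs _ z, hs _ (A.ω l), map_add, map_add, hs z (A.ω l), hω, hω]
    ring

/-- Solve `Ec.mulVec t = d` (`ec_det`), put `y = ∑ m, t m • ω m` (complex coefficients) and
`ℓ = - ∑ m, t m • a m`. -/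
theorem exists_shift (d : Fin (2 * g) → ℂ) :
    ∃ (y : Fin g → ℂ) (ℓ : (Fin g → ℂ) →L[ℂ] ℂ), ∀ l, A.a l y + ℓ (A.ω l) = d l := by
  obtain ⟨t, ht⟩ : ∃ t, A.Ec *ᵥ t = d :=
    ⟨A.Ec⁻¹ *ᵥ d, by
      rw [Matrix.mulVec_mulVec, Matrix.mul_nonsing_inv _ (Ne.isUnit (ec_det A)), Matrix.one_mulVec]⟩
  refine ⟨∑ m, t m • A.ω m, -∑ m, t m • A.a m, fun l => ?_⟩
  rw [← ht]
  simp only [map_sum, map_smul, smul_eq_mul, _root_.neg_apply,
    _root_.sum_apply, _root_.smul_apply, Matrix.mulVec, dotProduct,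
    AbVar.Ec, Matrix.of_apply]
  rw [← sub_eq_add_neg, ← Finset.sum_sub_distrib]
  exact Finset.sum_congr rfl fun m _ => by ring

/-- The pull-backs of the `θ i` divide sections. -/
def Good (β : (Fin g → ℂ) →L[ℂ] (Fin g → ℂ)) : Prop :=
  ∀ y₀, ∃ (D : ℕ) (κ : (Fin g → ℂ) → ℂ), En κ ∧ (∃ z, κ z ≠ 0) ∧
    ∀ i, Sc A D fun z => A.θ i (β z + y₀) * κ z

theorem end1_en (i : Fin (N + 1)) (β : (Fin g → ℂ) →L[ℂ] (Fin g → ℂ)) (y : Fin g → ℂ) :
    En fun z => A.θ i (β z + y) := fun z _ =>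
  AnalyticAt.comp (g := A.θ i) (f := fun z => β z + y) (A.hol i _ trivial)
    ((β.analyticAt z).add analyticAt_const)

theorem good_id : Good A (ContinuousLinearMap.id ℂ _) := by
  intro y₀
  obtain ⟨m, hm⟩ := A.ne 0
  refine ⟨2, fun z => A.θ m (z + -y₀), end1_en A m (ContinuousLinearMap.id ℂ _) _,
    ⟨y₀, by simpa using hm⟩, fun i => ⟨?_, fun j z => ?_⟩⟩
  · exact (end1_en A i _ y₀).mul (end1_en A m (ContinuousLinearMap.id ℂ _) (-y₀))
  · simp only [ContinuousLinearMap.id_apply]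
    rw [add_right_comm z (A.ω j) y₀, add_right_comm z (A.ω j) (-y₀), A.aut, A.aut]
    have e : Complex.exp (((2 : ℕ) : ℂ) * (A.a j z + A.b j)) =
        Complex.exp (A.a j (z + y₀) + A.b j) * Complex.exp (A.a j (z + -y₀) + A.b j) := by
      rw [← Complex.exp_add]
      congr 1
      simp only [map_add, map_neg]
      push_cast
      ring
    rw [e]
    ring

theorem end1_mat (φ : Matrix (Fin (2 * g)) (Fin (2 * g)) ℤ) (l k : Fin (2 * g)) :
    (φ.map (Int.cast : ℤ → ℂ) * A.Ec * (φ.map (Int.cast : ℤ → ℂ))ᵀ) l k =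
      ∑ m, φ l m * A.a m (A.per (φ k)) - ∑ m, φ k m * A.a m (A.per (φ l)) := by
  have e : ∀ m (n : Fin (2 * g) → ℤ), A.a m (A.per n) = ∑ j, n j * A.a m (A.ω j) := by
    intro m n
    unfold AbVar.per
    rw [map_sum]
    exact Finset.sum_congr rfl fun j _ => by rw [map_zsmul, zsmul_eq_mul]
  simp only [e, Matrix.mul_apply, Matrix.transpose_apply, Matrix.map_apply, AbVar.Ec,
    Matrix.of_apply, Finset.mul_sum, Finset.sum_mul]
  rw [Finset.sum_comm (f := fun m j => (φ l m : ℂ) * (φ k j * A.a m (A.ω j))),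
    ← Finset.sum_sub_distrib]
  refine Finset.sum_congr rfl fun j _ => ?_
  rw [← Finset.sum_sub_distrib]
  exact Finset.sum_congr rfl fun m _ => by ring

/-- `κ z = θ m (β₂ z) * exp (-Q z) * θ m' (z + y) * exp (ℓ z)` of weight `D + 1`, where `Q` comes
from `exists_quad` for `c l = ∑ m, φ₁ l m • (a m ∘ β₁) + ∑ m, φ₂ l m • (a m ∘ β₂) - D • a l`, the
pair `y`, `ℓ` from `exists_shift` corrects the constants, `θ m 0 ≠ 0`, `θ m' y ≠ 0`. -/
theorem good_of_sum (β₁ β₂ : (Fin g → ℂ) →L[ℂ] (Fin g → ℂ))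
    (φ₁ φ₂ : Matrix (Fin (2 * g)) (Fin (2 * g)) ℤ) (h₁ : ∀ l, β₁ (A.ω l) = A.per (φ₁ l))
    (h₂ : ∀ l, β₂ (A.ω l) = A.per (φ₂ l)) (D : ℕ)
    (h : φ₁.map (Int.cast : ℤ → ℂ) * A.Ec * (φ₁.map (Int.cast : ℤ → ℂ))ᵀ +
      φ₂.map (Int.cast : ℤ → ℂ) * A.Ec * (φ₂.map (Int.cast : ℤ → ℂ))ᵀ = (D : ℂ) • A.Ec) :
    Good A β₁ := by
  intro y₀
  obtain ⟨c, hc⟩ : ∃ c : Fin (2 * g) → (Fin g → ℂ) →L[ℂ] ℂ, ∀ l z, c l z =
      ∑ m, φ₁ l m * A.a m (β₁ z) + ∑ m, φ₂ l m * A.a m (β₂ z) - D * A.a l z :=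
    ⟨fun l => ∑ m, (φ₁ l m : ℂ) • (A.a m).comp β₁ + ∑ m, (φ₂ l m : ℂ) • (A.a m).comp β₂ -
      (D : ℂ) • A.a l, fun l z => by
        simp only [_root_.sub_apply, _root_.add_apply,
          _root_.sum_apply, _root_.smul_apply,
          ContinuousLinearMap.comp_apply, smul_eq_mul]⟩
  have hsym : ∀ l k, c l (A.ω k) = c k (A.ω l) := by
    intro l k
    have e := congrFun (congrFun h l) k
    rw [Matrix.add_apply, end1_mat, end1_mat, Matrix.smul_apply, smul_eq_mul] at e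
    simp only [AbVar.Ec, Matrix.of_apply] at e
    rw [hc, hc, h₁, h₁, h₂, h₂]
    linear_combination e
  obtain ⟨Q, hQ, hQ2⟩ := exists_quad A c hsym
  choose d hd using hQ2
  choose c₁ hc₁ using fun l => theta_per A (φ₁ l)
  choose c₂ hc₂ using fun l => theta_per A (φ₂ l)
  obtain ⟨y, ℓ, hy⟩ := exists_shift A fun l =>
    D * A.b l - ∑ m, φ₁ l m * A.a m y₀ - c₁ l - c₂ l + d l
  obtain ⟨m, hm⟩ := A.ne 0
  obtain ⟨m', hm'⟩ := A.ne y
  have hκ : En fun z => A.θ m (β₂ z + 0) * A.θ m' (z + y) * Complex.exp (ℓ z - Q z) :=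
    ((end1_en A m β₂ 0).mul (end1_en A m' (ContinuousLinearMap.id ℂ _) y)).mul
      fun z hz => ((end1_en_clm ℓ z hz).sub (hQ z hz)).cexp
  refine ⟨D + 1, fun z => A.θ m (β₂ z + 0) * A.θ m' (z + y) * Complex.exp (ℓ z - Q z), hκ,
    ⟨0, ?_⟩, fun i => ⟨(end1_en A i β₁ y₀).mul hκ, fun l z => ?_⟩⟩
  · refine mul_ne_zero (mul_ne_zero ?_ ?_) (Complex.exp_ne_zero _)
    · simpa using hm
    · simpa using hm'
  · simp only [map_add, add_zero]
    rw [h₁, h₂, add_right_comm (β₁ z), add_right_comm z, hc₁, hc₂, A.aut, hd]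
    have e : Complex.exp (((D + 1 : ℕ) : ℂ) * (A.a l z + A.b l)) * Complex.exp (ℓ z - Q z) =
        Complex.exp (∑ m, φ₁ l m * A.a m (β₁ z + y₀) + c₁ l) *
        Complex.exp (∑ m, φ₂ l m * A.a m (β₂ z) + c₂ l) *
        Complex.exp (A.a l (z + y) + A.b l) *
        Complex.exp (ℓ z + ℓ (A.ω l) - (Q z + c l z + d l)) := by
      rw [← Complex.exp_add, ← Complex.exp_add, ← Complex.exp_add, ← Complex.exp_add]
      congr 1
      have := hy l
      simp only [map_add, mul_add, Finset.sum_add_distrib, hc] at this ⊢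
      push_cast
      linear_combination -this
    linear_combination (-(A.θ i (β₁ z + y₀) * A.θ m (β₂ z) * A.θ m' (z + y))) * e

end GPC73

end

section

/-! Polynomial vector fields on the base; conjugates of homomorphisms. -/

open MvPolynomial Filter Topology

namespace GPC73

variable {g N m : ℕ}

theorem end2_lin (L : (Fin g → ℂ) →L[ℂ] ℂ) (v : Fin g → ℂ) :
    L v = ∑ j, v j * L (Pi.single j 1) := by
  conv_lhs => rw [pi_eq_sum_univ' v]
  simp only [map_sum, map_smul, smul_eq_mul]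

theorem end2_iter {τ : Type} {O : Set (Fin g → ℂ)} (hO : IsOpen O)
    (R : τ → (Fin g → ℂ) → ℂ) (hR : ∀ i, AnalyticOnNhd ℂ (R i) O)
    (d : Fin g → τ → MvPolynomial τ ℂ)
    (h : ∀ j i, ∀ z ∈ O, pd j (R i) z = eval (fun i => R i z) (d j i)) (v : Fin g → ℂ) (k : ℕ)
    (f : MvPolynomial τ ℂ) :
    evP R hR ((mkDerivation ℂ fun i => ∑ j, C (v j) * d j i)^[k] f) =
      (dA hO v)^[k] (evP R hR f) := by
  refine Function.Semiconj.iterate_right (f := evP R hR)
    (evP_der hO R hR v _ fun i z hz => ?_) k f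
  rw [end2_lin, map_sum]
  refine Finset.sum_congr rfl fun j _ => ?_
  rw [map_mul, eval_C, ← h j i z hz]
  rfl

/-- Uniqueness for a polynomial differential system.  With `d v i = ∑ j, C (v j) * d j i` apply
`evP_der` to both families; by induction the iterates of `dA hO v` on `evP R (X i)` and
`evP R' (X i)` are the images of the iterates of `mkDerivation ℂ (d v)`, so they agree at `z₀`;
`line_zero` for the difference. -/
theorem ode_unique {τ : Type} {O : Set (Fin g → ℂ)} (hO : IsOpen O)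
    (R R' : τ → (Fin g → ℂ) → ℂ) (hR : ∀ i, AnalyticOnNhd ℂ (R i) O)
    (hR' : ∀ i, AnalyticOnNhd ℂ (R' i) O) (d : Fin g → τ → MvPolynomial τ ℂ)
    (h : ∀ j i, ∀ z ∈ O, pd j (R i) z = eval (fun i => R i z) (d j i))
    (h' : ∀ j i, ∀ z ∈ O, pd j (R' i) z = eval (fun i => R' i z) (d j i))
    {z₀ : Fin g → ℂ} (hz : z₀ ∈ O) (h0 : ∀ i, R i z₀ = R' i z₀) (i : τ) (v : Fin g → ℂ) :
    ∀ᶠ t in 𝓝 (0 : ℂ), R i (z₀ + t • v) = R' i (z₀ + t • v) := by
  have := line_zero hO v ⟨z₀, hz⟩ (evP R hR (X i) - evP R' hR' (X i)) (F := fun z => R i z - R' i z)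
    (fun w => by
      show (evP R hR (X i)).1 w - (evP R' hR' (X i)).1 w = _
      rw [evP_apply, evP_apply, eval_X, eval_X])
    fun k => by
      rw [iterate_map_sub, ← end2_iter hO R hR d h, ← end2_iter hO R' hR' d h', mem_ma]
      show (evP R hR _).1 _ - (evP R' hR' _).1 _ = _
      rw [evP_apply, evP_apply, funext h0, sub_self]
  exact this.mono fun t ht => sub_eq_zero.1 ht

/-- Chain rule for an affine map. -/
theorem pd_affine {f : (Fin g → ℂ) → ℂ} (β : (Fin g → ℂ) →L[ℂ] (Fin g → ℂ)) (y : Fin g → ℂ)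
    {z : Fin g → ℂ} (hf : DifferentiableAt ℂ f (β z + y)) (j : Fin g) :
    pd j (fun z => f (β z + y)) z = ∑ l, β (Pi.single j 1) l * pd l f (β z + y) := by
  have h := hf.hasFDerivAt.comp z (β.hasFDerivAt.add_const y)
  exact (congrArg (fun L : (Fin g → ℂ) →L[ℂ] ℂ => L (Pi.single j 1)) h.fderiv).trans
    (end2_lin (fderiv ℂ f (β z + y)) _)

theorem en_affine {f : (Fin g → ℂ) → ℂ} (hf : En f) (β : (Fin g → ℂ) →L[ℂ] (Fin g → ℂ))
    (y : Fin g → ℂ) : En fun z => f (β z + y) := by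
  exact fun z _ => (hf (β z + y) trivial).comp (f := fun z => β z + y)
    ((β.analyticAt z).add analyticAt_const)

namespace Gx

variable {A : AbVar g N} (G : Gx A m)

/-- The chart functions on the base. -/
noncomputable def bx : Option (Fin (N + 1)) → (Fin g → ℂ) → ℂ
  | some i, z => xc A G.k z i
  | none, z => A.θ G.k z ^ G.e / G.B z

/-- Their derivatives. -/
noncomputable def bd (j : Fin g) : Option (Fin (N + 1)) → MvPolynomial (Option (Fin (N + 1))) ℂ
  | some i => rename some (G.p j i) * X none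
  | none => -(X none ^ 3 * ∑ i, rename some (pderiv i G.q) * rename some (G.p j i))

/-- The integrals of the second kind. -/
noncomputable def F (l : Fin m) (z : Fin g → ℂ) : ℂ := G.H l z / G.B z

/-- Their derivatives. -/
noncomputable def ρ (j : Fin g) (l : Fin m) : MvPolynomial (Option (Fin (N + 1))) ℂ :=
  rename some (G.r j l) * X none

/-- The domain of the chart. -/
def Om : Set (Fin g → ℂ) := {z | A.θ G.k z ≠ 0 ∧ G.B z ≠ 0}

theorem om_open : IsOpen G.Om := by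
  exact (isOpen_ne_fun (A.hol G.k).continuous continuous_const).inter
    (isOpen_ne_fun G.gx_an_B.continuous continuous_const)

/-- An affine map meeting the chart generically maps into the chart. -/
theorem om_gen (β : (Fin g → ℂ) →L[ℂ] (Fin g → ℂ)) (y : Fin g → ℂ) (h : ∃ z, β z + y ∈ G.Om) :
    ∀ᶠ z in gen g, β z + y ∈ G.Om := by
  obtain ⟨z, h1, h2⟩ := h
  exact (gen_ne (en_affine (A.hol G.k) β y) ⟨z, h1⟩).and
    (gen_ne (en_affine G.gx_an_B β y) ⟨z, h2⟩)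

theorem bx_an (i : Option (Fin (N + 1))) : AnalyticOnNhd ℂ (G.bx i) G.Om := by
  intro z hz
  rcases i with _ | i
  · exact ((A.hol G.k z trivial).pow G.e).div (G.gx_an_B z trivial) hz.2
  · exact (A.hol i z trivial).div (A.hol G.k z trivial) hz.1

theorem F_an (l : Fin m) : AnalyticOnNhd ℂ (G.F l) G.Om := by
  exact fun z hz => (G.hol l z trivial).div (G.gx_an_B z trivial) hz.2

theorem bx_mer (β : (Fin g → ℂ) →L[ℂ] (Fin g → ℂ)) (y : Fin g → ℂ) (i : Option (Fin (N + 1))) :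
    Mer fun z => G.bx i (β z + y) := by
  rcases i with _ | i
  · exact (en_affine ((A.hol G.k).pow G.e) β y).mer.div (en_affine G.gx_an_B β y).mer
  · exact (en_affine (A.hol i) β y).mer.div (en_affine (A.hol G.k) β y).mer

theorem F_mer (β : (Fin g → ℂ) →L[ℂ] (Fin g → ℂ)) (y : Fin g → ℂ) (l : Fin m) :
    Mer fun z => G.F l (β z + y) := by
  exact (en_affine (G.hol l) β y).mer.div (en_affine G.gx_an_B β y).mer

theorem bx_none {z : Fin g → ℂ} (hz : z ∈ G.Om) : G.bx none z * ev A G.k G.q z = 1 := by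
  have h : ev A G.k G.q z = G.B z / A.θ G.k z ^ G.e := G.gx_ev G.hq z
  rw [h, bx, div_mul_div_cancel₀ hz.2, div_self (pow_ne_zero _ hz.1)]

/-- From `der_ξ` at `(z, 0)` and `gx_fst`, or from `gx_dx`, `gx_chain`. -/
theorem bx_der (j : Fin g) (i : Option (Fin (N + 1))) {z : Fin g → ℂ} (hz : z ∈ G.Om) :
    pd j (G.bx i) z = eval (fun i => G.bx i z) (G.bd j i) := by
  have h1 := G.der_ξ j (Sum.inl i) (z, 0) (mul_ne_zero hz.1 hz.2)
  have h2 := gx_fst (m := m) (p := (z, 0)) (G.bx_an i z hz).differentiableAt j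
  rcases i with _ | i
  · refine h2.symm.trans (h1.trans ?_)
    simp only [dP, bd, map_neg, map_mul, map_pow, map_sum, eval_X, gx_ren, eval_rename]
    rfl
  · refine h2.symm.trans (h1.trans ?_)
    simp only [dP, bd, map_mul, eval_X, gx_ren, eval_rename]
    rfl

theorem F_der (j : Fin g) (l : Fin m) {z : Fin g → ℂ} (hz : z ∈ G.Om) :
    pd j (G.F l) z = eval (fun i => G.bx i z) (G.ρ j l) := by
  have h1 := G.dW j l z
  change G.B z * _ - _ * pd j G.B z = _ * G.B z at h1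
  have h2 : eval (fun i => G.bx i z) (G.ρ j l) =
      eval (fun i => A.θ i z / A.θ G.k z) (G.r j l) * (A.θ G.k z ^ G.e / G.B z) := by
    rw [ρ, map_mul, eval_X, eval_rename]
    rfl
  refine (gx_div (G.hol l z trivial).differentiableAt (G.gx_an_B z trivial).differentiableAt
    hz.2 j).trans ?_
  have hk := hz.1
  have hB := hz.2
  rw [h1, h2, G.gx_ev (G.hr j l)]
  field_simp

/-- `mk1_inv`, `mk1_per` at `(z, 0)`. -/
theorem F_per (l : Fin m) (n : Fin (2 * g) → ℤ) {z : Fin g → ℂ} (hz : z ∈ G.Om) :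
    z + A.per n ∈ G.Om ∧ G.F l (z + A.per n) = G.F l z + ∑ j, n j * G.w j l := by
  obtain ⟨h1, h2⟩ := G.mk1_inv (mk1_per A G.w n) (p := (z, 0)) (mul_ne_zero hz.1 hz.2)
  refine ⟨G.gx_ne h1, ?_⟩
  have h3 : G.F l (z + A.per n) + ((0 : Fin m → ℂ) + -∑ j, n j • G.w j) l =
      G.F l z + (0 : Fin m → ℂ) l := h2 (Sum.inr l)
  simp only [zero_add, Pi.neg_apply, Finset.sum_apply, zsmul_eq_mul, Pi.zero_apply,
    add_zero] at h3
  linear_combination h3

variable {G} {x : Fin g → ℂ}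

/-- `map_sigma`, `map_rename`, `pderiv_map`. -/
theorem map_bd (hG : G.Arith 0 x) (σ : ℂ →ₐ[Qb] ℂ) (j : Fin g) (i : Option (Fin (N + 1))) :
    map (σ : ℂ →+* ℂ) (G.bd j i) = G.bd j i := by
  rcases i with _ | i
  · simp only [bd, map_neg, map_mul, map_pow, map_sum, map_X, map_rename, ← pderiv_map,
      map_sigma σ hG.q, map_sigma σ (hG.p j _)]
  · simp only [bd, map_mul, map_X, map_rename, map_sigma σ (hG.p j _)]

/-- Elements algebraic over `Algebra.adjoin ℚ {0}` are algebraic over `ℚ`. -/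
theorem map_ρ (hG : G.Arith 0 x) (σ : ℂ →ₐ[Qb] ℂ) (j : Fin g) (l : Fin m) :
    map (σ : ℂ →+* ℂ) (G.ρ j l) = G.ρ j l := by
  have : Algebra.IsIntegral ℚ (Algebra.adjoin ℚ ({0} : Set ℂ)) :=
    Algebra.IsIntegral.adjoin fun y hy => by
      rw [Set.mem_singleton_iff.1 hy]
      exact isIntegral_zero
  rw [ρ, map_mul, map_X, map_rename, map_sigma σ fun α => (hG.r j l α).restrictScalars ℚ]

/-- `cj_x`, `cj_eval`, `bx_none`. -/
theorem cj_bx (hG : G.Arith 0 x) (σ : ℂ →ₐ[Qb] ℂ) (i : Option (Fin (N + 1))) :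
    Cj A G.k σ (G.bx i) (G.bx i) := by
  obtain ⟨z, h1, h2⟩ := G.ne
  have hk : ∃ z, A.θ G.k z ≠ 0 := ⟨z, h1⟩
  rcases i with _ | i
  · have h3 := (cj_const hk σ 1).div (cj_eval hk (cj_x hk σ G.k) G.q)
    rw [map_sigma σ hG.q, map_one] at h3
    have h4 : (fun z => 1 / eval (fun i => xc A G.k z i) G.q) =ᶠ[gen g] G.bx none :=
      ((gen_ne (A.hol G.k) hk).and (gen_ne G.gx_an_B ⟨z, h2⟩)).mono fun w hw =>
        (eq_one_div_of_mul_eq_one_left (G.bx_none hw)).symm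
    exact h3.congr h4 h4
  · exact cj_x hk σ G.k i

end Gx

end GPC73

end

section

/-! The conjugate of a homomorphism is a homomorphism. -/

open MvPolynomial Filter Topology

namespace GPC73

namespace Gx

variable {g N m : ℕ} {A : AbVar g N} {G : Gx A m} {x : Fin g → ℂ}

theorem end3_der (β : (Fin g → ℂ) →L[ℂ] (Fin g → ℂ)) (y : Fin g → ℂ) {z : Fin g → ℂ}
    (hz : β z + y ∈ G.Om) (j : Fin g) (i : Option (Fin (N + 1))) :
    pd j (fun z => G.bx i (β z + y)) z =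
      eval (fun i => G.bx i (β z + y)) (∑ l, C (β (Pi.single j 1) l) * G.bd l i) := by
  rw [pd_affine β y (G.bx_an i _ hz).differentiableAt j, map_sum]
  refine Finset.sum_congr rfl fun l _ => ?_
  rw [map_mul, eval_C, G.bx_der l i hz]

/-- With `Ψ i z = θ i (β z + y₀) * κ z`: `bx (some i) = Ψ i / Ψ k`, `bx none = Ψ k ^ e / q(Ψ)`
generically (`cj_sc`, `sc_eval`, `gx_hom`). -/
theorem exists_cj_bx (σ : ℂ →ₐ[Qb] ℂ) {β : (Fin g → ℂ) →L[ℂ] (Fin g → ℂ)} (hβ : Good A β)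
    (y₀ : Fin g → ℂ) (i : Option (Fin (N + 1))) :
    ∃ R, Cj A G.k σ (fun z => G.bx i (β z + y₀)) R := by
  obtain ⟨D, κ, hκ, hκ0, hS⟩ := hβ y₀
  have hk : ∃ z, A.θ G.k z ≠ 0 := G.ne.imp fun _ h => h.1
  cases i with
  | some i =>
    obtain ⟨v, hv⟩ := cj_sc hk σ (hS i) (hS G.k)
    refine ⟨v, hv.congr ?_ EventuallyEq.rfl⟩
    filter_upwards [gen_ne hκ hκ0] with z hz
    exact mul_div_mul_right _ _ hz
  | none =>
    obtain ⟨v, hv⟩ := cj_sc hk σ ((hS G.k).pow G.e) (sc_eval hS G.hq)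
    refine ⟨v, hv.congr ?_ EventuallyEq.rfl⟩
    filter_upwards [gen_ne hκ hκ0] with z hz
    simp only [mul_comm _ (κ z)]
    rw [gx_hom G.hq, mul_pow, mul_div_mul_left _ _ (pow_ne_zero _ hz)]
    rfl

/-- Generically `R z` satisfies the equations of `exists_eqs`, `R (some k) = 1` and
`R none * q (R ∘ some) = 1` (`cj_eval`, `Cj.unique`, `map_sigma_map`, `map_sigma`, `bx_none`). -/
theorem lift_pt (hG : G.Arith 0 x) {σ : ℂ →ₐ[Qb] ℂ} {β : (Fin g → ℂ) →L[ℂ] (Fin g → ℂ)}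
    {y₀ : Fin g → ℂ} (h0 : y₀ ∈ G.Om) {R : Option (Fin (N + 1)) → (Fin g → ℂ) → ℂ}
    (hR : ∀ i, Cj A G.k σ (fun z => G.bx i (β z + y₀)) (R i)) :
    ∀ᶠ z in gen g, ∃ w ∈ G.Om, ∀ i, R i z = G.bx i w := by
  have hk : ∃ z, A.θ G.k z ≠ 0 := G.ne.imp fun _ h => h.1
  obtain ⟨s, hs1, hs2⟩ := exists_eqs A G.k
  have hgen := G.om_gen β y₀ ⟨0, by simpa using h0⟩
  have e1 : ∀ᶠ z in gen g, ∀ p ∈ s, aeval (fun i => R (some i) z) p = 0 := by
    refine (eventually_all_finset s).2 fun p hp => ?_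
    have := (cj_eval hk (fun i => hR (some i)) (map (algebraMap Qb ℂ) p)).zero (by
      filter_upwards [hgen] with z hz
      rw [eval_map, ← aeval_def]
      exact hs1 p hp _ hz.1)
    filter_upwards [this] with z hz
    rwa [map_sigma_map, eval_map, ← aeval_def] at hz
  have e2 := (hR (some G.k)).unique (cj_const hk σ 1) (by
    filter_upwards [hgen] with z hz
    exact div_self hz.1)
  have e3 := ((hR none).mul (cj_eval hk (fun i => hR (some i)) G.q)).unique (cj_const hk σ 1) (by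
    filter_upwards [hgen] with z hz
    exact G.bx_none hz)
  filter_upwards [e1, e2, e3] with z h1 h2 h3
  rw [map_one] at h2 h3
  rw [map_sigma σ hG.q] at h3
  obtain ⟨w, hw, hx⟩ := hs2 (fun i => R (some i) z) h2 h1
  rw [← hx] at h3
  have h4 : eval (xc A G.k w) G.q ≠ 0 := right_ne_zero_of_mul_eq_one h3
  have hw' : w ∈ G.Om := by
    refine ⟨hw, fun h => h4 ?_⟩
    exact (G.gx_ev G.hq w).trans (div_eq_zero_iff.2 (Or.inl h))
  refine ⟨w, hw', fun i => ?_⟩
  cases i with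
  | some i => exact (congrFun hx i).symm
  | none => exact mul_right_cancel₀ h4 (h3.trans (G.bx_none hw').symm)

/-- `Cj.der`, `pd_affine`, `bx_der`, `map_bd`, `Cj.unique`. -/
theorem lift_der (hG : G.Arith 0 x) {σ : ℂ →ₐ[Qb] ℂ} {β : (Fin g → ℂ) →L[ℂ] (Fin g → ℂ)}
    {y₀ : Fin g → ℂ} (h0 : y₀ ∈ G.Om) {R : Option (Fin (N + 1)) → (Fin g → ℂ) → ℂ}
    (hR : ∀ i, Cj A G.k σ (fun z => G.bx i (β z + y₀)) (R i)) (j : Fin g)
    (i : Option (Fin (N + 1))) : ∀ᶠ z in gen g, pd j (R i) z =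
      eval (fun i => R i z) (∑ l, C (σ (β (Pi.single j 1) l)) * G.bd l i) := by
  have hk : ∃ z, A.θ G.k z ≠ 0 := G.ne.imp fun _ h => h.1
  have hgen := G.om_gen β y₀ ⟨0, by simpa using h0⟩
  have e := ((hR i).der j).unique
    (cj_eval hk hR (∑ l, C (β (Pi.single j 1) l) * G.bd l i)) (by
      filter_upwards [hgen] with z hz
      exact end3_der β y₀ hz j i)
  filter_upwards [e] with z hz
  rw [hz]
  simp only [map_sum, map_mul, map_C, map_bd hG]
  rfl

/-- Let `β'` be the linear map with the conjugate matrix.  Take an entire `b` such that on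
`b ≠ 0` all `R i` are analytic (`Mer.an`) and `lift_pt`, `lift_der` hold, `z₀` with `b z₀ ≠ 0`,
`w₀` from `lift_pt`, `y = w₀ - β' z₀`.  `ode_unique` on `{b ≠ 0} ∩ {β' z + y ∈ Om}` and
`Mer.zero_of_lines` give `R i = bx i (β' z + y)` generically.  `Cj.per`, `gen_tr`, `xc_inj` give
the last part. -/
theorem lift (hG : G.Arith 0 x) {σ : ℂ →ₐ[Qb] ℂ} {β : (Fin g → ℂ) →L[ℂ] (Fin g → ℂ)}
    {y₀ : Fin g → ℂ} (h0 : y₀ ∈ G.Om) {R : Option (Fin (N + 1)) → (Fin g → ℂ) → ℂ}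
    (hR : ∀ i, Cj A G.k σ (fun z => G.bx i (β z + y₀)) (R i)) :
    ∃ (β' : (Fin g → ℂ) →L[ℂ] (Fin g → ℂ)) (y : Fin g → ℂ),
      (∀ j l, β' (Pi.single j 1) l = σ (β (Pi.single j 1) l)) ∧ (∃ z, β' z + y ∈ G.Om) ∧
      (∀ i, R i =ᶠ[gen g] fun z => G.bx i (β' z + y)) ∧ ∀ l, ∃ n, β' (A.ω l) = A.per n := by
  obtain ⟨β', hβ'⟩ : ∃ β' : (Fin g → ℂ) →L[ℂ] (Fin g → ℂ),
      ∀ j l, β' (Pi.single j 1) l = σ (β (Pi.single j 1) l) :=
    ⟨∑ j, (ContinuousLinearMap.proj j).smulRight fun l => σ (β (Pi.single j 1) l), fun j l => by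
      simp [Pi.single_apply, ite_apply]⟩
  have hall := (eventually_all.2 fun i => (hR i).mer.2.an).and ((lift_pt hG h0 hR).and
    (eventually_all.2 fun j => eventually_all.2 fun i => lift_der hG h0 hR j i))
  obtain ⟨b, hb, ⟨z₀, hz₀⟩, hb'⟩ := gen_iff.1 hall
  obtain ⟨w₀, hw₀, hw⟩ := (hb' z₀ hz₀).2.1
  obtain ⟨y, hy⟩ : ∃ y, β' z₀ + y = w₀ := ⟨w₀ - β' z₀, add_sub_cancel _ _⟩
  have hO : IsOpen ({z | b z ≠ 0} ∩ {z | β' z + y ∈ G.Om}) :=
    (isOpen_ne_fun (continuousOn_univ.1 hb.continuousOn) continuous_const).inter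
      (G.om_open.preimage (β'.continuous.add continuous_const))
  have hz : z₀ ∈ {z | b z ≠ 0} ∩ {z | β' z + y ∈ G.Om} := ⟨hz₀, by
    show β' z₀ + y ∈ G.Om
    rwa [hy]⟩
  have an' : ∀ i, AnalyticOnNhd ℂ (fun z => G.bx i (β' z + y))
      ({z | b z ≠ 0} ∩ {z | β' z + y ∈ G.Om}) := fun i z hz =>
    (G.bx_an i _ hz.2).comp_of_eq ((β'.analyticAt z).add analyticAt_const) rfl
  have ode := ode_unique hO R (fun i z => G.bx i (β' z + y)) (fun i z hz => (hb' z hz.1).1 i) an'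
    (fun j i => ∑ l, C (σ (β (Pi.single j 1) l)) * G.bd l i)
    (fun j i z hz => (hb' z hz.1).2.2 j i)
    (fun j i z hz => by simpa only [hβ'] using end3_der β' y hz.2 j i) hz
    (fun i => by rw [hy]; exact hw i)
  have hE : ∀ i, R i =ᶠ[gen g] fun z => G.bx i (β' z + y) := fun i => by
    have := ((hR i).mer.2.sub (G.bx_mer β' y i)).zero_of_lines
      (((hb' z₀ hz₀).1 i).sub (an' i z₀ hz)) fun v => (ode i v).mono fun t ht => sub_eq_zero.2 ht
    exact this.mono fun z hz => sub_eq_zero.1 hz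
  refine ⟨β', y, hβ', ⟨z₀, hz.2⟩, hE, fun l => ?_⟩
  have hgen := G.om_gen β' y ⟨z₀, hz.2⟩
  have hE' := eventually_all.2 hE
  obtain ⟨z, ⟨h1, h2⟩, ⟨h3, h4⟩, h5⟩ := ((hgen.and hE').and
    (((gen_tr (A.ω l)).eventually (hgen.and hE')).and
      (eventually_all.2 fun i => ((hR i).per l).2))).exists
  obtain ⟨n, hn⟩ := xc_inj h1.1 h3.1 (funext fun i =>
    ((h2 (some i)).symm.trans (h5 (some i)).symm).trans (h4 (some i)))
  refine ⟨n, ?_⟩
  rw [map_add, add_right_comm] at hn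
  exact add_left_cancel hn

end Gx

end GPC73

end

section

/-! Homomorphisms act on de Rham classes by algebraic matrices. -/

open MvPolynomial Filter Topology

namespace GPC73

variable {g N m : ℕ} {A : AbVar g N}

namespace Gx

variable {G : Gx A m} {x : Fin g → ℂ}

theorem end4_om (G : Gx A m) : ∀ᶠ z in gen g, z ∈ G.Om := by
  obtain ⟨z, hz⟩ : ∃ z, z ∈ G.Om := G.ne
  simpa using G.om_gen (ContinuousLinearMap.id ℂ _) 0 ⟨z, by simpa using hz⟩

theorem end4_single (A : AbVar g N) (j : Fin (2 * g)) : A.per (Pi.single j 1) = A.ω j := by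
  rw [AbVar.per, Finset.sum_eq_single j (fun i _ h => by simp [Pi.single_eq_of_ne h]) (by simp)]
  simp

theorem end4_per (G : Gx A m) {β : (Fin g → ℂ) →L[ℂ] (Fin g → ℂ)} {y : Fin g → ℂ}
    (h0 : ∃ z, β z + y ∈ G.Om) (l₀ : Fin m) (c : Fin m → ℂ) {j : Fin (2 * g)}
    {n : Fin (2 * g) → ℤ} (hn : β (A.ω j) = A.per n) :
    ∀ᶠ z in gen g, G.F l₀ (β (z + A.ω j) + y) - ∑ l, c l * G.F l (z + A.ω j) =
      G.F l₀ (β z + y) - ∑ l, c l * G.F l z + (∑ i, n i * G.w i l₀ - ∑ l, c l * G.w j l) := by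
  filter_upwards [G.om_gen β y h0, end4_om G] with z h1 h2
  have e1 : β (z + A.ω j) + y = β z + y + A.per n := by
    rw [map_add, hn, add_right_comm]
  have e2 : ∀ l, G.F l (z + A.ω j) = G.F l z + G.w j l := fun l => by
    rw [← end4_single, (G.F_per l _ h2).2,
      Finset.sum_eq_single j (fun i _ h => by simp [Pi.single_eq_of_ne h]) (by simp)]
    simp
  rw [e1, (G.F_per l₀ n h1).2]
  simp only [e2, mul_add, Finset.sum_add_distrib]
  ring

theorem end4_pd (G : Gx A m) {β : (Fin g → ℂ) →L[ℂ] (Fin g → ℂ)} {y : Fin g → ℂ}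
    (h0 : ∃ z, β z + y ∈ G.Om) (l₀ : Fin m) (c : Fin m → ℂ) (j : Fin g) :
    pd j (fun z => G.F l₀ (β z + y) - ∑ l, c l * G.F l z) =ᶠ[gen g] fun z =>
      ∑ i, β (Pi.single j 1) i * eval (fun t => G.bx t (β z + y)) (G.ρ i l₀) -
        ∑ l, c l * eval (fun t => G.bx t z) (G.ρ j l) := by
  filter_upwards [G.om_gen β y h0, end4_om G] with z h1 h2
  have d0 : DifferentiableAt ℂ (G.F l₀) (β z + y) := (G.F_an l₀ _ h1).differentiableAt
  have d1 : DifferentiableAt ℂ (fun z => G.F l₀ (β z + y)) z :=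
    DifferentiableAt.comp (g := G.F l₀) (f := fun z => β z + y) z d0
      (β.differentiableAt.add_const y)
  have d2 : ∀ l, DifferentiableAt ℂ (G.F l) z := fun l => (G.F_an l _ h2).differentiableAt
  have d3 : HasFDerivAt (fun z => ∑ l, c l * G.F l z) (∑ l, c l • fderiv ℂ (G.F l) z) z :=
    HasFDerivAt.fun_sum fun l _ => (d2 l).hasFDerivAt.const_mul (c l)
  have e1 := pd_affine β y d0 j
  simp only [G.F_der _ _ h1] at e1
  have e2 : ∀ l, fderiv ℂ (G.F l) z (Pi.single j 1) = _ := fun l => G.F_der j l h2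
  rw [← e1]
  unfold pd
  rw [fderiv_fun_sub d1 d3.differentiableAt, d3.fderiv]
  simp only [_root_.sub_apply, _root_.sum_apply, _root_.smul_apply, smul_eq_mul, e2]

/-- The function `u` is periodic (`F_per`, `om_gen`; `ω j = per (Pi.single j 1)`).  With `κ` from
`Good`, `Φ z = B (β z + y₀) * κ z ^ e * B z` is a section (`sc_eval`, `gx_hom`), `u * Φ` is
generically an entire function, `sc_of_per`, `cj_sc`. -/
theorem exists_cj_F (σ : ℂ →ₐ[Qb] ℂ) {β : (Fin g → ℂ) →L[ℂ] (Fin g → ℂ)} (hβ : Good A β)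
    {φ : Fin (2 * g) → Fin (2 * g) → ℤ} (hφ : ∀ j, β (A.ω j) = A.per (φ j)) {y₀ : Fin g → ℂ}
    (h0 : y₀ ∈ G.Om) (l₀ : Fin m) (c : Fin m → ℂ)
    (h : ∀ j, ∑ i, φ j i * G.w i l₀ = ∑ l, c l * G.w j l) :
    ∃ v, Cj A G.k σ (fun z => G.F l₀ (β z + y₀) - ∑ l, c l * G.F l z) v := by
  obtain ⟨D, κ, hκ, hκ0, hS⟩ := hβ y₀
  have h0' : ∃ z, β z + y₀ ∈ G.Om := ⟨0, by simpa using h0⟩
  have hk : ∃ z, A.θ G.k z ≠ 0 := ⟨y₀, h0.1⟩
  have e1 : (fun z => eval (fun i => A.θ i (β z + y₀) * κ z) G.q) =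
      fun z => κ z ^ G.e * G.B (β z + y₀) := funext fun z => by
    simp only [mul_comm _ (κ z)]
    exact gx_hom G.hq _ _
  have s1 := sc_eval hS G.hq
  rw [e1] at s1
  have s2 : Sc A (1 * G.e) G.B := sc_eval (sc_theta A) G.hq
  have s3 := s1.mul s2
  have hΨ : En fun z => G.H l₀ (β z + y₀) * κ z ^ G.e * G.B z -
      (∑ l, c l * G.H l z) * (κ z ^ G.e * G.B (β z + y₀)) := fun z _ =>
    (((en_affine (G.hol l₀) β y₀ z trivial).mul ((hκ z trivial).pow _)).mul
      (G.gx_an_B z trivial)).sub ((Finset.analyticAt_fun_sum _ fun l _ =>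
        analyticAt_const.mul (G.hol l z trivial)).mul (s1.1 z trivial))
  have e2 : (fun z => G.H l₀ (β z + y₀) * κ z ^ G.e * G.B z -
      (∑ l, c l * G.H l z) * (κ z ^ G.e * G.B (β z + y₀))) =ᶠ[gen g] fun z =>
      (G.F l₀ (β z + y₀) - ∑ l, c l * G.F l z) * (κ z ^ G.e * G.B (β z + y₀) * G.B z) := by
    filter_upwards [G.om_gen β y₀ h0', end4_om G] with z h1 h2
    have h3 : ∑ l, c l * G.F l z = (∑ l, c l * G.H l z) / G.B z := by
      rw [Finset.sum_div]
      exact Finset.sum_congr rfl fun l _ => (mul_div_assoc _ _ _).symm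
    have h4 := h1.2
    have h5 := h2.2
    rw [h3, F]
    field_simp
  have s4 := sc_of_per (u := fun z => G.F l₀ (β z + y₀) - ∑ l, c l * G.F l z) s3 hΨ (fun j => by
    filter_upwards [end4_per G h0' l₀ c (hφ j)] with z hz
    rw [hz, h j, sub_self, add_zero]) e2
  obtain ⟨v, hv⟩ := cj_sc hk σ s4 s3
  refine ⟨v, hv.congr ?_ EventuallyEq.rfl⟩
  filter_upwards [G.om_gen β y₀ h0', end4_om G, e2, gen_ne hκ hκ0] with z h1 h2 h3 h4
  rw [h3, mul_div_cancel_right₀ _ (mul_ne_zero (mul_ne_zero (pow_ne_zero _ h4) h1.2) h2.2)]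

/-- Let `v` come from `exists_cj_F` and `β'`, `y` from `exists_cj_bx`, `lift`.  By `Cj.der`,
`pd_affine`, `F_der`, `map_ρ`, `cj_bx`, `Cj.unique` the function
`F l₀ (β' z + y) - ∑ l, σ (c l) * F l z - v z` has zero derivatives, so is constant
(`Mer.const_of_pd`); compare the values at `z` and `z + ω j` (`F_per`, `Cj.per`, `gen_tr`). -/
theorem conj_rel (hG : G.Arith 0 x) (σ : ℂ →ₐ[Qb] ℂ) {β : (Fin g → ℂ) →L[ℂ] (Fin g → ℂ)}
    (hβ : Good A β) {φ : Fin (2 * g) → Fin (2 * g) → ℤ} (hφ : ∀ j, β (A.ω j) = A.per (φ j))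
    (l₀ : Fin m) (c : Fin m → ℂ) (h : ∀ j, ∑ i, φ j i * G.w i l₀ = ∑ l, c l * G.w j l) :
    ∃ φ' : Fin (2 * g) → Fin (2 * g) → ℤ,
      ∀ j, ∑ i, φ' j i * G.w i l₀ = ∑ l, σ (c l) * G.w j l := by
  obtain ⟨y₀, h0⟩ : ∃ z, z ∈ G.Om := G.ne
  have h0' : ∃ z, β z + y₀ ∈ G.Om := ⟨0, by simpa using h0⟩
  have hk : ∃ z, A.θ G.k z ≠ 0 := ⟨y₀, h0.1⟩
  choose R hR using exists_cj_bx (G := G) σ hβ y₀
  obtain ⟨β', y, hβ', hy, hR', hn⟩ := lift hG h0 hR
  choose φ' hφ' using hn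
  obtain ⟨v, hv⟩ := exists_cj_F σ hβ hφ h0 l₀ c h
  have hall : ∀ᶠ z in gen g, ∀ t, R t z = G.bx t (β' z + y) := eventually_all.2 hR'
  have hd : ∀ j, pd j v =ᶠ[gen g]
      pd j fun z => G.F l₀ (β' z + y) - ∑ l, σ (c l) * G.F l z := fun j => by
    have c1 := cj_sum hk Finset.univ fun i =>
      (cj_const hk σ (β (Pi.single j 1) i)).mul (cj_eval hk hR (G.ρ i l₀))
    have c2 := cj_sum hk Finset.univ fun l =>
      (cj_const hk σ (c l)).mul (cj_eval hk (cj_bx hG σ) (G.ρ j l))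
    have c3 := (hv.der j).unique (c1.sub c2) (end4_pd G h0' l₀ c j)
    filter_upwards [c3, end4_pd G hy l₀ (fun l => σ (c l)) j, hall] with z h1 h2 h3
    rw [h1, h2]
    simp only [map_ρ hG, hβ', h3]
  have m1 : Mer fun z => G.F l₀ (β' z + y) - ∑ l, σ (c l) * G.F l z :=
    (G.F_mer β' y l₀).sub (mer_sum _ fun l => (mer_const _).mul (by
      simpa using G.F_mer (ContinuousLinearMap.id ℂ _) 0 l))
  obtain ⟨c₀, hc₀⟩ := (m1.sub hv.mer.2).const_of_pd fun j => by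
    filter_upwards [hd j, m1.an, hv.mer.2.an] with z h1 h2 h3
    unfold pd at h1 ⊢
    rw [fderiv_fun_sub h2.differentiableAt h3.differentiableAt, _root_.sub_apply, h1, sub_self]
  refine ⟨φ', fun j => ?_⟩
  obtain ⟨z, h1, h2, h3, h4⟩ := ((end4_per G hy l₀ (fun l => σ (c l)) (hφ' j)).and
    (hc₀.and (((gen_tr (A.ω j)).eventually hc₀).and (hv.per j).2))).exists
  simp only at h2 h3 h4
  linear_combination h3 - h2 - h1 + h4

end Gx

/-- `exists_gx` for the family `Fin.cons η₀ η`, the identity matrix and `τ = 0`; `conj_rel` with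
the coefficients `Fin.cons 0 c`; for each integer matrix `φ'` there is at most one solution `c'`,
so `alg_of_countable` applies. -/
theorem good_alg {β : (Fin g → ℂ) →L[ℂ] (Fin g → ℂ)} (hβ : Good A β)
    {φ : Fin (2 * g) → Fin (2 * g) → ℤ} (hφ : ∀ j, β (A.ω j) = A.per (φ j))
    {η : Fin m → Fin (2 * g) → ℂ} (hη : ∀ l, η l ∈ A.dR) (hi : LinearIndependent ℂ η)
    {η₀ : Fin (2 * g) → ℂ} (h₀ : η₀ ∈ A.dR) (c : Fin m → ℂ)
    (h : ∀ j, ∑ i, φ j i * η₀ i = ∑ l, c l * η l j) (l : Fin m) : IsAlgebraic ℚ (c l) := by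
  obtain ⟨G, x, hG, hw⟩ := exists_gx A (m := m + 1) (ι := Fin (m + 1)) (Fin.cons η₀ η)
    (fun i => Fin.cases h₀ hη i) (fun l i => if i = l then 1 else 0) 0 fun l i => by
      split_ifs
      exacts [isAlgebraic_one, isAlgebraic_zero]
  have hw' : ∀ j l, G.w j l = (Fin.cons η₀ η : Fin (m + 1) → Fin (2 * g) → ℂ) l j := fun j l => by
    rw [hw, Finset.sum_eq_single l (fun i _ h => by simp [h]) (by simp)]
    simp
  refine alg_of_countable (S := ⋃ φ' : Fin (2 * g) → Fin (2 * g) → ℤ,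
    {t | ∃ c' : Fin m → ℂ, (∀ j, ∑ i, φ' j i * η₀ i = ∑ l, c' l * η l j) ∧ c' l = t})
    (Set.countable_iUnion fun φ' => Set.Subsingleton.countable ?_) fun σ => ?_
  · rintro _ ⟨c₁, h₁, rfl⟩ _ ⟨c₂, h₂, rfl⟩
    refine Fintype.linearIndependent_iffₛ.1 hi c₁ c₂ (funext fun j => ?_) l
    simpa [Finset.sum_apply] using (h₁ j).symm.trans (h₂ j)
  · obtain ⟨φ', h'⟩ := Gx.conj_rel hG σ hβ hφ 0 (Fin.cons 0 c) fun j => by
      simpa [hw', Fin.sum_univ_succ] using h j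
    refine Set.mem_iUnion.2 ⟨φ', fun l => σ (c l), fun j => ?_, rfl⟩
    simpa [hw', Fin.sum_univ_succ] using h' j

end GPC73

end

section

/-! All endomorphisms act by algebraic matrices. -/

open Matrix

namespace GPC73

variable {g N : ℕ} {A : AbVar g N}

/-- Linear relations between de Rham classes are algebraic (`good_alg`, `good_id`, the rows of `P`
are independent, `η = (η ᵥ* P⁻¹) ᵥ* P`). -/
theorem dR_alg {P : Matrix (Fin (2 * g)) (Fin (2 * g)) ℂ} (hP : P.det ≠ 0)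
    (hr : ∀ i, P i ∈ A.dR) {η : Fin (2 * g) → ℂ} (hη : η ∈ A.dR) (i : Fin (2 * g)) :
    IsAlgebraic ℚ ((η ᵥ* P⁻¹) i) := by
  refine good_alg (good_id A) (φ := fun j => Pi.single j 1) (fun j => ?_) hr
    (linearIndependent_rows_iff_isUnit.2 ((isUnit_iff_isUnit_det _).2 hP.isUnit)) hη _
    (fun j => ?_) i
  · simp [AbVar.per, Pi.single_apply]
  · have : (η ᵥ* P⁻¹) ᵥ* P = η := by rw [vecMul_vecMul, nonsing_inv_mul _ hP.isUnit, vecMul_one]
    refine Eq.trans ?_ (congrFun this j).symm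
    simp [Pi.single_apply]

theorem good_mat {P : Matrix (Fin (2 * g)) (Fin (2 * g)) ℂ} (hP : P.det ≠ 0)
    (hr : ∀ i, P i ∈ A.dR) {β : (Fin g → ℂ) →L[ℂ] (Fin g → ℂ)} (hβ : Good A β)
    {φ : Matrix (Fin (2 * g)) (Fin (2 * g)) ℤ} (hφ : ∀ j, β (A.ω j) = A.per (φ j))
    (i j : Fin (2 * g)) : IsAlgebraic ℚ ((P * (φ.map (Int.cast : ℤ → ℂ))ᵀ * P⁻¹) i j) := by
  refine good_alg hβ hφ hr
    (linearIndependent_rows_iff_isUnit.2 ((isUnit_iff_isUnit_det _).2 hP.isUnit)) (hr i) _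
    (fun k => ?_) j
  have := congrFun (congrFun
    (nonsing_inv_mul_cancel_right P (P * (φ.map (Int.cast : ℤ → ℂ))ᵀ) hP.isUnit) i) k
  refine Eq.trans ?_ this.symm
  simp [Matrix.mul_apply, mul_comm]

theorem end5_mul {n : Type} [Fintype n] {M M' : Matrix n n ℂ} (h : ∀ i j, IsAlgebraic ℚ (M i j))
    (h' : ∀ i j, IsAlgebraic ℚ (M' i j)) (i j : n) : IsAlgebraic ℚ ((M * M') i j) :=
  mem_algebraicClosure_iff.1 (sum_mem fun k _ => mul_mem (mem_algebraicClosure_iff.2 (h i k))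
    (mem_algebraicClosure_iff.2 (h' k j)))

theorem end5_inv {n : Type} [Fintype n] [DecidableEq n] {M : Matrix n n ℂ}
    (h : ∀ i j, IsAlgebraic ℚ (M i j)) (i j : n) : IsAlgebraic ℚ (M⁻¹ i j) := by
  set M' : Matrix n n Qb := Matrix.of fun i j => ⟨M i j, mem_algebraicClosure_iff.2 (h i j)⟩
  have e : M = (algebraMap Qb ℂ).mapMatrix M' := rfl
  rw [e, inv_def, ← RingHom.map_det, ← RingHom.map_adjugate, Ring.inverse_eq_inv']
  exact mem_algebraicClosure_iff.1 (mul_mem (inv_mem M'.det.2) (M'.adjugate i j).2)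

theorem end5_int {J : Matrix (Fin (2 * g)) (Fin (2 * g)) ℝ}
    (hJ : ∀ j, Complex.I • A.ω j = ∑ k, J j k • A.ω k) {ψ : Matrix (Fin (2 * g)) (Fin (2 * g)) ℚ}
    (h : ψ.map (Rat.cast : ℚ → ℝ) * J = J * ψ.map (Rat.cast : ℚ → ℝ)) (d : ℕ) :
    ∃ (Z : Matrix (Fin (2 * g)) (Fin (2 * g)) ℤ) (β : (Fin g → ℂ) →L[ℂ] (Fin g → ℂ)),
      (∀ j, β (A.ω j) = A.per (Z j)) ∧
      Z.map (Int.cast : ℤ → ℂ) = (d * ψ.den : ℂ) • ψ.map (Rat.cast : ℚ → ℂ) := by
  obtain ⟨α, hα⟩ := (cl_iff A hJ _).2 h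
  have h1 : ∀ j k, (ψ.num j k : ℚ) = ψ.den * ψ j k := fun j k => by
    rw [← ψ.num_div_den j k, mul_div_cancel₀ _ (by exact_mod_cast ψ.den_ne_zero)]
  refine ⟨Matrix.of fun j k => d * ψ.num j k, ((d * ψ.den : ℝ) : ℂ) • α, fun j => ?_, ?_⟩
  · rw [_root_.smul_apply, hα, Complex.coe_smul, AbVar.per, Finset.smul_sum]
    refine Finset.sum_congr rfl fun k _ => ?_
    have h2 : (ψ.num j k : ℝ) = ψ.den * ψ j k := by exact_mod_cast h1 j k
    rw [smul_smul, ← Int.cast_smul_eq_zsmul ℝ]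
    simp [h2, mul_assoc]
  · ext j k
    have h2 : (ψ.num j k : ℂ) = ψ.den * ψ j k := by exact_mod_cast h1 j k
    simp [h2, mul_assoc]

/-- `pol`, `cl_iff`, `cayley`; multiply `φ₁`, `φ₂` by a common denominator `M` (`D = M ^ 2`),
`good_of_sum` twice, `good_mat`.  The matrices with algebraic entries are the images of matrices
over `Qb`; they are closed under sums, products and inverses. -/
theorem end_alg {P : Matrix (Fin (2 * g)) (Fin (2 * g)) ℂ} (hP : P.det ≠ 0)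
    (hr : ∀ i, P i ∈ A.dR) (α : (Fin g → ℂ) →L[ℂ] (Fin g → ℂ))
    (φ : Matrix (Fin (2 * g)) (Fin (2 * g)) ℚ) (h : ∀ j, α (A.ω j) = ∑ k, (φ j k : ℝ) • A.ω k)
    (i j : Fin (2 * g)) : IsAlgebraic ℚ ((P * (φ.map (Rat.cast : ℚ → ℂ))ᵀ * P⁻¹) i j) := by
  obtain ⟨E0, J, h1, hJ, h2, h3⟩ := pol A
  set E : Matrix (Fin (2 * g)) (Fin (2 * g)) ℚ := E0.map Int.cast with hE0
  set f : Matrix (Fin (2 * g)) (Fin (2 * g)) ℚ →+* Matrix (Fin (2 * g)) (Fin (2 * g)) ℂ :=
    (algebraMap ℚ ℂ).mapMatrix with hf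
  have e1 : A.Ec = (2 * Real.pi * Complex.I : ℂ) • f E := by
    ext j k
    simp [h1, hE0, hf]
  have e2 : E0.map (Int.cast : ℤ → ℝ) = E.map (Rat.cast : ℚ → ℝ) := by
    ext j k
    simp [hE0]
  have ha : Eᵀ = -E := by
    ext j k
    have k1 := h1 j k
    have k2 := h1 k j
    simp only [AbVar.Ec, Matrix.of_apply] at k1 k2
    have k3 : (E0 k j : ℂ) = -E0 j k :=
      mul_left_cancel₀ Complex.two_pi_I_ne_zero (by linear_combination -k1 - k2)
    have k4 : E0 k j = -E0 j k := by exact_mod_cast k3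
    simp [hE0, k4]
  rw [e2] at h2 h3
  obtain ⟨φ₁, φ₂, c1, c2, c3, c4, c5⟩ := cayley E φ J ha h2 h3 ((cl_iff A hJ _).1 ⟨α, h⟩)
  obtain ⟨Z₁, β₁, b1, z1⟩ := end5_int hJ c1 φ₂.den
  obtain ⟨Z₂, β₂, b2, z2⟩ := end5_int hJ c2 φ₁.den
  rw [mul_comm (φ₁.den : ℂ)] at z2
  change _ = _ • f φ₁ at z1
  change _ = _ • f φ₂ at z2
  have k1 : Z₁.map (Int.cast : ℤ → ℂ) * A.Ec * (Z₁.map (Int.cast : ℤ → ℂ))ᵀ +
      Z₂.map (Int.cast : ℤ → ℂ) * A.Ec * (Z₂.map (Int.cast : ℤ → ℂ))ᵀ =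
        (((φ₂.den * φ₁.den) ^ 2 : ℕ) : ℂ) • A.Ec := by
    have k2 : f φ₁ * f E * (f φ₁)ᵀ + f φ₂ * f E * (f φ₂)ᵀ = f E := by
      conv_rhs => rw [← c3, map_add, map_mul, map_mul, map_mul, map_mul]
      rfl
    rw [z1, z2, e1]
    simp only [transpose_smul, Matrix.smul_mul, Matrix.mul_smul, ← smul_add, k2, smul_smul]
    congr 1
    push_cast
    ring
  have hd : (φ₂.den * φ₁.den : ℂ) ≠ 0 := by
    exact_mod_cast mul_ne_zero φ₂.den_ne_zero φ₁.den_ne_zero
  have k3 : ∀ (ψ : Matrix (Fin (2 * g)) (Fin (2 * g)) ℚ) (Z : Matrix (Fin (2 * g)) (Fin (2 * g)) ℤ)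
      (β : (Fin g → ℂ) →L[ℂ] (Fin g → ℂ)), Good A β → (∀ j, β (A.ω j) = A.per (Z j)) →
      Z.map (Int.cast : ℤ → ℂ) = (φ₂.den * φ₁.den : ℂ) • f ψ →
      ∀ i j, IsAlgebraic ℚ ((P * (f ψ)ᵀ * P⁻¹) i j) := fun ψ Z β g1 g2 g3 i j => by
    have := good_mat hP hr g1 g2 i j
    rw [g3, transpose_smul, Matrix.mul_smul, Matrix.smul_mul, Matrix.smul_apply,
      smul_eq_mul] at this
    rw [← inv_mul_cancel_left₀ hd ((P * (f ψ)ᵀ * P⁻¹) i j)]
    exact ((isAlgebraic_natCast _).mul (isAlgebraic_natCast _)).inv.mul this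
  have a1 := k3 φ₁ Z₁ β₁ (good_of_sum A β₁ β₂ Z₁ Z₂ b1 b2 _ k1) b1 z1
  have a2 := k3 φ₂ Z₂ β₂ (good_of_sum A β₂ β₁ Z₂ Z₁ b2 b1 _ ((add_comm _ _).trans k1)) b2 z2
  have a3 : ∀ i j, IsAlgebraic ℚ ((P * (f (1 + φ₁))ᵀ * P⁻¹) i j) := fun i j => by
    rw [map_add, map_one, transpose_add, transpose_one, Matrix.mul_add, Matrix.add_mul,
      Matrix.mul_one, mul_nonsing_inv _ hP.isUnit, Matrix.add_apply, one_apply]
    refine IsAlgebraic.add ?_ (a1 i j)
    split_ifs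
    exacts [isAlgebraic_one, isAlgebraic_zero]
  have a4 : IsUnit (P * (f (1 + φ₁))ᵀ * P⁻¹).det := by
    rw [det_mul, det_mul, det_transpose, hf, ← RingHom.map_det]
    exact (hP.isUnit.mul ((map_ne_zero _).2 c4).isUnit).mul (isUnit_nonsing_inv_det _ hP.isUnit)
  have a5 : P * (f φ)ᵀ * P⁻¹ * (P * (f (1 + φ₁))ᵀ * P⁻¹) = P * (f φ₂)ᵀ * P⁻¹ := by
    rw [← c5, map_mul, transpose_mul]
    simp only [Matrix.mul_assoc, nonsing_inv_mul_cancel_left _ _ hP.isUnit]
  have a6 := end5_mul a2 (end5_inv a3) i j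
  rwa [← a5, mul_nonsing_inv_cancel_right _ _ a4] at a6

end GPC73

end

section

/-! The second logarithmic derivatives of the theta functions. -/

open MvPolynomial Filter Topology

namespace GPC73

variable {g N : ℕ} (A : AbVar g N)

/-- The numerator of `∂ i ∂ j log (θ l)`. -/
noncomputable def wn (l : Fin (N + 1)) (i j : Fin g) (z : Fin g → ℂ) : ℂ :=
  A.θ l z * pd i (pd j (A.θ l)) z - pd i (A.θ l) z * pd j (A.θ l) z

theorem wp_en_pd {F : (Fin g → ℂ) → ℂ} (hF : En F) (j : Fin g) : En (pd j F) :=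
  an_fderiv hF (Pi.single j 1)

theorem wp_pd2 {F : (Fin g → ℂ) → ℂ} (hF : En F) (i j : Fin g) (z : Fin g → ℂ) :
    pd i (pd j F) z = fderiv ℂ (fderiv ℂ F) z (Pi.single i 1) (Pi.single j 1) := by
  have h1 : DifferentiableAt ℂ (fderiv ℂ F) z := (hF.fderiv z trivial).differentiableAt
  have h2 := (h1.hasFDerivAt.clm_apply (hasFDerivAt_const (Pi.single j 1 : Fin g → ℂ) z)).fderiv
  show fderiv ℂ (fun y => fderiv ℂ F y (Pi.single j 1)) z (Pi.single i 1) = _
  rw [h2]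
  simp

theorem wp_tr (F : (Fin g → ℂ) → ℂ) (j : Fin g) (c z : Fin g → ℂ) :
    pd j F (z + c) = pd j (fun w => F (w + c)) z := by
  unfold pd
  rw [fderiv_comp_add_right]

theorem wp_exp {F : (Fin g → ℂ) → ℂ} (hF : En F) (L : (Fin g → ℂ) →L[ℂ] ℂ) (b : ℂ) (j : Fin g)
    (z : Fin g → ℂ) : pd j (fun w => Complex.exp (L w + b) * F w) z =
      Complex.exp (L z + b) * (pd j F z + L (Pi.single j 1) * F z) := by
  have h1 : HasFDerivAt (fun w => Complex.exp (L w + b)) (Complex.exp (L z + b) • L) z :=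
    (L.hasFDerivAt.add_const b).cexp
  have h2 := (h1.mul (hF z trivial).differentiableAt.hasFDerivAt).fderiv
  unfold pd
  rw [show (fun w => Complex.exp (L w + b) * F w) = (fun w => Complex.exp (L w + b)) * F from rfl,
    h2]
  simp only [_root_.add_apply, _root_.smul_apply, smul_eq_mul]
  ring

theorem wp_add {F G : (Fin g → ℂ) → ℂ} (hF : En F) (hG : En G) (c : ℂ) (j : Fin g)
    (z : Fin g → ℂ) : pd j (fun w => F w + c * G w) z = pd j F z + c * pd j G z := by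
  have h2 := ((hF z trivial).differentiableAt.hasFDerivAt.add
    ((hG z trivial).differentiableAt.hasFDerivAt.const_mul c)).fderiv
  unfold pd
  rw [show (fun w => F w + c * G w) = F + fun w => c * G w from rfl, h2]
  simp only [_root_.add_apply, _root_.smul_apply, smul_eq_mul]

theorem wp_sub {F G : (Fin g → ℂ) → ℂ} {z : Fin g → ℂ} (hF : DifferentiableAt ℂ F z)
    (hG : DifferentiableAt ℂ G z) (j : Fin g) :
    pd j (fun w => F w - G w) z = pd j F z - pd j G z := by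
  unfold pd
  rw [fderiv_fun_sub hF hG]
  rfl

theorem wn_symm (l : Fin (N + 1)) (i j : Fin g) : wn A l i j = wn A l j i := by
  funext z
  have h := ((A.hol l z trivial).contDiffAt (n := ⊤)).isSymmSndFDerivAt_of_omega
  unfold wn
  rw [wp_pd2 (A.hol l), wp_pd2 (A.hol l), h.eq, mul_comm (pd i _ z)]

/-- Differentiate `A.aut`. -/
theorem pd_aut (l : Fin (N + 1)) (j : Fin g) (m : Fin (2 * g)) (z : Fin g → ℂ) :
    pd j (A.θ l) (z + A.ω m) = Complex.exp (A.a m z + A.b m) *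
      (pd j (A.θ l) z + A.a m (Pi.single j 1) * A.θ l z) := by
  rw [wp_tr, funext (A.aut l m), wp_exp (A.hol l)]

/-- Differentiate `pd_aut`. -/
theorem wn_sc (l : Fin (N + 1)) (i j : Fin g) : Sc A 2 (wn A l i j) := by
  have h0 : En (A.θ l) := A.hol l
  refine ⟨(h0.mul (wp_en_pd (wp_en_pd h0 j) i)).sub ((wp_en_pd h0 i).mul (wp_en_pd h0 j)),
    fun m z => ?_⟩
  have h1 : En fun w => pd j (A.θ l) w + A.a m (Pi.single j 1) * A.θ l w :=
    (wp_en_pd h0 j).add (analyticOnNhd_const.mul h0)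
  have h2 : Complex.exp ((2 : ℕ) * (A.a m z + A.b m)) = Complex.exp (A.a m z + A.b m) ^ 2 :=
    Complex.exp_nat_mul _ _
  unfold wn
  rw [wp_tr (pd j (A.θ l)), funext (pd_aut A l j m), wp_exp h1, wp_add (wp_en_pd h0 j) h0,
    pd_aut, pd_aut, A.aut, h2]
  ring

variable {A} {k : Fin (N + 1)}

/-- Where `θ k`, `θ l` do not vanish the function is `pd i (pd j t / t)`, `t = θ k / θ l`
(`cj_x`, `Cj.der`, `Cj.div`). -/
theorem cj_wdiff (hk : ∃ z, A.θ k z ≠ 0) {l : Fin (N + 1)} (hl : ∃ z, A.θ l z ≠ 0)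
    (σ : ℂ →ₐ[Qb] ℂ) (i j : Fin g) :
    Cj A k σ (fun z => wn A k i j z / A.θ k z ^ 2 - wn A l i j z / A.θ l z ^ 2)
      fun z => wn A k i j z / A.θ k z ^ 2 - wn A l i j z / A.θ l z ^ 2 := by
  have h0 := cj_x hk σ l k
  have h1 := ((h0.der j).div h0).der i
  have hg : ∀ᶠ z in gen g, A.θ k z ≠ 0 ∧ A.θ l z ≠ 0 :=
    (gen_ne (A.hol k) hk).and (gen_ne (A.hol l) hl)
  have hd : ∀ n z, DifferentiableAt ℂ (A.θ n) z := fun n z => (A.hol n z trivial).differentiableAt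
  have hd' : ∀ n z, DifferentiableAt ℂ (pd j (A.θ n)) z := fun n z =>
    (wp_en_pd (A.hol n) j z trivial).differentiableAt
  have e1 : (fun z => pd j (fun z => xc A l z k) z / xc A l z k) =ᶠ[gen g]
      fun z => pd j (A.θ k) z / A.θ k z - pd j (A.θ l) z / A.θ l z := by
    filter_upwards [hg] with z hz
    unfold xc
    rw [Gx.gx_div (hd k z) (hd l z) hz.2]
    have := hz.1
    have := hz.2
    field_simp
  have e2 : pd i (fun z => pd j (fun z => xc A l z k) z / xc A l z k) =ᶠ[gen g]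
      fun z => wn A k i j z / A.θ k z ^ 2 - wn A l i j z / A.θ l z ^ 2 := by
    filter_upwards [hg, gen_pd e1 i] with z hz h2
    rw [h2, wp_sub (Gx.gx_ddiv (hd' k z) (hd k z) hz.1) (Gx.gx_ddiv (hd' l z) (hd l z) hz.2),
      Gx.gx_div (hd' k z) (hd k z) hz.1, Gx.gx_div (hd' l z) (hd l z) hz.2]
    unfold wn
    ring
  exact h1.congr e2 e2

/-- `gaga_chart` for the chart `l` and the sections `Ψ ^ n`; conjugate the identities
`Δ * u ^ n = f` (`cj_eval` with `cj_x`, `Cj.ne`, `Cj.unique`), `lb_of_pow` on `θ l ≠ 0`. -/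
theorem cj_lb {σ : ℂ →ₐ[Qb] ℂ} {D : ℕ} {Ψ v : (Fin g → ℂ) → ℂ} (hΨ : Sc A D Ψ)
    {l : Fin (N + 1)} (h : Cj A k σ (fun z => Ψ z / A.θ l z ^ D) v) {z : Fin g → ℂ}
    (hz : A.θ l z ≠ 0) : LB v z := by
  have hk := h.1
  obtain ⟨Δ, hΔ, hf⟩ := gaga_chart (A := A) (k := l) ⟨z, hz⟩
  have hc : ∀ f : MvPolynomial (Fin (N + 1)) ℂ,
      Cj A k σ (ev A l f) (ev A l (map (σ : ℂ →+* ℂ) f)) := fun f =>
    cj_eval hk (fun i => cj_x hk σ l i) f
  have hO : IsOpen {z | A.θ l z ≠ 0} :=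
    isOpen_ne_fun (continuousOn_univ.mp (A.hol l).continuousOn) continuous_const
  refine lb_of_pow hO h.mer.2 (ev_an (map (σ : ℂ →+* ℂ) Δ)) ((hc Δ).ne hΔ) (fun n => ?_) hz
  obtain ⟨f, hf⟩ := hf (D * n) _ (hΨ.pow n)
  refine ⟨_, ev_an (map (σ : ℂ →+* ℂ) f), ((hc Δ).mul (h.pow n)).unique (hc f) ?_⟩
  filter_upwards [gen_ne (A.hol l) ⟨z, hz⟩] with w hw
  rw [← hf w hw, div_pow, pow_mul]

/-- Let `v l` be the conjugate of `u l = wn l / θ l ^ 2` (`cj_sc`).  By `cj_wdiff`,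
`v k - u k = v l - u l` generically, so it is locally bounded everywhere (`A.ne`, `cj_lb`), hence
constant (`const_of_lb`, `Cj.per`). -/
theorem cj_wp (hk : ∃ z, A.θ k z ≠ 0) (σ : ℂ →ₐ[Qb] ℂ) (i j : Fin g) : ∃ s : ℂ,
    Cj A k σ (fun z => wn A k i j z / A.θ k z ^ 2) fun z => wn A k i j z / A.θ k z ^ 2 + s := by
  have hs : ∀ l, ∃ v, Cj A k σ (fun z => wn A l i j z / A.θ l z ^ 2) v := fun l =>
    cj_sc hk σ (wn_sc A l i j) ((sc_theta A l).pow 2)
  obtain ⟨v, hv⟩ := hs k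
  have hb : ∀ z, LB (fun z => v z - wn A k i j z / A.θ k z ^ 2) z := fun z => by
    obtain ⟨l, hl⟩ := A.ne z
    obtain ⟨v', hv'⟩ := hs l
    have e := (hv.sub hv').unique (cj_wdiff hk ⟨z, hl⟩ σ i j) EventuallyEq.rfl
    have hc : ContinuousAt (fun z => wn A l i j z / A.θ l z ^ 2) z :=
      ((wn_sc A l i j).1 z trivial).continuousAt.div ((A.hol l z trivial).continuousAt.pow 2)
        (pow_ne_zero 2 hl)
    refine ((cj_lb (wn_sc A l i j) hv' hl).sub (lb_of_cont hc)).congr ?_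
    filter_upwards [e] with w hw
    linear_combination -hw
  obtain ⟨c, hc⟩ := const_of_lb A.ω (hv.mer.2.sub hv.mer.1) (fun m => by
    filter_upwards [(hv.per m).1, (hv.per m).2] with w h1 h2
    rw [h1, h2]) hb
  refine ⟨c, hv.congr EventuallyEq.rfl ?_⟩
  filter_upwards [hc] with w hw
  linear_combination hw

end GPC73

end

section

/-! The Riemann relations for de Rham classes. -/

open MvPolynomial Filter Topology Matrix

namespace GPC73

variable {g N : ℕ} (A : AbVar g N)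

theorem u2_lin (c : Fin g → ℂ) : En (fun z : Fin g → ℂ => ∑ i, c i * z i) ∧
    ∀ l z, pd l (fun z => ∑ i, c i * z i) z = c l := by
  set f : (Fin g → ℂ) →L[ℂ] ℂ := ∑ i, c i • ContinuousLinearMap.proj i with hf
  have e : (fun z : Fin g → ℂ => ∑ i, c i * z i) = f := funext fun z => by simp [hf]
  rw [e]
  refine ⟨fun z _ => f.analyticAt z, fun l z => ?_⟩
  simp [pd, hf, Pi.single_apply]

theorem omega_mem (j : Fin g) : (fun l => A.ω l j) ∈ A.dR := by
  have e1 : val A.θ 1 = fun _ => 1 := funext fun z => by simp [val]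
  obtain ⟨h1, h2⟩ := u2_lin (Pi.single j 1 : Fin g → ℂ)
  refine ⟨_, 0, 1, h1, isHomogeneous_one _ _, ⟨0, by simp [e1]⟩, fun l =>
    ⟨0, C ((Pi.single j 1 : Fin g → Qb) l), 1, isHomogeneous_C _ _, isHomogeneous_one _ _,
      ⟨0, by simp [e1]⟩, fun z => ?_⟩, fun l z => by simp [e1, Pi.single_apply]⟩
  simp only [e1, Pi.sub_apply, Pi.mul_apply, Pi.pow_apply, h2]
  simp [pd, val, Pi.single_apply, apply_ite]

/-- `cj_wp`, `cj_shift`; symmetrise `s` (`wn_symm`, the constant `1 / 2` is fixed by `σ`).  Take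
`H z = pd j (θ k) z - (∑ i, s i j * z i) * θ k z`, `β = X k`; `isRat_of_cj`, `pd_aut`. -/
theorem exists_H : ∃ s : Fin g → Fin g → ℂ, (∀ i j, s i j = s j i) ∧
    ∀ j, (fun l => A.a l (Pi.single j 1) - ∑ i, s i j * A.ω l i) ∈ A.dR := by
  obtain ⟨k, hk0⟩ := A.ne 0
  have hk : ∃ z, A.θ k z ≠ 0 := ⟨0, hk0⟩
  choose s hs using fun i j => cj_shift fun σ => cj_wp hk σ i j
  refine ⟨fun i j => (s i j + s j i) / 2, fun i j => by ring, fun j => ?_⟩
  have e1 : val A.θ (X k) = A.θ k := funext fun z => by simp [val]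
  obtain ⟨h1, h2⟩ := u2_lin fun i => (s i j + s j i) / 2
  set L : (Fin g → ℂ) → ℂ := fun z => ∑ i, (s i j + s j i) / 2 * z i with hL
  have h3 := norm_pd_an (A.hol k) j
  have h3' : En (L * A.θ k) := h1.mul (A.hol k)
  have h4 : En (pd j (A.θ k) - L * A.θ k) := h3.sub h3'
  refine ⟨_, 1, X k, h4, isHomogeneous_X _ _, by rwa [e1], fun l => ?_, fun l z => ?_⟩
  · rw [e1]
    refine isRat_of_cj (k := k) (((A.hol k).mul (norm_pd_an h4 l)).sub
      (h4.mul (norm_pd_an (A.hol k) l))) ((A.hol k).pow 2) ⟨0, pow_ne_zero 2 hk0⟩ fun σ => ?_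
    have h5 := (cj_const hk σ (1 / 2)).mul ((hs l j σ).add (hs j l σ))
    rw [map_div₀, map_one, map_ofNat, wn_symm A k j l] at h5
    have h6 : ∀ᶠ z in gen g, _ := (gen_ne (A.hol k) hk).mono fun z hz =>
      show 1 / 2 * (wn A k l j z / A.θ k z ^ 2 - s l j + (wn A k l j z / A.θ k z ^ 2 - s j l)) =
        (A.θ k * pd l (pd j (A.θ k) - L * A.θ k) -
          (pd j (A.θ k) - L * A.θ k) * pd l (A.θ k)) z / (A.θ k ^ 2) z by
        have e2 : pd l (pd j (A.θ k) - L * A.θ k) z =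
            pd l (pd j (A.θ k)) z - pd l (L * A.θ k) z := by
          simp only [pd]
          rw [fderiv_sub (h3 z trivial).differentiableAt (h3' z trivial).differentiableAt]
          rfl
        simp only [Pi.sub_apply, Pi.mul_apply, Pi.pow_apply, e2, norm_pd_mul h1 (A.hol k), h2, wn]
        field_simp
        ring
    exact h5.congr h6 h6
  · simp only [e1, hL, Pi.sub_apply, Pi.mul_apply, Pi.add_apply, pd_aut, A.aut, mul_add,
      Finset.sum_add_distrib]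
    ring

theorem u2_ec : ∃ Ω H : Matrix (Fin g) (Fin (2 * g)) ℂ, (∀ j, Ω j ∈ A.dR) ∧ (∀ j, H j ∈ A.dR) ∧
    A.Ec = Hᵀ * Ω - Ωᵀ * H := by
  obtain ⟨s, h1, h2⟩ := exists_H A
  refine ⟨Matrix.of fun j l => A.ω l j,
    Matrix.of fun j l => A.a l (Pi.single j 1) - ∑ i, s i j * A.ω l i, omega_mem A, h2, ?_⟩
  ext l m
  have e1 : ∀ l (v : Fin g → ℂ), A.a l v = ∑ j, v j * A.a l (Pi.single j 1) := fun l v => by
    conv_lhs => rw [pi_eq_sum_univ' v]
    simp only [map_sum, map_smul, smul_eq_mul]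
  have e2 : ∑ j, (∑ i, s i j * A.ω l i) * A.ω m j = ∑ j, A.ω l j * ∑ i, s i j * A.ω m i := by
    simp only [Finset.sum_mul, Finset.mul_sum]
    rw [Finset.sum_comm]
    exact Finset.sum_congr rfl fun i _ => Finset.sum_congr rfl fun j _ => by rw [h1]; ring
  simp only [AbVar.Ec, Matrix.of_apply, Matrix.sub_apply, Matrix.mul_apply, transpose_apply,
    sub_mul, mul_sub, Finset.sum_sub_distrib, e2]
  rw [e1 l (A.ω m), e1 m (A.ω l)]
  simp only [mul_comm]
  ring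

variable {A}

/-- With `Ω j l = ω l j` and `H` from `exists_H`: `Ec = Hᵀ Ω - Ωᵀ H`; `dR_alg`. -/
theorem u2_alg {P : Matrix (Fin (2 * g)) (Fin (2 * g)) ℂ} (hP : P.det ≠ 0)
    (hr : ∀ i, P i ∈ A.dR) (i j : Fin (2 * g)) : IsAlgebraic ℚ (((P⁻¹)ᵀ * A.Ec * P⁻¹) i j) := by
  obtain ⟨Ω, H, h1, h2, h3⟩ := u2_ec A
  have e : (P⁻¹)ᵀ * A.Ec * P⁻¹ = (H * P⁻¹)ᵀ * (Ω * P⁻¹) - (Ω * P⁻¹)ᵀ * (H * P⁻¹) := by
    simp only [h3, transpose_mul, Matrix.mul_sub, Matrix.sub_mul, Matrix.mul_assoc]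
  have k : ∀ M : Matrix (Fin g) (Fin (2 * g)) ℂ, (∀ j, M j ∈ A.dR) →
      ∀ j i, (M * P⁻¹) j i ∈ algebraicClosure ℚ ℂ := fun M hM j i =>
    mem_algebraicClosure_iff.2 (dR_alg hP hr (hM j) i)
  rw [e, Matrix.sub_apply, Matrix.mul_apply, Matrix.mul_apply]
  exact mem_algebraicClosure_iff.1 (sub_mem (sum_mem fun l _ => mul_mem (k H h2 l i) (k Ω h1 l j))
    (sum_mem fun l _ => mul_mem (k Ω h1 l i) (k H h2 l j)))

/-- The de Rham classes span: if `v` is killed by the rows of `Ω` and `H` then `Ec v = 0`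
(`ec_det`).  Use `Matrix.fromRows` reindexed along `finSumFinEquiv`, or
`exists_linearIndependent`. -/
theorem exists_basis (A : AbVar g N) : ∃ P : Matrix (Fin (2 * g)) (Fin (2 * g)) ℂ,
    P.det ≠ 0 ∧ ∀ i, P i ∈ A.dR := by
  obtain ⟨Ω, H, h1, h2, h3⟩ := u2_ec A
  set e : Fin (2 * g) ≃ Fin g ⊕ Fin g := (finCongr (two_mul g)).trans finSumFinEquiv.symm
  refine ⟨Matrix.of fun i => Sum.elim Ω H (e i), fun h0 => ec_det A ?_, fun i => ?_⟩
  · obtain ⟨v, hv, h4⟩ := exists_mulVec_eq_zero_iff.2 h0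
    have h5 : ∀ x, Sum.elim Ω H x ⬝ᵥ v = 0 := fun x => by
      have : Sum.elim Ω H (e (e.symm x)) ⬝ᵥ v = 0 := congrFun h4 (e.symm x)
      rwa [e.apply_symm_apply] at this
    have h6 : Ω *ᵥ v = 0 := funext fun j => h5 (Sum.inl j)
    have h7 : H *ᵥ v = 0 := funext fun j => h5 (Sum.inr j)
    refine exists_mulVec_eq_zero_iff.1 ⟨v, hv, ?_⟩
    simp only [h3, sub_mulVec, ← mulVec_mulVec, h6, h7, mulVec_zero, sub_zero]
  · change Sum.elim Ω H (e i) ∈ A.dR
    rcases e i with j | j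
    exacts [h1 j, h2 j]

end GPC73

end
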