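import Pool.Agent.MP_57341d_ag.Mg.H96_GenSpan
import Mathlib
import Pool.Agent.MP_d171e3_nt.Dim

-- part MP_57341d_ag.H73.Jet
section

section

/-! Rings of analytic functions with their derivations. -/

open MvPolynomial GPC96

namespace GPC73

variable (E : Type) [NormedAddCommGroup E] [NormedSpace ℂ E]

/-- Entire functions on `E`. -/
def Ent : Subalgebra ℂ (E → ℂ) where
  carrier := {f | AnalyticOnNhd ℂ f Set.univ}
  mul_mem' := fun hf hg => AnalyticOnNhd.mul hf hg
  add_mem' := fun hf hg => AnalyticOnNhd.add hf hg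
  algebraMap_mem' := fun _ => analyticOnNhd_const

variable {E}

/-- Analytic functions on `O`. -/
def An (O : Set E) : Subalgebra ℂ (O → ℂ) where
  carrier := {f | ∃ F : E → ℂ, AnalyticOnNhd ℂ F O ∧ ∀ z : O, f z = F z}
  mul_mem' := by
    rintro f g ⟨F, hF, hf⟩ ⟨G, hG, hg⟩
    exact ⟨F * G, hF.mul hG, fun z => by simp [hf, hg]⟩
  add_mem' := by
    rintro f g ⟨F, hF, hf⟩ ⟨G, hG, hg⟩
    exact ⟨F + G, hF.add hG, fun z => by simp [hf, hg]⟩
  algebraMap_mem' := fun c => ⟨fun _ => c, analyticOnNhd_const, fun _ => rfl⟩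

theorem Ent.an (f : Ent E) (z : E) : AnalyticAt ℂ f.1 z := f.2 z trivial

theorem Ent.diff (f : Ent E) : Differentiable ℂ f.1 := fun z => (Ent.an f z).differentiableAt

theorem an_fderiv {F : E → ℂ} {O : Set E} (hF : AnalyticOnNhd ℂ F O) (v : E) :
    AnalyticOnNhd ℂ (fun z => fderiv ℂ F z v) O := fun z hz =>
  ((ContinuousLinearMap.apply ℂ ℂ v).analyticAt _).comp (hF.fderiv z hz)

/-- The derivative in the direction `v`. -/
noncomputable def dE (v : E) : Derivation ℂ (Ent E) (Ent E) :=
  Derivation.mk'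
    { toFun := fun f => ⟨fun z => fderiv ℂ f.1 z v, an_fderiv f.2 v⟩
      map_add' := fun f g => Subtype.ext (funext fun z => by
        show fderiv ℂ (f.1 + g.1) z v = fderiv ℂ f.1 z v + fderiv ℂ g.1 z v
        rw [fderiv_add (Ent.diff f z) (Ent.diff g z)]; rfl)
      map_smul' := fun c f => Subtype.ext (funext fun z => by
        show fderiv ℂ (c • f.1) z v = c • fderiv ℂ f.1 z v
        rw [fderiv_const_smul (Ent.diff f z)]; rfl) }
    fun f g => Subtype.ext (funext fun z => by
      show fderiv ℂ (f.1 * g.1) z v = f.1 z * fderiv ℂ g.1 z v + g.1 z * fderiv ℂ f.1 z v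
      rw [fderiv_mul (Ent.diff f z) (Ent.diff g z)]; rfl)

theorem dE_apply (v : E) (f : Ent E) (z : E) : (dE v f).1 z = fderiv ℂ f.1 z v := rfl

theorem an_fderiv_eq {O : Set E} (hO : IsOpen O) {F G : E → ℂ} (h : ∀ z : O, F z = G z) (z : O) :
    fderiv ℂ F z = fderiv ℂ G z :=
  Filter.EventuallyEq.fderiv_eq (Filter.eventually_of_mem (hO.mem_nhds z.2) fun w hw => h ⟨w, hw⟩)

/-- The derivative of an analytic function on `O`, as a function. -/
noncomputable def dA₀ {O : Set E} (v : E) (f : An O) : An O :=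
  ⟨fun z => fderiv ℂ f.2.choose z v, _, an_fderiv f.2.choose_spec.1 v, fun _ => rfl⟩

theorem dA₀_apply {O : Set E} (hO : IsOpen O) (v : E) (f : An O) {F : E → ℂ}
    (h : ∀ z : O, f.1 z = F z) (z : O) : (dA₀ v f).1 z = fderiv ℂ F z v := by
  have := an_fderiv_eq hO (F := f.2.choose) (G := F)
    (fun w => (f.2.choose_spec.2 w).symm.trans (h w)) z
  show fderiv ℂ f.2.choose z v = _
  rw [this]

/-- The derivative in the direction `v` on `O`. -/
noncomputable def dA {O : Set E} (hO : IsOpen O) (v : E) : Derivation ℂ (An O) (An O) :=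
  Derivation.mk'
    { toFun := dA₀ v
      map_add' := fun f g => Subtype.ext (funext fun z => by
        obtain ⟨F, hF, hf⟩ := f.2
        obtain ⟨G, hG, hg⟩ := g.2
        show (dA₀ v (f + g)).1 z = (dA₀ v f).1 z + (dA₀ v g).1 z
        rw [dA₀_apply hO v (f + g) (F := F + G) (fun w => by simp [hf, hg]), dA₀_apply hO v f hf,
          dA₀_apply hO v g hg, fderiv_add (hF z z.2).differentiableAt (hG z z.2).differentiableAt]
        rfl)
      map_smul' := fun c f => Subtype.ext (funext fun z => by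
        obtain ⟨F, hF, hf⟩ := f.2
        show (dA₀ v (c • f)).1 z = c • (dA₀ v f).1 z
        rw [dA₀_apply hO v (c • f) (F := c • F) (fun w => by simp [hf]), dA₀_apply hO v f hf,
          fderiv_const_smul (hF z z.2).differentiableAt]
        rfl) }
    fun f g => Subtype.ext (funext fun z => by
      obtain ⟨F, hF, hf⟩ := f.2
      obtain ⟨G, hG, hg⟩ := g.2
      show (dA₀ v (f * g)).1 z = f.1 z * (dA₀ v g).1 z + g.1 z * (dA₀ v f).1 z
      rw [dA₀_apply hO v (f * g) (F := F * G) (fun w => by simp [hf, hg]), dA₀_apply hO v f hf,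
        dA₀_apply hO v g hg, fderiv_mul (hF z z.2).differentiableAt (hG z z.2).differentiableAt,
        hf, hg]
      rfl)

theorem dA_apply {O : Set E} (hO : IsOpen O) (v : E) (f : An O) {F : E → ℂ}
    (h : ∀ z : O, f.1 z = F z) (z : O) : (dA hO v f).1 z = fderiv ℂ F z v :=
  dA₀_apply hO v f h z

/-- Restriction to `O`. -/
def res (O : Set E) : Ent E →ₐ[ℂ] An O where
  toFun f := ⟨fun z => f.1 z, f.1, fun z _ => Ent.an f z, fun _ => rfl⟩
  map_one' := rfl
  map_mul' _ _ := rfl
  map_zero' := rfl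
  map_add' _ _ := rfl
  commutes' _ := rfl

theorem res_apply (O : Set E) (f : Ent E) (z : O) : (res O f).1 z = f.1 z := rfl

theorem res_dE {O : Set E} (hO : IsOpen O) (v : E) (f : Ent E) :
    res O (dE v f) = dA hO v (res O f) :=
  Subtype.ext (funext fun z => (dA_apply hO v (res O f) (F := f.1) (fun _ => rfl) z).symm)

/-- Translation: `tr x f = f (· + x)`. -/
def tr (x : E) : Ent E →ₐ[ℂ] Ent E where
  toFun f := ⟨fun z => f.1 (z + x), fun z _ =>
    (Ent.an f (z + x)).comp (f := fun z => z + x) (analyticAt_id.add analyticAt_const)⟩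
  map_one' := rfl
  map_mul' _ _ := rfl
  map_zero' := rfl
  map_add' _ _ := rfl
  commutes' _ := rfl

theorem tr_apply (x : E) (f : Ent E) (z : E) : (tr x f).1 z = f.1 (z + x) := rfl

theorem tr_dE (x v : E) (f : Ent E) : tr x (dE v f) = dE v (tr x f) :=
  Subtype.ext (funext fun z => by
    show fderiv ℂ f.1 (z + x) v = fderiv ℂ (fun z => f.1 (z + x)) z v
    rw [fderiv_comp_add_right])

/-- Entire functions vanishing at `z`. -/
def mz (z : E) : Ideal (Ent E) :=
  RingHom.ker ((Pi.evalRingHom (fun _ : E => ℂ) z).comp (Ent E).val.toRingHom)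

theorem mem_mz {z : E} {f : Ent E} : f ∈ mz z ↔ f.1 z = 0 := Iff.rfl

instance (z : E) : (mz z).IsPrime := RingHom.ker_isPrime _

/-- Analytic functions on `O` vanishing at `z`. -/
def ma {O : Set E} (z : O) : Ideal (An O) :=
  RingHom.ker ((Pi.evalRingHom (fun _ : O => ℂ) z).comp (An O).val.toRingHom)

theorem mem_ma {O : Set E} {z : O} {f : An O} : f ∈ ma z ↔ f.1 z = 0 := Iff.rfl

instance {O : Set E} (z : O) : (ma z).IsPrime := RingHom.ker_isPrime _

/-- `f` vanishes at `z` to order `≥ n` along the directions `b i`. -/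
def JB {ι : Type} (b : ι → E) (n : ℕ) (z : E) (f : Ent E) : Prop :=
  Jet (mz z) (fun i => dE (b i)) (fun _ => 1) n f

/-- Polynomials in the functions `ξ i` as analytic functions on `O`. -/
noncomputable def evP {σ : Type} {O : Set E} (ξ : σ → E → ℂ) (h : ∀ i, AnalyticOnNhd ℂ (ξ i) O) :
    MvPolynomial σ ℂ →ₐ[ℂ] An O :=
  aeval fun i => ⟨fun z => ξ i z, ξ i, h i, fun _ => rfl⟩

theorem evP_apply {σ : Type} {O : Set E} (ξ : σ → E → ℂ) (h : ∀ i, AnalyticOnNhd ℂ (ξ i) O)
    (f : MvPolynomial σ ℂ) (z : O) : (evP ξ h f).1 z = eval (fun i => ξ i z) f := by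
  induction f using MvPolynomial.induction_on with
  | C c => simp [evP]
  | add f g hf hg => simp only [map_add, ← hf, ← hg]; rfl
  | mul_X f i hf => simp only [map_mul, ← hf, eval_X, evP, aeval_X]; rfl

theorem an_eval {σ : Type} {O : Set E} (ξ : σ → E → ℂ) (h : ∀ i, AnalyticOnNhd ℂ (ξ i) O)
    (f : MvPolynomial σ ℂ) : AnalyticOnNhd ℂ (fun z => eval (fun i => ξ i z) f) O := by
  induction f using MvPolynomial.induction_on with
  | C c => simpa using analyticOnNhd_const
  | add f g hf hg => simp only [map_add]; exact hf.add hg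
  | mul_X f i hf => simp only [map_mul, eval_X]; exact hf.mul (h i)

theorem evP_der {σ : Type} {O : Set E} (hO : IsOpen O) (ξ : σ → E → ℂ)
    (h : ∀ i, AnalyticOnNhd ℂ (ξ i) O) (v : E) (d : σ → MvPolynomial σ ℂ)
    (hd : ∀ i, ∀ z ∈ O, fderiv ℂ (ξ i) z v = eval (fun i => ξ i z) (d i))
    (f : MvPolynomial σ ℂ) : evP ξ h (mkDerivation ℂ d f) = dA hO v (evP ξ h f) := by
  induction f using MvPolynomial.induction_on with
  | C c =>
    rw [show (C c : MvPolynomial σ ℂ) = algebraMap ℂ _ c from rfl, Derivation.map_algebraMap,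
      AlgHom.commutes, Derivation.map_algebraMap, map_zero]
  | add f g hf hg => simp only [map_add, hf, hg]
  | mul_X f i hf =>
    have : evP ξ h (d i) = dA hO v (evP ξ h (X i)) := Subtype.ext (funext fun z => by
      rw [evP_apply, dA_apply hO v _ (F := ξ i) (fun w => by rw [evP_apply, eval_X]), hd i z z.2])
    simp only [Derivation.leibniz, smul_eq_mul, map_add, map_mul, hf, mkDerivation_X, this]

/-- The bracket `∂_x^l (f (z + x) k (z - x))` at `x = 0`. -/
def Br {R : Type} [CommRing R] [Algebra ℂ R] {ι : Type} (D : ι → Derivation ℂ R R) :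
    List ι → R → R → R
  | [], f, k => f * k
  | i :: l, f, k => Br D l (D i f) k - Br D l f (D i k)

end GPC73

end

section

/-! Words in derivations: transfer, brackets, Cauchy estimates. -/

open MvPolynomial GPC96 Filter Topology

namespace GPC73

section Alg

variable {R S : Type} [CommRing R] [Algebra ℂ R] [CommRing S] [Algebra ℂ S] {ι : Type}

theorem ap_hom (φ : R →ₐ[ℂ] S) (D : ι → Derivation ℂ R R) (D' : ι → Derivation ℂ S S)
    (h : ∀ i f, φ (D i f) = D' i (φ f)) (l : List ι) (f : R) :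
    φ (ap D l f) = ap D' l (φ f) := by
  induction l generalizing f with
  | nil => rfl
  | cons i l ih => simp only [ap, ih, h]

theorem jet_hom (φ : R →ₐ[ℂ] S) (D : ι → Derivation ℂ R R) (D' : ι → Derivation ℂ S S)
    (h : ∀ i f, φ (D i f) = D' i (φ f)) (p : Ideal S) (w : ι → ℕ) (n : ℕ) (f : R) :
    Jet (p.comap φ) D w n f ↔ Jet p D' w n (φ f) := by
  unfold Jet
  refine forall_congr' fun l => imp_congr_right fun _ => ?_
  rw [Ideal.mem_comap, ap_hom φ D D' h]

theorem ap_map {κ : Type} (e : κ → ι) (D : ι → Derivation ℂ R R) (l : List κ) (f : R) :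
    ap D (l.map e) f = ap (fun k => D (e k)) l f := by
  induction l generalizing f with
  | nil => rfl
  | cons i l ih => simp only [List.map_cons, ap, ih]

theorem br_map {κ : Type} (e : κ → ι) (D : ι → Derivation ℂ R R) (l : List κ) (f k : R) :
    Br D (l.map e) f k = Br (fun k => D (e k)) l f k := by
  induction l generalizing f k with
  | nil => rfl
  | cons i l ih => simp only [List.map_cons, Br, ih]

theorem jet_one_iff (p : Ideal R) (D : ι → Derivation ℂ R R) (n : ℕ) (f : R) :
    Jet p D (fun _ => 1) n f ↔ ∀ l : List ι, l.length < n → ap D l f ∈ p := by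
  unfold Jet
  simp only [List.map_const', List.sum_replicate, smul_eq_mul, mul_one]

theorem exists_word (p : Ideal R) (D : ι → Derivation ℂ R R) {t : ℕ} {f : R}
    (h : Jet p D (fun _ => 1) t f) (h' : ¬ Jet p D (fun _ => 1) (t + 1) f) :
    ∃ l : List ι, l.length = t ∧ ap D l f ∉ p := by
  rw [jet_one_iff] at h h'
  by_contra hc
  refine h' fun l hl => ?_
  by_cases e : l.length = t
  · by_contra hn
    exact hc ⟨l, e, hn⟩
  · exact h l (by omega)

/-- Induction on `l` (generalising `f`, `k`) inside the ideal `Fl`; use `filt_der`, `Jet.mono`. -/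
theorem br_jet (p : Ideal R) (D : ι → Derivation ℂ R R) (n : ℕ) (l : List ι) (f k : R)
    (h : Jet p D (fun _ => 1) (n + l.length) f) : Jet p D (fun _ => 1) n (Br D l f k) := by
  have hw : ∀ i : ι, 1 ≤ (fun _ => 1 : ι → ℕ) i := fun _ => le_rfl
  induction l generalizing f k with
  | nil => exact (Fl p D (fun _ => 1) hw n).mul_mem_right k h
  | cons i l ih =>
    have h1 : Jet p D (fun _ => 1) (n + l.length) (D i f) :=
      filt_der p D hw (n := n + (l.length + 1)) h i
    have h2 : Jet p D (fun _ => 1) (n + l.length) f :=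
      h.mono p D _ (by simp only [List.length_cons]; omega)
    exact (Fl p D (fun _ => 1) hw n).sub_mem (ih _ k h1) (ih f _ h2)

/-- First show, by induction on `l` generalising `f`, `k`: if `Jet l.length f` then
`Br D l f k - k * ap D l f ∈ p` (the term `Br D l f (D i k)` is in `p` by `br_jet` with `n = 1`).
Then induction on `n`. -/
theorem jet_of_br (p : Ideal R) [p.IsPrime] (D : ι → Derivation ℂ R R) (n : ℕ) (f k : R)
    (hk : k ∉ p) (h : ∀ l : List ι, l.length < n → Br D l f k ∈ p) :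
    Jet p D (fun _ => 1) n f := by
  have hw : ∀ i : ι, 1 ≤ (fun _ => 1 : ι → ℕ) i := fun _ => le_rfl
  have key : ∀ (l : List ι) (f k : R), Jet p D (fun _ => 1) l.length f →
      Br D l f k - k * ap D l f ∈ p := by
    intro l
    induction l with
    | nil =>
      intro f k _
      simp only [Br, ap]
      rw [mul_comm, sub_self]
      exact p.zero_mem
    | cons i l ih =>
      intro f k hf
      have h1 := ih (D i f) k (filt_der p D hw (n := l.length + 1) hf i)
      have h2 : Br D l f (D i k) ∈ p :=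
        br_jet p D 1 l f (D i k) (hf.mono p D _ (by simp only [List.length_cons]; omega)) []
          (by simp)
      simp only [Br, ap]
      rw [sub_right_comm]
      exact p.sub_mem h1 h2
  induction n with
  | zero => exact filt_jet_zero p D _ f
  | succ n ih =>
    have h1 := ih fun l hl => h l (by omega)
    rw [jet_one_iff]
    intro l hl
    have h2 := p.sub_mem (h l hl) (key l f k (h1.mono p D _ (by omega)))
    rw [sub_sub_cancel] at h2
    exact (Ideal.IsPrime.mem_or_mem ‹_› h2).resolve_left hk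

/-- Induction on `l` generalising `u`, `f`: `D (u f) = u D f + f D u` and `f * D u` lies in
`Fl (l.length + 1)`. -/
theorem ap_mul_sub (p : Ideal R) (D : ι → Derivation ℂ R R) (l : List ι) (u f : R)
    (h : Jet p D (fun _ => 1) l.length f) : ap D l (u * f) - u * ap D l f ∈ p := by
  have hw : ∀ i : ι, 1 ≤ (fun _ => 1 : ι → ℕ) i := fun _ => le_rfl
  induction l generalizing u f with
  | nil => simp only [ap, sub_self]; exact p.zero_mem
  | cons i l ih =>
    have h1 := ih u (D i f) (filt_der p D hw (n := l.length + 1) h i)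
    have h2 : Jet p D (fun _ => 1) (l.length + 1) (f * D i u) :=
      (Fl p D (fun _ => 1) hw _).mul_mem_right _ h
    have h3 := (jet_one_iff p D _ _).1 h2 l (Nat.lt_succ_self _)
    simp only [ap]
    rw [Derivation.leibniz, smul_eq_mul, smul_eq_mul, filt_ap_add, add_sub_right_comm]
    exact p.add_mem h1 h3

end Alg

variable {E : Type} [NormedAddCommGroup E] [NormedSpace ℂ E]

theorem jet_line {F : E → ℂ} {z v : E} {t : ℂ} (h : DifferentiableAt ℂ F (z + t • v)) :
    HasDerivAt (fun t : ℂ => F (z + t • v)) (fderiv ℂ F (z + t • v) v) t := by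
  have h1 : HasDerivAt (fun t : ℂ => z + t • v) v t := by
    simpa using ((hasDerivAt_id t).smul_const v).const_add z
  exact h.hasFDerivAt.comp_hasDerivAt t h1

/-- Identity theorem (`AnalyticOnNhd.eq_of_eventuallyEq` or
`AnalyticOnNhd.eqOn_zero_of_preconnected_of_eventuallyEq_zero`). -/
theorem ent_mul_ne {f g : Ent E} (hf : f ≠ 0) (hg : g ≠ 0) : ∃ z, f.1 z ≠ 0 ∧ g.1 z ≠ 0 := by
  by_contra hc
  have h1 : ∃ z, f.1 z ≠ 0 := by
    by_contra h
    exact hf (Subtype.ext (funext fun z => by_contra fun h' => h ⟨z, h'⟩))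
  obtain ⟨z, hz⟩ := h1
  have h2 : ∀ᶠ w in 𝓝 z, f.1 w ≠ 0 := (Ent.an f z).continuousAt.eventually_ne hz
  refine hg (Subtype.ext (AnalyticOnNhd.eq_of_eventuallyEq (z₀ := z) g.2 analyticOnNhd_const ?_))
  filter_upwards [h2] with w hw
  by_contra h
  exact hc ⟨w, hw, h⟩

/-- Induction on `n` generalising `f` with `jet_iff`; `v ↦ dE v f` is linear and `Fl` is an ideal
(`Submodule.span_induction`). -/
theorem jb_span {ι κ : Type} (b : ι → E) (b' : κ → E)
    (h : ∀ k, b' k ∈ Submodule.span ℂ (Set.range b)) {n : ℕ} {z : E} {f : Ent E}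
    (hf : JB b n z f) : JB b' n z f := by
  have hw : ∀ i : ι, 1 ≤ (fun _ => 1 : ι → ℕ) i := fun _ => le_rfl
  induction n generalizing f with
  | zero => exact filt_jet_zero _ _ _ f
  | succ n ih =>
    refine (jet_iff _ _ _ _ _).2 (Or.inr ⟨hf [] (by simp), fun k => ih ?_⟩)
    have key : ∀ v ∈ Submodule.span ℂ (Set.range b),
        dE v f ∈ Fl (mz z) (fun i => dE (b i)) (fun _ => 1) hw n := by
      intro v hv
      induction hv using Submodule.span_induction with
      | mem v hv =>
        obtain ⟨i, rfl⟩ := hv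
        exact filt_der _ _ hw (n := n + 1) hf i
      | zero =>
        rw [show dE (0 : E) f = 0 from Subtype.ext (funext fun w => map_zero (fderiv ℂ f.1 w))]
        exact zero_mem _
      | add u v _ _ hu hv =>
        rw [show dE (u + v) f = dE u f + dE v f from
          Subtype.ext (funext fun w => map_add (fderiv ℂ f.1 w) u v)]
        exact add_mem hu hv
      | smul c v _ hv =>
        rw [show dE (c • v) f = algebraMap ℂ (Ent E) c * dE v f from
          Subtype.ext (funext fun w => map_smul (fderiv ℂ f.1 w) c v)]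
        exact Ideal.mul_mem_left _ _ hv
    exact key _ (h k)

theorem jb_tr {ι : Type} (b : ι → E) (n : ℕ) (z x : E) (f : Ent E) :
    JB b n z (tr x f) ↔ JB b n (z + x) f := by
  have e : (mz z).comap (tr x) = mz (z + x) := Ideal.ext fun _ => Iff.rfl
  unfold JB
  rw [← e]
  exact (jet_hom (tr x) _ _ (fun i f => tr_dE x (b i) f) _ _ _ _).symm

theorem jb_res {ι : Type} (b : ι → E) {O : Set E} (hO : IsOpen O) (n : ℕ) (z : O) (f : Ent E) :
    JB b n z f ↔ Jet (ma z) (fun i => dA hO (b i)) (fun _ => 1) n (res O f) := by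
  have e : (ma z).comap (res O) = mz (z : E) := Ideal.ext fun _ => Iff.rfl
  unfold JB
  rw [← e]
  exact jet_hom (res O) _ _ (fun i f => res_dE hO (b i) f) _ _ _ _

/-- Iterated Cauchy estimate.  Induction on `l` generalising `f`, `S`; one step is
`Complex.norm_deriv_le_of_forall_mem_sphere_norm_le` for `t ↦ f (x + w + t • b i)`. -/
theorem cauchy_word {ι : Type} (b : ι → E) (W : Submodule ℂ E) (hW : ∀ i, b i ∈ W)
    (hb : ∀ i, ‖b i‖ ≤ 1) (x : E) {ρ : ℝ} (hρ : 0 < ρ) (l : List ι) (f : Ent E) (S : ℝ)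
    (h : ∀ w ∈ W, ‖w‖ ≤ l.length * ρ → ‖f.1 (x + w)‖ ≤ S) :
    ‖(ap (fun i => dE (b i)) l f).1 x‖ ≤ S / ρ ^ l.length := by
  induction l generalizing f S with
  | nil => simpa [ap] using h 0 W.zero_mem (by simp)
  | cons i l ih =>
    rw [List.length_cons, pow_succ', ← div_div]
    refine ih (dE (b i) f) (S / ρ) fun w hw hn => ?_
    have hd : ∀ t : ℂ, HasDerivAt (fun t : ℂ => f.1 (x + w + t • b i))
        (fderiv ℂ f.1 (x + w + t • b i) (b i)) t := fun t => jet_line (Ent.diff f _)
    have h0 := (hd 0).deriv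
    rw [zero_smul, add_zero] at h0
    rw [dE_apply, ← h0]
    refine Complex.norm_deriv_le_of_forall_mem_sphere_norm_le hρ
      (Differentiable.diffContOnCl fun t => (hd t).differentiableAt) fun t ht => ?_
    rw [add_assoc]
    refine h _ (W.add_mem hw (W.smul_mem t (hW i))) ((norm_add_le _ _).trans ?_)
    rw [mem_sphere_zero_iff_norm] at ht
    rw [norm_smul, ht, List.length_cons]
    push_cast
    have := mul_le_mul_of_nonneg_left (hb i) hρ.le
    linarith

/-- If all derivatives in the direction `v` vanish at `z` then the function vanishes on the line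
near `z`.  The function `φ t = F (z + t • v)` is analytic at `0`; show by induction on `k`
(generalising `f`, `F`) that `iteratedDeriv k φ 0` is the value at `z` of the `k`-th iterate; then
use the power series of `φ` (`AnalyticAt.hasFPowerSeriesAt`,
`HasFPowerSeriesAt.eventually_eq_zero`-type lemmas or `analyticOrderAt`). -/
theorem line_zero {O : Set E} (hO : IsOpen O) (v : E) (z : O) (f : An O) {F : E → ℂ}
    (hF : ∀ w : O, f.1 w = F w) (h : ∀ k : ℕ, (dA hO v)^[k] f ∈ ma z) :
    ∀ᶠ t in 𝓝 (0 : ℂ), F (z + t • v) = 0 := by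
  have hc : Continuous fun t : ℂ => (z : E) + t • v := by fun_prop
  have hev : ∀ᶠ t in 𝓝 (0 : ℂ), (z : E) + t • v ∈ O :=
    hc.continuousAt.eventually_mem (hO.mem_nhds (by simpa only [zero_smul, add_zero] using z.2))
  have han : ∀ (f : An O) (F : E → ℂ), (∀ w : O, f.1 w = F w) → ∀ w ∈ O, AnalyticAt ℂ F w := by
    intro f F hF w hw
    obtain ⟨G, hG, hg⟩ := f.2
    refine (hG w hw).congr ?_
    filter_upwards [hO.mem_nhds hw] with u hu
    exact (hg ⟨u, hu⟩).symm.trans (hF ⟨u, hu⟩)
  have key : ∀ (k : ℕ) (f : An O) (F : E → ℂ), (∀ w : O, f.1 w = F w) →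
      iteratedDeriv k (fun t : ℂ => F (z + t • v)) 0 = ((dA hO v)^[k] f).1 z := by
    intro k
    induction k with
    | zero => intro f F hF; simp [hF]
    | succ k ih =>
      intro f F hF
      rw [iteratedDeriv_succ', Function.iterate_succ_apply,
        ← ih (dA hO v f) (fun w => fderiv ℂ F w v) (dA_apply hO v f hF)]
      refine Filter.EventuallyEq.iteratedDeriv_eq k ?_
      filter_upwards [hev] with t ht
      exact (jet_line (han f F hF _ ht).differentiableAt).deriv
  have h1 : AnalyticAt ℂ (fun t : ℂ => F (z + t • v)) 0 :=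
    AnalyticAt.comp (g := F) (f := fun t : ℂ => (z : E) + t • v)
      (han f F hF _ (by simpa only [zero_smul, add_zero] using z.2)) (by fun_prop)
  rw [← analyticOrderAt_eq_top, ENat.eq_top_iff_forall_ge]
  intro m
  rw [natCast_le_analyticOrderAt_iff_iteratedDeriv_eq_zero h1]
  intro k _
  rw [key k f F hF]
  exact h k

end GPC73

end

end

-- part MP_57341d_ag.H73.Poly
section

/-! Holomorphic functions of polynomial growth; polynomial relations and submersions. -/

open MvPolynomial Filter Topology Module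

namespace GPC73

/-- Cauchy estimates kill the derivatives of order `> K` at `0`
(`Complex.norm_iteratedDeriv_le_of_forall_mem_sphere_norm_le`-type lemma, Taylor series).  A proof
of the same fact is `liou_one` in `/team-store/h65_Liou.lean`. -/
theorem poly_one {f : ℂ → ℂ} (hf : Differentiable ℂ f) (C : ℝ) (K : ℕ)
    (h : ∀ t, ‖f t‖ ≤ C * (1 + ‖t‖) ^ K) :
    ∃ p : Polynomial ℂ, p.natDegree ≤ K ∧ ∀ t, f t = p.eval t := by
  have hC : 0 ≤ C := by
    have h1 := (norm_nonneg _).trans (h 0)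
    simpa using h1
  have h0 : ∀ n, K < n → iteratedDeriv n f 0 = 0 := by
    intro n hn
    have h1 : ∀ R : ℝ, 1 ≤ R → ‖iteratedDeriv n f 0‖ ≤ n.factorial * (C * 2 ^ K) * R⁻¹ := by
      intro R hR
      have hR0 : 0 < R := by linarith
      have h2 := Complex.norm_iteratedDeriv_le_of_forall_mem_sphere_norm_le (c := 0)
        (C := C * (2 * R) ^ K) n hR0 hf.diffContOnCl fun z hz => by
          have h3 := h z
          rw [mem_sphere_zero_iff_norm] at hz
          rw [hz] at h3
          exact h3.trans (mul_le_mul_of_nonneg_left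
            (pow_le_pow_left₀ (by positivity) (by linarith) K) hC)
      refine h2.trans ?_
      have h5 : R ^ K * R ≤ R ^ n := by
        rw [← pow_succ]; exact pow_le_pow_right₀ hR hn
      rw [div_le_iff₀ (by positivity), mul_pow]
      have h6 : R ^ K ≤ R⁻¹ * R ^ n := by
        rw [← div_eq_inv_mul, le_div_iff₀ hR0]; exact h5
      calc (n.factorial : ℝ) * (C * (2 ^ K * R ^ K)) = n.factorial * (C * 2 ^ K) * R ^ K := by ring
        _ ≤ n.factorial * (C * 2 ^ K) * (R⁻¹ * R ^ n) :=
          mul_le_mul_of_nonneg_left h6 (by positivity)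
        _ = _ := by ring
    have h7 : Tendsto (fun R : ℝ => n.factorial * (C * 2 ^ K) * R⁻¹) atTop
        (𝓝 (n.factorial * (C * 2 ^ K) * 0)) := tendsto_inv_atTop_zero.const_mul _
    rw [mul_zero] at h7
    exact norm_le_zero_iff.1 (ge_of_tendsto h7 ((eventually_ge_atTop 1).mono h1))
  refine ⟨∑ n ∈ Finset.range (K + 1),
    Polynomial.monomial n ((n.factorial : ℂ)⁻¹ * iteratedDeriv n f 0), ?_, fun z => ?_⟩
  · refine Polynomial.natDegree_sum_le_of_forall_le _ _ fun n hn => ?_
    exact (Polynomial.natDegree_monomial_le _).trans (Nat.lt_succ_iff.1 (Finset.mem_range.1 hn))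
  · rw [← Complex.taylorSeries_eq_of_entire' 0 z hf, tsum_eq_sum (s := Finset.range (K + 1))]
    · simp only [Polynomial.eval_finsetSum, Polynomial.eval_monomial, sub_zero]
    · intro n hn
      rw [h0 n (by simpa using hn), mul_zero, zero_mul]

theorem zero_of_nat {f : ℂ → ℂ} (hf : Differentiable ℂ f) (C : ℝ) (K : ℕ)
    (h : ∀ t, ‖f t‖ ≤ C * (1 + ‖t‖) ^ K) (h0 : ∀ k : ℕ, f k = 0) (t : ℂ) : f t = 0 := by
  obtain ⟨p, -, hp⟩ := poly_one hf C K h
  have h1 : p = 0 := by
    refine Polynomial.eq_zero_of_infinite_isRoot p ?_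
    refine (Set.infinite_range_of_injective (Nat.cast_injective (R := ℂ))).mono ?_
    rintro _ ⟨k, rfl⟩
    exact (hp k).symm.trans (h0 k)
  rw [hp, h1, Polynomial.eval_zero]

theorem poly_lagrange {g : ℂ → ℂ} (hg : Differentiable ℂ g) (C : ℝ) (k : ℕ)
    (hB : ∀ t, ‖g t‖ ≤ C * (1 + ‖t‖) ^ k) (z : ℂ) :
    g z = ∑ a ∈ Finset.range (k + 1),
      g a * (Lagrange.basis (Finset.range (k + 1)) (fun a : ℕ => (a : ℂ)) a).eval z := by
  obtain ⟨p, hp, h⟩ := poly_one hg C k hB
  have h1 := Lagrange.eq_interpolate (f := p) (s := Finset.range (k + 1))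
    (v := fun a : ℕ => (a : ℂ)) Nat.cast_injective.injOn (by
      rw [Finset.card_range]
      exact Polynomial.degree_le_natDegree.trans_lt (by exact_mod_cast Nat.lt_succ_of_le hp))
  simp only [h]
  conv_lhs => rw [h1]
  simp only [Lagrange.interpolate_apply, Polynomial.eval_finsetSum, Polynomial.eval_mul,
    Polynomial.eval_C]

variable {ι : Type} [Fintype ι] [DecidableEq ι]

omit [Fintype ι] in
theorem poly_degreeOf (i j : ι) (l : Polynomial ℂ) :
    degreeOf j (Polynomial.aeval (X i : MvPolynomial ι ℂ) l) ≤ if j = i then l.natDegree else 0 := by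
  rw [Polynomial.aeval_eq_sum_range]
  refine (degreeOf_sum_le _ _ _).trans (Finset.sup_le fun n hn => ?_)
  rw [smul_eq_C_mul]
  refine (degreeOf_C_mul_le _ _ _).trans ?_
  split_ifs with h
  · rw [h, degreeOf_X_self_pow]
    exact Nat.lt_succ_iff.1 (Finset.mem_range.1 hn)
  · rw [degreeOf_X_pow_of_ne _ h]

omit [Fintype ι] in
theorem poly_upd (q : ι → ℂ) (i : ι) : Differentiable ℂ fun t : ℂ => Function.update q i t := by
  refine differentiable_pi.2 fun j => ?_
  by_cases hj : j = i
  · simp only [hj, Function.update_self]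
    exact differentiable_id
  · simp only [Function.update_of_ne hj]
    exact differentiable_const _

theorem poly_norm_upd (q : ι → ℂ) (i : ι) (t : ℂ) :
    1 + ‖Function.update q i t‖ ≤ (1 + ‖q‖) * (1 + ‖t‖) := by
  have h1 : ‖Function.update q i t‖ ≤ ‖q‖ + ‖t‖ := by
    refine (pi_norm_le_iff_of_nonneg (by positivity)).2 fun j => ?_
    by_cases hj : j = i
    · rw [hj, Function.update_self]
      exact le_add_of_nonneg_left (norm_nonneg _)
    · rw [Function.update_of_ne hj]
      exact (norm_le_pi_norm q j).trans (le_add_of_nonneg_right (norm_nonneg _))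
  nlinarith [mul_nonneg (norm_nonneg q) (norm_nonneg t)]

theorem poly_ind (K : ℕ) (S : Finset ι) : ∀ f : (ι → ℂ) → ℂ,
    (∀ i q, Differentiable ℂ fun t => f (Function.update q i t)) →
    (∃ C : ℝ, ∀ q, ‖f q‖ ≤ C * (1 + ‖q‖) ^ K) → (∀ q q', (∀ i ∈ S, q i = q' i) → f q = f q') →
    ∃ p : MvPolynomial ι ℂ, (∀ j, degreeOf j p ≤ if j ∈ S then K else 0) ∧
      ∀ q, f q = eval q p := by
  induction S using Finset.induction_on with
  | empty =>
    intro f _ _ h
    exact ⟨C (f 0), fun j => by simp [degreeOf_C], fun q => by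
      rw [eval_C]; exact h _ _ fun i hi => absurd hi (Finset.notMem_empty i)⟩
  | insert i S hi ih =>
    rintro f hf ⟨B, hB⟩ h
    have hB0 : 0 ≤ B := by
      have h1 := (norm_nonneg _).trans (hB 0)
      simpa using h1
    have hu : ∀ (q : ι → ℂ) (t : ℂ),
        ‖f (Function.update q i t)‖ ≤ B * ((1 + ‖q‖) ^ K * (1 + ‖t‖) ^ K) := fun q t => by
      rw [← mul_pow]
      exact (hB _).trans (mul_le_mul_of_nonneg_left
        (pow_le_pow_left₀ (by positivity) (poly_norm_upd q i t) K) hB0)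
    have h1 : ∀ a : ℕ, ∃ p : MvPolynomial ι ℂ, (∀ j, degreeOf j p ≤ if j ∈ S then K else 0) ∧
        ∀ q, f (Function.update q i a) = eval q p := by
      intro a
      refine ih (fun q => f (Function.update q i a)) (fun j q => ?_)
        ⟨B * (1 + ‖(a : ℂ)‖) ^ K, fun q => (hu q a).trans_eq (by ring)⟩
        fun q q' hq => h _ _ fun j hj => ?_
      · by_cases hj : j = i
        · simp only [hj, Function.update_idem]
          exact differentiable_const _
        · simp only [Function.update_comm hj]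
          exact hf j _
      · by_cases hji : j = i
        · rw [hji, Function.update_self, Function.update_self]
        · rw [Function.update_of_ne hji, Function.update_of_ne hji]
          exact hq j ((Finset.mem_insert.1 hj).resolve_left hji)
    choose p hp hpe using h1
    refine ⟨∑ a ∈ Finset.range (K + 1), p a * Polynomial.aeval (X i : MvPolynomial ι ℂ)
      (Lagrange.basis (Finset.range (K + 1)) (fun a : ℕ => (a : ℂ)) a), fun j => ?_, fun q => ?_⟩
    · refine (degreeOf_sum_le _ _ _).trans (Finset.sup_le fun a ha => ?_)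
      refine (degreeOf_mul_le _ _ _).trans ((add_le_add (hp a j) (poly_degreeOf i j _)).trans ?_)
      rw [Lagrange.natDegree_basis Nat.cast_injective.injOn ha, Finset.card_range]
      by_cases hji : j = i
      · simp [hji, hi]
      · simp [hji]
    · have h7 := poly_lagrange (hf i q) (B * (1 + ‖q‖) ^ K) K
        (fun z => (hu q z).trans_eq (by ring)) (q i)
      rw [Function.update_eq_self] at h7
      rw [h7, map_sum]
      refine Finset.sum_congr rfl fun a _ => ?_
      rw [map_mul, ← hpe, Polynomial.aeval_eq_sum_range, Polynomial.eval_eq_sum_range]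
      simp only [map_sum, smul_eval, map_pow, eval_X]

omit [DecidableEq ι] in
theorem poly_growth (p : MvPolynomial ι ℂ) :
    ∃ B : ℝ, ∀ q, ‖eval q p‖ ≤ B * (1 + ‖q‖) ^ p.totalDegree := by
  refine ⟨∑ d ∈ p.support, ‖p.coeff d‖, fun q => ?_⟩
  rw [eval_eq', Finset.sum_mul]
  refine (norm_sum_le _ _).trans (Finset.sum_le_sum fun d hd => ?_)
  rw [norm_mul, norm_prod]
  refine mul_le_mul_of_nonneg_left ?_ (norm_nonneg _)
  have h1 : ∏ i, ‖q i ^ d i‖ ≤ ∏ i, (1 + ‖q‖) ^ d i :=
    Finset.prod_le_prod (fun i _ => norm_nonneg _) fun i _ => by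
      rw [norm_pow]
      exact pow_le_pow_left₀ (norm_nonneg _)
        ((norm_le_pi_norm q i).trans (le_add_of_nonneg_left zero_le_one)) _
  rw [Finset.prod_pow_eq_pow_sum] at h1
  refine h1.trans (pow_le_pow_right₀ (le_add_of_nonneg_right (norm_nonneg _)) ?_)
  have h2 := le_totalDegree hd
  rwa [Finsupp.sum_fintype _ _ fun _ => rfl] at h2

/-- Separately entire functions of polynomial growth are polynomials.  Induction on the set of
variables on which `f` depends, with Lagrange interpolation at `0, …, K` in one variable (compare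
`liou_lagrange`, `liou_ind` in `/team-store/h65_Liou.lean`); get `degreeOf i p ≤ K` first. -/
theorem sep_poly (f : (ι → ℂ) → ℂ)
    (hf : ∀ i q, Differentiable ℂ fun t => f (Function.update q i t)) (C : ℝ) (K : ℕ)
    (h : ∀ q, ‖f q‖ ≤ C * (1 + ‖q‖) ^ K) :
    ∃ p : MvPolynomial ι ℂ, p.totalDegree ≤ Fintype.card ι * K ∧ ∀ q, f q = eval q p := by
  obtain ⟨p, h1, h2⟩ := poly_ind K Finset.univ f hf ⟨C, h⟩ fun q q' h => by
    rw [funext fun i => h i (Finset.mem_univ i)]
  refine ⟨p, ?_, h2⟩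
  refine Finset.sup_le fun d hd => ?_
  rw [Finsupp.sum_fintype _ _ fun _ => rfl]
  refine (Finset.sum_le_card_nsmul _ _ K fun i _ => ?_).trans_eq (by simp)
  have h3 := h1 i
  rw [if_pos (Finset.mem_univ i)] at h3
  exact (le_degreeOf_of_mem_support i hd).trans h3

/-- Apply `sep_poly` to `y ↦ Δ y * c y`.  On a coordinate line either `Δ` vanishes identically, or
its zeros are isolated and the product is continuous there (it tends to `0`), so the singularities
are removable (`Complex.analyticAt_of_differentiable_on_punctured_nhds_of_continuousAt`). -/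
theorem poly_across (Δ : MvPolynomial ι ℂ) (c : (ι → ℂ) → ℂ)
    (hc : ∀ y, eval y Δ ≠ 0 → DifferentiableAt ℂ c y) (C : ℝ) (K : ℕ)
    (h : ∀ y, eval y Δ ≠ 0 → ‖c y‖ ≤ C * (1 + ‖y‖) ^ K) :
    ∃ p : MvPolynomial ι ℂ, p.totalDegree ≤ Fintype.card ι * (K + Δ.totalDegree) ∧
      ∀ y, eval y Δ * c y = eval y p := by
  obtain ⟨B, hB⟩ := poly_growth Δ
  have hb : ∀ y, ‖eval y Δ * c y‖ ≤ ‖eval y Δ‖ * (|C| * (1 + ‖y‖) ^ K) := by
    intro y
    by_cases hy : eval y Δ = 0
    · simp [hy]
    · rw [norm_mul]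
      exact mul_le_mul_of_nonneg_left ((h y hy).trans
        (mul_le_mul_of_nonneg_right (le_abs_self C) (by positivity))) (norm_nonneg _)
  have hΔ : Differentiable ℂ fun y : ι → ℂ => eval y Δ :=
    fun q => (AnalyticOnNhd.eval_mvPolynomial Δ q (Set.mem_univ q)).differentiableAt
  refine sep_poly (fun y => eval y Δ * c y) (fun i q => ?_) (B * |C|) (K + Δ.totalDegree)
    fun y => ?_
  · have hu := poly_upd q i
    have hg : Differentiable ℂ fun t : ℂ => eval (Function.update q i t) Δ := hΔ.comp hu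
    have hd : ∀ t, eval (Function.update q i t) Δ ≠ 0 → DifferentiableAt ℂ
        (fun t : ℂ => eval (Function.update q i t) Δ * c (Function.update q i t)) t :=
      fun t ht => (hg t).mul ((hc _ ht).comp t (hu t))
    intro t
    by_cases ht : eval (Function.update q i t) Δ = 0
    · rcases (hg.analyticAt t).eventually_eq_zero_or_eventually_ne_zero with h0 | h0
      · refine (differentiableAt_const (0 : ℂ)).congr_of_eventuallyEq (h0.mono fun s hs => ?_)
        simp only [hs, zero_mul]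
      · refine (Complex.analyticAt_of_differentiable_on_punctured_nhds_of_continuousAt
          (h0.mono hd) ?_).differentiableAt
        rw [ContinuousAt, ht, zero_mul]
        refine squeeze_zero_norm (fun s => hb _) ?_
        have h1 : Continuous fun s : ℂ => ‖eval (Function.update q i s) Δ‖ *
            (|C| * (1 + ‖Function.update q i s‖) ^ K) :=
          hg.continuous.norm.mul (continuous_const.mul
            ((continuous_const.add hu.continuous.norm).pow K))
        have h2 := h1.tendsto t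
        rwa [ht, norm_zero, zero_mul] at h2
    · exact hd t ht
  · refine (hb y).trans ((mul_le_mul_of_nonneg_right (hB y) (by positivity)).trans_eq ?_)
    ring

variable {E : Type} [NormedAddCommGroup E] [NormedSpace ℂ E] [FiniteDimensional ℂ E]

omit [DecidableEq ι] in
/-- `HasStrictFDerivAt.map_nhds_eq_of_surj`; a polynomial vanishing near a point is zero (identity
theorem and `MvPolynomial.funext`). -/
theorem open_poly {F : E → ι → ℂ} {z : E} (hF : AnalyticAt ℂ F z)
    (hs : Function.Surjective (fderiv ℂ F z)) (Q : MvPolynomial ι ℂ)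
    (h : ∀ᶠ w in 𝓝 z, eval (F w) Q = 0) : Q = 0 := by
  have h1 := (hF.hasStrictFDerivAt.map_nhds_eq_of_surj (LinearMap.range_eq_top.2 hs))
  have h2 : ∀ᶠ y in 𝓝 (F z), eval y Q = 0 := by
    rw [← h1]; exact h
  have h3 := (AnalyticOnNhd.eval_mvPolynomial Q).eqOn_zero_of_preconnected_of_eventuallyEq_zero
    isPreconnected_univ (Set.mem_univ (F z)) h2
  exact MvPolynomial.funext fun y => (h3 (Set.mem_univ y)).trans (map_zero _).symm

/-- The restrictions of the differentials to `U` span the dual of `U`; choose a basis among them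
(`exists_linearIndependent`), then `open_poly` for `u ↦ (ξ (y a) (x + u))_a` on `U`. -/
theorem indep_of_imm {σ : Type} (ξ : σ → E → ℂ) (x : E) (h : ∀ i, AnalyticAt ℂ (ξ i) x)
    (U : Submodule ℂ E) (hU : ∀ v ∈ U, (∀ i, fderiv ℂ (ξ i) x v = 0) → v = 0) :
    ∃ y : Fin (finrank ℂ U) → σ, ∀ Q : MvPolynomial (Fin (finrank ℂ U)) ℂ,
      (∀ᶠ u : U in 𝓝 0, eval (fun a => ξ (y a) (x + u)) Q = 0) → Q = 0 := by
  let L : σ → Dual ℂ U := fun i => (fderiv ℂ (ξ i) x).toLinearMap.comp U.subtype
  have hL : Submodule.span ℂ (Set.range L) = ⊤ := by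
    refine Submodule.span_eq_top_of_ne_zero fun v hv => ?_
    by_contra hn
    push Not at hn
    exact hv (Subtype.ext (hU v v.2 fun i => hn _ ⟨i, rfl⟩))
  obtain ⟨κ, a, -, ha, hl⟩ := exists_linearIndependent' ℂ L
  let b : Basis κ ℂ (Dual ℂ U) := Basis.mk hl (ha.trans hL).ge
  have : Finite κ := Module.Finite.finite_basis b
  have := Fintype.ofFinite κ
  have hκ : Fintype.card κ = finrank ℂ U := by
    rw [← finrank_eq_card_basis b, Subspace.dual_finrank_eq]
  let e : Fin (finrank ℂ U) ≃ κ := (Fintype.equivFinOfCardEq hκ).symm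
  refine ⟨fun k => a (e k), fun Q hQ => ?_⟩
  have hA : ∀ i, AnalyticAt ℂ (fun u : U => ξ i (x + u)) 0 := fun i =>
    AnalyticAt.comp_of_eq (g := ξ i) (f := fun u : U => x + u) (h i)
      (analyticAt_const.add (U.subtypeL.analyticAt 0)) (by simp)
  have hD : ∀ i, HasFDerivAt (fun u : U => ξ i (x + u))
      ((fderiv ℂ (ξ i) x).comp U.subtypeL) 0 := fun i => by
    have h1 : HasFDerivAt (fun u : U => x + (u : E)) U.subtypeL 0 :=
      U.subtypeL.hasFDerivAt.const_add x
    have h2 : HasFDerivAt (ξ i) (fderiv ℂ (ξ i) x) (x + ((0 : U) : E)) := by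
      rw [Submodule.coe_zero, add_zero]
      exact (h i).differentiableAt.hasFDerivAt
    exact HasFDerivAt.comp (f := fun u : U => x + (u : E)) 0 h2 h1
  refine open_poly (F := fun (u : U) k => ξ (a (e k)) (x + u)) (z := 0)
    (AnalyticAt.pi fun k => hA _) ?_ Q hQ
  rw [(hasFDerivAt_pi.2 fun k => hD (a (e k))).fderiv]
  have h3 := (LinearMap.injective_iff_surjective_of_finrank_eq_finrank
    (f := (ContinuousLinearMap.pi fun k =>
      (fderiv ℂ (ξ (a (e k))) x).comp U.subtypeL).toLinearMap) (by simp)).1 ?_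
  · exact h3
  · rw [injective_iff_map_eq_zero]
    intro v hv
    refine (Module.forall_dual_apply_eq_zero_iff ℂ v).1 fun φ => ?_
    have h4 : ∀ k, b k v = 0 := fun k => by
      have h5 := congrFun hv (e.symm k)
      rw [Basis.mk_apply]
      simpa [L] using h5
    rw [← b.sum_repr φ, LinearMap.sum_apply]
    exact Finset.sum_eq_zero fun k _ => by rw [LinearMap.smul_apply, h4, smul_zero]

end GPC73

end

-- part MP_57341d_ag.H73.Gaga
section

section

/-! An irreducible affine variety as a finite cover of affine space. -/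

open MvPolynomial Pool.Agent.MP_d171e3_nt

namespace GPC73

variable {σ : Type}

/-- The polynomial `q(y, α)`. -/
noncomputable def pv {r : ℕ} (y : Fin r → MvPolynomial σ ℂ) (α : MvPolynomial σ ℂ)
    (q : Polynomial (MvPolynomial (Fin r) ℂ)) : MvPolynomial σ ℂ :=
  q.eval₂ (aeval y : MvPolynomial (Fin r) ℂ →ₐ[ℂ] MvPolynomial σ ℂ).toRingHom α

theorem eval_pv {r : ℕ} (y : Fin r → MvPolynomial σ ℂ) (α : MvPolynomial σ ℂ)
    (q : Polynomial (MvPolynomial (Fin r) ℂ)) (χ : σ → ℂ) :
    eval χ (pv y α q) = (q.map (eval fun a => eval χ (y a))).eval (eval χ α) := by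
  unfold pv
  rw [Polynomial.hom_eval₂, Polynomial.eval_map]
  congr 1
  ext <;> simp

/-- Noether normalisation with a primitive element. -/
structure Cov [Fintype σ] (I : Ideal (MvPolynomial σ ℂ)) (r : ℕ) where
  y : Fin r → MvPolynomial σ ℂ
  α : MvPolynomial σ ℂ
  M : Polynomial (MvPolynomial (Fin r) ℂ)
  Δ : MvPolynomial (Fin r) ℂ
  A : σ → Polynomial (MvPolynomial (Fin r) ℂ)
  monic : M.Monic
  pos : 0 < M.natDegree
  indep : ∀ Q : MvPolynomial (Fin r) ℂ, aeval y Q ∈ I → Q = 0
  Δ_ne : Δ ≠ 0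
  root : pv y α M ∈ I
  bez : ∃ a b : Polynomial (MvPolynomial (Fin r) ℂ),
    Polynomial.C Δ = a * M + b * Polynomial.derivative M
  gen : ∀ i, aeval y Δ * X i - pv y α (A i) ∈ I
  lift : ∀ (b : Fin r → ℂ) (t : ℂ), (M.map (eval b)).IsRoot t →
    ∃ χ : σ → ℂ, (∀ f ∈ I, eval χ f = 0) ∧ (∀ a, eval χ (y a) = b a) ∧ eval χ α = t
  grow : ∃ (C : ℝ) (k : ℕ), ∀ χ : σ → ℂ, (∀ f ∈ I, eval χ f = 0) →
    ‖χ‖ ≤ C * (1 + ‖fun a => eval χ (y a)‖) ^ k

section Alg

open nonZeroDivisors

variable {B R : Type} [CommRing B] [IsDomain B] [IsIntegrallyClosed B] [CommRing R] [IsDomain R]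
  [Algebra B R] [FaithfulSMul B R] [Module.Finite B R]

/-- A primitive element of a finite extension of domains, with denominators cleared. -/
theorem cov_prim [CharZero B] : ∃ a : R,
    (∃ d : B, d ≠ 0 ∧ ∃ p q : Polynomial B,
      Polynomial.C d = p * minpoly B a + q * Polynomial.derivative (minpoly B a)) ∧
    ∀ x : R, ∃ d : B, d ≠ 0 ∧ ∃ A : Polynomial B, algebraMap B R d * x = Polynomial.aeval a A := by
  let K := FractionRing B
  let L := FractionRing R
  let _ : Algebra K L := FractionRing.liftAlgebra B L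
  have : FiniteDimensional K L := .of_isLocalization B R B⁰
  have : CharZero K := IsFractionRing.charZero_of_isFractionRing B
  obtain ⟨β, hβ⟩ := Field.exists_primitive_element K L
  obtain ⟨⟨a, _, d, hd, rfl⟩, hs⟩ := IsLocalization.surj (Algebra.algebraMapSubmonoid R B⁰) β
  have hd0 : algebraMap B K d ≠ 0 :=
    (map_ne_zero_iff _ (IsFractionRing.injective B K)).2 (nonZeroDivisors.ne_zero hd)
  have hβa : β = (algebraMap B K d)⁻¹ • algebraMap R L a := by
    rw [← hs, ← IsScalarTower.algebraMap_apply, IsScalarTower.algebraMap_apply B K L,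
      mul_comm, ← Algebra.smul_def, smul_smul, inv_mul_cancel₀ hd0, one_smul]
  have htop : ∀ z : L, z ∈ Algebra.adjoin K {algebraMap R L a} := fun z => by
    have h1 : z ∈ (IntermediateField.adjoin K {β}).toSubalgebra := by rw [hβ]; trivial
    rw [IntermediateField.adjoin_simple_toSubalgebra_of_isAlgebraic
      (Algebra.IsAlgebraic.isAlgebraic β)] at h1
    refine Algebra.adjoin_le ?_ h1
    rintro _ rfl
    rw [hβa]
    exact Subalgebra.smul_mem _ (Algebra.self_mem_adjoin_singleton K _) _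
  have hint : IsIntegral B a := Algebra.IsIntegral.isIntegral a
  refine ⟨a, ?_, fun x => ?_⟩
  · obtain ⟨u, v, huv⟩ : (minpoly K (algebraMap R L a)).Separable :=
      Algebra.IsSeparable.isSeparable K _
    rw [minpoly.isIntegrallyClosed_eq_field_fractions K L hint] at huv
    obtain ⟨b₁, hb₁, e₁⟩ := IsLocalization.integerNormalization_spec B⁰ u
    obtain ⟨b₂, hb₂, e₂⟩ := IsLocalization.integerNormalization_spec B⁰ v
    refine ⟨b₁ * b₂, mul_ne_zero (nonZeroDivisors.ne_zero hb₁) (nonZeroDivisors.ne_zero hb₂),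
      Polynomial.C b₂ * IsLocalization.integerNormalization B⁰ u,
      Polynomial.C b₁ * IsLocalization.integerNormalization B⁰ v, ?_⟩
    apply Polynomial.map_injective _ (IsFractionRing.injective B K)
    simp only [Polynomial.map_add, Polynomial.map_mul, Polynomial.map_C, e₁, e₂, map_mul,
      ← Polynomial.derivative_map, Algebra.smul_def, Polynomial.algebraMap_apply]
    linear_combination (-(Polynomial.C (algebraMap B K b₁) * Polynomial.C (algebraMap B K b₂))) * huv
  · have h1 := htop (algebraMap R L x)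
    rw [Algebra.adjoin_singleton_eq_range_aeval] at h1
    obtain ⟨p, hp⟩ := h1
    obtain ⟨b, hb, e⟩ := IsLocalization.integerNormalization_spec B⁰ p
    refine ⟨b, nonZeroDivisors.ne_zero hb, IsLocalization.integerNormalization B⁰ p, ?_⟩
    apply IsFractionRing.injective R L
    rw [← Polynomial.aeval_algebraMap_apply, ← Polynomial.aeval_map_algebraMap K, e, map_mul,
      ← IsScalarTower.algebraMap_apply, ← hp, Algebra.smul_def, map_mul,
      Polynomial.algebraMap_apply, Polynomial.aeval_C, ← IsScalarTower.algebraMap_apply]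
    rfl

/-- Lying over for a point of the hypersurface defined by the minimal polynomial. -/
theorem cov_lie {F : Type} [Field F] (a : R) (φ : B →+* F) (hφ : Function.Surjective φ) (t : F)
    (h : (minpoly B a).eval₂ φ t = 0) :
    ∃ Q : Ideal R, Q.IsMaximal ∧ ∀ q : Polynomial B, q.eval₂ φ t = 0 → Polynomial.aeval a q ∈ Q := by
  let _ : Algebra (Polynomial B) R := (Polynomial.aeval a : Polynomial B →ₐ[B] R).toRingHom.toAlgebra
  have e : ∀ q : Polynomial B, algebraMap (Polynomial B) R q = Polynomial.aeval a q := fun _ => rfl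
  have : IsScalarTower B (Polynomial B) R :=
    IsScalarTower.of_algebraMap_eq fun x => by rw [e]; simp
  have : Algebra.IsIntegral (Polynomial B) R := Algebra.IsIntegral.tower_top B
  have hm : (RingHom.ker (Polynomial.eval₂RingHom φ t)).IsMaximal :=
    RingHom.ker_isMaximal_of_surjective _ fun z => by
      obtain ⟨w, rfl⟩ := hφ z
      exact ⟨Polynomial.C w, by simp⟩
  obtain ⟨Q, hQ, hc⟩ := Ideal.exists_ideal_over_maximal_of_isIntegral (S := R)
    (RingHom.ker (Polynomial.eval₂RingHom φ t)) fun q hq => by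
      rw [RingHom.mem_ker, e] at hq
      obtain ⟨w, rfl⟩ := minpoly.isIntegrallyClosed_dvd (Algebra.IsIntegral.isIntegral a) hq
      rw [RingHom.mem_ker, map_mul, Polynomial.coe_eval₂RingHom, h, zero_mul]
  refine ⟨Q, hQ, fun q hq => ?_⟩
  rw [← e, ← Ideal.mem_comap, hc]
  exact hq

end Alg

/-- Functions of polynomial growth. -/
def CovPB {E : Type} [SeminormedAddCommGroup E] (f : E → ℝ) : Prop :=
  ∃ (C : ℝ) (k : ℕ), 0 ≤ C ∧ ∀ b, f b ≤ C * (1 + ‖b‖) ^ k

theorem cov_pb_const {E : Type} [SeminormedAddCommGroup E] {c : ℝ} (hc : 0 ≤ c) :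
    CovPB fun _ : E => c := ⟨c, 0, hc, fun _ => by simp⟩

theorem cov_pb_add {E : Type} [SeminormedAddCommGroup E] {f g : E → ℝ} (hf : CovPB f)
    (hg : CovPB g) : CovPB fun b => f b + g b := by
  obtain ⟨C, k, hC, h⟩ := hf
  obtain ⟨C', k', hC', h'⟩ := hg
  refine ⟨C + C', k + k', by positivity, fun b => ?_⟩
  have h1 : 1 ≤ 1 + ‖b‖ := le_add_of_nonneg_right (norm_nonneg _)
  rw [add_mul]
  exact add_le_add
    ((h b).trans (mul_le_mul_of_nonneg_left (pow_le_pow_right₀ h1 (by omega)) hC))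
    ((h' b).trans (mul_le_mul_of_nonneg_left (pow_le_pow_right₀ h1 (by omega)) hC'))

theorem cov_pb_sum {E ι : Type} [SeminormedAddCommGroup E] (s : Finset ι) {f : ι → E → ℝ}
    (hf : ∀ i, CovPB (f i)) : CovPB fun b => ∑ i ∈ s, f i b := by
  classical
  induction s using Finset.induction_on with
  | empty => simpa using cov_pb_const (E := E) le_rfl
  | insert i s hi ih => simpa only [Finset.sum_insert hi] using cov_pb_add (hf i) ih

theorem cov_pb_eval {r : ℕ} (Q : MvPolynomial (Fin r) ℂ) :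
    CovPB fun b : Fin r → ℂ => ‖eval b Q‖ := by
  induction Q using MvPolynomial.induction_on with
  | C c => simpa using cov_pb_const (E := Fin r → ℂ) (norm_nonneg c)
  | add p q hp hq =>
    obtain ⟨C, k, hC, h⟩ := cov_pb_add hp hq
    exact ⟨C, k, hC, fun b => by
      simp only [map_add]; exact (norm_add_le _ _).trans (h b)⟩
  | mul_X p i hp =>
    obtain ⟨C, k, hC, h⟩ := hp
    refine ⟨C, k + 1, hC, fun b => ?_⟩
    simp only [map_mul, eval_X, norm_mul, pow_succ, ← mul_assoc]
    exact mul_le_mul (h b) ((norm_le_pi_norm b i).trans (by linarith)) (norm_nonneg _)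
      (by positivity)

theorem cov_root_le {p : Polynomial ℂ} (hp : p.Monic) {z : ℂ} (hz : p.IsRoot z) {n : ℕ}
    (hn : p.natDegree ≤ n) : ‖z‖ ≤ 1 + ∑ j ∈ Finset.range n, ‖p.coeff j‖ := by
  have h := (hz.norm_lt_cauchyBound hp.ne_zero).le
  rw [Polynomial.cauchyBound, hp.leadingCoeff, nnnorm_one, div_one] at h
  have h2 : (Finset.range p.natDegree).sup (fun j => ‖p.coeff j‖₊) ≤
      ∑ j ∈ Finset.range n, ‖p.coeff j‖₊ :=
    Finset.sup_le fun j hj => Finset.single_le_sum (f := fun j => ‖p.coeff j‖₊)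
      (fun _ _ => zero_le) (Finset.mem_range.2 ((Finset.mem_range.1 hj).trans_le hn))
  have h3 := NNReal.coe_le_coe.2 (h.trans (add_le_add_left h2 1))
  push_cast at h3
  linarith

theorem cov_of_hom [Fintype σ] (I : Ideal (MvPolynomial σ ℂ)) {r : ℕ} {R : Type} [CommRing R]
    [IsDomain R] [Algebra ℂ R] (π : MvPolynomial σ ℂ →ₐ[ℂ] R) (hπ : Function.Surjective π)
    (hI : ∀ f, f ∈ I ↔ π f = 0) (g : MvPolynomial (Fin r) ℂ →ₐ[ℂ] R)
    (ginj : Function.Injective g) (gfin : g.Finite) : Nonempty (Cov I r) := by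
  classical
  algebraize [g.toRingHom]
  have : Module.Finite (MvPolynomial (Fin r) ℂ) R := gfin
  have : FaithfulSMul (MvPolynomial (Fin r) ℂ) R :=
    (faithfulSMul_iff_algebraMap_injective _ _).mpr ginj
  choose y hy using fun i => hπ (g (X i))
  have e1 : ∀ Q, π (aeval y Q) = algebraMap (MvPolynomial (Fin r) ℂ) R Q := fun Q => by
    have : π.comp (aeval y) = g := by
      ext i; simp [hy]
    exact DFunLike.congr_fun this Q
  have e2 : ∀ β q, π (pv y β q) = Polynomial.aeval (π β) q := fun β q => by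
    unfold pv
    rw [← AlgHom.coe_toRingHom, Polynomial.hom_eval₂, Polynomial.aeval_def]
    congr 1
    exact RingHom.ext e1
  obtain ⟨a, ⟨d, hd, p, q, hpq⟩, hx⟩ := cov_prim (B := MvPolynomial (Fin r) ℂ) (R := R)
  obtain ⟨α, rfl⟩ := hπ a
  choose e he A hA using fun i : σ => hx (π (X i))
  have hint : ∀ x : R, IsIntegral (MvPolynomial (Fin r) ℂ) x := Algebra.IsIntegral.isIntegral
  refine ⟨⟨y, α, minpoly _ (π α), d * ∏ i, e i,
    fun i => Polynomial.C (d * ∏ j ∈ Finset.univ.erase i, e j) * A i, minpoly.monic (hint _),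
    minpoly.natDegree_pos (hint _), fun Q hQ => ?_,
    mul_ne_zero hd (Finset.prod_ne_zero_iff.2 fun i _ => he i), ?_,
    ⟨Polynomial.C (∏ i, e i) * p, Polynomial.C (∏ i, e i) * q, ?_⟩, fun i => ?_,
    fun b t ht => ?_, ?_⟩⟩
  · rw [hI, e1] at hQ
    exact (map_eq_zero_iff _ ginj).1 hQ
  · rw [hI, e2, minpoly.aeval]
  · rw [map_mul, hpq]; ring
  · rw [hI, map_sub, map_mul, e1, e2, map_mul (Polynomial.aeval _),
      Polynomial.aeval_C, ← hA i, ← Finset.mul_prod_erase _ _ (Finset.mem_univ i)]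
    simp only [map_mul]
    ring
  · obtain ⟨Q, hQ, hq⟩ := cov_lie (π α) (eval b)
      (fun z => ⟨C z, eval_C z⟩) t (by rwa [← Polynomial.eval_map])
    obtain ⟨χ, hχ⟩ := isMaximal_iff_eq_vanishingIdeal_singleton.1
      (Ideal.comap_isMaximal_of_surjective π hπ (K := Q))
    have key : ∀ f, π f ∈ Q → eval χ f = 0 := fun f hf => by
      rw [← Ideal.mem_comap, hχ, mem_vanishingIdeal_singleton_iff] at hf
      rwa [← coe_aeval_eq_eval]
    have key2 : ∀ w : Polynomial (MvPolynomial (Fin r) ℂ), w.eval₂ (eval b) t = 0 →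
        eval χ (pv y α w) = 0 := fun w hw => key _ (by rw [e2]; exact hq w hw)
    refine ⟨χ, fun f hf => key f ?_, fun i => ?_, ?_⟩
    · rw [(hI f).1 hf]; exact Q.zero_mem
    · have := key2 (Polynomial.C (X i - C (b i))) (by simp)
      simpa [eval_pv, sub_eq_zero] using this
    · have := key2 (Polynomial.X - Polynomial.C (C t)) (by simp)
      simpa [eval_pv, sub_eq_zero] using this
  · choose P hP hP0 using fun i : σ => hint (π (X i))
    obtain ⟨C, k, -, h⟩ := cov_pb_sum (E := Fin r → ℂ) Finset.univ fun i : σ =>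
      cov_pb_add (cov_pb_const zero_le_one)
        (cov_pb_sum (Finset.range (P i).natDegree) fun j => cov_pb_eval ((P i).coeff j))
    refine ⟨C, k, fun χ hχ => le_trans ?_ (h _)⟩
    have hnn : ∀ i : σ, (0 : ℝ) ≤ 1 + ∑ j ∈ Finset.range (P i).natDegree,
        ‖eval (fun a => eval χ (y a)) ((P i).coeff j)‖ := fun i => by positivity
    refine (pi_norm_le_iff_of_nonneg (Finset.sum_nonneg fun i _ => hnn i)).2 fun i => ?_
    refine le_trans ?_ (Finset.single_le_sum (fun i _ => hnn i) (Finset.mem_univ i))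
    have h0 : eval χ (pv y (X i) (P i)) = 0 := hχ _ (by rw [hI, e2]; exact hP0 i)
    rw [eval_pv, eval_X] at h0
    simpa only [Polynomial.coeff_map] using
      cov_root_le ((hP i).map _) h0 Polynomial.natDegree_map_le

theorem cov_trdeg {r : ℕ} {R : Type} [CommRing R] [IsDomain R] [Algebra ℂ R]
    (g : MvPolynomial (Fin r) ℂ →ₐ[ℂ] R) (ginj : Function.Injective g) (gfin : g.Finite) :
    Algebra.trdeg ℂ R = r := by
  algebraize [g.toRingHom]
  have : Module.Finite (MvPolynomial (Fin r) ℂ) R := gfin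
  have : IsScalarTower ℂ (MvPolynomial (Fin r) ℂ) R :=
    IsScalarTower.of_algebraMap_eq fun x => (g.commutes x).symm
  have : FaithfulSMul (MvPolynomial (Fin r) ℂ) R :=
    (faithfulSMul_iff_algebraMap_injective _ _).mpr ginj
  rw [← trdeg_add_eq ℂ (MvPolynomial (Fin r) ℂ), trdeg_eq_zero (R := MvPolynomial (Fin r) ℂ),
    add_zero, MvPolynomial.trdeg_of_isDomain]
  simp

/-- Noether normalisation gives a finite injective map from a polynomial ring in `dm I`
variables. -/
theorem exists_cov [Fintype σ] (I : Ideal (MvPolynomial σ ℂ)) [I.IsPrime] :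
    Nonempty (Cov I (dm I)) := by
  obtain ⟨s, g, ginj, gfin⟩ := exists_finite_inj_algHom_of_fg ℂ (MvPolynomial σ ℂ ⧸ I)
  have hs : dm I = s := by
    unfold dm
    rw [cov_trdeg g ginj gfin, Cardinal.toNat_natCast]
  rw [hs]
  exact cov_of_hom I (Ideal.Quotient.mkₐ ℂ I) (Ideal.Quotient.mkₐ_surjective ℂ I)
    (fun _ => Ideal.Quotient.eq_zero_iff_mem.symm) g ginj gfin

end GPC73

end

section

/-! Uniformised varieties: dimension, unramified points. -/

open MvPolynomial Pool.Agent.MP_d171e3_nt Module Filter Topology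

namespace GPC73

variable {E : Type} [NormedAddCommGroup E] [NormedSpace ℂ E] [FiniteDimensional ℂ E]
  {σ : Type} [Fintype σ]

/-- The map `z ↦ (y a (ξ z))_a` is analytic on `O` and onto `ℂ^r` (`pos`, `lift`, `ns`).  Cover `O`
by countably many balls contained in `O` and use `ContDiffOn.dimH_image_le` (or
`dimH_image_le_of_locally_lipschitzOn`), `Real.dimH_univ_eq_finrank`, `finrank_real_of_complex`. -/
theorem dm_le {O : Set E} (hO : IsOpen O) (ξ : σ → E → ℂ) (h : ∀ i, AnalyticOnNhd ℂ (ξ i) O)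
    (I : Ideal (MvPolynomial σ ℂ)) [I.IsPrime]
    (ns : ∀ χ : σ → ℂ, (∀ f ∈ I, eval χ f = 0) → ∃ z ∈ O, χ = fun i => ξ i z) :
    dm I ≤ finrank ℂ E := by
  obtain ⟨C⟩ := exists_cov I
  have : CompleteSpace E := FiniteDimensional.complete ℂ E
  have : ProperSpace E := FiniteDimensional.proper ℂ E
  have hsub : (Set.univ : Set (Fin (dm I) → ℂ)) ⊆
      (fun w a => eval (fun i => ξ i w) (C.y a)) '' O := by
    intro b _
    have hd : 0 < (C.M.map (eval b)).degree := by
      rw [← Polynomial.natDegree_pos_iff_degree_pos, C.monic.natDegree_map]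
      exact C.pos
    obtain ⟨t, ht⟩ := Complex.exists_root hd
    obtain ⟨χ, h1, h2, -⟩ := C.lift b t ht
    obtain ⟨z, hz, rfl⟩ := ns χ h1
    exact ⟨z, hz, funext h2⟩
  have h1 : dimH ((fun w a => eval (fun i => ξ i w) (C.y a)) '' O) ≤ dimH O := by
    refine dimH_image_le_of_locally_lipschitzOn fun z hz => ?_
    have ha : AnalyticAt ℂ (fun w a => eval (fun i => ξ i w) (C.y a)) z :=
      analyticAt_pi_iff.2 fun a => an_eval ξ h (C.y a) z hz
    obtain ⟨K, t, ht, hK⟩ := (ha.contDiffAt (n := 1)).exists_lipschitzOnWith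
    exact ⟨K, t, mem_nhdsWithin_of_mem_nhds ht, hK⟩
  have h2 := ((dimH_mono hsub).trans h1).trans (dimH_mono (Set.subset_univ O))
  let _ : NormedSpace ℝ E := NormedSpace.complexToReal
  rw [Real.dimH_univ_eq_finrank, Real.dimH_univ_eq_finrank, finrank_real_of_complex,
    finrank_real_of_complex, Module.finrank_fin_fun, Nat.cast_le] at h2
  omega

theorem gaga1_lagrange (Q : Polynomial ℂ) {d : ℕ} (hd : Q.natDegree ≤ d) {z w : ℂ}
    (hz : Q.IsRoot z) (hw : Q.IsRoot w) :
    ∑ l ∈ Finset.range d, (∑ j ∈ Finset.range (d + 1),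
      if l < j then Q.coeff j * z ^ (j - 1 - l) else 0) * w ^ l =
      if z = w then (Polynomial.derivative Q).eval z else 0 := by
  have h1 : ∑ l ∈ Finset.range d, (∑ j ∈ Finset.range (d + 1),
      if l < j then Q.coeff j * z ^ (j - 1 - l) else 0) * w ^ l =
      ∑ j ∈ Finset.range (d + 1), Q.coeff j * ∑ l ∈ Finset.range j, w ^ l * z ^ (j - 1 - l) := by
    simp_rw [Finset.sum_mul]
    rw [Finset.sum_comm]
    refine Finset.sum_congr rfl fun j hj => ?_
    have hj' : j ≤ d := Nat.lt_succ_iff.1 (Finset.mem_range.1 hj)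
    rw [Finset.mul_sum, ← Finset.sum_subset (Finset.range_mono hj')]
    · refine Finset.sum_congr rfl fun l hl => ?_
      rw [if_pos (Finset.mem_range.1 hl)]; ring
    · intro l _ hl
      rw [if_neg (fun h => hl (Finset.mem_range.2 h)), zero_mul]
  rw [h1]
  split_ifs with h
  · subst h
    rw [Polynomial.derivative_eval, Polynomial.sum_over_range' _ (by simp) (d + 1)
      (Nat.lt_succ_of_le hd)]
    refine Finset.sum_congr rfl fun j _ => ?_
    rw [geom_sum₂_self]; ring
  · have hne : w - z ≠ 0 := sub_ne_zero.2 (Ne.symm h)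
    apply mul_right_cancel₀ hne
    rw [zero_mul, Finset.sum_mul]
    simp_rw [mul_assoc, geom_sum₂_mul, mul_sub]
    rw [Finset.sum_sub_distrib, ← Polynomial.eval_eq_sum_range' (Nat.lt_succ_of_le hd),
      ← Polynomial.eval_eq_sum_range' (Nat.lt_succ_of_le hd), hz.eq_zero, hw.eq_zero, sub_zero]

/-- With `c l = ∑ j ∈ (l, d], C (coeff j M) * X ^ (j - l - 1)` one has
`(Z - W) * ∑ l < d, (c l)(Z) * W ^ l = M Z - M W` and `∑ l < d, (c l)(Z) * Z ^ l = M'(Z)`; a proof
is `exists_lagrange` in `/team-store/h65_Alg.lean`. -/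
theorem gaga_lagrange {r : ℕ} (M : Polynomial (MvPolynomial (Fin r) ℂ)) (hM : M.Monic) :
    ∃ c : ℕ → Polynomial (MvPolynomial (Fin r) ℂ), ∀ (y : Fin r → ℂ) (z w : ℂ),
      (M.map (eval y)).IsRoot z → (M.map (eval y)).IsRoot w →
      ∑ l ∈ Finset.range M.natDegree, ((c l).map (eval y)).eval z * w ^ l =
        if z = w then (Polynomial.derivative (M.map (eval y))).eval z else 0 := by
  refine ⟨fun l => ∑ j ∈ Finset.range (M.natDegree + 1),
    if l < j then Polynomial.monomial (j - 1 - l) (M.coeff j) else 0, fun y z w hz hw => ?_⟩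
  rw [← gaga1_lagrange (M.map (eval y)) (d := M.natDegree) Polynomial.natDegree_map_le hz hw]
  refine Finset.sum_congr rfl fun l _ => ?_
  congr 1
  rw [Polynomial.map_sum, Polynomial.eval_finsetSum]
  refine Finset.sum_congr rfl fun j _ => ?_
  split_ifs
  · rw [Polynomial.map_monomial, Polynomial.eval_monomial, Polynomial.coeff_map]
  · simp

theorem gaga1_aeval {τ ι : Type} (χ : τ → ℂ) (y : ι → MvPolynomial τ ℂ) (c : MvPolynomial ι ℂ) :
    eval χ (aeval y c) = eval (fun a => eval χ (y a)) c := by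
  induction c using MvPolynomial.induction_on with
  | C c => simp
  | add f g hf hg => simp only [map_add, hf, hg]
  | mul_X f i hf => simp only [map_mul, hf, aeval_X, eval_X]

theorem gaga1_mv {ι : Type} (Y : ℂ → ι → ℂ) (hY : ∀ a, HasDerivAt (fun t => Y t a) 0 0)
    (c : MvPolynomial ι ℂ) : HasDerivAt (fun t => eval (Y t) c) 0 0 := by
  induction c using MvPolynomial.induction_on with
  | C c => simpa using hasDerivAt_const (0 : ℂ) c
  | add f g hf hg => simpa using hf.fun_add hg
  | mul_X f i hf => simpa using hf.fun_mul (hY i)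

theorem gaga1_poly {ι : Type} (Y : ℂ → ι → ℂ) (hY : ∀ a, HasDerivAt (fun t => Y t a) 0 0)
    {α : ℂ → ℂ} {α' : ℂ} (hα : HasDerivAt α α' 0) (q : Polynomial (MvPolynomial ι ℂ)) :
    HasDerivAt (fun t => (q.map (eval (Y t))).eval (α t))
      ((Polynomial.derivative (q.map (eval (Y 0)))).eval (α 0) * α') 0 := by
  induction q using Polynomial.induction_on' with
  | add p q hp hq =>
    simp only [Polynomial.map_add, Polynomial.eval_add, map_add, add_mul]
    exact hp.fun_add hq
  | monomial n c =>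
    simp only [Polynomial.map_monomial, Polynomial.eval_monomial, Polynomial.derivative_monomial]
    refine ((gaga1_mv Y hY c).fun_mul (hα.fun_pow n)).congr_deriv ?_
    ring

/-- Where `Δ ≠ 0` the map `Y z = (y a (ξ z))_a` has an invertible differential: if `dY v = 0`,
differentiate `root` (the function vanishes on the open set `O`) to get `M'(y, α) dα v = 0`, where
`M'(y, α) ≠ 0` by `bez`; differentiate `gen` to get `dξ v = 0`, so `v = 0`; then compare
dimensions with `dm_le`.  It is convenient to differentiate along the line `t ↦ z + t • v`. -/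
theorem gaga_bij {O : Set E} (hO : IsOpen O) (ξ : σ → E → ℂ) (h : ∀ i, AnalyticOnNhd ℂ (ξ i) O)
    {I : Ideal (MvPolynomial σ ℂ)} {r : ℕ} (C : Cov I r) (hr : r ≤ finrank ℂ E)
    (hI : ∀ f ∈ I, ∀ z ∈ O, eval (fun i => ξ i z) f = 0)
    (et : ∀ z ∈ O, ∀ v, (∀ i, fderiv ℂ (ξ i) z v = 0) → v = 0) {z : E} (hz : z ∈ O)
    (hΔ : eval (fun a => eval (fun i => ξ i z) (C.y a)) C.Δ ≠ 0) :
    Function.Bijective (fderiv ℂ (fun w a => eval (fun i => ξ i w) (C.y a)) z) := by
  have hline : ∀ (f : MvPolynomial σ ℂ) (v : E),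
      HasDerivAt (fun t : ℂ => eval (fun i => ξ i (z + t • v)) f)
        (fderiv ℂ (fun w => eval (fun i => ξ i w) f) z v) 0 := fun f v =>
    (an_eval ξ h f z hz).differentiableAt.hasFDerivAt.hasLineDerivAt v
  have hinj : Function.Injective (fderiv ℂ (fun w a => eval (fun i => ξ i w) (C.y a)) z) := by
    refine (injective_iff_map_eq_zero _).2 fun v hv => et z hz v fun i => ?_
    have hY : ∀ a, HasDerivAt (fun t : ℂ => eval (fun i => ξ i (z + t • v)) (C.y a)) 0 0 := by
      intro a
      have h1 := hline (C.y a) v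
      have h2 := congrFun hv a
      rw [fderiv_pi fun a => (an_eval ξ h (C.y a) z hz).differentiableAt] at h2
      rwa [show fderiv ℂ (fun w => eval (fun i => ξ i w) (C.y a)) z v = 0 from h2] at h1
    have hev : ∀ᶠ t : ℂ in 𝓝 0, z + t • v ∈ O :=
      (by fun_prop : Continuous fun t : ℂ => z + t • v).continuousAt.preimage_mem_nhds
        (hO.mem_nhds (by simpa using hz))
    have hI0 : ∀ f ∈ I, HasDerivAt (fun t : ℂ => eval (fun i => ξ i (z + t • v)) f) 0 0 :=
      fun f hf => (hasDerivAt_const (0 : ℂ) (0 : ℂ)).congr_of_eventuallyEq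
        (hev.mono fun t ht => hI f hf _ ht)
    have hM : (Polynomial.derivative (C.M.map (eval fun a =>
        eval (fun i => ξ i z) (C.y a)))).eval (eval (fun i => ξ i z) C.α) ≠ 0 := by
      intro h0
      obtain ⟨a, b, hab⟩ := C.bez
      have h1 := hI _ C.root z hz
      rw [eval_pv] at h1
      have h2 := congrArg (fun q : Polynomial (MvPolynomial (Fin r) ℂ) =>
        (q.map (eval fun a => eval (fun i => ξ i z) (C.y a))).eval (eval (fun i => ξ i z) C.α)) hab
      simp only [Polynomial.map_C, Polynomial.eval_C, Polynomial.map_add, Polynomial.map_mul,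
        Polynomial.eval_add, Polynomial.eval_mul, ← Polynomial.derivative_map, h0, h1, mul_zero,
        add_zero] at h2
      exact hΔ h2
    have hα : HasDerivAt (fun t : ℂ => eval (fun i => ξ i (z + t • v)) C.α) 0 0 := by
      have h1 := hI0 _ C.root
      simp only [eval_pv] at h1
      have h2 := (gaga1_poly _ hY (hline C.α v) C.M).unique h1
      simp only [zero_smul, add_zero] at h2
      have h3 := hline C.α v
      rwa [(mul_eq_zero.1 h2).resolve_left hM] at h3
    have h1 := hI0 _ (C.gen i)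
    simp only [map_sub, map_mul, eval_pv, eval_X, gaga1_aeval] at h1
    have h2 : HasDerivAt (fun t : ℂ => ξ i (z + t • v)) (fderiv ℂ (ξ i) z v) 0 :=
      (h i z hz).differentiableAt.hasFDerivAt.hasLineDerivAt v
    have h3 := (((gaga1_mv _ hY C.Δ).mul h2).sub (gaga1_poly _ hY hα (C.A i))).unique h1
    simp only [zero_smul, add_zero, zero_mul, mul_zero, zero_add, sub_zero] at h3
    exact (mul_eq_zero.1 h3).resolve_left hΔ
  have hle := LinearMap.finrank_le_finrank_of_injective
    (f := (fderiv ℂ (fun w a => eval (fun i => ξ i w) (C.y a)) z : E →ₗ[ℂ] (Fin r → ℂ))) hinj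
  refine ⟨hinj, (LinearMap.injective_iff_surjective_of_finrank_eq_finrank
    (f := (fderiv ℂ (fun w a => eval (fun i => ξ i w) (C.y a)) z : E →ₗ[ℂ] (Fin r → ℂ)))
    (le_antisymm hle ?_)).1 hinj⟩
  rwa [Module.finrank_fin_fun]

end GPC73

end

section

/-! Traces of holomorphic functions on a uniformised variety. -/

open MvPolynomial Pool.Agent.MP_d171e3_nt Module Filter Topology

namespace GPC73

variable {E : Type} [NormedAddCommGroup E] [NormedSpace ℂ E] [FiniteDimensional ℂ E]
  {σ : Type} [Fintype σ]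

theorem gaga2_inv {F : Type} [NormedAddCommGroup F] [NormedSpace ℂ F] [FiniteDimensional ℂ F]
    {Y : E → F} {z : E} (hY : AnalyticAt ℂ Y z) (hb : Function.Bijective (fderiv ℂ Y z)) :
    ∃ s : F → E, s (Y z) = z ∧ DifferentiableAt ℂ s (Y z) ∧ ∀ᶠ b in 𝓝 (Y z), Y (s b) = b := by
  have := FiniteDimensional.complete ℂ E
  have := FiniteDimensional.complete ℂ F
  let e : E ≃L[ℂ] F :=
    (LinearEquiv.ofBijective (fderiv ℂ Y z : E →ₗ[ℂ] F) hb).toContinuousLinearEquiv
  have he : (e : E →L[ℂ] F) = fderiv ℂ Y z := by ext v; rfl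
  have hs : HasStrictFDerivAt Y (e : E →L[ℂ] F) z := he ▸ hY.hasStrictFDerivAt
  exact ⟨hs.localInverse Y e z, hs.localInverse_apply_image,
    hs.to_localInverse.hasFDerivAt.differentiableAt, hs.eventually_right_inverse⟩

theorem gaga2_bound (f : MvPolynomial σ ℂ) :
    ∃ (c : ℝ) (m : ℕ), 1 ≤ c ∧ ∀ χ : σ → ℂ, ‖eval χ f‖ ≤ c * (1 + ‖χ‖) ^ m := by
  induction f using MvPolynomial.induction_on with
  | C a => exact ⟨1 + ‖a‖, 0, by linarith [norm_nonneg a], fun χ => by simp⟩
  | add p q hp hq =>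
    obtain ⟨c, m, hc, h⟩ := hp
    obtain ⟨c', m', hc', h'⟩ := hq
    refine ⟨c + c', m + m', by linarith, fun χ => ?_⟩
    have h1 : 1 ≤ 1 + ‖χ‖ := by linarith [norm_nonneg χ]
    have h2 : (1 + ‖χ‖) ^ m ≤ (1 + ‖χ‖) ^ (m + m') := pow_le_pow_right₀ h1 (by omega)
    have h3 : (1 + ‖χ‖) ^ m' ≤ (1 + ‖χ‖) ^ (m + m') := pow_le_pow_right₀ h1 (by omega)
    rw [map_add, add_mul]
    refine (norm_add_le _ _).trans (add_le_add ((h χ).trans ?_) ((h' χ).trans ?_))
    · exact mul_le_mul_of_nonneg_left h2 (by linarith)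
    · exact mul_le_mul_of_nonneg_left h3 (by linarith)
  | mul_X p i hp =>
    obtain ⟨c, m, hc, h⟩ := hp
    refine ⟨c, m + 1, hc, fun χ => ?_⟩
    rw [map_mul, eval_X, norm_mul, pow_succ, ← mul_assoc]
    refine mul_le_mul (h χ) ?_ (norm_nonneg _) (by positivity)
    linarith [norm_le_pi_norm χ i]

omit [Fintype σ] in
theorem gaga2_aeval {r : ℕ} (y : Fin r → MvPolynomial σ ℂ) (χ : σ → ℂ)
    (Q : MvPolynomial (Fin r) ℂ) : eval χ (aeval y Q) = eval (fun a => eval χ (y a)) Q := by
  induction Q using MvPolynomial.induction_on with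
  | C a => simp
  | add p q hp hq => simp only [map_add, hp, hq]
  | mul_X p i hp => simp only [map_mul, hp, aeval_X, eval_X]

theorem gaga2_card {I : Ideal (MvPolynomial σ ℂ)} {r : ℕ} (C : Cov I r) {b : Fin r → ℂ}
    (hb : eval b C.Δ ≠ 0) : (C.M.map (eval b)).roots.toFinset.card = C.M.natDegree := by
  obtain ⟨p, q, h⟩ := C.bez
  have h1 := congrArg (Polynomial.map (eval b)) h
  rw [Polynomial.map_C, Polynomial.map_add, Polynomial.map_mul, Polynomial.map_mul,
    ← Polynomial.derivative_map] at h1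
  have hs : (C.M.map (eval b)).Separable := by
    refine ⟨Polynomial.C (eval b C.Δ)⁻¹ * p.map (eval b),
      Polynomial.C (eval b C.Δ)⁻¹ * q.map (eval b), ?_⟩
    rw [mul_assoc, mul_assoc, ← mul_add, ← h1, ← Polynomial.C_mul, inv_mul_cancel₀ hb,
      Polynomial.C_1]
  rw [Multiset.toFinset_card_of_nodup (Polynomial.nodup_roots hs),
    IsAlgClosed.card_roots_eq_natDegree, C.monic.natDegree_map]

/-- The traces.  For `Δ b ≠ 0` the polynomial `M(b, ·)` has `d = natDegree M` simple roots, each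
root `t` comes from a point `z ∈ O` (`lift`, `ns`), and `ξ z` is determined by `(b, t)` (`gen`), so
`u z` is.  Define `τ l b` as the sum over the roots `t` of `u z * t ^ l`.  Near `b₀` the local
inverses (`HasStrictFDerivAt.localInverse`, `gaga_bij`) at the `d` points over `b₀` give `d`
distinct roots, hence all of them, so `τ l` is differentiable at `b₀`.  Growth: `grow`. -/
theorem gaga_trace {O : Set E} (hO : IsOpen O) (ξ : σ → E → ℂ) (h : ∀ i, AnalyticOnNhd ℂ (ξ i) O)
    {I : Ideal (MvPolynomial σ ℂ)} {r : ℕ} (C : Cov I r) (hr : r ≤ finrank ℂ E)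
    (hI : ∀ f ∈ I, ∀ z ∈ O, eval (fun i => ξ i z) f = 0)
    (ns : ∀ χ : σ → ℂ, (∀ f ∈ I, eval χ f = 0) → ∃ z ∈ O, χ = fun i => ξ i z)
    (et : ∀ z ∈ O, ∀ v, (∀ i, fderiv ℂ (ξ i) z v = 0) → v = 0) :
    ∃ k : ℕ, ∀ (n : ℕ) (u : E → ℂ), DifferentiableOn ℂ u O →
      (∀ z ∈ O, ∀ w ∈ O, (∀ i, ξ i z = ξ i w) → u z = u w) →
      (∃ B : ℝ, ∀ z ∈ O, ‖u z‖ ≤ B * (1 + ‖fun i => ξ i z‖) ^ n) →
      ∃ (u' : (Fin r → ℂ) → ℂ → ℂ) (B : ℝ),
        (∀ z ∈ O, eval (fun a => eval (fun i => ξ i z) (C.y a)) C.Δ ≠ 0 →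
          u' (fun a => eval (fun i => ξ i z) (C.y a)) (eval (fun i => ξ i z) C.α) = u z) ∧
        ∀ l < C.M.natDegree, ∀ b, eval b C.Δ ≠ 0 →
          DifferentiableAt ℂ
            (fun b => ∑ t ∈ (C.M.map (eval b)).roots.toFinset, u' b t * t ^ l) b ∧
          ‖∑ t ∈ (C.M.map (eval b)).roots.toFinset, u' b t * t ^ l‖ ≤
            B * (1 + ‖b‖) ^ (k * (n + 1)) := by
  classical
  obtain ⟨c₀, k₀, hg⟩ := C.grow
  obtain ⟨c₁, m, hc₁, hα⟩ := gaga2_bound C.α
  set d := C.M.natDegree with hd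
  refine ⟨k₀ * (1 + m * d), fun n u hu hinv ⟨B, hB⟩ => ?_⟩
  set Y : E → Fin r → ℂ := fun z a => eval (fun i => ξ i z) (C.y a) with hY
  set al : E → ℂ := fun z => eval (fun i => ξ i z) C.α with hal
  have han : ∀ f : MvPolynomial σ ℂ, ∀ z ∈ O, AnalyticAt ℂ (fun w => eval (fun i => ξ i w) f) z :=
    fun f z hz => AnalyticAt.aeval_mvPolynomial (f := fun w i => ξ i w) (fun i => h i z hz) f
  have hne : ∀ b : Fin r → ℂ, C.M.map (eval b) ≠ 0 := fun b => (C.monic.map _).ne_zero
  have hroot : ∀ z ∈ O, al z ∈ (C.M.map (eval (Y z))).roots.toFinset := fun z hz => by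
    rw [Multiset.mem_toFinset, Polynomial.mem_roots (hne _)]
    exact (eval_pv C.y C.α C.M _).symm.trans (hI _ C.root z hz)
  have hdet : ∀ z ∈ O, ∀ w ∈ O, Y z = Y w → al z = al w → eval (Y z) C.Δ ≠ 0 → u z = u w := by
    intro z hz w hw h1 h2 h3
    refine hinv z hz w hw fun i => mul_left_cancel₀ h3 ?_
    have e1 := hI _ (C.gen i) z hz
    have e2 := hI _ (C.gen i) w hw
    rw [map_sub, map_mul, eval_X, gaga2_aeval, eval_pv, sub_eq_zero] at e1 e2
    change eval (Y z) C.Δ * ξ i z = ((C.A i).map (eval (Y z))).eval (al z) at e1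
    change eval (Y w) C.Δ * ξ i w = ((C.A i).map (eval (Y w))).eval (al w) at e2
    rw [e1, h1, h2, e2]
  have hlift : ∀ b, ∀ t ∈ (C.M.map (eval b)).roots.toFinset, ∃ z ∈ O, Y z = b ∧ al z = t := by
    intro b t ht
    rw [Multiset.mem_toFinset, Polynomial.mem_roots (hne _)] at ht
    obtain ⟨χ, h1, h2, h3⟩ := C.lift b t ht
    obtain ⟨z, hz, rfl⟩ := ns χ h1
    exact ⟨z, hz, funext h2, h3⟩
  set u' : (Fin r → ℂ) → ℂ → ℂ := fun b t =>
    if h : ∃ z ∈ O, Y z = b ∧ al z = t then u h.choose else 0 with hu'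
  have hval : ∀ z ∈ O, eval (Y z) C.Δ ≠ 0 → u' (Y z) (al z) = u z := fun z hz hΔ => by
    have ex : ∃ w ∈ O, Y w = Y z ∧ al w = al z := ⟨z, hz, rfl, rfl⟩
    simp only [hu', dif_pos ex]
    obtain ⟨h1, h2, h3⟩ := ex.choose_spec
    exact (hdet z hz _ h1 h2.symm h3.symm hΔ).symm
  refine ⟨u', d * (|B| * c₁ ^ d * (1 + |c₀|) ^ (n + m * d)), hval, fun l hl b₀ hb₀ => ⟨?_, ?_⟩⟩
  · have ex : ∀ t ∈ (C.M.map (eval b₀)).roots.toFinset, ∃ s : (Fin r → ℂ) → E, s b₀ ∈ O ∧
        al (s b₀) = t ∧ DifferentiableAt ℂ s b₀ ∧ ∀ᶠ b in 𝓝 b₀, Y (s b) = b := by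
      intro t ht
      obtain ⟨z, hz, rfl, h2⟩ := hlift b₀ t ht
      obtain ⟨s, h3, h4, h5⟩ := gaga2_inv (Y := Y) (z := z)
        (analyticAt_pi_iff.2 fun a => han _ z hz) (gaga_bij hO ξ h C hr hI et hz hb₀)
      exact ⟨s, h3.symm ▸ hz, h3.symm ▸ h2, h4, h5⟩
    choose! s h1 h2 h3 h4 using ex
    have h5 : ∀ t ∈ (C.M.map (eval b₀)).roots.toFinset,
        DifferentiableAt ℂ (fun b => al (s t b)) b₀ := fun t ht =>
      (han C.α _ (h1 t ht)).differentiableAt.comp b₀ (h3 t ht)
    have h6 : DifferentiableAt ℂ (fun b => ∑ t ∈ (C.M.map (eval b₀)).roots.toFinset,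
        u (s t b) * al (s t b) ^ l) b₀ :=
      DifferentiableAt.fun_sum fun t ht =>
        ((hu.differentiableAt (hO.mem_nhds (h1 t ht))).comp b₀ (h3 t ht)).mul ((h5 t ht).pow l)
    refine h6.congr_of_eventuallyEq ?_
    have e1 : ∀ᶠ b in 𝓝 b₀, eval b C.Δ ≠ 0 :=
      (MvPolynomial.continuous_eval C.Δ).continuousAt.eventually_ne hb₀
    have e2 : ∀ᶠ b in 𝓝 b₀, ∀ t ∈ (C.M.map (eval b₀)).roots.toFinset, Y (s t b) = b :=
      (eventually_all_finset _).2 h4
    have e3 : ∀ᶠ b in 𝓝 b₀, ∀ t ∈ (C.M.map (eval b₀)).roots.toFinset, s t b ∈ O :=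
      (eventually_all_finset _).2 fun t ht => (h3 t ht).continuousAt (hO.mem_nhds (h1 t ht))
    have e4 : ∀ᶠ b in 𝓝 b₀, ∀ t ∈ (C.M.map (eval b₀)).roots.toFinset,
        ∀ t' ∈ (C.M.map (eval b₀)).roots.toFinset, t ≠ t' → al (s t b) - al (s t' b) ≠ 0 :=
      (eventually_all_finset _).2 fun t ht => (eventually_all_finset _).2 fun t' ht' => by
        by_cases htt : t = t'
        · exact Eventually.of_forall fun _ hn => absurd htt hn
        · refine (((h5 t ht).sub (h5 t' ht')).continuousAt.eventually_ne (y := 0) ?_).mono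
            fun _ hb _ => hb
          show al (s t b₀) - al (s t' b₀) ≠ 0
          rw [h2 t ht, h2 t' ht']
          exact sub_ne_zero.2 htt
    filter_upwards [e1, e2, e3, e4] with b a1 a2 a3 a4
    have hinj : Set.InjOn (fun t => al (s t b)) (C.M.map (eval b₀)).roots.toFinset :=
      fun t ht t' ht' e => by
        by_contra hn
        exact a4 t ht t' ht' hn (sub_eq_zero.2 e)
    have him : (C.M.map (eval b₀)).roots.toFinset.image (fun t => al (s t b)) =
        (C.M.map (eval b)).roots.toFinset := by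
      refine Finset.eq_of_subset_of_card_le (fun x hx => ?_) ?_
      · obtain ⟨t, ht, rfl⟩ := Finset.mem_image.1 hx
        have := hroot _ (a3 t ht)
        rwa [a2 t ht] at this
      · rw [Finset.card_image_of_injOn hinj, gaga2_card C a1, gaga2_card C hb₀]
    rw [← him, Finset.sum_image hinj]
    refine Finset.sum_congr rfl fun t ht => ?_
    have := hval _ (a3 t ht) (by rw [a2 t ht]; exact a1)
    rw [a2 t ht] at this
    rw [this]
  · have hS : 1 ≤ 1 + ‖b₀‖ := by linarith [norm_nonneg b₀]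
    have key : ∀ t ∈ (C.M.map (eval b₀)).roots.toFinset, ‖u' b₀ t * t ^ l‖ ≤
        |B| * c₁ ^ d * (1 + |c₀|) ^ (n + m * d) * (1 + ‖b₀‖) ^ (k₀ * (1 + m * d) * (n + 1)) := by
      intro t ht
      obtain ⟨z, hz, rfl, rfl⟩ := hlift b₀ t ht
      rw [hval z hz hb₀, norm_mul, norm_pow]
      have a1 := hB z hz
      have a2 := hα fun i => ξ i z
      have a3 := hg (fun i => ξ i z) fun f hf => hI f hf z hz
      change ‖al z‖ ≤ _ at a2
      change _ ≤ c₀ * (1 + ‖Y z‖) ^ k₀ at a3
      have hW : 1 ≤ 1 + ‖fun i => ξ i z‖ := by linarith [norm_nonneg fun i => ξ i z]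
      have hS' : 1 ≤ (1 + ‖Y z‖) ^ k₀ := one_le_pow₀ hS
      have a4 : 1 + ‖fun i => ξ i z‖ ≤ (1 + |c₀|) * (1 + ‖Y z‖) ^ k₀ := by
        have := mul_le_mul_of_nonneg_right (le_abs_self c₀) (show 0 ≤ (1 + ‖Y z‖) ^ k₀ by linarith)
        linarith
      generalize 1 + ‖fun i => ξ i z‖ = W at a1 a2 a4 hW
      have b1 : ‖u z‖ ≤ |B| * W ^ n :=
        a1.trans (mul_le_mul_of_nonneg_right (le_abs_self B) (by positivity))
      have b0 : 1 ≤ c₁ * W ^ m := one_le_mul_of_one_le_of_one_le hc₁ (one_le_pow₀ hW)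
      have b2 : ‖al z‖ ^ l ≤ (c₁ * W ^ m) ^ d :=
        (pow_le_pow_left₀ (norm_nonneg _) a2 l).trans (pow_le_pow_right₀ b0 hl.le)
      have b3 : W ^ (n + m * d) ≤ ((1 + |c₀|) * (1 + ‖Y z‖) ^ k₀) ^ (n + m * d) :=
        pow_le_pow_left₀ (by linarith) a4 _
      have b4 : (1 + ‖Y z‖) ^ (k₀ * (n + m * d)) ≤ (1 + ‖Y z‖) ^ (k₀ * (1 + m * d) * (n + 1)) := by
        refine pow_le_pow_right₀ hS ?_
        rw [mul_assoc]
        exact Nat.mul_le_mul_left _ (by nlinarith [Nat.zero_le (m * d * n)])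
      rw [mul_pow, ← pow_mul] at b3
      calc ‖u z‖ * ‖al z‖ ^ l ≤ |B| * W ^ n * (c₁ * W ^ m) ^ d :=
            mul_le_mul b1 b2 (by positivity) (by positivity)
        _ = |B| * c₁ ^ d * W ^ (n + m * d) := by rw [mul_pow, ← pow_mul, pow_add]; ring
        _ ≤ |B| * c₁ ^ d * ((1 + |c₀|) ^ (n + m * d) *
            (1 + ‖Y z‖) ^ (k₀ * (1 + m * d) * (n + 1))) :=
            mul_le_mul_of_nonneg_left
              (b3.trans (mul_le_mul_of_nonneg_left b4 (by positivity))) (by positivity)
        _ = _ := by ring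
    refine (norm_sum_le _ _).trans ((Finset.sum_le_card_nsmul _ _ _ key).trans (le_of_eq ?_))
    rw [gaga2_card C hb₀, nsmul_eq_mul]
    ring

end GPC73

end

section

/-! Holomorphic functions of polynomial growth on a uniformised variety are rational. -/

open MvPolynomial Pool.Agent.MP_d171e3_nt Module Filter Topology

namespace GPC73

variable {E : Type} [NormedAddCommGroup E] [NormedSpace ℂ E] [FiniteDimensional ℂ E]
  {σ : Type} [Fintype σ]

omit [Fintype σ] in
theorem gaga_deg_aeval {r K : ℕ} (y : Fin r → MvPolynomial σ ℂ)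
    (hy : ∀ a, (y a).totalDegree ≤ K) (p : MvPolynomial (Fin r) ℂ) :
    (aeval y p).totalDegree ≤ p.totalDegree * K := by
  rw [aeval_def, eval₂_eq']
  refine totalDegree_finsetSum_le fun d hd => (totalDegree_mul _ _).trans ?_
  have h0 : (algebraMap ℂ (MvPolynomial σ ℂ) (coeff d p)).totalDegree = 0 := totalDegree_C _
  rw [h0, zero_add]
  refine (totalDegree_finsetProd _ _).trans ?_
  have h1 : ∑ i, (y i ^ d i).totalDegree ≤ ∑ i, d i * K :=
    Finset.sum_le_sum fun i _ => (totalDegree_pow _ _).trans (Nat.mul_le_mul_left _ (hy i))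
  refine h1.trans ?_
  rw [← Finset.sum_mul]
  refine Nat.mul_le_mul_right _ ?_
  have h2 := le_totalDegree hd
  rwa [Finsupp.sum_fintype _ _ fun _ => rfl] at h2

omit [Fintype σ] in
theorem gaga_eval_aeval {r : ℕ} (y : Fin r → MvPolynomial σ ℂ) (χ : σ → ℂ)
    (p : MvPolynomial (Fin r) ℂ) :
    eval χ (aeval y p) = eval (fun a => eval χ (y a)) p := by
  induction p using MvPolynomial.induction_on with
  | C a => simp
  | add p q hp hq => simp only [map_add, hp, hq]
  | mul_X p i hp => simp only [map_mul, hp, aeval_X, eval_X]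

theorem gaga_sum (M : Polynomial ℂ) (hM : M ≠ 0) (d : ℕ) (c : ℕ → ℂ) (z : ℂ) (hz : M.IsRoot z)
    (hc : ∀ w, M.IsRoot w → ∑ l ∈ Finset.range d, c l * w ^ l =
      if z = w then (Polynomial.derivative M).eval z else 0) (v : ℂ → ℂ) :
    ∑ l ∈ Finset.range d, c l * ∑ t ∈ M.roots.toFinset, v t * t ^ l =
      v z * (Polynomial.derivative M).eval z := by
  have h1 : ∑ l ∈ Finset.range d, c l * ∑ t ∈ M.roots.toFinset, v t * t ^ l =
      ∑ t ∈ M.roots.toFinset, v t * ∑ l ∈ Finset.range d, c l * t ^ l := by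
    simp only [Finset.mul_sum]
    rw [Finset.sum_comm]
    exact Finset.sum_congr rfl fun t _ => Finset.sum_congr rfl fun l _ => by ring
  have hz' : z ∈ M.roots.toFinset := Multiset.mem_toFinset.2 ((Polynomial.mem_roots hM).2 hz)
  rw [h1, Finset.sum_eq_single_of_mem z hz', hc z hz, if_pos rfl]
  intro t ht htz
  rw [hc t ((Polynomial.mem_roots hM).1 (Multiset.mem_toFinset.1 ht)), if_neg (Ne.symm htz),
    mul_zero]

/-- `exists_cov`, `dm_le`, `gaga_trace`, `poly_across` (`Δ * τ l = p l`), `gaga_lagrange` and `bez`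
give `Δ ^ 2 * u = b * ∑ l, c l * p l` where `Δ ≠ 0`; multiply once more by `Δ` to get an identity
on the whole of `O`. -/
theorem alg_of_growth {O : Set E} (hO : IsOpen O) (ξ : σ → E → ℂ)
    (h : ∀ i, AnalyticOnNhd ℂ (ξ i) O) (I : Ideal (MvPolynomial σ ℂ)) [I.IsPrime]
    (hI : ∀ f ∈ I, ∀ z ∈ O, eval (fun i => ξ i z) f = 0)
    (ns : ∀ χ : σ → ℂ, (∀ f ∈ I, eval χ f = 0) → ∃ z ∈ O, χ = fun i => ξ i z)
    (et : ∀ z ∈ O, ∀ v, (∀ i, fderiv ℂ (ξ i) z v = 0) → v = 0) :
    ∃ (Δ : MvPolynomial σ ℂ) (c : ℕ), Δ ∉ I ∧ ∀ (n : ℕ) (u : E → ℂ), DifferentiableOn ℂ u O →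
      (∀ z ∈ O, ∀ w ∈ O, (∀ i, ξ i z = ξ i w) → u z = u w) →
      (∃ B : ℝ, ∀ z ∈ O, ‖u z‖ ≤ B * (1 + ‖fun i => ξ i z‖) ^ n) →
      ∃ f : MvPolynomial σ ℂ, f.totalDegree ≤ c * (n + 1) ∧
        ∀ z ∈ O, eval (fun i => ξ i z) Δ * u z = eval (fun i => ξ i z) f := by
  obtain ⟨C⟩ := exists_cov I
  have hr := dm_le hO ξ h I ns
  generalize dm I = r at C hr
  obtain ⟨k, hk⟩ := gaga_trace hO ξ h C hr hI ns et
  obtain ⟨c, hc⟩ := gaga_lagrange C.M C.monic
  obtain ⟨a, b, hab⟩ := C.bez
  obtain ⟨K, hK⟩ : ∃ K, ∀ a, (C.y a).totalDegree ≤ K :=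
    ⟨Finset.univ.sup fun a => (C.y a).totalDegree, fun a =>
      Finset.le_sup (f := fun a => (C.y a).totalDegree) (Finset.mem_univ a)⟩
  obtain ⟨e, he⟩ : ∃ e, ∀ l ∈ Finset.range C.M.natDegree, (pv C.y C.α (c l)).totalDegree ≤ e :=
    ⟨(Finset.range C.M.natDegree).sup fun l => (pv C.y C.α (c l)).totalDegree, fun l hl =>
      Finset.le_sup (f := fun l => (pv C.y C.α (c l)).totalDegree) hl⟩
  have hD : aeval C.y C.Δ ∉ I := fun hD => C.Δ_ne (C.indep _ hD)
  refine ⟨aeval C.y C.Δ ^ 3, (aeval C.y C.Δ * pv C.y C.α b).totalDegree + e +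
    r * (k + C.Δ.totalDegree) * K, fun h3 => hD (Ideal.IsPrime.mem_of_pow_mem ‹_› 3 h3), ?_⟩
  intro n u hu hu' hB
  obtain ⟨u', B, h1, h2⟩ := hk n u hu hu' hB
  have h3 : ∀ l, ∃ p : MvPolynomial (Fin r) ℂ, l < C.M.natDegree →
      p.totalDegree ≤ r * (k * (n + 1) + C.Δ.totalDegree) ∧ ∀ y, eval y C.Δ *
        (∑ t ∈ (C.M.map (eval y)).roots.toFinset, u' y t * t ^ l) = eval y p := fun l => by
    by_cases hl : l < C.M.natDegree
    · obtain ⟨p, hp, hp'⟩ := poly_across C.Δ
        (fun y => ∑ t ∈ (C.M.map (eval y)).roots.toFinset, u' y t * t ^ l)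
        (fun y hy => (h2 l hl y hy).1) B (k * (n + 1)) fun y hy => (h2 l hl y hy).2
      rw [Fintype.card_fin] at hp
      exact ⟨p, fun _ => ⟨hp, hp'⟩⟩
    · exact ⟨0, fun h' => absurd h' hl⟩
  choose p hp using h3
  refine ⟨aeval C.y C.Δ * pv C.y C.α b *
    ∑ l ∈ Finset.range C.M.natDegree, pv C.y C.α (c l) * aeval C.y (p l), ?_, fun z hz => ?_⟩
  · refine (totalDegree_mul _ _).trans ?_
    have h4 : (∑ l ∈ Finset.range C.M.natDegree,
        pv C.y C.α (c l) * aeval C.y (p l)).totalDegree ≤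
          e + r * (k * (n + 1) + C.Δ.totalDegree) * K :=
      totalDegree_finsetSum_le fun l hl => (totalDegree_mul _ _).trans (add_le_add (he l hl)
        ((gaga_deg_aeval C.y hK (p l)).trans
          (Nat.mul_le_mul_right _ (hp l (Finset.mem_range.1 hl)).1)))
    have h5 : r * (k * (n + 1) + C.Δ.totalDegree) * K ≤
        r * (k + C.Δ.totalDegree) * K * (n + 1) := by
      have : k * (n + 1) + C.Δ.totalDegree ≤ (k + C.Δ.totalDegree) * (n + 1) := by
        rw [add_mul]
        exact Nat.add_le_add_left (Nat.le_mul_of_pos_right _ n.succ_pos) _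
      calc r * (k * (n + 1) + C.Δ.totalDegree) * K
          ≤ r * ((k + C.Δ.totalDegree) * (n + 1)) * K :=
            Nat.mul_le_mul_right _ (Nat.mul_le_mul_left _ this)
        _ = _ := by ring
    have h6 := Nat.le_mul_of_pos_right ((aeval C.y C.Δ * pv C.y C.α b).totalDegree + e)
      (Nat.add_one_pos n)
    rw [add_mul]
    omega
  · simp only [map_mul, map_pow, map_sum, gaga_eval_aeval, eval_pv]
    have hroot := hI _ C.root z hz
    rw [eval_pv] at hroot
    have h1z := h1 z hz
    generalize (fun a => eval (fun i => ξ i z) (C.y a)) = Y at *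
    generalize eval (fun i => ξ i z) C.α = t at *
    by_cases hδ : eval Y C.Δ = 0
    · rw [hδ]; simp
    have hM : C.M.map (eval Y) ≠ 0 := (C.monic.map _).ne_zero
    have h7 := gaga_sum (C.M.map (eval Y)) hM C.M.natDegree (fun l => ((c l).map (eval Y)).eval t)
      t hroot (fun w hw => hc Y t w hroot hw) (u' Y)
    have h8 : ∑ l ∈ Finset.range C.M.natDegree, ((c l).map (eval Y)).eval t * eval Y (p l) =
        eval Y C.Δ * (u z * (Polynomial.derivative (C.M.map (eval Y))).eval t) := by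
      rw [← h1z hδ, ← h7, Finset.mul_sum]
      refine Finset.sum_congr rfl fun l hl => ?_
      rw [← (hp l (Finset.mem_range.1 hl)).2 Y]
      ring
    have h9 : eval Y C.Δ =
        (b.map (eval Y)).eval t * (Polynomial.derivative (C.M.map (eval Y))).eval t := by
      have := congrArg (fun q => (Polynomial.map (eval Y) q).eval t) hab
      simp only [Polynomial.map_C, Polynomial.eval_C, Polynomial.map_add, Polynomial.map_mul,
        Polynomial.eval_add, Polynomial.eval_mul, hroot, mul_zero, zero_add] at this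
      rw [this, Polynomial.derivative_map]
    rw [h8]
    linear_combination (eval Y C.Δ) ^ 2 * u z * h9

end GPC73

end

end
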