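import Pool.Agent.MP_57341d_ag.Mg.H73_Sys
import Pool.Agent.MP_57341d_ag.H73.Defs
import Pool.Agent.MP_57341d_ag.Mg.H73_Gaga

-- part MP_57341d_ag.H73.Sub1
section

section

/-! Vector extensions of an abelian variety as fibred systems; subtori. -/

open MvPolynomial Pool.Agent.MP_d171e3_nt GPC96 Module Filter Topology

namespace GPC73

variable {g N m : ℕ}

/-- The Lie algebra of the extension. -/
abbrev LG (g m : ℕ) : Type := (Fin g → ℂ) × (Fin m → ℂ)

/-- The system is fibred over `A` with fibre `ℂ^m` and periods `(ω j, -w j)`. -/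
structure Fib (A : AbVar g N) (w : Fin (2 * g) → Fin m → ℂ) {τ : Type}
    (S : Sys (LG g m) (τ ⊕ Fin m)) : Prop where
  aut : ∀ Ψ, S.Sec Ψ → ∀ j p, Ψ.1 (p + (A.ω j, -w j)) = 0 ↔ Ψ.1 p = 0
  vert : ∀ Ψ, S.Sec Ψ → ∀ s : Fin m → ℂ, (∀ k : ℕ, Ψ.1 (0, (k : ℂ) • s) = 0) →
    ∀ t : ℂ, Ψ.1 (0, t • s) = 0
  eta : ∀ z s s', (z, s) ∈ S.O → (z, s') ∈ S.O
  xl : ∀ i z s s', S.ξ (Sum.inl i) (z, s) = S.ξ (Sum.inl i) (z, s')
  xr : ∀ k z s s', S.ξ (Sum.inr k) (z, s + s') = S.ξ (Sum.inr k) (z, s) + s' k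
  etl : ∀ p ∈ S.O, ∀ v, (∀ i, fderiv ℂ (S.ξ (Sum.inl i)) p (v, 0) = 0) → v = 0

/-- The data on the periods used in the proof. -/
structure Wd (A : AbVar g N) (w : Fin (2 * g) → Fin m → ℂ) : Prop where
  pos : 1 ≤ m
  top : Submodule.span ℂ (Set.range w) = ⊤
  sub : ∀ U : Submodule ℂ (Fin g → ℂ), U ≠ ⊤ → A.IsSub U → m + finrank ℂ U < g +
    finrank ℂ (Submodule.span ℂ {s : Fin m → ℂ | ∃ n, A.per n ∈ U ∧ s = ∑ j, n j • w j})

theorem sub1_per_smul (A : AbVar g N) (c : ℤ) (n : Fin (2 * g) → ℤ) :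
    A.per (c • n) = c • A.per n := by
  simp only [AbVar.per, Finset.smul_sum, Pi.smul_apply, smul_eq_mul, mul_smul]

theorem sub1_per_of_mem (A : AbVar g N) {x : Fin g → ℂ}
    (hx : x ∈ Submodule.span ℤ (Set.range A.ω)) : ∃ n, x = A.per n := by
  obtain ⟨c, hc⟩ := (Submodule.mem_span_range_iff_exists_fun ℤ).1 hx
  exact ⟨c, hc.symm⟩

theorem sub1_dirichlet (A : AbVar g N) (u : Fin g → ℂ) {δ : ℝ} (hδ : 0 < δ) :
    ∃ k : ℕ, 1 ≤ k ∧ ∃ n, ‖A.per n - (k : ℝ) • u‖ < δ := by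
  obtain ⟨a, -, φ, hφ, ha⟩ := tendsto_subseq_of_bounded (ZSpan.fundamentalDomain_isBounded A.ω)
    (x := fun k : ℕ => ZSpan.fract A.ω ((k : ℝ) • u))
    (fun k => ZSpan.fract_mem_fundamentalDomain A.ω _)
  obtain ⟨M, hM⟩ := Metric.cauchySeq_iff'.1 ha.cauchySeq δ hδ
  have h1 := hM (M + 1) (Nat.le_succ M)
  have hlt : φ M < φ (M + 1) := hφ (Nat.lt_succ_self M)
  obtain ⟨n, hn⟩ := sub1_per_of_mem A
    (ZSpan.floor A.ω ((φ (M + 1) : ℝ) • u) - ZSpan.floor A.ω ((φ M : ℝ) • u)).2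
  refine ⟨φ (M + 1) - φ M, by omega, n, ?_⟩
  rw [← hn, Nat.cast_sub hlt.le, sub_smul, ← norm_neg]
  simp only [Function.comp, dist_eq_norm, ZSpan.fract_apply] at h1
  convert h1 using 2
  all_goals first | rfl | (simp only [AddSubgroupClass.coe_sub]; abel)

/-- Simultaneous Dirichlet approximation: for `u ∈ U` and `0 < δ < ε` there are `k ≥ 1` and a period
`x` with `‖k • u - x‖ < δ` (the fractional parts `ZSpan.fract` of the multiples of `u` are bounded,
so two of them are close); then `x ∈ U` and `u` is within `δ` of the span, which is closed. -/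
theorem isSub_of_disc (A : AbVar g N) (U : Submodule ℂ (Fin g → ℂ)) {ε : ℝ} (hε : 0 < ε)
    (h : ∀ n, ∀ u ∈ U, ‖A.per n - u‖ < ε → A.per n ∈ U) : A.IsSub U := by
  intro u hu
  set W := Submodule.span ℝ {x | x ∈ U ∧ ∃ n, x = A.per n} with hW
  have hcl : IsClosed (W : Set (Fin g → ℂ)) := W.closed_of_finiteDimensional
  have : u ∈ closure (W : Set (Fin g → ℂ)) := by
    rw [Metric.mem_closure_iff]
    intro δ hδ
    obtain ⟨k, hk, n, hn⟩ := sub1_dirichlet A u (lt_min hδ hε)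
    have hku : (k : ℝ) • u ∈ U := by
      rw [Nat.cast_smul_eq_nsmul]
      exact nsmul_mem hu k
    have hp : A.per n ∈ U := h n _ hku (hn.trans_le (min_le_right _ _))
    have hk' : (1 : ℝ) ≤ k := by exact_mod_cast hk
    have hk0 : (k : ℝ) ≠ 0 := by positivity
    refine ⟨(k : ℝ)⁻¹ • A.per n, W.smul_mem _ (Submodule.subset_span ⟨hp, n, rfl⟩), ?_⟩
    have e : u - (k : ℝ)⁻¹ • A.per n = -((k : ℝ)⁻¹ • (A.per n - (k : ℝ) • u)) := by
      rw [smul_sub, smul_smul, inv_mul_cancel₀ hk0, one_smul, neg_sub]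
    rw [dist_eq_norm, e, norm_neg, norm_smul, norm_inv, Real.norm_natCast]
    have h2 : (k : ℝ)⁻¹ ≤ 1 := inv_le_one_of_one_le₀ hk'
    calc (k : ℝ)⁻¹ * ‖A.per n - (k : ℝ) • u‖ ≤ 1 * ‖A.per n - (k : ℝ) • u‖ := by gcongr
      _ < δ := by rw [one_mul]; exact hn.trans_le (min_le_left _ _)
  rwa [hcl.closure_eq] at this

/-- If the periods are not discrete modulo `U` then the closure of `Λ + U` contains a real line not
in `U`.  Use a projection `π` along `U` onto a complement: `a k = π (per (n k)) → 0`, `a k ≠ 0`,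
`a k ∈ Λ + U`; a subsequence of `‖a k‖⁻¹ • a k` tends to `α`, and `⌊t / ‖a k‖⌋ • a k → t • α`. -/
theorem exists_line (A : AbVar g N) (U : Submodule ℂ (Fin g → ℂ))
    (h : ¬ ∃ ε > 0, ∀ n, ∀ u ∈ U, ‖A.per n - u‖ < ε → A.per n ∈ U) :
    ∃ α ∉ U, ∀ u ∈ U, ∀ t : ℝ, u + t • α ∈ closure {x | ∃ n, ∃ u ∈ U, x = A.per n + u} := by
  push Not at h
  obtain ⟨W, hW⟩ := U.exists_isCompl
  let P := W.projection U hW.symm
  have hPc : Continuous P := P.continuous_of_finiteDimensional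
  choose n v hv hlt hn using fun k : ℕ => h (1 / ((k : ℝ) + 1)) Nat.one_div_pos_of_nat
  let a : ℕ → Fin g → ℂ := fun k => P (A.per (n k))
  have ha0 : ∀ k, a k ≠ 0 := fun k e =>
    hn k ((Submodule.projection_apply_eq_zero_iff hW.symm).1 e)
  have hat : Tendsto a atTop (𝓝 0) := by
    have h1 : Tendsto (fun k => A.per (n k) - v k) atTop (𝓝 0) :=
      squeeze_zero_norm (fun k => (hlt k).le) tendsto_one_div_add_atTop_nhds_zero_nat
    have h2 := (hPc.tendsto 0).comp h1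
    rw [map_zero] at h2
    refine h2.congr fun k => ?_
    have h3 : P (v k) = 0 := (Submodule.projection_apply_eq_zero_iff hW.symm).2 (hv k)
    simp only [Function.comp, map_sub, h3, sub_zero, a]
  have hnorm : ∀ k, 0 < ‖a k‖ := fun k => norm_pos_iff.2 (ha0 k)
  let b : ℕ → Fin g → ℂ := fun k => ‖a k‖⁻¹ • a k
  have hb : ∀ k, b k ∈ Metric.sphere (0 : Fin g → ℂ) 1 ∩ (W : Set (Fin g → ℂ)) := fun k => by
    refine ⟨?_, ?_⟩
    · rw [mem_sphere_zero_iff_norm, norm_smul, norm_inv, norm_norm,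
        inv_mul_cancel₀ (hnorm k).ne']
    · exact W.smul_of_tower_mem _ (Submodule.projection_apply_mem hW.symm _)
  obtain ⟨α, ⟨hα1, hαW⟩, φ, hφ, hα⟩ :=
    ((isCompact_sphere (0 : Fin g → ℂ) 1).inter_right
      W.closed_of_finiteDimensional).tendsto_subseq hb
  refine ⟨α, fun hαU => ?_, fun u hu t => ?_⟩
  · have : α = 0 := (Submodule.disjoint_def.1 hW.disjoint) α hαU hαW
    rw [this] at hα1
    simp at hα1
  · have hr : Tendsto (fun k => ‖a (φ k)‖) atTop (𝓝 0) := by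
      simpa using (hat.comp hφ.tendsto_atTop).norm
    have hc : Tendsto (fun k => (⌊t / ‖a (φ k)‖⌋ : ℝ) * ‖a (φ k)‖) atTop (𝓝 t) := by
      rw [tendsto_iff_norm_sub_tendsto_zero]
      refine squeeze_zero (fun k => norm_nonneg _) (fun k => ?_) hr
      have h0 := hnorm (φ k)
      have h1 := Int.floor_le (t / ‖a (φ k)‖)
      have h2 := Int.lt_floor_add_one (t / ‖a (φ k)‖)
      rw [le_div_iff₀ h0] at h1
      rw [div_lt_iff₀ h0] at h2
      rw [Real.norm_eq_abs, abs_le]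
      constructor <;> nlinarith
    have hlim := (hc.smul hα).const_add u
    refine mem_closure_of_tendsto hlim (Eventually.of_forall fun k => ?_)
    refine ⟨⌊t / ‖a (φ k)‖⌋ • n (φ k),
      u - ⌊t / ‖a (φ k)‖⌋ • (A.per (n (φ k)) - a (φ k)),
      U.sub_mem hu (zsmul_mem (Submodule.sub_projection_mem hW.symm _) _), ?_⟩
    rw [sub1_per_smul]
    simp only [Function.comp, b, smul_smul, mul_assoc, mul_inv_cancel₀ (hnorm (φ k)).ne', mul_one,
      Int.cast_smul_eq_zsmul, smul_sub]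
    abel

variable {A : AbVar g N} {w : Fin (2 * g) → Fin m → ℂ} {τ : Type} {S : Sys (LG g m) (τ ⊕ Fin m)}

theorem Fib.per_mem (F : Fib A w S) {H : Set (LG g m)} (hH : S.Mon H) (n : Fin (2 * g) → ℤ) :
    (A.per n, -∑ j, n j • w j) ∈ H := by
  refine hH.cl fun Ψ hΨ h0 => ?_
  let G : AddSubgroup (LG g m) :=
    { carrier := {v | ∀ p, Ψ.1 (p + v) = 0 ↔ Ψ.1 p = 0}
      add_mem' := fun {a b} ha hb p => by rw [← add_assoc, hb, ha]
      zero_mem' := fun p => by rw [add_zero]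
      neg_mem' := fun {a} ha p => by
        have := ha (p + -a)
        rw [neg_add_cancel_right] at this
        exact this.symm }
  have hG : ∑ j, n j • ((A.ω j, -w j) : LG g m) ∈ G :=
    sum_mem fun j _ => zsmul_mem (show ((A.ω j, -w j) : LG g m) ∈ G from F.aut Ψ hΨ j) _
  have e : ∑ j, n j • ((A.ω j, -w j) : LG g m) = (A.per n, -∑ j, n j • w j) := by
    ext1
    · simp [Prod.fst_sum, AbVar.per]
    · simp [Prod.snd_sum]
  have := (hG 0).2 (h0 0 hH.zero)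
  rwa [zero_add, e] at this

theorem Fib.vert_mem (F : Fib A w S) {H : Set (LG g m)} (hH : S.Mon H) {s : Fin m → ℂ}
    (hs : (0, s) ∈ H) : (0, s) ∈ S.tg H := by
  intro Ψ hΨ h0
  have hk : ∀ k : ℕ, ((0, (k : ℂ) • s) : LG g m) ∈ H := by
    intro k
    induction k with
    | zero =>
      rw [Nat.cast_zero, zero_smul]
      exact hH.zero
    | succ k ih =>
      have := hH.add _ ih _ hs
      simpa [add_smul] using this
  have ht := F.vert Ψ hΨ s fun k => h0 _ (hk k)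
  have h1 : HasDerivAt (fun t : ℂ => t • ((0, s) : LG g m)) (0, s) 0 := by
    simpa using (hasDerivAt_id (0 : ℂ)).smul_const ((0, s) : LG g m)
  have h2 : HasFDerivAt Ψ.1 (fderiv ℂ Ψ.1 0) ((0 : ℂ) • ((0, s) : LG g m)) := by
    rw [zero_smul]
    exact (Ent.diff Ψ 0).hasFDerivAt
  have h3 := h2.comp_hasDerivAt (0 : ℂ) h1
  have h4 : (Ψ.1 ∘ fun t : ℂ => t • ((0, s) : LG g m)) = fun _ => 0 := by
    funext t
    simpa using ht t
  rw [h4] at h3
  exact h3.unique (hasDerivAt_const _ _)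

end GPC73

end

section

/-! Linear algebra of the rational subspace. -/

open Module

namespace GPC73

variable {g N : ℕ} (A : AbVar g N)

/-- A basis with integer entries. -/
theorem lin_basis {ι : Type} [Fintype ι] (V : Submodule ℚ (ι → ℚ)) :
    ∃ ℓ : ι → Fin (finrank ℚ V) → ℤ, LinearIndependent ℚ (fun l j => (ℓ j l : ℚ)) ∧
      Submodule.span ℚ (Set.range fun l j => (ℓ j l : ℚ)) = V := by
  let b := Module.finBasis ℚ V
  obtain ⟨d, hd⟩ := IsLocalization.exist_integer_multiples_of_finite (nonZeroDivisors ℤ)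
    (fun p : Fin (finrank ℚ V) × ι => (b p.1 : ι → ℚ) p.2)
  choose z hz using hd
  have hd0 : ((d : ℤ) : ℚ) ≠ 0 := by exact_mod_cast nonZeroDivisors.coe_ne_zero d
  have he : (fun l j => (z (l, j) : ℚ)) = fun l => ((d : ℤ) : ℚ) • (b l : ι → ℚ) := by
    funext l j
    have := hz (l, j)
    simpa using this
  have hi : LinearIndependent ℚ (fun l j => (z (l, j) : ℚ)) := by
    rw [he]
    exact (b.linearIndependent.map' V.subtype V.ker_subtype).units_smul fun _ => Units.mk0 _ hd0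
  refine ⟨fun j l => z (l, j), hi, Submodule.eq_of_le_of_finrank_eq ?_ ?_⟩
  · rw [he, Submodule.span_le]
    rintro _ ⟨l, rfl⟩
    exact V.smul_mem _ (b l).2
  · rw [finrank_span_eq_card hi, Fintype.card_fin]

theorem lin_cast {ι κ : Type} [Finite κ] {v : ι → κ → ℚ} (h : LinearIndependent ℚ v) :
    LinearIndependent ℂ (fun l j => (v l j : ℂ)) := by
  have := (linearIndependent_algebraMap_comp_iff (S := ℂ) (v := v)).2 h
  have e : (fun l j => (v l j : ℂ)) = fun i => algebraMap ℚ ℂ ∘ v i := by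
    funext l j
    simp
  rw [e]
  exact this

theorem lin_span {ι κ : Type} (v : ι → κ → ℚ) :
    Submodule.span ℂ ((fun (v : κ → ℚ) j => (v j : ℂ)) '' Submodule.span ℚ (Set.range v)) =
      Submodule.span ℂ (Set.range fun l j => (v l j : ℂ)) := by
  refine le_antisymm (Submodule.span_le.2 ?_) (Submodule.span_mono ?_)
  · rintro _ ⟨x, hx, rfl⟩
    induction hx using Submodule.span_induction with
    | mem x hx =>
      obtain ⟨l, rfl⟩ := hx
      exact Submodule.subset_span ⟨l, rfl⟩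
    | zero =>
      have : (fun j => (((0 : κ → ℚ) j : ℚ) : ℂ)) = 0 := by funext j; simp
      beta_reduce
      rw [this]
      exact Submodule.zero_mem _
    | add x y _ _ hx hy =>
      have : (fun j => (((x + y) j : ℚ) : ℂ)) = (fun j => (x j : ℂ)) + fun j => (y j : ℂ) := by
        funext j; simp
      beta_reduce
      rw [this]
      exact Submodule.add_mem _ hx hy
    | smul c x _ hx =>
      have : (fun j => (((c • x) j : ℚ) : ℂ)) = (c : ℂ) • fun j => (x j : ℂ) := by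
        funext j; simp
      beta_reduce
      rw [this]
      exact Submodule.smul_mem _ _ hx
  · rintro _ ⟨l, rfl⟩
    exact ⟨v l, Submodule.subset_span ⟨l, rfl⟩, rfl⟩

/-- The orthogonal of a set of vectors, seen in an independent family. -/
theorem lin_orth {ι : Type} [Fintype ι] {m : ℕ} {v : Fin m → ι → ℚ} (hv : LinearIndependent ℚ v)
    (T : Set (Fin m → ℚ)) (W : Submodule ℚ (ι → ℚ))
    (h : ∀ c : Fin m → ℚ, (∀ t ∈ T, t ⬝ᵥ c = 0) → ∑ l, c l • v l ∈ W) :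
    m ≤ finrank ℚ (Submodule.span ℚ T) + finrank ℚ W := by
  obtain ⟨f, -, hf, -⟩ := Submodule.exists_fun_fin_finrank_span_eq ℚ T
  have h1 := LinearMap.finrank_range_add_finrank_ker (Matrix.mulVecLin (Matrix.of f))
  have h2 := Submodule.finrank_le (LinearMap.range (Matrix.mulVecLin (Matrix.of f)))
  rw [Module.finrank_fin_fun] at h1 h2
  have h3 := LinearEquiv.finrank_eq (Submodule.equivMapOfInjective (Fintype.linearCombination ℚ v)
    hv.fintypeLinearCombination_injective (LinearMap.ker (Matrix.mulVecLin (Matrix.of f))))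
  have h4 : (LinearMap.ker (Matrix.mulVecLin (Matrix.of f))).map (Fintype.linearCombination ℚ v) ≤
      W := by
    rintro _ ⟨c, hc, rfl⟩
    refine h c fun t ht => ?_
    have ht' : t ∈ Submodule.span ℚ (Set.range f) := by
      rw [hf]
      exact Submodule.subset_span ht
    clear ht
    induction ht' using Submodule.span_induction with
    | mem x hx =>
      obtain ⟨l, rfl⟩ := hx
      exact congrFun (LinearMap.mem_ker.1 hc) l
    | zero => exact zero_dotProduct _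
    | add x y _ _ hx hy => rw [add_dotProduct, hx, hy, add_zero]
    | smul a x _ hx => rw [smul_dotProduct, hx, smul_zero]
  have h5 := Submodule.finrank_mono h4
  omega

theorem lin_rank {m : ℕ} (T : Set (Fin m → ℚ)) (T' : Set (Fin m → ℂ))
    {M : Matrix (Fin m) (Fin m) ℂ} (hM : IsUnit M)
    (h : ∀ t ∈ T, M.mulVec (fun l => (t l : ℂ)) ∈ T') :
    finrank ℚ (Submodule.span ℚ T) ≤ finrank ℂ (Submodule.span ℂ T') := by
  obtain ⟨f, hf, -, hi⟩ := Submodule.exists_fun_fin_finrank_span_eq ℚ T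
  have h1 := (lin_cast hi).map' M.mulVecLin
    (LinearMap.ker_eq_bot.2 (Matrix.mulVec_injective_iff_isUnit.2 hM))
  have h2 := finrank_span_eq_card h1
  rw [Fintype.card_fin] at h2
  refine h2.ge.trans (Submodule.finrank_mono (Submodule.span_mono ?_))
  rintro _ ⟨l, rfl⟩
  exact h _ (hf l)

/-- Let `m = finrank V`, and `v l` a `ℚ`-basis of `V` scaled to have integer entries
`v l j = ℓ j l`.  It stays independent over `ℂ` (`linearIndependent_algebraMap_comp_iff`), so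
`Vc = span ℂ (cast '' V)` has dimension `m`; `S ∩ Vc` spans `Vc`, extract a basis `u l`
(`exists_linearIndependent`) and write `u l = ∑ l', M l l' • v l'`, `w j l = u l j`; `M` is
invertible.  `top`: a linear form killing all `w j` gives a relation between the `u l`.  `sub`: let
`Σ ≤ ℚ^m` be the span of the `ℓ(n) = ∑ n j • ℓ j`, `per n ∈ U`; the map `c ↦ ∑ c l • v l` sends the
orthogonal of `Σ` injectively into `V ⊓ ann U`, so `m ≤ finrank Σ + finrank (V ⊓ ann U)`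
(`Subspace.finrank_add_finrank_dualAnnihilator_eq` or a kernel computation), and a `ℚ`-independent
family of `ℓ(n)` gives a `ℂ`-independent family of `w(n) = M ℓ(n)`. -/
theorem exists_wd (V : Submodule ℚ (Fin (2 * g) → ℚ)) (hV : V ≠ ⊥)
    (hU : ∀ U : Submodule ℂ (Fin g → ℂ), U ≠ ⊤ → A.IsSub U →
      finrank ℚ (V ⊓ A.ann U : Submodule ℚ _) + finrank ℂ U < g)
    (S : Set (Fin (2 * g) → ℂ))
    (hS : ∀ v ∈ V, (fun j => (v j : ℂ)) ∈ Submodule.span ℂ
      (S ∩ Submodule.span ℂ ((fun (v : Fin (2 * g) → ℚ) j => (v j : ℂ)) '' V))) :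
    ∃ (m : ℕ) (w : Fin (2 * g) → Fin m → ℂ) (ℓ : Fin (2 * g) → Fin m → ℤ)
      (M : Matrix (Fin m) (Fin m) ℂ), Wd A w ∧ (∀ j, w j = M.mulVec fun l => (ℓ j l : ℂ)) ∧
        ∀ l, (fun j => w j l) ∈ S := by
  obtain ⟨ℓ, hi, hs⟩ := lin_basis V
  have hpos : 1 ≤ finrank ℚ V := Nat.one_le_iff_ne_zero.2 fun h => hV (Submodule.finrank_eq_zero.1 h)
  generalize finrank ℚ V = m at ℓ hi hs hpos
  have hc := lin_cast hi
  have hVc := lin_span (fun l j => (ℓ j l : ℚ))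
  rw [hs] at hVc
  rw [hVc] at hS
  set Vc := Submodule.span ℂ (Set.range fun l j => ((ℓ j l : ℚ) : ℂ)) with hVd
  have hT : Submodule.span ℂ (S ∩ Vc) = Vc := by
    refine le_antisymm (Submodule.span_le.2 Set.inter_subset_right) (Submodule.span_le.2 ?_)
    rintro _ ⟨l, rfl⟩
    exact hS _ (hs ▸ Submodule.subset_span ⟨l, rfl⟩)
  have hm : finrank ℂ (Submodule.span ℂ (S ∩ Vc)) = m := by
    rw [hT, hVd, finrank_span_eq_card hc, Fintype.card_fin]
  obtain ⟨u, hu, -, hui⟩ : ∃ u : Fin m → Fin (2 * g) → ℂ, (∀ l, u l ∈ S ∩ Vc) ∧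
      Submodule.span ℂ (Set.range u) = Submodule.span ℂ (S ∩ Vc) ∧ LinearIndependent ℂ u := by
    rw [← hm]
    exact Submodule.exists_fun_fin_finrank_span_eq ℂ _
  choose M hM using fun l => (Submodule.mem_span_range_iff_exists_fun ℂ).1 (hu l).2
  have hw : ∀ j, (fun l => u l j) = (Matrix.of M).mulVec fun l => (ℓ j l : ℂ) := fun j => by
    funext l
    rw [← hM l]
    simp [Matrix.mulVec, dotProduct]
  have hMu : IsUnit (Matrix.of M) := by
    rw [← Matrix.linearIndependent_rows_iff_isUnit]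
    refine LinearIndependent.of_comp (Fintype.linearCombination ℂ fun l j => ((ℓ j l : ℚ) : ℂ)) ?_
    rw [← funext hM] at hui
    exact hui
  refine ⟨m, fun j l => u l j, ℓ, Matrix.of M, ⟨hpos, ?_, fun U hU1 hU2 => ?_⟩, hw,
    fun l => (hu l).1⟩
  · refine Submodule.eq_top_of_finrank_eq ?_
    have h1 := Matrix.rank_eq_finrank_span_row (Matrix.of fun j l => u l j)
    have h2 := Matrix.rank_eq_finrank_span_cols (Matrix.of fun j l => u l j)
    have h3 := finrank_span_eq_card hui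
    rw [Fintype.card_fin] at h3
    rw [Module.finrank_fin_fun]
    exact h1.symm.trans (h2.trans h3)
  · have h1 := lin_orth hi {s | ∃ n, A.per n ∈ U ∧ s = fun l => ∑ j, (n j : ℚ) * ℓ j l}
      (V ⊓ A.ann U) fun c hc => by
        refine ⟨hs ▸ Submodule.sum_mem _ fun l _ =>
          Submodule.smul_mem _ _ (Submodule.subset_span ⟨l, rfl⟩), fun n hn => ?_⟩
        rw [← hc _ ⟨n, hn, rfl⟩]
        simp only [Finset.sum_apply, Pi.smul_apply, smul_eq_mul, dotProduct, Finset.mul_sum,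
          Finset.sum_mul]
        rw [Finset.sum_comm]
        exact Finset.sum_congr rfl fun l _ => Finset.sum_congr rfl fun j _ => by ring
    have h2 := lin_rank {s | ∃ n, A.per n ∈ U ∧ s = fun l => ∑ j, (n j : ℚ) * ℓ j l}
      {s : Fin m → ℂ | ∃ n, A.per n ∈ U ∧ s = ∑ j, n j • fun l => u l j} hMu (by
        rintro _ ⟨n, hn, rfl⟩
        refine ⟨n, hn, ?_⟩
        simp only [hw, ← Matrix.mulVec_smul, ← Matrix.mulVec_sum]
        congr 1
        funext l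
        simp)
    have h3 := hU U hU1 hU2
    omega

end GPC73

end

end

-- part MP_57341d_ag.H73.Gx
section

section

/-! The vector extension attached to a family of differentials of the second kind. -/

open MvPolynomial GPC96

namespace GPC73

variable {g N m : ℕ}

/-- Functions `W l = H l / B`, `B = q(θ)`, with additive periods `w`; `q` is a common denominator
for all derivatives. -/
structure Gx (A : AbVar g N) (m : ℕ) where
  k : Fin (N + 1)
  e : ℕ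
  q : MvPolynomial (Fin (N + 1)) ℂ
  p : Fin g → Fin (N + 1) → MvPolynomial (Fin (N + 1)) ℂ
  r : Fin g → Fin m → MvPolynomial (Fin (N + 1)) ℂ
  H : Fin m → (Fin g → ℂ) → ℂ
  w : Fin (2 * g) → Fin m → ℂ
  e_pos : 1 ≤ e
  hq : q.IsHomogeneous e
  hp : ∀ j i, (p j i).IsHomogeneous e
  hr : ∀ j l, (r j l).IsHomogeneous e
  ne : ∃ z, A.θ k z ≠ 0 ∧ eval (fun i => A.θ i z) q ≠ 0
  hol : ∀ l, AnalyticOnNhd ℂ (H l) Set.univ
  dx : ∀ j i z, eval (fun i => A.θ i z) q * (A.θ k z * pd j (A.θ i) z - A.θ i z * pd j (A.θ k) z) =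
    eval (fun i => A.θ i z) (p j i) * A.θ k z ^ 2
  dW : ∀ j l z, eval (fun i => A.θ i z) q * pd j (H l) z -
    H l z * pd j (fun z => eval (fun i => A.θ i z) q) z =
      eval (fun i => A.θ i z) (r j l) * eval (fun i => A.θ i z) q
  aut : ∀ j l z, H l (z + A.ω j) = Complex.exp (e * (A.a j z + A.b j)) *
    (H l z + w j l * eval (fun i => A.θ i z) q)

/-- Polynomial growth of degree `D` in the fibre, locally uniformly in the base. -/
def Gr (D : ℕ) (Ψ : LG g m → ℂ) : Prop :=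
  ∀ R : ℝ, ∃ C : ℝ, ∀ z s, ‖z‖ ≤ R → ‖Ψ (z, s)‖ ≤ C * (1 + ‖s‖) ^ D

/-- Automorphy of weight `n`. -/
def Aut (A : AbVar g N) (w : Fin (2 * g) → Fin m → ℂ) (n : ℕ) (Ψ : LG g m → ℂ) : Prop :=
  ∀ j p, Ψ (p + (A.ω j, -w j)) = Complex.exp (n * (A.a j p.1 + A.b j)) * Ψ p

theorem Gr.add {D : ℕ} {Ψ Φ : LG g m → ℂ} (h : Gr D Ψ) (h' : Gr D Φ) : Gr D (Ψ + Φ) := fun R => by
  obtain ⟨C, hC⟩ := h R
  obtain ⟨C', hC'⟩ := h' R
  exact ⟨C + C', fun z s hz => (norm_add_le _ _).trans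
    ((add_le_add (hC z s hz) (hC' z s hz)).trans_eq (add_mul _ _ _).symm)⟩

theorem Gr.smul {D : ℕ} {Ψ : LG g m → ℂ} (c : ℂ) (h : Gr D Ψ) : Gr D (c • Ψ) := fun R => by
  obtain ⟨C, hC⟩ := h R
  refine ⟨‖c‖ * C, fun z s hz => ?_⟩
  rw [Pi.smul_apply, norm_smul, mul_assoc]
  exact mul_le_mul_of_nonneg_left (hC z s hz) (norm_nonneg _)

/-- The variables of the chart. -/
abbrev Vr (N m : ℕ) : Type := Option (Fin (N + 1)) ⊕ Fin m

namespace Gx

variable {A : AbVar g N} (G : Gx A m)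

/-- The denominator. -/
noncomputable def B (z : Fin g → ℂ) : ℂ := eval (fun i => A.θ i z) G.q

/-- Sections of degree `D`. -/
def T (D : ℕ) : Submodule ℂ (Ent (LG g m)) where
  carrier := {Ψ | Aut A G.w D Ψ.1 ∧ Gr D Ψ.1}
  add_mem' := fun {Ψ Φ} h h' => ⟨fun j p => by
    have h1 := h.1 j p
    have h2 := h'.1 j p
    show Ψ.1 _ + Φ.1 _ = _ * (Ψ.1 _ + Φ.1 _)
    rw [h1, h2, ← mul_add], h.2.add h'.2⟩
  zero_mem' := ⟨fun _ _ => by simp, fun _ => ⟨0, fun _ _ _ => by simp⟩⟩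
  smul_mem' := fun c Ψ h => ⟨fun j p => by
    have h1 := h.1 j p
    show c * Ψ.1 _ = _ * (c * Ψ.1 _)
    rw [h1, mul_left_comm], h.2.smul c⟩

/-- `θ i` on the extension. -/
noncomputable def th (_G : Gx A m) (i : Fin (N + 1)) : Ent (LG g m) :=
  ⟨fun p => A.θ i p.1, fun p _ => (A.hol i p.1 trivial).comp analyticAt_fst⟩

/-- `B` on the extension. -/
noncomputable def bb : Ent (LG g m) :=
  ⟨fun p => G.B p.1, fun p _ => (an_eval A.θ A.hol G.q p.1 trivial).comp analyticAt_fst⟩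

/-- The numerator `H l + s l * B` of the fibre coordinate. -/
noncomputable def yy (l : Fin m) : Ent (LG g m) :=
  ⟨fun p => G.H l p.1 + p.2 l * G.B p.1, fun p _ => ((G.hol l p.1 trivial).comp analyticAt_fst).add
    ((((ContinuousLinearMap.proj l : (Fin m → ℂ) →L[ℂ] ℂ).analyticAt _).comp analyticAt_snd).mul
      (G.bb.2 p trivial))⟩

/-- The chart functions `θ i / θ k`, `θ k ^ e / B`, `H l / B + s l`. -/
noncomputable def ξ : Vr N m → LG g m → ℂ
  | Sum.inl (some i), p => A.θ i p.1 / A.θ G.k p.1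
  | Sum.inl none, p => A.θ G.k p.1 ^ G.e / G.B p.1
  | Sum.inr l, p => G.H l p.1 / G.B p.1 + p.2 l

/-- The chart is the set where `η ≠ 0`. -/
noncomputable def η : Ent (LG g m) := G.th G.k * G.bb

/-- Polynomials in the `θ i / θ k`. -/
noncomputable def ren (f : MvPolynomial (Fin (N + 1)) ℂ) : MvPolynomial (Vr N m) ℂ :=
  rename (fun i => Sum.inl (some i)) f

/-- The derivatives of the chart functions in the direction `(e_j, 0)`. -/
noncomputable def dP (j : Fin g) : Vr N m → MvPolynomial (Vr N m) ℂ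
  | Sum.inl (some i) => ren (G.p j i) * X (Sum.inl none)
  | Sum.inl none => -(X (Sum.inl none) ^ 3 * ∑ i, ren (pderiv i G.q) * ren (G.p j i))
  | Sum.inr l => ren (G.r j l) * X (Sum.inl none)

theorem gx_hom {σ : Type} {f : MvPolynomial σ ℂ} {n : ℕ} (hf : f.IsHomogeneous n) (c : ℂ)
    (x : σ → ℂ) : eval (fun i => c * x i) f = c ^ n * eval x f := by
  rw [eval_eq, eval_eq, Finset.mul_sum]
  refine Finset.sum_congr rfl fun d hd => ?_
  rw [hf.degree_eq_sum_deg_support hd]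
  simp only [mul_pow, Finset.prod_mul_distrib, Finset.prod_pow_eq_pow_sum]
  ring

theorem gx_bound {f : (Fin g → ℂ) → ℂ} (hf : AnalyticOnNhd ℂ f Set.univ) (R : ℝ) :
    ∃ C : ℝ, 0 ≤ C ∧ ∀ z, ‖z‖ ≤ R → ‖f z‖ ≤ C := by
  have hc : Continuous f := continuousOn_univ.1 hf.continuousOn
  obtain ⟨C, hC⟩ := (isCompact_closedBall (0 : Fin g → ℂ) R).exists_bound_of_continuousOn
    hc.continuousOn
  exact ⟨max C 0, le_max_right _ _, fun z hz =>
    (hC z (mem_closedBall_zero_iff.2 hz)).trans (le_max_left _ _)⟩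

theorem gx_gr {f : (Fin g → ℂ) → ℂ} (hf : AnalyticOnNhd ℂ f Set.univ) (D : ℕ) :
    Gr D (fun p : LG g m => f p.1) := fun R => by
  obtain ⟨C, h0, hC⟩ := gx_bound hf R
  refine ⟨C, fun z s hz => (hC z hz).trans (le_mul_of_one_le_right h0 (one_le_pow₀ ?_))⟩
  exact le_add_of_nonneg_right (norm_nonneg _)

theorem gx_an_B : AnalyticOnNhd ℂ G.B Set.univ := an_eval A.θ A.hol G.q

theorem gx_B_aut (j : Fin (2 * g)) (z : Fin g → ℂ) :
    G.B (z + A.ω j) = Complex.exp (G.e * (A.a j z + A.b j)) * G.B z := by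
  simp only [B, A.aut]
  rw [gx_hom G.hq, Complex.exp_nat_mul]

theorem th_mem (i : Fin (N + 1)) : G.th i ∈ G.T 1 := by
  refine ⟨fun j p => ?_, gx_gr (A.hol i) 1⟩
  show A.θ i (p.1 + A.ω j) = _ * A.θ i p.1
  rw [A.aut, Nat.cast_one, one_mul]

theorem bb_mem : G.bb ∈ G.T G.e :=
  ⟨fun j p => G.gx_B_aut j p.1, gx_gr G.gx_an_B _⟩

theorem yy_mem (l : Fin m) : G.yy l ∈ G.T G.e := by
  refine ⟨fun j p => ?_, fun R => ?_⟩
  · show G.H l (p.1 + A.ω j) + (p.2 l + -G.w j l) * G.B (p.1 + A.ω j) =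
      _ * (G.H l p.1 + p.2 l * G.B p.1)
    rw [G.aut, G.gx_B_aut]
    simp only [B]
    ring
  · obtain ⟨C, h0, hC⟩ := gx_bound (G.hol l) R
    obtain ⟨C', h0', hC'⟩ := gx_bound G.gx_an_B R
    refine ⟨C + C', fun z s hz => ?_⟩
    show ‖G.H l z + s l * G.B z‖ ≤ _
    have h1 : ‖s l * G.B z‖ ≤ ‖s‖ * C' := by
      rw [norm_mul]
      exact mul_le_mul (norm_le_pi_norm s l) (hC' z hz) (norm_nonneg _) (norm_nonneg _)
    have h2 : 1 + ‖s‖ ≤ (1 + ‖s‖) ^ G.e :=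
      le_self_pow₀ (le_add_of_nonneg_right (norm_nonneg _)) (Nat.one_le_iff_ne_zero.1 G.e_pos)
    have h3 := norm_add_le (G.H l z) (s l * G.B z)
    have h4 := hC z hz
    have h5 := mul_le_mul_of_nonneg_left h2 (add_nonneg h0 h0')
    have h6 := mul_nonneg h0 (norm_nonneg s)
    nlinarith

theorem one_mem : 1 ∈ G.T 0 := by
  refine ⟨fun j p => ?_, fun _ => ⟨1, fun z s _ => ?_⟩⟩
  · show (1 : ℂ) = _ * 1
    simp
  · show ‖(1 : ℂ)‖ ≤ _
    simp

theorem mul_mem {a b : ℕ} {f h : Ent (LG g m)} (hf : f ∈ G.T a) (hh : h ∈ G.T b) :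
    f * h ∈ G.T (a + b) := by
  refine ⟨fun j p => ?_, fun R => ?_⟩
  · have h1 := hf.1 j p
    have h2 := hh.1 j p
    show f.1 _ * h.1 _ = _ * (f.1 _ * h.1 _)
    rw [h1, h2, Nat.cast_add, add_mul (a : ℂ), Complex.exp_add]
    ring
  · obtain ⟨C, hC⟩ := hf.2 R
    obtain ⟨C', hC'⟩ := hh.2 R
    refine ⟨C * C', fun z s hz => ?_⟩
    show ‖f.1 (z, s) * h.1 (z, s)‖ ≤ _
    rw [norm_mul, pow_add, mul_mul_mul_comm]
    exact mul_le_mul (hC z s hz) (hC' z s hz) (norm_nonneg _) ((norm_nonneg _).trans (hC z s hz))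

theorem gx_ne {p : LG g m} (hp : G.η.1 p ≠ 0) : A.θ G.k p.1 ≠ 0 ∧ G.B p.1 ≠ 0 :=
  mul_ne_zero_iff.1 hp

theorem an_ξ (i : Vr N m) : AnalyticOnNhd ℂ (G.ξ i) {p | G.η.1 p ≠ 0} := by
  intro p hp
  obtain ⟨hk, hB⟩ := G.gx_ne hp
  rcases i with (_ | i) | l
  · exact (((G.th G.k).2 p trivial).pow G.e).div (G.bb.2 p trivial) hB
  · exact ((G.th i).2 p trivial).div ((G.th G.k).2 p trivial) hk
  · exact (((G.hol l p.1 trivial).comp analyticAt_fst).div (G.bb.2 p trivial) hB).add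
      (((ContinuousLinearMap.proj l : (Fin m → ℂ) →L[ℂ] ℂ).analyticAt _).comp analyticAt_snd)

theorem gx_fst {f : (Fin g → ℂ) → ℂ} {p : LG g m} (hf : DifferentiableAt ℂ f p.1) (j : Fin g) :
    fderiv ℂ (fun q : LG g m => f q.1) p (Pi.single j 1, 0) = pd j f p.1 := by
  have := (hf.hasFDerivAt.comp p hasFDerivAt_fst).fderiv
  rw [show (fun q : LG g m => f q.1) = f ∘ Prod.fst from rfl, this]
  rfl

theorem gx_inv {h : (Fin g → ℂ) → ℂ} {z : Fin g → ℂ} (hh : DifferentiableAt ℂ h z) (h0 : h z ≠ 0)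
    (j : Fin g) : pd j (fun z => (h z)⁻¹) z = -(pd j h z / h z ^ 2) := by
  have := ((hasDerivAt_inv h0).comp_hasFDerivAt z hh.hasFDerivAt).fderiv
  unfold pd
  rw [show (fun z => (h z)⁻¹) = (fun y : ℂ => y⁻¹) ∘ h from rfl, this]
  simp only [_root_.smul_apply, smul_eq_mul]
  ring

theorem gx_div {f h : (Fin g → ℂ) → ℂ} {z : Fin g → ℂ} (hf : DifferentiableAt ℂ f z)
    (hh : DifferentiableAt ℂ h z) (h0 : h z ≠ 0) (j : Fin g) :
    pd j (fun z => f z / h z) z = (h z * pd j f z - f z * pd j h z) / h z ^ 2 := by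
  have h1 := gx_inv hh h0 j
  have h2 : DifferentiableAt ℂ (fun z => (h z)⁻¹) z := hh.inv h0
  unfold pd at h1 ⊢
  rw [show (fun z => f z / h z) = f * fun z => (h z)⁻¹ from funext fun z => div_eq_mul_inv _ _,
    fderiv_mul hf h2]
  simp only [_root_.add_apply, _root_.smul_apply, smul_eq_mul, h1]
  field_simp
  ring

theorem gx_ddiv {f h : (Fin g → ℂ) → ℂ} {z : Fin g → ℂ} (hf : DifferentiableAt ℂ f z)
    (hh : DifferentiableAt ℂ h z) (h0 : h z ≠ 0) : DifferentiableAt ℂ (fun z => f z / h z) z := by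
  simp only [div_eq_mul_inv]
  exact hf.mul (hh.inv h0)

theorem gx_chain {σ : Type} [Fintype σ] {x : σ → (Fin g → ℂ) → ℂ} {z : Fin g → ℂ}
    (hx : ∀ i, DifferentiableAt ℂ (x i) z) (j : Fin g) (f : MvPolynomial σ ℂ) :
    DifferentiableAt ℂ (fun z => eval (fun i => x i z) f) z ∧
      pd j (fun z => eval (fun i => x i z) f) z =
        ∑ i, eval (fun i => x i z) (pderiv i f) * pd j (x i) z := by
  classical
  induction f using MvPolynomial.induction_on with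
  | C c => simp [pd]
  | add f h hf hh =>
    simp only [map_add, add_mul, Finset.sum_add_distrib]
    refine ⟨hf.1.add hh.1, ?_⟩
    rw [← hf.2, ← hh.2]
    unfold pd
    rw [fderiv_fun_add hf.1 hh.1]
    rfl
  | mul_X f i hf =>
    simp only [map_mul, eval_X]
    refine ⟨hf.1.mul (hx i), ?_⟩
    have h2 := hf.2
    unfold pd at h2 ⊢
    rw [fderiv_fun_mul hf.1 (hx i)]
    simp only [_root_.add_apply, _root_.smul_apply, smul_eq_mul, h2,
      Derivation.leibniz, map_add, map_mul, eval_X, add_mul, Finset.sum_add_distrib, pderiv_X,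
      Finset.mul_sum]
    congr 1
    · rw [Finset.sum_eq_single i (fun k _ hk => by simp [Pi.single_eq_of_ne hk.symm])
        (fun hi => absurd (Finset.mem_univ i) hi)]
      simp
    · exact Finset.sum_congr rfl fun k _ => by ring

theorem gx_ren (p : LG g m) (f : MvPolynomial (Fin (N + 1)) ℂ) :
    eval (fun i => G.ξ i p) (ren f) = eval (fun i => A.θ i p.1 / A.θ G.k p.1) f := by
  rw [ren, eval_rename]
  rfl

theorem gx_ev {f : MvPolynomial (Fin (N + 1)) ℂ} (hf : f.IsHomogeneous G.e) (z : Fin g → ℂ) :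
    eval (fun i => A.θ i z / A.θ G.k z) f = eval (fun i => A.θ i z) f / A.θ G.k z ^ G.e := by
  simp only [div_eq_inv_mul]
  rw [gx_hom hf, inv_pow]

theorem gx_dθ (i : Fin (N + 1)) (z : Fin g → ℂ) : DifferentiableAt ℂ (A.θ i) z :=
  (A.hol i z trivial).differentiableAt

theorem gx_dx (j : Fin g) (i : Fin (N + 1)) {z : Fin g → ℂ} (hk : A.θ G.k z ≠ 0)
    (hB : G.B z ≠ 0) : pd j (fun z => A.θ i z / A.θ G.k z) z =
      eval (fun i => A.θ i z / A.θ G.k z) (G.p j i) * (A.θ G.k z ^ G.e / G.B z) := by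
  have h1 := G.dx j i z
  rw [gx_div (gx_dθ i z) (gx_dθ G.k z) hk, G.gx_ev (G.hp j i)]
  change G.B z * _ = _ at h1
  field_simp
  linear_combination h1

/-- For a form `f` of degree `e`, `ren f` evaluates to `f(θ) / θ k ^ e`.  For the variable `none`
differentiate `u * q(x) = 1` (chain rule for `eval`, by `MvPolynomial.induction_on` or `evP_der`). -/
theorem der_ξ (j : Fin g) (i : Vr N m) (p : LG g m) (hp : G.η.1 p ≠ 0) :
    fderiv ℂ (G.ξ i) p (Pi.single j 1, 0) = eval (fun i => G.ξ i p) (G.dP j i) := by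
  obtain ⟨hk, hB⟩ := G.gx_ne hp
  have hBd : DifferentiableAt ℂ G.B p.1 := (G.gx_an_B p.1 trivial).differentiableAt
  rcases i with (_ | i) | l
  · have hx : ∀ i, DifferentiableAt ℂ (fun z => A.θ i z / A.θ G.k z) p.1 := fun i =>
      gx_ddiv (gx_dθ i _) (gx_dθ G.k _) hk
    have hq : ∀ z, (eval (fun i => A.θ i z / A.θ G.k z) G.q)⁻¹ = A.θ G.k z ^ G.e / G.B z :=
      fun z => by rw [G.gx_ev G.hq, inv_div]; rfl
    obtain ⟨h1, h2⟩ := gx_chain hx j G.q
    have h0 : eval (fun i => A.θ i p.1 / A.θ G.k p.1) G.q ≠ 0 := by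
      rw [G.gx_ev G.hq]
      exact div_ne_zero hB (pow_ne_zero _ hk)
    have h3 := gx_inv h1 h0 j
    have h4 : G.ξ (Sum.inl none) =
        fun q : LG g m => (eval (fun i => A.θ i q.1 / A.θ G.k q.1) G.q)⁻¹ :=
      funext fun q => (hq q.1).symm
    have h5 := gx_fst (m := m) (p := p) (h1.inv h0) j
    rw [h4]
    refine h5.trans (h3.trans ?_)
    rw [h2, div_eq_mul_inv, ← inv_pow, hq]
    simp only [dP, map_neg, map_mul, map_pow, map_sum, eval_X, gx_ren, G.gx_dx j _ hk hB]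
    rw [neg_inj, Finset.sum_mul, Finset.mul_sum]
    refine Finset.sum_congr rfl fun i _ => ?_
    simp only [ξ]
    ring
  · have h5 := gx_fst (m := m) (p := p) (gx_ddiv (gx_dθ (A := A) i p.1) (gx_dθ G.k p.1) hk) j
    refine h5.trans ((G.gx_dx j i hk hB).trans ?_)
    simp only [dP, map_mul, eval_X, gx_ren]
    rfl
  · have hH : DifferentiableAt ℂ (G.H l) p.1 := (G.hol l p.1 trivial).differentiableAt
    have h5 := gx_fst (m := m) (p := p) (gx_ddiv hH hBd hB) j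
    have h6 : HasFDerivAt (fun q : LG g m => q.2 l) ((ContinuousLinearMap.proj l :
        (Fin m → ℂ) →L[ℂ] ℂ).comp (ContinuousLinearMap.snd ℂ (Fin g → ℂ) (Fin m → ℂ))) p :=
      ((ContinuousLinearMap.proj l : (Fin m → ℂ) →L[ℂ] ℂ).comp
        (ContinuousLinearMap.snd ℂ (Fin g → ℂ) (Fin m → ℂ))).hasFDerivAt
    have h7 : DifferentiableAt ℂ (fun q : LG g m => G.H l q.1 / G.B q.1) p :=
      (gx_ddiv hH hBd hB).comp p differentiableAt_fst
    have h8 : G.ξ (Sum.inr l) = fun q : LG g m => G.H l q.1 / G.B q.1 + q.2 l := rfl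
    rw [h8, fderiv_fun_add h7 h6.differentiableAt, h6.fderiv, _root_.add_apply]
    have h9 : fderiv ℂ (fun q : LG g m => G.H l q.1 / G.B q.1) p (Pi.single j 1, 0) = _ :=
      h5.trans (gx_div hH hBd hB j)
    have h1 := G.dW j l p.1
    change G.B p.1 * _ - _ * pd j G.B p.1 = _ * G.B p.1 at h1
    rw [h9, h1]
    simp only [dP, map_mul, eval_X, gx_ren, G.gx_ev (G.hr j l)]
    simp only [ξ, ContinuousLinearMap.comp_apply, ContinuousLinearMap.coe_snd',
      ContinuousLinearMap.proj_apply, Pi.zero_apply, add_zero]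
    field_simp

end Gx

end GPC73

end

section

/-! The chart of the extension. -/

open MvPolynomial GPC96

namespace GPC73

theorem mk1_hom {σ : Type} {f : MvPolynomial σ ℂ} {d : ℕ} (hf : f.IsHomogeneous d) (c : ℂ)
    (x : σ → ℂ) : eval (fun i => c * x i) f = c ^ d * eval x f := by
  conv_lhs => rw [f.as_sum]
  conv_rhs => rw [f.as_sum]
  rw [map_sum, map_sum, Finset.mul_sum]
  refine Finset.sum_congr rfl fun α hα => ?_
  have h : ∑ i ∈ α.support, α i = d := by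
    rw [← hf (mem_support_iff.1 hα), Finsupp.weight_apply]
    simp [Finsupp.sum]
  rw [eval_monomial, eval_monomial]
  simp only [Finsupp.prod, mul_pow, Finset.prod_mul_distrib, Finset.prod_pow_eq_pow_sum, h]
  ring

theorem mk1_line {E : Type} [NormedAddCommGroup E] [NormedSpace ℂ E] {F : E → ℂ} {p : E}
    (hF : DifferentiableAt ℂ F p) (v : E) :
    HasDerivAt (fun t : ℂ => F (p + t • v)) (fderiv ℂ F p v) 0 := by
  have h1 : HasDerivAt (fun t : ℂ => p + t • v) v 0 := by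
    simpa using ((hasDerivAt_id (0 : ℂ)).smul_const v).const_add p
  have h2 : HasFDerivAt F (fderiv ℂ F p) (p + (0 : ℂ) • v) := by
    rw [zero_smul, add_zero]
    exact hF.hasFDerivAt
  exact h2.comp_hasDerivAt (0 : ℂ) h1

/-- Translations under which the sections are automorphic. -/
def mk1Grp {g N m : ℕ} (A : AbVar g N) (w : Fin (2 * g) → Fin m → ℂ) : AddSubgroup (LG g m) where
  carrier := {x | ∃ c : (Fin g → ℂ) → ℂ, (∀ z, c z ≠ 0) ∧ (∀ z i, A.θ i (z + x.1) = c z * A.θ i z) ∧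
    ∀ D Ψ, Aut A w D Ψ → ∀ p, Ψ (p + x) = c p.1 ^ D * Ψ p}
  zero_mem' := ⟨fun _ => 1, fun _ => one_ne_zero, fun z i => by simp, fun D Ψ _ p => by simp⟩
  add_mem' := by
    rintro x y ⟨c, h1, h2, h3⟩ ⟨c', h1', h2', h3'⟩
    refine ⟨fun z => c' (z + x.1) * c z, fun z => mul_ne_zero (h1' _) (h1 _), fun z i => ?_,
      fun D Ψ h p => ?_⟩
    · rw [Prod.fst_add, ← add_assoc, h2', h2, mul_assoc]
    · rw [← add_assoc, h3' D Ψ h, h3 D Ψ h, mul_pow, mul_assoc, Prod.fst_add]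
  neg_mem' := by
    rintro x ⟨c, h1, h2, h3⟩
    refine ⟨fun z => (c (z + -x.1))⁻¹, fun z => inv_ne_zero (h1 _), fun z i => ?_,
      fun D Ψ h p => ?_⟩
    · have := h2 (z + -x.1) i
      rw [neg_add_cancel_right] at this
      rw [this, inv_mul_cancel_left₀ (h1 _), Prod.fst_neg]
    · have := h3 D Ψ h (p + -x)
      rw [neg_add_cancel_right] at this
      rw [this, inv_pow, Prod.fst_add, Prod.fst_neg, inv_mul_cancel_left₀ (pow_ne_zero _ (h1 _))]

theorem mk1_per {g N m : ℕ} (A : AbVar g N) (w : Fin (2 * g) → Fin m → ℂ)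
    (n : Fin (2 * g) → ℤ) : ((A.per n, -∑ j, n j • w j) : LG g m) ∈ mk1Grp A w := by
  have h : ((A.per n, -∑ j, n j • w j) : LG g m) = ∑ j, n j • ((A.ω j, -w j) : LG g m) := by
    refine Prod.ext ?_ ?_
    · rw [Prod.fst_sum]
      rfl
    · rw [Prod.snd_sum, ← Finset.sum_neg_distrib]
      change ∑ j, -(n j • w j) = ∑ j, n j • -w j
      exact Finset.sum_congr rfl fun j _ => (smul_neg (n j) (w j)).symm
  rw [h]
  refine sum_mem fun j _ => zsmul_mem ?_ _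
  refine ⟨fun z => Complex.exp (A.a j z + A.b j), fun z => Complex.exp_ne_zero _,
    fun z i => A.aut i j z, fun D Ψ hΨ p => ?_⟩
  rw [hΨ j p, Complex.exp_nat_mul]

namespace Gx

variable {g N m : ℕ} {A : AbVar g N} (G : Gx A m)

theorem mk1_ne {p : LG g m} (hp : G.η.1 p ≠ 0) : A.θ G.k p.1 ≠ 0 ∧ G.B p.1 ≠ 0 :=
  mul_ne_zero_iff.1 hp

theorem mk1_ren {f : MvPolynomial (Fin (N + 1)) ℂ} {d : ℕ} (hf : f.IsHomogeneous d) (p : LG g m) :
    eval (fun i => G.ξ i p) (ren f) = (A.θ G.k p.1)⁻¹ ^ d * eval (fun i => A.θ i p.1) f := by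
  rw [ren, eval_rename, ← mk1_hom hf]
  congr 2
  funext i
  exact div_eq_inv_mul _ _

theorem mk1_inv {x : LG g m} (hx : x ∈ mk1Grp A G.w) {p : LG g m} (hp : G.η.1 p ≠ 0) :
    G.η.1 (p + x) ≠ 0 ∧ ∀ i, G.ξ i (p + x) = G.ξ i p := by
  obtain ⟨c, h1, h2, h3⟩ := hx
  obtain ⟨hk, hB⟩ := G.mk1_ne hp
  have hc := h1 p.1
  have hce := pow_ne_zero G.e hc
  have e1 : ∀ i, A.θ i (p + x).1 = c p.1 * A.θ i p.1 := h2 p.1
  have e2 : G.B (p + x).1 = c p.1 ^ G.e * G.B p.1 := h3 _ _ G.bb_mem.1 p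
  have e3 : ∀ l, G.H l (p + x).1 + (p + x).2 l * G.B (p + x).1 =
      c p.1 ^ G.e * (G.H l p.1 + p.2 l * G.B p.1) := fun l => h3 _ _ (G.yy_mem l).1 p
  refine ⟨?_, fun i => ?_⟩
  · change A.θ G.k (p + x).1 * G.B (p + x).1 ≠ 0
    rw [e1, e2]
    exact mul_ne_zero (mul_ne_zero hc hk) (mul_ne_zero hce hB)
  · rcases i with (_ | i) | l
    · change A.θ G.k (p + x).1 ^ G.e / G.B (p + x).1 = A.θ G.k p.1 ^ G.e / G.B p.1
      rw [e1, e2, mul_pow, mul_div_mul_left _ _ hce]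
    · change A.θ i (p + x).1 / A.θ G.k (p + x).1 = A.θ i p.1 / A.θ G.k p.1
      rw [e1, e1, mul_div_mul_left _ _ hc]
    · change G.H l (p + x).1 / G.B (p + x).1 + (p + x).2 l = G.H l p.1 / G.B p.1 + p.2 l
      rw [div_add' _ _ _ (e2 ▸ mul_ne_zero hce hB), e3, e2, mul_div_mul_left _ _ hce,
        div_add' _ _ _ hB]

/-- The vector `x i = χ (inl (some i))` has `x k = 1` and is killed by the forms of `A.alg` (map
them to `ℂ`), so `x = c • θ z`; the relation `u * q(x) = 1` gives `B z ≠ 0`; put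
`s l = χ (inr l) - H l z / B z`. -/
theorem ns (χ : Vr N m → ℂ) (h : ∀ f : MvPolynomial (Vr N m) ℂ,
    (∀ p, G.η.1 p ≠ 0 → eval (fun i => G.ξ i p) f = 0) → eval χ f = 0) :
    ∃ p, G.η.1 p ≠ 0 ∧ χ = fun i => G.ξ i p := by
  obtain ⟨S, hS, hS'⟩ := A.alg
  have h1 : χ (Sum.inl (some G.k)) = 1 := by
    have := h (X (Sum.inl (some G.k)) - 1) fun p hp => by
      rw [map_sub, eval_X, map_one]
      exact sub_eq_zero.2 (div_self (G.mk1_ne hp).1)
    rwa [map_sub, eval_X, map_one, sub_eq_zero] at this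
  have h2 : ∀ f ∈ S, aeval (fun i => χ (Sum.inl (some i))) f = 0 := by
    intro f hf
    obtain ⟨d, hd⟩ := hS f hf
    have := h (ren (map (algebraMap Qb ℂ) f)) fun p hp => by
      rw [G.mk1_ren (hd.map _), eval_map, ← aeval_def, (hS' (fun i => A.θ i p.1)
        (fun h0 => (G.mk1_ne hp).1 (congrFun h0 G.k))).2 ⟨p.1, 1, fun i => (one_mul _).symm⟩ f hf,
        mul_zero]
    rwa [ren, eval_rename, eval_map, ← aeval_def] at this
  obtain ⟨z, c, hz⟩ := (hS' (fun i => χ (Sum.inl (some i)))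
    (fun h0 => one_ne_zero (h1.symm.trans (congrFun h0 G.k)))).1 h2
  have h3 : c * A.θ G.k z = 1 := (hz G.k).symm.trans h1
  have hk : A.θ G.k z ≠ 0 := right_ne_zero_of_mul_eq_one h3
  have hc : c = (A.θ G.k z)⁻¹ := eq_inv_of_mul_eq_one_left h3
  have h4 : χ (Sum.inl none) * (c ^ G.e * G.B z) = 1 := by
    have := h (X (Sum.inl none) * ren G.q - 1) fun p hp => by
      obtain ⟨a, b⟩ := G.mk1_ne hp
      rw [map_sub, map_mul, eval_X, map_one, G.mk1_ren G.hq]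
      change A.θ G.k p.1 ^ G.e / G.B p.1 * ((A.θ G.k p.1)⁻¹ ^ G.e * G.B p.1) - 1 = 0
      rw [inv_pow]
      field_simp
      exact sub_self _
    rw [map_sub, map_mul, eval_X, map_one, sub_eq_zero, ren, eval_rename] at this
    have e : (χ ∘ fun i => Sum.inl (some i)) = fun i => c * A.θ i z := funext hz
    rwa [e, mk1_hom G.hq] at this
  have hB : G.B z ≠ 0 := right_ne_zero_of_mul (right_ne_zero_of_mul_eq_one h4)
  refine ⟨(z, fun l => χ (Sum.inr l) - G.H l z / G.B z), mul_ne_zero hk hB, funext fun i => ?_⟩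
  rcases i with (_ | i) | l
  · change _ = A.θ G.k z ^ G.e / G.B z
    rw [eq_inv_of_mul_eq_one_left h4, hc, inv_pow, mul_inv, inv_inv, div_eq_mul_inv]
  · change _ = A.θ i z / A.θ G.k z
    rw [hz i, hc, div_eq_inv_mul]
  · change _ = G.H l z / G.B z + (χ (Sum.inr l) - G.H l z / G.B z)
    ring

/-- `A.imm` with `c = fderiv (θ k) z v / θ k z`. -/
theorem etl (p : LG g m) (hp : G.η.1 p ≠ 0) (v : Fin g → ℂ)
    (h : ∀ i, fderiv ℂ (G.ξ (Sum.inl (some i))) p (v, 0) = 0) : v = 0 := by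
  have hk := (G.mk1_ne hp).1
  have hd : ∀ i, HasDerivAt (fun t : ℂ => A.θ i (p.1 + t • v)) (fderiv ℂ (A.θ i) p.1 v) 0 :=
    fun i => mk1_line (A.hol i p.1 trivial).differentiableAt v
  refine A.imm p.1 v (fderiv ℂ (A.θ G.k) p.1 v / A.θ G.k p.1) fun i => ?_
  have h1 := mk1_line (G.an_ξ (Sum.inl (some i)) p hp).differentiableAt (v, 0)
  rw [h i] at h1
  have h2 := (hd i).div (hd G.k) (by simpa using hk)
  have h3 := h2.unique h1
  simp only [zero_smul, add_zero] at h3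
  rw [div_eq_zero_iff, or_iff_left (pow_ne_zero 2 hk), sub_eq_zero] at h3
  rw [div_mul_eq_mul_div, eq_div_iff hk, h3, mul_comm]

theorem et (p : LG g m) (hp : G.η.1 p ≠ 0) (v : LG g m) (h : ∀ i, fderiv ℂ (G.ξ i) p v = 0) :
    v = 0 := by
  have h1 : v.1 = 0 := by
    refine G.etl p hp v.1 fun i => ?_
    have a := mk1_line (G.an_ξ (Sum.inl (some i)) p hp).differentiableAt (v.1, 0)
    have b := mk1_line (G.an_ξ (Sum.inl (some i)) p hp).differentiableAt v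
    rw [h] at b
    exact a.unique b
  refine Prod.ext h1 (funext fun l => ?_)
  have a := mk1_line (G.an_ξ (Sum.inr l) p hp).differentiableAt v
  rw [h] at a
  have b : HasDerivAt (fun t : ℂ => G.H l p.1 / G.B p.1 + (p.2 l + t * v.2 l)) (v.2 l) 0 := by
    simpa using (((hasDerivAt_id (0 : ℂ)).mul_const (v.2 l)).const_add (p.2 l)).const_add
      (G.H l p.1 / G.B p.1)
  have e : (fun t : ℂ => G.ξ (Sum.inr l) (p + t • v)) =
      fun t : ℂ => G.H l p.1 / G.B p.1 + (p.2 l + t * v.2 l) := by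
    funext t
    change G.H l (p.1 + t • v.1) / G.B (p.1 + t • v.1) + (p.2 l + t * v.2 l) = _
    rw [h1, smul_zero, add_zero]
  rw [e] at a
  exact b.unique a

/-- Automorphy for all periods: the quotient by `θ k ^ D` is invariant. -/
theorem aut_per {D : ℕ} {Ψ : LG g m → ℂ} (h : Aut A G.w D Ψ) (n : Fin (2 * g) → ℤ) (p : LG g m)
    (i : Fin (N + 1)) : Ψ (p + (A.per n, -∑ j, n j • G.w j)) * A.θ i p.1 ^ D =
      Ψ p * A.θ i (p.1 + A.per n) ^ D := by
  obtain ⟨c, -, h2, h3⟩ := mk1_per A G.w n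
  rw [h3 D Ψ h p, h2 p.1 i, mul_pow]
  ring

/-- `A.inj`, and `aut_per` applied to `yy l`, `bb`. -/
theorem ξ_inj {p p' : LG g m} (hp : G.η.1 p ≠ 0) (hp' : G.η.1 p' ≠ 0)
    (h : ∀ i, G.ξ i p = G.ξ i p') : ∃ n, p' = p + (A.per n, -∑ j, n j • G.w j) := by
  have hk := (G.mk1_ne hp).1
  have hk' := (G.mk1_ne hp').1
  obtain ⟨n, hn⟩ := A.inj p.1 p'.1 (A.θ G.k p'.1 / A.θ G.k p.1) fun i => by
    have : A.θ i p.1 / A.θ G.k p.1 = A.θ i p'.1 / A.θ G.k p'.1 := h (Sum.inl (some i))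
    rw [div_mul_eq_mul_div, mul_div_assoc, this, mul_div_cancel₀ _ hk']
  refine ⟨n, Prod.ext hn (funext fun l => ?_)⟩
  have h1 := ((G.mk1_inv (mk1_per A G.w n) hp).2 (Sum.inr l)).trans (h (Sum.inr l))
  change G.H l (p.1 + ∑ j, n j • A.ω j) / G.B (p.1 + ∑ j, n j • A.ω j) + _ =
    G.H l p'.1 / G.B p'.1 + p'.2 l at h1
  rw [← hn] at h1
  exact (add_left_cancel h1).symm

/-- Both sides are invariant under the periods, so one may assume `‖p.1‖ ≤ R` (`ZSpan.fract`).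
There `‖θ‖ ≥ c > 0` by compactness, so `1 / |θ k| ≤ ‖ξ‖ / c`; `s l = ξ (inr l) - H l * u / θ k ^ e`
with `u = ξ (inl none)`. -/
theorem growth {D : ℕ} {Ψ : Ent (LG g m)} (h : Ψ ∈ G.T D) : ∃ C : ℝ, ∀ p, G.η.1 p ≠ 0 →
    ‖Ψ.1 p / A.θ G.k p.1 ^ D‖ ≤ C * (1 + ‖fun i => G.ξ i p‖) ^ ((G.e + 2) * D) := by
  obtain ⟨C, hC⟩ := h.2 (∑ j, ‖A.ω j‖)
  have hK := isCompact_closedBall (0 : Fin g → ℂ) (∑ j, ‖A.ω j‖)
  have hθ : Continuous fun z => fun i => A.θ i z :=
    continuous_pi fun i => continuousOn_univ.1 (A.hol i).continuousOn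
  have hH : Continuous fun z => fun l => G.H l z :=
    continuous_pi fun l => continuousOn_univ.1 (G.hol l).continuousOn
  obtain ⟨z₀, -, hz₀⟩ := hK.exists_isMinOn
    ⟨0, Metric.mem_closedBall_self (Finset.sum_nonneg fun j _ => norm_nonneg _)⟩
    hθ.norm.continuousOn
  obtain ⟨M, hM⟩ := hK.exists_bound_of_continuousOn hH.continuousOn
  have hc : 0 < ‖fun i => A.θ i z₀‖ := by
    obtain ⟨i, hi⟩ := A.ne z₀
    exact norm_pos_iff.2 fun h0 => hi (congrFun h0 i)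
  replace hz₀ := isMinOn_iff.1 hz₀
  generalize ‖fun i => A.θ i z₀‖ = c at hz₀ hc
  have key : ∀ p : LG g m, G.η.1 p ≠ 0 → ‖p.1‖ ≤ ∑ j, ‖A.ω j‖ → ‖Ψ.1 p / A.θ G.k p.1 ^ D‖ ≤
      |C| * ((1 + |M| * c⁻¹ ^ G.e) * c⁻¹) ^ D * (1 + ‖fun i => G.ξ i p‖) ^ ((G.e + 2) * D) := by
    intro p hp hR
    obtain ⟨hk, hB⟩ := G.mk1_ne hp
    have hx : ∀ i, ‖G.ξ i p‖ ≤ ‖fun i => G.ξ i p‖ := fun i => norm_le_pi_norm (fun i => G.ξ i p) i
    have hX := norm_nonneg fun i => G.ξ i p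
    generalize ‖fun i => G.ξ i p‖ = X at hx hX ⊢
    have hmem : p.1 ∈ Metric.closedBall (0 : Fin g → ℂ) (∑ j, ‖A.ω j‖) :=
      mem_closedBall_zero_iff.2 hR
    have hk0 : 0 < ‖A.θ G.k p.1‖ := norm_pos_iff.2 hk
    have h1 : c ≤ X * ‖A.θ G.k p.1‖ := by
      refine le_trans (hz₀ _ hmem) ((pi_norm_le_iff_of_nonneg (by positivity)).2 fun i => ?_)
      have := hx (Sum.inl (some i))
      change ‖A.θ i p.1 / A.θ G.k p.1‖ ≤ X at this
      rwa [norm_div, div_le_iff₀ hk0] at this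
    have h2 : ‖A.θ G.k p.1‖⁻¹ ≤ c⁻¹ * (1 + X) := by
      rw [inv_mul_eq_div, le_div_iff₀ hc, inv_mul_le_iff₀ hk0]
      calc c ≤ X * ‖A.θ G.k p.1‖ := h1
        _ ≤ (1 + X) * ‖A.θ G.k p.1‖ := mul_le_mul_of_nonneg_right (by linarith) hk0.le
        _ = ‖A.θ G.k p.1‖ * (1 + X) := mul_comm _ _
    have hY : 1 ≤ 1 + X := by linarith
    have h3 : ‖p.2‖ ≤ X + |M| * c⁻¹ ^ G.e * (1 + X) ^ (G.e + 1) := by
      refine (pi_norm_le_iff_of_nonneg (by positivity)).2 fun l => ?_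
      have e : p.2 l = G.ξ (Sum.inr l) p -
          G.H l p.1 * (A.θ G.k p.1)⁻¹ ^ G.e * G.ξ (Sum.inl none) p := by
        change _ = G.H l p.1 / G.B p.1 + p.2 l -
          G.H l p.1 * (A.θ G.k p.1)⁻¹ ^ G.e * (A.θ G.k p.1 ^ G.e / G.B p.1)
        rw [inv_pow]
        field_simp
        ring
      rw [e]
      refine (norm_sub_le _ _).trans (add_le_add (hx _) ?_)
      have a : ‖G.H l p.1‖ ≤ |M| :=
        ((norm_le_pi_norm (fun l => G.H l p.1) l).trans (hM _ hmem)).trans (le_abs_self M)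
      rw [norm_mul, norm_mul, norm_pow, norm_inv, pow_succ, ← mul_assoc, mul_assoc |M|, ← mul_pow]
      exact mul_le_mul (mul_le_mul a (pow_le_pow_left₀ (by positivity) h2 _) (by positivity)
        (abs_nonneg M)) ((hx _).trans (by linarith)) (norm_nonneg _) (by positivity)
    have h4 : 1 + ‖p.2‖ ≤ (1 + |M| * c⁻¹ ^ G.e) * (1 + X) ^ (G.e + 1) := by
      have : 1 + X ≤ (1 + X) ^ (G.e + 1) := le_self_pow₀ hY (by omega)
      rw [add_mul, one_mul]
      linarith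
    have h5 : ‖Ψ.1 p‖ ≤ |C| * ((1 + |M| * c⁻¹ ^ G.e) * (1 + X) ^ (G.e + 1)) ^ D :=
      (hC p.1 p.2 hR).trans (mul_le_mul (le_abs_self C)
        (pow_le_pow_left₀ (by positivity) h4 D) (by positivity) (abs_nonneg C))
    rw [norm_div, norm_pow, div_eq_mul_inv, ← inv_pow]
    refine (mul_le_mul h5 (pow_le_pow_left₀ (by positivity) h2 D) (by positivity)
      (by positivity)).trans (le_of_eq ?_)
    rw [pow_mul, mul_assoc, mul_assoc, ← mul_pow, ← mul_pow]
    congr 2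
    ring
  refine ⟨|C| * ((1 + |M| * c⁻¹ ^ G.e) * c⁻¹) ^ D, fun p hp => ?_⟩
  · let n : Fin (2 * g) → ℤ := fun j => -⌊A.ω.repr p.1 j⌋
    have hx := mk1_per A G.w n
    obtain ⟨h1, h2⟩ := G.mk1_inv hx hp
    have h3 : p.1 + A.per n = ZSpan.fract A.ω p.1 := by
      rw [ZSpan.fract_apply, ZSpan.floor, sub_eq_add_neg, AbVar.per, Submodule.coe_sum,
        ← Finset.sum_neg_distrib]
      congr 1
      refine Finset.sum_congr rfl fun j _ => ?_
      rw [Submodule.coe_smul, Module.Basis.restrictScalars_apply, neg_smul]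
    have h4 := key _ h1 (le_of_eq_of_le (congrArg norm h3) (ZSpan.norm_fract_le A.ω p.1))
    obtain ⟨c', a1, a2, a3⟩ := hx
    rw [a3 D Ψ.1 h.1 p, Prod.fst_add, a2 p.1 G.k, mul_pow,
      mul_div_mul_left _ _ (pow_ne_zero D (a1 _)), funext h2] at h4
    exact h4

end Gx

end GPC73

end

section

/-! The auxiliary function. -/

open MvPolynomial GPC96

namespace GPC73

variable {g N m : ℕ}

/-- Exponents. -/
abbrev Ix (g m L : ℕ) : Type := Fin (L + 1) × (Fin g → Fin (L + 1)) × (Fin m → Fin (L + 1))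

/-- Polynomial with prescribed coefficients in a box. -/
noncomputable def auxf_P {n L : ℕ} (c : (Fin n → Fin (L + 1)) → ℂ) : MvPolynomial (Fin n) ℂ :=
  ∑ γ, C (c γ) * ∏ l, X l ^ (γ l : ℕ)

theorem auxf_P_eval {n L : ℕ} (c : (Fin n → Fin (L + 1)) → ℂ) (Y : Fin n → ℂ) :
    eval Y (auxf_P c) = ∑ γ, c γ * ∏ l, Y l ^ (γ l : ℕ) := by
  simp [auxf_P]

theorem auxf_P_zero {n L : ℕ} {c : (Fin n → Fin (L + 1)) → ℂ} (h : auxf_P c = 0)
    (γ : Fin n → Fin (L + 1)) : c γ = 0 := by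
  classical
  have h1 : auxf_P c =
      ∑ γ, monomial (Finsupp.equivFunOnFinite.symm fun l => (γ l : ℕ)) (c γ) := by
    refine Finset.sum_congr rfl fun γ _ => ?_
    rw [monomial_eq, Finsupp.prod_fintype _ _ fun _ => pow_zero _]
    rfl
  have h2 := congrArg (coeff (Finsupp.equivFunOnFinite.symm fun l => (γ l : ℕ))) (h1.symm.trans h)
  rw [coeff_sum, Finset.sum_eq_single γ, coeff_monomial, if_pos rfl, coeff_zero] at h2
  · exact h2
  · intro δ _ hδ
    rw [coeff_monomial, if_neg]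
    intro he
    exact hδ (funext fun l => Fin.ext (congrFun (Finsupp.equivFunOnFinite.symm.injective he) l))
  · simp

theorem auxf_trans {τ : ℂ} (hτ : Transcendental ℚ τ) {L : ℕ} (c : Fin (L + 1) → ℤ)
    (h : ∑ t, (c t : ℂ) * τ ^ (t : ℕ) = 0) (t : Fin (L + 1)) : c t = 0 := by
  have h1 := transcendental_iff.1 hτ
    (∑ t : Fin (L + 1), Polynomial.monomial (t : ℕ) (c t : ℚ)) (by
    simpa [Polynomial.aeval_monomial] using h)
  have h2 := congrArg (fun q => Polynomial.coeff q t) h1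
  simp only [Polynomial.finsetSum_coeff, Polynomial.coeff_monomial, Polynomial.coeff_zero] at h2
  rw [Finset.sum_eq_single t (fun b _ hb => if_neg fun he => hb (Fin.ext he)) (by simp),
    if_pos rfl] at h2
  exact_mod_cast h2

theorem auxf_imm {E σ : Type} [NormedAddCommGroup E] [NormedSpace ℂ E] [FiniteDimensional ℂ E]
    (ξ : σ → E → ℂ) (x : E) (h : ∀ i, AnalyticAt ℂ (ξ i) x)
    (hU : ∀ v, (∀ i, fderiv ℂ (ξ i) x v = 0) → v = 0) {n : ℕ} (hn : Module.finrank ℂ E = n) :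
    ∃ y : Fin n → σ, ∀ Q : MvPolynomial (Fin n) ℂ,
      (∀ᶠ z in nhds x, eval (fun a => ξ (y a) z) Q = 0) → Q = 0 := by
  rw [← finrank_top] at hn
  subst hn
  obtain ⟨y, hy⟩ := indep_of_imm ξ x h ⊤ fun v _ => hU v
  refine ⟨y, fun Q hQ => hy Q ?_⟩
  have ht : Filter.Tendsto (fun u : (⊤ : Submodule ℂ E) => x + u) (nhds 0) (nhds x) :=
    (continuous_const.add continuous_subtype_val).tendsto' _ _ (by simp)
  exact ht.eventually hQ

/-- Evaluation of entire functions. -/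
def auxf_ev {E : Type} [NormedAddCommGroup E] [NormedSpace ℂ E] (p : E) : Ent E →ₐ[ℂ] ℂ :=
  (Pi.evalAlgHom ℂ (fun _ : E => ℂ) p).comp (Ent E).val

theorem auxf_bdd {ι : Type} [Finite ι] (f : ι → (Fin g → ℂ) → ℂ) (hf : ∀ i, Continuous (f i))
    (R : ℝ) : ∃ M : ℝ, ∀ i z, ‖z‖ ≤ R → ‖f i z‖ ≤ M := by
  have := Fintype.ofFinite ι
  obtain ⟨M, hM⟩ := (isCompact_closedBall (0 : Fin g → ℂ) R).exists_bound_of_continuousOn
    (f := fun z i => f i z) (continuous_pi hf).continuousOn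
  exact ⟨M, fun i z hz => (norm_le_pi_norm (fun i => f i z) i).trans
    (hM z (mem_closedBall_zero_iff.2 hz))⟩

theorem auxf_prod_le {n L : ℕ} (a b : Fin n → ℂ) (α : Fin n → Fin (L + 1)) {u : ℝ}
    (ha : ∀ i, ‖a i‖ ≤ u) (hb : ∀ i, ‖b i‖ ≤ u) :
    ‖∏ i, a i ^ (α i : ℕ) * b i ^ (L - α i)‖ ≤ u ^ (n * L) := by
  rw [norm_prod, mul_comm, pow_mul]
  refine (Finset.prod_le_prod (g := fun _ => u ^ L) (fun _ _ => norm_nonneg _)
    fun i _ => ?_).trans_eq (by simp)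
  have hu : 0 ≤ u := (norm_nonneg _).trans (ha i)
  rw [norm_mul, norm_pow, norm_pow]
  calc ‖a i‖ ^ (α i : ℕ) * ‖b i‖ ^ (L - α i) ≤ u ^ (α i : ℕ) * u ^ (L - α i) := by
        gcongr
        exacts [ha i, hb i]
    _ = u ^ L := by rw [← pow_add, Nat.add_sub_cancel' (Nat.lt_succ_iff.1 (α i).2)]

theorem auxf_prod_eq {n L : ℕ} (a : Fin n → ℂ) {b : ℂ} (hb : b ≠ 0) (α : Fin n → Fin (L + 1)) :
    ∏ i, a i ^ (α i : ℕ) * b ^ (L - α i) = (b ^ n) ^ L * ∏ i, (a i / b) ^ (α i : ℕ) := by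
  have h : ∀ i, a i ^ (α i : ℕ) * b ^ (L - α i) = b ^ L * (a i / b) ^ (α i : ℕ) := fun i => by
    rw [pow_sub₀ b hb (Nat.lt_succ_iff.1 (α i).2), div_pow]
    ring
  simp only [h, Finset.prod_mul_distrib, Finset.prod_const, Finset.card_univ, Fintype.card_fin]
  rw [← pow_mul, ← pow_mul, mul_comm L]

namespace Gx

variable {A : AbVar g N} (G : Gx A m)

/-- The monomial `τ ^ t y ^ α Y ^ γ` in the chart. -/
noncomputable def mon (y : Fin g → Fin (N + 1)) (τ : ℂ) {L : ℕ} (i : Ix g m L) :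
    MvPolynomial (Vr N m) ℂ :=
  C (τ ^ (i.1 : ℕ)) * (∏ a, X (Sum.inl (some (y a))) ^ (i.2.1 a : ℕ)) *
    ∏ l, X (Sum.inr l) ^ (i.2.2 l : ℕ)

/-- The corresponding section. -/
noncomputable def sec (y : Fin g → Fin (N + 1)) (τ : ℂ) {L : ℕ} (i : Ix g m L) : Ent (LG g m) :=
  τ ^ (i.1 : ℕ) • ((∏ a, G.th (y a) ^ (i.2.1 a : ℕ) * G.th G.k ^ (L - i.2.1 a)) *
    ∏ l, G.yy l ^ (i.2.2 l : ℕ) * G.bb ^ (L - i.2.2 l))

/-- The derivations along the leaf. -/
noncomputable def DP (j : Fin g) : Derivation ℂ (MvPolynomial (Vr N m) ℂ) (MvPolynomial (Vr N m) ℂ) :=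
  mkDerivation ℂ (G.dP j)

/-- The value at `(x, 0)` of a derivative of the auxiliary polynomial. -/
noncomputable def dval (y : Fin g → Fin (N + 1)) (τ : ℂ) (x : Fin g → ℂ) {L : ℕ} (p : Ix g m L → ℤ)
    (l : List (Fin g)) : ℂ :=
  eval (fun i => G.ξ i (x, 0)) (ap G.DP l (∑ i, C (p i : ℂ) * mon y τ i))

theorem auxf_pow_mem {a : ℕ} {f : Ent (LG g m)} (hf : f ∈ G.T a) (n : ℕ) :
    f ^ n ∈ G.T (a * n) := by
  induction n with
  | zero => simpa using G.one_mem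
  | succ n ih => rw [pow_succ, Nat.mul_succ]; exact G.mul_mem ih hf

theorem auxf_prod_mem {a n L : ℕ} {f : Fin n → Ent (LG g m)} {b : Ent (LG g m)}
    (hf : ∀ i, f i ∈ G.T a) (hb : b ∈ G.T a) (α : Fin n → Fin (L + 1)) :
    ∏ i, f i ^ (α i : ℕ) * b ^ (L - α i) ∈ G.T (n * a * L) := by
  have key : ∀ s : Finset (Fin n),
      ∏ i ∈ s, f i ^ (α i : ℕ) * b ^ (L - α i) ∈ G.T (s.card * (a * L)) := fun s => by
    induction s using Finset.induction_on with
    | empty => simpa using G.one_mem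
    | insert i s hi ih =>
      have h1 := G.mul_mem (G.auxf_pow_mem (hf i) (α i)) (G.auxf_pow_mem hb (L - α i))
      rw [← mul_add, Nat.add_sub_cancel' (Nat.lt_succ_iff.1 (α i).2)] at h1
      rw [Finset.prod_insert hi, Finset.card_insert_of_notMem hi, Nat.succ_mul, add_comm]
      exact G.mul_mem h1 ih
  simpa [mul_assoc] using key Finset.univ

theorem auxf_sec_apply (y : Fin g → Fin (N + 1)) (τ : ℂ) {L : ℕ} (i : Ix g m L) (p : LG g m) :
    (G.sec y τ i).1 p = τ ^ (i.1 : ℕ) *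
      ((∏ a, A.θ (y a) p.1 ^ (i.2.1 a : ℕ) * A.θ G.k p.1 ^ (L - i.2.1 a)) *
      ∏ l, (G.H l p.1 + p.2 l * G.B p.1) ^ (i.2.2 l : ℕ) * G.B p.1 ^ (L - i.2.2 l)) := by
  show auxf_ev p (G.sec y τ i) = _
  simp only [sec, map_smul, map_mul, map_prod, map_pow, smul_eq_mul]
  rfl

theorem auxf_η {p : LG g m} (hp : G.η.1 p ≠ 0) : A.θ G.k p.1 ≠ 0 ∧ G.B p.1 ≠ 0 :=
  mul_ne_zero_iff.1 hp

theorem auxf_mon_eval (y : Fin g → Fin (N + 1)) (τ : ℂ) {L : ℕ} (i : Ix g m L) (p : LG g m) :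
    eval (fun i => G.ξ i p) (mon y τ i) = τ ^ (i.1 : ℕ) *
      (∏ a, (A.θ (y a) p.1 / A.θ G.k p.1) ^ (i.2.1 a : ℕ)) *
      ∏ l, (G.H l p.1 / G.B p.1 + p.2 l) ^ (i.2.2 l : ℕ) := by
  simp only [mon, map_mul, map_prod, map_pow, eval_C, eval_X]
  rfl

theorem sec_mem (y : Fin g → Fin (N + 1)) (τ : ℂ) {L : ℕ} (i : Ix g m L) :
    G.sec y τ i ∈ G.T ((g + m * G.e) * L) := by
  refine Submodule.smul_mem _ _ ?_
  have h1 := G.auxf_prod_mem (fun a => G.th_mem (y a)) (G.th_mem G.k) i.2.1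
  rw [mul_one] at h1
  rw [add_mul]
  exact G.mul_mem h1 (G.auxf_prod_mem G.yy_mem G.bb_mem i.2.2)

theorem sec_eq (y : Fin g → Fin (N + 1)) (τ : ℂ) {L : ℕ} (i : Ix g m L) (p : LG g m)
    (hp : G.η.1 p ≠ 0) : (G.sec y τ i).1 p =
      (A.θ G.k p.1 ^ g * G.B p.1 ^ m) ^ L * eval (fun i => G.ξ i p) (mon y τ i) := by
  obtain ⟨h1, h2⟩ := G.auxf_η hp
  have h3 : ∀ l, (G.H l p.1 + p.2 l * G.B p.1) / G.B p.1 = G.H l p.1 / G.B p.1 + p.2 l :=
    fun l => by rw [add_div, mul_div_cancel_right₀ _ h2]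
  rw [auxf_sec_apply, auxf_mon_eval, auxf_prod_eq _ h1, auxf_prod_eq _ h2]
  simp only [h3]
  ring

theorem sec_bound (hm : 1 ≤ m) (τ : ℂ) (R : ℝ) : ∃ C₀ : ℝ, ∀ (y : Fin g → Fin (N + 1)) (L : ℕ)
    (i : Ix g m L) (z : Fin g → ℂ) (s : Fin m → ℂ), ‖z‖ ≤ R →
      ‖(G.sec y τ i).1 (z, s)‖ ≤ (C₀ * (1 + ‖s‖)) ^ ((g + m * G.e) * L) := by
  obtain ⟨M₁, h₁⟩ := auxf_bdd A.θ (fun i => continuousOn_univ.1 (A.hol i).continuousOn) R
  obtain ⟨M₂, h₂⟩ := auxf_bdd G.H (fun i => continuousOn_univ.1 (G.hol i).continuousOn) R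
  obtain ⟨M₃, h₃⟩ := auxf_bdd (fun _ : Unit => G.B)
    (fun _ => continuousOn_univ.1 (an_eval A.θ A.hol G.q).continuousOn) R
  obtain ⟨M, hM1, hMτ, hM₁, hM₂, hM₃⟩ : ∃ M : ℝ, 1 ≤ M ∧ ‖τ‖ ≤ M ∧ M₁ ≤ M ∧ M₂ ≤ M ∧ M₃ ≤ M :=
    ⟨max 1 (max ‖τ‖ (max M₁ (max M₂ M₃))), by simp, by simp, by simp, by simp, by simp⟩
  refine ⟨M * M, fun y L i z s hz => ?_⟩
  have hs := norm_nonneg s
  obtain ⟨u, hu⟩ : ∃ u, u = M * (1 + ‖s‖) := ⟨_, rfl⟩
  have hMu : M ≤ u := by rw [hu]; exact le_mul_of_one_le_right (by linarith) (by linarith)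
  have hB : ‖G.B z‖ ≤ M := (h₃ () z hz).trans hM₃
  have a1 := auxf_prod_le (fun a => A.θ (y a) z) (fun _ => A.θ G.k z) i.2.1 (u := u)
    (fun a => ((h₁ _ z hz).trans hM₁).trans hMu) fun _ => ((h₁ _ z hz).trans hM₁).trans hMu
  have a2 := auxf_prod_le (fun l => G.H l z + s l * G.B z) (fun _ => G.B z) i.2.2 (u := u)
    (fun l => by
      refine (norm_add_le _ _).trans ?_
      have b1 := (h₂ l z hz).trans hM₂
      have b2 : ‖s l * G.B z‖ ≤ ‖s‖ * M := by
        rw [norm_mul]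
        exact mul_le_mul (norm_le_pi_norm s l) hB (norm_nonneg _) hs
      rw [hu]
      linarith) fun _ => hB.trans hMu
  have he := G.e_pos
  have hme : m ≤ m * G.e := Nat.le_mul_of_pos_right _ he
  have d1 : (i.1 : ℕ) ≤ (g + m * G.e) * L :=
    (Nat.lt_succ_iff.1 i.1.2).trans (Nat.le_mul_of_pos_left _ (by omega))
  have d2 : g * L + m * L ≤ (g + m * G.e) * L := by
    rw [← add_mul]; exact Nat.mul_le_mul_right _ (by omega)
  have a3 : ‖τ ^ (i.1 : ℕ)‖ ≤ M ^ ((g + m * G.e) * L) := by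
    rw [norm_pow]
    exact (pow_le_pow_left₀ (norm_nonneg _) hMτ _).trans (pow_le_pow_right₀ hM1 d1)
  have hu0 : 0 ≤ u := by linarith
  rw [auxf_sec_apply, mul_assoc M M, ← hu, mul_pow, norm_mul, norm_mul]
  refine mul_le_mul a3 ((mul_le_mul a1 a2 (norm_nonneg _) (pow_nonneg hu0 _)).trans ?_)
    (mul_nonneg (norm_nonneg _) (norm_nonneg _)) (pow_nonneg (by linarith) _)
  rw [← pow_add]
  exact pow_le_pow_right₀ (hM1.trans hMu) d2

/-- `indep_of_imm` (with `etl`, `U = ⊤`) gives `y`.  If the combination vanishes, then by `sec_eq`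
the polynomial vanishes on the chart; for fixed `z` the values of the `ξ (inr l)` are arbitrary, so
the coefficient of each `Y ^ γ` vanishes near a point of the chart, hence is the zero polynomial in
the `y a`; finally `τ` is transcendental. -/
theorem exists_y : ∃ y : Fin g → Fin (N + 1), ∀ (τ : ℂ), Transcendental ℚ τ → ∀ (L : ℕ)
    (p : Ix g m L → ℤ), ∑ i, (p i : ℂ) • G.sec y τ i = 0 → p = 0 := by
  obtain ⟨x, hx1, hx2⟩ := G.ne
  have hx : G.η.1 (x, 0) ≠ 0 := mul_ne_zero hx1 hx2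
  have hin : ∀ z, HasFDerivAt (fun z : Fin g → ℂ => ((z, 0) : LG g m))
      (ContinuousLinearMap.inl ℂ _ _) z :=
    fun z => (ContinuousLinearMap.inl ℂ (Fin g → ℂ) (Fin m → ℂ)).hasFDerivAt
  obtain ⟨y, hy⟩ := auxf_imm (fun i z => G.ξ (Sum.inl (some i)) (z, 0)) x
    (fun i => (G.an_ξ _ (x, 0) hx).comp (f := fun z : Fin g → ℂ => ((z, 0) : LG g m))
      (analyticAt_id.prod analyticAt_const))
    (fun v hv => G.etl (x, 0) hx v fun i => by
      have h1 := ((G.an_ξ (Sum.inl (some i)) (x, 0) hx).differentiableAt.hasFDerivAt.comp x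
        (hin x)).fderiv
      have h2 := hv i
      rw [show (fun z : Fin g → ℂ => G.ξ (Sum.inl (some i)) (z, 0)) =
        G.ξ (Sum.inl (some i)) ∘ fun z : Fin g → ℂ => ((z, 0) : LG g m) from rfl, h1] at h2
      exact h2) (n := g) (by simp)
  refine ⟨y, fun τ hτ L p hp => ?_⟩
  have hev : ∀ᶠ z in nhds x, G.η.1 (z, 0) ≠ 0 :=
    (((Ent.diff G.η).continuous.comp (continuous_id.prodMk continuous_const)).continuousAt
      (x := x)).eventually_ne hx
  have h1 : ∀ z, G.η.1 (z, 0) ≠ 0 → ∀ γ : Fin m → Fin (L + 1),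
      ∑ α : Fin g → Fin (L + 1), (∑ t : Fin (L + 1), (p (t, α, γ) : ℂ) * τ ^ (t : ℕ)) *
        ∏ a, (A.θ (y a) z / A.θ G.k z) ^ (α a : ℕ) = 0 := fun z hz => by
    refine auxf_P_zero (MvPolynomial.funext fun Y => ?_)
    obtain ⟨b1, b2⟩ := G.auxf_η hz
    have hq : G.η.1 (z, fun l => Y l - G.H l z / G.B z) ≠ 0 := hz
    have h2 := congrArg (auxf_ev (z, fun l => Y l - G.H l z / G.B z)) hp
    rw [map_sum, map_zero] at h2
    have h3 : ∀ i : Ix g m L, auxf_ev (z, fun l => Y l - G.H l z / G.B z)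
        ((p i : ℂ) • G.sec y τ i) = (A.θ G.k z ^ g * G.B z ^ m) ^ L * ((p i : ℂ) * τ ^ (i.1 : ℕ) *
        (∏ a, (A.θ (y a) z / A.θ G.k z) ^ (i.2.1 a : ℕ)) * ∏ l, Y l ^ (i.2.2 l : ℕ)) := fun i => by
      rw [map_smul, smul_eq_mul]
      show _ * (G.sec y τ i).1 _ = _
      rw [G.sec_eq y τ i _ hq, auxf_mon_eval]
      simp only [add_sub_cancel]
      ring
    simp only [h3, ← Finset.mul_sum] at h2
    have h4 := (mul_eq_zero.1 h2).resolve_left
      (pow_ne_zero _ (mul_ne_zero (pow_ne_zero _ b1) (pow_ne_zero _ b2)))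
    rw [auxf_P_eval, map_zero, ← h4]
    simp only [Finset.sum_mul, Fintype.sum_prod_type]
    rw [Finset.sum_comm]
    conv_rhs => rw [Finset.sum_comm]
    exact Finset.sum_congr rfl fun α _ => Finset.sum_comm
  funext ⟨t, α, γ⟩
  refine auxf_trans hτ (fun t => p (t, α, γ)) (auxf_P_zero (c := fun α : Fin g → Fin (L + 1) =>
    ∑ t : Fin (L + 1), (p (t, α, γ) : ℂ) * τ ^ (t : ℕ)) (hy _ ?_) α) t
  filter_upwards [hev] with z hz
  rw [auxf_P_eval]
  exact h1 z hz γ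

/-- Arithmetic hypotheses at the base point `x`. -/
structure Arith (τ : ℂ) (x : Fin g → ℂ) : Prop where
  ne : G.η.1 (x, 0) ≠ 0
  pt : ∀ i, IsAlgebraic ℚ (A.θ i x / A.θ G.k x)
  zero : ∀ l, G.H l x = 0
  q : ∀ α, IsAlgebraic ℚ (coeff α G.q)
  p : ∀ j i α, IsAlgebraic ℚ (coeff α (G.p j i))
  r : ∀ j l α, IsAlgebraic (Algebra.adjoin ℚ {τ}) (coeff α (G.r j l))

end Gx

end GPC73

end

end
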