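import Mathlib
import Pool.Agent.MP_d171e3_nt.Dim

-- part MP_57341d_ag.H96.Filt
section

/-! The jet filtration attached to a prime ideal and a weighted family of derivations. -/

namespace GPC96

variable {R : Type} [CommRing R] [Algebra ℂ R] {ι : Type} (p : Ideal R)
  (D : ι → Derivation ℂ R R) (w : ι → ℕ)

/-- Apply a word in the derivations, first letter first. -/
def ap : List ι → R → R
  | [], f => f
  | i :: l, f => ap l (D i f)

/-- `Jet p D w n f`: all words of weight `< n` send `f` into `p`. -/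
def Jet (n : ℕ) (f : R) : Prop := ∀ l : List ι, (l.map w).sum < n → ap D l f ∈ p

theorem jet_iff (n : ℕ) (f : R) :
    Jet p D w n f ↔ n = 0 ∨ (f ∈ p ∧ ∀ i, Jet p D w (n - w i) (D i f)) := by
  constructor
  · intro h
    rcases Nat.eq_zero_or_pos n with h0 | h0
    · exact Or.inl h0
    · refine Or.inr ⟨h [] (by simpa using h0), fun i l hl => h (i :: l) ?_⟩
      simp only [List.map_cons, List.sum_cons]
      omega
  · rintro (h | ⟨h1, h2⟩) l hl
    · omega
    · cases l with
      | nil => exact h1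
      | cons i l =>
        refine h2 i l ?_
        simp only [List.map_cons, List.sum_cons] at hl
        omega

theorem filt_ap_add (l : List ι) (f g : R) : ap D l (f + g) = ap D l f + ap D l g := by
  induction l generalizing f g with
  | nil => rfl
  | cons i l ih => simp only [ap, map_add, ih]

theorem filt_ap_zero (l : List ι) : ap D l 0 = 0 := by
  induction l with
  | nil => rfl
  | cons i l ih => simp only [ap, map_zero, ih]

theorem filt_jet_zero (f : R) : Jet p D w 0 f := fun _ hl => absurd hl (Nat.not_lt_zero _)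

theorem Jet.mono {m n : ℕ} (h : m ≤ n) {f : R} (hf : Jet p D w n f) : Jet p D w m f :=
  fun l hl => hf l (hl.trans_le h)

theorem Jet.add {n : ℕ} {f g : R} (hf : Jet p D w n f) (hg : Jet p D w n g) :
    Jet p D w n (f + g) := by
  intro l hl
  rw [filt_ap_add]
  exact p.add_mem (hf l hl) (hg l hl)

/-- Hint: strong induction on `m + n` with `jet_iff` and Leibniz. -/
theorem Jet.mul (hw : ∀ i, 1 ≤ w i) {m n : ℕ} {f g : R} (hf : Jet p D w m f)
    (hg : Jet p D w n g) : Jet p D w (m + n) (f * g) := by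
  induction hN : m + n using Nat.strong_induction_on generalizing m n f g with
  | _ N ih =>
    subst hN
    rcases Nat.eq_zero_or_pos (m + n) with h0 | h0
    · rw [h0]; exact filt_jet_zero p D w _
    have key : ∀ {m n : ℕ} {f g : R}, (∀ m' n' : ℕ, m' + n' < m + n → ∀ f' g' : R,
        Jet p D w m' f' → Jet p D w n' g' → Jet p D w (m' + n') (f' * g')) → 0 < m + n →
        Jet p D w m f → Jet p D w n g → ∀ i, Jet p D w (m + n - w i) (f * D i g) := by
      intro m n f g ih h0 hf hg i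
      have hi := hw i
      rcases (jet_iff p D w n g).1 hg with hn | ⟨-, h2⟩
      · subst hn
        exact ih (m - w i) 0 (by omega) f _ (hf.mono p D w (Nat.sub_le _ _))
          (filt_jet_zero p D w _)
      · rcases Nat.eq_zero_or_pos n with hn | hn
        · subst hn
          exact ih (m - w i) 0 (by omega) f _ (hf.mono p D w (Nat.sub_le _ _))
            (filt_jet_zero p D w _)
        · exact (ih m (n - w i) (by omega) f _ hf (h2 i)).mono p D w (by omega)
    refine (jet_iff p D w _ _).2 (Or.inr ⟨?_, fun i => ?_⟩)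
    · rcases Nat.eq_zero_or_pos m with hm | hm
      · exact p.mul_mem_left _ (hg [] (by simp only [List.map_nil, List.sum_nil]; omega))
      · exact p.mul_mem_right _ (hf [] (by simpa using hm))
    · rw [Derivation.leibniz, smul_eq_mul, smul_eq_mul]
      refine Jet.add p D w (key (fun m' n' h f' g' hf' hg' => ih _ h hf' hg' rfl) h0 hf hg i) ?_
      have := key (m := n) (n := m)
        (fun m' n' h f' g' hf' hg' => ih _ (by omega) hf' hg' rfl) (by omega) hg hf i
      rwa [Nat.add_comm n m] at this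

/-- The filtration as a family of ideals. -/
def Fl (hw : ∀ i, 1 ≤ w i) (n : ℕ) : Ideal R where
  carrier := {f | Jet p D w n f}
  add_mem' := Jet.add p D w
  zero_mem' := by
    intro l _
    rw [filt_ap_zero]
    exact p.zero_mem
  smul_mem' := by
    intro c f hf
    have := Jet.mul p D w hw (filt_jet_zero p D w c) hf
    rwa [Nat.zero_add] at this

variable {w} (hw : ∀ i, 1 ≤ w i)

theorem mem_Fl {n : ℕ} {f : R} : f ∈ Fl p D w hw n ↔ Jet p D w n f := Iff.rfl

theorem filt_mem_zero (f : R) : f ∈ Fl p D w hw 0 := filt_jet_zero p D w f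

theorem Fl_one : Fl p D w hw 1 = p := by
  ext f
  rw [mem_Fl, jet_iff]
  constructor
  · rintro (h | h)
    · omega
    · exact h.1
  · intro h
    refine Or.inr ⟨h, fun i => ?_⟩
    have := hw i
    rw [show 1 - w i = 0 by omega]
    exact filt_jet_zero p D w _

theorem Fl_anti {m n : ℕ} (h : m ≤ n) : Fl p D w hw n ≤ Fl p D w hw m :=
  fun _ hf => Jet.mono p D w h hf

theorem Fl_mul (m n : ℕ) : Fl p D w hw m * Fl p D w hw n ≤ Fl p D w hw (m + n) :=
  Ideal.mul_le.mpr fun _ hf _ hg => Jet.mul p D w hw hf hg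

theorem pow_le_Fl {I : Ideal R} {T : ℕ} (h : I ≤ Fl p D w hw T) (k : ℕ) :
    I ^ k ≤ Fl p D w hw (k * T) := by
  induction k with
  | zero => intro f _; rw [Nat.zero_mul]; exact filt_mem_zero p D hw f
  | succ k ih =>
    rw [pow_succ, Nat.succ_mul]
    exact (Ideal.mul_mono ih h).trans (Fl_mul p D hw _ _)

/-- An element of `p` killed by all the derivations lies in every step. -/
theorem mem_Fl_of_der_eq_zero {f : R} (hf : f ∈ p) (h : ∀ i, D i f = 0) (n : ℕ) :
    f ∈ Fl p D w hw n := by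
  refine (jet_iff p D w n f).2 (Or.inr ⟨hf, fun i => ?_⟩)
  rw [h i]
  exact (Fl p D w hw (n - w i)).zero_mem

theorem filt_der {n : ℕ} {f : R} (hf : f ∈ Fl p D w hw n) (i : ι) :
    D i f ∈ Fl p D w hw (n - w i) := by
  rcases (jet_iff p D w n f).1 hf with h | h
  · rw [h, Nat.zero_sub]; exact filt_mem_zero p D hw _
  · exact h.2 i

theorem filt_mul {m n k : ℕ} {f g : R} (hf : f ∈ Fl p D w hw m) (hg : g ∈ Fl p D w hw n)
    (hk : k ≤ m + n) : f * g ∈ Fl p D w hw k :=
  Fl_anti p D hw hk (Jet.mul p D w hw hf hg)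

theorem filt_pow {m : ℕ} {f : R} (hf : f ∈ Fl p D w hw m) (k : ℕ) :
    f ^ k ∈ Fl p D w hw (m * k) := by
  induction k with
  | zero => exact filt_mem_zero p D hw _
  | succ k ih => rw [pow_succ]; exact filt_mul p D hw ih hf (by rw [Nat.mul_succ])

/-- Saturation.  Hint: induction on `n`; `s * D f = D (s * f) - f * D s`. -/
theorem Fl_sat [p.IsPrime] {s f : R} (hs : s ∉ p) {n : ℕ} (h : s * f ∈ Fl p D w hw n) :
    f ∈ Fl p D w hw n := by
  induction n using Nat.strong_induction_on generalizing f with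
  | _ n ih =>
    rcases Nat.eq_zero_or_pos n with h0 | h0
    · rw [h0]; exact filt_mem_zero p D hw _
    have h1 : s * f ∈ p := h [] (by simpa using h0)
    refine (jet_iff p D w n f).2
      (Or.inr ⟨(Ideal.IsPrime.mem_or_mem ‹_› h1).resolve_left hs, fun i => ?_⟩)
    have hi := hw i
    have hlt : n - w i < n := by omega
    have h2 : f ∈ Fl p D w hw (n - w i) := ih _ hlt (Fl_anti p D hw hlt.le h)
    refine ih _ hlt ?_
    have h3 := filt_der p D hw h i
    have e : s * D i f = D i (s * f) - f * D i s := by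
      rw [Derivation.leibniz, smul_eq_mul, smul_eq_mul]; ring
    rw [e]
    exact sub_mem h3 (Ideal.mul_mem_right _ _ h2)

theorem filt_prod {κ : Type} (e : κ → ι) (x : κ → R) (hx : ∀ j, x j ∈ Fl p D w hw (w (e j)))
    (s : Finset κ) (β : κ → ℕ) :
    ∏ j ∈ s, x j ^ β j ∈ Fl p D w hw (∑ j ∈ s, w (e j) * β j) := by
  classical
  induction s using Finset.induction_on with
  | empty => exact filt_mem_zero p D hw _
  | insert j s hj ih =>
    rw [Finset.prod_insert hj, Finset.sum_insert hj]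
    exact filt_mul p D hw (filt_pow p D hw (hx j) _) ih le_rfl

theorem filt_der_mul {a : ι} {m n : ℕ} {f g : R} (hf : f ∈ Fl p D w hw m) (hg : g ∈ Fl p D w hw n)
    (hf' : D a f ∈ Fl p D w hw (m + 1 - w a)) (hg' : D a g ∈ Fl p D w hw (n + 1 - w a)) :
    D a (f * g) ∈ Fl p D w hw (m + n + 1 - w a) := by
  rw [Derivation.leibniz, smul_eq_mul, smul_eq_mul]
  exact add_mem (filt_mul p D hw hf hg' (by omega)) (filt_mul p D hw hg hf' (by omega))

theorem filt_der_pow {a : ι} {m : ℕ} {f : R} (hf : f ∈ Fl p D w hw m)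
    (hf' : D a f ∈ Fl p D w hw (m + 1 - w a)) (k : ℕ) :
    D a (f ^ k) ∈ Fl p D w hw (m * k + 1 - w a) := by
  induction k with
  | zero => rw [pow_zero, Derivation.map_one_eq_zero]; exact zero_mem _
  | succ k ih =>
    rw [pow_succ, Nat.mul_succ]
    exact filt_der_mul p D hw (filt_pow p D hw hf k) hf ih hf'

theorem filt_der_prod {κ : Type} (e : κ → ι) (x : κ → R) (hx : ∀ j, x j ∈ Fl p D w hw (w (e j)))
    (a : ι) (s : Finset κ) (hs : ∀ j ∈ s, D a (x j) ∈ Fl p D w hw (w (e j) + 1 - w a))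
    (β : κ → ℕ) :
    D a (∏ j ∈ s, x j ^ β j) ∈ Fl p D w hw (∑ j ∈ s, w (e j) * β j + 1 - w a) := by
  classical
  induction s using Finset.induction_on with
  | empty => rw [Finset.prod_empty, Derivation.map_one_eq_zero]; exact zero_mem _
  | insert j s hj ih =>
    rw [Finset.prod_insert hj, Finset.sum_insert hj]
    exact filt_der_mul p D hw (filt_pow p D hw (hx j) _) (filt_prod p D hw e x hx s β)
      (filt_der_pow p D hw (hx j) (hs j (Finset.mem_insert_self _ _)) _)
      (ih fun j hj => hs j (Finset.mem_insert_of_mem hj))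

theorem filt_wt {κ : Type} [Fintype κ] [DecidableEq κ] (u β : κ → ℕ) (i : κ) (h : 0 < β i) :
    ∑ j, u j * Function.update β i (β i - 1) j + u i = ∑ j, u j * β j := by
  rw [← Finset.add_sum_erase _ _ (Finset.mem_univ i),
    ← Finset.add_sum_erase _ (fun j => u j * β j) (Finset.mem_univ i), Function.update_self]
  have e : ∑ j ∈ Finset.univ.erase i, u j * Function.update β i (β i - 1) j =
      ∑ j ∈ Finset.univ.erase i, u j * β j :=
    Finset.sum_congr rfl fun j hj => by rw [Function.update_of_ne (Finset.ne_of_mem_erase hj)]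
  obtain ⟨k, hk⟩ : ∃ k, β i = k + 1 := ⟨β i - 1, by omega⟩
  rw [e, hk, Nat.add_sub_cancel]
  ring

theorem filt_der_mon {κ : Type} [Fintype κ] [DecidableEq κ] (e : κ → ι) (x δ : κ → R)
    (hx : ∀ j, x j ∈ Fl p D w hw (w (e j))) (hd : ∀ j, D (e j) (x j) - δ j ∈ p)
    (hn : ∀ i j, i ≠ j → D (e i) (x j) ∈ Fl p D w hw (w (e j) + 1 - w (e i)))
    (i : κ) (β : κ → ℕ) :
    D (e i) (∏ j, x j ^ β j) - δ i * ((β i : R) * ∏ j, x j ^ Function.update β i (β i - 1) j) ∈
      Fl p D w hw (∑ j, w (e j) * β j + 1 - w (e i)) := by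
  have e1 : ∏ j, x j ^ Function.update β i (β i - 1) j =
      x i ^ (β i - 1) * ∏ j ∈ Finset.univ.erase i, x j ^ β j := by
    rw [← Finset.mul_prod_erase _ _ (Finset.mem_univ i), Function.update_self]
    congr 1
    exact Finset.prod_congr rfl fun j hj => by
      rw [Function.update_of_ne (Finset.ne_of_mem_erase hj)]
  have h1 := filt_prod p D hw e x hx (Finset.univ.erase i) β
  have h2 := filt_der_prod p D hw e x hx (e i) (Finset.univ.erase i)
    (fun j hj => hn i j (Finset.ne_of_mem_erase hj).symm) β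
  rw [e1, ← Finset.mul_prod_erase _ (fun j => x j ^ β j) (Finset.mem_univ i),
    ← Finset.add_sum_erase _ (fun j => w (e j) * β j) (Finset.mem_univ i)]
  generalize ∏ j ∈ Finset.univ.erase i, x j ^ β j = Q at h1 h2 ⊢
  generalize ∑ j ∈ Finset.univ.erase i, w (e j) * β j = d at h1 h2 ⊢
  have h3 : D (e i) (x i) - δ i ∈ Fl p D w hw 1 := by rw [Fl_one]; exact hd i
  have e2 : D (e i) (x i ^ β i * Q) - δ i * ((β i : R) * (x i ^ (β i - 1) * Q)) =
      x i ^ β i * D (e i) Q + (β i : R) * (x i ^ (β i - 1) * Q * (D (e i) (x i) - δ i)) := by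
    rw [Derivation.leibniz, Derivation.leibniz_pow]
    simp only [smul_eq_mul, nsmul_eq_mul]
    ring
  rw [e2]
  refine add_mem (filt_mul p D hw (filt_pow p D hw (hx i) _) h2 (by omega)) ?_
  rcases Nat.eq_zero_or_pos (β i) with h0 | h0
  · rw [h0, Nat.cast_zero, zero_mul]; exact zero_mem _
  · refine Ideal.mul_mem_left _ _ (filt_mul p D hw
      (filt_mul p D hw (filt_pow p D hw (hx i) _) h1 le_rfl) h3 ?_)
    obtain ⟨k, hk⟩ : ∃ k, β i = k + 1 := ⟨β i - 1, by omega⟩
    rw [hk, Nat.add_sub_cancel, Nat.mul_succ]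
    omega

theorem filt_hom [p.IsPrime] {κ : Type} [Fintype κ] [DecidableEq κ] (e : κ → ι) (x δ : κ → R)
    (hδ : ∀ j, δ j ∉ p) (hx : ∀ j, x j ∈ Fl p D w hw (w (e j)))
    (hd : ∀ j, D (e j) (x j) - δ j ∈ p)
    (hn : ∀ i j, i ≠ j → D (e i) (x j) ∈ Fl p D w hw (w (e j) + 1 - w (e i)))
    {τ : Type} (d : ℕ) (S : Finset τ) (b : τ → κ → ℕ) (hb : Set.InjOn b S)
    (hS : ∀ t ∈ S, ∑ j, w (e j) * b t j = d) (c : τ → R)
    (h : ∑ t ∈ S, c t * ∏ j, x j ^ b t j ∈ Fl p D w hw (d + 1)) : ∀ t ∈ S, c t ∈ p := by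
  classical
  induction d using Nat.strong_induction_on generalizing S b c with
  | _ d ih =>
    intro t₀ ht₀
    by_cases h0 : ∀ i, b t₀ i = 0
    · have hd0 : d = 0 := by
        rw [← hS t₀ ht₀]
        exact Finset.sum_eq_zero fun j _ => by rw [h0 j, Nat.mul_zero]
      have h1 : ∀ t ∈ S, t ≠ t₀ → c t * ∏ j, x j ^ b t j = 0 := by
        intro t ht hne
        refine absurd (hb ht ht₀ (funext fun j => ?_)) hne
        have h2 := hS t ht
        rw [hd0, Finset.sum_eq_zero_iff] at h2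
        have h3 := h2 j (Finset.mem_univ j)
        have h4 := hw (e j)
        rw [h0 j]
        rcases Nat.mul_eq_zero.1 h3 with h5 | h5 <;> omega
      rw [Finset.sum_eq_single_of_mem t₀ ht₀ h1, hd0, Nat.zero_add, Fl_one] at h
      simpa only [h0, pow_zero, Finset.prod_const_one, mul_one] using h
    obtain ⟨i, hi⟩ := not_forall.1 h0
    have hi0 : 0 < b t₀ i := Nat.pos_of_ne_zero hi
    have hwi := hw (e i)
    have hle : w (e i) ≤ d := by
      have := filt_wt (fun j => w (e j)) (b t₀) i hi0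
      rw [hS t₀ ht₀] at this
      omega
    have h1 := filt_der p D hw h (e i)
    have h2 : D (e i) (∑ t ∈ S, c t * ∏ j, x j ^ b t j) - δ i * ∑ t ∈ S, (c t * (b t i : R)) *
        ∏ j, x j ^ Function.update (b t) i (b t i - 1) j ∈ Fl p D w hw (d + 1 - w (e i)) := by
      rw [map_sum, Finset.mul_sum, ← Finset.sum_sub_distrib]
      refine Ideal.sum_mem _ fun t ht => ?_
      have h3 := filt_der_mon p D hw e x δ hx hd hn i (b t)
      have h4 := filt_prod p D hw e x hx Finset.univ (b t)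
      rw [hS t ht] at h3 h4
      have h5 := add_mem (Ideal.mul_mem_left _ (c t) h3)
        (Ideal.mul_mem_right (D (e i) (c t)) _ (Fl_anti p D hw (by omega : d + 1 - w (e i) ≤ d) h4))
      rw [Derivation.leibniz, smul_eq_mul, smul_eq_mul]
      refine (congrArg (· ∈ Fl p D w hw (d + 1 - w (e i))) ?_).mp h5
      ring
    have h3 := sub_mem h1 h2
    rw [sub_sub_cancel] at h3
    have h4 := Fl_sat p D hw (hδ i) h3
    rw [← Finset.sum_filter_of_ne (p := fun t => 0 < b t i) (fun t _ ht => by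
      refine Nat.pos_of_ne_zero fun h5 => ht ?_
      rw [h5, Nat.cast_zero, mul_zero, zero_mul]), show d + 1 - w (e i) = d - w (e i) + 1 by omega]
      at h4
    have h5 := ih (d - w (e i)) (by omega) (S.filter fun t => 0 < b t i)
      (fun t => Function.update (b t) i (b t i - 1)) ?_ ?_ _ h4 t₀ (Finset.mem_filter.2 ⟨ht₀, hi0⟩)
    · have hu : IsUnit ((b t₀ i : ℕ) : R) := by
        have : IsUnit ((b t₀ i : ℕ) : ℂ) := (Nat.cast_ne_zero.2 hi).isUnit
        simpa using this.map (algebraMap ℂ R)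
      exact (Ideal.mul_unit_mem_iff_mem p hu).1 h5
    · intro t ht t' ht' htt
      rw [Finset.mem_coe, Finset.mem_filter] at ht ht'
      refine hb ht.1 ht'.1 (funext fun j => ?_)
      have h6 := congrFun htt j
      by_cases hj : j = i
      · subst hj
        simp only [Function.update_self] at h6
        omega
      · simpa only [Function.update_of_ne hj] using h6
    · intro t ht
      rw [Finset.mem_filter] at ht
      have := filt_wt (fun j => w (e j)) (b t) i ht.2
      rw [hS t ht.1] at this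
      omega

/-- Independence of monomials in elements `x j` whose leading forms are `δ j` times the variable
dual to `D (e j)`.  Hint: first prove, by strong induction on `d`, that if all `β ∈ S` have weight
exactly `d` and `∑ c β * ∏ x j ^ β j ∈ Fl (d + 1)` then every `c β ∈ p`: for `β₀ ∈ S` with
`β₀ i > 0` apply `D (e i)`; modulo `Fl (d + 1 - w (e i))` the result is
`∑_{β i > 0} c β * β i * δ i * x ^ (β - e_i)`.  (It may be convenient to use a weighted homogeneous
`c : MvPolynomial κ R`, `aeval x c` and `pderiv`.)  Then take the least weight with a nonzero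
coefficient. -/
theorem indep [p.IsPrime] {κ : Type} [Fintype κ] [DecidableEq κ] (e : κ → ι) (x δ : κ → R)
    (hδ : ∀ j, δ j ∉ p) (hx : ∀ j, x j ∈ Fl p D w hw (w (e j)))
    (hd : ∀ j, D (e j) (x j) - δ j ∈ p)
    (hn : ∀ i j, i ≠ j → D (e i) (x j) ∈ Fl p D w hw (w (e j) + 1 - w (e i)))
    (N : ℕ) (S : Finset (κ → ℕ)) (hS : ∀ β ∈ S, ∑ j, w (e j) * β j < N) (c : (κ → ℕ) → R)
    (hc : ∀ β ∈ S, c β ∈ p → c β = 0)
    (h : ∑ β ∈ S, c β * ∏ j, x j ^ β j ∈ Fl p D w hw N) : ∀ β ∈ S, c β = 0 := by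
  classical
  by_contra hcon
  have hne : (S.filter fun β => c β ≠ 0).Nonempty := by
    rw [Finset.filter_nonempty_iff]
    by_contra h1
    exact hcon fun β hβ => by
      by_contra h2
      exact h1 ⟨β, hβ, h2⟩
  obtain ⟨β₀, hβ₀, hmin⟩ := Finset.exists_min_image _ (fun β => ∑ j, w (e j) * β j) hne
  rw [Finset.mem_filter] at hβ₀
  have h1 := Fl_anti p D hw (Nat.succ_le_of_lt (hS β₀ hβ₀.1)) h
  rw [← Finset.sum_filter_add_sum_filter_not S
    (fun β => ∑ j, w (e j) * β j = ∑ j, w (e j) * β₀ j)] at h1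
  have h2 : ∑ β ∈ S.filter (fun β => ¬ ∑ j, w (e j) * β j = ∑ j, w (e j) * β₀ j),
      c β * ∏ j, x j ^ β j ∈ Fl p D w hw (∑ j, w (e j) * β₀ j + 1) := by
    refine Ideal.sum_mem _ fun β hβ => ?_
    rw [Finset.mem_filter] at hβ
    by_cases h3 : c β = 0
    · rw [h3, zero_mul]; exact zero_mem _
    · have h4 := hmin β (Finset.mem_filter.2 ⟨hβ.1, h3⟩)
      have h5 := hβ.2
      exact Ideal.mul_mem_left _ _
        (Fl_anti p D hw (by omega) (filt_prod p D hw e x hx Finset.univ β))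
  have h3 := filt_hom p D hw e x δ hδ hx hd hn _ _ (fun β => β) (Set.injOn_id _)
    (fun β hβ => (Finset.mem_filter.1 hβ).2) c ((Ideal.add_mem_iff_left _ h2).1 h1) β₀
    (Finset.mem_filter.2 ⟨hβ₀.1, rfl⟩)
  exact hβ₀.2 (hc β₀ hβ₀.1 h3)

end GPC96

end

-- part MP_57341d_ag.H96.Alg
section

/-! The polynomial ring in `x₁, y₁, x₂, y₂, w` with its two invariant derivations. -/

open MvPolynomial

namespace GPC96

/-- Constants: the invariants `g, h` and `g', h'` of the two cubics, and `a, b, ρ`. -/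
structure Par where
  (g h g' h' a b ρ : ℂ)

/-- Variables `0,1,2,3,4` are `x₁, y₁, x₂, y₂, w`. -/
abbrev R5 := MvPolynomial (Fin 5) ℂ

variable (P : Par)

noncomputable def D1 : Derivation ℂ R5 R5 :=
  mkDerivation ℂ ![X 1, 6 * X 0 ^ 2 - C (P.g / 2), 0, 0, -X 0 - C P.a]

noncomputable def D2 : Derivation ℂ R5 R5 :=
  mkDerivation ℂ ![0, 0, X 3, 6 * X 2 ^ 2 - C (P.g' / 2), C P.ρ * (X 2 + C P.b)]

noncomputable def D3 : Derivation ℂ R5 R5 := mkDerivation ℂ ![0, 0, 0, 0, 1]

noncomputable def E1 : R5 := X 1 ^ 2 - (4 * X 0 ^ 3 - C P.g * X 0 - C P.h)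

noncomputable def E2 : R5 := X 3 ^ 2 - (4 * X 2 ^ 3 - C P.g' * X 2 - C P.h')

/-- The ideal of the two cubics. -/
noncomputable def EI : Ideal R5 := Ideal.span {E1 P, E2 P}

/-- `x₁, x₂, w`. -/
def emb : Fin 3 → Fin 5 := ![0, 2, 4]

@[simp] theorem D1_X0 : D1 P (X 0) = X 1 := by simp [D1]
@[simp] theorem D1_X1 : D1 P (X 1) = 6 * X 0 ^ 2 - C (P.g / 2) := by simp [D1]
@[simp] theorem D1_X2 : D1 P (X 2) = 0 := by simp [D1]
@[simp] theorem D1_X3 : D1 P (X 3) = 0 := by simp [D1]
@[simp] theorem D1_X4 : D1 P (X 4) = -X 0 - C P.a := by simp [D1]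
@[simp] theorem D2_X0 : D2 P (X 0) = 0 := by simp [D2]
@[simp] theorem D2_X1 : D2 P (X 1) = 0 := by simp [D2]
@[simp] theorem D2_X2 : D2 P (X 2) = X 3 := by simp [D2]
@[simp] theorem D2_X3 : D2 P (X 3) = 6 * X 2 ^ 2 - C (P.g' / 2) := by simp [D2]
@[simp] theorem D2_X4 : D2 P (X 4) = C P.ρ * (X 2 + C P.b) := by simp [D2]
@[simp] theorem D3_X0 : D3 (X 0) = 0 := by simp [D3]
@[simp] theorem D3_X1 : D3 (X 1) = 0 := by simp [D3]
@[simp] theorem D3_X2 : D3 (X 2) = 0 := by simp [D3]
@[simp] theorem D3_X3 : D3 (X 3) = 0 := by simp [D3]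
@[simp] theorem D3_X4 : D3 (X 4) = 1 := by simp [D3]

theorem der_C (D : Derivation ℂ R5 R5) (c : ℂ) : D (C c) = 0 := D.map_algebraMap c

@[simp] theorem der_two (D : Derivation ℂ R5 R5) : D 2 = 0 := D.map_natCast 2
@[simp] theorem der_four (D : Derivation ℂ R5 R5) : D 4 = 0 := D.map_natCast 4
@[simp] theorem der_six (D : Derivation ℂ R5 R5) : D 6 = 0 := D.map_natCast 6

theorem C_half (c : ℂ) : (C c : R5) = 2 * C (c / 2) := by
  rw [show (2 : R5) = C 2 from rfl, ← C_mul]; congr 1; ring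

theorem D1_E1 : D1 P (E1 P) = 0 := by
  simp [E1, Derivation.leibniz_pow]
  rw [C_half P.g]; ring

theorem D1_E2 : D1 P (E2 P) = 0 := by simp [E2, Derivation.leibniz_pow]

theorem D2_E1 : D2 P (E1 P) = 0 := by simp [E1, Derivation.leibniz_pow]

theorem D2_E2 : D2 P (E2 P) = 0 := by
  simp [E2, Derivation.leibniz_pow]
  rw [C_half P.g']; ring

theorem D3_E1 : D3 (E1 P) = 0 := by simp [E1, Derivation.leibniz_pow]

theorem D3_E2 : D3 (E2 P) = 0 := by simp [E2, Derivation.leibniz_pow]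

theorem D1_D2 (f : R5) : D1 P (D2 P f) = D2 P (D1 P f) := by
  have h : ⁅D1 P, D2 P⁆ = 0 := by
    refine derivation_ext fun i => ?_
    fin_cases i <;> simp [Derivation.commutator_apply, Derivation.leibniz_pow]
  have := congrArg (fun D : Derivation ℂ R5 R5 => D f) h
  simpa [Derivation.commutator_apply, sub_eq_zero] using this

theorem E1_mem : E1 P ∈ EI P := Ideal.subset_span (by simp)

theorem E2_mem : E2 P ∈ EI P := Ideal.subset_span (by simp)

/-- A derivation killing both cubics preserves `EI`. -/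
theorem EI_stable (D : Derivation ℂ R5 R5) (h1 : D (E1 P) = 0) (h2 : D (E2 P) = 0) {f : R5}
    (hf : f ∈ EI P) : D f ∈ EI P := by
  obtain ⟨a, b, rfl⟩ := Ideal.mem_span_pair.mp hf
  simp only [map_add, Derivation.leibniz, h1, h2, smul_eq_mul, mul_zero, zero_add]
  exact add_mem (Ideal.mul_mem_right _ _ (E1_mem P)) (Ideal.mul_mem_right _ _ (E2_mem P))

open Pool.Agent.MP_d171e3_nt in
/-- The input from function theory used by the zero estimate. -/
structure Good : Prop where
  ns1 : ∀ x y : ℂ, y ^ 2 = 4 * x ^ 3 - P.g * x - P.h → y ≠ 0 ∨ 6 * x ^ 2 - P.g / 2 ≠ 0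
  ns2 : ∀ x y : ℂ, y ^ 2 = 4 * x ^ 3 - P.g' * x - P.h' → y ≠ 0 ∨ 6 * x ^ 2 - P.g' / 2 ≠ 0
  h2 : ∀ p : Ideal R5, p.IsPrime → EI P ≤ p → (∀ f ∈ p, D1 P f ∈ p) → (∀ f ∈ p, D2 P f ∈ p) →
    3 ≤ dm p
  h1 : ∀ p : Ideal R5, p.IsPrime → EI P ≤ p → ∀ α β : ℂ, (α ≠ 0 ∨ β ≠ 0) →
    (∀ f ∈ p, C α * D1 P f + C β * D2 P f ∈ p) → 2 ≤ dm p
  low1 : ∀ (F : R5) (s : ℕ), ∃ G : R5, G.totalDegree ≤ 4 * F.totalDegree ∧
    G - (D1 P)^[s] F ∈ Ideal.span {f | ∃ s' < s, f = (D1 P)^[s'] F} ⊔ EI P
  low2 : ∀ (F : R5) (s : ℕ), ∃ G : R5, G.totalDegree ≤ 4 * F.totalDegree ∧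
    G - (D2 P)^[s] F ∈ Ideal.span {f | ∃ s' < s, f = (D2 P)^[s'] F} ⊔ EI P

end GPC96

end

-- part MP_57341d_ag.H96.Span
section

/-! Upper bound for the size of a family independent modulo a saturated ideal. -/

open MvPolynomial Pool.Agent.MP_d171e3_nt

namespace GPC96

/-- The subalgebra generated by the variables `x₁, x₂, w` indexed by `S`. -/
noncomputable def Bs (S : Finset (Fin 3)) : Subalgebra ℂ R5 :=
  Algebra.adjoin ℂ ((fun i => X (emb i)) '' (S : Set (Fin 3)))

/-- `S` indexes a transcendence basis of `R5 / p`. -/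
structure IsBas (p : Ideal R5) (S : Finset (Fin 3)) : Prop where
  inj : ∀ b ∈ Bs S, b ∈ p → b = 0
  alg : ∀ f : R5, ∃ q : Polynomial (Bs S), q ≠ 0 ∧ Polynomial.aeval f q ∈ p

theorem span_alg (P : Par) (p : Ideal R5) [p.IsPrime] (hE : EI P ≤ p) :
    Algebra.IsAlgebraic (Algebra.adjoin ℂ (Set.range fun i => Ideal.Quotient.mk p (X (emb i))))
      (R5 ⧸ p) := by
  obtain ⟨B, hB⟩ : ∃ B : Subalgebra ℂ (R5 ⧸ p),
      B = Algebra.adjoin ℂ (Set.range fun i => Ideal.Quotient.mk p (X (emb i))) := ⟨_, rfl⟩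
  rw [← hB]
  have hm : ∀ i, Ideal.Quotient.mk p (X (emb i)) ∈ B := fun i =>
    hB ▸ Algebra.subset_adjoin ⟨i, rfl⟩
  have hi : ∀ x ∈ B, IsIntegral B x := fun x hx => isIntegral_algebraMap (x := (⟨x, hx⟩ : B))
  have hC : ∀ c : ℂ, Ideal.Quotient.mk p (C c) ∈ B := fun c => B.algebraMap_mem c
  have hsq : ∀ (x y : R5) (g h : ℂ), Ideal.Quotient.mk p x ∈ B →
      y ^ 2 - (4 * x ^ 3 - C g * x - C h) ∈ p → IsIntegral B (Ideal.Quotient.mk p y) := by
    intro x y g h hx hy
    refine IsIntegral.of_pow two_pos (hi _ ?_)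
    rw [← map_pow, Ideal.Quotient.eq.mpr hy]
    simp only [map_sub, map_mul, map_pow, map_ofNat]
    exact B.sub_mem (B.sub_mem (B.mul_mem (ofNat_mem B 4) (B.pow_mem hx 3))
      (B.mul_mem (hC g) hx)) (hC h)
  refine ⟨fun x => IsIntegral.isAlgebraic ?_⟩
  obtain ⟨f, rfl⟩ := Ideal.Quotient.mk_surjective x
  induction f using MvPolynomial.induction_on with
  | C c => exact hi _ (hC c)
  | add f g hf hg => rw [map_add]; exact hf.add hg
  | mul_X f i hf =>
    rw [map_mul]
    refine hf.mul ?_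
    fin_cases i
    · exact hi _ (hm 0)
    · exact hsq _ _ _ _ (hm 0) (hE (E1_mem P))
    · exact hi _ (hm 1)
    · exact hsq _ _ _ _ (hm 1) (hE (E2_mem P))
    · exact hi _ (hm 2)

theorem span_exists_tb (P : Par) (p : Ideal R5) [p.IsPrime] (hE : EI P ≤ p) :
    ∃ S : Finset (Fin 3),
      IsTranscendenceBasis ℂ fun i : S => Ideal.Quotient.mk p (X (emb i)) := by
  classical
  have := span_alg P p hE
  obtain ⟨t, hts, ht⟩ := exists_isTranscendenceBasis_subset (R := ℂ)
    (Set.range fun i => Ideal.Quotient.mk p (X (emb i)))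
  choose c hc using fun x : t => hts x.2
  have hci : Function.Injective c := fun x y h => Subtype.ext (by rw [← hc x, ← hc y, h])
  refine ⟨Finset.univ.filter fun i => i ∈ Set.range c, ?_⟩
  let e : t ≃ (Finset.univ.filter fun i => i ∈ Set.range c : Finset (Fin 3)) :=
    (Equiv.ofInjective c hci).trans (Equiv.subtypeEquivRight fun i => by simp)
  refine (isTranscendenceBasis_equiv e).mp ?_
  convert ht using 1
  exact funext hc

theorem span_isBas {p : Ideal R5} {S : Finset (Fin 3)}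
    (hS : IsTranscendenceBasis ℂ fun i : S => Ideal.Quotient.mk p (X (emb i))) : IsBas p S := by
  have e1 : Bs S = (aeval (fun i : S => (X (emb i) : R5)) : MvPolynomial S ℂ →ₐ[ℂ] R5).range := by
    rw [← Algebra.adjoin_range_eq_range_aeval, Bs, Set.image_eq_range]
    rfl
  have e2 : ∀ F : MvPolynomial S ℂ, Ideal.Quotient.mk p (aeval (fun i : S => (X (emb i) : R5)) F) =
      aeval (fun i : S => Ideal.Quotient.mk p (X (emb i))) F := fun F =>
    comp_aeval_apply _ (Ideal.Quotient.mkₐ ℂ p) F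
  refine ⟨fun b hb hp => ?_, fun f => ?_⟩
  · rw [e1] at hb
    obtain ⟨F, rfl⟩ := hb
    have h := Ideal.Quotient.eq_zero_iff_mem.mpr hp
    have h2 := algebraicIndependent_iff.mp hS.1 F ((e2 F).symm.trans h)
    rw [h2]
    exact map_zero _
  · obtain ⟨B, hB⟩ : ∃ B : Subalgebra ℂ (R5 ⧸ p), B = Algebra.adjoin ℂ
        (Set.range fun i : S => Ideal.Quotient.mk p (X (emb i))) := ⟨_, rfl⟩
    have ha : Algebra.IsAlgebraic B (R5 ⧸ p) := hB ▸ hS.isAlgebraic
    have hm : ∀ x, x ∈ B ↔ ∃ b ∈ Bs S, Ideal.Quotient.mk p b = x := fun x => by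
      rw [hB, Algebra.adjoin_range_eq_range_aeval, e1]
      constructor
      · rintro ⟨F, rfl⟩
        exact ⟨_, ⟨F, rfl⟩, e2 F⟩
      · rintro ⟨_, ⟨F, rfl⟩, rfl⟩
        exact ⟨F, (e2 F).symm⟩
    let φ : Bs S →+* B := ((Ideal.Quotient.mk p).comp (Bs S).val.toRingHom).codRestrict B
      fun b => (hm _).mpr ⟨b, b.2, rfl⟩
    have hφ : Function.Surjective φ := fun x => by
      obtain ⟨b, hb, h⟩ := (hm x).mp x.2
      exact ⟨⟨b, hb⟩, Subtype.ext h⟩
    obtain ⟨q', hq, h0⟩ := ha.isAlgebraic (Ideal.Quotient.mk p f)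
    obtain ⟨q, rfl⟩ := Polynomial.map_surjective φ hφ q'
    refine ⟨q, fun h => hq (by rw [h, Polynomial.map_zero]), ?_⟩
    rw [← Ideal.Quotient.eq_zero_iff_mem, ← h0]
    exact Polynomial.map_aeval_eq_aeval_map (φ := φ) (ψ := Ideal.Quotient.mk p) rfl q f

/-- Hint: imitate `exists_indep` of `Pool/Agent/MP_d171e3_nt/Dim.lean`: the quotient is integral
over the subalgebra generated by the images of `x₁, x₂, w`, use
`exists_isTranscendenceBasis_subset`. -/
theorem exists_bas (P : Par) (p : Ideal R5) [p.IsPrime] (hE : EI P ≤ p) :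
    ∃ S : Finset (Fin 3), S.card = dm p ∧ IsBas p S := by
  obtain ⟨S, hS⟩ := span_exists_tb P p hE
  refine ⟨S, ?_, span_isBas hS⟩
  have h := hS.cardinalMk_eq_trdeg
  rw [← dm_cast, Cardinal.mk_fintype, Fintype.card_coe] at h
  exact_mod_cast h

/-- Generic spanning, for a domain `B`.  `Gen N g`: a nonzero multiple of `g` lies in `N`. -/
def Gen {B R : Type} [CommRing B] [CommRing R] [Algebra B R] (N : Submodule B R) (g : R) : Prop :=
  ∃ s : B, s ≠ 0 ∧ s • g ∈ N

/-- Hint: scale each `f i` by its multiplier (independence in the quotient persists) and use the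
strong rank condition (`linearIndependent_le_span_finset` or `LinearIndependent.fintype_card_le_finrank`
in `R ⧸ J`). -/
theorem card_le_of_gen {B R : Type} [CommRing B] [IsDomain B] [CommRing R] [Algebra B R]
    (J : Submodule B R) {κ : Type} [Fintype κ] (f : κ → R)
    (hf : ∀ c : κ → B, ∑ i, c i • f i ∈ J → c = 0) (b : Finset R)
    (hg : ∀ i, Gen (Submodule.span B (b : Set R) ⊔ J) (f i)) : Fintype.card κ ≤ b.card := by
  classical
  choose s hs hm using hg
  have hl : LinearIndependent B fun i => J.mkQ (s i • f i) := by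
    rw [Fintype.linearIndependent_iff]
    intro c hc i
    have h1 : ∑ i, (c i * s i) • f i ∈ J := by
      rw [← Submodule.Quotient.mk_eq_zero, ← Submodule.mkQ_apply, map_sum, ← hc]
      exact Finset.sum_congr rfl fun i _ => by rw [mul_smul, map_smul]
    exact (mul_eq_zero.mp (congrFun (hf _ h1) i)).resolve_right (hs i)
  have h2 := linearIndependent_le_span_aux' _ hl ((b.image J.mkQ : Finset (R ⧸ J)) : Set (R ⧸ J))
    (by
      rintro _ ⟨i, rfl⟩
      obtain ⟨x, hx, y, hy, h⟩ := Submodule.mem_sup.mp (hm i)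
      have h3 : J.mkQ (s i • f i) = J.mkQ x := by
        rw [← h, map_add, Submodule.mkQ_apply J y, (Submodule.Quotient.mk_eq_zero J).mpr hy,
          add_zero]
      beta_reduce
      rw [h3, Finset.coe_image, ← Submodule.map_span]
      exact Submodule.mem_map_of_mem hx)
  refine h2.trans ?_
  simp only [Finset.coe_sort_coe, Fintype.card_coe]
  exact Finset.card_image_le

theorem span_red (P : Par) {B : Subalgebra ℂ R5} (W : Submodule B R5) (K : ℕ)
    (hE : ∀ x ∈ EI P, x ∈ W) (hW : ∀ (a : Fin 3 → ℕ) (e d : ℕ), (∀ i, a i ≤ K) → e < 2 → d < 2 →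
      (∏ i, X (emb i) ^ a i) * X 1 ^ e * X 3 ^ d ∈ W) (N : ℕ) (hN : 3 * N ≤ K) (f : R5)
    (hf : f.totalDegree ≤ N) : f ∈ W := by
  have hC : ∀ (c : ℂ) (x : R5), x ∈ W → C c * x ∈ W := fun c x hx => by
    rw [← smul_eq_C_mul]
    exact W.smul_of_tower_mem c hx
  have h4 : ∀ x : R5, x ∈ W → 4 * x ∈ W := fun x hx => hC 4 x hx
  have key : ∀ (n a b c e d : ℕ), e + d ≤ n → a + 3 * e ≤ K → b + 3 * d ≤ K → c ≤ K →
      (X 0 ^ a * X 2 ^ b * X 4 ^ c * X 1 ^ e * X 3 ^ d : R5) ∈ W := by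
    intro n
    induction n using Nat.strong_induction_on with
    | _ n ih =>
      intro a b c e d hn ha hb hc
      by_cases he : e < 2
      · by_cases hd : d < 2
        · have := hW ![a, b, c] e d (fun i => by fin_cases i <;> simp <;> omega) he hd
          simpa [Fin.prod_univ_three, emb] using this
        · obtain ⟨d, rfl⟩ := Nat.exists_eq_add_of_le' (not_lt.mp hd)
          have e1 : (X 0 ^ a * X 2 ^ b * X 4 ^ c * X 1 ^ e * X 3 ^ (d + 2) : R5) =
              X 0 ^ a * X 2 ^ b * X 4 ^ c * X 1 ^ e * X 3 ^ d * E2 P +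
              (4 * (X 0 ^ a * X 2 ^ (b + 3) * X 4 ^ c * X 1 ^ e * X 3 ^ d) -
              C P.g' * (X 0 ^ a * X 2 ^ (b + 1) * X 4 ^ c * X 1 ^ e * X 3 ^ d) -
              C P.h' * (X 0 ^ a * X 2 ^ b * X 4 ^ c * X 1 ^ e * X 3 ^ d)) := by
            unfold E2; ring
          rw [e1]
          refine W.add_mem (hE _ (Ideal.mul_mem_left _ _ (E2_mem P)))
            (W.sub_mem (W.sub_mem (h4 _ ?_) (hC _ _ ?_)) (hC _ _ ?_)) <;>
          exact ih (e + d) (by omega) _ _ _ _ _ le_rfl (by omega) (by omega) hc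
      · obtain ⟨e, rfl⟩ := Nat.exists_eq_add_of_le' (not_lt.mp he)
        have e1 : (X 0 ^ a * X 2 ^ b * X 4 ^ c * X 1 ^ (e + 2) * X 3 ^ d : R5) =
            X 0 ^ a * X 2 ^ b * X 4 ^ c * X 1 ^ e * X 3 ^ d * E1 P +
            (4 * (X 0 ^ (a + 3) * X 2 ^ b * X 4 ^ c * X 1 ^ e * X 3 ^ d) -
            C P.g * (X 0 ^ (a + 1) * X 2 ^ b * X 4 ^ c * X 1 ^ e * X 3 ^ d) -
            C P.h * (X 0 ^ a * X 2 ^ b * X 4 ^ c * X 1 ^ e * X 3 ^ d)) := by
          unfold E1; ring
        rw [e1]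
        refine W.add_mem (hE _ (Ideal.mul_mem_left _ _ (E1_mem P)))
          (W.sub_mem (W.sub_mem (h4 _ ?_) (hC _ _ ?_)) (hC _ _ ?_)) <;>
        exact ih (e + d) (by omega) _ _ _ _ _ le_rfl (by omega) (by omega) hc
  rw [f.as_sum]
  refine W.sum_mem fun u hu => ?_
  have h1 : u.sum (fun _ e => e) ≤ N := (le_totalDegree hu).trans hf
  rw [Finsupp.sum_fintype _ _ fun _ => rfl, Fin.sum_univ_five] at h1
  rw [monomial_eq, Finsupp.prod_fintype _ _ fun _ => pow_zero _, Fin.prod_univ_five]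
  refine hC _ _ ?_
  have := key _ (u 0) (u 2) (u 4) (u 1) (u 3) le_rfl (by omega) (by omega) (by omega)
  convert this using 1
  ring

/-- Reduction modulo the cubics: a polynomial of degree `≤ N` is, modulo `EI`, a `Bs S`-combination
of the monomials `y₁^ε y₂^δ ∏_{i ∉ S} (X (emb i))^(a i)`, `ε, δ ≤ 1`, `a i ≤ 3 N`.  Hint: the
`ℂ`-span `M N` of `x₁^a x₂^b w^c y₁^ε y₂^δ` (`a, b, c ≤ 3N`) plus `EI` satisfies
`X i * M N ⊆ M (N+1)`. -/
theorem exists_red (P : Par) (S : Finset (Fin 3)) (N : ℕ) :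
    ∃ b : Finset R5, b.card ≤ 4 * (3 * N + 1) ^ (3 - S.card) ∧ ∀ f : R5, f.totalDegree ≤ N →
      f ∈ Submodule.span (Bs S) (b : Set R5) ⊔ (EI P).restrictScalars (Bs S) := by
  classical
  obtain ⟨T, hT⟩ : ∃ T : Finset (Fin 3 → ℕ), T = Fintype.piFinset fun i =>
      if i ∈ S then {0} else Finset.range (3 * N + 1) := ⟨_, rfl⟩
  refine ⟨(T ×ˢ Finset.range 2 ×ˢ Finset.range 2).image fun q =>
    (∏ i, X (emb i) ^ q.1 i) * X 1 ^ q.2.1 * X 3 ^ q.2.2, ?_, fun f hf => ?_⟩
  · refine Finset.card_image_le.trans (le_of_eq ?_)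
    have h : T.card = (3 * N + 1) ^ (3 - S.card) := by
      rw [hT, Fintype.card_piFinset]
      simp only [apply_ite Finset.card, Finset.card_singleton, Finset.card_range]
      rw [Finset.prod_ite, Finset.prod_const_one, one_mul, Finset.prod_const,
        Finset.filter_notMem_eq_sdiff, Finset.card_univ_sdiff, Fintype.card_fin]
    simp only [Finset.card_product, Finset.card_range, h]
    ring
  refine span_red P _ (3 * N) (fun x hx => Submodule.mem_sup_right hx) (fun a e d ha he hd => ?_)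
    N le_rfl f hf
  refine Submodule.mem_sup_left ?_
  have h0 : ∀ i ∈ S, (X (emb i) : R5) ∈ Bs S := fun i hi =>
    Algebra.subset_adjoin (Set.mem_image_of_mem _ hi)
  have h1 : (∏ i ∈ S, X (emb i) ^ a i : R5) ∈ Bs S :=
    Subalgebra.prod_mem _ fun i hi => Subalgebra.pow_mem _ (h0 i hi) _
  have h3 : (∏ i, X (emb i) ^ a i : R5) =
      (∏ i ∈ S, X (emb i) ^ a i) * ∏ i, X (emb i) ^ (if i ∈ S then 0 else a i) := by
    rw [← Finset.prod_ite_mem_eq S, ← Finset.prod_mul_distrib]
    exact Finset.prod_congr rfl fun i _ => by split_ifs <;> simp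
  have h2 : (∏ i, X (emb i) ^ a i : R5) * X 1 ^ e * X 3 ^ d = (⟨_, h1⟩ : Bs S) •
      ((∏ i, X (emb i) ^ (if i ∈ S then 0 else a i)) * X 1 ^ e * X 3 ^ d : R5) := by
    rw [Subalgebra.smul_def, smul_eq_mul, ← mul_assoc, ← mul_assoc, h3]
  rw [h2]
  refine Submodule.smul_mem _ _ (Submodule.subset_span ?_)
  rw [Finset.mem_coe, Finset.mem_image]
  refine ⟨(fun i => if i ∈ S then 0 else a i, e, d), ?_, rfl⟩
  simp only [hT, Finset.mem_product, Fintype.mem_piFinset, Finset.mem_range]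
  refine ⟨fun i => ?_, he, hd⟩
  split_ifs
  · simp
  · exact Finset.mem_range.mpr (Nat.lt_succ_of_le (ha i))

end GPC96

end

-- part MP_57341d_ag.H96.GenSpan
section

/-! Generic spanning modulo powers of an ideal, and the resulting upper bound. -/

open MvPolynomial Pool.Agent.MP_d171e3_nt

namespace GPC96


section Sat

variable {B R : Type} [CommRing B] [IsDomain B] [CommRing R] [Algebra B R]

/-- The saturation of a submodule. -/
def genspanSat (N : Submodule B R) : Submodule B R where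
  carrier := {g | Gen N g}
  zero_mem' := ⟨1, one_ne_zero, by simp⟩
  add_mem' := by
    rintro f g ⟨s, hs, hf⟩ ⟨t, ht, hg⟩
    refine ⟨s * t, mul_ne_zero hs ht, ?_⟩
    rw [smul_add]
    refine add_mem ?_ ?_
    · rw [mul_comm, mul_smul]; exact N.smul_mem _ hf
    · rw [mul_smul]; exact N.smul_mem _ hg
  smul_mem' := by
    rintro c g ⟨s, hs, hg⟩
    refine ⟨s, hs, ?_⟩
    rw [smul_comm]; exact N.smul_mem _ hg

theorem genspan_mem {N : Submodule B R} {g : R} : g ∈ genspanSat N ↔ Gen N g := Iff.rfl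

theorem genspan_le (N : Submodule B R) : N ≤ genspanSat N :=
  fun g hg => ⟨1, one_ne_zero, by simpa using hg⟩

theorem genspan_of_smul {N : Submodule B R} {g : R} {s : B} (hs : s ≠ 0)
    (h : s • g ∈ genspanSat N) : g ∈ genspanSat N := by
  obtain ⟨t, ht, hg⟩ := h
  exact ⟨t * s, mul_ne_zero ht hs, by rwa [mul_smul]⟩

theorem genspan_trans {M N : Submodule B R} (h : M ≤ genspanSat N) :
    genspanSat M ≤ genspanSat N := by
  rintro g ⟨s, hs, hg⟩
  exact genspan_of_smul hs (h hg)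

end Sat

/-- Step (1). -/
theorem genspan_colon {R : Type} [CommRing R] [IsNoetherianRing R] {p I : Ideal R} [p.IsPrime]
    (hp : p ∈ I.minimalPrimes) : ∃ (e : ℕ) (u : R), u ∉ p ∧ ∀ x ∈ p ^ e, u * x ∈ I := by
  let A := Localization.AtPrime p
  let K : Ideal R := (I.map (algebraMap R A)).comap (algebraMap R A)
  have h1 : p ≤ K.radical := by
    intro x hx
    have : algebraMap R A x ∈ (I.map (algebraMap R A)).radical := by
      rw [IsLocalization.AtPrime.radical_map_of_mem_minimalPrimes A p I hp]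
      exact Ideal.mem_map_of_mem _ hx
    obtain ⟨n, hn⟩ := this
    exact ⟨n, by simpa [K, Ideal.mem_comap] using hn⟩
  obtain ⟨e, he⟩ := Ideal.exists_pow_le_of_le_radical_of_fg h1 (IsNoetherian.noetherian p)
  have h2 : ∀ x ∈ K, ∃ u, u ∉ p ∧ u * x ∈ I := by
    intro x hx
    obtain ⟨m, hm, hmx⟩ := (IsLocalization.algebraMap_mem_map_algebraMap_iff p.primeCompl A I x).mp hx
    exact ⟨m, hm, hmx⟩
  have h3 : ∀ L : Ideal R, L.FG → L ≤ K → ∃ u, u ∉ p ∧ ∀ x ∈ L, u * x ∈ I := by
    intro L hL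
    induction L, hL using Submodule.fg_induction with
    | singleton x =>
      intro hx
      obtain ⟨u, hu, hux⟩ := h2 x (hx (Submodule.mem_span_singleton_self x))
      refine ⟨u, hu, fun y hy => ?_⟩
      obtain ⟨a, rfl⟩ := Submodule.mem_span_singleton.mp hy
      rw [smul_eq_mul, mul_left_comm]
      exact I.mul_mem_left _ hux
    | sup L₁ L₂ _ _ h₁ h₂ =>
      intro hL
      obtain ⟨u, hu, hu'⟩ := h₁ (le_sup_left.trans hL)
      obtain ⟨v, hv, hv'⟩ := h₂ (le_sup_right.trans hL)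
      refine ⟨u * v, fun h => (Ideal.IsPrime.mem_or_mem ‹_› h).elim hu hv, fun y hy => ?_⟩
      obtain ⟨a, ha, b, hb, rfl⟩ := Submodule.mem_sup.mp hy
      rw [mul_add]
      refine add_mem ?_ ?_
      · rw [mul_comm u v, mul_assoc]; exact I.mul_mem_left _ (hu' a ha)
      · rw [mul_assoc]; exact I.mul_mem_left _ (hv' b hb)
  obtain ⟨u, hu, hu'⟩ := h3 (p ^ e) (IsNoetherian.noetherian _) he
  exact ⟨e, u, hu, hu'⟩

/-- Step (2). -/
theorem genspan_unit {B R : Type} [CommRing B] [CommRing R] [Algebra B R] {p : Ideal R}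
    [p.IsPrime] {u : R} (hu : u ∉ p) {q : Polynomial B} (hq : q ≠ 0)
    (h : Polynomial.aeval u q ∈ p) :
    ∃ (s : B) (v : R), s ≠ 0 ∧ algebraMap B R s - u * v ∈ p := by
  obtain ⟨r, hr, hnd⟩ := Polynomial.exists_eq_pow_rootMultiplicity_mul_and_not_dvd q hq 0
  rw [hr, map_mul, map_pow] at h
  simp only [map_zero, sub_zero, Polynomial.aeval_X] at h hnd
  have hr' : Polynomial.aeval u r ∈ p := by
    rcases Ideal.IsPrime.mem_or_mem ‹_› h with h1 | h1
    · exact absurd (Ideal.IsPrime.mem_of_pow_mem ‹_› _ h1) hu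
    · exact h1
  refine ⟨r.coeff 0, -Polynomial.aeval u r.divX, fun h0 => hnd (Polynomial.X_dvd_iff.mpr h0), ?_⟩
  have h2 := congrArg (Polynomial.aeval u) (Polynomial.X_mul_divX_add r)
  simp only [map_add, map_mul, Polynomial.aeval_X, Polynomial.aeval_C] at h2
  rw [← h2] at hr'
  convert hr' using 1
  ring

/-- The `Bs S`-span of the polynomials of degree at most `N`. -/
noncomputable def genspanM (S : Finset (Fin 3)) (N : ℕ) : Submodule (Bs S) R5 :=
  Submodule.span (Bs S) {f : R5 | f.totalDegree ≤ N}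

theorem genspanM_mul {S : Finset (Fin 3)} {N M : ℕ} {m h : R5} (hm : m ∈ genspanM S N)
    (hh : h.totalDegree ≤ M) : m * h ∈ genspanM S (N + M) := by
  induction hm using Submodule.span_induction with
  | mem f hf =>
    exact Submodule.subset_span ((totalDegree_mul f h).trans (add_le_add hf hh))
  | zero => simp
  | add f g _ _ hf hg => rw [add_mul]; exact add_mem hf hg
  | smul a f _ hf => rw [smul_mul_assoc]; exact Submodule.smul_mem _ _ hf

/-- A submodule containing the monomials of degree at most `m` contains all polynomials of degree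
at most `m`. -/
theorem genspan_of_monomial {S : Finset (Fin 3)} (N : Submodule (Bs S) R5) (m : ℕ)
    (h : ∀ a : Fin 5 →₀ ℕ, (a.sum fun _ e => e) ≤ m → monomial a (1 : ℂ) ∈ N) (f : R5)
    (hf : f.totalDegree ≤ m) : f ∈ N := by
  rw [f.as_sum]
  refine Submodule.sum_mem _ fun a ha => ?_
  have h1 : monomial a (coeff a f) = (algebraMap ℂ (Bs S) (coeff a f)) • monomial a (1 : ℂ) := by
    rw [algebraMap_smul, smul_monomial, smul_eq_mul, mul_one]
  rw [h1]
  exact N.smul_mem _ (h a ((le_totalDegree ha).trans hf))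

/-- Step (3). -/
theorem genspan_fin {S : Finset (Fin 3)} (K : Ideal R5)
    (hK : ∀ i : Fin 5, ∃ q : Polynomial (Bs S), q ≠ 0 ∧ Polynomial.aeval (X i : R5) q ∈ K) :
    ∃ N₀ : ℕ, ∀ g : R5, g ∈ genspanSat (genspanM S N₀ ⊔ K.restrictScalars (Bs S)) := by
  choose q hq0 hq using hK
  refine ⟨∑ i, (q i).natDegree, fun g => ?_⟩
  set N := genspanSat (genspanM S (∑ i, (q i).natDegree) ⊔ K.restrictScalars (Bs S)) with hN
  suffices H : ∀ m : ℕ, ∀ f : R5, f.totalDegree < m → f ∈ N from H _ g (Nat.lt_succ_self _)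
  intro m
  induction m with
  | zero => intro f hf; omega
  | succ m ih =>
    intro f hf
    refine genspan_of_monomial N m (fun a ha => ?_) f (by omega)
    by_cases h1 : (a.sum fun _ e => e) ≤ ∑ i, (q i).natDegree
    · refine genspan_le _ (Submodule.mem_sup_left (Submodule.subset_span ?_))
      exact (totalDegree_monomial_le a 1).trans h1
    have h2 : ∃ i, (q i).natDegree ≤ a i := by
      by_contra hcon
      push Not at hcon
      apply h1
      rw [Finsupp.sum_fintype _ _ (fun _ => rfl)]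
      exact Finset.sum_le_sum fun i _ => (hcon i).le
    obtain ⟨i, hi⟩ := h2
    set d := (q i).natDegree with hd
    set b : Fin 5 →₀ ℕ := a - Finsupp.single i d with hb
    have hab : a = b + Finsupp.single i d := by
      rw [hb, tsub_add_cancel_of_le]
      exact Finsupp.single_le_iff.mpr hi
    have hsum : (a.sum fun _ e => e) = (b.sum fun _ e => e) + d := by
      rw [hab, Finsupp.sum_add_index' (fun _ => rfl) (fun _ _ _ => rfl), Finsupp.sum_single_index rfl]
    have hmon : monomial a (1 : ℂ) = monomial b (1 : ℂ) * (X i : R5) ^ d := by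
      rw [X_pow_eq_monomial, monomial_mul, mul_one, ← hab]
    refine genspan_of_smul (Polynomial.leadingCoeff_ne_zero.mpr (hq0 i)) ?_
    have hev := Polynomial.aeval_eq_sum_range (p := q i) (X i : R5)
    rw [Finset.sum_range_succ] at hev
    have key : (q i).leadingCoeff • monomial a (1 : ℂ) =
        monomial b (1 : ℂ) * Polynomial.aeval (X i : R5) (q i) -
          ∑ j ∈ Finset.range d, (q i).coeff j • (monomial b (1 : ℂ) * (X i : R5) ^ j) := by
      rw [hev, mul_add, Finset.mul_sum, hmon]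
      simp only [mul_smul_comm, Polynomial.leadingCoeff, ← hd]
      abel
    rw [key]
    refine sub_mem (genspan_le _ (Submodule.mem_sup_right (K.mul_mem_left _ (hq i)))) ?_
    refine Submodule.sum_mem _ fun j hj => N.smul_mem _ (ih _ ?_)
    have hj' := Finset.mem_range.mp hj
    have h3 := totalDegree_mul (monomial b (1 : ℂ)) ((X i : R5) ^ j)
    have h4 := totalDegree_monomial_le b (1 : ℂ)
    have h5 : ((X i : R5) ^ j).totalDegree = j := totalDegree_X_pow i j
    simp only [Function.id_def] at h4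
    omega

theorem genspan_pow {I : Ideal R5} {D : ℕ}
    (hI : I ≤ Ideal.span {f | f ∈ I ∧ f.totalDegree ≤ D}) (j : ℕ) :
    I ^ j ≤ Ideal.span {f | f ∈ I ^ j ∧ f.totalDegree ≤ j * D} := by
  induction j with
  | zero =>
    rw [pow_zero, Ideal.one_eq_top, top_le_iff, Ideal.eq_top_iff_one]
    exact Ideal.subset_span ⟨trivial, by simp⟩
  | succ j ih =>
    rw [pow_succ]
    refine (Ideal.mul_mono ih hI).trans ?_
    rw [Ideal.span_mul_span', Ideal.span_le]
    rintro _ ⟨f, ⟨hf, hf'⟩, g, ⟨hg, hg'⟩, rfl⟩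
    refine Ideal.subset_span ⟨Ideal.mul_mem_mul hf hg, (totalDegree_mul f g).trans ?_⟩
    rw [add_mul, one_mul]
    exact add_le_add hf' hg'

/-- Step (4). -/
theorem genspan_step {S : Finset (Fin 3)} {I J : Ideal R5} {D N₀ : ℕ}
    (hI : I ≤ Ideal.span {f | f ∈ I ∧ f.totalDegree ≤ D})
    (h0 : ∀ g : R5, g ∈ genspanSat (genspanM S N₀ ⊔ (I ⊔ J).restrictScalars (Bs S))) (j : ℕ) :
    ∀ g : R5, g ∈ genspanSat (genspanM S (N₀ + j * D) ⊔
      (I ^ (j + 1) ⊔ J).restrictScalars (Bs S)) := by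
  induction j with
  | zero => simpa using h0
  | succ j ih =>
    intro g
    refine genspan_trans (sup_le ?_ ?_) (ih g)
    · refine le_trans ?_ (le_sup_left.trans (genspan_le _))
      refine Submodule.span_mono fun f hf => ?_
      have hf' : f.totalDegree ≤ N₀ + j * D := hf
      change f.totalDegree ≤ N₀ + (j + 1) * D
      rw [add_mul]; omega
    · intro x hx
      obtain ⟨y, hy, z, hz, rfl⟩ := Submodule.mem_sup.mp (show x ∈ I ^ (j + 1) ⊔ J from hx)
      refine add_mem ?_ (genspan_le _ (Submodule.mem_sup_right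
        (show z ∈ I ^ (j + 1 + 1) ⊔ J from Submodule.mem_sup_right hz)))
      have hy' := genspan_pow hI (j + 1) hy
      suffices H : ∀ r : R5, r * y ∈ genspanSat (genspanM S (N₀ + (j + 1) * D) ⊔
          (I ^ (j + 1 + 1) ⊔ J).restrictScalars (Bs S)) by simpa using H 1
      clear hy hx
      induction hy' using Submodule.span_induction with
      | mem h hh =>
        intro r
        obtain ⟨s, hs, hr⟩ := h0 r
        refine ⟨s, hs, ?_⟩
        obtain ⟨m, hm, w, hw, hmw⟩ := Submodule.mem_sup.mp hr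
        obtain ⟨a, ha, b, hb, rfl⟩ := Submodule.mem_sup.mp (show w ∈ I ⊔ J from hw)
        rw [← smul_mul_assoc, ← hmw, add_mul m, add_mul a]
        refine add_mem (Submodule.mem_sup_left (genspanM_mul hm hh.2)) (Submodule.mem_sup_right ?_)
        change a * h + b * h ∈ I ^ (j + 1 + 1) ⊔ J
        refine add_mem (Submodule.mem_sup_left ?_) (Submodule.mem_sup_right (J.mul_mem_right _ hb))
        rw [pow_succ' I (j + 1)]
        exact Ideal.mul_mem_mul ha hh.1
      | zero => intro r; simp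
      | add f g _ _ hf hg => intro r; rw [mul_add]; exact add_mem (hf r) (hg r)
      | smul a f _ hf => intro r; rw [smul_eq_mul, ← mul_assoc]; exact hf _

/-- The main spanning statement.  Hint.  (1) There are `e` and `u ∉ p` with `u * p ^ e ≤ I`
(`IsLocalization.AtPrime.radical_map_of_mem_minimalPrimes`, `Ideal.exists_radical_pow_le_of_fg`, or
`exists_eq_colon_of_mem_minimalPrimes`).  (2) From `hS.alg u` with a polynomial of least degree
(or dividing by powers of the variable) get `v` and `s₀ ∈ Bs S`, `s₀ ≠ 0`, `s₀ - u v ∈ p`; then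
`(s₀ - u v) ^ n ∈ J`, so `s₀ ^ n * p ^ e ≤ I ⊔ J`.  (3) There is `N₀` such that every `g` has a
nonzero `Bs S`-multiple in (span of the polynomials of degree `≤ N₀`) `⊔ p ^ e`: each `X i` is a
root of `q ^ e` modulo `p ^ e`, so `lc • X i` is integral in `R5 ⧸ p ^ e`, and the subalgebra these
generate is a finite module.  (4) Induction on `j`: every `g` is generically in
(span of degree `≤ N₀ + j D`) `⊔ I ^ (j+1) ⊔ J`; `I ^ j` is spanned by its elements of degree
`≤ j D`. -/
theorem gen_span {p I : Ideal R5} [p.IsPrime] {S : Finset (Fin 3)} (hS : IsBas p S) {D : ℕ}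
    (hp : p ∈ I.minimalPrimes) (hI : I ≤ Ideal.span {f | f ∈ I ∧ f.totalDegree ≤ D}) :
    ∃ N₀ : ℕ, ∀ (J : Ideal R5) (n k : ℕ), p ^ n ≤ J → I ^ k ≤ J → ∀ g : R5,
      Gen (Submodule.span (Bs S) {f : R5 | f.totalDegree ≤ N₀ + k * D} ⊔
        J.restrictScalars (Bs S)) g := by
  obtain ⟨e, u, hu, hue⟩ := genspan_colon hp
  obtain ⟨q, hq0, hq⟩ := hS.alg u
  obtain ⟨s, v, hs, hsv⟩ := genspan_unit hu hq0 hq
  obtain ⟨N₀, hN⟩ := genspan_fin (S := S) (p ^ e) (fun i => by
    obtain ⟨r, hr0, hr⟩ := hS.alg (X i)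
    exact ⟨r ^ e, pow_ne_zero _ hr0, by rw [map_pow]; exact Ideal.pow_mem_pow hr e⟩)
  refine ⟨N₀, fun J n k hn hk g => ?_⟩
  have h0 : ∀ g : R5, g ∈ genspanSat (genspanM S N₀ ⊔ (I ⊔ J).restrictScalars (Bs S)) := by
    intro g
    refine genspan_trans (sup_le (le_sup_left.trans (genspan_le _)) fun x hx => ?_) (hN g)
    refine ⟨s ^ n, pow_ne_zero _ hs, Submodule.mem_sup_right ?_⟩
    change (s ^ n) • x ∈ I ⊔ J
    obtain ⟨w, hw⟩ := sub_dvd_pow_sub_pow (algebraMap (Bs S) R5 s)
      (algebraMap (Bs S) R5 s - u * v) n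
    have h1 : (s ^ n) • x = (v * w) * (u * x) + (algebraMap (Bs S) R5 s - u * v) ^ n * x := by
      rw [Algebra.smul_def, map_pow]
      linear_combination x * hw
    rw [h1]
    exact add_mem (Submodule.mem_sup_left (I.mul_mem_left _ (hue x hx)))
      (Submodule.mem_sup_right (J.mul_mem_right _ (hn (Ideal.pow_mem_pow hsv n))))
  have h2 := genspan_step hI h0 k g
  have h3 : I ^ (k + 1) ⊔ J = J := sup_eq_right.mpr ((Ideal.pow_le_pow_right (by omega)).trans hk)
  rw [h3] at h2
  exact h2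

/-- The upper bound. -/
theorem card_bound (P : Par) {p I : Ideal R5} [p.IsPrime] {S : Finset (Fin 3)} (hS : IsBas p S)
    {D : ℕ} (hp : p ∈ I.minimalPrimes) (hI : I ≤ Ideal.span {f | f ∈ I ∧ f.totalDegree ≤ D}) :
    ∃ N₀ : ℕ, ∀ (J : Ideal R5) (n k : ℕ), p ^ n ≤ J → I ^ k ≤ J → EI P ≤ J →
      ∀ (κ : Type) [Fintype κ] (f : κ → R5),
        (∀ c : κ → R5, (∀ i, c i ∈ Bs S) → ∑ i, c i * f i ∈ J → c = 0) →
        Fintype.card κ ≤ 4 * (3 * (N₀ + k * D) + 1) ^ (3 - S.card) := by
  obtain ⟨N₀, hN⟩ := gen_span hS hp hI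
  refine ⟨N₀, fun J n k hn hk hE κ _ f hf => ?_⟩
  obtain ⟨b, hb, hred⟩ := exists_red P S (N₀ + k * D)
  refine le_trans (card_le_of_gen (J.restrictScalars (Bs S)) f (fun c hc => ?_) b fun i => ?_) hb
  · have h1 := hf (fun i => (c i : R5)) (fun i => (c i).2) hc
    funext i
    exact Subtype.ext (congrFun h1 i)
  · obtain ⟨s, hs, h⟩ := hN J n k hn hk (f i)
    refine ⟨s, hs, (sup_le ?_ le_sup_right : _ ≤ Submodule.span (Bs S) (b : Set R5) ⊔
      J.restrictScalars (Bs S)) h⟩
    refine Submodule.span_le.mpr fun g hg => ?_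
    exact (sup_le_sup_left (fun x hx => hE hx) _ : Submodule.span (Bs S) (b : Set R5) ⊔
      (EI P).restrictScalars (Bs S) ≤ _) (hred g hg)

end GPC96

end
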