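import Pool.Agent.MP_57341d_ag.Mg.H96_Rep
import Pool.Agent.MP_57341d_ag.Mg.H96_GenSpan
import Pool.Agent.MP_57341d_ag.Mg.H73_Gx

section

/-! Sizes of the derivatives of a polynomial. -/

open MvPolynomial GPC96

namespace GPC73

variable {τ κ : Type}

/-- Polynomials of type `(d, e, M)`; compare `GPC96.DerRepGd`. -/
inductive Gd (Rp : ℕ → ℕ → ℝ → ℂ → Prop) : ℕ → ℕ → ℝ → MvPolynomial (τ ⊕ κ) ℂ → Prop
  | const {d e M c} : 0 ≤ M → Rp d e M c → Gd Rp d e M (C c)
  | xl (i : τ) : Gd Rp 0 1 1 (X (Sum.inl i))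
  | xr (k : κ) : Gd Rp 1 0 1 (X (Sum.inr k))
  | add {d e M M' x y} : Gd Rp d e M x → Gd Rp d e M' y → Gd Rp d e (M + M') (x + y)
  | mul {d e M d' e' M' x y} : Gd Rp d e M x → Gd Rp d' e' M' y →
      Gd Rp (d + d') (e + e') (M * M') (x * y)
  | mono {d e M d' e' M' x} : Gd Rp d e M x → d ≤ d' → e ≤ e' → M ≤ M' → Gd Rp d' e' M' x

variable {Rp : ℕ → ℕ → ℝ → ℂ → Prop}

theorem Gd.nonneg {d e : ℕ} {M : ℝ} {f : MvPolynomial (τ ⊕ κ) ℂ} (h : Gd Rp d e M f) : 0 ≤ M := by
  induction h with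
  | const h _ => exact h
  | add _ _ h1 h2 => exact add_nonneg h1 h2
  | mul _ _ h1 h2 => exact mul_nonneg h1 h2
  | mono _ _ _ h h1 => exact h1.trans h
  | _ => exact zero_le_one

theorem gd_int (hR : Size Rp) (z : ℤ) :
    Gd Rp 0 0 |(z : ℝ)| (C (z : ℂ) : MvPolynomial (τ ⊕ κ) ℂ) := by
  exact Gd.const (abs_nonneg _) (hR.int z)

theorem size_zero (hR : Size Rp) (d e : ℕ) {M : ℝ} (hM : 0 ≤ M) :
    Gd Rp d e M (0 : MvPolynomial (τ ⊕ κ) ℂ) := by
  have h := (gd_int (τ := τ) (κ := κ) hR 0).mono (Nat.zero_le d) (Nat.zero_le e)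
    (M' := M) (by simpa using hM)
  simpa using h

theorem size_one (hR : Size Rp) : Gd Rp 0 0 1 (1 : MvPolynomial (τ ⊕ κ) ℂ) := by
  simpa using gd_int (τ := τ) (κ := κ) hR 1

theorem gd_sum (hR : Size Rp) {ι : Type} (s : Finset ι) (f : ι → MvPolynomial (τ ⊕ κ) ℂ) {d e : ℕ}
    {M : ℝ} (h : ∀ i ∈ s, Gd Rp d e M (f i)) : Gd Rp d e (s.card * M) (∑ i ∈ s, f i) := by
  classical
  induction s using Finset.induction_on with
  | empty => simpa using size_zero hR d e le_rfl
  | insert i s hi ih =>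
    rw [Finset.sum_insert hi, Finset.card_insert_of_notMem hi]
    have := (h i (Finset.mem_insert_self _ _)).add
      (ih fun j hj => h j (Finset.mem_insert_of_mem hj))
    convert this using 1
    push_cast; ring

theorem gd_prod (hR : Size Rp) {ι : Type} (s : Finset ι) (f : ι → MvPolynomial (τ ⊕ κ) ℂ)
    (d e : ι → ℕ) (h : ∀ i ∈ s, Gd Rp (d i) (e i) 1 (f i)) :
    Gd Rp (∑ i ∈ s, d i) (∑ i ∈ s, e i) 1 (∏ i ∈ s, f i) := by
  classical
  induction s using Finset.induction_on with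
  | empty => simpa using size_one hR
  | insert i s hi ih =>
    rw [Finset.sum_insert hi, Finset.sum_insert hi, Finset.prod_insert hi]
    simpa using (h i (Finset.mem_insert_self _ _)).mul
      (ih fun j hj => h j (Finset.mem_insert_of_mem hj))

theorem gd_pow (hR : Size Rp) {d e : ℕ} {f : MvPolynomial (τ ⊕ κ) ℂ} (h : Gd Rp d e 1 f) (n : ℕ) :
    Gd Rp (d * n) (e * n) 1 (f ^ n) := by
  induction n with
  | zero => simpa using size_one hR
  | succ n ih => simpa [pow_succ, mul_add] using ih.mul h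

theorem gd_eval (hR : Size Rp) (χ : τ ⊕ κ → ℂ) (h1 : ∀ i, Rp 0 1 1 (χ (Sum.inl i)))
    (h2 : ∀ k, Rp 1 0 1 (χ (Sum.inr k))) {d e : ℕ} {M : ℝ} {f : MvPolynomial (τ ⊕ κ) ℂ}
    (h : Gd Rp d e M f) : Rp d e M (eval χ f) := by
  induction h with
  | const _ h => rwa [eval_C]
  | xl i => simpa using h1 i
  | xr k => simpa using h2 k
  | add _ _ i1 i2 => rw [map_add]; exact hR.add i1 i2
  | mul _ _ i1 i2 => rw [map_mul]; exact hR.mul i1 i2
  | mono _ hd he hM i1 => exact hR.mono i1 hd he hM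

/-- A polynomial in the variables of the first kind. -/
theorem gd_poly (hR : Size Rp) {σ : Type} (φ : σ → τ) (f : MvPolynomial σ ℂ) {d e : ℕ}
    (h : ∀ α ∈ f.support, Rp d e 1 (coeff α f)) : Gd Rp d (e + f.totalDegree) f.support.card
      (rename (fun i => Sum.inl (φ i)) f : MvPolynomial (τ ⊕ κ) ℂ) := by
  have key : ∀ α ∈ f.support, Gd Rp d (e + f.totalDegree) 1
      (rename (fun i => Sum.inl (φ i)) (monomial α (coeff α f)) : MvPolynomial (τ ⊕ κ) ℂ) := by
    intro α hα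
    have a := (Gd.const (τ := τ) (κ := κ) zero_le_one (h α hα)).mul
      (gd_prod hR α.support (fun i => X (Sum.inl (φ i)) ^ α i) (fun i => 0 * α i)
        (fun i => 1 * α i) fun i _ => gd_pow hR (Gd.xl (φ i)) (α i))
    have b : ∑ i ∈ α.support, 1 * α i ≤ f.totalDegree := by
      simpa [Finsupp.sum] using le_totalDegree hα
    have a' := a.mono (d' := d) (e' := e + f.totalDegree) (M' := 1) (by simp) (by omega) (by simp)
    convert a' using 1
    rw [monomial_eq, map_mul, rename_C, Finsupp.prod, map_prod]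
    simp only [map_pow, rename_X]
  have := gd_sum hR f.support _ key
  rw [mul_one, ← map_sum, ← as_sum] at this
  exact this

/-- Compare `GPC96.derrep_der`. -/
theorem gd_der (hR : Size Rp) (D : Derivation ℂ (MvPolynomial (τ ⊕ κ) ℂ) (MvPolynomial (τ ⊕ κ) ℂ))
    {a : ℕ} (h1 : ∀ i, Gd Rp 0 (1 + a) a (D (X (Sum.inl i))))
    (h2 : ∀ k, Gd Rp 1 a a (D (X (Sum.inr k)))) {d e : ℕ} {M : ℝ} {f : MvPolynomial (τ ⊕ κ) ℂ}
    (h : Gd Rp d e M f) : Gd Rp d (e + a) (a * (d + e) * M) (D f) := by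
  induction h with
  | @const d e M c h _ =>
    rw [show D (C c) = 0 from D.map_algebraMap c]
    exact size_zero hR _ _ (by positivity)
  | xl i => simpa using h1 i
  | xr k => simpa using h2 k
  | add _ _ i1 i2 =>
    rw [map_add, mul_add]
    exact i1.add i2
  | @mul d e M d' e' M' x y hx hy i1 i2 =>
    rw [Derivation.leibniz, smul_eq_mul, smul_eq_mul]
    have a1 := (hx.mul i2).mono le_rfl (show e + (e' + a) ≤ e + e' + a by omega) le_rfl
    have a2 := (hy.mul i1).mono (show d' + d ≤ d + d' by omega)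
      (show e' + (e + a) ≤ e + e' + a by omega) le_rfl
    convert a1.add a2 using 1
    push_cast; ring
  | @mono d e M d' e' M' x hx hd he hM i1 =>
    refine i1.mono hd (by omega) ?_
    have h0 := hx.nonneg
    gcongr

theorem gd_ap (hR : Size Rp) {ι : Type}
    (D : ι → Derivation ℂ (MvPolynomial (τ ⊕ κ) ℂ) (MvPolynomial (τ ⊕ κ) ℂ)) {a : ℕ}
    (h1 : ∀ j i, Gd Rp 0 (1 + a) a (D j (X (Sum.inl i))))
    (h2 : ∀ j k, Gd Rp 1 a a (D j (X (Sum.inr k)))) (l : List ι) {d e : ℕ} {M : ℝ}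
    {f : MvPolynomial (τ ⊕ κ) ℂ} (h : Gd Rp d e M f) :
    Gd Rp d (e + a * l.length) ((a * (d + e + a * l.length) : ℝ) ^ l.length * M) (ap D l f) := by
  induction l generalizing e M f with
  | nil => simpa [ap] using h
  | cons j l ih =>
    have h0 := h.nonneg
    refine (ih (gd_der hR (D j) (h1 j) (h2 j) h)).mono le_rfl
      (by rw [List.length_cons, mul_add]; omega) ?_
    rw [List.length_cons, pow_succ, mul_assoc, mul_assoc]
    push_cast
    rw [show (d : ℝ) + (e + a) + a * l.length = d + e + a * (l.length + 1) by ring]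
    refine mul_le_mul_of_nonneg_left ?_ (by positivity)
    have h3 : (d : ℝ) + e ≤ d + e + a * (l.length + 1) := le_add_of_nonneg_right (by positivity)
    calc (a : ℝ) * ((d + e) * M) ≤ a * ((d + e + a * (l.length + 1)) * M) := by gcongr
      _ = _ := by ring

end GPC73

end

section

/-! The auxiliary function: arithmetic half. -/

open MvPolynomial GPC96

namespace GPC73

theorem auxar_hom {σ : Type} [Fintype σ] {f : MvPolynomial σ ℂ} {e : ℕ} (hf : f.IsHomogeneous e)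
    (v : σ → ℂ) (c : ℂ) : eval (fun i => v i / c) f = eval v f / c ^ e := by
  rw [eval_eq', eval_eq', Finset.sum_div]
  refine Finset.sum_congr rfl fun α hα => ?_
  have h1 : ∑ i, α i = e := by
    have h2 := hf (mem_support_iff.1 hα)
    rw [Finsupp.weight_apply, Finsupp.sum_fintype _ _ (by simp)] at h2
    simpa using h2
  simp only [div_pow, Finset.prod_div_distrib, Finset.prod_pow_eq_pow_sum, h1, mul_div_assoc]

theorem auxar_num {a d e K L s n : ℕ} {h : ℝ} (hL : 1 ≤ L) (hh : 0 ≤ h)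
    (hd : d + e + a * s ≤ K * (L + s)) (hn : n ≤ (L + 1) ^ K) :
    (a * (d + e + a * s) : ℝ) ^ s * (n * Real.exp h) ≤
      (Real.exp (h + L + s) * (L + s) ^ s) ^ (a * K + K + 1) := by
  have hL' : (1 : ℝ) ≤ L := by exact_mod_cast hL
  have hs : (0 : ℝ) ≤ s := Nat.cast_nonneg _
  have hK : (0 : ℝ) ≤ K := Nat.cast_nonneg _
  have ha : (0 : ℝ) ≤ a := Nat.cast_nonneg _
  have hu : (1 : ℝ) ≤ ((L : ℝ) + s) ^ s := one_le_pow₀ (by linarith)
  have h1 : (a * (d + e + a * s) : ℝ) ≤ Real.exp (a * K) * (L + s) := by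
    have h2 : ((d : ℝ) + e + a * s) ≤ K * (L + s) := by exact_mod_cast hd
    have h3 := Real.add_one_le_exp ((a : ℝ) * K)
    calc (a * (d + e + a * s) : ℝ) ≤ a * (K * (L + s)) := by gcongr
      _ = a * K * (L + s) := by ring
      _ ≤ _ := by gcongr; linarith
  have h4 : (n : ℝ) ≤ Real.exp (K * L) := by
    have h5 : (n : ℝ) ≤ ((L : ℝ) + 1) ^ K := by exact_mod_cast hn
    rw [Real.exp_nat_mul]
    exact h5.trans (pow_le_pow_left₀ (by positivity) (Real.add_one_le_exp _) K)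
  calc (a * (d + e + a * s) : ℝ) ^ s * (n * Real.exp h)
      ≤ (Real.exp (a * K) * (L + s)) ^ s * (Real.exp (K * L) * Real.exp h) := by gcongr
    _ = Real.exp (s * (a * K) + K * L + h) * (L + s) ^ s := by
      rw [mul_pow, ← Real.exp_nat_mul, Real.exp_add, Real.exp_add]; ring
    _ ≤ Real.exp (((a * K + K + 1 : ℕ) : ℝ) * (h + L + s)) * ((L + s) ^ s) ^ (a * K + K + 1) := by
      refine mul_le_mul (Real.exp_le_exp.2 ?_) (le_self_pow₀ hu (by omega)) (by positivity)
        (Real.exp_pos _).le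
      push_cast
      have h6 := mul_nonneg (mul_nonneg ha hK) hh
      have h7 := mul_nonneg (mul_nonneg ha hK) (zero_le_one.trans hL')
      have h8 := mul_nonneg hK hh
      have h9 := mul_nonneg hK hs
      linarith [show ((a : ℝ) * K + K + 1) * (h + L + s) = a * K * h + a * K * L + s * (a * K) +
        K * h + K * L + K * s + h + L + s by ring]
    _ = _ := by rw [Real.exp_nat_mul, mul_pow]

namespace Gx

variable {g N m : ℕ} {A : AbVar g N} (G : Gx A m)

/-- The arithmetic half.  Apply `exists_size` to the finite families: `τ`, `0` and the coefficients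
of the `r j l` in their supports; the values `ξ (inl i) (x, 0)` (note `θ k ^ e / B = 1 / q(x)`) and
the coefficients of the `p j i`, `pderiv i q`.  `gd_poly` gives `a` with the hypotheses of `gd_ap`;
the polynomial has type `((m + 1) L, g L, (L + 1) ^ (g + m + 1) exp h)`; `gd_eval`.  Compare
`GPC96.der_size` and its use in `H96/Main.lean`. -/
theorem aux_ar {τ : ℂ} (hτ : Transcendental ℚ τ) {x : Fin g → ℂ} (hx : G.Arith τ x)
    (y : Fin g → Fin (N + 1)) : ∃ b : ℕ, 1 ≤ b ∧ ∀ (L : ℕ) (h : ℝ) (p : Ix g m L → ℤ)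
      (l : List (Fin g)), 1 ≤ L → 0 ≤ h → (∀ i, |(p i : ℝ)| ≤ Real.exp h) → G.dval y τ x p l ≠ 0 →
      ∃ Q : Polynomial ℤ, Q ≠ 0 ∧ Q.natDegree ≤ b * L ∧
        (Q.map (Int.castRingHom ℂ)).mahlerMeasure ≤
          (Real.exp (h + L + l.length) * (L + l.length) ^ l.length) ^ b ∧
        ‖Polynomial.aeval τ Q‖ ≤ ‖G.dval y τ x p l‖ *
          (Real.exp (h + L + l.length) * (L + l.length) ^ l.length) ^ b := by
  classical
  let χ : Vr N m → ℂ := fun i => G.ξ i (x, 0)
  let S₁ : Finset ℂ := {τ, 0} ∪ Finset.univ.biUnion fun u : Fin g × Fin m => (G.r u.1 u.2).coeffs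
  let S₂ : Finset ℂ := Finset.univ.image (fun i => χ (Sum.inl i)) ∪
    (Finset.univ.biUnion fun u : Fin g × Fin (N + 1) => (G.p u.1 u.2).coeffs) ∪
      Finset.univ.biUnion fun i : Fin (N + 1) => (pderiv i G.q).coeffs
  have hnone : IsAlgebraic ℚ (χ (Sum.inl none)) := by
    have h1 : χ (Sum.inl none) = (eval (fun i => A.θ i x / A.θ G.k x) G.q)⁻¹ := by
      rw [auxar_hom G.hq, inv_div]
      rfl
    rw [h1]
    refine IsAlgebraic.inv (mem_algebraicClosure_iff.1 ?_)
    exact eval_mem (fun α _ => mem_algebraicClosure_iff.2 (hx.q α))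
      (fun i => mem_algebraicClosure_iff.2 (hx.pt i))
  obtain ⟨Rp, c, hR, hx₁, hx₂, hQ⟩ := exists_size τ hτ (fun z : S₁ => (z : ℂ))
    (fun z : S₂ => (z : ℂ)) (by
      rintro ⟨z, hz⟩
      simp only [S₁, Finset.mem_union, Finset.mem_insert, Finset.mem_singleton, Finset.mem_biUnion,
        Finset.mem_univ, true_and] at hz
      rcases hz with (rfl | rfl) | ⟨u, hu⟩
      · exact isAlgebraic_algebraMap (⟨z, Algebra.self_mem_adjoin_singleton ℚ z⟩ :
          Algebra.adjoin ℚ {z})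
      · exact isAlgebraic_zero
      · obtain ⟨α, -, rfl⟩ := mem_coeffs_iff.1 hu
        exact hx.r _ _ _) (by
      rintro ⟨z, hz⟩
      simp only [S₂, Finset.mem_union, Finset.mem_image, Finset.mem_biUnion,
        Finset.mem_univ, true_and] at hz
      rcases hz with (⟨i, rfl⟩ | ⟨u, hu⟩) | ⟨i, hu⟩
      · cases i with
        | none => exact hnone
        | some i => exact hx.pt i
      · obtain ⟨α, -, rfl⟩ := mem_coeffs_iff.1 hu
        exact hx.p _ _ _
      · obtain ⟨α, -, rfl⟩ := mem_coeffs_iff.1 hu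
        show IsAlgebraic ℚ (coeff α (pderiv i G.q))
        rw [coeff_pderiv]
        exact (hx.q _).mul (by exact_mod_cast isAlgebraic_natCast (R := ℚ) (A := ℂ) (α i + 1)))
  have hτ₁ : Rp 1 0 1 τ := hx₁ ⟨τ, by simp [S₁]⟩
  have h0₁ : Rp 1 0 1 0 := hx₁ ⟨0, by simp [S₁]⟩
  have hr₁ : ∀ j l, ∀ α ∈ (G.r j l).support, Rp 1 0 1 (coeff α (G.r j l)) := fun j l α hα =>
    hx₁ ⟨_, Finset.mem_union_right _ (Finset.mem_biUnion.2 ⟨(j, l), Finset.mem_univ _,
      coeff_mem_coeffs α (mem_support_iff.1 hα)⟩)⟩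
  have hχ₂ : ∀ i, Rp 0 1 1 (χ (Sum.inl i)) := fun i =>
    hx₂ ⟨_, Finset.mem_union_left _ (Finset.mem_union_left _
      (Finset.mem_image_of_mem _ (Finset.mem_univ i)))⟩
  have hp₂ : ∀ j i, ∀ α ∈ (G.p j i).support, Rp 0 1 1 (coeff α (G.p j i)) := fun j i α hα =>
    hx₂ ⟨_, Finset.mem_union_left _ (Finset.mem_union_right _ (Finset.mem_biUnion.2
      ⟨(j, i), Finset.mem_univ _, coeff_mem_coeffs α (mem_support_iff.1 hα)⟩))⟩
  have hq₂ : ∀ i, ∀ α ∈ (pderiv i G.q).support, Rp 0 1 1 (coeff α (pderiv i G.q)) :=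
    fun i α hα => hx₂ ⟨_, Finset.mem_union_right _ (Finset.mem_biUnion.2
      ⟨i, Finset.mem_univ _, coeff_mem_coeffs α (mem_support_iff.1 hα)⟩)⟩
  have hχ₁ : ∀ l, Rp 1 0 1 (χ (Sum.inr l)) := fun l => by
    have : χ (Sum.inr l) = 0 := by simp [χ, ξ, hx.zero l]
    rw [this]
    exact h0₁
  obtain ⟨a₀, ha₀⟩ := Finite.exists_le (fun u : (Fin g × Fin m) ⊕ (Fin g × Fin (N + 1)) ⊕
      Fin (N + 1) => (fun f : MvPolynomial (Fin (N + 1)) ℂ => f.totalDegree + f.support.card)
        (u.elim (fun u => G.r u.1 u.2) fun u => u.elim (fun u => G.p u.1 u.2)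
          fun i => pderiv i G.q))
  have hren : ∀ (f : MvPolynomial (Fin (N + 1)) ℂ) (d e : ℕ),
      f.totalDegree + f.support.card ≤ a₀ → (∀ α ∈ f.support, Rp d e 1 (coeff α f)) →
      Gd Rp d (e + a₀) a₀ (ren (m := m) f) := fun f d e hf h =>
    (gd_poly hR some f h).mono le_rfl (by omega) (by exact_mod_cast (by omega))
  have hr := fun j l => hren _ _ _ (ha₀ (Sum.inl (j, l))) (hr₁ j l)
  have hp := fun j i => hren _ _ _ (ha₀ (Sum.inr (Sum.inl (j, i)))) (hp₂ j i)
  have hq := fun i => hren _ _ _ (ha₀ (Sum.inr (Sum.inr i))) (hq₂ i)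
  obtain ⟨a, ha⟩ : ∃ a : ℕ, a = (N + 1) * (a₀ * a₀) + 2 * a₀ + 5 := ⟨_, rfl⟩
  have haa : a₀ ≤ a := by omega
  have hD₁ : ∀ j i, Gd Rp 0 (1 + a) a (G.DP j (X (Sum.inl i))) := by
    intro j i
    rw [DP, mkDerivation_X]
    cases i with
    | some i =>
      exact ((hp j i).mul (Gd.xl none)).mono le_rfl (by omega) (by rw [mul_one]; exact_mod_cast haa)
    | none =>
      have h1 := (gd_int hR (-1)).mul ((gd_pow hR (Gd.xl (κ := Fin m) none) 3).mul
        (gd_sum hR Finset.univ _ fun i _ => (hq i).mul (hp j i)))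
      have h2 : G.dP j (Sum.inl none) = C ((-1 : ℤ) : ℂ) *
          (X (Sum.inl none) ^ 3 * ∑ i, ren (pderiv i G.q) * ren (G.p j i)) := by
        simp [dP]
      rw [h2]
      refine h1.mono (by omega) (by omega) ?_
      have h3 : (N + 1) * (a₀ * a₀) ≤ a := by omega
      have h4 : (((N + 1) * (a₀ * a₀) : ℕ) : ℝ) ≤ a := by exact_mod_cast h3
      simpa using h4
  have hD₂ : ∀ j l, Gd Rp 1 a a (G.DP j (X (Sum.inr l))) := by
    intro j l
    rw [DP, mkDerivation_X]
    exact ((hr j l).mul (Gd.xl none)).mono le_rfl (by omega) (by rw [mul_one]; exact_mod_cast haa)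
  obtain ⟨K, hK⟩ : ∃ K : ℕ, K = g + m + 1 + a := ⟨_, rfl⟩
  refine ⟨(K + 1 + (a * K + K + 1)) * c + c * (m + 1) + 1, by omega,
    fun L h p l hL hh hpe hne => ?_⟩
  have hmon : ∀ i : Ix g m L, Gd Rp ((m + 1) * L) (g * L) (Real.exp h)
      (C (p i : ℂ) * mon y τ i) := by
    intro i
    have h1 := (gd_int hR (p i)).mul (((gd_pow hR (Gd.const zero_le_one hτ₁) i.1).mul
      (gd_prod hR Finset.univ (fun a => X (Sum.inl (some (y a))) ^ (i.2.1 a : ℕ)) _ _
        fun a _ => gd_pow hR (Gd.xl (κ := Fin m) (some (y a))) (i.2.1 a))).mul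
      (gd_prod hR Finset.univ (fun l => X (Sum.inr l) ^ (i.2.2 l : ℕ)) _ _
        fun l _ => gd_pow hR (Gd.xr (τ := Option (Fin (N + 1))) l) (i.2.2 l)))
    rw [← map_pow] at h1
    have h2 : ∑ a, (i.2.1 a : ℕ) ≤ g * L := by
      simpa using Finset.sum_le_card_nsmul Finset.univ (fun a => (i.2.1 a : ℕ)) L
        fun a _ => Nat.lt_succ_iff.1 (i.2.1 a).2
    have h3 : ∑ a, (i.2.2 a : ℕ) ≤ m * L := by
      simpa using Finset.sum_le_card_nsmul Finset.univ (fun a => (i.2.2 a : ℕ)) L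
        fun a _ => Nat.lt_succ_iff.1 (i.2.2 a).2
    have h4 := Nat.lt_succ_iff.1 i.1.2
    refine h1.mono ?_ ?_ (by simpa using hpe i)
    · simp only [zero_mul, one_mul, Finset.sum_const_zero, add_mul]
      omega
    · simp only [zero_mul, one_mul, Finset.sum_const_zero]
      omega
  have hS := gd_eval hR χ hχ₂ hχ₁ (gd_ap hR G.DP hD₁ hD₂ l
    (gd_sum hR Finset.univ _ fun i _ => hmon i))
  have hdeg : (m + 1) * L + g * L + a * l.length ≤ K * (L + l.length) := by
    rw [hK]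
    nlinarith [Nat.zero_le (a * L), Nat.zero_le ((g + m + 1) * l.length)]
  have hnum := auxar_num (n := (Finset.univ : Finset (Ix g m L)).card) hL hh hdeg (by
    have : (Finset.univ : Finset (Ix g m L)).card = (L + 1) ^ (g + m + 1) := by
      simp only [Finset.card_univ, Fintype.card_prod, Fintype.card_fin, Fintype.card_pi,
        Finset.prod_const]
      ring
    rw [this]
    exact Nat.pow_le_pow_right (by omega) (by omega))
  have hL' : (1 : ℝ) ≤ L := by exact_mod_cast hL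
  have hs : (0 : ℝ) ≤ l.length := Nat.cast_nonneg _
  have hu : (1 : ℝ) ≤ ((L : ℝ) + l.length) ^ l.length := one_le_pow₀ (by linarith)
  have hexp : Real.exp ((((m + 1) * L : ℕ) : ℝ) + ((g * L + a * l.length : ℕ) : ℝ) + 1) ≤
      (Real.exp (h + L + l.length) * (L + l.length) ^ l.length) ^ (K + 1) := by
    refine le_trans ?_ (pow_le_pow_left₀ (Real.exp_pos _).le
      (le_mul_of_one_le_right (Real.exp_pos _).le hu) _)
    rw [← Real.exp_nat_mul, Real.exp_le_exp]
    have h1 : (((m + 1) * L + g * L + a * l.length : ℕ) : ℝ) ≤ ((K * (L + l.length) : ℕ) : ℝ) := by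
      exact_mod_cast hdeg
    have h2 : (0 : ℝ) ≤ K * h := mul_nonneg (Nat.cast_nonneg _) hh
    push_cast at h1 ⊢
    linarith [show ((K : ℝ) + 1) * (h + L + l.length) = K * h + K * (L + l.length) +
      h + L + l.length by ring]
  have hE : (1 : ℝ) ≤ Real.exp (h + L + l.length) * (L + l.length) ^ l.length :=
    one_le_mul_of_one_le_of_one_le (Real.one_le_exp (by linarith)) hu
  generalize Real.exp (h + L + l.length) * (L + l.length) ^ l.length = E at hnum hexp hE ⊢
  obtain ⟨Q, hQ0, hQd, hQM, hQv⟩ := hQ _ _ _ _ (one_le_pow₀ hE)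
    (hR.mono hS le_rfl le_rfl (by exact_mod_cast hnum)) hne
  have hfin : (Real.exp ((((m + 1) * L : ℕ) : ℝ) + ((g * L + a * l.length : ℕ) : ℝ) + 1) *
      E ^ (a * K + K + 1)) ^ c ≤ E ^ ((K + 1 + (a * K + K + 1)) * c + c * (m + 1) + 1) := by
    refine le_trans ?_ (pow_le_pow_right₀ hE (Nat.le_add_right_of_le (Nat.le_add_right _ _)))
    rw [pow_mul, pow_add E (K + 1)]
    gcongr
  refine ⟨Q, hQ0, hQd.trans ?_, hQM.trans hfin, hQv.trans ?_⟩
  · rw [← mul_assoc]
    exact Nat.mul_le_mul_right _ (by omega)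
  · exact mul_le_mul_of_nonneg_left hfin (norm_nonneg _)

end Gx

end GPC73

end

section

/-! From the data of the statement to the data of the proof. -/

open MvPolynomial Module

namespace GPC73

variable {g N : ℕ} (A : AbVar g N)

theorem norm_hom {d : ℕ} {q : MvPolynomial (Fin (N + 1)) Qb} (hq : q.IsHomogeneous d) (c : ℂ)
    (y : Fin (N + 1) → ℂ) : aeval (fun i => c * y i) q = c ^ d * aeval y q := by
  rw [aeval_def, aeval_def, eval₂_eq', eval₂_eq', Finset.mul_sum]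
  refine Finset.sum_congr rfl fun s hs => ?_
  have hd : ∑ i, s i = d := by
    have := hq (mem_support_iff.1 hs)
    rw [← this, Finsupp.weight_apply, Finsupp.sum_fintype _ _ (by simp)]
    simp
  simp only [mul_pow, Finset.prod_mul_distrib, Finset.prod_pow_eq_pow_sum, hd]
  ring

/-- An algebraic point outside a hypersurface.  Let `I` be the ideal over `Qb` generated by the
forms of `A.alg` and `X k - 1`.  If `q` vanished at all `Qb`-points of `I` then a power of `q` would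
lie in `I` (`MvPolynomial.vanishingIdeal_zeroLocus_eq_radical`, `Qb` is algebraically closed), so
`q` would vanish at `θ z / θ k z`.  A `Qb`-point of `I` is `c • θ x` by `A.alg`. -/
theorem exists_point (k : Fin (N + 1)) {d : ℕ} {q : MvPolynomial (Fin (N + 1)) Qb}
    (hq : q.IsHomogeneous d) (h : ∃ z, A.θ k z ≠ 0 ∧ val A.θ q z ≠ 0) :
    ∃ x, A.θ k x ≠ 0 ∧ val A.θ q x ≠ 0 ∧ ∀ i, IsAlgebraic ℚ (A.θ i x / A.θ k x) := by
  obtain ⟨S, -, hS⟩ := A.alg
  obtain ⟨z, hz, hqz⟩ := h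
  have : IsAlgClosed Qb := (algebraicClosure.isAlgClosure ℚ ℂ).isAlgClosed
  set I : Ideal (MvPolynomial (Fin (N + 1)) Qb) := Ideal.span (insert (X k - 1) S) with hI
  have key : ∃ x₀ ∈ zeroLocus Qb I, aeval x₀ q ≠ 0 := by
    by_contra hcon
    push Not at hcon
    have h1 : q ∈ I.radical := by
      rw [← vanishingIdeal_zeroLocus_eq_radical (K := Qb)]
      exact hcon
    obtain ⟨n, hn⟩ := h1
    set y : Fin (N + 1) → ℂ := fun i => (A.θ k z)⁻¹ * A.θ i z with hy
    have hyk : y k = 1 := inv_mul_cancel₀ hz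
    have hy0 : y ≠ 0 := fun h0 => by simp [h0] at hyk
    have hle : I ≤ RingHom.ker (aeval y : MvPolynomial (Fin (N + 1)) Qb →ₐ[Qb] ℂ) := by
      rw [hI, Ideal.span_le]
      rintro p (rfl | hp)
      · simp [hyk]
      · exact (hS y hy0).2 ⟨z, _, fun _ => rfl⟩ p hp
    have h2 : aeval y q ^ n = 0 := by
      rw [← map_pow]
      exact hle hn
    have h3 := (pow_eq_zero_iff' .. |>.1 h2).1
    rw [hy, norm_hom hq] at h3
    exact mul_ne_zero (pow_ne_zero _ (inv_ne_zero hz)) hqz h3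
  obtain ⟨x₀, hx₀, hq₀⟩ := key
  have hev : ∀ p : MvPolynomial (Fin (N + 1)) Qb,
      aeval (fun i => (x₀ i : ℂ)) p = ((aeval x₀ p : Qb) : ℂ) := fun p =>
    aeval_algebraMap_apply ℂ x₀ p
  have hk : x₀ k = 1 := by
    have := hx₀ (X k - 1) (Ideal.subset_span (Set.mem_insert _ _))
    simpa [sub_eq_zero] using this
  have hne : (fun i => (x₀ i : ℂ)) ≠ 0 := fun h0 => by
    have := congrFun h0 k
    simp [hk] at this
  obtain ⟨x, c, hx⟩ := (hS _ hne).1 fun p hp => by
    rw [hev, hx₀ p (Ideal.subset_span (Set.mem_insert_of_mem _ hp))]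
    rfl
  have hc : c * A.θ k x = 1 := by rw [← hx k, hk]; rfl
  have hkx : A.θ k x ≠ 0 := right_ne_zero_of_mul_eq_one hc
  refine ⟨x, hkx, fun h0 => hq₀ ?_, fun i => ?_⟩
  · have h1 := hev q
    rw [funext hx, norm_hom hq, show aeval (fun i => A.θ i x) q = 0 from h0, mul_zero] at h1
    exact Subtype.ext h1.symm
  · have : A.θ i x / A.θ k x = (x₀ i : ℂ) := by
      rw [hx i, div_eq_iff hkx, mul_right_comm, hc, one_mul]
    rw [this]
    exact mem_algebraicClosure_iff.1 (x₀ i).2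

theorem norm_eval (q : MvPolynomial (Fin (N + 1)) Qb) (z : Fin g → ℂ) :
    eval (fun i => A.θ i z) (map (algebraMap Qb ℂ) q) = val A.θ q z := by
  rw [eval_map, val, aeval_def]

theorem norm_an (q : MvPolynomial (Fin (N + 1)) Qb) : AnalyticOnNhd ℂ (val A.θ q) Set.univ := by
  have := an_eval A.θ A.hol (map (algebraMap Qb ℂ) q)
  simpa only [norm_eval] using this

theorem norm_mul (p q : MvPolynomial (Fin (N + 1)) Qb) :
    val A.θ (p * q) = val A.θ p * val A.θ q := funext fun z => by simp [val]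

theorem norm_aut {d : ℕ} {q : MvPolynomial (Fin (N + 1)) Qb} (hq : q.IsHomogeneous d)
    (j : Fin (2 * g)) (z : Fin g → ℂ) :
    val A.θ q (z + A.ω j) = Complex.exp (d * (A.a j z + A.b j)) * val A.θ q z := by
  simp only [val, A.aut]
  rw [norm_hom hq, Complex.exp_nat_mul]

theorem norm_ne {u v : (Fin g → ℂ) → ℂ} (hu : AnalyticOnNhd ℂ u Set.univ)
    (hv : AnalyticOnNhd ℂ v Set.univ) (h : ∃ z, u z ≠ 0) (h' : ∃ z, v z ≠ 0) :
    ∃ z, u z ≠ 0 ∧ v z ≠ 0 := by
  obtain ⟨z, hz⟩ := h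
  obtain ⟨w, hw⟩ := h'
  exact ent_mul_ne (f := ⟨u, hu⟩) (g := ⟨v, hv⟩) (fun h0 => hz (congrFun (congrArg Subtype.val h0) z))
    (fun h0 => hw (congrFun (congrArg Subtype.val h0) w))

theorem norm_cancel {u u' v : (Fin g → ℂ) → ℂ} (hu : AnalyticOnNhd ℂ u Set.univ)
    (hu' : AnalyticOnNhd ℂ u' Set.univ) (hv : AnalyticOnNhd ℂ v Set.univ) (h' : ∃ z, v z ≠ 0)
    (h : ∀ z, v z * u z = v z * u' z) (z : Fin g → ℂ) : u z = u' z := by
  by_contra hz
  obtain ⟨w, hw, hw'⟩ := norm_ne (hu.sub hu') hv ⟨z, sub_ne_zero.2 hz⟩ h'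
  exact hw (sub_eq_zero.2 (mul_left_cancel₀ hw' (h w)))

theorem norm_pd_an {u : (Fin g → ℂ) → ℂ} (hu : AnalyticOnNhd ℂ u Set.univ) (j : Fin g) :
    AnalyticOnNhd ℂ (pd j u) Set.univ := an_fderiv hu _

theorem norm_pd_mul {u v : (Fin g → ℂ) → ℂ} (hu : AnalyticOnNhd ℂ u Set.univ)
    (hv : AnalyticOnNhd ℂ v Set.univ) (j : Fin g) (z : Fin g → ℂ) :
    pd j (u * v) z = u z * pd j v z + v z * pd j u z := by
  simp only [pd]
  rw [fderiv_mul (hu z trivial).differentiableAt (hv z trivial).differentiableAt]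
  rfl

theorem norm_pd_sum {ι : Type} [Fintype ι] {u : ι → (Fin g → ℂ) → ℂ} {B : (Fin g → ℂ) → ℂ}
    (hu : ∀ i, AnalyticOnNhd ℂ (u i) Set.univ) (hB : AnalyticOnNhd ℂ B Set.univ) (c t : ι → ℂ)
    (j : Fin g) (z : Fin g → ℂ) :
    pd j (fun w => ∑ i, c i * (u i w - t i * B w)) z =
      ∑ i, c i * (pd j (u i) z - t i * pd j B z) := by
  have h : HasFDerivAt (fun w => ∑ i, c i * (u i w - t i * B w))
      (∑ i, c i • (fderiv ℂ (u i) z - t i • fderiv ℂ B z)) z :=
    HasFDerivAt.fun_sum fun i _ => (((hu i z trivial).differentiableAt.hasFDerivAt.sub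
      ((hB z trivial).differentiableAt.hasFDerivAt.const_mul (t i))).const_mul (c i))
  simp [pd, h.fderiv]

/-- A common multiple of finitely many forms. -/
theorem norm_common {T : Type} [Fintype T] (f : T → MvPolynomial (Fin (N + 1)) Qb) (d : T → ℕ)
    (hf : ∀ t, (f t).IsHomogeneous (d t)) (hne : ∀ t, ∃ z, val A.θ (f t) z ≠ 0) :
    ∃ (q : MvPolynomial (Fin (N + 1)) Qb) (e : ℕ), q.IsHomogeneous e ∧ (∃ z, val A.θ q z ≠ 0) ∧
      ∀ t, ∃ (γ : MvPolynomial (Fin (N + 1)) Qb) (e' : ℕ), γ.IsHomogeneous e' ∧ d t + e' = e ∧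
        q = f t * γ := by
  classical
  refine ⟨∏ t, f t, ∑ t, d t, IsHomogeneous.prod _ _ _ fun t _ => hf t, ?_, fun t =>
    ⟨∏ s ∈ Finset.univ.erase t, f s, ∑ s ∈ Finset.univ.erase t, d s,
      IsHomogeneous.prod _ _ _ fun s _ => hf s, Finset.add_sum_erase _ _ (Finset.mem_univ t),
      (Finset.mul_prod_erase _ _ (Finset.mem_univ t)).symm⟩⟩
  induction (Finset.univ : Finset T) using Finset.induction_on with
  | empty => exact ⟨0, by simp [val]⟩
  | insert a s ha ih =>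
    rw [Finset.prod_insert ha, norm_mul]
    obtain ⟨z, h1, h2⟩ := norm_ne (norm_an A _) (norm_an A _) (hne a) ih
    exact ⟨z, mul_ne_zero h1 h2⟩

/-- One class with the common denominator `q = β * γ`. -/
theorem norm_aut_class {H : (Fin g → ℂ) → ℂ} {d e' : ℕ} {β γ : MvPolynomial (Fin (N + 1)) Qb}
    (hH : AnalyticOnNhd ℂ H Set.univ) (hβ : β.IsHomogeneous d) (hγ : γ.IsHomogeneous e')
    (hne : ∃ z, val A.θ β z ≠ 0) (j : Fin (2 * g)) (η : ℂ)
    (h : ∀ z, H (z + A.ω j) * val A.θ β z = (H z + η * val A.θ β z) * val A.θ β (z + A.ω j))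
    (z : Fin g → ℂ) : (H * val A.θ γ) (z + A.ω j) =
      Complex.exp ((d + e' : ℕ) * (A.a j z + A.b j)) *
        ((H * val A.θ γ) z + η * val A.θ (β * γ) z) := by
  have h1 : H (z + A.ω j) = Complex.exp (d * (A.a j z + A.b j)) * (H z + η * val A.θ β z) := by
    refine norm_cancel (u := fun z => H (z + A.ω j))
      (u' := fun z => Complex.exp (d * (A.a j z + A.b j)) * (H z + η * val A.θ β z))
      (tr (A.ω j) ⟨H, hH⟩).2 ?_ (norm_an A β) hne (fun w => ?_) z
    · refine AnalyticOnNhd.mul (fun w _ => AnalyticAt.cexp' ?_)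
        (hH.add (analyticOnNhd_const.mul (norm_an A β)))
      exact analyticAt_const.mul (((A.a j).analyticAt w).add analyticAt_const)
    · rw [mul_comm, h, norm_aut A hβ]
      ring
  simp only [Pi.mul_apply, norm_mul, h1, norm_aut A hγ]
  rw [Nat.cast_add, add_mul, Complex.exp_add]
  ring

theorem norm_der_class {H : (Fin g → ℂ) → ℂ} {β γ p q δ : MvPolynomial (Fin (N + 1)) Qb}
    (hH : AnalyticOnNhd ℂ H Set.univ) (hne : ∃ z, val A.θ q z ≠ 0) (j : Fin g)
    (hq : β * γ = q * δ)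
    (h : ∀ z, val A.θ q z * (val A.θ β * pd j H - H * pd j (val A.θ β)) z =
      val A.θ p z * (val A.θ β ^ 2) z) (z : Fin g → ℂ) :
    val A.θ (β * γ) z * pd j (H * val A.θ γ) z - (H * val A.θ γ) z * pd j (val A.θ (β * γ)) z =
      val A.θ (p * δ) z * val A.θ (β * γ) z := by
  have hHγ : AnalyticOnNhd ℂ (H * val A.θ γ) Set.univ := hH.mul (norm_an A γ)
  refine norm_cancel (u := fun z => val A.θ (β * γ) z * pd j (H * val A.θ γ) z -
      (H * val A.θ γ) z * pd j (val A.θ (β * γ)) z)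
    (u' := fun z => val A.θ (p * δ) z * val A.θ (β * γ) z)
    (((norm_an A _).mul (norm_pd_an hHγ j)).sub (hHγ.mul (norm_pd_an (norm_an A _) j)))
    ((norm_an A _).mul (norm_an A _)) (norm_an A q) hne (fun w => ?_) z
  have h1 := h w
  have h2 : val A.θ β w * val A.θ γ w = val A.θ q w * val A.θ δ w := by
    have := congrArg (fun s => val A.θ s w) hq
    simpa only [norm_mul, Pi.mul_apply] using this
  simp only [Pi.mul_apply, Pi.sub_apply, Pi.pow_apply] at h1
  simp only [norm_mul, norm_pd_mul hH (norm_an A γ), norm_pd_mul (norm_an A β) (norm_an A γ),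
    Pi.mul_apply]
  linear_combination val A.θ γ w ^ 2 * h1 + val A.θ p w * val A.θ β w * val A.θ γ w * h2

theorem norm_alg (s : MvPolynomial (Fin (N + 1)) Qb) (α : Fin (N + 1) →₀ ℕ) :
    IsAlgebraic ℚ (coeff α (map (algebraMap Qb ℂ) s)) := by
  rw [coeff_map]
  exact mem_algebraicClosure_iff.1 (coeff α s).2

/-- Common denominator.  Choose `k` with `θ k 0 ≠ 0`; let `q₀` be the product of `X k`, of the forms
`β i` of the classes `η i` and of all denominators given by `A.der` and by the `IsRat` conditions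
(`IsHomogeneous.prod`; the value is not identically zero by `ent_mul_ne`).  With `q₀ = β i * γ i`
put `H' i = H i * γ i (θ)`, `x` from `exists_point`, and
`G.H l = ∑ i, c l i * (H' i - (H' i x / B x) * B)`, `G.r j l = ∑ i, C (c l i) * r' j i`.  Identities
of entire functions are checked after multiplying by a nonzero entire function (`ent_mul_ne`), or
on the dense set where `B ≠ 0`. -/
theorem exists_gx {m : ℕ} {ι : Type} [Fintype ι] (η : ι → Fin (2 * g) → ℂ) (hη : ∀ i, η i ∈ A.dR)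
    (c : Fin m → ι → ℂ) (τ : ℂ) (hc : ∀ l i, IsAlgebraic (Algebra.adjoin ℚ {τ}) (c l i)) :
    ∃ (G : Gx A m) (x : Fin g → ℂ), G.Arith τ x ∧ ∀ j l, G.w j l = ∑ i, c l i * η i j := by
  obtain ⟨k, hk⟩ := A.ne 0
  choose H d β hH hβ hβne hrat haut using hη
  choose d₁ p₁ q₁ hp₁ hq₁ hne₁ h₁ using hrat
  choose d₂ p₂ q₂ hp₂ hq₂ hne₂ h₂ using fun i j => A.der i k j
  obtain ⟨q, e, hq, hqne, hT⟩ := norm_common A
    (T := (Unit ⊕ ι) ⊕ (ι × Fin g) ⊕ (Fin (N + 1) × Fin g))
    (Sum.elim (Sum.elim (fun _ => X k) β) (Sum.elim (fun t => q₁ t.1 t.2) fun t => q₂ t.1 t.2))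
    (Sum.elim (Sum.elim (fun _ => 1) d) (Sum.elim (fun t => d₁ t.1 t.2) fun t => d₂ t.1 t.2))
    (by
      rintro ((t | t) | t | t)
      exacts [isHomogeneous_X _ _, hβ t, hq₁ _ _, hq₂ _ _])
    (by
      rintro ((t | t) | t | t)
      exacts [⟨0, by simpa [val] using hk⟩, hβne t, hne₁ _ _, hne₂ _ _])
  have he : 1 ≤ e := by
    obtain ⟨-, e', -, h, -⟩ := hT (Sum.inl (Sum.inl ()))
    exact h ▸ Nat.le_add_right _ _
  choose γ eγ hγ heγ hqγ using fun i => hT (Sum.inl (Sum.inr i))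
  choose δ eδ hδ heδ hqδ using fun i j => hT (Sum.inr (Sum.inl (i, j)))
  choose ε eε hε heε hqε using fun i j => hT (Sum.inr (Sum.inr (i, j)))
  simp only [Sum.elim_inl, Sum.elim_inr] at heγ hqγ heδ hqδ heε hqε
  have hne : ∃ z, A.θ k z ≠ 0 ∧ val A.θ q z ≠ 0 := norm_ne (A.hol k) (norm_an A q) ⟨0, hk⟩ hqne
  obtain ⟨x, hx, hqx, halg⟩ := exists_point A k hq hne
  have hH' : ∀ i, AnalyticOnNhd ℂ (H i * val A.θ (γ i)) Set.univ := fun i =>
    (hH i).mul (norm_an A _)
  refine ⟨{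
    k := k
    e := e
    q := map (algebraMap Qb ℂ) q
    p := fun j i => map (algebraMap Qb ℂ) (p₂ i j * ε i j)
    r := fun j l => ∑ i, C (c l i) * map (algebraMap Qb ℂ) (p₁ i j * δ i j)
    H := fun l z => ∑ i, c l i * ((H i * val A.θ (γ i)) z -
      (H i * val A.θ (γ i)) x / val A.θ q x * val A.θ q z)
    w := fun j l => ∑ i, c l i * η i j
    e_pos := he
    hq := hq.map _
    hp := fun j i => (heε i j ▸ (hp₂ i j).mul (hε i j)).map _
    hr := fun j l => IsHomogeneous.sum _ _ _ fun i _ =>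
      ((heδ i j ▸ (hp₁ i j).mul (hδ i j)).map _).C_mul _
    ne := by simpa only [norm_eval] using hne
    hol := fun l => Finset.analyticOnNhd_fun_sum _ fun i _ => analyticOnNhd_const.mul
      ((hH' i).sub (analyticOnNhd_const.mul (norm_an A q)))
    dx := fun j i z => ?_
    dW := fun j l z => ?_
    aut := fun j l z => ?_ }, x, ⟨?_, halg, fun l => ?_, norm_alg _, fun j i => norm_alg _,
      fun j l α => ?_⟩, fun _ _ => rfl⟩
  · have h := h₂ i j z
    simp only [Pi.mul_apply, Pi.sub_apply, Pi.pow_apply] at h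
    simp only [norm_eval, hqε i j, norm_mul, Pi.mul_apply]
    linear_combination val A.θ (ε i j) z * h
  · simp only [norm_eval, map_sum, map_mul (eval _), eval_C]
    rw [norm_pd_sum hH' (norm_an A q), Finset.mul_sum, Finset.sum_mul, Finset.sum_mul,
      ← Finset.sum_sub_distrib]
    refine Finset.sum_congr rfl fun i _ => ?_
    have h := norm_der_class A (hH i) (hne₁ i j) j ((hqγ i).symm.trans (hqδ i j)) (h₁ i j) z
    rw [← hqγ i] at h
    change _ - _ * pd j (val A.θ q) z = _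
    linear_combination c l i * h
  · simp only [norm_eval]
    rw [Finset.sum_mul, ← Finset.sum_add_distrib, Finset.mul_sum]
    refine Finset.sum_congr rfl fun i _ => ?_
    have h := norm_aut_class A (hH i) (hβ i) (hγ i) (hβne i) j (η i j) (haut i j) z
    rw [← hqγ i, heγ i] at h
    rw [h, norm_aut A hq]
    ring
  · change A.θ k x * eval (fun i => A.θ i x) (map (algebraMap Qb ℂ) q) ≠ 0
    rw [norm_eval]
    exact mul_ne_zero hx hqx
  · exact Finset.sum_eq_zero fun i _ => by rw [div_mul_cancel₀ _ hqx, sub_self, mul_zero]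
  · change IsAlgebraic _ (coeff α (∑ i, C (c l i) * map (algebraMap Qb ℂ) (p₁ i j * δ i j)))
    rw [coeff_sum]
    refine Finset.sum_induction _ (IsAlgebraic (Algebra.adjoin ℚ {τ})) (fun _ _ => IsAlgebraic.add)
      isAlgebraic_zero fun i _ => ?_
    rw [coeff_C_mul]
    exact (hc l i).mul ((norm_alg _ α).extendScalars (algebraMap ℚ _).injective)

end GPC73

end
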