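import Pool.Agent.MP_57341d_ag.Mg.H73_Gx

/-! The addition law for sections. -/

open MvPolynomial GPC96

namespace GPC73

section Alg

variable {R : Type} [CommRing R] [Algebra ℂ R] {ι : Type} (D : ι → Derivation ℂ R R)

theorem kap_br_add_left (l : List ι) (f f' k : R) :
    Br D l (f + f') k = Br D l f k + Br D l f' k := by
  induction l generalizing f f' k with
  | nil => simp only [Br]; ring
  | cons i l ih => simp only [Br, map_add, ih]; ring

theorem kap_br_add_right (l : List ι) (f k k' : R) :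
    Br D l f (k + k') = Br D l f k + Br D l f k' := by
  induction l generalizing f k k' with
  | nil => simp only [Br]; ring
  | cons i l ih => simp only [Br, map_add, ih]; ring

theorem kap_br_smul_left (l : List ι) (c : ℂ) (f k : R) :
    Br D l (c • f) k = c • Br D l f k := by
  induction l generalizing f k with
  | nil => simp only [Br, smul_mul_assoc]
  | cons i l ih => simp only [Br, Derivation.map_smul, ih, smul_sub]

theorem kap_br_smul_right (l : List ι) (c : ℂ) (f k : R) :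
    Br D l f (c • k) = c • Br D l f k := by
  induction l generalizing f k with
  | nil => simp only [Br, mul_smul_comm]
  | cons i l ih => simp only [Br, Derivation.map_smul, ih, smul_sub]

theorem kap_br_eps (a : ι → ℂ) (u u' : R) (hu : ∀ i, D i u = a i • u)
    (hu' : ∀ i, D i u' = a i • u') (l : List ι) (f k : R) :
    Br D l (u * f) (u' * k) = u * u' * Br D l f k := by
  induction l generalizing f k with
  | nil => simp only [Br]; ring
  | cons i l ih =>
    have h1 : D i (u * f) = u * (D i f + a i • f) := by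
      rw [Derivation.leibniz, hu, smul_eq_mul, smul_eq_mul, mul_add, mul_smul_comm,
        mul_smul_comm, mul_comm f u]
    have h2 : D i (u' * k) = u' * (D i k + a i • k) := by
      rw [Derivation.leibniz, hu', smul_eq_mul, smul_eq_mul, mul_add, mul_smul_comm,
        mul_smul_comm, mul_comm k u']
    simp only [Br]
    rw [h1, h2, ih, ih, kap_br_add_left, kap_br_add_right, kap_br_smul_left, kap_br_smul_right]
    ring

theorem kap_br_hom (φ : R →ₐ[ℂ] R) (h : ∀ i f, φ (D i f) = D i (φ f)) (l : List ι) (f k : R) :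
    φ (Br D l f k) = Br D l (φ f) (φ k) := by
  induction l generalizing f k with
  | nil => simp only [Br, map_mul]
  | cons i l ih => simp only [Br, map_sub, ih, h]

end Alg

section Eps

variable {E : Type} [NormedAddCommGroup E] [NormedSpace ℂ E]

/-- The function `exp (α · + c)`. -/
noncomputable def kapEps (α : E →L[ℂ] ℂ) (c : ℂ) : Ent E :=
  ⟨fun z => Complex.exp (α z + c), fun z _ =>
    AnalyticAt.cexp ((α.analyticAt z).add analyticAt_const)⟩

theorem kap_dE_eps (α : E →L[ℂ] ℂ) (c : ℂ) (v : E) :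
    dE v (kapEps α c) = α v • kapEps α c := by
  refine Subtype.ext (funext fun z => ?_)
  have h : HasFDerivAt (fun z => Complex.exp (α z + c)) (Complex.exp (α z + c) • α) z :=
    (α.hasFDerivAt.add_const c).cexp
  show fderiv ℂ (fun z => Complex.exp (α z + c)) z v = α v * Complex.exp (α z + c)
  rw [h.fderiv]
  simp [mul_comm]

theorem kap_norm_dE (f : Ent E) (v z : E) (S : ℝ)
    (h : ∀ t : ℂ, ‖t‖ = 1 → ‖f.1 (z + t • v)‖ ≤ S) : ‖(dE v f).1 z‖ ≤ S := by
  have hl : ∀ t : ℂ, HasDerivAt (fun t : ℂ => z + t • v) v t := fun t => by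
    simpa using ((hasDerivAt_id t).smul_const v).const_add z
  have hd : Differentiable ℂ (fun t : ℂ => f.1 (z + t • v)) := fun t =>
    (Ent.diff f _).comp t (hl t).differentiableAt
  have h0 : HasDerivAt (fun t : ℂ => f.1 (z + t • v)) (fderiv ℂ f.1 z v) 0 := by
    have h1 : HasFDerivAt f.1 (fderiv ℂ f.1 z) (z + (0 : ℂ) • v) := by
      simpa using (Ent.diff f z).hasFDerivAt
    exact h1.comp_hasDerivAt 0 (hl 0)
  have := Complex.norm_deriv_le_of_forall_mem_sphere_norm_le (c := 0) (R := 1) (C := S) one_pos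
    hd.diffContOnCl (fun t ht => h t (by simpa using ht))
  rw [h0.deriv, div_one] at this
  exact this

end Eps

variable {g m : ℕ}

theorem kap_gr_shift {D : ℕ} {Ψ : LG g m → ℂ} (h : Gr D Ψ) (R ρ : ℝ) (hρ : 0 ≤ ρ) :
    ∃ C : ℝ, ∀ z s, ‖z‖ ≤ R → ∀ x : LG g m, ‖x‖ ≤ ρ → ‖Ψ ((z, s) + x)‖ ≤ C * (1 + ‖s‖) ^ D := by
  obtain ⟨C, hC⟩ := h (R + ρ)
  refine ⟨|C| * (1 + ρ) ^ D, fun z s hz x hx => ?_⟩
  have h1 : ‖x.1‖ ≤ ρ := (norm_fst_le x).trans hx
  have h2 : ‖x.2‖ ≤ ρ := (norm_snd_le x).trans hx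
  have h3 := hC (z + x.1) (s + x.2) ((norm_add_le _ _).trans (add_le_add hz h1))
  have h4 : 1 + ‖s + x.2‖ ≤ (1 + ρ) * (1 + ‖s‖) := by
    have := norm_add_le s x.2
    nlinarith [norm_nonneg s]
  refine le_trans h3 ?_
  calc C * (1 + ‖s + x.2‖) ^ D ≤ |C| * (1 + ‖s + x.2‖) ^ D :=
        mul_le_mul_of_nonneg_right (le_abs_self C) (by positivity)
    _ ≤ |C| * ((1 + ρ) * (1 + ‖s‖)) ^ D :=
        mul_le_mul_of_nonneg_left (pow_le_pow_left₀ (by positivity) h4 D) (abs_nonneg C)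
    _ = |C| * (1 + ρ) ^ D * (1 + ‖s‖) ^ D := by rw [mul_pow, mul_assoc]

theorem kap_gr_tr {D : ℕ} {f : Ent (LG g m)} (h : Gr D f.1) (x : LG g m) : Gr D (tr x f).1 :=
  fun R => by
    obtain ⟨C, hC⟩ := kap_gr_shift h R ‖x‖ (norm_nonneg x)
    exact ⟨C, fun z s hz => hC z s hz x le_rfl⟩

theorem kap_gr_dE {D : ℕ} {f : Ent (LG g m)} (h : Gr D f.1) (v : LG g m) : Gr D (dE v f).1 :=
  fun R => by
    obtain ⟨C, hC⟩ := kap_gr_shift h R ‖v‖ (norm_nonneg v)
    exact ⟨C, fun z s hz => kap_norm_dE f v _ _ fun t ht => hC z s hz _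
      (by rw [norm_smul, ht, one_mul])⟩

theorem kap_gr_mul {a b : ℕ} {f k : Ent (LG g m)} (h : Gr a f.1) (h' : Gr b k.1) :
    Gr (a + b) (f * k).1 := fun R => by
  obtain ⟨C, hC⟩ := h R
  obtain ⟨C', hC'⟩ := h' R
  refine ⟨C * C', fun z s hz => ?_⟩
  show ‖f.1 (z, s) * k.1 (z, s)‖ ≤ _
  rw [norm_mul, pow_add, mul_mul_mul_comm]
  exact mul_le_mul (hC z s hz) (hC' z s hz) (norm_nonneg _) ((norm_nonneg _).trans (hC z s hz))

theorem kap_gr_sub {a : ℕ} {f k : Ent (LG g m)} (h : Gr a f.1) (h' : Gr a k.1) :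
    Gr a (f - k).1 := by
  have := h.add (h'.smul (-1))
  rwa [neg_one_smul, ← sub_eq_add_neg] at this

theorem kap_gr_br {a b : ℕ} (l : List (LG g m)) {f k : Ent (LG g m)} (h : Gr a f.1)
    (h' : Gr b k.1) : Gr (a + b) (Br dE l f k).1 := by
  induction l generalizing f k with
  | nil => exact kap_gr_mul h h'
  | cons i l ih => exact kap_gr_sub (ih (kap_gr_dE h i) h') (ih h (kap_gr_dE h' i))

namespace Gx

variable {N : ℕ} {A : AbVar g N} (G : Gx A m)

theorem kap_pow_mem (i : Fin (N + 1)) (D : ℕ) : G.th i ^ D ∈ G.T D := by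
  induction D with
  | zero => simpa using G.one_mem
  | succ D ih => rw [pow_succ]; exact G.mul_mem ih (G.th_mem i)

theorem kap_tr_aut {D : ℕ} {Ψ : Ent (LG g m)} (h : Aut A G.w D Ψ.1) (j : Fin (2 * g))
    (x : LG g m) : tr (A.ω j, -G.w j) (tr x Ψ) =
      kapEps ((D : ℂ) • (A.a j).comp (ContinuousLinearMap.fst ℂ _ _))
        (D * (A.a j x.1 + A.b j)) * tr x Ψ := by
  refine Subtype.ext (funext fun p => ?_)
  show Ψ.1 (p + (A.ω j, -G.w j) + x) =
    Complex.exp ((D : ℂ) * A.a j p.1 + D * (A.a j x.1 + A.b j)) * Ψ.1 (p + x)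
  rw [add_right_comm, h j (p + x), Prod.fst_add, map_add]
  congr 2
  ring

/-- Growth: `Gr` is stable under products, translations and derivatives (Cauchy estimate,
`cauchy_word` with a word of length one, or directly), so `Br l f k` has growth `a + b` if `f`, `k`
have growth `a`, `b` (induction on `l`).  Automorphy: let `P = (ω j, -w j)`, `α` the `ℂ`-linear form
`D * a j ∘ fst`, `ε c = exp (α · + c)` as an element of `Ent`; `dE v (ε c) = α v • ε c`, hence
`Br l (ε c * f) (ε c' * k) = ε c * ε c' * Br l f k` by induction on `l` (`Br l` is bilinear), and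
`tr P` commutes with `Br` (`tr_dE`).  Take `κ = th i ^ D` with `θ i z.1 ≠ 0`. -/
theorem kap (D : ℕ) (z : LG g m) : ∃ κ : Ent (LG g m), κ.1 z ≠ 0 ∧ ∀ Ψ ∈ G.T D,
    ∀ (x : LG g m) (l : List (LG g m)), Br dE l (tr x Ψ) (tr (-x) κ) ∈ G.T (2 * D) := by
  obtain ⟨i, hi⟩ := A.ne z.1
  have hκ := G.kap_pow_mem i D
  refine ⟨G.th i ^ D, pow_ne_zero D hi, fun Ψ hΨ x l => ⟨fun j p => ?_, ?_⟩⟩
  · have h1 := kap_br_hom dE (tr (A.ω j, -G.w j)) (fun v f => tr_dE _ v f) l (tr x Ψ)
      (tr (-x) (G.th i ^ D))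
    rw [G.kap_tr_aut hΨ.1, G.kap_tr_aut hκ.1,
      kap_br_eps dE _ _ _ (kap_dE_eps _ _) (kap_dE_eps _ _)] at h1
    have h2 := congrFun (congrArg Subtype.val h1) p
    refine h2.trans ?_
    show Complex.exp ((D : ℂ) * A.a j p.1 + D * (A.a j x.1 + A.b j)) *
      Complex.exp ((D : ℂ) * A.a j p.1 + D * (A.a j (-x).1 + A.b j)) * _ = _
    rw [← Complex.exp_add, Prod.fst_neg, map_neg]
    congr 2
    push_cast
    ring
  · rw [two_mul]
    exact kap_gr_br l (kap_gr_tr hΨ.2 x) (kap_gr_tr hκ.2 (-x))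

end Gx

end GPC73
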