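import Pool.Agent.MP_57341d_ag.H73.Defs
import Pool.Agent.MP_57341d_ag.Mg.H73_Gx
import Pool.Agent.MP_d171e3_nt.Small

section

/-! Sampling of entire functions with a quadratic weight. -/

namespace GPC73

variable {E : Type} [NormedAddCommGroup E] [NormedSpace ℂ E]

/-- `Φ` is affine up to `κ ‖u‖ ^ 2` around every point. -/
def Quad (κ : ℝ) (Φ : E → ℝ) : Prop :=
  ∀ x, ∃ ℓ : E →L[ℝ] ℝ, ∀ u, |Φ (x + u) - Φ x - ℓ u| ≤ κ * ‖u‖ ^ 2

theorem Quad.add {κ κ' : ℝ} {Φ Φ' : E → ℝ} (h : Quad κ Φ) (h' : Quad κ' Φ') :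
    Quad (κ + κ') (Φ + Φ') := by
  intro x
  obtain ⟨ℓ, h1⟩ := h x
  obtain ⟨ℓ', h2⟩ := h' x
  refine ⟨ℓ + ℓ', fun u => ?_⟩
  have e : (Φ + Φ') (x + u) - (Φ + Φ') x - (ℓ + ℓ') u =
      (Φ (x + u) - Φ x - ℓ u) + (Φ' (x + u) - Φ' x - ℓ' u) := by
    simp only [Pi.add_apply, _root_.add_apply]; ring
  rw [e, add_mul]
  exact (abs_add_le _ _).trans (add_le_add (h1 u) (h2 u))

theorem Quad.smul {κ c : ℝ} {Φ : E → ℝ} (h : Quad κ Φ) (hc : 0 ≤ c) :
    Quad (c * κ) fun x => c * Φ x := by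
  intro x
  obtain ⟨ℓ, h1⟩ := h x
  refine ⟨c • ℓ, fun u => ?_⟩
  rw [_root_.smul_apply, smul_eq_mul, ← mul_sub, ← mul_sub, abs_mul, abs_of_nonneg hc,
    mul_assoc]
  exact mul_le_mul_of_nonneg_left (h1 u) hc

theorem quad_bilin (S : E →L[ℝ] E →L[ℝ] ℝ) (r : E →L[ℝ] ℝ) :
    Quad ‖S‖ fun x => S x x + r x := by
  intro x
  refine ⟨S x + S.flip x + r, fun u => ?_⟩
  have e : S (x + u) (x + u) + r (x + u) - (S x x + r x) - (S x + S.flip x + r) u = S u u := by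
    simp only [map_add, _root_.add_apply, ContinuousLinearMap.flip_apply]; ring
  rw [e, sq, ← mul_assoc]
  exact S.le_opNorm₂ u u

theorem samp_step {f : E → ℂ} (hf : Differentiable ℂ f) {Φ : E → ℝ} {κ S ε : ℝ} (hκ : 0 < κ)
    (hΦ : Quad κ Φ) (hS : ∀ z, ‖f z‖ * Real.exp (-Φ z) ≤ S) {x u : E}
    (hu : 576 * κ * ‖u‖ ^ 2 ≤ 1) (hx : ‖f x‖ ≤ ε * Real.exp (Φ x)) :
    ‖f (x + u)‖ * Real.exp (-Φ (x + u)) ≤ 101 / 100 * (ε + S / 4) := by
  obtain ⟨ℓ, h1⟩ := hΦ x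
  set L : E →L[ℂ] ℂ := StrongDual.extendRCLike (𝕜 := ℂ) ℓ with hL
  have hre : ∀ v, (L v).re = ℓ v := fun v => StrongDual.re_extendRCLike_apply (𝕜 := ℂ) ℓ v
  set φ : ℂ → ℂ := fun t => f (x + t • u) * Complex.exp (-L (t • u) - Φ x) with hφ
  have hn : ∀ t, ‖φ t‖ = ‖f (x + t • u)‖ * Real.exp (-ℓ (t • u) - Φ x) := fun t => by
    simp only [hφ, norm_mul, Complex.norm_exp, Complex.sub_re, Complex.neg_re, hre,
      Complex.ofReal_re]
  have hS0 : 0 ≤ S := le_trans (by positivity) (hS x)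
  have hd : Differentiable ℂ φ := by
    have a1 : Differentiable ℂ fun t : ℂ => t • u := differentiable_id.smul_const u
    exact (hf.comp (a1.const_add x)).mul (((L.differentiable.comp a1).neg.sub_const _).cexp)
  have hb : ∀ t ∈ Metric.ball (0 : ℂ) 24, ‖φ t‖ ≤ 3 * S := fun t ht => by
    have a1 : ‖t‖ ^ 2 ≤ 24 ^ 2 := pow_le_pow_left₀ (norm_nonneg _) (mem_ball_zero_iff.1 ht).le 2
    have a2 := (abs_le.1 (h1 (t • u))).2
    rw [norm_smul, mul_pow] at a2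
    have a3 := mul_le_mul_of_nonneg_right a1 (by positivity : 0 ≤ κ * ‖u‖ ^ 2)
    have a4 : Real.exp (Φ (x + t • u) - Φ x - ℓ (t • u)) ≤ 3 :=
      (Real.exp_le_exp.2 (by linarith)).trans (Real.exp_one_lt_three).le
    rw [hn, show -ℓ (t • u) - Φ x = -Φ (x + t • u) + (Φ (x + t • u) - Φ x - ℓ (t • u)) by ring,
      Real.exp_add, ← mul_assoc, mul_comm 3]
    exact mul_le_mul (hS _) a4 (Real.exp_pos _).le hS0
  have h2 := Complex.dist_le_div_mul_dist_of_mapsTo_ball (c := 0) (z := 1) (R₁ := 24) (R₂ := 6 * S)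
    hd.differentiableOn (fun t ht => by
      rw [mem_closedBall_iff_norm]
      linarith [norm_sub_le (φ t) (φ 0), hb t ht, hb 0 (Metric.mem_ball_self (by norm_num))])
    (by simp)
  rw [dist_eq_norm, dist_zero_right, norm_one] at h2
  have h3 : ‖φ 0‖ ≤ ε := by
    rw [hn, zero_smul, add_zero, map_zero, neg_zero, zero_sub, Real.exp_neg, ← div_eq_mul_inv,
      div_le_iff₀ (Real.exp_pos _)]
    exact hx
  have h4 : ‖φ 1‖ ≤ ε + S / 4 := by linarith [norm_sub_norm_le (φ 1) (φ 0)]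
  have h5 : Real.exp (-(Φ (x + u) - Φ x - ℓ u)) ≤ 101 / 100 := by
    have a1 := (abs_le.1 (h1 u)).1
    have a2 : -(Φ (x + u) - Φ x - ℓ u) ≤ 1 / 576 := by linarith
    exact (Real.exp_le_exp.2 a2).trans
      ((Real.exp_bound_div_one_sub_of_interval (by norm_num) (by norm_num)).trans (by norm_num))
  rw [hn, one_smul] at h4
  rw [show -Φ (x + u) = (-ℓ u - Φ x) + -(Φ (x + u) - Φ x - ℓ u) by ring, Real.exp_add, ← mul_assoc,
    mul_comm (101 / 100)]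
  exact mul_le_mul h4 h5 (Real.exp_pos _).le (le_trans (by positivity) h4)

/-- Let `S` be the least bound.  For `z` and `x ∈ Γ` close to it, `u = z - x`, let `ℓ'` be the
`ℂ`-linear form with real part `ℓ` and `φ t = f (x + t • u) * exp (-ℓ' (t • u) - Φ x)`.
On `‖t‖ < 24` one has `‖φ‖ ≤ e S`, so Schwarz gives `‖φ 1‖ ≤ ε + S / 4`. -/
theorem sampling {f : E → ℂ} (hf : Differentiable ℂ f) {Φ : E → ℝ} {κ : ℝ} (hκ : 0 < κ)
    (hΦ : Quad κ Φ) (Γ : Set E) (hΓ : ∀ z, ∃ x ∈ Γ, 576 * κ * ‖z - x‖ ^ 2 ≤ 1)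
    (hb : ∃ S : ℝ, ∀ z, ‖f z‖ ≤ S * Real.exp (Φ z)) {ε : ℝ}
    (h : ∀ x ∈ Γ, ‖f x‖ ≤ ε * Real.exp (Φ x)) (z : E) : ‖f z‖ ≤ 2 * ε * Real.exp (Φ z) := by
  obtain ⟨S₀, h0⟩ := hb
  have bd : BddAbove (Set.range fun z => ‖f z‖ * Real.exp (-Φ z)) := ⟨S₀, by
    rintro _ ⟨z, rfl⟩
    simp only [Real.exp_neg, ← div_eq_mul_inv]
    exact (div_le_iff₀ (Real.exp_pos _)).2 (h0 z)⟩
  have hS : ∀ z, ‖f z‖ * Real.exp (-Φ z) ≤ ⨆ z, ‖f z‖ * Real.exp (-Φ z) := le_ciSup bd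
  have h1 : (⨆ z, ‖f z‖ * Real.exp (-Φ z)) ≤
      101 / 100 * (ε + (⨆ z, ‖f z‖ * Real.exp (-Φ z)) / 4) := ciSup_le fun z => by
    obtain ⟨x, hx, h2⟩ := hΓ z
    have := samp_step hf hκ hΦ hS h2 (h x hx)
    rwa [add_sub_cancel] at this
  have h2 := hS z
  have h3 : 0 ≤ ‖f z‖ * Real.exp (-Φ z) := by positivity
  rw [← div_le_iff₀ (Real.exp_pos _), div_eq_mul_inv, ← Real.exp_neg]
  linarith

theorem samp_symm {g N : ℕ} (A : AbVar g N) (j k : Fin (2 * g)) :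
    (A.a j (A.ω k)).re = (A.a k (A.ω j)).re := by
  obtain ⟨i, hi⟩ := A.ne 0
  have h1 := A.aut i j (0 + A.ω k)
  have h2 := A.aut i k (0 + A.ω j)
  rw [add_right_comm, h1, A.aut, A.aut, ← mul_assoc, ← mul_assoc] at h2
  have h3 := congrArg norm (mul_right_cancel₀ hi h2)
  simp only [← Complex.exp_add, Complex.norm_exp, Real.exp_eq_exp, Complex.add_re, zero_add,
    map_zero] at h3
  linarith

/-- Comparing `θ i (z + ω j + ω k)` computed in two ways gives `re (a j (ω k)) = re (a k (ω j))`.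
With the coordinates `r j = ω.coord j` put `S u v = ∑ j, r j u * re (a j v)` (symmetric) and
`φ z = S z z / 2 + ∑ j, r j z * (re (b j) - S (ω j) (ω j) / 2)`. -/
theorem exists_weight {g N : ℕ} (A : AbVar g N) : ∃ (φ : (Fin g → ℂ) → ℝ) (κ : ℝ), 0 < κ ∧
    Continuous φ ∧ Quad κ φ ∧ ∀ j z, φ (z + A.ω j) = φ z + (A.a j z + A.b j).re := by
  set r : Fin (2 * g) → (Fin g → ℂ) →L[ℝ] ℝ := fun j =>
    LinearMap.toContinuousLinearMap (A.ω.coord j) with hr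
  set α : Fin (2 * g) → (Fin g → ℂ) →L[ℝ] ℝ := fun j =>
    Complex.reCLM.comp ((A.a j).restrictScalars ℝ) with hα
  set S : (Fin g → ℂ) →L[ℝ] (Fin g → ℂ) →L[ℝ] ℝ := ∑ j, (r j).smulRight ((1 / 2 : ℝ) • α j) with hS
  set l : (Fin g → ℂ) →L[ℝ] ℝ := ∑ j, ((A.b j).re - α j (A.ω j) / 2) • r j with hl
  have e0 : ∀ u v, S u v = ∑ j, r j u * (1 / 2 * α j v) := fun u v => by
    simp only [hS, _root_.sum_apply, ContinuousLinearMap.smulRight_apply,
      _root_.smul_apply, smul_eq_mul]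
  have e1 : ∀ j k, r j (A.ω k) = if j = k then 1 else 0 := fun j k => by
    simp [hr, Finsupp.single_apply, eq_comm]
  have e2 : ∀ k v, S (A.ω k) v = 1 / 2 * α k v := fun k v => by
    simp only [e0, e1, ite_mul, one_mul, zero_mul, Finset.sum_ite_eq', Finset.mem_univ, if_true]
  have e3 : ∀ k v, S v (A.ω k) = 1 / 2 * α k v := fun k v => by
    have e4 : ∀ j, α j (A.ω k) = α k (A.ω j) := fun j => samp_symm A j k
    conv_rhs => rw [← A.ω.sum_repr v]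
    simp only [e0, e4, map_sum, map_smul, smul_eq_mul, Finset.mul_sum]
    exact Finset.sum_congr rfl fun j _ => mul_left_comm _ _ _
  have e5 : ∀ k, l (A.ω k) = (A.b k).re - α k (A.ω k) / 2 := fun k => by
    simp only [hl, _root_.sum_apply, _root_.smul_apply, smul_eq_mul, e1,
      mul_ite, mul_one, mul_zero, Finset.sum_ite_eq', Finset.mem_univ, if_true]
  refine ⟨fun x => S x x + l x, ‖S‖ + 1, by positivity, by fun_prop, fun x => ?_, fun j z => ?_⟩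
  · obtain ⟨ℓ, h⟩ := quad_bilin S l x
    exact ⟨ℓ, fun u => (h u).trans (mul_le_mul_of_nonneg_right (by linarith) (sq_nonneg _))⟩
  · have e6 : (A.a j z).re = α j z := rfl
    simp only [map_add, _root_.add_apply, e2, e5, Complex.add_re, e6]
    rw [e3]
    ring

end GPC73

end

section

/-! Dirichlet's box principle for sections of the extension restricted to a leaf. -/

namespace GPC73

theorem pigeon_c {ι J : Type} [Fintype ι] [Fintype J] (u : ι → J → ℂ) {h V α : ℝ} (hV : 1 ≤ V)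
    (hhV : h ≤ V) (hα : 0 ≤ α) (hu : ∀ i j, ‖u i j‖ ≤ Real.exp (α * V))
    (hN : (Fintype.card ι : ℝ) ≤ Real.exp h)
    (hc : (7 + α) * V * (Fintype.card J * 2) ≤ Fintype.card ι * h) (hpos : 0 < Fintype.card ι) :
    ∃ p : ι → ℤ, p ≠ 0 ∧ (∀ i, |(p i : ℝ)| ≤ Real.exp h) ∧
      ∀ j, ‖∑ i, (p i : ℂ) * u i j‖ ≤ 2 * Real.exp (-V) := by
  have hH : (⌊Real.exp h⌋₊ : ℝ) ≤ Real.exp h := Nat.floor_le (Real.exp_pos h).le
  have hM : Fintype.card ι * (⌊Real.exp h⌋₊ * Real.exp (α * V)) ≤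
      ⌈Real.exp ((3 + α) * V)⌉₊ * Real.exp (-V) := by
    have k1 : Real.exp h ≤ Real.exp V := Real.exp_le_exp.2 hhV
    calc (Fintype.card ι : ℝ) * (⌊Real.exp h⌋₊ * Real.exp (α * V))
        ≤ Real.exp V * (Real.exp V * Real.exp (α * V)) :=
          mul_le_mul (hN.trans k1) (mul_le_mul_of_nonneg_right (hH.trans k1) (by positivity))
            (by positivity) (by positivity)
      _ = Real.exp ((3 + α) * V) * Real.exp (-V) := by
          simp only [← Real.exp_add]; congr 1; ring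
      _ ≤ _ := mul_le_mul_of_nonneg_right (Nat.le_ceil _) (by positivity)
  have hM2 : ((2 * ⌈Real.exp ((3 + α) * V)⌉₊ + 1 : ℕ) : ℝ) ≤ Real.exp ((7 + α) * V) := by
    have k1 := (Nat.ceil_lt_add_one (Real.exp_pos ((3 + α) * V)).le).le
    have k2 : 1 ≤ Real.exp ((3 + α) * V) := Real.one_le_exp (by positivity)
    have k3 : 5 ≤ Real.exp (4 * V) := by linarith [Real.add_one_le_exp (4 * V)]
    have k4 : Real.exp ((7 + α) * V) = Real.exp (4 * V) * Real.exp ((3 + α) * V) := by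
      rw [← Real.exp_add]; congr 1; ring
    have k5 := mul_le_mul_of_nonneg_right k3 (Real.exp_pos ((3 + α) * V)).le
    push_cast
    linarith
  obtain ⟨p, hp0, hpH, hp⟩ := Pool.Agent.MP_d171e3_nt.pigeon (J := J × Bool)
    (fun i j => if j.2 then (u i j.1).re else (u i j.1).im)
    (Real.exp (α * V)) (Real.exp (-V)) ⌊Real.exp h⌋₊ ⌈Real.exp ((3 + α) * V)⌉₊ (Real.exp_pos _)
    (fun i j => by
      split_ifs
      · exact (Complex.abs_re_le_norm _).trans (hu _ _)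
      · exact (Complex.abs_im_le_norm _).trans (hu _ _)) hM (by
      rw [← Nat.cast_lt (α := ℝ), Nat.cast_pow, Nat.cast_pow]
      refine lt_of_le_of_lt (pow_le_pow_left₀ (Nat.cast_nonneg _) hM2 _) ?_
      refine lt_of_le_of_lt ?_ (pow_lt_pow_left₀ (b := ((⌊Real.exp h⌋₊ + 1 : ℕ) : ℝ))
        (by rw [Nat.cast_succ]; exact Nat.lt_floor_add_one _) (Real.exp_pos h).le hpos.ne')
      rw [← Real.exp_nat_mul, ← Real.exp_nat_mul, Real.exp_le_exp]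
      simp only [Fintype.card_prod, Fintype.card_bool]
      push_cast
      linarith)
  refine ⟨p, hp0, fun i => (hpH i).trans hH, fun j => ?_⟩
  have k1 := hp (j, true)
  have k2 := hp (j, false)
  simp only [if_true, Bool.false_eq_true, if_false] at k1 k2
  refine (Complex.norm_le_abs_re_add_abs_im _).trans ?_
  simp only [Complex.re_sum, Complex.im_sum, Complex.mul_re, Complex.mul_im, Complex.intCast_re,
    Complex.intCast_im, zero_mul, sub_zero, add_zero]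
  linarith

variable {g N m : ℕ}

/-- The modulus `‖Ψ (z, s)‖ exp (-n φ z)` is invariant under all periods. -/
theorem small_inv (A : AbVar g N) (w : Fin (2 * g) → Fin m → ℂ) {φ : (Fin g → ℂ) → ℝ}
    (hφ : ∀ j z, φ (z + A.ω j) = φ z + (A.a j z + A.b j).re) {n : ℕ} {Ψ : LG g m → ℂ}
    (h : Aut A w n Ψ) (ν : Fin (2 * g) → ℤ) (z : Fin g → ℂ) :
    ‖Ψ (z + A.per ν, 0)‖ * Real.exp (-(n * φ (z + A.per ν))) =
      ‖Ψ (z, ∑ j, ν j • w j)‖ * Real.exp (-(n * φ z)) := by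
  set G : LG g m → ℝ := fun p => ‖Ψ p‖ * Real.exp (-(n * φ p.1)) with hG
  have h1 : ∀ j, Function.Periodic G (A.ω j, -w j) := fun j p => by
    simp only [hG]
    rw [h j p, Prod.fst_add, hφ, norm_mul, Complex.norm_exp, ← nsmul_eq_mul n (_ : ℂ),
      Complex.re_nsmul, nsmul_eq_mul, mul_comm (Real.exp _), mul_assoc, ← Real.exp_add]
    congr 2
    ring
  have h2 : Function.Periodic G (∑ j, ν j • ((A.ω j, -w j) : LG g m)) :=
    Finset.sum_induction _ (Function.Periodic G) (fun _ _ ha hb => ha.add_period hb)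
      (fun p => by rw [add_zero]) fun j _ => (h1 j).zsmul _
  have h3 : ((z, ∑ j, ν j • w j) : LG g m) + ∑ j, ν j • ((A.ω j, -w j) : LG g m) =
      (z + A.per ν, 0) := by
    refine Prod.ext ?_ ?_
    · simp [Prod.fst_sum, AbVar.per]
    · simp [Prod.snd_sum]
  have h4 := h2 (z, ∑ j, ν j • w j)
  rwa [h3] at h4

theorem small_quad {E : Type} [NormedAddCommGroup E] [NormedSpace ℂ E] (L : Fin m → E →L[ℝ] ℝ) :
    ∃ κ, 0 ≤ κ ∧ Quad κ fun x => ∑ l, L l x ^ 2 := by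
  have := quad_bilin (∑ l, (L l).smulRight (L l)) 0
  exact ⟨_, ContinuousLinearMap.opNorm_nonneg _, by simpa [sq] using this⟩

theorem small_form (A : AbVar g N) (ℓ : Fin (2 * g) → Fin m → ℤ) :
    ∃ (L : Fin m → (Fin g → ℂ) → ℝ) (κ : ℝ), 0 ≤ κ ∧ (Quad κ fun x => ∑ l, L l x ^ 2) ∧
      (Continuous fun x => ∑ l, L l x ^ 2) ∧
      ∀ l z ν, L l (z + A.per ν) = L l z + (∑ j, ν j * ℓ j l : ℤ) := by
  let L : Fin m → (Fin g → ℂ) →L[ℝ] ℝ := fun l =>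
    LinearMap.toContinuousLinearMap (A.ω.constr ℝ fun j => (ℓ j l : ℝ))
  obtain ⟨κ, h0, hκ⟩ := small_quad (E := Fin g → ℂ) L
  refine ⟨fun l => L l, κ, h0, hκ, by fun_prop, fun l z ν => ?_⟩
  have : ∀ j, L l (A.ω j) = ℓ j l := fun j => A.ω.constr_basis ℝ _ j
  simp only [AbVar.per, map_add, map_sum, map_zsmul, this]
  simp only [zsmul_eq_mul, Int.cast_sum, Int.cast_mul]

theorem small_grid (A : AbVar g N) {M : ℕ} (hM : 0 < M) (z : Fin g → ℂ) :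
    ∃ (c : Fin (2 * g) → Fin M) (ν : Fin (2 * g) → ℤ),
      ‖z - (∑ j, (((c j : ℕ) : ℝ) / M) • A.ω j + A.per ν)‖ ≤ (∑ j, ‖A.ω j‖) / M := by
  have hM' : (0 : ℝ) < M := by exact_mod_cast hM
  refine ⟨fun j => ⟨⌊Int.fract (A.ω.repr z j) * M⌋₊, ?_⟩, fun j => ⌊A.ω.repr z j⌋, ?_⟩
  · rw [Nat.floor_lt (mul_nonneg (Int.fract_nonneg _) hM'.le)]
    exact mul_lt_of_lt_one_left hM' (Int.fract_lt_one _)
  · have e : z - (∑ j, ((⌊Int.fract (A.ω.repr z j) * M⌋₊ : ℝ) / M) • A.ω j +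
        A.per fun j => ⌊A.ω.repr z j⌋) = ∑ j, (Int.fract (A.ω.repr z j) -
          (⌊Int.fract (A.ω.repr z j) * M⌋₊ : ℝ) / M) • A.ω j := by
      conv_lhs => rw [← A.ω.sum_repr z]
      simp only [A.ω.sum_repr, AbVar.per, Int.fract, sub_smul, Finset.sum_sub_distrib,
        Int.cast_smul_eq_zsmul]
      abel
    rw [e, Finset.sum_div]
    refine (norm_sum_le _ _).trans (Finset.sum_le_sum fun j _ => ?_)
    have k0 := mul_nonneg (Int.fract_nonneg (A.ω.repr z j)) hM'.le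
    have k1 := Nat.floor_le k0
    have k2 := Nat.lt_floor_add_one (Int.fract (A.ω.repr z j) * M)
    rw [norm_smul, div_eq_inv_mul ‖_‖, Real.norm_eq_abs]
    refine mul_le_mul_of_nonneg_right ?_ (norm_nonneg _)
    rw [sub_div' hM'.ne', abs_div, abs_of_pos hM', inv_eq_one_div]
    refine div_le_div_of_nonneg_right (abs_le.2 ⟨?_, ?_⟩) hM'.le <;> linarith

theorem small_pt (A : AbVar g N) {M : ℕ} (c : Fin (2 * g) → Fin M) :
    ‖∑ j, (((c j : ℕ) : ℝ) / M) • A.ω j‖ ≤ ∑ j, ‖A.ω j‖ := by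
  refine (norm_sum_le _ _).trans (Finset.sum_le_sum fun j _ => ?_)
  rw [norm_smul, Real.norm_of_nonneg (by positivity)]
  exact mul_le_of_le_one_left (norm_nonneg _)
    (div_le_one_of_le₀ (by exact_mod_cast (c j).2.le) (by positivity))

theorem small_val {ι : Type} [Fintype ι] {p : ι → ℤ} {u : ι → ℂ} {h B : ℝ}
    (hN : (Fintype.card ι : ℝ) ≤ Real.exp h) (hp : ∀ i, |(p i : ℝ)| ≤ Real.exp h)
    (hu : ∀ i, ‖u i‖ ≤ Real.exp B) : ‖∑ i, (p i : ℂ) * u i‖ ≤ Real.exp (2 * h + B) := by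
  refine (norm_sum_le _ _).trans ((Finset.sum_le_card_nsmul _ _
    (Real.exp h * Real.exp B) fun i _ => ?_).trans ?_)
  · rw [norm_mul, Complex.norm_intCast]
    exact mul_le_mul (hp i) (hu i) (norm_nonneg _) (Real.exp_pos h).le
  · rw [nsmul_eq_mul, Finset.card_univ]
    refine (mul_le_mul_of_nonneg_right hN (by positivity)).trans (le_of_eq ?_)
    simp only [← Real.exp_add]
    congr 1
    ring

theorem small_rho {μ : Fin m → ℤ} {a : Fin m → ℝ} {c : ℝ} (ha : ∑ l, a l ^ 2 ≤ c) :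
    ‖fun l => (μ l : ℂ)‖ ^ 2 ≤ 2 * (∑ l, (a l + μ l) ^ 2 + c) := by
  have h0 : 0 ≤ ∑ l, a l ^ 2 := Finset.sum_nonneg fun _ _ => sq_nonneg _
  have h1 : 0 ≤ ∑ l, (a l + μ l) ^ 2 := Finset.sum_nonneg fun _ _ => sq_nonneg _
  rw [← Real.le_sqrt (norm_nonneg _) (by linarith), pi_norm_le_iff_of_nonneg (Real.sqrt_nonneg _)]
  intro l
  rw [Complex.norm_intCast]
  refine Real.abs_le_sqrt ?_
  have k1 := Finset.single_le_sum (f := fun l => a l ^ 2) (fun _ _ => sq_nonneg _)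
    (Finset.mem_univ l)
  have k2 := Finset.single_le_sum (f := fun l => (a l + μ l) ^ 2) (fun _ _ => sq_nonneg _)
    (Finset.mem_univ l)
  nlinarith [sq_nonneg (2 * a l + μ l)]

theorem small_mesh {K n : ℕ} (hn : 1 ≤ n) : K ^ 2 * n ≤ (K * (n.sqrt + 1)) ^ 2 ∧
    (K * (n.sqrt + 1)) ^ (2 * g) ≤ (4 * K ^ 2) ^ g * n ^ g := by
  have h1 := Nat.sqrt_le' n
  have h2 := (Nat.lt_succ_sqrt' n).le
  have h3 : 1 ≤ n.sqrt := Nat.sqrt_pos.2 hn
  refine ⟨by rw [mul_pow]; exact Nat.mul_le_mul_left _ h2, ?_⟩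
  rw [pow_mul, ← mul_pow]
  refine Nat.pow_le_pow_left ?_ _
  calc (K * (n.sqrt + 1)) ^ 2 ≤ (K * (2 * n.sqrt)) ^ 2 :=
        Nat.pow_le_pow_left (Nat.mul_le_mul_left _ (by omega)) _
    _ = 4 * K ^ 2 * n.sqrt ^ 2 := by ring
    _ ≤ _ := Nat.mul_le_mul_left _ h1

/-- A small combination: box principle on a grid, Gaussian weight in the fibre, sampling. -/
theorem small (A : AbVar g N) (w : Fin (2 * g) → Fin m → ℂ) (ℓ : Fin (2 * g) → Fin m → ℤ)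
    (M : Matrix (Fin m) (Fin m) ℂ) (hw : ∀ j, w j = M.mulVec fun l => (ℓ j l : ℂ)) (C₀ R₁ : ℝ) :
    ∃ C : ℝ, 1 ≤ C ∧ ∀ (ι : Type) [Fintype ι] (Ψ : ι → LG g m → ℂ) (n r : ℕ) (h V : ℝ),
      (∀ i, Differentiable ℂ (Ψ i)) → (∀ i, Aut A w n (Ψ i)) →
      (∀ i z s, ‖z‖ ≤ ∑ j, ‖A.ω j‖ → ‖Ψ i (z, s)‖ ≤ (C₀ * (1 + ‖s‖)) ^ n) →
      1 ≤ n → 1 ≤ h → h ≤ V → (Fintype.card ι : ℝ) ≤ Real.exp h → (n * r : ℝ) ≤ V →
      C * V ≤ n * r ^ 2 → C * n ^ g * r ^ m * V ≤ Fintype.card ι * h →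
      ∃ p : ι → ℤ, p ≠ 0 ∧ (∀ i, |(p i : ℝ)| ≤ Real.exp h) ∧ ∀ z, ‖z‖ ≤ R₁ →
        ‖∑ i, (p i : ℂ) * Ψ i (z, 0)‖ ≤ Real.exp (-V + C * n) := by
  obtain ⟨φ, κ₀, hκ₀, hφc, hφq, hφ⟩ := exists_weight A
  obtain ⟨L, κ₁, hκ₁, hLq, hLc, hL⟩ := small_form A ℓ
  obtain ⟨R₀, hR₀⟩ : ∃ R₀, R₀ = ∑ j, ‖A.ω j‖ := ⟨_, rfl⟩
  have hR0 : 0 ≤ R₀ := hR₀ ▸ Finset.sum_nonneg fun _ _ => norm_nonneg _
  obtain ⟨c, hc0, hcφ, hcQ⟩ : ∃ c : ℝ, 0 ≤ c ∧ (∀ z, ‖z‖ ≤ max R₀ R₁ → |φ z| ≤ c) ∧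
      ∀ z, ‖z‖ ≤ max R₀ R₁ → ∑ l, L l z ^ 2 ≤ c := by
    obtain ⟨c₁, h1⟩ := (isCompact_closedBall (0 : Fin g → ℂ) (max R₀ R₁)).exists_bound_of_continuousOn
      hφc.continuousOn
    obtain ⟨c₂, h2⟩ := (isCompact_closedBall (0 : Fin g → ℂ) (max R₀ R₁)).exists_bound_of_continuousOn
      hLc.continuousOn
    refine ⟨|c₁| + |c₂|, by positivity, fun z hz => ?_, fun z hz => ?_⟩
    · linarith [h1 z (mem_closedBall_zero_iff.2 hz), le_abs_self c₁, abs_nonneg c₂,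
        Real.norm_eq_abs (φ z)]
    · linarith [h2 z (mem_closedBall_zero_iff.2 hz), le_abs_self c₂, abs_nonneg c₁,
        Real.le_norm_self (∑ l, L l z ^ 2)]
  obtain ⟨a, ha0, ha⟩ : ∃ a : ℝ, 0 ≤ a ∧ ∀ v : Fin m → ℂ,
      |C₀ * (1 + ‖M.mulVec v‖)| ≤ a * (1 + ‖v‖) := by
    obtain ⟨c₂, h0, h2⟩ := (LinearMap.toContinuousLinearMap M.mulVecLin).bound
    refine ⟨|C₀| * (1 + c₂), by positivity, fun v => ?_⟩
    rw [abs_mul, mul_assoc, abs_of_nonneg (a := 1 + _) (by positivity)]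
    refine mul_le_mul_of_nonneg_left ?_ (abs_nonneg _)
    have : ‖M.mulVec v‖ ≤ c₂ * ‖v‖ := h2 v
    linarith [norm_nonneg v]
  obtain ⟨K, hK⟩ := exists_nat_ge (576 * (κ₀ + κ₁) * R₀ ^ 2 + 1)
  have hKp : 0 ≤ 576 * (κ₀ + κ₁) * R₀ ^ 2 := by positivity
  have hK1 : (1 : ℝ) ≤ K := by linarith
  have hK2 : 576 * (κ₀ + κ₁) * R₀ ^ 2 ≤ (K : ℝ) ^ 2 := by nlinarith
  obtain ⟨C, hC1, hC2, hC3⟩ : ∃ C : ℝ, 12 ≤ C ∧ 3 + (a + 2 * c + a ^ 2) + 2 * c ≤ C ∧
      (7 + 2 * a) * 2 * ((4 * (K : ℝ) ^ 2) ^ g * 3 ^ m) ≤ C := by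
    have k1 : 0 ≤ 3 + (a + 2 * c + a ^ 2) + 2 * c := by positivity
    have k2 : 0 ≤ (7 + 2 * a) * 2 * ((4 * (K : ℝ) ^ 2) ^ g * 3 ^ m) := by positivity
    exact ⟨12 + (3 + (a + 2 * c + a ^ 2) + 2 * c) + (7 + 2 * a) * 2 * ((4 * (K : ℝ) ^ 2) ^ g * 3 ^ m),
      by linarith, by linarith, by linarith⟩
  refine ⟨C, by linarith, fun ι _ Ψ n r h V hd hA hb hn hh hhV hN hnr hr2 hNh => ?_⟩
  rw [← hR₀] at hb
  have hn1 : (1 : ℝ) ≤ n := by exact_mod_cast hn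
  have hn0 : (0 : ℝ) < n := by linarith
  have hV1 : 1 ≤ V := hh.trans hhV
  have hCV : 12 * V ≤ n * r ^ 2 := (mul_le_mul_of_nonneg_right hC1 (by linarith)).trans hr2
  have hr : 1 ≤ r := by
    rcases Nat.eq_zero_or_pos r with rfl | h0
    · simp only [Nat.cast_zero, ne_eq, OfNat.ofNat_ne_zero, not_false_eq_true, zero_pow,
        mul_zero] at hCV
      linarith
    · exact h0
  have hr1 : (1 : ℝ) ≤ r := by exact_mod_cast hr
  have hnV : (n : ℝ) ≤ V := (le_mul_of_one_le_right hn0.le hr1).trans hnr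
  have hb' : ∀ i z v, ‖z‖ ≤ R₀ → ‖Ψ i (z, M.mulVec v)‖ ≤ Real.exp (n * (a * (1 + ‖v‖))) := by
    intro i z v hz
    refine (hb i z _ hz).trans ((le_abs_self _).trans ?_)
    rw [abs_pow, Real.exp_nat_mul]
    exact pow_le_pow_left₀ (abs_nonneg _)
      ((ha v).trans (by linarith [Real.add_one_le_exp (a * (1 + ‖v‖))])) _
  obtain ⟨T, hT⟩ : ∃ T, T = K * (n.sqrt + 1) := ⟨_, rfl⟩
  obtain ⟨hT1, hT2⟩ := small_mesh (g := g) (K := K) hn
  rw [← hT] at hT1 hT2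
  have hT0 : 0 < T := hT ▸ Nat.mul_pos (by exact_mod_cast hK1) (Nat.succ_pos _)
  have hpos : 0 < Fintype.card ι := by
    rcases Nat.eq_zero_or_pos (Fintype.card ι) with h0 | h0
    · have : 0 < C := by linarith
      rw [h0, Nat.cast_zero, zero_mul] at hNh
      exact absurd hNh (not_le.2 (by positivity))
    · exact h0
  obtain ⟨p, hp0, hpH, hp⟩ := pigeon_c (J := (Fin (2 * g) → Fin T) × (Fin m → Fin (2 * r + 1)))
    (fun i j => Ψ i (∑ k, (((j.1 k : ℕ) : ℝ) / T) • A.ω k,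
      M.mulVec fun l => (((j.2 l : ℕ) - r : ℤ) : ℂ))) (α := 2 * a) hV1 hhV (by positivity)
    (fun i j => by
      refine (hb' i _ _ (hR₀ ▸ small_pt A j.1)).trans (Real.exp_le_exp.2 ?_)
      have k1 : ‖fun l => (((j.2 l : ℕ) - r : ℤ) : ℂ)‖ ≤ r := by
        rw [pi_norm_le_iff_of_nonneg (by positivity)]
        intro l
        have := (j.2 l).2
        have k0 : |((j.2 l : ℕ) - r : ℤ)| ≤ r := abs_le.2 ⟨by omega, by omega⟩
        rw [Complex.norm_intCast]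
        exact_mod_cast k0
      have k2 := mul_le_mul_of_nonneg_left k1 hn0.le
      have k3 := mul_le_mul_of_nonneg_left (add_le_add hnV (k2.trans hnr)) ha0
      linarith) hN (by
      refine le_trans ?_ hNh
      have k1 : ((T : ℝ)) ^ (2 * g) ≤ (4 * (K : ℝ) ^ 2) ^ g * n ^ g := by exact_mod_cast hT2
      have k2 : (2 * (r : ℝ) + 1) ^ m ≤ 3 ^ m * r ^ m := by
        rw [← mul_pow]
        exact pow_le_pow_left₀ (by positivity) (by linarith) _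
      have k3 := mul_le_mul k1 k2 (by positivity) (by positivity)
      simp only [Fintype.card_prod, Fintype.card_fun, Fintype.card_fin]
      push_cast
      calc (7 + 2 * a) * V * ((T : ℝ) ^ (2 * g) * (2 * (r : ℝ) + 1) ^ m * 2)
          ≤ (7 + 2 * a) * V * ((4 * (K : ℝ) ^ 2) ^ g * n ^ g * (3 ^ m * r ^ m) * 2) :=
            mul_le_mul_of_nonneg_left (mul_le_mul_of_nonneg_right k3 zero_le_two) (by positivity)
        _ = (7 + 2 * a) * 2 * ((4 * (K : ℝ) ^ 2) ^ g * 3 ^ m) * (n ^ g * r ^ m * V) := by ring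
        _ ≤ C * (n ^ g * r ^ m * V) := mul_le_mul_of_nonneg_right hC3 (by positivity)
        _ = _ := by ring) hpos
  refine ⟨p, hp0, hpH, fun z hz => ?_⟩
  have hA' : Aut A w n fun q => ∑ i, (p i : ℂ) * Ψ i q := fun j q => by
    rw [Finset.mul_sum]
    exact Finset.sum_congr rfl fun i _ => by rw [hA i j q, mul_left_comm]
  have hμ : ∀ ν : Fin (2 * g) → ℤ, ∑ j, ν j • w j =
      M.mulVec fun l => ((∑ j, ν j * ℓ j l : ℤ) : ℂ) := fun ν => by
    have : (fun l => ((∑ j, ν j * ℓ j l : ℤ) : ℂ)) = ∑ j, ν j • fun l => (ℓ j l : ℂ) := by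
      funext l
      simp
    rw [this, ← Matrix.mulVecLin_apply, map_sum]
    exact Finset.sum_congr rfl fun j _ => by rw [map_zsmul, hw, Matrix.mulVecLin_apply]
  -- transport of a bound from the fundamental domain
  have key : ∀ z₀ ν (B : ℝ), ‖z₀‖ ≤ R₀ → 0 ≤ B →
      ‖∑ i, (p i : ℂ) * Ψ i (z₀, M.mulVec fun l => ((∑ j, ν j * ℓ j l : ℤ) : ℂ))‖ ≤ B →
      ‖∑ i, (p i : ℂ) * Ψ i (z₀ + A.per ν, 0)‖ ≤
        B * Real.exp (n * c) * Real.exp (n * φ (z₀ + A.per ν)) := by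
    intro z₀ ν B hz₀ hB0 hB
    have k1 := small_inv A w hφ hA' ν z₀
    rw [hμ, Real.exp_neg, mul_inv_eq_iff_eq_mul₀ (Real.exp_pos _).ne'] at k1
    rw [k1]
    refine mul_le_mul_of_nonneg_right (mul_le_mul hB (Real.exp_le_exp.2 ?_) (Real.exp_pos _).le hB0)
      (Real.exp_pos _).le
    have := mul_le_mul_of_nonneg_left (abs_le.1 (hcφ z₀ (hz₀.trans (le_max_left _ _)))).1 hn0.le
    linarith
  have gen : ∀ z₀ ν (ρ : ℝ), ‖z₀‖ ≤ R₀ → ρ = ‖fun l => ((∑ j, ν j * ℓ j l : ℤ) : ℂ)‖ →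
      ‖∑ i, (p i : ℂ) * Ψ i (z₀ + A.per ν, 0)‖ ≤
        Real.exp (2 * h + n * (a + 2 * c + a ^ 2) - n * ρ ^ 2 / 4) *
          Real.exp (n * (φ (z₀ + A.per ν) + ∑ l, L l (z₀ + A.per ν) ^ 2)) := by
    intro z₀ ν ρ hz₀ hρ
    refine (key z₀ ν _ hz₀ (Real.exp_pos _).le
      (small_val hN hpH fun i => hb' i z₀ _ hz₀)).trans ?_
    have k1 := small_rho (μ := fun l => ∑ j, ν j * ℓ j l) (hcQ z₀ (hz₀.trans (le_max_left _ _)))
    simp only [← hL] at k1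
    rw [← hρ] at k1 ⊢
    simp only [← Real.exp_add]
    refine Real.exp_le_exp.2 ?_
    have k2 : a * (1 + ρ) + c ≤ a + 2 * c + a ^ 2 - ρ ^ 2 / 4 + ∑ l, L l (z₀ + A.per ν) ^ 2 := by
      linarith [sq_nonneg (a - ρ / 2)]
    linarith [mul_le_mul_of_nonneg_left k2 hn0.le]
  have hs := sampling (f := fun z => ∑ i, (p i : ℂ) * Ψ i (z, 0))
    (Differentiable.fun_sum fun i _ => ((hd i).comp
      (differentiable_id.prodMk (differentiable_const _))).const_mul _)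
    (Φ := fun z => n * (φ z + ∑ l, L l z ^ 2)) (κ := n * (κ₀ + κ₁)) (by positivity)
    ((hφq.add hLq).smul hn0.le)
    {x | ∃ (k : Fin (2 * g) → Fin T) (ν : Fin (2 * g) → ℤ),
      x = ∑ j, (((k j : ℕ) : ℝ) / T) • A.ω j + A.per ν} (fun z => ?_)
    ⟨Real.exp (2 * h + n * (a + 2 * c + a ^ 2)), fun z => ?_⟩
    (ε := 2 * Real.exp (-V + n * (a + 2 * c + a ^ 2))) ?_ z
  · refine hs.trans ?_
    have k1 : (4 : ℝ) ≤ Real.exp (n * 3) := by linarith [Real.add_one_le_exp (n * 3)]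
    have k2 := (abs_le.1 (hcφ z (hz.trans (le_max_right _ _)))).2
    have k3 := hcQ z (hz.trans (le_max_right _ _))
    rw [← mul_assoc, show (2 : ℝ) * 2 = 4 by norm_num]
    refine (mul_le_mul_of_nonneg_right (mul_le_mul_of_nonneg_right k1 (Real.exp_pos _).le)
      (Real.exp_pos _).le).trans ?_
    simp only [← Real.exp_add]
    refine Real.exp_le_exp.2 ?_
    linarith [mul_le_mul_of_nonneg_left (add_le_add k2 k3) hn0.le,
      mul_le_mul_of_nonneg_left hC2 hn0.le]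
  · obtain ⟨k, ν, hk⟩ := small_grid A hT0 z
    refine ⟨_, ⟨k, ν, rfl⟩, ?_⟩
    have hT' : (0 : ℝ) < T := by exact_mod_cast hT0
    have k1 := pow_le_pow_left₀ (norm_nonneg _) hk 2
    refine (mul_le_mul_of_nonneg_left k1 (by positivity)).trans ?_
    have k2 : (K : ℝ) ^ 2 * n ≤ (T : ℝ) ^ 2 := by exact_mod_cast hT1
    rw [← hR₀, div_pow, ← mul_div_assoc, div_le_one (by positivity)]
    linarith [mul_le_mul_of_nonneg_right hK2 hn0.le]
  · obtain ⟨k, ν, hk⟩ := small_grid A Nat.one_pos z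
    simp only [Fin.val_eq_zero, Nat.cast_zero, zero_smul, Finset.sum_const_zero, zero_add,
      Nat.cast_one, div_one, ← hR₀] at hk
    have k1 := gen _ ν _ hk rfl
    rw [sub_add_cancel] at k1
    refine k1.trans (mul_le_mul_of_nonneg_right (Real.exp_le_exp.2 (sub_le_self _ ?_))
      (Real.exp_pos _).le)
    positivity
  · rintro _ ⟨k, ν, rfl⟩
    have hk : ‖∑ j, (((k j : ℕ) : ℝ) / T) • A.ω j‖ ≤ R₀ := hR₀ ▸ small_pt A k
    rcases le_total ‖fun l => ((∑ j, ν j * ℓ j l : ℤ) : ℂ)‖ r with h1 | h1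
    · have k0 : ∀ l, |∑ j, ν j * ℓ j l| ≤ r := fun l => by
        have := (norm_le_pi_norm _ l).trans h1
        rw [Complex.norm_intCast] at this
        exact_mod_cast this
      have k1 := hp (k, fun l => ⟨(∑ j, ν j * ℓ j l + r).toNat, by
        have := abs_le.1 (k0 l)
        omega⟩)
      have k2 : ∀ l, (((∑ j, ν j * ℓ j l + r).toNat : ℕ) : ℤ) - r = ∑ j, ν j * ℓ j l := fun l => by
        have := abs_le.1 (k0 l)
        omega
      simp only [k2] at k1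
      refine (key _ ν _ hk (by positivity) k1).trans ?_
      simp only [mul_assoc (2 : ℝ), ← Real.exp_add]
      refine mul_le_mul_of_nonneg_left (Real.exp_le_exp.2 ?_) zero_le_two
      have k3 : 0 ≤ a + c + a ^ 2 + ∑ l, L l (∑ j, (((k j : ℕ) : ℝ) / T) • A.ω j + A.per ν) ^ 2 := by
        positivity
      linarith [mul_nonneg hn0.le k3]
    · refine (gen _ ν _ hk rfl).trans (mul_le_mul_of_nonneg_right ?_ (Real.exp_pos _).le)
      have k1 := mul_le_mul_of_nonneg_left (pow_le_pow_left₀ (by positivity) h1 2) hn0.le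
      refine le_trans (Real.exp_le_exp.2 (show _ ≤ -V + n * (a + 2 * c + a ^ 2) by linarith)) ?_
      linarith [Real.exp_pos (-V + n * (a + 2 * c + a ^ 2))]

end GPC73

end
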