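import Pool.Agent.MP_57341d_ag.Mg.H73_Sys
import Pool.Agent.MP_57341d_ag.Mg.H73_Gx
import Pool.Agent.MP_57341d_ag.Mg.H73_Kap
import Pool.Agent.MP_57341d_ag.Mg.H73_Gaga
import Pool.Agent.MP_57341d_ag.Mg.H73_Small

-- part MP_57341d_ag.H73.Sub
section

section

/-! The multiplicity estimate. -/

open MvPolynomial Pool.Agent.MP_d171e3_nt GPC96 Module

namespace GPC73

namespace Sys

variable {E : Type} [NormedAddCommGroup E] [NormedSpace ℂ E] {σ : Type} (S : Sys E σ)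

/-- Transfer of jets to the chart: in `An O` one has `evP Δ * res Φ = res ϑ ^ D * evP f`; use
`jb_res`, the ideal `Fl`, `Fl_sat`, `jet_hom` with `evP_der`. -/
theorem jet_chart {ι : Type} (b : ι → E) {H : Set E} {T D : ℕ} {Φ : Ent E} {f : MvPolynomial σ ℂ}
    (hf : ∀ z ∈ S.O, S.ev z S.Δ * Φ.1 z = S.ϑ.1 z ^ D * S.ev z f)
    (h : ∀ z, z - S.x₀ ∈ H → JB b T z Φ) :
    Jet (S.q H) (fun i => S.D (b i)) (fun _ => 1) T f := by
  intro l hl z hz hO
  have hz' : z - S.x₀ ∈ H := by rw [sub_eq_add_neg]; exact hz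
  have han : ∀ i, AnalyticOnNhd ℂ (S.ξ i) S.O := S.an
  have h1 := (jb_res b S.isOpen_O T ⟨z, hO⟩ Φ).1 (h z hz')
  have e : evP S.ξ han S.Δ * res S.O Φ = res S.O S.ϑ ^ D * evP S.ξ han f := by
    refine Subtype.ext (funext fun w => ?_)
    have := hf w w.2
    simp only [ev] at this
    rw [← evP_apply S.ξ han, ← evP_apply S.ξ han] at this
    simpa [res_apply] using this
  have h2 : evP S.ξ han S.Δ * res S.O Φ ∈ Fl (ma (⟨z, hO⟩ : S.O))
      (fun i => dA S.isOpen_O (b i)) (w := fun _ => 1) (fun _ => le_rfl) T :=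
    Ideal.mul_mem_left _ _ h1
  rw [e] at h2
  have h3 := Fl_sat _ _ _ (fun hm => S.ϑ_ne z hO (mem_ma.1
    (Ideal.IsPrime.mem_of_pow_mem inferInstance D hm))) h2
  have h4 := (jet_hom (evP S.ξ han) (fun i => S.D (b i)) (fun i => dA S.isOpen_O (b i))
    (fun i g => evP_der S.isOpen_O S.ξ han (b i) (S.d (b i)) (fun j w hw => S.der (b i) j w hw) g)
    (ma (⟨z, hO⟩ : S.O)) (fun _ => 1) T f).2 h3 l hl
  have h5 := mem_ma.1 (Ideal.mem_comap.1 h4)
  rw [evP_apply] at h5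
  exact h5

theorem ze_ap_mem {ι : Type} (b : ι → E) (l : List ι) {f : MvPolynomial σ ℂ}
    (hf : f ∈ S.idl Set.univ) : ap (fun i => S.D (b i)) l f ∈ S.idl Set.univ := by
  induction l generalizing f with
  | nil => exact hf
  | cons i l ih => exact ih (S.D_mem _ hf)

theorem ze_zero {ι : Type} (b : ι → E) {n : ℕ} {Ψ : Ent E} {x : E}
    (h : ∀ z, JB b (n + 1) (z + x) Ψ) : Ψ = 0 := by
  refine Subtype.ext (funext fun z => ?_)
  have := mem_mz.1 (h (z - x) [] (by simp))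
  rw [sub_add_cancel] at this
  exact this

variable [Fintype σ] [FiniteDimensional ℂ E]

/-- `X j = {z | JB (j T + 1) (z + x) Ψ}` (directions `W`), `exists_stab`.  Let `I` be generated by
`I₀ = idl univ` and the representatives (`rep`) of the sections
`Br dE l (tr y Ψ) (tr (-y) κ)`, `y = v + x - x₀`, `v ∈ V`, `l` a word in `W` of length `< r T + 1`,
`κ` with the property in `kap D`.  `I₀` is finitely generated, so `I` is generated in degree
`≤ c (2 D + 1) + D₀ ≤ c' D`.  The generators have jets of order `T` at `q H` (`br_jet`, `jb_tr`,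
`jet_chart`; the jets form the ideal `Fl`), and `min_prime` applies by `jet_of_br`.  Then
`exists_adapted`, `exists_conormal`, `core`, `dm_univ`, `tg_le_dm`.  If `tg H = ⊤` then `H = univ`
(`tg_subset`), so `V = univ` and `Ψ = 0`. -/
theorem zero_est (W : Submodule ℂ E) : ∃ C : ℕ, ∀ (D T : ℕ) (Ψ : Ent E) (x : E), 1 ≤ D → 1 ≤ T →
    Ψ ∈ S.T D → Ψ ≠ 0 → JB (Subtype.val : W → E) (finrank ℂ E * T + 1) x Ψ →
    ∃ H, S.Mon H ∧ S.tg H ≠ ⊤ ∧ dm (S.q H) ≤ finrank ℂ (S.tg H) ∧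
      T ^ (finrank ℂ W - finrank ℂ (W ⊓ S.tg H : Submodule ℂ E)) ≤
        C * D ^ (finrank ℂ E - finrank ℂ (S.tg H)) := by
  classical
  have hI₀ : (S.idl Set.univ).IsPrime := S.idl_prime S.pr_univ trivial
  obtain ⟨C₀, hC₀⟩ := core (S.idl Set.univ)
  obtain ⟨G, hG⟩ : (S.idl Set.univ).FG := IsNoetherian.noetherian _
  set c' := 3 * S.c + G.sup totalDegree + 1 with hc'
  refine ⟨C₀ * c' ^ finrank ℂ E, fun D T Ψ x hD hT hΨ hΨ0 hJ => ?_⟩
  obtain ⟨r₀, V, H, hV, hV0, hH, hHV, hmax⟩ := S.exists_stab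
    (fun j => {z | JB (Subtype.val : W → E) (j * T + 1) (z + x) Ψ})
    (fun j => S.cl_jet _ _ ⟨D, hΨ⟩ x)
    (fun j z hz => Jet.mono _ _ _ (by rw [Nat.succ_mul]; omega) hz)
    (by simpa using hJ)
    (fun h => hΨ0 (ze_zero (Subtype.val : W → E) (n := 0 * T) (x := x) fun z =>
      (Set.eq_univ_iff_forall.1 h z :)))
  have hp : (S.q H).IsPrime := S.q_prime hH.pr hH.zero
  let Gs : Set (MvPolynomial σ ℂ) := {f | ∃ v ∈ V, ∃ l : List W, l.length < r₀ * T + 1 ∧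
    ∃ κ : Ent E, f.totalDegree ≤ S.c * (2 * D + 1) ∧ ∀ z ∈ S.O, S.ev z S.Δ *
      (Br (fun k : W => dE (k : E)) l (tr (v + x - S.x₀) Ψ) κ).1 z = S.ϑ.1 z ^ (2 * D) * S.ev z f}
  let I : Ideal (MvPolynomial σ ℂ) := S.idl Set.univ ⊔ Ideal.span Gs
  have hle : S.idl Set.univ ≤ S.q H := S.idl_anti (Set.subset_univ _)
  have hjet : ∀ {ι : Type} (b : ι → E), (∀ i, b i ∈ W) →
      I ≤ Fl (S.q H) (fun i => S.D (b i)) (w := fun _ => 1) (fun _ => le_rfl) T := by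
    intro ι b hb
    refine sup_le (fun f hf l _ => hle (S.ze_ap_mem b l hf)) (Ideal.span_le.2 ?_)
    rintro f ⟨v, hv, l, hl, κ, -, hf⟩
    refine S.jet_chart b hf fun z hz => ?_
    refine jb_span (Subtype.val : W → E) b (fun k => Submodule.subset_span ⟨⟨b k, hb k⟩, rfl⟩) ?_
    refine br_jet _ _ _ _ _ _ ((jb_tr (Subtype.val : W → E) _ z _ Ψ).2 ?_)
    rw [show z + (v + x - S.x₀) = z - S.x₀ + v + x by abel]
    exact Jet.mono _ _ _ (by rw [Nat.succ_mul]; omega) (hV (hHV _ hz v hv))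
  have hIq : I ≤ S.q H := fun f hf =>
    hjet (Subtype.val : W → E) (fun i => i.2) hf [] (by simp only [List.map_nil, List.sum_nil]; omega)
  have hY : S.Cl {h | ∀ v ∈ V, h + v ∈
      {z | JB (Subtype.val : W → E) (r₀ * T + 1) (z + x) Ψ}} := by
    have := S.cl_iInter (ι := V) fun v =>
      S.cl_sh (S.cl_jet (Subtype.val : W → E) (r₀ * T + 1) ⟨D, hΨ⟩ x) v
    convert this using 1
    ext h
    simp [sh]
  have hmin : S.q H ∈ I.minimalPrimes := by
    refine S.min_prime hH.pr hH.zero hY hmax le_sup_left hIq fun z hz hΔ hI v hv => ?_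
    show JB (Subtype.val : W → E) (r₀ * T + 1) (z - S.x₀ + v + x) Ψ
    rw [show z - S.x₀ + v + x = z + (v + x - S.x₀) by abel, ← jb_tr]
    obtain ⟨κ, hκ, hk⟩ := S.kap D (z + -(v + x - S.x₀))
    refine jet_of_br _ _ _ _ (tr (-(v + x - S.x₀)) κ) hκ fun l hl => ?_
    have h1 := hk Ψ hΨ (v + x - S.x₀) (l.map Subtype.val)
    rw [br_map] at h1
    obtain ⟨f, hf1, hf2⟩ := S.rep _ _ h1
    have h2 := hI f (Ideal.mem_sup_right (Ideal.subset_span ⟨v, hv, l, hl, _, hf1, hf2⟩))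
    have h3 := hf2 z hz
    simp only [ev] at h2 hΔ
    rw [h2, mul_zero] at h3
    exact mem_mz.2 ((mul_eq_zero.1 h3).resolve_left hΔ)
  have hdeg : I ≤ Ideal.span {f | f ∈ I ∧ f.totalDegree ≤ c' * D} := by
    refine sup_le ?_ (Ideal.span_mono fun f hf => ⟨Ideal.mem_sup_right (Ideal.subset_span hf), ?_⟩)
    · rw [← hG]
      refine Ideal.span_mono fun f hf => ⟨Ideal.mem_sup_left (hG ▸ Ideal.subset_span hf), ?_⟩
      have h1 : f.totalDegree ≤ G.sup totalDegree := Finset.le_sup (f := totalDegree) hf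
      exact h1.trans (le_trans (by omega) (Nat.le_mul_of_pos_right c' hD))
    · obtain ⟨v, -, l, -, κ, h1, -⟩ := hf
      refine h1.trans (le_trans ?_ (Nat.mul_le_mul_right D (show 3 * S.c ≤ c' by omega)))
      nlinarith
  obtain ⟨ρ, r, e, he1, he2, he3, he4⟩ := exists_adapted (S.tg H) W
  obtain ⟨y, δ, hδ, hy, hyd⟩ := S.exists_conormal hH e he2
  obtain ⟨k1, k2⟩ := hC₀ (S.q H) I (c' * D) T ρ r (fun i => S.D (e i)) y δ
    (Nat.mul_pos (by omega) hD) hT le_sup_left hmin hdeg (fun i f hf => S.D_mem _ hf)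
    (fun f hf => hjet (fun i => e (Sum.inl i)) he1 hf) hδ hy hyd
  have k3 := S.dm_univ
  have k4 := S.tg_le_dm hH
  refine ⟨H, hH, fun htop => hΨ0 (ze_zero (Subtype.val : W → E) (n := (r₀ + 1) * T) (x := x)
    fun z => ?_), by omega, ?_⟩
  · have := hV (hHV z (S.tg_subset hH (htop ▸ Submodule.mem_top)) 0 hV0)
    rwa [add_zero] at this
  · rw [show finrank ℂ W - finrank ℂ (W ⊓ S.tg H : Submodule ℂ E) = ρ by omega,
      show finrank ℂ E - finrank ℂ (S.tg H) = ρ + r by omega]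
    refine (k2 (by omega)).trans ?_
    rw [mul_pow, mul_assoc]
    exact Nat.mul_le_mul_left _ (Nat.mul_le_mul_right _
      (Nat.pow_le_pow_right (by omega) (by omega)))

end Sys

end GPC73

end

section

/-! The projection of an obstructing subgroup is a subtorus. -/

open MvPolynomial Pool.Agent.MP_d171e3_nt GPC96 Module Filter Topology

namespace GPC73

theorem sub2_rank {E F : Type} [AddCommGroup E] [Module ℂ E] [FiniteDimensional ℂ E]
    [AddCommGroup F] [Module ℂ F] [FiniteDimensional ℂ F] (T : Submodule ℂ (E × F)) :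
    finrank ℂ T ≤ finrank ℂ (T.map (LinearMap.fst ℂ E F)) +
      finrank ℂ (T.comap (LinearMap.inr ℂ E F)) := by
  have h1 := LinearMap.finrank_range_add_finrank_ker ((LinearMap.fst ℂ E F).domRestrict T)
  rw [LinearMap.range_domRestrict] at h1
  have h0 : ∀ x : LinearMap.ker ((LinearMap.fst ℂ E F).domRestrict T), x.1.1.1 = 0 := fun x => x.2
  let f : LinearMap.ker ((LinearMap.fst ℂ E F).domRestrict T) →ₗ[ℂ]
      T.comap (LinearMap.inr ℂ E F) :=
    { toFun := fun x => ⟨x.1.1.2, by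
        have h2 := x.1.2
        rw [Submodule.mem_comap, LinearMap.inr_apply, ← h0 x]
        exact h2⟩
      map_add' := fun _ _ => rfl
      map_smul' := fun _ _ => rfl }
  have h2 : Function.Injective f := fun x y h => by
    refine Subtype.ext (Subtype.ext (Prod.ext ((h0 x).trans (h0 y).symm) ?_))
    exact congrArg Subtype.val h
  have h3 := LinearMap.finrank_le_finrank_of_injective h2
  omega

/-- coordinates on a subspace of `ℂ^m` -/
theorem sub2_coord {m : ℕ} (Z : Submodule ℂ (Fin m → ℂ)) :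
    ∃ k : Fin (finrank ℂ Z) → Fin m, ∀ (c : Fin (finrank ℂ Z) → ℂ)
      (Q : MvPolynomial (Fin (finrank ℂ Z)) ℂ),
      (∀ s ∈ Z, eval (fun b => c b + s (k b)) Q = 0) → ∀ β, eval β Q = 0 := by
  obtain ⟨k, hk⟩ := indep_of_imm (fun (i : Fin m) (s : Fin m → ℂ) => s i) 0
    (fun i => (ContinuousLinearMap.proj (R := ℂ) (φ := fun _ : Fin m => ℂ) i).analyticAt 0) Z
    (fun v _ hv => funext fun i => by
      have h1 := hv i
      have h2 : fderiv ℂ (fun s : Fin m → ℂ => s i) 0 =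
          ContinuousLinearMap.proj (R := ℂ) (φ := fun _ : Fin m => ℂ) i :=
        (ContinuousLinearMap.proj (R := ℂ) (φ := fun _ : Fin m => ℂ) i).fderiv
      rw [h2] at h1
      exact h1)
  refine ⟨k, fun c Q hQ β => ?_⟩
  have h1 : ∀ y : Fin (finrank ℂ Z) → ℂ,
      eval y (aeval (fun b => C (c b) + X b) Q) = eval (fun b => c b + y b) Q := by
    intro y
    rw [← coe_aeval_eq_eval, ← coe_aeval_eq_eval]
    change aeval y (aeval _ Q) = aeval _ Q
    rw [← AlgHom.comp_apply, comp_aeval]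
    simp
  have h2 := hk (aeval (fun b => C (c b) + X b) Q) (Eventually.of_forall fun u => by
    rw [h1]
    simpa using hQ u u.2)
  have h3 := h1 fun b => β b - c b
  rw [h2, map_zero] at h3
  simpa using h3.symm

theorem sub2_left {κ ι : Type} (Q : MvPolynomial (κ ⊕ ι) ℂ) (a : κ → ℂ) (β : ι → ℂ) :
    eval β (aeval (Sum.elim (fun i => C (a i)) X) Q) = eval (Sum.elim a β) Q := by
  rw [← coe_aeval_eq_eval, ← coe_aeval_eq_eval]
  change aeval β (aeval _ Q) = aeval _ Q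
  rw [← AlgHom.comp_apply, comp_aeval]
  congr 2
  funext i
  cases i <;> simp

theorem sub2_right {κ ι : Type} (Q : MvPolynomial (κ ⊕ ι) ℂ) (a : κ → ℂ) (β : ι → ℂ) :
    eval a (aeval (Sum.elim X fun i => C (β i)) Q) = eval (Sum.elim a β) Q := by
  rw [← coe_aeval_eq_eval, ← coe_aeval_eq_eval]
  change aeval a (aeval _ Q) = aeval _ Q
  rw [← AlgHom.comp_apply, comp_aeval]
  congr 2
  funext i
  cases i <;> simp

theorem sub2_ren {κ σ : Type} (Q : MvPolynomial κ ℂ) (y : κ → σ) (χ : σ → ℂ) :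
    eval χ (aeval (fun i => (X (y i) : MvPolynomial σ ℂ)) Q) = eval (fun i => χ (y i)) Q := by
  rw [← coe_aeval_eq_eval, ← coe_aeval_eq_eval]
  change aeval χ (aeval _ Q) = aeval _ Q
  rw [← AlgHom.comp_apply, comp_aeval]
  simp

/-- An analytic function that vanishes on `Y` near the origin, where the closure of `Y` contains
`U + ℝ α`, vanishes on `U + ℂ α` near the origin. -/
theorem sub2_ident {E : Type} [NormedAddCommGroup E] [NormedSpace ℂ E] [FiniteDimensional ℂ E]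
    {O Y : Set E} (hO : IsOpen O) (h0 : 0 ∈ O) {G : E → ℂ} (hG : AnalyticOnNhd ℂ G O)
    (hY : ∀ x ∈ Y, x ∈ O → G x = 0) {U : Submodule ℂ E} {α : E} (hα : α ∉ U)
    (h : ∀ u ∈ U, ∀ t : ℝ, u + t • α ∈ closure Y) :
    ∀ᶠ u : (U ⊔ Submodule.span ℂ {α} : Submodule ℂ E) in 𝓝 0, G u = 0 := by
  have h1 : ∀ x ∈ closure Y, x ∈ O → G x = 0 := fun x hx hxO =>
    tendsto_nhds_unique_of_frequently_eq (hG x hxO).continuousAt.tendsto tendsto_const_nhds
      (((mem_closure_iff_frequently.1 hx).and_eventually (hO.mem_nhds hxO)).mono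
        fun y hy => hY y hy.1 hy.2)
  obtain ⟨r, hr, hb⟩ := Metric.isOpen_iff.1 hO 0 h0
  obtain ⟨ℓ, hℓ1, hℓ2⟩ := Submodule.exists_le_ker_of_notMem hα
  have hc : Continuous fun u : (U ⊔ Submodule.span ℂ {α} : Submodule ℂ E) =>
      (u : E) - ((ℓ α)⁻¹ * ℓ u) • α :=
    continuous_subtype_val.sub ((continuous_const.mul
      (ℓ.continuous_of_finiteDimensional.comp continuous_subtype_val)).smul continuous_const)
  have e1 := hc.continuousAt (x := 0) |>.eventually_mem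
    (Metric.isOpen_ball.mem_nhds (show _ ∈ Metric.ball (0 : E) r by simpa using hr))
  have e2 := (continuous_subtype_val.continuousAt
    (x := (0 : (U ⊔ Submodule.span ℂ {α} : Submodule ℂ E)))).eventually_mem
    (Metric.isOpen_ball.mem_nhds (show _ ∈ Metric.ball (0 : E) r by simpa using hr))
  filter_upwards [e1, e2] with u' hu1 hu2
  obtain ⟨u, hu, a, ha, hua⟩ := Submodule.mem_sup.1 u'.2
  obtain ⟨c, rfl⟩ := Submodule.mem_span_singleton.1 ha
  have hl : (ℓ α)⁻¹ * ℓ u' = c := by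
    rw [← hua, map_add, map_smul, show ℓ u = 0 from hℓ2 hu, zero_add, smul_eq_mul]
    field_simp
  rw [hl, ← hua, add_sub_cancel_right] at hu1
  rw [← hua] at hu2 ⊢
  have hL : ∀ t : ℂ, AnalyticAt ℂ (fun t : ℂ => u + t • α) t := fun t =>
    analyticAt_const.add (analyticAt_id.smul analyticAt_const)
  have hD : IsOpen {t : ℂ | u + t • α ∈ Metric.ball (0 : E) r} :=
    Metric.isOpen_ball.preimage (f := fun t : ℂ => u + t • α) (by fun_prop)
  have hcv : Convex ℝ {t : ℂ | u + t • α ∈ Metric.ball (0 : E) r} := by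
    intro x hx y hy a b ha hb hab
    have h2 := convex_ball (0 : E) r hx hy ha hb hab
    have h3 : a • (u + x • α) + b • (u + y • α) = u + (a • x + b • y) • α := by
      rw [smul_add, smul_add, add_add_add_comm, ← add_smul, hab, one_smul, add_smul,
        smul_assoc, smul_assoc]
    rw [h3] at h2
    exact h2
  have han : AnalyticOnNhd ℂ (fun t : ℂ => G (u + t • α))
      {t : ℂ | u + t • α ∈ Metric.ball (0 : E) r} := fun t ht =>
    (hG _ (hb ht)).comp (f := fun t : ℂ => u + t • α) (hL t)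
  have h00 : (0 : ℂ) ∈ {t : ℂ | u + t • α ∈ Metric.ball (0 : E) r} := by simpa using hu1
  have ht : Tendsto (fun t : ℝ => (t : ℂ)) (𝓝[≠] 0) (𝓝[≠] 0) :=
    tendsto_nhdsWithin_iff.2 ⟨(Complex.continuous_ofReal.tendsto' 0 0 rfl).mono_left
      nhdsWithin_le_nhds, eventually_mem_nhdsWithin.mono fun t ht => Complex.ofReal_ne_zero.2 ht⟩
  have hfr : ∃ᶠ t in 𝓝[≠] (0 : ℂ), G (u + t • α) = 0 := by
    refine ht.frequently (Eventually.frequently ?_)
    filter_upwards [ht.eventually (mem_nhdsWithin_of_mem_nhds (hD.mem_nhds h00))] with t h2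
    refine h1 _ ?_ (hb h2)
    rw [Complex.coe_smul]
    exact h u hu t
  exact han.eqOn_zero_of_preconnected_of_frequently_eq_zero hcv.isPreconnected h00 hfr hu2

variable {g N m : ℕ} {A : AbVar g N} {w : Fin (2 * g) → Fin m → ℂ} {τ : Type}
  {S : Sys (LG g m) (τ ⊕ Fin m)} [Fintype τ]

theorem Fib.isSub (F : Fib A w S) {H : Set (LG g m)} (hH : S.Mon H)
    (hd : dm (S.q H) ≤ finrank ℂ (S.tg H)) :
    A.IsSub ((S.tg H).map (LinearMap.fst ℂ _ _)) := by
  classical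
  by_contra hn
  set U := (S.tg H).map (LinearMap.fst ℂ (Fin g → ℂ) (Fin m → ℂ)) with hU
  set Z := (S.tg H).comap (LinearMap.inr ℂ (Fin g → ℂ) (Fin m → ℂ)) with hZ
  obtain ⟨α, hα, hcl⟩ := exists_line A U fun ⟨ε, hε, h⟩ => hn (isSub_of_disc A U hε h)
  have hr : finrank ℂ (S.tg H) ≤ finrank ℂ U + finrank ℂ Z := sub2_rank _
  have hlt : finrank ℂ U < finrank ℂ (U ⊔ Submodule.span ℂ {α} : Submodule ℂ _) :=
    Submodule.finrank_lt_finrank_of_lt (lt_of_le_of_ne le_sup_left fun h => hα (by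
      rw [h]; exact Submodule.mem_sup_right (Submodule.mem_span_singleton_self α)))
  have hx₀ : (S.x₀.1, S.x₀.2) ∈ S.O := S.η_x₀
  have hemb : ∀ z : Fin g → ℂ, HasFDerivAt (fun z : Fin g → ℂ => ((z, S.x₀.2) : LG g m))
      (ContinuousLinearMap.inl ℂ (Fin g → ℂ) (Fin m → ℂ)) z := fun z => hasFDerivAt_prodMk_left z _
  have hana : ∀ z : Fin g → ℂ, AnalyticAt ℂ (fun z : Fin g → ℂ => ((z, S.x₀.2) : LG g m)) z :=
    fun z => analyticAt_id.prod analyticAt_const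
  have hξ : ∀ i z, (z, S.x₀.2) ∈ S.O →
      AnalyticAt ℂ (fun z : Fin g → ℂ => S.ξ (Sum.inl i) (z, S.x₀.2)) z := fun i z hz =>
    (S.an (Sum.inl i) _ hz).comp (f := fun z : Fin g → ℂ => ((z, S.x₀.2) : LG g m)) (hana z)
  obtain ⟨y, hy⟩ := indep_of_imm (fun (i : τ) (z : Fin g → ℂ) => S.ξ (Sum.inl i) (z, S.x₀.2))
    S.x₀.1 (fun i => hξ i _ hx₀) (U ⊔ Submodule.span ℂ {α}) fun v _ hv =>
      F.etl _ hx₀ v fun i => by
        have h1 := ((S.an (Sum.inl i) _ hx₀).differentiableAt.hasFDerivAt.comp S.x₀.1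
          (hemb S.x₀.1)).fderiv
        have h2 := hv i
        rw [show (fun z : Fin g → ℂ => S.ξ (Sum.inl i) (z, S.x₀.2)) =
          S.ξ (Sum.inl i) ∘ fun z : Fin g → ℂ => ((z, S.x₀.2) : LG g m) from rfl, h1] at h2
        exact h2
  obtain ⟨k, hk⟩ := sub2_coord Z
  have := S.q_prime hH.pr hH.zero
  have hle := le_dm (S.q H) (fun i => X (Sum.map y k i)) fun Q hQ => ?_
  · rw [Fintype.card_sum, Fintype.card_fin, Fintype.card_fin] at hle
    omega
  have hA : ∀ x ∈ {x | ∃ n, ∃ u ∈ U, x = A.per n + u}, (S.x₀.1 + x, S.x₀.2) ∈ S.O → ∀ β,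
      eval (Sum.elim (fun a => S.ξ (Sum.inl (y a)) (S.x₀.1 + x, S.x₀.2)) β) Q = 0 := by
    rintro _ ⟨n, _, ⟨p, hp, rfl⟩, rfl⟩ hO β
    rw [← sub2_left]
    refine hk (fun b => S.ξ (Sum.inr (k b))
      (S.x₀.1 + (A.per n + p.1), S.x₀.2 + (-∑ j, n j • w j + p.2))) _ (fun s hs => ?_) β
    rw [sub2_left]
    have h1 := hH.add _ (hH.add _ (F.per_mem hH n) _ (S.tg_subset hH hp)) _ (S.tg_subset hH hs)
    have h2 := hQ (S.x₀.1 + (A.per n + p.1), S.x₀.2 + (-∑ j, n j • w j + p.2) + s)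
      (by
        change _ ∈ H
        convert h1 using 1
        ext <;> simp <;> ring) (F.eta _ _ _ hO)
    rw [Sys.ev, sub2_ren] at h2
    rw [← h2]
    congr 2
    funext i
    rcases i with a | b
    · exact F.xl _ _ _ _
    · exact (F.xr _ _ _ _).symm
  refine MvPolynomial.funext fun χ => ?_
  have hO : IsOpen {x : Fin g → ℂ | (S.x₀.1 + x, S.x₀.2) ∈ S.O} :=
    S.isOpen_O.preimage (f := fun x : Fin g → ℂ => ((S.x₀.1 + x, S.x₀.2) : LG g m)) (by fun_prop)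
  have h3 := hy (aeval (Sum.elim X fun b => C (χ (Sum.inr b))) Q)
    (sub2_ident hO (by simpa using hx₀)
      (an_eval (fun a x => S.ξ (Sum.inl (y a)) (S.x₀.1 + x, S.x₀.2))
        (fun a x hx => (hξ (y a) _ hx).comp (f := fun x : Fin g → ℂ => S.x₀.1 + x)
          (analyticAt_const.add analyticAt_id)) _)
      (fun x hx hxO => by rw [sub2_right]; exact hA x hx hxO _) hα hcl)
  have h4 := sub2_right Q (fun a => χ (Sum.inl a)) fun b => χ (Sum.inr b)
  rw [h3, map_zero] at h4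
  rw [map_zero, h4]
  congr 2
  funext i
  cases i <;> rfl

end GPC73

end

section

/-! The zero estimate on a vector extension of an abelian variety. -/

open MvPolynomial Pool.Agent.MP_d171e3_nt GPC96 Module Filter Topology

namespace GPC73

variable {g N m : ℕ} {A : AbVar g N} {w : Fin (2 * g) → Fin m → ℂ} {τ : Type}
  {S : Sys (LG g m) (τ ⊕ Fin m)} [Fintype τ]

theorem sub_rank {E E' : Type} [AddCommGroup E] [Module ℂ E] [FiniteDimensional ℂ E]
    [AddCommGroup E'] [Module ℂ E'] (f : E →ₗ[ℂ] E') (p : Submodule ℂ E) :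
    finrank ℂ (p.map f) + finrank ℂ (LinearMap.ker f ⊓ p : Submodule ℂ E) = finrank ℂ p := by
  have h := LinearMap.finrank_range_add_finrank_ker (f ∘ₗ p.subtype)
  rw [LinearMap.range_comp, Submodule.range_subtype, LinearMap.ker_comp,
    ← Submodule.finrank_map_subtype_eq p ((LinearMap.ker f).comap p.subtype),
    Submodule.map_comap_subtype, inf_comm] at h
  exact h

theorem sub_pow {T C D ρ c g : ℕ} (hD : 1 ≤ D) (hρ : ρ ≤ g) (hc : c < 2 * ρ)
    (h : T ^ ρ ≤ C * D ^ c) : T ^ g ≤ (C + 1) ^ g * D ^ (2 * g - 1) := by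
  have hρ0 : ρ ≠ 0 := by omega
  have h1 : T ^ ρ ≤ (C + 1) * D ^ (2 * ρ - 1) :=
    h.trans (Nat.mul_le_mul (Nat.le_succ C) (Nat.pow_le_pow_right hD (by omega)))
  have h2 : (2 * ρ - 1) * g ≤ (2 * g - 1) * ρ := by
    rw [Nat.sub_mul, Nat.sub_mul, one_mul, one_mul, show 2 * g * ρ = 2 * ρ * g by ring]
    exact Nat.sub_le_sub_left hρ _
  have h3 : g ≤ g * ρ := Nat.le_mul_of_pos_right g (by omega)
  refine (Nat.pow_le_pow_iff_left hρ0).1 ?_
  calc (T ^ g) ^ ρ = (T ^ ρ) ^ g := by rw [← pow_mul, ← pow_mul, mul_comm]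
    _ ≤ ((C + 1) * D ^ (2 * ρ - 1)) ^ g := Nat.pow_le_pow_left h1 g
    _ = (C + 1) ^ g * D ^ ((2 * ρ - 1) * g) := by rw [mul_pow, ← pow_mul]
    _ ≤ (C + 1) ^ (g * ρ) * D ^ ((2 * g - 1) * ρ) :=
      Nat.mul_le_mul (Nat.pow_le_pow_right (Nat.succ_pos C) h3) (Nat.pow_le_pow_right hD h2)
    _ = ((C + 1) ^ g * D ^ (2 * g - 1)) ^ ρ := by rw [mul_pow, ← pow_mul, ← pow_mul]

/-- Put `𝔥 = tg H`, `U = map fst 𝔥`, `Z = map snd 𝔥`, `U₀ = comap inl 𝔥 ≤ U`.  For a period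
`per n ∈ U`, `(per n, s) ∈ 𝔥`, one has `(0, -w n - s) ∈ H`, so `w n ∈ Z` (`per_mem`, `tg_subset`,
`vert_mem`).  `finrank 𝔥 = finrank Z + finrank U₀`, `ρ = g - finrank U₀`,
`c - ρ = m - finrank Z`.  If `U ≠ ⊤` use `sub`; if `U = ⊤` then `Z = ⊤` by `top`. -/
theorem Fib.lt_two_mul (F : Fib A w S) (hw : Wd A w) {H : Set (LG g m)} (hH : S.Mon H)
    (hd : dm (S.q H) ≤ finrank ℂ (S.tg H)) (ht : S.tg H ≠ ⊤) :
    g + m - finrank ℂ (S.tg H) < 2 * (g - finrank ℂ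
      (LinearMap.range (LinearMap.inl ℂ (Fin g → ℂ) (Fin m → ℂ)) ⊓ S.tg H : Submodule ℂ _)) := by
  have hU := F.isSub hH hd
  set h := S.tg H with hh
  set U := h.map (LinearMap.fst ℂ (Fin g → ℂ) (Fin m → ℂ)) with hUd
  set Z := h.map (LinearMap.snd ℂ (Fin g → ℂ) (Fin m → ℂ)) with hZd
  set K : Submodule ℂ (LG g m) :=
    LinearMap.range (LinearMap.inl ℂ (Fin g → ℂ) (Fin m → ℂ)) ⊓ h with hK
  have hw1 : ∀ n, A.per n ∈ U → ∑ j, n j • w j ∈ Z := by
    intro n hn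
    obtain ⟨p, hp, hpn⟩ := Submodule.mem_map.1 hn
    have h1 : -p ∈ H := S.tg_subset hH (h.neg_mem hp)
    have h2 := hH.add _ (F.per_mem hH n) _ h1
    have h3 : ((A.per n, -∑ j, n j • w j) : LG g m) + -p = (0, -∑ j, n j • w j - p.2) := by
      refine Prod.ext ?_ ?_
      · show A.per n + -p.1 = 0
        rw [← hpn]
        exact add_neg_cancel _
      · show -∑ j, n j • w j + -p.2 = -∑ j, n j • w j - p.2
        rw [sub_eq_add_neg]
    rw [h3] at h2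
    have h4 : -∑ j, n j • w j - p.2 ∈ Z := Submodule.mem_map.2 ⟨_, F.vert_mem hH h2, rfl⟩
    have h5 : p.2 ∈ Z := Submodule.mem_map.2 ⟨p, hp, rfl⟩
    have h6 := Z.neg_mem (Z.add_mem h4 h5)
    rwa [sub_add_cancel, neg_neg] at h6
  have e1 : finrank ℂ Z + finrank ℂ K = finrank ℂ h := by
    rw [hK, LinearMap.range_inl]
    exact sub_rank _ h
  have e2 : finrank ℂ K ≤ finrank ℂ U := by
    have h1 := sub_rank (LinearMap.fst ℂ (Fin g → ℂ) (Fin m → ℂ)) K
    have h2 : LinearMap.ker (LinearMap.fst ℂ (Fin g → ℂ) (Fin m → ℂ)) ⊓ K = ⊥ := by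
      rw [eq_bot_iff]
      rintro p ⟨hp1, ⟨u, hu⟩, -⟩
      have hp1' : p.1 = 0 := hp1
      rw [← hu] at hp1'
      have hu0 : u = 0 := hp1'
      rw [← hu, hu0, map_zero]
      exact Submodule.zero_mem _
    rw [h2, finrank_bot, add_zero] at h1
    rw [← h1]
    exact Submodule.finrank_mono (Submodule.map_mono inf_le_right)
  have e3 : finrank ℂ U ≤ g := (Submodule.finrank_le U).trans (by simp)
  have e4 : finrank ℂ Z ≤ m := (Submodule.finrank_le Z).trans (by simp)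
  have e5 : finrank ℂ h < g + m := (Submodule.finrank_lt ht).trans_le (by simp)
  suffices e6 : m + finrank ℂ K < g + finrank ℂ Z by
    have e7 : g + m - finrank ℂ h < 2 * (g - finrank ℂ K) := by omega
    exact e7
  by_cases hT : U = ⊤
  · have h1 : Z = ⊤ := by
      rw [eq_top_iff, ← hw.top, Submodule.span_le]
      rintro _ ⟨j, rfl⟩
      have h2 := hw1 (Pi.single j 1) (hT ▸ Submodule.mem_top)
      rwa [Finset.sum_eq_single j (fun i _ hi => by rw [Pi.single_eq_of_ne hi, zero_smul])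
        (fun hj => absurd (Finset.mem_univ j) hj), Pi.single_eq_same, one_smul] at h2
    have h2 : finrank ℂ Z = m := by rw [h1, finrank_top]; simp
    omega
  · have h1 := hw.sub U hT hU
    have h2 : finrank ℂ (Submodule.span ℂ
        {s : Fin m → ℂ | ∃ n, A.per n ∈ U ∧ s = ∑ j, n j • w j}) ≤ finrank ℂ Z := by
      refine Submodule.finrank_mono (Submodule.span_le.2 ?_)
      rintro _ ⟨n, hn, rfl⟩
      exact hw1 n hn
    omega

/-- The zero estimate.  Put `n = g + m`, `T = (t - 1) / n`; if `T ≥ 1` apply `jb_span`, `zero_est`,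
`lt_two_mul`: `T ^ ρ ≤ C D ^ (2 ρ - 1)` with `1 ≤ ρ ≤ g` gives `T ^ g ≤ C ^ g D ^ (2 g - 1)` (compare
the `ρ`-th powers), and `t ≤ n (T + 1)`.  Note `g ≥ 1` because of `top`, `pos`. -/
theorem Fib.zero_est (F : Fib A w S) (hw : Wd A w) : ∃ C : ℕ, ∀ (D t : ℕ) (Ψ : Ent (LG g m))
    (x : LG g m), 1 ≤ D → Ψ ∈ S.T D → Ψ ≠ 0 →
    JB (fun j : Fin g => ((Pi.single j 1, 0) : LG g m)) t x Ψ → t ^ g ≤ C * D ^ (2 * g - 1) := by
  obtain ⟨C, hC⟩ := S.zero_est (LinearMap.range (LinearMap.inl ℂ (Fin g → ℂ) (Fin m → ℂ)))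
  have eE : finrank ℂ (LG g m) = g + m := by simp
  have eW : finrank ℂ (LinearMap.range (LinearMap.inl ℂ (Fin g → ℂ) (Fin m → ℂ))) = g := by
    rw [LinearMap.finrank_range_of_inj LinearMap.inl_injective]; simp
  rw [eE, eW] at hC
  refine ⟨(2 * (g + m)) ^ g * (C + 1) ^ g, fun D t Ψ x hD hΨ h0 hJ => ?_⟩
  have hn : 0 < g + m := by have := hw.pos; omega
  have h1 : (g + m) * ((t - 1) / (g + m)) + (t - 1) % (g + m) = t - 1 := Nat.div_add_mod _ _
  have h2 : (t - 1) % (g + m) < g + m := Nat.mod_lt _ hn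
  generalize (t - 1) / (g + m) = T at h1
  rcases Nat.eq_zero_or_pos T with hT | hT
  · have h3 : t ≤ 2 * (g + m) := by
      rw [hT, mul_zero] at h1
      omega
    calc t ^ g ≤ (2 * (g + m)) ^ g := Nat.pow_le_pow_left h3 g
      _ ≤ (2 * (g + m)) ^ g * ((C + 1) ^ g * D ^ (2 * g - 1)) :=
        Nat.le_mul_of_pos_right _ (by positivity)
      _ = _ := (mul_assoc _ _ _).symm
  · have h3 : g + m ≤ (g + m) * T := Nat.le_mul_of_pos_right _ hT
    have h4 : (g + m) * T + 1 ≤ t := by omega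
    have h5 : t ≤ 2 * (g + m) * T := by rw [mul_assoc]; omega
    have h6 : JB (Subtype.val : LinearMap.range (LinearMap.inl ℂ (Fin g → ℂ) (Fin m → ℂ)) →
        LG g m) ((g + m) * T + 1) x Ψ := by
      refine jb_span _ _ (fun k => ?_) (Jet.mono _ _ _ h4 hJ)
      obtain ⟨_, u, rfl⟩ := k
      have h7 : LinearMap.inl ℂ (Fin g → ℂ) (Fin m → ℂ) u =
          ∑ j, u j • ((Pi.single j 1, 0) : LG g m) := by
        conv_lhs => rw [pi_eq_sum_univ' u]
        rw [map_sum]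
        exact Finset.sum_congr rfl fun j _ => by rw [map_smul]; rfl
      show LinearMap.inl ℂ (Fin g → ℂ) (Fin m → ℂ) u ∈ _
      rw [h7]
      exact Submodule.sum_mem _ fun j _ =>
        Submodule.smul_mem _ _ (Submodule.subset_span ⟨j, rfl⟩)
    obtain ⟨H, hH, ht, hd, hle⟩ := hC D T Ψ x hD hT hΨ h0 h6
    have h7 := sub_pow hD (Nat.sub_le _ _) (F.lt_two_mul hw hH hd ht) hle
    calc t ^ g ≤ (2 * (g + m) * T) ^ g := Nat.pow_le_pow_left h5 g
      _ = (2 * (g + m)) ^ g * T ^ g := mul_pow _ _ _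
      _ ≤ (2 * (g + m)) ^ g * ((C + 1) ^ g * D ^ (2 * g - 1)) := Nat.mul_le_mul_left _ h7
      _ = _ := (mul_assoc _ _ _).symm

end GPC73

end

end

-- part MP_57341d_ag.H73.MkSys
section

section

/-! The extension as an abstract system. -/

open MvPolynomial GPC96

namespace GPC73

theorem mksys_line {E : Type} [NormedAddCommGroup E] [NormedSpace ℂ E] {F : E → ℂ} {p v : E}
    {c : ℂ} (hF : DifferentiableAt ℂ F p) (h : ∀ t : ℂ, F (p + t • v) = F p + t * c) :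
    fderiv ℂ F p v = c := by
  have h1 : HasDerivAt (fun t : ℂ => p + t • v) v 0 := by
    simpa using ((hasDerivAt_id (0 : ℂ)).smul_const v).const_add p
  have h2 : HasDerivAt (fun t : ℂ => F (p + t • v)) (fderiv ℂ F p v) 0 := by
    have h3 : HasFDerivAt F (fderiv ℂ F p) (p + (0 : ℂ) • v) := by simpa using hF.hasFDerivAt
    exact h3.comp_hasDerivAt (0 : ℂ) h1
  have h4 : HasDerivAt (fun t : ℂ => F (p + t • v)) c 0 := by
    simp only [h]
    simpa using ((hasDerivAt_id (0 : ℂ)).mul_const c).const_add (F p)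
  exact h2.unique h4

namespace Gx

variable {g N m : ℕ} {A : AbVar g N} (G : Gx A m)

theorem mksys_eta {p : LG g m} : G.η.1 p ≠ 0 ↔ A.θ G.k p.1 ≠ 0 ∧ G.B p.1 ≠ 0 :=
  mul_ne_zero_iff

theorem mksys_open : IsOpen {p | G.η.1 p ≠ 0} :=
  isOpen_ne_fun (Ent.diff G.η).continuous continuous_const

theorem mksys_pow (i : Fin (N + 1)) (n : ℕ) : G.th i ^ n ∈ G.T n := by
  induction n with
  | zero => simpa using G.one_mem
  | succ n ih => rw [pow_succ]; exact G.mul_mem ih (G.th_mem i)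

theorem mksys_num (i : Vr N m) : ∃ D, ∃ Ψ ∈ G.T D, ∃ Φ ∈ G.T D, ∀ z, G.η.1 z ≠ 0 →
    Φ.1 z ≠ 0 ∧ Ψ.1 z = Φ.1 z * G.ξ i z := by
  rcases i with (_ | i) | l
  · refine ⟨G.e, _, G.mksys_pow G.k G.e, _, G.bb_mem, fun z hz => ?_⟩
    have h := (G.mksys_eta.1 hz).2
    refine ⟨h, ?_⟩
    show A.θ G.k z.1 ^ G.e = G.B z.1 * (A.θ G.k z.1 ^ G.e / G.B z.1)
    field_simp
  · refine ⟨1, _, G.th_mem i, _, G.th_mem G.k, fun z hz => ?_⟩
    have h := (G.mksys_eta.1 hz).1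
    refine ⟨h, ?_⟩
    show A.θ i z.1 = A.θ G.k z.1 * (A.θ i z.1 / A.θ G.k z.1)
    field_simp
  · refine ⟨G.e, _, G.yy_mem l, _, G.bb_mem, fun z hz => ?_⟩
    have h := (G.mksys_eta.1 hz).2
    refine ⟨h, ?_⟩
    show G.H l z.1 + z.2 l * G.B z.1 = G.B z.1 * (G.H l z.1 / G.B z.1 + z.2 l)
    field_simp

theorem mksys_poly (f : MvPolynomial (Vr N m) ℂ) : ∃ Ψ Φ : Ent (LG g m), ∀ z, G.η.1 z ≠ 0 →
    Φ.1 z ≠ 0 ∧ Ψ.1 z = Φ.1 z * eval (fun i => G.ξ i z) f := by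
  induction f using MvPolynomial.induction_on with
  | C c => exact ⟨algebraMap ℂ _ c, 1, fun z _ => ⟨one_ne_zero, by simp⟩⟩
  | add f h hf hh =>
    obtain ⟨Ψ, Φ, hf⟩ := hf
    obtain ⟨Ψ', Φ', hh⟩ := hh
    refine ⟨Ψ * Φ' + Φ * Ψ', Φ * Φ', fun z hz => ⟨mul_ne_zero (hf z hz).1 (hh z hz).1, ?_⟩⟩
    show Ψ.1 z * Φ'.1 z + Φ.1 z * Ψ'.1 z = Φ.1 z * Φ'.1 z * _
    rw [(hf z hz).2, (hh z hz).2, map_add]
    ring
  | mul_X f i hf =>
    obtain ⟨Ψ, Φ, hf⟩ := hf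
    obtain ⟨-, Ψ', -, Φ', -, hh⟩ := G.mksys_num i
    refine ⟨Ψ * Ψ', Φ * Φ', fun z hz => ⟨mul_ne_zero (hf z hz).1 (hh z hz).1, ?_⟩⟩
    show Ψ.1 z * Ψ'.1 z = Φ.1 z * Φ'.1 z * _
    rw [(hf z hz).2, (hh z hz).2, map_mul, eval_X]
    ring

/-- The polynomials that vanish on the chart. -/
def mksysI : Ideal (MvPolynomial (Vr N m) ℂ) where
  carrier := {f | ∀ z, G.η.1 z ≠ 0 → eval (fun i => G.ξ i z) f = 0}
  add_mem' := fun hf hg z hz => by rw [map_add, hf z hz, hg z hz, add_zero]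
  zero_mem' := fun _ _ => map_zero _
  smul_mem' := fun c f hf z hz => by rw [smul_eq_mul, map_mul, hf z hz, mul_zero]

theorem mksys_mem {f : MvPolynomial (Vr N m) ℂ} :
    f ∈ G.mksysI ↔ ∀ z, G.η.1 z ≠ 0 → eval (fun i => G.ξ i z) f = 0 := Iff.rfl

theorem mksys_prime : G.mksysI.IsPrime := by
  refine ⟨fun h => ?_, fun {f h} hfh => ?_⟩
  · obtain ⟨z, hz⟩ := G.ne
    have h1 : (1 : MvPolynomial (Vr N m) ℂ) ∈ G.mksysI := h ▸ Submodule.mem_top
    have := h1 (z, 0) (G.mksys_eta.2 hz)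
    simp at this
  · by_contra hc
    simp only [mksys_mem, not_or, not_forall] at hc
    obtain ⟨⟨z, hz, hfz⟩, z', hz', hhz⟩ := hc
    obtain ⟨Ψ, Φ, hf⟩ := G.mksys_poly f
    obtain ⟨Ψ', Φ', hh⟩ := G.mksys_poly h
    have key : ∀ {F : Ent (LG g m)} {z : LG g m}, F.1 z ≠ 0 → F ≠ 0 := fun hF h0 =>
      hF (by rw [h0]; rfl)
    have a1 : Ψ ≠ 0 := key (z := z) (by rw [(hf z hz).2]; exact mul_ne_zero (hf z hz).1 hfz)
    have a2 : Ψ' ≠ 0 := key (z := z') (by rw [(hh z' hz').2]; exact mul_ne_zero (hh z' hz').1 hhz)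
    obtain ⟨y, hy⟩ := ent_mul_ne a1 a2
    have a3 : Ψ * Ψ' ≠ 0 := key (z := y) (mul_ne_zero hy.1 hy.2)
    obtain ⟨x, hx, hx'⟩ := ent_mul_ne a3 (key hz)
    have a4 := hfh x hx'
    rw [map_mul] at a4
    apply hx
    show Ψ.1 x * Ψ'.1 x = 0
    rw [(hf x hx').2, (hh x hx').2, mul_mul_mul_comm, a4, mul_zero]

/-- The derivative of a chart function in a vertical direction. -/
def mksysV (s : Fin m → ℂ) : Vr N m → ℂ
  | Sum.inl _ => 0
  | Sum.inr l => s l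

theorem mksys_der (v : LG g m) (i : Vr N m) (z : LG g m) (hz : G.η.1 z ≠ 0) :
    fderiv ℂ (G.ξ i) z v =
      eval (fun i => G.ξ i z) (∑ j, C (v.1 j) * G.dP j i + C (mksysV v.2 i)) := by
  have hv : v = ∑ j, v.1 j • ((Pi.single j 1, 0) : LG g m) + (0, v.2) := by
    refine Prod.ext ?_ ?_
    · simp only [Prod.fst_add, Prod.fst_sum, Prod.smul_fst, add_zero]
      exact pi_eq_sum_univ' v.1
    · simp [Prod.snd_sum]
  have h2 : fderiv ℂ (G.ξ i) z (0, v.2) = mksysV v.2 i := by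
    refine mksys_line (G.an_ξ i z hz).differentiableAt fun t => ?_
    rcases i with (_ | i) | l
    · simp [ξ, mksysV]
    · simp [ξ, mksysV]
    · simp [ξ, mksysV, add_assoc]
  conv_lhs => rw [hv]
  simp only [map_add, map_sum, map_smul, map_mul, eval_C, h2, G.der_ξ _ i z hz, smul_eq_mul]

theorem mksys_rep : ∃ (Δ : MvPolynomial (Vr N m) ℂ) (c : ℕ), Δ ∉ G.mksysI ∧ ∀ D, ∀ Ψ ∈ G.T D,
    ∃ f : MvPolynomial (Vr N m) ℂ, f.totalDegree ≤ c * (D + 1) ∧ ∀ z, G.η.1 z ≠ 0 →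
      eval (fun i => G.ξ i z) Δ * Ψ.1 z = (G.th G.k).1 z ^ D * eval (fun i => G.ξ i z) f := by
  have := G.mksys_prime
  obtain ⟨Δ, c, hΔ, h⟩ := alg_of_growth G.mksys_open G.ξ G.an_ξ G.mksysI (fun f hf => hf)
    (fun χ hχ => G.ns χ hχ) G.et
  refine ⟨Δ, c * (G.e + 2), hΔ, fun D Ψ hΨ => ?_⟩
  obtain ⟨f, hf, hf'⟩ := h ((G.e + 2) * D) (fun p => Ψ.1 p / A.θ G.k p.1 ^ D)
    (fun p hp => ((Ent.an Ψ p).fun_div ((Ent.an (G.th G.k) p).fun_pow D)
      (pow_ne_zero _ (G.mksys_eta.1 hp).1)).differentiableAt.differentiableWithinAt)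
    (fun z hz w hw hzw => by
      obtain ⟨n, rfl⟩ := G.ξ_inj hz hw hzw
      rw [div_eq_div_iff (pow_ne_zero _ (G.mksys_eta.1 hz).1) (pow_ne_zero _ (G.mksys_eta.1 hw).1)]
      exact (G.aut_per hΨ.1 n z G.k).symm)
    (G.growth hΨ)
  refine ⟨f, hf.trans ?_, fun z hz => ?_⟩
  · rw [mul_assoc]
    refine Nat.mul_le_mul_left _ ?_
    rw [mul_add_one]
    omega
  · rw [← hf' z hz]
    have := (G.mksys_eta.1 hz).1
    show _ = A.θ G.k z.1 ^ D * _
    field_simp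

theorem mksys_vert {D : ℕ} {Ψ : Ent (LG g m)} (h : Ψ ∈ G.T D) (s : Fin m → ℂ)
    (h0 : ∀ k : ℕ, Ψ.1 (0, (k : ℂ) • s) = 0) (t : ℂ) : Ψ.1 (0, t • s) = 0 := by
  obtain ⟨C, hC⟩ := h.2 0
  refine zero_of_nat (f := fun t : ℂ => Ψ.1 (0, t • s))
    ((Ent.diff Ψ).comp ((differentiable_const _).prodMk (differentiable_id.smul_const s)))
    (|C| * (1 + ‖s‖) ^ D) D (fun t => (hC 0 _ (by simp)).trans ?_) h0 t
  rw [mul_assoc, ← mul_pow]
  refine mul_le_mul (le_abs_self C) (pow_le_pow_left₀ (by positivity) ?_ D) (by positivity)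
    (abs_nonneg C)
  rw [norm_smul]
  nlinarith [norm_nonneg t, norm_nonneg s]

/-- The system attached to the extension. -/
theorem exists_sys : ∃ S : Sys (LG g m) (Vr N m), S.T = G.T ∧ Fib A G.w S := by
  obtain ⟨Δ, c, hΔ, hrep⟩ := G.mksys_rep
  simp only [mksys_mem, not_forall] at hΔ
  obtain ⟨x₀, hx₀, hΔ⟩ := hΔ
  refine ⟨{ T := G.T
            one := G.one_mem
            mul := G.mul_mem
            kap := G.kap
            η := G.η
            η_mem := ⟨_, G.mul_mem (G.th_mem G.k) G.bb_mem⟩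
            ϑ := G.th G.k
            ϑ_ne := fun _ hz => (G.mksys_eta.1 hz).1
            ξ := G.ξ
            an := G.an_ξ
            num := G.mksys_num
            ns := G.ns
            et := G.et
            d := fun v i => ∑ j, C (v.1 j) * G.dP j i + C (mksysV v.2 i)
            der := G.mksys_der
            Δ := Δ
            x₀ := x₀
            η_x₀ := hx₀
            Δ_x₀ := hΔ
            c := c
            rep := hrep }, rfl, ?_, ?_, fun _ _ _ h => h, ?_, ?_, ?_⟩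
  · rintro Ψ ⟨D, hD⟩ j p
    rw [hD.1 j p, mul_eq_zero, or_iff_right (Complex.exp_ne_zero _)]
  · rintro Ψ ⟨D, hD⟩ s h0 t
    exact G.mksys_vert hD s h0 t
  · rintro (_ | i) z s s' <;> rfl
  · exact fun k z s s' => (add_assoc _ _ _).symm
  · exact fun p hp v h => G.etl p hp v fun i => h (some i)

end Gx

end GPC73

end

section

/-! The auxiliary function: analytic half. -/

open MvPolynomial GPC96

namespace GPC73

namespace Gx

variable {g N m : ℕ} {A : AbVar g N} (G : Gx A m)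

theorem auxan_g_pos {w : Fin (2 * g) → Fin m → ℂ} (hw : Wd A w) : 1 ≤ g := by
  rcases Nat.eq_zero_or_pos g with h0 | h0
  · subst h0
    have h1 := hw.top
    have h2 : Set.range w = ∅ := Set.range_eq_empty_iff.2 ⟨fun j => absurd j.2 (by omega)⟩
    rw [h2, Submodule.span_empty] at h1
    have h3 : (fun _ => 1 : Fin m → ℂ) ∈ (⊥ : Submodule ℂ (Fin m → ℂ)) := h1 ▸ Submodule.mem_top
    have h4 := congrFun ((Submodule.mem_bot ℂ).1 h3) ⟨0, hw.pos⟩
    simp at h4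
  · exact h0

theorem auxan_sum (y : Fin g → Fin (N + 1)) (τ : ℂ) {L : ℕ} (p : Ix g m L → ℤ) (q : LG g m) :
    (∑ i, (p i : ℂ) • G.sec y τ i).1 q = ∑ i, (p i : ℂ) * (G.sec y τ i).1 q := by
  rw [AddSubmonoidClass.coe_finsetSum, Finset.sum_apply]
  rfl

theorem auxan_mul {O : Set (LG g m)} (f h : An O) (z : O) : (f * h).1 z = f.1 z * h.1 z := rfl

theorem auxan_sub {O : Set (LG g m)} (f h : An O) (z : O) : (f - h).1 z = f.1 z - h.1 z := rfl

theorem auxan_abs {R S T ι : Type} [CommRing R] [Algebra ℂ R] [CommRing S] [Algebra ℂ S]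
    [CommRing T] [Algebra ℂ T] (φ : R →ₐ[ℂ] T) (ψ : S →ₐ[ℂ] T) (D : ι → Derivation ℂ R R)
    (D' : ι → Derivation ℂ S S) (D'' : ι → Derivation ℂ T T)
    (hφ : ∀ i f, φ (D i f) = D'' i (φ f)) (hψ : ∀ i f, ψ (D' i f) = D'' i (ψ f)) (q : Ideal T)
    [q.IsPrime] (Ψ u : R) (F : S) (e : φ Ψ = φ u * ψ F) (hu : φ u ∉ q) (l : List ι)
    (h : Jet q D'' (fun _ => 1) l.length (φ Ψ)) :
    φ (ap D l Ψ) - φ u * ψ (ap D' l F) ∈ q := by
  rw [ap_hom φ D D'' hφ, ap_hom ψ D' D'' hψ, e]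
  rw [e] at h
  exact ap_mul_sub q D'' l _ _ (Fl_sat q D'' (fun _ => le_rfl) hu h)

/-- The first derivative that does not vanish can be read in the chart. -/
theorem auxan_val (y : Fin g → Fin (N + 1)) (τ : ℂ) (x : Fin g → ℂ) (hx : G.η.1 (x, 0) ≠ 0)
    {L : ℕ} (p : Ix g m L → ℤ) (l : List (Fin g))
    (h : JB (fun j : Fin g => ((Pi.single j 1, 0) : LG g m)) l.length (x, 0)
      (∑ i, (p i : ℂ) • G.sec y τ i)) :
    (ap (fun j : Fin g => dE ((Pi.single j 1, 0) : LG g m)) l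
      (∑ i, (p i : ℂ) • G.sec y τ i)).1 (x, 0) =
      (A.θ G.k x ^ g * G.B x ^ m) ^ L * G.dval y τ x p l := by
  have hO : IsOpen {q : LG g m | G.η.1 q ≠ 0} :=
    isOpen_ne_fun (Ent.diff G.η).continuous continuous_const
  have hx' := mul_ne_zero_iff.1 (show A.θ G.k x * G.B x ≠ 0 from hx)
  have hs := G.auxan_sum y τ p
  generalize ∑ i, (p i : ℂ) • G.sec y τ i = Ψ at h hs ⊢
  obtain ⟨u, hu⟩ : ∃ u : Ent (LG g m), ∀ q, u.1 q = (A.θ G.k q.1 ^ g * G.B q.1 ^ m) ^ L :=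
    ⟨(G.th G.k ^ g * G.bb ^ m) ^ L, fun _ => rfl⟩
  have e1 : res {q : LG g m | G.η.1 q ≠ 0} Ψ =
      res _ u * evP G.ξ G.an_ξ (∑ i, C (p i : ℂ) * mon y τ i) := by
    apply Subtype.ext
    funext z
    rw [auxan_mul, res_apply, res_apply, evP_apply, hu, hs, map_sum, Finset.mul_sum]
    refine Finset.sum_congr rfl fun i _ => ?_
    rw [G.sec_eq y τ i z z.2, map_mul, eval_C]
    ring
  have h1 := (jb_res (fun j : Fin g => ((Pi.single j 1, 0) : LG g m)) hO l.length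
    (⟨(x, 0), hx⟩ : {q : LG g m | G.η.1 q ≠ 0}) Ψ).1 h
  have hu' : res {q : LG g m | G.η.1 q ≠ 0} u ∉
      ma (⟨(x, 0), hx⟩ : {q : LG g m | G.η.1 q ≠ 0}) := by
    rw [mem_ma, res_apply, hu]
    exact pow_ne_zero _ (mul_ne_zero (pow_ne_zero _ hx'.1) (pow_ne_zero _ hx'.2))
  have h3 := auxan_abs (res {q : LG g m | G.η.1 q ≠ 0}) (evP G.ξ G.an_ξ)
    (fun j : Fin g => dE ((Pi.single j 1, 0) : LG g m)) G.DP
    (fun j : Fin g => dA hO ((Pi.single j 1, 0) : LG g m))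
    (fun j f => res_dE hO ((Pi.single j 1, 0) : LG g m) f)
    (fun j f => evP_der hO G.ξ G.an_ξ ((Pi.single j 1, 0) : LG g m) (G.dP j)
      (fun i z hz => G.der_ξ j i z hz) f) _ Ψ u _ e1 hu' l h1
  rw [mem_ma, auxan_sub, auxan_mul, res_apply, res_apply, evP_apply, hu] at h3
  exact sub_eq_zero.1 h3

theorem auxan_cauchy (x : Fin g → ℂ) (l : List (Fin g)) (Ψ : Ent (LG g m)) (S : ℝ)
    (h : ∀ z, ‖z‖ ≤ ‖x‖ + 1 → ‖Ψ.1 (z, 0)‖ ≤ S) :
    ‖(ap (fun j : Fin g => dE ((Pi.single j 1, 0) : LG g m)) l Ψ).1 (x, 0)‖ ≤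
      (l.length + 1) ^ l.length * S := by
  have hp : (0 : ℝ) < l.length + 1 := by positivity
  have := cauchy_word (fun j : Fin g => ((Pi.single j 1, 0) : LG g m))
    (LinearMap.ker (LinearMap.snd ℂ (Fin g → ℂ) (Fin m → ℂ))) (fun _ => LinearMap.mem_ker.2 rfl)
    (fun j => by simp [Pi.norm_single]) (x, 0) (inv_pos.2 hp) l Ψ S (fun w hw hw' => by
      have e : ((x, 0) : LG g m) + w = (x + w.1, 0) := Prod.ext rfl (by
        have : w.2 = 0 := LinearMap.mem_ker.1 hw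
        simp [this])
      rw [e]
      refine h _ ((norm_add_le _ _).trans ?_)
      have h1 : ‖w.1‖ ≤ ‖w‖ := norm_fst_le w
      have h2 : (l.length : ℝ) * (l.length + 1 : ℝ)⁻¹ ≤ 1 := by
        rw [← div_eq_mul_inv, div_le_one hp]; linarith
      linarith)
  rwa [inv_pow, div_inv_eq_mul, mul_comm] at this

/-- The analytic half.  `small` (with `sec_bound`, `R₁ = ‖x‖ + 1`, `n = (g + m e) L`,
`card = (L + 1) ^ (g + m + 1)`) gives `p`, and `Ψ = ∑ p i • sec i ≠ 0`.  By `exists_sys`,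
`Fib.zero_est` the jets of `Ψ` at `(x, 0)` along the `(e_j, 0)` cannot all vanish; take the largest
`t` with `JB t` and a word `l` from `exists_word`.  In `An O`, `O = {η ≠ 0}`, `res Ψ = Ξ * evP F`
with `Ξ = (θ k ^ g B ^ m) ^ L` (`sec_eq`); `jb_res`, `Fl_sat`, `ap_mul_sub`, `ap_hom` (`res_dE`,
`evP_der`, `der_ξ`) give `(ap l Ψ)(x, 0) = Ξ(x, 0) * dval`.  `cauchy_word` with `ρ = 1 / (t + 1)`. -/
theorem aux_an (hw : Wd A G.w) (ℓ : Fin (2 * g) → Fin m → ℤ) (M : Matrix (Fin m) (Fin m) ℂ)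
    (hM : ∀ j, G.w j = M.mulVec fun l => (ℓ j l : ℂ)) (τ : ℂ) (hτ : Transcendental ℚ τ)
    (x : Fin g → ℂ) (hx : G.η.1 (x, 0) ≠ 0) :
    ∃ (y : Fin g → Fin (N + 1)) (C : ℕ), 1 ≤ C ∧ ∀ (L r : ℕ) (h V : ℝ), 1 ≤ L → 1 ≤ h → h ≤ V →
      (C * L : ℝ) ≤ h → (C * L * r : ℝ) ≤ V → C * V ≤ L * r ^ 2 →
      C * r ^ m * V ≤ (L : ℝ) ^ (m + 1) * h →
      ∃ (p : Ix g m L → ℤ) (l : List (Fin g)), (∀ i, |(p i : ℝ)| ≤ Real.exp h) ∧
        l.length ^ g ≤ C * L ^ (2 * g - 1) ∧ G.dval y τ x p l ≠ 0 ∧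
        ‖G.dval y τ x p l‖ ≤ (l.length + 1) ^ l.length * Real.exp (-V + C * L) := by
  obtain ⟨y, hy⟩ := G.exists_y
  obtain ⟨C₀, hC₀⟩ := G.sec_bound hw.pos τ (∑ j, ‖A.ω j‖)
  obtain ⟨C₁, hC₁, hsm⟩ := small A G.w ℓ M hM C₀ (‖x‖ + 1)
  obtain ⟨S, hST, hF⟩ := G.exists_sys
  obtain ⟨C₂, hze⟩ := hF.zero_est hw
  have hg := auxan_g_pos hw
  have hx' := mul_ne_zero_iff.1 (show A.θ G.k x * G.B x ≠ 0 from hx)
  have hΞ : A.θ G.k x ^ g * G.B x ^ m ≠ 0 := mul_ne_zero (pow_ne_zero _ hx'.1) (pow_ne_zero _ hx'.2)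
  have hmem := fun L => G.sec_mem y τ (L := L)
  have hval := fun L => G.auxan_val y τ x hx (L := L)
  generalize A.θ G.k x ^ g * G.B x ^ m = Ξ at hΞ hval
  have hK : 1 ≤ g + m * G.e := by omega
  generalize g + m * G.e = K at hK hmem hC₀
  have hK' : (1 : ℝ) ≤ K := by exact_mod_cast hK
  have hΞ' : 0 < ‖Ξ‖ := norm_pos_iff.2 hΞ
  have hc₃ : 0 < ‖Ξ‖⁻¹ := inv_pos.2 hΞ'
  have hKg : (1 : ℝ) ≤ (K : ℝ) ^ g := one_le_pow₀ hK'
  obtain ⟨C₃, hC₃⟩ := exists_nat_ge (C₁ * K ^ g + C₁ * K + ‖Ξ‖⁻¹)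
  have a1 : C₁ ≤ C₁ * K ^ g := le_mul_of_one_le_right (by linarith) hKg
  have a2 : (K : ℝ) ≤ C₁ * K := le_mul_of_one_le_left (by linarith) hC₁
  refine ⟨y, C₃ + C₂ * K ^ (2 * g - 1) + (g + m + 1), by omega, ?_⟩
  have b1 : C₂ * K ^ (2 * g - 1) ≤ C₃ + C₂ * K ^ (2 * g - 1) + (g + m + 1) := by omega
  have b2 : (C₃ : ℝ) ≤ (C₃ + C₂ * K ^ (2 * g - 1) + (g + m + 1) : ℕ) := by
    exact_mod_cast (by omega : C₃ ≤ C₃ + C₂ * K ^ (2 * g - 1) + (g + m + 1))
  have b3 : ((g + m + 1 : ℕ) : ℝ) ≤ (C₃ + C₂ * K ^ (2 * g - 1) + (g + m + 1) : ℕ) := by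
    exact_mod_cast (by omega : g + m + 1 ≤ C₃ + C₂ * K ^ (2 * g - 1) + (g + m + 1))
  generalize C₃ + C₂ * K ^ (2 * g - 1) + (g + m + 1) = C at b1 b2 b3
  intro L r h V hL hh hhV h1 h2 h3 h4
  have hL' : (1 : ℝ) ≤ L := by exact_mod_cast hL
  have hr : (0 : ℝ) ≤ r := Nat.cast_nonneg r
  have hcard : (Fintype.card (Ix g m L) : ℝ) = (L + 1 : ℝ) ^ (g + m + 1) := by
    simp only [Fintype.card_prod, Fintype.card_fin, Fintype.card_fun]
    push_cast
    ring
  have hn : 1 ≤ K * L := Nat.mul_pos hK hL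
  obtain ⟨p, hp0, hp, hsmall⟩ := hsm (Ix g m L) (fun i => (G.sec y τ i).1) (K * L) r h V
    (fun i => Ent.diff _) (fun i => (hmem L i).1) (fun i z s hz => hC₀ y L i z s hz) hn hh hhV
    (by
      rw [hcard]
      calc (L + 1 : ℝ) ^ (g + m + 1) ≤ Real.exp L ^ (g + m + 1) :=
            pow_le_pow_left₀ (by positivity) (Real.add_one_le_exp _) _
        _ = Real.exp ((g + m + 1 : ℕ) * L) := (Real.exp_nat_mul _ _).symm
        _ ≤ Real.exp h := Real.exp_le_exp.2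
            ((mul_le_mul_of_nonneg_right b3 (by linarith)).trans h1))
    (by
      push_cast
      refine le_trans ?_ h2
      exact mul_le_mul_of_nonneg_right
        (mul_le_mul_of_nonneg_right (by linarith) (by linarith)) hr)
    (by
      push_cast
      calc C₁ * V ≤ C * V := mul_le_mul_of_nonneg_right (by linarith) (by linarith)
        _ ≤ L * r ^ 2 := h3
        _ ≤ K * L * r ^ 2 := mul_le_mul_of_nonneg_right
            (le_mul_of_one_le_left (by linarith) hK') (by positivity))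
    (by
      rw [hcard]
      push_cast
      have c1 : C₁ * K ^ g * (r ^ m * V) ≤ C * (r ^ m * V) :=
        mul_le_mul_of_nonneg_right (by linarith) (mul_nonneg (by positivity) (by linarith))
      have c2 : (L : ℝ) ^ (g + m + 1) ≤ (L + 1 : ℝ) ^ (g + m + 1) :=
        pow_le_pow_left₀ (by linarith) (by linarith) _
      calc C₁ * ((K : ℝ) * L) ^ g * r ^ m * V = L ^ g * (C₁ * K ^ g * (r ^ m * V)) := by ring
        _ ≤ L ^ g * ((L : ℝ) ^ (m + 1) * h) := mul_le_mul_of_nonneg_left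
            (c1.trans (by rw [← mul_assoc]; exact h4)) (by positivity)
        _ = (L : ℝ) ^ (g + m + 1) * h := by ring
        _ ≤ _ := mul_le_mul_of_nonneg_right c2 (by linarith))
  have hΨ0 : ∑ i, (p i : ℂ) • G.sec y τ i ≠ 0 := fun h0 => hp0 (hy τ hτ L p h0)
  have hΨm : ∑ i, (p i : ℂ) • G.sec y τ i ∈ S.T (K * L) := by
    rw [hST]
    exact Submodule.sum_mem _ fun i _ => Submodule.smul_mem _ _ (hmem L i)
  have hz := fun t => hze (K * L) t _ (x, 0) hn hΨm hΨ0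
  have hex : ∃ t, ¬ JB (fun j : Fin g => ((Pi.single j 1, 0) : LG g m)) (t + 1) (x, 0)
      (∑ i, (p i : ℂ) • G.sec y τ i) := by
    refine ⟨C₂ * (K * L) ^ (2 * g - 1), fun hj => ?_⟩
    have d1 := hz _ hj
    have d2 := Nat.le_self_pow (n := g) (by omega) (C₂ * (K * L) ^ (2 * g - 1) + 1)
    omega
  classical
  have ht : JB (fun j : Fin g => ((Pi.single j 1, 0) : LG g m)) (Nat.find hex) (x, 0)
      (∑ i, (p i : ℂ) • G.sec y τ i) := by
    rcases Nat.eq_zero_or_pos (Nat.find hex) with h0 | h0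
    · rw [h0]; exact filt_jet_zero _ _ _ _
    · have := Nat.find_min hex (Nat.sub_lt h0 one_pos)
      rw [not_not, show Nat.find hex - 1 + 1 = Nat.find hex by omega] at this
      exact this
  obtain ⟨l, hl, hl'⟩ := exists_word _ _ ht (Nat.find_spec hex)
  rw [← hl] at ht
  have e1 := hval L p l ht
  have e2 := auxan_cauchy x l (∑ i, (p i : ℂ) • G.sec y τ i) _ fun z hz => by
    rw [auxan_sum]; exact hsmall z hz
  rw [mem_mz, e1] at hl'
  rw [e1, norm_mul, norm_pow] at e2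
  refine ⟨p, l, hp, ?_, (mul_ne_zero_iff.1 hl').2, ?_⟩
  · refine (hz _ ht).trans ?_
    rw [mul_pow, ← mul_assoc]
    exact Nat.mul_le_mul_right _ b1
  · have f1 : ‖Ξ‖⁻¹ ^ L ≤ Real.exp (L * ‖Ξ‖⁻¹) := by
      rw [Real.exp_nat_mul]
      exact pow_le_pow_left₀ hc₃.le (by linarith [Real.add_one_le_exp ‖Ξ‖⁻¹]) _
    have f2 : ‖G.dval y τ x p l‖ = ‖Ξ‖⁻¹ ^ L * (‖Ξ‖ ^ L * ‖G.dval y τ x p l‖) := by
      rw [← mul_assoc, ← mul_pow, inv_mul_cancel₀ hΞ'.ne', one_pow, one_mul]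
    have f3 : (C₁ * K + ‖Ξ‖⁻¹) * L ≤ C * L :=
      mul_le_mul_of_nonneg_right (by linarith) (by linarith)
    rw [f2]
    refine (mul_le_mul f1 e2 (by positivity) (Real.exp_pos _).le).trans ?_
    rw [mul_left_comm, ← Real.exp_add]
    refine mul_le_mul_of_nonneg_left (Real.exp_le_exp.2 ?_) (by positivity)
    push_cast
    linarith

end Gx

end GPC73

end

end
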