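import Mathlib

-- part MP_57341d_ag.H96.Gelfond
section

/-! Gelfond's criterion for transcendence degree one (heights measured by the Mahler measure). -/

open Polynomial Filter

namespace GPC96

theorem gelfond_prod_le {ι : Type} (m : Multiset ι) (f g : ι → ℝ) (c : ℝ) (hf : ∀ x, 0 ≤ f x)
    (h : ∀ x ∈ m, f x ≤ c * g x) : (m.map f).prod ≤ c ^ m.card * (m.map g).prod := by
  have h1 := Multiset.prod_map_le_prod_map₀ f (fun x => c * g x) (fun x _ => hf x) h
  rwa [Multiset.prod_map_mul, Multiset.map_const', Multiset.prod_replicate] at h1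

theorem gelfond_norm_eval (g : ℂ[X]) (x : ℂ) :
    ‖g.eval x‖ = ‖g.leadingCoeff‖ * (g.roots.map fun β => ‖x - β‖).prod := by
  rw [(IsAlgClosed.splits g).eval_eq_prod_roots, norm_mul]
  congr 1
  have := map_multiset_prod (normHom (α := ℂ)) (g.roots.map fun β => x - β)
  simpa [Multiset.map_map] using this

theorem gelfond_eval_le (g : ℂ[X]) (x : ℂ) :
    ‖g.eval x‖ ≤ 2 ^ g.natDegree * g.mahlerMeasure * max 1 ‖x‖ ^ g.natDegree := by
  rw [gelfond_norm_eval, mahlerMeasure_eq_leadingCoeff_mul_prod_roots,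
    (IsAlgClosed.splits g).natDegree_eq_card_roots]
  have h := gelfond_prod_le g.roots (fun β => ‖x - β‖) (fun β => max 1 ‖β‖) (2 * max 1 ‖x‖)
    (fun _ => norm_nonneg _) (fun β _ => by
      have h1 := norm_sub_le x β
      have h2 : ‖x‖ ≤ max 1 ‖x‖ := le_max_right _ _
      have h3 : ‖β‖ ≤ max 1 ‖β‖ := le_max_right _ _
      have h4 : (1 : ℝ) ≤ max 1 ‖x‖ := le_max_left _ _
      have h5 : (1 : ℝ) ≤ max 1 ‖β‖ := le_max_left _ _
      nlinarith)
  refine (mul_le_mul_of_nonneg_left h (norm_nonneg _)).trans_eq ?_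
  rw [mul_pow]; ring

theorem gelfond_eval_near (g : ℂ[X]) (θ α : ℂ) (h : ∀ β ∈ g.roots, ‖θ - α‖ ≤ ‖θ - β‖) :
    ‖g.eval α‖ ≤ 2 ^ g.natDegree * ‖g.eval θ‖ := by
  rw [gelfond_norm_eval, gelfond_norm_eval, (IsAlgClosed.splits g).natDegree_eq_card_roots]
  have h := gelfond_prod_le g.roots (fun β => ‖α - β‖) (fun β => ‖θ - β‖) 2
    (fun _ => norm_nonneg _) (fun β hβ => by
      have h1 : α - β = (θ - β) - (θ - α) := by ring
      have h2 := norm_sub_le (θ - β) (θ - α)
      rw [h1]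
      linarith [h β hβ])
  refine (mul_le_mul_of_nonneg_left h (norm_nonneg _)).trans_eq ?_
  ring

theorem gelfond_core (f g : ℂ[X]) (θ α : ℂ) (hα : α ∈ f.roots)
    (h : ∀ β ∈ g.roots, ‖θ - α‖ ≤ ‖θ - β‖) (hg : 1 ≤ g.mahlerMeasure) :
    ‖resultant f g‖ ≤ (2 ^ g.natDegree * g.mahlerMeasure) ^ f.natDegree *
      f.mahlerMeasure ^ g.natDegree * ‖g.eval θ‖ := by
  obtain ⟨m, hm⟩ := Multiset.exists_cons_of_mem hα
  have hc : f.natDegree = m.card + 1 := by
    rw [(IsAlgClosed.splits f).natDegree_eq_card_roots, hm, Multiset.card_cons]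
  have h1 : ‖resultant f g‖ = ‖f.leadingCoeff‖ ^ g.natDegree *
      (‖g.eval α‖ * (m.map fun x => ‖g.eval x‖).prod) := by
    rw [resultant_eq_prod_eval f g _ le_rfl (IsAlgClosed.splits f), norm_mul, norm_pow, hm,
      Multiset.map_cons, Multiset.prod_cons, norm_mul]
    congr 2
    have := map_multiset_prod (normHom (α := ℂ)) (m.map g.eval)
    simpa [Multiset.map_map] using this
  have h2 := gelfond_prod_le m (fun x => ‖g.eval x‖) (fun x => max 1 ‖x‖ ^ g.natDegree)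
    (2 ^ g.natDegree * g.mahlerMeasure) (fun _ => norm_nonneg _) (fun x _ => gelfond_eval_le g x)
  rw [Multiset.prod_map_pow] at h2
  have h3 := gelfond_eval_near g θ α h
  set P := (m.map fun x : ℂ => max 1 ‖x‖).prod with hP
  have hP0 : 0 ≤ P := Multiset.prod_nonneg fun x hx => by
    obtain ⟨y, -, rfl⟩ := Multiset.mem_map.1 hx
    exact zero_le_one.trans (le_max_left _ _)
  have h4 : ‖f.leadingCoeff‖ * P ≤ f.mahlerMeasure := by
    rw [mahlerMeasure_eq_leadingCoeff_mul_prod_roots, hm, Multiset.map_cons, Multiset.prod_cons]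
    exact mul_le_mul_of_nonneg_left (le_mul_of_one_le_left hP0 (le_max_left _ _)) (norm_nonneg _)
  have h5 : (‖f.leadingCoeff‖ * P) ^ g.natDegree ≤ f.mahlerMeasure ^ g.natDegree :=
    pow_le_pow_left₀ (by positivity) h4 _
  have h6 : (2 : ℝ) ^ g.natDegree ≤ 2 ^ g.natDegree * g.mahlerMeasure :=
    le_mul_of_one_le_right (by positivity) hg
  have h7 : 0 ≤ (m.map fun x => ‖g.eval x‖).prod := Multiset.prod_nonneg fun x hx => by
    obtain ⟨y, -, rfl⟩ := Multiset.mem_map.1 hx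
    exact norm_nonneg _
  have h8 : 0 ≤ 2 ^ g.natDegree * g.mahlerMeasure := by positivity
  rw [h1, hc]
  calc ‖f.leadingCoeff‖ ^ g.natDegree * (‖g.eval α‖ * (m.map fun x => ‖g.eval x‖).prod)
      ≤ ‖f.leadingCoeff‖ ^ g.natDegree * ((2 ^ g.natDegree * g.mahlerMeasure * ‖g.eval θ‖) *
          ((2 ^ g.natDegree * g.mahlerMeasure) ^ m.card * P ^ g.natDegree)) := by
        refine mul_le_mul_of_nonneg_left (mul_le_mul ?_ h2 h7 (by positivity)) (by positivity)
        exact h3.trans (mul_le_mul_of_nonneg_right h6 (norm_nonneg _))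
    _ = (2 ^ g.natDegree * g.mahlerMeasure) ^ (m.card + 1) *
          (‖f.leadingCoeff‖ * P) ^ g.natDegree * ‖g.eval θ‖ := by rw [mul_pow ‖_‖]; ring
    _ ≤ _ := by gcongr

theorem gelfond_aeval (θ : ℂ) (A : ℤ[X]) : aeval θ A = (A.map (Int.castRingHom ℂ)).eval θ := by
  rw [aeval_def, eval_map, algebraMap_int_eq]

theorem gelfond_const (θ : ℂ) {A : ℤ[X]} (hA : A ≠ 0) (h : A.natDegree = 0) :
    1 ≤ ‖aeval θ A‖ := by
  have h1 := one_le_mahlerMeasure_of_ne_zero hA
  rw [eq_C_of_natDegree_eq_zero h] at h1 ⊢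
  rw [map_C, mahlerMeasure_const] at h1
  simpa using h1

theorem gelfond_half (θ : ℂ) (A B : ℤ[X]) (hB : B ≠ 0)
    (h : IsCoprime (A.map (Int.castRingHom ℚ)) (B.map (Int.castRingHom ℚ))) {d s : ℝ}
    (hd : 1 ≤ d) (hds : d ≤ s) (ha : (A.natDegree : ℝ) ≤ d) (hb : (B.natDegree : ℝ) ≤ d)
    (hMA : (A.map (Int.castRingHom ℂ)).mahlerMeasure ≤ Real.exp s)
    (hMB : (B.map (Int.castRingHom ℂ)).mahlerMeasure ≤ Real.exp s) {α : ℂ}
    (hα : α ∈ (A.map (Int.castRingHom ℂ)).roots)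
    (hn : ∀ β ∈ (B.map (Int.castRingHom ℂ)).roots, ‖θ - α‖ ≤ ‖θ - β‖) :
    Real.exp (-(4 * d * s)) ≤ ‖aeval θ B‖ := by
  have h1 := gelfond_core _ _ θ α hα hn (one_le_mahlerMeasure_of_ne_zero hB)
  have h2 := resultant_ne_zero _ _ h
  rw [natDegree_map_eq_of_injective (Int.castRingHom ℚ).injective_int,
    natDegree_map_eq_of_injective (Int.castRingHom ℚ).injective_int, resultant_map_map] at h2
  rw [natDegree_map_eq_of_injective (Int.castRingHom ℂ).injective_int,
    natDegree_map_eq_of_injective (Int.castRingHom ℂ).injective_int, resultant_map_map,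
    ← gelfond_aeval] at h1
  have h3 : (1 : ℝ) ≤ ‖Int.castRingHom ℂ (resultant A B A.natDegree B.natDegree)‖ := by
    have h4 : resultant A B A.natDegree B.natDegree ≠ 0 := fun h0 => h2 (by rw [h0]; simp)
    rw [eq_intCast, Complex.norm_intCast]
    exact_mod_cast Int.one_le_abs h4
  have hs : 0 ≤ s := by linarith
  have h5 : (2 : ℝ) ^ B.natDegree ≤ Real.exp s := by
    have e1 : (2 : ℝ) ≤ Real.exp 1 := by linarith [Real.add_one_le_exp 1]
    refine (pow_le_pow_left₀ (by norm_num) e1 _).trans ?_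
    rw [← Real.exp_nat_mul, Real.exp_le_exp]; linarith
  have h6 : (2 ^ B.natDegree * (B.map (Int.castRingHom ℂ)).mahlerMeasure) ^ A.natDegree ≤
      Real.exp (2 * d * s) := by
    have e1 := mul_le_mul h5 hMB (mahlerMeasure_nonneg _) (Real.exp_pos s).le
    refine (pow_le_pow_left₀ (mul_nonneg (by positivity) (mahlerMeasure_nonneg _)) e1 _).trans ?_
    rw [← Real.exp_add, ← Real.exp_nat_mul, Real.exp_le_exp]
    nlinarith
  have h7 : (A.map (Int.castRingHom ℂ)).mahlerMeasure ^ B.natDegree ≤ Real.exp (2 * d * s) := by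
    refine (pow_le_pow_left₀ (mahlerMeasure_nonneg _) hMA _).trans ?_
    rw [← Real.exp_nat_mul, Real.exp_le_exp]
    nlinarith
  have h8 := mul_le_mul h6 h7 (pow_nonneg (mahlerMeasure_nonneg _) _) (Real.exp_pos _).le
  have h9 := (h3.trans h1).trans (mul_le_mul_of_nonneg_right h8 (norm_nonneg _))
  rw [← Real.exp_add, show 2 * d * s + 2 * d * s = 4 * d * s by ring] at h9
  rw [Real.exp_neg, inv_le_iff_one_le_mul₀' (Real.exp_pos _)]
  exact h9

/-- Resultant inequality.  Hint: `Polynomial.resultant_eq_prod_eval` over `ℂ` and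
`resultant_map_map`; the resultant of `A, B : ℤ[X]` coprime over `ℚ` is a nonzero integer
(`resultant_ne_zero`).  Let `α` be the root of `A * B` nearest to `θ`, say a root of `A`; for each root
`β` of `B`, `‖α - β‖ ≤ 2 ‖θ - β‖`, so `‖B α‖ ≤ 2 ^ b ‖B θ‖`, while for the other roots
`‖B α'‖ ≤ 2 ^ b * M B * max 1 ‖α'‖ ^ b` (`norm_coeff_le_choose_mul_mahlerMeasure`) and
`‖lc A‖ * ∏ max 1 ‖α'‖ = M A` (`mahlerMeasure_eq_leadingCoeff_mul_prod_roots`).
Constant polynomials: `1 ≤ ‖A θ‖`. -/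
theorem res_ineq (θ : ℂ) (A B : ℤ[X]) (hA : A ≠ 0) (hB : B ≠ 0)
    (h : IsCoprime (A.map (Int.castRingHom ℚ)) (B.map (Int.castRingHom ℚ))) {d s : ℝ}
    (hd : 1 ≤ d) (hds : d ≤ s) (ha : (A.natDegree : ℝ) ≤ d) (hb : (B.natDegree : ℝ) ≤ d)
    (hMA : (A.map (Int.castRingHom ℂ)).mahlerMeasure ≤ Real.exp s)
    (hMB : (B.map (Int.castRingHom ℂ)).mahlerMeasure ≤ Real.exp s) :
    Real.exp (-(4 * d * s)) ≤ max ‖aeval θ A‖ ‖aeval θ B‖ := by
  classical
  by_cases h0 : (A.map (Int.castRingHom ℂ)).roots + (B.map (Int.castRingHom ℂ)).roots = 0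
  · have h1 : A.natDegree = 0 := by
      rw [← natDegree_map_eq_of_injective (Int.castRingHom ℂ).injective_int,
        (IsAlgClosed.splits _).natDegree_eq_card_roots, (add_eq_zero.1 h0).1, Multiset.card_zero]
    refine le_trans ?_ ((gelfond_const θ hA h1).trans (le_max_left _ _))
    rw [Real.exp_le_one_iff]
    have : 0 ≤ 4 * d * s := by
      have : 0 ≤ d := by linarith
      have : 0 ≤ s := by linarith
      positivity
    linarith
  · obtain ⟨α, hα, hmin⟩ := Finset.exists_min_image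
      ((A.map (Int.castRingHom ℂ)).roots + (B.map (Int.castRingHom ℂ)).roots).toFinset
      (fun β => ‖θ - β‖) (Multiset.toFinset_nonempty.2 h0)
    simp only [Multiset.mem_toFinset, Multiset.mem_add] at hα hmin
    rcases hα with hα | hα
    · exact (gelfond_half θ A B hB h hd hds ha hb hMA hMB hα
        fun β hβ => hmin β (Or.inr hβ)).trans (le_max_right _ _)
    · exact (gelfond_half θ B A hA h.symm hd hds hb ha hMB hMA hα
        fun β hβ => hmin β (Or.inl hβ)).trans (le_max_left _ _)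

theorem gelfond_dvd {A Q : ℤ[X]} (hQ : Q ≠ 0) (h : A ∣ Q) :
    A ≠ 0 ∧ A.natDegree ≤ Q.natDegree ∧
      (A.map (Int.castRingHom ℂ)).mahlerMeasure ≤ (Q.map (Int.castRingHom ℂ)).mahlerMeasure := by
  refine ⟨ne_zero_of_dvd_ne_zero hQ h, natDegree_le_of_dvd h hQ, ?_⟩
  obtain ⟨B, rfl⟩ := h
  rw [Polynomial.map_mul, mahlerMeasure_mul]
  exact le_mul_of_one_le_right (mahlerMeasure_nonneg _)
    (one_le_mahlerMeasure_of_ne_zero (right_ne_zero_of_mul hQ))

theorem gelfond_factor (θ : ℂ) {Q : ℤ[X]} (hQ : Q ≠ 0) {d s u : ℝ} (hd : 1 ≤ d) (hds : d ≤ s)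
    (hq : (Q.natDegree : ℝ) ≤ d) (hM : (Q.map (Int.castRingHom ℂ)).mahlerMeasure ≤ Real.exp s)
    (hu : 4 * d * s < u) (hv : ‖aeval θ Q‖ ≤ Real.exp (-u)) :
    ∃ (R : ℤ[X]) (e : ℕ), R.IsPrimitive ∧ Irreducible R ∧ (e : ℝ) ≤ d ∧ R ^ e ∣ Q ∧
      ‖aeval θ R‖ ^ e ≤ Real.exp (8 * d * s - u) := by
  classical
  have hex : ∃ n : ℕ, ∃ A B : ℤ[X], A.natDegree = n ∧ Q = A * B ∧
      IsCoprime (A.map (Int.castRingHom ℚ)) (B.map (Int.castRingHom ℚ)) ∧
      ‖aeval θ A‖ < Real.exp (-(4 * d * s)) :=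
    ⟨_, Q, 1, rfl, (mul_one Q).symm, by rw [Polynomial.map_one]; exact isCoprime_one_right,
      hv.trans_lt (Real.exp_lt_exp.2 (by linarith))⟩
  obtain ⟨A, B, hn, hAB, hc, hs⟩ := Nat.find_spec hex
  obtain ⟨a1, a2, a3⟩ := gelfond_dvd hQ (Dvd.intro _ hAB.symm)
  obtain ⟨b1, b2, b3⟩ := gelfond_dvd hQ (Dvd.intro_left _ hAB.symm)
  have hB : Real.exp (-(4 * d * s)) ≤ ‖aeval θ B‖ := by
    have := res_ineq θ A B a1 b1 hc hd hds ((Nat.cast_le.2 a2).trans hq)
      ((Nat.cast_le.2 b2).trans hq) (a3.trans hM) (b3.trans hM)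
    rcases le_max_iff.1 this with h | h
    · linarith
    · exact h
  have hpos : A.natDegree ≠ 0 := by
    intro h0
    have h1 := gelfond_const θ a1 h0
    have h2 : Real.exp (-(4 * d * s)) ≤ 1 := by
      rw [Real.exp_le_one_iff]
      have : 0 ≤ 4 * d * s := by
        have : 0 ≤ d := by linarith
        have : 0 ≤ s := by linarith
        positivity
      linarith
    linarith
  have hnu : ¬IsUnit A.primPart := fun h =>
    hpos (by rw [← natDegree_primPart]; exact natDegree_eq_zero_of_isUnit h)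
  obtain ⟨R, hR, hRd⟩ := WfDvdMonoid.exists_irreducible_factor hnu A.primPart_ne_zero
  have hRp : R.IsPrimitive := isPrimitive_of_dvd A.isPrimitive_primPart hRd
  have hRq := (IsPrimitive.Int.irreducible_iff_irreducible_map_cast hRp).1 hR
  have hRpos : 1 ≤ R.natDegree := by
    rw [← natDegree_map_eq_of_injective (Int.castRingHom ℚ).injective_int]
    exact hRq.natDegree_pos
  obtain ⟨e, A', hA', hAe⟩ := WfDvdMonoid.max_power_factor a1 hR
  have he : e ≠ 0 := by
    rintro rfl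
    rw [pow_zero, one_mul] at hAe
    exact hA' (hAe ▸ hRd.trans A.primPart_dvd)
  have hA0 : A' ≠ 0 := by rintro rfl; exact a1 (by rw [hAe, mul_zero])
  have hdeg : A.natDegree = e * R.natDegree + A'.natDegree := by
    rw [hAe, natDegree_mul (pow_ne_zero _ hR.ne_zero) hA0, natDegree_pow]
  have hel : e ≤ e * R.natDegree := Nat.le_mul_of_pos_right _ hRpos
  have hlow : Real.exp (-(4 * d * s)) ≤ ‖aeval θ A'‖ := by
    by_contra hlt
    refine Nat.find_min hex (m := A'.natDegree) (by omega) ⟨A', R ^ e * B, rfl, ?_, ?_,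
      not_le.1 hlt⟩
    · rw [hAB, hAe]; ring
    · rw [Polynomial.map_mul, Polynomial.map_pow]
      refine IsCoprime.mul_right (IsCoprime.pow_right (IsCoprime.symm ?_)) ?_
      · rw [hRq.coprime_iff_not_dvd, ← IsPrimitive.Int.dvd_iff_map_cast_dvd_map_cast _ _ hRp]
        exact hA'
      · rw [hAe, Polynomial.map_mul] at hc
        exact hc.of_mul_left_right
  refine ⟨R, e, hRp, hR, (Nat.cast_le.2 (by omega)).trans hq,
    ⟨A' * B, by rw [hAB, hAe]; ring⟩, ?_⟩
  have h1 : ‖aeval θ Q‖ = ‖aeval θ R‖ ^ e * (‖aeval θ A'‖ * ‖aeval θ B‖) := by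
    rw [hAB, hAe, map_mul, map_mul, map_pow, norm_mul, norm_mul, norm_pow, mul_assoc]
  have h2 := mul_le_mul hlow hB (Real.exp_pos _).le (norm_nonneg _)
  have h3 := mul_le_mul_of_nonneg_left h2 (pow_nonneg (norm_nonneg (aeval θ R)) e)
  rw [← h1, ← Real.exp_add] at h3
  have h4 : 8 * d * s - u = -u - (-(4 * d * s) + -(4 * d * s)) := by ring
  rw [h4, Real.exp_sub, le_div_iff₀ (Real.exp_pos _)]
  exact h3.trans hv

/-- Gelfond's criterion.  Hint.  Step 1: a nonzero `Q` with degree `≤ d`, Mahler measure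
`≤ exp s` and `‖Q θ‖ < exp (-K d s)` has a factor `R ^ e` (`R` irreducible in `ℤ[X]` of positive
degree, `1 ≤ e ≤ d`) with `‖R θ‖ ^ e ≤ exp (-(K - 8) d s)`: write `Q = c * P 1 * ... * P k` with
pairwise coprime prime powers, take the first `j` with `‖(P 1 ⋯ P j) θ‖ < exp (-4 d s)` and apply
`res_ineq` to `P 1 ⋯ P j` and `P (j+1) ⋯ P k`.  (An induction on the factorisation of `Q`, e.g.
`UniqueFactorizationMonoid.induction_on_coprime`, or a minimal-degree divisor `A` with `Q = A * B`,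
`A, B` coprime and `‖A θ‖` small, also works.)  Divisors have smaller degree and Mahler measure
(`mahlerMeasure_mul`, `one_le_mahlerMeasure_of_ne_zero`).  Step 2: by `res_ineq` with
`d = δ (n+1)`, `s = σ (n+1)` the factors for `n` and `n+1` are not coprime, so the `R n` are all
associated; then `‖R θ‖ ≤ exp (-(K-8) σ n) → 0`, so `R θ = 0`. -/
theorem gelfond (θ : ℂ) (hθ : Transcendental ℚ θ) (a : ℝ) (ha : 1 ≤ a) :
    ∃ K : ℝ, 0 < K ∧ ∀ δ σ : ℕ → ℝ, (∀ n, 1 ≤ δ n) → (∀ n, δ n ≤ σ n) → Monotone δ → Monotone σ →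
      (∀ n, δ (n + 1) ≤ a * δ n) → (∀ n, σ (n + 1) ≤ a * σ n) → Tendsto σ atTop atTop →
      ∀ Q : ℕ → ℤ[X], (∀ n, Q n ≠ 0) → (∀ n, ((Q n).natDegree : ℝ) ≤ δ n) →
        (∀ n, ((Q n).map (Int.castRingHom ℂ)).mahlerMeasure ≤ Real.exp (σ n)) →
        ¬ ∀ n, ‖aeval θ (Q n)‖ ≤ Real.exp (-(K * δ n * σ n)) := by
  refine ⟨4 * a ^ 2 + 9, by positivity, fun δ σ h1 h2 hδ hσ h3 h4 h5 Q hQ hq hM hv => ?_⟩
  have hp : ∀ n, 0 < δ n * σ n := fun n => mul_pos (by linarith [h1 n]) (by linarith [h1 n, h2 n])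
  have ha2 : 1 ≤ a ^ 2 := one_le_pow₀ ha
  choose R e hR1 hR2 he hdvd hsm using fun n => gelfond_factor θ (hQ n) (h1 n) (h2 n) (hq n) (hM n)
    (u := (4 * a ^ 2 + 9) * δ n * σ n) (by nlinarith [hp n]) (hv n)
  have hsm' : ∀ n, ‖aeval θ (R n)‖ ^ e n ≤ Real.exp (-((4 * a ^ 2 + 1) * (δ n * σ n))) :=
    fun n => (hsm n).trans_eq (by congr 1; ring)
  have hstep : ∀ n, ‖aeval θ (R (n + 1))‖ = ‖aeval θ (R n)‖ := by
    intro n
    have hdd : R n ∣ R (n + 1) := by
      by_contra hnd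
      have hc : IsCoprime ((R n ^ e n).map (Int.castRingHom ℚ))
          ((R (n + 1) ^ e (n + 1)).map (Int.castRingHom ℚ)) := by
        rw [Polynomial.map_pow, Polynomial.map_pow]
        refine IsCoprime.pow ?_
        rwa [((IsPrimitive.Int.irreducible_iff_irreducible_map_cast (hR1 n)).1
          (hR2 n)).coprime_iff_not_dvd,
          ← IsPrimitive.Int.dvd_iff_map_cast_dvd_map_cast _ _ (hR1 n)]
      obtain ⟨a1, a2, a3⟩ := gelfond_dvd (hQ n) (hdvd n)
      obtain ⟨b1, b2, b3⟩ := gelfond_dvd (hQ (n + 1)) (hdvd (n + 1))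
      have e1 : δ n ≤ δ (n + 1) := hδ n.le_succ
      have e2 : σ n ≤ σ (n + 1) := hσ n.le_succ
      have e3 := res_ineq θ _ _ a1 b1 hc (h1 (n + 1)) (h2 (n + 1))
        (((Nat.cast_le.2 a2).trans (hq n)).trans e1) ((Nat.cast_le.2 b2).trans (hq (n + 1)))
        ((a3.trans (hM n)).trans (Real.exp_le_exp.2 e2)) (b3.trans (hM (n + 1)))
      rw [map_pow, map_pow, norm_pow, norm_pow] at e3
      have e4 : δ (n + 1) * σ (n + 1) ≤ a * δ n * (a * σ n) :=
        mul_le_mul (h3 n) (h4 n) (by linarith [h1 (n + 1), h2 (n + 1)])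
          (mul_nonneg (by linarith) (by linarith [h1 n]))
      rcases le_max_iff.1 e3 with h | h
      · have := Real.exp_le_exp.1 (h.trans (hsm' n))
        nlinarith [hp n]
      · have := Real.exp_le_exp.1 (h.trans (hsm' (n + 1)))
        nlinarith [hp (n + 1)]
    obtain ⟨u, hu⟩ := (hR2 n).associated_of_dvd (hR2 (n + 1)) hdd
    obtain ⟨c, hc, hcu⟩ := Polynomial.isUnit_iff.1 u.isUnit
    rw [← hu, ← hcu, map_mul, norm_mul]
    rcases Int.isUnit_iff.1 hc with rfl | rfl <;> simp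
  have hall : ∀ n, ‖aeval θ (R n)‖ = ‖aeval θ (R 0)‖ := by
    intro n
    induction n with
    | zero => rfl
    | succ n ih => rw [hstep, ih]
  have hρ : 0 < ‖aeval θ (R 0)‖ := by
    rw [norm_pos_iff]
    intro h0
    refine hθ ⟨(R 0).map (Int.castRingHom ℚ), ?_, ?_⟩
    · exact (Polynomial.map_ne_zero_iff (Int.castRingHom ℚ).injective_int).2 (hR2 0).ne_zero
    · rw [← algebraMap_int_eq, aeval_map_algebraMap, h0]
  obtain ⟨n, hn⟩ := (h5.eventually_gt_atTop |Real.log ‖aeval θ (R 0)‖|).exists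
  have h6 := hsm' n
  rw [hall n, ← Real.exp_log hρ, ← Real.exp_nat_mul, Real.exp_le_exp] at h6
  have h7 := neg_abs_le (Real.log ‖aeval θ (R 0)‖)
  have h8 := mul_le_mul_of_nonneg_left h7 (Nat.cast_nonneg (α := ℝ) (e n))
  have h9 := mul_le_mul_of_nonneg_right (he n) (abs_nonneg (Real.log ‖aeval θ (R 0)‖))
  have h10 := mul_lt_mul_of_pos_left hn (show 0 < δ n by linarith [h1 n])
  nlinarith [hp n]

end GPC96

end

-- part MP_57341d_ag.H96.Trdeg
section

/-! Two lemmas on transcendence degrees of subfields of `ℂ`. -/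

namespace GPC96

theorem exists_theta_of_lt_two (K : IntermediateField ℚ ℂ) (h : Algebra.trdeg ℚ K < 2) :
    ∃ θ : ℂ, Transcendental ℚ θ ∧ ∀ x ∈ K, IsAlgebraic (Algebra.adjoin ℚ {θ}) x := by
  by_cases hK : ∀ x ∈ K, IsAlgebraic ℚ x
  · have h1 : Transcendental ℤ (liouvilleNumber 2) := by
      exact_mod_cast transcendental_liouvilleNumber (le_refl 2)
    have h2 : Transcendental ℚ ((liouvilleNumber 2 : ℝ) : ℂ) := by
      intro h3
      have h4 : IsAlgebraic ℚ (liouvilleNumber 2 : ℝ) :=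
        (isAlgebraic_algHom_iff (Complex.ofRealAm.restrictScalars ℚ) Complex.ofReal_injective).mp h3
      exact h1 ((IsFractionRing.isAlgebraic_iff ℤ ℚ ℝ).mpr h4)
    exact ⟨_, h2, fun x hx => (hK x hx).extendScalars (algebraMap ℚ _).injective⟩
  · push Not at hK
    obtain ⟨θ, hθK, hθ⟩ := hK
    refine ⟨θ, hθ, fun x hx => ?_⟩
    by_contra hx'
    have h1 : AlgebraicIndependent ℚ (fun _ : Unit => θ) :=
      algebraicIndependent_unique_type_iff.mpr hθ
    have h2 : AlgebraicIndependent ℚ (fun o : Option Unit => o.elim x (fun _ : Unit => θ)) := by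
      refine (h1.option_iff_transcendental x).mpr ?_
      rw [Set.range_const]
      exact hx'
    have h3 : AlgebraicIndependent ℚ
        (fun o : Option Unit => (o.elim ⟨x, hx⟩ (fun _ : Unit => ⟨θ, hθK⟩) : K)) := by
      refine (K.val.algebraicIndependent_iff Subtype.val_injective).mp ?_
      convert h2 using 1
      ext o
      cases o <;> rfl
    have h4 := h3.cardinalMk_le_trdeg
    simp only [Cardinal.mk_fintype, Fintype.card_option, Fintype.card_unique] at h4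
    exact absurd h (not_lt.mpr (by exact_mod_cast h4))

theorem trdeg_le_two (S : Set ℂ) (u v : ℂ)
    (h : ∀ x ∈ S, IsAlgebraic (IntermediateField.adjoin ℚ {u, v}) x) :
    Algebra.trdeg ℚ (IntermediateField.adjoin ℚ S) ≤ 2 := by
  obtain ⟨s, hs⟩ := exists_isTranscendenceBasis ℚ (IntermediateField.adjoin ℚ S)
  rw [← hs.cardinalMk_eq_trdeg]
  have hle : IntermediateField.adjoin ℚ S ≤
      (algebraicClosure (IntermediateField.adjoin ℚ {u, v}) ℂ).restrictScalars ℚ :=
    IntermediateField.adjoin_le_iff.mpr fun x hx => mem_algebraicClosure_iff.mpr (h x hx)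
  have hi : AlgebraicIndependent ℚ (fun i : s => ((i : IntermediateField.adjoin ℚ S) : ℂ)) :=
    hs.1.map' (f := (IntermediateField.adjoin ℚ S).val) Subtype.val_injective
  have hI : (AlgebraicIndependent.matroid ℚ ℂ).Indep
      (Set.range fun i : s => ((i : IntermediateField.adjoin ℚ S) : ℂ)) :=
    AlgebraicIndependent.matroid_indep_iff.mpr hi.to_subtype_range
  have hsub : (Set.range fun i : s => ((i : IntermediateField.adjoin ℚ S) : ℂ)) ⊆
      (AlgebraicIndependent.matroid ℚ ℂ).closure {u, v} := by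
    rintro _ ⟨i, rfl⟩
    rw [AlgebraicIndependent.matroid_closure_eq]
    exact IntermediateField.isAlgebraic_adjoin_iff.mp (mem_algebraicClosure_iff.mp (hle i.1.2))
  have h1 := hI.cardinalMk_le_cRk_of_subset hsub
  rw [Matroid.cRk_closure, Cardinal.mk_range_eq _ hi.injective] at h1
  refine h1.trans ((Matroid.cRk_le_cardinalMk _ _).trans ?_)
  refine (Cardinal.mk_insert_le).trans ?_
  simp [one_add_one_eq_two]

end GPC96

end
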