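import Pool.Agent.MP_57341d_ag.Mg.H73_Arith
import Pool.Agent.MP_57341d_ag.Mg.H73_MkSys
import Pool.Agent.MP_57341d_ag.Mg.H73_Gx
import Pool.Agent.MP_57341d_ag.Mg.H96_Trdeg

/-! The transcendence argument. -/

open MvPolynomial Module GPC96

namespace GPC73

variable {g N m : ℕ} {A : AbVar g N}

theorem main_pow_le {x C : ℝ} {n t d : ℕ} (hx : 0 ≤ x) (hxn : x ≤ (n : ℝ) ^ (d + 1))
    (ht : (t : ℝ) ≤ C * (n : ℝ) ^ d) (hn : C * (d + 1) ≤ n) :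
    x ^ t ≤ Real.exp ((n : ℝ) ^ (d + 2)) := by
  have h0 : (0 : ℝ) ≤ n := Nat.cast_nonneg _
  have h1 : x ≤ Real.exp (((d + 1 : ℕ) : ℝ) * n) := by
    rw [Real.exp_nat_mul]
    exact hxn.trans (pow_le_pow_left₀ h0 (by linarith [Real.add_one_le_exp (n : ℝ)]) _)
  calc x ^ t ≤ Real.exp (((d + 1 : ℕ) : ℝ) * n) ^ t := pow_le_pow_left₀ hx h1 t
    _ = Real.exp (t * (((d + 1 : ℕ) : ℝ) * n)) := (Real.exp_nat_mul _ _).symm
    _ ≤ _ := by
      refine Real.exp_le_exp.mpr ?_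
      calc (t : ℝ) * (((d + 1 : ℕ) : ℝ) * n) ≤ C * (n : ℝ) ^ d * (((d + 1 : ℕ) : ℝ) * n) := by
            gcongr
        _ = C * (d + 1) * (n : ℝ) ^ (d + 1) := by push_cast; ring
        _ ≤ n * (n : ℝ) ^ (d + 1) := by gcongr
        _ = _ := by ring

theorem main_le {n c : ℝ} (h1 : 1 ≤ n) (hc : c ≤ n) {a b : ℕ} (h : a + 1 ≤ b) :
    c * n ^ a ≤ n ^ b :=
  calc c * n ^ a ≤ n * n ^ a := by gcongr
    _ = n ^ (a + 1) := by ring
    _ ≤ _ := pow_le_pow_right₀ h1 h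

theorem main_g_pos {w : Fin (2 * g) → Fin m → ℂ} (hw : Wd A w) : 1 ≤ g := by
  by_contra h
  obtain rfl : g = 0 := by omega
  have h1 := hw.top
  have : IsEmpty (Fin (2 * 0)) := Fin.isEmpty'
  rw [Set.range_eq_empty, Submodule.span_empty] at h1
  have h2 : (fun _ : Fin m => (1 : ℂ)) ∈ (⊥ : Submodule ℂ (Fin m → ℂ)) := h1 ▸ Submodule.mem_top
  exact one_ne_zero (congrFun ((Submodule.mem_bot ℂ).1 h2) ⟨0, hw.pos⟩)

/-- One polynomial for each large `n`.  Put `β = g (m + 4)` (`g ≥ 1` by `hw`), `L = n ^ β`,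
`r = n ^ (β - 1)`, `h = n ^ (2 β - m - 2)`, `V = K' n ^ (3 β - m - 2)` in `aux_an`.  The length `t`
of the word satisfies `t ≤ C n ^ (2 β - m - 4)` (compare `g`-th powers), so
`(L + t) ^ t ≤ exp (t * c n) ≤ exp h` for large `n`.  Compare `GPC96.main_step`, `main_pow_le`. -/
theorem main_step (G : Gx A m) (hw : Wd A G.w) (ℓ : Fin (2 * g) → Fin m → ℤ)
    (M : Matrix (Fin m) (Fin m) ℂ) (hM : ∀ j, G.w j = M.mulVec fun l => (ℓ j l : ℂ)) {τ : ℂ}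
    (hτ : Transcendental ℚ τ) {x : Fin g → ℂ} (hx : G.Arith τ x) :
    ∃ (b : ℝ) (β γ : ℕ), 1 ≤ b ∧ 1 ≤ β ∧ β ≤ γ ∧ ∀ K : ℝ, 0 < K → ∃ n₀ : ℕ, ∀ n : ℕ, n₀ ≤ n →
      ∃ Q : Polynomial ℤ, Q ≠ 0 ∧ (Q.natDegree : ℝ) ≤ b * (n : ℝ) ^ β ∧
        (Q.map (Int.castRingHom ℂ)).mahlerMeasure ≤ Real.exp (b * (n : ℝ) ^ γ) ∧
        ‖Polynomial.aeval τ Q‖ ≤ Real.exp (-(K * (n : ℝ) ^ (β + γ))) := by
  obtain ⟨y, C, hC, hA⟩ := G.aux_an hw ℓ M hM τ hτ x hx.ne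
  obtain ⟨b, hb, hB⟩ := G.aux_ar hτ hx y
  obtain ⟨g', hg⟩ : ∃ g', g = g' + 1 := ⟨g - 1, by have := main_g_pos hw; omega⟩
  obtain ⟨m', hm⟩ : ∃ m', m = m' + 1 := ⟨m - 1, by have := hw.pos; omega⟩
  obtain ⟨u, hu⟩ : ∃ u, u = g' * (m' + 5) := ⟨_, rfl⟩
  have hb' : (1 : ℝ) ≤ b := by exact_mod_cast hb
  have hC' : (1 : ℝ) ≤ C := by exact_mod_cast hC
  refine ⟨4 * b, u + m' + 5, 2 * u + m' + 5 + 2, by linarith, by omega, by omega, fun K hK => ?_⟩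
  obtain ⟨K', hK'⟩ : ∃ K' : ℝ, K' = K + 4 * b + 2 := ⟨_, rfl⟩
  have hK1 : 1 ≤ K' := by linarith
  obtain ⟨n₀, hn₀⟩ := exists_nat_ge (C * K' + C * (((2 * u + m' + 5 : ℕ) : ℝ) + 1) + 1)
  refine ⟨n₀, fun n hn => ?_⟩
  have hnn : C * K' + C * (((2 * u + m' + 5 : ℕ) : ℝ) + 1) + 1 ≤ n :=
    hn₀.trans (by exact_mod_cast hn)
  have a1 : (C : ℝ) ≤ C * K' := le_mul_of_one_le_right (by linarith) hK1
  have a2 : (0 : ℝ) ≤ C * (((2 * u + m' + 5 : ℕ) : ℝ) + 1) := by positivity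
  have n1 : (1 : ℝ) ≤ n := by linarith
  have n1' : 1 ≤ n := by exact_mod_cast n1
  have nC : (C : ℝ) ≤ n := by linarith
  have nCK : C * K' ≤ n := by linarith
  have hpw : ∀ a b : ℕ, a ≤ b → (n : ℝ) ^ a ≤ (n : ℝ) ^ b := fun a b h => pow_le_pow_right₀ n1 h
  have hV : ∀ k : ℕ, (n : ℝ) ^ k ≤ K' * (n : ℝ) ^ k := fun k =>
    le_mul_of_one_le_left (by positivity) hK1
  have hCL : (C * (n ^ (u + m' + 5) : ℕ) : ℝ) ≤ (n : ℝ) ^ (2 * u + m' + 5 + 2) := by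
    push_cast
    exact main_le n1 nC (by omega)
  obtain ⟨p, l, hp, hl, hne, hv⟩ := hA (n ^ (u + m' + 5)) (n ^ (u + m' + 4))
    ((n : ℝ) ^ (2 * u + m' + 5 + 2)) (K' * (n : ℝ) ^ (u + m' + 5 + (2 * u + m' + 5 + 2)))
    (Nat.one_le_pow _ _ n1') (one_le_pow₀ n1) ((hpw _ _ (by omega)).trans (hV _)) hCL
    (by
      push_cast
      rw [mul_assoc, ← pow_add]
      exact (main_le n1 nC (by omega)).trans (hV _))
    (by
      push_cast
      rw [← mul_assoc, ← pow_mul, ← pow_add]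
      exact main_le n1 nCK (by omega))
    (by
      push_cast
      rw [← pow_mul, ← pow_mul, ← pow_add, mul_mul_mul_comm, ← pow_add]
      refine main_le n1 nCK ?_
      rw [hm]
      have : (u + m' + 5) * (m' + 1 + 1) = (u + m' + 4) * (m' + 1) + (u + m' + 5) + (m' + 1) := by
        ring
      omega)
  have ht : (l.length : ℝ) ≤ C * (n : ℝ) ^ (2 * u + m' + 5) := by
    have h1 : l.length ^ g ≤ (C * n ^ (2 * u + m' + 5)) ^ g := by
      refine hl.trans ?_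
      rw [mul_pow, ← pow_mul, ← pow_mul]
      refine Nat.mul_le_mul (Nat.le_self_pow (by omega) _) (le_of_eq ?_)
      congr 1
      rw [hg, show 2 * (g' + 1) - 1 = 2 * g' + 1 by omega, hu]
      ring
    exact_mod_cast (Nat.pow_le_pow_iff_left (by omega)).1 h1
  have hL : ((n ^ (u + m' + 5) : ℕ) : ℝ) ≤ (n : ℝ) ^ (2 * u + m' + 5) := by
    push_cast
    exact hpw _ _ (by omega)
  have hL1 : (1 : ℝ) ≤ ((n ^ (u + m' + 5) : ℕ) : ℝ) := by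
    push_cast
    exact one_le_pow₀ n1
  have hLt : ((n ^ (u + m' + 5) : ℕ) : ℝ) + l.length ≤ (n : ℝ) ^ (2 * u + m' + 5 + 1) := by
    have := main_le (c := C + 1) n1 (by linarith) (le_refl (2 * u + m' + 5 + 1))
    linarith
  have hM1 : (((n ^ (u + m' + 5) : ℕ) : ℝ) + l.length) ^ l.length ≤
      Real.exp ((n : ℝ) ^ (2 * u + m' + 5 + 2)) :=
    main_pow_le (by positivity) hLt ht (by linarith)
  have hM2 : ((l.length : ℝ) + 1) ^ l.length ≤ Real.exp ((n : ℝ) ^ (2 * u + m' + 5 + 2)) :=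
    (pow_le_pow_left₀ (by positivity) (by linarith) _).trans hM1
  obtain ⟨Q, hQ0, hQd, hQM, hQv⟩ := hB _ _ p l (Nat.one_le_pow _ _ n1') (by positivity) hp hne
  have hh := hpw (2 * u + m' + 5 + 1) (2 * u + m' + 5 + 2) (by omega)
  have h0 : (0 : ℝ) ≤ (n : ℝ) ^ (2 * u + m' + 5 + 2) := by positivity
  have hE : (Real.exp ((n : ℝ) ^ (2 * u + m' + 5 + 2) + ((n ^ (u + m' + 5) : ℕ) : ℝ) + l.length) *
      (((n ^ (u + m' + 5) : ℕ) : ℝ) + l.length) ^ l.length) ^ b ≤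
      Real.exp (4 * b * (n : ℝ) ^ (2 * u + m' + 5 + 2)) := by
    rw [mul_comm 4 (b : ℝ), mul_assoc (b : ℝ), Real.exp_nat_mul]
    refine pow_le_pow_left₀ (by positivity) ?_ b
    calc _ ≤ Real.exp (3 * (n : ℝ) ^ (2 * u + m' + 5 + 2)) *
          Real.exp ((n : ℝ) ^ (2 * u + m' + 5 + 2)) :=
          mul_le_mul (Real.exp_le_exp.mpr (by linarith)) hM1 (by positivity) (by positivity)
      _ = _ := by rw [← Real.exp_add]; congr 1; ring
  refine ⟨Q, hQ0, ?_, hQM.trans hE, hQv.trans ?_⟩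
  · have h1 : (Q.natDegree : ℝ) ≤ b * (n : ℝ) ^ (u + m' + 5) := by exact_mod_cast hQd
    have h2 : (0 : ℝ) ≤ b * (n : ℝ) ^ (u + m' + 5) := by positivity
    linarith
  · refine (mul_le_mul (hv.trans (mul_le_mul_of_nonneg_right hM2 (Real.exp_pos _).le)) hE
      (by positivity) (by positivity)).trans ?_
    rw [← Real.exp_add, ← Real.exp_add]
    refine Real.exp_le_exp.mpr ?_
    have h1 := mul_le_mul_of_nonneg_left
      (hpw (2 * u + m' + 5 + 2) (u + m' + 5 + (2 * u + m' + 5 + 2)) (by omega))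
      (show (0 : ℝ) ≤ 4 * b + 2 by positivity)
    rw [hK']
    linarith

/-- Gelfond's criterion, as in `GPC96.not_alg`. -/
theorem no_gx (G : Gx A m) (hw : Wd A G.w) (ℓ : Fin (2 * g) → Fin m → ℤ)
    (M : Matrix (Fin m) (Fin m) ℂ) (hM : ∀ j, G.w j = M.mulVec fun l => (ℓ j l : ℂ)) {τ : ℂ}
    (hτ : Transcendental ℚ τ) {x : Fin g → ℂ} (hx : G.Arith τ x) : False := by
  obtain ⟨b, β, γ, hb1, hβ, hγ, hs⟩ := main_step G hw ℓ M hM hτ hx
  obtain ⟨K, hK, hG⟩ := gelfond τ hτ (2 ^ γ) (one_le_pow₀ (by norm_num))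
  obtain ⟨m₀, hm⟩ := hs (K * b * b) (by positivity)
  choose Q hQ0 hQd hQM hQv using fun n : ℕ => hm (n + m₀ + 1) (by omega)
  have h1 : ∀ n : ℕ, (1 : ℝ) ≤ ((n + m₀ + 1 : ℕ) : ℝ) := fun n => by exact_mod_cast (by omega)
  have h2 : ∀ n k : ℕ, k ≤ γ → b * ((n + 1 + m₀ + 1 : ℕ) : ℝ) ^ k ≤
      2 ^ γ * (b * ((n + m₀ + 1 : ℕ) : ℝ) ^ k) := fun n k hk => by
    have h3 : ((n + 1 + m₀ + 1 : ℕ) : ℝ) ≤ 2 * ((n + m₀ + 1 : ℕ) : ℝ) := by
      exact_mod_cast (by omega)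
    calc _ ≤ b * (2 * ((n + m₀ + 1 : ℕ) : ℝ)) ^ k := by gcongr
      _ = 2 ^ k * (b * ((n + m₀ + 1 : ℕ) : ℝ) ^ k) := by ring
      _ ≤ _ := by gcongr; norm_num
  have h4 : ∀ k : ℕ, Monotone fun n : ℕ => b * ((n + m₀ + 1 : ℕ) : ℝ) ^ k := fun k n n' h => by
    dsimp only
    gcongr
  refine hG (fun n => b * ((n + m₀ + 1 : ℕ) : ℝ) ^ β) (fun n => b * ((n + m₀ + 1 : ℕ) : ℝ) ^ γ)
    (fun n => one_le_mul_of_one_le_of_one_le hb1 (one_le_pow₀ (h1 n)))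
    (fun n => mul_le_mul_of_nonneg_left (pow_le_pow_right₀ (h1 n) hγ) (by linarith))
    (h4 β) (h4 γ) (fun n => h2 n β hγ) (fun n => h2 n γ le_rfl) ?_ Q hQ0 hQd hQM
    fun n => (hQv n).trans (le_of_eq (by congr 1; ring))
  refine Filter.Tendsto.const_mul_atTop (by linarith) ?_
  exact (Filter.tendsto_pow_atTop (by omega)).comp (tendsto_natCast_atTop_atTop.comp
    ((Filter.tendsto_add_atTop_nat 1).comp (Filter.tendsto_add_atTop_nat m₀)))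

/-- `exists_theta_of_lt_two`, `exists_wd`, then write the `m` vectors of the `K`-span of `A.dR` as
combinations of one finite family (`Submodule.mem_span_set'` and a sigma type, or
`Submodule.mem_span_finite_of_mem_span`), `exists_gx`, `no_gx`. -/
theorem two_le (A : AbVar g N) (V : Submodule ℚ (Fin (2 * g) → ℚ)) (hV : V ≠ ⊥)
    (hU : ∀ U : Submodule ℂ (Fin g → ℂ), U ≠ ⊤ → A.IsSub U →
      finrank ℚ (V ⊓ A.ann U : Submodule ℚ _) + finrank ℂ U < g)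
    (K : IntermediateField ℚ ℂ)
    (hK : ∀ v ∈ V, (fun j => (v j : ℂ)) ∈ Submodule.span ℂ
      ((Submodule.span K A.dR : Set (Fin (2 * g) → ℂ)) ∩
        Submodule.span ℂ ((fun (v : Fin (2 * g) → ℚ) j => (v j : ℂ)) '' V))) :
    2 ≤ Algebra.trdeg ℚ K := by
  by_contra h
  obtain ⟨τ, hτ, hKa⟩ := exists_theta_of_lt_two K (not_le.1 h)
  obtain ⟨m, w, ℓ, M, hw, hM, hS⟩ := exists_wd A V hV hU _ hK
  choose n f s hs using fun l => Submodule.mem_span_set'.1 (hS l)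
  obtain ⟨G, x, hx, hG⟩ := exists_gx A (ι := Σ l : Fin m, Fin (n l)) (fun i => (s i.1 i.2).1)
    (fun i => (s i.1 i.2).2) (fun l i => if i.1 = l then (f i.1 i.2 : ℂ) else 0) τ fun l i => by
      split_ifs
      · exact hKa _ (f i.1 i.2).2
      · exact isAlgebraic_zero
  have hGw : G.w = w := by
    funext j l
    rw [hG, Fintype.sum_sigma, Finset.sum_eq_single l (fun l' _ h => by simp [h]) (by simp),
      ← congrFun (hs l) j, Finset.sum_apply]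
    exact Finset.sum_congr rfl fun i _ => by rw [if_pos rfl]; rfl
  exact no_gx G (hGw ▸ hw) ℓ M (hGw ▸ hM) hτ hx

end GPC73
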