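import Pool.Agent.MP_57341d_ag.H73.MT
import Pool.Agent.MP_57341d_ag.Mg.H73_Mer
import Pool.Agent.MP_57341d_ag.H73.Fr
import Pool.Agent.MP_57341d_ag.Mg.H73_U2
import Pool.Agent.MP_57341d_ag.Mg.H73_Main

-- part MP_57341d_ag.H73.Hull
section

section

/-! Small rational Lie hulls of a complex structure are abelian. -/

open Matrix Module

namespace GPC73

variable {n : Type} [Fintype n] [DecidableEq n]

/-- `J` is a combination of commuting rational matrices with independent coefficients. -/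
structure Ab (J : Matrix n n ℝ) (r : ℕ) where
  X : Fin r → Matrix n n ℚ
  a : Fin r → ℝ
  comm : ∀ s t, X s * X t = X t * X s
  sum : J = ∑ s, a s • (X s).map (Rat.cast : ℚ → ℝ)
  lia : LinearIndependent ℚ a
  liX : LinearIndependent ℚ X

omit [DecidableEq n] in
theorem hull_mul (X Y : Matrix n n ℚ) : (X * Y).map (Rat.cast : ℚ → ℝ) =
    X.map (Rat.cast : ℚ → ℝ) * Y.map (Rat.cast : ℚ → ℝ) :=
  Matrix.map_mul (f := Rat.castHom ℝ)

omit [Fintype n] [DecidableEq n] in
theorem hull_lin (p q : ℚ) (X Y : Matrix n n ℚ) : (p • X + q • Y).map (Rat.cast : ℚ → ℝ) =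
    (p : ℝ) • X.map (Rat.cast : ℚ → ℝ) + (q : ℝ) • Y.map (Rat.cast : ℚ → ℝ) := by
  ext i j
  simp

omit [Fintype n] [DecidableEq n] in
theorem hull_sub (X Y : Matrix n n ℚ) : (X - Y).map (Rat.cast : ℚ → ℝ) =
    X.map (Rat.cast : ℚ → ℝ) - Y.map (Rat.cast : ℚ → ℝ) := by
  ext i j
  simp

omit [Fintype n] [DecidableEq n] in
theorem hull_inj {X : Matrix n n ℚ} (h : X.map (Rat.cast : ℚ → ℝ) = 0) : X = 0 := by
  ext i j
  simpa using congrFun (congrFun h i) j

/-- Entrywise, by `Fintype.linearIndependent_iff`. -/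
theorem li_split {m m' : Type} {r : ℕ} {a : Fin r → ℝ} (ha : LinearIndependent ℚ a)
    (M : Fin r → Matrix m m' ℚ) (h : ∑ s, a s • (M s).map (Rat.cast : ℚ → ℝ) = 0) (s : Fin r) :
    M s = 0 := by
  ext i j
  have h1 := congrFun (congrFun h i) j
  simp only [Matrix.sum_apply, Matrix.smul_apply, Matrix.map_apply, smul_eq_mul,
    Matrix.zero_apply] at h1
  refine Fintype.linearIndependent_iff.1 ha (fun s => M s i j) ?_ s
  rw [← h1]
  exact Finset.sum_congr rfl fun s _ => by rw [Rat.smul_def, mul_comm]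

/-- `→`: `Submodule.span_induction` (`(t • X).map l = l t • X` for rational `X`).  `←`: expand the
finitely many entries of `J` in `Module.Basis.ofVectorSpace ℚ ℝ`. -/
theorem mem_span_iff (J : Matrix n n ℝ) (L : Submodule ℚ (Matrix n n ℚ)) :
    J ∈ Submodule.span ℝ ((fun X : Matrix n n ℚ => X.map (Rat.cast : ℚ → ℝ)) '' L) ↔
      ∀ l : ℝ →ₗ[ℚ] ℚ, J.map l ∈ L := by
  classical
  constructor
  · intro h
    induction h using Submodule.span_induction with
    | mem x hx =>
      obtain ⟨X, hX, rfl⟩ := hx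
      intro l
      have e : (X.map (Rat.cast : ℚ → ℝ)).map l = l 1 • X := by
        ext i j
        simp only [Matrix.map_apply, Matrix.smul_apply, smul_eq_mul]
        rw [mul_comm, ← smul_eq_mul, ← map_smul, Rat.smul_def, mul_one]
      rw [e]
      exact L.smul_mem _ hX
    | zero =>
      intro l
      rw [Matrix.map_zero _ (map_zero l)]
      exact L.zero_mem
    | add x y _ _ hx hy =>
      intro l
      rw [Matrix.map_add _ (map_add l)]
      exact L.add_mem (hx l) (hy l)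
    | smul t x _ hx => exact fun l => hx (l ∘ₗ LinearMap.mulLeft ℚ t)
  · intro h
    obtain ⟨κ, b, -⟩ : ∃ (κ : Type) (_ : Module.Basis κ ℚ ℝ), True :=
      ⟨_, Module.Basis.ofVectorSpace ℚ ℝ, trivial⟩
    have e : J = ∑ s ∈ Finset.univ.biUnion fun p : n × n => (b.repr (J p.1 p.2)).support,
        b s • (J.map (b.coord s)).map (Rat.cast : ℚ → ℝ) := by
      ext i j
      simp only [Matrix.sum_apply, Matrix.smul_apply, Matrix.map_apply, Module.Basis.coord_apply]
      conv_lhs => rw [← b.linearCombination_repr (J i j), Finsupp.linearCombination_apply,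
        Finsupp.sum_of_support_subset _
          (Finset.subset_biUnion_of_mem (fun p : n × n => (b.repr (J p.1 p.2)).support)
            (Finset.mem_univ (i, j))) (fun i a => a • b i) fun _ _ => zero_smul _ _]
      exact Finset.sum_congr rfl fun s _ => by rw [Rat.smul_def, smul_eq_mul, mul_comm]
    rw [e]
    exact Submodule.sum_mem _ fun s _ =>
      Submodule.smul_mem _ _ (Submodule.subset_span ⟨_, h _, rfl⟩)

theorem mem_hull (J : Matrix n n ℝ) :
    J ∈ Submodule.span ℝ ((fun X : Matrix n n ℚ => X.map (Rat.cast : ℚ → ℝ)) '' hull J) := by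
  exact (mem_span_iff J _).2 fun l => Submodule.mem_sInf.2 fun L hL => (mem_span_iff J L).1 hL.2 l

theorem hull_lie (J : Matrix n n ℝ) {X Y : Matrix n n ℚ} (hX : X ∈ hull J) (hY : Y ∈ hull J) :
    X * Y - Y * X ∈ hull J := by
  exact Submodule.mem_sInf.2 fun L hL =>
    hL.1 X (Submodule.mem_sInf.1 hX L hL) Y (Submodule.mem_sInf.1 hY L hL)

/-- If `J` is a real combination of pairwise commuting rational matrices, their span is an abelian
Lie algebra containing the hull. -/
theorem hull_rank_le (J : Matrix n n ℝ) {r : ℕ} (X : Fin r → Matrix n n ℚ) (a : Fin r → ℝ)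
    (hc : ∀ s t, X s * X t = X t * X s) (h : J = ∑ s, a s • (X s).map (Rat.cast : ℚ → ℝ)) :
    finrank ℚ (hull J) ≤ r := by
  have h1 : hull J ≤ Submodule.span ℚ (Set.range X) := by
    refine sInf_le ⟨fun U hU V hV => ?_, ?_⟩
    · obtain ⟨u, rfl⟩ := (Submodule.mem_span_range_iff_exists_fun ℚ).1 hU
      obtain ⟨v, rfl⟩ := (Submodule.mem_span_range_iff_exists_fun ℚ).1 hV
      have : Commute (∑ s, u s • X s) (∑ s, v s • X s) :=
        Commute.sum_left _ _ _ fun s _ => Commute.sum_right _ _ _ fun t _ =>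
          Commute.smul_left (Commute.smul_right (hc s t) _) _
      rw [this.eq, sub_self]
      exact Submodule.zero_mem _
    · rw [h]
      exact Submodule.sum_mem _ fun s _ => Submodule.smul_mem _ _
        (Submodule.subset_span ⟨_, Submodule.subset_span ⟨s, rfl⟩, rfl⟩)
  exact (Submodule.finrank_mono h1).trans ((finrank_range_le_card X).trans (Fintype.card_fin r).le)

/-- For a complex structure `(ad J) ^ 3 = -4 ad J`; so `J T - T J = c • T` forces `c • T = 0`. -/
theorem ad_eigen {J T : Matrix n n ℝ} (hJ : J * J = -1) {c : ℝ} (h : J * T - T * J = c • T) :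
    c • T = 0 := by
  have h1 : -T - J * T * J = c • (J * T) := by
    rw [← Matrix.mul_smul, ← h, mul_sub, ← mul_assoc, hJ, ← mul_assoc, neg_mul, one_mul]
  have h2 : J * T * J + T = c • (T * J) := by
    rw [← Matrix.smul_mul, ← h, sub_mul, mul_assoc T, hJ, mul_neg, mul_one, sub_neg_eq_add]
  have h3 : J * T - T * J = c • (J * T * J) := by
    rw [← Matrix.smul_mul, ← h1, sub_mul, mul_assoc (J * T), hJ, mul_neg, mul_one, neg_mul]
    abel
  have h4 : (c ^ 2 + 4) • c • T = 0 := by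
    linear_combination (norm := module) (-c) • h1 + c • h2 - (c ^ 2 + 2) • h + (2 : ℝ) • h3
  exact (smul_eq_zero.1 h4).resolve_left (by positivity)

/-- If the coefficients of a commuting family of `finrank (hull J)` matrices were dependent, one
matrix could be eliminated (`hull_rank_le` with `r` matrices `X s - q s • X s₀`, `Fin.succAbove`). -/
theorem lia_of_rank (J : Matrix n n ℝ) {r : ℕ} (hr : finrank ℚ (hull J) = r + 1)
    (X : Fin (r + 1) → Matrix n n ℚ) (a : Fin (r + 1) → ℝ) (hc : ∀ s t, X s * X t = X t * X s)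
    (h : J = ∑ s, a s • (X s).map (Rat.cast : ℚ → ℝ)) : LinearIndependent ℚ a := by
  by_contra hn
  obtain ⟨g, hg, s₀, h0⟩ := Fintype.not_linearIndependent_iff.1 hn
  have h0' : (g s₀ : ℝ) ≠ 0 := by exact_mod_cast h0
  rw [Fin.sum_univ_succAbove _ s₀] at hg h
  have h1 : a s₀ = ∑ t, a (s₀.succAbove t) * ((-(g (s₀.succAbove t) / g s₀) : ℚ) : ℝ) := by
    refine mul_left_cancel₀ h0' ?_
    rw [Finset.mul_sum, ← Rat.smul_def, eq_neg_of_add_eq_zero_left hg, ← Finset.sum_neg_distrib]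
    refine Finset.sum_congr rfl fun t _ => ?_
    rw [Rat.smul_def]
    push_cast
    field_simp
  have h2 := hull_rank_le J (fun t => (1 : ℚ) • X (s₀.succAbove t) +
    (-(g (s₀.succAbove t) / g s₀)) • X s₀) (fun t => a (s₀.succAbove t))
    (fun s t => Commute.eq (Commute.add_left
      (Commute.add_right (Commute.smul_left (Commute.smul_right (hc _ _) _) _)
        (Commute.smul_left (Commute.smul_right (hc _ _) _) _))
      (Commute.add_right (Commute.smul_left (Commute.smul_right (hc _ _) _) _)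
        (Commute.smul_left (Commute.smul_right (hc _ _) _) _))))
    (by
      simp only [hull_lin, smul_add, Finset.sum_add_distrib, smul_smul, Rat.cast_one, mul_one]
      rw [← Finset.sum_smul, ← h1, add_comm]
      exact h)
  omega

theorem hull_basis {J : Matrix n n ℝ} {r : ℕ} (h : finrank ℚ (hull J) = r)
    {v : Fin r → Matrix n n ℚ} (hv : LinearIndependent ℚ v) (hm : ∀ i, v i ∈ hull J) :
    (∃ a : Fin r → ℝ, J = ∑ s, a s • (v s).map (Rat.cast : ℚ → ℝ)) ∧
      ∀ T ∈ hull J, ∃ α : Fin r → ℚ, T = ∑ s, α s • v s := by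
  have e : Submodule.span ℚ (Set.range v) = hull J :=
    Submodule.eq_of_le_of_finrank_eq (Submodule.span_le.2 (Set.range_subset_iff.2 hm))
      (by rw [finrank_span_eq_card hv, h, Fintype.card_fin])
  have hT : ∀ T ∈ hull J, ∃ α : Fin r → ℚ, T = ∑ s, α s • v s := fun T hT => by
    rw [← e] at hT
    exact ((Submodule.mem_span_range_iff_exists_fun ℚ).1 hT).imp fun _ => Eq.symm
  refine ⟨?_, hT⟩
  have h1 : J ∈ Submodule.span ℝ (Set.range fun s => (v s).map (Rat.cast : ℚ → ℝ)) := by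
    refine Submodule.span_le.2 ?_ (mem_hull J)
    rintro _ ⟨T, hT', rfl⟩
    obtain ⟨α, rfl⟩ := hT T hT'
    refine (Submodule.mem_span_range_iff_exists_fun ℝ).2 ⟨fun s => α s, ?_⟩
    ext i j
    simp [Matrix.sum_apply]
  exact ((Submodule.mem_span_range_iff_exists_fun ℝ).1 h1).imp fun _ => Eq.symm

theorem hull_prop {a b : ℝ} {p q : ℚ} (h : a * q = b * p) (h0 : p = 0 → q = 0 → False) :
    ∃ l : ℝ, a = l * p ∧ b = l * q := by
  by_cases hp : p = 0
  · have hq : (q : ℝ) ≠ 0 := by exact_mod_cast h0 hp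
    rw [hp, Rat.cast_zero, mul_zero] at h
    exact ⟨b / q, by rw [hp, Rat.cast_zero, mul_zero, (mul_eq_zero.1 h).resolve_right hq],
      (div_mul_cancel₀ b hq).symm⟩
  · have hp' : (p : ℝ) ≠ 0 := by exact_mod_cast hp
    refine ⟨a / p, (div_mul_cancel₀ a hp').symm, ?_⟩
    field_simp
    linarith

theorem hull_anti {J X U : Matrix n n ℝ} (hJ : J * J = -1) (h : J * X - X * J = U)
    (hc : J * U = U * J) : U = 0 := by
  have h1 : J * U + U * J = 0 := by
    rw [← h, mul_sub, sub_mul, ← mul_assoc, ← mul_assoc, mul_assoc X, hJ, neg_mul, one_mul,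
      mul_neg, mul_one]
    abel
  have h2 : J * U = 0 := by
    have : (2 : ℝ) • (J * U) = 0 := by rw [two_smul, ← h1, hc]
    exact (smul_eq_zero.1 this).resolve_left two_ne_zero
  have h3 := congrArg (J * ·) h2
  simpa [← mul_assoc, hJ] using h3

theorem hull_central {J : Matrix n n ℝ} {Δ : Matrix n n ℚ}
    (hc : Δ.map (Rat.cast : ℚ → ℝ) * J = J * Δ.map (Rat.cast : ℚ → ℝ)) :
    ∀ Y ∈ hull J, Δ * Y = Y * Δ := by
  have hm : ∀ Y, Y ∈ (Subalgebra.centralizer ℚ {Δ}).toSubmodule ↔ Δ * Y = Y * Δ := fun Y => by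
    simp [Subalgebra.mem_centralizer_iff]
  have h1 : hull J ≤ (Subalgebra.centralizer ℚ {Δ}).toSubmodule := by
    refine sInf_le ⟨fun U hU V hV => Subalgebra.sub_mem _ (Subalgebra.mul_mem _ hU hV)
      (Subalgebra.mul_mem _ hV hU), (mem_span_iff J _).2 fun l => (hm _).2 ?_⟩
    ext i j
    have := congrArg l (congrFun (congrFun hc i) j)
    simp only [Matrix.mul_apply, Matrix.map_apply, map_sum, mul_comm (J _ _), ← Rat.smul_def,
      map_smul, smul_eq_mul] at this
    simp only [Matrix.mul_apply, Matrix.map_apply, mul_comm (l _)]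
    exact this
  exact fun Y hY => (hm Y).1 (h1 hY)

/-- Let `X`, `Y` be a basis of the hull, `J = a X + b Y`, `T = X Y - Y X = α X + β Y`.  Then
`J T - T J = (a β - b α) T`.  If `T ≠ 0` then `a β = b α` (`ad_eigen`), so `J` is a real multiple
of `T`, contradicting `hull_rank_le`. -/
theorem ab_two {J : Matrix n n ℝ} (hJ : J * J = -1) (h : finrank ℚ (hull J) = 2) :
    Nonempty (Ab J 2) := by
  obtain ⟨v, hv, hm⟩ : ∃ v : Fin 2 → Matrix n n ℚ, LinearIndependent ℚ v ∧ ∀ i, v i ∈ hull J :=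
    ⟨_, (finBasisOfFinrankEq ℚ (hull J) h).linearIndependent.map' _ (hull J).ker_subtype,
      fun i => Subtype.prop _⟩
  obtain ⟨⟨a, ha⟩, hT⟩ := hull_basis h hv hm
  by_cases h0 : v 0 * v 1 - v 1 * v 0 = 0
  · have hc : ∀ s t, v s * v t = v t * v s := by
      rw [sub_eq_zero] at h0
      simp only [Fin.forall_fin_two, h0, and_self]
    exact ⟨⟨v, a, hc, ha, lia_of_rank J h v a hc ha, hv⟩⟩
  exfalso
  obtain ⟨α, hα⟩ := hT _ (hull_lie J (hm 0) (hm 1))
  rw [Fin.sum_univ_two] at ha hα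
  have e1 := congrArg (fun X : Matrix n n ℚ => X.map (Rat.cast : ℚ → ℝ)) hα
  simp only [hull_lin] at e1
  have e2 := hull_sub (v 0 * v 1) (v 1 * v 0)
  rw [hull_mul, hull_mul] at e2
  have e3 := ad_eigen hJ (T := (v 0 * v 1 - v 1 * v 0).map (Rat.cast : ℚ → ℝ))
    (c := a 0 * α 1 - a 1 * α 0) (by
      conv_rhs => rw [e2]
      rw [e1, ha]
      simp only [add_mul, mul_add, Matrix.smul_mul, Matrix.mul_smul]
      module)
  obtain ⟨l, l0, l1⟩ := hull_prop (sub_eq_zero.1 ((smul_eq_zero.1 e3).resolve_right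
    fun q => h0 (hull_inj q))) fun q0 q1 => h0 (by rw [hα, q0, q1]; module)
  have := hull_rank_le J ![v 0 * v 1 - v 1 * v 0] ![l] (fun s t => by rw [Subsingleton.elim s t])
    (by
      rw [Fin.sum_univ_one, cons_val_zero, cons_val_zero, e1, ha, l0, l1]
      module)
  omega

/-- `Δ` is central in the hull (its commutant is a Lie algebra whose real span contains `J`, by
`mem_span_iff`).  Let `X`, `Y`, `Δ` be a basis, `J = a X + b Y + c Δ`,
`T = X Y - Y X = α X + β Y + γ Δ ≠ 0`.  As in `ab_two`, `a β = b α`.  If `(α, β) ≠ 0` then `J` is a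
real combination of `T` and `Δ`.  Otherwise `T` is central, `[J, X] = -b T`, `[J, Y] = a T`, and
`(ad J) ^ 3 = -4 ad J` gives `a = b = 0`.  Both contradict `hull_rank_le`. -/
theorem ab_three {J : Matrix n n ℝ} (hJ : J * J = -1) (h : finrank ℚ (hull J) = 3)
    {Δ : Matrix n n ℚ} (hΔ : Δ ∈ hull J) (h0 : Δ ≠ 0)
    (hc : Δ.map (Rat.cast : ℚ → ℝ) * J = J * Δ.map (Rat.cast : ℚ → ℝ)) :
    ∃ B : Ab J 3, B.X 2 = Δ := by
  have hz : ∀ Y ∈ hull J, Δ * Y = Y * Δ := hull_central hc
  obtain ⟨v, hv, hm, h2⟩ : ∃ v : Fin 3 → Matrix n n ℚ, LinearIndependent ℚ v ∧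
      (∀ i, v i ∈ hull J) ∧ v 2 = Δ := by
    have l1 : LinearIndependent ℚ ![(⟨Δ, hΔ⟩ : hull J)] :=
      linearIndependent_unique_iff.2 fun q => h0 (congrArg Subtype.val q)
    obtain ⟨y, l2⟩ := exists_linearIndependent_cons_of_lt_finrank l1 (by omega)
    obtain ⟨x, l3⟩ := exists_linearIndependent_cons_of_lt_finrank l2 (by omega)
    exact ⟨_, l3.map' _ (hull J).ker_subtype, fun i => Subtype.prop _, rfl⟩
  obtain ⟨⟨a, ha⟩, hT⟩ := hull_basis h hv hm
  by_cases hT0 : v 0 * v 1 - v 1 * v 0 = 0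
  · have hc : ∀ s t, v s * v t = v t * v s := by
      rw [sub_eq_zero] at hT0
      intro s t
      fin_cases s <;> fin_cases t <;> simp [hT0, h2, hz _ (hm 0), hz _ (hm 1)]
    exact ⟨⟨v, a, hc, ha, lia_of_rank J h v a hc ha, hv⟩, h2⟩
  exfalso
  obtain ⟨α, hα⟩ := hT _ (hull_lie J (hm 0) (hm 1))
  rw [Fin.sum_univ_three, h2] at ha hα
  have e1 : (v 0 * v 1 - v 1 * v 0).map (Rat.cast : ℚ → ℝ) =
      (α 0 : ℝ) • (v 0).map (Rat.cast : ℚ → ℝ) + (α 1 : ℝ) • (v 1).map (Rat.cast : ℚ → ℝ) +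
        (α 2 : ℝ) • Δ.map (Rat.cast : ℚ → ℝ) := by
    rw [hα]
    ext i j
    simp
  have e2 := hull_sub (v 0 * v 1) (v 1 * v 0)
  rw [hull_mul, hull_mul] at e2
  have z0 := congrArg (fun X : Matrix n n ℚ => X.map (Rat.cast : ℚ → ℝ)) (hz _ (hm 0))
  have z1 := congrArg (fun X : Matrix n n ℚ => X.map (Rat.cast : ℚ → ℝ)) (hz _ (hm 1))
  simp only [hull_mul] at z0 z1
  have hT1 : (v 0 * v 1 - v 1 * v 0).map (Rat.cast : ℚ → ℝ) ≠ 0 := fun q => hT0 (hull_inj q)
  have e3 := ad_eigen hJ (T := (v 0 * v 1 - v 1 * v 0).map (Rat.cast : ℚ → ℝ))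
    (c := a 0 * α 1 - a 1 * α 0) (by
      conv_rhs => rw [e2]
      rw [e1, ha]
      simp only [add_mul, mul_add, Matrix.smul_mul, Matrix.mul_smul, z0, z1]
      module)
  have e4 := sub_eq_zero.1 ((smul_eq_zero.1 e3).resolve_right hT1)
  by_cases hq : α 0 = 0 ∧ α 1 = 0
  · rw [e4, sub_self, zero_smul] at e3
    rw [hq.1, hq.2, Rat.cast_zero, zero_smul, zero_smul, zero_add, zero_add] at e1
    have k0 : J * (v 0).map (Rat.cast : ℚ → ℝ) - (v 0).map (Rat.cast : ℚ → ℝ) * J =
        (-a 1) • (v 0 * v 1 - v 1 * v 0).map (Rat.cast : ℚ → ℝ) := by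
      rw [e2, ha]
      simp only [add_mul, mul_add, Matrix.smul_mul, Matrix.mul_smul, z0]
      module
    have k1 : J * (v 1).map (Rat.cast : ℚ → ℝ) - (v 1).map (Rat.cast : ℚ → ℝ) * J =
        a 0 • (v 0 * v 1 - v 1 * v 0).map (Rat.cast : ℚ → ℝ) := by
      rw [e2, ha]
      simp only [add_mul, mul_add, Matrix.smul_mul, Matrix.mul_smul, z1]
      module
    have m0 := hull_anti hJ k0 (by simp only [e1, Matrix.smul_mul, Matrix.mul_smul, hc])
    have m1 := hull_anti hJ k1 (by simp only [e1, Matrix.smul_mul, Matrix.mul_smul, hc])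
    have a1 := neg_eq_zero.1 ((smul_eq_zero.1 m0).resolve_right hT1)
    have a0 := (smul_eq_zero.1 m1).resolve_right hT1
    have := hull_rank_le J ![Δ] ![a 2] (fun s t => by rw [Subsingleton.elim s t])
      (by
        rw [Fin.sum_univ_one, cons_val_zero, cons_val_zero, ha, a0, a1]
        module)
    omega
  · obtain ⟨l, l0, l1⟩ := hull_prop e4 fun q0 q1 => hq ⟨q0, q1⟩
    have z2 := hz _ (hull_lie J (hm 0) (hm 1))
    have := hull_rank_le J ![v 0 * v 1 - v 1 * v 0, Δ] ![l, a 2 - l * α 2]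
      (by simp only [Fin.forall_fin_two, cons_val_zero, cons_val_one, z2, and_self])
      (by
        simp only [Fin.sum_univ_two, cons_val_zero, cons_val_one]
        rw [e1, ha, l0, l1]
        module)
    omega

end GPC73

end

section

/-! Conjugates of a complex structure. -/

open Matrix Module

namespace GPC73

variable {n : Type} [Fintype n] [DecidableEq n]

theorem gal_far {R : Type} [NormedRing R] [NormedAlgebra ℂ R] {T T' : R} (h : T * T = -1)
    (h' : T' * T' = -1) (hc : T * T' = T' * T) (hne : T ≠ T') : 2 ≤ dist T T' := by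
  have e : (T - T') * (T - T') * (T - T') = (-4 : ℂ) • (T - T') := by
    have e1 : (T - T') * (T - T') = -1 - 1 - T * T' - T * T' := by
      rw [mul_sub, sub_mul, sub_mul, h, h', ← hc]
      abel
    have e2 : T * T' * T = -T' := by
      rw [hc, mul_assoc, h, mul_neg_one]
    have e3 : T * T' * T' = -T := by
      rw [mul_assoc, h', mul_neg_one]
    have e4 : (-4 : ℂ) • (T - T') = -((T - T') + (T - T') + (T - T') + (T - T')) := by
      rw [neg_smul, show (4 : ℂ) = 1 + 1 + 1 + 1 by norm_num, add_smul, add_smul, add_smul,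
        one_smul]
    rw [e1, e4]
    simp only [mul_sub, sub_mul, e2, e3, neg_mul, one_mul]
    abel
  have hp : 0 < ‖T - T'‖ := norm_pos_iff.2 (sub_ne_zero.2 hne)
  have h1 : 4 * ‖T - T'‖ ≤ ‖T - T'‖ * ‖T - T'‖ * ‖T - T'‖ := by
    have := (norm_mul_le ((T - T') * (T - T')) (T - T')).trans
      (mul_le_mul_of_nonneg_right (norm_mul_le (T - T') (T - T')) hp.le)
    rw [e, norm_smul] at this
    simpa using this
  rw [dist_eq_norm]
  have h2 : 4 ≤ ‖T - T'‖ * ‖T - T'‖ := le_of_mul_le_mul_right h1 hp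
  nlinarith

theorem gal_countable {R : Type} [NormedRing R] [NormedAlgebra ℂ R] [FiniteDimensional ℂ R]
    {S : Set R} (h : ∀ T ∈ S, T * T = -1) (hc : ∀ T ∈ S, ∀ T' ∈ S, T * T' = T' * T) :
    S.Countable := by
  have : ProperSpace R := FiniteDimensional.proper ℂ R
  refine Set.PairwiseDisjoint.countable_of_isOpen (s := fun T : R => Metric.ball T 1) ?_
    (fun _ _ => Metric.isOpen_ball) fun T _ => ⟨T, Metric.mem_ball_self one_pos⟩
  intro T hT T' hT' hne
  refine Metric.ball_disjoint_ball ?_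
  have := gal_far (h T hT) (h T' hT') (hc T hT T' hT') hne
  linarith

/-- Two commuting square roots of `-1` satisfy `D ^ 3 = -4 D` for `D = T - T'`, so they are equal
or at distance `≥ 2` for a submultiplicative norm (`Matrix.linftyOpNormedRing`, or the Frobenius
norm); disjoint open balls, `Set.PairwiseDisjoint.countable_of_isOpen`. -/
theorem countable_roots {S : Set (Matrix n n ℂ)} (h : ∀ T ∈ S, T * T = -1)
    (hc : ∀ T ∈ S, ∀ T' ∈ S, T * T' = T' * T) : S.Countable := by
  let _ : NormedRing (Matrix n n ℂ) := Matrix.linftyOpNormedRing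
  let _ : NormedAlgebra ℂ (Matrix n n ℂ) := Matrix.linftyOpNormedAlgebra
  exact gal_countable h hc

/-- The combination of the `X s` with complex coefficients. -/
noncomputable def Ab.co {J : Matrix n n ℝ} {r : ℕ} (B : Ab J r) (c : Fin r → ℂ) : Matrix n n ℂ :=
  ∑ s, c s • (B.X s).map (Rat.cast : ℚ → ℂ)

variable {J : Matrix n n ℝ} {r : ℕ} (B : Ab J r)

theorem Ab.co_comm (c c' : Fin r → ℂ) : B.co c * B.co c' = B.co c' * B.co c := by
  have e : ∀ s t, Commute ((B.X s).map (Rat.cast : ℚ → ℂ)) ((B.X t).map (Rat.cast : ℚ → ℂ)) := by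
    intro s t
    have := congrArg (fun M : Matrix n n ℚ => M.map (Rat.castHom ℂ)) (B.comm s t)
    simp only [Matrix.map_mul] at this
    exact this
  exact Commute.sum_left _ _ _ fun s _ => Commute.sum_right _ _ _ fun t _ =>
    ((e s t).smul_left _).smul_right _

/-- `lin_cast` for the family `fun s (p : n × n) => X s p.1 p.2`. -/
theorem Ab.co_inj : Function.Injective B.co := by
  have h1 : LinearIndependent ℚ fun s (p : n × n) => B.X s p.1 p.2 := by
    rw [Fintype.linearIndependent_iff]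
    intro c hc
    refine Fintype.linearIndependent_iff.1 B.liX c ?_
    ext i j
    have := congrFun hc (i, j)
    simpa [Finset.sum_apply, Matrix.sum_apply] using this
  have h2 := (linearIndependent_algebraMap_comp_iff (S := ℂ)
    (v := fun s (p : n × n) => B.X s p.1 p.2)).2 h1
  intro c c' h
  refine funext fun s => sub_eq_zero.1 (Fintype.linearIndependent_iff.1 h2 (fun s => c s - c' s) ?_ s)
  funext p
  have := congrFun (congrFun h p.1) p.2
  simp only [Ab.co, Matrix.sum_apply, Matrix.smul_apply, Matrix.map_apply, smul_eq_mul] at this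
  simp only [Finset.sum_apply, Pi.smul_apply, Function.comp_apply, smul_eq_mul, sub_mul,
    Finset.sum_sub_distrib, Pi.zero_apply, eq_ratCast]
  exact sub_eq_zero.2 this

/-- Apply `φ` entrywise to the identity `J * J = -1`, read in `K`. -/
theorem Ab.co_sq (hJ : J * J = -1) {K : Type} [Field K] [CharZero K] (ι φ : K →+* ℂ)
    (a : Fin r → K) (ha : ∀ s, ι (a s) = B.a s) :
    B.co (fun s => φ (a s)) * B.co (fun s => φ (a s)) = -1 := by
  set M : Matrix n n K := ∑ s, a s • (B.X s).map (Rat.cast : ℚ → K) with hM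
  have e : ∀ ψ : K →+* ℂ, M.map ψ = B.co fun s => ψ (a s) := by
    intro ψ
    ext i j
    simp [hM, Ab.co, Matrix.sum_apply]
  have e1 : M.map ι = J.map Complex.ofRealHom := by
    rw [e]
    ext i j
    have := congrFun (congrFun B.sum i) j
    simp only [Matrix.map_apply]
    rw [this]
    simp [Ab.co, Matrix.sum_apply, ha]
  have e2 : M * M = -1 := by
    apply Matrix.map_injective ι.injective
    simp only
    rw [Matrix.map_mul, e1, ← Matrix.map_mul, hJ]
    ext i j
    by_cases hij : i = j <;> simp [hij]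
  rw [← e, ← Matrix.map_mul, e2]
  ext i j
  by_cases hij : i = j <;> simp [hij]

/-- `alg_of_countable`, `countable_roots`, `co_sq` with `K = ℂ`, `co_inj`. -/
theorem Ab.alg (hJ : J * J = -1) (s : Fin r) : IsAlgebraic ℚ (B.a s : ℂ) := by
  have h1 : (Set.range fun σ : ℂ →ₐ[Qb] ℂ => B.co fun s => σ (B.a s)).Countable := by
    refine countable_roots ?_ ?_
    · rintro _ ⟨σ, rfl⟩
      exact B.co_sq hJ (RingHom.id ℂ) σ.toRingHom (fun s => (B.a s : ℂ)) fun _ => rfl
    · rintro _ ⟨σ, rfl⟩ _ ⟨σ', rfl⟩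
      exact B.co_comm _ _
  have h2 := h1.preimage B.co_inj
  exact alg_of_countable (h2.image fun c => c s) fun σ => ⟨fun s => σ (B.a s), ⟨σ, rfl⟩, rfl⟩

/-- Let `L` be the number field generated by the `a s`.  The embeddings of `L` are independent
(`linearIndependent_algHom_toLinearMap`), there are `finrank ℚ L` of them (`AlgHom.card`), so they
span `L →ₗ[ℚ] ℂ`; each extends to `Qb` (`IsAlgClosed.lift`).  A vector killed by all conjugates is
killed by all `fun s => l (a s)`, `l` linear, among them the standard basis vectors. -/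
theorem conj_span {r : ℕ} (a : Fin r → Qb) (ha : LinearIndependent ℚ a) (v : Fin r → ℂ)
    (h : ∀ φ : Qb →ₐ[ℚ] ℂ, ∑ s, v s * φ (a s) = 0) : v = 0 := by
  classical
  have hQ : Algebra.IsAlgebraic ℚ Qb := algebraicClosure.isAlgebraic ℚ ℂ
  set L : IntermediateField ℚ Qb := IntermediateField.adjoin ℚ (Set.range a) with hL
  have : Algebra.IsAlgebraic L Qb := Algebra.IsAlgebraic.tower_top (K := ℚ) L
  have : FiniteDimensional ℚ L :=
    IntermediateField.finiteDimensional_adjoin fun x _ => Algebra.IsIntegral.isIntegral x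
  let b : Fin r → L := fun s => ⟨a s, IntermediateField.subset_adjoin ℚ _ ⟨s, rfl⟩⟩
  have hb : LinearIndependent ℚ b := LinearIndependent.of_comp L.val.toLinearMap ha
  have h1 : ∀ ψ : L →ₐ[ℚ] ℂ, ∑ s, v s * ψ (b s) = 0 := by
    intro ψ
    obtain ⟨φ, hφ⟩ := IsAlgClosed.surjective_domRestrict_of_isAlgebraic (K := ℚ) (L := L)
      (M := ℂ) (E := Qb) ψ
    rw [← hφ]
    exact h φ
  have h2 : Submodule.span ℂ (Set.range fun ψ : L →ₐ[ℚ] ℂ => ψ.toLinearMap) = ⊤ := by
    refine (linearIndependent_algHom_toLinearMap ℚ L ℂ).span_eq_top_of_card_eq_finrank' ?_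
    rw [AlgHom.card, Module.finrank_linearMap_self]
  have h3 : ∀ l : L →ₗ[ℚ] ℂ, ∑ s, v s * l (b s) = 0 := by
    intro l
    have hl : l ∈ Submodule.span ℂ (Set.range fun ψ : L →ₐ[ℚ] ℂ => ψ.toLinearMap) := by
      rw [h2]
      trivial
    induction hl using Submodule.span_induction with
    | mem x hx =>
      obtain ⟨ψ, rfl⟩ := hx
      exact h1 ψ
    | zero => simp
    | add x y _ _ hx hy => simp [mul_add, Finset.sum_add_distrib, hx, hy]
    | smul c x _ hx =>
      simp only [LinearMap.smul_apply, smul_eq_mul, mul_left_comm _ c, ← Finset.mul_sum, hx,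
        mul_zero]
  funext t
  obtain ⟨l, hl⟩ := LinearMap.exists_extend
    ((Algebra.linearMap ℚ ℂ) ∘ₗ (Finsupp.lapply t) ∘ₗ hb.repr)
  have h4 : ∀ s, l (b s) = if s = t then 1 else 0 := by
    intro s
    have := LinearMap.congr_fun hl ⟨b s, Submodule.subset_span ⟨s, rfl⟩⟩
    simp only [LinearMap.comp_apply, Submodule.subtype_apply] at this
    rw [this, hb.repr_eq_single s _ rfl]
    by_cases hs : s = t <;> simp [hs]
  have := h3 l
  simpa [h4] using this

end GPC73

end

end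

-- part MP_57341d_ag.H73.Fin
section

section

/-! The frames attached to an abelian hull. -/

open Matrix Module Complex

namespace GPC73

variable {n : Type} [Fintype n] [DecidableEq n] {D : HD n}

omit [DecidableEq n] in
theorem up2_mul {K : Type} [Field K] [CharZero K] (X Y : Matrix n n ℚ) :
    (X * Y).map (Rat.cast : ℚ → K) = X.map (Rat.cast : ℚ → K) * Y.map (Rat.cast : ℚ → K) := by
  ext i j
  simp [Matrix.mul_apply]

omit [DecidableEq n] in
theorem up2_skew {K : Type} [Field K] [CharZero K] (X Y : Matrix n n ℚ) :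
    (X * Y + Y * Xᵀ).map (Rat.cast : ℚ → K) =
      X.map (Rat.cast : ℚ → K) * Y.map (Rat.cast : ℚ → K) +
        Y.map (Rat.cast : ℚ → K) * (X.map (Rat.cast : ℚ → K))ᵀ := by
  ext i j
  simp [Matrix.mul_apply]

/-- `li_split`. -/
theorem Ab.skew {r : ℕ} (B : Ab D.J r) (s : Fin r) : B.X s * D.E + D.E * (B.X s)ᵀ = 0 := by
  refine li_split B.lia (fun s => B.X s * D.E + D.E * (B.X s)ᵀ) ?_ s
  have h := D.skew
  rw [B.sum] at h
  rw [← h]
  simp only [up2_skew, smul_add, Finset.sum_add_distrib, Finset.sum_mul, Finset.mul_sum,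
    transpose_sum, transpose_smul, smul_mul_assoc, mul_smul_comm]

omit [DecidableEq n] in
theorem up2_co {J : Matrix n n ℝ} {r : ℕ} (B : Ab J r) {ι : Type} [Fintype ι] (k : ι → ℂ)
    (c : ι → Fin r → ℂ) : B.co (∑ t, k t • c t) = ∑ t, k t • B.co (c t) := by
  simp only [Ab.co, Finset.sum_apply, Pi.smul_apply, smul_eq_mul, Finset.sum_smul, Finset.smul_sum,
    smul_smul]
  exact Finset.sum_comm

omit [DecidableEq n] in
theorem up2_single {J : Matrix n n ℝ} {r : ℕ} (B : Ab J r) (s : Fin r) (t : ℂ) :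
    B.co (Pi.single s t) = t • (B.X s).map (Rat.cast : ℚ → ℂ) := by
  rw [Ab.co, Finset.sum_eq_single s (fun b _ hb => by simp [hb]) (by simp), Pi.single_eq_same]

/-- Three algebraic square roots of `-1` among the combinations of the `X s`, spanning them, form
a frame (`al_comm`, `H1`). -/
theorem Ab.frame {r : ℕ} (B : Ab D.J r) (c : Fin 3 → Fin r → ℂ) (ha : ∀ t s, IsAlgebraic ℚ (c t s))
    (hs : ∀ t, B.co (c t) * B.co (c t) = -1) (h : Submodule.span ℂ (Set.range c) = ⊤) :
    ∃ F : Fr D, (∀ t, F.T t = B.co (c t)) ∧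
      ∀ s, (B.X s).map (Rat.cast : ℚ → ℂ) ∈ Submodule.span ℂ (Set.range F.T) := by
  have hX : ∀ s, ∃ k : Fin 3 → ℂ, (B.X s).map (Rat.cast : ℚ → ℂ) = ∑ t, k t • B.co (c t) := by
    intro s
    obtain ⟨k, hk⟩ := (Submodule.mem_span_range_iff_exists_fun ℂ).1
      (h ▸ Submodule.mem_top : (Pi.single s 1 : Fin r → ℂ) ∈ Submodule.span ℂ (Set.range c))
    exact ⟨k, by rw [← up2_co, hk, up2_single, one_smul]⟩
  refine ⟨⟨fun t => B.co (c t), fun s t => B.co_comm _ _, hs,
    fun t => al_sum _ fun s => Al.smul (ha t s) (al_rat _), fun t => ?_, fun ψ hψ hc => ?_⟩,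
    fun _ => rfl, fun s => ?_⟩
  · simp only [Ab.co, Finset.sum_mul, Finset.mul_sum, transpose_sum, transpose_smul,
      smul_mul_assoc, mul_smul_comm, ← Finset.sum_add_distrib, ← smul_add, ← up2_skew, B.skew]
    simp
  · obtain ⟨κ, t, β, φ, h1, h2, rfl⟩ := al_comm B.X hψ fun s => by
      obtain ⟨k, hk⟩ := hX s
      simp only [hk, Finset.sum_mul, Finset.mul_sum, smul_mul_assoc, mul_smul_comm, hc]
    simp only [Finset.sum_mul, Finset.mul_sum, smul_mul_assoc, mul_smul_comm]
    refine al_sum _ fun k => Al.smul (h1 k) (D.H1 _ ?_)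
    rw [B.sum]
    simp only [Finset.sum_mul, Finset.mul_sum, smul_mul_assoc, mul_smul_comm, ← up2_mul, h2]
  · obtain ⟨k, hk⟩ := hX s
    exact (Submodule.mem_span_range_iff_exists_fun ℂ).2 ⟨k, hk.symm⟩

theorem up2_conj {r : ℕ} (B : Ab D.J r) : ∃ a : Fin r → Qb, (∀ s, (a s : ℂ) = B.a s) ∧
    (∀ s, a s ≠ 0) ∧ (∀ (φ : Qb →ₐ[ℚ] ℂ) s, IsAlgebraic ℚ (φ (a s))) ∧
    (∀ φ : Qb →ₐ[ℚ] ℂ, B.co (fun s => φ (a s)) * B.co (fun s => φ (a s)) = -1) ∧
    ∀ v : Fin r → ℂ, v ≠ 0 → ∃ φ : Qb →ₐ[ℚ] ℂ, ∑ s, v s * φ (a s) ≠ 0 := by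
  let a : Fin r → Qb := fun s => ⟨B.a s, mem_algebraicClosure_iff.2 (B.alg D.JJ s)⟩
  have hli : LinearIndependent ℚ a := by
    refine Fintype.linearIndependent_iff.2 fun g hg => Fintype.linearIndependent_iff.1 B.lia g ?_
    have := congrArg (fun z : Qb => (z : ℂ).re) hg
    simpa [a, Complex.re_sum, Rat.smul_def] using this
  refine ⟨a, fun _ => rfl, hli.ne_zero, fun φ s => ?_,
    fun φ => B.co_sq D.JJ (algebraicClosure ℚ ℂ).val.toRingHom φ.toRingHom a fun _ => rfl,
    fun v hv => ?_⟩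
  · exact ((isAlgebraic_algHom_iff (algebraicClosure ℚ ℂ).val Subtype.val_injective).1
      (B.alg D.JJ s)).algHom φ
  · by_contra h
    exact hv (conj_span a hli v fun φ => not_not.1 fun h' => h ⟨φ, h'⟩)

/-- By `conj_span` some conjugate of `a` is not proportional to `a`. -/
theorem frame_two (B : Ab D.J 2) : ∃ F : Fr D, F.T 2 = F.T 0 ∧
    ∀ s, (B.X s).map (Rat.cast : ℚ → ℂ) ∈ Submodule.span ℂ (Set.range F.T) := by
  obtain ⟨a, -, h0, h1, h2, h3⟩ := up2_conj B
  set ι := (algebraicClosure ℚ ℂ).val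
  obtain ⟨φ, hφ⟩ := h3 ![-ι (a 1), ι (a 0)] fun h => h0 0 (by simpa using congrFun h 1)
  simp only [Fin.sum_univ_two, cons_val_zero, cons_val_one] at hφ
  obtain ⟨F, hF, hF'⟩ := B.frame ![fun s => ι (a s), fun s => φ (a s), fun s => ι (a s)]
    (fun t s => by fin_cases t <;> apply h1) (fun t => by fin_cases t <;> apply h2)
    (eq_top_iff.2 fun v _ => (Submodule.mem_span_range_iff_exists_fun ℂ).2
      ⟨![(v 0 * φ (a 1) - v 1 * φ (a 0)) / (-ι (a 1) * φ (a 0) + ι (a 0) * φ (a 1)),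
        (v 1 * ι (a 0) - v 0 * ι (a 1)) / (-ι (a 1) * φ (a 0) + ι (a 0) * φ (a 1)), 0], by
        ext s
        simp only [Fin.sum_univ_three, cons_val_zero, cons_val_one, cons_val_two, tail_cons,
          head_cons, Pi.add_apply, Pi.smul_apply, smul_eq_mul, zero_mul, add_zero,
          div_mul_eq_mul_div, ← add_div, div_eq_iff hφ]
        fin_cases s <;> simp <;> ring⟩)
  exact ⟨F, (hF 2).trans (hF 0).symm, hF'⟩

/-- Four sign patterns. -/
theorem four_signs {α β γ : ℂ} (h : ∀ b b' : Bool, (α * sg b + β * sg b' + γ * I) ^ 2 = -1) :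
    γ = 0 ∨ α = 0 ∧ β = 0 := by
  have h1 := h true true
  have h2 := h true false
  have h3 := h false true
  have h4 := h false false
  simp only [sg, if_true, Bool.false_eq_true, if_false] at h1 h2 h3 h4
  refine or_iff_not_imp_left.2 fun hγ => ⟨mul_left_cancel₀ hγ ?_, mul_left_cancel₀ hγ ?_⟩
  · linear_combination (-h1 - h2 + h3 + h4) / 8 + γ * α * I_sq
  · linear_combination (-h1 + h2 - h3 + h4) / 8 + γ * β * I_sq

/-- Take `a`, a conjugate `a'` with `(a 0, a 1)`, `(a' 0, a' 1)` independent, and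
`![0, 0, 1 / √d]`.  If all four weights with `w 2 = true` occur, every conjugate
`α a + β a' + γ ![0, 0, 1 / √d]` of `a` has `γ = 0` (`four_signs`, `e_T`; `α = β = 0` would give
`φ (a 0) = 0`), contradicting `conj_span` for the cross product of `a` and `a'`. -/
theorem frame_three (B : Ab D.J 3) {d : ℚ} (hd : 0 < d) (h : B.X 2 * B.X 2 = -(d • 1)) :
    ∃ F : Fr D, (∃ t : ℂ, F.T 2 = t • (B.X 2).map (Rat.cast : ℚ → ℂ)) ∧
      (∀ s, (B.X s).map (Rat.cast : ℚ → ℂ) ∈ Submodule.span ℂ (Set.range F.T)) ∧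
      ∃ w₀, w₀ 2 = true ∧ F.e w₀ = 0 := by
  obtain ⟨a, -, h0, h1, h2, h3⟩ := up2_conj B
  set ι := (algebraicClosure ℚ ℂ).val
  obtain ⟨φ, hφ⟩ := h3 ![-ι (a 1), ι (a 0), 0] fun h => h0 0 (by simpa using congrFun h 1)
  simp only [Fin.sum_univ_three, cons_val_zero, cons_val_one, cons_val_two, tail_cons, head_cons,
    zero_mul, add_zero] at hφ
  obtain ⟨u, hu⟩ : ∃ u : ℂ, u ^ 2 = (d⁻¹ : ℚ) := IsAlgClosed.exists_pow_nat_eq _ two_pos
  have hd' : (d : ℂ) ≠ 0 := by exact_mod_cast hd.ne'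
  have hu0 : u ≠ 0 := fun h' => by
    rw [h'] at hu
    simp at hu
    exact hd' hu.symm
  have hua : IsAlgebraic ℚ u := IsAlgebraic.of_pow two_pos (hu ▸ isAlgebraic_ratCast ℚ _)
  set c : Fin 3 → Fin 3 → ℂ := ![fun s => ι (a s), fun s => φ (a s), Pi.single 2 u] with hc
  have hsp : Submodule.span ℂ (Set.range c) = ⊤ := by
    refine LinearIndependent.span_eq_top_of_card_eq_finrank ?_ (by simp)
    refine Matrix.linearIndependent_rows_iff_isUnit.2 ((isUnit_iff_isUnit_det (of c)).2 ?_)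
    rw [isUnit_iff_ne_zero, det_fin_three]
    intro h'
    refine mul_ne_zero hφ hu0 ?_
    simp [hc] at h'
    linear_combination h'
  obtain ⟨F, hF, hF'⟩ := B.frame c
    (fun t s => by
      fin_cases t
      · apply h1
      · apply h1
      · by_cases hs : s = 2 <;> simp [hc, hs, hua, isAlgebraic_zero])
    (fun t => by
      fin_cases t
      · apply h2
      · apply h2
      · change B.co (Pi.single 2 u) * B.co (Pi.single 2 u) = -1
        rw [up2_single, smul_mul_smul_comm, ← up2_mul, h, ← sq, hu]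
        ext i j
        by_cases hij : i = j <;> simp [hij, hd']) hsp
  refine ⟨F, ⟨u, (hF 2).trans (up2_single B 2 u)⟩, hF', ?_⟩
  by_contra hno
  obtain ⟨ψ, hψ⟩ := h3 (crossProduct (c 0) (c 1)) fun h' => hφ (by
    have := congrFun h' 2
    simp [hc, cross_apply] at this
    linear_combination this)
  obtain ⟨k, hk⟩ := (Submodule.mem_span_range_iff_exists_fun ℂ).1
    (hsp ▸ Submodule.mem_top : (fun s => ψ (a s)) ∈ Submodule.span ℂ (Set.range c))
  have h4 := h2 ψ
  rw [← hk, up2_co] at h4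
  simp only [← hF, Fin.sum_univ_three] at h4
  have h5 := four_signs (α := k 0) (β := k 1) (γ := k 2) fun b b' => by
    have h6 : F.e ![b, b', true] ≠ 0 := fun h' => hno ⟨_, rfl, h'⟩
    have h7 : F.e ![b, b', true] * (k 0 • F.T 0 + k 1 • F.T 1 + k 2 • F.T 2) =
        (k 0 * sg b + k 1 * sg b' + k 2 * I) • F.e ![b, b', true] := by
      simp [mul_add, F.e_T, smul_smul, add_smul, show sg true = I from rfl]
    have h8 := congrArg (F.e ![b, b', true] * ·) h4
    simp only [← mul_assoc, h7, smul_mul_assoc, smul_smul, mul_neg, mul_one] at h8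
    rw [← neg_one_smul ℂ, ← sq] at h8
    exact smul_left_injective ℂ h6 h8
  rcases h5 with h5 | ⟨h5, h6⟩
  · refine hψ ?_
    have h7 : ∀ s, ψ (a s) = k 0 * c 0 s + k 1 * c 1 s := fun s => by
      simpa [Fin.sum_univ_three, h5] using (congrFun hk s).symm
    simp only [Fin.sum_univ_three, h7, cross_apply, cons_val_zero, cons_val_one, cons_val_two,
      tail_cons, head_cons]
    ring
  · have := congrFun hk 0
    simp [Fin.sum_univ_three, h5, h6, hc] at this
    exact h0 0 (ψ.toRingHom.injective (this.symm.trans (map_zero ψ).symm))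

theorem up2_zero {S K : Matrix n n ℚ} (h : S + K = 0) (hS : S * D.E = D.E * Sᵀ)
    (hK : K * D.E + D.E * Kᵀ = 0) : S = 0 ∧ K = 0 := by
  obtain rfl : K = -S := eq_neg_of_add_eq_zero_right h
  rw [transpose_neg, neg_mul, mul_neg, ← hS, ← neg_add, neg_eq_zero, ← two_smul ℚ,
    smul_eq_zero_iff_right two_ne_zero] at hK
  have : S = 0 := by
    have h1 := congrArg (· * D.E⁻¹) hK
    simpa [mul_assoc, mul_nonsing_inv _ (isUnit_iff_ne_zero.2 D.E_det)] using h1
  simp [this]

theorem up2_comb {r : ℕ} (B : Ab D.J r) (g : Fin r → ℚ) :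
    (∑ s, g s • B.X s) * D.E + D.E * (∑ s, g s • B.X s)ᵀ = 0 := by
  simp only [Finset.sum_mul, Finset.mul_sum, transpose_sum, transpose_smul,
    smul_mul_assoc, mul_smul_comm, ← Finset.sum_add_distrib, ← smul_add, B.skew]
  simp

/-- A matrix both symmetric and skew for `E` vanishes. -/
theorem li_two [Nonempty n] (B : Ab D.J 2) : LinearIndependent ℚ ![1, B.X 0, B.X 1] := by
  refine Fintype.linearIndependent_iff.2 fun g hg => ?_
  obtain ⟨h1, h2⟩ := up2_zero (S := g 0 • 1) (K := ∑ s, g s.succ • B.X s)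
    (by simpa [Fin.sum_univ_succ] using hg) (by simp) (up2_comb B _)
  have h3 := Fintype.linearIndependent_iff.1 B.liX _ h2
  exact Fin.cases (by simpa using h1) h3

/-- Separate the skew part; multiply the symmetric part by `X 2`. -/
theorem li_three (B : Ab D.J 3) {d : ℚ} (hd : 0 < d) (h : B.X 2 * B.X 2 = -(d • 1)) :
    LinearIndependent ℚ ![1, B.X 0 * B.X 2, B.X 1 * B.X 2, B.X 0, B.X 1, B.X 2] := by
  refine Fintype.linearIndependent_iff.2 fun g hg => ?_
  have hs : ∀ s, B.X s * B.X 2 * D.E = D.E * (B.X s * B.X 2)ᵀ := fun s => by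
    rw [mul_assoc, eq_neg_of_add_eq_zero_left (B.skew 2), mul_neg, ← mul_assoc,
      eq_neg_of_add_eq_zero_left (B.skew s), B.comm s 2, transpose_mul, neg_mul, neg_neg, mul_assoc]
  obtain ⟨h1, h2⟩ := up2_zero (S := g 0 • 1 + g 1 • (B.X 0 * B.X 2) + g 2 • (B.X 1 * B.X 2))
    (K := ∑ s, ![g 3, g 4, g 5] s • B.X s)
    (by simpa [Fin.sum_univ_succ, add_assoc] using hg)
    (by simp only [add_mul, mul_add, smul_mul_assoc, mul_smul_comm, transpose_add, transpose_smul,
      hs, transpose_one, one_mul, mul_one]) (up2_comb B _)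
  have h3 := Fintype.linearIndependent_iff.1 B.liX _ h2
  have h4 := Fintype.linearIndependent_iff.1 B.liX ![-(g 1 * d), -(g 2 * d), g 0] (by
    have := congrArg (· * B.X 2) h1
    simp only [add_mul, smul_mul_assoc, mul_assoc, h, one_mul, mul_neg, mul_smul_comm, mul_one,
      smul_neg, smul_smul, zero_mul] at this
    rw [← this]
    simp [Fin.sum_univ_three]
    abel)
  intro i
  fin_cases i
  · exact h4 2
  · simpa [hd.ne'] using h4 0
  · simpa [hd.ne'] using h4 1
  · exact h3 0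
  · exact h3 1
  · exact h3 2

end GPC73

end

section

/-! From abelian varieties to linear algebra. -/

open Matrix Module

namespace GPC73

variable {g N : ℕ} (A : AbVar g N)

theorem J_spec (j : Fin (2 * g)) : Complex.I • A.ω j = ∑ k, A.J j k • A.ω k := by
  exact (A.ω.sum_repr _).symm

/-- `exists_basis`, `pol` (its `J` is `A.J`), `ec_det`, `cl_iff`, `end_alg`, `u2_alg`, all
transposed. -/
theorem exists_hd : ∃ D : HD (Fin (2 * g)), D.J = A.J ∧ ∀ i, D.Pᵀ i ∈ A.dR := by
  obtain ⟨Q, hQ, hr⟩ := exists_basis A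
  obtain ⟨E0, J, h1, hJ, h2, -⟩ := pol A
  have hsum : ∀ (X Y : Matrix (Fin (2 * g)) (Fin (2 * g)) ℝ),
      (∀ j, ∑ k, X j k • A.ω k = ∑ k, Y j k • A.ω k) → X = Y := by
    intro X Y h
    ext j k
    have := congrArg (fun z => A.ω.repr z k) (h j)
    simpa [Finsupp.single_apply] using this
  have e0 : J = A.J := hsum _ _ fun j => (hJ j).symm.trans (J_spec A j)
  have hJJ : J * J = -1 := by
    refine hsum _ _ fun j => ?_
    have k1 : ∑ k, (J * J) j k • A.ω k = ∑ k, J j k • ∑ l, J k l • A.ω l := by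
      simp only [Finset.smul_sum, smul_smul, Matrix.mul_apply, Finset.sum_smul]
      exact Finset.sum_comm
    have k2 : ∑ k, J j k • ∑ l, J k l • A.ω l = Complex.I • Complex.I • A.ω j := by
      rw [hJ j, Finset.smul_sum]
      exact Finset.sum_congr rfl fun k _ => by rw [← hJ k, smul_comm]
    rw [k1, k2, smul_smul, Complex.I_mul_I]
    simp [Matrix.one_apply]
  set E : Matrix (Fin (2 * g)) (Fin (2 * g)) ℚ := E0.map Int.cast with hE0
  have e1 : A.Ec = (2 * Real.pi * Complex.I : ℂ) • E.map (Rat.cast : ℚ → ℂ) := by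
    ext j k
    simp [h1, hE0]
  have e2 : E0.map (Int.cast : ℤ → ℝ) = E.map (Rat.cast : ℚ → ℝ) := by
    ext j k
    simp [hE0]
  rw [e2] at h2
  refine ⟨⟨J, E, Qᵀ, 2 * Real.pi * Complex.I, hJJ, fun h => ec_det A ?_, ?_,
    by rwa [det_transpose], Complex.two_pi_I_ne_zero, fun φ hφ i j => ?_, fun i j => ?_⟩,
    e0, fun i => hr i⟩
  · rw [e1, det_smul, ← Rat.cast_det, h, Rat.cast_zero, mul_zero]
  · have := congrArg (J * ·) h2
    simp only [← Matrix.mul_assoc, hJJ] at this
    rw [← this]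
    simp
  · obtain ⟨α, hα⟩ := (cl_iff A hJ _).2 hφ
    have := end_alg hQ hr α φ hα j i
    rwa [← transpose_apply (Q * _ * Q⁻¹), transpose_mul, transpose_mul, transpose_transpose,
      transpose_nonsing_inv, ← Matrix.mul_assoc] at this
  · have := u2_alg hQ hr i j
    rwa [e1, ← transpose_transpose Q⁻¹, transpose_nonsing_inv Q, transpose_transpose,
      ← transpose_nonsing_inv Q, transpose_nonsing_inv Q] at this

/-- The real linear form with the values `v` on the periods. -/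
noncomputable def linkL (v : Fin (2 * g) → ℝ) : (Fin g → ℂ) →ₗ[ℝ] ℝ := A.ω.constr ℝ v

theorem link_L_sum (v c : Fin (2 * g) → ℝ) : linkL A v (∑ k, c k • A.ω k) = ∑ k, c k * v k := by
  simp [linkL]

theorem link_L_zero {U : Submodule ℂ (Fin g → ℂ)} (hU : A.IsSub U) {v : Fin (2 * g) → ℚ}
    (hv : v ∈ A.ann U) {u : Fin g → ℂ} (hu : u ∈ U) : linkL A (fun k => (v k : ℝ)) u = 0 := by
  have : Submodule.span ℝ {x | x ∈ U ∧ ∃ n, x = A.per n} ≤
      LinearMap.ker (linkL A fun k => (v k : ℝ)) := by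
    refine Submodule.span_le.2 ?_
    rintro x ⟨hx, n, rfl⟩
    have h1 : A.per n = ∑ k, (n k : ℝ) • A.ω k :=
      Finset.sum_congr rfl fun k _ => (Int.cast_smul_eq_zsmul ℝ _ _).symm
    have h2 : ∑ j, (n j : ℚ) * v j = 0 := hv n hx
    change linkL A _ _ = 0
    rw [h1, link_L_sum]
    exact_mod_cast h2
  exact this (hU u hu)

variable {A}

/-- For `per n ∈ U` the vector `I • per n` is a real combination of periods in `U`, so
`∑ s, a s * (n ⬝ᵥ X s *ᵥ v) = 0`. -/
theorem ann_stable {r : ℕ} (B : Ab A.J r) {U : Submodule ℂ (Fin g → ℂ)} (hU : A.IsSub U)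
    {v : Fin (2 * g) → ℚ} (hv : v ∈ A.ann U) (s : Fin r) : B.X s *ᵥ v ∈ A.ann U := by
  intro n hn
  have h1 := link_L_zero A hU hv (U.smul_mem Complex.I hn)
  have h2 : Complex.I • A.per n = ∑ k, (∑ j, (n j : ℝ) * A.J j k) • A.ω k := by
    simp only [AbVar.per, Finset.smul_sum, Finset.sum_smul]
    rw [Finset.sum_comm]
    refine Finset.sum_congr rfl fun j _ => ?_
    rw [smul_comm, J_spec, Finset.smul_sum]
    exact Finset.sum_congr rfl fun k _ => by rw [mul_smul, Int.cast_smul_eq_zsmul]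
  rw [h2, link_L_sum] at h1
  have h3 : ∑ t, (∑ j, (n j : ℚ) * (B.X t *ᵥ v) j) • B.a t = 0 := by
    rw [← h1]
    have h4 : ∀ j k, A.J j k = ∑ t, B.a t * (B.X t j k : ℝ) := fun j k => by
      conv_lhs => rw [B.sum]
      simp [Matrix.sum_apply]
    simp only [h4, Rat.smul_def, mulVec, dotProduct, Finset.mul_sum, Finset.sum_mul]
    push_cast
    simp only [Finset.sum_mul]
    rw [Finset.sum_comm]
    conv_rhs => rw [Finset.sum_comm]
    refine Finset.sum_congr rfl fun j _ => ?_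
    rw [Finset.sum_comm]
    exact Finset.sum_congr rfl fun k _ => Finset.sum_congr rfl fun t _ => by ring
  exact Fintype.linearIndependent_iff.1 B.lia _ h3 s

/-- The integer vectors `n` with `per n ∈ U` span a space of dimension at least
`finrank ℝ U = 2 * finrank ℂ U` (`finrank_real_of_complex`). -/
theorem ann_rank {U : Submodule ℂ (Fin g → ℂ)} (hU : A.IsSub U) :
    finrank ℚ (A.ann U) + 2 * finrank ℂ U ≤ 2 * g := by
  set b := Module.finBasis ℚ (A.ann U)
  have h1 : LinearIndependent ℚ fun i => (b i : Fin (2 * g) → ℚ) :=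
    b.linearIndependent.map' (A.ann U).subtype (Submodule.ker_subtype _)
  have h2 : LinearIndependent ℝ fun i => algebraMap ℚ ℝ ∘ (b i : Fin (2 * g) → ℚ) :=
    linearIndependent_algebraMap_comp_iff.2 h1
  set W := (U.restrictScalars ℝ).dualAnnihilator
  let f : Fin (finrank ℚ (A.ann U)) → W := fun i =>
    ⟨linkL A fun k => ((b i : Fin (2 * g) → ℚ) k : ℝ),
      (Submodule.mem_dualAnnihilator _).2 fun u hu => link_L_zero A hU (b i).2 hu⟩
  have h3 : LinearIndependent ℝ f := by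
    refine LinearIndependent.of_comp W.subtype ?_
    exact h2.map' (A.ω.constr ℝ).toLinearMap (LinearEquiv.ker _)
  have h4 := h3.fintype_card_le_finrank
  have h5 := Subspace.finrank_add_finrank_dualAnnihilator_eq (U.restrictScalars ℝ)
  have h6 : finrank ℝ (U.restrictScalars ℝ) = 2 * finrank ℂ U := finrank_real_of_complex U
  rw [finrank_eq_card_basis A.ω, h6] at h5
  simp only [Fintype.card_fin] at h4 h5
  change _ + finrank ℝ W = _ at h5
  omega

/-- `two_le` for the column space of `Y`: the columns of `Y P = P (P⁻¹ Y P)`. -/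
theorem link {M : Set (Matrix (Fin (2 * g)) (Fin (2 * g)) ℚ)}
    {Y : Matrix (Fin (2 * g)) (Fin (2 * g)) ℚ} (hY : Y ∈ M) (h0 : Y ≠ 0)
    (hU : ∀ U : Submodule ℂ (Fin g → ℂ), U ≠ ⊤ → A.IsSub U →
      finrank ℚ (LinearMap.range Y.mulVecLin ⊓ A.ann U : Submodule ℚ _) + finrank ℂ U < g) :
    2 ≤ Algebra.trdeg ℚ (A.perEnd M) := by
  obtain ⟨D, -, hD⟩ := exists_hd A
  set P := D.P
  have hP : P.det ≠ 0 := D.P_det
  set Z := Y.map (Rat.cast : ℚ → ℂ) with hZ
  refine two_le A _ (fun h => h0 ?_) hU _ ?_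
  · rw [LinearMap.range_eq_bot] at h
    exact Matrix.toLin'.injective (by simpa [Matrix.toLin'_apply'] using h)
  rintro _ ⟨u, rfl⟩
  have h1 : (fun j => ((Y.mulVecLin u j : ℚ) : ℂ)) =
      ∑ i, (P⁻¹ *ᵥ fun k => (u k : ℂ)) i • (Z * P)ᵀ i := by
    have h2 : ∀ (B : Matrix (Fin (2 * g)) (Fin (2 * g)) ℂ) (w : Fin (2 * g) → ℂ),
        ∑ i, w i • Bᵀ i = B *ᵥ w := fun B w => by
      funext j
      simp [mulVec, dotProduct, mul_comm]
    rw [h2, mulVec_mulVec, Matrix.mul_assoc, mul_nonsing_inv _ hP.isUnit, Matrix.mul_one]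
    funext j
    simp [hZ, mulVec, dotProduct]
  rw [h1]
  refine Submodule.sum_mem _ fun i _ => Submodule.smul_mem _ _ (Submodule.subset_span ⟨?_, ?_⟩)
  · have h2 : (Z * P)ᵀ i = ∑ j, (⟨(P⁻¹ * Z * P) j i, IntermediateField.subset_adjoin _ _
        ⟨P, hP, hD, Y, hY, j, i, rfl⟩⟩ : A.perEnd M) • Pᵀ j := by
      have h3 : Z * P = P * (P⁻¹ * Z * P) := by
        rw [Matrix.mul_assoc, mul_nonsing_inv_cancel_left _ _ hP.isUnit]
      funext k
      conv_lhs => rw [h3]
      simp [Matrix.mul_apply (M := P), IntermediateField.smul_def, mul_comm]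
    rw [h2]
    exact Submodule.sum_mem _ fun j _ => Submodule.smul_mem _ _ (Submodule.subset_span (hD j))
  · have h2 : (Z * P)ᵀ i = ∑ k, P k i • fun j => ((Y j k : ℚ) : ℂ) := by
      funext j
      simp [hZ, Matrix.mul_apply, mul_comm]
    rw [h2]
    refine Submodule.sum_mem _ fun k _ => Submodule.smul_mem _ _ (Submodule.subset_span
      ⟨Y.mulVecLin (Pi.single k 1), ⟨_, rfl⟩, ?_⟩)
    funext j
    simp

/-- Another basis is `P * C` with `C` algebraic (`dR_alg`, `Al.inv`); `GPC96.trdeg_le_two`. -/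
theorem upper {M : Set (Matrix (Fin (2 * g)) (Fin (2 * g)) ℚ)}
    {P : Matrix (Fin (2 * g)) (Fin (2 * g)) ℂ} (hP : P.det ≠ 0) (hc : ∀ i, Pᵀ i ∈ A.dR) {x y : ℂ}
    (h : ∀ Y ∈ M, ∀ i j, IsAlgebraic (IntermediateField.adjoin ℚ {x, y})
      ((P⁻¹ * Y.map (Rat.cast : ℚ → ℂ) * P) i j)) : Algebra.trdeg ℚ (A.perEnd M) ≤ 2 := by
  refine GPC96.trdeg_le_two _ x y ?_
  rintro _ ⟨P', hP', hc', Y, hY, i, j, rfl⟩
  set C := P⁻¹ * P' with hC
  have h1 : Al C := fun k l => by
    have := dR_alg (A := A) (P := Pᵀ) (by rwa [det_transpose]) hc (hc' l) k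
    rwa [← transpose_nonsing_inv, vecMul_transpose] at this
  have h2 : P' = P * C := by rw [hC, mul_nonsing_inv_cancel_left _ _ hP.isUnit]
  have h3 : P'⁻¹ * Y.map (Rat.cast : ℚ → ℂ) * P' =
      C⁻¹ * (P⁻¹ * Y.map (Rat.cast : ℚ → ℂ) * P) * C := by
    rw [h2, Matrix.mul_inv_rev]
    simp only [Matrix.mul_assoc]
  have h4 : ∀ {M : Matrix (Fin (2 * g)) (Fin (2 * g)) ℂ}, Al M → ∀ k l,
      M k l ∈ algebraicClosure (IntermediateField.adjoin ℚ {x, y}) ℂ := fun hM k l =>
    mem_algebraicClosure_iff.2 ((hM k l).tower_top _)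
  rw [h3, ← mem_algebraicClosure_iff]
  simp only [Matrix.mul_apply (N := C), Matrix.mul_apply (M := C⁻¹)]
  exact sum_mem fun k _ => mul_mem (sum_mem fun l _ => mul_mem (h4 h1.inv _ _)
    (mem_algebraicClosure_iff.2 (h Y hY _ _))) (h4 h1 _ _)

end GPC73

end

section

/-! The period conjecture for endomorphism motives with Mumford-Tate group of dimension two. -/

open Matrix Module

namespace GPC73

variable {g N : ℕ} {A : AbVar g N}

theorem fin_card {ι : Type} [Fintype ι] {v : ι → Fin (2 * g) → ℚ} (hv : LinearIndependent ℚ v)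
    {U : Submodule ℂ (Fin g → ℂ)} (hU : A.IsSub U) (h : ∀ i, v i ∈ A.ann U) :
    Fintype.card ι + 2 * finrank ℂ U ≤ 2 * g := by
  have h1 := ann_rank hU
  have h2 := Submodule.finrank_mono (Submodule.span_le.2 (by rintro _ ⟨i, rfl⟩; exact h i) :
    Submodule.span ℚ (Set.range v) ≤ A.ann U)
  rw [finrank_span_eq_card hv] at h2
  omega

/-- The rank condition for a subspace `V` of dimension `≤ r`. -/
theorem fin_cond {V : Submodule ℚ (Fin (2 * g) → ℚ)} {r : ℕ} (hr : finrank ℚ V ≤ r)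
    {U : Submodule ℂ (Fin g → ℂ)} (hU : U ≠ ⊤)
    (h : ∀ x ∈ V, x ∈ A.ann U → x ≠ 0 → 2 * r + 1 + 2 * finrank ℂ U ≤ 2 * g) :
    finrank ℚ (V ⊓ A.ann U : Submodule ℚ _) + finrank ℂ U < g := by
  by_cases h0 : V ⊓ A.ann U = ⊥
  · have := Submodule.finrank_lt hU
    rw [Module.finrank_fin_fun] at this
    rw [h0, finrank_bot]
    omega
  · obtain ⟨x, hx, hx0⟩ := (Submodule.ne_bot_iff _).1 h0
    have h1 := h x hx.1 hx.2 hx0
    have h2 := Submodule.finrank_mono (inf_le_left : V ⊓ A.ann U ≤ V)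
    omega

theorem fin_JJ (D : HD (Fin (2 * g))) (h : D.J = A.J) : A.J * A.J = -1 := h ▸ D.JJ

theorem mt_two (h : finrank ℚ (hull A.J) = 2) : Algebra.trdeg ℚ (A.perEnd Set.univ) = 2 := by
  obtain ⟨D, hD, hP⟩ := exists_hd A
  obtain ⟨B⟩ := ab_two D.JJ (hD ▸ h)
  obtain ⟨F, hF, hX⟩ := frame_two B
  refine le_antisymm ?_ ?_
  · obtain ⟨x, y, hxy⟩ := F.up_two hF
    exact upper D.P_det hP fun Y _ => hxy _ (al_rat Y)
  · obtain ⟨v, hv⟩ := F.exists_vec
    have : Nonempty (Fin (2 * g)) := by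
      by_contra hn
      rw [not_nonempty_iff] at hn
      exact B.liX.ne_zero 0 (Subsingleton.elim _ _)
    have hi := hv _ (li_two B) fun i => by
      fin_cases i
      · simpa using F.dg_one
      · exact F.dg_span (hX 0)
      · exact F.dg_span (hX 1)
    have hv0 : v ≠ 0 := by simpa using hi.ne_zero 0
    have hle : LinearMap.range (vecMulVec v v).mulVecLin ≤ Submodule.span ℚ {v} := by
      rintro _ ⟨x, rfl⟩
      rw [mulVecLin_apply, vecMulVec_mulVec]
      exact Submodule.mem_span_singleton.2 ⟨v ⬝ᵥ x, by simp⟩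
    refine link (Set.mem_univ (vecMulVec v v)) (by simp [hv0]) fun U hU hS =>
      fin_cond (r := 1) ((Submodule.finrank_mono hle).trans (finrank_span_singleton hv0).le) hU
        fun x hx hxU hx0 => ?_
    obtain ⟨c, rfl⟩ := Submodule.mem_span_singleton.1 (hle hx)
    have hvU : v ∈ A.ann U := ((A.ann U).smul_mem_iff (left_ne_zero_of_smul hx0)).1 hxU
    generalize D.J = J at hD B hi
    subst hD
    simpa using fin_card hi hS fun i => by
      fin_cases i
      · simpa using hvU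
      · exact ann_stable B hS hvU 0
      · exact ann_stable B hS hvU 1

theorem mt_three (h : finrank ℚ (hull A.J) = 3) {Δ : Matrix (Fin (2 * g)) (Fin (2 * g)) ℚ}
    (hΔ : Δ ∈ hull A.J) (hc : Δ.map (Rat.cast : ℚ → ℝ) * A.J = A.J * Δ.map (Rat.cast : ℚ → ℝ))
    {d : ℚ} (hd : 0 < d) (hs : Δ * Δ = -(d • 1)) :
    Algebra.trdeg ℚ (A.perEnd {Y | Y * Δ = Δ * Y}) = 2 := by
  obtain ⟨D, hD, hP⟩ := exists_hd A
  have hn : Nonempty (Fin (2 * g)) := by
    by_contra hn
    rw [not_nonempty_iff] at hn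
    rw [finrank_zero_of_subsingleton] at h
    omega
  have h0 : Δ ≠ 0 := fun h0 => by
    obtain ⟨i⟩ := hn
    have := congrFun (congrFun hs i) i
    simp [h0, hd.ne'] at this
  obtain ⟨B, hB⟩ := ab_three D.JJ (hD ▸ h) (hD ▸ hΔ) h0 (hD ▸ hc)
  subst hB
  obtain ⟨F, ⟨t, hF⟩, hX, w₀, hw, hw'⟩ := frame_three B hd hs
  refine le_antisymm ?_ ?_
  · obtain ⟨x, y, hxy⟩ := F.up_three hw hw'
    refine upper D.P_det hP fun Y hY => hxy _ (al_rat Y) ?_
    have := congrArg (fun M : Matrix _ _ ℚ => M.map (Rat.castHom ℂ)) hY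
    rw [Matrix.map_mul, Matrix.map_mul, Rat.coe_castHom] at this
    rw [hF, Matrix.mul_smul, Matrix.smul_mul, this]
  · obtain ⟨v, hv⟩ := F.exists_vec
    have hm : ∀ s, F.Dg ((B.X s * B.X 2).map (Rat.cast : ℚ → ℂ)) := fun s => by
      have := (F.dg_span (hX s)).mul (F.dg_span (hX 2))
      rwa [← Rat.coe_castHom, ← Matrix.map_mul] at this
    have hi := hv _ (li_three B hd hs) fun i => by
      fin_cases i
      · simpa using F.dg_one
      · exact hm 0
      · exact hm 1
      · exact F.dg_span (hX 0)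
      · exact F.dg_span (hX 1)
      · exact F.dg_span (hX 2)
    set Δ := B.X 2 with hΔ'
    set Y := vecMulVec v v - d⁻¹ • (Δ * vecMulVec v v * Δ) with hY
    have hv0 : v ≠ 0 := by simpa using hi.ne_zero 0
    have hYx : ∀ x, Y *ᵥ x = (v ⬝ᵥ x) • v + (-(d⁻¹ * (v ⬝ᵥ Δ *ᵥ x))) • Δ *ᵥ v := fun x => by
      rw [hY, sub_mulVec, smul_mulVec, ← mulVec_mulVec, ← mulVec_mulVec, vecMulVec_mulVec,
        vecMulVec_mulVec]
      simp [mulVec_smul, smul_smul, sub_eq_add_neg]
    have hp : LinearIndependent ℚ ![v, Δ *ᵥ v] := by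
      have := hi.comp ![0, 5] (by decide)
      convert this using 1
      ext1 i
      fin_cases i
      · simp
      · rfl
    have hle : LinearMap.range Y.mulVecLin ≤ Submodule.span ℚ (Set.range ![v, Δ *ᵥ v]) := by
      rintro _ ⟨x, rfl⟩
      rw [mulVecLin_apply, hYx]
      exact Submodule.add_mem _ (Submodule.smul_mem _ _ (Submodule.subset_span ⟨0, rfl⟩))
        (Submodule.smul_mem _ _ (Submodule.subset_span ⟨1, rfl⟩))
    have hY0 : Y ≠ 0 := fun h0 => by
      have h1 := hYx v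
      rw [h0, zero_mulVec] at h1
      exact hv0 (dotProduct_self_eq_zero.1 (LinearIndependent.pair_iff.1 hp _ _ h1.symm).1)
    have hYc : Y * Δ = Δ * Y := by
      have e1 : Δ * vecMulVec v v * Δ * Δ = -(d • (Δ * vecMulVec v v)) := by
        rw [Matrix.mul_assoc, hs]; simp
      have e2 : Δ * (Δ * vecMulVec v v * Δ) = -(d • (vecMulVec v v * Δ)) := by
        rw [← Matrix.mul_assoc, ← Matrix.mul_assoc, hs]; simp
      rw [hY, Matrix.sub_mul, Matrix.mul_sub, Matrix.smul_mul, Matrix.mul_smul, e1, e2, smul_neg,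
        smul_neg, smul_smul, smul_smul, inv_mul_cancel₀ hd.ne', one_smul, one_smul]
      abel
    refine link (M := {Y | Y * Δ = Δ * Y}) hYc hY0 fun U hU hS =>
      fin_cond (r := 2) ((Submodule.finrank_mono hle).trans (finrank_span_eq_card hp).le) hU
        fun x hx hxU hx0 => ?_
    obtain ⟨c, rfl⟩ := (Submodule.mem_span_range_iff_exists_fun ℚ).1 (hle hx)
    simp only [Fin.sum_univ_two, cons_val_zero, cons_val_one] at hxU hx0
    have hst : ∀ s, ∀ x ∈ A.ann U, B.X s *ᵥ x ∈ A.ann U := by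
      clear_value Y Δ
      generalize D.J = J at hD B
      subst hD
      exact fun s x hx => ann_stable B hS hx s
    have hvU : v ∈ A.ann U := by
      have h1 := (A.ann U).sub_mem ((A.ann U).smul_mem (c 0) hxU)
        ((A.ann U).smul_mem (c 1) (hst 2 _ hxU))
      have h2 : c 0 • (c 0 • v + c 1 • Δ *ᵥ v) - c 1 • B.X 2 *ᵥ (c 0 • v + c 1 • Δ *ᵥ v) =
          (c 0 ^ 2 + d * c 1 ^ 2) • v := by
        rw [← hΔ', mulVec_add, mulVec_smul, mulVec_smul, mulVec_mulVec, hs, neg_mulVec,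
          smul_mulVec, one_mulVec]
        module
      rw [h2] at h1
      refine ((A.ann U).smul_mem_iff fun h3 => hx0 ?_).1 h1
      have h4 : c 0 = 0 := by nlinarith [sq_nonneg (c 0), sq_nonneg (c 1)]
      have h5 : c 1 = 0 := by
        rw [h4] at h3
        simpa [hd.ne'] using h3
      simp [h4, h5]
    have := fin_card hi hS fun i => by
      fin_cases i
      · simpa using hvU
      · exact (mulVec_mulVec v (B.X 0) Δ) ▸ hst 0 _ (hst 2 _ hvU)
      · exact (mulVec_mulVec v (B.X 1) Δ) ▸ hst 1 _ (hst 2 _ hvU)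
      · exact hst 0 _ hvU
      · exact hst 1 _ hvU
      · exact hst 2 _ hvU
    simp only [Fintype.card_fin] at this
    omega

/-- A nonzero endomorphism in the hull with scalar square generates an imaginary quadratic field. -/
theorem fin_pos {Δ : Matrix (Fin (2 * g)) (Fin (2 * g)) ℚ} (hΔ : Δ ∈ hull A.J) (h0 : Δ ≠ 0)
    (hc : Δ.map (Rat.cast : ℚ → ℝ) * A.J = A.J * Δ.map (Rat.cast : ℚ → ℝ)) {d : ℚ}
    (hs : Δ * Δ = -(d • 1)) : 0 < d := by
  obtain ⟨E, J, hE, hJ, hJE, hpos⟩ := pol A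
  obtain rfl : J = A.J := by
    ext j k
    have := congrArg (fun x => A.ω.repr x k) (hJ j)
    simp only [map_sum, map_smul, Module.Basis.repr_self, Finsupp.coe_finsetSum, Finset.sum_apply,
      Finsupp.smul_apply, Finsupp.single_apply, smul_eq_mul, mul_ite, mul_one, mul_zero,
      Finset.sum_ite_eq', Finset.mem_univ, if_true] at this
    exact this.symm
  obtain ⟨D, hD, -⟩ := exists_hd A
  have hJJ : A.J * A.J = -1 := hD ▸ D.JJ
  set Q : Matrix _ _ ℚ := E.map (Int.cast : ℤ → ℚ) with hQ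
  set R : Matrix _ _ ℝ := E.map (Int.cast : ℤ → ℝ) with hR
  have hQR : Q.map (Rat.cast : ℚ → ℝ) = R := by ext i j; simp [hQ, hR]
  have h1 : A.J * R + R * A.Jᵀ = 0 := by
    conv_lhs => rw [← hJE]
    rw [← Matrix.mul_assoc, ← Matrix.mul_assoc, hJJ, hJE]
    simp
  let L : Submodule ℚ (Matrix (Fin (2 * g)) (Fin (2 * g)) ℚ) :=
    { carrier := {X | X * Q + Q * Xᵀ = 0}
      add_mem' := fun {X Y} hX hY => by
        have := congrArg₂ (· + ·) hX hY
        simp only [Set.mem_ofPred_eq, transpose_add, Matrix.add_mul, Matrix.mul_add] at this ⊢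
        rw [← zero_add (0 : Matrix _ _ ℚ), ← this]
        abel
      zero_mem' := by simp
      smul_mem' := fun c X hX => by
        have := congrArg (c • ·) hX
        simpa using this }
  have h2 : Δ * Q + Q * Δᵀ = 0 := (sInf_le (a := L) ⟨fun X hX Y hY => by
      have e1 : X * Q = -(Q * Xᵀ) := eq_neg_of_add_eq_zero_left hX
      have e2 : Y * Q = -(Q * Yᵀ) := eq_neg_of_add_eq_zero_left hY
      show (X * Y - Y * X) * Q + Q * (X * Y - Y * X)ᵀ = 0
      rw [Matrix.sub_mul, Matrix.mul_assoc, Matrix.mul_assoc, e1, e2, Matrix.mul_neg,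
        Matrix.mul_neg, ← Matrix.mul_assoc, ← Matrix.mul_assoc, e1, e2]
      simp [Matrix.mul_assoc, Matrix.mul_sub],
    (mem_span_iff _ _).2 fun l => by
      show A.J.map l * Q + Q * (A.J.map l)ᵀ = 0
      ext i j
      have := congrArg l (congrFun (congrFun h1 i) j)
      rw [← hQR] at this
      simp only [Matrix.add_apply, Matrix.mul_apply, map_add, map_sum, map_apply,
        transpose_apply, Matrix.zero_apply, map_zero] at this ⊢
      rw [← this]
      congr 1 <;> refine Finset.sum_congr rfl fun k _ => ?_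
      · rw [mul_comm (A.J i k), ← Rat.smul_def, map_smul, smul_eq_mul, mul_comm]
      · rw [← Rat.smul_def, map_smul, smul_eq_mul]⟩ : hull A.J ≤ L) hΔ
  set T : Matrix _ _ ℝ := Δ.map (Rat.cast : ℚ → ℝ) with hT
  have h3 : R * Tᵀ = -(T * R) := by
    have := congrArg (fun M : Matrix _ _ ℚ => M.map (Rat.castHom ℝ)) h2
    rw [Matrix.map_add _ (map_add _), Matrix.map_mul, Matrix.map_mul, transpose_map,
      Rat.coe_castHom, hQR, Matrix.map_zero _ Rat.cast_zero] at this
    exact eq_neg_of_add_eq_zero_right this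
  have h4 : T * T = -((d : ℝ) • 1) := by
    have := congrArg (fun M : Matrix _ _ ℚ => M.map (Rat.castHom ℝ)) hs
    rw [Matrix.map_mul, Rat.coe_castHom] at this
    rw [this]
    ext i j
    by_cases h : i = j <;> simp [h]
  obtain ⟨i, hi⟩ := Function.ne_iff.1 h0
  have hu : Pi.single i (1 : ℝ) ᵥ* T ≠ 0 := fun h => hi (funext fun j => by
    have := congrFun h j
    simpa [hT] using this)
  have hu' : (Pi.single i 1 : Fin (2 * g) → ℝ) ≠ 0 := fun h => hu (by rw [h, zero_vecMul])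
  have h5 := hpos _ hu
  have h6 := hpos _ hu'
  generalize (Pi.single i 1 : Fin (2 * g) → ℝ) = u at h5 h6
  have h7 : (u ᵥ* T ᵥ* R) ⬝ᵥ (u ᵥ* T ᵥ* A.J) = d * ((u ᵥ* R) ⬝ᵥ (u ᵥ* A.J)) := by
    rw [vecMul_vecMul u T A.J, hc, ← vecMul_vecMul, ← mulVec_transpose T (u ᵥ* A.J),
      dotProduct_mulVec, vecMul_vecMul, vecMul_vecMul, h3, Matrix.mul_neg, ← Matrix.mul_assoc, h4]
    simp [vecMul_smul]
  rw [h7] at h5
  exact_mod_cast (mul_pos_iff_of_pos_right h6).1 h5

theorem mt_end {Δ : Matrix (Fin (2 * g)) (Fin (2 * g)) ℚ} (hΔ : Δ ∈ hull A.J)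
    (hc : Δ.map (Rat.cast : ℚ → ℝ) * A.J = A.J * Δ.map (Rat.cast : ℚ → ℝ)) {d : ℚ}
    (hs : Δ * Δ = -(d • 1))
    (h : finrank ℚ (hull A.J) = 2 + finrank ℚ (Submodule.span ℚ {Δ})) :
    Algebra.trdeg ℚ (A.perEnd {Y | Y * Δ = Δ * Y}) = 2 := by
  by_cases h0 : Δ = 0
  · subst h0
    rw [Submodule.span_zero_singleton, finrank_bot] at h
    rw [Set.eq_univ_of_forall (s := {Y | Y * 0 = 0 * Y}) fun Y => by simp]
    exact mt_two h
  · rw [finrank_span_singleton h0] at h
    exact mt_three h hΔ hc (fin_pos hΔ h0 hc hs) hs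

end GPC73

end

end
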