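import Pool.Agent.MP_d171e3_nt.Dim
import Pool.Agent.MP_57341d_ag.Mg.H96_GenSpan
import Pool.Agent.MP_57341d_ag.Mg.H73_Gaga

-- part MP_57341d_ag.H73.Core
section

section

/-! Transcendence bases among the variables and an upper bound for Hilbert functions. -/

open MvPolynomial Pool.Agent.MP_d171e3_nt

namespace GPC73

variable {σ : Type} [Fintype σ]

/-- The subalgebra generated by the variables in `S`. -/
noncomputable def Bs (S : Finset σ) : Subalgebra ℂ (MvPolynomial σ ℂ) :=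
  Algebra.adjoin ℂ ((fun i => X i) '' (S : Set σ))

/-- `S` indexes a transcendence basis of `P / p`. -/
structure IsBas (p : Ideal (MvPolynomial σ ℂ)) (S : Finset σ) : Prop where
  inj : ∀ b ∈ Bs S, b ∈ p → b = 0
  alg : ∀ f : MvPolynomial σ ℂ, ∃ q : Polynomial (Bs S), q ≠ 0 ∧ Polynomial.aeval f q ∈ p

theorem le_dm (p : Ideal (MvPolynomial σ ℂ)) [p.IsPrime] {κ : Type} [Fintype κ]
    (y : κ → MvPolynomial σ ℂ) (h : ∀ Q : MvPolynomial κ ℂ, aeval y Q ∈ p → Q = 0) :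
    Fintype.card κ ≤ dm p := by
  refine card_le_dm (x := fun i => Ideal.Quotient.mk p (y i)) ?_
  rw [algebraicIndependent_iff]
  intro Q hQ
  refine h Q (Ideal.Quotient.eq_zero_iff_mem.mp ?_)
  rw [← hQ]
  exact comp_aeval_apply _ (Ideal.Quotient.mkₐ ℂ p) Q

omit [Fintype σ] in
theorem hilb_Bs_eq (S : Finset σ) : Bs S = (aeval (fun i : S => (X i : MvPolynomial σ ℂ)) :
    MvPolynomial S ℂ →ₐ[ℂ] MvPolynomial σ ℂ).range := by
  rw [← Algebra.adjoin_range_eq_range_aeval, Bs, Set.image_eq_range]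
  rfl

omit [Fintype σ] in
theorem hilb_mk_aeval (p : Ideal (MvPolynomial σ ℂ)) (S : Finset σ) (F : MvPolynomial S ℂ) :
    Ideal.Quotient.mk p (aeval (fun i : S => (X i : MvPolynomial σ ℂ)) F) =
      aeval (fun i : S => Ideal.Quotient.mk p (X i)) F :=
  comp_aeval_apply _ (Ideal.Quotient.mkₐ ℂ p) F

omit [Fintype σ] in
theorem hilb_indep {p : Ideal (MvPolynomial σ ℂ)} {S : Finset σ}
    (hS : ∀ b ∈ Bs S, b ∈ p → b = 0) :
    AlgebraicIndependent ℂ fun i : S => Ideal.Quotient.mk p (X (i : σ)) := by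
  rw [algebraicIndependent_iff]
  intro F hF
  rw [← hilb_mk_aeval, Ideal.Quotient.eq_zero_iff_mem] at hF
  have h := hS _ (by rw [hilb_Bs_eq]; exact ⟨F, rfl⟩) hF
  have e : (aeval (fun i : S => (X i : MvPolynomial σ ℂ)) : MvPolynomial S ℂ →ₐ[ℂ] _) =
      rename Subtype.val := by
    ext i
    simp
  rw [e] at h
  exact rename_injective _ Subtype.val_injective (by rw [h, map_zero])

omit [Fintype σ] in
theorem hilb_isBas {p : Ideal (MvPolynomial σ ℂ)} {S : Finset σ}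
    (hS : IsTranscendenceBasis ℂ fun i : S => Ideal.Quotient.mk p (X (i : σ))) : IsBas p S := by
  have e1 := hilb_Bs_eq S
  have e2 := hilb_mk_aeval p S
  refine ⟨fun b hb hp => ?_, fun f => ?_⟩
  · rw [e1] at hb
    obtain ⟨F, rfl⟩ := hb
    have h := Ideal.Quotient.eq_zero_iff_mem.mpr hp
    have h2 := algebraicIndependent_iff.mp hS.1 F ((e2 F).symm.trans h)
    rw [h2]
    exact map_zero _
  · obtain ⟨B, hB⟩ : ∃ B : Subalgebra ℂ (MvPolynomial σ ℂ ⧸ p), B = Algebra.adjoin ℂ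
        (Set.range fun i : S => Ideal.Quotient.mk p (X (i : σ))) := ⟨_, rfl⟩
    have ha : Algebra.IsAlgebraic B (MvPolynomial σ ℂ ⧸ p) := hB ▸ hS.isAlgebraic
    have hm : ∀ x, x ∈ B ↔ ∃ b ∈ Bs S, Ideal.Quotient.mk p b = x := fun x => by
      rw [hB, Algebra.adjoin_range_eq_range_aeval, e1]
      constructor
      · rintro ⟨F, rfl⟩
        exact ⟨_, ⟨F, rfl⟩, e2 F⟩
      · rintro ⟨_, ⟨F, rfl⟩, rfl⟩
        exact ⟨F, (e2 F).symm⟩
    let φ : Bs S →+* B := ((Ideal.Quotient.mk p).comp (Bs S).val.toRingHom).codRestrict B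
      fun b => (hm _).mpr ⟨b, b.2, rfl⟩
    have hφ : Function.Surjective φ := fun x => by
      obtain ⟨b, hb, h⟩ := (hm x).mp x.2
      exact ⟨⟨b, hb⟩, Subtype.ext h⟩
    obtain ⟨q', hq, h0⟩ := ha.isAlgebraic (Ideal.Quotient.mk p f)
    obtain ⟨q, rfl⟩ := Polynomial.map_surjective φ hφ q'
    refine ⟨q, fun h => hq (by rw [h, Polynomial.map_zero]), ?_⟩
    rw [← Ideal.Quotient.eq_zero_iff_mem, ← h0]
    exact Polynomial.map_aeval_eq_aeval_map (φ := φ) (ψ := Ideal.Quotient.mk p) rfl q f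

/-- An independent set of variables extends to a basis
(`exists_isTranscendenceBasis_between`; compare `span_exists_tb`, `span_isBas`, `exists_bas` in
`H96/Span.lean`). -/
theorem exists_bas (p : Ideal (MvPolynomial σ ℂ)) [p.IsPrime] (S : Finset σ)
    (hS : ∀ b ∈ Bs S, b ∈ p → b = 0) : ∃ S' : Finset σ, S ⊆ S' ∧ S'.card = dm p ∧ IsBas p S' := by
  classical
  have hadj : Algebra.adjoin ℂ (Set.range fun i : σ => Ideal.Quotient.mk p (X i)) = ⊤ := by
    rw [Algebra.adjoin_range_eq_range_aeval, _root_.eq_top_iff]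
    intro x _
    obtain ⟨F, rfl⟩ := Ideal.Quotient.mk_surjective x
    refine ⟨F, ?_⟩
    have e : aeval (fun i : σ => Ideal.Quotient.mk p (X i)) = Ideal.Quotient.mkₐ ℂ p := by
      ext i; simp
    change aeval (fun i : σ => Ideal.Quotient.mk p (X i)) F = _
    rw [e]; rfl
  have : Algebra.IsAlgebraic
      (Algebra.adjoin ℂ (Set.range fun i : σ => Ideal.Quotient.mk p (X i)))
      (MvPolynomial σ ℂ ⧸ p) := by
    refine ⟨fun x => ?_⟩
    exact isAlgebraic_algebraMap (⟨x, by rw [hadj]; trivial⟩ :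
      Algebra.adjoin ℂ (Set.range fun i : σ => Ideal.Quotient.mk p (X i)))
  have hi := hilb_indep hS
  obtain ⟨t, hst, hts, ht⟩ := exists_isTranscendenceBasis_between (R := ℂ)
    (Set.range fun i : S => Ideal.Quotient.mk p (X (i : σ)))
    (Set.range fun i : σ => Ideal.Quotient.mk p (X i))
    (by rintro _ ⟨i, rfl⟩; exact ⟨i, rfl⟩) hi.to_subtype_range
  have hc : ∀ x : t, ∃ i : σ, Ideal.Quotient.mk p (X i) = x ∧
      ((∃ j ∈ S, Ideal.Quotient.mk p (X j) = x) → i ∈ S) := fun x => by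
    by_cases h : ∃ j ∈ S, Ideal.Quotient.mk p (X j) = x
    · obtain ⟨j, hj, h⟩ := h
      exact ⟨j, h, fun _ => hj⟩
    · obtain ⟨i, hi⟩ := hts x.2
      exact ⟨i, hi, fun h' => absurd h' h⟩
  choose c hc hcS using hc
  have hci : Function.Injective c := fun x y h => Subtype.ext (by rw [← hc x, ← hc y, h])
  have hb : IsTranscendenceBasis ℂ
      fun i : (Finset.univ.filter fun i => i ∈ Set.range c : Finset σ) =>
        Ideal.Quotient.mk p (X (i : σ)) := by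
    let e : t ≃ (Finset.univ.filter fun i => i ∈ Set.range c : Finset σ) :=
      (Equiv.ofInjective c hci).trans (Equiv.subtypeEquivRight fun i => by simp)
    refine (isTranscendenceBasis_equiv e).mp ?_
    have : ((fun i : (Finset.univ.filter fun i => i ∈ Set.range c : Finset σ) =>
        Ideal.Quotient.mk p (X (i : σ))) ∘ e) = ((↑) : t → _) := funext hc
    rw [this]
    exact ht
  refine ⟨_, fun i hiS => ?_, ?_, hilb_isBas hb⟩
  · have h1 : Ideal.Quotient.mk p (X i) ∈ t := hst ⟨⟨i, hiS⟩, rfl⟩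
    have h2 := hcS ⟨_, h1⟩ ⟨i, hiS, rfl⟩
    have h3 : (⟨_, h2⟩ : S) = ⟨i, hiS⟩ := hi.injective (hc ⟨_, h1⟩)
    simp only [Finset.mem_filter, Finset.mem_univ, true_and]
    exact ⟨⟨_, h1⟩, congrArg Subtype.val h3⟩
  · have h := hb.cardinalMk_eq_trdeg
    rw [← dm_cast, Cardinal.mk_fintype, Fintype.card_coe] at h
    exact_mod_cast h

/-- Polynomials in the variables of `S` of degree at most `K` in each variable. -/
noncomputable def hilbA (S : Finset σ) (K : ℕ) : Submodule ℂ (MvPolynomial σ ℂ) :=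
  Submodule.span ℂ {x : MvPolynomial σ ℂ | ∃ a : σ → ℕ,
    (∀ i, a i ≤ K) ∧ (∀ i, i ∉ S → a i = 0) ∧ x = ∏ i, X i ^ a i}

/-- The reduced module. -/
noncomputable def hilbM (I : Ideal (MvPolynomial σ ℂ)) (S : Finset σ) (e K : ℕ) :
    Submodule ℂ (MvPolynomial σ ℂ) :=
  Submodule.span ℂ {x : MvPolynomial σ ℂ | ∃ a b : σ → ℕ,
    (∀ i, a i ≤ K) ∧ (∀ i, i ∉ S → a i = 0) ∧ (∀ i, b i < e) ∧
      x = (∏ i, X i ^ a i) * ∏ i, X i ^ b i} ⊔ I.restrictScalars ℂ

theorem hilbA_mono (S : Finset σ) {K L : ℕ} (h : K ≤ L) : hilbA S K ≤ hilbA S L :=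
  Submodule.span_mono fun _ ⟨a, h1, h2, h3⟩ => ⟨a, fun i => (h1 i).trans h, h2, h3⟩

theorem hilb_prod_add (a b : σ → ℕ) : (∏ i, X i ^ (a i + b i) : MvPolynomial σ ℂ) =
    (∏ i, X i ^ a i) * ∏ i, X i ^ b i := by
  rw [← Finset.prod_mul_distrib]
  exact Finset.prod_congr rfl fun i _ => pow_add _ _ _

theorem hilbA_mul (S : Finset σ) {K L : ℕ} {x y : MvPolynomial σ ℂ} (hx : x ∈ hilbA S K)
    (hy : y ∈ hilbA S L) : x * y ∈ hilbA S (K + L) := by
  have h := Submodule.mul_mem_mul hx hy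
  rw [hilbA, hilbA, Submodule.span_mul_span] at h
  refine Submodule.span_mono ?_ h
  rintro _ ⟨_, ⟨a, h1, h2, rfl⟩, _, ⟨b, h3, h4, rfl⟩, rfl⟩
  exact ⟨fun i => a i + b i, fun i => add_le_add (h1 i) (h3 i),
    fun i hi => by simp only [h2 i hi, h4 i hi], (hilb_prod_add a b).symm⟩

theorem hilbA_exists (S : Finset σ) {x : MvPolynomial σ ℂ} (hx : x ∈ Bs S) :
    ∃ K, x ∈ hilbA S K := by
  classical
  induction hx using Algebra.adjoin_induction with
  | mem x hx =>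
    obtain ⟨i, hi, rfl⟩ := hx
    refine ⟨1, Submodule.subset_span ⟨Pi.single i 1, fun j => ?_, fun j hj => ?_, ?_⟩⟩
    · rw [Pi.single_apply]
      split_ifs <;> omega
    · exact Pi.single_eq_of_ne (fun h : j = i => hj (by rw [h]; exact hi)) _
    · rw [Finset.prod_eq_single i (fun j _ hj => by rw [Pi.single_eq_of_ne hj, pow_zero])
        (by simp)]
      simp
  | algebraMap c =>
    refine ⟨0, ?_⟩
    rw [Algebra.algebraMap_eq_smul_one]
    exact Submodule.smul_mem _ _ (Submodule.subset_span ⟨0, fun _ => le_rfl, fun _ _ => rfl,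
      by simp⟩)
  | add x y _ _ hx hy =>
    obtain ⟨K, hK⟩ := hx
    obtain ⟨L, hL⟩ := hy
    exact ⟨K + L, add_mem (hilbA_mono S (by omega) hK) (hilbA_mono S (by omega) hL)⟩
  | mul x y _ _ hx hy =>
    obtain ⟨K, hK⟩ := hx
    obtain ⟨L, hL⟩ := hy
    exact ⟨K + L, hilbA_mul S hK hL⟩

theorem hilbM_ind {I : Ideal (MvPolynomial σ ℂ)} {S : Finset σ} {e K : ℕ}
    (W : Submodule ℂ (MvPolynomial σ ℂ)) (hI : ∀ x ∈ I, x ∈ W) (z : MvPolynomial σ ℂ)
    (hW : ∀ a b : σ → ℕ, (∀ i, a i ≤ K) → (∀ i, i ∉ S → a i = 0) → (∀ i, b i < e) →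
      z * ((∏ i, X i ^ a i) * ∏ i, X i ^ b i) ∈ W) {y : MvPolynomial σ ℂ}
    (hy : y ∈ hilbM I S e K) : z * y ∈ W := by
  have : hilbM I S e K ≤ W.comap (LinearMap.mulLeft ℂ z) := by
    refine sup_le (Submodule.span_le.mpr ?_) fun x hx => hI _ (I.mul_mem_left z hx)
    rintro _ ⟨a, b, h1, h2, h3, rfl⟩
    exact hW a b h1 h2 h3
  exact this hy

theorem hilbM_mul {I : Ideal (MvPolynomial σ ℂ)} {S : Finset σ} {e K c : ℕ}
    {x y : MvPolynomial σ ℂ} (hx : x ∈ hilbA S c) (hy : y ∈ hilbM I S e K) :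
    x * y ∈ hilbM I S e (c + K) := by
  refine hilbM_ind _ (fun x hx => Submodule.mem_sup_right hx) x (fun a b h1 h2 h3 => ?_) hy
  have : hilbA S c ≤ (hilbM I S e (c + K)).comap
      (LinearMap.mulRight ℂ ((∏ i, X i ^ a i) * ∏ i, X i ^ b i)) := by
    refine Submodule.span_le.mpr ?_
    rintro _ ⟨a', h4, h5, rfl⟩
    refine Submodule.mem_sup_left (Submodule.subset_span ⟨fun i => a' i + a i, b,
      fun i => add_le_add (h4 i) (h1 i), fun i hi => by simp only [h2 i hi, h5 i hi], h3, ?_⟩)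
    rw [hilb_prod_add, mul_assoc]
    rfl
  exact this hx

omit [Fintype σ] in
theorem hilb_rel (I : Ideal (MvPolynomial σ ℂ)) {S : Finset σ} (hS : IsBas I S) (i : σ) :
    ∃ (l : Bs S) (d : ℕ), l ≠ 0 ∧ ∀ e, d ≤ e → ∃ β : ℕ → Bs S,
      (l : MvPolynomial σ ℂ) * X i ^ e - ∑ j ∈ Finset.range e, (β j : MvPolynomial σ ℂ) * X i ^ j
        ∈ I := by
  obtain ⟨q, hq, h⟩ := hS.alg (X i)
  refine ⟨q.leadingCoeff, q.natDegree, Polynomial.leadingCoeff_ne_zero.mpr hq, fun e he => ?_⟩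
  obtain ⟨r, hr⟩ : ∃ r, r = q * Polynomial.X ^ (e - q.natDegree) := ⟨_, rfl⟩
  have h1 : r.natDegree = e := by
    rw [hr, Polynomial.natDegree_mul_X_pow _ hq]
    omega
  have h2 : r.coeff e = q.leadingCoeff := by
    rw [← h1, Polynomial.coeff_natDegree, hr, Polynomial.leadingCoeff_mul_X_pow]
  have h3 : Polynomial.aeval (X i : MvPolynomial σ ℂ) r ∈ I := by
    rw [hr, map_mul]
    exact I.mul_mem_right _ h
  refine ⟨fun j => -r.coeff j, ?_⟩
  rw [Polynomial.aeval_eq_sum_range, h1, Finset.sum_range_succ, h2] at h3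
  simp only [Subalgebra.smul_def, smul_eq_mul] at h3
  simp only [Subalgebra.coe_neg, neg_mul, Finset.sum_neg_distrib, sub_neg_eq_add]
  rwa [add_comm]

theorem hilb_update [DecidableEq σ] (b : σ → ℕ) (i : σ) (j : ℕ) :
    (∏ k, X k ^ Function.update b i j k : MvPolynomial σ ℂ) =
      X i ^ j * ∏ k ∈ Finset.univ.erase i, X k ^ b k := by
  rw [← Finset.mul_prod_erase _ _ (Finset.mem_univ i), Function.update_self]
  refine congrArg _ (Finset.prod_congr rfl fun k hk => ?_)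
  rw [Function.update_of_ne (Finset.ne_of_mem_erase hk)]

theorem hilb_step {I : Ideal (MvPolynomial σ ℂ)} {S : Finset σ} {e K c : ℕ}
    {u : MvPolynomial σ ℂ} (hu : u ∈ hilbA S c) (i : σ) (β : ℕ → MvPolynomial σ ℂ)
    (hβ : ∀ j < e, β j ∈ hilbA S c)
    (h : u * X i ^ e - ∑ j ∈ Finset.range e, β j * X i ^ j ∈ I) {y : MvPolynomial σ ℂ}
    (hy : y ∈ hilbM I S e K) : u * X i * y ∈ hilbM I S e (c + K) := by
  classical
  refine hilbM_ind _ (fun x hx => Submodule.mem_sup_right hx) _ (fun a b h1 h2 h3 => ?_) hy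
  obtain ⟨P, hP⟩ : ∃ P : MvPolynomial σ ℂ, P = ∏ k ∈ Finset.univ.erase i, X k ^ b k := ⟨_, rfl⟩
  obtain ⟨A, hA⟩ : ∃ A : MvPolynomial σ ℂ, A = ∏ k, X k ^ a k := ⟨_, rfl⟩
  have hm : ∀ j < e, A * (X i ^ j * P) ∈ hilbM I S e K := fun j hj => by
    refine Submodule.mem_sup_left (Submodule.subset_span ⟨a, Function.update b i j, h1, h2,
      fun k => ?_, by rw [hilb_update, hA, hP]⟩)
    rw [Function.update_apply]
    split_ifs
    · exact hj
    · exact h3 k
  have hb : (∏ k, X k ^ b k : MvPolynomial σ ℂ) = X i ^ b i * P := by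
    rw [hP, ← hilb_update, Function.update_eq_self]
  rw [← hA, hb]
  rcases (Nat.succ_le_of_lt (h3 i)).lt_or_eq with h4 | h4
  · have e1 : u * X i * (A * (X i ^ b i * P)) = u * (A * (X i ^ (b i + 1) * P)) := by ring
    rw [e1]
    exact hilbM_mul hu (hm _ h4)
  · have e1 : u * X i * (A * (X i ^ b i * P)) =
        A * P * (u * X i ^ e - ∑ j ∈ Finset.range e, β j * X i ^ j) +
          ∑ j ∈ Finset.range e, β j * (A * (X i ^ j * P)) := by
      have e2 : ∑ j ∈ Finset.range e, β j * (A * (X i ^ j * P)) =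
          A * P * ∑ j ∈ Finset.range e, β j * X i ^ j := by
        rw [Finset.mul_sum]
        exact Finset.sum_congr rfl fun j _ => by ring
      have e3 : (X i ^ e : MvPolynomial σ ℂ) = X i ^ b i * X i := by rw [← h4, pow_succ]
      rw [e2, e3]
      ring
    rw [e1]
    exact add_mem (Submodule.mem_sup_right (I.mul_mem_left _ h)) (Submodule.sum_mem _
      fun j hj => hilbM_mul (hβ j (Finset.mem_range.mp hj)) (hm j (Finset.mem_range.mp hj)))

/-- Reduction.  Each `X i` satisfies modulo `I` a nonzero polynomial over `Bs S`; multiplying these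
relations suitably one may assume a common leading coefficient `u ∉ I` and a common degree `e`.
Let `M K` be the `ℂ`-span of `I` and of the products `X ^ a * X ^ b`, `a` supported in `S` with
`a i ≤ K`, `b i < e`.  Then `u * X i * M K ⊆ M (K + c)`, and induction on the degree. -/
theorem exists_red (I : Ideal (MvPolynomial σ ℂ)) [I.IsPrime] {S : Finset σ} (hS : IsBas I S) :
    ∃ (u : MvPolynomial σ ℂ) (c e : ℕ), u ∉ I ∧ ∀ (N : ℕ) (f : MvPolynomial σ ℂ),
      f.totalDegree ≤ N → u ^ N * f ∈ Submodule.span ℂ {x : MvPolynomial σ ℂ | ∃ a b : σ → ℕ,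
        (∀ i, a i ≤ c * N) ∧ (∀ i, i ∉ S → a i = 0) ∧ (∀ i, b i < e) ∧
          x = (∏ i, X i ^ a i) * ∏ i, X i ^ b i} ⊔ I.restrictScalars ℂ := by
  classical
  choose l d hl hd using hilb_rel I hS
  obtain ⟨e, he⟩ : ∃ e, e = ∑ i, d i + 1 := ⟨_, rfl⟩
  have hde : ∀ i, d i ≤ e := fun i => by
    have := Finset.single_le_sum (f := d) (fun _ _ => Nat.zero_le _) (Finset.mem_univ i)
    omega
  choose β hβ using fun i => hd i e (hde i)
  obtain ⟨u, hu⟩ : ∃ u : Bs S, u = ∏ i, l i := ⟨_, rfl⟩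
  have hu0 : u ≠ 0 := by
    rw [hu]
    exact Finset.prod_ne_zero_iff.mpr fun i _ => hl i
  obtain ⟨γ, hγ⟩ : ∃ γ : σ → ℕ → Bs S, γ = fun i j => (∏ k ∈ Finset.univ.erase i, l k) * β i j :=
    ⟨_, rfl⟩
  have hrel : ∀ i, (u : MvPolynomial σ ℂ) * X i ^ e -
      ∑ j ∈ Finset.range e, (γ i j : MvPolynomial σ ℂ) * X i ^ j ∈ I := fun i => by
    have h := I.mul_mem_left ((∏ k ∈ Finset.univ.erase i, l k : Bs S) : MvPolynomial σ ℂ) (hβ i)
    rw [mul_sub, Finset.mul_sum, ← mul_assoc, ← Subalgebra.coe_mul,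
      Finset.prod_erase_mul _ _ (Finset.mem_univ i), ← hu] at h
    simp only [hγ, Subalgebra.coe_mul, mul_assoc]
    exact h
  choose D hD using fun x : Bs S => hilbA_exists S x.2
  obtain ⟨c, hc⟩ : ∃ c, c = D u + ∑ i, ∑ j ∈ Finset.range e, D (γ i j) := ⟨_, rfl⟩
  have huc : (u : MvPolynomial σ ℂ) ∈ hilbA S c := hilbA_mono S (by omega) (hD u)
  have hγc : ∀ i, ∀ j < e, (γ i j : MvPolynomial σ ℂ) ∈ hilbA S c := fun i j hj => by
    refine hilbA_mono S ?_ (hD _)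
    have h1 := Finset.single_le_sum (f := fun j => D (γ i j)) (fun _ _ => Nat.zero_le _)
      (Finset.mem_range.mpr hj)
    have h2 := Finset.single_le_sum (f := fun i => ∑ j ∈ Finset.range e, D (γ i j))
      (fun _ _ => Nat.zero_le _) (Finset.mem_univ i)
    omega
  have key : ∀ (N : ℕ) (m : σ →₀ ℕ), m.degree ≤ N →
      (u : MvPolynomial σ ℂ) ^ N * monomial m 1 ∈ hilbM I S e (c * N) := by
    intro N
    induction N with
    | zero =>
      intro m hm
      have h0 : m = 0 := (Finsupp.degree_eq_zero_iff m).mp (by omega)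
      refine Submodule.mem_sup_left (Submodule.subset_span ⟨0, 0, fun _ => Nat.zero_le _,
        fun _ _ => rfl, fun _ => by simp [he], ?_⟩)
      simp [h0]
    | succ N ih =>
      intro m hm
      rw [Nat.mul_succ, add_comm (c * N), pow_succ']
      by_cases h0 : m = 0
      · rw [mul_assoc]
        exact hilbM_mul huc (ih m (by simp [h0]))
      · obtain ⟨i, hi⟩ := Finsupp.ne_iff.mp h0
        have h1 : m - Finsupp.single i 1 + Finsupp.single i 1 = m :=
          Finsupp.sub_add_single_one_cancel hi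
        have h2 : (m - Finsupp.single i 1).degree ≤ N := by
          have := congrArg Finsupp.degree h1
          rw [map_add, Finsupp.degree_single] at this
          omega
        have h3 := hilb_step huc i _ (hγc i) (hrel i) (ih _ h2)
        rw [← h1, monomial_add_single]
        have e1 : ∀ v w : MvPolynomial σ ℂ, v * v ^ N * (w * X i ^ 1) = v * X i * (v ^ N * w) :=
          fun v w => by ring
        rw [e1]
        exact h3
  refine ⟨u, c, e, fun h => hu0 (Subtype.ext (hS.inj _ u.2 h)), fun N f hf => ?_⟩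
  change _ ∈ hilbM I S e (c * N)
  rw [f.as_sum, Finset.mul_sum]
  refine Submodule.sum_mem _ fun m hm => ?_
  have h1 := Submodule.smul_mem _ (coeff m f) (key N m ((le_totalDegree hm).trans hf))
  rwa [← mul_smul_comm, smul_monomial, smul_eq_mul, mul_one] at h1

theorem hilb_card_le {B R : Type} [CommRing B] [Nontrivial B] [CommRing R] [Algebra B R]
    (J : Submodule B R) {κ : Type} [Fintype κ] (f : κ → R)
    (hf : ∀ c : κ → B, ∑ i, c i • f i ∈ J → c = 0) (b : Finset R)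
    (hm : ∀ i, f i ∈ Submodule.span B (b : Set R) ⊔ J) : Fintype.card κ ≤ b.card := by
  classical
  have hl : LinearIndependent B fun i => J.mkQ (f i) := by
    rw [Fintype.linearIndependent_iff]
    intro c hc i
    have h1 : ∑ i, c i • f i ∈ J := by
      rw [← Submodule.Quotient.mk_eq_zero, ← Submodule.mkQ_apply, map_sum, ← hc]
      exact Finset.sum_congr rfl fun i _ => by rw [map_smul]
    exact congrFun (hf _ h1) i
  have h2 := linearIndependent_le_span_aux' _ hl ((b.image J.mkQ : Finset (R ⧸ J)) : Set (R ⧸ J))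
    (by
      rintro _ ⟨i, rfl⟩
      obtain ⟨x, hx, y, hy, h⟩ := Submodule.mem_sup.mp (hm i)
      have h3 : J.mkQ (f i) = J.mkQ x := by
        rw [← h, map_add, Submodule.mkQ_apply J y, (Submodule.Quotient.mk_eq_zero J).mpr hy,
          add_zero]
      beta_reduce
      rw [h3, Finset.coe_image, ← Submodule.map_span]
      exact Submodule.mem_map_of_mem hx)
  refine h2.trans ?_
  simp only [Finset.coe_sort_coe, Fintype.card_coe]
  exact Finset.card_image_le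

theorem hilb_rank (I : Ideal (MvPolynomial σ ℂ)) [hI : I.IsPrime] (S : Finset σ)
    (hS : ∀ b ∈ Bs S, b ∈ I → b = 0) : ∃ C : ℕ, ∀ (N : ℕ) (κ : Type) [Fintype κ]
      (f : κ → MvPolynomial σ ℂ),
      (∀ i, f i ∈ Submodule.span (Bs S) {g : MvPolynomial σ ℂ | g.totalDegree ≤ N}) →
      (∀ c : κ → Bs S, ∑ i, c i • f i ∈ I → c = 0) →
      Fintype.card κ ≤ C * (N + 1) ^ (dm I - S.card) := by
  classical
  obtain ⟨S', hSS, hcard, hb⟩ := exists_bas I S hS
  obtain ⟨u, c, e, hu, hred⟩ := exists_red I hb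
  refine ⟨(c + 1) ^ (dm I - S.card) * e ^ Fintype.card σ, fun N κ _ f hf hind => ?_⟩
  obtain ⟨T, hT⟩ : ∃ T : Finset (σ → ℕ), T = Fintype.piFinset fun i =>
      if i ∈ S' \ S then Finset.range (c * N + 1) else {0} := ⟨_, rfl⟩
  obtain ⟨b, hb'⟩ : ∃ b : Finset (MvPolynomial σ ℂ), b =
      (T ×ˢ Fintype.piFinset fun _ : σ => Finset.range e).image fun q =>
        (∏ i, X i ^ q.1 i) * ∏ i, X i ^ q.2 i := ⟨_, rfl⟩
  have hbc : b.card ≤ (c + 1) ^ (dm I - S.card) * e ^ Fintype.card σ *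
      (N + 1) ^ (dm I - S.card) := by
    rw [hb']
    refine Finset.card_image_le.trans ?_
    have h : T.card = (c * N + 1) ^ (dm I - S.card) := by
      rw [hT, Fintype.card_piFinset]
      simp only [apply_ite Finset.card, Finset.card_singleton, Finset.card_range]
      rw [Finset.prod_ite, Finset.prod_const_one, mul_one, Finset.prod_const,
        Finset.filter_mem_eq_inter, Finset.univ_inter, Finset.card_sdiff_of_subset hSS, hcard]
    rw [Finset.card_product, h, Fintype.card_piFinset, Finset.prod_const, Finset.card_range,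
      Finset.card_univ, mul_right_comm, ← mul_pow]
    exact Nat.mul_le_mul_right _ (Nat.pow_le_pow_left (by nlinarith) _)
  refine le_trans ?_ hbc
  obtain ⟨W, hW⟩ : ∃ W : Submodule (Bs S) (MvPolynomial σ ℂ), W =
      Submodule.span (Bs S) (b : Set (MvPolynomial σ ℂ)) ⊔ I.restrictScalars (Bs S) := ⟨_, rfl⟩
  have hle : hilbM I S' e (c * N) ≤ W.restrictScalars ℂ := by
    rw [hW]
    refine sup_le (Submodule.span_le.mpr ?_) fun x hx => Submodule.mem_sup_right hx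
    rintro _ ⟨a, a', h1, h2, h3, rfl⟩
    refine Submodule.mem_sup_left ?_
    have h0 : ∀ i ∈ S, (X i : MvPolynomial σ ℂ) ∈ Bs S := fun i hi =>
      Algebra.subset_adjoin (Set.mem_image_of_mem _ hi)
    have h4 : (∏ i ∈ S, X i ^ a i : MvPolynomial σ ℂ) ∈ Bs S :=
      Subalgebra.prod_mem _ fun i hi => Subalgebra.pow_mem _ (h0 i hi) _
    have h5 : (∏ i, X i ^ a i : MvPolynomial σ ℂ) =
        (∏ i ∈ S, X i ^ a i) * ∏ i, X i ^ (if i ∈ S then 0 else a i) := by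
      rw [← Finset.prod_ite_mem_eq S, ← Finset.prod_mul_distrib]
      exact Finset.prod_congr rfl fun i _ => by split_ifs <;> simp
    have h6 : (∏ i, X i ^ a i : MvPolynomial σ ℂ) * ∏ i, X i ^ a' i = (⟨_, h4⟩ : Bs S) •
        ((∏ i, X i ^ (if i ∈ S then 0 else a i)) * ∏ i, X i ^ a' i : MvPolynomial σ ℂ) := by
      rw [Subalgebra.smul_def, smul_eq_mul, ← mul_assoc, h5]
    rw [h6]
    refine Submodule.smul_mem _ _ (Submodule.subset_span ?_)
    rw [hb', Finset.mem_coe, Finset.mem_image]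
    refine ⟨(fun i => if i ∈ S then 0 else a i, a'), ?_, rfl⟩
    simp only [hT, Finset.mem_product, Fintype.mem_piFinset, Finset.mem_range, Finset.mem_sdiff]
    refine ⟨fun i => ?_, h3⟩
    by_cases hi : i ∈ S
    · simp [hi]
    · by_cases hi' : i ∈ S'
      · simpa [hi, hi', Nat.lt_succ_iff] using h1 i
      · simp [hi, hi', h2 i hi']
  refine hilb_card_le (I.restrictScalars (Bs S)) (fun i => u ^ N * f i) (fun c hc => ?_) b
    fun i => ?_
  · refine hind c ((hI.mem_or_mem (x := u ^ N) ?_).resolve_left fun h => hu (hI.mem_of_pow_mem _ h))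
    rw [Finset.mul_sum]
    simp only [mul_smul_comm]
    exact hc
  · have : Submodule.span (Bs S) {g : MvPolynomial σ ℂ | g.totalDegree ≤ N} ≤
        W.comap (LinearMap.mulLeft (Bs S) (u ^ N)) :=
      Submodule.span_le.mpr fun g hg => hle (hred N g hg)
    rw [← hW]
    exact this (hf i)

/-- For each independent `S` take `S ⊆ S'` from `exists_bas` and `u, c, e` from `exists_red`.  The
family `u ^ N * f i` is still independent over `Bs S` modulo the prime `I`, and lies in the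
`Bs S`-span of the `(c N + 1) ^ (card S' - card S) * e ^ card σ` products with `a` supported in
`S' \ S`, modulo `I` (strong rank condition, see `card_le_of_gen` in `H96/Span.lean`).  There are
finitely many `S`. -/
theorem rank_bound (I : Ideal (MvPolynomial σ ℂ)) [I.IsPrime] :
    ∃ C : ℕ, ∀ S : Finset σ, (∀ b ∈ Bs S, b ∈ I → b = 0) → ∀ (N : ℕ) (κ : Type) [Fintype κ]
      (f : κ → MvPolynomial σ ℂ),
      (∀ i, f i ∈ Submodule.span (Bs S) {g : MvPolynomial σ ℂ | g.totalDegree ≤ N}) →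
      (∀ c : κ → Bs S, ∑ i, c i • f i ∈ I → c = 0) →
      Fintype.card κ ≤ C * (N + 1) ^ (dm I - S.card) := by
  classical
  have h := fun S : {S : Finset σ // ∀ b ∈ Bs S, b ∈ I → b = 0} => hilb_rank I S.1 S.2
  choose C hC using h
  refine ⟨∑ S, C S, fun S hS N κ _ f hf hind => (hC ⟨S, hS⟩ N κ f hf hind).trans ?_⟩
  exact Nat.mul_le_mul_right _
    (Finset.single_le_sum (f := C) (fun _ _ => Nat.zero_le _) (Finset.mem_univ _))

end GPC73

end

section

/-! Generic spanning modulo powers of an ideal, and the resulting upper bound. -/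

open MvPolynomial Pool.Agent.MP_d171e3_nt

namespace GPC73

variable {σ : Type} [Fintype σ]

/-- The `Bs S`-span of the polynomials of degree at most `N`. -/
noncomputable def span_gM (S : Finset σ) (N : ℕ) : Submodule (Bs S) (MvPolynomial σ ℂ) :=
  Submodule.span (Bs S) {f : (MvPolynomial σ ℂ) | f.totalDegree ≤ N}

theorem span_gMmul {S : Finset σ} {N M : ℕ} {m h : (MvPolynomial σ ℂ)} (hm : m ∈ span_gM S N)
    (hh : h.totalDegree ≤ M) : m * h ∈ span_gM S (N + M) := by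
  induction hm using Submodule.span_induction with
  | mem f hf =>
    exact Submodule.subset_span ((totalDegree_mul f h).trans (add_le_add hf hh))
  | zero => simp
  | add f g _ _ hf hg => rw [add_mul]; exact add_mem hf hg
  | smul a f _ hf => rw [smul_mul_assoc]; exact Submodule.smul_mem _ _ hf

/-- A submodule containing the monomials of degree at most `m` contains all polynomials of degree
at most `m`. -/
theorem span_gofmonomial {S : Finset σ} (N : Submodule (Bs S) (MvPolynomial σ ℂ)) (m : ℕ)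
    (h : ∀ a : σ →₀ ℕ, (a.sum fun _ e => e) ≤ m → monomial a (1 : ℂ) ∈ N) (f : (MvPolynomial σ ℂ))
    (hf : f.totalDegree ≤ m) : f ∈ N := by
  rw [f.as_sum]
  refine Submodule.sum_mem _ fun a ha => ?_
  have h1 : monomial a (coeff a f) = (algebraMap ℂ (Bs S) (coeff a f)) • monomial a (1 : ℂ) := by
    rw [algebraMap_smul, smul_monomial, smul_eq_mul, mul_one]
  rw [h1]
  exact N.smul_mem _ (h a ((le_totalDegree ha).trans hf))

/-- Step (3). -/
theorem span_gfin {S : Finset σ} (K : Ideal (MvPolynomial σ ℂ))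
    (hK : ∀ i : σ, ∃ q : Polynomial (Bs S), q ≠ 0 ∧ Polynomial.aeval (X i : (MvPolynomial σ ℂ)) q ∈ K) :
    ∃ N₀ : ℕ, ∀ g : (MvPolynomial σ ℂ), g ∈ GPC96.genspanSat (span_gM S N₀ ⊔ K.restrictScalars (Bs S)) := by
  choose q hq0 hq using hK
  refine ⟨∑ i, (q i).natDegree, fun g => ?_⟩
  set N := GPC96.genspanSat (span_gM S (∑ i, (q i).natDegree) ⊔ K.restrictScalars (Bs S)) with hN
  suffices H : ∀ m : ℕ, ∀ f : (MvPolynomial σ ℂ), f.totalDegree < m → f ∈ N from H _ g (Nat.lt_succ_self _)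
  intro m
  induction m with
  | zero => intro f hf; omega
  | succ m ih =>
    intro f hf
    refine span_gofmonomial N m (fun a ha => ?_) f (by omega)
    by_cases h1 : (a.sum fun _ e => e) ≤ ∑ i, (q i).natDegree
    · refine GPC96.genspan_le _ (Submodule.mem_sup_left (Submodule.subset_span ?_))
      exact (totalDegree_monomial_le a 1).trans h1
    have h2 : ∃ i, (q i).natDegree ≤ a i := by
      by_contra hcon
      push Not at hcon
      apply h1
      rw [Finsupp.sum_fintype _ _ (fun _ => rfl)]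
      exact Finset.sum_le_sum fun i _ => (hcon i).le
    obtain ⟨i, hi⟩ := h2
    set d := (q i).natDegree with hd
    set b : σ →₀ ℕ := a - Finsupp.single i d with hb
    have hab : a = b + Finsupp.single i d := by
      rw [hb, tsub_add_cancel_of_le]
      exact Finsupp.single_le_iff.mpr hi
    have hsum : (a.sum fun _ e => e) = (b.sum fun _ e => e) + d := by
      rw [hab, Finsupp.sum_add_index' (fun _ => rfl) (fun _ _ _ => rfl), Finsupp.sum_single_index rfl]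
    have hmon : monomial a (1 : ℂ) = monomial b (1 : ℂ) * (X i : (MvPolynomial σ ℂ)) ^ d := by
      rw [X_pow_eq_monomial, monomial_mul, mul_one, ← hab]
    refine GPC96.genspan_of_smul (Polynomial.leadingCoeff_ne_zero.mpr (hq0 i)) ?_
    have hev := Polynomial.aeval_eq_sum_range (p := q i) (X i : (MvPolynomial σ ℂ))
    rw [Finset.sum_range_succ] at hev
    have key : (q i).leadingCoeff • monomial a (1 : ℂ) =
        monomial b (1 : ℂ) * Polynomial.aeval (X i : (MvPolynomial σ ℂ)) (q i) -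
          ∑ j ∈ Finset.range d, (q i).coeff j • (monomial b (1 : ℂ) * (X i : (MvPolynomial σ ℂ)) ^ j) := by
      rw [hev, mul_add, Finset.mul_sum, hmon]
      simp only [mul_smul_comm, Polynomial.leadingCoeff, ← hd]
      abel
    rw [key]
    refine sub_mem (GPC96.genspan_le _ (Submodule.mem_sup_right (K.mul_mem_left _ (hq i)))) ?_
    refine Submodule.sum_mem _ fun j hj => N.smul_mem _ (ih _ ?_)
    have hj' := Finset.mem_range.mp hj
    have h3 := totalDegree_mul (monomial b (1 : ℂ)) ((X i : (MvPolynomial σ ℂ)) ^ j)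
    have h4 := totalDegree_monomial_le b (1 : ℂ)
    have h5 : ((X i : (MvPolynomial σ ℂ)) ^ j).totalDegree = j := totalDegree_X_pow i j
    simp only [Function.id_def] at h4
    omega

theorem span_gpow {I : Ideal (MvPolynomial σ ℂ)} {D : ℕ}
    (hI : I ≤ Ideal.span {f | f ∈ I ∧ f.totalDegree ≤ D}) (j : ℕ) :
    I ^ j ≤ Ideal.span {f | f ∈ I ^ j ∧ f.totalDegree ≤ j * D} := by
  induction j with
  | zero =>
    rw [pow_zero, Ideal.one_eq_top, top_le_iff, Ideal.eq_top_iff_one]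
    exact Ideal.subset_span ⟨trivial, by simp⟩
  | succ j ih =>
    rw [pow_succ]
    refine (Ideal.mul_mono ih hI).trans ?_
    rw [Ideal.span_mul_span', Ideal.span_le]
    rintro _ ⟨f, ⟨hf, hf'⟩, g, ⟨hg, hg'⟩, rfl⟩
    refine Ideal.subset_span ⟨Ideal.mul_mem_mul hf hg, (totalDegree_mul f g).trans ?_⟩
    rw [add_mul, one_mul]
    exact add_le_add hf' hg'

/-- Step (4). -/
theorem span_gstep {S : Finset σ} {I J : Ideal (MvPolynomial σ ℂ)} {D N₀ : ℕ}
    (hI : I ≤ Ideal.span {f | f ∈ I ∧ f.totalDegree ≤ D})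
    (h0 : ∀ g : (MvPolynomial σ ℂ), g ∈ GPC96.genspanSat (span_gM S N₀ ⊔ (I ⊔ J).restrictScalars (Bs S))) (j : ℕ) :
    ∀ g : (MvPolynomial σ ℂ), g ∈ GPC96.genspanSat (span_gM S (N₀ + j * D) ⊔
      (I ^ (j + 1) ⊔ J).restrictScalars (Bs S)) := by
  induction j with
  | zero => simpa using h0
  | succ j ih =>
    intro g
    refine GPC96.genspan_trans (sup_le ?_ ?_) (ih g)
    · refine le_trans ?_ (le_sup_left.trans (GPC96.genspan_le _))
      refine Submodule.span_mono fun f hf => ?_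
      have hf' : f.totalDegree ≤ N₀ + j * D := hf
      change f.totalDegree ≤ N₀ + (j + 1) * D
      rw [add_mul]; omega
    · intro x hx
      obtain ⟨y, hy, z, hz, rfl⟩ := Submodule.mem_sup.mp (show x ∈ I ^ (j + 1) ⊔ J from hx)
      refine add_mem ?_ (GPC96.genspan_le _ (Submodule.mem_sup_right
        (show z ∈ I ^ (j + 1 + 1) ⊔ J from Submodule.mem_sup_right hz)))
      have hy' := span_gpow hI (j + 1) hy
      suffices H : ∀ r : (MvPolynomial σ ℂ), r * y ∈ GPC96.genspanSat (span_gM S (N₀ + (j + 1) * D) ⊔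
          (I ^ (j + 1 + 1) ⊔ J).restrictScalars (Bs S)) by simpa using H 1
      clear hy hx
      induction hy' using Submodule.span_induction with
      | mem h hh =>
        intro r
        obtain ⟨s, hs, hr⟩ := h0 r
        refine ⟨s, hs, ?_⟩
        obtain ⟨m, hm, w, hw, hmw⟩ := Submodule.mem_sup.mp hr
        obtain ⟨a, ha, b, hb, rfl⟩ := Submodule.mem_sup.mp (show w ∈ I ⊔ J from hw)
        rw [← smul_mul_assoc, ← hmw, add_mul m, add_mul a]
        refine add_mem (Submodule.mem_sup_left (span_gMmul hm hh.2)) (Submodule.mem_sup_right ?_)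
        change a * h + b * h ∈ I ^ (j + 1 + 1) ⊔ J
        refine add_mem (Submodule.mem_sup_left ?_) (Submodule.mem_sup_right (J.mul_mem_right _ hb))
        rw [pow_succ' I (j + 1)]
        exact Ideal.mul_mem_mul ha hh.1
      | zero => intro r; simp
      | add f g _ _ hf hg => intro r; rw [mul_add]; exact add_mem (hf r) (hg r)
      | smul a f _ hf => intro r; rw [smul_eq_mul, ← mul_assoc]; exact hf _

/-- Copy `genspanM`, `genspanM_mul`, `genspan_of_monomial`, `genspan_fin`, `genspan_pow`,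
`genspan_step`, `gen_span` of `H96/GenSpan.lean`, replacing `R5` by `MvPolynomial σ ℂ` (the lemmas
`GPC96.genspanSat`, `genspan_colon`, `genspan_unit`, `GPC96.Gen` are general and can be cited). -/
theorem gen_span {p I : Ideal (MvPolynomial σ ℂ)} [p.IsPrime] {S : Finset σ} (hS : IsBas p S)
    {D : ℕ} (hp : p ∈ I.minimalPrimes) (hI : I ≤ Ideal.span {f | f ∈ I ∧ f.totalDegree ≤ D}) :
    ∃ N₀ : ℕ, ∀ (J : Ideal (MvPolynomial σ ℂ)) (n k : ℕ), p ^ n ≤ J → I ^ k ≤ J →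
      ∀ g : MvPolynomial σ ℂ, GPC96.Gen
        (Submodule.span (Bs S) {f : MvPolynomial σ ℂ | f.totalDegree ≤ N₀ + k * D} ⊔
          J.restrictScalars (Bs S)) g := by
  obtain ⟨e, u, hu, hue⟩ := GPC96.genspan_colon hp
  obtain ⟨q, hq0, hq⟩ := hS.alg u
  obtain ⟨s, v, hs, hsv⟩ := GPC96.genspan_unit hu hq0 hq
  obtain ⟨N₀, hN⟩ := span_gfin (S := S) (p ^ e) (fun i => by
    obtain ⟨r, hr0, hr⟩ := hS.alg (X i)
    exact ⟨r ^ e, pow_ne_zero _ hr0, by rw [map_pow]; exact Ideal.pow_mem_pow hr e⟩)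
  refine ⟨N₀, fun J n k hn hk g => ?_⟩
  have h0 : ∀ g : (MvPolynomial σ ℂ), g ∈ GPC96.genspanSat (span_gM S N₀ ⊔ (I ⊔ J).restrictScalars (Bs S)) := by
    intro g
    refine GPC96.genspan_trans (sup_le (le_sup_left.trans (GPC96.genspan_le _)) fun x hx => ?_) (hN g)
    refine ⟨s ^ n, pow_ne_zero _ hs, Submodule.mem_sup_right ?_⟩
    change (s ^ n) • x ∈ I ⊔ J
    obtain ⟨w, hw⟩ := sub_dvd_pow_sub_pow (algebraMap (Bs S) (MvPolynomial σ ℂ) s)
      (algebraMap (Bs S) (MvPolynomial σ ℂ) s - u * v) n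
    have h1 : (s ^ n) • x = (v * w) * (u * x) + (algebraMap (Bs S) (MvPolynomial σ ℂ) s - u * v) ^ n * x := by
      rw [Algebra.smul_def, map_pow]
      linear_combination x * hw
    rw [h1]
    exact add_mem (Submodule.mem_sup_left (I.mul_mem_left _ (hue x hx)))
      (Submodule.mem_sup_right (J.mul_mem_right _ (hn (Ideal.pow_mem_pow hsv n))))
  have h2 := span_gstep hI h0 k g
  have h3 : I ^ (k + 1) ⊔ J = J := sup_eq_right.mpr ((Ideal.pow_le_pow_right (by omega)).trans hk)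
  rw [h3] at h2
  exact h2

/-- `exists_bas` with `S = ∅`, `gen_span`: write `s i • f i = g i + j i` with `g i` in the span and
`j i ∈ J`; the `g i` are independent modulo `J`, hence modulo `I₀`; `rank_bound`. -/
theorem card_bound (I₀ : Ideal (MvPolynomial σ ℂ)) [I₀.IsPrime] :
    ∃ C : ℕ, ∀ (p I : Ideal (MvPolynomial σ ℂ)) [p.IsPrime] (D : ℕ), I₀ ≤ p →
      p ∈ I.minimalPrimes → I ≤ Ideal.span {f | f ∈ I ∧ f.totalDegree ≤ D} →
      ∃ (S : Finset σ) (N₀ : ℕ), (∀ b ∈ Bs S, b ∈ p → b = 0) ∧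
        ∀ (J : Ideal (MvPolynomial σ ℂ)) (n k : ℕ), p ^ n ≤ J → I ^ k ≤ J → I₀ ≤ J →
          ∀ (κ : Type) [Fintype κ] (f : κ → MvPolynomial σ ℂ),
            (∀ c : κ → MvPolynomial σ ℂ, (∀ i, c i ∈ Bs S) → ∑ i, c i * f i ∈ J → c = 0) →
            Fintype.card κ ≤ C * (N₀ + k * D + 1) ^ (dm I₀ - dm p) := by
  obtain ⟨C, hC⟩ := rank_bound I₀
  refine ⟨C, fun p I _ D h0 hp hI => ?_⟩
  obtain ⟨S, -, hcard, hS⟩ := exists_bas p ∅ (fun b hb hbp => by
    have h1 : b ∈ (⊥ : Subalgebra ℂ (MvPolynomial σ ℂ)) := by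
      simpa [Bs] using hb
    obtain ⟨c, rfl⟩ := Algebra.mem_bot.mp h1
    by_contra hc
    have hc' : c ≠ 0 := fun h => hc (by simp [h])
    exact Ideal.IsPrime.ne_top ‹_› (p.eq_top_of_isUnit_mem hbp
      ((IsUnit.mk0 c hc').map (algebraMap ℂ (MvPolynomial σ ℂ)))))
  obtain ⟨N₀, hN⟩ := gen_span hS hp hI
  refine ⟨S, N₀, hS.inj, fun J n k hn hk hJ κ _ f hf => ?_⟩
  have h1 : ∀ i, ∃ (s : Bs S) (g : MvPolynomial σ ℂ), s ≠ 0 ∧
      g ∈ Submodule.span (Bs S) {g : MvPolynomial σ ℂ | g.totalDegree ≤ N₀ + k * D} ∧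
      g - s • f i ∈ J := by
    intro i
    obtain ⟨s, hs, h⟩ := hN J n k hn hk (f i)
    obtain ⟨g, hg, j, hj, hgj⟩ := Submodule.mem_sup.mp h
    refine ⟨s, g, hs, hg, ?_⟩
    rw [← hgj, sub_add_cancel_left]
    exact J.neg_mem hj
  choose s g hs hg hgJ using h1
  rw [← hcard]
  refine hC S (fun b hb hbI => hS.inj b hb (h0 hbI)) _ κ g hg fun c hc => ?_
  have h2 : ∑ i, ((c i * s i : Bs S) : MvPolynomial σ ℂ) * f i ∈ J := by
    have h3 : ∑ i, ((c i * s i : Bs S) : MvPolynomial σ ℂ) * f i =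
        ∑ i, c i • g i - ∑ i, (c i : MvPolynomial σ ℂ) * (g i - s i • f i) := by
      rw [← Finset.sum_sub_distrib]
      refine Finset.sum_congr rfl fun i _ => ?_
      simp only [Subalgebra.smul_def, smul_eq_mul, MulMemClass.coe_mul]
      ring
    rw [h3]
    exact J.sub_mem (hJ hc) (J.sum_mem fun i _ => J.mul_mem_left _ (hgJ i))
  have h4 := hf (fun i => ((c i * s i : Bs S) : MvPolynomial σ ℂ)) (fun i => (c i * s i).2) h2
  funext i
  have h5 : c i * s i = 0 := Subtype.ext (congrFun h4 i)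
  exact (mul_eq_zero.mp h5).resolve_right (hs i)

end GPC73

end

section

/-! The multiplicity count at a minimal prime. -/

open MvPolynomial Pool.Agent.MP_d171e3_nt GPC96

namespace GPC73

theorem core_sum_count {κ : Type} [Fintype κ] [DecidableEq κ] (w : κ → ℕ) (l : List κ) :
    (l.map w).sum = ∑ j, w j * l.count j := by
  induction l with
  | nil => simp
  | cons i l ih =>
    simp only [List.map_cons, List.sum_cons, List.count_cons, ih, mul_add, Finset.sum_add_distrib,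
      beq_iff_eq, mul_ite, mul_one, mul_zero, Finset.sum_ite_eq, Finset.mem_univ, if_true]
    omega

theorem core_exists_list {κ : Type} [Fintype κ] [DecidableEq κ] (β : κ → ℕ) :
    ∃ l : List κ, ∀ j, β j = l.count j := by
  refine ⟨(Finsupp.toMultiset (Finsupp.equivFunOnFinite.symm β)).toList, fun j => ?_⟩
  rw [← Multiset.coe_count, Multiset.coe_toList, Finsupp.count_toMultiset]
  rfl

theorem core_ap_sum {R : Type} [CommRing R] [Algebra ℂ R] {κ τ : Type}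
    (D : κ → Derivation ℂ R R) (l : List κ) (S : Finset τ) (f : τ → R) :
    ap D l (∑ t ∈ S, f t) = ∑ t ∈ S, ap D l (f t) := by
  classical
  induction S using Finset.induction_on with
  | empty => simpa using filt_ap_zero D l
  | insert a S ha ih => rw [Finset.sum_insert ha, Finset.sum_insert ha, filt_ap_add, ih]

theorem core_word {R : Type} [CommRing R] [Algebra ℂ R] (p : Ideal R) [hp : p.IsPrime] {κ : Type}
    [Fintype κ] [DecidableEq κ] (D : κ → Derivation ℂ R R) (x : κ → R) (δ : R) (hδ : δ ∉ p)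
    (hx : ∀ j, x j ∈ p) (hd : ∀ i j, D i (x j) - (if i = j then δ else 0) ∈ p) (l : List κ)
    (b : R) (β : κ → ℕ) (hl : l.length ≤ ∑ j, β j) :
    ((∀ j, β j = l.count j) → ap D l (b * ∏ j, x j ^ β j) ∈ p → b ∈ p) ∧
      ((¬ ∀ j, β j = l.count j) → ap D l (b * ∏ j, x j ^ β j) ∈ p) := by
  have hw : ∀ i : κ, 1 ≤ (fun _ : κ => 1) i := fun _ => le_rfl
  have hF := Fl_one p D hw
  induction l generalizing b β with
  | nil =>
    refine ⟨fun h1 h2 => ?_, fun h1 => ?_⟩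
    · simpa [ap, h1] using h2
    · obtain ⟨j, hj⟩ := not_forall.1 h1
      refine Ideal.mul_mem_left _ _ ?_
      rw [← Finset.mul_prod_erase _ _ (Finset.mem_univ j)]
      exact Ideal.mul_mem_right _ _ (Ideal.pow_mem_of_mem p (hx j) _
        (Nat.pos_of_ne_zero (by simpa using hj)))
  | cons i l ih =>
    have h1 := filt_der_mon p D hw (fun j => j) x (fun _ => δ) (fun j => hF.ge (hx j))
      (fun j => by simpa using hd j j) (fun i j hij => hF.ge (by simpa [hij] using hd i j)) i β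
    have h2 := filt_prod p D hw (fun j => j) x (fun j => hF.ge (hx j)) Finset.univ β
    simp only [one_mul, Nat.add_sub_cancel] at h1 h2
    have h3 := add_mem (Ideal.mul_mem_left _ b h1) (Ideal.mul_mem_right (D i b) _ h2)
    have h4 := h3 l (by
      rw [List.map_const', List.sum_replicate, smul_eq_mul, mul_one]
      rw [List.length_cons] at hl
      omega)
    have h5 : ap D (i :: l) (b * ∏ j, x j ^ β j) =
        ap D l (b * (δ * β i) * ∏ j, x j ^ Function.update β i (β i - 1) j) +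
        ap D l (b * (D i (∏ j, x j ^ β j) -
          δ * ((β i : R) * ∏ j, x j ^ Function.update β i (β i - 1) j)) +
          (∏ j, x j ^ β j) * D i b) := by
      rw [← filt_ap_add, ap, Derivation.leibniz, smul_eq_mul, smul_eq_mul]
      congr 1
      ring
    rw [h5, Ideal.add_mem_iff_left _ h4]
    rcases Nat.eq_zero_or_pos (β i) with h0 | h0
    · refine ⟨fun h6 => ?_, fun _ => ?_⟩
      · have := h6 i
        rw [h0, List.count_cons_self] at this
        omega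
      · rw [h0, Nat.cast_zero, mul_zero, mul_zero, zero_mul, filt_ap_zero]
        exact p.zero_mem
    · have h6 := filt_wt (fun _ => 1) β i h0
      simp only [one_mul] at h6
      rw [List.length_cons] at hl
      obtain ⟨h7, h8⟩ := ih (b * (δ * β i)) (Function.update β i (β i - 1)) (by omega)
      have h9 : (∀ j, Function.update β i (β i - 1) j = l.count j) ↔
          ∀ j, β j = (i :: l).count j := by
        refine forall_congr' fun j => ?_
        by_cases hj : j = i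
        · subst hj
          rw [Function.update_self, List.count_cons_self]
          omega
        · rw [Function.update_of_ne hj, List.count_cons_of_ne (Ne.symm hj)]
      rw [h9] at h7 h8
      refine ⟨fun h10 h11 => ?_, h8⟩
      have hu : IsUnit ((β i : ℕ) : R) := by
        have : IsUnit ((β i : ℕ) : ℂ) := (Nat.cast_ne_zero.2 h0.ne').isUnit
        simpa using this.map (algebraMap ℂ R)
      have h12 := h7 h10 h11
      rw [← mul_assoc, Ideal.mul_unit_mem_iff_mem p hu] at h12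
      exact (hp.mem_or_mem h12).resolve_right hδ

/-- Take `β₀` with `c β₀ ≠ 0` of least total degree `∑ j, β₀ j` and apply a word `l` containing each
letter `j` exactly `β₀ j` times (its weight is `< N`).  Key lemma, by induction on `l` generalising
`b`, `β`: if `l.length ≤ ∑ j, β j` then `ap D l (b * ∏ j, x j ^ β j)` is congruent modulo `p` to
`(∏ j, (β j)!) * δ ^ l.length * b` if `β j = l.count j` for all `j`, and to `0` otherwise.  For the
step use `D i (b * x ^ β) ≡ β i * δ * b * x ^ (β - e i)` modulo `p ^ (∑ β)` and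
`ap D l (p ^ (l.length + 1)) ⊆ p` (`pow_le_Fl`, `Fl_one` with weights `1`); compare `filt_der_mon`
with all weights `1`. -/
theorem indep_word {R : Type} [CommRing R] [Algebra ℂ R] (p : Ideal R) [p.IsPrime] {κ : Type}
    [Fintype κ] [DecidableEq κ] (D : κ → Derivation ℂ R R) (x : κ → R) (δ : R) (hδ : δ ∉ p)
    (hx : ∀ j, x j ∈ p) (hd : ∀ i j, D i (x j) - (if i = j then δ else 0) ∈ p) (w : κ → ℕ)
    (N : ℕ) (S : Finset (κ → ℕ)) (hS : ∀ β ∈ S, ∑ j, w j * β j < N) (c : (κ → ℕ) → R)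
    (hc : ∀ β ∈ S, c β ∈ p → c β = 0) (h : Jet p D w N (∑ β ∈ S, c β * ∏ j, x j ^ β j)) :
    ∀ β ∈ S, c β = 0 := by
  classical
  by_contra hcon
  have hne : (S.filter fun β => c β ≠ 0).Nonempty := by
    rw [Finset.filter_nonempty_iff]
    by_contra h1
    exact hcon fun β hβ => by
      by_contra h2
      exact h1 ⟨β, hβ, h2⟩
  obtain ⟨β₀, hβ₀, hmin⟩ := Finset.exists_min_image _ (fun β : κ → ℕ => ∑ j, β j) hne
  rw [Finset.mem_filter] at hβ₀
  obtain ⟨l, hl⟩ := core_exists_list β₀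
  have hlen : l.length = ∑ j, β₀ j := by
    have := core_sum_count (fun _ => 1) l
    rw [List.map_const', List.sum_replicate, smul_eq_mul, mul_one] at this
    simpa only [one_mul, hl] using this
  have h1 := h l (by
    rw [core_sum_count]
    simpa only [hl] using hS β₀ hβ₀.1)
  rw [core_ap_sum, ← Finset.add_sum_erase _ _ hβ₀.1] at h1
  have h2 : ∑ β ∈ S.erase β₀, ap D l (c β * ∏ j, x j ^ β j) ∈ p := by
    refine Ideal.sum_mem _ fun β hβ => ?_
    rw [Finset.mem_erase] at hβ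
    by_cases h3 : c β = 0
    · rw [h3, zero_mul, filt_ap_zero]
      exact p.zero_mem
    · refine (core_word p D x δ hδ hx hd l (c β) β
        (hlen.trans_le (hmin β (Finset.mem_filter.2 ⟨hβ.2, h3⟩)))).2 fun h4 => hβ.1 ?_
      exact funext fun j => (h4 j).trans (hl j).symm
  exact hβ₀.2 (hc β₀ hβ₀.1 ((core_word p D x δ hδ hx hd l (c β₀) β₀ hlen.le).1 hl
    ((Ideal.add_mem_iff_left _ h2).1 h1)))

theorem core_inl {α β : Type} {T : ℕ} (l : List (α ⊕ β))
    (h : (l.map (Sum.elim (fun _ => 1) fun _ => T)).sum < T) :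
    ∃ l' : List α, l = l'.map Sum.inl := by
  induction l with
  | nil => exact ⟨[], rfl⟩
  | cons i l ih =>
    rw [List.map_cons, List.sum_cons] at h
    obtain ⟨l', rfl⟩ := ih (by omega)
    cases i with
    | inl a => exact ⟨a :: l', rfl⟩
    | inr a =>
      rw [Sum.elim_inr] at h
      omega

theorem core_ap_mem {R : Type} [CommRing R] [Algebra ℂ R] {κ : Type} (D : κ → Derivation ℂ R R)
    (I : Ideal R) (h : ∀ i, ∀ f ∈ I, D i f ∈ I) (l : List κ) (f : R) (hf : f ∈ I) :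
    ap D l f ∈ I := by
  induction l generalizing f with
  | nil => exact hf
  | cons i l ih => exact ih _ (h i f hf)

theorem core_num {C N₀ c m D A : ℕ} (hD : 1 ≤ D) (hA : 1 ≤ A)
    (h : ∀ k, k ^ c * A ≤ C * (N₀ + c * k * D + 1) ^ m) :
    c ≤ m ∧ (m = c → A ≤ C * (c + 1) ^ c * D ^ c) := by
  have h1 : ∀ k, N₀ < k → k ^ c * A ≤ k ^ m * (C * (c + 1) ^ m * D ^ m) := by
    intro k hk
    have h2 : N₀ + c * k * D + 1 ≤ k * ((c + 1) * D) := by
      have h3 : k * 1 ≤ k * D := Nat.mul_le_mul_left k hD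
      have h4 : k * ((c + 1) * D) = c * k * D + k * D := by ring
      omega
    refine (h k).trans ((Nat.mul_le_mul_left C (Nat.pow_le_pow_left h2 m)).trans_eq ?_)
    rw [mul_pow, mul_pow]
    ring
  constructor
  · by_contra hlt
    obtain ⟨B, hB⟩ : ∃ B, B = C * (c + 1) ^ m * D ^ m := ⟨_, rfl⟩
    have h2 := h1 (N₀ + B + 1) (by omega)
    rw [← hB] at h2
    have h3 : (N₀ + B + 1) ^ m * (N₀ + B + 1) ≤ (N₀ + B + 1) ^ c * A := by
      rw [← pow_succ]
      exact (Nat.pow_le_pow_right (by omega) (by omega)).trans (Nat.le_mul_of_pos_right _ hA)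
    have h4 := Nat.le_of_mul_le_mul_left (h3.trans h2) (by positivity)
    omega
  · rintro rfl
    exact Nat.le_of_mul_le_mul_left (h1 (N₀ + 1) (by omega)) (by positivity)

variable {σ : Type} [Fintype σ]

/-- Weights `1` on `inl`, `T` on `inr`, `c = ρ + r`.  `I ≤ Fl T` (a word of weight `< T` has only
`inl` letters, `ap_map`), `I₀ ≤ Fl n` for all `n`.  Apply `card_bound` with `J = Fl (c k T)`,
`n = c k T`, exponent `c k`, and `indep_word` to the box `β (inl i) < k T`, `β (inr j) < k` (as in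
`GPC96.core`): `k ^ c * T ^ ρ ≤ C (N₀ + c k D + 1) ^ (dm I₀ - dm p)` for all `k` when `c ≥ 1`.  Let
`k → ∞`; for `k > N₀` one has `N₀ + c k D + 1 ≤ k (c + 1) D`.  Use `dm_lt` for `dm p ≤ dm I₀`. -/
theorem core (I₀ : Ideal (MvPolynomial σ ℂ)) [I₀.IsPrime] :
    ∃ C : ℕ, ∀ (p I : Ideal (MvPolynomial σ ℂ)) [p.IsPrime] (D T ρ r : ℕ)
      (e : Fin ρ ⊕ Fin r → Derivation ℂ (MvPolynomial σ ℂ) (MvPolynomial σ ℂ))
      (x : Fin ρ ⊕ Fin r → MvPolynomial σ ℂ) (δ : MvPolynomial σ ℂ), 1 ≤ D → 1 ≤ T → I₀ ≤ I →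
      p ∈ I.minimalPrimes → I ≤ Ideal.span {f | f ∈ I ∧ f.totalDegree ≤ D} →
      (∀ i, ∀ f ∈ I₀, e i f ∈ I₀) →
      (∀ f ∈ I, Jet p (fun i => e (Sum.inl i)) (fun _ => 1) T f) → δ ∉ p → (∀ j, x j ∈ p) →
      (∀ i j, e i (x j) - (if i = j then δ else 0) ∈ p) →
      ρ + r + dm p ≤ dm I₀ ∧ (dm I₀ ≤ ρ + r + dm p → T ^ ρ ≤ C * D ^ (ρ + r)) := by
  classical
  obtain ⟨C, hC⟩ := card_bound I₀
  refine ⟨(C + 1) * (dm I₀ + 1) ^ dm I₀, ?_⟩
  intro p I _ D T ρ r e x δ hD hT hI₀ hp hI he hIT hδ hx hd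
  have hI₀p : I₀ ≤ p := hI₀.trans hp.1.2
  have hdm : dm p ≤ dm I₀ := by
    rcases hI₀p.eq_or_lt with h | h
    · rw [h]
    · exact (dm_lt h).le
  rcases Nat.eq_zero_or_pos (ρ + r) with hc | hc
  · have hρ : ρ = 0 := by omega
    refine ⟨by omega, fun _ => ?_⟩
    rw [hc, hρ, pow_zero, pow_zero, mul_one]
    exact Nat.succ_le_of_lt (by positivity)
  obtain ⟨w, hw⟩ : ∃ w : Fin ρ ⊕ Fin r → ℕ, w = Sum.elim (fun _ => 1) fun _ => T := ⟨_, rfl⟩
  have hw1 : ∀ i, 1 ≤ w i := fun i => by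
    rw [hw]
    cases i with
    | inl a => exact le_rfl
    | inr a => exact hT
  have hIF : I ≤ Fl p e w hw1 T := by
    intro f hf l hl
    rw [hw] at hl
    obtain ⟨l', rfl⟩ := core_inl l hl
    rw [ap_map]
    refine hIT f hf l' ?_
    rwa [List.map_map] at hl
  obtain ⟨S₀, N₀, hS₀, hN⟩ := hC p I D hI₀p hp hI
  have key : ∀ k, k ^ (ρ + r) * T ^ ρ ≤ C * (N₀ + (ρ + r) * k * D + 1) ^ (dm I₀ - dm p) := by
    intro k
    obtain ⟨S, hS⟩ : ∃ S : Finset (Fin ρ ⊕ Fin r → ℕ), S = Fintype.piFinset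
      fun j => Finset.range (Sum.elim (fun _ => k * T) (fun _ => k) j) := ⟨_, rfl⟩
    have hcard : S.card = k ^ (ρ + r) * T ^ ρ := by
      rw [hS, Fintype.card_piFinset, Fintype.prod_sum_type]
      simp only [Sum.elim_inl, Sum.elim_inr, Finset.card_range, Finset.prod_const,
        Finset.card_univ, Fintype.card_fin]
      ring
    have hwt : ∀ β ∈ S, ∑ j, w j * β j < (ρ + r) * k * T := by
      intro β hβ
      rw [hS, Fintype.mem_piFinset] at hβ
      have h1 : ∀ j, w j * β j < k * T := fun j => by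
        have h2 := Finset.mem_range.1 (hβ j)
        rw [hw]
        cases j with
        | inl a => simpa using h2
        | inr a =>
          rw [Sum.elim_inr] at h2 ⊢
          rw [mul_comm]
          exact Nat.mul_lt_mul_of_pos_right h2 hT
      have h2 : (Finset.univ : Finset (Fin ρ ⊕ Fin r)).Nonempty := by
        rw [← Finset.card_pos]
        simpa using hc
      refine (Finset.sum_lt_sum_of_nonempty h2 fun j _ => h1 j).trans_eq ?_
      simp [mul_assoc]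
    have h1 : p ^ ((ρ + r) * k * T) ≤ Fl p e w hw1 ((ρ + r) * k * T) := by
      have := pow_le_Fl p e hw1 (I := p) (T := 1) (Fl_one p e hw1).ge ((ρ + r) * k * T)
      rwa [mul_one] at this
    have h2 : I₀ ≤ Fl p e w hw1 ((ρ + r) * k * T) :=
      fun f hf l _ => hI₀p (core_ap_mem e I₀ he l f hf)
    have h3 := hN _ _ _ h1 (pow_le_Fl p e hw1 hIF ((ρ + r) * k)) h2 S
      (fun β => ∏ j, x j ^ β.1 j) fun c hc hs => by
        obtain ⟨c', hc'⟩ : ∃ c' : (Fin ρ ⊕ Fin r → ℕ) → MvPolynomial σ ℂ, ∀ β : S, c' β.1 = c β :=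
          ⟨fun β => if h : β ∈ S then c ⟨β, h⟩ else 0, fun β => dif_pos β.2⟩
        have h4 := indep_word p e x δ hδ hx hd w _ S hwt c'
          (fun β hβ => by
            rw [hc' ⟨β, hβ⟩]
            exact hS₀ _ (hc _))
          (by
            rw [← Finset.sum_coe_sort S]
            simp only [hc']
            exact hs)
        funext β
        exact (hc' β).symm.trans (h4 β.1 β.2)
    rwa [Fintype.card_coe, hcard] at h3
  obtain ⟨h1, h2⟩ := core_num hD (Nat.one_le_pow _ _ hT) key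
  refine ⟨by omega, fun h3 => (h2 (by omega)).trans (Nat.mul_le_mul_right _ ?_)⟩
  have h4 : ρ + r ≤ dm I₀ := by omega
  exact Nat.mul_le_mul (Nat.le_succ C) ((Nat.pow_le_pow_left (by omega) _).trans
    (Nat.pow_le_pow_right (by omega) h4))

end GPC73

end

end

-- part MP_57341d_ag.H73.Sys
section

section

/-! An abstract uniformised commutative algebraic group and its Zariski closed sets. -/

open MvPolynomial Pool.Agent.MP_d171e3_nt GPC96 Module

namespace GPC73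

/-- `T D` are the sections of degree `D`, `ξ` are affine coordinates on `η ≠ 0`. -/
structure Sys (E : Type) [NormedAddCommGroup E] [NormedSpace ℂ E] (σ : Type) where
  T : ℕ → Submodule ℂ (Ent E)
  one : 1 ∈ T 0
  mul : ∀ {a b f g}, f ∈ T a → g ∈ T b → f * g ∈ T (a + b)
  kap : ∀ (D : ℕ) (z : E), ∃ κ : Ent E, κ.1 z ≠ 0 ∧ ∀ Ψ ∈ T D, ∀ (x : E) (l : List E),
    Br dE l (tr x Ψ) (tr (-x) κ) ∈ T (2 * D)
  η : Ent E
  η_mem : ∃ e, η ∈ T e
  ϑ : Ent E
  ϑ_ne : ∀ z, η.1 z ≠ 0 → ϑ.1 z ≠ 0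
  ξ : σ → E → ℂ
  an : ∀ i, AnalyticOnNhd ℂ (ξ i) {z | η.1 z ≠ 0}
  num : ∀ i, ∃ D, ∃ Ψ ∈ T D, ∃ Φ ∈ T D, ∀ z, η.1 z ≠ 0 → Φ.1 z ≠ 0 ∧ Ψ.1 z = Φ.1 z * ξ i z
  ns : ∀ χ : σ → ℂ, (∀ f : MvPolynomial σ ℂ,
    (∀ z, η.1 z ≠ 0 → eval (fun i => ξ i z) f = 0) → eval χ f = 0) →
      ∃ z, η.1 z ≠ 0 ∧ χ = fun i => ξ i z
  et : ∀ z, η.1 z ≠ 0 → ∀ v, (∀ i, fderiv ℂ (ξ i) z v = 0) → v = 0
  d : E → σ → MvPolynomial σ ℂ
  der : ∀ v i z, η.1 z ≠ 0 → fderiv ℂ (ξ i) z v = eval (fun i => ξ i z) (d v i)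
  Δ : MvPolynomial σ ℂ
  x₀ : E
  η_x₀ : η.1 x₀ ≠ 0
  Δ_x₀ : eval (fun i => ξ i x₀) Δ ≠ 0
  c : ℕ
  rep : ∀ D, ∀ Ψ ∈ T D, ∃ f : MvPolynomial σ ℂ, f.totalDegree ≤ c * (D + 1) ∧ ∀ z, η.1 z ≠ 0 →
    eval (fun i => ξ i z) Δ * Ψ.1 z = ϑ.1 z ^ D * eval (fun i => ξ i z) f

/-- `sh x Z = Z - x`. -/
def sh {E : Type} [Add E] (x : E) (Z : Set E) : Set E := {z | z + x ∈ Z}

namespace Sys

variable {E : Type} [NormedAddCommGroup E] [NormedSpace ℂ E] {σ : Type} (S : Sys E σ)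

/-- Sections. -/
def Sec (Ψ : Ent E) : Prop := ∃ D, Ψ ∈ S.T D

/-- Zariski closure. -/
def clo (Z : Set E) : Set E := {z | ∀ Ψ, S.Sec Ψ → (∀ w ∈ Z, Ψ.1 w = 0) → Ψ.1 z = 0}

/-- Zariski closed sets. -/
def Cl (Z : Set E) : Prop := S.clo Z ⊆ Z

/-- Irreducibility. -/
def Pr (Z : Set E) : Prop := ∀ Ψ Φ, S.Sec Ψ → S.Sec Φ → (∀ w ∈ Z, Ψ.1 w * Φ.1 w = 0) →
  (∀ w ∈ Z, Ψ.1 w = 0) ∨ ∀ w ∈ Z, Φ.1 w = 0

/-- The domain of the chart. -/
def O : Set E := {z | S.η.1 z ≠ 0}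

/-- The value of a polynomial at a point of the chart. -/
noncomputable def ev (z : E) (f : MvPolynomial σ ℂ) : ℂ := eval (fun i => S.ξ i z) f

/-- The ideal of `V` in the chart. -/
def idl (V : Set E) : Ideal (MvPolynomial σ ℂ) where
  carrier := {f | ∀ z ∈ V, z ∈ S.O → S.ev z f = 0}
  add_mem' := fun hf hg z hz hO => by
    have h1 := hf z hz hO
    have h2 := hg z hz hO
    simp only [ev, map_add] at *
    rw [h1, h2, add_zero]
  zero_mem' := fun _ _ _ => by simp [ev]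
  smul_mem' := fun c f hf z hz hO => by
    have h1 := hf z hz hO
    simp only [ev, smul_eq_mul, map_mul] at *
    rw [h1, mul_zero]

/-- The ideal of `x₀ + H`. -/
def q (H : Set E) : Ideal (MvPolynomial σ ℂ) := S.idl (sh (-S.x₀) H)

/-- The derivation of the polynomial ring attached to a direction. -/
noncomputable def D (v : E) : Derivation ℂ (MvPolynomial σ ℂ) (MvPolynomial σ ℂ) :=
  mkDerivation ℂ (S.d v)

/-- The Zariski tangent space at the origin. -/
def tg (H : Set E) : Submodule ℂ E where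
  carrier := {v | ∀ Ψ, S.Sec Ψ → (∀ w ∈ H, Ψ.1 w = 0) → fderiv ℂ Ψ.1 0 v = 0}
  add_mem' := fun hu hv Ψ h1 h2 => by rw [map_add, hu Ψ h1 h2, hv Ψ h1 h2, add_zero]
  zero_mem' := fun _ _ _ => map_zero _
  smul_mem' := fun c v hv Ψ h1 h2 => by rw [map_smul, hv Ψ h1 h2, smul_zero]

/-- An irreducible closed submonoid. -/
structure Mon (H : Set E) : Prop where
  cl : S.Cl H
  pr : S.Pr H
  zero : 0 ∈ H
  add : ∀ a ∈ H, ∀ b ∈ H, a + b ∈ H

theorem isOpen_O : IsOpen S.O := isOpen_ne_fun (Ent.diff S.η).continuous continuous_const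

theorem Sec.mul {S : Sys E σ} {Ψ Φ : Ent E} (h : S.Sec Ψ) (h' : S.Sec Φ) : S.Sec (Ψ * Φ) := by
  obtain ⟨a, ha⟩ := h
  obtain ⟨b, hb⟩ := h'
  exact ⟨a + b, S.mul ha hb⟩

/-- `kap` with the empty word. -/
theorem sec_tr {Ψ : Ent E} (h : S.Sec Ψ) (x z : E) :
    ∃ κ : Ent E, κ.1 (z - x) ≠ 0 ∧ ∀ y, S.Sec (tr y Ψ * tr (-y) κ) := by
  obtain ⟨D, hD⟩ := h
  obtain ⟨κ, h1, h2⟩ := S.kap D (z - x)
  exact ⟨κ, h1, fun y => ⟨2 * D, h2 Ψ hD y []⟩⟩

theorem subset_clo (Z : Set E) : Z ⊆ S.clo Z := by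
  exact fun z hz Ψ _ h => h z hz

theorem cl_clo (Z : Set E) : S.Cl (S.clo Z) := by
  exact fun z hz Ψ hΨ h => hz Ψ hΨ fun w hw => hw Ψ hΨ h

theorem clo_subset {Z Y : Set E} (h : Z ⊆ Y) (hY : S.Cl Y) : S.clo Z ⊆ Y := by
  exact fun z hz => hY fun Ψ hΨ h0 => hz Ψ hΨ fun w hw => h0 w (h hw)

theorem pr_clo {Z : Set E} (h : S.Pr Z) : S.Pr (S.clo Z) := by
  intro Ψ Φ hΨ hΦ h0
  exact (h Ψ Φ hΨ hΦ fun w hw => h0 w (S.subset_clo Z hw)).imp
    (fun h1 w hw => hw Ψ hΨ h1) fun h1 w hw => hw Φ hΦ h1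

theorem pr_singleton (z : E) : S.Pr {z} := by
  intro Ψ Φ _ _ h
  exact (mul_eq_zero.1 (h z rfl)).imp (fun h1 w hw => hw ▸ h1) fun h1 w hw => hw ▸ h1

theorem pr_univ : S.Pr Set.univ := by
  intro Ψ Φ _ _ h
  by_cases h1 : Ψ = 0
  · exact Or.inl fun w _ => by rw [h1]; rfl
  by_cases h2 : Φ = 0
  · exact Or.inr fun w _ => by rw [h2]; rfl
  obtain ⟨z, h3, h4⟩ := ent_mul_ne h1 h2
  exact absurd (h z trivial) (mul_ne_zero h3 h4)

theorem cl_zero {Ψ : Ent E} (h : S.Sec Ψ) : S.Cl {z | Ψ.1 z = 0} := by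
  exact fun z hz => hz Ψ h fun w hw => hw

theorem cl_iInter {ι : Sort*} {Z : ι → Set E} (h : ∀ i, S.Cl (Z i)) : S.Cl (⋂ i, Z i) := by
  exact fun z hz => Set.mem_iInter.2 fun i => S.clo_subset (Set.iInter_subset Z i) (h i) hz

theorem cl_sh {Z : Set E} (h : S.Cl Z) (x : E) : S.Cl (sh x Z) := by
  intro z hz
  refine h fun Ψ hΨ h0 => ?_
  obtain ⟨κ, h1, h2⟩ := S.sec_tr hΨ x z
  have h3 : Ψ.1 (z + x) * κ.1 (z + -x) = 0 := hz _ (h2 x) fun w hw => by
    show Ψ.1 (w + x) * κ.1 (w + -x) = 0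
    rw [h0 _ hw, zero_mul]
  rw [sub_eq_add_neg] at h1
  exact (mul_eq_zero.1 h3).resolve_right h1

theorem pr_sh {Z : Set E} (h : S.Pr Z) (x : E) : S.Pr (sh x Z) := by
  intro Ψ Φ hΨ hΦ h0
  by_contra hc
  rw [not_or, not_forall₂, not_forall₂] at hc
  obtain ⟨⟨a, ha, ha'⟩, b, hb, hb'⟩ := hc
  obtain ⟨κ, h1, h2⟩ := S.sec_tr hΨ (-x) (a + x)
  obtain ⟨μ, h3, h4⟩ := S.sec_tr hΦ (-x) (b + x)
  rw [sub_eq_add_neg] at h1 h3
  rcases h _ _ (h2 (-x)) (h4 (-x)) (fun w hw => by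
    show Ψ.1 (w + -x) * κ.1 (w + - -x) * (Φ.1 (w + -x) * μ.1 (w + - -x)) = 0
    have h5 := h0 (w + -x) (by show w + -x + x ∈ Z; rwa [neg_add_cancel_right])
    rw [mul_mul_mul_comm, h5, zero_mul]) with h5 | h5
  · have h6 : Ψ.1 (a + x + -x) * κ.1 (a + x + - -x) = 0 := h5 _ ha
    rw [add_neg_cancel_right] at h6
    exact mul_ne_zero ha' h1 h6
  · have h6 : Φ.1 (b + x + -x) * μ.1 (b + x + - -x) = 0 := h5 _ hb
    rw [add_neg_cancel_right] at h6
    exact mul_ne_zero hb' h3 h6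

theorem pr_union {Z A B : Set E} (h : S.Pr Z) (hA : S.Cl A) (hB : S.Cl B) (hZ : Z ⊆ A ∪ B) :
    Z ⊆ A ∨ Z ⊆ B := by
  by_contra hc
  rw [not_or, Set.not_subset, Set.not_subset] at hc
  obtain ⟨⟨a, ha, ha'⟩, b, hb, hb'⟩ := hc
  refine ha' (hA fun Ψ hΨ h1 => ?_)
  by_contra h2
  refine hb' (hB fun Φ hΦ h3 => ?_)
  refine (h Ψ Φ hΨ hΦ fun w hw => ?_).elim (fun h4 => absurd (h4 a ha) h2) fun h4 => h4 b hb
  rcases hZ hw with h4 | h4
  · rw [h1 w h4, zero_mul]
  · rw [h3 w h4, mul_zero]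

/-- For a section `Ψ` the set of `a` with `Ψ = 0` on `a + B` is closed; `pr_sh`, `pr_union`. -/
theorem pr_add {A B : Set E} (hA : S.Pr A) (hB : S.Pr B) :
    S.Pr {z | ∃ a ∈ A, ∃ b ∈ B, z = a + b} := by
  intro Ψ Φ hΨ hΦ h0
  have hc : ∀ {Θ : Ent E}, S.Sec Θ → S.Cl (⋂ b ∈ B, sh b {z | Θ.1 z = 0}) := fun hΘ =>
    S.cl_iInter fun b => S.cl_iInter fun _ => S.cl_sh (S.cl_zero hΘ) b
  have hm : ∀ {a b : E}, b ∈ B → a + b ∈ sh (-a) B := fun {a b} hb => by
    show a + b + -a ∈ B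
    rwa [add_comm a b, add_neg_cancel_right]
  refine (S.pr_union hA (hc hΨ) (hc hΦ) fun a ha => ?_).imp ?_ ?_
  · refine (S.pr_sh hB (-a) Ψ Φ hΨ hΦ fun w hw => h0 w ⟨a, ha, w + -a, hw, by abel⟩).imp
      (fun h1 => Set.mem_iInter₂.2 fun b hb => h1 _ (hm hb))
      fun h1 => Set.mem_iInter₂.2 fun b hb => h1 _ (hm hb)
  · rintro h1 _ ⟨a, ha, b, hb, rfl⟩
    exact Set.mem_iInter₂.1 (h1 ha) b hb
  · rintro h1 _ ⟨a, ha, b, hb, rfl⟩
    exact Set.mem_iInter₂.1 (h1 ha) b hb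

/-- The set is the common zero set of the sections `Br dE l (tr x Ψ) (tr (-x) κ)`, `l` a word in
the `b i` of length `< n`, `κ` as in `kap`: `br_map`, `br_jet`, `jet_of_br`, `jb_tr`. -/
theorem cl_jet {ι : Type} (b : ι → E) (n : ℕ) {Ψ : Ent E} (h : S.Sec Ψ) (x : E) :
    S.Cl {z | JB b n (z + x) Ψ} := by
  intro z hz
  obtain ⟨D, hD⟩ := h
  obtain ⟨κ, h1, h2⟩ := S.kap D (z + -x)
  refine (jb_tr b n z x Ψ).1 (jet_of_br (mz z) _ n _ (tr (-x) κ) h1 fun l hl => ?_)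
  rw [← br_map b dE l]
  refine hz _ ⟨_, h2 Ψ hD x (l.map b)⟩ fun w hw => ?_
  rw [br_map b dE l]
  exact br_jet (mz w) _ 1 l _ (tr (-x) κ)
    (Jet.mono _ _ _ (by omega) ((jb_tr b n w x Ψ).2 hw)) [] Nat.zero_lt_one

/-- Numerators of polynomials (induction on `f`). -/
theorem exists_num (f : MvPolynomial σ ℂ) : ∃ Ψ Φ, S.Sec Ψ ∧ S.Sec Φ ∧
    ∀ z ∈ S.O, Φ.1 z ≠ 0 ∧ Ψ.1 z = Φ.1 z * S.ev z f := by
  suffices h : ∃ D, ∃ Ψ ∈ S.T D, ∃ Φ ∈ S.T D,
      ∀ z ∈ S.O, Φ.1 z ≠ 0 ∧ Ψ.1 z = Φ.1 z * S.ev z f by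
    obtain ⟨D, Ψ, h1, Φ, h2, h3⟩ := h
    exact ⟨Ψ, Φ, ⟨D, h1⟩, ⟨D, h2⟩, h3⟩
  induction f using MvPolynomial.induction_on with
  | C c =>
    refine ⟨0, c • 1, (S.T 0).smul_mem c S.one, 1, S.one, fun z _ => ⟨one_ne_zero, ?_⟩⟩
    show c * 1 = 1 * eval _ (C c)
    rw [eval_C, mul_comm]
  | add f g hf hg =>
    obtain ⟨a, Ψ, h1, Φ, h2, h3⟩ := hf
    obtain ⟨b, Ψ', h4, Φ', h5, h6⟩ := hg
    refine ⟨a + b, Ψ * Φ' + Φ * Ψ', (S.T _).add_mem (S.mul h1 h5) (S.mul h2 h4), Φ * Φ',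
      S.mul h2 h5, fun z hz => ⟨mul_ne_zero (h3 z hz).1 (h6 z hz).1, ?_⟩⟩
    show Ψ.1 z * Φ'.1 z + Φ.1 z * Ψ'.1 z = Φ.1 z * Φ'.1 z * eval _ (f + g)
    rw [(h3 z hz).2, (h6 z hz).2, map_add, ev, ev]
    ring
  | mul_X f i hf =>
    obtain ⟨a, Ψ, h1, Φ, h2, h3⟩ := hf
    obtain ⟨b, Ψ', h4, Φ', h5, h6⟩ := S.num i
    refine ⟨a + b, Ψ * Ψ', S.mul h1 h4, Φ * Φ', S.mul h2 h5,
      fun z hz => ⟨mul_ne_zero (h3 z hz).1 (h6 z hz).1, ?_⟩⟩
    show Ψ.1 z * Ψ'.1 z = Φ.1 z * Φ'.1 z * eval _ (f * X i)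
    rw [(h3 z hz).2, (h6 z hz).2, map_mul, eval_X, ev]
    ring

theorem fderiv_ev (v : E) (f : MvPolynomial σ ℂ) {z : E} (hz : z ∈ S.O) :
    fderiv ℂ (fun w => S.ev w f) z v = S.ev z (S.D v f) := by
  have ha : ∀ i, AnalyticOnNhd ℂ (S.ξ i) S.O := S.an
  have h := congrArg (fun g : An S.O => g.1 ⟨z, hz⟩)
    (evP_der S.isOpen_O S.ξ ha v (S.d v) (fun i w hw => S.der v i w hw) f)
  exact ((dA_apply S.isOpen_O v _ (F := fun w => S.ev w f)
    (fun w => evP_apply S.ξ ha f w) ⟨z, hz⟩).symm.trans h.symm).trans (evP_apply S.ξ ha _ _)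

end Sys

end GPC73

end

section

/-! Irreducible closed sets through the origin and prime ideals of the chart. -/

open MvPolynomial Pool.Agent.MP_d171e3_nt GPC96 Module

namespace GPC73

namespace Sys

variable {E : Type} [NormedAddCommGroup E] [NormedSpace ℂ E] {σ : Type} (S : Sys E σ)

theorem chart_mul (z : E) (f g : MvPolynomial σ ℂ) : S.ev z (f * g) = S.ev z f * S.ev z g :=
  map_mul _ _ _

theorem chart_x₀ {V : Set E} (h0 : 0 ∈ V) : S.x₀ ∈ sh (-S.x₀) V := by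
  show S.x₀ + -S.x₀ ∈ V
  rwa [add_neg_cancel]

/-- A section vanishing on the part of an irreducible `V ∋ x₀` where `η, Δ ≠ 0` vanishes on `V`. -/
theorem dense_part {V : Set E} (hV : S.Pr V) (h0 : S.x₀ ∈ V) {Ψ : Ent E} (hΨ : S.Sec Ψ)
    (h : ∀ z ∈ V, z ∈ S.O → S.ev z S.Δ ≠ 0 → Ψ.1 z = 0) : ∀ z ∈ V, Ψ.1 z = 0 := by
  obtain ⟨A, B, hA, -, hAB⟩ := S.exists_num S.Δ
  rcases hV Ψ (S.η * A) hΨ (Sec.mul S.η_mem hA) (fun w hw => by
    show Ψ.1 w * (S.η.1 w * A.1 w) = 0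
    by_cases hO : w ∈ S.O
    · by_cases hΔ : S.ev w S.Δ = 0
      · rw [(hAB w hO).2, hΔ, mul_zero, mul_zero, mul_zero]
      · rw [h w hw hO hΔ, zero_mul]
    · rw [show S.η.1 w = 0 from not_not.1 hO, zero_mul, mul_zero]) with h1 | h1
  · exact h1
  · have h2 : S.η.1 S.x₀ * A.1 S.x₀ = 0 := h1 _ h0
    rw [(hAB _ S.η_x₀).2] at h2
    exact absurd h2 (mul_ne_zero S.η_x₀ (mul_ne_zero (hAB _ S.η_x₀).1 S.Δ_x₀))

theorem idl_prime {V : Set E} (hV : S.Pr V) (h0 : S.x₀ ∈ V) : (S.idl V).IsPrime := by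
  refine ⟨fun h => ?_, fun {f g} hfg => ?_⟩
  · have h1 : S.ev S.x₀ 1 = 0 := ((Ideal.eq_top_iff_one _).1 h) _ h0 S.η_x₀
    simp [ev] at h1
  · obtain ⟨A, B, hA, -, hAB⟩ := S.exists_num f
    obtain ⟨A', B', hA', -, hAB'⟩ := S.exists_num g
    rcases hV A (S.η * A') hA (Sec.mul S.η_mem hA') (fun w hw => by
      show A.1 w * (S.η.1 w * A'.1 w) = 0
      by_cases hO : w ∈ S.O
      · have h1 : S.ev w (f * g) = 0 := hfg w hw hO
        rw [chart_mul] at h1
        rw [(hAB w hO).2, (hAB' w hO).2]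
        linear_combination B.1 w * S.η.1 w * B'.1 w * h1
      · rw [show S.η.1 w = 0 from not_not.1 hO, zero_mul, mul_zero]) with h1 | h1
    · refine Or.inl fun z hz hO => ?_
      have h2 := h1 z hz
      rw [(hAB z hO).2] at h2
      exact (mul_eq_zero.1 h2).resolve_left (hAB z hO).1
    · refine Or.inr fun z hz hO => ?_
      have h2 : S.η.1 z * A'.1 z = 0 := h1 z hz
      rw [(hAB' z hO).2] at h2
      exact (mul_eq_zero.1 ((mul_eq_zero.1 h2).resolve_left hO)).resolve_left (hAB' z hO).1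

theorem idl_anti {V V' : Set E} (h : V ⊆ V') : S.idl V' ≤ S.idl V :=
  fun _ hf z hz hO => hf z (h hz) hO

/-- A section is represented by a polynomial with the same zeros where `Δ ≠ 0`. -/
theorem chart_rep {Ψ : Ent E} (hΨ : S.Sec Ψ) : ∃ f : MvPolynomial σ ℂ, ∀ z ∈ S.O,
    (Ψ.1 z = 0 → S.ev z f = 0) ∧ (S.ev z S.Δ ≠ 0 → S.ev z f = 0 → Ψ.1 z = 0) := by
  obtain ⟨D, hD⟩ := hΨ
  obtain ⟨f, -, hf⟩ := S.rep D Ψ hD
  refine ⟨f, fun z hz => ⟨fun h => ?_, fun hΔ h => ?_⟩⟩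
  · have h1 := hf z hz
    rw [h, mul_zero] at h1
    exact (mul_eq_zero.1 h1.symm).resolve_left (pow_ne_zero _ (S.ϑ_ne z hz))
  · have h1 := hf z hz
    rw [show eval (fun i => S.ξ i z) f = 0 from h, mul_zero] at h1
    exact (mul_eq_zero.1 h1).resolve_left hΔ

/-- A section vanishing on `V` and not on `V'`, and `rep`. -/
theorem idl_lt {V V' : Set E} (hV : S.Cl V) (hV' : S.Pr V') (h0 : S.x₀ ∈ V) (h : V ⊂ V') :
    S.idl V' < S.idl V := by
  refine lt_of_le_of_ne (S.idl_anti h.1) fun he => h.2 fun z hz => hV fun Ψ hΨ hΨV => ?_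
  obtain ⟨f, hf⟩ := S.chart_rep hΨ
  have h1 : f ∈ S.idl V' := he ▸ fun w hw hO => (hf w hO).1 (hΨV w hw)
  exact S.dense_part hV' (h.1 h0) hΨ (fun w hw hO hΔ => (hf w hO).2 hΔ (h1 w hw hO)) z hz

theorem q_prime {V : Set E} (hV : S.Pr V) (h0 : 0 ∈ V) : (S.q V).IsPrime :=
  S.idl_prime (S.pr_sh hV _) (S.chart_x₀ h0)

theorem D_mem (v : E) {f : MvPolynomial σ ℂ} (hf : f ∈ S.idl Set.univ) :
    S.D v f ∈ S.idl Set.univ := by
  intro z _ hz
  have h1 : (fun w => S.ev w f) =ᶠ[nhds z] fun _ => 0 :=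
    Filter.eventually_of_mem (S.isOpen_O.mem_nhds hz) fun w hw => hf w trivial hw
  rw [← S.fderiv_ev v f hz, h1.fderiv_eq]
  simp

variable [Fintype σ]

theorem dm_q_lt {V V' : Set E} (hc : S.Cl V) (hV : S.Pr V) (hV' : S.Pr V') (h0 : 0 ∈ V)
    (h : V ⊂ V') : dm (S.q V) < dm (S.q V') := by
  have := S.q_prime hV h0
  have := S.q_prime hV' (h.1 h0)
  refine dm_lt (S.idl_lt (S.cl_sh hc _) (S.pr_sh hV' _) (S.chart_x₀ h0)
    ⟨fun z hz => h.1 hz, fun hh => h.2 fun z hz => ?_⟩)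
  have h1 : z + S.x₀ + -S.x₀ ∈ V := hh (show z + S.x₀ + -S.x₀ ∈ V' by rwa [add_neg_cancel_right])
  rwa [add_neg_cancel_right] at h1

/-- Let `q' ≤ q H` be a prime containing `I` and `Z'` the set of `z ∈ O` with `Δ z ≠ 0` where `q'`
vanishes.  By the Nullstellensatz a polynomial vanishing on `Z'` is in `q'`.  Hence `Z'` is
irreducible, `clo Z' - x₀` is closed, irreducible, contained in `Y` and contains `H`. -/
theorem min_prime {H Y : Set E} (hH : S.Pr H) (h0 : 0 ∈ H) (hY : S.Cl Y)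
    (hmax : ∀ H', S.Cl H' → S.Pr H' → H ⊆ H' → H' ⊆ Y → H' = H) {I : Ideal (MvPolynomial σ ℂ)}
    (h1 : S.idl Set.univ ≤ I) (h2 : I ≤ S.q H)
    (h3 : ∀ z ∈ S.O, S.ev z S.Δ ≠ 0 → (∀ f ∈ I, S.ev z f = 0) → z - S.x₀ ∈ Y) :
    S.q H ∈ I.minimalPrimes := by
  refine ⟨⟨S.q_prime hH h0, h2⟩, fun q' hq' hle => ?_⟩
  obtain ⟨hp, hI⟩ := hq'
  obtain ⟨Z, hZ⟩ : ∃ Z : Set E, ∀ z, z ∈ Z ↔
      z ∈ S.O ∧ S.ev z S.Δ ≠ 0 ∧ ∀ f ∈ q', S.ev z f = 0 := ⟨{z | _}, fun _ => Iff.rfl⟩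
  have hA : ∀ f, (∀ z ∈ Z, S.ev z f = 0) → f ∈ q' := by
    intro f hf
    have h4 : f * S.Δ ∈ q' := by
      rw [← IsPrime.vanishingIdeal_zeroLocus (K := ℂ) q']
      intro χ hχ
      obtain ⟨z, hz, rfl⟩ := S.ns χ fun g hg => hχ g (hI (h1 fun w _ hw => hg w hw))
      show S.ev z (f * S.Δ) = 0
      rw [chart_mul]
      by_cases hΔ : S.ev z S.Δ = 0
      · rw [hΔ, mul_zero]
      · rw [hf z ((hZ z).2 ⟨hz, hΔ, hχ⟩), zero_mul]
    exact (hp.mem_or_mem h4).resolve_right fun h => S.Δ_x₀ (hle h _ (S.chart_x₀ h0) S.η_x₀)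
  have hB : S.Pr Z := by
    intro Ψ Φ hΨ hΦ h
    obtain ⟨f, hf⟩ := S.chart_rep hΨ
    obtain ⟨g, hg⟩ := S.chart_rep hΦ
    have h4 : f * g ∈ q' := hA _ fun z hz => by
      have hO := ((hZ z).1 hz).1
      rw [chart_mul]
      rcases mul_eq_zero.1 (h z hz) with h5 | h5
      · rw [(hf z hO).1 h5, zero_mul]
      · rw [(hg z hO).1 h5, mul_zero]
    refine (hp.mem_or_mem h4).imp (fun h5 z hz => ?_) fun h5 z hz => ?_
    · obtain ⟨a, b, c⟩ := (hZ z).1 hz
      exact (hf z a).2 b (c f h5)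
    · obtain ⟨a, b, c⟩ := (hZ z).1 hz
      exact (hg z a).2 b (c g h5)
  have hC : sh S.x₀ (S.clo Z) = H := by
    refine hmax _ (S.cl_sh (S.cl_clo Z) _) (S.pr_sh (S.pr_clo hB) _) (fun z hz => ?_)
      fun z hz => ?_
    · intro Ψ hΨ h
      refine S.dense_part (S.pr_sh hH _) (S.chart_x₀ h0) hΨ (fun w hw hO hΔ =>
        h w ((hZ w).2 ⟨hO, hΔ, fun f hf => hle hf w hw hO⟩)) _ ?_
      show z + S.x₀ + -S.x₀ ∈ H
      rwa [add_neg_cancel_right]
    · have h4 : z + S.x₀ + -S.x₀ ∈ Y := S.clo_subset (Y := sh (-S.x₀) Y) (fun w hw => by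
        obtain ⟨a, b, c⟩ := (hZ w).1 hw
        show w + -S.x₀ ∈ Y
        rw [← sub_eq_add_neg]
        exact h3 w a b fun f hf => c f (hI hf)) (S.cl_sh hY _) hz
      rwa [add_neg_cancel_right] at h4
  refine fun f hf => hA f fun z hz => hf z ?_ ((hZ z).1 hz).1
  show z + -S.x₀ ∈ H
  rw [← hC]
  show z + -S.x₀ + S.x₀ ∈ S.clo Z
  rw [neg_add_cancel_right]
  exact S.subset_clo Z hz

variable [FiniteDimensional ℂ E]

theorem dm_univ : dm (S.idl Set.univ) ≤ finrank ℂ E := by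
  have := S.idl_prime S.pr_univ (Set.mem_univ _)
  exact dm_le S.isOpen_O S.ξ S.an _ fun χ hχ => S.ns χ fun f hf => hχ f fun z _ hz => hf z hz

end Sys

end GPC73

end

section

/-! The stabiliser of a component. -/

open MvPolynomial Pool.Agent.MP_d171e3_nt GPC96 Module

namespace GPC73

namespace Sys

variable {E : Type} [NormedAddCommGroup E] [NormedSpace ℂ E] {σ : Type} (S : Sys E σ)
  [Fintype σ] [FiniteDimensional ℂ E]

theorem stab_lt {V : Set E} (hc : S.Cl V) (hp : S.Pr V) (h0 : 0 ∈ V) (h : V ≠ Set.univ) :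
    dm (S.q V) < finrank ℂ E :=
  (S.dm_q_lt hc hp S.pr_univ h0 (Set.ssubset_univ_iff.2 h)).trans_le S.dm_univ

theorem stab_le {V : Set E} (hc : S.Cl V) (hp : S.Pr V) (h0 : 0 ∈ V) :
    dm (S.q V) ≤ finrank ℂ E := by
  by_cases h : V = Set.univ
  · subst h
    exact S.dm_univ
  · exact (S.stab_lt hc hp h0 h).le

/-- A closed irreducible subset through the origin of largest dimension. -/
theorem stab_max {Z : Set E} (hZ : S.Cl Z) (h0 : 0 ∈ Z) :
    ∃ V, S.Cl V ∧ S.Pr V ∧ 0 ∈ V ∧ V ⊆ Z ∧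
      ∀ V', S.Cl V' → S.Pr V' → 0 ∈ V' → V' ⊆ Z → dm (S.q V') ≤ dm (S.q V) := by
  classical
  have hex : ∃ k, ∃ V, (S.Cl V ∧ S.Pr V ∧ 0 ∈ V ∧ V ⊆ Z) ∧ finrank ℂ E - dm (S.q V) = k :=
    ⟨_, S.clo {0}, ⟨S.cl_clo _, S.pr_clo (S.pr_singleton 0), S.subset_clo _ rfl,
      S.clo_subset (Set.singleton_subset_iff.2 h0) hZ⟩, rfl⟩
  obtain ⟨V, ⟨a, b, c, d⟩, e⟩ := Nat.find_spec hex
  refine ⟨V, a, b, c, d, fun V' a' b' c' d' => ?_⟩
  have h1 := Nat.find_min' hex ⟨V', ⟨a', b', c', d'⟩, rfl⟩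
  have h2 := S.stab_le a' b' c'
  have h3 := S.stab_le a b c
  omega

omit [FiniteDimensional ℂ E] in
theorem stab_eq {V V' : Set E} (hc : S.Cl V) (hp : S.Pr V) (hp' : S.Pr V') (h0 : 0 ∈ V)
    (h : V ⊆ V') (hd : dm (S.q V') ≤ dm (S.q V)) : V' = V := by
  by_contra hne
  exact absurd (S.dm_q_lt hc hp hp' h0 (h.ssubset_of_ne fun e => hne e.symm)) (not_lt.2 hd)

/-- The chain argument.  For a closed `Z ∋ 0` let `m Z` be the largest `dm (q V)` over closed
irreducible `V` with `0 ∈ V ⊆ Z` (`clo {0}` is one; the values are `≤ n`, and `< n` if `Z ≠ univ`,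
by `dm_q_lt`, `dm_univ`).  `m (X j)` decreases, so `m (X r) = m (X (r + 1))` for some `r < n`; take
`V` attaining `m (X (r + 1))`: it is maximal in `X r`.  Let `Y` be the closed set of `h` with
`h + V ⊆ X r` and `H` attain `m Y`.  Then `clo (H + V)` is irreducible (`pr_add`), contains `V` and
lies in `X r`, so equals `V`; and `clo (H + H)` lies in `Y`, so equals `H`. -/
theorem exists_stab (X : ℕ → Set E) (hX : ∀ j, S.Cl (X j)) (ha : ∀ j, X (j + 1) ⊆ X j)
    (h0 : 0 ∈ X (finrank ℂ E)) (h1 : X 0 ≠ Set.univ) :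
    ∃ (r : ℕ) (V H : Set E), V ⊆ X (r + 1) ∧ 0 ∈ V ∧ S.Mon H ∧ (∀ h ∈ H, ∀ v ∈ V, h + v ∈ V) ∧
      ∀ H', S.Cl H' → S.Pr H' → H ⊆ H' → H' ⊆ {h | ∀ v ∈ V, h + v ∈ X r} → H' = H := by
  have hanti : Antitone X := antitone_nat_of_succ_le ha
  have hW : ∀ j, ∃ V, j ≤ finrank ℂ E → S.Cl V ∧ S.Pr V ∧ 0 ∈ V ∧ V ⊆ X j ∧
      ∀ V', S.Cl V' → S.Pr V' → 0 ∈ V' → V' ⊆ X j → dm (S.q V') ≤ dm (S.q V) := by
    intro j
    by_cases hj : j ≤ finrank ℂ E
    · obtain ⟨V, hV⟩ := S.stab_max (hX j) (hanti hj h0)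
      exact ⟨V, fun _ => hV⟩
    · exact ⟨∅, fun h => absurd h hj⟩
  choose W hW using hW
  have hr : ∃ r, r < finrank ℂ E ∧ dm (S.q (W r)) ≤ dm (S.q (W (r + 1))) := by
    by_contra hcon
    push Not at hcon
    have h2 : ∀ j, j ≤ finrank ℂ E → dm (S.q (W j)) + j ≤ dm (S.q (W 0)) := by
      intro j
      induction j with
      | zero => exact fun _ => le_rfl
      | succ j ih =>
        intro hj
        have := hcon j hj
        have := ih (by omega)
        omega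
    obtain ⟨a, b, c, d, -⟩ := hW 0 (Nat.zero_le _)
    have h3 := S.stab_lt a b c fun e => h1 (Set.univ_subset_iff.1 (e ▸ d))
    have h4 := h2 _ le_rfl
    omega
  obtain ⟨r, hr, hle⟩ := hr
  obtain ⟨a, b, c, d, -⟩ := hW (r + 1) hr
  have hm := (hW r hr.le).2.2.2.2
  generalize W (r + 1) = V at a b c d hle
  have hY : S.Cl {h | ∀ v ∈ V, h + v ∈ X r} := by
    have e : {h | ∀ v ∈ V, h + v ∈ X r} = ⋂ v, ⋂ _ : v ∈ V, sh v (X r) := by
      ext h
      simp [sh]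
    rw [e]
    exact S.cl_iInter fun v => S.cl_iInter fun _ => S.cl_sh (hX r) v
  obtain ⟨H, a', b', c', d', hH⟩ := S.stab_max hY fun v hv => by
    rw [zero_add]
    exact ha r (d hv)
  have hmax : ∀ H', S.Cl H' → S.Pr H' → H ⊆ H' → H' ⊆ {h | ∀ v ∈ V, h + v ∈ X r} → H' = H :=
    fun H' p q s t => S.stab_eq a' b' q c' s (hH H' p q (s c') t)
  have hV : ∀ h ∈ H, ∀ v ∈ V, h + v ∈ V := by
    have s : V ⊆ S.clo {z | ∃ a ∈ H, ∃ b ∈ V, z = a + b} := fun v hv =>
      S.subset_clo _ ⟨0, c', v, hv, (zero_add v).symm⟩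
    have t : S.clo {z | ∃ a ∈ H, ∃ b ∈ V, z = a + b} ⊆ X r := by
      refine S.clo_subset ?_ (hX r)
      rintro z ⟨x, hx, y, hy, rfl⟩
      exact d' hx y hy
    have p := S.pr_clo (S.pr_add b' b)
    have e := S.stab_eq a b p c s ((hm _ (S.cl_clo _) p (s c) t).trans hle)
    intro h hh v hv
    rw [← e]
    exact S.subset_clo _ ⟨h, hh, v, hv, rfl⟩
  refine ⟨r, V, H, d, c, ⟨a', b', c', ?_⟩, hV, hmax⟩
  have e := hmax (S.clo {z | ∃ a ∈ H, ∃ b ∈ H, z = a + b}) (S.cl_clo _)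
    (S.pr_clo (S.pr_add b' b')) (fun v hv => S.subset_clo _ ⟨0, c', v, hv, (zero_add v).symm⟩)
    (S.clo_subset (by
      rintro z ⟨x, hx, y, hy, rfl⟩ v hv
      rw [add_assoc]
      exact d' hx _ (hV y hy v hv)) hY)
  intro x hx y hy
  rw [← e]
  exact S.subset_clo _ ⟨x, hx, y, hy, rfl⟩

end Sys

end GPC73

end

section

/-! The tangent space of an irreducible closed submonoid. -/

open MvPolynomial Pool.Agent.MP_d171e3_nt GPC96 Module Filter Topology

namespace GPC73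

theorem tan_tr {E : Type} [NormedAddCommGroup E] [NormedSpace ℂ E] (Ψ κ : Ent E) (y y' x v : E) :
    fderiv ℂ (tr y Ψ * tr y' κ).1 x v =
      Ψ.1 (x + y) * fderiv ℂ κ.1 (x + y') v + κ.1 (x + y') * fderiv ℂ Ψ.1 (x + y) v := by
  rw [← dE_apply, Derivation.leibniz, ← tr_dE, ← tr_dE]
  rfl

namespace Sys

variable {E : Type} [NormedAddCommGroup E] [NormedSpace ℂ E] {σ : Type} (S : Sys E σ)

theorem tan_x₀ {H : Set E} (hH : S.Mon H) : S.x₀ ∈ sh (-S.x₀) H := by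
  show S.x₀ + -S.x₀ ∈ H
  rw [add_neg_cancel]; exact hH.zero

theorem tan_diff (f : MvPolynomial σ ℂ) {z : E} (hz : z ∈ S.O) :
    DifferentiableAt ℂ (fun w => S.ev w f) z :=
  (an_eval S.ξ S.an f z hz).differentiableAt

theorem tan_ev {H : Set E} (hH : S.Mon H) {f : MvPolynomial σ ℂ} (hf : f ∈ S.q H) :
    S.ev S.x₀ f = 0 := hf _ (S.tan_x₀ hH) S.η_x₀

/-- The polynomial that represents a section vanishing on `V`. -/
theorem tan_rep {V : Set E} {Ψ : Ent E} (h : S.Sec Ψ) (h0 : ∀ w ∈ V, Ψ.1 w = 0) :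
    ∃ (n : ℕ) (f : MvPolynomial σ ℂ), f ∈ S.idl V ∧
      ∀ z ∈ S.O, S.ev z S.Δ * Ψ.1 z = S.ϑ.1 z ^ n * S.ev z f := by
  obtain ⟨n, hn⟩ := h
  obtain ⟨f, -, hf⟩ := S.rep n Ψ hn
  refine ⟨n, f, fun z hz hO => ?_, hf⟩
  have := hf z hO
  rw [h0 z hz, mul_zero] at this
  exact (mul_eq_zero.1 this.symm).resolve_left (pow_ne_zero _ (S.ϑ_ne z hO))

/-- Homogeneity. -/
theorem tg_stable {H : Set E} (hH : S.Mon H) {v : E} (hv : v ∈ S.tg H) {f : MvPolynomial σ ℂ}
    (hf : f ∈ S.q H) : S.D v f ∈ S.q H := by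
  obtain ⟨Ψ, Φ, hΨ, -, h⟩ := S.exists_num f
  have h0 : ∀ z ∈ sh (-S.x₀) H, Ψ.1 z = 0 :=
    S.dense_part (S.pr_sh hH.pr _) (S.tan_x₀ hH) hΨ fun z hz hO _ => by
      rw [(h z hO).2, hf z hz hO, mul_zero]
  intro z hz hO
  obtain ⟨κ, hκ, hs⟩ := S.sec_tr hΨ z 0
  have h1 := hv _ (hs z) fun w hw => by
    show Ψ.1 (w + z) * κ.1 (w + -z) = 0
    rw [h0 (w + z) (by
      show w + z + -S.x₀ ∈ H
      rw [add_assoc]; exact hH.add _ hw _ hz), zero_mul]
  rw [tan_tr, zero_add, zero_add, h0 z hz, zero_mul, zero_add] at h1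
  rw [zero_sub] at hκ
  have h2 := (mul_eq_zero.1 h1).resolve_left hκ
  have h3 : Ψ.1 =ᶠ[𝓝 z] Φ.1 * fun w => S.ev w f :=
    eventually_of_mem (S.isOpen_O.mem_nhds hO) fun w hw => (h w hw).2
  rw [h3.fderiv_eq, fderiv_mul (Ent.diff Φ z) (S.tan_diff f hO)] at h2
  simp only [_root_.add_apply, _root_.smul_apply, smul_eq_mul,
    S.fderiv_ev v f hO, hf z hz hO, zero_mul, add_zero] at h2
  exact (mul_eq_zero.1 h2).resolve_left (h z hO).1

/-- The tangent space seen in the chart. -/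
theorem mem_tg {H : Set E} (hH : S.Mon H) {v : E}
    (hv : ∀ f ∈ S.q H, S.ev S.x₀ (S.D v f) = 0) : v ∈ S.tg H := by
  intro Ψ hΨ h0
  obtain ⟨κ, hκ, hs⟩ := S.sec_tr hΨ (-S.x₀) S.x₀
  have hG : ∀ w ∈ sh (-S.x₀) H, (tr (-S.x₀) Ψ * tr (- -S.x₀) κ).1 w = 0 := fun w hw => by
    show Ψ.1 (w + -S.x₀) * κ.1 (w + - -S.x₀) = 0
    rw [h0 _ hw, zero_mul]
  obtain ⟨n, f, hf, h⟩ := S.tan_rep (hs (-S.x₀)) hG
  have hO : S.x₀ ∈ S.O := S.η_x₀
  have h3 : (fun w => S.ev w S.Δ) * (tr (-S.x₀) Ψ * tr (- -S.x₀) κ).1 =ᶠ[𝓝 S.x₀]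
      (S.ϑ ^ n).1 * fun w => S.ev w f :=
    eventually_of_mem (S.isOpen_O.mem_nhds hO) fun w hw => h w hw
  have h4 := congrArg (fun L : E →L[ℂ] ℂ => L v) h3.fderiv_eq
  rw [fderiv_mul (S.tan_diff _ hO) (Ent.diff _ _), fderiv_mul (Ent.diff _ _) (S.tan_diff f hO)]
    at h4
  simp only [_root_.add_apply, _root_.smul_apply, smul_eq_mul,
    S.fderiv_ev v f hO, hv f hf, S.tan_ev hH hf, hG _ (S.tan_x₀ hH), zero_mul, mul_zero,
    add_zero] at h4
  have h5 := (mul_eq_zero.1 h4).resolve_left S.Δ_x₀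
  rw [tan_tr, add_neg_cancel, h0 0 hH.zero, zero_mul, zero_add] at h5
  rw [sub_eq_add_neg] at hκ
  exact (mul_eq_zero.1 h5).resolve_left hκ

theorem tan_line {H : Set E} (hH : S.Mon H) {v : E} (hv : v ∈ S.tg H) {f : MvPolynomial σ ℂ}
    (hf : f ∈ S.q H) : ∀ᶠ t in 𝓝 (0 : ℂ), S.ev (S.x₀ + t • v) f = 0 := by
  have hO : S.x₀ ∈ S.O := S.η_x₀
  have han : ∀ i, AnalyticOnNhd ℂ (S.ξ i) S.O := S.an
  refine line_zero S.isOpen_O v ⟨S.x₀, hO⟩ (evP S.ξ han f) (F := fun w => S.ev w f)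
    (fun w => evP_apply _ _ _ _) fun k => ?_
  induction k generalizing f with
  | zero => exact mem_ma.2 ((evP_apply _ _ _ _).trans (S.tan_ev hH hf))
  | succ k ih =>
    rw [Function.iterate_succ_apply, ← evP_der S.isOpen_O S.ξ han v (S.d v) (S.der v)]
    exact ih (S.tg_stable hH hv hf)

variable [Fintype σ]

/-- The tangent space lies in the monoid. -/
theorem tg_subset {H : Set E} (hH : S.Mon H) {v : E} (hv : v ∈ S.tg H) : v ∈ H := by
  obtain ⟨s, hs⟩ : (S.q H).FG := IsNoetherian.noetherian _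
  have hO : S.x₀ ∈ S.O := S.η_x₀
  have hl : Tendsto (fun t : ℂ => S.x₀ + t • v) (𝓝 0) (𝓝 S.x₀) :=
    Continuous.tendsto' (by fun_prop) _ _ (by simp)
  have e1 : ∀ᶠ t in 𝓝 (0 : ℂ), ∀ f ∈ s, S.ev (S.x₀ + t • v) f = 0 :=
    (eventually_all_finset s).2 fun f hf => S.tan_line hH hv (hs ▸ Ideal.subset_span hf)
  have e2 : ∀ᶠ t in 𝓝 (0 : ℂ), S.x₀ + t • v ∈ S.O := hl.eventually (S.isOpen_O.mem_nhds hO)
  have e3 : ∀ᶠ t in 𝓝 (0 : ℂ), S.ev (S.x₀ + t • v) S.Δ ≠ 0 :=
    hl.eventually ((S.tan_diff S.Δ hO).continuousAt.eventually_ne S.Δ_x₀)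
  have e4 : ∀ᶠ t in 𝓝 (0 : ℂ), t • v ∈ H := by
    filter_upwards [e1, e2, e3] with t h1 h2 h3
    have : S.x₀ + t • v ∈ sh (-S.x₀) H := by
      refine S.cl_sh hH.cl _ fun Ψ hΨ h0 => ?_
      obtain ⟨n, f, hf, h⟩ := S.tan_rep hΨ h0
      have hk : S.q H ≤ RingHom.ker (eval fun i => S.ξ i (S.x₀ + t • v)) := by
        rw [← hs, Ideal.span_le]
        exact fun g hg => h1 g hg
      have h5 : S.ev (S.x₀ + t • v) f = 0 := hk hf
      have h6 := h _ h2
      rw [h5, mul_zero] at h6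
      exact (mul_eq_zero.1 h6).resolve_left h3
    have h7 : S.x₀ + t • v + -S.x₀ ∈ H := this
    rwa [add_neg_cancel_comm] at h7
  obtain ⟨n, hn⟩ := ((tendsto_one_div_add_atTop_nhds_zero_nat (𝕜 := ℂ)).eventually e4).exists
  have hm : ∀ (u : E), u ∈ H → ∀ k : ℕ, (k : ℂ) • u ∈ H := fun u hu k => by
    induction k with
    | zero => simpa using hH.zero
    | succ k ih => rw [Nat.cast_succ, add_smul, one_smul]; exact hH.add _ ih _ hu
  have := hm _ hn (n + 1)
  rwa [smul_smul, Nat.cast_succ, mul_one_div_cancel (Nat.cast_add_one_ne_zero n), one_smul] at this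

omit [Fintype σ] in
theorem tan_dual {H : Set E} (hH : S.Mon H) {κ : Type} [Fintype κ] [DecidableEq κ]
    (e : κ → E) (he : ∀ a : κ → ℂ, ∑ i, a i • e i ∈ S.tg H → a = 0) (c : κ → ℂ) :
    ∃ f ∈ S.q H, ∀ i, S.ev S.x₀ (S.D (e i) f) = c i := by
  have hO : S.x₀ ∈ S.O := S.η_x₀
  let L : MvPolynomial σ ℂ →ₗ[ℂ] (κ → ℂ) := LinearMap.pi fun i =>
    (aeval fun j => S.ξ j S.x₀ : MvPolynomial σ ℂ →ₐ[ℂ] ℂ).toLinearMap ∘ₗ (S.D (e i)).toLinearMap
  have hL : ∀ f i, L f i = S.ev S.x₀ (S.D (e i) f) := fun f i => rfl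
  have ht : ((S.q H).restrictScalars ℂ).map L = ⊤ := by
    by_contra hne
    obtain ⟨φ, hφ, h0⟩ := Submodule.exists_le_ker_of_lt_top _ (lt_top_iff_ne_top.2 hne)
    have hφe : ∀ x : κ → ℂ, φ x = ∑ i, φ (Pi.single i 1) * x i := fun x => by
      rw [LinearMap.pi_apply_eq_sum_univ φ x]
      refine Finset.sum_congr rfl fun i _ => ?_
      rw [smul_eq_mul, mul_comm]
      congr 2
      funext j
      simp [Pi.single_apply, eq_comm]
    have ha := he (fun i => φ (Pi.single i 1)) (S.mem_tg hH fun f hf => by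
      rw [← S.fderiv_ev _ f hO, map_sum]
      have : φ (L f) = 0 := h0 (Submodule.mem_map_of_mem hf)
      rw [hφe] at this
      rw [← this]
      exact Finset.sum_congr rfl fun i _ => by
        rw [map_smul, smul_eq_mul, S.fderiv_ev _ f hO, hL])
    refine hφ (LinearMap.ext fun x => ?_)
    rw [hφe]
    exact Finset.sum_eq_zero fun i _ => by rw [congrFun ha i]; simp
  obtain ⟨f, hf, h⟩ : c ∈ ((S.q H).restrictScalars ℂ).map L := ht ▸ Submodule.mem_top
  exact ⟨f, hf, fun i => by rw [← hL, h]⟩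

/-- Conormal coordinates dual to a family independent modulo the tangent space. -/
theorem exists_conormal {H : Set E} (hH : S.Mon H) {κ : Type} [Fintype κ] [DecidableEq κ]
    (e : κ → E) (he : ∀ a : κ → ℂ, ∑ i, a i • e i ∈ S.tg H → a = 0) :
    ∃ (x : κ → MvPolynomial σ ℂ) (δ : MvPolynomial σ ℂ), δ ∉ S.q H ∧ (∀ j, x j ∈ S.q H) ∧
      ∀ i j, S.D (e i) (x j) - (if i = j then δ else 0) ∈ S.q H := by
  choose f hf h using fun j => S.tan_dual hH e he fun i => (1 : Matrix κ κ ℂ) i j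
  let M : Matrix κ κ (MvPolynomial σ ℂ) := Matrix.of fun i j => S.D (e i) (f j)
  refine ⟨fun j => ∑ k, f k * M.adjugate k j, M.det, fun hδ => ?_,
    fun j => Ideal.sum_mem _ fun k _ => Ideal.mul_mem_right _ _ (hf k), fun i j => ?_⟩
  · have h1 : S.ev S.x₀ M.det = 1 := by
      show eval (fun i => S.ξ i S.x₀) M.det = 1
      rw [RingHom.map_det, show (eval fun i => S.ξ i S.x₀).mapMatrix M = 1 from
        Matrix.ext fun i j => h j i, Matrix.det_one]
    rw [S.tan_ev hH hδ] at h1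
    exact zero_ne_one h1
  · have h2 : (if i = j then M.det else 0) = ∑ k, M.adjugate k j * S.D (e i) (f k) := by
      have := congrFun (congrFun (Matrix.mul_adjugate M) i) j
      rw [Matrix.mul_apply, Matrix.smul_apply, Matrix.one_apply, smul_eq_mul, mul_ite, mul_one,
        mul_zero] at this
      rw [← this]
      exact Finset.sum_congr rfl fun k _ => mul_comm _ _
    rw [h2, map_sum, ← Finset.sum_sub_distrib]
    refine Ideal.sum_mem _ fun k _ => ?_
    rw [Derivation.leibniz, smul_eq_mul, smul_eq_mul, add_sub_cancel_right]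
    exact Ideal.mul_mem_right _ _ (hf k)

variable [FiniteDimensional ℂ E]

/-- The tangent space is not larger than the monoid. -/
theorem tg_le_dm {H : Set E} (hH : S.Mon H) : finrank ℂ (S.tg H) ≤ dm (S.q H) := by
  have hO : S.x₀ ∈ S.O := S.η_x₀
  obtain ⟨y, hy⟩ := indep_of_imm S.ξ S.x₀ (fun i => S.an i _ hO) (S.tg H)
    fun v _ hv => S.et _ hO v hv
  have := S.q_prime hH.pr hH.zero
  have h := le_dm (S.q H) (fun a => X (y a)) fun Q hQ => hy Q ?_
  · rwa [Fintype.card_fin] at h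
  have hl : Tendsto (fun u : S.tg H => S.x₀ + (u : E)) (𝓝 0) (𝓝 S.x₀) :=
    Continuous.tendsto' (by fun_prop) _ _ (by simp)
  filter_upwards [hl.eventually (S.isOpen_O.mem_nhds hO)] with u hu
  have h1 := hQ (S.x₀ + u) (by
    show S.x₀ + u + -S.x₀ ∈ H
    rw [add_neg_cancel_comm]; exact S.tg_subset hH u.2) hu
  rw [← h1]
  have : (aeval fun a => X (y a) : MvPolynomial _ ℂ →ₐ[ℂ] MvPolynomial σ ℂ) = rename y :=
    MvPolynomial.algHom_ext fun a => by simp
  rw [this, ev, eval_rename]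
  rfl

end Sys

/-- A basis of `E / U` whose first vectors come from `W`. -/
theorem exists_adapted {E : Type} [AddCommGroup E] [Module ℂ E] [FiniteDimensional ℂ E]
    (U W : Submodule ℂ E) : ∃ (ρ r : ℕ) (e : Fin ρ ⊕ Fin r → E), (∀ i, e (Sum.inl i) ∈ W) ∧
      (∀ a : Fin ρ ⊕ Fin r → ℂ, ∑ i, a i • e i ∈ U → a = 0) ∧
      ρ + finrank ℂ (W ⊓ U : Submodule ℂ E) = finrank ℂ W ∧
      ρ + r + finrank ℂ U = finrank ℂ E := by
  obtain ⟨C, hC⟩ := Submodule.exists_isCompl (W.map U.mkQ)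
  let b := finBasis ℂ (W.map U.mkQ)
  let c := finBasis ℂ C
  choose e₁ h₁ h₁' using fun i => Submodule.mem_map.1 (b i).2
  choose e₂ h₂ using fun j => U.mkQ_surjective (c j)
  refine ⟨_, _, Sum.elim e₁ e₂, h₁, fun a ha => ?_, ?_, ?_⟩
  · have hli : LinearIndependent ℂ (Sum.elim (fun i => (b i : E ⧸ U)) fun j => (c j : E ⧸ U)) := by
      refine LinearIndependent.sum_type
        (b.linearIndependent.map' (W.map U.mkQ).subtype (Submodule.ker_subtype _))
        (c.linearIndependent.map' C.subtype (Submodule.ker_subtype _))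
        (hC.disjoint.mono (Submodule.span_le.2 ?_) (Submodule.span_le.2 ?_))
      · rintro _ ⟨i, rfl⟩; exact (b i).2
      · rintro _ ⟨i, rfl⟩; exact (c i).2
    funext i
    refine Fintype.linearIndependent_iff.1 hli a ?_ i
    have h0 : U.mkQ (∑ i, a i • Sum.elim e₁ e₂ i) = 0 := (Submodule.Quotient.mk_eq_zero U).2 ha
    rw [← h0, map_sum]
    refine Finset.sum_congr rfl fun k _ => ?_
    rw [map_smul]
    cases k with
    | inl k => rw [Sum.elim_inl, Sum.elim_inl, h₁']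
    | inr k => rw [Sum.elim_inr, Sum.elim_inr, h₂]
  · have h := LinearMap.finrank_range_add_finrank_ker (U.mkQ.domRestrict W)
    rw [LinearMap.range_domRestrict, LinearMap.ker_domRestrict, Submodule.ker_mkQ,
      ← Submodule.finrank_map_subtype_eq W (Submodule.comap W.subtype U),
      Submodule.map_comap_subtype] at h
    exact h
  · rw [Submodule.finrank_add_eq_of_isCompl hC, Submodule.finrank_quotient_add_finrank]

end GPC73

end

end
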