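import Mathlib

-- part MP_57341d_ag.H87.Ser
section

set_option autoImplicit false

namespace GPC

open Real Set Filter Topology PowerSeries

/-- Value of a rational power series at a real point. -/
noncomputable def ev (f : PowerSeries ℚ) (x : ℝ) : ℝ :=
  ∑' n, ((PowerSeries.coeff n f : ℚ) : ℝ) * x ^ n

/-- The weighted l1 norm of f at radius r is finite and at most B. -/
def Nrm (f : PowerSeries ℚ) (r B : ℝ) : Prop :=
  Summable (fun n => |((PowerSeries.coeff n f : ℚ) : ℝ)| * r ^ n) ∧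
    ∑' n, |((PowerSeries.coeff n f : ℚ) : ℝ)| * r ^ n ≤ B

/-- D n is a common denominator of the coefficients of index at most n. -/
def Den (f : PowerSeries ℚ) (D : ℕ → ℕ) : Prop :=
  ∀ n, ∀ k ≤ n, ∃ z : ℤ, (D n : ℚ) * PowerSeries.coeff k f = z

theorem Nrm.of_bound {f : ℚ⟦X⟧} {C r : ℝ} (hC : 0 < C) (hr : 0 ≤ r) (hrC : r * C ≤ 1 / 2)
    (h : ∀ n, |((coeff n f : ℚ) : ℝ)| ≤ C ^ (n + 1)) : Nrm f r (2 * C) := by
  have h1 : ∀ n, |((coeff n f : ℚ) : ℝ)| * r ^ n ≤ C * (1 / 2) ^ n := fun n =>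
    calc |((coeff n f : ℚ) : ℝ)| * r ^ n ≤ C ^ (n + 1) * r ^ n := by gcongr; exact h n
      _ = C * (r * C) ^ n := by ring
      _ ≤ C * (1 / 2) ^ n := by gcongr
  have h2 : HasSum (fun n : ℕ => C * (1 / 2 : ℝ) ^ n) (C * 2) := hasSum_geometric_two.mul_left C
  have h3 := Summable.of_nonneg_of_le (fun n => by positivity) h1 h2.summable
  exact ⟨h3, (h3.tsum_le_tsum h1 h2.summable).trans (by rw [h2.tsum_eq, mul_comm])⟩

theorem Nrm.coeff_le {f : ℚ⟦X⟧} {r B : ℝ} (h : Nrm f r B) (hr : 0 ≤ r) (n : ℕ) :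
    |((coeff n f : ℚ) : ℝ)| * r ^ n ≤ B := by
  exact (h.1.le_tsum n fun m _ => by positivity).trans h.2

theorem Nrm.mono {f : ℚ⟦X⟧} {r B B' : ℝ} (h : Nrm f r B) (hB : B ≤ B') : Nrm f r B' := by
  exact ⟨h.1, h.2.trans hB⟩

theorem Nrm.one {r : ℝ} : Nrm 1 r 1 := by
  have h : HasSum (fun n => |((coeff n (1 : ℚ⟦X⟧) : ℚ) : ℝ)| * r ^ n)
      (|((coeff 0 (1 : ℚ⟦X⟧) : ℚ) : ℝ)| * r ^ 0) :=
    hasSum_single 0 fun n hn => by simp [coeff_one, hn]
  exact ⟨h.summable, by rw [h.tsum_eq]; simp⟩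

theorem Nrm.poly (p : Polynomial ℚ) (r : ℝ) : ∃ B, Nrm (p : ℚ⟦X⟧) r B := by
  refine ⟨_, summable_of_ne_finset_zero (s := p.support) fun n hn => ?_, le_rfl⟩
  simp [Polynomial.notMem_support_iff.1 hn]

theorem Nrm.add {f g : ℚ⟦X⟧} {r B B' : ℝ} (hf : Nrm f r B) (hg : Nrm g r B') (hr : 0 ≤ r) :
    Nrm (f + g) r (B + B') := by
  have h1 : ∀ n, |((coeff n (f + g) : ℚ) : ℝ)| * r ^ n ≤
      |((coeff n f : ℚ) : ℝ)| * r ^ n + |((coeff n g : ℚ) : ℝ)| * r ^ n := fun n => by
    rw [← add_mul, map_add, Rat.cast_add]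
    gcongr
    exact abs_add_le _ _
  have h2 := hf.1.add hg.1
  have h3 := Summable.of_nonneg_of_le (fun n => by positivity) h1 h2
  exact ⟨h3, (h3.tsum_le_tsum h1 h2).trans (by rw [hf.1.tsum_add hg.1]; exact add_le_add hf.2 hg.2)⟩

theorem Nrm.mul {f g : ℚ⟦X⟧} {r B B' : ℝ} (hf : Nrm f r B) (hg : Nrm g r B') (hr : 0 ≤ r) :
    Nrm (f * g) r (B * B') := by
  have h1 : ∀ n, |((coeff n (f * g) : ℚ) : ℝ)| * r ^ n ≤ ∑ kl ∈ Finset.HasAntidiagonal.antidiagonal n,
      (|((coeff kl.1 f : ℚ) : ℝ)| * r ^ kl.1) * (|((coeff kl.2 g : ℚ) : ℝ)| * r ^ kl.2) := fun n => by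
    rw [coeff_mul, Rat.cast_sum]
    refine (mul_le_mul_of_nonneg_right (Finset.abs_sum_le_sum_abs _ _) (by positivity)).trans ?_
    rw [Finset.sum_mul]
    refine (Finset.sum_congr rfl fun kl hkl => ?_).le
    rw [← Finset.HasAntidiagonal.mem_antidiagonal.1 hkl, Rat.cast_mul, abs_mul]
    ring
  have h2 := (summable_norm_sum_mul_antidiagonal_of_summable_norm hf.1.norm hg.1.norm).of_norm
  have h3 := Summable.of_nonneg_of_le (fun n => by positivity) h1 h2
  refine ⟨h3, (h3.tsum_le_tsum h1 h2).trans ?_⟩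
  rw [← tsum_mul_tsum_eq_tsum_sum_antidiagonal_of_summable_norm hf.1.norm hg.1.norm]
  have h4 : 0 ≤ ∑' n, |((coeff n f : ℚ) : ℝ)| * r ^ n := tsum_nonneg fun n => by positivity
  exact mul_le_mul hf.2 hg.2 (tsum_nonneg fun n => by positivity) (h4.trans hf.2)

theorem Nrm.rescale {f : ℚ⟦X⟧} {r r' B : ℝ} (a : ℚ) (hf : Nrm f r B) (hr' : 0 ≤ r')
    (h : |(a : ℝ)| * r' ≤ r) : Nrm (rescale a f) r' B := by
  have h1 : ∀ n, |((coeff n (PowerSeries.rescale a f) : ℚ) : ℝ)| * r' ^ n ≤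
      |((coeff n f : ℚ) : ℝ)| * r ^ n := fun n =>
    calc |((coeff n (PowerSeries.rescale a f) : ℚ) : ℝ)| * r' ^ n
        = |((coeff n f : ℚ) : ℝ)| * (|(a : ℝ)| * r') ^ n := by
          rw [coeff_rescale, Rat.cast_mul, Rat.cast_pow, abs_mul, abs_pow]
          ring
      _ ≤ _ := by gcongr
  have h3 := Summable.of_nonneg_of_le (fun n => by positivity) h1 hf.1
  exact ⟨h3, (h3.tsum_le_tsum h1 hf.1).trans hf.2⟩

theorem ev_rescale (f : ℚ⟦X⟧) (a : ℚ) (x : ℝ) : ev (rescale a f) x = ev f (a * x) := by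
  refine tsum_congr fun n => ?_
  rw [coeff_rescale, Rat.cast_mul, Rat.cast_pow]
  ring

theorem ev_poly (p : Polynomial ℚ) (x : ℝ) : ev (p : ℚ⟦X⟧) x = Polynomial.aeval x p := by
  rw [ev, tsum_eq_sum (s := p.support) fun n hn => by simp [Polynomial.notMem_support_iff.1 hn],
    Polynomial.aeval_def, Polynomial.eval₂_eq_sum, Polynomial.sum]
  simp

theorem Nrm.summable_norm {f : ℚ⟦X⟧} {r B x : ℝ} (hf : Nrm f r B) (hx : |x| ≤ r) :
    Summable fun n => ‖((coeff n f : ℚ) : ℝ) * x ^ n‖ := by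
  refine Summable.of_nonneg_of_le (fun n => norm_nonneg _) (fun n => ?_) hf.1
  rw [norm_mul, norm_pow, Real.norm_eq_abs, Real.norm_eq_abs]
  gcongr

theorem ev_add {f g : ℚ⟦X⟧} {r B B' x : ℝ} (hf : Nrm f r B) (hg : Nrm g r B') (hx : |x| ≤ r) :
    ev (f + g) x = ev f x + ev g x := by
  rw [ev, ev, ev, ← (hf.summable_norm hx).of_norm.tsum_add (hg.summable_norm hx).of_norm]
  refine tsum_congr fun n => ?_
  rw [map_add, Rat.cast_add, add_mul]

theorem ev_mul {f g : ℚ⟦X⟧} {r B B' x : ℝ} (hf : Nrm f r B) (hg : Nrm g r B') (hx : |x| ≤ r) :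
    ev (f * g) x = ev f x * ev g x := by
  rw [ev, ev, ev, tsum_mul_tsum_eq_tsum_sum_antidiagonal_of_summable_norm (hf.summable_norm hx)
    (hg.summable_norm hx)]
  refine tsum_congr fun n => ?_
  rw [coeff_mul, Rat.cast_sum, Finset.sum_mul]
  refine Finset.sum_congr rfl fun kl hkl => ?_
  rw [← Finset.HasAntidiagonal.mem_antidiagonal.1 hkl, Rat.cast_mul]
  ring

/-- Evaluation commutes with polynomial expressions. -/
theorem ev_aeval {σ : Type} (F : σ → ℚ⟦X⟧) {r x : ℝ} (hF : ∀ s, ∃ B, Nrm (F s) r B) (hx : |x| ≤ r)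
    (P : MvPolynomial σ ℚ) :
    (∃ B, Nrm (MvPolynomial.aeval F P) r B) ∧
      ev (MvPolynomial.aeval F P) x = MvPolynomial.aeval (fun s => ev (F s) x) P := by
  have hr : 0 ≤ r := (abs_nonneg _).trans hx
  induction P using MvPolynomial.induction_on with
  | C a =>
    have e : MvPolynomial.aeval F (MvPolynomial.C a : MvPolynomial σ ℚ) =
        ((Polynomial.C a : Polynomial ℚ) : ℚ⟦X⟧) := by
      rw [MvPolynomial.aeval_C, Polynomial.coe_C]
      rfl
    rw [e, ev_poly, MvPolynomial.aeval_C, Polynomial.aeval_C]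
    exact ⟨Nrm.poly _ _, rfl⟩
  | add p q hp hq =>
    obtain ⟨⟨B, h1⟩, h2⟩ := hp
    obtain ⟨⟨B', h3⟩, h4⟩ := hq
    rw [map_add, map_add, ev_add h1 h3 hx, h2, h4]
    exact ⟨⟨_, h1.add h3 hr⟩, rfl⟩
  | mul_X p s hp =>
    obtain ⟨⟨B, h1⟩, h2⟩ := hp
    obtain ⟨B', h3⟩ := hF s
    rw [map_mul, map_mul, MvPolynomial.aeval_X, MvPolynomial.aeval_X, ev_mul h1 h3 hx, h2]
    exact ⟨⟨_, h1.mul h3 hr⟩, rfl⟩

theorem nrm_deriv {f : ℚ⟦X⟧} {r r' B : ℝ} (hf : Nrm f r B) (h0 : 0 ≤ r') (h : r' < r) :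
    ∃ B', Nrm (d⁄dX ℚ f) r' B' := by
  have hr : 0 < r := h0.trans_lt h
  have hq : ‖r' / r‖ < 1 := by
    rw [Real.norm_of_nonneg (by positivity), div_lt_one hr]
    exact h
  have h1 : Summable fun n : ℕ => B / r * ((n : ℝ) ^ 1 * (r' / r) ^ n + (r' / r) ^ n) :=
    ((summable_pow_mul_geometric_of_norm_lt_one 1 hq).add
      (summable_geometric_of_norm_lt_one hq)).mul_left _
  refine ⟨_, Summable.of_nonneg_of_le (fun n => by positivity) (fun n => ?_) h1, le_rfl⟩
  calc |((coeff n (d⁄dX ℚ f) : ℚ) : ℝ)| * r' ^ n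
      = (|((coeff (n + 1) f : ℚ) : ℝ)| * r ^ (n + 1)) * ((n + 1) * (r' / r) ^ n / r) := by
        rw [coeff_derivative, Rat.cast_mul, abs_mul, Rat.cast_add, Rat.cast_natCast, Rat.cast_one,
          abs_of_nonneg (a := (n : ℝ) + 1) (by positivity), div_pow]
        field_simp
        ring
    _ ≤ B * ((n + 1) * (r' / r) ^ n / r) := by
        gcongr
        exact hf.coeff_le hr.le _
    _ = _ := by ring

theorem hasDerivAt_ev {f : ℚ⟦X⟧} {r B x : ℝ} (hf : Nrm f r B) (hx : |x| < r) :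
    HasDerivAt (ev f) (ev (d⁄dX ℚ f) x) x := by
  obtain ⟨s, hs1, hs2⟩ := exists_between hx
  have hs : 0 < s := (abs_nonneg _).trans_lt hs1
  obtain ⟨B', h1⟩ := nrm_deriv hf hs.le hs2
  have h2 : HasDerivAt (fun z : ℝ => ∑' n, ((coeff (n + 1) f : ℚ) : ℝ) * z ^ (n + 1))
      (∑' n, ((coeff n (d⁄dX ℚ f) : ℚ) : ℝ) * x ^ n) x := by
    refine hasDerivAt_tsum_of_isPreconnected (t := Ioo (-s) s) (y₀ := 0)
      (g := fun n z => ((coeff (n + 1) f : ℚ) : ℝ) * z ^ (n + 1))
      (g' := fun n z => ((coeff n (d⁄dX ℚ f) : ℚ) : ℝ) * z ^ n) h1.1 isOpen_Ioo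
      isPreconnected_Ioo (fun n y _ => ?_) (fun n y hy => ?_) ⟨by linarith, hs⟩
      (by simp [summable_zero]) (abs_lt.1 hs1)
    · refine ((hasDerivAt_pow (n + 1) y).const_mul _).congr_deriv ?_
      rw [coeff_derivative]
      push_cast
      ring
    · rw [norm_mul, norm_pow, Real.norm_eq_abs, Real.norm_eq_abs]
      gcongr
      exact (abs_lt.2 hy).le
  refine (h2.const_add ((coeff 0 f : ℚ) : ℝ)).congr_of_eventuallyEq ?_
  filter_upwards [continuous_abs.continuousAt.eventually_lt continuousAt_const hx] with y hy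
  rw [ev, (hf.summable_norm hy.le).of_norm.tsum_eq_zero_add, pow_zero, mul_one]

theorem ev_zero (f : ℚ⟦X⟧) : ev f 0 = ((coeff 0 f : ℚ) : ℝ) := by
  rw [ev, tsum_eq_single 0 fun n hn => by simp [hn], pow_zero, mul_one]

theorem eq_zero_of_ev {f : ℚ⟦X⟧} {r B : ℝ} (hf : Nrm f r B) (hr : 0 < r)
    (h : ∀ᶠ x in 𝓝 (0 : ℝ), ev f x = 0) : f = 0 := by
  ext n
  induction n generalizing f r B with
  | zero =>
    have h0 := h.self_of_nhds
    rw [ev_zero] at h0
    rw [map_zero]
    exact_mod_cast h0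
  | succ n ih =>
    obtain ⟨B', h1⟩ := nrm_deriv hf (half_pos hr).le (half_lt_self hr)
    have h2 : ∀ᶠ x in 𝓝 (0 : ℝ), ev (d⁄dX ℚ f) x = 0 := by
      have h3 : ∀ᶠ x in 𝓝 (0 : ℝ), |x| < r :=
        continuous_abs.continuousAt.eventually_lt continuousAt_const (by simpa using hr)
      filter_upwards [h.eventually_nhds, h3] with x h4 h5
      exact (hasDerivAt_ev hf h5).unique ((hasDerivAt_const x (0 : ℝ)).congr_of_eventuallyEq h4)
    have h3 := ih h1 (half_pos hr) h2
    rw [coeff_derivative, map_zero] at h3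
    rw [map_zero]
    exact (mul_eq_zero.1 h3).resolve_right (by positivity)

theorem Den.one : Den 1 (fun _ => 1) := by
  intro n k _
  rw [coeff_one]
  split_ifs
  · exact ⟨1, by simp⟩
  · exact ⟨0, by simp⟩

theorem Den.mul {f g : ℚ⟦X⟧} {D D' : ℕ → ℕ} (hf : Den f D) (hg : Den g D') :
    Den (f * g) (fun n => D n * D' n) := by
  intro n k hk
  choose a ha using hf n
  choose b hb using hg n
  refine ⟨∑ kl ∈ (Finset.HasAntidiagonal.antidiagonal k).attach,
    a kl.1.1 ((Finset.HasAntidiagonal.antidiagonal.fst_le kl.2).trans hk) *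
      b kl.1.2 ((Finset.HasAntidiagonal.antidiagonal.snd_le kl.2).trans hk), ?_⟩
  rw [coeff_mul, ← Finset.sum_attach, Finset.mul_sum, Int.cast_sum]
  refine Finset.sum_congr rfl fun kl _ => ?_
  rw [Int.cast_mul, ← ha, ← hb, Nat.cast_mul]
  ring

theorem Den.of_dvd {f : ℚ⟦X⟧} {D D' : ℕ → ℕ} (hf : Den f D) (h : ∀ n, D n ∣ D' n) : Den f D' := by
  intro n k hk
  obtain ⟨z, hz⟩ := hf n k hk
  obtain ⟨c, hc⟩ := h n
  exact ⟨c * z, by rw [hc, Int.cast_mul, ← hz]; push_cast; ring⟩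

theorem Den.rescale {f : ℚ⟦X⟧} {D : ℕ → ℕ} (hf : Den f D) (a : ℤ) : Den (rescale (a : ℚ) f) D := by
  intro n k hk
  obtain ⟨z, hz⟩ := hf n k hk
  exact ⟨a ^ k * z, by rw [coeff_rescale, Int.cast_mul, ← hz]; push_cast; ring⟩

end GPC

end

-- part MP_57341d_ag.H87.GThmA
section

/-!
Algebraic part of the type II Pade construction for a linear differential system.
-/

set_option autoImplicit false

namespace GPC

open Polynomial

variable {ι : Type} [Fintype ι] [DecidableEq ι]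

/-- The operator T d/dz - A on polynomial vectors. -/
noncomputable def Th (T : ℚ[X]) (A : ι → ι → ℚ[X]) (w : ι → ℚ[X]) : ι → ℚ[X] :=
  fun i => T * derivative (w i) - ∑ l, A i l * w l

/-- The successive approximants. -/
noncomputable def Pseq (T : ℚ[X]) (A : ι → ι → ℚ[X]) (p : ι → ℚ[X]) : ℕ → ι → ℚ[X]
  | 0 => p
  | j + 1 => fun i => Th T A (Pseq T A p j) i - (j : ℚ[X]) * derivative T * Pseq T A p j i

omit [DecidableEq ι] in
theorem natDegree_Pseq {T : ℚ[X]} {A : ι → ι → ℚ[X]} {p : ι → ℚ[X]} {n s : ℕ}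
    (hT : T.natDegree ≤ s) (hA : ∀ i l, (A i l).natDegree ≤ s) (hp : ∀ i, (p i).natDegree ≤ n)
    (j : ℕ) (i : ι) : (Pseq T A p j i).natDegree ≤ n + j * s := by
  induction j generalizing i with
  | zero => simpa [Pseq] using hp i
  | succ j ih =>
    have e : n + (j + 1) * s = s + (n + j * s) := by ring
    rw [e]
    simp only [Pseq, Th]
    refine (natDegree_sub_le _ _).trans (max_le ((natDegree_sub_le _ _).trans (max_le ?_ ?_)) ?_)
    · exact natDegree_mul_le.trans (add_le_add hT ((natDegree_derivative_le _).trans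
        ((Nat.sub_le _ _).trans (ih i))))
    · exact natDegree_sum_le_of_forall_le _ _ fun l _ =>
        natDegree_mul_le.trans (add_le_add (hA i l) (ih l))
    · refine natDegree_mul_le.trans (add_le_add (natDegree_mul_le.trans ?_) (ih i))
      rw [natDegree_natCast, zero_add]
      exact (natDegree_derivative_le _).trans ((Nat.sub_le _ _).trans hT)

theorem X_pow_dvd_deriv {g : PowerSeries ℚ} {k : ℕ} (h : PowerSeries.X ^ (k + 1) ∣ g) :
    PowerSeries.X ^ k ∣ PowerSeries.derivative ℚ g := by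
  rw [PowerSeries.X_pow_dvd_iff] at h ⊢
  intro m hm
  rw [PowerSeries.coeff_derivative, h (m + 1) (by omega), zero_mul]

omit [DecidableEq ι] in
theorem rem_Pseq {T : ℚ[X]} {A : ι → ι → ℚ[X]} {p : ι → ℚ[X]} {f : ι → PowerSeries ℚ}
    (hf : ∀ i, (T : PowerSeries ℚ) * PowerSeries.derivative ℚ (f i)
      = ∑ l, (A i l : PowerSeries ℚ) * f l) {q : ℚ[X]} {o : ℕ}
    (h0 : ∀ i, PowerSeries.X ^ o ∣ (q : PowerSeries ℚ) * f i - (p i : PowerSeries ℚ)) (j : ℕ) (i : ι) :
    PowerSeries.X ^ (o - j) ∣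
      ((T ^ j * derivative^[j] q : ℚ[X]) : PowerSeries ℚ) * f i
        - (Pseq T A p j i : PowerSeries ℚ) := by
  induction j generalizing i with
  | zero => simpa [Pseq] using h0 i
  | succ j ih =>
    set ρ : ι → PowerSeries ℚ := fun i =>
      ((T ^ j * derivative^[j] q : ℚ[X]) : PowerSeries ℚ) * f i - (Pseq T A p j i : PowerSeries ℚ)
      with hρ
    have hd : T * derivative (T ^ j * derivative^[j] q)
        = T ^ (j + 1) * derivative^[j + 1] q
          + (j : ℚ[X]) * derivative T * (T ^ j * derivative^[j] q) := by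
      rw [Function.iterate_succ_apply', derivative_mul, derivative_pow]
      cases j with
      | zero => simp
      | succ j => simp only [Nat.add_sub_cancel, map_natCast]; push_cast; ring
    have key : ((T ^ (j + 1) * derivative^[j + 1] q : ℚ[X]) : PowerSeries ℚ) * f i
          - (Pseq T A p (j + 1) i : PowerSeries ℚ)
        = (T : PowerSeries ℚ) * PowerSeries.derivative ℚ (ρ i)
          - (((j : ℚ[X]) * derivative T : ℚ[X]) : PowerSeries ℚ) * ρ i
          - ∑ l, (A i l : PowerSeries ℚ) * ρ l := by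
      have h1 := congrArg (fun x : ℚ[X] => (x : PowerSeries ℚ)) hd
      have h2 := hf i
      simp only [hρ, Pseq, Th, map_sub, Derivation.leibniz, PowerSeries.derivative_coe,
        smul_eq_mul, mul_sub, Finset.sum_sub_distrib, Polynomial.coe_sub] at h1 ⊢
      have h3 : ∑ l, (A i l : PowerSeries ℚ)
          * (((T ^ j * derivative^[j] q : ℚ[X]) : PowerSeries ℚ) * f l)
          = ((T ^ j * derivative^[j] q : ℚ[X]) : PowerSeries ℚ)
            * ∑ l, (A i l : PowerSeries ℚ) * f l := by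
        rw [Finset.mul_sum]; exact Finset.sum_congr rfl fun l _ => by ring
      have h4 : ((∑ l, A i l * Pseq T A p j l : ℚ[X]) : PowerSeries ℚ)
          = ∑ l, (A i l : PowerSeries ℚ) * (Pseq T A p j l : PowerSeries ℚ) := by
        rw [← Polynomial.coeToPowerSeries.ringHom_apply, map_sum]
        simp
      rw [h3, h4, ← h2]
      simp only [Polynomial.coe_mul, Polynomial.coe_add] at h1 ⊢
      linear_combination (-f i) * h1
    rw [key]
    have hle : PowerSeries.X ^ (o - (j + 1)) ∣ (PowerSeries.X : PowerSeries ℚ) ^ (o - j) :=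
      pow_dvd_pow _ (by omega)
    refine dvd_sub (dvd_sub (Dvd.dvd.mul_left ?_ _) ((hle.trans (ih i)).mul_left _))
      (Finset.dvd_sum fun l _ => (hle.trans (ih l)).mul_left _)
    rcases Nat.lt_or_ge j o with h | h
    · apply X_pow_dvd_deriv
      have : o - (j + 1) + 1 = o - j := by omega
      rw [this]; exact ih i
    · have : o - (j + 1) = 0 := by omega
      rw [this, pow_zero]; exact one_dvd _

theorem coe_sum_mul {κ : Type} (s : Finset κ) (a b : κ → ℚ[X]) :
    ((∑ l ∈ s, a l * b l : ℚ[X]) : PowerSeries ℚ)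
      = ∑ l ∈ s, (a l : PowerSeries ℚ) * (b l : PowerSeries ℚ) := by
  rw [← Polynomial.coeToPowerSeries.ringHom_apply, map_sum]
  simp

omit [DecidableEq ι] in
theorem pair_dual {T : ℚ[X]} {A : ι → ι → ℚ[X]} {f : ι → PowerSeries ℚ}
    (hf : ∀ i, (T : PowerSeries ℚ) * PowerSeries.derivative ℚ (f i)
      = ∑ l, (A i l : PowerSeries ℚ) * f l) (a : ι → ℚ[X]) :
    ∑ l, ((T * derivative (a l) + ∑ i, a i * A i l : ℚ[X]) : PowerSeries ℚ) * f l
      = (T : PowerSeries ℚ) * PowerSeries.derivative ℚ (∑ i, (a i : PowerSeries ℚ) * f i) := by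
  simp only [map_sum, Derivation.leibniz, smul_eq_mul, Finset.mul_sum, mul_add,
    PowerSeries.derivative_coe, Polynomial.coe_add, Polynomial.coe_mul, coe_sum_mul,
    add_mul, Finset.sum_add_distrib, Finset.sum_mul]
  rw [add_comm]
  congr 1
  · rw [Finset.sum_comm]
    refine Finset.sum_congr rfl fun i _ => ?_
    rw [mul_left_comm, hf i, Finset.mul_sum]
    exact Finset.sum_congr rfl fun l _ => by ring
  · exact Finset.sum_congr rfl fun l _ => by ring

theorem coeff_X_mul_deriv {T : ℚ[X]} {g : PowerSeries ℚ} {o : ℕ} (h : PowerSeries.X ^ o ∣ g) :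
    PowerSeries.coeff o (((X * T : ℚ[X]) : PowerSeries ℚ) * PowerSeries.derivative ℚ g)
      = (o * T.coeff 0) * PowerSeries.coeff o g := by
  obtain ⟨w, rfl⟩ := h
  have e : ((X * T : ℚ[X]) : PowerSeries ℚ) * PowerSeries.derivative ℚ (PowerSeries.X ^ o * w)
      = PowerSeries.X ^ o * ((T : PowerSeries ℚ) * (PowerSeries.C (o : ℚ) * w
        + PowerSeries.X * PowerSeries.derivative ℚ w)) := by
    rw [Derivation.leibniz, PowerSeries.derivative_pow, PowerSeries.derivative_X, map_natCast]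
    cases o with
    | zero => simp; ring
    | succ o => simp only [Nat.add_sub_cancel, smul_eq_mul, coe_mul, coe_X]; ring
  rw [e]
  have h1 := PowerSeries.coeff_X_pow_mul ((T : PowerSeries ℚ) * (PowerSeries.C (o : ℚ) * w
        + PowerSeries.X * PowerSeries.derivative ℚ w)) o 0
  have h2 := PowerSeries.coeff_X_pow_mul w o 0
  rw [zero_add] at h1 h2
  rw [h1, h2]
  simp
  ring

/-- A saturated module of polynomial vectors stable under the dual connection whose pairings
with f vanish to an order exceeding all exponents is killed by f. -/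
theorem stable_zero {T : ℚ[X]} {A : ι → ι → ℚ[X]} {f : ι → PowerSeries ℚ}
    (hf : ∀ i, ((X * T : ℚ[X]) : PowerSeries ℚ) * PowerSeries.derivative ℚ (f i)
      = ∑ l, (A i l : PowerSeries ℚ) * f l)
    (U : Submodule ℚ[X] (ι → ℚ[X]))
    (hU : ∀ a ∈ U, (fun l => X * T * derivative (a l) + ∑ i, a i * A i l) ∈ U)
    (hsat : ∀ a, (X : ℚ[X]) • a ∈ U → a ∈ U) {o0 : ℕ}
    (hχ : ∀ o ≥ o0, (Matrix.of fun l i => (A i l).coeff 0).charpoly.eval (o * T.coeff 0) ≠ 0)
    (h0 : ∀ a ∈ U, PowerSeries.X ^ o0 ∣ ∑ i, (a i : PowerSeries ℚ) * f i) :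
    ∀ a ∈ U, ∑ i, (a i : PowerSeries ℚ) * f i = 0 := by
  set B : Matrix ι ι ℚ := Matrix.of fun l i => (A i l).coeff 0 with hB
  set Θ : (ι → ℚ[X]) → ι → ℚ[X] := fun a l => X * T * derivative (a l) + ∑ i, a i * A i l with hΘ
  have key : ∀ o ≥ o0, ∀ a ∈ U, PowerSeries.X ^ o ∣ ∑ i, (a i : PowerSeries ℚ) * f i := by
    intro o ho
    induction o, ho using Nat.le_induction with
    | base => exact h0
    | succ o ho ih =>
      intro a ha
      have hit : ∀ k : ℕ, Θ^[k] a ∈ U ∧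
          PowerSeries.coeff o (∑ i, (Θ^[k] a i : PowerSeries ℚ) * f i)
            = (o * T.coeff 0) ^ k * PowerSeries.coeff o (∑ i, (a i : PowerSeries ℚ) * f i) ∧
          (fun l => (Θ^[k] a l).coeff 0) = (B ^ k).mulVec fun l => (a l).coeff 0 := by
        intro k
        induction k with
        | zero => simpa using ha
        | succ k ihk =>
          obtain ⟨h1, h2, h3⟩ := ihk
          rw [Function.iterate_succ_apply']
          refine ⟨hU _ h1, ?_, ?_⟩
          · simp only [hΘ]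
            rw [pair_dual hf, coeff_X_mul_deriv (ih _ h1), h2]; ring
          · rw [pow_succ', ← Matrix.mulVec_mulVec, ← h3]
            funext l
            simp [hΘ, hB, Matrix.mulVec, dotProduct, mul_comm]
      set b : ι → ℚ[X] := ∑ k ∈ Finset.range (B.charpoly.natDegree + 1),
        (C (B.charpoly.coeff k) : ℚ[X]) • Θ^[k] a with hb
      have hbU : b ∈ U := U.sum_mem fun k _ => U.smul_mem _ (hit k).1
      have hb0 : ∀ l, (b l).coeff 0 = 0 := by
        intro l
        have h1 := Matrix.aeval_self_charpoly B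
        rw [aeval_eq_sum_range] at h1
        have h2 := congrFun (congrArg (fun M : Matrix ι ι ℚ => M.mulVec fun l => (a l).coeff 0) h1) l
        simp only [Matrix.zero_mulVec, Pi.zero_apply, Matrix.sum_mulVec, Matrix.smul_mulVec,
          Finset.sum_apply, Pi.smul_apply, smul_eq_mul] at h2
        rw [← h2, hb]
        simp only [Finset.sum_apply, Pi.smul_apply, smul_eq_mul, finsetSum_coeff, coeff_C_mul]
        exact Finset.sum_congr rfl fun k _ => by rw [← (hit k).2.2]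
      have hbX : b = (X : ℚ[X]) • fun l => (b l).divX := by
        funext l
        have := X_mul_divX_add (b l)
        rw [hb0 l, map_zero, add_zero] at this
        exact this.symm
      have h4 : PowerSeries.X ^ (o + 1) ∣ ∑ i, (b i : PowerSeries ℚ) * f i := by
        have h5 := ih _ (hsat _ (hbX ▸ hbU))
        have h6 : ∑ i, (b i : PowerSeries ℚ) * f i
            = (∑ i, ((b i).divX : PowerSeries ℚ) * f i) * PowerSeries.X := by
          rw [Finset.sum_mul]
          refine Finset.sum_congr rfl fun i _ => ?_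
          conv_lhs => rw [hbX]
          simp only [Pi.smul_apply, smul_eq_mul, coe_mul, coe_X]; ring
        rw [h6, pow_succ]
        exact mul_dvd_mul_right h5 _
      have h7 : PowerSeries.coeff o (∑ i, (b i : PowerSeries ℚ) * f i)
          = B.charpoly.eval (o * T.coeff 0)
            * PowerSeries.coeff o (∑ i, (a i : PowerSeries ℚ) * f i) := by
        have h8 : ∑ i, (b i : PowerSeries ℚ) * f i
            = ∑ k ∈ Finset.range (B.charpoly.natDegree + 1),
              PowerSeries.C (B.charpoly.coeff k) * ∑ i, (Θ^[k] a i : PowerSeries ℚ) * f i := by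
          simp only [hb, Finset.sum_apply, Pi.smul_apply, smul_eq_mul, coe_sum_mul, coe_C,
            Finset.sum_mul, Finset.mul_sum]
          rw [Finset.sum_comm]
          exact Finset.sum_congr rfl fun k _ => Finset.sum_congr rfl fun i _ => by ring
        rw [h8, map_sum, eval_eq_sum_range, Finset.sum_mul]
        refine Finset.sum_congr rfl fun k _ => ?_
        rw [PowerSeries.coeff_C_mul, (hit k).2.1]; ring
      rw [PowerSeries.X_pow_dvd_iff.1 h4 o (by omega)] at h7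
      have h9 := (mul_eq_zero.1 h7.symm).resolve_left (hχ o ho)
      rw [PowerSeries.X_pow_dvd_iff]
      intro m hm
      rcases Nat.lt_or_ge m o with h | h
      · exact PowerSeries.X_pow_dvd_iff.1 (ih a ha) m h
      · rw [show m = o by omega]; exact h9
  intro a ha
  ext m
  exact (PowerSeries.X_pow_dvd_iff.1 (key (m + 1 + o0) (by omega) a ha)) m (by omega)

omit [DecidableEq ι] in
theorem pair_Th (T : ℚ[X]) (A : ι → ι → ℚ[X]) (a w : ι → ℚ[X]) :
    ∑ l, (T * derivative (a l) + ∑ i, a i * A i l) * w l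
      = T * derivative (∑ i, a i * w i) - ∑ i, a i * Th T A w i := by
  simp only [Th, derivative_sum, derivative_mul, Finset.mul_sum, mul_add, mul_sub, add_mul,
    Finset.sum_add_distrib, Finset.sum_sub_distrib, Finset.sum_mul]
  have h1 : ∑ l, ∑ i, a i * A i l * w l = ∑ i, ∑ l, a i * (A i l * w l) := by
    rw [Finset.sum_comm]
    exact Finset.sum_congr rfl fun i _ => Finset.sum_congr rfl fun l _ => by ring
  have h2 : ∑ l, T * derivative (a l) * w l = ∑ l, T * (derivative (a l) * w l) :=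
    Finset.sum_congr rfl fun l _ => by ring
  have h3 : ∑ l, T * (a l * derivative (w l)) = ∑ l, a l * (T * derivative (w l)) :=
    Finset.sum_congr rfl fun l _ => by ring
  rw [h1, h2, h3]; ring

/-- The determinant of the first approximants does not vanish. -/
theorem det_ne_zero {T : ℚ[X]} {A : ι → ι → ℚ[X]} {p : ι → ℚ[X]} {f : ι → PowerSeries ℚ}
    {T0 : ℚ[X]} (hT : T = X * T0) {o0 : ℕ}
    (hχ : ∀ o ≥ o0, (Matrix.of fun l i => (A i l).coeff 0).charpoly.eval (o * T0.coeff 0) ≠ 0)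
    (hf : ∀ i, (T : PowerSeries ℚ) * PowerSeries.derivative ℚ (f i)
      = ∑ l, (A i l : PowerSeries ℚ) * f l)
    (hind : ∀ a : ι → ℚ[X], ∑ i, (a i : PowerSeries ℚ) * f i = 0 → a = 0)
    {q : ℚ[X]} (hq : q ≠ 0) {o : ℕ} (ho : q.natDegree + o0 ≤ o)
    (h0 : ∀ i, PowerSeries.X ^ o ∣ (q : PowerSeries ℚ) * f i - (p i : PowerSeries ℚ))
    (i0 : ι) (hp : p i0 ≠ 0) (e : ι → ℕ) (he : Function.Injective e)
    (hlow : ∀ j k, k < e j → ∃ l, e l = k) :
    (Matrix.of fun i j => Pseq T A p (e j) i).det ≠ 0 := by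
  intro hdet
  obtain ⟨a, ha, ha0⟩ := Matrix.exists_vecMul_eq_zero_iff.2 hdet
  obtain ⟨h, hh, hh0⟩ := Matrix.exists_mulVec_eq_zero_iff.2 hdet
  have hne : (Finset.univ.filter fun j => h j ≠ 0).Nonempty := by
    by_contra hc
    apply hh; funext j
    by_contra hj
    exact hc ⟨j, by simpa using hj⟩
  obtain ⟨j0, hj0, hmax⟩ := Finset.exists_max_image _ e hne
  have hj0' : h j0 ≠ 0 := by simpa using hj0
  have hrel : ∀ i, ∑ j, Pseq T A p (e j) i * h j = 0 := fun i => by
    simpa [Matrix.mulVec, dotProduct] using congrFun hh0 i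
  let U : Submodule ℚ[X] (ι → ℚ[X]) :=
    { carrier := {b | ∀ k < e j0, ∑ i, b i * Pseq T A p k i = 0}
      add_mem' := fun {x y} hx hy k hk => by
        simp only [Pi.add_apply, add_mul, Finset.sum_add_distrib, hx k hk, hy k hk, add_zero]
      zero_mem' := fun k _ => by simp
      smul_mem' := fun c x hx k hk => by
        simp only [Pi.smul_apply, smul_eq_mul, mul_assoc, ← Finset.mul_sum, hx k hk, mul_zero] }
  have hsat : ∀ b, (X : ℚ[X]) • b ∈ U → b ∈ U := by
    intro b hb k hk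
    have := hb k hk
    simp only [Pi.smul_apply, smul_eq_mul, mul_assoc, ← Finset.mul_sum] at this
    exact (mul_eq_zero.1 this).resolve_left X_ne_zero
  have hnext : ∀ b ∈ U, ∑ i, b i * Pseq T A p (e j0) i = 0 := by
    intro b hb
    have h1 : ∑ j, h j * ∑ i, b i * Pseq T A p (e j) i = 0 := by
      simp only [Finset.mul_sum]
      rw [Finset.sum_comm]
      refine Finset.sum_eq_zero fun i _ => ?_
      have := congrArg (b i * ·) (hrel i)
      simp only [Finset.mul_sum, mul_zero] at this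
      rw [← this]; exact Finset.sum_congr rfl fun j _ => by ring
    rw [Finset.sum_eq_single j0] at h1
    · exact (mul_eq_zero.1 h1).resolve_left hj0'
    · intro j _ hj
      by_cases hz : h j = 0
      · simp [hz]
      · have h2 : e j ≤ e j0 := hmax j (by simpa using hz)
        rw [hb (e j) (lt_of_le_of_ne h2 fun hc => hj (he hc)), mul_zero]
    · simp
  have hpos : 0 < e j0 := by
    by_contra hc
    have hz : e j0 = 0 := by omega
    have := hnext (Pi.single i0 1) (fun k hk => by omega)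
    rw [hz, Finset.sum_eq_single i0] at this
    · exact hp (by simpa [Pseq] using this)
    · intro j _ hj; simp [hj]
    · simp
  have hstab : ∀ b ∈ U, (fun l => T * derivative (b l) + ∑ i, b i * A i l) ∈ U := by
    intro b hb k hk
    have h1 : ∑ i, b i * Pseq T A p (k + 1) i = 0 := by
      rcases Nat.lt_or_ge (k + 1) (e j0) with h2 | h2
      · exact hb _ h2
      · have : k + 1 = e j0 := by omega
        rw [this]; exact hnext b hb
    have h2 := hb k hk
    rw [pair_Th, h2]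
    simp only [Pseq, mul_sub, Finset.sum_sub_distrib] at h1
    have h3 : ∑ i, b i * ((k : ℚ[X]) * derivative T * Pseq T A p k i)
        = (k : ℚ[X]) * derivative T * ∑ i, b i * Pseq T A p k i := by
      rw [Finset.mul_sum]; exact Finset.sum_congr rfl fun l _ => by ring
    rw [h3, h2] at h1
    simpa using h1
  have hc0 : ∀ b ∈ U, PowerSeries.X ^ o0 ∣ ∑ i, (b i : PowerSeries ℚ) * f i := by
    intro b hb
    have h1 : (q : PowerSeries ℚ) * ∑ i, (b i : PowerSeries ℚ) * f i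
        = ∑ i, (b i : PowerSeries ℚ) * ((q : PowerSeries ℚ) * f i - (p i : PowerSeries ℚ)) := by
      have h2 := congrArg (fun x : ℚ[X] => (x : PowerSeries ℚ)) (hb 0 hpos)
      simp only [coe_sum_mul, Pseq, Polynomial.coe_zero] at h2
      simp only [mul_sub, Finset.sum_sub_distrib, h2, sub_zero, Finset.mul_sum]
      exact Finset.sum_congr rfl fun l _ => by ring
    have h3 : PowerSeries.X ^ o ∣ (q : PowerSeries ℚ) * ∑ i, (b i : PowerSeries ℚ) * f i := by
      rw [h1]
      exact Finset.dvd_sum fun i _ => (h0 i).mul_left _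
    obtain ⟨q', hq1, hq2⟩ := exists_eq_pow_rootMultiplicity_mul_and_not_dvd q hq 0
    set t := rootMultiplicity 0 q
    rw [map_zero, sub_zero] at hq1 hq2
    have ht : t ≤ q.natDegree := by
      simpa using natDegree_le_of_dvd (Dvd.intro _ hq1.symm) hq
    have hu : IsUnit (q' : PowerSeries ℚ) := by
      rw [PowerSeries.isUnit_iff_constantCoeff]
      simpa [X_dvd_iff] using hq2
    rw [hq1, coe_mul, coe_pow, coe_X, mul_assoc, show o = t + (o - t) by omega, pow_add] at h3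
    have h4 := hu.dvd_mul_left.1 ((mul_dvd_mul_iff_left (pow_ne_zero _ PowerSeries.X_ne_zero)).1 h3)
    exact (pow_dvd_pow _ (by omega)).trans h4
  have haU : a ∈ U := by
    intro k hk
    obtain ⟨l, rfl⟩ := hlow j0 k hk
    simpa [Matrix.vecMul, dotProduct] using congrFun ha0 l
  subst hT
  exact ha (hind a (stable_zero hf U hstab hsat hχ hc0 a haU))

theorem natDegree_det_le' (M : Matrix ι ι ℚ[X]) {d : ℕ} (h : ∀ i j, (M i j).natDegree ≤ d) :
    M.det.natDegree ≤ Fintype.card ι * d := by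
  rw [Matrix.det_apply']
  refine natDegree_sum_le_of_forall_le _ _ fun σ _ => ?_
  refine natDegree_mul_le.trans ?_
  rw [natDegree_intCast, zero_add]
  refine (natDegree_prod_le _ _).trans ?_
  exact (Finset.sum_le_card_nsmul _ _ d fun i _ => h _ _).trans (by simp)

theorem X_pow_dvd_det (M : Matrix ι ι ℚ[X]) {f : ι → PowerSeries ℚ} {i0 : ι} (hf : f i0 = 1)
    (Q : ι → PowerSeries ℚ) {o : ℕ}
    (h : ∀ i j, PowerSeries.X ^ o ∣ Q j * f i - (M i j : PowerSeries ℚ)) :
    X ^ ((Fintype.card ι - 1) * o) ∣ M.det := by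
  have h1 : ∀ i j, ∃ b : PowerSeries ℚ, (M i j : PowerSeries ℚ)
      - (if i = i0 then 0 else f i) * (M i0 j : PowerSeries ℚ)
      = (if i = i0 then 1 else PowerSeries.X ^ o) * b := by
    intro i j
    by_cases hi : i = i0
    · exact ⟨M i j, by simp [hi]⟩
    · simp only [hi, if_false]
      have : (M i j : PowerSeries ℚ) - f i * M i0 j
          = f i * (Q j * f i0 - M i0 j) - (Q j * f i - (M i j : PowerSeries ℚ)) := by rw [hf]; ring
      rw [this]
      exact dvd_sub ((h i0 j).mul_left _) (h i j)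
  choose B hB using h1
  have h2 : ((M.det : ℚ[X]) : PowerSeries ℚ)
      = (Matrix.of fun i j => (if i = i0 then 1 else PowerSeries.X ^ o) * B i j).det := by
    rw [← Polynomial.coeToPowerSeries.ringHom_apply, RingHom.map_det]
    refine Matrix.det_eq_of_forall_row_eq_smul_add_const (fun i => if i = i0 then 0 else f i) i0
      (by simp) fun i j => ?_
    simp only [Matrix.of_apply, ← hB, RingHom.mapMatrix_apply, Matrix.map_apply,
      Polynomial.coeToPowerSeries.ringHom_apply, if_true]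
    ring
  rw [Matrix.det_mul_column] at h2
  have h3 : ∏ i, (if i = i0 then 1 else (PowerSeries.X : PowerSeries ℚ) ^ o)
      = PowerSeries.X ^ ((Fintype.card ι - 1) * o) := by
    rw [← Finset.mul_prod_erase _ _ (Finset.mem_univ i0), if_pos rfl, one_mul,
      Finset.prod_congr rfl (g := fun _ => PowerSeries.X ^ o)
        fun i hi => if_neg (Finset.ne_of_mem_erase hi),
      Finset.prod_const, Finset.card_erase_of_mem (Finset.mem_univ _), ← pow_mul, mul_comm]
    rfl
  rw [h3] at h2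
  rw [Polynomial.X_pow_dvd_iff]
  intro d hd
  have := PowerSeries.X_pow_dvd_iff.1 (Dvd.intro _ h2.symm) d hd
  simpa using this

/-- Span of the first approximants. -/
noncomputable def Wsp (P : ℕ → ι → ℚ[X]) (b : ℕ) : Submodule ℚ[X] (ι → ℚ[X]) :=
  Submodule.span ℚ[X] (P '' {j | j < b})

omit [DecidableEq ι] in
theorem Th_mem {T : ℚ[X]} {A : ι → ι → ℚ[X]} {p : ι → ℚ[X]} {b : ℕ} {w : ι → ℚ[X]}
    (hw : w ∈ Wsp (Pseq T A p) b) : Th T A w ∈ Wsp (Pseq T A p) (b + 1) := by
  have hmono : Wsp (Pseq T A p) b ≤ Wsp (Pseq T A p) (b + 1) :=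
    Submodule.span_mono (Set.image_mono fun j (hj : j < b) => show j < b + 1 by omega)
  induction hw using Submodule.span_induction with
  | mem x hx =>
    obtain ⟨j, hj, rfl⟩ := hx
    have : Th T A (Pseq T A p j)
        = Pseq T A p (j + 1) + ((j : ℚ[X]) * derivative T) • Pseq T A p j := by
      funext i; simp [Pseq]
    rw [this]
    have hj' : j < b := hj
    exact add_mem (Submodule.subset_span ⟨j + 1, show j + 1 < b + 1 by omega, rfl⟩)
      (Submodule.smul_mem _ _ (Submodule.subset_span ⟨j, show j < b + 1 by omega, rfl⟩))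
  | zero =>
    have : Th T A 0 = 0 := by funext i; simp [Th]
    rw [this]; exact zero_mem _
  | add x y _ _ hx hy =>
    have : Th T A (x + y) = Th T A x + Th T A y := by
      funext i; simp [Th, mul_add, Finset.sum_add_distrib]; ring
    rw [this]; exact add_mem hx hy
  | smul a x hx' hx =>
    have : Th T A (a • x) = a • Th T A x + (T * derivative a) • x := by
      funext i
      simp only [Th, Pi.smul_apply, smul_eq_mul, derivative_mul, Pi.add_apply, mul_sub,
        Finset.mul_sum]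
      have : ∑ l, A i l * (a * x l) = ∑ l, a * (A i l * x l) :=
        Finset.sum_congr rfl fun l _ => by ring
      rw [this]; ring
    rw [this]
    exact add_mem (Submodule.smul_mem _ _ hx) (Submodule.smul_mem _ _ (hmono hx'))

omit [DecidableEq ι] in
theorem pair_eval_zero {T : ℚ[X]} {A : ι → ι → ℚ[X]} {p : ι → ℚ[X]} {ξ : ℚ} (hT : T.eval ξ ≠ 0)
    {c : ι → ℚ} {J : ℕ} (hc : ∀ j < J, ∑ i, c i * (Pseq T A p j i).eval ξ = 0) (a : ℕ) :
    ∀ (b : ℕ) (w : ι → ℚ[X]), a + b ≤ J → ((X - C ξ) ^ a • w) ∈ Wsp (Pseq T A p) b →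
      ∑ i, c i * (w i).eval ξ = 0 := by
  induction a with
  | zero =>
    intro b w hb hw
    rw [pow_zero, one_smul] at hw
    induction hw using Submodule.span_induction with
    | mem x hx =>
      obtain ⟨j, hj, rfl⟩ := hx
      exact hc j (by have : j < b := hj; omega)
    | zero => simp
    | add x y _ _ hx hy => simp [mul_add, Finset.sum_add_distrib, hx, hy]
    | smul a x _ hx =>
      have : ∑ i, c i * ((a • x) i).eval ξ = a.eval ξ * ∑ i, c i * (x i).eval ξ := by
        rw [Finset.mul_sum]; exact Finset.sum_congr rfl fun l _ => by simp; ring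
      rw [this, hx, mul_zero]
  | succ a ih =>
    intro b w hb hw
    have h1 := Th_mem hw
    have h2 : Th T A ((X - C ξ) ^ (a + 1) • w)
        = (X - C ξ) ^ a • (fun i => ((a + 1 : ℕ) : ℚ[X]) * T * w i + (X - C ξ) * Th T A w i) := by
      funext i
      simp only [Th, Pi.smul_apply, smul_eq_mul, derivative_mul, derivative_X_sub_C_pow,
        Nat.add_sub_cancel]
      have : ∑ l, A i l * ((X - C ξ) ^ (a + 1) * w l) = (X - C ξ) ^ (a + 1) * ∑ l, A i l * w l := by
        rw [Finset.mul_sum]; exact Finset.sum_congr rfl fun l _ => by ring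
      rw [this, map_natCast]; ring
    rw [h2] at h1
    have h3 := ih (b + 1) _ (by omega) h1
    have h4 : ∑ i, c i * (((a + 1 : ℕ) : ℚ[X]) * T * w i + (X - C ξ) * Th T A w i).eval ξ
        = ((a + 1 : ℕ) : ℚ) * T.eval ξ * ∑ i, c i * (w i).eval ξ := by
      rw [Finset.mul_sum]; exact Finset.sum_congr rfl fun l _ => by simp; ring
    rw [h4] at h3
    exact (mul_eq_zero.1 h3).resolve_left (mul_ne_zero (by positivity) hT)

/-- The values of sufficiently many approximants span. -/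
theorem span_values {T : ℚ[X]} {A : ι → ι → ℚ[X]} {p : ι → ℚ[X]} {ξ : ℚ} (hξ : ξ ≠ 0)
    (hT : T.eval ξ ≠ 0) (e : ι → ℕ) {m : ℕ} (he : ∀ j, e j < m) {o d J : ℕ}
    (hdet : (Matrix.of fun i j => Pseq T A p (e j) i).det ≠ 0)
    (ho : X ^ o ∣ (Matrix.of fun i j => Pseq T A p (e j) i).det)
    (hd : (Matrix.of fun i j => Pseq T A p (e j) i).det.natDegree ≤ d) (hJ : d + m ≤ J + o)
    {c : ι → ℚ} (hc : ∀ j < J, ∑ i, c i * (Pseq T A p j i).eval ξ = 0) : c = 0 := by
  set M : Matrix ι ι ℚ[X] := Matrix.of fun i j => Pseq T A p (e j) i with hM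
  obtain ⟨Δ, hΔ, hΔ'⟩ := exists_eq_pow_rootMultiplicity_mul_and_not_dvd M.det hdet ξ
  set a := rootMultiplicity ξ M.det
  have hΔ0 : Δ ≠ 0 := by rintro rfl; simp at hΔ'
  have hcop : IsCoprime ((X : ℚ[X]) ^ o) ((X - C ξ) ^ a) := by
    apply IsCoprime.pow
    have := isCoprime_X_sub_C_of_isUnit_sub (a := (0 : ℚ)) (b := ξ) (by simpa using hξ)
    simpa using this
  have h1 : X ^ o ∣ Δ := hcop.dvd_of_dvd_mul_left (hΔ ▸ ho)
  have h2 : o ≤ Δ.natDegree := by simpa using natDegree_le_of_dvd h1 hΔ0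
  have h3 : M.det.natDegree = a + Δ.natDegree := by
    conv_lhs => rw [hΔ]
    rw [natDegree_mul (pow_ne_zero _ (X_sub_C_ne_zero _)) hΔ0]; simp
  funext i
  have hmem : (X - C ξ) ^ a • (Pi.single i Δ : ι → ℚ[X]) ∈ Wsp (Pseq T A p) m := by
    have : (X - C ξ) ^ a • (Pi.single i Δ : ι → ℚ[X])
        = ∑ j, M.adjugate j i • Pseq T A p (e j) := by
      funext l
      have := congrFun (congrFun (Matrix.mul_adjugate M) l) i
      simp only [Matrix.mul_apply, Matrix.smul_apply, smul_eq_mul, Matrix.one_apply] at this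
      simp only [Pi.smul_apply, smul_eq_mul, Finset.sum_apply, Pi.single_apply]
      rw [mul_ite, ← hΔ, mul_zero]
      rw [mul_ite, mul_one, mul_zero] at this
      rw [← this]
      exact Finset.sum_congr rfl fun j _ => by simp [hM, mul_comm]
    rw [this]
    exact Submodule.sum_mem _ fun j _ =>
      Submodule.smul_mem _ _ (Submodule.subset_span ⟨e j, he j, rfl⟩)
  have h4 := pair_eval_zero hT hc a m _ (by omega) hmem
  rw [Finset.sum_eq_single i] at h4
  · simp only [Pi.single_eq_same] at h4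
    refine (mul_eq_zero.1 h4).resolve_right fun h5 => hΔ' (dvd_iff_isRoot.2 h5)
  · intro j _ hj; simp [hj]
  · simp

end GPC

end

-- part MP_57341d_ag.H87.GThmB
section

/-!
Siegel lemma, type II Pade approximants and estimates.
-/

set_option autoImplicit false

namespace GPC

open PowerSeries

attribute [local instance] Matrix.seminormedAddCommGroup in
theorem siegel {α β : Type} [Fintype α] [Fintype β] (A : Matrix α β ℤ) (B r : ℕ) (hB : 1 ≤ B)
    (hA : ∀ i j, |A i j| ≤ B) (hlt : Fintype.card α < Fintype.card β)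
    (hr : Fintype.card α ≤ r * (Fintype.card β - Fintype.card α)) :
    ∃ t : β → ℤ, t ≠ 0 ∧ A.mulVec t = 0 ∧ ∀ j, |t j| ≤ ((Fintype.card β * B) ^ r : ℕ) := by
  classical
  have hb1 : 1 ≤ Fintype.card β * B := Nat.mul_pos (by omega) hB
  rcases Nat.eq_zero_or_pos (Fintype.card α) with h0 | h0
  · have : IsEmpty α := Fintype.card_eq_zero_iff.1 h0
    obtain ⟨b⟩ : Nonempty β := Fintype.card_pos_iff.1 (by omega)
    refine ⟨Pi.single b 1, by simp, Subsingleton.elim _ _, fun j => ?_⟩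
    have h1 : (1 : ℤ) ≤ ((Fintype.card β * B) ^ r : ℕ) := by exact_mod_cast Nat.one_le_pow _ _ hb1
    rw [Pi.single_apply]
    split_ifs
    · simpa using h1
    · rw [abs_zero]; positivity
  · obtain ⟨t, ht, h1, h2⟩ := Int.Matrix.exists_ne_zero_int_vec_norm_le A hlt h0
    refine ⟨t, ht, h1, fun j => ?_⟩
    have hB' : (1 : ℝ) ≤ B := by exact_mod_cast hB
    have h3 : max 1 ‖A‖ ≤ B := by
      refine max_le hB' ((Matrix.norm_le_iff (by positivity)).2 fun i j => ?_)
      rw [Int.norm_eq_abs]; exact_mod_cast hA i j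
    have hlt' : (Fintype.card α : ℝ) < Fintype.card β := by exact_mod_cast hlt
    have h4 : (Fintype.card α : ℝ) / (Fintype.card β - Fintype.card α) ≤ r := by
      rw [div_le_iff₀ (by linarith), ← Nat.cast_sub hlt.le]; exact_mod_cast hr
    have h5 : ((Fintype.card β : ℝ) * max 1 ‖A‖)
        ^ ((Fintype.card α : ℝ) / (Fintype.card β - Fintype.card α))
        ≤ ((Fintype.card β * B) ^ r : ℕ) := by
      calc _ ≤ ((Fintype.card β : ℝ) * B)
            ^ ((Fintype.card α : ℝ) / (Fintype.card β - Fintype.card α)) :=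
            Real.rpow_le_rpow (by positivity) (by gcongr)
              (div_nonneg (by positivity) (by linarith))
        _ ≤ ((Fintype.card β : ℝ) * B) ^ (r : ℝ) :=
            Real.rpow_le_rpow_of_exponent_le (by exact_mod_cast hb1) h4
        _ = _ := by rw [Real.rpow_natCast]; push_cast; ring
    have h6 := (norm_le_pi_norm t j).trans (h2.trans h5)
    rw [Int.norm_eq_abs] at h6
    exact_mod_cast h6

theorem exists_q {ι : Type} [Fintype ι] [DecidableEq ι] {m : ℕ} (hm : Fintype.card ι = m + 1)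
    (f : ι → ℚ⟦X⟧) (i0 : ι) (h0 : f i0 = 1) {K : ℕ} (hK : 1 ≤ K)
    (hf : ∀ i n, |coeff n (f i)| ≤ (K : ℚ) ^ (n + 1)) {D : ℕ → ℕ}
    (hD : ∀ n, 0 < D n ∧ D n ≤ K ^ (n + 1)) (hden : ∀ i, Den (f i) D) {n τ r : ℕ}
    (h1 : m * τ ≤ n) (h2 : m * τ ≤ r * (n + 1 - m * τ)) :
    ∃ q : Polynomial ℤ, q ≠ 0 ∧ q.natDegree ≤ n ∧
      (∀ k, |q.coeff k| ≤ (((n + 1) * K ^ (2 * (n + τ + 1))) ^ r : ℕ)) ∧
      ∀ i, X ^ (n + τ + 1) ∣ ((q.map (Int.castRingHom ℚ) : Polynomial ℚ) : ℚ⟦X⟧) * f i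
        - ((trunc (n + 1) (((q.map (Int.castRingHom ℚ) : Polynomial ℚ) : ℚ⟦X⟧) * f i) :
          Polynomial ℚ) : ℚ⟦X⟧) := by
  have hz : ∀ (p : {i // i ≠ i0} × Fin τ) (l : Fin (n + 1)), ∃ z : ℤ,
      (D (n + τ) : ℚ) * coeff (n + 1 + p.2 - l) (f p.1) = z := fun p l =>
    hden p.1 (n + τ) _ (by have := p.2.2; omega)
  choose A hA using hz
  have hc : Fintype.card ({i // i ≠ i0} × Fin τ) = m * τ := by
    simp [Fintype.card_subtype_compl, hm]
  obtain ⟨t, ht, hAt, htb⟩ := siegel (Matrix.of A) (K ^ (2 * (n + τ + 1))) r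
    (Nat.one_le_pow _ _ hK) (fun p l => by
      have hK' : (1 : ℚ) ≤ K := by exact_mod_cast hK
      have : |(A p l : ℚ)| ≤ (K : ℚ) ^ (2 * (n + τ + 1)) := by
        rw [← hA, abs_mul, two_mul, pow_add, Nat.abs_cast]
        refine mul_le_mul (by exact_mod_cast (hD _).2) ((hf _ _).trans
          (pow_le_pow_right₀ hK' (by have := p.2.2; omega))) (abs_nonneg _) (by positivity)
      simp only [Matrix.of_apply]
      exact_mod_cast this) (by rw [hc]; simp; omega) (by rw [hc]; simpa using h2)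
  set q : Polynomial ℤ := ∑ l : Fin (n + 1), Polynomial.monomial l (t l) with hq
  have hqc : ∀ k, q.coeff k = if h : k < n + 1 then t ⟨k, h⟩ else 0 := by
    intro k
    simp only [hq, Polynomial.finsetSum_coeff, Polynomial.coeff_monomial]
    split_ifs with h
    · rw [Finset.sum_eq_single ⟨k, h⟩]
      · simp
      · intro b _ hb; rw [if_neg fun hc => hb (Fin.ext hc)]
      · simp
    · exact Finset.sum_eq_zero fun b _ => if_neg fun hc : (b : ℕ) = k => h (hc ▸ b.2)
  refine ⟨q, fun hc => ht ?_, ?_, fun k => ?_, fun i => ?_⟩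
  · funext l
    have := hqc l
    rw [hc, dif_pos l.2] at this
    simpa using this.symm
  · rw [Polynomial.natDegree_le_iff_coeff_eq_zero]
    intro k hk
    rw [hqc, dif_neg (by omega)]
  · rw [hqc]
    split_ifs
    · simpa using htb _
    · simp
  · rw [X_pow_dvd_iff]
    intro k hk
    rw [map_sub, Polynomial.coeff_coe, coeff_trunc]
    split_ifs with h
    · simp
    · rw [sub_zero]
      by_cases hi : i = i0
      · rw [hi, h0, mul_one, Polynomial.coeff_coe, Polynomial.coeff_map, hqc, dif_neg h, map_zero]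
      · have h3 := congrFun hAt (⟨i, hi⟩, ⟨k - (n + 1), by omega⟩)
        simp only [Matrix.mulVec, dotProduct, Matrix.of_apply, Pi.zero_apply] at h3
        have h4 : ((q.map (Int.castRingHom ℚ) : Polynomial ℚ) : ℚ⟦X⟧) * f i
            = ∑ l : Fin (n + 1), C (t l : ℚ) * (X ^ (l : ℕ) * f i) := by
          rw [hq, Polynomial.map_sum, ← Polynomial.coeToPowerSeries.ringHom_apply, map_sum,
            Finset.sum_mul]
          refine Finset.sum_congr rfl fun l _ => ?_
          rw [Polynomial.map_monomial, ← Polynomial.C_mul_X_pow_eq_monomial]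
          simp only [Polynomial.coeToPowerSeries.ringHom_apply, Polynomial.coe_mul,
            Polynomial.coe_C, Polynomial.coe_pow, Polynomial.coe_X, mul_assoc, eq_intCast]
        have h5 : (D (n + τ) : ℚ) ≠ 0 := by exact_mod_cast (hD _).1.ne'
        apply mul_left_cancel₀ h5
        rw [h4, map_sum, Finset.mul_sum, mul_zero]
        have h6 := congrArg (Int.cast : ℤ → ℚ) h3
        push_cast at h6
        rw [← h6]
        refine Finset.sum_congr rfl fun l _ => ?_
        rw [coeff_C_mul, coeff_X_pow_mul', if_pos (by have := l.2; omega), ← hA]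
        simp only
        rw [show n + 1 + (k - (n + 1)) - l = k - l by omega]; ring

theorem nrm_poly_le {p : Polynomial ℚ} {d : ℕ} {H r : ℝ} (hd : p.natDegree ≤ d)
    (hH : ∀ k, |((p.coeff k : ℚ) : ℝ)| ≤ H) (h0 : 0 ≤ r) (h1 : r ≤ 1) :
    Nrm (p : ℚ⟦X⟧) r ((d + 1) * H) := by
  have hz : ∀ k ∉ Finset.range (d + 1), |((coeff k (p : ℚ⟦X⟧) : ℚ) : ℝ)| * r ^ k = 0 := by
    intro k hk
    rw [Polynomial.coeff_coe, Polynomial.coeff_eq_zero_of_natDegree_lt (by simp at hk; omega)]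
    simp
  refine ⟨summable_of_ne_finset_zero hz, ?_⟩
  rw [tsum_eq_sum hz]
  refine (Finset.sum_le_card_nsmul _ _ H fun k _ => ?_).trans (by simp)
  rw [Polynomial.coeff_coe]
  exact (mul_le_of_le_one_right (abs_nonneg _) (pow_le_one₀ h0 h1)).trans (hH k)

theorem Nrm.pow {f : ℚ⟦X⟧} {r B : ℝ} (hf : Nrm f r B) (hr : 0 ≤ r) (k : ℕ) :
    Nrm (f ^ k) r (B ^ k) := by
  induction k with
  | zero => simpa using Nrm.one
  | succ k ih => rw [pow_succ, pow_succ]; exact ih.mul hf hr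

theorem tail {g : ℚ⟦X⟧} {r B x : ℝ} (hg : Nrm g r B) (hr : 0 < r) (hx : |x| ≤ r) {k0 k1 : ℕ}
    (h : X ^ k0 ∣ g - ((trunc k1 g : Polynomial ℚ) : ℚ⟦X⟧)) :
    |ev g x - Polynomial.aeval x (trunc k1 g)| ≤ B * (|x| / r) ^ k0 := by
  set w : ℚ⟦X⟧ := g - ((trunc k1 g : Polynomial ℚ) : ℚ⟦X⟧) with hw
  have hc : ∀ k, |((coeff k w : ℚ) : ℝ)| ≤ |((coeff k g : ℚ) : ℝ)| := by
    intro k
    rw [hw, map_sub, Polynomial.coeff_coe, coeff_trunc]
    split_ifs <;> simp
  have hs : Summable fun k => |((coeff k w : ℚ) : ℝ)| * r ^ k :=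
    hg.1.of_nonneg_of_le (fun k => by positivity) fun k =>
      mul_le_mul_of_nonneg_right (hc k) (by positivity)
  have hwN : Nrm w r B :=
    ⟨hs, (hs.tsum_le_tsum (fun k => mul_le_mul_of_nonneg_right (hc k) (by positivity)) hg.1).trans hg.2⟩
  obtain ⟨B', hB'⟩ := Nrm.poly (trunc k1 g) r
  have e : ev g x - Polynomial.aeval x (trunc k1 g) = ev w x := by
    have := ev_add hwN hB' hx
    rw [hw, sub_add_cancel, ev_poly] at this
    rw [this]; ring
  rw [e]
  have hq : |x| / r ≤ 1 := (div_le_one hr).2 hx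
  have hb : ∀ k, ‖((coeff k w : ℚ) : ℝ) * x ^ k‖
      ≤ |((coeff k w : ℚ) : ℝ)| * r ^ k * (|x| / r) ^ k0 := by
    intro k
    rcases Nat.lt_or_ge k k0 with hk | hk
    · rw [X_pow_dvd_iff.1 h k hk]; simp
    · rw [Real.norm_eq_abs, abs_mul, abs_pow, mul_assoc]
      refine mul_le_mul_of_nonneg_left ?_ (abs_nonneg _)
      calc |x| ^ k = r ^ k * (|x| / r) ^ k := by rw [← mul_pow, mul_div_cancel₀ _ hr.ne']
        _ ≤ r ^ k * (|x| / r) ^ k0 := by
          refine mul_le_mul_of_nonneg_left (pow_le_pow_of_le_one (by positivity) hq hk)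
            (by positivity)
  have := tsum_of_norm_bounded (hs.mul_right ((|x| / r) ^ k0)).hasSum hb
  rw [tsum_mul_right] at this
  exact this.trans (mul_le_mul_of_nonneg_right hwN.2 (by positivity))

theorem den_intPoly (p : Polynomial ℤ) :
    Den ((p.map (Int.castRingHom ℚ) : Polynomial ℚ) : ℚ⟦X⟧) fun _ => 1 := by
  intro n k _
  exact ⟨p.coeff k, by simp⟩

theorem eval_trunc_int {g : ℚ⟦X⟧} {D : ℕ → ℕ} (hg : Den g D) (d : ℕ) {N : ℕ} (hN : N ≠ 0) :
    ∃ z : ℤ, (D d : ℚ) * N ^ d * (trunc (d + 1) g).eval (1 / N : ℚ) = z := by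
  have h1 : ∀ k : ℕ, ∃ z : ℤ, k ≤ d → (D d : ℚ) * coeff k g = z := fun k => by
    by_cases hk : k ≤ d
    · obtain ⟨z, hz⟩ := hg d k hk
      exact ⟨z, fun _ => hz⟩
    · exact ⟨0, fun h => absurd h hk⟩
  choose z hz using h1
  refine ⟨∑ k ∈ Finset.range (d + 1), z k * N ^ (d - k), ?_⟩
  rw [Polynomial.eval, eval₂_trunc_eq_sum_range, Finset.mul_sum]
  push_cast
  refine Finset.sum_congr rfl fun k hk => ?_
  have hk' : k ≤ d := by simp at hk; omega
  have hN' : (N : ℚ) ≠ 0 := by exact_mod_cast hN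
  rw [← hz k hk', pow_sub₀ _ hN' hk']
  simp only [id, one_div, inv_pow]; ring

end GPC

end

-- part MP_57341d_ag.H87.GThm
section

/-!
Linear independence of values of G-functions at 1 / N (Galochkin, Chudnovsky).
-/

set_option autoImplicit false

namespace GPC

open PowerSeries

theorem succ_le_pow {K : ℝ} (hK : 2 ≤ K) (n : ℕ) : (n : ℝ) + 1 ≤ K ^ n := by
  have h1 : n + 1 ≤ 2 ^ n := Nat.lt_two_pow_self
  calc (n : ℝ) + 1 ≤ 2 ^ n := by exact_mod_cast h1
    _ ≤ K ^ n := pow_le_pow_left₀ (by norm_num) hK n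

theorem vanish {ι : Type} [Fintype ι] (f : ι → ℚ⟦X⟧) (T : Polynomial ℤ)
    (A : ι → ι → Polynomial ℚ) {s : ℕ} (hT : T.natDegree ≤ s) (hA : ∀ i l, (A i l).natDegree ≤ s)
    (hode : ∀ i, ((T.map (Int.castRingHom ℚ) : Polynomial ℚ) : ℚ⟦X⟧) * d⁄dX ℚ (f i)
      = ∑ l, (A i l : ℚ⟦X⟧) * f l)
    {K : ℕ} (hK : 2 ≤ K) (hTK : ∀ k, |T.coeff k| ≤ K)
    (hf : ∀ i n, |coeff n (f i)| ≤ (K : ℚ) ^ (n + 1)) {D : ℕ → ℕ}
    (hD : ∀ n, 0 < D n ∧ D n ≤ K ^ (n + 1)) (hden : ∀ i, Den (f i) D)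
    {q : Polynomial ℤ} {n o r e j : ℕ} (hq : q.natDegree ≤ n)
    (hqH : ∀ k, |q.coeff k| ≤ (((n + 1) * K ^ (2 * o)) ^ r : ℕ))
    (h0 : ∀ i, X ^ o ∣ ((q.map (Int.castRingHom ℚ) : Polynomial ℚ) : ℚ⟦X⟧) * f i
      - ((trunc (n + 1) (((q.map (Int.castRingHom ℚ) : Polynomial ℚ) : ℚ⟦X⟧) * f i) :
        Polynomial ℚ) : ℚ⟦X⟧))
    (he : 1 ≤ e) (hj : n + j * s + 1 + e + j ≤ o) {N : ℕ} (hN : 2 * K ≤ N) (c : ι → ℚ)
    (hc : ∑ i, (c i : ℝ) * ev (f i) (1 / N) = 0) {b : ℕ} (hb : 0 < b)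
    (hbc : ∀ i, ∃ z : ℤ, (b : ℚ) * c i = z)
    (hsmall : (b * ∑ i, |(c i : ℝ)|) * (K : ℝ) ^ ((7 + 3 * r) * o) < (N : ℝ) ^ e) :
    ∑ i, c i * (Pseq (T.map (Int.castRingHom ℚ)) A
      (fun i => trunc (n + 1) (((q.map (Int.castRingHom ℚ) : Polynomial ℚ) : ℚ⟦X⟧) * f i))
        j i).eval (1 / N : ℚ) = 0 := by
  set φ := Int.castRingHom ℚ with hφ
  set p : ι → Polynomial ℚ := fun i => trunc (n + 1) (((q.map φ : Polynomial ℚ) : ℚ⟦X⟧) * f i)
  set d := n + j * s with hd
  set Q : Polynomial ℤ := T ^ j * Polynomial.hasseDeriv j q with hQ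
  set g : ι → ℚ⟦X⟧ := fun i => ((Q.map φ : Polynomial ℚ) : ℚ⟦X⟧) * f i with hg
  have hhas : (Polynomial.hasseDeriv j q).map φ = Polynomial.hasseDeriv j (q.map φ) := by
    ext k; simp [Polynomial.hasseDeriv_coeff]
  have hfac : (T.map φ) ^ j * Polynomial.derivative^[j] (q.map φ)
      = Polynomial.C (j.factorial : ℚ) * Q.map φ := by
    rw [← Polynomial.factorial_smul_hasseDeriv, hQ, Polynomial.map_mul, Polynomial.map_pow, hhas]
    rw [LinearMap.smul_apply, nsmul_eq_mul, map_natCast]; ring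
  have hdeg : ∀ i, (Pseq (T.map φ) A p j i).natDegree ≤ d := fun i =>
    natDegree_Pseq (Polynomial.natDegree_map_le.trans hT) hA
      (fun i => Nat.lt_succ_iff.1 (natDegree_trunc_lt _ _)) j i
  have hrem : ∀ i, ∀ k < o - j,
      (j.factorial : ℚ) * coeff k (g i) = (Pseq (T.map φ) A p j i).coeff k := by
    intro i k hk
    have := X_pow_dvd_iff.1 (rem_Pseq hode h0 j i) k hk
    rw [hfac, map_sub, Polynomial.coe_mul, Polynomial.coe_C, mul_assoc, coeff_C_mul,
      Polynomial.coeff_coe, sub_eq_zero] at this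
    exact this
  have hj0 : (j.factorial : ℚ) ≠ 0 := by positivity
  have hP : ∀ i, Pseq (T.map φ) A p j i
      = Polynomial.C (j.factorial : ℚ) * trunc (d + 1) (g i) := by
    intro i
    ext k
    rw [Polynomial.coeff_C_mul, coeff_trunc]
    split_ifs with hk
    · exact (hrem i k (by omega)).symm
    · rw [mul_zero]; exact Polynomial.coeff_eq_zero_of_natDegree_lt (by have := hdeg i; omega)
  have hdvd : ∀ i, X ^ (o - j) ∣ g i - ((trunc (d + 1) (g i) : Polynomial ℚ) : ℚ⟦X⟧) := by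
    intro i
    rw [X_pow_dvd_iff]
    intro k hk
    have := hrem i k hk
    rw [hP, Polynomial.coeff_C_mul] at this
    rw [map_sub, Polynomial.coeff_coe, mul_left_cancel₀ hj0 this, sub_self]
  suffices hv : ∑ i, c i * (trunc (d + 1) (g i)).eval (1 / N : ℚ) = 0 by
    simp only [hP, Polynomial.eval_mul, Polynomial.eval_C]
    rw [← mul_zero (j.factorial : ℚ), ← hv, Finset.mul_sum]
    exact Finset.sum_congr rfl fun i _ => by ring
  set v := ∑ i, c i * (trunc (d + 1) (g i)).eval (1 / N : ℚ) with hv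
  have hN0 : N ≠ 0 := by omega
  obtain ⟨z, hz⟩ : ∃ z : ℤ, (b : ℚ) * (D d * N ^ d) * v = z := by
    choose y hy using hbc
    choose w hw using fun i => eval_trunc_int ((den_intPoly Q).mul (hden i)) d hN0
    refine ⟨∑ i, y i * w i, ?_⟩
    push_cast
    rw [hv, Finset.mul_sum]
    refine Finset.sum_congr rfl fun i _ => ?_
    rw [← hy, ← hw]; simp only [one_mul, hg]; ring
  have hK' : (2 : ℝ) ≤ K := by exact_mod_cast hK
  have hK1 : (1 : ℝ) ≤ K := by linarith
  have hNK : 2 * (K : ℝ) ≤ N := by exact_mod_cast hN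
  have hN' : (0 : ℝ) < N := by linarith
  set ρ : ℝ := 1 / (2 * K) with hρ
  have hρ0 : 0 < ρ := by positivity
  have hρ1 : ρ ≤ 1 := by rw [hρ, div_le_one (by positivity)]; linarith
  have hx : |(1 / N : ℝ)| ≤ ρ := by
    rw [abs_of_pos (by positivity)]; exact one_div_le_one_div_of_le (by positivity) hNK
  have hfN : ∀ i, Nrm (f i) ρ (2 * K) := fun i =>
    Nrm.of_bound (by linarith) hρ0.le (by rw [hρ]; field_simp; norm_num)
      fun n => by exact_mod_cast hf i n
  have hpow : ∀ a, a ≤ o → (K : ℝ) ^ a ≤ K ^ o := fun a ha => pow_le_pow_right₀ hK1 ha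
  have hQN : Nrm ((Q.map φ : Polynomial ℚ) : ℚ⟦X⟧) ρ ((K : ℝ) ^ ((3 + 3 * r) * o)) := by
    have h1 : Nrm ((T.map φ : Polynomial ℚ) : ℚ⟦X⟧) ρ ((s + 1) * K) :=
      nrm_poly_le (Polynomial.natDegree_map_le.trans hT)
        (fun k => by rw [Polynomial.coeff_map]; simp only [hφ, eq_intCast, Rat.cast_intCast]
                     exact_mod_cast hTK k) hρ0.le hρ1
    have h2 : Nrm (((Polynomial.hasseDeriv j q).map φ : Polynomial ℚ) : ℚ⟦X⟧) ρ
        ((n + 1) * (2 ^ n * ((n + 1) * K ^ (2 * o)) ^ r)) := by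
      refine nrm_poly_le (Polynomial.natDegree_map_le.trans
        ((Polynomial.natDegree_hasseDeriv_le _ _).trans (by omega))) (fun k => ?_) hρ0.le hρ1
      rw [Polynomial.coeff_map, Polynomial.hasseDeriv_coeff]
      simp only [hφ, eq_intCast, Rat.cast_intCast]
      rcases Nat.lt_or_ge n (k + j) with hk | hk
      · rw [Polynomial.coeff_eq_zero_of_natDegree_lt (by omega)]
        simp only [mul_zero, Int.cast_zero, abs_zero]; positivity
      · push_cast
        rw [abs_mul, Nat.abs_cast]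
        refine mul_le_mul ?_ (by exact_mod_cast hqH (k + j)) (abs_nonneg _) (by positivity)
        exact_mod_cast (Nat.choose_le_two_pow _ _).trans (Nat.pow_le_pow_right (by norm_num) hk)
    rw [hQ, Polynomial.map_mul, Polynomial.map_pow, Polynomial.coe_mul, Polynomial.coe_pow]
    refine ((h1.pow hρ0.le j).mul h2 hρ0.le).mono ?_
    have a1 : ((s + 1 : ℝ) * K) ^ j ≤ K ^ o := by
      calc ((s + 1 : ℝ) * K) ^ j ≤ (K ^ s * K) ^ j := by gcongr; exact succ_le_pow hK' s
        _ = K ^ (j * s + j) := by ring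
        _ ≤ _ := hpow _ (by omega)
    have a2 : (n + 1 : ℝ) ≤ K ^ o := (succ_le_pow hK' n).trans (hpow _ (by omega))
    have a3 : (2 : ℝ) ^ n ≤ K ^ o :=
      (pow_le_pow_left₀ (by norm_num) hK' n).trans (hpow _ (by omega))
    calc _ ≤ (K : ℝ) ^ o * (K ^ o * (K ^ o * (K ^ o * K ^ (2 * o)) ^ r)) := by gcongr
      _ = _ := by ring
  have h2K : 2 * (K : ℝ) ≤ K ^ 2 := by nlinarith
  have hvR : ((v : ℚ) : ℝ) = ∑ i, (c i : ℝ) * (Polynomial.aeval (1 / N : ℝ) (trunc (d + 1) (g i))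
      - ev (g i) (1 / N)) := by
    have h1 : ∑ i, (c i : ℝ) * ev (g i) (1 / N) = 0 := by
      rw [← mul_zero (ev ((Q.map φ : Polynomial ℚ) : ℚ⟦X⟧) (1 / N)), ← hc, Finset.mul_sum]
      refine Finset.sum_congr rfl fun i _ => ?_
      rw [hg]; simp only
      rw [ev_mul hQN (hfN i) hx]; ring
    simp only [mul_sub, Finset.sum_sub_distrib, h1, sub_zero, hv]
    push_cast
    refine Finset.sum_congr rfl fun i _ => ?_
    have := Polynomial.aeval_algebraMap_apply_eq_algebraMap_eval (A := ℝ) (1 / N : ℚ)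
      (trunc (d + 1) (g i))
    simp only [eq_ratCast, Rat.cast_div, Rat.cast_one, Rat.cast_natCast] at this
    rw [this]
  have hvb : |((v : ℚ) : ℝ)| ≤ (∑ i, |(c i : ℝ)|)
      * ((K : ℝ) ^ ((3 + 3 * r) * o) * (2 * K) * (2 * K / N) ^ (o - j)) := by
    rw [hvR, Finset.sum_mul]
    refine (Finset.abs_sum_le_sum_abs _ _).trans (Finset.sum_le_sum fun i _ => ?_)
    rw [abs_mul, abs_sub_comm]
    refine mul_le_mul_of_nonneg_left ?_ (abs_nonneg _)
    have := tail (hQN.mul (hfN i) hρ0.le) hρ0 hx (hdvd i)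
    rwa [show |(1 / N : ℝ)| / ρ = 2 * K / N by
      rw [abs_of_pos (by positivity), hρ]; field_simp] at this
  have hlt : |(z : ℝ)| < 1 := by
    have h1 : (z : ℝ) = b * (D d * N ^ d) * ((v : ℚ) : ℝ) := by exact_mod_cast hz.symm
    have a1 : (D d : ℝ) ≤ K ^ o :=
      (by exact_mod_cast (hD d).2 : (D d : ℝ) ≤ K ^ (d + 1)).trans (hpow _ (by omega))
    have a2 : 2 * (K : ℝ) ≤ K ^ o := h2K.trans (hpow _ (by omega))
    have a3 : (N : ℝ) ^ d * (2 * K / N) ^ (o - j) * N ^ e ≤ K ^ (2 * o) := by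
      have hN1 : (1 : ℝ) ≤ N := by linarith
      calc (N : ℝ) ^ d * (2 * K / N) ^ (o - j) * N ^ e
          = (2 * K / N) ^ (o - j) * N ^ (d + e) := by ring
        _ ≤ (2 * K / N) ^ (o - j) * N ^ (o - j) := by
          gcongr; omega
        _ = (2 * K) ^ (o - j) := by rw [← mul_pow, div_mul_cancel₀ _ hN'.ne']
        _ ≤ (K ^ 2) ^ (o - j) := by gcongr
        _ ≤ (K ^ 2) ^ o := pow_le_pow_right₀ (one_le_pow₀ hK1) (by omega)
        _ = _ := by ring
    rw [← mul_lt_mul_iff_left₀ (pow_pos hN' e), one_mul]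
    refine lt_of_le_of_lt ?_ hsmall
    rw [h1, abs_mul, abs_of_nonneg (by positivity)]
    calc b * (D d * N ^ d) * |((v : ℚ) : ℝ)| * N ^ e
        ≤ b * (D d * N ^ d) * ((∑ i, |(c i : ℝ)|)
          * ((K : ℝ) ^ ((3 + 3 * r) * o) * (2 * K) * (2 * K / N) ^ (o - j))) * N ^ e := by gcongr
      _ = (b * ∑ i, |(c i : ℝ)|) * (D d * (K : ℝ) ^ ((3 + 3 * r) * o) * (2 * K)
          * ((N : ℝ) ^ d * (2 * K / N) ^ (o - j) * N ^ e)) := by ring
      _ ≤ (b * ∑ i, |(c i : ℝ)|) * (K ^ o * (K : ℝ) ^ ((3 + 3 * r) * o) * K ^ o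
          * K ^ (2 * o)) := by gcongr
      _ = _ := by ring
  have hz0 : z = 0 := Int.abs_lt_one_iff.1 (by exact_mod_cast hlt)
  rw [hz0, Int.cast_zero] at hz
  have := (hD d).1
  exact (mul_eq_zero.1 hz).resolve_left (by positivity)

theorem eval_ne_zero {T : Polynomial ℤ} (h0 : T.coeff 0 ≠ 0) {s K N : ℕ} (hT : T.natDegree ≤ s)
    (hTK : ∀ k, |T.coeff k| ≤ K) (hN : (s + 1) * K < N) :
    (T.map (Int.castRingHom ℚ)).eval (1 / N : ℚ) ≠ 0 := by
  intro h
  have hN1 : (1 : ℝ) ≤ N := by exact_mod_cast (by omega : 1 ≤ N)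
  have h1 : Nrm ((T.map (Int.castRingHom ℚ) : Polynomial ℚ) : ℚ⟦X⟧) 1 ((s + 1) * K) :=
    nrm_poly_le (Polynomial.natDegree_map_le.trans hT)
      (fun k => by rw [Polynomial.coeff_map]; simp only [eq_intCast, Rat.cast_intCast]
                   exact_mod_cast hTK k) zero_le_one le_rfl
  have hx : |(1 / N : ℝ)| ≤ 1 := by
    rw [abs_of_pos (by positivity), div_le_one (by positivity)]; exact hN1
  have h2 := tail (k0 := 1) (k1 := 1) h1 one_pos hx (by
    rw [X_pow_dvd_iff]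
    intro k hk
    rw [map_sub, Polynomial.coeff_coe (trunc _ _), coeff_trunc, if_pos hk, sub_self])
  have h3 := Polynomial.aeval_algebraMap_apply_eq_algebraMap_eval (A := ℝ) (1 / N : ℚ)
    (T.map (Int.castRingHom ℚ))
  simp only [eq_ratCast, Rat.cast_div, Rat.cast_one, Rat.cast_natCast, h, Rat.cast_zero] at h3
  rw [ev_poly, h3, Polynomial.aeval_def, eval₂_trunc_eq_sum_range,
    abs_of_pos (a := (1 / N : ℝ)) (by positivity)] at h2
  simp only [Finset.range_one, Finset.sum_singleton, Polynomial.coeff_coe, Polynomial.coeff_map,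
    eq_intCast, eq_ratCast, Rat.cast_intCast, pow_zero, mul_one, zero_sub, abs_neg, div_one,
    pow_one] at h2
  have h4 : (1 : ℝ) ≤ |(T.coeff 0 : ℝ)| := by exact_mod_cast Int.one_le_abs h0
  have h5 : ((s + 1) * K : ℝ) < N := by exact_mod_cast hN
  have h6 := h4.trans h2
  rw [mul_one_div, one_le_div (by positivity)] at h6
  linarith

/-- Linear independence of values of G-functions at 1 / N; the origin may be a regular singular
point of the system. -/
theorem gthm (m s : ℕ) : ∃ κ : ℕ, ∀ {ι : Type} [Fintype ι] [DecidableEq ι],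
    Fintype.card ι = m + 1 → ∀ (f : ι → ℚ⟦X⟧) (i0 : ι), f i0 = 1 →
    ∀ (T : Polynomial ℤ) (A : ι → ι → Polynomial ℚ), T.coeff 0 ≠ 0 → T.natDegree + 1 ≤ s →
    (∀ i j, (A i j).natDegree ≤ s) →
    (∀ i, X * ((T.map (Int.castRingHom ℚ) : Polynomial ℚ) : ℚ⟦X⟧) * d⁄dX ℚ (f i)
      = ∑ j, (A i j : ℚ⟦X⟧) * f j) →
    (∀ a : ι → Polynomial ℚ, ∑ i, (a i : ℚ⟦X⟧) * f i = 0 → a = 0) →
    ∀ (K : ℕ), 2 ≤ K → (∀ k, |T.coeff k| ≤ K) → (∀ i n, |coeff n (f i)| ≤ (K : ℚ) ^ (n + 1)) →
    ∀ (D : ℕ → ℕ), (∀ n, 0 < D n ∧ D n ≤ K ^ (n + 1)) → (∀ i, Den (f i) D) →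
    ∀ (N : ℕ), K ^ κ ≤ N → ∀ (c : ι → ℚ), ∑ i, (c i : ℝ) * ev (f i) (1 / N) = 0 → c = 0 := by
  set r := 3 * m * (s + 1) with hr
  set lam := 3 * (m + 1) * (s + 1) + 2 with hlam
  refine ⟨(7 + 3 * r) * lam + s + 2, ?_⟩
  intro ι _ _ hm f i0 h0 T A hT0 hT hA hode hind K hK hTK hf D hD hden N hN c hc
  set φ := Int.castRingHom ℚ with hφ
  set T1 : Polynomial ℤ := Polynomial.X * T with hT1
  have hT1m : T1.map φ = Polynomial.X * T.map φ := by simp [hT1]
  have hT1d : T1.natDegree ≤ s :=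
    Polynomial.natDegree_mul_le.trans (by rw [Polynomial.natDegree_X]; omega)
  have hT1K : ∀ k, |T1.coeff k| ≤ K := by
    intro k
    cases k with
    | zero => simp [hT1]
    | succ k => rw [hT1, Polynomial.coeff_X_mul]; exact hTK k
  have hode' : ∀ i, ((T1.map φ : Polynomial ℚ) : ℚ⟦X⟧) * d⁄dX ℚ (f i)
      = ∑ j, (A i j : ℚ⟦X⟧) * f j := by
    intro i; rw [hT1m, Polynomial.coe_mul, Polynomial.coe_X]; exact hode i
  obtain ⟨o0, ho0⟩ : ∃ o0 : ℕ, ∀ o ≥ o0,
      (Matrix.of fun l i => (A i l).coeff 0).charpoly.eval (o * (T.map φ).coeff 0) ≠ 0 := by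
    set χ := (Matrix.of fun l i => (A i l).coeff 0).charpoly
    have hχ : χ ≠ 0 := (Matrix.charpoly_monic _).ne_zero
    have ht : (T.map φ).coeff 0 ≠ 0 := by simpa [hφ] using hT0
    have hfin : {o : ℕ | χ.eval (o * (T.map φ).coeff 0) = 0}.Finite :=
      (Polynomial.finite_setOfPred_isRoot hχ).preimage (f := fun o : ℕ => o * (T.map φ).coeff 0)
        fun a _ b _ hab => by exact_mod_cast mul_right_cancel₀ ht hab
    obtain ⟨o0, ho0⟩ := hfin.bddAbove
    exact ⟨o0 + 1, fun o ho h => by have := ho0 h; omega⟩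
  set b : ℕ := ∏ i, (c i).den with hb
  have hb0 : 0 < b := Finset.prod_pos fun i _ => (c i).pos
  have hbc : ∀ i, ∃ z : ℤ, (b : ℚ) * c i = z := by
    intro i
    obtain ⟨w, hw⟩ := Finset.dvd_prod_of_mem (fun i => (c i).den) (Finset.mem_univ i)
    refine ⟨w * (c i).num, ?_⟩
    rw [hb, hw]; push_cast
    rw [← Rat.mul_den_eq_num]; ring
  set J0 := (m + 1) * (m * s) + m * m + 1 with hJ0
  obtain ⟨e0, he0⟩ := pow_unbounded_of_one_lt (b * ∑ i, |(c i : ℝ)|) (one_lt_two (α := ℝ))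
  set e := e0 + J0 + o0 + m + 1 with he
  set τ := 3 * (s + 1) * e with hτ
  set n := m * τ + e with hn
  obtain ⟨q, hq0, hq, hqH, hqo⟩ := exists_q hm f i0 h0 (by omega) hf hD hden
    (n := n) (τ := τ) (r := r) (by omega) (by
      rw [show n + 1 - m * τ = e + 1 by omega, hr, hτ]; nlinarith [Nat.zero_le (m * (s + 1))])
  set o := n + τ + 1 with ho
  set p : ι → Polynomial ℚ := fun i => trunc (n + 1) (((q.map φ : Polynomial ℚ) : ℚ⟦X⟧) * f i)
  have hqm : q.map φ ≠ 0 := by
    rwa [Ne, Polynomial.map_eq_zero_iff (RingHom.injective_int φ)]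
  have hqd : (q.map φ).natDegree ≤ n := Polynomial.natDegree_map_le.trans hq
  have hp0 : p i0 ≠ 0 := by
    simp only [p, h0, mul_one]
    rwa [trunc_coe_eq_self (by omega)]
  have hτe : 3 * e ≤ τ := by rw [hτ]; nlinarith [Nat.zero_le (s * e)]
  set ε := Fintype.equivFinOfCardEq hm
  have hε : ∀ j, (ε j : ℕ) < m + 1 := fun j => (ε j).2
  have hdet := det_ne_zero hT1m ho0 hode' hind hqm (o := o) (by omega) hqo i0 hp0
    (fun j => (ε j : ℕ)) (fun a b hab => ε.injective (Fin.ext hab))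
    (fun j k hk => ⟨ε.symm ⟨k, hk.trans (hε j)⟩, by simp⟩)
  have hK1 : 1 ≤ K := by omega
  have hNs : (s + 1) * K < N := by
    calc (s + 1) * K ≤ K ^ s * K :=
          Nat.mul_le_mul_right _ (Nat.lt_two_pow_self.trans_le (Nat.pow_le_pow_left hK s))
      _ = K ^ (s + 1) := by ring
      _ < K ^ (s + 2) := Nat.pow_lt_pow_right (by omega) (by omega)
      _ ≤ N := (Nat.pow_le_pow_right hK1 (by omega)).trans hN
  have hN2 : 2 * K ≤ N := by
    calc 2 * K ≤ K ^ 2 := by nlinarith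
      _ ≤ N := (Nat.pow_le_pow_right hK1 (by omega)).trans hN
  have hξ : (1 / N : ℚ) ≠ 0 := by
    have : (0 : ℚ) < N := by exact_mod_cast (by omega : 0 < N)
    positivity
  refine span_values (T := T1.map φ) (A := A) (p := p) hξ ?_ (fun j => (ε j : ℕ)) hε hdet
    (o := m * (o - m)) (d := (m + 1) * (n + m * s)) (J := e + J0) ?_ ?_ ?_ ?_
  · rw [hT1m, Polynomial.eval_mul, Polynomial.eval_X]
    exact mul_ne_zero hξ (eval_ne_zero hT0 (by omega) hTK hNs)
  · have := X_pow_dvd_det (Matrix.of fun i j => Pseq (T1.map φ) A p (ε j) i) h0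
      (fun j => (((T1.map φ) ^ (ε j : ℕ) * Polynomial.derivative^[ε j] (q.map φ) : Polynomial ℚ)
        : ℚ⟦X⟧)) (o := o - m) fun i j =>
        (pow_dvd_pow _ (by have := hε j; omega)).trans (rem_Pseq hode' hqo (ε j) i)
    rwa [hm, Nat.add_sub_cancel] at this
  · refine (natDegree_det_le' (d := n + m * s) _ fun i j => (natDegree_Pseq
      (Polynomial.natDegree_map_le.trans hT1d) hA
      (fun i => Nat.lt_succ_iff.1 (natDegree_trunc_lt _ _)) _ i).trans ?_).trans (by rw [hm])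
    have := hε j
    exact Nat.add_le_add_left (Nat.mul_le_mul_right _ (by omega)) _
  · obtain ⟨w, hw⟩ : ∃ w, o = m + w := ⟨o - m, by omega⟩
    have h1 : m * (m + w) = m * (n + τ + 1) := by rw [← hw]
    rw [show o - m = w by omega, hJ0]
    nlinarith
  · intro j hj
    refine vanish f T1 A hT1d hA hode' hK hT1K hf hD hden hq hqH hqo (e := e) (by omega) ?_ hN2 c
      hc hb0 hbc ?_
    · have h1 : (j + 1) * (s + 1) ≤ 2 * e * (s + 1) := Nat.mul_le_mul_right _ (by omega)
      rw [ho, hτ]; nlinarith [Nat.zero_le (s * e)]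
    · have hK' : (2 : ℝ) ≤ K := by exact_mod_cast hK
      have h1 : o ≤ lam * e := by rw [ho, hn, hτ, hlam]; nlinarith
      calc _ < 2 ^ e0 * (K : ℝ) ^ ((7 + 3 * r) * o) := by gcongr
        _ ≤ K ^ e * (K : ℝ) ^ ((7 + 3 * r) * (lam * e)) := by
          refine mul_le_mul ((pow_le_pow_left₀ (by norm_num) hK' _).trans
            (pow_le_pow_right₀ (by linarith) (by omega)))
            (pow_le_pow_right₀ (by linarith) (Nat.mul_le_mul_left _ h1)) (by positivity)
            (by positivity)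
        _ = (K ^ ((7 + 3 * r) * lam + 1)) ^ e := by ring
        _ ≤ (N : ℝ) ^ e := by
          gcongr
          exact_mod_cast (Nat.pow_le_pow_right hK1 (by omega)).trans hN

end GPC

end

-- part MP_57341d_ag.H87.GPoly
section

/-!
Polynomial relations of bounded degree between values of G-functions.
-/

set_option autoImplicit false

namespace GPC

open PowerSeries

theorem exists_fin_prod {ε R : Type} [CommMonoid R] [DecidableEq ε] (Y : ε → R) (n : ℕ) :
    ∀ μ : ε →₀ ℕ, (μ.sum fun _ k => k) ≤ n →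
      ∃ t : Fin n → Option ε, ∏ k, (t k).elim 1 Y = μ.prod fun e k => Y e ^ k := by
  induction n with
  | zero =>
    intro μ hμ
    refine ⟨Fin.elim0, ?_⟩
    rw [Finset.univ_eq_empty, Finset.prod_empty]
    symm
    refine Finset.prod_eq_one fun e he => ?_
    have : μ e ≤ μ.sum fun _ k => k := Finset.single_le_sum (fun _ _ => Nat.zero_le _) he
    show Y e ^ μ e = 1
    rw [show μ e = 0 by omega, pow_zero]
  | succ n ih =>
    intro μ hμ
    by_cases h0 : μ = 0
    · exact ⟨fun _ => none, by simp [h0]⟩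
    · obtain ⟨e, he⟩ := Finsupp.support_nonempty_iff.2 h0
      have he' : Finsupp.single e 1 ≤ μ := by
        rw [Finsupp.single_le_iff]; exact Nat.pos_of_ne_zero (Finsupp.mem_support_iff.1 he)
      obtain ⟨ν, rfl⟩ := exists_add_of_le he'
      rw [Finsupp.sum_add_index' (fun _ => rfl) (fun _ _ _ => rfl),
        Finsupp.sum_single_index rfl] at hμ
      obtain ⟨t, ht⟩ := ih ν (by omega)
      refine ⟨Fin.cons (some e) t, ?_⟩
      rw [Fin.prod_univ_succ, Finsupp.prod_add_index' (fun _ => pow_zero _)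
        (fun _ _ _ => pow_add _ _ _), Finsupp.prod_single_index (h := fun x k => Y x ^ k) (pow_zero _)]
      simp [ht]

theorem deriv_prod {κ : Type} [DecidableEq κ] (s : Finset κ) (g : κ → ℚ⟦X⟧) :
    d⁄dX ℚ (∏ k ∈ s, g k) = ∑ k ∈ s, (∏ j ∈ s.erase k, g j) • d⁄dX ℚ (g k) := by
  induction s using Finset.induction_on with
  | empty => simp
  | insert a s ha ih =>
    rw [Finset.prod_insert ha, Finset.sum_insert ha, Derivation.leibniz, ih, Finset.erase_insert ha,
      add_comm, Finset.smul_sum]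
    congr 1
    refine Finset.sum_congr rfl fun k hk => ?_
    rw [Finset.erase_insert_of_ne (by rintro rfl; exact ha hk),
      Finset.prod_insert fun h => ha (Finset.mem_of_mem_erase h), mul_smul]

theorem Nrm.finProd {n : ℕ} {g : Fin n → ℚ⟦X⟧} {r B : ℝ} (hg : ∀ k, Nrm (g k) r B) (hr : 0 ≤ r) :
    Nrm (∏ k, g k) r (B ^ n) := by
  induction n with
  | zero => simpa using Nrm.one
  | succ n ih => rw [Fin.prod_univ_succ, pow_succ']; exact (hg 0).mul (ih fun k => hg _) hr

theorem Den.finProd {n : ℕ} {g : Fin n → ℚ⟦X⟧} {D : ℕ → ℕ} (hg : ∀ k, Den (g k) D) :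
    Den (∏ k, g k) fun m => D m ^ n := by
  induction n with
  | zero => simpa using Den.one
  | succ n ih =>
    rw [Fin.prod_univ_succ]
    exact ((hg 0).mul (ih fun k => hg _)).of_dvd fun m => by rw [pow_succ']

theorem gpoly (w s d : ℕ) : ∃ κ : ℕ, ∀ {ε : Type} [Fintype ε] [DecidableEq ε],
    Fintype.card ε = w → ∀ (Y : ε → ℚ⟦X⟧) (T : Polynomial ℤ), T.coeff 0 ≠ 0 →
    T.natDegree + 1 ≤ s →
    (∀ e, ∃ p : ε → Polynomial ℚ, (∀ e', (p e').natDegree ≤ s) ∧
      X * ((T.map (Int.castRingHom ℚ) : Polynomial ℚ) : ℚ⟦X⟧) * d⁄dX ℚ (Y e)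
        = ∑ e', (p e' : ℚ⟦X⟧) * Y e') →
    (∀ Q : MvPolynomial (Option ε) ℚ, MvPolynomial.aeval (fun o => o.elim X Y) Q = 0 →
      ∀ r : ℚ, MvPolynomial.aeval (fun o => o.elim (C r) Y) Q = 0) →
    ∀ (K : ℕ), 2 ≤ K → (∀ k, |T.coeff k| ≤ K) → (∀ e n, |coeff n (Y e)| ≤ (K : ℚ) ^ (n + 1)) →
    ∀ (D : ℕ → ℕ), (∀ n, 0 < D n ∧ D n ≤ K ^ (n + 1)) → (∀ e, Den (Y e) D) →
    ∀ (N : ℕ), K ^ κ ≤ N → ∀ R : MvPolynomial ε ℚ, R.totalDegree ≤ d →
      MvPolynomial.aeval (fun e => ev (Y e) (1 / N)) R = 0 → MvPolynomial.aeval Y R = 0 := by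
  classical
  choose κ hκ using fun m => gthm m s
  refine ⟨2 * (d + 1) * ((Finset.range ((w + 1) ^ d)).sup κ + 1), ?_⟩
  intro ε _ _ hw Y T hT0 hT hode hFI K hK hTK hY D hD hden N hN R hR hR0
  set κ0 := (Finset.range ((w + 1) ^ d)).sup κ with hκ0
  set π : (Fin d → Option ε) → ℚ⟦X⟧ := fun t => ∏ k, (t k).elim 1 Y with hπ
  obtain ⟨b, hbS, hb1, hSb, hbi⟩ := exists_linearIndepOn_id_extension (K := ℚ)
    (s := {(1 : ℚ⟦X⟧)}) (t := Set.range π) (LinearIndepOn.singleton one_ne_zero)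
    (by rintro _ rfl; exact ⟨fun _ => none, by simp [hπ]⟩)
  have : Fintype b := ((Set.finite_range π).subset hbS).fintype
  choose τ hτ using fun i : b => hbS i.2
  have hcard : Fintype.card b ≤ (w + 1) ^ d := by
    have := Fintype.card_le_of_injective τ fun i j h => Subtype.ext (by rw [← hτ, ← hτ, h])
    simpa [hw] using this
  set i0 : b := ⟨1, hb1 rfl⟩
  obtain ⟨m, hm⟩ : ∃ m, Fintype.card b = m + 1 :=
    ⟨_, (Nat.succ_pred_eq_of_pos (Fintype.card_pos_iff.2 ⟨i0⟩)).symm⟩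
  have hspan : ∀ g ∈ Submodule.span ℚ b, ∃ c : b → ℚ, ∑ i, c i • (i : ℚ⟦X⟧) = g := by
    intro g hg
    rw [← Submodule.mem_span_range_iff_exists_fun, Subtype.range_coe]; exact hg
  choose co hco using fun t => hspan (π t) (hSb ⟨t, rfl⟩)
  have hode' : ∀ o : Option ε, ∃ p : ε → Polynomial ℚ, (∀ e', (p e').natDegree ≤ s) ∧
      X * ((T.map (Int.castRingHom ℚ) : Polynomial ℚ) : ℚ⟦X⟧) * d⁄dX ℚ (o.elim 1 Y)
        = ∑ e', (p e' : ℚ⟦X⟧) * Y e' := by
    intro o
    cases o with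
    | none => exact ⟨0, by simp, by simp⟩
    | some e => exact hode e
  choose p hp hpe using hode'
  have hK' : (2 : ℝ) ≤ K := by exact_mod_cast hK
  set ρ : ℝ := 1 / (2 * K) with hρ
  have hρ0 : 0 < ρ := by positivity
  have hYN : ∀ e, Nrm (Y e) ρ (2 * K) := fun e =>
    Nrm.of_bound (by linarith) hρ0.le (by rw [hρ]; field_simp; norm_num)
      fun n => by exact_mod_cast hY e n
  have hπN : ∀ t, Nrm (π t) ρ ((2 * K) ^ d) := fun t => Nrm.finProd (fun k => by
    cases t k with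
    | none => exact Nrm.one.mono (by linarith)
    | some e => exact hYN e) hρ0.le
  have hK2 : 2 * K ≤ K ^ 2 := by nlinarith
  have hK1 : 1 ≤ K := by omega
  have hN2 : 2 * K ≤ N :=
    hK2.trans ((Nat.pow_le_pow_right hK1 (by nlinarith [Nat.zero_le (d * κ0)])).trans hN)
  have hx : |(1 / N : ℝ)| ≤ ρ := by
    have : 2 * (K : ℝ) ≤ N := by exact_mod_cast hN2
    rw [abs_of_pos (by apply one_div_pos.2; linarith)]
    exact one_div_le_one_div_of_le (by positivity) this
  obtain ⟨c, hc⟩ := hspan (MvPolynomial.aeval Y R) (by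
    rw [MvPolynomial.aeval_def, MvPolynomial.eval₂_eq]
    refine Submodule.sum_mem _ fun μ hμ => ?_
    obtain ⟨t, ht⟩ := exists_fin_prod Y d μ ((MvPolynomial.le_totalDegree hμ).trans hR)
    rw [← Algebra.smul_def]
    exact Submodule.smul_mem _ _ (hSb ⟨t, ht⟩))
  have hle : K ≤ K ^ (2 * (d + 1)) := Nat.le_self_pow (by omega) _
  have key := hκ m hm (fun i : b => (i : ℚ⟦X⟧)) i0 rfl T
    (fun i l => ∑ k, ∑ e', p (τ i k) e'
      * Polynomial.C (co (Function.update (τ i) k (some e')) l)) hT0 hT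
    (fun i l => Polynomial.natDegree_sum_le_of_forall_le _ _ fun k _ =>
      Polynomial.natDegree_sum_le_of_forall_le _ _ fun e' _ =>
        (Polynomial.natDegree_mul_C_le _ _).trans (hp _ _)) ?_ ?_ (K ^ (2 * (d + 1)))
    (hK.trans hle) (fun k => (hTK k).trans (by exact_mod_cast hle)) ?_ (fun n => D n ^ d) ?_ ?_ N
    ?_ c ?_
  · rw [← hc, key]; simp
  · intro i
    conv_lhs => rw [← hτ i, hπ]
    simp only
    rw [deriv_prod, Finset.mul_sum]
    have h1 : ∀ l : b, ((∑ k, ∑ e', p (τ i k) e'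
        * Polynomial.C (co (Function.update (τ i) k (some e')) l) : Polynomial ℚ) : ℚ⟦X⟧)
        * (l : ℚ⟦X⟧) = ∑ k, ∑ e', (p (τ i k) e' : ℚ⟦X⟧)
          * (co (Function.update (τ i) k (some e')) l • (l : ℚ⟦X⟧)) := by
      intro l
      rw [← Polynomial.coeToPowerSeries.ringHom_apply, map_sum, Finset.sum_mul]
      refine Finset.sum_congr rfl fun k _ => ?_
      rw [Polynomial.coeToPowerSeries.ringHom_apply, coe_sum_mul, Finset.sum_mul]
      refine Finset.sum_congr rfl fun e' _ => ?_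
      rw [Polynomial.coe_C, smul_eq_C_mul, mul_assoc]
    simp only [h1]
    rw [Finset.sum_comm]
    refine Finset.sum_congr rfl fun k _ => ?_
    rw [Finset.sum_comm, smul_eq_mul, mul_left_comm, hpe, Finset.mul_sum]
    refine Finset.sum_congr rfl fun e' _ => ?_
    rw [← Finset.mul_sum, hco, hπ]
    simp only
    have h2 : ∏ j ∈ Finset.univ.erase k, (Function.update (τ i) k (some e') j).elim 1 Y
        = ∏ j ∈ Finset.univ.erase k, (τ i j).elim 1 Y :=
      Finset.prod_congr rfl fun j hj => by rw [Function.update_of_ne (Finset.ne_of_mem_erase hj)]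
    rw [← Finset.mul_prod_erase _ _ (Finset.mem_univ k), Function.update_self, h2,
      Option.elim_some]
    ring
  · intro a ha
    set Q : MvPolynomial (Option ε) ℚ := ∑ i : b, Polynomial.aeval (MvPolynomial.X none) (a i)
      * ∏ k, (τ i k).elim 1 fun e => MvPolynomial.X (some e) with hQ
    have hQe : ∀ x : ℚ⟦X⟧, MvPolynomial.aeval (fun o : Option ε => o.elim x Y) Q
        = ∑ i : b, Polynomial.aeval x (a i) * (i : ℚ⟦X⟧) := by
      intro x
      rw [hQ, map_sum]
      refine Finset.sum_congr rfl fun i _ => ?_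
      rw [map_mul, map_prod, ← Polynomial.aeval_algHom_apply, MvPolynomial.aeval_X, ← hτ i, hπ]
      congr 1
      refine Finset.prod_congr rfl fun k _ => ?_
      cases τ i k <;> simp
    have h1 := hFI Q (by
      rw [hQe, ← ha]
      exact Finset.sum_congr rfl fun i _ => by
        rw [← Polynomial.eval₂_C_X_eq_coe]; rfl)
    funext i
    refine Polynomial.funext fun r => ?_
    have h2 := h1 r
    rw [hQe] at h2
    have h3 := Fintype.linearIndependent_iff.1 hbi (fun i => (a i).eval r) (by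
      rw [← h2]
      refine Finset.sum_congr rfl fun i _ => ?_
      rw [show (C r : ℚ⟦X⟧) = algebraMap ℚ ℚ⟦X⟧ r from rfl,
        Polynomial.aeval_algebraMap_apply_eq_algebraMap_eval, Algebra.smul_def]
      rfl) i
    simpa using h3
  · intro i n
    have h1 := (hπN (τ i)).coeff_le hρ0.le n
    rw [hτ, hρ, one_div, inv_pow, mul_inv_le_iff₀ (by positivity), ← pow_add] at h1
    have h2 : (2 * (K : ℝ)) ^ (d + n) ≤ ((K : ℝ) ^ (2 * (d + 1))) ^ (n + 1) := by
      calc (2 * (K : ℝ)) ^ (d + n) ≤ (K ^ 2) ^ (d + n) := by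
            gcongr; exact_mod_cast hK2
        _ ≤ (K ^ 2) ^ ((d + 1) * (n + 1)) :=
            pow_le_pow_right₀ (one_le_pow₀ (by linarith)) (by nlinarith [Nat.zero_le (d * n)])
        _ = _ := by ring
    exact_mod_cast h1.trans h2
  · intro n
    refine ⟨pow_pos (hD n).1 _, (Nat.pow_le_pow_left (hD n).2 _).trans ?_⟩
    rw [← pow_mul, ← pow_mul]
    exact Nat.pow_le_pow_right hK1 (by nlinarith [Nat.zero_le (d * n)])
  · intro i
    rw [← hτ i]
    refine Den.finProd fun k => ?_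
    cases τ i k with
    | none => exact Den.one.of_dvd fun _ => one_dvd _
    | some e => exact hden e
  · rw [← pow_mul]
    refine (Nat.pow_le_pow_right hK1 (Nat.mul_le_mul_left _ ?_)).trans hN
    exact (Finset.le_sup (f := κ) (Finset.mem_range.2 (by omega))).trans (Nat.le_succ _)
  · have h1 := (ev_aeval Y (fun e => ⟨_, hYN e⟩) hx R).2
    have h2 := (ev_aeval (fun i : b => (i : ℚ⟦X⟧)) (fun i => ⟨_, hτ i ▸ hπN (τ i)⟩) hx
      (∑ i, c i • MvPolynomial.X i)).2
    simp only [map_sum, map_smul, MvPolynomial.aeval_X] at h2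
    rw [hc, h1, hR0] at h2
    rw [h2]
    exact Finset.sum_congr rfl fun i _ => (Rat.smul_def _ _).symm

end GPC

end
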