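import Pool.Agent.MP_57341d_ag.Mg.H87_YSub
import Mathlib
import Pool.Agent.MP_57341d_ag.Mg.H87_GPoly

-- part MP_57341d_ag.H87.SpGen
section

set_option autoImplicit false

namespace GPC

open Matrix

variable {h : ℕ}

namespace SpG

section Ring

variable {R : Type} [CommRing R]

/-- The symplectic form. -/
def fm (x y : Fin (2 * h) → R) : R := x ⬝ᵥ (Jm h R *ᵥ y)

theorem Jm_mulVec (y : Fin (2 * h) → R) (i : Fin (2 * h)) :
    (Jm h R *ᵥ y) i = (-1) ^ (i : ℕ) * y i.rev := by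
  have := Jm_mul_apply (Matrix.of fun a (_ : Fin (2 * h)) => y a) i i
  rw [mul_apply] at this
  simpa [mulVec, dotProduct] using this

theorem fm_add_left (x x' y : Fin (2 * h) → R) : fm (x + x') y = fm x y + fm x' y := by
  simp [fm, add_dotProduct]

theorem fm_add_right (x y y' : Fin (2 * h) → R) : fm x (y + y') = fm x y + fm x y' := by
  simp [fm, mulVec_add, dotProduct_add]

theorem fm_sub_left (x x' y : Fin (2 * h) → R) : fm (x - x') y = fm x y - fm x' y := by
  simp [fm, sub_dotProduct]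

theorem fm_smul_left (c : R) (x y : Fin (2 * h) → R) : fm (c • x) y = c * fm x y := by
  simp [fm, smul_dotProduct]

theorem fm_smul_right (c : R) (x y : Fin (2 * h) → R) : fm x (c • y) = c * fm x y := by
  simp [fm, mulVec_smul, dotProduct_smul]

theorem fm_eq (x y : Fin (2 * h) → R) : fm x y = (x ᵥ* Jm h R) ⬝ᵥ y := by
  rw [fm, dotProduct_mulVec]

theorem fm_skew (x y : Fin (2 * h) → R) : fm x y = -fm y x := by
  rw [fm_eq, fm, ← mulVec_transpose, Jm_transpose, neg_mulVec, neg_dotProduct, dotProduct_comm]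

theorem fm_self (x : Fin (2 * h) → R) : fm x x = 0 := by
  unfold fm dotProduct
  refine Finset.sum_involution (fun i _ => i.rev) ?_ ?_ (fun _ _ => Finset.mem_univ _) ?_
  · intro i _
    have hi := i.2
    rw [Jm_mulVec, Jm_mulVec, Fin.rev_rev, Fin.val_rev]
    have h1 : ((-1 : R)) ^ (2 * h - (i + 1)) * (-1) ^ ((i : ℕ) + 1) = 1 := by
      rw [← pow_add, Nat.sub_add_cancel (by omega), pow_mul]; simp
    have h2 : ((-1 : R)) ^ ((i : ℕ) + 1) * (-1) ^ ((i : ℕ) + 1) = 1 := by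
      rw [← mul_pow]; simp
    have h3 : ((-1 : R)) ^ (2 * h - (i + 1)) = (-1) ^ ((i : ℕ) + 1) := by
      linear_combination (-1 : R) ^ ((i : ℕ) + 1) * h1 - (-1 : R) ^ (2 * h - (i + 1)) * h2
    rw [h3]; ring
  · intro i _ _ hc
    have hi := i.2
    have := congrArg Fin.val hc
    rw [Fin.val_rev] at this
    omega
  · intro i _
    exact Fin.rev_rev i

theorem tv_mulVec (v x : Fin (2 * h) → R) : tv v *ᵥ x = fm v x • v := by
  rw [tv, vecMulVec_mulVec, fm_eq]
  ext i
  simp [mul_comm]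

theorem T_mulVec (v x : Fin (2 * h) → R) (s : R) :
    (1 + s • tv v) *ᵥ x = x + (s * fm v x) • v := by
  rw [add_mulVec, one_mulVec, smul_mulVec, tv_mulVec, smul_smul]

theorem fm_mulVec (g : Mx h R) (x y : Fin (2 * h) → R) :
    fm (g *ᵥ x) (g *ᵥ y) = x ⬝ᵥ ((gᵀ * Jm h R * g) *ᵥ y) := by
  rw [fm, ← mulVec_mulVec, ← mulVec_mulVec, dotProduct_mulVec x, vecMul_transpose]

theorem isSp_iff (g : Mx h R) : IsSp g ↔ ∀ x y, fm (g *ᵥ x) (g *ᵥ y) = fm x y := by
  constructor
  · intro hg x y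
    rw [fm_mulVec, hg, fm]
  · intro H
    ext i j
    have := H (Pi.single i 1) (Pi.single j 1)
    rw [fm_mulVec, fm] at this
    simpa using this

theorem T_mul_neg (v : Fin (2 * h) → R) (s : R) : (1 + s • tv v) * (1 + (-s) • tv v) = 1 := by
  rw [ext_iff_mulVec]
  intro x
  rw [← mulVec_mulVec, T_mulVec, T_mulVec, fm_add_right, fm_smul_right, fm_self, one_mulVec]
  ext i
  simp

theorem neg_mul_T (v : Fin (2 * h) → R) (s : R) : (1 + (-s) • tv v) * (1 + s • tv v) = 1 := by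
  simpa using T_mul_neg v (-s)

theorem tv_smul (c : R) (v : Fin (2 * h) → R) : tv (c • v) = (c * c) • tv v := by
  rw [ext_iff_mulVec]
  intro x
  rw [smul_mulVec, tv_mulVec, tv_mulVec, fm_smul_left, smul_smul, smul_smul]
  congr 1
  ring

theorem tv_map {S : Type} [CommRing S] (φ : R →+* S) (v : Fin (2 * h) → R) :
    (tv v).map φ = tv (fun i => φ (v i)) := by
  ext i j
  simp only [tv, map_apply, vecMulVec_apply, vecMul, dotProduct, map_mul, map_sum,
    ← Jm_map φ]

theorem eq_zero_of_fm {y : Fin (2 * h) → R} (H : ∀ x, fm x y = 0) : y = 0 := by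
  have h1 : Jm h R *ᵥ y = 0 := by
    ext i
    simpa [fm] using H (Pi.single i 1)
  have h2 : Jm h R *ᵥ (Jm h R *ᵥ y) = 0 := by rw [h1, mulVec_zero]
  rw [mulVec_mulVec, Jm_mul_Jm, neg_mulVec, one_mulVec] at h2
  exact neg_eq_zero.1 h2

end Ring

end SpG

open SpG

theorem tv_isSp {R : Type} [CommRing R] (v : Fin (2 * h) → R) (s : R) : IsSp (1 + s • tv v) := by
  rw [isSp_iff]
  intro x y
  rw [T_mulVec, T_mulVec, fm_add_left, fm_add_right, fm_add_right, fm_smul_left, fm_smul_right,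
    fm_smul_right, fm_smul_left, fm_self, fm_skew x v]
  ring

theorem tv_conj {R : Type} [CommRing R] {g g' : Mx h R} (hg : IsSp g) (hg' : g * g' = 1)
    (v : Fin (2 * h) → R) : g * tv v * g' = tv (g *ᵥ v) := by
  have : g * tv v = tv (g *ᵥ v) * g := by
    rw [ext_iff_mulVec]
    intro x
    rw [← mulVec_mulVec, ← mulVec_mulVec, tv_mulVec, tv_mulVec, (isSp_iff g).1 hg, mulVec_smul]
  rw [this, Matrix.mul_assoc, hg', Matrix.mul_one]

namespace SpG

section Field

variable {K : Type} [Field K]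

/-- The space of fixed vectors. -/
def Fx (g : Mx h K) : Submodule K (Fin (2 * h) → K) where
  carrier := {x | g *ᵥ x = x}
  add_mem' := by
    intro a b ha hb
    simp only [Set.mem_ofPred_eq] at *
    rw [mulVec_add, ha, hb]
  zero_mem' := by simp
  smul_mem' := by
    intro c a ha
    simp only [Set.mem_ofPred_eq] at *
    rw [mulVec_smul, ha]

theorem mem_Fx {g : Mx h K} {x : Fin (2 * h) → K} : x ∈ Fx g ↔ g *ᵥ x = x := Iff.rfl

theorem Fx_le {g : Mx h K} (hg : IsSp g) (w : Fin (2 * h) → K) (s : K) :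
    Fx g ≤ Fx ((1 + s • tv (g *ᵥ w - w)) * g) := by
  intro z hz
  rw [mem_Fx] at *
  have : fm (g *ᵥ w - w) z = 0 := by
    rw [fm_sub_left]
    have := (isSp_iff g).1 hg w z
    rw [hz] at this
    rw [this, sub_self]
  rw [← mulVec_mulVec, hz, T_mulVec, this, mul_zero, zero_smul, add_zero]

theorem stepA {g : Mx h K} (hg : IsSp g) {x : Fin (2 * h) → K} (hx : fm x (g *ᵥ x) ≠ 0) :
    ∃ (y : Fin (2 * h) → K) (s : K), Fx g < Fx ((1 + s • tv y) * g) := by
  refine ⟨g *ᵥ x - x, (fm x (g *ᵥ x))⁻¹, lt_of_le_of_ne (Fx_le hg _ _) fun hc => hx ?_⟩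
  have : x ∈ Fx ((1 + (fm x (g *ᵥ x))⁻¹ • tv (g *ᵥ x - x)) * g) := by
    rw [mem_Fx, ← mulVec_mulVec, T_mulVec, fm_sub_left, fm_self, zero_sub, mul_neg,
      inv_mul_cancel₀ hx]
    simp
  rw [← hc, mem_Fx] at this
  rw [this, fm_self]

theorem stepB {g : Mx h K} (hg : IsSp g) (hne : g ≠ 1) (H : ∀ x, fm x (g *ᵥ x) = 0) :
    ∃ (y : Fin (2 * h) → K), Fx g ≤ Fx ((1 + (1 : K) • tv y) * g) ∧
      ∃ x, fm x (((1 + (1 : K) • tv y) * g) *ᵥ x) ≠ 0 := by
  obtain ⟨w, hw⟩ : ∃ w, g *ᵥ w ≠ w := by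
    by_contra hc
    push Not at hc
    exact hne (ext_iff_mulVec.2 fun v => by rw [hc, one_mulVec])
  have hy : g *ᵥ w - w ≠ 0 := sub_ne_zero.2 hw
  refine ⟨g *ᵥ w - w, Fx_le hg w 1, ?_⟩
  set y := g *ᵥ w - w
  obtain ⟨b, hb⟩ : ∃ b, fm b y ≠ 0 := by
    by_contra hc
    push Not at hc
    exact hy (eq_zero_of_fm hc)
  obtain ⟨a, ha⟩ : ∃ a, fm y (g *ᵥ a) ≠ 0 := by
    refine ⟨-(Jm h K * gᵀ * Jm h K) *ᵥ b, ?_⟩
    rw [mulVec_mulVec, hg.mul_inv, one_mulVec, fm_skew]
    exact neg_ne_zero.2 hb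
  have key : ∀ x, fm x (((1 + (1 : K) • tv y) * g) *ᵥ x) = fm y (g *ᵥ x) * fm x y := by
    intro x
    rw [← mulVec_mulVec, T_mulVec, fm_add_right, H, fm_smul_right]
    ring
  by_cases h1 : fm a y = 0
  · by_cases h2 : fm y (g *ᵥ b) = 0
    · refine ⟨a + b, ?_⟩
      rw [key, mulVec_add, fm_add_right, fm_add_left, h1, h2, add_zero, zero_add]
      exact mul_ne_zero ha hb
    · exact ⟨b, by rw [key]; exact mul_ne_zero h2 hb⟩
  · exact ⟨a, by rw [key]; exact mul_ne_zero ha h1⟩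

theorem mem_closure_T (g : Mx h K) (hg : IsSp g) :
    g ∈ Submonoid.closure {t : Mx h K | ∃ (v : Fin (2 * h) → K) (s : K), t = 1 + s • tv v} := by
  set C := Submonoid.closure {t : Mx h K | ∃ (v : Fin (2 * h) → K) (s : K), t = 1 + s • tv v}
  have back : ∀ (g : Mx h K) (y : Fin (2 * h) → K) (s : K), (1 + s • tv y) * g ∈ C → g ∈ C := by
    intro g y s hm
    have : g = (1 + (-s) • tv y) * ((1 + s • tv y) * g) := by
      rw [← Matrix.mul_assoc, neg_mul_T, Matrix.one_mul]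
    rw [this]
    exact C.mul_mem (Submonoid.subset_closure ⟨y, -s, rfl⟩) hm
  have main : ∀ W : Submodule K (Fin (2 * h) → K), ∀ g : Mx h K, IsSp g → W ≤ Fx g → g ∈ C := by
    intro W
    induction W using WellFoundedGT.induction with
    | ind W ih =>
      have A : ∀ g : Mx h K, IsSp g → W ≤ Fx g → ∀ x, fm x (g *ᵥ x) ≠ 0 → g ∈ C := by
        intro g hg hW x hx
        obtain ⟨y, s, hlt⟩ := stepA hg hx
        exact back g y s (ih _ (lt_of_le_of_lt hW hlt) _ ((tv_isSp y s).mul hg) le_rfl)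
      intro g hg hW
      by_cases hne : g = 1
      · rw [hne]; exact C.one_mem
      by_cases H : ∀ x, fm x (g *ᵥ x) = 0
      · obtain ⟨y, hle, x, hx⟩ := stepB hg hne H
        exact back g y 1 (A _ ((tv_isSp y 1).mul hg) (hW.trans hle) x hx)
      · push Not at H
        obtain ⟨x, hx⟩ := H
        exact A g hg hW x hx
  exact main ⊥ g hg bot_le

end Field

end SpG

/-- Transvections generate the symplectic group. -/
theorem sp_induction {K : Type} [Field K] [CharZero K] (p : Mx h K → Prop) (h1 : p 1)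
    (hT : ∀ g v (s : K), p g → p (g * (1 + s • tv v))) (g : Mx h K) (hg : IsSp g) : p g := by
  refine Submonoid.closure_induction_right (motive := fun m _ => p m) h1 ?_ (mem_closure_T g hg)
  rintro x _ y ⟨v, s, rfl⟩ hx
  exact hT x v s hx

/-- The domain of the Cayley transform is dense. -/
theorem sp_dense (P : MvPolynomial (Fin (2 * h) × Fin (2 * h)) ℂ) {g : Mx h ℂ} (hg : IsSp g)
    (hP : MvPolynomial.eval (fun e => g e.1 e.2) P ≠ 0) :
    ∃ g' : Mx h ℂ, IsSp g' ∧ (g' + 1).det ≠ 0 ∧ MvPolynomial.eval (fun e => g' e.1 e.2) P ≠ 0 := by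
  obtain ⟨γ, hγ, h0, h1⟩ : ∃ γ : Mx h (Polynomial ℂ), IsSp γ ∧
      γ.map (Polynomial.evalRingHom 0) = 1 ∧ γ.map (Polynomial.evalRingHom 1) = g := by
    refine sp_induction (fun g => ∃ γ : Mx h (Polynomial ℂ), IsSp γ ∧
      γ.map (Polynomial.evalRingHom 0) = 1 ∧ γ.map (Polynomial.evalRingHom 1) = g)
      ⟨1, IsSp.one, by simp, by simp⟩ ?_ g hg
    rintro g v s ⟨γ, hγ, h0, h1⟩
    have key : ∀ l : ℂ, (1 + (Polynomial.C s * Polynomial.X) •
        tv (fun i => Polynomial.C (v i)) : Mx h (Polynomial ℂ)).map (Polynomial.evalRingHom l)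
        = 1 + (s * l) • tv v := by
      intro l
      have := tv_map (Polynomial.evalRingHom l) (fun i => Polynomial.C (v i))
      simp only [Polynomial.coe_evalRingHom, Polynomial.eval_C] at this
      rw [← this]
      ext i j
      by_cases hij : i = j <;> simp [one_apply, hij]
    refine ⟨γ * (1 + (Polynomial.C s * Polynomial.X) • tv (fun i => Polynomial.C (v i))),
      hγ.mul (tv_isSp _ _), ?_, ?_⟩
    · rw [Matrix.map_mul, h0, key]; simp
    · rw [Matrix.map_mul, h1, key]; simp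
  set A : Polynomial ℂ := (γ + 1).det with hA
  set B : Polynomial ℂ := MvPolynomial.eval₂ Polynomial.C (fun e => γ e.1 e.2) P with hB
  have eA : ∀ l : ℂ, A.eval l = (γ.map (Polynomial.evalRingHom l) + 1).det := by
    intro l
    rw [hA, ← Polynomial.coe_evalRingHom, RingHom.map_det, map_add, map_one, RingHom.mapMatrix_apply]
  have eB : ∀ l : ℂ, B.eval l =
      MvPolynomial.eval (fun e => (γ.map (Polynomial.evalRingHom l)) e.1 e.2) P := by
    intro l
    rw [hB, ← Polynomial.coe_evalRingHom, MvPolynomial.eval₂_comp_left]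
    have : (Polynomial.evalRingHom l).comp Polynomial.C = RingHom.id ℂ := by
      ext; simp
    rw [this]
    rfl
  have hA0 : A ≠ 0 := by
    intro hc
    have := eA 0
    rw [hc, h0, Polynomial.eval_zero, ← two_smul ℂ, det_smul, det_one, mul_one] at this
    exact pow_ne_zero _ two_ne_zero this.symm
  have hB0 : B ≠ 0 := by
    intro hc
    have := eB 1
    rw [hc, h1, Polynomial.eval_zero] at this
    exact hP this.symm
  obtain ⟨l, hl⟩ : ∃ l : ℂ, (A * B).eval l ≠ 0 := by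
    by_contra hc
    push Not at hc
    exact mul_ne_zero hA0 hB0 (Polynomial.funext fun l => by rw [hc, Polynomial.eval_zero])
  rw [Polynomial.eval_mul, eA, eB] at hl
  exact ⟨_, hγ.map _, left_ne_zero_of_mul hl, right_ne_zero_of_mul hl⟩

namespace SpG

/-- A matrix coefficient of the principal unipotent group, as a polynomial. -/
noncomputable def Qp (a v : Fin (2 * h) → ℝ) : Polynomial ℝ :=
  ∑ i : Fin (2 * h), ∑ j : Fin (2 * h), Polynomial.monomial ((j : ℕ) - i)
    (if (i : ℕ) ≤ j then a i * v j / ((j : ℕ) - i).factorial else 0)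

theorem eval_Qp (a v : Fin (2 * h) → ℝ) (s : ℝ) : (Qp a v).eval s = a ⬝ᵥ (un h s *ᵥ v) := by
  simp only [Qp, Polynomial.eval_finsetSum, Polynomial.eval_monomial, dotProduct, mulVec,
    Finset.mul_sum, un, of_apply]
  refine Finset.sum_congr rfl fun i _ => Finset.sum_congr rfl fun j _ => ?_
  split_ifs
  · simp only [eq_ratCast, Rat.cast_div, Rat.cast_one, Rat.cast_natCast]
    ring
  · simp

theorem Qp_ne_zero (hh : 1 ≤ h) {a v : Fin (2 * h) → ℝ} (ha : a ≠ 0)
    (hv : v ⟨2 * h - 1, by omega⟩ ≠ 0) : Qp a v ≠ 0 := by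
  have hne : (Finset.univ.filter fun i => a i ≠ 0).Nonempty := by
    obtain ⟨i, hi⟩ := Function.ne_iff.1 ha
    exact ⟨i, Finset.mem_filter.2 ⟨Finset.mem_univ _, hi⟩⟩
  set k := (Finset.univ.filter fun i => a i ≠ 0).min' hne with hk
  have hk1 : a k ≠ 0 := (Finset.mem_filter.1 (Finset.min'_mem _ hne)).2
  have hk2 : ∀ i, i < k → a i = 0 := by
    intro i hi
    by_contra hc
    exact absurd (Finset.min'_le _ i (Finset.mem_filter.2 ⟨Finset.mem_univ _, hc⟩)) (not_le.2 hi)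
  have hkl := k.2
  intro hc
  have := congrArg (fun p => Polynomial.coeff p (2 * h - 1 - k)) hc
  simp only [Qp, Polynomial.finsetSum_coeff, Polynomial.coeff_monomial,
    Polynomial.coeff_zero] at this
  rw [Finset.sum_eq_single k, Finset.sum_eq_single ⟨2 * h - 1, by omega⟩, if_pos rfl,
    if_pos (by simp only; omega)] at this
  · refine (div_ne_zero (mul_ne_zero hk1 hv) ?_) this
    exact_mod_cast Nat.factorial_ne_zero _
  · intro j _ hj
    have hjl := j.2
    have : (j : ℕ) ≠ 2 * h - 1 := fun hc => hj (Fin.ext hc)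
    split_ifs with h1 h2
    · omega
    · rfl
    · rfl
  · simp
  · intro i _ hi
    refine Finset.sum_eq_zero fun j _ => ?_
    have hjl := j.2
    rcases lt_or_gt_of_ne hi with h3 | h3
    · simp [hk2 i h3]
    · have : (k : ℕ) < i := h3
      split_ifs with h1 h2
      · omega
      · rfl
      · rfl
  · simp

theorem continuous_T (s : ℝ) : Continuous fun x : Fin (2 * h) → ℝ => (1 + s • tv x : Mx h ℝ) := by
  refine continuous_const.add (Continuous.const_smul ?_ s)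
  refine continuous_matrix fun i j => ?_
  simp only [tv, vecMulVec_apply, vecMul, dotProduct]
  fun_prop

end SpG

/-- A closed monoid normalised by the principal unipotent group and containing a suitable group
of transvections contains the symplectic group. -/
theorem sp_of_closed (hh : 1 ≤ h) (G : Set (Mx h ℝ)) (hG : IsClosed G) (h1 : 1 ∈ G)
    (hmul : ∀ g ∈ G, ∀ g' ∈ G, g * g' ∈ G)
    (hconj : ∀ g ∈ G, ∀ s : ℝ, un h s * g * un h (-s) ∈ G)
    (v : Fin (2 * h) → ℝ) (hv : v ⟨2 * h - 1, by omega⟩ ≠ 0) (hT : ∀ s : ℝ, 1 + s • tv v ∈ G)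
    (g : Mx h ℝ) (hg : IsSp g) : g ∈ G := by
  set Xs : Set (Fin (2 * h) → ℝ) := {x | ∀ s : ℝ, 1 + s • tv x ∈ G} with hXs
  have hcl : IsClosed Xs := by
    have : Xs = ⋂ s : ℝ, (fun x : Fin (2 * h) → ℝ => (1 + s • tv x : Mx h ℝ)) ⁻¹' G := by
      ext x; simp [hXs]
    rw [this]
    exact isClosed_iInter fun s => hG.preimage (continuous_T s)
  have conj : ∀ (a b : Mx h ℝ) (x : Fin (2 * h) → ℝ) (s : ℝ), IsSp a → a * b = 1 →
      a * (1 + s • tv x) * b = 1 + s • tv (a *ᵥ x) := by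
    intro a b x s ha hab
    rw [Matrix.mul_add, Matrix.add_mul, Matrix.mul_one, hab, Matrix.mul_smul, Matrix.smul_mul,
      tv_conj ha hab]
  have hsm : ∀ (c : ℝ), ∀ x ∈ Xs, c • x ∈ Xs := by
    intro c x hx s
    rw [tv_smul, smul_smul]
    exact hx _
  have hun : ∀ s : ℝ, un h s *ᵥ v ∈ Xs := by
    intro s r
    rw [← conj (un h s) (un h (-s)) v r (un_isSp s) (by rw [un_add, add_neg_cancel, un_zero])]
    exact hconj _ (hT r) s
  have hxy : ∀ x ∈ Xs, ∀ y ∈ Xs, ∀ t : ℝ, y + (t * fm x y) • x ∈ Xs := by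
    intro x hx y hy t r
    rw [← T_mulVec, ← conj _ _ y r (tv_isSp x t) (T_mul_neg x t)]
    exact hmul _ (hmul _ (hx t) _ (hy r)) _ (hx (-t))
  obtain ⟨W, ⟨hvW, hWX⟩, hmax⟩ := set_has_maximal_iff_noetherian.2 inferInstance
    {W : Submodule ℝ (Fin (2 * h) → ℝ) | v ∈ W ∧ (W : Set (Fin (2 * h) → ℝ)) ⊆ Xs}
    ⟨Submodule.span ℝ {v}, Submodule.mem_span_singleton_self v, fun x hx => by
      obtain ⟨c, rfl⟩ := Submodule.mem_span_singleton.1 hx
      exact hsm c v hT⟩
  have good : ∀ x ∈ Xs, fm v x ≠ 0 → x ∈ W := by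
    intro x hx hvx
    have hxv : fm x v ≠ 0 := by rw [fm_skew]; exact neg_ne_zero.2 hvx
    have hsub : ((W ⊔ Submodule.span ℝ {x} : Submodule ℝ _) : Set (Fin (2 * h) → ℝ)) ⊆ Xs := by
      intro z hz
      obtain ⟨y, hy, u, hu, rfl⟩ := Submodule.mem_sup.1 hz
      obtain ⟨t, rfl⟩ := Submodule.mem_span_singleton.1 hu
      have h2 : ∀ l : ℝ, fm x y + l * fm x v ≠ 0 → y + l • v + t • x ∈ Xs := by
        intro l hl
        have := hxy x hx (y + l • v) (hWX (W.add_mem hy (W.smul_mem l hvW)))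
          (t / (fm x y + l * fm x v))
        rwa [fm_add_right, fm_smul_right, div_mul_cancel₀ _ hl] at this
      by_cases h3 : fm x y = 0
      · have hc : Continuous fun l : ℝ => y + l • v + t • x := by fun_prop
        have h4 : IsClosed {l : ℝ | y + l • v + t • x ∈ Xs} := hcl.preimage hc
        have h5 : ({0}ᶜ : Set ℝ) ⊆ {l : ℝ | y + l • v + t • x ∈ Xs} := fun l hl =>
          h2 l (by rw [h3, zero_add]; exact mul_ne_zero hl hxv)
        have h6 : (0 : ℝ) ∈ closure ({0}ᶜ : Set ℝ) := (dense_compl_singleton 0) 0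
        simpa using h4.closure_subset_iff.2 h5 h6
      · simpa using h2 0 (by simpa using h3)
    have h7 := hmax (W ⊔ Submodule.span ℝ {x}) ⟨Submodule.mem_sup_left hvW, hsub⟩
    have h8 : W = W ⊔ Submodule.span ℝ {x} := (le_sup_left.lt_or_eq.resolve_left h7)
    rw [h8]
    exact Submodule.mem_sup_right (Submodule.mem_span_singleton_self x)
  have hW : W = ⊤ := by
    by_contra hc
    obtain ⟨f, hf, hWf⟩ := Submodule.exists_le_ker_of_lt_top W (lt_top_iff_ne_top.2 hc)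
    set a : Fin (2 * h) → ℝ := fun i => f (Pi.single i 1) with ha
    have hfa : ∀ x, f x = a ⬝ᵥ x := by
      intro x
      rw [LinearMap.pi_apply_eq_sum_univ f x, dotProduct]
      refine Finset.sum_congr rfl fun i _ => ?_
      rw [smul_eq_mul, mul_comm, ha]
      congr 2
      ext j
      simp [Pi.single_apply, eq_comm]
    have ha0 : a ≠ 0 := fun hc => hf (LinearMap.ext fun x => by rw [hfa, hc]; simp)
    have hb0 : v ᵥ* Jm h ℝ ≠ 0 := by
      intro hc
      have : v = 0 := eq_zero_of_fm fun x => by rw [fm_skew, fm_eq, hc]; simp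
      exact hv (by rw [this]; rfl)
    refine mul_ne_zero (Qp_ne_zero hh ha0 hv) (Qp_ne_zero hh hb0 hv) (Polynomial.funext fun s => ?_)
    rw [Polynomial.eval_mul, eval_Qp, eval_Qp, Polynomial.eval_zero, ← fm_eq, ← hfa]
    by_cases h2 : fm v (un h s *ᵥ v) = 0
    · rw [h2, mul_zero]
    · rw [LinearMap.mem_ker.1 (hWf (good _ (hun s) h2)), zero_mul]
  refine sp_induction (· ∈ G) h1 (fun g x s hgG => hmul _ hgG _ ?_) g hg
  exact hWX (by rw [hW]; trivial) s

end GPC

end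

-- part MP_57341d_ag.H87.LogL
section

set_option autoImplicit false

namespace GPC

open Filter Topology

theorem logl_factor {γ : ℝ → ℝ} (hγ : AnalyticAt ℝ γ 0) :
    ∃ δ : ℝ → ℝ, AnalyticAt ℝ δ 0 ∧ ∀ᶠ x in 𝓝 (0 : ℝ), γ x = γ 0 + x * δ x := by
  have h1 : AnalyticAt ℝ (fun x => γ x - γ 0) 0 := hγ.sub analyticAt_const
  have h2 : ((1 : ℕ) : ℕ∞) ≤ analyticOrderAt (fun x => γ x - γ 0) 0 := by
    have : analyticOrderAt (fun x => γ x - γ 0) 0 ≠ 0 := h1.analyticOrderAt_ne_zero.2 (by simp)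
    exact_mod_cast Order.one_le_iff_ne_zero.2 this
  obtain ⟨δ, hδ, h⟩ := (natCast_le_analyticOrderAt h1).1 h2
  refine ⟨δ, hδ, h.mono fun x hx => ?_⟩
  simp only [sub_zero, pow_one, smul_eq_mul] at hx
  linarith

theorem logl_zero (n : ℕ) (γ : ℕ → ℝ → ℝ) (hγ : ∀ j, AnalyticAt ℝ (γ j) 0)
    (h : ∀ᶠ x in 𝓝[>] (0 : ℝ), ∑ j ∈ Finset.range n, γ j x * Real.log x ^ j = 0) :
    ∀ j < n, γ j 0 = 0 := by
  choose δ hδ hγδ using fun j => logl_factor (hγ j)
  have he0 : Tendsto (fun T : ℝ => Real.exp (-T)) atTop (𝓝 0) := Real.tendsto_exp_neg_atTop_nhds_zero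
  have he : Tendsto (fun T : ℝ => Real.exp (-T)) atTop (𝓝[>] 0) :=
    tendsto_nhdsWithin_iff.2 ⟨he0, Eventually.of_forall fun T => Real.exp_pos _⟩
  set P : Polynomial ℝ := ∑ j ∈ Finset.range n, Polynomial.monomial j (γ j 0 * (-1) ^ j) with hP
  have hlim : Tendsto (fun T : ℝ => ∑ j ∈ Finset.range n,
      -((-1) ^ j * δ j (Real.exp (-T)) * (T ^ j * Real.exp (-T)))) atTop (𝓝 0) := by
    have : (0 : ℝ) = ∑ j ∈ Finset.range n, -((-1) ^ j * δ j 0 * 0) := by simp
    rw [this]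
    refine tendsto_finsetSum _ fun j _ => Tendsto.neg ?_
    exact (((hδ j).continuousAt.tendsto.comp he0).const_mul _).mul
      (Real.tendsto_pow_mul_exp_neg_atTop_nhds_zero j)
  have hall : ∀ᶠ x in 𝓝 (0 : ℝ), ∀ j ∈ Finset.range n, γ j x = γ j 0 + x * δ j x :=
    (Finset.eventually_all _).2 fun j _ => hγδ j
  have hPlim : Tendsto (fun T : ℝ => P.eval T) atTop (𝓝 0) := by
    refine hlim.congr' ?_
    filter_upwards [he.eventually h, he0.eventually hall] with T h1 h2
    rw [hP, Polynomial.eval_finsetSum, ← sub_eq_zero, ← Finset.sum_sub_distrib, ← neg_eq_zero,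
      ← Finset.sum_neg_distrib]
    refine Eq.trans (Finset.sum_congr rfl fun j hj => ?_) h1
    rw [h2 j hj, Real.log_exp, Polynomial.eval_monomial, neg_pow T]
    ring
  have hP0 : P = 0 := Polynomial.leadingCoeff_eq_zero.1 ((Polynomial.tendsto_nhds_iff P).1 hPlim).1
  intro j hj
  have : P.coeff j = γ j 0 * (-1) ^ j := by
    rw [hP, Polynomial.finsetSum_coeff, Finset.sum_eq_single j]
    · simp
    · intro b _ hb
      simp [Polynomial.coeff_monomial, hb]
    · intro hj'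
      exact absurd (Finset.mem_range.2 hj) hj'
  rw [hP0, Polynomial.coeff_zero] at this
  rcases mul_eq_zero.1 this.symm with h0 | h0
  · exact h0
  · exact absurd h0 (pow_ne_zero _ (by norm_num))

/-- The logarithm is transcendental over germs of analytic functions at 0. -/
theorem log_lemma (n : ℕ) (β : ℕ → ℝ → ℝ) (hβ : ∀ j, AnalyticAt ℝ (β j) 0)
    (h : ∀ᶠ x in 𝓝[>] (0 : ℝ), ∑ j ∈ Finset.range n, β j x * Real.log x ^ j = 0) :
    ∀ j < n, ∀ᶠ x in 𝓝 (0 : ℝ), β j x = 0 := by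
  have key : ∀ m : ℕ, ∃ γ : ℕ → ℝ → ℝ, (∀ j, AnalyticAt ℝ (γ j) 0) ∧
      ∀ j < n, ∀ᶠ x in 𝓝 (0 : ℝ), β j x = x ^ m * γ j x := by
    intro m
    induction m with
    | zero => exact ⟨β, hβ, fun j _ => Eventually.of_forall fun x => by simp⟩
    | succ m ih =>
      obtain ⟨γ, hγ, hβγ⟩ := ih
      have hall : ∀ᶠ x in 𝓝 (0 : ℝ), ∀ j ∈ Finset.range n, β j x = x ^ m * γ j x :=
        (Finset.eventually_all _).2 fun j hj => hβγ j (Finset.mem_range.1 hj)
      have h0 : ∀ j < n, γ j 0 = 0 := by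
        apply logl_zero n γ hγ
        filter_upwards [h, nhdsWithin_le_nhds hall, self_mem_nhdsWithin] with x h1 h2 hx
        have hx' : x ^ m ≠ 0 := pow_ne_zero _ (ne_of_gt hx)
        apply mul_left_cancel₀ hx'
        rw [mul_zero, ← h1, Finset.mul_sum]
        refine Finset.sum_congr rfl fun j hj => ?_
        rw [h2 j hj]; ring
      choose δ hδ hγδ using fun j => logl_factor (hγ j)
      refine ⟨δ, hδ, fun j hj => ?_⟩
      filter_upwards [hβγ j hj, hγδ j] with x h1 h2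
      rw [h1, h2, h0 j hj]; ring
  intro j hj
  rw [← analyticOrderAt_eq_top, ENat.eq_top_iff_forall_ge]
  intro m
  obtain ⟨γ, hγ, hβγ⟩ := key m
  refine (natCast_le_analyticOrderAt (hβ j)).2 ⟨γ j, hγ j, (hβγ j hj).mono fun x hx => ?_⟩
  simpa using hx

end GPC

end

-- part MP_57341d_ag.H87.Conif
section

set_option autoImplicit false

namespace GPC

open Matrix Set Filter Topology

section Frob

variable {μ : Type} [Fintype μ] [DecidableEq μ]

/-- Entrywise bound. -/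
def CfBd (M : Matrix μ μ ℝ) (c : ℝ) : Prop := ∀ i j, |M i j| ≤ c

omit [DecidableEq μ] in
theorem CfBd.mul {M M' : Matrix μ μ ℝ} {c c' : ℝ} (h : CfBd M c) (h' : CfBd M' c') :
    CfBd (M * M') (Fintype.card μ * c * c') := by
  intro i j
  rw [mul_apply]
  refine (Finset.abs_sum_le_sum_abs _ _).trans ?_
  calc ∑ l, |M i l * M' l j| ≤ ∑ _l : μ, c * c' := Finset.sum_le_sum fun l _ => by
        rw [abs_mul]
        exact mul_le_mul (h i l) (h' l j) (abs_nonneg _) ((abs_nonneg _).trans (h i l))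
    _ = _ := by simp [mul_assoc]

/-- The adjoint action. -/
def cfAd (N X : Matrix μ μ ℝ) : Matrix μ μ ℝ := N * X - X * N

omit [DecidableEq μ] in
theorem CfBd.ad {N X : Matrix μ μ ℝ} {b c : ℝ} (hN : CfBd N b) (hX : CfBd X c) :
    CfBd (cfAd N X) (2 * Fintype.card μ * b * c) := by
  intro i j
  have h1 := hN.mul hX i j
  have h2 := hX.mul hN i j
  rw [cfAd, Matrix.sub_apply]
  refine (abs_sub _ _).trans ?_
  linarith

/-- The inverse of n - ad. -/
noncomputable def cfSolve (N : Matrix μ μ ℝ) (t : ℝ) (R : Matrix μ μ ℝ) : Matrix μ μ ℝ :=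
  t⁻¹ • R + (t⁻¹ ^ 2) • cfAd N R + (t⁻¹ ^ 3) • cfAd N (cfAd N R)

omit [DecidableEq μ] in
theorem cfSolve_eq {N : Matrix μ μ ℝ} (h0 : N * N = 0) {t : ℝ} (ht : t ≠ 0) (R : Matrix μ μ ℝ) :
    t • cfSolve N t R = N * cfSolve N t R - cfSolve N t R * N + R := by
  have h1 : ∀ X : Matrix μ μ ℝ, N * (N * X) = 0 := fun X => by
    rw [← Matrix.mul_assoc, h0, Matrix.zero_mul]
  have h2 : ∀ X : Matrix μ μ ℝ, X * N * N = 0 := fun X => by
    rw [Matrix.mul_assoc, h0, Matrix.mul_zero]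
  have h3 : N * cfAd N (cfAd N R) - cfAd N (cfAd N R) * N = 0 := by
    simp only [cfAd, Matrix.mul_sub, Matrix.sub_mul, h1, h2, Matrix.mul_assoc]
    simp
  have h4 : N * cfSolve N t R - cfSolve N t R * N
      = t⁻¹ • cfAd N R + (t⁻¹ ^ 2) • cfAd N (cfAd N R)
        + (t⁻¹ ^ 3) • (N * cfAd N (cfAd N R) - cfAd N (cfAd N R) * N) := by
    simp only [cfSolve, Matrix.mul_add, Matrix.add_mul, Matrix.mul_smul, Matrix.smul_mul, smul_sub]
    have e1 : t⁻¹ • cfAd N R = t⁻¹ • (N * R) - t⁻¹ • (R * N) := by rw [cfAd, smul_sub]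
    have e2 : (t⁻¹ ^ 2) • cfAd N (cfAd N R)
        = (t⁻¹ ^ 2) • (N * cfAd N R) - (t⁻¹ ^ 2) • (cfAd N R * N) := by
      rw [← smul_sub]; rfl
    rw [e1, e2]
    abel
  rw [h4, h3, smul_zero, add_zero, cfSolve, smul_add, smul_add, smul_smul, smul_smul, smul_smul,
    mul_inv_cancel₀ ht, one_smul, show t * t⁻¹ ^ 2 = t⁻¹ by field_simp,
    show t * t⁻¹ ^ 3 = t⁻¹ ^ 2 by field_simp]
  abel

omit [DecidableEq μ] in
theorem CfBd.solve {N R : Matrix μ μ ℝ} {b c t : ℝ} (hN : CfBd N b) (hR : CfBd R c) (ht : 1 ≤ t) :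
    CfBd (cfSolve N t R) ((1 + 2 * Fintype.card μ * b + (2 * Fintype.card μ * b) ^ 2) * c) := by
  intro i j
  have h1 := hR i j
  have h2 := hN.ad hR i j
  have h3 := hN.ad (hN.ad hR) i j
  have t0 : 0 ≤ t⁻¹ := by positivity
  have t1 : t⁻¹ ≤ 1 := inv_le_one_of_one_le₀ ht
  have key : ∀ (k : ℕ) (y : ℝ), |t⁻¹ ^ k * y| ≤ |y| := fun k y => by
    rw [abs_mul, abs_of_nonneg (pow_nonneg t0 k)]
    exact mul_le_of_le_one_left (abs_nonneg _) (pow_le_one₀ t0 t1)
  have k1 := key 1 (R i j)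
  have k2 := key 2 (cfAd N R i j)
  have k3 := key 3 (cfAd N (cfAd N R) i j)
  rw [pow_one] at k1
  simp only [cfSolve, Matrix.add_apply, Matrix.smul_apply, smul_eq_mul]
  refine (abs_add_three _ _ _).trans ?_
  nlinarith

/-- Coefficients of the Frobenius series. -/
noncomputable def cfU (A : ℕ → Matrix μ μ ℝ) : ℕ → Matrix μ μ ℝ
  | 0 => 1
  | n + 1 => cfSolve (A 0) (n + 1 : ℕ) (∑ k : Fin (n + 1), A (n + 1 - k) * cfU A k)
decreasing_by exact k.2

theorem cfU_rec (A : ℕ → Matrix μ μ ℝ) (h0 : A 0 * A 0 = 0) (n : ℕ) :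
    (n : ℝ) • cfU A n
      = ∑ p ∈ Finset.HasAntidiagonal.antidiagonal n, A p.1 * cfU A p.2 - cfU A n * A 0 := by
  cases n with
  | zero => simp [cfU]
  | succ n =>
    rw [← Finset.Nat.sum_antidiagonal_swap, Finset.Nat.sum_antidiagonal_eq_sum_range_succ_mk,
      Finset.sum_range_succ]
    simp only [Prod.fst_swap, Prod.snd_swap, Nat.sub_self]
    have h1 := cfSolve_eq h0 (t := ((n + 1 : ℕ) : ℝ)) (by positivity)
      (∑ k : Fin (n + 1), A (n + 1 - k) * cfU A k)
    rw [← cfU] at h1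
    rw [h1, Fin.sum_univ_eq_sum_range (fun k => A (n + 1 - k) * cfU A k)]
    abel

theorem cfU_bd (A : ℕ → Matrix μ μ ℝ) {B : ℝ} (hB : 0 ≤ B) (hA : ∀ k, CfBd (A k) B) :
    ∃ C : ℝ, 1 ≤ C ∧ ∀ n, CfBd (cfU A n) (C ^ n) := by
  set K : ℝ := (1 + 2 * Fintype.card μ * B + (2 * Fintype.card μ * B) ^ 2) * (Fintype.card μ * B)
    with hK
  have hK0 : 0 ≤ K := by positivity
  refine ⟨K + 1, by linarith, fun n => ?_⟩
  induction n using Nat.strong_induction_on with
  | _ n ih =>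
    cases n with
    | zero =>
      intro i j
      simp only [cfU, one_apply]
      split_ifs <;> simp
    | succ n =>
      have h1 : CfBd (∑ k : Fin (n + 1), A (n + 1 - k) * cfU A k)
          (Fintype.card μ * B * ∑ k ∈ Finset.range (n + 1), (K + 1) ^ k) := by
        intro i j
        rw [Matrix.sum_apply, Finset.mul_sum,
          ← Fin.sum_univ_eq_sum_range (fun k => Fintype.card μ * B * (K + 1) ^ k)]
        exact (Finset.abs_sum_le_sum_abs _ _).trans
          (Finset.sum_le_sum fun k _ => (hA _).mul (ih k k.2) i j)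
      have h2 := (hA 0).solve h1 (t := ((n + 1 : ℕ) : ℝ)) (by simp)
      intro i j
      rw [cfU]
      refine (h2 i j).trans ?_
      have h3 := geom_sum_mul_add K (n + 1)
      rw [← mul_assoc, ← hK]
      linarith

theorem cf_summable {c : ℕ → ℝ} {B C x : ℝ} (hc : ∀ n, |c n| ≤ B * C ^ n) (hC : 0 ≤ C)
    (hx : |x| * C < 1) : Summable fun n => ‖c n * x ^ n‖ := by
  refine Summable.of_nonneg_of_le (fun n => norm_nonneg _) (fun n => ?_)
    ((summable_geometric_of_lt_one (by positivity) hx).mul_left B)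
  rw [norm_mul, norm_pow, Real.norm_eq_abs, Real.norm_eq_abs, mul_pow]
  calc |c n| * |x| ^ n ≤ B * C ^ n * |x| ^ n := by gcongr; exact hc n
    _ = _ := by ring

theorem cf_analytic {c : ℕ → ℝ} {C : ℝ} (hc : ∀ n, |c n| ≤ C ^ n) (hC : 1 ≤ C) :
    AnalyticAt ℝ (fun x : ℝ => ∑' n, c n * x ^ n) 0 := by
  set p := FormalMultilinearSeries.ofScalars ℝ c with hp
  have hC0 : 0 < C := by linarith
  have h1 : ((Real.toNNReal C⁻¹ : NNReal) : ENNReal) ≤ p.radius := by
    refine p.le_radius_of_bound 1 fun n => ?_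
    rw [hp, FormalMultilinearSeries.ofScalars_norm, Real.norm_eq_abs,
      Real.coe_toNNReal _ (by positivity)]
    calc |c n| * C⁻¹ ^ n ≤ C ^ n * C⁻¹ ^ n := by gcongr; exact hc n
      _ = 1 := by rw [← mul_pow, mul_inv_cancel₀ hC0.ne', one_pow]
  have h2 : 0 < p.radius := by
    refine lt_of_lt_of_le ?_ h1
    rw [ENNReal.coe_pos, Real.toNNReal_pos]
    exact inv_pos.2 hC0
  have h3 := (p.hasFPowerSeriesOnBall h2).analyticAt
  convert h3 using 2 with x
  simp [hp, FormalMultilinearSeries.sum, mul_comm]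

theorem cf_deriv {c : ℕ → ℝ} {C x : ℝ} (hc : ∀ n, |c n| ≤ C ^ n) (hC : 1 ≤ C)
    (hx : |x| * C < 1) :
    HasSum (fun n : ℕ => n * c n * x ^ n) (x * deriv (fun y : ℝ => ∑' n, c n * y ^ n) x) := by
  have hC0 : 0 < C := by linarith
  have hx' : |x| < C⁻¹ := by rwa [← one_div, lt_div_iff₀ hC0]
  obtain ⟨s, hs1, hs2⟩ := exists_between hx'
  have hs : 0 < s := (abs_nonneg _).trans_lt hs1
  have hq : ‖s * C‖ < 1 := by
    rw [Real.norm_of_nonneg (by positivity), ← lt_div_iff₀ hC0, one_div]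
    exact hs2
  have h1 : Summable fun n : ℕ => s⁻¹ * ((n : ℝ) ^ 1 * (s * C) ^ n) :=
    (summable_pow_mul_geometric_of_norm_lt_one 1 hq).mul_left _
  have hb : ∀ (n : ℕ) (y : ℝ), y ∈ Ioo (-s) s →
      ‖c n * (n * y ^ (n - 1))‖ ≤ s⁻¹ * ((n : ℝ) ^ 1 * (s * C) ^ n) := by
    intro n y hy
    cases n with
    | zero => simp
    | succ n =>
      rw [norm_mul, norm_mul, norm_pow, Real.norm_eq_abs, Real.norm_eq_abs y,
        Real.norm_of_nonneg (by positivity), Nat.add_sub_cancel]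
      calc |c (n + 1)| * ((n + 1 : ℕ) * |y| ^ n) ≤ C ^ (n + 1) * ((n + 1 : ℕ) * s ^ n) := by
            gcongr
            · exact hc _
            · exact (abs_lt.2 hy).le
        _ = _ := by field_simp; ring
  have h2 : HasDerivAt (fun z : ℝ => ∑' n, c n * z ^ n) (∑' n, c n * (n * x ^ (n - 1))) x := by
    refine hasDerivAt_tsum_of_isPreconnected (t := Ioo (-s) s) (y₀ := 0)
      (g := fun n z => c n * z ^ n) (g' := fun n z => c n * (n * z ^ (n - 1))) h1 isOpen_Ioo
      isPreconnected_Ioo (fun n y _ => (hasDerivAt_pow n y).const_mul _) hb ⟨by linarith, hs⟩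
      ?_ (abs_lt.1 hs1)
    exact (cf_summable (B := 1) (x := 0) (C := C) (by simpa using hc) hC0.le (by simp)).of_norm
  rw [h2.deriv]
  have h3 : Summable fun n : ℕ => c n * (n * x ^ (n - 1)) :=
    Summable.of_norm_bounded h1 fun n => hb n x (abs_lt.1 hs1)
  have h4 : (fun n : ℕ => n * c n * x ^ n) = fun n : ℕ => x * (c n * (n * x ^ (n - 1))) := by
    funext n
    cases n with
    | zero => simp
    | succ n => rw [Nat.add_sub_cancel]; ring
  rw [h4]
  exact h3.hasSum.mul_left x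

end Frob

/-- Frobenius method at a regular singular point whose residue has square zero. -/
theorem frob_sq_zero {μ : Type} [Fintype μ] [DecidableEq μ] (A : ℕ → Matrix μ μ ℝ) (B : ℝ)
    (hA : ∀ k i j, |A k i j| ≤ B) (h0 : A 0 * A 0 = 0) :
    ∃ U : ℝ → Matrix μ μ ℝ, (∀ i j, AnalyticAt ℝ (fun x => U x i j) 0) ∧ U 0 = 1 ∧
      ∀ᶠ x in 𝓝 (0 : ℝ), ∀ i j, x * deriv (fun y => U y i j) x
        = ((Matrix.of fun i j => ∑' k, A k i j * x ^ k) * U x - U x * A 0) i j := by
  have hA' : ∀ k, CfBd (A k) |B| := fun k i j => (hA k i j).trans (le_abs_self B)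
  obtain ⟨C, hC, hU⟩ := cfU_bd A (abs_nonneg B) hA'
  refine ⟨fun x => Matrix.of fun i j => ∑' n, cfU A n i j * x ^ n,
    fun i j => cf_analytic (fun n => hU n i j) hC, ?_, ?_⟩
  · ext i j
    simp only [of_apply]
    rw [tsum_eq_single 0 fun n hn => by simp [hn]]
    simp [cfU]
  · have hev : ∀ᶠ x in 𝓝 (0 : ℝ), |x| * C < 1 :=
      (continuous_abs.mul continuous_const).continuousAt.eventually_lt continuousAt_const (by simp)
    filter_upwards [hev] with x hx i j
    have hx1 : |x| * 1 < 1 := lt_of_le_of_lt (by gcongr) hx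
    have sA : ∀ i j, Summable fun k => ‖A k i j * x ^ k‖ := fun i j =>
      cf_summable (B := |B|) (C := 1) (fun n => by simpa using hA' n i j) zero_le_one hx1
    have sU : ∀ i j, Summable fun k => ‖cfU A k i j * x ^ k‖ := fun i j =>
      cf_summable (B := 1) (C := C) (fun n => by simpa using hU n i j) (by linarith) hx
    have h1 := cf_deriv (fun n => hU n i j) hC hx
    have h2 : HasSum (fun n => ∑ l, ∑ p ∈ Finset.HasAntidiagonal.antidiagonal n,
        (A p.1 i l * x ^ p.1) * (cfU A p.2 l j * x ^ p.2))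
        (∑ l, (∑' k, A k i l * x ^ k) * ∑' k, cfU A k l j * x ^ k) := by
      refine hasSum_sum fun l _ => ?_
      rw [tsum_mul_tsum_eq_tsum_sum_antidiagonal_of_summable_norm (sA i l) (sU l j)]
      exact (summable_norm_sum_mul_antidiagonal_of_summable_norm (sA i l) (sU l j)).of_norm.hasSum
    have h3 : HasSum (fun n => ∑ l, cfU A n i l * x ^ n * A 0 l j)
        (∑ l, (∑' k, cfU A k i l * x ^ k) * A 0 l j) :=
      hasSum_sum fun l _ => (sU i l).of_norm.hasSum.mul_right _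
    refine h1.unique ?_
    simp only [Matrix.sub_apply, mul_apply, of_apply]
    have h5 : (fun n : ℕ => n * cfU A n i j * x ^ n) = fun n =>
        ∑ l, ∑ p ∈ Finset.HasAntidiagonal.antidiagonal n,
          (A p.1 i l * x ^ p.1) * (cfU A p.2 l j * x ^ p.2)
        - ∑ l, cfU A n i l * x ^ n * A 0 l j := by
      funext n
      have h4 := congrFun (congrFun (cfU_rec A h0 n) i) j
      simp only [Matrix.smul_apply, smul_eq_mul, Matrix.sub_apply, Matrix.sum_apply,
        mul_apply] at h4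
      rw [h4, sub_mul, Finset.sum_mul, Finset.sum_mul, Finset.sum_comm]
      congr 1
      · refine Finset.sum_congr rfl fun p hp => ?_
        rw [Finset.sum_mul, ← Finset.HasAntidiagonal.mem_antidiagonal.1 hp]
        exact Finset.sum_congr rfl fun l _ => by ring
      · exact Finset.sum_congr rfl fun l _ => by ring
    rw [h5]
    exact h2.sub h3

section Der

variable {μ : Type} [Fintype μ]

/-- Entrywise derivative. -/
def CfMD (P : ℝ → Matrix μ μ ℝ) (P' : Matrix μ μ ℝ) (x : ℝ) : Prop :=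
  ∀ i j, HasDerivAt (fun y => P y i j) (P' i j) x

theorem CfMD.mul {P Q : ℝ → Matrix μ μ ℝ} {P' Q' : Matrix μ μ ℝ} {x : ℝ} (hP : CfMD P P' x)
    (hQ : CfMD Q Q' x) : CfMD (fun y => P y * Q y) (P' * Q x + P x * Q') x := by
  intro i j
  simp only [mul_apply, Matrix.add_apply]
  rw [← Finset.sum_add_distrib]
  exact HasDerivAt.fun_sum fun l _ => (hP i l).mul (hQ l j)

omit [Fintype μ] in
theorem CfMD.const (M : Matrix μ μ ℝ) (x : ℝ) : CfMD (fun _ => M) 0 x :=
  fun i j => hasDerivAt_const x (M i j)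

omit [Fintype μ] in
theorem CfMD.transpose {P : ℝ → Matrix μ μ ℝ} {P' : Matrix μ μ ℝ} {x : ℝ} (hP : CfMD P P' x) :
    CfMD (fun y => (P y)ᵀ) P'ᵀ x := fun i j => hP j i

/-- The pairing of two solutions of an infinitesimally symplectic system is constant. -/
theorem cf_pairing {P Q A : ℝ → Matrix μ μ ℝ} {J : Matrix μ μ ℝ} {δ : ℝ}
    (hA : ∀ x ∈ Ioo 0 δ, (A x)ᵀ * J + J * A x = 0)
    (hP : ∀ x ∈ Ioo 0 δ, CfMD P (x⁻¹ • (A x * P x)) x)
    (hQ : ∀ x ∈ Ioo 0 δ, CfMD Q (x⁻¹ • (A x * Q x)) x) {x y : ℝ} (hx : x ∈ Ioo 0 δ)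
    (hy : y ∈ Ioo 0 δ) : (P x)ᵀ * J * Q x = (P y)ᵀ * J * Q y := by
  have h1 : ∀ z ∈ Ioo 0 δ, CfMD (fun w => (P w)ᵀ * J * Q w) 0 z := by
    intro z hz
    have h2 := ((hP z hz).transpose.mul (CfMD.const J z)).mul (hQ z hz)
    have h3 : ((z⁻¹ • (A z * P z))ᵀ * J + (P z)ᵀ * 0) * Q z + (P z)ᵀ * J * z⁻¹ • (A z * Q z)
        = z⁻¹ • ((P z)ᵀ * ((A z)ᵀ * J + J * A z) * Q z) := by
      simp only [transpose_smul, transpose_mul, Matrix.mul_zero, add_zero, Matrix.smul_mul,
        Matrix.mul_smul, Matrix.mul_add, Matrix.add_mul, smul_add, Matrix.mul_assoc]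
    rw [h3, hA z hz, Matrix.mul_zero, Matrix.zero_mul, smul_zero] at h2
    exact h2
  ext i j
  refine isOpen_Ioo.is_const_of_deriv_eq_zero (f := fun w => ((P w)ᵀ * J * Q w) i j)
    isPreconnected_Ioo (fun z hz => (h1 z hz i j).differentiableAt.differentiableWithinAt)
    (fun z hz => (h1 z hz i j).deriv) hx hy

theorem cf_an_mul {P Q : ℝ → Matrix μ μ ℝ} (hP : ∀ i j, AnalyticAt ℝ (fun x => P x i j) 0)
    (hQ : ∀ i j, AnalyticAt ℝ (fun x => Q x i j) 0) (i j : μ) :
    AnalyticAt ℝ (fun x => (P x * Q x) i j) 0 := by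
  simp only [mul_apply]
  exact Finset.analyticAt_fun_sum _ fun l _ => (hP i l).mul (hQ l j)

end Der

variable {h : ℕ} {α : Fin h → ℚ}

theorem cf_Em_mul_Em : Em h ℝ * Em h ℝ = 0 := by
  ext i j
  rw [mul_apply, Matrix.zero_apply]
  refine Finset.sum_eq_zero fun l _ => ?_
  simp only [Em, of_apply]
  split_ifs with h1 h2
  · omega
  all_goals simp

theorem cf_Em_eq_tv (hh : 1 ≤ h) :
    -Em h ℝ = (-1 : ℝ) ^ h • tv (Pi.single (⟨h - 1, by omega⟩ : Fin (2 * h)) (1 : ℝ)) := by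
  ext i j
  simp only [tv, Matrix.neg_apply, Matrix.smul_apply, vecMulVec_apply, single_one_vecMul, Em,
    of_apply, Matrix.row, Jm, Pi.single_apply, smul_eq_mul, Fin.ext_iff]
  have h1 : (-1 : ℝ) ^ h * (-1) ^ (h - 1) = -1 := by
    rw [← pow_add, show h + (h - 1) = 2 * (h - 1) + 1 by omega, pow_succ, pow_mul]; simp
  split_ifs with h2 h3 h4 h5 h6
  · rw [one_mul, h1]
  all_goals first | omega | simp

/-- Coefficients of the system at the point 1. -/
noncomputable def cfA (α : Fin h → ℚ) (k : ℕ) : Mx h ℝ :=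
  (if k = 0 then -Em h ℝ else -Nm h ℝ) - if k = 1 then (Bm α).map (Rat.castHom ℝ) else 0

theorem cfA_zero : cfA α 0 = -Em h ℝ := by simp [cfA]

theorem cfA_bd : ∃ B : ℝ, ∀ k i j, |cfA α k i j| ≤ B := by
  refine ⟨1 + ∑ i, ∑ j, |(Bm α).map (Rat.castHom ℝ) i j|, fun k i j => ?_⟩
  have h1 : |(Bm α).map (Rat.castHom ℝ) i j| ≤ ∑ i, ∑ j, |(Bm α).map (Rat.castHom ℝ) i j| :=
    (Finset.single_le_sum (f := fun j => |(Bm α).map (Rat.castHom ℝ) i j|)
      (fun _ _ => abs_nonneg _) (Finset.mem_univ j)).trans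
      (Finset.single_le_sum (f := fun i => ∑ j, |(Bm α).map (Rat.castHom ℝ) i j|)
        (fun _ _ => Finset.sum_nonneg fun _ _ => abs_nonneg _) (Finset.mem_univ i))
  rw [cfA, Matrix.sub_apply]
  refine (abs_sub _ _).trans (add_le_add ?_ ?_)
  · split_ifs
    · simp only [Em, Matrix.neg_apply, of_apply]; split_ifs <;> simp
    · simp only [Nm, Matrix.neg_apply, of_apply]; split_ifs <;> simp
  · split_ifs
    · exact h1
    · exact (by simp : |(0 : Mx h ℝ) i j| ≤ _).trans h1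

theorem cfA_tsum {x : ℝ} (hx : x ∈ Ioo (0 : ℝ) 1) :
    (Matrix.of fun i j => ∑' k, cfA α k i j * x ^ k)
      = -Em h ℝ - x • (Bm α).map (Rat.castHom ℝ) - (x / (1 - x)) • Nm h ℝ := by
  ext i j
  have h1 := (hasSum_geometric_of_lt_one hx.1.le hx.2).mul_left (-Nm h ℝ i j)
  have h2 := hasSum_ite_eq (0 : ℕ) (Nm h ℝ i j - Em h ℝ i j)
  have h3 := hasSum_ite_eq (1 : ℕ) ((Bm α).map (Rat.castHom ℝ) i j * x)
  have h4 : (fun k : ℕ => cfA α k i j * x ^ k) = fun k => -Nm h ℝ i j * x ^ k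
      + (if k = 0 then Nm h ℝ i j - Em h ℝ i j else 0)
      - if k = 1 then (Bm α).map (Rat.castHom ℝ) i j * x else 0 := by
    funext k
    rcases k with _ | _ | k
    · simp [cfA]; ring
    · simp [cfA]; ring
    · simp [cfA]
  rw [of_apply, h4, ((h1.add h2).sub h3).tsum_eq]
  simp only [Matrix.sub_apply, Matrix.neg_apply, Matrix.smul_apply, smul_eq_mul]
  have : 1 - x ≠ 0 := by linarith [hx.2]
  field_simp
  ring

theorem cf_hgV_lower (hh : 1 ≤ h) (hα : ∀ i, 0 < α i ∧ α i < 1) {z : ℝ} (hz : z ∈ Ioo (0 : ℝ) 1) :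
    ((PowerSeries.coeff 0 (hgF α h 1) : ℚ) : ℝ) * z
      ≤ (hgV α z * un h (Real.log z)) ⟨h, by omega⟩ ⟨0, by omega⟩ := by
  rw [mul_apply, Finset.sum_eq_single ⟨0, by omega⟩]
  · obtain ⟨B, p, hB⟩ := hgU_growth hα
    obtain ⟨B', h1⟩ := nrm_of_growth (hB ⟨h, by omega⟩ ⟨0, by omega⟩) hz.1.le hz.2
    have h2 := (h1.summable_norm (abs_of_pos hz.1).le).of_norm
    have h3 := h2.le_tsum 1 fun n _ => mul_nonneg
      (by simpa [hgU] using hgF_nonneg hh hα n) (pow_nonneg hz.1.le n)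
    simpa [hgV, ev, un, hgU] using h3
  · intro l _ hl
    have : ¬ (l : ℕ) ≤ 0 := fun hc => hl (Fin.ext (by simpa using hc))
    simp only [un, of_apply]
    rw [if_neg this, mul_zero]
  · simp

/-- Local structure at the singular point 1. -/
theorem hg_con (hh : 1 ≤ h) (hα : ∀ i, 0 < α i ∧ α i < 1) :
    ∃ (U : ℝ → Mx h ℝ) (v : Fin (2 * h) → ℝ) (κ : ℝ),
      (∀ i j, AnalyticAt ℝ (fun x => U x i j) 0) ∧ κ ≠ 0 ∧ v ⟨2 * h - 1, by omega⟩ ≠ 0 ∧
      ∀ᶠ x in 𝓝[>] (0 : ℝ), hgV α (1 - x) * un h (Real.log (1 - x))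
        = U x * (1 + (κ * Real.log x) • tv v) := by
  obtain ⟨B, hB⟩ := cfA_bd (α := α)
  have hE := cf_Em_mul_Em (h := h)
  have h00 : -Em h ℝ * -Em h ℝ = 0 := by rw [neg_mul_neg, hE]
  obtain ⟨U, hUa, hU0, hUd⟩ := frob_sq_zero (cfA α) B hB (by rw [cfA_zero, h00])
  rw [cfA_zero] at hUd
  set F : Mx h ℝ := -Em h ℝ with hF
  set J : Mx h ℝ := Jm h ℝ with hJ
  set A : ℝ → Mx h ℝ := fun x => F - x • (Bm α).map (Rat.castHom ℝ) - (x / (1 - x)) • Nm h ℝ
    with hA
  set T : ℝ → Mx h ℝ := fun x => hgV α (1 - x) * un h (Real.log (1 - x)) with hT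
  set S : ℝ → Mx h ℝ := fun x => U x * (1 + Real.log x • F) with hS
  have hdiff : ∀ᶠ x in 𝓝 (0 : ℝ), ∀ i j, AnalyticAt ℝ (fun y => U y i j) x :=
    eventually_all.2 fun i => eventually_all.2 fun j => (hUa i j).eventually_analyticAt
  obtain ⟨δ, hδ0, hδ⟩ : ∃ δ > 0, ∀ x ∈ Ioo (0 : ℝ) δ, x < 1 ∧
      CfMD U (x⁻¹ • (A x * U x - U x * F)) x := by
    have h1 : ∀ᶠ x in 𝓝 (0 : ℝ), x < 1 := eventually_lt_nhds zero_lt_one
    obtain ⟨δ, hδ0, hδ⟩ := Metric.eventually_nhds_iff.1 (h1.and (hdiff.and hUd))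
    refine ⟨δ, hδ0, fun x hx => ?_⟩
    obtain ⟨h2, h3, h4⟩ := hδ (y := x) (by rw [Real.dist_eq, sub_zero, abs_of_pos hx.1]; exact hx.2)
    refine ⟨h2, fun i j => (h3 i j).differentiableAt.hasDerivAt.congr_deriv ?_⟩
    have h5 := h4 i j
    rw [cfA_tsum ⟨hx.1, h2⟩] at h5
    rw [Matrix.smul_apply, smul_eq_mul, eq_inv_mul_iff_mul_eq₀ hx.1.ne', h5]
  have hAsp : ∀ x ∈ Ioo 0 δ, (A x)ᵀ * J + J * A x = 0 := by
    intro x _
    have h1 := Nm_sp (h := h) (R := ℝ)
    have h2 := Em_sp (R := ℝ) hh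
    have h3 : ((Bm α).map (Rat.castHom ℝ))ᵀ * J + J * (Bm α).map (Rat.castHom ℝ) = 0 := by
      have h4 := congrArg (fun M : Mx h ℚ => M.map (Rat.castHom ℝ)) (Bm_sp (α := α))
      simp only [Matrix.map_add _ (map_add _), Matrix.map_mul, transpose_map, Jm_map,
        Matrix.map_zero _ (map_zero _)] at h4
      exact h4
    have h5 : (A x)ᵀ * J + J * A x = -((Em h ℝ)ᵀ * J + J * Em h ℝ)
        - x • (((Bm α).map (Rat.castHom ℝ))ᵀ * J + J * (Bm α).map (Rat.castHom ℝ))
        - (x / (1 - x)) • ((Nm h ℝ)ᵀ * J + J * Nm h ℝ) := by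
      simp only [hA, hF, transpose_sub, transpose_neg, transpose_smul, Matrix.sub_mul,
        Matrix.mul_sub, Matrix.smul_mul, Matrix.mul_smul, Matrix.neg_mul, Matrix.mul_neg, smul_add]
      abel
    rw [h5, h1, h2, h3]
    simp
  have hTd : ∀ x ∈ Ioo 0 δ, CfMD T (x⁻¹ • (A x * T x)) x := by
    intro x hx i j
    have hx1 := (hδ x hx).1
    have h1 := hgV_hasDerivAt hh hα (x := 1 - x) ⟨by linarith, by linarith [hx.1]⟩ i j
    have h2 := h1.comp x ((hasDerivAt_id x).const_sub 1)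
    refine h2.congr_deriv ?_
    have h3 : 1 - x ≠ 0 := by linarith
    have h4 : x ≠ 0 := hx.1.ne'
    simp only [hA, hF, hT, Matrix.add_mul, Matrix.sub_mul, Matrix.smul_mul, Matrix.neg_mul,
      Matrix.add_apply, Matrix.sub_apply, Matrix.smul_apply, Matrix.neg_apply, smul_eq_mul,
      sub_sub_cancel]
    field_simp
    ring
  have hSd : ∀ x ∈ Ioo 0 δ, CfMD S (x⁻¹ • (A x * S x)) x := by
    intro x hx
    have h1 : CfMD (fun y => 1 + Real.log y • F) (x⁻¹ • F) x := fun i j =>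
      ((Real.hasDerivAt_log hx.1.ne').mul_const (F i j)).const_add _
    have h2 := (hδ x hx).2.mul h1
    have h3 : x⁻¹ • (A x * U x - U x * F) * (1 + Real.log x • F) + U x * x⁻¹ • F
        = x⁻¹ • (A x * S x) := by
      simp only [hS, Matrix.smul_mul, Matrix.mul_smul, Matrix.sub_mul, Matrix.mul_add,
        Matrix.mul_one, Matrix.mul_assoc, h00, Matrix.mul_zero, smul_zero, smul_sub,
        smul_add, smul_comm (Real.log x) x⁻¹]
      abel
    rw [h3] at h2
    exact h2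
  have hx0 : δ / 2 ∈ Ioo 0 δ := ⟨half_pos hδ0, half_lt_self hδ0⟩
  have hev : ∀ᶠ x in 𝓝[>] (0 : ℝ), x ∈ Ioo 0 δ := Ioo_mem_nhdsGT hδ0
  have hSU : ∀ x, S x * (1 - Real.log x • F) = U x := fun x => by
    simp only [hS, Matrix.mul_sub, Matrix.mul_add, Matrix.add_mul, Matrix.mul_one,
      Matrix.mul_smul, Matrix.smul_mul, Matrix.mul_assoc, h00, Matrix.mul_zero, smul_zero,
      add_zero]
    abel
  set J' := (S (δ / 2))ᵀ * J * S (δ / 2) with hJ'
  have hJJ : J' = J := by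
    ext i j
    have h1 := logl_zero 3 (fun k x => if k = 0 then ((U x)ᵀ * J * U x) i j - J' i j
      else if k = 1 then (Fᵀ * J' + J' * F) i j else -(Fᵀ * J' * F) i j) (fun k => ?_) ?_ 0
      (by norm_num)
    · simp only [if_true, hU0, transpose_one, Matrix.one_mul, Matrix.mul_one] at h1
      linarith
    · split_ifs
      · exact (cf_an_mul (P := fun x => (U x)ᵀ * J) (cf_an_mul (P := fun x => (U x)ᵀ)
          (Q := fun _ => J) (fun i j => hUa j i) fun _ _ => analyticAt_const) hUa i j).sub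
          analyticAt_const
      · exact analyticAt_const
      · exact analyticAt_const
    · filter_upwards [hev] with x hx
      have h2 : (S x)ᵀ * J * S x = J' := cf_pairing hAsp hSd hSd hx hx0
      have h3 : (U x)ᵀ * J * U x = J' - Real.log x • (Fᵀ * J' + J' * F)
          + Real.log x ^ 2 • (Fᵀ * J' * F) := by
        rw [← hSU x, ← h2]
        simp only [transpose_mul, transpose_sub, transpose_smul, Matrix.mul_sub,
          Matrix.sub_mul, Matrix.mul_one, Matrix.mul_smul, Matrix.smul_mul,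
          Matrix.mul_assoc, smul_add, smul_sub, smul_smul, pow_two]
        abel
      simp only [Finset.sum_range_succ, Finset.sum_range_zero, h3, Matrix.add_apply,
        Matrix.sub_apply, Matrix.smul_apply, smul_eq_mul]
      norm_num
      ring
  have hSsp : ∀ x ∈ Ioo 0 δ, IsSp (S x) := fun x hx =>
    (cf_pairing hAsp hSd hSd hx hx0).trans hJJ
  have hTsp : IsSp (T (δ / 2)) := by
    have h1 := (hδ _ hx0).1
    exact (hgV_isSp hh hα (by rw [abs_of_pos (by linarith)]; linarith [hx0.1])).mul (un_isSp _)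
  set M : Mx h ℝ := -(J * (S (δ / 2))ᵀ * J) * T (δ / 2) with hM
  have hMsp : IsSp M := (hSsp _ hx0).inv.mul hTsp
  have hTS : ∀ x ∈ Ioo 0 δ, T x = S x * M := by
    intro x hx
    have h1 := cf_pairing hAsp hSd hTd hx hx0
    have h2 := (hSsp x hx).mul_inv
    calc T x = S x * -(J * (S x)ᵀ * J) * T x := by rw [h2, Matrix.one_mul]
      _ = -(S x * (J * ((S x)ᵀ * J * T x))) := by
          simp only [Matrix.mul_neg, Matrix.neg_mul, Matrix.mul_assoc]
      _ = S x * M := by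
          rw [h1, hM]; simp only [Matrix.mul_neg, Matrix.neg_mul, Matrix.mul_assoc]
  set M' : Mx h ℝ := -(J * Mᵀ * J) with hM'
  have hMM : M * M' = 1 := hMsp.mul_inv
  set v := M' *ᵥ Pi.single (⟨h - 1, by omega⟩ : Fin (2 * h)) (1 : ℝ) with hv
  have hFM : F * M = (-1 : ℝ) ^ h • (M * tv v) := by
    rw [hv, ← tv_conj (g := M') hMsp.inv hMsp.inv_mul, hF, cf_Em_eq_tv hh, Matrix.smul_mul,
      ← Matrix.mul_assoc M, ← Matrix.mul_assoc M, hMM, Matrix.one_mul]
  have hfin : ∀ x ∈ Ioo 0 δ, T x = U x * M * (1 + ((-1) ^ h * Real.log x) • tv v) := by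
    intro x hx
    rw [hTS x hx, hS]
    simp only [Matrix.mul_add, Matrix.add_mul, Matrix.mul_one, Matrix.mul_smul, Matrix.smul_mul,
      Matrix.mul_assoc, hFM, smul_smul, mul_comm]
  have hUM : ∀ i j, AnalyticAt ℝ (fun x => (U x * M) i j) 0 :=
    cf_an_mul (Q := fun _ => M) hUa fun _ _ => analyticAt_const
  refine ⟨fun x => U x * M, v, (-1) ^ h, hUM, pow_ne_zero _ (by norm_num), fun hv0 => ?_,
    hev.mono hfin⟩
  have hcol : ∀ i, tv v i ⟨0, by omega⟩ = 0 := by
    intro i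
    have h1 : (v ᵥ* Jm h ℝ) ⟨0, by omega⟩ = 0 := by
      rw [vecMul, dotProduct]
      refine Finset.sum_eq_zero fun l _ => ?_
      simp only [Jm, of_apply]
      split_ifs with hl
      · rw [show l = ⟨2 * h - 1, by omega⟩ from Fin.ext (by simp only; omega), hv0, zero_mul]
      · rw [mul_zero]
    rw [tv, vecMulVec_apply, h1, mul_zero]
  have hcol' : ∀ (P : Mx h ℝ) i, (P * tv v) i ⟨0, by omega⟩ = 0 := fun P i => by
    rw [mul_apply]
    exact Finset.sum_eq_zero fun l _ => by rw [hcol, mul_zero]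
  have hM0 : M ⟨h, by omega⟩ ⟨0, by omega⟩ = 0 := by
    have h1 := congrFun (congrFun hFM ⟨h - 1, by omega⟩) ⟨0, by omega⟩
    rw [Matrix.smul_apply, hcol', smul_zero, mul_apply, Finset.sum_eq_single ⟨h, by omega⟩] at h1
    · simp only [hF, Em, Matrix.neg_apply, of_apply] at h1
      rw [if_pos ⟨by omega, trivial⟩] at h1
      linarith
    · intro l _ hl
      simp only [hF, Em, Matrix.neg_apply, of_apply]
      rw [if_neg fun hc => hl (Fin.ext hc.2), neg_zero, zero_mul]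
    · simp
  have hlim : Tendsto (fun x => (U x * M) ⟨h, by omega⟩ ⟨0, by omega⟩) (𝓝[>] 0) (𝓝 0) := by
    have h1 := (hUM ⟨h, by omega⟩ ⟨0, by omega⟩).continuousAt.tendsto
    rw [hU0, Matrix.one_mul, hM0] at h1
    exact h1.mono_left nhdsWithin_le_nhds
  have hc : (0 : ℝ) < ((PowerSeries.coeff 0 (hgF α h 1) : ℚ) : ℝ) := by
    exact_mod_cast hgF_pos hh hα
  set c : ℝ := ((PowerSeries.coeff 0 (hgF α h 1) : ℚ) : ℝ) with hcdef
  have hlim2 : Tendsto (fun x : ℝ => c * (1 - x)) (𝓝[>] 0) (𝓝 (c * (1 - 0))) :=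
    ((continuous_const.mul (continuous_const.sub continuous_id)).tendsto 0).mono_left
      nhdsWithin_le_nhds
  have hle := le_of_tendsto_of_tendsto hlim2 hlim (hev.mono fun x hx => ?_)
  · linarith
  · have h1 := cf_hgV_lower hh hα (z := 1 - x) ⟨by linarith [(hδ x hx).1], by linarith [hx.1]⟩
    have h2 := congrFun (congrFun (hfin x hx) ⟨h, by omega⟩) ⟨0, by omega⟩
    rw [Matrix.mul_add, Matrix.mul_one, Matrix.mul_smul, Matrix.add_apply, Matrix.smul_apply,
      hcol', smul_zero, add_zero] at h2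
    exact h1.trans h2.le

end GPC

end

-- part MP_57341d_ag.H87.Indep
section

set_option autoImplicit false

namespace GPC

open Matrix Set Filter Topology

namespace Ind

/-- Polynomials in t whose coefficients are analytic at a point. -/
def PA (x0 : ℝ) (f : ℝ → ℝ → ℝ) : Prop :=
  ∃ p : Polynomial (ℝ → ℝ), (∀ j, AnalyticAt ℝ (p.coeff j) x0) ∧
    ∀ x t, f x t = p.eval₂ (Pi.evalRingHom (fun _ => ℝ) x) t

theorem PA.coef {x0 : ℝ} {φ : ℝ → ℝ} (hφ : AnalyticAt ℝ φ x0) : PA x0 fun x _ => φ x := by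
  refine ⟨Polynomial.C φ, fun j => ?_, fun x t => by simp⟩
  rw [Polynomial.coeff_C]
  split_ifs
  · exact hφ
  · exact analyticAt_const

theorem PA.const (x0 r : ℝ) : PA x0 fun _ _ => r := PA.coef analyticAt_const

theorem PA.var (x0 : ℝ) : PA x0 fun _ t => t := by
  refine ⟨Polynomial.X, fun j => ?_, fun x t => by simp⟩
  rw [Polynomial.coeff_X]
  split_ifs
  · exact analyticAt_const
  · exact analyticAt_const

theorem PA.add {x0 : ℝ} {f g : ℝ → ℝ → ℝ} (hf : PA x0 f) (hg : PA x0 g) :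
    PA x0 fun x t => f x t + g x t := by
  obtain ⟨p, hp, hpf⟩ := hf
  obtain ⟨q, hq, hqg⟩ := hg
  refine ⟨p + q, fun j => ?_, fun x t => by rw [Polynomial.eval₂_add, ← hpf, ← hqg]⟩
  rw [Polynomial.coeff_add]
  exact (hp j).add (hq j)

theorem PA.mul {x0 : ℝ} {f g : ℝ → ℝ → ℝ} (hf : PA x0 f) (hg : PA x0 g) :
    PA x0 fun x t => f x t * g x t := by
  obtain ⟨p, hp, hpf⟩ := hf
  obtain ⟨q, hq, hqg⟩ := hg
  refine ⟨p * q, fun j => ?_, fun x t => by rw [Polynomial.eval₂_mul, ← hpf, ← hqg]⟩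
  rw [Polynomial.coeff_mul]
  exact Finset.analyticAt_sum _ fun c _ => (hp c.1).mul (hq c.2)

theorem PA.neg {x0 : ℝ} {f : ℝ → ℝ → ℝ} (hf : PA x0 f) : PA x0 fun x t => -f x t := by
  simpa using (PA.const x0 (-1)).mul hf

theorem PA.pow {x0 : ℝ} {f : ℝ → ℝ → ℝ} (hf : PA x0 f) (n : ℕ) :
    PA x0 fun x t => f x t ^ n := by
  induction n with
  | zero => simpa using PA.const x0 1
  | succ n ih => simpa [pow_succ] using ih.mul hf

theorem PA.sum {x0 : ℝ} {α : Type} (s : Finset α) {f : α → ℝ → ℝ → ℝ}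
    (hf : ∀ i ∈ s, PA x0 (f i)) : PA x0 fun x t => ∑ i ∈ s, f i x t := by
  classical
  induction s using Finset.induction_on with
  | empty => simpa using PA.const x0 0
  | insert a s ha ih =>
    simp only [Finset.sum_insert ha]
    exact (hf a (Finset.mem_insert_self _ _)).add
      (ih fun i hi => hf i (Finset.mem_insert_of_mem hi))

theorem PA.repr {x0 : ℝ} {f : ℝ → ℝ → ℝ} (hf : PA x0 f) :
    ∃ (n : ℕ) (β : ℕ → ℝ → ℝ), (∀ j, AnalyticAt ℝ (β j) x0) ∧
      ∀ x t, f x t = ∑ j ∈ Finset.range n, β j x * t ^ j := by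
  obtain ⟨p, hp, hpf⟩ := hf
  refine ⟨p.natDegree + 1, p.coeff, hp, fun x t => ?_⟩
  rw [hpf, Polynomial.eval₂_eq_sum_range]
  rfl

theorem PA.analytic {x0 : ℝ} {f : ℝ → ℝ → ℝ} (hf : PA x0 f) (t : ℝ) :
    AnalyticAt ℝ (fun x => f x t) x0 := by
  obtain ⟨n, β, hβ, h⟩ := hf.repr
  simp only [h]
  exact Finset.analyticAt_fun_sum _ fun j _ => (hβ j).mul analyticAt_const

theorem PA.vanish {f : ℝ → ℝ → ℝ} (hf : PA 0 f)
    (h0 : ∀ᶠ x in 𝓝[>] (0 : ℝ), f x (Real.log x) = 0) :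
    ∀ᶠ x in 𝓝 (0 : ℝ), ∀ t, f x t = 0 := by
  obtain ⟨n, β, hβ, h⟩ := hf.repr
  have h1 := log_lemma n β hβ (h0.mono fun x hx => by rw [← h, hx])
  have h2 : ∀ᶠ x in 𝓝 (0 : ℝ), ∀ j ∈ Finset.range n, β j x = 0 :=
    (Finset.eventually_all _).2 fun j hj => h1 j (Finset.mem_range.1 hj)
  filter_upwards [h2] with x hx t
  rw [h]
  exact Finset.sum_eq_zero fun j hj => by rw [hx j hj, zero_mul]

variable {h : ℕ}

/-- Matrices with entries of that kind. -/
def PM (x0 : ℝ) (M : ℝ → ℝ → Mx h ℝ) : Prop := ∀ i j, PA x0 fun x t => M x t i j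

theorem PM.const (x0 : ℝ) (k : Mx h ℝ) : PM x0 fun _ _ => k := fun i j => PA.const x0 (k i j)

theorem PM.coef {x0 : ℝ} {M : ℝ → Mx h ℝ} (hM : ∀ i j, AnalyticAt ℝ (fun x => M x i j) x0) :
    PM x0 fun x _ => M x := fun i j => PA.coef (hM i j)

theorem PM.mul {x0 : ℝ} {M N : ℝ → ℝ → Mx h ℝ} (hM : PM x0 M) (hN : PM x0 N) :
    PM x0 fun x t => M x t * N x t := by
  intro i j
  simp only [mul_apply]
  exact PA.sum _ fun l _ => (hM i l).mul (hN l j)

theorem PM.un {x0 : ℝ} {s : ℝ → ℝ → ℝ} (hs : PA x0 s) : PM x0 fun x t => un h (s x t) := by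
  intro i j
  simp only [GPC.un, of_apply]
  split_ifs
  · exact (PA.const x0 _).mul (hs.pow _)
  · exact PA.const x0 0

theorem PM.tr {x0 : ℝ} {s : ℝ → ℝ → ℝ} (hs : PA x0 s) (k : Mx h ℝ) :
    PM x0 fun x t => 1 + s x t • k := by
  intro i j
  simp only [Matrix.add_apply, Matrix.smul_apply, smul_eq_mul]
  exact (PA.const x0 _).add (hs.mul (PA.const x0 _))

/-- Polynomial functions of a matrix with coefficients analytic on a set. -/
inductive Cl (S : Set ℝ) : (ℝ → Mx h ℝ → ℝ) → Prop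
  | coef (φ : ℝ → ℝ) (hφ : AnalyticOnNhd ℝ φ S) : Cl S fun z _ => φ z
  | entry (i j : Fin (2 * h)) : Cl S fun _ X => X i j
  | add {F G : ℝ → Mx h ℝ → ℝ} : Cl S F → Cl S G → Cl S fun z X => F z X + G z X
  | mul {F G : ℝ → Mx h ℝ → ℝ} : Cl S F → Cl S G → Cl S fun z X => F z X * G z X

theorem Cl.const (S : Set ℝ) (r : ℝ) : Cl (h := h) S fun _ _ => r :=
  Cl.coef (fun _ => r) analyticOnNhd_const

theorem Cl.sum {S : Set ℝ} {α : Type} (s : Finset α) {f : α → ℝ → Mx h ℝ → ℝ}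
    (hf : ∀ i ∈ s, Cl S (f i)) : Cl S fun z X => ∑ i ∈ s, f i z X := by
  classical
  induction s using Finset.induction_on with
  | empty => simpa using Cl.const S 0
  | insert a s ha ih =>
    simp only [Finset.sum_insert ha]
    exact (hf a (Finset.mem_insert_self _ _)).add
      (ih fun i hi => hf i (Finset.mem_insert_of_mem hi))

theorem Cl.right {S : Set ℝ} {F : ℝ → Mx h ℝ → ℝ} (hF : Cl S F) (k : Mx h ℝ) :
    Cl S fun z X => F z (X * k) := by
  induction hF with
  | coef φ hφ => exact Cl.coef φ hφ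
  | entry i j =>
    simp only [mul_apply]
    exact Cl.sum _ fun l _ => (Cl.entry i l).mul (Cl.const S _)
  | add _ _ h1 h2 => exact h1.add h2
  | mul _ _ h1 h2 => exact h1.mul h2

theorem Cl.continuous {S : Set ℝ} {F : ℝ → Mx h ℝ → ℝ} (hF : Cl S F) (z : ℝ) :
    Continuous (F z) := by
  induction hF with
  | coef φ hφ => exact continuous_const
  | entry i j => exact continuous_id.matrix_elem i j
  | add _ _ h1 h2 => exact h1.add h2
  | mul _ _ h1 h2 => exact h1.mul h2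

theorem Cl.pa {S : Set ℝ} {F : ℝ → Mx h ℝ → ℝ} (hF : Cl S F) {x0 : ℝ} {ζ : ℝ → ℝ}
    (hζ : AnalyticAt ℝ ζ x0) (hS : ζ x0 ∈ S) {M : ℝ → ℝ → Mx h ℝ} (hM : PM x0 M) :
    PA x0 fun x t => F (ζ x) (M x t) := by
  induction hF with
  | coef φ hφ => exact PA.coef ((hφ _ hS).comp hζ)
  | entry i j => exact hM i j
  | add _ _ h1 h2 => exact h1.add h2
  | mul _ _ h1 h2 => exact h1.mul h2

theorem Cl.analytic {S : Set ℝ} {F : ℝ → Mx h ℝ → ℝ} (hF : Cl S F) {x0 : ℝ} (hS : x0 ∈ S)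
    {M : ℝ → Mx h ℝ} (hM : PM x0 fun x _ => M x) : AnalyticAt ℝ (fun x => F x (M x)) x0 :=
  (hF.pa (ζ := fun x => x) analyticAt_id hS hM).analytic 0

theorem Cl.eval {S : Set ℝ} {σ : Type} (P : MvPolynomial σ ℝ) (f : σ → ℝ → Mx h ℝ → ℝ)
    (hf : ∀ o, Cl S (f o)) : Cl S fun z X => MvPolynomial.eval (fun o => f o z X) P := by
  induction P using MvPolynomial.induction_on with
  | C r => simpa using Cl.const S r
  | add p q hp hq => simpa using hp.add hq
  | mul_X p o hp => simpa using hp.mul (hf o)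

theorem ident {H : ℝ → ℝ} {S : Set ℝ} (hH : AnalyticOnNhd ℝ H S) (hS : IsPreconnected S)
    {l u : ℝ} (hlu : l < u) (hsub : Ioo l u ⊆ S) (h0 : ∀ z ∈ Ioo l u, H z = 0) :
    ∀ z ∈ S, H z = 0 := by
  have hm : (l + u) / 2 ∈ Ioo l u := ⟨by linarith, by linarith⟩
  refine hH.eqOn_zero_of_preconnected_of_eventuallyEq_zero hS (hsub hm) ?_
  filter_upwards [Ioo_mem_nhds hm.1 hm.2] with z hz using h0 z hz

theorem ident_right {H : ℝ → ℝ} {p q : ℝ} (hpq : p < q) (hH : AnalyticOnNhd ℝ H (Ioo p q))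
    (h0 : ∀ᶠ z in 𝓝[>] p, H z = 0) : ∀ z ∈ Ioo p q, H z = 0 := by
  obtain ⟨u, hu, hsub⟩ := mem_nhdsGT_iff_exists_Ioo_subset.1 h0
  refine ident hH isPreconnected_Ioo (l := p) (u := min u q) (lt_min hu hpq)
    (Ioo_subset_Ioo_right (min_le_right _ _)) fun z hz => ?_
  exact hsub (Ioo_subset_Ioo_right (min_le_left _ _) hz)

theorem ident_left {H : ℝ → ℝ} {p q : ℝ} (hpq : p < q) (hH : AnalyticOnNhd ℝ H (Ioo p q))
    (h0 : ∀ᶠ z in 𝓝[<] q, H z = 0) : ∀ z ∈ Ioo p q, H z = 0 := by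
  obtain ⟨l, hl, hsub⟩ := mem_nhdsLT_iff_exists_Ioo_subset.1 h0
  refine ident hH isPreconnected_Ioo (l := max l p) (u := q) (max_lt hl hpq)
    (Ioo_subset_Ioo_left (le_max_right _ _)) fun z hz => ?_
  exact hsub (Ioo_subset_Ioo_left (le_max_left _ _) hz)

theorem tv_sq (v : Fin (2 * h) → ℝ) : tv v * tv v = 0 := by
  have h1 : (v ᵥ* Jm h ℝ) ⬝ᵥ v = 0 := by
    have h2 : (v ᵥ* Jm h ℝ) ⬝ᵥ v = -((v ᵥ* Jm h ℝ) ⬝ᵥ v) := by
      conv_lhs => rw [← dotProduct_mulVec, ← vecMul_transpose, Jm_transpose, vecMul_neg,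
        dotProduct_neg, dotProduct_comm]
    linarith
  rw [tv, vecMulVec_mul_vecMulVec, h1, zero_smul, vecMulVec_zero]

theorem tv_add (v : Fin (2 * h) → ℝ) (r s : ℝ) :
    (1 + r • tv v) * (1 + s • tv v) = 1 + (r + s) • tv v := by
  rw [Matrix.add_mul, Matrix.mul_add, Matrix.mul_add, Matrix.one_mul, Matrix.one_mul,
    Matrix.mul_one, Matrix.smul_mul, Matrix.mul_smul, tv_sq, smul_zero, smul_zero, add_zero,
    add_smul, add_comm (r • tv v), add_assoc]

/-- The solution at the point c z / (1 - a z). -/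
noncomputable def Y (V : ℝ → Mx h ℝ) (c a z : ℝ) : Mx h ℝ :=
  V (c * z / (1 - a * z)) * un h (-Real.log (1 - a * z))

theorem w_range {c a z : ℝ} (hc : 0 < c) (hz : 0 ≤ z) (hz' : (c + a) * z < 1) :
    0 < 1 - a * z ∧ 0 ≤ c * z / (1 - a * z) ∧ c * z / (1 - a * z) < 1 := by
  have h0 : 0 ≤ c * z := mul_nonneg hc.le hz
  have h1 : 0 < 1 - a * z := by linarith
  exact ⟨h1, div_nonneg h0 h1.le, (div_lt_one h1).2 (by linarith)⟩

theorem Y_pm {V : ℝ → Mx h ℝ} (hV : ∀ i j, AnalyticOnNhd ℝ (fun x => V x i j) (Ioo (-1) 1))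
    {c a z : ℝ} (hc : 0 < c) (hz : 0 ≤ z) (hz' : (c + a) * z < 1) :
    PM z fun x _ => Y V c a x := by
  obtain ⟨h1, h2, h3⟩ := w_range hc hz hz'
  have h4 : AnalyticAt ℝ (fun x : ℝ => 1 - a * x) z := by fun_prop
  have h5 : AnalyticAt ℝ (fun x : ℝ => c * x / (1 - a * x)) z :=
    AnalyticAt.div (by fun_prop) h4 h1.ne'
  refine PM.mul (PM.coef (M := fun x => V (c * x / (1 - a * x))) fun i j => ?_)
    (PM.un (PA.coef (h4.log h1)).neg)
  exact AnalyticAt.comp (g := fun x => V x i j) (f := fun x : ℝ => c * x / (1 - a * x))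
    (hV i j _ ⟨by linarith, h3⟩) h5

theorem Y_sp {V : ℝ → Mx h ℝ} (hSp : ∀ x : ℝ, |x| < 1 → IsSp (V x))
    {c a z : ℝ} (hc : 0 < c) (hz : 0 ≤ z) (hz' : (c + a) * z < 1) : IsSp (Y V c a z) := by
  obtain ⟨_, h2, h3⟩ := w_range hc hz hz'
  exact (hSp _ (by rw [abs_of_nonneg h2]; exact h3)).mul (un_isSp _)

theorem trans_near {V : ℝ → Mx h ℝ}
    (hV : ∀ i j, AnalyticOnNhd ℝ (fun x => V x i j) (Ioo (-1) 1))
    {U : ℝ → Mx h ℝ} {v : Fin (2 * h) → ℝ} {κ : ℝ}
    (hU : ∀ i j, AnalyticAt ℝ (fun x => U x i j) 0) (hκ : κ ≠ 0)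
    (hcon : ∀ᶠ x in 𝓝[>] (0 : ℝ), V (1 - x) * un h (Real.log (1 - x))
        = U x * (1 + (κ * Real.log x) • tv v))
    {c A : ℝ} (hc : 0 < c) (hA : 0 ≤ A) {F : ℝ → Mx h ℝ → ℝ}
    (hF : Cl (Icc 0 (c + A)⁻¹) F) (h0 : ∀ z ∈ Ioo 0 (c + A)⁻¹, F z (Y V c A z) = 0) (s : ℝ) :
    ∀ z ∈ Ioo 0 (c + A)⁻¹, F z (Y V c A z * un h (Real.log (c * z)) * (1 + s • tv v)
      * un h (-Real.log (c * z))) = 0 := by
  have hcA : 0 < c + A := by linarith
  have hb : 0 < (c + A)⁻¹ := inv_pos.2 hcA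
  set ζ : ℝ → ℝ := fun x => (1 - x) / (c + A * (1 - x)) with hζ
  have hζ0 : ζ 0 = (c + A)⁻¹ := by simp [hζ]
  have hζa : AnalyticAt ℝ ζ 0 :=
    AnalyticAt.div (by fun_prop) (by fun_prop) (by simpa using hcA.ne')
  have hlog : AnalyticAt ℝ (fun x => Real.log (c * ζ x)) 0 :=
    AnalyticAt.log (f := fun x => c * ζ x) (analyticAt_const.mul hζa)
      (mul_pos hc (by rw [hζ0]; exact hb))
  have hpa := hF.pa hζa (by rw [hζ0]; exact ⟨hb.le, le_rfl⟩)
    (((PM.coef hU).mul (PM.tr ((PA.const 0 κ).mul (PA.var 0)) (tv v))).mul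
      (PM.un (PA.coef hlog).neg))
  have hsmall : ∀ x ∈ Ioo (0 : ℝ) 1, ζ x ∈ Ioo 0 (c + A)⁻¹ ∧
      Y V c A (ζ x) * un h (Real.log (c * ζ x)) = V (1 - x) * un h (Real.log (1 - x)) := by
    intro x hx
    have h1 : 0 < 1 - x := by linarith [hx.2]
    have h2 : 0 < c + A * (1 - x) := by positivity
    have h3 : 1 - A * ζ x = c / (c + A * (1 - x)) := by
      simp only [hζ]; field_simp; ring
    have h4 : c * ζ x / (1 - A * ζ x) = 1 - x := by
      rw [h3]; simp only [hζ]; field_simp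
    have h5 : 0 < ζ x := div_pos h1 h2
    refine ⟨⟨h5, ?_⟩, ?_⟩
    · simp only [hζ]
      rw [div_lt_iff₀ h2, inv_mul_eq_div, lt_div_iff₀ hcA]
      nlinarith [hx.1]
    · rw [Y, h4, Matrix.mul_assoc, un_add]
      congr 2
      rw [← h4, Real.log_div (mul_pos hc h5).ne' (by rw [h3]; exact (div_pos hc h2).ne')]
      ring
  have hI : ∀ᶠ x in 𝓝[>] (0 : ℝ), x ∈ Ioo (0 : ℝ) 1 := Ioo_mem_nhdsGT one_pos
  have hY : ∀ᶠ x in 𝓝[>] (0 : ℝ), Y V c A (ζ x) * un h (Real.log (c * ζ x))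
      = U x * (1 + (κ * Real.log x) • tv v) := by
    filter_upwards [hI, hcon] with x hx h1
    rw [(hsmall x hx).2, h1]
  have hvan := hpa.vanish (by
    filter_upwards [hI, hY] with x hx h1
    rw [← h1, Matrix.mul_assoc, un_add, add_neg_cancel, un_zero, Matrix.mul_one]
    exact h0 _ (hsmall x hx).1)
  have hvan' : ∀ᶠ x in 𝓝[>] (0 : ℝ), F (ζ x) (Y V c A (ζ x) * un h (Real.log (c * ζ x))
      * (1 + s • tv v) * un h (-Real.log (c * ζ x))) = 0 := by
    filter_upwards [hY, nhdsWithin_le_nhds hvan] with x h1 h2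
    have h3 := h2 (Real.log x + s / κ)
    rw [h1, Matrix.mul_assoc (U x), tv_add]
    rwa [mul_add κ, mul_div_cancel₀ _ hκ] at h3
  refine ident_left hb (fun z hz => ?_) ?_
  · have hz' : (c + A) * z < 1 := by
      have := hz.2
      rwa [inv_eq_one_div, lt_div_iff₀ hcA, mul_comm] at this
    have hl : AnalyticAt ℝ (fun x => Real.log (c * x)) z :=
      AnalyticAt.log (by fun_prop) (mul_pos hc hz.1)
    exact hF.analytic ⟨hz.1.le, hz.2.le⟩ ((((Y_pm hV hc hz.1.le hz').mul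
      (PM.un (PA.coef hl))).mul (PM.const z _)).mul (PM.un (PA.coef hl).neg))
  · have hAb : 0 < 1 - A * (c + A)⁻¹ := by
      have : 1 - A * (c + A)⁻¹ = c / (c + A) := by field_simp; ring
      rw [this]; positivity
    have hz1 : ∀ z ∈ Ioo 0 (c + A)⁻¹, (c + A) * z < 1 := fun z hz => by
      have := hz.2
      rwa [inv_eq_one_div, lt_div_iff₀ hcA, mul_comm] at this
    have hI' : ∀ᶠ z in 𝓝[<] (c + A)⁻¹, z ∈ Ioo 0 (c + A)⁻¹ := Ioo_mem_nhdsLT hb
    have ht : Tendsto (fun z => 1 - c * z / (1 - A * z)) (𝓝[<] (c + A)⁻¹) (𝓝[>] 0) := by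
      refine tendsto_nhdsWithin_iff.2 ⟨?_, ?_⟩
      · have hcont : ContinuousAt (fun z => 1 - c * z / (1 - A * z)) (c + A)⁻¹ :=
          continuousAt_const.sub (ContinuousAt.div (by fun_prop) (by fun_prop) hAb.ne')
        have he : 1 - c * (c + A)⁻¹ / (1 - A * (c + A)⁻¹) = 0 := by
          rw [sub_eq_zero, eq_div_iff hAb.ne']; field_simp; ring
        have := hcont.tendsto
        rw [he] at this
        exact this.mono_left nhdsWithin_le_nhds
      · filter_upwards [hI'] with z hz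
        exact sub_pos.2 (w_range hc hz.1.le (hz1 z hz)).2.2
    filter_upwards [ht.eventually hvan', hI'] with z h1 hz
    have h2 := (w_range hc hz.1.le (hz1 z hz)).1
    have h3 : ζ (1 - c * z / (1 - A * z)) = z := by
      simp only [hζ, sub_sub_cancel]
      have h4 : c + A * (c * z / (1 - A * z)) = c / (1 - A * z) := by field_simp; ring
      rw [h4, div_div_div_cancel_right₀ h2.ne', mul_div_cancel_left₀ _ hc.ne']
    rwa [h3] at h1

theorem step (hh : 1 ≤ h) {V : ℝ → Mx h ℝ}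
    (hV : ∀ i j, AnalyticOnNhd ℝ (fun x => V x i j) (Ioo (-1) 1))
    (hSp : ∀ x : ℝ, |x| < 1 → IsSp (V x))
    {U : ℝ → Mx h ℝ} {v : Fin (2 * h) → ℝ} {κ : ℝ}
    (hU : ∀ i j, AnalyticAt ℝ (fun x => U x i j) 0) (hκ : κ ≠ 0)
    (hv : v ⟨2 * h - 1, by omega⟩ ≠ 0)
    (hcon : ∀ᶠ x in 𝓝[>] (0 : ℝ), V (1 - x) * un h (Real.log (1 - x))
        = U x * (1 + (κ * Real.log x) • tv v))
    {c A : ℝ} (hc : 0 < c) (hA : 0 ≤ A) {F : ℝ → Mx h ℝ → ℝ}
    (hF : Cl (Icc 0 (c + A)⁻¹) F) (h0 : ∀ z ∈ Ioo 0 (c + A)⁻¹, F z (Y V c A z) = 0)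
    (g : Mx h ℝ) (hg : IsSp g) : ∀ z ∈ Ioo 0 (c + A)⁻¹, F z g = 0 := by
  have hcA : 0 < c + A := by linarith
  have hb : 0 < (c + A)⁻¹ := inv_pos.2 hcA
  have hz1 : ∀ z ∈ Ioo 0 (c + A)⁻¹, (c + A) * z < 1 := fun z hz => by
    have := hz.2
    rwa [inv_eq_one_div, lt_div_iff₀ hcA, mul_comm] at this
  set G : Set (Mx h ℝ) := {k | ∀ F : ℝ → Mx h ℝ → ℝ, Cl (Icc 0 (c + A)⁻¹) F →
    (∀ z ∈ Ioo 0 (c + A)⁻¹, F z (Y V c A z) = 0) → ∀ t : ℝ, ∀ z ∈ Ioo 0 (c + A)⁻¹,
      F z (Y V c A z * un h t * k * un h (-t)) = 0} with hG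
  have hall : ∀ k, IsSp k → k ∈ G := by
    refine sp_of_closed hh G ?_ ?_ ?_ ?_ v hv ?_
    · simp only [hG, ofPred_forall]
      refine isClosed_iInter fun F => isClosed_iInter fun hF => isClosed_iInter fun _ =>
        isClosed_iInter fun t => isClosed_iInter fun z => isClosed_iInter fun _ => ?_
      exact isClosed_eq ((hF.continuous z).comp
        ((continuous_const.matrix_mul continuous_id).matrix_mul continuous_const)) continuous_const
    · intro F _ h0 t z hz
      rw [Matrix.mul_one, Matrix.mul_assoc, un_add, add_neg_cancel, un_zero, Matrix.mul_one]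
      exact h0 z hz
    · intro k hk k' hk' F hF h0 t z hz
      have h1 := hk _ (hF.right (un h t * k' * un h (-t))) (fun z hz => by
        have := hk' F hF h0 t z hz
        simpa only [Matrix.mul_assoc] using this) t z hz
      have h2 : un h (-t) * (un h t * k' * un h (-t)) = k' * un h (-t) := by
        rw [← Matrix.mul_assoc, ← Matrix.mul_assoc, un_add, neg_add_cancel, un_zero, Matrix.one_mul]
      rw [Matrix.mul_assoc _ (un h (-t)), h2] at h1
      simpa only [Matrix.mul_assoc] using h1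
    · intro k hk s F hF h0 t z hz
      have h1 := hk F hF h0 (t + s) z hz
      rw [neg_add_rev, ← un_add, ← un_add] at h1
      simpa only [Matrix.mul_assoc] using h1
    · intro s F hF h0 t
      have h1 := trans_near hV hU hκ hcon hc hA hF h0 s
      have hs : PA 0 fun _ t => t + Real.log c := (PA.var 0).add (PA.const 0 _)
      have hpa := hF.pa (ζ := fun x => x) analyticAt_id ⟨le_rfl, hb.le⟩
        ((((Y_pm hV hc le_rfl (by simp : (c + A) * 0 < 1)).mul (PM.un hs)).mul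
          (PM.const 0 (1 + s • tv v))).mul (PM.un hs.neg))
      have hvan := hpa.vanish (by
        filter_upwards [Ioo_mem_nhdsGT hb] with z hz
        have := h1 z hz
        rwa [Real.log_mul hc.ne' hz.1.ne', add_comm] at this)
      refine ident_right hb (fun z hz => ?_) ?_
      · exact hF.analytic ⟨hz.1.le, hz.2.le⟩ ((((Y_pm hV hc hz.1.le (hz1 z hz)).mul
          (PM.const z _)).mul (PM.const z _)).mul (PM.const z _))
      · filter_upwards [nhdsWithin_le_nhds hvan] with z hz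
        have := hz (t - Real.log c)
        rwa [sub_add_cancel] at this
  intro z hz
  have hY := Y_sp hSp hc hz.1.le (hz1 z hz)
  have h1 := hall _ (hY.inv.mul hg) F hF h0 0 z hz
  rwa [neg_zero, un_zero, Matrix.mul_one, Matrix.mul_one, ← Matrix.mul_assoc, hY.mul_inv,
    Matrix.one_mul] at h1

end Ind

open Ind in
/-- Functional independence of the solutions at the points c z / (1 - a z). -/
theorem indep {h : ℕ} (hh : 1 ≤ h) (V : ℝ → Mx h ℝ)
    (hV : ∀ i j, AnalyticOnNhd ℝ (fun x => V x i j) (Ioo (-1) 1))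
    (hSp : ∀ x : ℝ, |x| < 1 → IsSp (V x))
    (U : ℝ → Mx h ℝ) (v : Fin (2 * h) → ℝ) (κ : ℝ)
    (hU : ∀ i j, AnalyticAt ℝ (fun x => U x i j) 0) (hκ : κ ≠ 0)
    (hv : v ⟨2 * h - 1, by omega⟩ ≠ 0)
    (hcon : ∀ᶠ x in 𝓝[>] (0 : ℝ), V (1 - x) * un h (Real.log (1 - x))
        = U x * (1 + (κ * Real.log x) • tv v))
    {ι : Type} [Fintype ι] [DecidableEq ι] (c : ℝ) (hc : 0 < c)
    (a : ι → ℝ) (ha : ∀ b, 0 ≤ a b) (hinj : Function.Injective a)
    (P : MvPolynomial (Option (ι × Fin (2 * h) × Fin (2 * h))) ℝ)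
    (hP : ∀ᶠ z in 𝓝 (0 : ℝ), MvPolynomial.eval (fun o => o.elim z fun e =>
      (V (c * z / (1 - a e.1 * z)) * un h (-Real.log (1 - a e.1 * z))) e.2.1 e.2.2) P = 0)
    (g : ι → Mx h ℝ) (hg : ∀ b, IsSp (g b)) (z : ℝ) :
    MvPolynomial.eval (fun o => o.elim z fun e => g e.1 e.2.1 e.2.2) P = 0 := by
  set claim : Finset ι → Prop := fun J => ∀ g : ι → Mx h ℝ, (∀ b, IsSp (g b)) →
    ∀ᶠ z in 𝓝[>] (0 : ℝ), MvPolynomial.eval (fun o => o.elim z fun e =>
      (if e.1 ∈ J then Y V c (a e.1) z else g e.1) e.2.1 e.2.2) P = 0 with hclaim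
  have hind : ∀ J, claim J → claim ∅ := by
    intro J
    induction J using Finset.induction_on_max_value a with
    | empty => exact id
    | insert b0 J hb0 hmax ih =>
      intro hJ
      refine ih fun g hg => ?_
      have hcA : 0 < c + a b0 := by linarith [ha b0]
      have hb : 0 < (c + a b0)⁻¹ := inv_pos.2 hcA
      set F : ℝ → Mx h ℝ → ℝ := fun z X => MvPolynomial.eval (fun o => o.elim z fun e =>
        (if e.1 = b0 then X else if e.1 ∈ J then Y V c (a e.1) z else g e.1) e.2.1 e.2.2) P with hFdef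
      have hF : Cl (Icc 0 (c + a b0)⁻¹) F := by
        refine Cl.eval P (fun o z X => o.elim z fun e =>
          (if e.1 = b0 then X else if e.1 ∈ J then Y V c (a e.1) z else g e.1) e.2.1 e.2.2) ?_
        rintro (_ | ⟨b, i, j⟩)
        · exact Cl.coef (fun z => z) analyticOnNhd_id
        · simp only [Option.elim]
          by_cases h1 : b = b0
          · simp only [if_pos h1]
            exact Cl.entry i j
          · simp only [if_neg h1]
            by_cases h2 : b ∈ J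
            · simp only [if_pos h2]
              refine Cl.coef (fun z => Y V c (a b) z i j) fun z hz => ?_
              have h3 : a b < a b0 := lt_of_le_of_ne (hmax b h2) fun he => h1 (hinj he)
              have h4 : (c + a b0) * z ≤ 1 := by
                have := hz.2
                rwa [inv_eq_one_div, le_div_iff₀ hcA, mul_comm] at this
              have h5 : (c + a b) * z < 1 := by
                rcases hz.1.eq_or_lt with h6 | h6
                · rw [← h6]; simp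
                · nlinarith
              exact (Y_pm hV hc hz.1 h5 i j).analytic 0
            · simp only [if_neg h2]
              exact Cl.const _ _
      have h0 : ∀ z ∈ Ioo 0 (c + a b0)⁻¹, F z (Y V c (a b0) z) = 0 := by
        refine ident_right hb (fun z hz => ?_) ?_
        · have hz' : (c + a b0) * z < 1 := by
            have := hz.2
            rwa [inv_eq_one_div, lt_div_iff₀ hcA, mul_comm] at this
          exact hF.analytic ⟨hz.1.le, hz.2.le⟩ (Y_pm hV hc hz.1.le hz')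
        · filter_upwards [hJ g hg] with z hz
          rw [← hz, hFdef]
          beta_reduce
          congr 2
          funext o
          rcases o with _ | ⟨b, i, j⟩
          · rfl
          · by_cases h1 : b = b0
            · simp [h1]
            · simp [h1]
      have h1 := step hh hV hSp hU hκ hv hcon hc (ha b0) hF h0 (g b0) (hg b0)
      filter_upwards [Ioo_mem_nhdsGT hb] with z hz
      rw [← h1 z hz, hFdef]
      beta_reduce
      congr 2
      funext o
      rcases o with _ | ⟨b, i, j⟩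
      · rfl
      · by_cases h1 : b = b0
        · simp [h1, hb0]
        · simp [h1]
  have h1 : claim ∅ := hind Finset.univ fun g _ => by
    filter_upwards [nhdsWithin_le_nhds hP] with z hz
    simpa only [Finset.mem_univ, if_true, Y] using hz
  have h2 := h1 g hg
  simp only [Finset.notMem_empty, if_false] at h2
  obtain ⟨u, hu, hsub⟩ := mem_nhdsGT_iff_exists_Ioo_subset.1 h2
  have hF : Cl (h := h) univ fun z _ => MvPolynomial.eval
      (fun o : Option (ι × Fin (2 * h) × Fin (2 * h)) => o.elim z fun e => g e.1 e.2.1 e.2.2) P := by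
    refine Cl.eval P (fun o z _ => o.elim z fun e => g e.1 e.2.1 e.2.2) ?_
    rintro (_ | e)
    · exact Cl.coef (fun z => z) analyticOnNhd_id
    · exact Cl.const _ _
  exact ident (fun z hz => hF.analytic hz (PM.const z 1)) isPreconnected_univ hu
    (subset_univ _) hsub z (mem_univ z)

end GPC

end

-- part MP_57341d_ag.H87.Val
section

/-!
Relations of bounded degree between the values of the normalised solutions.
-/

set_option autoImplicit false

namespace GPC

open PowerSeries Filter Topology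

/-- The normalised solution. -/
noncomputable def yv {h : ℕ} (α : Fin h → ℚ) (c a : ℕ) (x : ℝ) : Mx h ℝ :=
  hgV α (c * x / (1 - a * x)) * un h (-Real.log (1 - a * x))

theorem Nrm.prod {κ : Type} (s : Finset κ) {g : κ → ℚ⟦X⟧} {r B : ℝ} (hg : ∀ k, Nrm (g k) r B)
    (hr : 0 ≤ r) : Nrm (∏ k ∈ s, g k) r (B ^ s.card) := by
  classical
  induction s using Finset.induction_on with
  | empty => simpa using Nrm.one
  | insert a s ha ih =>
    rw [Finset.prod_insert ha, Finset.card_insert_of_notMem ha, pow_succ']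
    exact (hg a).mul ih hr

theorem nrm_one_sub {u : ℚ} {H : ℝ} (h1 : 1 ≤ H) (hu : |(u : ℝ)| ≤ H) :
    Nrm (1 - C u * X) 1 (2 * H) := by
  have := nrm_poly_le (p := 1 - Polynomial.C u * Polynomial.X) (d := 1) (H := H) (r := 1)
    (by compute_degree) (fun k => by
      rcases k with _ | _ | k
      · simpa using h1
      · simpa [Polynomial.coeff_one] using hu
      · simp [Polynomial.coeff_one, Polynomial.coeff_X]; linarith) zero_le_one le_rfl
  rw [Nat.cast_one, one_add_one_eq_two] at this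
  simpa using this

theorem values {h : ℕ} (hh : 1 ≤ h) {α : Fin h → ℚ} (hα : ∀ i, 0 < α i ∧ α i < 1) {c : ℕ}
    (hc : 1 ≤ c) (w d : ℕ) : ∃ κ N0 : ℕ, ∀ {ι : Type} [Fintype ι] [DecidableEq ι],
    Fintype.card ι = w → ∀ N L : ℕ, N0 ≤ N → 1 ≤ L → L ^ κ ≤ N → ∀ a : ι → ℕ,
    Function.Injective a → (∀ p, a p < L) →
    (∀ p, |(c : ℝ) * (1 / N) / (1 - a p * (1 / N))| < 1 ∧ (0 : ℝ) < 1 - a p * (1 / N)) ∧
    ∀ R : MvPolynomial (ι × Fin (2 * h) × Fin (2 * h)) ℚ, R.totalDegree ≤ d →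
      MvPolynomial.aeval (fun e => yv α c (a e.1) (1 / N) e.2.1 e.2.2) R = 0 →
      ∀ g : ι → Mx h ℝ, (∀ p, IsSp (g p)) →
        MvPolynomial.aeval (fun e => g e.1 e.2.1 e.2.2) R = 0 := by
  obtain ⟨K, D, hK, hD, hY⟩ := exists_Y hh hα c
  choose Y hode hYb hYd hYe using hY
  obtain ⟨U, v, κc, hU, hκc, hv, hcon⟩ := hg_con hh hα
  obtain ⟨κ1, hκ1⟩ := gpoly (w * (2 * h * (2 * h))) (3 * w + 3) d
  set u := (3 * w + 1) * (κ1 + 1) with hu
  refine ⟨2 * u, (2 * (K + c)) ^ (2 * u), ?_⟩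
  intro ι _ _ hw N L hN hL hLN a ha haL
  set K1 := 2 * (K + c) * L with hK1
  have hK1u : K1 ^ u ≤ N := by
    have : (K1 ^ u) ^ 2 ≤ N ^ 2 := by
      calc (K1 ^ u) ^ 2 = (2 * (K + c)) ^ (2 * u) * L ^ (2 * u) := by
            rw [hK1, ← pow_mul, mul_comm u 2, mul_pow]
        _ ≤ N * N := Nat.mul_le_mul hN hLN
        _ = N ^ 2 := by ring
    exact (Nat.pow_le_pow_iff_left (by norm_num)).1 this
  have hKa : ∀ p, 2 * (K * (a p + 1)) ≤ K1 := fun p => by
    have := haL p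
    rw [hK1]; nlinarith [Nat.mul_le_mul_left K (show a p + 1 ≤ L from this), Nat.zero_le (c * L)]
  have hK12 : 2 ≤ K1 := by rw [hK1]; nlinarith [Nat.zero_le (c * L)]
  set K2 := K1 ^ (3 * w + 1) with hK2
  have hK1K2 : K1 ≤ K2 := Nat.le_self_pow (by omega) _
  have hK2N : K2 ^ (κ1 + 1) ≤ N := by rw [hK2, ← pow_mul]; exact hK1u
  have hK1N : K1 ≤ N := hK1K2.trans ((Nat.le_self_pow (by omega) _).trans hK2N)
  set ρ : ℝ := 1 / K1 with hρ
  have hK1R : (2 : ℝ) ≤ K1 := by exact_mod_cast hK12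
  have hρ0 : 0 < ρ := by positivity
  have hρa : ∀ p, ρ * (2 * (K * (a p + 1) : ℕ)) ≤ 1 := fun p => by
    rw [hρ, one_div, inv_mul_le_iff₀ (by linarith), mul_one]; exact_mod_cast hKa p
  have hev : ∀ p (x : ℝ), |x| ≤ ρ → |c * x / (1 - a p * x)| < 1 ∧ 0 < 1 - a p * x ∧
      (Y (a p)).map (fun f => ev f x) = yv α c (a p) x := fun p x hx =>
    hYe (a p) x ((mul_le_mul_of_nonneg_right hx (by positivity)).trans (hρa p))
  have hx : |(1 / N : ℝ)| ≤ ρ := by
    have : (K1 : ℝ) ≤ N := by exact_mod_cast hK1N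
    rw [abs_of_pos (by apply one_div_pos.2; linarith)]
    exact one_div_le_one_div_of_le (by positivity) this
  refine ⟨fun p => ⟨(hev p _ hx).1, (hev p _ hx).2.1⟩, ?_⟩
  set Z : ι × Fin (2 * h) × Fin (2 * h) → ℚ⟦X⟧ := fun e => Y (a e.1) e.2.1 e.2.2 with hZ
  have hZe : ∀ x : ℝ, |x| ≤ ρ → ∀ e, ev (Z e) x = yv α c (a e.1) x e.2.1 e.2.2 := fun x hx e => by
    rw [← (hev e.1 x hx).2.2]; rfl
  have hZN : ∀ e, ∃ B, Nrm (Z e) ρ B := fun e => ⟨_, Nrm.of_bound
    (C := ((K * (a e.1 + 1) : ℕ) : ℝ)) (by positivity) hρ0.le (by linarith [hρa e.1])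
    fun n => by exact_mod_cast hYb (a e.1) e.2.1 e.2.2 n⟩
  have hball : ∀ᶠ x in 𝓝 (0 : ℝ), |x| ≤ ρ := by
    filter_upwards [Metric.closedBall_mem_nhds (0 : ℝ) hρ0] with x hx
    simpa using hx
  have hevQ : ∀ (q : Polynomial ℚ) (Q : MvPolynomial (Option (ι × Fin (2 * h) × Fin (2 * h))) ℚ)
      (x : ℝ), |x| ≤ ρ →
      (∃ B, Nrm (MvPolynomial.aeval (fun o : Option _ => o.elim (q : ℚ⟦X⟧) Z) Q) ρ B) ∧
      ev (MvPolynomial.aeval (fun o : Option _ => o.elim (q : ℚ⟦X⟧) Z) Q) x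
        = MvPolynomial.aeval (fun o : Option (ι × Fin (2 * h) × Fin (2 * h)) =>
          o.elim (Polynomial.aeval x q) fun e => yv α c (a e.1) x e.2.1 e.2.2) Q := by
    intro q Q x hx
    have := ev_aeval (fun o : Option _ => o.elim (q : ℚ⟦X⟧) Z) (r := ρ) (x := x)
      (fun o => by
        cases o with
        | none => exact Nrm.poly q ρ
        | some e => exact hZN e) hx Q
    refine ⟨this.1, this.2.trans ?_⟩
    congr 2
    funext o
    cases o with
    | none => exact ev_poly q x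
    | some e => exact hZe x hx e
  have FI0 : ∀ Q : MvPolynomial (Option (ι × Fin (2 * h) × Fin (2 * h))) ℚ,
      MvPolynomial.aeval (fun o : Option _ => o.elim X Z) Q = 0 → ∀ g : ι → Mx h ℝ,
      (∀ p, IsSp (g p)) → ∀ z : ℝ, MvPolynomial.aeval
        (fun o : Option (ι × Fin (2 * h) × Fin (2 * h)) => o.elim z fun e => g e.1 e.2.1 e.2.2) Q
        = 0 := by
    intro Q hQ g hg z
    have := indep hh (hgV α) (hgV_analytic hα) (fun x hx => hgV_isSp hh hα hx) U v κc hU hκc hv hcon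
      (c : ℝ) (by exact_mod_cast hc) (fun p => (a p : ℝ)) (fun p => by positivity)
      (fun p q hpq => ha (Nat.cast_injective (R := ℝ) hpq)) (Q.map (algebraMap ℚ ℝ)) (by
        filter_upwards [hball] with x hx
        have h1 := (hevQ Polynomial.X Q x hx).2
        rw [Polynomial.coe_X, hQ, Polynomial.aeval_X] at h1
        rw [MvPolynomial.eval_map, ← MvPolynomial.aeval_def]
        exact h1.symm.trans (by simp [ev])) g hg z
    rwa [MvPolynomial.eval_map, ← MvPolynomial.aeval_def] at this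
  set Ta : ι → Polynomial ℤ := fun p => (1 - Polynomial.C ((a p : ℤ) + c) * Polynomial.X)
    * (1 - Polynomial.C (a p : ℤ) * Polynomial.X) ^ 2 with hTa
  have hTad : ∀ p, (Ta p).natDegree ≤ 3 := fun p => by simp only [hTa]; compute_degree
  have hTac : ∀ p, (((Ta p).map (Int.castRingHom ℚ) : Polynomial ℚ) : ℚ⟦X⟧)
      = (1 - C ((a p : ℚ) + c) * X) * (1 - C (a p : ℚ) * X) ^ 2 := fun p => by
    simp only [hTa, Polynomial.map_mul, Polynomial.map_pow, Polynomial.map_sub, Polynomial.map_one,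
      Polynomial.map_C, Polynomial.map_X, Polynomial.coe_mul, Polynomial.coe_pow,
      Polynomial.coe_sub, Polynomial.coe_one, Polynomial.coe_C, Polynomial.coe_X]
    simp
  have hTd : ∀ s : Finset ι, (∏ p ∈ s, Ta p).natDegree ≤ 3 * w := fun s =>
    (Polynomial.natDegree_prod_le _ _).trans ((Finset.sum_le_card_nsmul _ _ 3
      fun p _ => hTad p).trans (by
        rw [smul_eq_mul, mul_comm, ← hw]; exact Nat.mul_le_mul_left _ (Finset.card_le_univ s)))
  have hcoe : ∀ s : Finset ι, (((∏ p ∈ s, Ta p).map (Int.castRingHom ℚ) : Polynomial ℚ) : ℚ⟦X⟧)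
      = ∏ p ∈ s, (((Ta p).map (Int.castRingHom ℚ) : Polynomial ℚ) : ℚ⟦X⟧) := fun s => by
    rw [Polynomial.map_prod, ← Polynomial.coeToPowerSeries.ringHom_apply, map_prod]; rfl
  intro R hR hR0 g hg
  have key := hκ1 (ε := ι × Fin (2 * h) × Fin (2 * h)) (by simp [hw]) Z (∏ p, Ta p) ?_ ?_ ?_ ?_
    K2 (hK12.trans hK1K2) ?_ ?_ D ?_ (fun e => hYd _ _ _) N
    ((Nat.pow_le_pow_right (by omega) (by omega)).trans hK2N) R hR ?_
  · have := FI0 (MvPolynomial.rename some R) (by rw [MvPolynomial.aeval_rename]; exact key) g hg 0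
    rwa [MvPolynomial.aeval_rename] at this
  · rw [Polynomial.coeff_zero_eq_eval_zero, Polynomial.eval_prod]
    simp [hTa]
  · have := hTd Finset.univ; omega
  · rintro ⟨p, e⟩
    obtain ⟨q, hq, hqe⟩ := hode (a p) e
    refine ⟨fun e' => if e'.1 = p then
      (∏ p' ∈ Finset.univ.erase p, Ta p').map (Int.castRingHom ℚ) * q e'.2 else 0, fun e' => ?_, ?_⟩
    · dsimp only
      split_ifs
      · exact Polynomial.natDegree_mul_le.trans
          (add_le_add (Polynomial.natDegree_map_le.trans (hTd _)) (hq _))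
      · simp
    · rw [Fintype.sum_prod_type, Finset.sum_eq_single p, ← Finset.mul_prod_erase _ _
        (Finset.mem_univ p), Polynomial.map_mul, Polynomial.coe_mul, hTac]
      · simp only [if_true, Polynomial.coe_mul, mul_assoc, ← Finset.mul_sum, hZ]
        rw [← hqe]; ring
      · intro p' _ hp'; simp [hp']
      · simp
  · intro Q hQ r
    obtain ⟨B, hB⟩ := (hevQ (Polynomial.C r) Q 0 (by simpa using hρ0.le)).1
    rw [Polynomial.coe_C] at hB
    refine eq_zero_of_ev hB hρ0 ?_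
    filter_upwards [hball] with x hx
    have h1 := (hevQ (Polynomial.C r) Q x hx).2
    rw [Polynomial.coe_C] at h1
    rw [h1]
    exact FI0 Q hQ (fun p => yv α c (a p) x)
      (fun p => (hgV_isSp hh hα (hev p x hx).1).mul (un_isSp _)) _
  · intro k
    have hH : ∀ p, (a p : ℝ) + c ≤ K1 / 2 := fun p => by
      have h1 : 2 * (a p + c) ≤ K1 := by
        have := haL p
        rw [hK1]; nlinarith [Nat.mul_le_mul_left c hL, Nat.mul_le_mul_right L hK]
      have : (2 : ℝ) * (a p + c) ≤ K1 := by exact_mod_cast h1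
      linarith
    have h1 : ∀ p, Nrm (((Ta p).map (Int.castRingHom ℚ) : Polynomial ℚ) : ℚ⟦X⟧) 1 (K1 ^ 3) := by
      intro p
      rw [hTac]
      have h2 := hH p
      have h3 : (0 : ℝ) ≤ c := by positivity
      refine ((nrm_one_sub (H := K1 / 2) (by linarith) (by
        push_cast; rwa [abs_of_nonneg (by positivity)])).mul ((nrm_one_sub (H := K1 / 2) (by linarith)
        (by push_cast; rw [Nat.abs_cast]; linarith)).pow zero_le_one 2) zero_le_one).mono
        (le_of_eq (by ring))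
    have h2 := (Nrm.prod Finset.univ h1 zero_le_one).coeff_le zero_le_one k
    rw [← hcoe, Polynomial.coeff_coe, Polynomial.coeff_map, one_pow, mul_one, Finset.card_univ, hw,
      ← pow_mul, eq_intCast, Rat.cast_intCast] at h2
    have h3 : (K1 : ℝ) ^ (3 * w) ≤ K1 ^ (3 * w + 1) := pow_le_pow_right₀ (by linarith) (by omega)
    rw [hK2]
    exact_mod_cast h2.trans h3
  · intro e n
    refine (hYb _ _ _ n).trans (pow_le_pow_left₀ (by positivity) ?_ _)
    have := hKa e.1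
    exact_mod_cast (by omega : K * (a e.1 + 1) ≤ K2)
  · intro n
    refine ⟨(hD n).1, (hD n).2.trans (Nat.pow_le_pow_left ?_ _)⟩
    refine le_trans ?_ hK1K2
    rw [hK1]; nlinarith [Nat.zero_le (c * L)]
  · rw [← hR0]
    congr 2
    exact funext (hZe _ hx)

end GPC

end

-- part MP_57341d_ag.H87.Cay
section

/-!
Clearing denominators, the Cayley transform and a hitting set lemma.
-/

set_option autoImplicit false

namespace GPC

open Matrix

theorem clear {σ ρ : Type} [Fintype σ] (P : MvPolynomial σ ℚ) {d e : ℕ} (hP : P.totalDegree ≤ d)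
    (num den : σ → MvPolynomial ρ ℚ) (hn : ∀ s, (num s).totalDegree ≤ e)
    (hd : ∀ s, (den s).totalDegree ≤ e) :
    ∃ P' : MvPolynomial ρ ℚ, P'.totalDegree ≤ Fintype.card σ * (d * e) ∧
      ∀ {K : Type} [CommRing K] [Algebra ℚ K] (x : ρ → K) (y : σ → K),
        (∀ s, MvPolynomial.aeval x (den s) * y s = MvPolynomial.aeval x (num s)) →
        MvPolynomial.aeval x P'
          = (∏ s, MvPolynomial.aeval x (den s) ^ d) * MvPolynomial.aeval y P := by
  have hle : ∀ m ∈ P.support, ∀ s, m s ≤ d := fun m hm s =>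
    (MvPolynomial.monomial_le_degreeOf s hm).trans ((MvPolynomial.degreeOf_le_totalDegree P s).trans hP)
  refine ⟨∑ m ∈ P.support, MvPolynomial.C (P.coeff m) * ∏ s, (num s ^ m s * den s ^ (d - m s)),
    ?_, ?_⟩
  · refine MvPolynomial.totalDegree_finsetSum_le fun m hm => ?_
    refine (MvPolynomial.totalDegree_mul _ _).trans ?_
    rw [MvPolynomial.totalDegree_C, zero_add]
    refine (MvPolynomial.totalDegree_finsetProd _ _).trans ?_
    refine (Finset.sum_le_card_nsmul _ _ (d * e) fun s _ => ?_).trans (by simp)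
    refine (MvPolynomial.totalDegree_mul _ _).trans ?_
    refine (add_le_add ((MvPolynomial.totalDegree_pow _ _).trans (Nat.mul_le_mul_left _ (hn s)))
      ((MvPolynomial.totalDegree_pow _ _).trans (Nat.mul_le_mul_left _ (hd s)))).trans ?_
    rw [← add_mul, Nat.add_sub_cancel' (hle m hm s)]
  · intro K _ _ x y h
    rw [MvPolynomial.aeval_def y, MvPolynomial.eval₂_eq', map_sum, Finset.mul_sum]
    refine Finset.sum_congr rfl fun m hm => ?_
    rw [map_mul, MvPolynomial.aeval_C, map_prod, mul_left_comm, ← Finset.prod_mul_distrib]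
    congr 1
    refine Finset.prod_congr rfl fun s _ => ?_
    rw [map_mul, map_pow, map_pow, ← h s, mul_pow]
    conv_rhs => rw [← Nat.add_sub_cancel' (hle m hm s), pow_add]
    ring

variable {h : ℕ}

/-- The element of the symplectic Lie algebra with given coordinates. -/
def xi {R : Type} [CommRing R] (x : Sym2 (Fin (2 * h)) → R) : Mx h R :=
  -(Jm h R * Matrix.of fun i j => x s(i, j))

theorem J_mul_xi {R : Type} [CommRing R] (x : Sym2 (Fin (2 * h)) → R) :
    Jm h R * xi x = Matrix.of fun i j => x s(i, j) := by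
  rw [xi, Matrix.mul_neg, ← Matrix.mul_assoc, Jm_mul_Jm]; simp

theorem xi_sp {R : Type} [CommRing R] (x : Sym2 (Fin (2 * h)) → R) :
    (xi x)ᵀ * Jm h R + Jm h R * xi x = 0 := by
  have h1 : (Jm h R * xi x)ᵀ = Jm h R * xi x := by
    rw [J_mul_xi]; ext i j; simp [Sym2.eq_swap]
  rw [transpose_mul, Jm_transpose, Matrix.mul_neg] at h1
  rw [← h1]; simp

theorem xi_map {R S : Type} [CommRing R] [CommRing S] (φ : R →+* S) (x : Sym2 (Fin (2 * h)) → R) :
    (xi x).map φ = xi fun s => φ (x s) := by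
  rw [xi, xi, ← RingHom.mapMatrix_apply, map_neg, map_mul, RingHom.mapMatrix_apply, Jm_map]
  rfl

section Field

variable {K : Type} [Field K] [CharZero K]

theorem cay_det {g ξ : Mx h K} (hc : (g + 1) * (1 - ξ) = 2) :
    (g + 1).det ≠ 0 ∧ (1 - ξ).det ≠ 0 := by
  have h1 := congrArg Matrix.det hc
  have h2 : (2 : Mx h K) = (2 : K) • (1 : Mx h K) := by rw [two_smul]; norm_num
  rw [det_mul, h2, det_smul, det_one, mul_one] at h1
  exact mul_ne_zero_iff.1 (h1 ▸ pow_ne_zero _ two_ne_zero)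

theorem cay_comm {g ξ : Mx h K} (hc : (g + 1) * (1 - ξ) = 2) : (1 - ξ) * (g + 1) = 2 := by
  have h2 : (2 : Mx h K) = (2 : K) • (1 : Mx h K) := by rw [two_smul]; norm_num
  have h1 : (g + 1) * ((1 / 2 : K) • (1 - ξ)) = 1 := by
    rw [Matrix.mul_smul, hc, h2, smul_smul]; simp
  have h3 := mul_eq_one_comm.1 h1
  rw [Matrix.smul_mul] at h3
  have h4 := congrArg (fun M : Mx h K => (2 : K) • M) h3
  simp only [smul_smul] at h4
  rw [h2, ← h4]; simp

omit [CharZero K] in
theorem cay_left {g ξ : Mx h K} (hc : (g + 1) * (1 - ξ) = 2) :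
    (1 - ξ).det • g = (1 + ξ) * (1 - ξ).adjugate := by
  have h1 : g * (1 - ξ) = 1 + ξ := by
    have : g * (1 - ξ) = (g + 1) * (1 - ξ) - (1 - ξ) := by noncomm_ring
    rw [this, hc, ← one_add_one_eq_two (R := Mx h K)]; abel
  rw [← h1, Matrix.mul_assoc, mul_adjugate, Matrix.mul_smul, Matrix.mul_one]

theorem cay_right {g ξ : Mx h K} (hc : (g + 1) * (1 - ξ) = 2) :
    (g + 1).det • (Jm h K * ξ) = Jm h K * ((g - 1) * (g + 1).adjugate) := by
  have h1 : ξ * (g + 1) = g - 1 := by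
    have : ξ * (g + 1) = (g + 1) - (1 - ξ) * (g + 1) := by noncomm_ring
    rw [this, cay_comm hc, ← one_add_one_eq_two (R := Mx h K)]; abel
  rw [← h1, Matrix.mul_assoc, mul_adjugate, Matrix.mul_smul, Matrix.mul_one, Matrix.mul_smul]

omit [CharZero K] in
theorem cay_key {g ξ : Mx h K} (hc : (g + 1) * (1 - ξ) = 2) :
    (1 - ξ)ᵀ * (gᵀ * Jm h K * g - Jm h K) * (1 - ξ)
      = (ξᵀ * Jm h K + Jm h K * ξ) + (ξᵀ * Jm h K + Jm h K * ξ) := by
  have h1 : g * (1 - ξ) = 1 + ξ := by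
    have : g * (1 - ξ) = (g + 1) * (1 - ξ) - (1 - ξ) := by noncomm_ring
    rw [this, hc, ← one_add_one_eq_two (R := Mx h K)]; abel
  have h2 : (1 - ξ)ᵀ * (gᵀ * Jm h K * g - Jm h K) * (1 - ξ)
      = (g * (1 - ξ))ᵀ * Jm h K * (g * (1 - ξ)) - (1 - ξ)ᵀ * Jm h K * (1 - ξ) := by
    rw [transpose_mul]; noncomm_ring
  rw [h2, h1, transpose_add, transpose_sub, transpose_one]; noncomm_ring

theorem cay_of_sp {g : Mx h K} (hg : IsSp g) (hd : (g + 1).det ≠ 0) :
    ∃ x : Sym2 (Fin (2 * h)) → K, (g + 1) * (1 - xi x) = 2 := by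
  set ξ : Mx h K := 1 - (g + 1)⁻¹ * 2 with hξ
  have hc : (g + 1) * (1 - ξ) = 2 := by
    rw [hξ, sub_sub_cancel, ← Matrix.mul_assoc, mul_nonsing_inv _ (Ne.isUnit hd), Matrix.one_mul]
  have h1 := cay_key hc
  rw [hg, sub_self, Matrix.mul_zero, Matrix.zero_mul, ← two_smul K] at h1
  have h2 : ξᵀ * Jm h K + Jm h K * ξ = 0 := (smul_eq_zero.1 h1.symm).resolve_left two_ne_zero
  have h3 : (Jm h K * ξ)ᵀ = Jm h K * ξ := by
    rw [transpose_mul, Jm_transpose, Matrix.mul_neg]
    exact neg_eq_of_add_eq_zero_right h2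
  refine ⟨Sym2.lift ⟨fun i j => (Jm h K * ξ) i j, fun i j => ?_⟩, ?_⟩
  · show (Jm h K * ξ) i j = (Jm h K * ξ) j i
    rw [← transpose_apply (Jm h K * ξ) i j, h3]
  · have : xi (Sym2.lift ⟨fun i j => (Jm h K * ξ) i j, fun i j => by
        show (Jm h K * ξ) i j = (Jm h K * ξ) j i
        rw [← transpose_apply (Jm h K * ξ) i j, h3]⟩) = ξ := by
      have h4 : ∀ hs, (Matrix.of fun i j => Sym2.lift ⟨fun i j => (Jm h K * ξ) i j, hs⟩ s(i, j))
          = Jm h K * ξ := fun hs => by ext i j; simp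
      rw [xi, h4, ← Matrix.mul_assoc, Jm_mul_Jm]; simp
    rw [this, hc]

omit [CharZero K] in
theorem cay_of_xi (x : Sym2 (Fin (2 * h)) → K) (hd : (1 - xi x).det ≠ 0) :
    ∃ g : Mx h K, IsSp g ∧ (g + 1) * (1 - xi x) = 2 := by
  set g : Mx h K := 2 * (1 - xi x)⁻¹ - 1 with hg
  have hc : (g + 1) * (1 - xi x) = 2 := by
    rw [hg, sub_add_cancel, Matrix.mul_assoc, nonsing_inv_mul _ (Ne.isUnit hd), Matrix.mul_one]
  refine ⟨g, ?_, hc⟩
  have h1 := cay_key hc
  rw [xi_sp, add_zero] at h1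
  have hu : IsUnit (1 - xi x) := (isUnit_iff_isUnit_det _).2 (Ne.isUnit hd)
  have hu' : IsUnit (1 - xi x)ᵀ := (isUnit_transpose _).2 hu
  rw [hu.mul_left_eq_zero, hu'.mul_right_eq_zero, sub_eq_zero] at h1
  exact h1

end Field

theorem sp_dense_pi {ι : Type} [Fintype ι] [DecidableEq ι]
    (P : MvPolynomial (ι × Fin (2 * h) × Fin (2 * h)) ℂ) {g : ι → Mx h ℂ} (hg : ∀ i, IsSp (g i))
    (hP : MvPolynomial.eval (fun e => g e.1 e.2.1 e.2.2) P ≠ 0) :
    ∃ g' : ι → Mx h ℂ, (∀ i, IsSp (g' i) ∧ (g' i + 1).det ≠ 0) ∧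
      MvPolynomial.eval (fun e => g' e.1 e.2.1 e.2.2) P ≠ 0 := by
  have key : ∀ S : Finset ι, ∃ g' : ι → Mx h ℂ, (∀ i, IsSp (g' i)) ∧
      (∀ i ∈ S, (g' i + 1).det ≠ 0) ∧ MvPolynomial.eval (fun e => g' e.1 e.2.1 e.2.2) P ≠ 0 := by
    intro S
    induction S using Finset.induction_on with
    | empty => exact ⟨g, hg, by simp, hP⟩
    | insert a S _ ih =>
      obtain ⟨g', h1, h2, h3⟩ := ih
      have he : ∀ u : Mx h ℂ, MvPolynomial.eval (fun e => u e.1 e.2) (MvPolynomial.bind₁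
          (fun e : ι × Fin (2 * h) × Fin (2 * h) => if e.1 = a then MvPolynomial.X e.2
            else MvPolynomial.C (g' e.1 e.2.1 e.2.2)) P)
          = MvPolynomial.eval (fun e => Function.update g' a u e.1 e.2.1 e.2.2) P := by
        intro u
        rw [MvPolynomial.eval, MvPolynomial.eval₂Hom_bind₁]
        refine congrArg (fun f => MvPolynomial.eval₂Hom (RingHom.id ℂ) f P) (funext fun e => ?_)
        by_cases hea : e.1 = a
        · simp [hea]
        · simp [hea]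
      obtain ⟨u, hu1, hu2, hu3⟩ := sp_dense _ (h1 a) (by rwa [he, Function.update_eq_self])
      rw [he] at hu3
      refine ⟨Function.update g' a u, fun i => ?_, fun i hi => ?_, hu3⟩
      · by_cases hi : i = a
        · simpa [hi] using hu1
        · simpa [hi] using h1 i
      · by_cases hia : i = a
        · simpa [hia] using hu2
        · simpa [hia] using h2 i (by simpa [hia] using hi)
  obtain ⟨g', h1, h2, h3⟩ := key Finset.univ
  exact ⟨g', fun i => ⟨h1 i, h2 i (Finset.mem_univ _)⟩, h3⟩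

theorem hitting {r : ℕ} (E : (Fin r → ℕ) → Prop) (hE : ∀ n, E n → Function.Injective n) (j : ℕ) :
    (∃ B : Finset ℕ, B.card ≤ j * r ∧ ∀ n, E n → ∃ i, n i ∈ B) ∨
      ∃ F : Fin (j + 1) → Fin r → ℕ, (∀ b, E (F b)) ∧
        Function.Injective fun p : Fin (j + 1) × Fin r => F p.1 p.2 := by
  induction j with
  | zero =>
    by_cases h0 : ∃ n, E n
    · obtain ⟨n, hn⟩ := h0
      exact Or.inr ⟨fun _ => n, fun _ => hn, fun p q hpq =>
        Prod.ext (Subsingleton.elim (α := Fin 1) _ _) (hE n hn hpq)⟩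
    · exact Or.inl ⟨∅, by simp, fun n hn => absurd ⟨n, hn⟩ h0⟩
  | succ j ih =>
    rcases ih with ⟨B, hB, hB'⟩ | ⟨F, hF, hF'⟩
    · exact Or.inl ⟨B, hB.trans (Nat.mul_le_mul_right _ (by omega)), hB'⟩
    · set B := Finset.univ.image fun p : Fin (j + 1) × Fin r => F p.1 p.2 with hB
      by_cases h0 : ∀ n, E n → ∃ i, n i ∈ B
      · exact Or.inl ⟨B, Finset.card_image_le.trans (by simp), h0⟩
      · push Not at h0
        obtain ⟨n, hn, hnB⟩ := h0
        have hne : ∀ i b i', n i ≠ F b i' := fun i b i' hc =>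
          hnB i (Finset.mem_image.2 ⟨(b, i'), Finset.mem_univ _, hc.symm⟩)
        refine Or.inr ⟨Fin.cons n F, fun b => Fin.cases hn hF b, ?_⟩
        rintro ⟨b, i⟩ ⟨b', i'⟩ hpq
        induction b using Fin.cases with
        | zero =>
          induction b' using Fin.cases with
          | zero => exact Prod.ext rfl (hE n hn hpq)
          | succ b' => exact absurd hpq (hne _ _ _)
        | succ b =>
          induction b' using Fin.cases with
          | zero => exact absurd hpq.symm (hne _ _ _)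
          | succ b' =>
            have := @hF' (b, i) (b', i') hpq
            rw [Prod.mk.injEq] at this
            rw [this.1, this.2]

end GPC

end

-- part MP_57341d_ag.H87.Elim
section

set_option autoImplicit false

namespace GPC

open MvPolynomial

namespace ElimAux

/-- The submodule is contained in the span of at most n real numbers. -/
def Gen (V : Submodule ℚ ℂ) (n : ℕ) : Prop :=
  ∃ S : Finset ℂ, S.card ≤ n ∧ V ≤ Submodule.span ℚ (S : Set ℂ)

theorem Gen.mono {V W : Submodule ℚ ℂ} {n m : ℕ} (h : Gen W n) (hV : V ≤ W) (hn : n ≤ m) :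
    Gen V m := by
  obtain ⟨S, h1, h2⟩ := h
  exact ⟨S, h1.trans hn, hV.trans h2⟩

open Pointwise in
theorem Gen.mul {V W : Submodule ℚ ℂ} {n m : ℕ} (h : Gen V n) (h' : Gen W m) :
    Gen (V * W) (n * m) := by
  classical
  obtain ⟨S, h1, h2⟩ := h
  obtain ⟨S', h1', h2'⟩ := h'
  refine ⟨S * S', Finset.card_mul_le.trans (Nat.mul_le_mul h1 h1'), ?_⟩
  rw [Finset.coe_mul, ← Submodule.span_mul_span]
  exact mul_le_mul' h2 h2'

theorem Gen.add {V W : Submodule ℚ ℂ} {n m : ℕ} (h : Gen V n) (h' : Gen W m) :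
    Gen (V + W) (n + m) := by
  classical
  obtain ⟨S, h1, h2⟩ := h
  obtain ⟨S', h1', h2'⟩ := h'
  refine ⟨S ∪ S', (Finset.card_union_le _ _).trans (Nat.add_le_add h1 h1'), ?_⟩
  rw [Finset.coe_union, Submodule.span_union, Submodule.add_eq_sup]
  exact sup_le_sup h2 h2'

theorem gen_one : Gen 1 1 := by
  refine ⟨{1}, by simp, ?_⟩
  rw [Finset.coe_singleton, Submodule.one_eq_span]

theorem gen_zero : Gen 0 0 := ⟨∅, by simp, by simp⟩

theorem gen_prod {ι : Type} (s : Finset ι) (V : ι → Submodule ℚ ℂ) (n : ℕ)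
    (h : ∀ i ∈ s, Gen (V i) n) : Gen (∏ i ∈ s, V i) (n ^ s.card) := by
  classical
  induction s using Finset.induction_on with
  | empty => simpa using gen_one
  | insert a s ha ih =>
    rw [Finset.prod_insert ha, Finset.card_insert_of_notMem ha, pow_succ']
    exact (h a (Finset.mem_insert_self _ _)).mul
      (ih fun i hi => h i (Finset.mem_insert_of_mem hi))

theorem gen_sum {ι : Type} (s : Finset ι) (V : ι → Submodule ℚ ℂ) (n : ℕ)
    (h : ∀ i ∈ s, Gen (V i) n) : Gen (∑ i ∈ s, V i) (s.card * n) := by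
  classical
  induction s using Finset.induction_on with
  | empty => simpa using gen_zero
  | insert a s ha ih =>
    rw [Finset.sum_insert ha, Finset.card_insert_of_notMem ha, add_mul, one_mul, add_comm _ n]
    exact (h a (Finset.mem_insert_self _ _)).add
      (ih fun i hi => h i (Finset.mem_insert_of_mem hi))

theorem prod_mem {ι : Type} (s : Finset ι) (V : ι → Submodule ℚ ℂ) (x : ι → ℂ)
    (h : ∀ i ∈ s, x i ∈ V i) : ∏ i ∈ s, x i ∈ ∏ i ∈ s, V i := by
  classical
  induction s using Finset.induction_on with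
  | empty => simp [Submodule.one_eq_span]
  | insert a s ha ih =>
    rw [Finset.prod_insert ha, Finset.prod_insert ha]
    exact Submodule.mul_mem_mul (h a (Finset.mem_insert_self _ _))
      (ih fun i hi => h i (Finset.mem_insert_of_mem hi))

theorem pow_mono {M : Submodule ℚ ℂ} (h : (1 : ℂ) ∈ M) {a b : ℕ} (hab : a ≤ b) :
    M ^ a ≤ M ^ b := by
  obtain ⟨c, rfl⟩ := Nat.exists_eq_add_of_le hab
  intro x hx
  rw [pow_add]
  simpa using Submodule.mul_mem_mul hx (Submodule.pow_mem_pow M h c)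

/-- The span of 1 and x. -/
noncomputable def U (x : ℂ) : Submodule ℚ ℂ := Submodule.span ℚ {1, x}

theorem one_mem_U (x : ℂ) : (1 : ℂ) ∈ U x := Submodule.subset_span (by simp)

theorem pow_mem_U (x : ℂ) {j m : ℕ} (h : j ≤ m) : x ^ j ∈ U x ^ m :=
  pow_mono (one_mem_U x) h
    (Submodule.pow_mem_pow _ (Submodule.subset_span (by simp)) j)

theorem gen_U (x : ℂ) (m : ℕ) : Gen (U x ^ m) (m + 1) := by
  classical
  refine ⟨(Finset.range (m + 1)).image (fun j => x ^ j),
    Finset.card_image_le.trans (by simp), ?_⟩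
  induction m with
  | zero => simp [Submodule.one_eq_span]
  | succ m ih =>
    rw [pow_succ]
    refine (mul_le_mul' ih le_rfl).trans ?_
    rw [U, Submodule.span_mul_span]
    refine Submodule.span_mono ?_
    rintro _ ⟨a, ha, b, hb, rfl⟩
    simp only [Finset.coe_image, Finset.coe_range, Set.mem_image, Set.mem_Iio] at ha ⊢
    obtain ⟨j, hj, rfl⟩ := ha
    rcases hb with rfl | rfl
    · exact ⟨j, by omega, by simp⟩
    · exact ⟨j + 1, by omega, by simp [pow_succ]⟩

/-- The product of the spans of 1 and t i. -/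
noncomputable def T {τ : Type} [Fintype τ] (t : τ → ℂ) : Submodule ℚ ℂ := ∏ i, U (t i)

theorem one_mem_T {τ : Type} [Fintype τ] (t : τ → ℂ) : (1 : ℂ) ∈ T t := by
  simpa [T] using prod_mem Finset.univ (fun i => U (t i)) (fun _ => 1) fun i _ => one_mem_U _

theorem gen_T {τ : Type} [Fintype τ] (t : τ → ℂ) (m : ℕ) :
    Gen (T t ^ m) ((m + 1) ^ Fintype.card τ) := by
  rw [T, ← Finset.prod_pow]
  exact gen_prod _ _ _ fun i _ => gen_U _ _

theorem mon_mem_T {τ : Type} [Fintype τ] (t : τ → ℂ) (a : τ → ℕ) {m : ℕ} (h : ∀ i, a i ≤ m) :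
    ∏ i, t i ^ a i ∈ T t ^ m := by
  rw [T, ← Finset.prod_pow]
  exact prod_mem _ _ _ fun i _ => pow_mem_U _ (h i)

open Classical in
/-- Monomials with one exponent at most e and the other exponents at most w. -/
noncomputable def Red {σ : Type} [Fintype σ] (u : σ → ℂ) (e w : ℕ) : Submodule ℚ ℂ :=
  ∑ j, U (u j) ^ e * ∏ i ∈ Finset.univ.erase j, U (u i) ^ w

theorem gen_Red {σ : Type} [Fintype σ] (u : σ → ℂ) (e w : ℕ) :
    Gen (Red u e w) (Fintype.card σ * ((e + 1) * (w + 1) ^ (Fintype.card σ - 1))) := by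
  classical
  unfold Red
  refine gen_sum _ _ _ fun j _ => (gen_U _ _).mul ?_
  have := gen_prod (Finset.univ.erase j) (fun i => U (u i) ^ w) (w + 1) fun i _ => gen_U _ _
  rw [Finset.card_erase_of_mem (Finset.mem_univ j), Finset.card_univ] at this
  convert this

theorem Red_mono {σ : Type} [Fintype σ] (u : σ → ℂ) (e : ℕ) {w w' : ℕ} (h : w ≤ w') :
    Red u e w ≤ Red u e w' := by
  unfold Red
  refine Finset.sum_le_sum fun j _ => mul_le_mul' le_rfl ?_
  exact Finset.prod_le_prod' fun i _ => pow_mono (one_mem_U _) h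

theorem mon_mem_Red {σ : Type} [Fintype σ] (u : σ → ℂ) {e w : ℕ} (ν : σ → ℕ) (j : σ)
    (hj : ν j ≤ e) (h : ∀ i, ν i ≤ w) : ∏ i, u i ^ ν i ∈ Red u e w := by
  classical
  have h1 : ∏ i, u i ^ ν i ∈ U (u j) ^ e * ∏ i ∈ Finset.univ.erase j, U (u i) ^ w := by
    rw [← Finset.mul_prod_erase _ _ (Finset.mem_univ j)]
    exact Submodule.mul_mem_mul (pow_mem_U _ hj) (prod_mem _ _ _ fun i _ => pow_mem_U _ (h i))
  unfold Red
  have h2 := Finset.single_le_sum
    (f := fun j => U (u j) ^ e * ∏ i ∈ Finset.univ.erase j, U (u i) ^ w)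
    (fun i _ => bot_le) (Finset.mem_univ j)
  convert h2 h1

/-- Specialisation of the first block of variables. -/
noncomputable def spec {τ σ : Type} (t : τ → ℂ) :
    MvPolynomial (τ ⊕ σ) ℚ →ₐ[ℚ] MvPolynomial σ ℂ :=
  aeval (Sum.elim (fun i => C (t i)) X)

theorem eval_spec {τ σ : Type} (t : τ → ℂ) (x : σ → ℂ) (F : MvPolynomial (τ ⊕ σ) ℚ) :
    eval x (spec t F) = aeval (Sum.elim t x) F := by
  induction F using MvPolynomial.induction_on with
  | C a => simp [spec]
  | add p q hp hq => simp [hp, hq]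
  | mul_X p i hp =>
    rw [map_mul, map_mul, map_mul, hp]
    cases i <;> simp [spec]

theorem spec_monomial {τ σ : Type} [Fintype τ] [Fintype σ] (t : τ → ℂ) (m : τ ⊕ σ →₀ ℕ) (a : ℚ) :
    spec t (monomial m a) = monomial (Finsupp.equivFunOnFinite.symm fun j => m (Sum.inr j))
      ((a : ℂ) * ∏ i, t i ^ m (Sum.inl i)) := by
  rw [spec, aeval_monomial, monomial_eq, Finsupp.prod_fintype _ _ (by simp),
    Finsupp.prod_fintype _ _ (by simp), Fintype.prod_sum_type]
  simp [mul_assoc]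

theorem spec_good {τ σ : Type} [Fintype τ] [Fintype σ] (t : τ → ℂ) {d : ℕ}
    (F : MvPolynomial (τ ⊕ σ) ℚ) (hF : F.totalDegree ≤ d) :
    (∀ μ, coeff μ (spec t F) ∈ T t ^ d) ∧ ∀ μ ∈ (spec t F).support, ∀ j, μ j ≤ d := by
  classical
  have hm : ∀ m ∈ F.support, ∀ i, m i ≤ d := fun m hm i =>
    (monomial_le_degreeOf i hm).trans ((degreeOf_le_totalDegree F i).trans hF)
  have hs : spec t F = ∑ m ∈ F.support,
      monomial (Finsupp.equivFunOnFinite.symm fun j => m (Sum.inr j))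
        (((coeff m F : ℚ) : ℂ) * ∏ i, t i ^ m (Sum.inl i)) := by
    conv_lhs => rw [F.as_sum, map_sum]
    exact Finset.sum_congr rfl fun m _ => spec_monomial t m _
  constructor
  · intro μ
    rw [hs, coeff_sum]
    refine Submodule.sum_mem _ fun m hm' => ?_
    rw [coeff_monomial]
    split_ifs
    · have := Submodule.smul_mem _ (coeff m F)
        (mon_mem_T t (fun i => m (Sum.inl i)) fun i => hm m hm' _)
      rwa [Rat.smul_def] at this
    · exact Submodule.zero_mem _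
  · intro μ hμ j
    rw [hs] at hμ
    obtain ⟨m, hm', h⟩ := Finset.mem_biUnion.1 (support_sum hμ)
    have := support_monomial_subset h
    rw [Finset.mem_singleton] at this
    rw [this]
    exact hm m hm' _

theorem exists_wt (σ : Type) [Fintype σ] (e : ℕ) : ∃ c : σ → ℕ, (∀ j, 1 ≤ c j) ∧
    (∀ j, c j ≤ (e + 1) ^ Fintype.card σ) ∧
    ∀ μ ν : σ → ℕ, (∀ j, μ j ≤ e) → (∀ j, ν j ≤ e) →
      ∑ j, μ j * c j = ∑ j, ν j * c j → μ = ν := by
  let φ := Fintype.equivFin σ
  refine ⟨fun j => (e + 1) ^ (φ j : ℕ), fun j => Nat.one_le_pow _ _ (by omega),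
    fun j => Nat.pow_le_pow_right (by omega) (φ j).2.le, ?_⟩
  intro μ ν hμ hν h
  have key : ∀ (μ : σ → ℕ) (hμ : ∀ j, μ j ≤ e), ∑ j, μ j * (e + 1) ^ (φ j : ℕ)
      = (finFunctionFinEquiv (fun i => (⟨μ (φ.symm i), Nat.lt_succ_of_le (hμ _)⟩ : Fin (e + 1))) : ℕ) := by
    intro μ hμ
    rw [finFunctionFinEquiv_apply, ← Equiv.sum_comp φ]
    simp
  rw [key μ hμ, key ν hν] at h
  have h2 := finFunctionFinEquiv.injective (Fin.ext h)
  funext j
  have := congrArg Fin.val (congrFun h2 (φ j))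
  simpa using this

theorem red {τ σ : Type} [Fintype τ] [Fintype σ] {e : ℕ} (t : τ → ℂ) (u : σ → ℂ)
    (P : MvPolynomial (τ ⊕ σ) ℚ) (hP : P.totalDegree ≤ e) (h0 : aeval (Sum.elim t u) P = 0)
    (h1 : ∃ x : σ → ℂ, aeval (Sum.elim t x) P ≠ 0) :
    ∃ l : ℂ, l ≠ 0 ∧ ∀ (d W : ℕ), Fintype.card σ * (d * (e + 1) ^ Fintype.card σ) < W →
      ∀ F : MvPolynomial (τ ⊕ σ) ℚ, F.totalDegree ≤ d →
      l ^ W * aeval (Sum.elim t u) F ∈ T t ^ (d + e * W) * Red u e W := by
  classical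
  obtain ⟨c, hc1, hc2, hc3⟩ := exists_wt σ e
  obtain ⟨hT, hS⟩ := spec_good t P hP
  have hne : (spec t P).support.Nonempty := by
    rw [support_nonempty]
    rintro h
    obtain ⟨x, hx⟩ := h1
    rw [← eval_spec, h] at hx
    simp at hx
  obtain ⟨μ0, hμ0, hmax⟩ := Finset.exists_max_image _ (fun μ : σ →₀ ℕ => ∑ j, μ j * c j) hne
  set l := coeff μ0 (spec t P) with hl
  have hrel : l * ∏ i, u i ^ μ0 i
      = - ∑ μ ∈ (spec t P).support.erase μ0, coeff μ (spec t P) * ∏ i, u i ^ μ i := by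
    rw [← eval_spec, eval_eq', ← Finset.add_sum_erase _ _ hμ0] at h0
    linear_combination h0
  have key : ∀ (w : ℕ) (ν : σ → ℕ), ∑ j, ν j * c j < w →
      l ^ w * ∏ i, u i ^ ν i ∈ T t ^ (e * w) * Red u e w := by
    intro w
    induction w with
    | zero => intro ν h; omega
    | succ w ih =>
      intro ν hν
      by_cases hle : ∀ j, μ0 j ≤ ν j
      · have e1 : ∏ i, u i ^ ν i = (∏ i, u i ^ μ0 i) * ∏ i, u i ^ (ν i - μ0 i) := by
          rw [← Finset.prod_mul_distrib]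
          refine Finset.prod_congr rfl fun i _ => ?_
          rw [← pow_add, Nat.add_sub_cancel' (hle i)]
        have e2 : l ^ (w + 1) * ∏ i, u i ^ ν i = - ∑ μ ∈ (spec t P).support.erase μ0,
            coeff μ (spec t P) * (l ^ w * ∏ i, u i ^ (μ i + (ν i - μ0 i))) := by
          have : l ^ (w + 1) * ∏ i, u i ^ ν i
              = (l * ∏ i, u i ^ μ0 i) * (l ^ w * ∏ i, u i ^ (ν i - μ0 i)) := by
            rw [e1]; ring
          rw [this, hrel, neg_mul, Finset.sum_mul]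
          congr 1
          refine Finset.sum_congr rfl fun μ _ => ?_
          simp only [pow_add, Finset.prod_mul_distrib]
          ring
        rw [e2]
        refine Submodule.neg_mem _ (Submodule.sum_mem _ fun μ hμ => ?_)
        obtain ⟨hμ1, hμ2⟩ := Finset.mem_erase.1 hμ
        have hlt : ∑ j, μ j * c j < ∑ j, μ0 j * c j := by
          refine lt_of_le_of_ne (hmax μ hμ2) fun h => hμ1 ?_
          exact DFunLike.coe_injective (hc3 _ _ (hS μ hμ2) (hS μ0 hμ0) h)
        have e3 : ∑ j, ν j * c j = ∑ j, μ0 j * c j + ∑ j, (ν j - μ0 j) * c j := by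
          rw [← Finset.sum_add_distrib]
          refine Finset.sum_congr rfl fun i _ => ?_
          rw [← add_mul, Nat.add_sub_cancel' (hle i)]
        have e4 : ∑ j, (μ j + (ν j - μ0 j)) * c j
            = ∑ j, μ j * c j + ∑ j, (ν j - μ0 j) * c j := by
          rw [← Finset.sum_add_distrib]
          exact Finset.sum_congr rfl fun i _ => add_mul _ _ _
        have h3 := Submodule.mul_mem_mul (hT μ) (ih (fun i => μ i + (ν i - μ0 i)) (by omega))
        rw [← mul_assoc, ← pow_add] at h3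
        have h4 : T t ^ (e + e * w) * Red u e w ≤ T t ^ (e * (w + 1)) * Red u e (w + 1) :=
          mul_le_mul' (pow_mono (one_mem_T t) (by rw [mul_add]; omega)) (Red_mono u e (by omega))
        exact h4 h3
      · push Not at hle
        obtain ⟨j, hj⟩ := hle
        refine Submodule.mul_mem_mul ?_ (mon_mem_Red u ν j (hj.le.trans (hS μ0 hμ0 j)) fun i => ?_)
        · rw [pow_mul]
          exact Submodule.pow_mem_pow _ (hT μ0) _
        · have h5 : ν i * c i ≤ ∑ j, ν j * c j :=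
            Finset.single_le_sum (f := fun j => ν j * c j) (fun _ _ => Nat.zero_le _)
              (Finset.mem_univ i)
          have h6 : ν i * 1 ≤ ν i * c i := Nat.mul_le_mul_left _ (hc1 i)
          omega
  refine ⟨l, mem_support_iff.1 hμ0, fun d W hW F hF => ?_⟩
  obtain ⟨hT', hS'⟩ := spec_good t F hF
  rw [← eval_spec, eval_eq', Finset.mul_sum]
  refine Submodule.sum_mem _ fun μ hμ => ?_
  rw [mul_left_comm, pow_add, mul_assoc]
  refine Submodule.mul_mem_mul (hT' μ) (key W μ (lt_of_le_of_lt ?_ hW))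
  refine (Finset.sum_le_card_nsmul _ _ (d * (e + 1) ^ Fintype.card σ) fun j _ =>
    Nat.mul_le_mul (hS' μ hμ j) (hc2 j)).trans ?_
  simp

theorem arith (k s e : ℕ) : ∃ n : ℕ,
    ((s * (n * e) + e * (s * (s * (n * e) * (e + 1) ^ s) + 1)) * (k + 1) + 1) ^ k *
      (s * ((e + 1) * ((s * (s * (n * e) * (e + 1) ^ s) + 1) + 1) ^ (s - 1))) ^ (k + 1)
      < (n + 1) ^ ((k + 1) * s) := by
  rcases s with _ | s
  · exact ⟨0, by simp⟩
  set A := (s + 1) * ((s + 1) * e * (e + 1) ^ (s + 1)) + 2 with hA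
  set B := ((s + 1) * e + e * A) * (k + 1) + 1 with hB
  set n := B ^ k * ((s + 1) * ((e + 1) * A ^ s)) ^ (k + 1) with hn
  refine ⟨n, ?_⟩
  have h1 : (s + 1) * ((s + 1) * (n * e) * (e + 1) ^ (s + 1)) + 1 + 1 ≤ A * (n + 1) := by
    rw [hA]; nlinarith [Nat.zero_le ((s + 1) * ((s + 1) * e * (e + 1) ^ (s + 1))), Nat.zero_le n]
  have h2 : ((s + 1) * (n * e) + e * ((s + 1) * ((s + 1) * (n * e) * (e + 1) ^ (s + 1)) + 1))
      * (k + 1) + 1 ≤ B * (n + 1) := by
    have h3 : e * ((s + 1) * ((s + 1) * (n * e) * (e + 1) ^ (s + 1)) + 1) ≤ e * (A * (n + 1)) :=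
      Nat.mul_le_mul_left _ (by omega)
    have h4 : (s + 1) * (n * e) ≤ (s + 1) * e * (n + 1) := by nlinarith [Nat.zero_le ((s + 1) * e)]
    have h5 := Nat.mul_le_mul_right (k + 1) (Nat.add_le_add h4 h3)
    have h6 : B * (n + 1) = ((s + 1) * e * (n + 1) + e * (A * (n + 1))) * (k + 1) + (n + 1) := by
      rw [hB]; ring
    omega
  calc _ ≤ (B * (n + 1)) ^ k * ((s + 1) * ((e + 1) * (A * (n + 1)) ^ s)) ^ (k + 1) := by
        rw [Nat.add_sub_cancel]
        gcongr
    _ = n * (n + 1) ^ (k + s * (k + 1)) := by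
        have h7 : ∀ N : ℕ, (B * N) ^ k * ((s + 1) * ((e + 1) * (A * N) ^ s)) ^ (k + 1)
            = B ^ k * ((s + 1) * ((e + 1) * A ^ s)) ^ (k + 1) * N ^ (k + s * (k + 1)) := by
          intro N
          simp only [mul_pow, pow_add, ← pow_mul]
          ring
        rw [h7, ← hn]
    _ < (n + 1) * (n + 1) ^ (k + s * (k + 1)) := by
        gcongr; omega
    _ = _ := by rw [← pow_succ']; congr 1; ring

end ElimAux

open ElimAux in
/-- Elimination of k real parameters from k + 1 relations, by counting monomials. -/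
theorem elim (k s e : ℕ) : ∃ D : ℕ, ∀ {τ β σ : Type} [Fintype τ] [Fintype β] [Fintype σ],
    Fintype.card τ = k → Fintype.card β = k + 1 → Fintype.card σ = s →
    ∀ (t : τ → ℂ) (u : β → σ → ℂ) (P : β → MvPolynomial (τ ⊕ σ) ℚ),
    (∀ b, (P b).totalDegree ≤ e) → (∀ b, aeval (Sum.elim t (u b)) (P b) = 0) →
    (∀ b, ∃ x : σ → ℂ, aeval (Sum.elim t x) (P b) ≠ 0) →
    ∀ (y : β × σ → ℂ) (Q L : β × σ → MvPolynomial (τ ⊕ σ) ℚ),
    (∀ p, (Q p).totalDegree ≤ e) → (∀ p, (L p).totalDegree ≤ e) →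
    (∀ p, aeval (Sum.elim t (u p.1)) (L p) ≠ 0) →
    (∀ p, aeval (Sum.elim t (u p.1)) (L p) * y p = aeval (Sum.elim t (u p.1)) (Q p)) →
    ∃ R : MvPolynomial (β × σ) ℚ, R ≠ 0 ∧ R.totalDegree ≤ D ∧ aeval y R = 0 := by
  classical
  obtain ⟨n, hn⟩ := arith k s e
  refine ⟨(k + 1) * s * n, ?_⟩
  intro τ β σ _ _ _ hτ hβ hσ t u P hP h0 h1 y Q L hQ hL hL0 hy
  choose l hl0 hl using fun b => red t (u b) (P b) (hP b) (h0 b) (h1 b)
  set d := s * (n * e) with hd
  set W := s * (d * (e + 1) ^ s) + 1 with hW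
  set c : ℂ := ∏ b, (l b ^ W * ∏ j, aeval (Sum.elim t (u b)) (L (b, j)) ^ n) with hc
  have hc0 : c ≠ 0 := Finset.prod_ne_zero_iff.2 fun b _ => mul_ne_zero (pow_ne_zero _ (hl0 b))
    (Finset.prod_ne_zero_iff.2 fun j _ => pow_ne_zero _ (hL0 (b, j)))
  let z : (β × σ → Fin (n + 1)) → ℂ := fun μ => (∏ p, y p ^ (μ p : ℕ)) * c
  have hz : ∀ μ, z μ ∈ T t ^ ((d + e * W) * (k + 1)) * ∏ b, Red (u b) e W := by
    intro μ
    have e1 : z μ = ∏ b, (l b ^ W * aeval (Sum.elim t (u b))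
        (∏ j, Q (b, j) ^ (μ (b, j) : ℕ) * L (b, j) ^ (n - μ (b, j)))) := by
      simp only [z, hc]
      rw [Fintype.prod_prod_type, ← Finset.prod_mul_distrib]
      refine Finset.prod_congr rfl fun b _ => ?_
      rw [mul_left_comm, ← Finset.prod_mul_distrib, map_prod]
      congr 1
      refine Finset.prod_congr rfl fun j _ => ?_
      have h2 : (μ (b, j) : ℕ) ≤ n := by have := (μ (b, j)).2; omega
      rw [map_mul, map_pow, map_pow, ← hy (b, j), ← pow_mul_pow_sub _ h2]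
      simp only [mul_pow]
      ring
    have e2 : T t ^ ((d + e * W) * (k + 1)) * ∏ b, Red (u b) e W
        = ∏ b, (T t ^ (d + e * W) * Red (u b) e W) := by
      rw [Finset.prod_mul_distrib, Finset.prod_const, Finset.card_univ, hβ, ← pow_mul]
    rw [e1, e2]
    refine prod_mem _ _ _ fun b _ => hl b d W (by rw [hσ]; omega) _ ?_
    refine (totalDegree_finsetProd _ _).trans ?_
    refine (Finset.sum_le_card_nsmul _ _ (n * e) fun j _ => ?_).trans (by simp [hσ, hd])
    refine (totalDegree_mul _ _).trans ?_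
    have h3 := (totalDegree_pow (Q (b, j)) (μ (b, j))).trans (Nat.mul_le_mul_left _ (hQ (b, j)))
    have h4 := (totalDegree_pow (L (b, j)) (n - μ (b, j))).trans
      (Nat.mul_le_mul_left _ (hL (b, j)))
    have h2 : n = (μ (b, j) : ℕ) + (n - μ (b, j)) := by have := (μ (b, j)).2; omega
    have h5 : n * e = (μ (b, j) : ℕ) * e + (n - μ (b, j)) * e := by rw [← add_mul, ← h2]
    omega
  obtain ⟨S, hS1, hS2⟩ := (gen_T t ((d + e * W) * (k + 1))).mul
    (gen_prod Finset.univ (fun b => Red (u b) e W) _ fun b _ => gen_Red (u b) e W)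
  rw [hτ, hσ, Finset.card_univ, hβ] at hS1
  have hdep : ¬ LinearIndependent ℚ z := by
    intro hind
    have h6 := linearIndependent_le_span_aux' z hind (S : Set ℂ)
      (by rintro _ ⟨μ, rfl⟩; exact hS2 (hz μ))
    simp only [Fintype.card_fun, Fintype.card_fin, Fintype.card_prod, hβ, hσ,
      Finset.coe_sort_coe, Fintype.card_coe] at h6
    omega
  obtain ⟨g, hg, μ0, hμ0⟩ := Fintype.not_linearIndependent_iff.1 hdep
  let f : (β × σ → Fin (n + 1)) → (β × σ →₀ ℕ) :=
    fun μ => Finsupp.equivFunOnFinite.symm fun p => (μ p : ℕ)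
  have hf : Function.Injective f := by
    intro μ ν h
    funext p
    have := DFunLike.congr_fun h p
    exact Fin.ext (by simpa [f] using this)
  refine ⟨∑ μ, monomial (f μ) (g μ), ?_, ?_, ?_⟩
  · intro h
    have := congrArg (coeff (f μ0)) h
    rw [coeff_sum, Finset.sum_eq_single μ0] at this
    · exact hμ0 (by simpa using this)
    · intro μ _ hμ
      rw [coeff_monomial, if_neg fun h => hμ (hf h)]
    · simp
  · refine (totalDegree_finsetSum _ _).trans (Finset.sup_le fun μ _ => ?_)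
    refine (totalDegree_monomial_le _ _).trans ?_
    rw [Finsupp.sum_fintype _ _ (by simp)]
    refine (Finset.sum_le_card_nsmul _ _ n fun p _ => ?_).trans (by simp [hβ, hσ])
    have := (μ p).2
    simp only [f, Finsupp.equivFunOnFinite_symm_apply_apply, id]
    omega
  · apply mul_right_cancel₀ hc0
    rw [zero_mul, ← hg, map_sum, Finset.sum_mul]
    refine Finset.sum_congr rfl fun μ _ => ?_
    rw [aeval_monomial, Finsupp.prod_fintype _ _ (by simp), Rat.smul_def]
    simp [z, f, mul_assoc]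

end GPC

end
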