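import Pool.Agent.MP_57341d_ag.Mg.H87_Elim

/-!
The main theorem: few exceptional tuples.
-/

set_option autoImplicit false

namespace GPC

open Matrix MvPolynomial

variable {h : ℕ}

theorem exists_deg {σ ρ : Type} [Fintype σ] (F G : σ → MvPolynomial ρ ℚ) :
    ∃ e, (∀ s, (F s).totalDegree ≤ e) ∧ ∀ s, (G s).totalDegree ≤ e :=
  ⟨(Finset.univ.sup fun s => (F s).totalDegree) + Finset.univ.sup fun s => (G s).totalDegree,
    fun s => (Finset.le_sup (f := fun s => (F s).totalDegree) (Finset.mem_univ s)).trans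
      (Nat.le_add_right _ _),
    fun s => (Finset.le_sup (f := fun s => (G s).totalDegree) (Finset.mem_univ s)).trans
      (Nat.le_add_left _ _)⟩

section Maps

variable {R K : Type} [CommRing R] [CommRing K] [Algebra ℚ R] [Algebra ℚ K] (φ : R →ₐ[ℚ] K)

theorem map_det_xi (x : Sym2 (Fin (2 * h)) → R) :
    φ (1 - xi x).det = (1 - xi fun s => φ (x s)).det := by
  rw [AlgHom.map_det, map_sub, map_one]
  exact congrArg (fun M => (1 - M).det) (xi_map φ.toRingHom x)

theorem map_cay1 (x : Sym2 (Fin (2 * h)) → R) (t : R) :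
    ((1 + xi x) * (1 - xi x).adjugate * un h t).map φ
      = (1 + xi fun s => φ (x s)) * (1 - xi fun s => φ (x s)).adjugate * un h (φ t) := by
  have h1 : φ.mapMatrix (xi x) = xi fun s => φ (x s) := xi_map φ.toRingHom x
  have h2 : φ.mapMatrix (un h t) = un h (φ t) := un_map φ t
  rw [← AlgHom.mapMatrix_apply, map_mul, map_mul, AlgHom.map_adjugate, map_add, map_sub, map_one,
    h1, h2]

theorem map_det_add (g : Mx h R) : φ (g + 1).det = (g.map φ + 1).det := by
  rw [AlgHom.map_det, map_add, map_one]; rfl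

theorem map_cay2 (g : Mx h R) : (Jm h R * ((g - 1) * (g + 1).adjugate)).map φ
    = Jm h K * ((g.map φ - 1) * (g.map φ + 1).adjugate) := by
  have h1 : φ.mapMatrix (Jm h R) = Jm h K := Jm_map φ.toRingHom
  rw [← AlgHom.mapMatrix_apply, map_mul, map_mul, AlgHom.map_adjugate, map_add, map_sub, map_one,
    h1]; rfl

end Maps

theorem cay_coord {K : Type} [Field K] [CharZero K] {g : Mx h K} {x : Sym2 (Fin (2 * h)) → K}
    (hc : (g + 1) * (1 - xi x) = 2) (s : Sym2 (Fin (2 * h))) :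
    (g + 1).det * x s = (Jm h K * ((g - 1) * (g + 1).adjugate)) s.out.1 s.out.2 := by
  rw [← cay_right hc, J_mul_xi, Matrix.smul_apply, of_apply, smul_eq_mul]
  congr 2
  exact s.out_eq.symm

/-- Exceptional tuples. -/
def Exc (α : Fin h → ℚ) (c d : ℕ) {k r : ℕ} (θ : Fin k → ℂ) (n : Fin r → ℕ) : Prop :=
  ∃ P : MvPolynomial (Fin k ⊕ Fin r × Fin (2 * h) × Fin (2 * h)) ℚ, P.totalDegree ≤ d ∧
    aeval (Sum.elim θ fun e => (hgW α (c / n e.1) e.2.1 e.2.2 : ℂ)) P = 0 ∧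
    ∃ g : Fin r → Mx h ℂ, (∀ i, IsSp (g i)) ∧
      aeval (Sum.elim θ fun e => ((hgW α (c / n e.1)).map Complex.ofReal * g e.1) e.2.1 e.2.2) P ≠ 0

/-- Reduction of one relation to Cayley coordinates. -/
theorem reduce (k r d : ℕ) : ∃ e : ℕ, ∀ (θ : Fin k → ℂ) (lam : ℂ) (σ : Fin r → Mx h ℚ)
    (y : Fin r → Mx h ℂ) (x : Fin r × Sym2 (Fin (2 * h)) → ℂ),
    (∀ i, IsSp (y i)) → (∀ i, (y i + 1) * (1 - xi fun s => x (i, s)) = 2) →
    ∀ P : MvPolynomial (Fin k ⊕ Fin r × Fin (2 * h) × Fin (2 * h)) ℚ, P.totalDegree ≤ d →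
    aeval (Sum.elim θ fun e => ((σ e.1).map (algebraMap ℚ ℂ) * (y e.1 * un h lam)) e.2.1 e.2.2) P
      = 0 → ∀ g : Fin r → Mx h ℂ, (∀ i, IsSp (g i)) →
    aeval (Sum.elim θ fun e =>
      ((σ e.1).map (algebraMap ℚ ℂ) * (y e.1 * un h lam) * g e.1) e.2.1 e.2.2) P ≠ 0 →
    ∃ P' : MvPolynomial (Option (Fin k) ⊕ Fin r × Sym2 (Fin (2 * h))) ℚ, P'.totalDegree ≤ e ∧
      aeval (Sum.elim (fun o => o.elim lam θ) x) P' = 0 ∧
      ∃ x', aeval (Sum.elim (fun o => o.elim lam θ) x') P' ≠ 0 := by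
  set V := Fin k ⊕ Fin r × Fin (2 * h) × Fin (2 * h)
  set ρ := Option (Fin k) ⊕ Fin r × Sym2 (Fin (2 * h))
  set Ξ : Fin r → Mx h (MvPolynomial ρ ℚ) := fun i => xi fun s => X (Sum.inr (i, s)) with hΞ
  set num : V → MvPolynomial ρ ℚ := Sum.elim (fun j => X (Sum.inl (some j))) fun e =>
    ((1 + Ξ e.1) * (1 - Ξ e.1).adjugate * un h (X (Sum.inl none)) : Mx h (MvPolynomial ρ ℚ))
      e.2.1 e.2.2 with hnum
  set den : V → MvPolynomial ρ ℚ := Sum.elim (fun _ => 1) fun e => (1 - Ξ e.1).det with hden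
  obtain ⟨e1, he1, he1'⟩ := exists_deg num den
  refine ⟨Fintype.card V * (Fintype.card V * (d * 1) * e1), ?_⟩
  intro θ lam σ y x hy hyx P hP hP0 g hg hPg
  obtain ⟨P1, hP1, hP1e⟩ := clear P hP (e := 1) (ρ := V)
    (Sum.elim (fun j => X (Sum.inl j)) fun e => ∑ l, C (σ e.1 e.2.1 l) * X (Sum.inr (e.1, l, e.2.2)))
    (fun _ => 1) (by
      rintro (j | e)
      · simp
      · refine totalDegree_finsetSum_le fun l _ => (totalDegree_mul _ _).trans ?_
        simp) (by simp)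
  have hP1' : ∀ M : Fin r → Mx h ℂ, aeval (Sum.elim θ fun e => M e.1 e.2.1 e.2.2) P1
      = aeval (Sum.elim θ fun e => ((σ e.1).map (algebraMap ℚ ℂ) * M e.1) e.2.1 e.2.2) P := by
    intro M
    rw [hP1e _ (Sum.elim θ fun e => ((σ e.1).map (algebraMap ℚ ℂ) * M e.1) e.2.1 e.2.2)]
    · simp
    · rintro (j | e)
      · simp
      · simp [Matrix.mul_apply]
  obtain ⟨P2, hP2, hP2e⟩ := clear P1 hP1 num den he1 he1'
  have hP2' : ∀ (w : Fin r → Mx h ℂ) (x' : Fin r × Sym2 (Fin (2 * h)) → ℂ),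
      (∀ i, (w i + 1) * (1 - xi fun s => x' (i, s)) = 2) → ∃ z : ℂ, z ≠ 0 ∧
      aeval (Sum.elim (fun o => o.elim lam θ) x') P2
        = z * aeval (Sum.elim θ fun e => (w e.1 * un h lam) e.2.1 e.2.2) P1 := by
    intro w x' hw
    have hd : ∀ i, aeval (Sum.elim (fun o : Option (Fin k) => o.elim lam θ) x') (1 - Ξ i).det
        = (1 - xi fun s => x' (i, s)).det := fun i => by
      rw [hΞ, map_det_xi]; simp
    refine ⟨_, ?_, hP2e _ _ ?_⟩
    · refine Finset.prod_ne_zero_iff.2 ?_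
      rintro (j | e) _
      · simp [hden]
      · refine pow_ne_zero _ ?_
        simp only [hden, Sum.elim_inr, hd]
        exact (cay_det (hw _)).2
    · rintro (j | e)
      · simp [hden, hnum]
      · simp only [hden, hnum, Sum.elim_inr, hd]
        have := map_cay1 (aeval (R := ℚ) (Sum.elim (fun o : Option (Fin k) => o.elim lam θ) x'))
          (fun s => (X (Sum.inr (e.1, s)) : MvPolynomial ρ ℚ)) (X (Sum.inl none))
        simp only [aeval_X, Sum.elim_inr, Sum.elim_inl, Option.elim_none] at this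
        rw [← cay_left (hw _), Matrix.smul_mul] at this
        exact (congrFun (congrFun this e.2.1) e.2.2).symm
  refine ⟨P2, hP2, ?_, ?_⟩
  · obtain ⟨z, -, hz⟩ := hP2' y x hyx
    rw [hz, hP1' fun i => y i * un h lam, hP0, mul_zero]
  · set P3 : MvPolynomial (Fin r × Fin (2 * h) × Fin (2 * h)) ℂ :=
      aeval (Sum.elim (fun j => C (θ j)) fun e : Fin r × Fin (2 * h) × Fin (2 * h) =>
        ∑ l, X (e.1, e.2.1, l) * C (un h lam l e.2.2)) P1 with hP3
    have hP3e : ∀ w : Fin r → Mx h ℂ, eval (fun e => w e.1 e.2.1 e.2.2) P3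
        = aeval (Sum.elim θ fun e => (w e.1 * un h lam) e.2.1 e.2.2) P1 := by
      intro w
      rw [hP3, ← coe_aeval_eq_eval, AlgHom.coe_toRingHom, ← AlgHom.coe_restrictScalars' ℚ,
        ← AlgHom.comp_apply, comp_aeval]
      congr 2
      funext o
      rcases o with j | e
      · simp
      · simp [Matrix.mul_apply]
    obtain ⟨w, hw, hw'⟩ := sp_dense_pi P3 (g := fun i => y i * un h lam * g i * un h (-lam))
      (fun i => (((hy i).mul (un_isSp _)).mul (hg i)).mul (un_isSp _)) (by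
        rw [hP3e fun i => y i * un h lam * g i * un h (-lam), hP1' fun i => y i * un h lam * g i * un h (-lam) * un h lam]
        simpa only [Matrix.mul_assoc, un_add, neg_add_cancel, un_zero, Matrix.mul_one] using hPg)
    choose x' hx' using fun i => cay_of_sp (hw i).1 (hw i).2
    obtain ⟨z, hz0, hz⟩ := hP2' w (fun p => x' p.1 p.2) hx'
    exact ⟨_, hz ▸ mul_ne_zero hz0 (hP3e w ▸ hw')⟩

theorem few_exc (hh : 1 ≤ h) {α : Fin h → ℚ} (hα : ∀ i, 0 < α i ∧ α i < 1) {c : ℕ} (hc : 1 ≤ c)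
    (k r d : ℕ) : ∃ κ N0 : ℕ, ∀ (θ : Fin k → ℂ) (N L : ℕ), N0 ≤ N → 1 ≤ L → L ^ κ ≤ N →
      ∀ F : Fin (k + 1 + 1) → Fin r → ℕ,
        (Function.Injective fun p : Fin (k + 1 + 1) × Fin r => F p.1 p.2) →
        (∀ b i, F b i ≤ N ∧ N < F b i + L) → ¬ ∀ b, Exc α c d θ (F b) := by
  obtain ⟨e, he⟩ := reduce (h := h) k r d
  set β := Fin (k + 1 + 1)
  set σ := Fin r × Sym2 (Fin (2 * h))
  set ρ := (β × Fin r) × Fin (2 * h) × Fin (2 * h)
  obtain ⟨D0, hD0⟩ := elim (k + 1) (Fintype.card σ) (e + 1)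
  set G : β × Fin r → Mx h (MvPolynomial ρ ℚ) := fun p => Matrix.of fun i j => X (p, i, j) with hG
  set num : β × σ → MvPolynomial ρ ℚ := fun q => (Jm h _ * ((G (q.1, q.2.1) - 1)
    * (G (q.1, q.2.1) + 1).adjugate) : Mx h (MvPolynomial ρ ℚ)) q.2.2.out.1 q.2.2.out.2 with hnum
  set den : β × σ → MvPolynomial ρ ℚ := fun q => (G (q.1, q.2.1) + 1).det with hden
  obtain ⟨e2, he2, he2'⟩ := exists_deg num den
  obtain ⟨κ, N0, hval⟩ := values hh hα hc (Fintype.card (β × Fin r))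
    (Fintype.card (β × σ) * (D0 * e2) + e2)
  refine ⟨κ, N0 + 1, fun θ N L hN hL hLN F hF hFN hE => ?_⟩
  obtain ⟨hx, hv⟩ := hval (ι := β × Fin r) rfl N L (by omega) hL hLN (fun p => N - F p.1 p.2)
    (fun p q hpq => hF (by
      have h1 := (hFN p.1 p.2).1
      have h2 := (hFN q.1 q.2).1
      simp only at hpq ⊢
      omega)) (fun p => by have := hFN p.1 p.2; omega)
  have hN0 : (0 : ℝ) < N := by exact_mod_cast (by omega : 0 < N)
  have hc0 : (0 : ℝ) < c := by exact_mod_cast hc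
  set yR : β × Fin r → Mx h ℝ := fun p => yv α c (N - F p.1 p.2) (1 / N) with hyR
  have hySp : ∀ p, IsSp (yR p) := fun p => (hgV_isSp hh hα (hx p).1).mul (un_isSp _)
  set φ : ℝ →ₐ[ℚ] ℂ := IsScalarTower.toAlgHom ℚ ℝ ℂ with hφ
  have hGe : ∀ {K : Type} [CommRing K] [Algebra ℚ K] (g : β × Fin r → Mx h K) (p : β × Fin r),
      (G p).map (aeval (R := ℚ) fun e : ρ => g e.1 e.2.1 e.2.2) = g p := fun g p => by
    ext i j; simp [hG]
  have hdene : ∀ {K : Type} [CommRing K] [Algebra ℚ K] (g : β × Fin r → Mx h K) (q : β × σ),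
      aeval (fun e : ρ => g e.1 e.2.1 e.2.2) (den q) = (g (q.1, q.2.1) + 1).det := fun g q => by
    rw [hden, map_det_add, hGe]
  have hnume : ∀ {K : Type} [CommRing K] [Algebra ℚ K] (g : β × Fin r → Mx h K) (q : β × σ),
      aeval (fun e : ρ => g e.1 e.2.1 e.2.2) (num q) = (Jm h K * ((g (q.1, q.2.1) - 1)
        * (g (q.1, q.2.1) + 1).adjugate)) q.2.2.out.1 q.2.2.out.2 := fun g q => by
    rw [← hGe g, ← map_cay2]; rfl
  have hydet : ∀ p, (yR p + 1).det ≠ 0 := by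
    intro p hp
    have h1 := hv (den (p.1, p.2, s(⟨0, by omega⟩, ⟨0, by omega⟩)))
      ((he2' _).trans (Nat.le_add_left _ _)) ((hdene yR _).trans hp) (fun _ => 1) fun _ => IsSp.one
    rw [hdene fun _ => (1 : Mx h ℝ)] at h1
    exact (cay_det (g := 1) (ξ := 0) (by rw [sub_zero, Matrix.mul_one, one_add_one_eq_two])).1 h1
  set yC : β × Fin r → Mx h ℂ := fun p => (yR p).map φ with hyC
  have hyCSp : ∀ p, IsSp (yC p) := fun p => (hySp p).map φ.toRingHom
  choose x hxc using fun p => cay_of_sp (hyCSp p) (by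
    rw [hyC, ← map_det_add]; simpa [hφ] using hydet p)
  have hW : ∀ p : β × Fin r, ∃ s : Mx h ℚ, (hgW α (c / F p.1 p.2)).map Complex.ofReal
      = s.map (algebraMap ℚ ℂ) * (yC p * un h ((Real.log (c / N) : ℝ) : ℂ)) := by
    intro p
    obtain ⟨h1, h2⟩ := hx p
    have hle := (hFN p.1 p.2).1
    have h3 : (1 : ℝ) - (N - F p.1 p.2 : ℕ) * (1 / N) = F p.1 p.2 / N := by
      rw [Nat.cast_sub hle]; field_simp; ring
    rw [h3] at h1 h2
    have h4 : (0 : ℝ) < F p.1 p.2 := by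
      have := mul_pos h2 hN0
      rwa [div_mul_cancel₀ _ hN0.ne'] at this
    have h5 : (c : ℝ) * (1 / N) / (F p.1 p.2 / N) = c / F p.1 p.2 := by field_simp
    rw [h5, abs_of_pos (by positivity)] at h1
    obtain ⟨s, hs⟩ := hgW_eq hh hα (z := c / F p.1 p.2)
      (by rw [← Rat.cast_pos (K := ℝ)]; push_cast; positivity)
      (by rw [← Rat.cast_lt (K := ℝ)]; push_cast; exact h1)
    refine ⟨s, ?_⟩
    push_cast at hs
    have h6 : hgV α (c / F p.1 p.2) * un h (Real.log (c / F p.1 p.2))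
        = yR p * un h (Real.log (c / N)) := by
      simp only [hyR, yv]
      rw [h3, h5, Matrix.mul_assoc, un_add, Real.log_div hc0.ne' h4.ne', Real.log_div hc0.ne' hN0.ne',
        Real.log_div h4.ne' hN0.ne']
      congr 2; ring
    rw [hs, h6]
    have h7 : ∀ M : Mx h ℝ, M.map Complex.ofReal = φ.mapMatrix M := fun M => rfl
    have h8 : φ.mapMatrix (s.map (Rat.castHom ℝ)) = s.map (algebraMap ℚ ℂ) := by
      ext i j; simp [hφ]
    have h9 : φ.mapMatrix (un h (Real.log (c / N))) = un h ((Real.log (c / N) : ℝ) : ℂ) :=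
      un_map φ _
    rw [h7, map_mul, map_mul, h8, h9]; rfl
  choose s hs using hW
  have hred : ∀ b : β, ∃ P' : MvPolynomial (Option (Fin k) ⊕ σ) ℚ, P'.totalDegree ≤ e ∧
      aeval (Sum.elim (fun o => o.elim ((Real.log (c / N) : ℝ) : ℂ) θ)
        fun q : σ => x (b, q.1) q.2) P' = 0 ∧
      ∃ x', aeval (Sum.elim (fun o => o.elim ((Real.log (c / N) : ℝ) : ℂ) θ) x') P' ≠ 0 := by
    intro b
    obtain ⟨P, hP, hP0, g, hg, hPg⟩ := hE b
    refine he θ _ (fun i => s (b, i)) (fun i => yC (b, i)) _ (fun i => hyCSp _)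
      (fun i => hxc (b, i)) P hP ?_ g hg ?_
    · rw [← hP0]
      congr 3
      funext q
      rw [← hs (b, q.1)]; rfl
    · simpa only [← hs] using hPg
  choose P' hP' hP'0 hP'1 using hred
  obtain ⟨R, hR0, hRd, hR⟩ := hD0 (τ := Option (Fin k)) (β := β) (σ := σ) (by simp) (by simp [β])
    rfl _ (fun b q => x (b, q.1) q.2) P' (fun b => (hP' b).trans (Nat.le_succ _)) hP'0 hP'1
    (fun q => x (q.1, q.2.1) q.2.2) (fun q => X (Sum.inr q.2)) (fun _ => 1) (by simp) (by simp)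
    (by simp) (by simp)
  obtain ⟨R', hR', hR'e⟩ := clear R hRd num den he2 he2'
  have h1 : aeval (fun e : ρ => yR e.1 e.2.1 e.2.2) R' = 0 := by
    have h2 := hR'e (fun e : ρ => yC e.1 e.2.1 e.2.2) (fun q => x (q.1, q.2.1) q.2.2) fun q => by
      rw [hdene, hnume]; exact cay_coord (hxc _) _
    rw [hR, mul_zero] at h2
    have h3 : φ (aeval (fun e : ρ => yR e.1 e.2.1 e.2.2) R') = 0 := by
      rw [← AlgHom.comp_apply, comp_aeval]; exact h2
    exact (map_eq_zero φ).1 h3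
  have h2 := hv R' (hR'.trans (Nat.le_add_right _ _)) h1
  set Δ : MvPolynomial (β × σ) ℚ :=
    ∏ p : β × Fin r, (1 - xi fun t => X (p.1, p.2, t) : Mx h (MvPolynomial (β × σ) ℚ)).det with hΔ
  have hΔe : ∀ z : β × σ → ℝ,
      aeval z Δ = ∏ p : β × Fin r, (1 - xi fun t => z (p.1, p.2, t)).det := fun z => by
    rw [hΔ, map_prod]
    exact Finset.prod_congr rfl fun p _ => by rw [map_det_xi]; simp
  have h3 : R * Δ = 0 := by
    apply map_injective (algebraMap ℚ ℝ) (algebraMap ℚ ℝ).injective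
    refine MvPolynomial.funext fun z => ?_
    rw [eval_map, ← aeval_def, map_zero, map_zero, map_mul]
    by_cases hz : aeval z Δ = 0
    · rw [hz, mul_zero]
    · rw [hΔe] at hz
      choose g hg hgc using fun p : β × Fin r => cay_of_xi (fun t => z (p.1, p.2, t))
        (Finset.prod_ne_zero_iff.1 hz p (Finset.mem_univ _))
      have h4 := hR'e (fun e : ρ => g e.1 e.2.1 e.2.2) z fun q => by
        rw [hdene, hnume]; exact cay_coord (hgc (q.1, q.2.1)) _
      rw [h2 g hg] at h4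
      rw [(mul_eq_zero.1 h4.symm).resolve_left (Finset.prod_ne_zero_iff.2 fun q _ =>
        pow_ne_zero _ (by rw [hdene]; exact (cay_det (hgc _)).1)), zero_mul]
  rcases mul_eq_zero.1 h3 with h4 | h4
  · exact hR0 h4
  · have := hΔe 0
    rw [h4, map_zero] at this
    have h5 : ∀ p : β × Fin r, (xi fun t => (0 : β × σ → ℝ) (p.1, p.2, t)) = (0 : Mx h ℝ) :=
      fun p => by rw [xi]; ext i j; simp [Matrix.mul_apply]
    simp only [h5, sub_zero, det_one, Finset.prod_const_one] at this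
    exact zero_ne_one this

end GPC
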