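import Pool.Agent.MP_57341d_ag.H87.Defs
import Pool.Agent.MP_57341d_ag.Mg.H87_GPoly

-- part MP_57341d_ag.H87.Basic
section

/-!
Matrices attached to the hypergeometric system.
-/

set_option autoImplicit false

namespace GPC

open PowerSeries Matrix

abbrev Mx (h : ℕ) (R : Type) : Type := Matrix (Fin (2 * h)) (Fin (2 * h)) R

/-- Symplectic matrices. -/
def IsSp {h : ℕ} {R : Type} [CommRing R] (g : Mx h R) : Prop := gᵀ * Jm h R * g = Jm h R

/-- The shift matrix. -/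
def Nm (h : ℕ) (R : Type) [CommRing R] : Mx h R :=
  Matrix.of fun i j => if (i : ℕ) + 1 = j then 1 else 0

/-- The residue at 1. -/
def Em (h : ℕ) (R : Type) [CommRing R] : Mx h R :=
  Matrix.of fun i j => if (i : ℕ) + 1 = h ∧ (j : ℕ) = h then 1 else 0

/-- exp (t N). -/
noncomputable def un (h : ℕ) {R : Type} [CommRing R] [Algebra ℚ R] (t : R) : Mx h R :=
  Matrix.of fun i j => if (i : ℕ) ≤ j then
    algebraMap ℚ R (1 / ((j : ℕ) - i).factorial) * t ^ ((j : ℕ) - i) else 0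

/-- The generator of the transvections along v. -/
def tv {h : ℕ} {R : Type} [CommRing R] (v : Fin (2 * h) → R) : Mx h R :=
  vecMulVec v (v ᵥ* Jm h R)

/-- Coefficients of the product of the w + a_i (1 - a_i). -/
noncomputable def hgC {h : ℕ} (α : Fin h → ℚ) (k : ℕ) : ℚ :=
  (∏ i, (Polynomial.X + Polynomial.C (α i * (1 - α i)))).coeff k

noncomputable def Bm {h : ℕ} (α : Fin h → ℚ) : Mx h ℚ :=
  Matrix.of fun i j => if (i : ℕ) + j + 1 = 2 * h ∧ (j : ℕ) < h then hgC α j else 0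

/-- Rows of the symplectic gauge. -/
noncomputable def hgF {h : ℕ} (α : Fin h → ℚ) (i n : ℕ) : ℚ⟦X⟧ :=
  (C (n : ℚ) + X) ^ i * hgA α n - if n = 0 then 0 else
    ∑ k ∈ (Finset.range (h + 1)).filter (fun k => 2 * h ≤ k + i),
      C (hgC α k) * (C (n : ℚ) + X) ^ (k + i - 2 * h) * (C ((n : ℚ) - 1) + X) ^ k * hgA α (n - 1)

/-- The uniform part of the fundamental solution, a matrix of power series in z. -/
noncomputable def hgU {h : ℕ} (α : Fin h → ℚ) : Mx h ℚ⟦X⟧ :=
  Matrix.of fun i j => PowerSeries.mk fun n => coeff j (hgF α i n)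

/-- Its value at a real point. -/
noncomputable def hgV {h : ℕ} (α : Fin h → ℚ) (x : ℝ) : Mx h ℝ := (hgU α).map fun f => ev f x

section Map

variable {h : ℕ} {R S : Type} [CommRing R] [CommRing S]

theorem Jm_map (φ : R →+* S) : (Jm h R).map φ = Jm h S := by
  ext i j; simp only [Jm, map_apply, of_apply]; split_ifs <;> simp

theorem Nm_map (φ : R →+* S) : (Nm h R).map φ = Nm h S := by
  ext i j; simp only [Nm, map_apply, of_apply]; split_ifs <;> simp

theorem Em_map (φ : R →+* S) : (Em h R).map φ = Em h S := by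
  ext i j; simp only [Em, map_apply, of_apply]; split_ifs <;> simp

theorem un_map [Algebra ℚ R] [Algebra ℚ S] (φ : R →ₐ[ℚ] S) (t : R) :
    (un h t).map φ = un h (φ t) := by
  ext i j; simp only [un, map_apply, of_apply]; split_ifs <;> simp

theorem IsSp.map {g : Mx h R} (hg : IsSp g) (φ : R →+* S) : IsSp (g.map φ) := by
  unfold IsSp at *
  rw [← Jm_map φ, ← transpose_map, ← Matrix.map_mul, ← Matrix.map_mul, hg]

theorem IsSp.one : IsSp (1 : Mx h R) := by simp [IsSp]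

theorem IsSp.mul {g g' : Mx h R} (hg : IsSp g) (hg' : IsSp g') : IsSp (g * g') := by
  unfold IsSp at *
  calc (g * g')ᵀ * Jm h R * (g * g') = g'ᵀ * (gᵀ * Jm h R * g) * g' := by
        simp only [transpose_mul, Matrix.mul_assoc]
    _ = Jm h R := by rw [hg, hg']

theorem Jm_mul_apply (A : Mx h R) (i j : Fin (2 * h)) :
    (Jm h R * A) i j = (-1) ^ (i : ℕ) * A i.rev j := by
  rw [mul_apply, Finset.sum_eq_single i.rev]
  · have := i.2
    simp only [Jm, of_apply, Fin.val_rev]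
    rw [if_pos (by omega)]
  · intro l _ hl
    have : ¬ ((i : ℕ) + l + 1 = 2 * h) := fun hc => hl (Fin.ext (by rw [Fin.val_rev]; omega))
    simp [Jm, this]
  · simp

theorem mul_Jm_apply (A : Mx h R) (i j : Fin (2 * h)) :
    (A * Jm h R) i j = -((-1) ^ (j : ℕ) * A i j.rev) := by
  rw [mul_apply, Finset.sum_eq_single j.rev]
  · have := j.2
    simp only [Jm, of_apply, Fin.val_rev]
    rw [if_pos (by omega)]
    have h1 : ((-1 : R)) ^ (2 * h - (j + 1)) * (-1) ^ ((j : ℕ) + 1) = 1 := by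
      rw [← pow_add, Nat.sub_add_cancel (by omega), pow_mul]; simp
    have h2 : ((-1 : R)) ^ ((j : ℕ) + 1) * (-1) ^ ((j : ℕ) + 1) = 1 := by
      rw [← mul_pow]; simp
    have h3 : ((-1 : R)) ^ (2 * h - (j + 1)) = (-1) ^ ((j : ℕ) + 1) := by
      linear_combination (-1 : R) ^ ((j : ℕ) + 1) * h1 - (-1 : R) ^ (2 * h - (j + 1)) * h2
    rw [h3]; ring
  · intro l _ hl
    have : ¬ ((l : ℕ) + j + 1 = 2 * h) := fun hc => hl (Fin.ext (by rw [Fin.val_rev]; omega))
    simp [Jm, this]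
  · simp

theorem Jm_transpose : (Jm h R)ᵀ = -Jm h R := by
  ext i j
  have h1 := Jm_mul_apply (1 : Mx h R) j i
  have h2 := mul_Jm_apply (1 : Mx h R) i j
  rw [Matrix.mul_one] at h1
  rw [Matrix.one_mul] at h2
  rw [transpose_apply, neg_apply, h1, h2, neg_neg]
  simp only [one_apply, eq_comm]

theorem Jm_mul_Jm : Jm h R * Jm h R = -1 := by
  ext i j
  have h2 := mul_Jm_apply (1 : Mx h R) i.rev j
  rw [Matrix.one_mul] at h2
  rw [Jm_mul_apply, h2]
  by_cases hij : i = j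
  · subst hij
    simp [← mul_pow]
  · simp [one_apply, hij, Fin.rev_inj]

/-- The inverse of a symplectic matrix. -/
theorem IsSp.inv_mul {g : Mx h R} (hg : IsSp g) : -(Jm h R * gᵀ * Jm h R) * g = 1 := by
  unfold IsSp at hg
  rw [Matrix.neg_mul, Matrix.mul_assoc (Jm h R), Matrix.mul_assoc (Jm h R), hg, Jm_mul_Jm, neg_neg]

theorem IsSp.mul_inv {g : Mx h R} (hg : IsSp g) : g * -(Jm h R * gᵀ * Jm h R) = 1 :=
  mul_eq_one_comm.1 hg.inv_mul

theorem IsSp.inv {g : Mx h R} (hg : IsSp g) : IsSp (-(Jm h R * gᵀ * Jm h R)) := by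
  have h1 := hg.mul_inv
  set g' := -(Jm h R * gᵀ * Jm h R)
  unfold IsSp at *
  calc g'ᵀ * Jm h R * g' = g'ᵀ * (gᵀ * Jm h R * g) * g' := by rw [hg]
    _ = (g * g')ᵀ * Jm h R * (g * g') := by simp only [transpose_mul, Matrix.mul_assoc]
    _ = Jm h R := by rw [h1]; simp

theorem un_zero [Algebra ℚ R] : un h (0 : R) = 1 := by
  ext i j
  simp only [un, of_apply, one_apply]
  rcases lt_trichotomy (i : ℕ) j with hl | hl | hl
  · rw [if_pos hl.le, if_neg (fun hc => by rw [hc] at hl; omega), zero_pow (by omega), mul_zero]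
  · rw [if_pos hl.le, if_pos (Fin.ext hl), hl]; simp
  · rw [if_neg (by omega), if_neg (fun hc => by rw [hc] at hl; omega)]

theorem un_add [Algebra ℚ R] (s t : R) : un h s * un h t = un h (s + t) := by
  ext i j
  simp only [un, mul_apply, of_apply]
  rw [Fin.sum_univ_eq_sum_range (fun l => (if (i : ℕ) ≤ l then
    algebraMap ℚ R (1 / (l - i).factorial) * s ^ (l - i) else 0) * (if l ≤ (j : ℕ) then
    algebraMap ℚ R (1 / ((j : ℕ) - l).factorial) * t ^ ((j : ℕ) - l) else 0))]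
  split_ifs with hij
  · obtain ⟨d, hd⟩ := Nat.exists_eq_add_of_le hij
    have hj := j.2
    rw [add_pow, Finset.mul_sum, hd, Nat.add_sub_cancel_left]
    symm
    refine Finset.sum_bij_ne_zero (fun l _ _ => i + l) ?_ ?_ ?_ ?_
    · intro l hl _; simp only [Finset.mem_range] at *; omega
    · intro a _ _ b _ _ hab; omega
    · intro l hl hne
      have h1 : (i : ℕ) ≤ l := by by_contra hc; simp [hc] at hne
      have h2 : l ≤ i + d := by by_contra hc; simp [hc] at hne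
      have key : algebraMap ℚ R (1 / d.factorial) * (s ^ (l - i) * t ^ (d - (l - i))
          * (d.choose (l - i) : R)) = (if (i : ℕ) ≤ l then
          algebraMap ℚ R (1 / (l - i).factorial) * s ^ (l - i) else 0) * (if l ≤ i + d then
          algebraMap ℚ R (1 / (i + d - l).factorial) * t ^ (i + d - l) else 0) := by
        rw [if_pos h1, if_pos h2, show i + d - l = d - (l - i) by omega]
        have : (1 / d.factorial : ℚ) * (d.choose (l - i) : ℚ)
            = 1 / (l - i).factorial * (1 / (d - (l - i)).factorial) := by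
          rw [Nat.cast_choose ℚ (by omega : l - i ≤ d)]; field_simp
        have h3 := congrArg (algebraMap ℚ R) this
        rw [map_mul, map_mul, map_natCast] at h3
        linear_combination (s ^ (l - i) * t ^ (d - (l - i))) * h3
      refine ⟨l - i, by simp only [Finset.mem_range]; omega, by rw [key]; exact hne, by omega⟩
    · intro l hl _
      simp only [Finset.mem_range] at hl
      rw [if_pos (by omega), if_pos (by omega), Nat.add_sub_cancel_left,
        show i + d - (i + l) = d - l by omega]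
      have : (1 / d.factorial : ℚ) * (d.choose l : ℚ)
          = 1 / l.factorial * (1 / (d - l).factorial) := by
        rw [Nat.cast_choose ℚ (by omega : l ≤ d)]; field_simp
      have h3 := congrArg (algebraMap ℚ R) this
      rw [map_mul, map_mul, map_natCast] at h3
      linear_combination (s ^ l * t ^ (d - l)) * h3
  · refine Finset.sum_eq_zero fun l _ => ?_
    by_cases h1 : (i : ℕ) ≤ l
    · rw [if_neg (by omega : ¬ l ≤ (j : ℕ)), mul_zero]
    · rw [if_neg h1, zero_mul]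

theorem un_isSp [Algebra ℚ R] (t : R) : IsSp (un h t) := by
  have key : (un h t)ᵀ * Jm h R = Jm h R * un h (-t) := by
    ext i j
    have hi := i.2
    have hj := j.2
    rw [mul_Jm_apply, Jm_mul_apply, transpose_apply]
    simp only [un, of_apply, Fin.val_rev]
    by_cases hc : 2 * h - (j + 1) ≤ i
    · rw [if_pos hc, if_pos (by omega),
        show (j : ℕ) - (2 * h - (i + 1)) = i - (2 * h - (j + 1)) by omega, neg_pow t]
      set e := (i : ℕ) - (2 * h - (j + 1)) with he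
      have h1 : ((-1 : R)) ^ (i : ℕ) * (-1) ^ e * ((-1) ^ (j : ℕ) * (-1)) = 1 := by
        rw [← pow_succ, ← pow_add, ← pow_add, show i + e + (j + 1) = 2 * (h + e) by omega, pow_mul]
        simp
      have h2 : ((-1 : R)) ^ (j : ℕ) * (-1) ^ (j : ℕ) = 1 := by rw [← mul_pow]; simp
      have h3 : ((-1 : R)) ^ (i : ℕ) * (-1) ^ e = -(-1) ^ (j : ℕ) := by
        linear_combination (-(-1 : R) ^ (j : ℕ)) * h1 - ((-1 : R) ^ (i : ℕ) * (-1) ^ e) * h2
      linear_combination (-(algebraMap ℚ R (1 / e.factorial) * t ^ e)) * h3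
    · rw [if_neg hc, if_neg (by omega)]; simp
  rw [IsSp, key, Matrix.mul_assoc, un_add, neg_add_cancel, un_zero, Matrix.mul_one]

end Map

end GPC

end

-- part MP_57341d_ag.H87.HGA
section

set_option autoImplicit false

namespace GPC

open PowerSeries Matrix

variable {h : ℕ} {α : Fin h → ℚ}

section Apply

variable {R : Type} [CommRing R]

theorem Nm_mul_apply (A : Mx h R) (i j : Fin (2 * h)) :
    (Nm h R * A) i j = if hi : (i : ℕ) + 1 < 2 * h then A ⟨i + 1, hi⟩ j else 0 := by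
  rw [mul_apply]
  split_ifs with hi
  · rw [Finset.sum_eq_single ⟨i + 1, hi⟩]
    · simp [Nm]
    · intro l _ hl
      have : ¬ ((i : ℕ) + 1 = l) := fun hc => hl (Fin.ext hc.symm)
      simp [Nm, this]
    · simp
  · refine Finset.sum_eq_zero fun l _ => ?_
    have : ¬ ((i : ℕ) + 1 = l) := fun hc => hi (hc ▸ l.2)
    simp [Nm, this]

theorem mul_Nm_apply (A : Mx h R) (i j : Fin (2 * h)) :
    (A * Nm h R) i j = if (j : ℕ) = 0 then 0 else A i ⟨j - 1, by have := j.2; omega⟩ := by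
  rw [mul_apply]
  split_ifs with hj
  · refine Finset.sum_eq_zero fun l _ => ?_
    have : ¬ ((l : ℕ) + 1 = j) := by omega
    simp [Nm, this]
  · rw [Finset.sum_eq_single ⟨j - 1, by have := j.2; omega⟩]
    · have : (j : ℕ) - 1 + 1 = j := by omega
      simp [Nm, this]
    · intro l _ hl
      have : ¬ ((l : ℕ) + 1 = j) := fun hc => hl (Fin.ext (by simp only; omega))
      simp [Nm, this]
    · simp

theorem Nmt_mul_apply (A : Mx h R) (i j : Fin (2 * h)) :
    ((Nm h R)ᵀ * A) i j = if (i : ℕ) = 0 then 0 else A ⟨i - 1, by have := i.2; omega⟩ j := by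
  have := mul_Nm_apply Aᵀ j i
  rw [← transpose_apply (Aᵀ * Nm h R), transpose_mul, transpose_transpose] at this
  rw [this]; rfl

theorem Em_mul_apply (hh : 1 ≤ h) (A : Mx h R) (i j : Fin (2 * h)) :
    (Em h R * A) i j = if (i : ℕ) + 1 = h then A ⟨h, by omega⟩ j else 0 := by
  rw [mul_apply]
  split_ifs with hi
  · rw [Finset.sum_eq_single ⟨h, by omega⟩]
    · simp [Em, hi]
    · intro l _ hl
      have : ¬ ((l : ℕ) = h) := fun hc => hl (Fin.ext hc)
      simp [Em, this]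
    · simp
  · refine Finset.sum_eq_zero fun l _ => ?_
    simp [Em, hi]

end Apply

theorem Bm_mul_apply (A : Mx h ℚ⟦X⟧) (i j : Fin (2 * h)) :
    ((Bm α).map C * A) i j = if (i.rev : ℕ) < h then C (hgC α i.rev) * A i.rev j else 0 := by
  rw [mul_apply, Finset.sum_eq_single i.rev]
  · have := i.2
    have e : (i : ℕ) + (i.rev : ℕ) + 1 = 2 * h := by rw [Fin.val_rev]; omega
    simp only [Bm, map_apply, of_apply, e, true_and]
    split_ifs <;> simp
  · intro l _ hl
    have : ¬ ((i : ℕ) + l + 1 = 2 * h) := fun hc => hl (Fin.ext (by rw [Fin.val_rev]; omega))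
    simp [Bm, this]
  · simp

/-- the series n + e -/
noncomputable def hgS (n : ℕ) : ℚ⟦X⟧ := C (n : ℚ) + X

theorem hgF_zero' (i : ℕ) : hgF α i 0 = X ^ i := by
  simp [hgF, hgA]

theorem hgF_succ (i n : ℕ) : hgF α i (n + 1) = hgS (n + 1) ^ i * hgA α (n + 1) -
    ∑ k ∈ (Finset.range (h + 1)).filter (fun k => 2 * h ≤ k + i),
      C (hgC α k) * hgS (n + 1) ^ (k + i - 2 * h) * hgS n ^ k * hgA α n := by
  simp [hgF, hgS]

theorem hgF_low {k : ℕ} (hk : k < h) (n : ℕ) : hgF α k n = hgS n ^ k * hgA α n := by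
  have : (Finset.range (h + 1)).filter (fun l => 2 * h ≤ l + k) = ∅ := by
    rw [Finset.filter_eq_empty_iff]
    intro l hl
    simp only [Finset.mem_range] at hl
    omega
  simp [hgF, hgS, this]

theorem hgP_monic : (∏ i, (Polynomial.X + Polynomial.C (α i * (1 - α i)))).Monic :=
  Polynomial.monic_prod_of_monic _ _ fun _ _ => Polynomial.monic_X_add_C _

theorem hgP_natDegree : (∏ i, (Polynomial.X + Polynomial.C (α i * (1 - α i)))).natDegree = h := by
  rw [Polynomial.natDegree_prod_of_monic _ _ fun _ _ => Polynomial.monic_X_add_C _]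
  simp only [Polynomial.natDegree_X_add_C]
  simp

theorem hgC_top : hgC α h = 1 := by
  have := (hgP_monic (α := α)).coeff_natDegree
  rwa [hgP_natDegree] at this

theorem hgC_sum (w : ℚ⟦X⟧) : ∏ i, (w + C (α i * (1 - α i))) =
    ∑ k ∈ Finset.range (h + 1), C (hgC α k) * w ^ k := by
  have h1 := Polynomial.eval₂_eq_sum_range' (C : ℚ →+* ℚ⟦X⟧)
    (p := ∏ i, (Polynomial.X + Polynomial.C (α i * (1 - α i)))) (n := h + 1)
    (by rw [hgP_natDegree]; omega) w
  rw [Polynomial.eval₂_finsetProd] at h1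
  simp only [Polynomial.eval₂_add, Polynomial.eval₂_X, Polynomial.eval₂_C] at h1
  exact h1

theorem hgS_succ (n : ℕ) : hgS (n + 1) = hgS n + 1 := by
  simp only [hgS, Nat.cast_succ, map_add, map_one]; ring

theorem hgA_rec (n : ℕ) : hgS (n + 1) ^ (2 * h) * hgA α (n + 1) =
    ∑ k ∈ Finset.range (h + 1), C (hgC α k) * hgS (n + 1) ^ k * hgS n ^ k * hgA α n := by
  have h1 : hgA α (n + 1) = hgA α n * ((∏ i, (hgS (n + 1) * hgS n + C (α i * (1 - α i)))) *
      (hgS (n + 1) ^ (2 * h))⁻¹) := by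
    rw [hgA, Finset.prod_range_succ, ← hgA]
    congr 2
    · refine Finset.prod_congr rfl fun i _ => ?_
      simp only [hgS, Nat.cast_succ, map_add, map_sub, map_mul, map_one]
      ring
    · simp [hgS]
  have h2 : hgS (n + 1) ^ (2 * h) * (hgS (n + 1) ^ (2 * h))⁻¹ = 1 := by
    refine PowerSeries.mul_inv_cancel _ ?_
    rw [map_pow]
    refine pow_ne_zero _ ?_
    simp only [hgS, map_add, constantCoeff_C, constantCoeff_X, add_zero]
    positivity
  rw [h1, hgC_sum, ← Finset.sum_mul]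
  simp only [mul_pow, ← mul_assoc]
  set S := ∑ k ∈ Finset.range (h + 1), C (hgC α k) * hgS (n + 1) ^ k * hgS n ^ k
  linear_combination (hgA α n * S) * h2

theorem hgF_top (n : ℕ) : hgF α (2 * h) (n + 1) = 0 := by
  rw [hgF_succ, hgA_rec, Finset.filter_true_of_mem fun k _ => by omega, sub_eq_zero]
  refine Finset.sum_congr rfl fun k _ => ?_
  rw [Nat.add_sub_cancel]

theorem hgF_row {i k : ℕ} (hik : i + k + 1 = 2 * h) (n : ℕ) :
    hgS (n + 1) * hgF α i (n + 1) = hgF α (i + 1) (n + 1) +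
      if k ≤ h then C (hgC α k) * hgS n ^ k * hgA α n else 0 := by
  have hs : hgS (n + 1) * ∑ l ∈ (Finset.range (h + 1)).filter (fun l => 2 * h ≤ l + i),
      C (hgC α l) * hgS (n + 1) ^ (l + i - 2 * h) * hgS n ^ l * hgA α n =
      ∑ l ∈ (Finset.range (h + 1)).filter (fun l => 2 * h ≤ l + i),
      C (hgC α l) * hgS (n + 1) ^ (l + (i + 1) - 2 * h) * hgS n ^ l * hgA α n := by
    rw [Finset.mul_sum]
    refine Finset.sum_congr rfl fun l hl => ?_
    have := (Finset.mem_filter.1 hl).2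
    rw [show l + (i + 1) - 2 * h = l + i - 2 * h + 1 by omega]
    ring
  rw [hgF_succ, hgF_succ, mul_sub, hs]
  split_ifs with hk
  · have e : (Finset.range (h + 1)).filter (fun l => 2 * h ≤ l + (i + 1)) =
        insert k ((Finset.range (h + 1)).filter (fun l => 2 * h ≤ l + i)) := by
      ext l
      simp only [Finset.mem_filter, Finset.mem_range, Finset.mem_insert]
      omega
    rw [e, Finset.sum_insert (by simp only [Finset.mem_filter, Finset.mem_range]; omega),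
      show k + (i + 1) - 2 * h = 0 by omega]
    ring
  · have e : (Finset.range (h + 1)).filter (fun l => 2 * h ≤ l + (i + 1)) =
        (Finset.range (h + 1)).filter (fun l => 2 * h ≤ l + i) := by
      ext l
      simp only [Finset.mem_filter, Finset.mem_range]
      omega
    rw [e]
    ring

theorem hgU_zero (hh : 1 ≤ h) (i j : Fin (2 * h)) : coeff 0 (hgU α i j) = (1 : Mx h ℚ) i j := by
  simp only [hgU, of_apply, coeff_mk, hgF_zero', coeff_X_pow, one_apply, Fin.ext_iff, eq_comm]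

theorem hgU_left (i j : Fin (2 * h)) : X * d⁄dX ℚ (hgU α i j) + (hgU α * Nm h ℚ⟦X⟧) i j =
    PowerSeries.mk fun n => coeff j (hgS n * hgF α i n) := by
  ext n
  have h1 : coeff n (X * d⁄dX ℚ (hgU α i j)) = n * coeff j (hgF α i n) := by
    cases n with
    | zero => simp
    | succ n =>
      rw [coeff_succ_X_mul, coeff_derivative]
      simp only [hgU, of_apply, coeff_mk]
      push_cast; ring
  rw [map_add, h1, coeff_mk, hgS, add_mul, map_add, coeff_C_mul, mul_Nm_apply]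
  congr 1
  split_ifs with hj
  · rw [hj]; simp
  · obtain ⟨l, hl⟩ := Nat.exists_eq_succ_of_ne_zero hj
    simp only [hgU, of_apply, coeff_mk]
    rw [hl, coeff_succ_X_mul]
    rfl

theorem hgU_up (i j : Fin (2 * h)) : (Nm h ℚ⟦X⟧ * hgU α) i j =
    PowerSeries.mk fun n => coeff j (hgF α (i + 1) n) := by
  rw [Nm_mul_apply]
  split_ifs with hi
  · rfl
  · have e : (i : ℕ) + 1 = 2 * h := by have := i.2; omega
    ext n
    rw [e, coeff_mk, map_zero]
    cases n with
    | zero => rw [hgF_zero', coeff_X_pow, if_neg j.2.ne]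
    | succ n => rw [hgF_top, map_zero]

theorem hgS_zero_row (i : ℕ) : hgS 0 * hgF α i 0 = hgF α (i + 1) 0 := by
  simp [hgF_zero', hgS, pow_succ']

/-- The differential system, cleared of denominators. -/
theorem hgU_ode (hh : 1 ≤ h) :
    ((1 - X) * X : ℚ⟦X⟧) • (hgU α).map (d⁄dX ℚ)
      = ((1 - X : ℚ⟦X⟧) • (Nm h ℚ⟦X⟧ + (X : ℚ⟦X⟧) • (Bm α).map C) + (X : ℚ⟦X⟧) • Em h ℚ⟦X⟧) * hgU α
        - (1 - X : ℚ⟦X⟧) • (hgU α * Nm h ℚ⟦X⟧) := by
  refine Matrix.ext fun i j => ?_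
  simp only [Matrix.add_mul, Matrix.smul_mul, Matrix.add_apply, Matrix.sub_apply,
    Matrix.smul_apply, smul_eq_mul, map_apply]
  have h1 := hgU_left (α := α) i j
  have hi := i.2
  have hik : (i : ℕ) + (i.rev : ℕ) + 1 = 2 * h := by rw [Fin.val_rev]; omega
  rw [hgU_up, Bm_mul_apply, Em_mul_apply hh]
  set T := PowerSeries.mk fun n => coeff j (hgS n * hgF α i n) with hT
  set V := PowerSeries.mk fun n => coeff j (hgF α (i + 1) n) with hV
  by_cases hc : (i : ℕ) + 1 = h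
  · have h2 : T = V + X * T := by
      ext n
      cases n with
      | zero => simp only [hT, hV, map_add, coeff_mk, coeff_zero_X_mul, add_zero, hgS_zero_row]
      | succ n =>
        have e : (i.rev : ℕ) = h := by omega
        simp only [hT, hV, map_add, coeff_mk, coeff_succ_X_mul]
        rw [hgF_row hik, map_add, e, if_pos le_rfl, hgC_top, map_one, one_mul,
          hgF_low (by omega : (i : ℕ) < h), ← mul_assoc, ← pow_succ', hc]
    have h3 : hgU α ⟨h, by omega⟩ j = V := by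
      rw [hV, hc]; rfl
    rw [if_neg (by omega), if_pos hc, h3]
    linear_combination (1 - X) * h1 + h2
  · have h2 : T = V + X * (if (i.rev : ℕ) < h then C (hgC α i.rev) * hgU α i.rev j else 0) := by
      ext n
      cases n with
      | zero => simp only [hT, hV, map_add, coeff_mk, coeff_zero_X_mul, add_zero, hgS_zero_row]
      | succ n =>
        simp only [hT, hV, map_add, coeff_mk, coeff_succ_X_mul]
        rw [hgF_row hik, map_add]
        congr 1
        by_cases hk : (i.rev : ℕ) < h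
        · rw [if_pos hk.le, if_pos hk, mul_assoc, coeff_C_mul, coeff_C_mul, ← hgF_low hk]
          simp only [hgU, of_apply, coeff_mk]
        · rw [if_neg (by omega), if_neg hk, map_zero, map_zero]
    rw [if_neg hc]
    linear_combination (1 - X) * h1 + (1 - X) * h2

theorem neg_one_pow_rev {R : Type} [CommRing R] {a b : ℕ} (hab : Odd (a + b)) :
    (-1 : R) ^ a = -(-1) ^ b := by
  rcases Nat.even_or_odd a with ha | ha
  · have hb : Odd b := (Nat.odd_add'.1 hab).2 ha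
    rw [ha.neg_one_pow, hb.neg_one_pow, neg_neg]
  · have hb : Even b := (Nat.odd_add.1 hab).1 ha
    rw [ha.neg_one_pow, hb.neg_one_pow]

theorem Nm_sp {R : Type} [CommRing R] : (Nm h R)ᵀ * Jm h R + Jm h R * Nm h R = 0 := by
  ext i j
  have hi := i.2
  have hj := j.2
  rw [Matrix.add_apply, mul_Jm_apply, Jm_mul_apply, transpose_apply]
  simp only [Nm, of_apply, Fin.val_rev, Matrix.zero_apply]
  by_cases hc : (i : ℕ) + j = 2 * h
  · rw [if_pos (by omega), if_pos (by omega)]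
    have h1 : (-1 : R) ^ (i : ℕ) = -(-1) ^ ((j : ℕ) + 1) :=
      neg_one_pow_rev ⟨h, by omega⟩
    rw [h1]; ring
  · rw [if_neg (by omega), if_neg (by omega)]; ring

theorem Em_sp {R : Type} [CommRing R] (hh : 1 ≤ h) :
    (Em h R)ᵀ * Jm h R + Jm h R * Em h R = 0 := by
  ext i j
  have hi := i.2
  have hj := j.2
  rw [Matrix.add_apply, mul_Jm_apply, Jm_mul_apply, transpose_apply]
  simp only [Em, of_apply, Fin.val_rev, Matrix.zero_apply]
  by_cases hc : (i : ℕ) = h ∧ (j : ℕ) = h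
  · rw [if_pos (by omega), if_pos (by omega), hc.1, hc.2]; ring
  · rw [if_neg (by omega), if_neg (by omega)]; ring

theorem Bm_sp : (Bm α)ᵀ * Jm h ℚ + Jm h ℚ * Bm α = 0 := by
  ext i j
  have hi := i.2
  have hj := j.2
  rw [Matrix.add_apply, mul_Jm_apply, Jm_mul_apply, transpose_apply]
  simp only [Bm, of_apply, Fin.val_rev, Matrix.zero_apply]
  by_cases hc : (i : ℕ) = j ∧ (j : ℕ) < h
  · rw [if_pos (by omega), if_pos (by omega), hc.1]; ring
  · rw [if_neg (by omega), if_neg (by omega)]; ring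

theorem deriv_mx_mul (A B : Mx h ℚ⟦X⟧) :
    (A * B).map (d⁄dX ℚ) = A.map (d⁄dX ℚ) * B + A * B.map (d⁄dX ℚ) := by
  refine Matrix.ext fun i j => ?_
  simp only [map_apply, Matrix.add_apply, mul_apply, map_sum, Derivation.leibniz, smul_eq_mul,
    ← Finset.sum_add_distrib]
  exact Finset.sum_congr rfl fun l _ => by ring

theorem Jm_eq_C (i j : Fin (2 * h)) : Jm h ℚ⟦X⟧ i j = C (Jm h ℚ i j) := by
  rw [← Jm_map (C : ℚ →+* ℚ⟦X⟧), map_apply]

theorem deriv_Jm : (Jm h ℚ⟦X⟧).map (d⁄dX ℚ) = 0 := by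
  refine Matrix.ext fun i j => ?_
  rw [map_apply, Jm_eq_C, derivative_C, Matrix.zero_apply]

theorem hgU_isSp (hh : 1 ≤ h) : IsSp (hgU α) := by
  set U := hgU α with hU
  set J := Jm h ℚ⟦X⟧ with hJ
  set N := Nm h ℚ⟦X⟧ with hN
  set M := (1 - X : ℚ⟦X⟧) • (N + (X : ℚ⟦X⟧) • (Bm α).map C) + (X : ℚ⟦X⟧) • Em h ℚ⟦X⟧ with hM
  have hB : ((Bm α).map C)ᵀ * J + J * (Bm α).map C = 0 := by
    have := congrArg (fun A => A.map (C : ℚ →+* ℚ⟦X⟧)) (Bm_sp (α := α))
    simp only [Matrix.map_add _ (map_add _), Matrix.map_mul, Jm_map, transpose_map,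
      Matrix.map_zero _ (map_zero _)] at this
    exact this
  have hMs : Mᵀ * J + J * M = 0 := by
    have e : Mᵀ * J + J * M = (1 - X : ℚ⟦X⟧) • ((Nᵀ * J + J * N) + (X : ℚ⟦X⟧) •
        (((Bm α).map C)ᵀ * J + J * (Bm α).map C)) +
        (X : ℚ⟦X⟧) • ((Em h ℚ⟦X⟧)ᵀ * J + J * Em h ℚ⟦X⟧) := by
      simp only [hM, transpose_add, transpose_smul, Matrix.add_mul, Matrix.mul_add,
        Matrix.smul_mul, Matrix.mul_smul, smul_add]
      abel
    rw [e, hB, Nm_sp, Em_sp hh]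
    simp
  have hode : ((1 - X) * X : ℚ⟦X⟧) • U.map (d⁄dX ℚ) = M * U - (1 - X : ℚ⟦X⟧) • (U * N) :=
    hgU_ode hh
  set W := Uᵀ * J * U with hW
  have hWd : ((1 - X) * X : ℚ⟦X⟧) • W.map (d⁄dX ℚ) = -((1 - X : ℚ⟦X⟧) • (Nᵀ * W + W * N)) := by
    have e1 : W.map (d⁄dX ℚ) = (U.map (d⁄dX ℚ))ᵀ * J * U + Uᵀ * J * U.map (d⁄dX ℚ) := by
      rw [hW, deriv_mx_mul, deriv_mx_mul, hJ, deriv_Jm, Matrix.mul_zero, add_zero, transpose_map]
    have e2 : ((1 - X) * X : ℚ⟦X⟧) • W.map (d⁄dX ℚ) =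
        (((1 - X) * X : ℚ⟦X⟧) • U.map (d⁄dX ℚ))ᵀ * J * U +
          Uᵀ * J * (((1 - X) * X : ℚ⟦X⟧) • U.map (d⁄dX ℚ)) := by
      rw [e1, smul_add, transpose_smul, Matrix.smul_mul, Matrix.smul_mul, Matrix.mul_smul]
    have e3 : Uᵀ * (Mᵀ * J + J * M) * U = 0 := by rw [hMs]; simp
    rw [e2, hode, ← sub_eq_zero, ← e3]
    simp only [hW, transpose_sub, transpose_smul, transpose_mul, Matrix.sub_mul, Matrix.mul_sub,
      Matrix.add_mul, Matrix.mul_add, Matrix.smul_mul, Matrix.mul_smul, smul_add, Matrix.mul_assoc]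
    abel
  have hX : (1 - X : ℚ⟦X⟧) ≠ 0 := fun hc => by simpa using congrArg constantCoeff hc
  have hent : ∀ i j, X * d⁄dX ℚ (W i j) = -((Nᵀ * W) i j + (W * N) i j) := fun i j => by
    have := congrFun (congrFun hWd i) j
    simp only [Matrix.smul_apply, map_apply, smul_eq_mul, Matrix.neg_apply, Matrix.add_apply] at this
    apply mul_left_cancel₀ hX
    linear_combination this
  have hpos : ∀ n s : ℕ, ∀ i j : Fin (2 * h), (i : ℕ) + j = s → coeff (n + 1) (W i j) = 0 := by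
    intro n s
    induction s using Nat.strong_induction_on with
    | _ s ih =>
      intro i j hs
      have h1 := congrArg (coeff (n + 1)) (hent i j)
      have h2 : coeff (n + 1) ((Nᵀ * W) i j) = 0 := by
        rw [Nmt_mul_apply]
        split_ifs with hi
        · simp
        · exact ih _ (by simp only; omega) _ _ rfl
      have h3 : coeff (n + 1) ((W * N) i j) = 0 := by
        rw [mul_Nm_apply]
        split_ifs with hj
        · simp
        · exact ih _ (by simp only; omega) _ _ rfl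
      rw [coeff_succ_X_mul, coeff_derivative, map_neg, map_add, h2, h3, add_zero, neg_zero] at h1
      exact (mul_eq_zero.1 h1).resolve_right (by positivity)
  have h0 : U.map (constantCoeff : ℚ⟦X⟧ →+* ℚ) = 1 := by
    ext i j
    rw [map_apply, ← coeff_zero_eq_constantCoeff_apply]
    exact hgU_zero hh i j
  have h1 : W.map (constantCoeff : ℚ⟦X⟧ →+* ℚ) = Jm h ℚ := by
    rw [hW, Matrix.map_mul, Matrix.map_mul, transpose_map, h0, hJ, Jm_map]
    simp
  change W = J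
  refine Matrix.ext fun i j => ?_
  rw [hJ, Jm_eq_C]
  ext n
  cases n with
  | zero => rw [coeff_zero_eq_constantCoeff_apply, ← h1, map_apply]; simp
  | succ n => rw [hpos n _ i j rfl, coeff_succ_C]

theorem coeff_prod_nonneg {ι : Type} (b : ι → ℚ) (hb : ∀ i, 0 ≤ b i) (s : Finset ι) (k : ℕ) :
    0 ≤ (∏ i ∈ s, (Polynomial.X + Polynomial.C (b i))).coeff k := by
  classical
  induction s using Finset.induction_on generalizing k with
  | empty =>
    rw [Finset.prod_empty, Polynomial.coeff_one]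
    split_ifs <;> norm_num
  | insert a s ha ih =>
    rw [Finset.prod_insert ha, Polynomial.coeff_mul]
    refine Finset.sum_nonneg fun p _ => mul_nonneg ?_ (ih _)
    rw [Polynomial.coeff_add, Polynomial.coeff_X, Polynomial.coeff_C]
    have := hb a
    split_ifs <;> linarith

theorem hgC_nonneg (hα : ∀ i, 0 < α i ∧ α i < 1) (k : ℕ) : 0 ≤ hgC α k :=
  coeff_prod_nonneg _ (fun i => mul_nonneg (hα i).1.le (sub_nonneg.2 (hα i).2.le)) _ k

theorem hgC_zero_pos (hα : ∀ i, 0 < α i ∧ α i < 1) : 0 < hgC α 0 := by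
  rw [hgC, Polynomial.coeff_zero_eq_eval_zero, Polynomial.eval_prod]
  refine Finset.prod_pos fun i _ => ?_
  simp only [Polynomial.eval_add, Polynomial.eval_X, Polynomial.eval_C, zero_add]
  exact mul_pos (hα i).1 (sub_pos.2 (hα i).2)

theorem hgA_pos (hα : ∀ i, 0 < α i ∧ α i < 1) (n : ℕ) : 0 < constantCoeff (hgA α n) := by
  rw [hgA, map_prod]
  refine Finset.prod_pos fun k _ => ?_
  simp only [map_mul, map_prod, map_add, constantCoeff_C, constantCoeff_X, add_zero,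
    constantCoeff_inv, map_pow]
  refine mul_pos (Finset.prod_pos fun i _ => ?_) (by positivity)
  have h1 := (hα i).1
  have h2 := (hα i).2
  have h3 : (0 : ℚ) ≤ k := Nat.cast_nonneg k
  exact mul_pos (by linarith) (by linarith)

theorem hgF_mid (n : ℕ) : ((n : ℚ) + 1) ^ h * coeff 0 (hgF α h (n + 1)) =
    ∑ k ∈ Finset.range h, hgC α k * ((n : ℚ) + 1) ^ k * (n : ℚ) ^ k * constantCoeff (hgA α n) := by
  have e : (Finset.range (h + 1)).filter (fun k => 2 * h ≤ k + h) = {h} := by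
    ext l
    simp only [Finset.mem_filter, Finset.mem_range, Finset.mem_singleton]
    omega
  have h1 : hgS (n + 1) ^ h * hgF α h (n + 1) =
      ∑ k ∈ Finset.range h, C (hgC α k) * hgS (n + 1) ^ k * hgS n ^ k * hgA α n := by
    have h2 := hgA_rec (α := α) n
    rw [Finset.sum_range_succ] at h2
    rw [hgF_succ, e, Finset.sum_singleton, show h + h - 2 * h = 0 by omega]
    linear_combination h2
  have h2 := congrArg constantCoeff h1
  simp only [map_mul, map_sum, map_pow, hgS, map_add, constantCoeff_C, constantCoeff_X, add_zero,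
    Nat.cast_succ] at h2
  rw [coeff_zero_eq_constantCoeff_apply]
  simpa using h2

theorem hgF_nonneg (hh : 1 ≤ h) (hα : ∀ i, 0 < α i ∧ α i < 1) (n : ℕ) :
    0 ≤ coeff 0 (hgF α h n) := by
  cases n with
  | zero => rw [hgF_zero', coeff_X_pow, if_neg (by omega)]
  | succ n =>
    have h1 : 0 ≤ ((n : ℚ) + 1) ^ h * coeff 0 (hgF α h (n + 1)) := by
      rw [hgF_mid]
      refine Finset.sum_nonneg fun k _ => ?_
      have := hgC_nonneg hα k
      have := hgA_pos hα n
      positivity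
    exact nonneg_of_mul_nonneg_right h1 (by positivity)

theorem hgF_pos (hh : 1 ≤ h) (hα : ∀ i, 0 < α i ∧ α i < 1) : 0 < coeff 0 (hgF α h 1) := by
  have h1 := hgF_mid (α := α) 0
  simp only [Nat.cast_zero, zero_add, one_pow, one_mul, mul_one] at h1
  rw [h1]
  have h2 := hgA_pos hα 0
  refine Finset.sum_pos' (fun k _ => ?_) ⟨0, Finset.mem_range.2 (by omega), ?_⟩
  · have := hgC_nonneg hα k
    positivity
  · have := hgC_zero_pos hα
    positivity

end GPC

end

-- part MP_57341d_ag.H87.HGB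
section

set_option autoImplicit false

namespace GPC

open PowerSeries Matrix

variable {h : ℕ} {α : Fin h → ℚ}

/-- One Pochhammer quotient. -/
noncomputable def poch (β : ℚ) (n : ℕ) : ℚ⟦X⟧ :=
  ∏ k ∈ Finset.range n, (C (k + β) + X) * (C (k + 1 : ℚ) + X)⁻¹

theorem hgA_eq (α : Fin h → ℚ) (n : ℕ) : hgA α n = ∏ i, poch (α i) n * poch (1 - α i) n := by
  have e : ∀ (f : ℚ⟦X⟧) (m : ℕ), (f ^ m)⁻¹ = f⁻¹ ^ m := fun f m => by
    induction m with
    | zero => simp
    | succ m ih => rw [pow_succ, PowerSeries.mul_inv_rev, ih, pow_succ']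
  simp only [hgA, poch, ← Finset.prod_mul_distrib]
  rw [Finset.prod_comm]
  refine Finset.prod_congr rfl fun k _ => ?_
  rw [e, pow_mul, ← Fin.prod_const, ← Finset.prod_mul_distrib]
  refine Finset.prod_congr rfl fun i _ => ?_
  rw [add_sub_assoc]
  ring

theorem coeff_inv_lin {t : ℚ} (ht : t ≠ 0) (j : ℕ) :
    coeff j (C t + X : ℚ⟦X⟧)⁻¹ = t⁻¹ * (-t⁻¹) ^ j := by
  have : (C t + X : ℚ⟦X⟧)⁻¹ = PowerSeries.mk fun j => t⁻¹ * (-t⁻¹) ^ j := by
    rw [inv_eq_iff_mul_eq_one (by simpa using ht)]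
    ext j
    rw [mul_add, map_add, coeff_mul_C]
    rcases j with _ | j
    · simp [ht]
    · rw [coeff_succ_mul_X, coeff_mk, coeff_mk, coeff_one, if_neg j.succ_ne_zero, pow_succ]
      field_simp
      ring
  rw [this, coeff_mk]

theorem nrm_C (t : ℚ) (r : ℝ) : Nrm (C t) r |(t : ℝ)| := by
  have h : HasSum (fun n => |((coeff n (C t : ℚ⟦X⟧) : ℚ) : ℝ)| * r ^ n)
      (|((coeff 0 (C t : ℚ⟦X⟧) : ℚ) : ℝ)| * r ^ 0) :=
    hasSum_single 0 fun n hn => by simp [coeff_C, hn]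
  exact ⟨h.summable, by rw [h.tsum_eq]; simp⟩

theorem nrm_lin (t : ℚ) : Nrm (C t + X) (1 / 2) (|(t : ℝ)| + 1 / 2) := by
  have h : HasSum (fun n => |((coeff n (X : ℚ⟦X⟧) : ℚ) : ℝ)| * (1 / 2 : ℝ) ^ n)
      (|((coeff 1 (X : ℚ⟦X⟧) : ℚ) : ℝ)| * (1 / 2) ^ 1) :=
    hasSum_single 1 fun n hn => by simp [coeff_X, hn]
  exact (nrm_C t _).add ⟨h.summable, by rw [h.tsum_eq]; simp⟩ (by norm_num)

theorem nrm_inv (k : ℕ) : Nrm (C (k + 1 : ℚ) + X)⁻¹ (1 / 2) ((k : ℝ) + 1 / 2)⁻¹ := by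
  have hk : (0 : ℝ) ≤ k := k.cast_nonneg
  have h := (hasSum_geometric_of_lt_one (r := ((k : ℝ) + 1)⁻¹ * (1 / 2)) (by positivity) (by
    have := inv_le_one_of_one_le₀ (show (1 : ℝ) ≤ k + 1 by linarith)
    linarith)).mul_left ((k : ℝ) + 1)⁻¹
  have e : (fun j => |((coeff j (C (k + 1 : ℚ) + X : ℚ⟦X⟧)⁻¹ : ℚ) : ℝ)| * (1 / 2 : ℝ) ^ j) =
      fun j => ((k : ℝ) + 1)⁻¹ * (((k : ℝ) + 1)⁻¹ * (1 / 2)) ^ j := funext fun j => by
    rw [coeff_inv_lin (by positivity)]
    push_cast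
    rw [abs_mul, abs_pow, abs_neg, abs_of_nonneg (by positivity), mul_pow, mul_assoc]
  refine ⟨e ▸ h.summable, ?_⟩
  rw [e, h.tsum_eq, ← mul_inv]
  refine le_of_eq (congrArg _ ?_)
  field_simp
  ring

theorem nrm_poch {β : ℚ} (h0 : 0 < β) (h1 : β < 1) (n : ℕ) :
    Nrm (poch β n) (1 / 2) (2 * (n : ℝ) + 1) := by
  induction n with
  | zero => simpa [poch] using Nrm.one
  | succ n ih =>
    rw [poch, Finset.prod_range_succ]
    refine (ih.mul ((nrm_lin _).mul (nrm_inv n) (by norm_num)) (by norm_num)).mono ?_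
    have h0' : (0 : ℝ) < β := by exact_mod_cast h0
    have h1' : (β : ℝ) < 1 := by exact_mod_cast h1
    have hk : (0 : ℝ) ≤ n := n.cast_nonneg
    push_cast
    rw [abs_of_nonneg (by positivity), ← mul_assoc, mul_inv_le_iff₀ (by positivity)]
    nlinarith

/-- Sequences of series whose norm at radius one half grows polynomially. -/
noncomputable def pg : Subring (ℕ → ℚ⟦X⟧) where
  carrier := {F | ∃ (B : ℝ) (p : ℕ), 0 ≤ B ∧ ∀ n, Nrm (F n) (1 / 2) (B * ((n : ℝ) + 1) ^ p)}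
  mul_mem' := by
    rintro F G ⟨B, p, h1, h2⟩ ⟨B', p', h3, h4⟩
    exact ⟨B * B', p + p', by positivity, fun n =>
      ((h2 n).mul (h4 n) (by norm_num)).mono (le_of_eq (by ring))⟩
  one_mem' := ⟨1, 0, zero_le_one, fun n => by simpa using Nrm.one⟩
  add_mem' := by
    rintro F G ⟨B, p, h1, h2⟩ ⟨B', p', h3, h4⟩
    refine ⟨B + B', p + p', by positivity, fun n => ((h2 n).add (h4 n) (by norm_num)).mono ?_⟩
    have : (1 : ℝ) ≤ n + 1 := by linarith [n.cast_nonneg (α := ℝ)]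
    rw [add_mul]
    gcongr <;> omega
  zero_mem' := ⟨0, 0, le_rfl, fun n => by simpa using nrm_C 0 (1 / 2)⟩
  neg_mem' := by
    rintro F ⟨B, p, h1, h2⟩
    exact ⟨B, p, h1, fun n => by simpa [Nrm] using h2 n⟩

theorem pg_lin (t : ℚ) : (fun n : ℕ => C ((n : ℚ) + t) + X) ∈ pg := by
  refine ⟨|(t : ℝ)| + 1, 1, by positivity, fun n => (nrm_lin _).mono ?_⟩
  have := abs_add_le (n : ℝ) t
  have := abs_nonneg (t : ℝ)
  have hk : (0 : ℝ) ≤ n := n.cast_nonneg
  rw [abs_of_nonneg hk] at *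
  push_cast
  nlinarith

theorem pg_hgA (hα : ∀ i, 0 < α i ∧ α i < 1) : hgA α ∈ pg := by
  have key : ∀ β : ℚ, 0 < β → β < 1 → poch β ∈ pg := fun β h0 h1 =>
    ⟨2, 1, zero_le_two, fun n => (nrm_poch h0 h1 n).mono (by linarith)⟩
  have : hgA α = ∏ i, poch (α i) * poch (1 - α i) := funext fun n => by
    rw [hgA_eq, Finset.prod_apply]
    rfl
  rw [this]
  exact prod_mem fun i _ => mul_mem (key _ (hα i).1 (hα i).2)
    (key _ (by linarith [(hα i).2]) (by linarith [(hα i).1]))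

theorem pg_pred {F : ℕ → ℚ⟦X⟧} (hF : F ∈ pg) : (fun n => F (n - 1)) ∈ pg := by
  obtain ⟨B, p, h1, h2⟩ := hF
  refine ⟨B, p, h1, fun n => (h2 _).mono ?_⟩
  gcongr
  omega

theorem pg_ite {F : ℕ → ℚ⟦X⟧} (hF : F ∈ pg) : (fun n => if n = 0 then 0 else F n) ∈ pg := by
  obtain ⟨B, p, h1, h2⟩ := hF
  refine ⟨B, p, h1, fun n => ?_⟩
  dsimp only
  split_ifs
  · exact (by simpa using nrm_C 0 (1 / 2) : Nrm 0 (1 / 2) 0).mono (by positivity)
  · exact h2 n

theorem pg_coeff {F : ℕ → ℚ⟦X⟧} (hF : F ∈ pg) (j : ℕ) : ∃ (B : ℝ) (p : ℕ), 0 ≤ B ∧ ∀ n : ℕ,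
    |((coeff j (F n) : ℚ) : ℝ)| ≤ B * ((n : ℝ) + 1) ^ p := by
  obtain ⟨B, p, h1, h2⟩ := hF
  refine ⟨2 ^ j * B, p, by positivity, fun n => ?_⟩
  have := (h2 n).coeff_le (by norm_num) j
  rwa [one_div, inv_pow, mul_inv_le_iff₀ (by positivity), mul_comm, ← mul_assoc] at this

theorem pg_main (hα : ∀ i, 0 < α i ∧ α i < 1) (i : ℕ) :
    (fun n : ℕ => (C (n : ℚ) + X) ^ i * hgA α n) ∈ pg :=
  mul_mem (pow_mem (by simpa using pg_lin 0) i) (pg_hgA hα)

/-- Polynomial growth of the coefficients. -/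
theorem hgA_growth (hα : ∀ i, 0 < α i ∧ α i < 1) (i j : ℕ) :
    ∃ (B : ℝ) (p : ℕ), ∀ n : ℕ,
      |((coeff j ((C (n : ℚ) + X) ^ i * hgA α n) : ℚ) : ℝ)| ≤ B * ((n : ℝ) + 1) ^ p :=
  let ⟨B, p, _, h2⟩ := pg_coeff (pg_main hα i) j
  ⟨B, p, h2⟩

theorem hgU_growth (hα : ∀ i, 0 < α i ∧ α i < 1) :
    ∃ (B : ℝ) (p : ℕ), ∀ i j n, |((coeff n (hgU α i j) : ℚ) : ℝ)| ≤ B * ((n : ℝ) + 1) ^ p := by
  have key : ∀ i, hgF α i ∈ pg := fun i => by
    have a0 : (fun n : ℕ => C (n : ℚ) + X) ∈ pg := by simpa using pg_lin 0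
    have a1 : (fun n : ℕ => C ((n : ℚ) - 1) + X) ∈ pg := by
      simpa [sub_eq_add_neg] using pg_lin (-1)
    have a2 : ∀ t : ℚ, (fun _ : ℕ => (C t : ℚ⟦X⟧)) ∈ pg := fun t =>
      ⟨_, 0, abs_nonneg (t : ℝ), fun _ => by simpa using nrm_C t (1 / 2)⟩
    have a3 := sum_mem (t := (Finset.range (h + 1)).filter fun k => 2 * h ≤ k + i) fun k _ =>
      mul_mem (mul_mem (mul_mem (a2 (hgC α k)) (pow_mem a0 (k + i - 2 * h))) (pow_mem a1 k))
        (pg_pred (pg_hgA hα))
    convert sub_mem (pg_main hα i) (pg_ite a3) using 1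
    funext n
    simp only [hgF, Pi.sub_apply, Finset.sum_apply, Pi.mul_apply, Pi.pow_apply]
  choose B p h1 h2 using fun x : Fin (2 * h) × Fin (2 * h) => pg_coeff (key x.1) x.2
  refine ⟨∑ x, B x, ∑ x, p x, fun i j n => ?_⟩
  simp only [hgU, of_apply, coeff_mk]
  refine (h2 (i, j) n).trans ?_
  have : (1 : ℝ) ≤ n + 1 := by linarith [n.cast_nonneg (α := ℝ)]
  have := Finset.single_le_sum (fun x _ => h1 x) (Finset.mem_univ (i, j))
  have := Finset.single_le_sum (fun x _ => Nat.zero_le (p x)) (Finset.mem_univ (i, j))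
  gcongr
  exact Finset.sum_nonneg fun x _ => h1 x

/-- Series whose j-th coefficient becomes an integer after multiplication by L ^ j. -/
noncomputable def intS (L : ℚ) : Subring ℚ⟦X⟧ where
  carrier := {f | ∀ j, L ^ j * coeff j f ∈ (⊥ : Subring ℚ)}
  mul_mem' := fun {f g} hf hg j => by
    rw [coeff_mul, Finset.mul_sum]
    refine sum_mem fun x hx => ?_
    rw [← Finset.HasAntidiagonal.mem_antidiagonal.1 hx, pow_add, mul_mul_mul_comm]
    exact mul_mem (hf _) (hg _)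
  one_mem' := fun j => by
    rw [coeff_one]
    split_ifs with hj
    · simp [hj]
    · simp
  add_mem' := fun {f g} hf hg j => by
    rw [map_add, mul_add]
    exact add_mem (hf j) (hg j)
  zero_mem' := fun j => by simp
  neg_mem' := fun {f} hf j => by
    rw [map_neg, mul_neg]
    exact neg_mem (hf j)

theorem intS_C {L t : ℚ} (ht : t ∈ (⊥ : Subring ℚ)) : C t ∈ intS L := fun j => by
  rw [coeff_C]
  split_ifs with hj
  · simpa [hj] using ht
  · simp

theorem intS_X {L t : ℚ} (ht : L * t ∈ (⊥ : Subring ℚ)) : C t * X ∈ intS L := fun j => by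
  rw [coeff_C_mul, coeff_X]
  split_ifs with hj
  · simpa [hj] using ht
  · simp

theorem factorial_dvd_prog (a q n : ℕ) :
    n.factorial ∣ q ^ n * ∏ k ∈ Finset.range n, (q * k + a) := by
  rw [Nat.dvd_iff_prime_pow_dvd_dvd]
  intro p e hp he
  by_cases hq : p ∣ q
  · have := Fact.mk hp
    have h1 := (padicValNat_dvd_iff_le n.factorial_ne_zero).1 he
    exact ((pow_dvd_pow p (h1.trans (padicValNat_factorial_le p n))).trans
      (pow_dvd_pow_of_dvd hq n)).mul_right _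
  · obtain ⟨c, -, hc⟩ := Nat.exists_mul_mod_eq_of_coprime a
      (((Nat.Prime.coprime_iff_not_dvd hp).2 hq).symm.pow_right e) (pow_ne_zero e hp.ne_zero)
    have h1 : ∏ k ∈ Finset.range n, (q * k + a) ≡ ∏ k ∈ Finset.range n, q * (c + k) [MOD p ^ e] :=
      Nat.ModEq.prod fun k _ => by
        rw [mul_add, add_comm (q * c)]
        exact Nat.ModEq.add_left _ hc.symm
    refine Dvd.dvd.mul_left ((Nat.modEq_zero_iff_dvd).1 (h1.trans
      ((Nat.modEq_zero_iff_dvd).2 ?_))) _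
    rw [Finset.prod_mul_distrib, ← Nat.ascFactorial_eq_prod_range]
    exact (he.trans (Nat.factorial_dvd_ascFactorial c n)).mul_left _

theorem intS_poch {β : ℚ} (h0 : 0 < β) (h1 : β < 1) {q : ℕ} (hq : 0 < q)
    (hb : q * β ∈ (⊥ : Subring ℚ)) {k n : ℕ} (hk : k ≤ n) :
    C ((q : ℚ) ^ (2 * n)) * poch β k ∈ intS (Nat.lcmUpto (q * n)) := by
  have hq' : (0 : ℚ) < q := by exact_mod_cast hq
  obtain ⟨z, hz⟩ := Subring.mem_bot.1 hb
  obtain ⟨a, rfl⟩ := Int.eq_ofNat_of_zero_le (a := z) (by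
    have : (0 : ℚ) ≤ z := by rw [hz]; positivity
    exact_mod_cast this)
  rw [Int.cast_natCast] at hz
  have a0 : 0 < a := by
    have : (0 : ℚ) < a := by rw [hz]; positivity
    exact_mod_cast this
  have a1 : a ≤ q := by
    have : (a : ℚ) ≤ q := by rw [hz]; nlinarith
    exact_mod_cast this
  have hL : ∀ m : ℕ, 1 ≤ m → m ≤ q * n →
      (Nat.lcmUpto (q * n) : ℚ) * (m : ℚ)⁻¹ ∈ (⊥ : Subring ℚ) := fun m m1 m2 => by
    obtain ⟨d, hd⟩ : m ∣ Nat.lcmUpto (q * n) :=
      Finset.dvd_lcm (f := id) (Finset.mem_Icc.2 ⟨m1, m2⟩)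
    have : (m : ℚ) ≠ 0 := by positivity
    rw [hd, Nat.cast_mul, mul_right_comm, mul_inv_cancel₀ this, one_mul]
    exact natCast_mem _ d
  have e : poch β k = C (∏ m ∈ Finset.range k, ((m : ℚ) + β) / (m + 1)) *
      ∏ m ∈ Finset.range k, (1 + C ((m : ℚ) + β)⁻¹ * X) *
        (C (m + 1 : ℚ) * (C (m + 1 : ℚ) + X)⁻¹) := by
    rw [poch, map_prod, ← Finset.prod_mul_distrib]
    refine Finset.prod_congr rfl fun m _ => ?_
    have b1 : (C ((m : ℚ) + β) : ℚ⟦X⟧) = C (((m : ℚ) + β) / (m + 1)) * C (m + 1 : ℚ) := by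
      rw [← map_mul, div_mul_cancel₀ _ (by positivity)]
    have b2 : (C ((m : ℚ) + β) : ℚ⟦X⟧) * C ((m : ℚ) + β)⁻¹ = 1 := by
      rw [← map_mul, mul_inv_cancel₀ (by positivity), map_one]
    generalize (C (m + 1 : ℚ) + X)⁻¹ = w
    linear_combination (w * (1 + C ((m : ℚ) + β)⁻¹ * X)) * b1 - w * X * b2
  rw [e, ← mul_assoc, ← map_mul]
  refine mul_mem (intS_C ?_) (prod_mem fun m hm => ?_)
  · obtain ⟨d, hd⟩ := factorial_dvd_prog a q k
    obtain ⟨r, rfl⟩ := Nat.exists_eq_add_of_le hk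
    have b1 : ∏ m ∈ Finset.range k, ((q : ℚ) * m + a) = q ^ k * ∏ m ∈ Finset.range k, (m + β) := by
      rw [hz, ← Finset.card_range k, ← Finset.prod_const, Finset.card_range,
        ← Finset.prod_mul_distrib]
      exact Finset.prod_congr rfl fun m _ => (mul_add _ _ _).symm
    have b2 : ∏ m ∈ Finset.range k, ((m : ℚ) + 1) = k.factorial := by
      rw [← Finset.prod_range_add_one_eq_factorial]
      push_cast
      rfl
    have b3 := congrArg (Nat.cast : ℕ → ℚ) hd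
    push_cast at b3
    have b4 : (q : ℚ) ^ (2 * (k + r)) * ∏ m ∈ Finset.range k, ((m : ℚ) + β) / (m + 1) =
        ((q ^ (2 * r) * d : ℕ) : ℚ) := by
      have : (k.factorial : ℚ) ≠ 0 := by positivity
      rw [Finset.prod_div_distrib, b2, ← mul_div_assoc, div_eq_iff this]
      rw [b1] at b3
      push_cast
      linear_combination (q : ℚ) ^ (2 * r) * b3
    rw [b4]
    exact natCast_mem _ _
  · have hm := Finset.mem_range.1 hm
    have b0 : q * (m + 1) ≤ q * n := Nat.mul_le_mul_left q (by omega)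
    refine mul_mem (add_mem (one_mem _) (intS_X ?_)) fun j => ?_
    · have := mul_mem (hL (q * m + a) (by omega) (by rw [mul_add] at b0; omega))
        (natCast_mem (⊥ : Subring ℚ) q)
      convert this using 1
      push_cast
      rw [hz]
      field_simp
    · have := pow_mem (neg_mem (hL (m + 1) (by omega) (by nlinarith))) j
      convert this using 1
      rw [coeff_C_mul, coeff_inv_lin (by positivity), mul_inv_cancel_left₀ (by positivity),
        ← mul_pow]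
      push_cast
      rw [mul_neg]

theorem lcmUpto_le (n : ℕ) : Nat.lcmUpto n ≤ 2 ^ (8 * n) := by
  have h1 := Chebyshev.psi_le_const_mul_self (x := n) (by positivity)
  rw [Chebyshev.psi_eq_log_lcmUpto] at h1
  have h2 : Real.log 4 = 2 * Real.log 2 := by
    rw [show (4 : ℝ) = 2 ^ 2 by norm_num, Real.log_pow]; norm_num
  have h3 := Real.log_two_gt_d9
  have h4 : Real.log (Nat.lcmUpto n) ≤ Real.log (2 ^ (8 * n)) := by
    rw [Real.log_pow]
    push_cast
    have : (0 : ℝ) ≤ n := by positivity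
    nlinarith
  have h5 := (Real.log_le_log_iff (by exact_mod_cast Nat.lcmUpto_pos n) (by positivity)).1 h4
  exact_mod_cast h5

theorem exists_den {ι : Type} (s : Finset ι) (c : ι → ℚ) :
    ∃ q : ℕ, 0 < q ∧ ∀ i ∈ s, q * c i ∈ (⊥ : Subring ℚ) := by
  refine ⟨∏ i ∈ s, (c i).den, Finset.prod_pos fun i _ => (c i).den_pos, fun i hi => ?_⟩
  obtain ⟨d, hd⟩ := Finset.dvd_prod_of_mem (fun i => (c i).den) hi
  rw [hd, Nat.cast_mul, mul_right_comm, Rat.den_mul_eq_num]
  exact mul_mem (intCast_mem _ _) (natCast_mem _ _)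

/-- Geometric growth of the denominators. -/
theorem hgU_den (hα : ∀ i, 0 < α i ∧ α i < 1) :
    ∃ (K : ℕ) (D : ℕ → ℕ), (∀ n, 0 < D n ∧ D n ≤ K ^ (n + 1)) ∧ ∀ i j, Den (hgU α i j) D := by
  obtain ⟨q, q0, hq⟩ := exists_den Finset.univ α
  obtain ⟨e, e0, he⟩ := exists_den (Finset.range (h + 1)) (hgC α)
  refine ⟨e * q ^ (4 * h) * 2 ^ (8 * q * (2 * h)),
    fun n => e * q ^ (4 * h * n) * Nat.lcmUpto (q * n) ^ (2 * h), fun n => ⟨?_, ?_⟩,
    fun i j n k hk => ?_⟩
  · have := Nat.lcmUpto_pos (q * n)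
    positivity
  · rw [mul_pow, mul_pow, ← pow_mul, ← pow_mul]
    refine Nat.mul_le_mul (Nat.mul_le_mul (Nat.le_self_pow n.succ_ne_zero e)
      (Nat.pow_le_pow_right q0 (Nat.mul_le_mul_left _ n.le_succ))) ?_
    refine (Nat.pow_le_pow_left (lcmUpto_le _) _).trans ?_
    rw [← pow_mul]
    exact Nat.pow_le_pow_right two_pos (by nlinarith [Nat.zero_le (q * h)])
  have hA : ∀ m ≤ n, C ((q : ℚ) ^ (4 * h * n)) * hgA α m ∈ intS (Nat.lcmUpto (q * n)) :=
    fun m hm => by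
      have : C ((q : ℚ) ^ (4 * h * n)) * hgA α m = ∏ i, (C ((q : ℚ) ^ (2 * n)) * poch (α i) m) *
          (C ((q : ℚ) ^ (2 * n)) * poch (1 - α i) m) := by
        simp only [hgA_eq, Finset.prod_mul_distrib, Fin.prod_const, map_pow]
        ring
      rw [this]
      refine prod_mem fun i _ => mul_mem
        (intS_poch (hα i).1 (hα i).2 q0 (hq i (Finset.mem_univ i)) hm)
        (intS_poch (by linarith [(hα i).2]) (by linarith [(hα i).1]) q0 ?_ hm)
      rw [mul_sub, mul_one]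
      exact sub_mem (natCast_mem _ _) (hq i (Finset.mem_univ i))
  have hX : ∀ t ∈ (⊥ : Subring ℚ), C t + X ∈ intS (Nat.lcmUpto (q * n)) := fun t ht =>
    add_mem (intS_C ht) (by simpa using intS_X (t := 1) (by simp))
  have hF : C (e : ℚ) * C ((q : ℚ) ^ (4 * h * n)) * hgF α i k ∈ intS (Nat.lcmUpto (q * n)) := by
    rw [hgF, mul_sub]
    refine sub_mem ?_ ?_
    · rw [mul_left_comm, mul_assoc]
      exact mul_mem (pow_mem (hX _ (natCast_mem _ _)) _)
        (mul_mem (intS_C (natCast_mem _ _)) (hA k hk))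
    split_ifs
    · rw [mul_zero]
      exact zero_mem _
    rw [Finset.mul_sum]
    refine sum_mem fun m hm => ?_
    have := mul_mem (mul_mem (mul_mem (intS_C (he m (Finset.mem_filter.1 hm).1))
      (pow_mem (hX _ (natCast_mem _ k)) (m + i - 2 * h)))
      (pow_mem (hX _ (sub_mem (natCast_mem _ k) (one_mem _))) m)) (hA (k - 1) (by omega))
    convert this using 1
    rw [map_mul]
    ring
  obtain ⟨r, hr⟩ := Nat.exists_eq_add_of_le j.2.le
  have := mul_mem (hF j) (pow_mem (natCast_mem (⊥ : Subring ℚ) (Nat.lcmUpto (q * n))) r)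
  obtain ⟨z, hz⟩ := Subring.mem_bot.1 this
  refine ⟨z, ?_⟩
  rw [hz, ← map_mul, coeff_C_mul]
  simp only [hgU, of_apply, coeff_mk]
  push_cast
  rw [(congrArg ((Nat.lcmUpto (q * n) : ℚ) ^ ·) hr).trans (pow_add _ _ _)]
  ring

end GPC

end

-- part MP_57341d_ag.H87.HGC
section

set_option autoImplicit false

namespace GPC

open PowerSeries Matrix Set

variable {h : ℕ} {α : Fin h → ℚ}

theorem nrm_of_growth {f : ℚ⟦X⟧} {B : ℝ} {p : ℕ}
    (hf : ∀ n, |((coeff n f : ℚ) : ℝ)| ≤ B * ((n : ℝ) + 1) ^ p) {r : ℝ} (h0 : 0 ≤ r) (h1 : r < 1) :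
    ∃ B', Nrm f r B' := by
  rcases h0.eq_or_lt with rfl | hr
  · refine ⟨_, summable_of_ne_finset_zero (s := {0}) fun n hn => ?_, le_rfl⟩
    rw [Finset.mem_singleton] at hn
    simp [hn]
  have hq : ‖r‖ < 1 := by rwa [Real.norm_of_nonneg h0]
  have h3 : Summable fun n : ℕ => (n : ℝ) ^ p * r ^ n :=
    summable_pow_mul_geometric_of_norm_lt_one p hq
  have h4 : Summable fun n : ℕ => ((n + 1 : ℕ) : ℝ) ^ p * r ^ (n + 1) :=
    (summable_nat_add_iff (f := fun n : ℕ => (n : ℝ) ^ p * r ^ n) 1).2 h3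
  have h2 : Summable fun n : ℕ => B / r * (((n + 1 : ℕ) : ℝ) ^ p * r ^ (n + 1)) :=
    h4.mul_left _
  refine ⟨_, Summable.of_nonneg_of_le (fun n => by positivity) (fun n => ?_) h2, le_rfl⟩
  calc |((coeff n f : ℚ) : ℝ)| * r ^ n ≤ B * ((n : ℝ) + 1) ^ p * r ^ n := by
        gcongr
        exact hf n
    _ = _ := by
        push_cast
        field_simp
        ring

theorem analyticOnNhd_ev {f : ℚ⟦X⟧} {r B : ℝ} (hf : Nrm f r B) :
    AnalyticOnNhd ℝ (ev f) (Ioo (-r) r) := by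
  intro x hx
  have hx' : |x| < r := abs_lt.2 hx
  have hr : 0 ≤ r := (abs_nonneg x).trans hx'.le
  set p := FormalMultilinearSeries.ofScalars ℝ (fun n => ((coeff n f : ℚ) : ℝ)) with hp
  have h1 : (r.toNNReal : ENNReal) ≤ p.radius := by
    refine p.le_radius_of_summable ?_
    refine hf.1.congr fun n => ?_
    rw [hp, FormalMultilinearSeries.ofScalars_norm, Real.norm_eq_abs, Real.coe_toNNReal _ hr]
  have h2 : ev f = p.sum := by
    funext y
    have := FormalMultilinearSeries.ofScalars_sum_eq (E := ℝ)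
      (fun n => ((coeff n f : ℚ) : ℝ)) y
    simp only [smul_eq_mul] at this
    exact this.symm
  rw [h2]
  refine p.analyticOnNhd x ?_
  refine lt_of_lt_of_le ?_ h1
  rw [edist_zero_right, enorm_eq_nnnorm, ENNReal.coe_lt_coe, ← NNReal.coe_lt_coe,
    Real.coe_toNNReal _ hr]
  exact hx'

/-- Series with radius of convergence at least one. -/
def hgcCv : Subalgebra ℚ ℚ⟦X⟧ where
  carrier := {f | ∀ r : ℝ, 0 ≤ r → r < 1 → ∃ B, Nrm f r B}
  mul_mem' := fun hf hg r h0 h1 => by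
    obtain ⟨B, hB⟩ := hf r h0 h1
    obtain ⟨B', hB'⟩ := hg r h0 h1
    exact ⟨_, hB.mul hB' h0⟩
  add_mem' := fun hf hg r h0 h1 => by
    obtain ⟨B, hB⟩ := hf r h0 h1
    obtain ⟨B', hB'⟩ := hg r h0 h1
    exact ⟨_, hB.add hB' h0⟩
  algebraMap_mem' := fun a r _ _ => by
    have := Nrm.poly (Polynomial.C a) r
    rwa [Polynomial.coe_C] at this

theorem hgc_poly_mem (p : Polynomial ℚ) : (p : ℚ⟦X⟧) ∈ hgcCv := fun r _ _ => Nrm.poly p r

theorem hgc_deriv_mem {f : ℚ⟦X⟧} (hf : f ∈ hgcCv) : d⁄dX ℚ f ∈ hgcCv := fun r h0 h1 => by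
  obtain ⟨s, hs1, hs2⟩ := exists_between h1
  obtain ⟨B, hB⟩ := hf s (h0.trans hs1.le) hs2
  exact nrm_deriv hB h0 hs1

/-- Evaluation as a ring homomorphism. -/
noncomputable def hgcEv (x : ℝ) (hx : |x| < 1) : hgcCv →+* ℝ where
  toFun f := ev f x
  map_one' := by
    have := ev_poly 1 x
    rwa [Polynomial.coe_one, map_one] at this
  map_zero' := by
    have := ev_poly 0 x
    rwa [Polynomial.coe_zero, map_zero] at this
  map_mul' f g := by
    obtain ⟨B, hB⟩ := f.2 |x| (abs_nonneg _) hx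
    obtain ⟨B', hB'⟩ := g.2 |x| (abs_nonneg _) hx
    exact ev_mul hB hB' le_rfl
  map_add' f g := by
    obtain ⟨B, hB⟩ := f.2 |x| (abs_nonneg _) hx
    obtain ⟨B', hB'⟩ := g.2 |x| (abs_nonneg _) hx
    exact ev_add hB hB' le_rfl

theorem hgc_U_mem (hα : ∀ i, 0 < α i ∧ α i < 1) (i j : Fin (2 * h)) : hgU α i j ∈ hgcCv := by
  obtain ⟨B, p, hB⟩ := hgU_growth hα
  exact fun r h0 h1 => nrm_of_growth (hB i j) h0 h1

theorem hgc_hasDerivAt {f : ℚ⟦X⟧} (hf : f ∈ hgcCv) {x : ℝ} (hx : |x| < 1) :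
    HasDerivAt (ev f) (ev (d⁄dX ℚ f) x) x := by
  obtain ⟨s, hs1, hs2⟩ := exists_between hx
  obtain ⟨B, hB⟩ := hf s ((abs_nonneg _).trans hs1.le) hs2
  exact hasDerivAt_ev hB hs1

/-- Evaluation of a linear combination with polynomial coefficients. -/
theorem hgc_ev_comb {ι : Type} [Fintype ι] (p : ι → Polynomial ℚ) (f : ι → ℚ⟦X⟧)
    (hf : ∀ l, f l ∈ hgcCv) {x : ℝ} (hx : |x| < 1) :
    ev (∑ l, (p l : ℚ⟦X⟧) * f l) x = ∑ l, Polynomial.aeval x (p l) * ev (f l) x := by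
  have h1 := map_sum (hgcEv x hx)
    (fun l => (⟨p l, hgc_poly_mem _⟩ : hgcCv) * ⟨f l, hf l⟩) Finset.univ
  simp only [map_mul] at h1
  have h2 : (((∑ l, (⟨p l, hgc_poly_mem _⟩ : hgcCv) * ⟨f l, hf l⟩ : hgcCv)) : ℚ⟦X⟧)
      = ∑ l, (p l : ℚ⟦X⟧) * f l := by
    rw [AddSubmonoidClass.coe_finsetSum]
    rfl
  rw [← h2]
  refine h1.trans (Finset.sum_congr rfl fun l _ => ?_)
  rw [← ev_poly]
  rfl

theorem hgV_analytic (hα : ∀ i, 0 < α i ∧ α i < 1) (i j : Fin (2 * h)) :
    AnalyticOnNhd ℝ (fun x => hgV α x i j) (Ioo (-1) 1) := by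
  intro x hx
  obtain ⟨s, hs1, hs2⟩ := exists_between (abs_lt.2 hx)
  obtain ⟨B, hB⟩ := hgc_U_mem hα i j s ((abs_nonneg _).trans hs1.le) hs2
  exact analyticOnNhd_ev hB x (abs_lt.1 hs1)

theorem hgV_isSp (hh : 1 ≤ h) (hα : ∀ i, 0 < α i ∧ α i < 1) {x : ℝ} (hx : |x| < 1) :
    IsSp (hgV α x) := by
  let U : Mx h hgcCv := Matrix.of fun i j => ⟨hgU α i j, hgc_U_mem hα i j⟩
  have h1 : U.map hgcCv.val.toRingHom = hgU α := rfl
  have h2 : IsSp U := by
    have h3 := hgU_isSp (α := α) hh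
    unfold IsSp at *
    rw [← h1, ← Jm_map hgcCv.val.toRingHom, ← transpose_map, ← Matrix.map_mul,
      ← Matrix.map_mul] at h3
    exact Matrix.map_injective Subtype.val_injective h3
  exact h2.map (hgcEv x hx)

theorem hgc_Nm_mul {R : Type} [CommRing R] (A : Mx h R) (i j : Fin (2 * h)) :
    (Nm h R * A) i j = if hi : (i : ℕ) + 1 < 2 * h then A ⟨i + 1, hi⟩ j else 0 := by
  rw [mul_apply]
  split_ifs with hi
  · rw [Finset.sum_eq_single ⟨i + 1, hi⟩]
    · simp [Nm]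
    · intro l _ hl
      have : ¬ ((i : ℕ) + 1 = l) := fun hc => hl (Fin.ext hc.symm)
      simp [Nm, this]
    · simp
  · refine Finset.sum_eq_zero fun l _ => ?_
    have := l.2
    have : ¬ ((i : ℕ) + 1 = l) := by omega
    simp [Nm, this]

theorem hgc_mul_Nm {R : Type} [CommRing R] (A : Mx h R) (i j : Fin (2 * h)) :
    (A * Nm h R) i j = if 0 < (j : ℕ) then A i ⟨j - 1, by omega⟩ else 0 := by
  rw [mul_apply]
  split_ifs with hj
  · rw [Finset.sum_eq_single ⟨j - 1, by omega⟩]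
    · have : (j : ℕ) - 1 + 1 = j := by omega
      simp [Nm, this]
    · intro l _ hl
      have : ¬ ((l : ℕ) + 1 = j) := fun hc => hl (Fin.ext (by simp only; omega))
      simp [Nm, this]
    · simp
  · refine Finset.sum_eq_zero fun l _ => ?_
    have : ¬ ((l : ℕ) + 1 = j) := by omega
    simp [Nm, this]

theorem hgc_un_deriv (t : ℝ) (i j : Fin (2 * h)) :
    HasDerivAt (fun s : ℝ => un h s i j) ((Nm h ℝ * un h t) i j) t := by
  have hj := j.2
  rw [hgc_Nm_mul]
  simp only [un, of_apply]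
  by_cases hij : (i : ℕ) < j
  · obtain ⟨e, he⟩ : ∃ e, (j : ℕ) - i = e + 1 := ⟨j - i - 1, by omega⟩
    simp only [if_pos hij.le, he]
    rw [dif_pos (by omega), if_pos (by omega), show (j : ℕ) - (i + 1) = e by omega]
    refine ((hasDerivAt_pow (e + 1) t).const_mul _).congr_deriv ?_
    simp only [Nat.factorial_succ, eq_ratCast, Nat.add_sub_cancel]
    push_cast
    field_simp
  · have h0 : (if hi : (i : ℕ) + 1 < 2 * h then (if (i : ℕ) + 1 ≤ j then
        algebraMap ℚ ℝ (1 / ((j : ℕ) - (i + 1)).factorial) * t ^ ((j : ℕ) - (i + 1)) else 0)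
        else 0) = 0 := by
      split_ifs with h1 h2
      · omega
      · rfl
      · rfl
    rw [h0, show (j : ℕ) - i = 0 by omega]
    simp only [pow_zero]
    exact hasDerivAt_const _ _

/-- The coefficient matrix of the system, with polynomial entries. -/
noncomputable def hgcM (α : Fin h → ℚ) : Mx h (Polynomial ℚ) :=
  (1 - Polynomial.X : Polynomial ℚ) • (Nm h _ + (Polynomial.X : Polynomial ℚ) •
    (Bm α).map Polynomial.C) + (Polynomial.X : Polynomial ℚ) • Em h _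

theorem hgc_ode (hh : 1 ≤ h) (i j : Fin (2 * h)) :
    (1 - X) * X * d⁄dX ℚ (hgU α i j) + (1 - X) * ∑ l, hgU α i l * Nm h ℚ⟦X⟧ l j
      = ∑ l, (hgcM α i l : ℚ⟦X⟧) * hgU α l j := by
  have h1 := congrFun (congrFun (hgU_ode (α := α) hh) i) j
  simp only [Matrix.smul_apply, Matrix.sub_apply, map_apply, smul_eq_mul, mul_apply] at h1
  rw [h1, sub_add_cancel]
  refine Finset.sum_congr rfl fun l _ => ?_
  congr 1
  simp only [hgcM, Matrix.smul_apply, Matrix.add_apply, map_apply, smul_eq_mul, Nm, Em, of_apply,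
    Polynomial.coe_add, Polynomial.coe_mul, Polynomial.coe_sub, Polynomial.coe_one,
    Polynomial.coe_X, Polynomial.coe_C]
  split_ifs <;> simp

theorem hgc_ode_real (hh : 1 ≤ h) (hα : ∀ i, 0 < α i ∧ α i < 1) {x : ℝ} (hx : |x| < 1) :
    ((1 - x) * x) • (hgU α).map (fun f => ev (d⁄dX ℚ f) x) + (1 - x) • (hgV α x * Nm h ℝ)
      = ((1 - x) • (Nm h ℝ + x • (Bm α).map (Rat.castHom ℝ)) + x • Em h ℝ) * hgV α x := by
  ext i j
  have h1 := congrArg (fun f => ev f x) (hgc_ode (α := α) hh i j)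
  beta_reduce at h1
  rw [hgc_ev_comb _ _ (fun l => hgc_U_mem hα l j) hx] at h1
  have h2 := hgc_ev_comb (ι := Option (Fin (2 * h)))
    (fun o => o.elim ((1 - Polynomial.X) * Polynomial.X)
      (fun l => (1 - Polynomial.X) * Nm h (Polynomial ℚ) l j))
    (fun o => o.elim (d⁄dX ℚ (hgU α i j)) (fun l => hgU α i l))
    (fun o => by
      cases o with
      | none => exact hgc_deriv_mem (hgc_U_mem hα i j)
      | some l => exact hgc_U_mem hα i l) hx
  simp only [Fintype.sum_option, Option.elim] at h2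
  have h3 : (1 - X) * X * d⁄dX ℚ (hgU α i j) + (1 - X) * ∑ l, hgU α i l * Nm h ℚ⟦X⟧ l j
      = (((1 - Polynomial.X) * Polynomial.X : Polynomial ℚ) : ℚ⟦X⟧) * d⁄dX ℚ (hgU α i j)
        + ∑ l, (((1 - Polynomial.X) * Nm h (Polynomial ℚ) l j : Polynomial ℚ) : ℚ⟦X⟧)
          * hgU α i l := by
    rw [Finset.mul_sum]
    congr 1
    · simp
    · refine Finset.sum_congr rfl fun l _ => ?_
      simp only [Nm, of_apply]
      split_ifs <;> simp
  rw [h3, h2] at h1
  simp only [Matrix.smul_apply, Matrix.add_apply, map_apply, smul_eq_mul, mul_apply, hgV]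
  rw [Finset.mul_sum]
  refine Eq.trans ?_ (h1.trans ?_)
  · congr 1
    · simp
    · refine Finset.sum_congr rfl fun l _ => ?_
      simp only [Nm, of_apply]
      split_ifs <;> simp
  · refine Finset.sum_congr rfl fun l _ => ?_
    congr 1
    simp only [hgcM, Matrix.smul_apply, Matrix.add_apply, map_apply, smul_eq_mul, Nm, Em, of_apply]
    split_ifs <;> simp [mul_comm x]

/-- The real differential system. -/
theorem hgV_hasDerivAt (hh : 1 ≤ h) (hα : ∀ i, 0 < α i ∧ α i < 1) {x : ℝ} (hx : x ∈ Ioo (0 : ℝ) 1)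
    (i j : Fin (2 * h)) :
    HasDerivAt (fun y => (hgV α y * un h (Real.log y)) i j)
      (((Nm h ℝ + x • (Bm α).map (Rat.castHom ℝ) + (x / (1 - x)) • Em h ℝ)
        * (hgV α x * un h (Real.log x))) i j / x) x := by
  have hx0 : x ≠ 0 := hx.1.ne'
  have hx1 : 1 - x ≠ 0 := (sub_pos.2 hx.2).ne'
  have hxa : |x| < 1 := by rw [abs_of_pos hx.1]; exact hx.2
  have h1 : HasDerivAt (fun y => ∑ l, hgV α y i l * un h (Real.log y) l j)
      (∑ l, (ev (d⁄dX ℚ (hgU α i l)) x * un h (Real.log x) l j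
        + hgV α x i l * ((Nm h ℝ * un h (Real.log x)) l j * x⁻¹))) x := by
    refine HasDerivAt.fun_sum fun l _ => ?_
    exact (hgc_hasDerivAt (hgc_U_mem hα i l) hxa).fun_mul
      ((hgc_un_deriv (Real.log x) l j).comp x (Real.hasDerivAt_log hx0))
  refine h1.congr_deriv ?_
  have h2 := congrArg (fun A => (A * un h (Real.log x)) i j) (hgc_ode_real hh hα hxa)
  simp only [Matrix.add_mul, Matrix.smul_mul, Matrix.mul_assoc, Matrix.add_apply,
    Matrix.smul_apply, smul_eq_mul] at h2 ⊢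
  rw [mul_apply, mul_apply] at h2
  simp only [map_apply] at h2
  rw [Finset.sum_add_distrib]
  simp only [← _root_.mul_assoc (hgV α x i _)]
  rw [← Finset.sum_mul]
  field_simp
  linear_combination h2

/-- The uniform parts of the entries of the Wronskian matrix. -/
noncomputable def hgcW (α : Fin h → ℚ) (i j : ℕ) : ℚ⟦X⟧ :=
  PowerSeries.mk fun n => coeff j ((C (n : ℚ) + X) ^ i * hgA α n)

theorem hgcW_mem (hα : ∀ i, 0 < α i ∧ α i < 1) (i j : ℕ) : hgcW α i j ∈ hgcCv := by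
  obtain ⟨B, p, hB⟩ := hgA_growth hα i j
  refine fun r h0 h1 => nrm_of_growth (B := B) (p := p) (fun n => ?_) h0 h1
  rw [hgcW, coeff_mk]
  exact hB n

theorem hgcW_succ (i j : ℕ) :
    hgcW α (i + 1) j = X * d⁄dX ℚ (hgcW α i j) + if 0 < j then hgcW α i (j - 1) else 0 := by
  ext n
  have h1 : coeff n (X * d⁄dX ℚ (hgcW α i j)) = n * coeff n (hgcW α i j) := by
    cases n with
    | zero => simp
    | succ n => rw [coeff_succ_X_mul, coeff_derivative]; push_cast; ring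
  rw [map_add, h1]
  simp only [hgcW, coeff_mk]
  rw [pow_succ', mul_assoc, add_mul, map_add, coeff_C_mul]
  congr 1
  cases j with
  | zero => simp
  | succ j => rw [coeff_succ_X_mul, if_pos (Nat.succ_pos j), coeff_mk]; rfl

theorem hgc_deriv_pow (i : ℕ) :
    (1 - X) * d⁄dX ℚ ((1 - X : ℚ⟦X⟧) ^ i) = -(i : ℚ⟦X⟧) * (1 - X) ^ i := by
  induction i with
  | zero => simp
  | succ i ih =>
    rw [pow_succ, Derivation.leibniz, map_sub, Derivation.map_one_eq_zero, derivative_X]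
    simp only [smul_eq_mul]
    push_cast
    linear_combination (1 - X) * ih

theorem hgcW_comb (hh : 1 ≤ h) (i : ℕ) : ∃ s : Fin (2 * h) → Polynomial ℚ, ∀ j : Fin (2 * h),
    (1 - X) ^ i * hgcW α i j = ∑ l, (s l : ℚ⟦X⟧) * hgU α l j := by
  induction i with
  | zero =>
    refine ⟨fun l => if l = ⟨0, by omega⟩ then 1 else 0, fun j => ?_⟩
    rw [Finset.sum_eq_single ⟨0, by omega⟩]
    · have h1 : (Finset.range (h + 1)).filter (fun k => 2 * h ≤ k + 0) = ∅ := by
        rw [Finset.filter_eq_empty_iff]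
        intro k hk
        rw [Finset.mem_range] at hk
        omega
      simp only [hgcW, hgU, hgF, of_apply, h1]
      simp
    · intro l _ hl
      simp [hl]
    · simp
  | succ i ih =>
    obtain ⟨s, hs⟩ := ih
    refine ⟨fun l => (1 - Polynomial.X) * Polynomial.X * Polynomial.derivative (s l)
      + ∑ m, s m * hgcM α m l + (i : Polynomial ℚ) * Polynomial.X * s l, fun j => ?_⟩
    have h1 := congrArg (d⁄dX ℚ) (hs j)
    rw [Derivation.leibniz, map_sum] at h1
    simp only [Derivation.leibniz, smul_eq_mul, derivative_coe] at h1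
    rw [Finset.sum_add_distrib] at h1
    have h2 : (1 - X) ^ i * (if 0 < (j : ℕ) then hgcW α i (j - 1) else 0)
        = ∑ m, (s m : ℚ⟦X⟧) * ∑ l, hgU α m l * Nm h ℚ⟦X⟧ l j := by
      simp only [← mul_apply, hgc_mul_Nm]
      split_ifs with hj
      · exact hs ⟨j - 1, by omega⟩
      · simp
    have h3 : ∑ m, (s m : ℚ⟦X⟧) * ((1 - X) * X * d⁄dX ℚ (hgU α m j))
        + ∑ m, (s m : ℚ⟦X⟧) * ((1 - X) * ∑ l, hgU α m l * Nm h ℚ⟦X⟧ l j)
        = ∑ l, (∑ m, (s m : ℚ⟦X⟧) * (hgcM α m l : ℚ⟦X⟧)) * hgU α l j := by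
      rw [← Finset.sum_add_distrib]
      simp only [← mul_add, hgc_ode hh]
      simp only [Finset.mul_sum, Finset.sum_mul, mul_assoc]
      exact Finset.sum_comm
    have h4 : ∑ m, (s m : ℚ⟦X⟧) * ((1 - X) * X * d⁄dX ℚ (hgU α m j))
        = (1 - X) * X * ∑ m, (s m : ℚ⟦X⟧) * d⁄dX ℚ (hgU α m j) := by
      rw [Finset.mul_sum]
      exact Finset.sum_congr rfl fun m _ => by ring
    have h5 : ∑ m, (s m : ℚ⟦X⟧) * ((1 - X) * ∑ l, hgU α m l * Nm h ℚ⟦X⟧ l j)
        = (1 - X) * ∑ m, (s m : ℚ⟦X⟧) * ∑ l, hgU α m l * Nm h ℚ⟦X⟧ l j := by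
      rw [Finset.mul_sum]
      exact Finset.sum_congr rfl fun m _ => by ring
    have h6 : ∑ l, (((1 - Polynomial.X) * Polynomial.X * Polynomial.derivative (s l)
          + ∑ m, s m * hgcM α m l + (i : Polynomial ℚ) * Polynomial.X * s l : Polynomial ℚ) : ℚ⟦X⟧)
          * hgU α l j
        = (1 - X) * X * ∑ l, hgU α l j * (Polynomial.derivative (s l) : ℚ⟦X⟧)
          + ∑ l, (∑ m, (s m : ℚ⟦X⟧) * (hgcM α m l : ℚ⟦X⟧)) * hgU α l j
          + (i : ℚ⟦X⟧) * X * ∑ l, (s l : ℚ⟦X⟧) * hgU α l j := by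
      rw [Finset.mul_sum, Finset.mul_sum, ← Finset.sum_add_distrib, ← Finset.sum_add_distrib]
      refine Finset.sum_congr rfl fun l _ => ?_
      have e1 : ((∑ m, s m * hgcM α m l : Polynomial ℚ) : ℚ⟦X⟧)
          = ∑ m, (s m : ℚ⟦X⟧) * (hgcM α m l : ℚ⟦X⟧) := by
        rw [← Polynomial.coeToPowerSeries.ringHom_apply, map_sum]
        simp
      have e2 : (((i : ℕ) : Polynomial ℚ) : ℚ⟦X⟧) = i := by
        rw [← Polynomial.coeToPowerSeries.ringHom_apply, map_natCast]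
      simp only [Polynomial.coe_add, Polynomial.coe_mul, Polynomial.coe_sub, Polynomial.coe_one,
        Polynomial.coe_X, e1, e2]
      ring
    rw [h6, hgcW_succ, ← h3, h4, h5, ← h2, ← hs j]
    linear_combination (1 - X) * X * h1 - X * hgcW α i j * hgc_deriv_pow i

/-- The Wronskian matrix is a rational multiple of the symplectic solution. -/
theorem hgW_eq (hh : 1 ≤ h) (hα : ∀ i, 0 < α i ∧ α i < 1) {z : ℚ} (h0 : 0 < z) (h1 : z < 1) :
    ∃ σ : Mx h ℚ, hgW α z = σ.map (Rat.castHom ℝ) * (hgV α z * un h (Real.log z)) := by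
  choose s hs using fun i => hgcW_comb (α := α) hh i
  have hz0 : (0 : ℝ) < z := by exact_mod_cast h0
  have hz1 : (z : ℝ) < 1 := by exact_mod_cast h1
  have hza : |(z : ℝ)| < 1 := by rwa [abs_of_pos hz0]
  have hne : (1 - z : ℝ) ≠ 0 := (sub_pos.2 hz1).ne'
  refine ⟨Matrix.of fun i l => (s i l).eval z / (1 - z) ^ (i : ℕ), ?_⟩
  rw [← Matrix.mul_assoc]
  ext i j
  have h2 : ∀ m : Fin (2 * h), ((Matrix.of fun (i l : Fin (2 * h)) =>
      (s i l).eval z / (1 - z) ^ (i : ℕ)).map (Rat.castHom ℝ) * hgV α z) i m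
      = ev (hgcW α i m) z := fun m => by
    have h3 := congrArg (fun f => ev f z) (hs i m)
    beta_reduce at h3
    rw [hgc_ev_comb _ _ (fun l => hgc_U_mem hα l m) hza] at h3
    have h4 := hgc_ev_comb (ι := Unit) (fun _ => (1 - Polynomial.X) ^ (i : ℕ))
      (fun _ => hgcW α i m) (fun _ => hgcW_mem hα i m) hza
    simp only [Finset.univ_unique, Finset.sum_singleton, Polynomial.coe_pow, Polynomial.coe_sub,
      Polynomial.coe_one, Polynomial.coe_X, map_pow, map_sub, map_one, Polynomial.aeval_X] at h4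
    rw [h4] at h3
    refine mul_left_cancel₀ (pow_ne_zero (i : ℕ) hne) ?_
    rw [h3, mul_apply, Finset.mul_sum]
    refine Finset.sum_congr rfl fun l _ => ?_
    have h5 : Polynomial.aeval (z : ℝ) (s i l) = (((s i l).eval z : ℚ) : ℝ) := by
      have := Polynomial.aeval_algebraMap_apply ℝ z (s i l)
      simpa using this
    simp only [map_apply, of_apply, hgV, h5, eq_ratCast]
    push_cast
    field_simp
  rw [mul_apply]
  simp only [h2, un, of_apply]
  rw [Fin.sum_univ_eq_sum_range (fun m => ev (hgcW α i m) z * (if m ≤ (j : ℕ) then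
    algebraMap ℚ ℝ (1 / ((j : ℕ) - m).factorial) * Real.log z ^ ((j : ℕ) - m) else 0))]
  rw [← Finset.sum_subset (s₁ := Finset.range (j + 1)) (Finset.range_subset_range.2 j.2)]
  · rw [← Finset.sum_flip]
    simp only [hgW, of_apply]
    refine Finset.sum_congr rfl fun l hl => ?_
    rw [Finset.mem_range] at hl
    rw [if_pos (by omega), show (j : ℕ) - (j - l) = l by omega, ev]
    simp only [hgcW, coeff_mk, eq_ratCast]
    push_cast
    ring
  · intro m _ hm
    rw [Finset.mem_range] at hm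
    rw [if_neg (by omega), mul_zero]

end GPC

end

-- part MP_57341d_ag.H87.YSub
section

set_option autoImplicit false

namespace GPC

open PowerSeries Matrix

namespace YS

/-- Substitution of a series without constant term. -/
noncomputable def sb {g : ℚ⟦X⟧} (hg : constantCoeff g = 0) : ℚ⟦X⟧ →ₐ[ℚ] ℚ⟦X⟧ :=
  substAlgHom (HasSubst.of_constantCoeff_zero' hg)

section Sb

variable {g : ℚ⟦X⟧} (hg : constantCoeff g = 0)

theorem sb_apply (f : ℚ⟦X⟧) : sb hg f = f.subst g :=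
  congrFun (coe_substAlgHom (HasSubst.of_constantCoeff_zero' hg)) f

theorem sb_X : sb hg X = g := by
  rw [sb_apply]; exact subst_X (HasSubst.of_constantCoeff_zero' hg)

theorem sb_C (q : ℚ) : sb hg (C q) = C q := (sb hg).commutes q

theorem sb_deriv (f : ℚ⟦X⟧) : d⁄dX ℚ (sb hg f) = sb hg (d⁄dX ℚ f) * d⁄dX ℚ g := by
  rw [sb_apply, sb_apply]; exact derivative_subst (HasSubst.of_constantCoeff_zero' hg)

include hg in
theorem coeff_pow_zero {n k : ℕ} (h : n < k) : coeff n (g ^ k) = 0 :=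
  X_pow_dvd_iff.1 (pow_dvd_pow_of_dvd (X_dvd_iff.2 hg) k) n h

theorem coeff_sb (f : ℚ⟦X⟧) (n : ℕ) :
    coeff n (sb hg f) = ∑ k ∈ Finset.range (n + 1), coeff k f * coeff n (g ^ k) := by
  rw [sb_apply, coeff_subst' (HasSubst.of_constantCoeff_zero' hg),
    finsum_eq_sum_of_support_subset (s := Finset.range (n + 1))]
  · simp only [smul_eq_mul]
  · intro k hk
    by_contra hc
    rw [Finset.coe_range, Set.mem_Iio, not_lt] at hc
    exact hk (by simp only [coeff_pow_zero hg (show n < k by omega), smul_zero])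

end Sb

theorem den_zero (D : ℕ → ℕ) : Den 0 D := fun _ _ _ => ⟨0, by simp⟩

theorem den_add {f g : ℚ⟦X⟧} {D : ℕ → ℕ} (hf : Den f D) (hg : Den g D) : Den (f + g) D := by
  intro n k hk
  obtain ⟨z, hz⟩ := hf n k hk
  obtain ⟨z', hz'⟩ := hg n k hk
  exact ⟨z + z', by rw [map_add, mul_add, hz, hz', Int.cast_add]⟩

theorem den_sum {ι : Type} (s : Finset ι) {F : ι → ℚ⟦X⟧} {D : ℕ → ℕ} (h : ∀ i ∈ s, Den (F i) D) :
    Den (∑ i ∈ s, F i) D :=
  Finset.sum_induction F (fun f => Den f D) (fun _ _ => den_add) (den_zero D) h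

theorem den_pow {f : ℚ⟦X⟧} {D : ℕ → ℕ} (hf : Den f D) (k : ℕ) : Den (f ^ k) (fun n => D n ^ k) := by
  induction k with
  | zero => simpa using Den.one
  | succ k ih => simpa only [pow_succ] using ih.mul hf

theorem den_C (q : ℚ) (m : ℕ) (z : ℤ) (h : (m : ℚ) * q = z) : Den (C q) (fun _ => m) := by
  intro n k _
  rw [coeff_C]
  split_ifs
  · exact ⟨z, h⟩
  · exact ⟨0, by simp⟩

theorem den_X : Den X (fun _ => 1) := by
  intro n k _
  rw [coeff_X]
  split_ifs
  · exact ⟨1, by simp⟩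
  · exact ⟨0, by simp⟩

theorem den_sb {g : ℚ⟦X⟧} (hg : constantCoeff g = 0) (h1 : Den g (fun _ => 1)) {f : ℚ⟦X⟧}
    {D : ℕ → ℕ} (hf : Den f D) : Den (sb hg f) D := by
  intro n k hk
  rw [coeff_sb, Finset.mul_sum]
  refine Finset.sum_induction _ (fun x : ℚ => ∃ z : ℤ, x = z) ?_ ⟨0, by simp⟩ fun j hj => ?_
  · rintro _ _ ⟨z, rfl⟩ ⟨z', rfl⟩
    exact ⟨z + z', by simp⟩
  · obtain ⟨z, hz⟩ := hf n j (by have := Finset.mem_range.1 hj; omega)
    obtain ⟨z', hz'⟩ := den_pow h1 j k k le_rfl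
    refine ⟨z * z', ?_⟩
    rw [Int.cast_mul, ← hz, ← hz']
    simp only [one_pow, Nat.cast_one]
    ring

theorem nrm_nonneg {f : ℚ⟦X⟧} {r B : ℝ} (hf : Nrm f r B) (hr : 0 ≤ r) : 0 ≤ B :=
  le_trans (tsum_nonneg fun n => by positivity) hf.2

theorem nrm_C (q : ℚ) (r : ℝ) : Nrm (C q) r |(q : ℝ)| := by
  have h : HasSum (fun n => |((coeff n (C q : ℚ⟦X⟧) : ℚ) : ℝ)| * r ^ n)
      (|((coeff 0 (C q : ℚ⟦X⟧) : ℚ) : ℝ)| * r ^ 0) :=
    hasSum_single 0 fun n hn => by simp [coeff_C, hn]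
  exact ⟨h.summable, by rw [h.tsum_eq]; simp⟩

theorem nrm_X (r : ℝ) : Nrm X r r := by
  have h : HasSum (fun n => |((coeff n (X : ℚ⟦X⟧) : ℚ) : ℝ)| * r ^ n)
      (|((coeff 1 (X : ℚ⟦X⟧) : ℚ) : ℝ)| * r ^ 1) :=
    hasSum_single 1 fun n hn => by simp [coeff_X, hn]
  exact ⟨h.summable, by rw [h.tsum_eq]; simp⟩

theorem ev_C (q : ℚ) (x : ℝ) : ev (C q) x = q := by
  rw [ev, tsum_eq_single 0 fun n hn => by simp [coeff_C, hn]]; simp

theorem ev_X (x : ℝ) : ev X x = x := by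
  rw [ev, tsum_eq_single 1 fun n hn => by simp [coeff_X, hn]]; simp

theorem nrm_zero (r : ℝ) : Nrm 0 r 0 := by simpa using nrm_C 0 r

theorem ev_zero' (x : ℝ) : ev 0 x = 0 := by simpa using ev_C 0 x

theorem nrm_pow {f : ℚ⟦X⟧} {r B : ℝ} (hf : Nrm f r B) (hr : 0 ≤ r) (k : ℕ) :
    Nrm (f ^ k) r (B ^ k) := by
  induction k with
  | zero => simpa using Nrm.one
  | succ k ih => simpa only [pow_succ] using ih.mul hf hr

theorem ev_pow {f : ℚ⟦X⟧} {r B x : ℝ} (hf : Nrm f r B) (hx : |x| ≤ r) (k : ℕ) :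
    ev (f ^ k) x = ev f x ^ k := by
  induction k with
  | zero => simpa using ev_C 1 x
  | succ k ih =>
    rw [pow_succ, ev_mul (nrm_pow hf ((abs_nonneg _).trans hx) k) hf hx, ih, pow_succ]

theorem nrm_sum {ι : Type} (s : Finset ι) {F : ι → ℚ⟦X⟧} {B : ι → ℝ} {r : ℝ} (hr : 0 ≤ r)
    (h : ∀ i, Nrm (F i) r (B i)) : Nrm (∑ i ∈ s, F i) r (∑ i ∈ s, B i) := by
  classical
  induction s using Finset.induction_on with
  | empty => simpa using nrm_zero r
  | insert a s ha ih =>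
    rw [Finset.sum_insert ha, Finset.sum_insert ha]
    exact (h a).add ih hr

theorem ev_sum {ι : Type} (s : Finset ι) {F : ι → ℚ⟦X⟧} {B : ι → ℝ} {r x : ℝ} (hx : |x| ≤ r)
    (h : ∀ i, Nrm (F i) r (B i)) : ev (∑ i ∈ s, F i) x = ∑ i ∈ s, ev (F i) x := by
  classical
  induction s using Finset.induction_on with
  | empty => simpa using ev_zero' x
  | insert a s ha ih =>
    rw [Finset.sum_insert ha, Finset.sum_insert ha,
      ev_add (h a) (nrm_sum s ((abs_nonneg _).trans hx) h) hx, ih]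

theorem nrm_geo {f : ℚ⟦X⟧} {a r : ℝ} (hr : 0 ≤ r) (ha : 0 ≤ a) (har : a * r ≤ 1 / 2)
    (h : ∀ n, |((coeff n f : ℚ) : ℝ)| ≤ a ^ n) : Nrm f r 2 := by
  have h1 : ∀ n, |((coeff n f : ℚ) : ℝ)| * r ^ n ≤ (1 / 2) ^ n := fun n =>
    calc |((coeff n f : ℚ) : ℝ)| * r ^ n ≤ a ^ n * r ^ n := by gcongr; exact h n
      _ = (a * r) ^ n := by ring
      _ ≤ (1 / 2) ^ n := by gcongr
  have h2 := hasSum_geometric_two
  have h3 := Summable.of_nonneg_of_le (fun n => by positivity) h1 h2.summable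
  exact ⟨h3, (h3.tsum_le_tsum h1 h2.summable).trans (by rw [h2.tsum_eq])⟩

section Dbl

variable {f g : ℚ⟦X⟧} (h0 : constantCoeff g = 0) {r r' B : ℝ}

theorem dbl_summable (hf : Nrm f r B) (hg : Nrm g r' r) (hr' : 0 ≤ r') :
    Summable fun p : ℕ × ℕ =>
      |((coeff p.1 f : ℚ) : ℝ)| * (|((coeff p.2 (g ^ p.1) : ℚ) : ℝ)| * r' ^ p.2) := by
  rw [summable_prod_of_nonneg fun p => by positivity]
  refine ⟨fun k => ?_, ?_⟩
  · exact Summable.mul_left |((coeff k f : ℚ) : ℝ)| (nrm_pow hg hr' k).1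
  refine Summable.of_nonneg_of_le (fun k => tsum_nonneg fun n => by positivity) (fun k => ?_) hf.1
  simp only [tsum_mul_left]
  exact mul_le_mul_of_nonneg_left (nrm_pow hg hr' k).2 (abs_nonneg _)

theorem nrm_sb (hf : Nrm f r B) (hg : Nrm g r' r) (hr' : 0 ≤ r') : Nrm (sb h0 f) r' B := by
  have hs := dbl_summable hf hg hr'
  have h1 : ∀ n, |((coeff n (sb h0 f) : ℚ) : ℝ)| * r' ^ n ≤
      ∑' k, |((coeff k f : ℚ) : ℝ)| * (|((coeff n (g ^ k) : ℚ) : ℝ)| * r' ^ n) := fun n => by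
    rw [tsum_eq_sum (s := Finset.range (n + 1)) fun k hk => by
      rw [coeff_pow_zero h0 (by simpa using hk)]; simp]
    rw [coeff_sb, Rat.cast_sum]
    refine (mul_le_mul_of_nonneg_right (Finset.abs_sum_le_sum_abs _ _) (by positivity)).trans ?_
    rw [Finset.sum_mul]
    refine (Finset.sum_congr rfl fun k _ => ?_).le
    rw [Rat.cast_mul, abs_mul, mul_assoc]
  have h2 : Summable fun n =>
      ∑' k, |((coeff k f : ℚ) : ℝ)| * (|((coeff n (g ^ k) : ℚ) : ℝ)| * r' ^ n) :=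
    hs.prod_symm.prod
  have h3 := Summable.of_nonneg_of_le (fun n => by positivity) h1 h2
  refine ⟨h3, (h3.tsum_le_tsum h1 h2).trans ?_⟩
  rw [Summable.tsum_comm (f := fun k n =>
    |((coeff k f : ℚ) : ℝ)| * (|((coeff n (g ^ k) : ℚ) : ℝ)| * r' ^ n)) hs]
  refine le_trans (hs.prod.tsum_le_tsum (fun k => ?_) hf.1) hf.2
  simp only [tsum_mul_left]
  exact mul_le_mul_of_nonneg_left (nrm_pow hg hr' k).2 (abs_nonneg _)

theorem ev_sb (hf : Nrm f r B) (hg : Nrm g r' r) {x : ℝ} (hx : |x| ≤ r') :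
    ev (sb h0 f) x = ev f (ev g x) := by
  have hr' : 0 ≤ r' := (abs_nonneg _).trans hx
  have hs : Summable fun p : ℕ × ℕ =>
      ((coeff p.1 f : ℚ) : ℝ) * (((coeff p.2 (g ^ p.1) : ℚ) : ℝ) * x ^ p.2) := by
    refine Summable.of_norm_bounded (dbl_summable hf hg hr') fun p => ?_
    rw [Real.norm_eq_abs, abs_mul, abs_mul, abs_pow]
    gcongr
  have h1 : ∀ n, ((coeff n (sb h0 f) : ℚ) : ℝ) * x ^ n =
      ∑' k, ((coeff k f : ℚ) : ℝ) * (((coeff n (g ^ k) : ℚ) : ℝ) * x ^ n) := fun n => by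
    rw [tsum_eq_sum (s := Finset.range (n + 1)) fun k hk => by
      rw [coeff_pow_zero h0 (by simpa using hk)]; simp]
    rw [coeff_sb, Rat.cast_sum, Finset.sum_mul]
    refine Finset.sum_congr rfl fun k _ => ?_
    rw [Rat.cast_mul, mul_assoc]
  rw [ev, tsum_congr h1, Summable.tsum_comm (f := fun k n =>
    ((coeff k f : ℚ) : ℝ) * (((coeff n (g ^ k) : ℚ) : ℝ) * x ^ n)) hs, ev]
  refine tsum_congr fun k => ?_
  rw [tsum_mul_left, ← ev_pow hg hx k]
  rfl

end Dbl

/-- The geometric series. -/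
noncomputable def geo (a : ℕ) : ℚ⟦X⟧ := PowerSeries.mk fun n => (a : ℚ) ^ n

/-- The series c X / (1 - a X). -/
noncomputable def gg (c a : ℕ) : ℚ⟦X⟧ := C (c : ℚ) * X * geo a

/-- The series - log (1 - a X). -/
noncomputable def ell (a : ℕ) : ℚ⟦X⟧ := PowerSeries.mk fun n => (a : ℚ) ^ n / n

theorem geo_mul (a : ℕ) : geo a * (1 - C (a : ℚ) * X) = 1 := by
  ext n
  rw [mul_sub, mul_one, map_sub, ← mul_assoc, mul_comm (geo a) (C _), coeff_one]
  cases n with
  | zero => simp [geo]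
  | succ n => rw [coeff_succ_mul_X, coeff_C_mul]; simp [geo, pow_succ, mul_comm]

theorem gg_const (c a : ℕ) : constantCoeff (gg c a) = 0 := by simp [gg]

theorem gg_mul (c a : ℕ) : gg c a * (1 - C (a : ℚ) * X) = C (c : ℚ) * X := by
  rw [gg, mul_assoc, geo_mul, mul_one]

theorem gg_deriv (c a : ℕ) : X * d⁄dX ℚ (gg c a) * (1 - C (a : ℚ) * X) = gg c a := by
  have h := congrArg (d⁄dX ℚ) (gg_mul c a)
  simp only [Derivation.leibniz, map_sub, Derivation.map_one_eq_zero, derivative_C, derivative_X,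
    smul_eq_mul, mul_zero, add_zero, mul_one, zero_sub] at h
  linear_combination X * h - gg_mul c a

theorem ell_deriv (a : ℕ) : d⁄dX ℚ (ell a) * (1 - C (a : ℚ) * X) = C (a : ℚ) := by
  have h : d⁄dX ℚ (ell a) = C (a : ℚ) * geo a := by
    ext n
    rw [coeff_derivative, coeff_C_mul]
    simp only [ell, geo, coeff_mk]
    push_cast
    field_simp
    ring
  rw [h, mul_assoc, geo_mul, mul_one]

theorem den_gg (c a : ℕ) : Den (gg c a) (fun _ => 1) := by
  have h1 : Den (geo a) (fun _ => 1) := fun n k _ => ⟨a ^ k, by simp [geo]⟩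
  exact (((den_C (c : ℚ) 1 c (by simp)).mul den_X).mul h1).of_dvd fun n => by simp

theorem den_ell (a : ℕ) : Den (ell a) Nat.lcmUpto := by
  intro n k hk
  rcases Nat.eq_zero_or_pos k with rfl | h0
  · exact ⟨0, by simp [ell]⟩
  obtain ⟨d, hd⟩ : k ∣ Nat.lcmUpto n := Finset.dvd_lcm (f := id) (Finset.mem_Icc.2 ⟨h0, hk⟩)
  refine ⟨d * a ^ k, ?_⟩
  have : (k : ℚ) ≠ 0 := by positivity
  rw [hd, ell, coeff_mk]
  push_cast
  field_simp

theorem lcmUpto_le (n : ℕ) : Nat.lcmUpto n ≤ 2 ^ (8 * n) := by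
  have h1 := Chebyshev.psi_le_const_mul_self (x := n) (by positivity)
  rw [Chebyshev.psi_eq_log_lcmUpto] at h1
  have h2 : Real.log 4 = 2 * Real.log 2 := by
    rw [show (4 : ℝ) = 2 ^ 2 by norm_num, Real.log_pow]; norm_num
  have h3 := Real.log_two_gt_d9
  have h4 : Real.log (Nat.lcmUpto n) ≤ Real.log (2 ^ (8 * n)) := by
    rw [Real.log_pow]
    push_cast
    have : (0 : ℝ) ≤ n := by positivity
    nlinarith
  have h5 := (Real.log_le_log_iff (by exact_mod_cast Nat.lcmUpto_pos n) (by positivity)).1 h4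
  exact_mod_cast h5

theorem nrm_geo' (a : ℕ) {r : ℝ} (hr : 0 ≤ r) (har : a * r ≤ 1 / 2) : Nrm (geo a) r 2 :=
  nrm_geo hr (Nat.cast_nonneg a) har fun n => by simp [geo]

theorem nrm_ell (a : ℕ) {r : ℝ} (hr : 0 ≤ r) (har : a * r ≤ 1 / 2) : Nrm (ell a) r 2 := by
  refine nrm_geo hr (Nat.cast_nonneg a) har fun n => ?_
  rw [ell, coeff_mk]
  push_cast
  rw [abs_of_nonneg (by positivity)]
  rcases Nat.eq_zero_or_pos n with rfl | h0
  · simp
  · exact div_le_self (by positivity) (by exact_mod_cast h0)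

theorem nrm_gg (c a : ℕ) {r : ℝ} (hr : 0 ≤ r) (har : a * r ≤ 1 / 2) (hcr : c * r ≤ 1 / 4) :
    Nrm (gg c a) r (1 / 2) := by
  refine ((((nrm_C (c : ℚ) r).mul (nrm_X r) hr).mul (nrm_geo' a hr har) hr)).mono ?_
  rw [Rat.cast_natCast, Nat.abs_cast]
  linarith

theorem ev_gg (c a : ℕ) {r x : ℝ} (hx : |x| ≤ r) (har : a * r ≤ 1 / 2) :
    ev (gg c a) x = c * x / (1 - a * x) := by
  have hr : 0 ≤ r := (abs_nonneg _).trans hx
  have h1 : |(a : ℝ) * x| < 1 := by
    rw [abs_mul, Nat.abs_cast]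
    have : (a : ℝ) * |x| ≤ a * r := by gcongr
    linarith
  rw [gg, ev_mul ((nrm_C (c : ℚ) r).mul (nrm_X r) hr) (nrm_geo' a hr har) hx,
    ev_mul (nrm_C (c : ℚ) r) (nrm_X r) hx, ev_C, ev_X, div_eq_mul_inv,
    ← tsum_geometric_of_abs_lt_one h1, ev]
  simp [geo, mul_pow]

theorem ev_ell (a : ℕ) {x : ℝ} (h1 : |(a : ℝ) * x| < 1) :
    ev (ell a) x = -Real.log (1 - a * x) := by
  have h2 := Real.hasSum_pow_div_log_of_abs_lt_one h1
  refine HasSum.tsum_eq ?_
  rw [← hasSum_nat_add_iff' 1]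
  have e1 : ∑ i ∈ Finset.range 1, ((coeff i (ell a) : ℚ) : ℝ) * x ^ i = 0 := by simp [ell]
  have e2 : (fun n => ((coeff (n + 1) (ell a) : ℚ) : ℝ) * x ^ (n + 1))
      = fun n : ℕ => ((a : ℝ) * x) ^ (n + 1) / (n + 1) := by
    funext n
    rw [ell, coeff_mk]
    push_cast
    ring
  rw [e1, sub_zero, e2]
  exact h2

section Un

variable {h : ℕ} {R : Type} [CommRing R] [Algebra ℚ R]

theorem un_mul_Nm (t : R) (i j : Fin (2 * h)) : (un h t * Nm h R) i j =
    if (i : ℕ) < j then algebraMap ℚ R (1 / ((j : ℕ) - i - 1).factorial) * t ^ ((j : ℕ) - i - 1)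
    else 0 := by
  rw [mul_apply]
  rcases Nat.eq_zero_or_pos (j : ℕ) with hj | hj
  · rw [if_neg (by omega)]
    refine Finset.sum_eq_zero fun l _ => ?_
    simp only [Nm, of_apply]
    rw [if_neg (by omega), mul_zero]
  · rw [Finset.sum_eq_single (⟨(j : ℕ) - 1, by have := j.2; omega⟩ : Fin (2 * h))]
    · simp only [Nm, un, of_apply]
      rw [if_pos (show (j : ℕ) - 1 + 1 = j by omega), mul_one,
        show (j : ℕ) - 1 - i = j - i - 1 by omega]
      exact if_congr (by omega) rfl rfl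
    · intro l _ hl
      simp only [Nm, of_apply]
      rw [if_neg (fun hc => hl (Fin.ext (by simp only; omega))), mul_zero]
    · simp

theorem Nm_mul_un (t : R) : Nm h R * un h t = un h t * Nm h R := by
  ext i j
  rw [un_mul_Nm, mul_apply]
  by_cases hi : (i : ℕ) + 1 < 2 * h
  · rw [Finset.sum_eq_single (⟨(i : ℕ) + 1, hi⟩ : Fin (2 * h))]
    · simp only [Nm, un, of_apply]
      rw [if_pos trivial, one_mul, show (j : ℕ) - (i + 1) = j - i - 1 by omega]
      exact if_congr (by omega) rfl rfl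
    · intro l _ hl
      simp only [Nm, of_apply]
      rw [if_neg (fun hc => hl (Fin.ext (by simp only; omega))), zero_mul]
    · simp
  · rw [if_neg (by have := j.2; omega)]
    refine Finset.sum_eq_zero fun l _ => ?_
    simp only [Nm, of_apply]
    rw [if_neg (by have := l.2; omega), zero_mul]

theorem un_deriv (t : ℚ⟦X⟧) :
    (un h t).map (d⁄dX ℚ) = d⁄dX ℚ t • (un h t * Nm h ℚ⟦X⟧) := by
  ext1 i j
  rw [Matrix.smul_apply, un_mul_Nm, map_apply]
  simp only [un, of_apply]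
  rcases lt_trichotomy (i : ℕ) j with hl | hl | hl
  · obtain ⟨m, hm⟩ : ∃ m, (j : ℕ) - i = m + 1 := ⟨j - i - 1, by omega⟩
    rw [if_pos hl.le, if_pos hl, hm, Nat.add_sub_cancel, Derivation.leibniz,
      Derivation.map_algebraMap, Derivation.leibniz_pow]
    have h1 : (1 / (m + 1).factorial : ℚ) * ((m + 1 : ℕ) : ℚ) = 1 / m.factorial := by
      rw [Nat.factorial_succ]; push_cast; field_simp
    have h2 := congrArg (algebraMap ℚ ℚ⟦X⟧) h1
    rw [map_mul, map_natCast] at h2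
    simp only [smul_eq_mul, nsmul_eq_mul, Nat.add_sub_cancel, mul_zero, add_zero]
    linear_combination (t ^ m * d⁄dX ℚ t) * h2
  · rw [if_pos hl.le, if_neg (by omega), hl, Nat.sub_self, pow_zero, mul_one,
      Derivation.map_algebraMap, smul_zero]
  · rw [if_neg (by omega), if_neg (by omega), map_zero, smul_zero]

theorem deriv_mul (A B : Mx h ℚ⟦X⟧) :
    (A * B).map (d⁄dX ℚ) = A.map (d⁄dX ℚ) * B + A * B.map (d⁄dX ℚ) := by
  ext1 i j
  simp only [map_apply, mul_apply, Matrix.add_apply, map_sum, Derivation.leibniz, smul_eq_mul,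
    ← Finset.sum_add_distrib]
  exact Finset.sum_congr rfl fun l _ => by ring

theorem den_un (a : ℕ) (i j : Fin (2 * h)) :
    Den (un h (ell a) i j) (fun n => (2 * h).factorial * Nat.lcmUpto n ^ (2 * h)) := by
  simp only [un, of_apply]
  split_ifs
  · have hm : (j : ℕ) - i ≤ 2 * h := by have := j.2; omega
    refine ((den_C (1 / ((j : ℕ) - i).factorial) ((j : ℕ) - i).factorial 1 (by
      field_simp; simp)).mul (den_pow (den_ell a) _)).of_dvd fun n => ?_
    exact Nat.mul_dvd_mul (Nat.factorial_dvd_factorial hm) (pow_dvd_pow _ hm)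
  · exact den_zero _

theorem nrm_un {t : ℚ⟦X⟧} {r : ℝ} (hr : 0 ≤ r) (ht : Nrm t r 2) (i j : Fin (2 * h)) :
    Nrm (un h t i j) r (|((1 / ((j : ℕ) - i).factorial : ℚ) : ℝ)| * 2 ^ ((j : ℕ) - i)) := by
  simp only [un, of_apply]
  split_ifs
  · exact (nrm_C _ r).mul (nrm_pow ht hr _) hr
  · exact (nrm_zero r).mono (by positivity)

theorem ev_un {t : ℚ⟦X⟧} {r x : ℝ} (hx : |x| ≤ r) (ht : Nrm t r 2) (i j : Fin (2 * h)) :
    ev (un h t i j) x = un h (ev t x) i j := by
  simp only [un, of_apply]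
  split_ifs
  · have := ev_mul (nrm_C (1 / ((j : ℕ) - i).factorial) r)
      (nrm_pow ht ((abs_nonneg _).trans hx) ((j : ℕ) - i)) hx
    rw [ev_C, ev_pow ht hx] at this
    exact this
  · exact ev_zero' x

end Un

variable {h : ℕ} {α : Fin h → ℚ}

/-- The substituted solution. -/
noncomputable def YY (α : Fin h → ℚ) (c a : ℕ) : Mx h ℚ⟦X⟧ :=
  (hgU α).map (sb (gg_const c a)) * un h (ell a)

theorem alg_ode {R : Type} [CommRing R] {N B E W U' V : Mx h R} {x a c g g' l' : R}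
    (h1 : ((1 - g) * g) • U' = ((1 - g) • (N + g • B) + g • E) * W - (1 - g) • (W * N))
    (hN : N * V = V * N) (e1 : g * (1 - a * x) = c * x) (e2 : x * g' * (1 - a * x) = g)
    (e3 : l' * (1 - a * x) = a) :
    (x * ((1 - (a + c) * x) * (1 - a * x) ^ 2)) • ((g' • U') * V + W * (l' • (V * N)))
      = (((1 - (a + c) * x) * (1 - a * x)) • N + ((1 - (a + c) * x) * (c * x)) • B
          + (c * x * (1 - a * x)) • E) * (W * V)
        - ((1 - (a + c) * x) * (1 - a * x) ^ 2) • (W * V * N) := by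
  generalize hs : 1 - a * x = s at *
  generalize hq : 1 - (a + c) * x = q at *
  have e4 : (1 - g) * s = q := by linear_combination hq - hs - e1
  have h3 : (x * (q * s ^ 2) * g') • U' = ((q * s) • N + (q * (c * x)) • B + (c * x * s) • E) * W
      - (q * s) • (W * N) := by
    have e5 : x * (q * s ^ 2) * g' = s ^ 2 * ((1 - g) * g) := by
      linear_combination (q * s) * e2 - (s * g) * e4
    rw [e5, ← smul_smul, h1, smul_sub, ← Matrix.smul_mul, smul_smul, smul_add, smul_smul,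
      smul_add, smul_smul, smul_smul, show s ^ 2 * (1 - g) * g = q * (c * x) by
        linear_combination (s * g) * e4 + q * e1,
      show s ^ 2 * (1 - g) = q * s by linear_combination s * e4,
      show s ^ 2 * g = c * x * s by linear_combination s * e1]
  rw [smul_add, ← Matrix.smul_mul, smul_smul, h3, Matrix.sub_mul,
    Matrix.mul_smul, smul_smul, Matrix.smul_mul, Matrix.mul_assoc W, hN,
    Matrix.mul_assoc W, Matrix.mul_assoc _ W, sub_add, ← sub_smul,
    show q * s - x * (q * s ^ 2) * l' = q * s ^ 2 by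
      linear_combination (-(x * q * s)) * e3 + (q * s) * hs]

theorem YY_ode (hh : 1 ≤ h) (c a : ℕ) :
    (X * ((1 - C ((a : ℚ) + c) * X) * (1 - C (a : ℚ) * X) ^ 2) : ℚ⟦X⟧) • (YY α c a).map (d⁄dX ℚ)
      = (((1 - C ((a : ℚ) + c) * X) * (1 - C (a : ℚ) * X) : ℚ⟦X⟧) • Nm h ℚ⟦X⟧
          + ((1 - C ((a : ℚ) + c) * X) * (C (c : ℚ) * X) : ℚ⟦X⟧) • (Bm α).map C
          + (C (c : ℚ) * X * (1 - C (a : ℚ) * X) : ℚ⟦X⟧) • Em h ℚ⟦X⟧) * YY α c a
        - ((1 - C ((a : ℚ) + c) * X) * (1 - C (a : ℚ) * X) ^ 2 : ℚ⟦X⟧)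
          • (YY α c a * Nm h ℚ⟦X⟧) := by
  set φ : ℚ⟦X⟧ →+* ℚ⟦X⟧ := (sb (gg_const c a) : ℚ⟦X⟧ →+* ℚ⟦X⟧) with hφ
  have hX : φ X = gg c a := sb_X (gg_const c a)
  have hB : ((Bm α).map C).map φ = (Bm α).map C := by
    ext1 i j; exact sb_C (gg_const c a) _
  have h1 := congrArg (fun M : Mx h ℚ⟦X⟧ => M.map φ) (hgU_ode (α := α) hh)
  simp only [Matrix.map_smul' _ _ _ (map_mul φ), Matrix.map_sub _ (map_sub φ),
    Matrix.map_add _ (map_add φ), Matrix.map_mul, Nm_map, Em_map, hB, map_mul, map_sub, map_one,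
    hX] at h1
  have h2 : ((hgU α).map φ).map (d⁄dX ℚ) = d⁄dX ℚ (gg c a) • ((hgU α).map (d⁄dX ℚ)).map φ := by
    ext1 i j
    rw [Matrix.smul_apply, smul_eq_mul, mul_comm (d⁄dX ℚ (gg c a))]
    exact sb_deriv (gg_const c a) _
  have hY : YY α c a = (hgU α).map φ * un h (ell a) := rfl
  rw [map_add, hY, deriv_mul, h2, un_deriv]
  exact alg_ode h1 (Nm_mul_un _) (gg_mul c a) (gg_deriv c a) (ell_deriv a)

theorem YY_ode' (hh : 1 ≤ h) (c a : ℕ) (e : Fin (2 * h) × Fin (2 * h)) :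
    ∃ p : Fin (2 * h) × Fin (2 * h) → Polynomial ℚ, (∀ e', (p e').natDegree ≤ 3) ∧
      X * ((1 - C ((a : ℚ) + c) * X) * (1 - C (a : ℚ) * X) ^ 2) * d⁄dX ℚ (YY α c a e.1 e.2)
        = ∑ e', (p e' : ℚ⟦X⟧) * YY α c a e'.1 e'.2 := by
  let q : Polynomial ℚ := 1 - Polynomial.C ((a : ℚ) + c) * Polynomial.X
  let s : Polynomial ℚ := 1 - Polynomial.C (a : ℚ) * Polynomial.X
  let A : Fin (2 * h) → Polynomial ℚ := fun l => q * s * Polynomial.C (Nm h ℚ e.1 l)
    + q * (Polynomial.C (c : ℚ) * Polynomial.X) * Polynomial.C (Bm α e.1 l)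
    + Polynomial.C (c : ℚ) * Polynomial.X * s * Polynomial.C (Em h ℚ e.1 l)
  let T : Fin (2 * h) → Polynomial ℚ := fun l => q * s ^ 2 * Polynomial.C (Nm h ℚ l e.2)
  refine ⟨fun e' => (if e'.2 = e.2 then A e'.1 else 0) - (if e'.1 = e.1 then T e'.2 else 0),
    fun e' => ?_, ?_⟩
  · refine (Polynomial.natDegree_sub_le _ _).trans (max_le ?_ ?_)
    · split_ifs
      · simp only [A, q, s]; compute_degree!
      · simp
    · split_ifs
      · simp only [T, q, s]; compute_degree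
      · simp
  · have h1 := congrFun (congrFun (YY_ode (α := α) hh c a) e.1) e.2
    rw [Matrix.smul_apply, smul_eq_mul, map_apply] at h1
    rw [h1, Matrix.sub_apply, Matrix.smul_apply, mul_apply, mul_apply, smul_eq_mul, Finset.mul_sum]
    have h2 : ∀ e' : Fin (2 * h) × Fin (2 * h),
        (((if e'.2 = e.2 then A e'.1 else 0) - (if e'.1 = e.1 then T e'.2 else 0) :
          Polynomial ℚ) : ℚ⟦X⟧) * YY α c a e'.1 e'.2
        = (if e'.2 = e.2 then (A e'.1 : ℚ⟦X⟧) * YY α c a e'.1 e'.2 else 0)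
          - (if e'.1 = e.1 then (T e'.2 : ℚ⟦X⟧) * YY α c a e'.1 e'.2 else 0) := fun e' => by
      rw [Polynomial.coe_sub, sub_mul]
      split_ifs <;> simp
    rw [Finset.sum_congr rfl fun e' _ => h2 e', Finset.sum_sub_distrib]
    congr 1
    · rw [Fintype.sum_prod_type]
      refine Finset.sum_congr rfl fun l _ => ?_
      rw [Finset.sum_ite_eq' Finset.univ e.2, if_pos (Finset.mem_univ _)]
      congr 1
      rw [← Nm_map (h := h) (C : ℚ →+* ℚ⟦X⟧), ← Em_map (h := h) (C : ℚ →+* ℚ⟦X⟧)]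
      simp only [A, q, s, Matrix.add_apply, Matrix.smul_apply, map_apply, smul_eq_mul, Polynomial.coe_add,
        Polynomial.coe_mul, Polynomial.coe_sub, Polynomial.coe_one, Polynomial.coe_C,
        Polynomial.coe_X]
    · rw [Fintype.sum_prod_type_right]
      refine Finset.sum_congr rfl fun l _ => ?_
      rw [Finset.sum_ite_eq' Finset.univ e.1, if_pos (Finset.mem_univ _)]
      rw [← Nm_map (h := h) (C : ℚ →+* ℚ⟦X⟧)]
      simp only [T, q, s, map_apply, Polynomial.coe_pow,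
        Polynomial.coe_mul, Polynomial.coe_sub, Polynomial.coe_one, Polynomial.coe_C,
        Polynomial.coe_X]
      ring

end YS

open YS in
/-- The G-functions attached to the points c / (N - a), in the variable z = 1 / N. -/
theorem exists_Y {h : ℕ} {α : Fin h → ℚ} (hh : 1 ≤ h) (hα : ∀ i, 0 < α i ∧ α i < 1) (c : ℕ) :
    ∃ (K : ℕ) (D : ℕ → ℕ), 2 ≤ K ∧ (∀ n, 0 < D n ∧ D n ≤ K ^ (n + 1)) ∧ ∀ a : ℕ,
      ∃ Y : Mx h ℚ⟦X⟧,
        (∀ e : Fin (2 * h) × Fin (2 * h), ∃ p : Fin (2 * h) × Fin (2 * h) → Polynomial ℚ,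
          (∀ e', (p e').natDegree ≤ 3) ∧
          X * ((1 - C ((a : ℚ) + c) * X) * (1 - C (a : ℚ) * X) ^ 2) * d⁄dX ℚ (Y e.1 e.2)
            = ∑ e', (p e' : ℚ⟦X⟧) * Y e'.1 e'.2) ∧
        (∀ i j n, |coeff n (Y i j)| ≤ ((K * (a + 1) : ℕ) : ℚ) ^ (n + 1)) ∧
        (∀ i j, Den (Y i j) D) ∧
        ∀ x : ℝ, |x| * (2 * (K * (a + 1) : ℕ)) ≤ 1 → |c * x / (1 - a * x)| < 1 ∧ 0 < 1 - a * x ∧
          Y.map (fun f => ev f x) = hgV α (c * x / (1 - a * x)) * un h (-Real.log (1 - a * x)) := by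
  obtain ⟨K₀, D₀, hD₀, hden⟩ := hgU_den hα
  obtain ⟨B, p, hB⟩ := hgU_growth hα
  choose B' hB' using fun i j => nrm_of_growth (hB i j) (r := 1 / 2) (by norm_num) (by norm_num)
  let B₀ : Fin (2 * h) × Fin (2 * h) → ℝ := fun e => ∑ l, B' e.1 l *
    (|((1 / ((e.2 : ℕ) - l).factorial : ℚ) : ℝ)| * 2 ^ ((e.2 : ℕ) - l))
  obtain ⟨B₁, hB₁⟩ := (Set.finite_range B₀).bddAbove
  let K : ℕ := K₀ * ((2 * h).factorial * 2 ^ (16 * h)) + ⌈B₁⌉₊ + 4 * (c + 1)
  have hK4 : 4 * (c + 1) ≤ K := Nat.le_add_left _ _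
  have hKB : B₁ ≤ K := (Nat.le_ceil _).trans (by
    exact_mod_cast (Nat.le_add_left _ _).trans (Nat.le_add_right _ _))
  refine ⟨K, fun n => D₀ n * ((2 * h).factorial * Nat.lcmUpto n ^ (2 * h)), by omega,
    fun n => ⟨?_, ?_⟩, fun a => ?_⟩
  · have := (hD₀ n).1
    have := Nat.lcmUpto_pos n
    positivity
  · calc D₀ n * ((2 * h).factorial * Nat.lcmUpto n ^ (2 * h))
        ≤ K₀ ^ (n + 1) * ((2 * h).factorial ^ (n + 1) * (2 ^ (16 * h)) ^ (n + 1)) := by
          refine Nat.mul_le_mul (hD₀ n).2 (Nat.mul_le_mul (Nat.le_self_pow (by omega) _) ?_)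
          refine (Nat.pow_le_pow_left (lcmUpto_le n) _).trans ?_
          rw [← pow_mul, ← pow_mul]
          exact Nat.pow_le_pow_right (by norm_num) (by nlinarith)
      _ = (K₀ * ((2 * h).factorial * 2 ^ (16 * h))) ^ (n + 1) := by rw [mul_pow, mul_pow]
      _ ≤ K ^ (n + 1) :=
          Nat.pow_le_pow_left ((Nat.le_add_right _ _).trans (Nat.le_add_right _ _)) _
  have hK4' : (4 : ℝ) * (c + 1) ≤ K := by exact_mod_cast hK4
  have hc0 : (0 : ℝ) ≤ c := Nat.cast_nonneg c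
  have ha0 : (0 : ℝ) ≤ a := Nat.cast_nonneg a
  set M : ℝ := ((K * (a + 1) : ℕ) : ℝ) with hM
  have hM' : M = K * (a + 1) := by rw [hM]; push_cast; ring
  have hKM : (K : ℝ) ≤ M := by rw [hM']; nlinarith
  have hM0 : 0 < M := by linarith
  have hr : (0 : ℝ) ≤ 1 / M := by positivity
  have har : a * (1 / M) ≤ 1 / 2 := by
    rw [mul_one_div, div_le_iff₀ hM0, hM']; nlinarith
  have hcr : c * (1 / M) ≤ 1 / 4 := by
    rw [mul_one_div, div_le_iff₀ hM0]; linarith
  have hg := nrm_gg c a hr har hcr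
  have hl := nrm_ell a hr har
  have hW : ∀ i l, Nrm (sb (gg_const c a) (hgU α i l)) (1 / M) (B' i l) := fun i l =>
    nrm_sb _ (hB' i l) hg hr
  refine ⟨YY α c a, YY_ode' hh c a, fun i j n => ?_, fun i j => ?_, fun x hx => ?_⟩
  · have h1 : Nrm (YY α c a i j) (1 / M) (B₀ (i, j)) := by
      rw [YY, mul_apply]
      exact nrm_sum Finset.univ hr fun l => (hW i l).mul (nrm_un hr hl l j) hr
    have h2 := (h1.coeff_le hr n).trans ((hB₁ ⟨(i, j), rfl⟩).trans (hKB.trans hKM))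
    rw [one_div, inv_pow, mul_inv_le_iff₀ (by positivity), ← pow_succ', hM] at h2
    exact_mod_cast h2
  · rw [YY, mul_apply]
    exact den_sum Finset.univ fun l _ =>
      (den_sb (gg_const c a) (den_gg c a) (hden i l)).mul (den_un a l j)
  · have hx' : |x| ≤ 1 / M := by
      rw [le_div_iff₀ hM0]; nlinarith [abs_nonneg x]
    have h1 : |(a : ℝ) * x| ≤ 1 / 2 := by
      rw [abs_mul, Nat.abs_cast]
      exact le_trans (by gcongr) har
    have h2 : |(c : ℝ) * x| ≤ 1 / 4 := by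
      rw [abs_mul, Nat.abs_cast]
      exact le_trans (by gcongr) hcr
    have h3 : 1 / 2 ≤ 1 - a * x := by linarith [(abs_le.1 h1).2]
    refine ⟨?_, by linarith, ?_⟩
    · rw [abs_div, abs_of_pos (a := 1 - a * x) (by linarith), div_lt_one (by linarith)]
      linarith
    · ext i j
      rw [map_apply, YY, mul_apply, mul_apply]
      simp only [map_apply]
      rw [ev_sum Finset.univ hx' fun l => (hW i l).mul (nrm_un hr hl l j) hr]
      refine Finset.sum_congr rfl fun l _ => ?_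
      rw [ev_mul (hW i l) (nrm_un hr hl l j) hx', ev_sb _ (hB' i l) hg hx', ev_un hx' hl,
        ev_gg c a hx' har, ev_ell a (by linarith)]
      rfl

end GPC

end
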