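import Pool.Agent.MP_57341d_ag.H96.Defs
import Mathlib
import Pool.Agent.MP_57341d_ag.Mg.H96_GenSpan
import Pool.Agent.MP_d171e3_nt.Small

-- part MP_57341d_ag.H96.Zeta
section

/-! Basic properties of the Weierstrass zeta function. -/

open Complex Filter Topology
open scoped PeriodPair

namespace GPC96

variable (L : PeriodPair)

theorem zeta_bound (r : ℝ) (hr : 0 < r) (s : ℂ) (hs : ‖s‖ < r) (l : ℂ) (h : 2 * r ≤ ‖l‖) :
    ‖1 / (s - l) + 1 / l + s / l ^ 2‖ ≤ 2 * r ^ 2 * ‖l‖ ^ (-3 : ℝ) := by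
  have h0 : 0 < ‖l‖ := by linarith
  have hl : l ≠ 0 := norm_pos_iff.1 h0
  have h1 : s - l ≠ 0 := by
    rw [sub_ne_zero]; rintro rfl; linarith
  have h2 : ‖l‖ / 2 ≤ ‖s - l‖ := by
    rw [norm_sub_rev]
    exact .trans (by linarith) (norm_sub_norm_le l s)
  calc _ = ‖s ^ 2 / (l ^ 2 * (s - l))‖ := by congr 1; field_simp; ring
    _ = ‖s‖ ^ 2 / (‖l‖ ^ 2 * ‖s - l‖) := by simp
    _ ≤ r ^ 2 / (‖l‖ ^ 2 * (‖l‖ / 2)) := by gcongr
    _ = 2 * r ^ 2 / ‖l‖ ^ 3 := by field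
    _ = _ := by norm_cast

/-- The zeta function with the term `l₀` omitted. -/
noncomputable def zetaEx (l₀ z : ℂ) : ℂ :=
  ∑' l : L.lattice, if l.1 = l₀ then 0 else (1 / (z - l) + 1 / (l : ℂ) + z / (l : ℂ) ^ 2)

theorem zeta_hasSumEx (l₀ : ℂ) : HasSumLocallyUniformly (fun (l : L.lattice) (z : ℂ) =>
    if l.1 = l₀ then 0 else (1 / (z - l) + 1 / (l : ℂ) + z / (l : ℂ) ^ 2)) (zetaEx L l₀) := by
  refine L.hasSumLocallyUniformly_aux (u := fun r l => 2 * r ^ 2 * ‖l‖ ^ (-3 : ℝ)) _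
    (fun _ _ => (ZLattice.summable_norm_rpow _ _ (by simp; norm_num)).mul_left _) fun r hr =>
    Filter.eventually_atTop.mpr ⟨2 * r, ?_⟩
  rintro _ h s hs l rfl
  split_ifs
  · rw [norm_zero]; positivity
  · exact zeta_bound r hr s hs l h

theorem zeta_term {z l : ℂ} (h : z ≠ l) :
    HasDerivAt (fun z : ℂ => 1 / (z - l) + 1 / l + z / l ^ 2) (-(1 / (z - l) ^ 2 - 1 / l ^ 2)) z := by
  have h1 : z - l ≠ 0 := sub_ne_zero.2 h
  have h2 := ((((hasDerivAt_id' z).sub_const l).fun_inv h1).add_const (1 / l)).fun_add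
    ((hasDerivAt_id' z).div_const (l ^ 2))
  simp only [one_div] at h2 ⊢
  exact h2.congr_deriv (by ring)

theorem zeta_diffEx (l₀ : ℂ) : DifferentiableOn ℂ (zetaEx L l₀) (L.lattice \ {l₀})ᶜ := by
  refine (zeta_hasSumEx L l₀).hasSumLocallyUniformlyOn.differentiableOn
    (.of_forall fun s => .fun_sum fun i _ => ?_) L.isOpen_compl_lattice_sdiff
  split_ifs with h
  · simp
  · exact fun z hz => (zeta_term fun e : z = i =>
      hz ⟨e ▸ i.2, e ▸ h⟩).differentiableAt.differentiableWithinAt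

theorem zetaEx_add (l₀ : L.lattice) (z : ℂ) :
    zetaEx L l₀ z + (1 / (z - l₀) + 1 / (l₀ : ℂ) + z / (l₀ : ℂ) ^ 2) = zeta L z := by
  trans zetaEx L l₀ z + ∑' i : L.lattice,
    if i = l₀.1 then (1 / (z - l₀) + 1 / (l₀ : ℂ) + z / (l₀ : ℂ) ^ 2) else 0
  · simp
  rw [zetaEx, ← Summable.tsum_add]
  · congr with w; split_ifs <;> simp only [zero_add, add_zero, *]
  · exact ⟨_, (zeta_hasSumEx L _).hasSum⟩
  · exact summable_of_hasFiniteSupport ((Set.finite_singleton l₀).subset (by simp))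

theorem zeta_hasSum : HasSumLocallyUniformly (fun (l : L.lattice) (z : ℂ) =>
    1 / (z - l) + 1 / (l : ℂ) + z / (l : ℂ) ^ 2) (zeta L) := by
  have h : ∀ l : L.lattice, l.1 ≠ L.ω₁ / 2 := fun l e => L.ω₁_div_two_notMem_lattice (e ▸ l.2)
  have := zeta_hasSumEx L (L.ω₁ / 2)
  unfold zetaEx at this
  simp only [if_neg (h _)] at this
  exact this

/-- Hint: as in Mathlib's `Analysis/SpecialFunctions/Elliptic/Weierstrass.lean`: define the sum with
the term `l₀` omitted, `L.hasSumLocallyUniformly_aux` with the bound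
`‖1/(s-l) + 1/l + s/l²‖ = ‖s²/(l²(s-l))‖ ≤ 2 r² ‖l‖^(-3)`; derivative as in
`eqOn_deriv_weierstrassPExcept_derivWeierstrassPExcept`. -/
theorem hasDerivAt_zeta {z : ℂ} (hz : z ∉ L.lattice) : HasDerivAt (zeta L) (-℘[L] z) z := by
  have ho : IsOpen (L.lattice : Set ℂ)ᶜ := L.isClosed_lattice.isOpen_compl
  have hd : ∀ s : Finset L.lattice, DifferentiableOn ℂ
      (fun z : ℂ => ∑ l ∈ s, (1 / (z - l) + 1 / (l : ℂ) + z / (l : ℂ) ^ 2)) (L.lattice : Set ℂ)ᶜ :=
    fun s => .fun_sum fun i _ z hz =>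
      (zeta_term fun e : z = i => hz (e ▸ i.2)).differentiableAt.differentiableWithinAt
  have h1 := (zeta_hasSum L).hasSumLocallyUniformlyOn.differentiableOn (.of_forall hd) ho
  have h2 := (((zeta_hasSum L).tendstoLocallyUniformlyOn (s := (L.lattice : Set ℂ)ᶜ)).deriv
    (.of_forall hd) ho).tendsto_at hz
  have h3 : Tendsto (fun s : Finset L.lattice => ∑ l ∈ s, -(1 / (z - l) ^ 2 - 1 / (l : ℂ) ^ 2))
      atTop (𝓝 (-℘[L] z)) := (L.hasSum_weierstrassP z).neg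
  have h4 : deriv (zeta L) z = -℘[L] z := by
    refine tendsto_nhds_unique h2 (h3.congr fun s => ?_)
    exact (HasDerivAt.fun_sum fun (i : L.lattice) _ =>
      zeta_term fun e : z = i => hz (e ▸ i.2)).deriv.symm
  rw [← h4]
  exact (h1.differentiableAt (ho.mem_nhds hz)).hasDerivAt

theorem zeta_neg (z : ℂ) : zeta L (-z) = -zeta L z := by
  simp only [zeta]
  rw [← (Equiv.neg L.lattice).tsum_eq, ← tsum_neg]
  congr with l
  simp only [Equiv.neg_apply, NegMemClass.coe_neg]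
  rw [show -z - -(l : ℂ) = -(z - l) by ring]
  simp only [div_neg]
  ring

/-- Near a lattice point `ζ` is `1/(z-l)` plus an analytic function; at `0` that function
vanishes. -/
theorem zeta_pole {l : ℂ} (hl : l ∈ L.lattice) :
    ∃ g : ℂ → ℂ, AnalyticAt ℂ g l ∧ (l = 0 → g 0 = 0) ∧ ∀ z, zeta L z = 1 / (z - l) + g z := by
  refine ⟨fun z => zetaEx L l z + (1 / l + z / l ^ 2), ?_, ?_, fun z => ?_⟩
  · exact ((zeta_diffEx L l).analyticAt (L.compl_lattice_sdiff_singleton_mem_nhds l)).add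
      (by fun_prop)
  · rintro rfl
    simp [zetaEx]
  · rw [← zetaEx_add L ⟨l, hl⟩]; ring

/-- The complement of a countable set is connected
(`Set.Countable.isConnected_compl_of_one_lt_rank`); the lattice is countable. -/
theorem countable_lattice : (L.lattice : Set ℂ).Countable :=
  countable_of_Lindelof_of_discrete (X := L.lattice)

theorem zeta_add_gen {w : ℂ} (hw : w ∈ L.lattice) (h2 : w / 2 ∉ L.lattice) {z : ℂ}
    (hz : z ∉ L.lattice) : zeta L (z + w) = zeta L z + eta L w := by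
  have ho : IsOpen (L.lattice : Set ℂ)ᶜ := L.isClosed_lattice.isOpen_compl
  have hd : ∀ x ∈ (L.lattice : Set ℂ)ᶜ, HasDerivAt (fun z => zeta L (z + w) - zeta L z) 0 x := by
    intro x hx
    have h1 : x + w ∉ L.lattice := fun h => hx (by simpa using sub_mem h hw)
    have h3 := ((hasDerivAt_zeta L h1).comp_add_const x w).fun_sub (hasDerivAt_zeta L hx)
    rwa [L.weierstrassP_add_coe x ⟨w, hw⟩, sub_self] at h3
  have h := ho.is_const_of_deriv_eq_zero
    (Set.Countable.isConnected_compl_of_one_lt_rank (by simp) (countable_lattice L)).2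
    (fun x hx => (hd x hx).differentiableAt.differentiableWithinAt) (fun x hx => (hd x hx).deriv)
    (x := z) (y := -(w / 2)) hz (fun h => h2 (by simpa using neg_mem h))
  rw [show -(w / 2) + w = w / 2 by ring, zeta_neg] at h
  rw [eta]
  linear_combination h

theorem zeta_add_mul {w : ℂ} (hw : w ∈ L.lattice) (h2 : w / 2 ∉ L.lattice) (m : ℤ) {z : ℂ}
    (hz : z ∉ L.lattice) : zeta L (z + m * w) = zeta L z + m * eta L w := by
  have hm : ∀ k : ℤ, z + k * w ∉ L.lattice := fun k h => hz (by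
    simpa using sub_mem h (Submodule.smul_mem _ k hw))
  induction m using Int.induction_on with
  | zero => simp
  | succ k ih =>
    have := zeta_add_gen L hw h2 (hm k)
    push_cast at ih this ⊢
    rw [add_mul, one_mul, ← add_assoc, this, ih]; ring
  | pred k ih =>
    have := zeta_add_gen L hw h2 (hm (-k - 1))
    push_cast at ih this ⊢
    rw [show z + (-(k : ℂ) - 1) * w + w = z + -(k : ℂ) * w by ring, ih] at this
    linear_combination -this

/-- Hint: `z ↦ ζ(z + ω) - ζ(z)` has derivative zero on the open connected set `latticeᶜ`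
(`IsOpen.is_const_of_deriv_eq_zero` or `IsOpen.eqOn_of_deriv_eq`), evaluate at `-ω/2`; then
induction on `m`, `n`. -/
theorem zeta_add_int (m n : ℤ) {z : ℂ} (hz : z ∉ L.lattice) :
    zeta L (z + (m * L.ω₁ + n * L.ω₂)) = zeta L z + (m * eta L L.ω₁ + n * eta L L.ω₂) := by
  have h1 : z + m * L.ω₁ ∉ L.lattice := fun h => hz (by
    simpa using sub_mem h (Submodule.smul_mem _ m L.ω₁_mem_lattice))
  rw [← add_assoc, zeta_add_mul L L.ω₂_mem_lattice L.ω₂_div_two_notMem_lattice n h1,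
    zeta_add_mul L L.ω₁_mem_lattice L.ω₁_div_two_notMem_lattice m hz, add_assoc]

/-- Everything depends on the lattice only. -/
theorem congr_lattice {L L' : PeriodPair} (h : L.lattice = L'.lattice) :
    ℘[L] = ℘[L'] ∧ ℘'[L] = ℘'[L'] ∧ zeta L = zeta L' ∧ L.g₂ = L'.g₂ ∧ L.g₃ = L'.g₃ := by
  have key : ∀ f : ℂ → ℂ, ∑' l : L.lattice, f l = ∑' l : L'.lattice, f l := fun f => by rw [h]
  refine ⟨funext fun z => key fun l => 1 / (z - l) ^ 2 - 1 / l ^ 2,
    funext fun z => congrArg Neg.neg (key fun l => 2 / (z - l) ^ 3),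
    funext fun z => key fun l => 1 / (z - l) + 1 / l + z / l ^ 2,
    congrArg (60 * ·) (key fun l => (l ^ 4)⁻¹), congrArg (140 * ·) (key fun l => (l ^ 6)⁻¹)⟩

/-- `η(ω₁)/ω₁`. -/
noncomputable def aa : ℂ := eta L L.ω₁ / L.ω₁

/-- `Z(z) = ζ(z) - (η(ω₁)/ω₁) z`, periodic under `ω₁`. -/
noncomputable def Zf (z : ℂ) : ℂ := zeta L z - aa L * z

theorem ω₁_ne_zero : L.ω₁ ≠ 0 := fun h =>
  L.ω₁_div_two_notMem_lattice (by rw [h, zero_div]; exact zero_mem _)

theorem hasDerivAt_Zf {z : ℂ} (hz : z ∉ L.lattice) :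
    HasDerivAt (Zf L) (-℘[L] z - aa L) z := by
  have h := (hasDerivAt_zeta L hz).fun_sub ((hasDerivAt_id' z).const_mul (aa L))
  rw [mul_one] at h
  exact h

theorem Zf_half : Zf L (L.ω₁ / 2) = 0 := by
  have := ω₁_ne_zero L
  rw [Zf, aa, eta]
  field_simp
  ring

theorem Zf_add_int' (m n : ℤ) {z : ℂ} (hz : z ∉ L.lattice) :
    Zf L (z + (m * L.ω₁ + n * L.ω₂)) = Zf L z + n * (eta L L.ω₂ - aa L * L.ω₂) := by
  have h : aa L * L.ω₁ = eta L L.ω₁ := div_mul_cancel₀ _ (ω₁_ne_zero L)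
  rw [Zf, Zf, zeta_add_int L m n hz]
  linear_combination (-m : ℂ) * h

end GPC96

end

-- part MP_57341d_ag.H96.Wp
section

/-! Facts on the Weierstrass function: differential equation, surjectivity, finite fibres. -/

open Complex Filter Topology
open scoped PeriodPair

namespace GPC96

variable (L : PeriodPair)

theorem hasDerivAt_wp {z : ℂ} (hz : z ∉ L.lattice) : HasDerivAt ℘[L] (℘'[L] z) z := by
  have h := (L.analyticOnNhd_weierstrassP z hz).differentiableAt.hasDerivAt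
  rwa [L.deriv_weierstrassP] at h

theorem wp_tendsto {l : ℂ} (hl : l ∈ L.lattice) :
    Tendsto ℘[L] (𝓝[≠] l) (Bornology.cobounded ℂ) := by
  apply tendsto_cobounded_of_meromorphicOrderAt_neg
  rw [L.order_weierstrassP l hl]
  decide

theorem wp_ev (l : ℂ) : ∀ᶠ w in 𝓝[≠] l, w ∉ L.lattice := by
  filter_upwards [self_mem_nhdsWithin,
    nhdsWithin_le_nhds (L.compl_lattice_sdiff_singleton_mem_nhds l)] with w hw hw' hm
  exact hw' ⟨hm, hw⟩

theorem wp_ev' {z : ℂ} (hz : z ∉ L.lattice) : ∀ᶠ w in 𝓝 z, w ∉ L.lattice :=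
  L.isClosed_lattice.isOpen_compl.mem_nhds hz

/-- `℘` is not constant near any point off the lattice.  Hint: identity theorem on the connected
set `latticeᶜ`, and `order_weierstrassP` (or `not_continuousAt_weierstrassP`). -/
theorem wp_not_const {z c : ℂ} (hz : z ∉ L.lattice) : ¬ ∀ᶠ w in 𝓝 z, ℘[L] w = c := by
  intro h
  have hc : IsPreconnected ((L.lattice : Set ℂ)ᶜ) :=
    (Set.Countable.isConnected_compl_of_one_lt_rank (by simp) (countable_lattice L)).2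
  have h1 : Set.EqOn ℘[L] (fun _ => c) (L.lattice : Set ℂ)ᶜ :=
    L.analyticOnNhd_weierstrassP.eqOn_of_preconnected_of_eventuallyEq analyticOnNhd_const hc hz h
  have h2 : Tendsto ℘[L] (𝓝[≠] 0) (𝓝 c) :=
    tendsto_const_nhds.congr' ((wp_ev L 0).mono fun w hw => (h1 hw).symm)
  have h3 := wp_tendsto L L.lattice.zero_mem
  exact (h2.not_tendsto (Metric.disjoint_nhds_cobounded c)) h3

theorem wp_order {z : ℂ} (hz : z ∉ L.lattice) :
    analyticOrderAt ℘'[L] z + 1 = analyticOrderAt (fun w => ℘[L] w - ℘[L] z) z := by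
  have h := (L.analyticOnNhd_weierstrassP z hz).analyticOrderAt_deriv_add_one
  rwa [L.deriv_weierstrassP] at h

theorem wp_order_ne {z : ℂ} (hz : z ∉ L.lattice) :
    analyticOrderAt (fun w => ℘[L] w - ℘[L] z) z ≠ ⊤ := by
  intro h
  rw [analyticOrderAt_eq_top] at h
  exact wp_not_const L hz (h.mono fun w hw => sub_eq_zero.1 hw)

theorem wp_ode {w : ℂ} (hw : w ∉ L.lattice) :
    ℘'[L] w * (deriv ℘'[L] w - (6 * ℘[L] w ^ 2 - L.g₂ / 2)) = 0 := by
  have h1 := (L.analyticOnNhd_derivWeierstrassP w hw).differentiableAt.hasDerivAt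
  have h2 := hasDerivAt_wp L hw
  have h3 := h1.pow 2
  have h4 := (((h2.pow 3).const_mul 4).sub (h2.const_mul L.g₂)).sub_const L.g₃
  have h5 := h4.congr_of_eventuallyEq (f₁ := ℘'[L] ^ 2)
    ((wp_ev' L hw).mono fun u hu => by simpa using L.derivWeierstrassP_sq u hu)
  have h6 := h3.unique h5
  simp only [Nat.cast_ofNat, Nat.add_one_sub_one, pow_one] at h6
  linear_combination h6 / 2

/-- Hint: differentiate `derivWeierstrassP_sq`; `℘'` is not eventually zero, so cancel it on a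
punctured neighbourhood and use continuity. -/
theorem hasDerivAt_wp' {z : ℂ} (hz : z ∉ L.lattice) :
    HasDerivAt ℘'[L] (6 * ℘[L] z ^ 2 - L.g₂ / 2) z := by
  have ha := L.analyticOnNhd_derivWeierstrassP z hz
  have hb := L.analyticOnNhd_weierstrassP z hz
  have key : deriv ℘'[L] z = 6 * ℘[L] z ^ 2 - L.g₂ / 2 := by
    rcases ha.eventually_eq_zero_or_eventually_ne_zero with h | h
    · exfalso
      apply wp_order_ne L hz
      rw [← wp_order L hz, analyticOrderAt_eq_top.2 h, top_add]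
    · have c1 : ContinuousAt (deriv ℘'[L]) z := ha.deriv.continuousAt
      have c2 : ContinuousAt (fun w => 6 * ℘[L] w ^ 2 - L.g₂ / 2) z :=
        ((hb.continuousAt.pow 2).const_mul 6).sub continuousAt_const
      refine tendsto_nhds_unique_of_eventuallyEq (l := 𝓝[≠] z)
        (c1.tendsto.mono_left nhdsWithin_le_nhds) (c2.tendsto.mono_left nhdsWithin_le_nhds) ?_
      filter_upwards [h, wp_ev L z] with w hw hw'
      exact sub_eq_zero.1 ((mul_eq_zero.1 (wp_ode L hw')).resolve_left hw)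
  rw [← key]
  exact ha.differentiableAt.hasDerivAt

theorem wp_surj (x : ℂ) : ∃ z, z ∉ L.lattice ∧ ℘[L] z = x := by
  classical
  by_contra hne
  push Not at hne
  let h : ℂ → ℂ := fun z => if z ∈ L.lattice then 0 else (℘[L] z - x)⁻¹
  have d1 : ∀ z, z ∉ L.lattice → DifferentiableAt ℂ h z := by
    intro z hz
    have := ((hasDerivAt_wp L hz).differentiableAt.sub_const x).inv (sub_ne_zero.2 (hne z hz))
    refine this.congr_of_eventuallyEq ((wp_ev' L hz).mono fun w hw => ?_)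
    simp [h, hw]
  have d2 : Differentiable ℂ h := by
    intro z
    by_cases hz : z ∈ L.lattice
    · refine (Complex.analyticAt_of_differentiable_on_punctured_nhds_of_continuousAt
        ((wp_ev L z).mono d1) ?_).differentiableAt
      rw [← continuousWithinAt_compl_self, ContinuousWithinAt]
      have t1 : Tendsto (fun w => ℘[L] w - x) (𝓝[≠] z) (Bornology.cobounded ℂ) :=
        (tendsto_sub_const_cobounded x).comp (wp_tendsto L hz)
      have t2 := tendsto_inv₀_cobounded.comp t1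
      have e : h z = 0 := by simp [h, hz]
      rw [e]
      exact t2.congr' ((wp_ev L z).mono fun w hw => by simp [h, hw])
    · exact d1 z hz
  have hp : ∀ z w, w ∈ L.lattice → h (z + w) = h z := by
    intro z w hw
    have e : z + w ∈ L.lattice ↔ z ∈ L.lattice := L.lattice.add_mem_iff_left hw
    have e' : ℘[L] (z + w) = ℘[L] z := L.weierstrassP_add_coe z ⟨w, hw⟩
    simp only [h, e, e']
  have hc := d2.apply_eq_apply_of_bounded
    (IsZLattice.isCompact_range_of_periodic L.lattice _ d2.continuous hp).isBounded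
    (L.ω₁ / 2) 0
  have hn := L.ω₁_div_two_notMem_lattice
  simp only [h, hn, if_false, zero_mem, if_true, inv_eq_zero] at hc
  exact hne _ hn (sub_eq_zero.1 hc)

/-- Hint: if `℘ ≠ x` off the lattice then `1/(℘ - x)`, extended by `0`, is entire and periodic,
so constant (see the proof of `relation_eq_zero` in Mathlib's file); then replace `z` by `-z` if
`℘' z = -y`. -/
theorem exists_point {x y : ℂ} (h : y ^ 2 = 4 * x ^ 3 - L.g₂ * x - L.g₃) :
    ∃ z, z ∉ L.lattice ∧ ℘[L] z = x ∧ ℘'[L] z = y := by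
  obtain ⟨z, hz, hx⟩ := wp_surj L x
  have h1 := L.derivWeierstrassP_sq z hz
  rw [hx, ← h] at h1
  rcases sq_eq_sq_iff_eq_or_eq_neg.1 h1 with h2 | h2
  · exact ⟨z, hz, hx, h2⟩
  · refine ⟨-z, fun hm => hz (by simpa using hm), by simpa using hx, ?_⟩
    rw [L.derivWeierstrassP_neg, h2, neg_neg]

/-- The cubic has simple roots.  Hint: with `z` from `exists_point`, `f = ℘ - x` has
`f'' = 6 f (℘ + x)` near `z`, `f z = f' z = 0`; compare `analyticOrderAt` (order of `f''` is the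
order of `f` minus two) to get `f = 0` near `z`, against `wp_not_const`. -/
theorem nonsing {x y : ℂ} (h : y ^ 2 = 4 * x ^ 3 - L.g₂ * x - L.g₃) :
    y ≠ 0 ∨ 6 * x ^ 2 - L.g₂ / 2 ≠ 0 := by
  by_contra hne
  push Not at hne
  obtain ⟨hy, hg⟩ := hne
  obtain ⟨z, hz, hx, hy'⟩ := exists_point L h
  have ha := L.analyticOnNhd_derivWeierstrassP z hz
  have hb := L.analyticOnNhd_weierstrassP z hz
  have o1 := wp_order L hz
  have o2 := ha.analyticOrderAt_deriv_add_one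
  have o0 := wp_order_ne L hz
  rw [hy', hy] at o2
  simp only [sub_zero] at o2
  have f1 : AnalyticAt ℂ (fun w => ℘[L] w - ℘[L] z) z := hb.sub analyticAt_const
  have f2 : AnalyticAt ℂ (fun w => 6 * (℘[L] w + x)) z :=
    analyticAt_const.mul (hb.add analyticAt_const)
  have e : deriv ℘'[L] =ᶠ[𝓝 z] (fun w => ℘[L] w - ℘[L] z) * fun w => 6 * (℘[L] w + x) := by
    filter_upwards [wp_ev' L hz] with w hw
    rw [(hasDerivAt_wp' L hw).deriv, Pi.mul_apply, hx]
    linear_combination hg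
  rw [analyticOrderAt_congr e, analyticOrderAt_mul f1 f2] at o2
  change _ = analyticOrderAt ℘'[L] z at o2
  rw [← o2] at o1
  generalize analyticOrderAt (fun w => ℘[L] w - ℘[L] z) z = a at o0 o1
  generalize analyticOrderAt (fun w => 6 * (℘[L] w + x)) z = b at o1
  cases a with
  | top => exact o0 rfl
  | coe a =>
    cases b with
    | top => simp at o1
    | coe b =>
      norm_cast at o1
      omega

theorem wp'_eq_zero {z : ℂ} (h : 2 * z ∈ L.lattice) : ℘'[L] z = 0 := by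
  have h1 := L.derivWeierstrassP_sub_coe z ⟨2 * z, h⟩
  rw [show z - ((⟨2 * z, h⟩ : L.lattice) : ℂ) = -z by simp; ring, L.derivWeierstrassP_neg] at h1
  linear_combination -h1 / 2

end GPC96

end

-- part MP_57341d_ag.H96.Four
section

/-! Fourier coefficients of periodic holomorphic functions of one and two variables. -/

open Complex

namespace GPC96

/-- Shift lemma on a closed strip.  Hint: `Function.Periodic.intervalIntegral_add_eq` removes the
real parts, `Complex.integral_boundary_rect_eq_zero_of_differentiableOn` on the rectangle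
`[0,1] × [im s, im s']` (the vertical sides cancel by periodicity). -/
theorem shift_strip {g : ℂ → ℂ} {s s' : ℂ}
    (hg : DifferentiableOn ℂ g {z | z.im ∈ Set.uIcc s.im s'.im})
    (hp : ∀ z, g (z + 1) = g z) :
    ∫ x in (0 : ℝ)..1, g (x + s) = ∫ x in (0 : ℝ)..1, g (x + s') := by
  have red : ∀ w : ℂ, ∫ x in (0 : ℝ)..1, g (x + w) = ∫ x in (0 : ℝ)..1, g (x + w.im * I) := by
    intro w
    have per : Function.Periodic (fun x : ℝ => g (x + w.im * I)) 1 := by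
      intro x
      have := hp (x + w.im * I)
      simp only [ofReal_add, ofReal_one]
      rw [← this]; congr 1; ring
    have h1 := per.intervalIntegral_add_eq w.re 0
    have h2 := intervalIntegral.integral_comp_add_right (a := 0) (b := 1)
      (fun x : ℝ => g (x + w.im * I)) w.re
    rw [zero_add, add_comm (1 : ℝ)] at h2
    rw [zero_add] at h1
    rw [← h1, ← h2]
    refine intervalIntegral.integral_congr fun x _ => ?_
    simp only [ofReal_add]
    congr 1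
    rw [add_assoc, re_add_im]
  rw [red s, red s']
  have key := integral_boundary_rect_eq_zero_of_differentiableOn g (s.im * I) (1 + s'.im * I)
    (hg.mono fun z hz => by
      have := (mem_reProdIm.1 hz).2
      simpa using this)
  have e1 : ((s.im : ℂ) * I).re = 0 := by simp
  have e2 : ((s.im : ℂ) * I).im = s.im := by simp
  have e3 : (1 + (s'.im : ℂ) * I).re = 1 := by simp
  have e4 : (1 + (s'.im : ℂ) * I).im = s'.im := by simp
  rw [e1, e2, e3, e4] at key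
  have e5 : ∫ y : ℝ in s.im..s'.im, g (((1 : ℝ) : ℂ) + y * I) =
      ∫ y : ℝ in s.im..s'.im, g (((0 : ℝ) : ℂ) + y * I) := by
    refine intervalIntegral.integral_congr fun y _ => ?_
    have := hp (((0 : ℝ) : ℂ) + y * I)
    simp only [ofReal_one, ofReal_zero] at this ⊢
    rw [← this]; congr 1; ring
  rw [e5] at key
  linear_combination key

/-- Fourier inversion as a bound.  Hint: lift to `AddCircle 1` (`Function.Periodic.lift` or
`AddCircle.liftIoc`), `fourierCoeff_eq_intervalIntegral`, `hasSum_fourier_series_of_summable` /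
`has_pointwise_sum_fourier_series_of_summable`. -/
theorem norm_le_tsum {f : ℝ → ℂ} (hf : Continuous f) (hp : ∀ x, f (x + 1) = f x) {b : ℤ → ℝ}
    (hb : Summable b)
    (h : ∀ a : ℤ, ‖∫ x in (0 : ℝ)..1, f x * cexp (-(2 * Real.pi * I * a * x))‖ ≤ b a) :
    ‖f 0‖ ≤ ∑' a, b a := by
  have hp' : Function.Periodic f 1 := hp
  let F : C(AddCircle (1 : ℝ), ℂ) := ⟨hp'.lift, continuous_coinduced_dom.mpr hf⟩
  have hF : ∀ x : ℝ, F (x : AddCircle (1 : ℝ)) = f x := fun x => rfl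
  have hc : ∀ a : ℤ, ‖fourierCoeff F a‖ ≤ b a := by
    intro a
    rw [fourierCoeff_eq_intervalIntegral F a 0]
    refine le_of_eq_of_le ?_ (h a)
    congr 1
    simp only [div_one, one_smul, zero_add]
    refine intervalIntegral.integral_congr fun x _ => ?_
    simp only [fourier_coe_apply, hF, smul_eq_mul]
    rw [mul_comm]
    congr 2
    push_cast
    ring
  have hs : Summable (fourierCoeff F) := Summable.of_norm_bounded hb hc
  have := has_pointwise_sum_fourier_series_of_summable hs ((0 : ℝ) : AddCircle (1 : ℝ))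
  rw [hF] at this
  refine this.norm_le_of_bounded hb.hasSum fun a => ?_
  rw [norm_smul, fourier_coe_apply]
  simpa using hc a

theorem four_exp_add (u v : ℂ) (n : ℤ) (h : v = u + n) :
    cexp (-(2 * Real.pi * I * v)) = cexp (-(2 * Real.pi * I * u)) := by
  rw [h, Complex.exp_eq_exp_iff_exists_int]
  exact ⟨-n, by push_cast; ring⟩

theorem four_swap {F : ℝ → ℝ → ℂ} (hF : Continuous fun p : ℝ × ℝ => F p.1 p.2) :
    ∫ x in (0 : ℝ)..1, ∫ y in (0 : ℝ)..1, F x y = ∫ y in (0 : ℝ)..1, ∫ x in (0 : ℝ)..1, F x y := by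
  apply MeasureTheory.intervalIntegral_intervalIntegral_swap
  have : MeasureTheory.IntegrableOn F.uncurry (Set.uIcc 0 1 ×ˢ Set.uIcc 0 1) :=
    hF.continuousOn.integrableOn_compact (isCompact_uIcc.prod isCompact_uIcc)
  exact this.mono_set (Set.prod_mono Set.uIoc_subset_uIcc Set.uIoc_subset_uIcc)

theorem four_bound {F : ℝ → ℝ → ℂ} {C : ℝ} (h : ∀ x y, ‖F x y‖ ≤ C) :
    ‖∫ x in (0 : ℝ)..1, ∫ y in (0 : ℝ)..1, F x y‖ ≤ C := by
  have h1 : ∀ x, ‖∫ y in (0 : ℝ)..1, F x y‖ ≤ C := fun x => by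
    simpa using intervalIntegral.norm_integral_le_of_norm_le_const (a := 0) (b := 1)
      (f := F x) fun y _ => h x y
  simpa using intervalIntegral.norm_integral_le_of_norm_le_const (a := 0) (b := 1)
    (f := fun x => ∫ y in (0 : ℝ)..1, F x y) fun x _ => h1 x

theorem four_sum : Summable (fun a : ℤ => Real.exp (-|(a : ℝ)|)) ∧
    ∑' a : ℤ, Real.exp (-|(a : ℝ)|) ≤ 3 := by
  have r0 : 0 ≤ Real.exp (-1) := (Real.exp_pos _).le
  have r1 : Real.exp (-1) ≤ 1 / 2 := by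
    have := Real.exp_neg_one_lt_d9
    linarith
  have g := hasSum_geometric_of_lt_one r0 (by linarith : Real.exp (-1) < 1)
  have h1 : HasSum (fun n : ℕ => Real.exp (-|((n : ℤ) : ℝ)|)) (1 - Real.exp (-1))⁻¹ := by
    refine g.congr_fun fun n => ?_
    rw [← Real.exp_nat_mul]
    simp
  have h2 : HasSum (fun n : ℕ => Real.exp (-|((-(n + 1 : ℤ) : ℤ) : ℝ)|))
      (Real.exp (-1) * (1 - Real.exp (-1))⁻¹) := by
    refine (g.mul_left (Real.exp (-1))).congr_fun fun n => ?_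
    rw [← Real.exp_nat_mul, ← Real.exp_add]
    congr 1
    push_cast
    rw [abs_neg, abs_of_nonneg (by positivity)]
    ring
  have h3 := HasSum.of_nat_of_neg_add_one (f := fun a : ℤ => Real.exp (-|(a : ℝ)|)) h1 h2
  refine ⟨h3.summable, ?_⟩
  rw [h3.tsum_eq]
  have i1 : (1 - Real.exp (-1))⁻¹ ≤ 2 := by
    rw [inv_le_comm₀ (by linarith) (by norm_num)]
    linarith
  have i0 : 0 ≤ (1 - Real.exp (-1))⁻¹ := inv_nonneg.2 (by linarith)
  nlinarith

/-- Admissible functions of two variables. -/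
structure Per (G : ℂ → ℂ → ℂ) : Prop where
  cont : Continuous fun p : ℂ × ℂ => G p.1 p.2
  d1 : ∀ y, Differentiable ℂ fun x => G x y
  d2 : ∀ x, Differentiable ℂ (G x)
  p1 : ∀ x y, G (x + 1) y = G x y
  p2 : ∀ x y, G x (y + 1) = G x y

/-- Fourier coefficient. -/
noncomputable def cf (G : ℂ → ℂ → ℂ) (a b : ℤ) : ℂ :=
  ∫ x in (0 : ℝ)..1, ∫ y in (0 : ℝ)..1, G x y * cexp (-(2 * Real.pi * I * (a * x + b * y)))

/-- Hint: `shift_strip` in `y` for each `x`, swap the integrals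
(`MeasureTheory.intervalIntegral_integral_swap` or `integral_integral_swap` on `Ioc 0 1`; the
integrand is continuous), `shift_strip` in `x`. -/
theorem cf_shift {G : ℂ → ℂ → ℂ} (hG : Per G) (a b : ℤ) (s t : ℂ) :
    cf G a b = ∫ x in (0 : ℝ)..1, ∫ y in (0 : ℝ)..1,
      G (x + s) (y + t) * cexp (-(2 * Real.pi * I * (a * (x + s) + b * (y + t)))) := by
  have hc := hG.cont
  have cG : ∀ u v : ℂ, Continuous fun p : ℝ × ℝ => G (p.1 + u) (p.2 + v) := fun u v =>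
    hc.comp (f := fun p : ℝ × ℝ => ((p.1 : ℂ) + u, (p.2 : ℂ) + v)) (by fun_prop)
  have step1 : cf G a b = ∫ x in (0 : ℝ)..1, ∫ y in (0 : ℝ)..1,
      G (x + 0) (y + t) * cexp (-(2 * Real.pi * I * (a * (x + 0) + b * (y + t)))) := by
    unfold cf
    refine intervalIntegral.integral_congr fun x _ => ?_
    have := shift_strip (g := fun y => G x y * cexp (-(2 * Real.pi * I * (a * x + b * y))))
      (s := 0) (s' := t) (((hG.d2 x).mul (by fun_prop)).differentiableOn) (fun z => by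
        simp only [hG.p2]
        rw [four_exp_add (a * x + b * z) (a * x + b * (z + 1)) b (by ring)])
    simpa only [add_zero] using this
  have sw : ∀ u : ℂ, (∫ x in (0 : ℝ)..1, ∫ y in (0 : ℝ)..1,
      G (x + u) (y + t) * cexp (-(2 * Real.pi * I * (a * (x + u) + b * (y + t))))) =
      ∫ y in (0 : ℝ)..1, ∫ x in (0 : ℝ)..1,
        G (x + u) (y + t) * cexp (-(2 * Real.pi * I * (a * (x + u) + b * (y + t)))) := fun u =>
    four_swap (by have := cG u t; fun_prop)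
  rw [step1, sw 0, sw s]
  refine intervalIntegral.integral_congr fun y _ => ?_
  exact shift_strip (g := fun x => G x (y + t) * cexp (-(2 * Real.pi * I * (a * x + b * (y + t)))))
    (s := 0) (s' := s) (((hG.d1 (y + t)).mul (by fun_prop)).differentiableOn) (fun z => by
      simp only [hG.p1]
      rw [four_exp_add (a * z + b * (y + t)) (a * (z + 1) + b * (y + t)) a (by ring)])

theorem cf_sum {ι : Type} [Fintype ι] (G : ι → ℂ → ℂ → ℂ) (hG : ∀ i, Per (G i)) (c : ι → ℂ)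
    (a b : ℤ) : Per (fun x y => ∑ i, c i * G i x y) ∧
      cf (fun x y => ∑ i, c i * G i x y) a b = ∑ i, c i * cf (G i) a b := by
  refine ⟨⟨?_, fun y => ?_, fun x => ?_, fun x y => ?_, fun x y => ?_⟩, ?_⟩
  · exact continuous_finsetSum _ fun i _ => continuous_const.mul (hG i).cont
  · exact Differentiable.fun_sum fun i _ => ((hG i).d1 y).const_mul _
  · exact Differentiable.fun_sum fun i _ => ((hG i).d2 x).const_mul _
  · exact Finset.sum_congr rfl fun i _ => by rw [(hG i).p1]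
  · exact Finset.sum_congr rfl fun i _ => by rw [(hG i).p2]
  · unfold cf
    have cG : ∀ i, Continuous fun p : ℝ × ℝ =>
        c i * (G i p.1 p.2 * cexp (-(2 * Real.pi * I * (a * p.1 + b * p.2)))) := fun i => by
      have : Continuous fun p : ℝ × ℝ => G i p.1 p.2 :=
        (hG i).cont.comp (f := fun p : ℝ × ℝ => ((p.1 : ℂ), (p.2 : ℂ))) (by fun_prop)
      exact continuous_const.mul (this.mul (by fun_prop))
    simp only [← intervalIntegral.integral_const_mul]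
    rw [← intervalIntegral.integral_finsetSum fun i _ =>
      (intervalIntegral.continuous_parametric_intervalIntegral_of_continuous'
        (f := fun x y : ℝ => c i * (G i x y * cexp (-(2 * Real.pi * I * (a * x + b * y)))))
        (cG i) 0 1).intervalIntegrable 0 1]
    refine intervalIntegral.integral_congr fun x _ => ?_
    have ci : ∀ i, Continuous fun y : ℝ =>
        c i * (G i x y * cexp (-(2 * Real.pi * I * (a * x + b * y)))) := fun i =>
      (cG i).comp (f := fun y : ℝ => (x, y)) (by fun_prop)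
    rw [← intervalIntegral.integral_finsetSum fun i _ => (ci i).intervalIntegrable 0 1]
    refine intervalIntegral.integral_congr fun y _ => ?_
    simp only [Finset.sum_mul, mul_assoc]

/-- Gaussian decay: shift to `s = -π a I / c`, `t = -π b I / c`. -/
theorem cf_decay {G : ℂ → ℂ → ℂ} (hG : Per G) {B c : ℝ} (hc : 0 < c)
    (h : ∀ x y, ‖G x y‖ ≤ B * Real.exp (c * (x.im ^ 2 + y.im ^ 2))) (a b : ℤ) :
    ‖cf G a b‖ ≤ B * Real.exp (-(Real.pi ^ 2 * ((a : ℝ) ^ 2 + (b : ℝ) ^ 2) / c)) := by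
  rw [cf_shift hG a b (((-(Real.pi * a / c) : ℝ) : ℂ) * I) (((-(Real.pi * b / c) : ℝ) : ℂ) * I)]
  apply four_bound
  intro x y
  rw [norm_mul, norm_exp]
  refine (mul_le_mul_of_nonneg_right (h _ _) (Real.exp_pos _).le).trans (le_of_eq ?_)
  rw [mul_assoc, ← Real.exp_add]
  congr 2
  simp only [add_im, ofReal_im, mul_im, ofReal_re, I_im, I_re, neg_re, mul_re, add_re, re_ofNat,
    im_ofNat, intCast_re, intCast_im]
  field_simp
  ring

/-- The recursion coming from quasi-periodicity (`cf_shift` with `s = τ₁`, `t = τ₂`). -/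
theorem cf_rec {G : ℂ → ℂ → ℂ} (hG : Per G) {τ₁ τ₂ κ : ℂ} {m : ℕ}
    (h : ∀ x y, G (x + τ₁) (y + τ₂) = cexp (-(2 * Real.pi * I * m * (x + y)) + κ) * G x y)
    (a b : ℤ) :
    ‖cf G (a + m) (b + m)‖ =
      ‖cf G a b‖ * Real.exp (-(2 * Real.pi * (a * τ₁.im + b * τ₂.im)) - κ.re) := by
  have e : cf G a b = cexp (κ - 2 * Real.pi * I * (a * τ₁ + b * τ₂)) * cf G (a + m) (b + m) := by
    rw [cf_shift hG a b τ₁ τ₂]
    unfold cf
    simp only [← intervalIntegral.integral_const_mul]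
    refine intervalIntegral.integral_congr fun x _ => ?_
    refine intervalIntegral.integral_congr fun y _ => ?_
    simp only [h]
    rw [mul_comm (cexp _) (G x y), mul_assoc, ← Complex.exp_add, mul_left_comm, ← Complex.exp_add]
    congr 2
    push_cast
    ring
  rw [e, norm_mul, norm_exp, mul_comm (Real.exp _), mul_assoc, ← Real.exp_add]
  have : (κ - 2 * Real.pi * I * (a * τ₁ + b * τ₂)).re +
      (-(2 * Real.pi * (a * τ₁.im + b * τ₂.im)) - κ.re) = 0 := by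
    simp only [sub_re, add_im, ofReal_im, mul_im, ofReal_re, I_im, I_re, mul_re, add_re, re_ofNat,
      im_ofNat, intCast_re, intCast_im]
    ring
  rw [this, Real.exp_zero, mul_one]

/-- Inversion bound on the strip `|im| ≤ 1`.  Hint: apply `norm_le_tsum` twice to
`(s, t) ↦ G (x + s) (y + t)`, whose coefficients are `cf G a b * cexp (2 π I (a x + b y))` by
`cf_shift`; `∑' a : ℤ, exp (-|a|) ≤ 3`. -/
theorem norm_le_of_cf {G : ℂ → ℂ → ℂ} (hG : Per G) {M : ℝ}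
    (h : ∀ a b : ℤ, ‖cf G a b‖ ≤ M * Real.exp (-(8 * (|(a : ℝ)| + |(b : ℝ)|)))) {x y : ℂ}
    (hx : |x.im| ≤ 1) (hy : |y.im| ≤ 1) : ‖G x y‖ ≤ 9 * M := by
  have M0 : 0 ≤ M := by
    have := (norm_nonneg _).trans (h 0 0)
    simpa using this
  have cG : Continuous fun p : ℝ × ℝ => G (p.1 + x) (p.2 + y) :=
    hG.cont.comp (f := fun p : ℝ × ℝ => ((p.1 : ℂ) + x, (p.2 : ℂ) + y)) (by fun_prop)
  have inner : ∀ b : ℤ, ‖∫ t in (0 : ℝ)..1,
      G (((0 : ℝ) : ℂ) + x) (t + y) * cexp (-(2 * Real.pi * I * b * t))‖ ≤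
      3 * M * Real.exp (-|(b : ℝ)|) := by
    intro b
    have key := norm_le_tsum
      (f := fun s : ℝ => ∫ t in (0 : ℝ)..1, G (s + x) (t + y) * cexp (-(2 * Real.pi * I * b * t)))
      (intervalIntegral.continuous_parametric_intervalIntegral_of_continuous'
        (f := fun s t : ℝ => G (s + x) (t + y) * cexp (-(2 * Real.pi * I * b * t)))
        (by
          change Continuous fun p : ℝ × ℝ =>
            G (p.1 + x) (p.2 + y) * cexp (-(2 * Real.pi * I * b * p.2))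
          exact cG.mul (by fun_prop)) 0 1)
      (fun s => by
        refine intervalIntegral.integral_congr fun t _ => ?_
        simp only [ofReal_add, ofReal_one]
        rw [add_right_comm, hG.p1])
      (b := fun a : ℤ => M * Real.exp (-|(b : ℝ)|) * Real.exp (-|(a : ℝ)|))
      (four_sum.1.mul_left _) (fun a => by
        have e : ∫ s in (0 : ℝ)..1, (∫ t in (0 : ℝ)..1,
            G (s + x) (t + y) * cexp (-(2 * Real.pi * I * b * t))) *
              cexp (-(2 * Real.pi * I * a * s)) =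
            cf G a b * cexp (2 * Real.pi * I * (a * x + b * y)) := by
          rw [cf_shift hG a b x y]
          simp only [← intervalIntegral.integral_mul_const]
          refine intervalIntegral.integral_congr fun s _ => ?_
          refine intervalIntegral.integral_congr fun t _ => ?_
          simp only [mul_assoc (G _ _), ← Complex.exp_add]
          congr 2
          ring
        rw [e, norm_mul, norm_exp]
        refine (mul_le_mul_of_nonneg_right (h a b) (Real.exp_pos _).le).trans ?_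
        rw [mul_assoc M, mul_assoc M, ← Real.exp_add, ← Real.exp_add]
        refine mul_le_mul_of_nonneg_left (Real.exp_le_exp.2 ?_) M0
        have e2 : (2 * Real.pi * I * (a * x + b * y) : ℂ).re =
            -(2 * Real.pi * (a * x.im + b * y.im)) := by
          simp only [add_im, ofReal_im, mul_im, ofReal_re, I_im, I_re, mul_re, add_re, re_ofNat,
            im_ofNat, intCast_re, intCast_im]
          ring
        rw [e2]
        have k1 : -((a : ℝ) * x.im) ≤ |(a : ℝ)| := by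
          refine (neg_le_abs _).trans ?_
          rw [abs_mul]
          exact mul_le_of_le_one_right (abs_nonneg _) hx
        have k2 : -((b : ℝ) * y.im) ≤ |(b : ℝ)| := by
          refine (neg_le_abs _).trans ?_
          rw [abs_mul]
          exact mul_le_of_le_one_right (abs_nonneg _) hy
        have p1 := Real.pi_pos
        have p2 := Real.pi_lt_d2
        have a0 := abs_nonneg (a : ℝ)
        have b0 := abs_nonneg (b : ℝ)
        nlinarith)
    refine key.trans ?_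
    rw [tsum_mul_left]
    have := mul_le_mul_of_nonneg_left four_sum.2
      (mul_nonneg M0 (Real.exp_pos (-|(b : ℝ)|)).le)
    linarith
  have key := norm_le_tsum (f := fun t : ℝ => G (((0 : ℝ) : ℂ) + x) (t + y))
    (cG.comp (f := fun t : ℝ => ((0 : ℝ), t)) (by fun_prop))
    (fun t => by
      simp only [ofReal_add, ofReal_one]
      rw [add_right_comm, hG.p2])
    (b := fun b : ℤ => 3 * M * Real.exp (-|(b : ℝ)|)) (four_sum.1.mul_left _) inner
  rw [tsum_mul_left] at key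
  simp only [ofReal_zero, zero_add] at key
  have := mul_le_mul_of_nonneg_left four_sum.2 (by positivity : 0 ≤ 3 * M)
  linarith

end GPC96

end

-- part MP_57341d_ag.H96.Legendre
section

/-! Legendre's relation. -/

open Complex Filter Topology
open scoped PeriodPair

namespace GPC96

variable (L : PeriodPair)

/-- The kernel `2πI / (e^{2πI x} - 1)`. -/
noncomputable def legendreK (x : ℂ) : ℂ := 2 * Real.pi * I / (cexp (2 * Real.pi * I * x) - 1)

theorem legendre_c_ne : (2 * Real.pi * I : ℂ) ≠ 0 := by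
  simp [Real.pi_ne_zero, I_ne_zero]

theorem legendre_K_add_int (x : ℂ) (m : ℤ) : legendreK (x + m) = legendreK x := by
  unfold legendreK
  rw [mul_add, Complex.exp_add, mul_comm (2 * Real.pi * I : ℂ) (m : ℂ),
    Complex.exp_int_mul_two_pi_mul_I, mul_one]

theorem legendre_exp_ne {x : ℂ} (hx : ∀ m : ℤ, x ≠ m) : cexp (2 * Real.pi * I * x) - 1 ≠ 0 := by
  intro h
  obtain ⟨n, hn⟩ := Complex.exp_eq_one_iff.mp (sub_eq_zero.mp h)
  apply hx n
  apply mul_left_cancel₀ legendre_c_ne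
  rw [hn]
  ring

theorem legendre_K_diff {x : ℂ} (hx : ∀ m : ℤ, x ≠ m) : DifferentiableAt ℂ legendreK x := by
  unfold legendreK
  exact (differentiableAt_const _).div (by fun_prop) (legendre_exp_ne hx)

theorem legendre_K_pole : ∃ h : ℂ → ℂ, AnalyticAt ℂ h 0 ∧
    ∀ᶠ z in 𝓝 (0 : ℂ), z ≠ 0 → legendreK z = 1 / z + h z := by
  obtain ⟨R, hR, hE⟩ := (analyticAt_cexp (z := (0 : ℂ))).exists_eq_sum_add_pow_mul 2
  have hE' : ∀ u : ℂ, cexp u - 1 = u * (1 + u * R u) := by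
    intro u
    rw [hE u]
    simp [Finset.sum_range_succ, iteratedDeriv_succ, iteratedDeriv_zero]
    ring
  have hc : AnalyticAt ℂ (fun z : ℂ => 2 * Real.pi * I * z) 0 := by fun_prop
  have hR' : AnalyticAt ℂ (fun z : ℂ => R (2 * Real.pi * I * z)) 0 :=
    AnalyticAt.comp_of_eq hR hc (by simp)
  have hD : AnalyticAt ℂ (fun z : ℂ => 1 + (2 * Real.pi * I * z) * R (2 * Real.pi * I * z)) 0 :=
    analyticAt_const.add (hc.mul hR')
  have hD0 : (1 + (2 * Real.pi * I * (0 : ℂ)) * R (2 * Real.pi * I * 0)) ≠ 0 := by simp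
  refine ⟨fun z => -(2 * Real.pi * I) * R (2 * Real.pi * I * z) /
    (1 + (2 * Real.pi * I * z) * R (2 * Real.pi * I * z)), ?_, ?_⟩
  · exact (analyticAt_const.mul hR').div hD hD0
  · filter_upwards [hD.continuousAt.eventually_ne hD0] with z hz hz0
    unfold legendreK
    rw [hE']
    have := legendre_c_ne
    generalize (2 * Real.pi * I : ℂ) = c at *
    generalize R (c * z) = r at *
    field_simp
    ring

theorem legendre_slit {u : ℂ} (hu : u.re < 0) : 1 - cexp u ∈ slitPlane := by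
  left
  have h1 : ‖cexp u‖ < 1 := by
    rw [Complex.norm_exp]
    exact Real.exp_lt_one_iff.mpr hu
  have h2 := Complex.re_le_norm (cexp u)
  simp only [sub_re, one_re]
  linarith

theorem legendre_prim_pos {x : ℂ} (hx : 0 < x.im) :
    HasDerivAt (fun x : ℂ => -(2 * Real.pi * I) * x + log (1 - cexp (2 * Real.pi * I * x)))
      (legendreK x) x := by
  have hs : 1 - cexp (2 * Real.pi * I * x) ∈ slitPlane := by
    apply legendre_slit
    simp
    positivity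
  have h1 : HasDerivAt (fun x : ℂ => 2 * Real.pi * I * x) (2 * Real.pi * I) x := by
    simpa using (hasDerivAt_id x).const_mul (2 * Real.pi * I : ℂ)
  have h2 := ((h1.cexp).const_sub 1).clog hs
  have h3 : HasDerivAt (fun x : ℂ => -(2 * Real.pi * I) * x) (-(2 * Real.pi * I)) x := by
    simpa using (hasDerivAt_id x).const_mul (-(2 * Real.pi * I) : ℂ)
  refine (h3.fun_add h2).congr_deriv ?_
  have h4 := slitPlane_ne_zero hs
  have h5 : cexp (2 * Real.pi * I * x) - 1 ≠ 0 := fun h => h4 (by linear_combination -h)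
  unfold legendreK
  generalize cexp (2 * Real.pi * I * x) = e at *
  field_simp
  ring

theorem legendre_prim_neg {x : ℂ} (hx : x.im < 0) :
    HasDerivAt (fun x : ℂ => log (1 - cexp (-(2 * Real.pi * I * x)))) (legendreK x) x := by
  have hs : 1 - cexp (-(2 * Real.pi * I * x)) ∈ slitPlane := by
    apply legendre_slit
    have : Real.pi * x.im < 0 := mul_neg_of_pos_of_neg Real.pi_pos hx
    simp
    linarith
  have h1 : HasDerivAt (fun x : ℂ => -(2 * Real.pi * I * x)) (-(2 * Real.pi * I)) x := by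
    simpa using ((hasDerivAt_id x).const_mul (2 * Real.pi * I : ℂ)).fun_neg
  have h2 := ((h1.cexp).const_sub 1).clog hs
  refine h2.congr_deriv ?_
  have h4 := slitPlane_ne_zero hs
  unfold legendreK
  rw [Complex.exp_neg] at h4 ⊢
  have h6 := Complex.exp_ne_zero (2 * Real.pi * I * x)
  generalize cexp (2 * Real.pi * I * x) = e at *
  have h5 : e - 1 ≠ 0 := by
    intro h
    apply h4
    rw [sub_eq_zero.mp h]
    simp
  field_simp

open Classical in
/-- The difference `ω₁ Z(ω₁ x) - k(x)` with the constant value `c` on the lattice. -/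
noncomputable def legendreF (c : ℂ) (x : ℂ) : ℂ :=
  if L.ω₁ * x ∈ L.lattice then c else L.ω₁ * Zf L (L.ω₁ * x) - legendreK x

theorem legendre_F_add_int (c x : ℂ) (m : ℤ) : legendreF L c (x + m) = legendreF L c x := by
  have hm : (m : ℂ) * L.ω₁ ∈ L.lattice := PeriodPair.mem_lattice.mpr ⟨m, 0, by simp⟩
  have e : L.ω₁ * (x + m) = L.ω₁ * x + m * L.ω₁ := by ring
  unfold legendreF
  by_cases hx : L.ω₁ * x ∈ L.lattice
  · rw [if_pos hx, if_pos (by rw [e]; exact add_mem hx hm)]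
  · rw [if_neg hx, if_neg (by rw [e]; exact fun h => hx (by simpa using sub_mem h hm)),
      legendre_K_add_int, e]
    have := Zf_add_int' L m 0 hx
    simp only [Int.cast_zero, zero_mul, add_zero] at this
    rw [this]

theorem legendre_F_diff_off (c : ℂ) {x : ℂ} (hx : L.ω₁ * x ∉ L.lattice) :
    DifferentiableAt ℂ (legendreF L c) x := by
  have hc : ContinuousAt (fun x : ℂ => L.ω₁ * x) x := by fun_prop
  have hev : ∀ᶠ z in 𝓝 x, L.ω₁ * z ∉ L.lattice :=
    hc.eventually (L.isClosed_lattice.isOpen_compl.mem_nhds hx)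
  have h1 : legendreF L c =ᶠ[𝓝 x] fun z => L.ω₁ * Zf L (L.ω₁ * z) - legendreK z := by
    filter_upwards [hev] with z hz
    unfold legendreF
    rw [if_neg hz]
  refine DifferentiableAt.congr_of_eventuallyEq ?_ h1
  have h2 : DifferentiableAt ℂ (fun z => Zf L (L.ω₁ * z)) x :=
    DifferentiableAt.comp x (hasDerivAt_Zf L hx).differentiableAt (by fun_prop)
  refine (h2.const_mul _).sub (legendre_K_diff fun m hm => hx ?_)
  exact PeriodPair.mem_lattice.mpr ⟨m, 0, by rw [hm]; simp [mul_comm]⟩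

theorem legendre_F_diff_zero : ∃ c, DifferentiableAt ℂ (legendreF L c) 0 := by
  obtain ⟨g, hg, -, hz⟩ := zeta_pole L (zero_mem L.lattice)
  obtain ⟨h, hh, hk⟩ := legendre_K_pole
  have h0 := ω₁_ne_zero L
  have hc : AnalyticAt ℂ (fun x : ℂ => L.ω₁ * x) 0 := by fun_prop
  have hg' : AnalyticAt ℂ (fun x : ℂ => g (L.ω₁ * x)) 0 := AnalyticAt.comp_of_eq hg hc (by simp)
  set A : ℂ → ℂ := fun x => L.ω₁ * (g (L.ω₁ * x) - aa L * (L.ω₁ * x)) - h x with hA
  have hAa : AnalyticAt ℂ A 0 :=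
    (analyticAt_const.mul (hg'.sub (analyticAt_const.mul hc))).sub hh
  refine ⟨A 0, DifferentiableAt.congr_of_eventuallyEq hAa.differentiableAt ?_⟩
  have hev : ∀ᶠ z in 𝓝 (0 : ℂ), L.ω₁ * z ∈ ((L.lattice : Set ℂ) \ {0})ᶜ := by
    apply hc.continuousAt.eventually
    simp only [mul_zero]
    exact L.compl_lattice_sdiff_singleton_mem_nhds 0
  filter_upwards [hev, hk] with z hz1 hz2
  unfold legendreF
  by_cases hz0 : z = 0
  · rw [hz0, if_pos (by simp)]
  · have hn : L.ω₁ * z ∉ L.lattice := fun hm => hz1 ⟨hm, by simp [h0, hz0]⟩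
    rw [if_neg hn, hz2 hz0, Zf, hz, hA]
    simp only [sub_zero]
    field_simp
    ring

theorem legendre_lattice_im {x : ℂ} (hx : L.ω₁ * x ∈ L.lattice) :
    ∃ m n : ℤ, x = m + n * (L.ω₂ / L.ω₁) ∧ x.im = n * (L.ω₂ / L.ω₁).im := by
  obtain ⟨m, n, e⟩ := PeriodPair.mem_lattice.mp hx
  have h0 := ω₁_ne_zero L
  have e' : x = m + n * (L.ω₂ / L.ω₁) := by
    field_simp
    linear_combination -e
  refine ⟨m, n, e', ?_⟩
  rw [e']
  simp

theorem legendre_F_diff (h : 0 < (L.ω₂ / L.ω₁).im) : ∃ c, ∀ x : ℂ, |x.im| < (L.ω₂ / L.ω₁).im →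
    DifferentiableAt ℂ (legendreF L c) x := by
  obtain ⟨c, hc⟩ := legendre_F_diff_zero L
  refine ⟨c, fun x hx => ?_⟩
  by_cases hm : L.ω₁ * x ∈ L.lattice
  · obtain ⟨m, n, e, e'⟩ := legendre_lattice_im L hm
    have hn : n = 0 := by
      rw [e', abs_mul, abs_of_pos h] at hx
      have h1 : |(n : ℝ)| < 1 := by
        by_contra hh
        push Not at hh
        nlinarith
      have h2 : |n| < 1 := by exact_mod_cast h1
      exact Int.abs_lt_one_iff.mp h2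
    rw [hn] at e
    have e2 : legendreF L c = fun z => legendreF L c (z + ((-m : ℤ) : ℂ)) := by
      funext z
      rw [legendre_F_add_int]
    rw [e2]
    refine DifferentiableAt.comp x (g := legendreF L c) ?_ (by fun_prop)
    have : x + ((-m : ℤ) : ℂ) = 0 := by
      rw [e]
      simp
    rw [this]
    exact hc
  · exact legendre_F_diff_off L c hm

/-- Hint: put `τ = ω₂/ω₁`, `φ x = ω₁ * Zf L (ω₁ x)`: `φ (x+1) = φ x`,
`φ (x + τ) = φ x + ω₁ (η₂ - aa ω₂)`, simple poles with residue `1` at `ℤ + ℤ τ`.  Let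
`k x = 2πI / (cexp (2πI x) - 1)` (period `1`, simple poles with residue `1` at `ℤ`).  The function
`φ - k`, extended at the integers by its limit, is holomorphic on `|im x| ≤ im τ / 2` and has period
`1` (use `zeta_pole`; `1/(e^u - 1) - 1/u` has a removable singularity, e.g. through `dslope`;
`Complex.differentiableOn_update_limUnder_of_bddAbove` or `AnalyticAt` germs).  `shift_strip` for
`s = τ/2`, `s' = -τ/2` gives `ω₁ (η₂ - aa ω₂) = ∫ k (x + τ/2) - ∫ k (x - τ/2)`.  For `im s > 0`,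
`∫₀¹ k (x + s) = -2πI` (primitive: `k = -2πI + d/dx log (1 - cexp (2πI x))`, and
`1 - cexp (..)` lies in the slit plane), for `im s < 0` it is `0`
(`k = d/dx log (1 - cexp (-2πI x))`). -/
theorem legendre (h : 0 < (L.ω₂ / L.ω₁).im) :
    eta L L.ω₁ * L.ω₂ - eta L L.ω₂ * L.ω₁ = 2 * Real.pi * I := by
  obtain ⟨c, hc⟩ := legendre_F_diff L h
  have h0 := ω₁_ne_zero L
  set τ : ℂ := L.ω₂ / L.ω₁ with hτ
  have hτ2 : L.ω₁ * τ = L.ω₂ := by
    rw [hτ]
    field_simp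
  have ip : ∀ x : ℝ, ((x : ℂ) + τ / 2).im = τ.im / 2 := by
    intro x
    simp
  have im' : ∀ x : ℝ, ((x : ℂ) + -τ / 2).im = -(τ.im / 2) := by
    intro x
    simp
    ring
  have hs := shift_strip (g := legendreF L c) (s := τ / 2) (s' := -τ / 2) (by
    intro z hz
    refine (hc z ?_).differentiableWithinAt
    have e1 : (τ / 2).im = τ.im / 2 := by simp
    have e2 : (-τ / 2).im = -(τ.im / 2) := by
      simp
      ring
    simp only [Set.mem_ofPred_eq, e1, e2] at hz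
    rw [Set.uIcc_of_ge (by linarith)] at hz
    rw [abs_lt]
    constructor <;> linarith [hz.1, hz.2]) (by
    intro z
    simpa using legendre_F_add_int L c z 1)
  have cp : Continuous fun x : ℝ => legendreF L c (x + τ / 2) := by
    rw [continuous_iff_continuousAt]
    intro x
    refine ContinuousAt.comp (f := fun x : ℝ => (x : ℂ) + τ / 2) (hc _ ?_).continuousAt
      (by fun_prop)
    rw [ip, abs_of_pos (by linarith)]
    linarith
  have cm : Continuous fun x : ℝ => legendreF L c (x + -τ / 2) := by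
    rw [continuous_iff_continuousAt]
    intro x
    refine ContinuousAt.comp (f := fun x : ℝ => (x : ℂ) + -τ / 2) (hc _ ?_).continuousAt
      (by fun_prop)
    rw [im', abs_neg, abs_of_pos (by linarith)]
    linarith
  have hoff : ∀ x : ℝ, L.ω₁ * (x + -τ / 2) ∉ L.lattice := by
    intro x hm
    obtain ⟨m, n, -, e⟩ := legendre_lattice_im L hm
    rw [im', ← hτ] at e
    have h1 : (2 * n + 1 : ℝ) = 0 := by
      apply mul_right_cancel₀ h.ne'
      linarith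
    have h2 : (2 * n + 1 : ℤ) = 0 := by exact_mod_cast h1
    omega
  set C : ℂ := L.ω₁ * (eta L L.ω₂ - aa L * L.ω₂) with hC
  have hdiff : ∀ x : ℝ, legendreF L c (x + τ / 2) - legendreF L c (x + -τ / 2) =
      C - legendreK (x + τ / 2) + legendreK (x + -τ / 2) := by
    intro x
    have e : L.ω₁ * (x + τ / 2) = L.ω₁ * (x + -τ / 2) + L.ω₂ := by
      linear_combination hτ2
    have hoff' : L.ω₁ * (x + τ / 2) ∉ L.lattice := by
      rw [e]
      exact fun hm => hoff x (by simpa using sub_mem hm L.ω₂_mem_lattice)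
    have hz := Zf_add_int' L 0 1 (hoff x)
    simp only [Int.cast_zero, zero_mul, zero_add, Int.cast_one, one_mul] at hz
    unfold legendreF
    rw [if_neg hoff', if_neg (hoff x), e, hz, hC]
    ring
  set P : ℂ → ℂ := fun x => -(2 * Real.pi * I) * x + log (1 - cexp (2 * Real.pi * I * x)) with hP
  set Q : ℂ → ℂ := fun x => log (1 - cexp (-(2 * Real.pi * I * x))) with hQ
  have hder : ∀ x : ℝ, HasDerivAt (fun x : ℝ => C * x - P (x + τ / 2) + Q (x + -τ / 2))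
      (legendreF L c (x + τ / 2) - legendreF L c (x + -τ / 2)) x := by
    intro x
    rw [hdiff]
    have d1 : HasDerivAt (fun z : ℂ => C * z) C x := by
      simpa using (hasDerivAt_id (x : ℂ)).const_mul C
    have d2 : HasDerivAt (fun z : ℂ => P (z + τ / 2)) (legendreK (x + τ / 2)) x :=
      HasDerivAt.comp_add_const _ _ (legendre_prim_pos (by rw [ip]; linarith))
    have d3 : HasDerivAt (fun z : ℂ => Q (z + -τ / 2)) (legendreK (x + -τ / 2)) x :=
      HasDerivAt.comp_add_const _ _ (legendre_prim_neg (by rw [im']; linarith))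
    exact ((d1.fun_sub d2).fun_add d3).comp_ofReal
  have hI := intervalIntegral.integral_eq_sub_of_hasDerivAt (a := (0 : ℝ)) (b := 1)
    (fun x _ => hder x) ((cp.sub cm).intervalIntegrable _ _)
  rw [intervalIntegral.integral_sub (cp.intervalIntegrable _ _) (cm.intervalIntegrable _ _), hs,
    sub_self] at hI
  have p1 : ∀ s : ℂ, cexp (2 * Real.pi * I * (1 + s)) = cexp (2 * Real.pi * I * s) := by
    intro s
    rw [mul_add, Complex.exp_add, mul_one, Complex.exp_two_pi_mul_I, one_mul]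
  have p2 : ∀ s : ℂ, cexp (-(2 * Real.pi * I * (1 + s))) = cexp (-(2 * Real.pi * I * s)) := by
    intro s
    rw [Complex.exp_neg, Complex.exp_neg, p1]
  simp only [hP, hQ, ofReal_one, ofReal_zero, zero_add, p1, p2] at hI
  have hC' : C = -(2 * Real.pi * I) := by linear_combination -hI
  rw [hC, aa] at hC'
  have e3 : L.ω₁ * (eta L L.ω₂ - eta L L.ω₁ / L.ω₁ * L.ω₂) =
      eta L L.ω₂ * L.ω₁ - eta L L.ω₁ * L.ω₂ := by
    field_simp
  rw [e3] at hC'
  linear_combination -hC'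

theorem Zf_add_int (h : 0 < (L.ω₂ / L.ω₁).im) (m n : ℤ) {z : ℂ} (hz : z ∉ L.lattice) :
    Zf L (z + (m * L.ω₁ + n * L.ω₂)) = Zf L z - n * (2 * Real.pi * I / L.ω₁) := by
  have h0 := ω₁_ne_zero L
  rw [Zf_add_int' L m n hz, ← legendre L h, aa]
  field_simp
  ring

end GPC96

end

-- part MP_57341d_ag.H96.Leaf
section

/-! The leaves of the foliation are Zariski dense. -/

open MvPolynomial Complex Filter Topology Pool.Agent.MP_d171e3_nt
open scoped PeriodPair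

namespace GPC96

variable (L₁ L₂ : PeriodPair)

/-- The constants attached to two lattices. -/
noncomputable def par : Par :=
  ⟨L₁.g₂, L₁.g₃, L₂.g₂, L₂.g₃, aa L₁, aa L₂, L₂.ω₁ / L₁.ω₁⟩

/-- The uniformisation. -/
noncomputable def ev (z₁ z₂ t : ℂ) : Fin 5 → ℂ :=
  ![℘[L₁] z₁, ℘'[L₁] z₁, ℘[L₂] z₂, ℘'[L₂] z₂, Zf L₁ z₁ - L₂.ω₁ / L₁.ω₁ * Zf L₂ z₂ + t]

theorem leaf_chain (D : Derivation ℂ R5 R5) (γ : ℂ → Fin 5 → ℂ) (s : ℂ)
    (h : ∀ i, HasDerivAt (fun s => γ s i) (eval (γ s) (D (X i))) s) (f : R5) :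
    HasDerivAt (fun s => eval (γ s) f) (eval (γ s) (D f)) s := by
  induction f using MvPolynomial.induction_on with
  | C a => simpa [der_C] using hasDerivAt_const s a
  | add p q hp hq => simpa only [map_add] using hp.fun_add hq
  | mul_X p i hp =>
    have e : eval (γ s) (D (p * X i)) =
        eval (γ s) (D p) * γ s i + eval (γ s) p * eval (γ s) (D (X i)) := by
      simp only [Derivation.leibniz, smul_eq_mul, map_add, map_mul, eval_X]
      ring
    rw [e]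
    simpa only [map_mul, eval_X] using hp.fun_mul (h i)

theorem leaf_lin (z α s : ℂ) : HasDerivAt (fun s => z + α * s) α s := by
  simpa using ((hasDerivAt_id s).const_mul α).const_add z

theorem leaf_comp {g : ℂ → ℂ} {g' z α s : ℂ} (h : HasDerivAt g g' (z + α * s)) :
    HasDerivAt (fun s => g (z + α * s)) (g' * α) s :=
  h.comp s (leaf_lin z α s)

theorem leaf_countable (L : PeriodPair) {z : ℂ} (hz : z ∉ L.lattice) (α : ℂ) :
    {s : ℂ | z + α * s ∈ L.lattice}.Countable := by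
  by_cases h : α = 0
  · simp [h, hz]
  · exact (countable_lattice L).preimage (f := fun s => z + α * s) fun a b e =>
      mul_left_cancel₀ h (add_left_cancel e)

/-- Chain rule (induction on `f`). -/
theorem hasDerivAt_ev (z₁ z₂ t α β s : ℂ) (h₁ : z₁ + α * s ∉ L₁.lattice)
    (h₂ : z₂ + β * s ∉ L₂.lattice) (f : R5) :
    HasDerivAt (fun s => eval (ev L₁ L₂ (z₁ + α * s) (z₂ + β * s) t) f)
      (eval (ev L₁ L₂ (z₁ + α * s) (z₂ + β * s) t)
        (C α * D1 (par L₁ L₂) f + C β * D2 (par L₁ L₂) f)) s := by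
  have h := leaf_chain ((C α : R5) • D1 (par L₁ L₂) + (C β : R5) • D2 (par L₁ L₂))
    (fun s => ev L₁ L₂ (z₁ + α * s) (z₂ + β * s) t) s (fun i => ?_) f
  · simpa only [Derivation.add_apply, Derivation.smul_apply, smul_eq_mul] using h
  simp only [Derivation.add_apply, Derivation.smul_apply, smul_eq_mul]
  fin_cases i
  · refine (leaf_comp (hasDerivAt_wp L₁ h₁)).congr_deriv ?_
    simp [ev, mul_comm]
  · refine (leaf_comp (hasDerivAt_wp' L₁ h₁)).congr_deriv ?_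
    simp [ev, par, mul_comm]
  · refine (leaf_comp (hasDerivAt_wp L₂ h₂)).congr_deriv ?_
    simp [ev, mul_comm]
  · refine (leaf_comp (hasDerivAt_wp' L₂ h₂)).congr_deriv ?_
    simp [ev, par, mul_comm]
  · refine (((leaf_comp (hasDerivAt_Zf L₁ h₁)).fun_sub
      ((leaf_comp (hasDerivAt_Zf L₂ h₂)).const_mul (L₂.ω₁ / L₁.ω₁))).add_const t).congr_deriv ?_
    simp [ev, par]
    ring

/-- Flow lemma.  Hint: `U = {s | z₁ + α s ∉ Λ₁ ∧ z₂ + β s ∉ Λ₂}` is open with countable complement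
(`countable_lattice`; if `α = 0` the first condition always holds), so connected; for `f ∈ J` the
function of `hasDerivAt_ev` is analytic on `U` with all iterated derivatives zero at `0`. -/
theorem flow (J : Ideal R5) (α β : ℂ)
    (hJ : ∀ f ∈ J, C α * D1 (par L₁ L₂) f + C β * D2 (par L₁ L₂) f ∈ J) {z₁ z₂ t : ℂ}
    (h₁ : z₁ ∉ L₁.lattice) (h₂ : z₂ ∉ L₂.lattice) (h : ∀ f ∈ J, eval (ev L₁ L₂ z₁ z₂ t) f = 0)
    (s : ℂ) (hs₁ : z₁ + α * s ∉ L₁.lattice) (hs₂ : z₂ + β * s ∉ L₂.lattice) :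
    ∀ f ∈ J, eval (ev L₁ L₂ (z₁ + α * s) (z₂ + β * s) t) f = 0 := by
  obtain ⟨U, hU⟩ : ∃ U : Set ℂ,
      U = ({s | z₁ + α * s ∈ L₁.lattice} ∪ {s | z₂ + β * s ∈ L₂.lattice})ᶜ := ⟨_, rfl⟩
  have hmem : ∀ s, s ∈ U ↔ z₁ + α * s ∉ L₁.lattice ∧ z₂ + β * s ∉ L₂.lattice := fun s => by
    rw [hU, Set.mem_compl_iff, Set.mem_union, not_or]
    rfl
  have hopen : IsOpen U := by
    rw [hU]
    exact ((L₁.isClosed_lattice.preimage (f := fun s => z₁ + α * s) (by fun_prop)).union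
      (L₂.isClosed_lattice.preimage (f := fun s => z₂ + β * s) (by fun_prop))).isOpen_compl
  have hconn : IsPreconnected U := by
    rw [hU]
    exact (((leaf_countable L₁ h₁ α).union
      (leaf_countable L₂ h₂ β)).isConnected_compl_of_one_lt_rank (by simp)).isPreconnected
  have h0 : (0 : ℂ) ∈ U := (hmem 0).2 ⟨by simpa using h₁, by simpa using h₂⟩
  have hd := fun f : R5 => fun s (hs : s ∈ U) =>
    hasDerivAt_ev L₁ L₂ z₁ z₂ t α β s ((hmem s).1 hs).1 ((hmem s).1 hs).2 f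
  have hit : ∀ n : ℕ, ∀ f ∈ J,
      iteratedDeriv n (fun s => eval (ev L₁ L₂ (z₁ + α * s) (z₂ + β * s) t) f) 0 = 0 := by
    intro n
    induction n with
    | zero => intro f hf; simpa using h f hf
    | succ n ih =>
      intro f hf
      rw [iteratedDeriv_succ']
      refine (Filter.EventuallyEq.iteratedDeriv_eq n ?_).trans (ih _ (hJ f hf))
      filter_upwards [hopen.mem_nhds h0] with s hs
      exact (hd f s hs).deriv
  intro f hf
  have han : AnalyticOnNhd ℂ (fun s => eval (ev L₁ L₂ (z₁ + α * s) (z₂ + β * s) t) f) U :=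
    DifferentiableOn.analyticOnNhd
      (fun s hs => (hd f s hs).differentiableAt.differentiableWithinAt) hopen
  have htop : analyticOrderAt
      (fun s => eval (ev L₁ L₂ (z₁ + α * s) (z₂ + β * s) t) f) 0 = ⊤ :=
    ENat.eq_top_iff_forall_ge.2 fun n =>
      (natCast_le_analyticOrderAt_iff_iteratedDeriv_eq_zero (han 0 h0)).2 fun i _ => hit i f hf
  exact han.eqOn_zero_of_preconnected_of_eventuallyEq_zero hconn h0
    (analyticOrderAt_eq_top.1 htop) ((hmem s).2 ⟨hs₁, hs₂⟩)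

/-- Every proper ideal containing the cubics vanishes at a point of the uniformisation.  Hint:
Nullstellensatz (`MvPolynomial.isMaximal_iff_eq_vanishingIdeal_singleton`), `exists_point`. -/
theorem exists_ev (J : Ideal R5) (hJ : J ≠ ⊤) (hE : EI (par L₁ L₂) ≤ J) :
    ∃ z₁ z₂ t, z₁ ∉ L₁.lattice ∧ z₂ ∉ L₂.lattice ∧ ∀ f ∈ J, eval (ev L₁ L₂ z₁ z₂ t) f = 0 := by
  obtain ⟨M, hM, hJM⟩ := J.exists_le_maximal hJ
  obtain ⟨x, rfl⟩ := isMaximal_iff_eq_vanishingIdeal_singleton.1 hM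
  have hx : ∀ f ∈ J, eval x f = 0 := fun f hf => by
    have := (mem_vanishingIdeal_singleton_iff x f).1 (hJM hf)
    rwa [aeval_eq_eval] at this
  have e1 := hx _ (hE (E1_mem _))
  have e2 := hx _ (hE (E2_mem _))
  simp only [E1, E2, par, map_sub, map_mul, map_pow, eval_X, eval_C, map_ofNat, sub_eq_zero]
    at e1 e2
  obtain ⟨z₁, a1, a2, a3⟩ := exists_point L₁ e1
  obtain ⟨z₂, b1, b2, b3⟩ := exists_point L₂ e2
  refine ⟨z₁, z₂, x 4 - (Zf L₁ z₁ - L₂.ω₁ / L₁.ω₁ * Zf L₂ z₂), a1, b1, fun f hf => ?_⟩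
  have : ev L₁ L₂ z₁ z₂ (x 4 - (Zf L₁ z₁ - L₂.ω₁ / L₁.ω₁ * Zf L₂ z₂)) = x := by
    funext i
    fin_cases i <;> simp [ev, a2, a3, b2, b3]
  rw [this]
  exact hx f hf

theorem leaf_onto (L : PeriodPair) (x : ℂ) : ∃ z, z ∉ L.lattice ∧ ℘[L] z = x := by
  obtain ⟨y, hy⟩ := IsAlgClosed.exists_pow_nat_eq (4 * x ^ 3 - L.g₂ * x - L.g₃) two_pos
  obtain ⟨z, h1, h2, -⟩ := exists_point L hy
  exact ⟨z, h1, h2⟩

theorem leaf_line (F : MvPolynomial (Fin 3) ℂ) (a b w : ℂ) {c : ℂ} (hc : c ≠ 0)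
    (h : ∀ n : ℤ, eval ![a, b, w - n * c] F = 0) (u : ℂ) : eval ![a, b, u] F = 0 := by
  have e : ∀ u : ℂ, (aeval ![Polynomial.C a, Polynomial.C b, Polynomial.X] F).eval u =
      eval ![a, b, u] F := fun u => by
    rw [← Polynomial.coe_aeval_eq_eval, ← AlgHom.comp_apply, comp_aeval, aeval_eq_eval]
    congr 2
    funext i
    fin_cases i <;> simp
  have hinj : Function.Injective fun n : ℤ => w - n * c := fun m n e => by
    exact_mod_cast mul_right_cancel₀ hc (sub_right_injective e)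
  rw [← e, Polynomial.eq_zero_of_infinite_isRoot _
    (Set.infinite_of_injective_forall_mem hinj fun n => (e _).trans (h n)), Polynomial.eval_zero]

/-- Hint: `flow` with `(1,0)` then `(0,1)`: `p` vanishes at `ev z₁ z₂ t` for all `z₁, z₂`; moving
`z₁` by `n ω₂` changes only the last coordinate, by `-n 2πI/ω₁` (`Zf_add_int`).  If `dm p ≤ 2`,
by `card_le_dm` a nonzero `f(x₁, x₂, w)` lies in `p`; it vanishes on `ℂ × ℂ × (infinite sets)`
(`exists_point` makes `℘` onto), so `f = 0` (`MvPolynomial.funext`, and a one variable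
polynomial in `w` with infinitely many roots). -/
theorem leaf_dense (h₁ : 0 < (L₁.ω₂ / L₁.ω₁).im) (p : Ideal R5) (hp : p.IsPrime)
    (hE : EI (par L₁ L₂) ≤ p) (hD1 : ∀ f ∈ p, D1 (par L₁ L₂) f ∈ p)
    (hD2 : ∀ f ∈ p, D2 (par L₁ L₂) f ∈ p) : 3 ≤ dm p := by
  obtain ⟨z₁, z₂, t, a1, a2, h⟩ := exists_ev L₁ L₂ p hp.ne_top hE
  have hall : ∀ u₁ u₂, u₁ ∉ L₁.lattice → u₂ ∉ L₂.lattice →
      ∀ f ∈ p, eval (ev L₁ L₂ u₁ u₂ t) f = 0 := fun u₁ u₂ b1 b2 => by
    have s1 := flow L₁ L₂ p 1 0 (fun f hf => by simpa using hD1 f hf) a1 a2 h (u₁ - z₁)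
      (by simpa using b1) (by simpa using a2)
    simp only [one_mul, zero_mul, add_zero, add_sub_cancel] at s1
    have s2 := flow L₁ L₂ p 0 1 (fun f hf => by simpa using hD2 f hf) b1 a2 s1 (u₂ - z₂)
      (by simpa using b1) (by simpa using b2)
    simpa only [one_mul, zero_mul, add_zero, add_sub_cancel] using s2
  have hind : AlgebraicIndependent ℂ fun i : Fin 3 => Ideal.Quotient.mk p (X (emb i)) := by
    rw [algebraicIndependent_iff]
    intro F hF
    have hm : rename emb F ∈ p := by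
      rw [← Ideal.Quotient.eq_zero_iff_mem, ← hF, ← Ideal.Quotient.mkₐ_eq_mk ℂ, rename_eq_aeval,
        ← AlgHom.comp_apply, comp_aeval]
      rfl
    refine MvPolynomial.funext fun x => ?_
    obtain ⟨u₁, b1, c1⟩ := leaf_onto L₁ (x 0)
    obtain ⟨u₂, b2, c2⟩ := leaf_onto L₂ (x 1)
    have hc : 2 * Real.pi * I / L₁.ω₁ ≠ 0 := div_ne_zero two_pi_I_ne_zero (ω₁_ne_zero L₁)
    have hx : x = ![x 0, x 1, x 2] := by
      funext i
      fin_cases i <;> rfl
    rw [map_zero, hx]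
    refine leaf_line F _ _ (Zf L₁ u₁ - L₂.ω₁ / L₁.ω₁ * Zf L₂ u₂ + t) hc (fun n => ?_) _
    have hl : ((0 : ℤ) : ℂ) * L₁.ω₁ + n * L₁.ω₂ ∈ L₁.lattice := PeriodPair.mem_lattice.2 ⟨0, n, rfl⟩
    have := hall (u₁ + ((0 : ℤ) * L₁.ω₁ + n * L₁.ω₂)) u₂
      (fun h' => b1 ((Submodule.add_mem_iff_left _ hl).1 h')) b2 _ hm
    rw [eval_rename] at this
    rw [← this]
    congr 2
    funext i
    fin_cases i
    · exact (c1.symm.trans (L₁.weierstrassP_add_coe u₁ ⟨_, hl⟩).symm)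
    · exact c2.symm
    · show _ = Zf L₁ _ - L₂.ω₁ / L₁.ω₁ * Zf L₂ u₂ + t
      rw [Zf_add_int L₁ h₁ 0 n b1]
      show Zf L₁ u₁ - L₂.ω₁ / L₁.ω₁ * Zf L₂ u₂ + t - n * (2 * Real.pi * I / L₁.ω₁) = _
      ring
  simpa using card_le_dm hind

end GPC96

end

-- part MP_57341d_ag.H96.Theta
section

/-! A theta function vanishing on the lattice; growth of quasi-periodic functions. -/

open Complex Filter Topology

namespace GPC96

theorem theta_strip {f : ℂ → ℝ} (hf : Continuous f) (hp : ∀ x, f (x + 1) = f x) (t : ℝ) :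
    ∃ B : ℝ, 0 < B ∧ ∀ x : ℂ, |x.im| ≤ t → f x ≤ B := by
  have hc : IsCompact (Set.Icc (0 : ℝ) 1 ×ℂ Set.Icc (-t) t) := isCompact_Icc.reProdIm isCompact_Icc
  obtain ⟨B, hB⟩ := hc.bddAbove_image hf.continuousOn
  have hper : Function.Periodic f 1 := hp
  refine ⟨max B 1, lt_max_of_lt_right one_pos, fun x hx => ?_⟩
  have h1 : f x = f (x - (⌊x.re⌋ : ℤ) * 1) := (hper.sub_int_mul_eq ⌊x.re⌋).symm
  rw [h1]
  refine le_trans (hB ⟨_, ?_, rfl⟩) (le_max_left _ _)
  rw [Complex.mem_reProdIm]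
  have h2 := Int.floor_le x.re
  have h3 := Int.lt_floor_add_one x.re
  constructor
  · simp only [mul_one, sub_re, intCast_re, Set.mem_Icc]
    constructor <;> linarith
  · simp only [mul_one, sub_im, intCast_im, sub_zero, Set.mem_Icc]
    exact abs_le.mp hx

theorem theta_step {K t B a v u : ℝ} (n : ℕ) (hK : 0 ≤ K) (ht : 0 < t) (hB : 0 < B)
    (hu : u ≤ (n + 1) * t) (ha : a ≤ Real.exp (K * (1 + u)) * v)
    (hv : v ≤ B * Real.exp (n * K * (1 + (n + 1) * t))) :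
    a ≤ B * Real.exp (((n + 1 : ℕ) : ℝ) * K * (1 + (((n + 1 : ℕ) : ℝ) + 1) * t)) := by
  have hn : (0 : ℝ) ≤ n := Nat.cast_nonneg n
  refine ha.trans ((mul_le_mul_of_nonneg_left hv (Real.exp_pos _).le).trans ?_)
  rw [mul_left_comm, ← Real.exp_add]
  refine mul_le_mul_of_nonneg_left (Real.exp_le_exp.mpr ?_) hB.le
  push_cast
  have h1 : K * (1 + u) ≤ K * (1 + (n + 1) * t) := mul_le_mul_of_nonneg_left (by linarith) hK
  have h2 : 0 ≤ (n + 1) * K * t := by positivity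
  nlinarith

theorem theta_num {K t u n : ℝ} (hK : 0 ≤ K) (ht : 0 < t) (hu : 0 ≤ u) (hn0 : 0 ≤ n)
    (hn : n * t ≤ u) : n * K * (1 + (n + 1) * t) ≤ K / t * (2 + t) * (1 + u ^ 2) := by
  have h1 : n ≤ u / t := (le_div_iff₀ ht).mpr hn
  have h2 : 1 + (n + 1) * t ≤ 1 + t + u := by linarith
  have h3 : n * K * (1 + (n + 1) * t) ≤ u / t * K * (1 + t + u) :=
    mul_le_mul (mul_le_mul_of_nonneg_right h1 hK) h2 (by positivity) (by positivity)
  have h4 : u * (1 + t + u) ≤ (2 + t) * (1 + u ^ 2) := by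
    have h5 : u ≤ 1 + u ^ 2 := by nlinarith [sq_nonneg (u - 1)]
    have h6 : (1 + t) * u ≤ (1 + t) * (1 + u ^ 2) := mul_le_mul_of_nonneg_left h5 (by linarith)
    nlinarith
  calc _ ≤ u / t * K * (1 + t + u) := h3
    _ = K / t * (u * (1 + t + u)) := by ring
    _ ≤ K / t * ((2 + t) * (1 + u ^ 2)) := mul_le_mul_of_nonneg_left h4 (by positivity)
    _ = _ := by ring

/-- Growth from one-step bounds.  Hint: write `x = x₀ + n τ + m` with `x₀` in a compact
parallelogram, or argue by induction on `n` for the strips `|im x| ≤ n im τ`. -/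
theorem growth {τ : ℂ} (hτ : 0 < τ.im) {f : ℂ → ℝ} (hf : Continuous f) (h0 : ∀ x, 0 ≤ f x)
    (hp : ∀ x, f (x + 1) = f x) {K : ℝ} (hK : 0 ≤ K)
    (hu : ∀ x, f (x + τ) ≤ Real.exp (K * (1 + |x.im|)) * f x)
    (hd : ∀ x, f (x - τ) ≤ Real.exp (K * (1 + |x.im|)) * f x) :
    ∃ C : ℝ, 0 < C ∧ ∀ x, f x ≤ Real.exp (C * (1 + x.im ^ 2)) := by
  obtain ⟨B, hB, hb⟩ := theta_strip hf hp τ.im
  have key : ∀ n : ℕ, ∀ x : ℂ, |x.im| ≤ (n + 1) * τ.im →
      f x ≤ B * Real.exp (n * K * (1 + (n + 1) * τ.im)) := by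
    intro n
    induction n with
    | zero =>
      intro x hx
      have := hb x (by simpa using hx)
      simpa using this
    | succ n ih =>
      intro x hx
      have hn : (0 : ℝ) ≤ n * τ.im := mul_nonneg (Nat.cast_nonneg n) hτ.le
      push_cast at hx
      obtain ⟨hx1, hx2⟩ := abs_le.mp hx
      rcases le_total 0 x.im with h | h
      · have hy : |(x - τ).im| ≤ (n + 1) * τ.im := by
          rw [sub_im, abs_le]
          constructor <;> linarith
        have h1 := hu (x - τ)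
        rw [sub_add_cancel] at h1
        exact theta_step n hK hτ hB hy h1 (ih _ hy)
      · have hy : |(x + τ).im| ≤ (n + 1) * τ.im := by
          rw [add_im, abs_le]
          constructor <;> linarith
        have h1 := hd (x + τ)
        rw [add_sub_cancel_right] at h1
        exact theta_step n hK hτ hB hy h1 (ih _ hy)
  refine ⟨B + K / τ.im * (2 + τ.im), by positivity, fun x => ?_⟩
  have hq : 0 ≤ |x.im| / τ.im := div_nonneg (abs_nonneg _) hτ.le
  have h1 : (⌊|x.im| / τ.im⌋₊ : ℝ) * τ.im ≤ |x.im| := (le_div_iff₀ hτ).mp (Nat.floor_le hq)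
  have h2 : |x.im| ≤ ((⌊|x.im| / τ.im⌋₊ : ℝ) + 1) * τ.im :=
    ((div_lt_iff₀ hτ).mp (Nat.lt_floor_add_one _)).le
  refine (key _ x h2).trans ?_
  have h3 := theta_num hK hτ (abs_nonneg x.im) (Nat.cast_nonneg _) h1
  rw [sq_abs] at h3
  have h4 : B ≤ Real.exp (B * (1 + x.im ^ 2)) := by
    have h5 := Real.add_one_le_exp (B * (1 + x.im ^ 2))
    have h6 : 0 ≤ B * x.im ^ 2 := by positivity
    linarith
  rw [add_mul B, Real.exp_add]
  exact mul_le_mul h4 (Real.exp_le_exp.mpr h3) (Real.exp_pos _).le (Real.exp_pos _).le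

theorem theta_int_term (n : ℤ) (τ : ℂ) :
    ∫ x in Set.Ioc (0 : ℝ) 1, jacobiTheta₂_term n (x : ℂ) τ = if n = 0 then 1 else 0 := by
  rw [← intervalIntegral.integral_of_le zero_le_one]
  split_ifs with h
  · subst h
    simp [jacobiTheta₂_term]
  · have hc : (2 * Real.pi * I * n : ℂ) ≠ 0 :=
      mul_ne_zero Complex.two_pi_I_ne_zero (Int.cast_ne_zero.mpr h)
    simp_rw [jacobiTheta₂_term, Complex.exp_add]
    rw [intervalIntegral.integral_mul_const, integral_exp_mul_complex hc]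
    have e : cexp (2 * Real.pi * I * n * ((1 : ℝ) : ℂ)) = 1 := by
      rw [ofReal_one, mul_one, mul_comm]
      exact exp_int_mul_two_pi_mul_I n
    rw [e]
    simp

theorem theta_ne {τ : ℂ} (hτ : 0 < τ.im) : ∃ x, jacobiTheta₂ x τ ≠ 0 := by
  by_contra hcon
  push Not at hcon
  have hint : ∀ n : ℤ, MeasureTheory.Integrable (fun x : ℝ => jacobiTheta₂_term n (x : ℂ) τ)
      (MeasureTheory.volume.restrict (Set.Ioc (0 : ℝ) 1)) := by
    intro n
    have hc : Continuous fun x : ℝ => jacobiTheta₂_term n (x : ℂ) τ := by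
      unfold jacobiTheta₂_term
      fun_prop
    exact (hc.integrableOn_Icc (a := 0) (b := 1)).mono_set Set.Ioc_subset_Icc_self
  have hsum : Summable fun n : ℤ =>
      ∫ x in Set.Ioc (0 : ℝ) 1, ‖jacobiTheta₂_term n (x : ℂ) τ‖ := by
    have h0 := ((summable_jacobiTheta₂_term_iff 0 τ).mpr hτ).norm
    refine h0.congr fun n => ?_
    simp [norm_jacobiTheta₂_term]
  have h1 := MeasureTheory.hasSum_integral_of_summable_integral_norm hint hsum
  have h2 : ∀ x : ℝ, ∑' n : ℤ, jacobiTheta₂_term n (x : ℂ) τ = 0 := fun x => hcon x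
  simp only [h2, theta_int_term, MeasureTheory.integral_zero] at h1
  have h3 : HasSum (fun n : ℤ => if n = 0 then (1 : ℂ) else 0) 1 := hasSum_ite_eq 0 1
  exact one_ne_zero (h3.unique h1)

/-- Hint: `ϑ x = jacobiTheta₂ (x + (1 + τ)/2) τ`, `κ = -π I (2 τ + 1)`
(`jacobiTheta₂_add_left`, `jacobiTheta₂_add_left'`, `jacobiTheta₂_neg_left`); `ϑ 0 = 0` since
`θ(z₀) = θ(-z₀) = θ(1 - z₀)` and `θ(z₀) = θ(1 - z₀ + τ) = -θ(1 - z₀)`; `ϑ` is not identically zero
(`∫₀¹ θ(x) dx = 1`, or `θ(0, τ) + θ(1/2, τ) = 2 θ(0, 4τ)` iterated with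
`norm_jacobiTheta_sub_one_le`). -/
theorem exists_theta {τ : ℂ} (hτ : 0 < τ.im) : ∃ (ϑ : ℂ → ℂ) (κ : ℂ), Differentiable ℂ ϑ ∧
    (∀ x, ϑ (x + 1) = ϑ x) ∧ (∀ x, ϑ (x + τ) = cexp (-(2 * Real.pi * I * x) + κ) * ϑ x) ∧
    ϑ 0 = 0 ∧ ∃ x, ϑ x ≠ 0 := by
  refine ⟨fun x => jacobiTheta₂ (x + (1 + τ) / 2) τ, -Real.pi * I * (2 * τ + 1), ?_, ?_, ?_, ?_, ?_⟩
  · intro x
    exact (differentiableAt_jacobiTheta₂_fst (x + (1 + τ) / 2) hτ).comp x
      (differentiableAt_id.add_const _)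
  · intro x
    show jacobiTheta₂ (x + 1 + (1 + τ) / 2) τ = jacobiTheta₂ (x + (1 + τ) / 2) τ
    rw [add_right_comm, jacobiTheta₂_add_left]
  · intro x
    show jacobiTheta₂ (x + τ + (1 + τ) / 2) τ = _ * jacobiTheta₂ (x + (1 + τ) / 2) τ
    rw [add_right_comm, jacobiTheta₂_add_left']
    congr 2
    ring
  · show jacobiTheta₂ (0 + (1 + τ) / 2) τ = 0
    have h1 : jacobiTheta₂ ((1 - τ) / 2) τ = jacobiTheta₂ (0 + (1 + τ) / 2) τ := by
      rw [← jacobiTheta₂_neg_left (0 + (1 + τ) / 2), ← jacobiTheta₂_add_left (-(0 + (1 + τ) / 2))]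
      congr 1
      ring
    have h2 : jacobiTheta₂ (0 + (1 + τ) / 2) τ = -jacobiTheta₂ ((1 - τ) / 2) τ := by
      have e : 0 + (1 + τ) / 2 = (1 - τ) / 2 + τ := by ring
      have e2 : -Real.pi * I * (τ + 2 * ((1 - τ) / 2)) = -(Real.pi * I) := by ring
      rw [e, jacobiTheta₂_add_left', e2, Complex.exp_neg, Complex.exp_pi_mul_I]
      norm_num
    rw [h1] at h2
    linear_combination h2 / 2
  · obtain ⟨x, hx⟩ := theta_ne hτ
    refine ⟨x - (1 + τ) / 2, ?_⟩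
    show jacobiTheta₂ (x - (1 + τ) / 2 + (1 + τ) / 2) τ ≠ 0
    rwa [sub_add_cancel]

end GPC96

end

-- part MP_57341d_ag.H96.ThData
section

/-! Entire functions `ϑ`, `ϑ² ℘`, `ϑ Z` in the variable `x = z / ω₁`. -/

open Complex Filter Topology
open scoped PeriodPair

namespace GPC96

/-- Removing isolated singularities. -/
theorem thdata_extend (F : ℂ → ℂ)
    (h : ∀ x₀, ∃ g : ℂ → ℂ, AnalyticAt ℂ g x₀ ∧ F =ᶠ[𝓝[≠] x₀] g) :
    ∃ A : ℂ → ℂ, Differentiable ℂ A ∧ ∀ x, ContinuousAt F x → A x = F x := by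
  choose g hg hF using h
  have key : ∀ x (u : ℂ → ℂ), ContinuousAt u x → F =ᶠ[𝓝[≠] x] u → g x x = u x := by
    intro x u hu hFu
    have h1 : Tendsto (g x) (𝓝[≠] x) (𝓝 (g x x)) :=
      (hg x).continuousAt.tendsto.mono_left nhdsWithin_le_nhds
    have h2 : Tendsto u (𝓝[≠] x) (𝓝 (u x)) := hu.tendsto.mono_left nhdsWithin_le_nhds
    exact tendsto_nhds_unique (h1.congr' ((hF x).symm.trans hFu)) h2
  refine ⟨fun x => g x x, fun x₀ => ?_, fun x hx => key x F hx EventuallyEq.rfl⟩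
  have h1 : (fun x => g x x) =ᶠ[𝓝 x₀] g x₀ := by
    have h2 : ∀ᶠ x in 𝓝 x₀, x ≠ x₀ → F x = g x₀ x := eventually_nhdsWithin_iff.mp (hF x₀)
    filter_upwards [h2.eventually_nhds, (hg x₀).eventually_analyticAt] with x hx hax
    by_cases hxx : x = x₀
    · rw [hxx]
    · refine key x (g x₀) hax.continuousAt ?_
      have h3 : ∀ᶠ y in 𝓝 x, y ≠ x₀ := eventually_ne_nhds hxx
      refine EventuallyEq.filter_mono ?_ nhdsWithin_le_nhds
      filter_upwards [hx, h3] with y hy hy' using hy hy'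
  exact (hg x₀).differentiableAt.congr_of_eventuallyEq h1

theorem thdata_zero {ϑ e : ℂ → ℂ} {τ : ℂ} (h1 : ∀ x, ϑ (x + 1) = ϑ x)
    (h2 : ∀ x, ϑ (x + τ) = e x * ϑ x) (he : ∀ x, e x ≠ 0) (h0 : ϑ 0 = 0) (m n : ℤ) :
    ϑ (m + n * τ) = 0 := by
  have hp : Function.Periodic ϑ 1 := h1
  have h3 : ϑ (m + n * τ) = ϑ (n * τ) := by
    have := hp.int_mul m (n * τ)
    rw [mul_one, add_comm] at this
    exact this
  rw [h3]
  induction n using Int.induction_on with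
  | zero => simpa using h0
  | succ k ih =>
    have h4 : (((k : ℤ) + 1 : ℤ) : ℂ) * τ = ((k : ℤ) : ℂ) * τ + τ := by push_cast; ring
    rw [h4, h2, ih (by
      have := hp.int_mul m (((k : ℤ) : ℂ) * τ)
      rw [mul_one, add_comm] at this
      exact this), mul_zero]
  | pred k ih =>
    have h4 : ((-(k : ℤ) : ℤ) : ℂ) * τ = ((-(k : ℤ) - 1 : ℤ) : ℂ) * τ + τ := by push_cast; ring
    have h5 := ih (by
      have := hp.int_mul m (((-(k : ℤ) : ℤ) : ℂ) * τ)
      rw [mul_one, add_comm] at this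
      exact this)
    rw [h4, h2] at h5
    exact (mul_eq_zero.mp h5).resolve_left (he _)

theorem thdata_zero_lattice (L : PeriodPair) {ϑ e : ℂ → ℂ} (h1 : ∀ x, ϑ (x + 1) = ϑ x)
    (h2 : ∀ x, ϑ (x + L.ω₂ / L.ω₁) = e x * ϑ x) (he : ∀ x, e x ≠ 0) (h0 : ϑ 0 = 0) {x : ℂ}
    (hx : L.ω₁ * x ∈ L.lattice) : ϑ x = 0 := by
  obtain ⟨m, n, hmn⟩ := PeriodPair.mem_lattice.mp hx
  have h3 := ω₁_ne_zero L
  have h4 : x = m + n * (L.ω₂ / L.ω₁) := by
    apply mul_left_cancel₀ h3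
    rw [← hmn]
    field_simp
  rw [h4]
  exact thdata_zero h1 h2 he h0 m n

theorem thdata_dslope {ϑ : ℂ → ℂ} (hd : Differentiable ℂ ϑ) {x₀ : ℂ} (h0 : ϑ x₀ = 0) :
    ∃ d : ℂ → ℂ, AnalyticAt ℂ d x₀ ∧ ∀ x, ϑ x = (x - x₀) * d x := by
  refine ⟨dslope ϑ x₀, ?_, fun x => ?_⟩
  · have h1 : DifferentiableOn ℂ (dslope ϑ x₀) Set.univ :=
      (Complex.differentiableOn_dslope univ_mem).mpr hd.differentiableOn
    exact h1.analyticAt univ_mem
  · have := sub_smul_dslope ϑ x₀ x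
    rw [h0, sub_zero, smul_eq_mul] at this
    exact this.symm

theorem thdata_an_wp (L : PeriodPair) {x : ℂ} (hx : L.ω₁ * x ∉ L.lattice) :
    AnalyticAt ℂ (fun y => ℘[L] (L.ω₁ * y)) x :=
  (L.analyticOnNhd_weierstrassP _ hx).comp_of_eq (analyticAt_const.mul analyticAt_id) rfl

theorem thdata_an_Zf (L : PeriodPair) {x : ℂ} (hx : L.ω₁ * x ∉ L.lattice) :
    AnalyticAt ℂ (fun y => Zf L (L.ω₁ * y)) x := by
  have h1 : DifferentiableOn ℂ (Zf L) (L.lattice : Set ℂ)ᶜ := fun z hz =>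
    (hasDerivAt_Zf L hz).differentiableAt.differentiableWithinAt
  have h2 : AnalyticAt ℂ (Zf L) (L.ω₁ * x) :=
    h1.analyticAt (L.isClosed_lattice.isOpen_compl.mem_nhds hx)
  exact h2.comp_of_eq (analyticAt_const.mul analyticAt_id) rfl

theorem thdata_A (L : PeriodPair) {ϑ : ℂ → ℂ} (hd : Differentiable ℂ ϑ)
    (hz : ∀ x, L.ω₁ * x ∈ L.lattice → ϑ x = 0) :
    ∃ A : ℂ → ℂ, Differentiable ℂ A ∧
      ∀ x, L.ω₁ * x ∉ L.lattice → A x = ϑ x ^ 2 * ℘[L] (L.ω₁ * x) := by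
  have hoff : ∀ x, L.ω₁ * x ∉ L.lattice →
      AnalyticAt ℂ (fun y => ϑ y ^ 2 * ℘[L] (L.ω₁ * y)) x := fun x hx =>
    ((hd.analyticAt x).pow 2).mul (thdata_an_wp L hx)
  obtain ⟨A, hA, hA'⟩ := thdata_extend (fun y => ϑ y ^ 2 * ℘[L] (L.ω₁ * y)) (by
    intro x₀
    by_cases hx : L.ω₁ * x₀ ∈ L.lattice
    · obtain ⟨d, hda, hdx⟩ := thdata_dslope hd (hz x₀ hx)
      refine ⟨fun y => ϑ y ^ 2 * (℘[L - L.ω₁ * x₀] (L.ω₁ * y) - 1 / (L.ω₁ * x₀) ^ 2) +
        d y ^ 2 * (1 / L.ω₁ ^ 2), ?_, ?_⟩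
      · have h1 : AnalyticAt ℂ (fun y => ℘[L - L.ω₁ * x₀] (L.ω₁ * y)) x₀ :=
          (L.analyticAt_weierstrassPExcept _).comp_of_eq
            (analyticAt_const.mul analyticAt_id) rfl
        exact (((hd.analyticAt x₀).pow 2).mul (h1.sub analyticAt_const)).add
          ((hda.pow 2).mul analyticAt_const)
      · filter_upwards [self_mem_nhdsWithin] with y hy
        have hy' : y - x₀ ≠ 0 := sub_ne_zero.mpr hy
        have h0 := ω₁_ne_zero L
        have h2 := L.weierstrassPExcept_add ⟨L.ω₁ * x₀, hx⟩ (L.ω₁ * y)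
        simp only at h2
        rw [← h2]
        have h3 : ϑ y ^ 2 * (1 / (L.ω₁ * y - L.ω₁ * x₀) ^ 2) = d y ^ 2 * (1 / L.ω₁ ^ 2) := by
          rw [hdx y, ← mul_sub]
          field_simp
        rw [← h3]
        ring
    · exact ⟨_, hoff x₀ hx, EventuallyEq.rfl⟩)
  exact ⟨A, hA, fun x hx => hA' x (hoff x hx).continuousAt⟩

theorem thdata_B (L : PeriodPair) {ϑ : ℂ → ℂ} (hd : Differentiable ℂ ϑ)
    (hz : ∀ x, L.ω₁ * x ∈ L.lattice → ϑ x = 0) :
    ∃ B : ℂ → ℂ, Differentiable ℂ B ∧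
      ∀ x, L.ω₁ * x ∉ L.lattice → B x = ϑ x * Zf L (L.ω₁ * x) := by
  have hoff : ∀ x, L.ω₁ * x ∉ L.lattice →
      AnalyticAt ℂ (fun y => ϑ y * Zf L (L.ω₁ * y)) x := fun x hx =>
    (hd.analyticAt x).mul (thdata_an_Zf L hx)
  obtain ⟨B, hB, hB'⟩ := thdata_extend (fun y => ϑ y * Zf L (L.ω₁ * y)) (by
    intro x₀
    by_cases hx : L.ω₁ * x₀ ∈ L.lattice
    · obtain ⟨d, hda, hdx⟩ := thdata_dslope hd (hz x₀ hx)
      obtain ⟨g, hga, -, hg⟩ := zeta_pole L hx
      refine ⟨fun y => ϑ y * (g (L.ω₁ * y) - aa L * (L.ω₁ * y)) + d y * (1 / L.ω₁), ?_, ?_⟩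
      · have h0 : AnalyticAt ℂ (fun y => L.ω₁ * y) x₀ := analyticAt_const.mul analyticAt_id
        have h1 : AnalyticAt ℂ (fun y => g (L.ω₁ * y)) x₀ := hga.comp_of_eq h0 rfl
        exact ((hd.analyticAt x₀).mul (h1.sub (analyticAt_const.mul h0))).add
          (hda.mul analyticAt_const)
      · filter_upwards [self_mem_nhdsWithin] with y hy
        have hy' : y - x₀ ≠ 0 := sub_ne_zero.mpr hy
        have h0 := ω₁_ne_zero L
        have h3 : ϑ y * (1 / (L.ω₁ * y - L.ω₁ * x₀)) = d y * (1 / L.ω₁) := by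
          rw [hdx y, ← mul_sub]
          field_simp
        rw [← h3, Zf, hg]
        ring
    · exact ⟨_, hoff x₀ hx, EventuallyEq.rfl⟩)
  exact ⟨B, hB, fun x hx => hB' x (hoff x hx).continuousAt⟩

/-- Two continuous functions that agree off the lattice agree. -/
theorem thdata_ext (L : PeriodPair) {u v : ℂ → ℂ} (hu : Continuous u) (hv : Continuous v)
    (h : ∀ x, L.ω₁ * x ∉ L.lattice → u x = v x) (x : ℂ) : u x = v x := by
  have h1 : ((fun y => L.ω₁ * y) ⁻¹' (L.lattice : Set ℂ)).Countable :=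
    (countable_lattice L).preimage (mul_right_injective₀ (ω₁_ne_zero L))
  have h2 := h1.dense_compl ℂ
  exact congrFun (Continuous.ext_on h2 hu hv fun y hy => h y hy) x

theorem thdata_shift (L : PeriodPair) {x l : ℂ} (hx : x ∉ L.lattice) (hl : l ∈ L.lattice) :
    x + l ∉ L.lattice := fun h => hx (by simpa using L.lattice.sub_mem h hl)

/-- One step of the growth estimate. -/
theorem thdata_step {e γ a b c : ℂ} {K t : ℝ} (hK : 0 ≤ K) (ht : 0 ≤ t)
    (he : ‖e‖ ≤ Real.exp (K * (1 + t))) :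
    ‖e * a‖ + ‖e ^ 2 * b‖ + ‖e * (c + γ * a)‖ ≤
      Real.exp ((2 * K + ‖γ‖) * (1 + t)) * (‖a‖ + ‖b‖ + ‖c‖) := by
  set E := Real.exp (K * (1 + t)) with hE
  have hE1 : 1 ≤ E := Real.one_le_exp (by positivity)
  have hγ := norm_nonneg γ
  have hG : 1 + ‖γ‖ ≤ Real.exp (‖γ‖ * (1 + t)) := by
    have h1 := Real.add_one_le_exp (‖γ‖ * (1 + t))
    nlinarith [mul_nonneg hγ ht]
  have hsplit : Real.exp ((2 * K + ‖γ‖) * (1 + t)) = E ^ 2 * Real.exp (‖γ‖ * (1 + t)) := by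
    rw [hE, sq, ← Real.exp_add, ← Real.exp_add]
    congr 1
    ring
  have he0 := norm_nonneg e
  have hE2 : ‖e‖ ≤ E ^ 2 := by nlinarith
  have hE3 : ‖e‖ ^ 2 ≤ E ^ 2 := by nlinarith
  have ha := norm_nonneg a
  have hb := norm_nonneg b
  have hc := norm_nonneg c
  have h1 : ‖e * a‖ ≤ E ^ 2 * ‖a‖ := by
    rw [norm_mul]; exact mul_le_mul_of_nonneg_right hE2 ha
  have h2 : ‖e ^ 2 * b‖ ≤ E ^ 2 * ‖b‖ := by
    rw [norm_mul, norm_pow]; exact mul_le_mul_of_nonneg_right hE3 hb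
  have h3 : ‖e * (c + γ * a)‖ ≤ E ^ 2 * (‖c‖ + ‖γ‖ * ‖a‖) := by
    rw [norm_mul]
    refine mul_le_mul hE2 ?_ (norm_nonneg _) (by positivity)
    rw [← norm_mul]
    exact norm_add_le _ _
  have h4 : ‖a‖ + ‖b‖ + (‖c‖ + ‖γ‖ * ‖a‖) ≤ (1 + ‖γ‖) * (‖a‖ + ‖b‖ + ‖c‖) := by
    nlinarith [mul_nonneg hγ hb, mul_nonneg hγ hc]
  calc ‖e * a‖ + ‖e ^ 2 * b‖ + ‖e * (c + γ * a)‖
      ≤ E ^ 2 * (‖a‖ + ‖b‖ + (‖c‖ + ‖γ‖ * ‖a‖)) := by linarith
    _ ≤ E ^ 2 * ((1 + ‖γ‖) * (‖a‖ + ‖b‖ + ‖c‖)) :=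
        mul_le_mul_of_nonneg_left h4 (by positivity)
    _ ≤ E ^ 2 * (Real.exp (‖γ‖ * (1 + t)) * (‖a‖ + ‖b‖ + ‖c‖)) :=
        mul_le_mul_of_nonneg_left (mul_le_mul_of_nonneg_right hG (by positivity))
          (by positivity)
    _ = _ := by rw [hsplit]; ring

theorem thdata_re (x κ : ℂ) : (-(2 * Real.pi * I * x) + κ).re = 2 * Real.pi * x.im + κ.re := by
  simp

theorem thdata_growth {τ κ γ : ℂ} (hτ : 0 < τ.im) {ϑ A B : ℂ → ℂ} (hϑ : Continuous ϑ)
    (hA : Continuous A) (hB : Continuous B) (p1 : ∀ x, ϑ (x + 1) = ϑ x)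
    (p2 : ∀ x, A (x + 1) = A x) (p3 : ∀ x, B (x + 1) = B x)
    (q1 : ∀ x, ϑ (x + τ) = cexp (-(2 * Real.pi * I * x) + κ) * ϑ x)
    (q2 : ∀ x, A (x + τ) = cexp (-(2 * Real.pi * I * x) + κ) ^ 2 * A x)
    (q3 : ∀ x, B (x + τ) = cexp (-(2 * Real.pi * I * x) + κ) * (B x - γ * ϑ x)) :
    ∃ C : ℝ, 0 < C ∧ ∀ x, ‖ϑ x‖ + ‖A x‖ + ‖B x‖ ≤ Real.exp (C * (1 + x.im ^ 2)) := by
  have hpi := Real.pi_pos
  have hK : 0 ≤ 2 * Real.pi + 2 * Real.pi * τ.im + |κ.re| := by positivity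
  have hbd : ∀ s t : ℝ, |s| ≤ 2 * Real.pi * |t| + 2 * Real.pi * τ.im + |κ.re| →
      s ≤ (2 * Real.pi + 2 * Real.pi * τ.im + |κ.re|) * (1 + |t|) := by
    intro s t hs
    have h1 := le_abs_self s
    have h2 := abs_nonneg t
    have h3 := abs_nonneg κ.re
    nlinarith [mul_nonneg h3 h2, mul_nonneg (mul_nonneg hpi.le hτ.le) h2]
  refine growth (f := fun x => ‖ϑ x‖ + ‖A x‖ + ‖B x‖) hτ (by fun_prop)
    (fun x => by positivity) (fun x => by simp only [p1, p2, p3])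
    (K := 2 * (2 * Real.pi + 2 * Real.pi * τ.im + |κ.re|) + ‖γ‖) (by positivity)
    (fun x => ?_) (fun x => ?_)
  · simp only [q1, q2, q3]
    have h1 := thdata_step (e := cexp (-(2 * Real.pi * I * x) + κ)) (γ := -γ) (a := ϑ x)
      (b := A x) (c := B x) hK (abs_nonneg x.im) (by
        rw [Complex.norm_exp, thdata_re]
        refine Real.exp_le_exp.mpr (hbd _ _ ?_)
        have h2 := abs_add_le (2 * Real.pi * x.im) κ.re
        rw [abs_mul, abs_of_pos (by positivity : 0 < 2 * Real.pi)] at h2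
        nlinarith [mul_nonneg hpi.le hτ.le])
    rw [norm_neg, neg_mul, ← sub_eq_add_neg] at h1
    exact h1
  · set y := x - τ with hy
    have hx : x = y + τ := by rw [hy]; ring
    set e := cexp (-(2 * Real.pi * I * y) + κ) with he
    have he0 : e ≠ 0 := Complex.exp_ne_zero _
    have r1 : ϑ y = e⁻¹ * ϑ x := by
      rw [hx, q1, ← he]; field_simp
    have r2 : A y = e⁻¹ ^ 2 * A x := by
      rw [hx, q2, ← he]; field_simp
    have r3 : B y = e⁻¹ * (B x + γ * ϑ x) := by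
      rw [hx, q3, q1, ← he]; field_simp; ring
    have h1 := thdata_step (e := e⁻¹) (γ := γ) (a := ϑ x)
      (b := A x) (c := B x) hK (abs_nonneg x.im) (by
        rw [he, ← Complex.exp_neg, Complex.norm_exp, Complex.neg_re, thdata_re]
        refine Real.exp_le_exp.mpr (hbd _ _ ?_)
        rw [abs_neg]
        have h2 := abs_add_le (2 * Real.pi * y.im) κ.re
        rw [abs_mul, abs_of_pos (by positivity : 0 < 2 * Real.pi)] at h2
        have h3 : |y.im| ≤ |x.im| + τ.im := by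
          rw [hy, Complex.sub_im]
          have h4 := abs_sub x.im τ.im
          rwa [abs_of_pos hτ] at h4
        nlinarith [mul_le_mul_of_nonneg_left h3 hpi.le])
    rw [← r1, ← r2, ← r3] at h1
    exact h1

theorem thdata_circle (L : PeriodPair) {ϑ : ℂ → ℂ} (hd : Differentiable ℂ ϑ)
    (hne : ∃ x, ϑ x ≠ 0) :
    ∃ r μ : ℝ, 0 < r ∧ r ≤ 1 ∧ 0 < μ ∧ μ ≤ 1 ∧
      (∀ x, ‖x - 1 / 2‖ ≤ r → L.ω₁ * x ∉ L.lattice) ∧ ∀ x, ‖x - 1 / 2‖ = r → μ ≤ ‖ϑ x‖ := by
  have h1 : ∀ᶠ x in 𝓝[≠] (1 / 2 : ℂ), ϑ x ≠ 0 := by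
    refine (hd.analyticAt (1 / 2)).eventually_eq_zero_or_eventually_ne_zero.resolve_left ?_
    intro h0
    obtain ⟨x, hx⟩ := hne
    have h2 : AnalyticOnNhd ℂ ϑ Set.univ := fun y _ => hd.analyticAt y
    exact hx (h2.eqOn_zero_of_preconnected_of_eventuallyEq_zero isPreconnected_univ
      (Set.mem_univ _) h0 (Set.mem_univ x))
  have h2 : ∀ᶠ x in 𝓝 (1 / 2 : ℂ), L.ω₁ * x ∉ L.lattice := by
    have h3 : IsOpen ((fun y : ℂ => L.ω₁ * y) ⁻¹' (L.lattice : Set ℂ)ᶜ) :=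
      L.isClosed_lattice.isOpen_compl.preimage (by fun_prop)
    refine h3.mem_nhds ?_
    have := L.ω₁_div_two_notMem_lattice
    rw [div_eq_mul_one_div] at this
    exact this
  obtain ⟨ε, hε, hball⟩ :=
    Metric.eventually_nhds_iff.mp ((eventually_nhdsWithin_iff.mp h1).and h2)
  set r := min (ε / 2) 1 with hr
  have hr0 : 0 < r := lt_min (by linarith) one_pos
  have hrε : r < ε := lt_of_le_of_lt (min_le_left _ _) (by linarith)
  have hsn : (Metric.sphere (1 / 2 : ℂ) r).Nonempty := NormedSpace.sphere_nonempty.mpr hr0.le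
  obtain ⟨x₀, hx₀, hmin⟩ := (isCompact_sphere (1 / 2 : ℂ) r).exists_isMinOn hsn
    (hd.continuous.norm.continuousOn)
  have hx₀' : dist x₀ (1 / 2) = r := hx₀
  have hϑ0 : ϑ x₀ ≠ 0 := by
    refine (hball (by rw [hx₀']; exact hrε)).1 ?_
    intro h4
    have h5 : x₀ = 1 / 2 := h4
    rw [h5, dist_self] at hx₀'
    exact hr0.ne hx₀'
  refine ⟨r, min ‖ϑ x₀‖ 1, hr0, min_le_right _ _, lt_min (norm_pos_iff.mpr hϑ0) one_pos,
    min_le_right _ _, fun x hx => ?_, fun x hx => ?_⟩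
  · exact (hball (by rw [dist_eq_norm]; exact lt_of_le_of_lt hx hrε)).2
  · exact (min_le_left _ _).trans (hmin (by rw [Metric.mem_sphere, dist_eq_norm]; exact hx))

/-- The data used by the auxiliary construction.  Hint: `ϑ` vanishes on `ℤ + ℤ τ`, so
`ϑ x ^ 2 * ℘ (ω₁ x)` and `ϑ x * Zf (ω₁ x)` have removable singularities (`weierstrassPExcept_add`,
`zeta_pole`, `dslope`; e.g. define `A` through `toMeromorphicNFOn` or `Function.update`-like
`if ω₁ x ∈ Λ then limUnder .. else ..`).  The functional equations hold off the countable set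
`ℤ + ℤ τ`, hence everywhere by continuity (`Set.Countable.dense_compl`, `Continuous.ext_on`).
Growth: `growth` for `‖ϑ‖ + ‖A‖ + ‖B‖`.  The circle: zeros of `ϑ` are isolated
(`AnalyticAt.eventually_eq_zero_or_eventually_ne_zero`), the lattice is closed and
`ω₁/2 ∉ Λ`; `μ` is the minimum of `‖ϑ‖` and `1` on the compact circle. -/
theorem theta_data (L : PeriodPair) (h : 0 < (L.ω₂ / L.ω₁).im) :
    ∃ (ϑ A B : ℂ → ℂ) (κ : ℂ) (C r μ : ℝ), Differentiable ℂ ϑ ∧ Differentiable ℂ A ∧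
      Differentiable ℂ B ∧ (∀ x, ϑ (x + 1) = ϑ x) ∧ (∀ x, A (x + 1) = A x) ∧
      (∀ x, B (x + 1) = B x) ∧
      (∀ x, ϑ (x + L.ω₂ / L.ω₁) = cexp (-(2 * Real.pi * I * x) + κ) * ϑ x) ∧
      (∀ x, A (x + L.ω₂ / L.ω₁) = cexp (-(2 * Real.pi * I * x) + κ) ^ 2 * A x) ∧
      (∀ x, B (x + L.ω₂ / L.ω₁) =
        cexp (-(2 * Real.pi * I * x) + κ) * (B x - 2 * Real.pi * I / L.ω₁ * ϑ x)) ∧
      (∀ x, L.ω₁ * x ∉ L.lattice →
        A x = ϑ x ^ 2 * ℘[L] (L.ω₁ * x) ∧ B x = ϑ x * Zf L (L.ω₁ * x)) ∧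
      0 < C ∧ (∀ x, ‖ϑ x‖ + ‖A x‖ + ‖B x‖ ≤ Real.exp (C * (1 + x.im ^ 2))) ∧
      0 < r ∧ r ≤ 1 ∧ 0 < μ ∧ μ ≤ 1 ∧ (∀ x, ‖x - 1 / 2‖ ≤ r → L.ω₁ * x ∉ L.lattice) ∧
      ∀ x, ‖x - 1 / 2‖ = r → μ ≤ ‖ϑ x‖ := by
  obtain ⟨ϑ, κ, hd, p1, q1, h0, hne⟩ := exists_theta h
  have hz : ∀ x, L.ω₁ * x ∈ L.lattice → ϑ x = 0 := fun x hx =>
    thdata_zero_lattice L p1 q1 (fun _ => Complex.exp_ne_zero _) h0 hx
  obtain ⟨A, hA, hAx⟩ := thdata_A L hd hz
  obtain ⟨B, hB, hBx⟩ := thdata_B L hd hz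
  have hω := ω₁_ne_zero L
  have cϑ := hd.continuous
  have cA := hA.continuous
  have cB := hB.continuous
  have e1 : ∀ x, L.ω₁ * (x + 1) = L.ω₁ * x + L.ω₁ := fun x => by ring
  have e2 : ∀ x, L.ω₁ * (x + L.ω₂ / L.ω₁) = L.ω₁ * x + L.ω₂ := fun x => by field_simp
  have n1 : ∀ x, L.ω₁ * x ∉ L.lattice → L.ω₁ * (x + 1) ∉ L.lattice := fun x hx => by
    rw [e1]; exact thdata_shift L hx L.ω₁_mem_lattice
  have n2 : ∀ x, L.ω₁ * x ∉ L.lattice → L.ω₁ * (x + L.ω₂ / L.ω₁) ∉ L.lattice := fun x hx => by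
    rw [e2]; exact thdata_shift L hx L.ω₂_mem_lattice
  have p2 : ∀ x, A (x + 1) = A x := by
    refine thdata_ext L (by fun_prop) cA fun x hx => ?_
    rw [hAx _ (n1 x hx), hAx x hx, p1, e1]
    congr 1
    exact L.weierstrassP_add_coe _ ⟨_, L.ω₁_mem_lattice⟩
  have p3 : ∀ x, B (x + 1) = B x := by
    refine thdata_ext L (by fun_prop) cB fun x hx => ?_
    rw [hBx _ (n1 x hx), hBx x hx, p1, e1]
    congr 1
    simpa using Zf_add_int L h 1 0 hx
  have q2 : ∀ x, A (x + L.ω₂ / L.ω₁) = cexp (-(2 * Real.pi * I * x) + κ) ^ 2 * A x := by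
    refine thdata_ext L (by fun_prop) (by fun_prop) fun x hx => ?_
    have h1 : ℘[L] (L.ω₁ * x + L.ω₂) = ℘[L] (L.ω₁ * x) :=
      L.weierstrassP_add_coe _ ⟨_, L.ω₂_mem_lattice⟩
    rw [hAx _ (n2 x hx), hAx x hx, q1, e2, h1]
    ring
  have q3 : ∀ x, B (x + L.ω₂ / L.ω₁) =
      cexp (-(2 * Real.pi * I * x) + κ) * (B x - 2 * Real.pi * I / L.ω₁ * ϑ x) := by
    refine thdata_ext L (by fun_prop) (by fun_prop) fun x hx => ?_
    have h1 : Zf L (L.ω₁ * x + L.ω₂) = Zf L (L.ω₁ * x) - 2 * Real.pi * I / L.ω₁ := by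
      simpa using Zf_add_int L h 0 1 hx
    rw [hBx _ (n2 x hx), hBx x hx, q1, e2, h1]
    ring
  obtain ⟨C, hC, hCx⟩ := thdata_growth h cϑ cA cB p1 p2 p3 q1 q2 q3
  obtain ⟨r, μ, c1, c2, c3, c4, c5, c6⟩ := thdata_circle L hd hne
  exact ⟨ϑ, A, B, κ, C, r, μ, hd, hA, hB, p1, p2, p3, q1, q2, q3,
    fun x hx => ⟨hAx x hx, hBx x hx⟩, hC, hCx, c1, c2, c3, c4, c5, c6⟩

end GPC96

end

-- part MP_57341d_ag.H96.Small
section

/-! Dirichlet's box principle for functions quasi-periodic under a lattice of rank three. -/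

open Complex

namespace GPC96

/-- If the coefficients in the strip `0 ≤ λ(a,b) < Δ`, `|a| ≤ r` are small then all are.
Here `λ(a,b) = 2π(a t₁ + b t₂) + k`, `Δ = 2π m (t₁ + t₂)`.  Hint: for `λ ≥ Δ` step back by
`(m,m)`, for `λ < 0` step forward (induction on `⌈|λ|/Δ⌉₊`), the modulus does not decrease. -/
theorem le_of_strip {c : ℤ → ℤ → ℝ} {t₁ t₂ k ε : ℝ} {m : ℕ} (hm : 1 ≤ m) (h₁ : 0 < t₁)
    (h₂ : 0 < t₂) (hc : ∀ a b, 0 ≤ c a b)
    (hrec : ∀ a b : ℤ, c (a + m) (b + m) =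
      c a b * Real.exp (-(2 * Real.pi * (a * t₁ + b * t₂)) - k))
    (h : ∀ a b : ℤ, 0 ≤ 2 * Real.pi * (a * t₁ + b * t₂) + k →
      2 * Real.pi * (a * t₁ + b * t₂) + k < 2 * Real.pi * m * (t₁ + t₂) → c a b ≤ ε) (a b : ℤ) :
    c a b ≤ ε := by
  obtain ⟨Δ, hΔ⟩ : ∃ Δ, Δ = 2 * Real.pi * m * (t₁ + t₂) := ⟨_, rfl⟩
  obtain ⟨l, hl⟩ : ∃ l : ℤ → ℤ → ℝ, ∀ a b : ℤ, l a b = 2 * Real.pi * (a * t₁ + b * t₂) + k :=
    ⟨_, fun _ _ => rfl⟩
  have hm0 : (0 : ℝ) < m := by exact_mod_cast hm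
  have hΔ0 : 0 < Δ := by rw [hΔ]; positivity
  have hstep : ∀ a b : ℤ, l (a + m) (b + m) = l a b + Δ := fun a b => by
    rw [hl, hl, hΔ]; push_cast; ring
  have hrec' : ∀ a b : ℤ, c (a + m) (b + m) = c a b * Real.exp (-l a b) := fun a b => by
    rw [hrec, hl, neg_add, sub_eq_add_neg]
  have key : ∀ n : ℕ, ∀ a b : ℤ, -(n * Δ) ≤ l a b → l a b < n * Δ + Δ → c a b ≤ ε := by
    intro n
    induction n with
    | zero =>
      intro a b h1 h2
      rw [Nat.cast_zero, zero_mul, hl] at h1 h2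
      rw [neg_zero] at h1
      rw [zero_add, hΔ] at h2
      exact h a b h1 h2
    | succ n ih =>
      intro a b h1 h2
      have hn : (0 : ℝ) ≤ n * Δ := by positivity
      rw [Nat.cast_succ, add_mul, one_mul] at h1 h2
      rcases lt_or_ge (l a b) 0 with h3 | h3
      · have k1 := ih (a + m) (b + m) (by rw [hstep]; linarith) (by rw [hstep]; linarith)
        rw [hrec'] at k1
        exact (le_mul_of_one_le_right (hc a b) (Real.one_le_exp (by linarith))).trans k1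
      · rcases lt_or_ge (l a b) Δ with h4 | h4
        · exact ih a b (by linarith) (by linarith)
        · have k0 := hstep (a - m) (b - m)
          have k2 := hrec' (a - m) (b - m)
          rw [sub_add_cancel, sub_add_cancel] at k0 k2
          have k1 := ih (a - m) (b - m) (by linarith) (by linarith)
          rw [k2]
          exact (mul_le_of_le_one_right (hc _ _) (Real.exp_le_one_iff.2 (by linarith))).trans k1
  obtain ⟨n, hn⟩ := exists_nat_ge (|l a b| / Δ)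
  rw [div_le_iff₀ hΔ0, abs_le] at hn
  exact key n a b hn.1 (by linarith [hn.2])

theorem small_pigeon {ι : Type} [Fintype ι] (u : ι → ℤ → ℤ → ℂ) (b₀ : ℤ → ℤ) (r J₀ : ℕ)
    {h V α : ℝ} (hV : 1 ≤ V) (hhV : h ≤ V) (hα : 0 ≤ α)
    (hu : ∀ i a b, ‖u i a b‖ ≤ Real.exp (α * V)) (hN : (Fintype.card ι : ℝ) ≤ Real.exp h)
    (hc : (7 + α) * V * ((2 * r + 1) * (J₀ * 2)) ≤ Fintype.card ι * h)
    (hpos : 0 < Fintype.card ι) :
    ∃ p : ι → ℤ, p ≠ 0 ∧ (∀ i, |(p i : ℝ)| ≤ Real.exp h) ∧ ∀ a b : ℤ, |a| ≤ r → b₀ a ≤ b →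
      b < b₀ a + J₀ → ‖∑ i, (p i : ℂ) * u i a b‖ ≤ 2 * Real.exp (-V) := by
  have hH : (⌊Real.exp h⌋₊ : ℝ) ≤ Real.exp h := Nat.floor_le (Real.exp_pos h).le
  have hM : Fintype.card ι * (⌊Real.exp h⌋₊ * Real.exp (α * V)) ≤
      ⌈Real.exp ((3 + α) * V)⌉₊ * Real.exp (-V) := by
    have k1 : Real.exp h ≤ Real.exp V := Real.exp_le_exp.2 hhV
    calc (Fintype.card ι : ℝ) * (⌊Real.exp h⌋₊ * Real.exp (α * V))
        ≤ Real.exp V * (Real.exp V * Real.exp (α * V)) :=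
          mul_le_mul (hN.trans k1) (mul_le_mul_of_nonneg_right (hH.trans k1) (by positivity))
            (by positivity) (by positivity)
      _ = Real.exp ((3 + α) * V) * Real.exp (-V) := by
          simp only [← Real.exp_add]; congr 1; ring
      _ ≤ _ := mul_le_mul_of_nonneg_right (Nat.le_ceil _) (by positivity)
  have hM2 : ((2 * ⌈Real.exp ((3 + α) * V)⌉₊ + 1 : ℕ) : ℝ) ≤ Real.exp ((7 + α) * V) := by
    have k1 := (Nat.ceil_lt_add_one (Real.exp_pos ((3 + α) * V)).le).le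
    have k2 : 1 ≤ Real.exp ((3 + α) * V) := Real.one_le_exp (by positivity)
    have k3 : 5 ≤ Real.exp (4 * V) := by linarith [Real.add_one_le_exp (4 * V)]
    have k4 : Real.exp ((7 + α) * V) = Real.exp (4 * V) * Real.exp ((3 + α) * V) := by
      rw [← Real.exp_add]; congr 1; ring
    have k5 := mul_le_mul_of_nonneg_right k3 (Real.exp_pos ((3 + α) * V)).le
    push_cast
    linarith
  obtain ⟨p, hp0, hpH, hp⟩ := Pool.Agent.MP_d171e3_nt.pigeon
    (J := Fin (2 * r + 1) × Fin J₀ × Bool)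
    (fun i j => if j.2.2 then (u i ((j.1 : ℕ) - r) (b₀ ((j.1 : ℕ) - r) + (j.2.1 : ℕ))).re
      else (u i ((j.1 : ℕ) - r) (b₀ ((j.1 : ℕ) - r) + (j.2.1 : ℕ))).im)
    (Real.exp (α * V)) (Real.exp (-V)) ⌊Real.exp h⌋₊ ⌈Real.exp ((3 + α) * V)⌉₊ (Real.exp_pos _)
    (fun i j => by
      split_ifs
      · exact (abs_re_le_norm _).trans (hu _ _ _)
      · exact (abs_im_le_norm _).trans (hu _ _ _)) hM (by
      rw [← Nat.cast_lt (α := ℝ), Nat.cast_pow, Nat.cast_pow]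
      refine lt_of_le_of_lt (pow_le_pow_left₀ (Nat.cast_nonneg _) hM2 _) ?_
      refine lt_of_le_of_lt ?_ (pow_lt_pow_left₀ (b := ((⌊Real.exp h⌋₊ + 1 : ℕ) : ℝ))
        (by rw [Nat.cast_succ]; exact Nat.lt_floor_add_one _) (Real.exp_pos h).le hpos.ne')
      rw [← Real.exp_nat_mul, ← Real.exp_nat_mul, Real.exp_le_exp]
      simp only [Fintype.card_prod, Fintype.card_fin, Fintype.card_bool]
      push_cast
      linarith)
  refine ⟨p, hp0, fun i => (hpH i).trans hH, fun a b ha hb1 hb2 => ?_⟩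
  rw [abs_le] at ha
  have e1 : (((a + r).toNat : ℕ) : ℤ) - r = a := by omega
  have e2 : b₀ a + ((b - b₀ a).toNat : ℕ) = b := by omega
  have k1 := hp (⟨(a + r).toNat, by omega⟩, ⟨(b - b₀ a).toNat, by omega⟩, true)
  have k2 := hp (⟨(a + r).toNat, by omega⟩, ⟨(b - b₀ a).toNat, by omega⟩, false)
  simp only [e1, e2, if_true, Bool.false_eq_true, if_false] at k1 k2
  refine (norm_le_abs_re_add_abs_im _).trans ?_
  simp only [re_sum, im_sum, mul_re, mul_im, intCast_re, intCast_im, zero_mul, sub_zero, add_zero]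
  linarith

theorem small_gauss {c x : ℝ} (hc : 0 < c) : 16 * |x| - 64 * c ≤ x ^ 2 / c := by
  rw [le_div_iff₀ hc, ← sq_abs]
  nlinarith [sq_nonneg (|x| - 8 * c)]

theorem small_mean {z V β c a b : ℝ} (hc : 0 < c) (hz : 0 ≤ z) (h1 : z ≤ 2 * Real.exp (-V))
    (h2 : z ≤ Real.exp β * Real.exp (-(Real.pi ^ 2 * (a ^ 2 + b ^ 2) / c))) :
    z ≤ Real.exp ((1 - V + β + 128 * c) / 2) * Real.exp (-(8 * (|a| + |b|))) := by
  have hpi : 1 ≤ Real.pi ^ 2 := one_le_pow₀ (by linarith [Real.pi_gt_three])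
  have k1 : (a ^ 2 + b ^ 2) / c ≤ Real.pi ^ 2 * (a ^ 2 + b ^ 2) / c :=
    div_le_div_of_nonneg_right (le_mul_of_one_le_left (by positivity) hpi) hc.le
  have k2 := small_gauss (x := a) hc
  have k3 := small_gauss (x := b) hc
  rw [add_div] at k1
  have k4 : 2 * Real.exp (-V) ≤ Real.exp 1 * Real.exp (-V) :=
    mul_le_mul_of_nonneg_right (by linarith [Real.add_one_le_exp 1]) (Real.exp_pos _).le
  have k5 := mul_le_mul (h1.trans k4) h2 hz (by positivity)
  refine (pow_le_pow_iff_left₀ hz (by positivity) two_ne_zero).1 ?_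
  rw [sq, sq]
  refine k5.trans ?_
  simp only [← Real.exp_add]
  exact Real.exp_le_exp.2 (by linarith)

/-- The small combination.  Hint: use `Pool.Agent.MP_d171e3_nt.pigeon` with `H = ⌊exp h⌋₊`,
`δ = exp (-V)`, index type `J = Icc (-r) r × Fin J₀ × Bool` (real and imaginary part of
`cf (G i) a (b₀ a + j)`, `b₀ a = ⌈(-re κ - 2π a t₁)/(2π t₂)⌉`, `J₀ = ⌈m (t₁+t₂)/t₂⌉₊ + 1 ≤ C m`),
entries bounded by `A = exp (C₀ m)` (`cf_decay`), `M = ⌈card ι * H * A / δ⌉₊`, so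
`2 M + 1 ≤ exp (C V)`.  For `|a| > r` in the strip use `cf_decay` for the sum (`cf_sum`,
`B = card ι * exp h * exp (C₀ m)`).  Then `le_of_strip` gives `‖cf‖ ≤ 2 exp (-V)` everywhere; the
geometric mean with `cf_decay` gives
`‖cf a b‖ ≤ sqrt (2 exp (-V) B) * exp (-π² (a²+b²)/(2 C₀ m)) ≤ M' exp (-8 (|a|+|b|))` with
`M' = exp (-V/2 + C h)`, and `norm_le_of_cf` concludes. -/
theorem small_comb {τ₁ τ₂ : ℂ} (h₁ : 0 < τ₁.im) (h₂ : 0 < τ₂.im) {C₀ : ℝ} (hC₀ : 0 < C₀) :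
    ∃ C : ℝ, 0 < C ∧ ∀ (ι : Type) [Fintype ι] (G : ι → ℂ → ℂ → ℂ) (κ : ℂ) (m r : ℕ) (h V : ℝ),
      (∀ i, Per (G i)) →
      (∀ i x y, G i (x + τ₁) (y + τ₂) = cexp (-(2 * Real.pi * I * m * (x + y)) + κ) * G i x y) →
      (∀ i x y, ‖G i x y‖ ≤ Real.exp (C₀ * m * (1 + x.im ^ 2 + y.im ^ 2))) →
      1 ≤ m → 1 ≤ r → (m : ℝ) ≤ h → h ≤ V → (Fintype.card ι : ℝ) ≤ Real.exp h →
      C * m * V ≤ (r : ℝ) ^ 2 → C * r * m * V ≤ Fintype.card ι * h →
      ∃ p : ι → ℤ, p ≠ 0 ∧ (∀ i, |(p i : ℝ)| ≤ Real.exp h) ∧ ∀ x y : ℂ, |x.im| ≤ 1 → |y.im| ≤ 1 →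
        ‖∑ i, (p i : ℂ) * G i x y‖ ≤ Real.exp (-(V / 2) + C * h) := by
  obtain ⟨T, hT⟩ : ∃ T, T = (τ₁.im + τ₂.im) / τ₂.im := ⟨_, rfl⟩
  have hT0 : 0 < T := by rw [hT]; positivity
  obtain ⟨C, hC1, hC2, hC3⟩ : ∃ C : ℝ, 6 * (7 + C₀) * (T + 1) ≤ C ∧ C₀ * (3 + C₀) ≤ C ∧
      10 + 65 * C₀ ≤ C := by
    have k1 : 0 ≤ 6 * (7 + C₀) * (T + 1) := by positivity
    have k2 : 0 ≤ C₀ * (3 + C₀) := by positivity
    exact ⟨6 * (7 + C₀) * (T + 1) + C₀ * (3 + C₀) + (10 + 65 * C₀), by linarith, by linarith,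
      by linarith⟩
  have hC0 : 0 < C := by linarith
  refine ⟨C, hC0, fun ι _ G κ m r h V hG hq hb hm hr hmh hhV hN hr2 hNh => ?_⟩
  have hm1 : (1 : ℝ) ≤ m := by exact_mod_cast hm
  have hr1 : (1 : ℝ) ≤ r := by exact_mod_cast hr
  have hh1 : 1 ≤ h := hm1.trans hmh
  have hV1 : 1 ≤ V := hh1.trans hhV
  have hc0 : 0 < C₀ * m := by positivity
  have hb' : ∀ i x y, ‖G i x y‖ ≤
      Real.exp (C₀ * m) * Real.exp (C₀ * m * (x.im ^ 2 + y.im ^ 2)) := fun i x y => by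
    rw [← Real.exp_add]
    refine (hb i x y).trans (le_of_eq ?_)
    congr 1
    ring
  have hu : ∀ i a b, ‖cf (G i) a b‖ ≤ Real.exp (C₀ * V) := fun i a b => by
    refine (cf_decay (hG i) hc0 (hb' i) a b).trans ?_
    rw [← Real.exp_add, Real.exp_le_exp]
    have k1 : 0 ≤ Real.pi ^ 2 * ((a : ℝ) ^ 2 + (b : ℝ) ^ 2) / (C₀ * m) := by positivity
    have k2 := mul_le_mul_of_nonneg_left (hmh.trans hhV) hC₀.le
    linarith
  have hJ : (⌈m * T⌉₊ : ℝ) ≤ m * (T + 1) := by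
    have := (Nat.ceil_lt_add_one (show 0 ≤ m * T by positivity)).le
    linarith
  have hpos : 0 < Fintype.card ι := by
    rcases Nat.eq_zero_or_pos (Fintype.card ι) with h0 | h0
    · rw [h0, Nat.cast_zero, zero_mul] at hNh
      exact absurd hNh (not_le.2 (by positivity))
    · exact h0
  have hc : (7 + C₀) * V * ((2 * r + 1) * (⌈m * T⌉₊ * 2)) ≤ Fintype.card ι * h := by
    refine le_trans ?_ hNh
    calc (7 + C₀) * V * ((2 * r + 1) * (⌈m * T⌉₊ * 2))
        ≤ (7 + C₀) * V * ((3 * r) * (m * (T + 1) * 2)) :=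
          mul_le_mul_of_nonneg_left (mul_le_mul (by linarith)
            (mul_le_mul_of_nonneg_right hJ (by norm_num)) (by positivity) (by positivity))
            (by positivity)
      _ = 6 * (7 + C₀) * (T + 1) * (r * m * V) := by ring
      _ ≤ C * (r * m * V) := mul_le_mul_of_nonneg_right hC1 (by positivity)
      _ = C * r * m * V := by ring
  obtain ⟨p, hp0, hpH, hp⟩ := small_pigeon (fun i => cf (G i))
    (fun a => ⌈(-κ.re - 2 * Real.pi * a * τ₁.im) / (2 * Real.pi * τ₂.im)⌉) r ⌈m * T⌉₊ hV1 hhV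
    hC₀.le hu hN hc hpos
  refine ⟨p, hp0, hpH, fun x y hx hy => ?_⟩
  have hF := (cf_sum G hG (fun i => (p i : ℂ)) 0 0).1
  have hFc := fun a b => (cf_sum G hG (fun i => (p i : ℂ)) a b).2
  have hFq : ∀ x y, ∑ i, (p i : ℂ) * G i (x + τ₁) (y + τ₂) =
      cexp (-(2 * Real.pi * I * m * (x + y)) + κ) * ∑ i, (p i : ℂ) * G i x y := fun x y => by
    rw [Finset.mul_sum]
    exact Finset.sum_congr rfl fun i _ => by rw [hq, mul_left_comm]
  have hFb : ∀ x y : ℂ, ‖∑ i, (p i : ℂ) * G i x y‖ ≤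
      Real.exp (2 * h + C₀ * m) * Real.exp (C₀ * m * (x.im ^ 2 + y.im ^ 2)) := fun x y => by
    refine (norm_sum_le _ _).trans ((Finset.sum_le_card_nsmul _ _
      (Real.exp h * (Real.exp (C₀ * m) * Real.exp (C₀ * m * (x.im ^ 2 + y.im ^ 2))))
      fun i _ => ?_).trans ?_)
    · rw [norm_mul, norm_intCast]
      exact mul_le_mul (hpH i) (hb' i x y) (norm_nonneg _) (Real.exp_pos h).le
    · rw [nsmul_eq_mul, Finset.card_univ]
      refine (mul_le_mul_of_nonneg_right hN (by positivity)).trans (le_of_eq ?_)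
      simp only [← Real.exp_add]
      congr 1
      ring
  have hdec := cf_decay hF hc0 hFb
  have hall : ∀ a b : ℤ, ‖cf (fun x y => ∑ i, (p i : ℂ) * G i x y) a b‖ ≤ 2 * Real.exp (-V) := by
    refine le_of_strip (c := fun a b => ‖cf (fun x y => ∑ i, (p i : ℂ) * G i x y) a b‖) (k := κ.re)
      hm h₁ h₂ (fun _ _ => norm_nonneg _) (cf_rec hF hFq) fun a b hl1 hl2 => ?_
    rcases le_or_gt |a| r with ha | ha
    · rw [hFc]
      have hd : 0 < 2 * Real.pi * τ₂.im := by positivity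
      refine hp a b ha (Int.ceil_le.2 ((div_le_iff₀ hd).2 (by linarith))) ?_
      have k1 := Int.le_ceil ((-κ.re - 2 * Real.pi * a * τ₁.im) / (2 * Real.pi * τ₂.im))
      have k2 := Nat.le_ceil (m * T)
      have k3 : (b : ℝ) < (-κ.re - 2 * Real.pi * a * τ₁.im) / (2 * Real.pi * τ₂.im) + m * T := by
        have k4 : m * T * (2 * Real.pi * τ₂.im) = 2 * Real.pi * m * (τ₁.im + τ₂.im) := by
          rw [hT]; field_simp
        rw [← sub_lt_iff_lt_add, lt_div_iff₀ hd, sub_mul, k4]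
        linarith
      exact_mod_cast k3.trans_le (add_le_add k1 k2)
    · refine (hdec a b).trans ?_
      have hpi : 1 ≤ Real.pi ^ 2 := one_le_pow₀ (by linarith [Real.pi_gt_three])
      have k1 : (r : ℝ) ≤ |(a : ℝ)| := by exact_mod_cast ha.le
      have k2 : (r : ℝ) ^ 2 ≤ (a : ℝ) ^ 2 + (b : ℝ) ^ 2 := by
        have := pow_le_pow_left₀ (Nat.cast_nonneg r) k1 2
        rw [sq_abs] at this
        linarith [sq_nonneg (b : ℝ)]
      have k3 : (3 + C₀) * V ≤ Real.pi ^ 2 * ((a : ℝ) ^ 2 + (b : ℝ) ^ 2) / (C₀ * m) := by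
        rw [le_div_iff₀ hc0]
        calc (3 + C₀) * V * (C₀ * m) = C₀ * (3 + C₀) * (m * V) := by ring
          _ ≤ C * (m * V) := mul_le_mul_of_nonneg_right hC2 (by positivity)
          _ = C * m * V := by ring
          _ ≤ (a : ℝ) ^ 2 + (b : ℝ) ^ 2 := hr2.trans k2
          _ ≤ _ := le_mul_of_one_le_left (by positivity) hpi
      have k4 := mul_le_mul_of_nonneg_left (hmh.trans hhV) hC₀.le
      rw [← Real.exp_add]
      refine le_trans (Real.exp_le_exp.2 (show _ ≤ -V by linarith)) ?_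
      linarith [Real.exp_pos (-V)]
  have hfin := norm_le_of_cf hF
    (fun a b => small_mean hc0 (norm_nonneg _) (hall a b) (hdec a b)) hx hy
  refine hfin.trans ?_
  have k1 : (9 : ℝ) ≤ Real.exp 8 := by linarith [Real.add_one_le_exp 8]
  refine (mul_le_mul_of_nonneg_right k1 (Real.exp_pos _).le).trans ?_
  rw [← Real.exp_add, Real.exp_le_exp]
  have k2 := mul_le_mul_of_nonneg_left hmh hC₀.le
  have k3 := mul_le_mul_of_nonneg_right hC3 (show 0 ≤ h by linarith)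
  have k4 : 0 ≤ C₀ * h := by positivity
  linarith

end GPC96

end

-- part MP_57341d_ag.H96.Constr
section

/-! The auxiliary polynomial. -/

open MvPolynomial Complex
open scoped PeriodPair

namespace GPC96

/-- The polynomial in `x₁, x₂, w` with coefficients in `ℤ[θ]` attached to an integer array. -/
noncomputable def auxP (θ : ℂ) (N : ℕ) (p : (Fin 4 → Fin (N + 1)) → ℤ) :
    MvPolynomial (Fin 3) ℂ :=
  ∑ e, C ((p e : ℂ) * θ ^ (e 0 : ℕ)) * X 0 ^ (e 1 : ℕ) * X 1 ^ (e 2 : ℕ) * X 2 ^ (e 3 : ℕ)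

/-- The exponent of a term of `auxP`. -/
noncomputable def constrD {N : ℕ} (e : Fin 4 → Fin (N + 1)) : Fin 3 →₀ ℕ :=
  Finsupp.single 0 (e 1 : ℕ) + Finsupp.single 1 (e 2 : ℕ) + Finsupp.single 2 (e 3 : ℕ)

theorem constr_auxP (θ : ℂ) (N : ℕ) (p : (Fin 4 → Fin (N + 1)) → ℤ) :
    auxP θ N p = ∑ e, monomial (constrD e) ((p e : ℂ) * θ ^ (e 0 : ℕ)) := by
  refine Finset.sum_congr rfl fun e _ => ?_
  simp only [X_pow_eq_monomial, C_apply, monomial_mul, constrD, zero_add, mul_one]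

theorem constr_inj {N : ℕ} {e e' : Fin 4 → Fin (N + 1)} (h : constrD e = constrD e')
    (h0 : (e 0 : ℕ) = e' 0) : e = e' := by
  have h1 := DFunLike.congr_fun h 0
  have h2 := DFunLike.congr_fun h 1
  have h3 := DFunLike.congr_fun h 2
  simp [constrD] at h1 h2 h3
  funext i
  fin_cases i
  · exact Fin.ext h0
  · exact Fin.ext h1
  · exact Fin.ext h2
  · exact Fin.ext h3

/-- Hint: the coefficient of a monomial is a polynomial in `θ` with coefficients among the `p e`. -/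
theorem auxP_ne_zero {θ : ℂ} (hθ : Transcendental ℚ θ) {N : ℕ} {p : (Fin 4 → Fin (N + 1)) → ℤ}
    (hp : p ≠ 0) : auxP θ N p ≠ 0 := by
  classical
  obtain ⟨e, he⟩ := Function.ne_iff.1 hp
  intro h
  let q : Polynomial ℚ :=
    ∑ e', if constrD e' = constrD e then Polynomial.monomial (e' 0 : ℕ) (p e' : ℚ) else 0
  have h1 : q.coeff (e 0 : ℕ) = p e := by
    simp only [q, Polynomial.finsetSum_coeff]
    rw [Finset.sum_eq_single e]
    · simp
    · intro e' _ hne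
      split_ifs with h2
      · rw [Polynomial.coeff_monomial, if_neg fun h3 => hne (constr_inj h2 h3)]
      · simp
    · simp
  refine hθ ⟨q, fun h2 => he ?_, ?_⟩
  · rw [h2, Polynomial.coeff_zero] at h1
    exact_mod_cast h1.symm
  · have h3 := congrArg (coeff (constrD e)) h
    rw [constr_auxP, coeff_sum, coeff_zero] at h3
    rw [← h3, map_sum]
    refine Finset.sum_congr rfl fun e' _ => ?_
    rw [coeff_monomial]
    split_ifs <;> simp

theorem auxP_deg (θ : ℂ) (N : ℕ) (p : (Fin 4 → Fin (N + 1)) → ℤ) :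
    (auxP θ N p).totalDegree ≤ 3 * N := by
  rw [constr_auxP]
  refine totalDegree_finsetSum_le fun e _ => (totalDegree_monomial_le _ _).trans ?_
  rw [Finsupp.sum_fintype _ _ fun _ => rfl, Fin.sum_univ_three]
  have h1 := (e 1).2
  have h2 := (e 2).2
  have h3 := (e 3).2
  simp [constrD]
  omega

theorem constr_cauchy {U : Set ℂ} (hU : IsOpen U) (Φ : R5 → ℂ → ℂ) (D : R5 → R5)
    (hΦ : ∀ g, ∀ u ∈ U, HasDerivAt (Φ g) (Φ (D g) u) u) {z : ℂ} {r M : ℝ} (hr : 0 < r)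
    (hz : ∀ u, ‖u - z‖ ≤ r → u ∈ U) (g : R5) (hM : ∀ u, ‖u - z‖ = r → ‖Φ g u‖ ≤ M) (s : ℕ) :
    ‖Φ (D^[s] g) z‖ ≤ s.factorial * M / r ^ s := by
  have hzU : z ∈ U := hz z (by simpa using hr.le)
  have key : ∀ (s : ℕ) (g : R5), iteratedDeriv s (Φ g) z = Φ (D^[s] g) z := by
    intro s
    induction s with
    | zero => intro g; simp
    | succ s ih =>
      intro g
      rw [iteratedDeriv_succ', Function.iterate_succ_apply, ← ih]
      refine Filter.EventuallyEq.iteratedDeriv_eq s ?_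
      filter_upwards [hU.mem_nhds hzU] with u hu using (hΦ g u hu).deriv
  rw [← key]
  refine norm_iteratedDeriv_le_of_forall_mem_sphere_norm_le s hr ?_ fun u hu =>
    hM u (mem_sphere_iff_norm.1 hu)
  refine DifferentiableOn.diffContOnCl fun u hu => ?_
  rw [closure_ball z hr.ne'] at hu
  exact (hΦ g u (hz u (mem_closedBall_iff_norm.1 hu))).differentiableAt.differentiableWithinAt

/-- Cauchy's estimate in each variable.  Hint: by `hasDerivAt_ev` with `(α, β) = (1, 0)`,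
`eval (ev z₁ z₂ 0) (D1^[s] g)` is the `s`-th derivative at `z₁` of `u ↦ eval (ev u z₂ 0) g` on the
open set `latticeᶜ`; `Complex.norm_iteratedDeriv_le_of_forall_mem_sphere_norm_le`; first in `z₁`
with `g = D2^[t] f`, then in `z₂`. -/
theorem cauchy_two (L₁ L₂ : PeriodPair) {z₁ z₂ : ℂ} {r₁ r₂ M : ℝ} (hr₁ : 0 < r₁) (hr₂ : 0 < r₂)
    (h₁ : ∀ u, ‖u - z₁‖ ≤ r₁ → u ∉ L₁.lattice) (h₂ : ∀ u, ‖u - z₂‖ ≤ r₂ → u ∉ L₂.lattice)
    (f : R5) (hM : ∀ u v, ‖u - z₁‖ = r₁ → ‖v - z₂‖ = r₂ → ‖eval (ev L₁ L₂ u v 0) f‖ ≤ M)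
    (s t : ℕ) :
    ‖eval (ev L₁ L₂ z₁ z₂ 0) ((D1 (par L₁ L₂))^[s] ((D2 (par L₁ L₂))^[t] f))‖ ≤
      s.factorial * t.factorial * M / (r₁ ^ s * r₂ ^ t) := by
  have h3 := constr_cauchy L₁.isClosed_lattice.isOpen_compl
    (fun g u => eval (ev L₁ L₂ u z₂ 0) g) (D1 (par L₁ L₂)) (fun g u hu => by
      have := hasDerivAt_ev L₁ L₂ 0 z₂ 0 1 0 u (by simpa using hu)
        (by simpa using h₂ z₂ (by simpa using hr₂.le)) g
      simpa using this) hr₁ h₁ ((D2 (par L₁ L₂))^[t] f) (M := t.factorial * M / r₂ ^ t)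
    (fun u hu => constr_cauchy L₂.isClosed_lattice.isOpen_compl
      (fun g v => eval (ev L₁ L₂ u v 0) g) (D2 (par L₁ L₂)) (fun g v hv => by
        have := hasDerivAt_ev L₁ L₂ u 0 0 0 1 v (by simpa using h₁ u hu.le) (by simpa using hv) g
        simpa using this) hr₂ h₂ f (fun v hv => hM u v hu hv) t) s
  refine h3.trans (le_of_eq ?_)
  field_simp

/-- The quasi-periodic functions of the construction. -/
noncomputable def constrG (θ ρ : ℂ) (ϑ₁ A₁ B₁ ϑ₂ A₂ B₂ : ℂ → ℂ) {N : ℕ}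
    (e : Fin 4 → Fin (N + 1)) (x y : ℂ) : ℂ :=
  θ ^ (e 0 : ℕ) * A₁ x ^ (e 1 : ℕ) * A₂ y ^ (e 2 : ℕ) *
    (B₁ x * ϑ₂ y - ρ * ϑ₁ x * B₂ y) ^ (e 3 : ℕ) *
    ϑ₁ x ^ (3 * N - 2 * e 1 - e 3) * ϑ₂ y ^ (3 * N - 2 * e 2 - e 3)

section G

variable {θ ρ : ℂ} {ϑ₁ A₁ B₁ ϑ₂ A₂ B₂ : ℂ → ℂ} {N : ℕ}

theorem constr_scale (e : Fin 4 → Fin (N + 1)) {x y x' y' a b : ℂ} {a' b' : ℂ → ℂ}
    {A₁' B₁' A₂' B₂' : ℂ → ℂ} (h1 : A₁ x' = a ^ 2 * A₁' x) (h2 : A₂ y' = b ^ 2 * A₂' y)
    (h3 : B₁ x' * ϑ₂ y' - ρ * ϑ₁ x' * B₂ y' = a * b * (B₁' x * b' y - ρ * a' x * B₂' y))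
    (h4 : ϑ₁ x' = a * a' x) (h5 : ϑ₂ y' = b * b' y) :
    constrG θ ρ ϑ₁ A₁ B₁ ϑ₂ A₂ B₂ e x' y' =
      a ^ (3 * N) * b ^ (3 * N) * constrG θ ρ a' A₁' B₁' b' A₂' B₂' e x y := by
  have e1 := (e 1).2
  have e2 := (e 2).2
  have e3 := (e 3).2
  have f1 : a ^ (3 * N) = (a ^ 2) ^ (e 1 : ℕ) * a ^ (e 3 : ℕ) * a ^ (3 * N - 2 * e 1 - e 3) := by
    rw [← pow_mul, ← pow_add, ← pow_add]
    congr 1
    omega
  have f2 : b ^ (3 * N) = (b ^ 2) ^ (e 2 : ℕ) * b ^ (e 3 : ℕ) * b ^ (3 * N - 2 * e 2 - e 3) := by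
    rw [← pow_mul, ← pow_add, ← pow_add]
    congr 1
    omega
  rw [constrG, constrG, h1, h2, h3, h4, h5, f1, f2]
  simp only [mul_pow]
  ring

theorem constr_bound (e : Fin 4 → Fin (N + 1)) {x y : ℂ} {Z : ℝ} (hZ : 1 ≤ Z) (h0 : ‖θ‖ ≤ Z)
    (h1 : ‖A₁ x‖ ≤ Z) (h2 : ‖A₂ y‖ ≤ Z) (h3 : ‖B₁ x * ϑ₂ y - ρ * ϑ₁ x * B₂ y‖ ≤ Z)
    (h4 : ‖ϑ₁ x‖ ≤ Z) (h5 : ‖ϑ₂ y‖ ≤ Z) :
    ‖constrG θ ρ ϑ₁ A₁ B₁ ϑ₂ A₂ B₂ e x y‖ ≤ Z ^ (9 * N) := by
  have e0 := (e 0).2
  have e1 := (e 1).2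
  have e2 := (e 2).2
  have e3 := (e 3).2
  refine le_trans ?_ (pow_le_pow_right₀ hZ (show (e 0 : ℕ) + e 1 + e 2 + e 3 +
    (3 * N - 2 * e 1 - e 3) + (3 * N - 2 * e 2 - e 3) ≤ 9 * N by omega))
  simp only [constrG, norm_mul, norm_pow, pow_add]
  gcongr

theorem constr_growth {C₁ C₂ : ℝ} (hC₁ : 0 < C₁) (hC₂ : 0 < C₂)
    (g₁ : ∀ x, ‖ϑ₁ x‖ + ‖A₁ x‖ + ‖B₁ x‖ ≤ Real.exp (C₁ * (1 + x.im ^ 2)))
    (g₂ : ∀ x, ‖ϑ₂ x‖ + ‖A₂ x‖ + ‖B₂ x‖ ≤ Real.exp (C₂ * (1 + x.im ^ 2)))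
    (e : Fin 4 → Fin (N + 1)) (x y : ℂ) :
    ‖constrG θ ρ ϑ₁ A₁ B₁ ϑ₂ A₂ B₂ e x y‖ ≤
      Real.exp (3 * (‖θ‖ + ‖ρ‖ + C₁ + C₂) * (3 * N : ℕ) * (1 + x.im ^ 2 + y.im ^ 2)) := by
  have hθ := norm_nonneg θ
  have hρ := norm_nonneg ρ
  have hx := sq_nonneg x.im
  have hy := sq_nonneg y.im
  obtain ⟨X, hX⟩ : ∃ X, X = Real.exp (C₁ * (1 + x.im ^ 2)) := ⟨_, rfl⟩
  obtain ⟨Y, hY⟩ : ∃ Y, Y = Real.exp (C₂ * (1 + y.im ^ 2)) := ⟨_, rfl⟩
  obtain ⟨Z, hZ⟩ : ∃ Z, Z = Real.exp ((‖θ‖ + ‖ρ‖ + C₁ + C₂) * (1 + x.im ^ 2 + y.im ^ 2)) :=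
    ⟨_, rfl⟩
  have a₁ := g₁ x
  have a₂ := g₂ y
  rw [← hX] at a₁
  rw [← hY] at a₂
  have b1 := norm_nonneg (ϑ₁ x)
  have b2 := norm_nonneg (A₁ x)
  have b3 := norm_nonneg (B₁ x)
  have b4 := norm_nonneg (ϑ₂ y)
  have b5 := norm_nonneg (A₂ y)
  have b6 := norm_nonneg (B₂ y)
  have hXZ : X ≤ Z := by
    rw [hX, hZ, Real.exp_le_exp]
    exact mul_le_mul (by linarith) (by linarith) (by linarith) (by linarith)
  have hYZ : Y ≤ Z := by
    rw [hY, hZ, Real.exp_le_exp]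
    exact mul_le_mul (by linarith) (by linarith) (by linarith) (by linarith)
  have hT : ‖θ‖ + 1 ≤ Z := by
    rw [hZ]
    refine (Real.add_one_le_exp _).trans (Real.exp_le_exp.2 ?_)
    refine le_trans (by linarith) (le_mul_of_one_le_right (by positivity) (by linarith))
  have hW : (‖ρ‖ + 1) * X * Y ≤ Z := by
    have h1 : Real.exp ‖ρ‖ * X * Y ≤ Z := by
      rw [hX, hY, hZ, ← Real.exp_add, ← Real.exp_add, Real.exp_le_exp]
      have h2 : 0 ≤ ‖θ‖ * (1 + x.im ^ 2 + y.im ^ 2) + ‖ρ‖ * (x.im ^ 2 + y.im ^ 2) +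
        C₁ * y.im ^ 2 + C₂ * x.im ^ 2 := by positivity
      linarith
    refine le_trans ?_ h1
    have h3 : 0 ≤ X := by linarith
    have h4 : 0 ≤ Y := by linarith
    gcongr
    exact Real.add_one_le_exp _
  have hW' : ‖B₁ x * ϑ₂ y - ρ * ϑ₁ x * B₂ y‖ ≤ Z := by
    refine (norm_sub_le _ _).trans (le_trans ?_ hW)
    have h0 : 0 ≤ X := by linarith
    have h1 : ‖B₁ x‖ * ‖ϑ₂ y‖ ≤ X * Y := by gcongr <;> linarith
    have h2 : ‖ρ‖ * ‖ϑ₁ x‖ * ‖B₂ y‖ ≤ ‖ρ‖ * X * Y := by gcongr <;> linarith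
    simp only [norm_mul]
    linarith
  refine (constr_bound e (Z := Z) (by linarith) (by linarith) (by linarith) (by linarith) hW'
    (by linarith) (by linarith)).trans (le_of_eq ?_)
  rw [hZ, ← Real.exp_nat_mul]
  congr 1
  push_cast
  ring

theorem constr_per (d1 : Differentiable ℂ ϑ₁) (d2 : Differentiable ℂ A₁) (d3 : Differentiable ℂ B₁)
    (d4 : Differentiable ℂ ϑ₂) (d5 : Differentiable ℂ A₂) (d6 : Differentiable ℂ B₂)
    (p1 : ∀ x, ϑ₁ (x + 1) = ϑ₁ x) (p2 : ∀ x, A₁ (x + 1) = A₁ x) (p3 : ∀ x, B₁ (x + 1) = B₁ x)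
    (p4 : ∀ x, ϑ₂ (x + 1) = ϑ₂ x) (p5 : ∀ x, A₂ (x + 1) = A₂ x) (p6 : ∀ x, B₂ (x + 1) = B₂ x)
    (e : Fin 4 → Fin (N + 1)) : Per (constrG θ ρ ϑ₁ A₁ B₁ ϑ₂ A₂ B₂ e) := by
  have c1 := d1.continuous
  have c2 := d2.continuous
  have c3 := d3.continuous
  have c4 := d4.continuous
  have c5 := d5.continuous
  have c6 := d6.continuous
  refine ⟨?_, fun y => ?_, fun x => ?_, fun x y => ?_, fun x y => ?_⟩
  · unfold constrG
    fun_prop
  · unfold constrG
    fun_prop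
  · unfold constrG
    fun_prop
  · simp only [constrG, p1, p2, p3]
  · simp only [constrG, p4, p5, p6]

end G

theorem constr_eval (L₁ L₂ : PeriodPair) (θ : ℂ) {N : ℕ} (p : (Fin 4 → Fin (N + 1)) → ℤ)
    (u v : ℂ) : eval (ev L₁ L₂ u v 0) (rename emb (auxP θ N p)) =
      ∑ e, (p e : ℂ) * constrG θ (L₂.ω₁ / L₁.ω₁) (fun _ => 1) ℘[L₁] (Zf L₁) (fun _ => 1) ℘[L₂]
        (Zf L₂) e u v := by
  rw [auxP, map_sum, map_sum]
  refine Finset.sum_congr rfl fun e _ => ?_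
  simp [constrG, ev, emb, mul_assoc]

/-- Hint: with the data of `theta_data` for both lattices, `m = 3 N`, `ρ = L₂.ω₁ / L₁.ω₁` and
`G e x y = θ^(e 0) * A₁ x ^ (e 1) * A₂ y ^ (e 2) * (B₁ x * ϑ₂ y - ρ * ϑ₁ x * B₂ y) ^ (e 3) *
ϑ₁ x ^ (m - 2 e 1 - e 3) * ϑ₂ y ^ (m - 2 e 2 - e 3)`; the bracket is multiplied by the product of
the two exponential factors because `ρ * (2πI / L₂.ω₁) = 2πI / L₁.ω₁`.  Apply `small_comb`; on the
circles `∑ p e * G e x y = ϑ₁ x ^ m * ϑ₂ y ^ m * eval (ev (ω x) (ω' y) 0) (rename emb (auxP ..))`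
and `‖ϑ i‖ ≥ μ i`; then `cauchy_two` with radii `‖ω₁‖ r`. -/
theorem aux_exists (L₁ L₂ : PeriodPair) (h₁ : 0 < (L₁.ω₂ / L₁.ω₁).im)
    (h₂ : 0 < (L₂.ω₂ / L₂.ω₁).im) (θ : ℂ) :
    ∃ C : ℝ, 1 ≤ C ∧ ∀ (N r : ℕ) (h V : ℝ), 1 ≤ N → 1 ≤ r → 4 * (N : ℝ) ≤ h → h ≤ V →
      C * N * V ≤ (r : ℝ) ^ 2 → C * r * N * V ≤ (N : ℝ) ^ 4 * h →
      ∃ p : (Fin 4 → Fin (N + 1)) → ℤ, p ≠ 0 ∧ (∀ e, |(p e : ℝ)| ≤ Real.exp h) ∧ ∀ s t : ℕ,
        ‖eval (ev L₁ L₂ (L₁.ω₁ / 2) (L₂.ω₁ / 2) 0)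
            ((D1 (par L₁ L₂))^[s] ((D2 (par L₁ L₂))^[t] (rename emb (auxP θ N p))))‖ ≤
          s.factorial * t.factorial * C ^ (s + t) * Real.exp (-(V / 2) + C * h) := by
  obtain ⟨ϑ₁, A₁, B₁, κ₁, C₁, r₁, μ₁, d1, d2, d3, p1, p2, p3, q1, q2, q3, s₁, hC₁, g₁, hr₁, hr₁',
    hμ₁, -, n₁, m₁⟩ := theta_data L₁ h₁
  obtain ⟨ϑ₂, A₂, B₂, κ₂, C₂, r₂, μ₂, d4, d5, d6, p4, p5, p6, q4, q5, q6, s₂, hC₂, g₂, hr₂, hr₂',
    hμ₂, -, n₂, m₂⟩ := theta_data L₂ h₂
  have w₁ := ω₁_ne_zero L₁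
  have w₂ := ω₁_ne_zero L₂
  have hR₁ : 0 < ‖L₁.ω₁‖ * r₁ := mul_pos (norm_pos_iff.2 w₁) hr₁
  have hR₂ : 0 < ‖L₂.ω₁‖ * r₂ := mul_pos (norm_pos_iff.2 w₂) hr₂
  obtain ⟨Cs, hCs, hs⟩ := small_comb h₁ h₂
    (C₀ := 3 * (‖θ‖ + ‖L₂.ω₁ / L₁.ω₁‖ + C₁ + C₂)) (by positivity)
  obtain ⟨C, hC⟩ : ∃ C, C = 1 + 3 * Cs + (μ₁ * μ₂)⁻¹ + (‖L₁.ω₁‖ * r₁)⁻¹ + (‖L₂.ω₁‖ * r₂)⁻¹ :=
    ⟨_, rfl⟩
  have i0 : 0 < (μ₁ * μ₂)⁻¹ := by positivity
  have i1 := inv_pos.2 hR₁
  have i2 := inv_pos.2 hR₂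
  have hC3 : 3 * Cs ≤ C := by linarith
  refine ⟨C, by linarith, fun N r h V hN hr h4 hV k1 k2 => ?_⟩
  have hN0 : (0 : ℝ) ≤ N := Nat.cast_nonneg N
  have hr0 : (0 : ℝ) ≤ r := Nat.cast_nonneg r
  have hh : 0 ≤ h := by linarith
  have hV0 : 0 ≤ V := by linarith
  have hcard : (Fintype.card (Fin 4 → Fin (N + 1)) : ℝ) = (N + 1) ^ 4 := by simp
  have hm : ((3 * N : ℕ) : ℝ) = 3 * N := by push_cast; ring
  obtain ⟨p, hp, hpb, hsm⟩ := hs (Fin 4 → Fin (N + 1))
    (constrG θ (L₂.ω₁ / L₁.ω₁) ϑ₁ A₁ B₁ ϑ₂ A₂ B₂) ((3 * N : ℕ) * (κ₁ + κ₂)) (3 * N) r h V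
    (constr_per d1 d2 d3 d4 d5 d6 p1 p2 p3 p4 p5 p6)
    (fun e x y => by
      rw [constr_scale e (q2 x) (q5 y) (B₁' := B₁) (B₂' := B₂) ?_ (q1 x) (q4 y), ← mul_pow,
        ← Complex.exp_add, ← Complex.exp_nat_mul]
      · congr 2
        ring
      · rw [q1, q3, q4, q6]
        field_simp
        ring)
    (constr_growth hC₁ hC₂ g₁ g₂) (by omega) hr (by rw [hm]; linarith) hV
    (by
      rw [hcard]
      refine (pow_le_pow_left₀ (by positivity) (Real.add_one_le_exp N) 4).trans ?_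
      rw [← Real.exp_nat_mul, Real.exp_le_exp]
      exact_mod_cast h4)
    (by
      rw [hm]
      refine le_trans ?_ k1
      have : 3 * Cs * (N * V) ≤ C * (N * V) := by gcongr
      linarith)
    (by
      rw [hm, hcard]
      have a1 : 3 * Cs * (r * N * V) ≤ C * (r * N * V) := by gcongr
      have a2 : (N : ℝ) ^ 4 * h ≤ (N + 1) ^ 4 * h := by gcongr; linarith
      linarith)
  refine ⟨p, hp, hpb, fun s t => ?_⟩
  have circ : ∀ ω u : ℂ, ω ≠ 0 → ∃ x, u = ω * x ∧ ‖u - ω / 2‖ = ‖ω‖ * ‖x - 1 / 2‖ :=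
    fun ω u hω => ⟨u / ω, by field_simp, by rw [← norm_mul]; congr 1; field_simp⟩
  have him : ∀ (x : ℂ) (r : ℝ), r ≤ 1 → ‖x - 1 / 2‖ = r → |x.im| ≤ 1 := fun x r hr hx => by
    have := abs_im_le_norm (x - 1 / 2)
    simp only [sub_im, one_div, inv_im, im_ofNat, neg_zero, zero_div, sub_zero] at this
    rw [← one_div, hx] at this
    linarith
  refine (cauchy_two L₁ L₂ hR₁ hR₂ (fun u hu => ?_) (fun u hu => ?_) _
    (M := Real.exp (-(V / 2) + C * h)) (fun u v hu hv => ?_) s t).trans ?_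
  · obtain ⟨x, rfl, hx⟩ := circ L₁.ω₁ u w₁
    exact n₁ x (le_of_mul_le_mul_left (hx ▸ hu) (norm_pos_iff.2 w₁))
  · obtain ⟨x, rfl, hx⟩ := circ L₂.ω₁ u w₂
    exact n₂ x (le_of_mul_le_mul_left (hx ▸ hu) (norm_pos_iff.2 w₂))
  · obtain ⟨x, rfl, hx⟩ := circ L₁.ω₁ u w₁
    obtain ⟨y, rfl, hy⟩ := circ L₂.ω₁ v w₂
    have hx' : ‖x - 1 / 2‖ = r₁ := mul_left_cancel₀ (norm_ne_zero_iff.2 w₁) (hx.symm.trans hu)
    have hy' : ‖y - 1 / 2‖ = r₂ := mul_left_cancel₀ (norm_ne_zero_iff.2 w₂) (hy.symm.trans hv)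
    obtain ⟨a1, a2⟩ := s₁ x (n₁ x hx'.le)
    obtain ⟨a3, a4⟩ := s₂ y (n₂ y hy'.le)
    have a5 := hsm x y (him x r₁ hr₁' hx') (him y r₂ hr₂' hy')
    have a6 : ∑ e, (p e : ℂ) * constrG θ (L₂.ω₁ / L₁.ω₁) ϑ₁ A₁ B₁ ϑ₂ A₂ B₂ e x y =
        (ϑ₁ x * ϑ₂ y) ^ (3 * N) *
          eval (ev L₁ L₂ (L₁.ω₁ * x) (L₂.ω₁ * y) 0) (rename emb (auxP θ N p)) := by
      rw [constr_eval, Finset.mul_sum]
      refine Finset.sum_congr rfl fun e _ => ?_
      rw [constr_scale e a1 a3 (a' := fun _ => 1) (b' := fun _ => 1) (B₁' := Zf L₁) (B₂' := Zf L₂)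
        (by rw [a2, a4]; ring) (mul_one _).symm (mul_one _).symm]
      ring
    rw [a6, norm_mul, norm_pow, norm_mul] at a5
    have a7 : (μ₁ * μ₂) ^ (3 * N) ≤ (‖ϑ₁ x‖ * ‖ϑ₂ y‖) ^ (3 * N) := by
      have b1 := m₁ x hx'
      have b2 := m₂ y hy'
      gcongr
    have a8 := (mul_le_mul_of_nonneg_right a7 (norm_nonneg _)).trans a5
    rw [← le_inv_mul_iff₀ (by positivity), ← inv_pow] at a8
    refine a8.trans ?_
    have a9 : (μ₁ * μ₂)⁻¹ ^ (3 * N) ≤ Real.exp ((μ₁ * μ₂)⁻¹ * h) := by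
      have b1 : (μ₁ * μ₂)⁻¹ ≤ Real.exp (μ₁ * μ₂)⁻¹ := by
        linarith [Real.add_one_le_exp (μ₁ * μ₂)⁻¹]
      refine (pow_le_pow_left₀ i0.le b1 _).trans ?_
      rw [← Real.exp_nat_mul, Real.exp_le_exp, hm, mul_comm]
      gcongr
      linarith
    refine (mul_le_mul_of_nonneg_right a9 (Real.exp_pos _).le).trans ?_
    rw [← Real.exp_add, Real.exp_le_exp]
    have b2 : ((μ₁ * μ₂)⁻¹ + Cs) * h ≤ C * h := by gcongr; linarith
    linarith
  · have b1 : (‖L₁.ω₁‖ * r₁)⁻¹ ≤ C := by linarith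
    have b2 : (‖L₂.ω₁‖ * r₂)⁻¹ ≤ C := by linarith
    have b3 : 0 ≤ C := by linarith
    rw [div_eq_mul_inv, mul_inv, ← inv_pow, ← inv_pow, mul_right_comm, pow_add]
    gcongr

end GPC96

end
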