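import Mathlib

-- part MP_57341d_ag.H96.PolyMat
section

/-! A small eigenvalue of an integer polynomial matrix gives a small polynomial. -/

open Polynomial

namespace GPC96

theorem polymat_mul {f g : ℤ[X][X]} {d e : ℕ} (hf : ∀ k, (f.coeff k).natDegree ≤ d)
    (hg : ∀ k, (g.coeff k).natDegree ≤ e) (k : ℕ) : ((f * g).coeff k).natDegree ≤ d + e := by
  rw [coeff_mul]
  exact natDegree_sum_le_of_forall_le _ _ fun p _ =>
    natDegree_mul_le.trans (add_le_add (hf _) (hg _))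

theorem polymat_prod {ι : Type} (s : Finset ι) (f : ι → ℤ[X][X]) {d : ℕ}
    (hf : ∀ i k, ((f i).coeff k).natDegree ≤ d) (k : ℕ) :
    ((∏ i ∈ s, f i).coeff k).natDegree ≤ s.card * d := by
  classical
  induction s using Finset.induction_on generalizing k with
  | empty =>
    rw [Finset.prod_empty, coeff_one]
    split_ifs <;> simp
  | insert a s ha ih =>
    rw [Finset.prod_insert ha, Finset.card_insert_of_notMem ha, add_mul, one_mul, add_comm]
    exact polymat_mul (hf a) ih k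

theorem polymat_deg {n : Type} [Fintype n] [DecidableEq n] (A : Matrix n n ℤ[X]) {δ : ℕ}
    (hδ : ∀ i j, (A i j).natDegree ≤ δ) (k : ℕ) :
    (A.charpoly.coeff k).natDegree ≤ Fintype.card n * δ := by
  have h1 : ∀ i j k, ((A.charmatrix i j).coeff k).natDegree ≤ δ := fun i j k => by
    have h2 : ((C (A i j) : ℤ[X][X]).coeff k).natDegree ≤ δ := by
      rw [coeff_C]
      split_ifs
      exacts [hδ i j, by simp]
    by_cases h : i = j
    · subst h
      rw [Matrix.charmatrix_apply_eq, coeff_sub]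
      refine (natDegree_sub_le _ _).trans (max_le ?_ h2)
      rw [coeff_X]
      split_ifs <;> simp
    · rw [Matrix.charmatrix_apply_ne _ _ _ h, coeff_neg, natDegree_neg]
      exact h2
  rw [Matrix.charpoly, Matrix.det_apply, finsetSum_coeff]
  refine natDegree_sum_le_of_forall_le _ _ fun σ _ => ?_
  rw [Units.smul_def, coeff_smul]
  exact (natDegree_smul_le _ _).trans (polymat_prod _ _ (fun i k => h1 _ _ k) k)

theorem polymat_eig {n : Type} [Fintype n] (B : Matrix n n ℂ) {M : ℝ}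
    (hB : ∀ i, ∑ j, ‖B i j‖ ≤ M) {r : ℂ} {v : n → ℂ} (hv : v ≠ 0)
    (he : ∀ i, r * v i = ∑ j, B i j * v j) : ‖r‖ ≤ M := by
  obtain ⟨i₀, hi₀⟩ := Function.ne_iff.1 hv
  obtain ⟨i, -, hi⟩ := Finset.exists_max_image Finset.univ (fun i => ‖v i‖)
    ⟨i₀, Finset.mem_univ _⟩
  have h0 : 0 < ‖v i‖ := (norm_pos_iff.2 hi₀).trans_le (hi i₀ (Finset.mem_univ _))
  refine le_of_mul_le_mul_right ?_ h0
  rw [← norm_mul, he]
  refine (norm_sum_le _ _).trans (le_trans ?_ (mul_le_mul_of_nonneg_right (hB i) h0.le))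
  rw [Finset.sum_mul]
  refine Finset.sum_le_sum fun j _ => ?_
  rw [norm_mul]
  exact mul_le_mul_of_nonneg_left (hi j (Finset.mem_univ _)) (norm_nonneg _)

theorem polymat_root {n : Type} [Fintype n] [DecidableEq n] (B : Matrix n n ℂ) (r : ℂ) :
    B.charpoly.IsRoot r ↔ ∃ v : n → ℂ, v ≠ 0 ∧ ∀ i, r * v i = ∑ j, B i j * v j := by
  rw [IsRoot.def, Matrix.eval_charpoly, ← Matrix.exists_mulVec_eq_zero_iff]
  refine exists_congr fun v => and_congr_right fun _ => ?_
  rw [Matrix.sub_mulVec, sub_eq_zero, funext_iff]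
  refine forall_congr' fun i => ?_
  rw [Matrix.scalar_apply, Matrix.mulVec_diagonal]
  rfl

theorem polymat_mahler {n : Type} [Fintype n] [DecidableEq n] (B : Matrix n n ℂ) {M : ℝ}
    (hM : 1 ≤ M) (hB : ∀ i, ∑ j, ‖B i j‖ ≤ M) :
    B.charpoly.mahlerMeasure ≤ M ^ Fintype.card n := by
  rw [mahlerMeasure_eq_leadingCoeff_mul_prod_roots, B.charpoly_monic.leadingCoeff, norm_one,
    one_mul]
  have h1 : ∀ s : Multiset ℂ, (∀ a ∈ s, ‖a‖ ≤ M) →
      (s.map fun a => max 1 ‖a‖).prod ≤ M ^ s.card := fun s => by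
    induction s using Multiset.induction_on with
    | empty => simp
    | cons a s ih =>
      intro h
      rw [Multiset.map_cons, Multiset.prod_cons, Multiset.card_cons, pow_succ']
      refine mul_le_mul (max_le hM (h a (Multiset.mem_cons_self _ _)))
        (ih fun b hb => h b (Multiset.mem_cons_of_mem hb)) ?_ (by linarith)
      refine Multiset.prod_nonneg fun x hx => ?_
      obtain ⟨y, -, rfl⟩ := Multiset.mem_map.1 hx
      exact zero_le_one.trans (le_max_left _ _)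
  refine (h1 _ fun a ha => ?_).trans (pow_le_pow_right₀ hM ?_)
  · obtain ⟨v, hv, he⟩ := (polymat_root B a).1 (isRoot_of_mem_roots ha)
    exact polymat_eig B hB hv he
  · exact (card_roots' _).trans (B.charpoly_natDegree_eq_dim).le

theorem polymat_coeff {p : ℂ[X]} {N : ℕ} {M : ℝ} (hN : p.natDegree ≤ N)
    (hp : p.mahlerMeasure ≤ M ^ N) (k : ℕ) : ‖p.coeff k‖ ≤ (2 * M) ^ N := by
  refine (norm_coeff_le_choose_mul_mahlerMeasure k p).trans ?_
  rw [mul_pow]
  refine mul_le_mul ?_ hp p.mahlerMeasure_nonneg (by positivity)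
  have h1 : p.natDegree.choose k ≤ 2 ^ N :=
    (Nat.choose_le_two_pow _ _).trans (Nat.pow_le_pow_right (by norm_num) hN)
  exact_mod_cast h1

theorem polymat_sup {p : ℂ[X]} {K : ℝ} (hK : 1 ≤ K) (h : ∀ z : ℂ, ‖z‖ = 1 → ‖p.eval z‖ ≤ K) :
    p.mahlerMeasure ≤ K := by
  by_cases hp : p = 0
  · rw [hp, mahlerMeasure_zero]; linarith
  have h1 : p.logMahlerMeasure ≤ Real.log K := by
    rw [logMahlerMeasure_def]
    refine Real.circleAverage_mono_on_of_le_circle
      ((circleIntegrable_def _ _ _).2 p.intervalIntegrable_mahlerMeasure) fun z hz => ?_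
    rcases (norm_nonneg (p.eval z)).eq_or_lt with h0 | h0
    · rw [← h0, Real.log_zero]; exact Real.log_nonneg hK
    · exact Real.log_le_log h0 (h z (by simpa using hz))
  have h2 := mahlerMeasure_pos_of_ne_zero hp
  rw [logMahlerMeasure_eq_log_MahlerMeasure] at h1
  exact (Real.log_le_log_iff h2 (by linarith)).1 h1

theorem polymat_low {p : ℂ[X]} {ξ : ℂ} (hξ : ξ ≠ 0) (hr : p.IsRoot ξ) {N k : ℕ} {M : ℝ}
    (hp0 : p ≠ 0) (hN : p.natDegree ≤ N) (hp : p.mahlerMeasure ≤ M ^ N)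
    (hk : ∀ j < k, p.coeff j = 0) : ‖p.coeff k‖ ≤ ‖ξ‖ * (2 * M) ^ N := by
  obtain ⟨R, rfl⟩ := dvd_iff_isRoot.2 hr
  have h1 : ∀ j < k, R.coeff j = 0 := fun j => by
    induction j with
    | zero =>
      intro h
      have := hk 0 h
      simpa [hξ] using this
    | succ j ih =>
      intro h
      have h2 := hk _ h
      rw [sub_mul, coeff_sub, coeff_X_mul, coeff_C_mul, ih (by omega), zero_sub, neg_eq_zero] at h2
      exact (mul_eq_zero.1 h2).resolve_left hξ
  have h2 : ((X - C ξ) * R).coeff k = -(ξ * R.coeff k) := by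
    rw [sub_mul, coeff_sub, coeff_C_mul]
    rcases k with _ | k
    · simp
    · rw [coeff_X_mul, h1 k (Nat.lt_succ_self _), zero_sub]
  rw [h2, norm_neg, norm_mul]
  refine mul_le_mul_of_nonneg_left (polymat_coeff ?_ (le_trans ?_ hp) k) (norm_nonneg _)
  · exact (natDegree_le_of_dvd (dvd_mul_left _ _) hp0).trans hN
  · rw [mahlerMeasure_mul, mahlerMeasure_X_sub_C]
    exact le_mul_of_one_le_left R.mahlerMeasure_nonneg (le_max_left _ _)

/-- From a matrix over `ℤ[X]` with a small nonzero eigenvalue at `θ` to a polynomial.  Hint: let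
`Q` be the lowest nonzero coefficient of `A.charpoly : ℤ[X][Y]`.  Evaluate at `z`
(`Matrix.charpoly_map`): the roots are eigenvalues, of modulus `≤ M` (row sums), so every
coefficient has modulus `≤ (2 M) ^ n` (`norm_coeff_le_choose_mul_mahlerMeasure` and
`mahlerMeasure_eq_leadingCoeff_mul_prod_roots`); this bounds the Mahler measure of `Q` (a circle
average of `log ‖Q z‖`; `logMahlerMeasure_def`) and gives
`‖Q θ‖ ≤ ‖ξ‖ * n * (2 M) ^ n * M ^ n`.  Degrees: expand `det (charmatrix A)` (`Matrix.det_apply'`)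
and use that polynomials in `Y` all of whose coefficients have degree `≤ δ` form a filtration. -/
theorem poly_of_matrix {n : Type} [Fintype n] [DecidableEq n] (A : Matrix n n ℤ[X]) (θ ξ : ℂ)
    (b : n → ℂ) (hb : b ≠ 0) (hξ : ξ ≠ 0) {δ : ℕ} {M : ℝ} (hM : 1 ≤ M)
    (hδ : ∀ i j, (A i j).natDegree ≤ δ)
    (hA : ∀ z : ℂ, (‖z‖ = 1 ∨ z = θ) → ∀ i, ∑ j, ‖aeval z (A i j)‖ ≤ M)
    (he : ∀ i, ξ * b i = ∑ j, aeval θ (A i j) * b j) :
    ∃ Q : ℤ[X], Q ≠ 0 ∧ Q.natDegree ≤ Fintype.card n * δ ∧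
      (Q.map (Int.castRingHom ℂ)).mahlerMeasure ≤ (2 * M) ^ Fintype.card n ∧
      ‖aeval θ Q‖ ≤ ‖ξ‖ * (2 * M) ^ (3 * Fintype.card n) := by
  have h0 : A.charpoly ≠ 0 := A.charpoly_monic.ne_zero
  have hc : ∀ (z : ℂ) (k : ℕ), (A.map (aeval z : ℤ[X] →ₐ[ℤ] ℂ).toRingHom).charpoly.coeff k =
      aeval z (A.charpoly.coeff k) := fun z k => by
    rw [Matrix.charpoly_map, coeff_map]
    rfl
  have hm : ∀ z : ℂ, (‖z‖ = 1 ∨ z = θ) →
      (A.map (aeval z : ℤ[X] →ₐ[ℤ] ℂ).toRingHom).charpoly.mahlerMeasure ≤ M ^ Fintype.card n :=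
    fun z hz => polymat_mahler _ hM (hA z hz)
  have h1 : (1 : ℝ) ≤ 2 * M := by linarith
  refine ⟨A.charpoly.coeff A.charpoly.natTrailingDegree,
    trailingCoeff_nonzero_iff_nonzero.2 h0, polymat_deg A hδ _,
    polymat_sup (one_le_pow₀ h1) fun z hz => ?_, ?_⟩
  · rw [eval_map, ← algebraMap_int_eq, ← aeval_def, ← hc]
    exact polymat_coeff (Matrix.charpoly_natDegree_eq_dim _).le (hm z (.inl hz)) _
  · rw [← hc]
    refine (polymat_low hξ ((polymat_root _ ξ).2 ⟨b, hb, he⟩) (Matrix.charpoly_monic _).ne_zero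
      (Matrix.charpoly_natDegree_eq_dim _).le (hm θ (.inr rfl)) fun j hj => ?_).trans ?_
    · exact (hc θ j).trans (by rw [coeff_eq_zero_of_lt_natTrailingDegree hj, map_zero])
    · exact mul_le_mul_of_nonneg_left (pow_le_pow_right₀ h1 (by omega)) (norm_nonneg _)

end GPC96

end

-- part MP_57341d_ag.H96.Rep
section

/-! Numbers of bounded degree and height in a field of transcendence degree one. -/

open Polynomial

namespace GPC96

/-- A size structure: `Rp d e M ξ` means that `ξ` has degree `≤ d` in the numbers algebraic over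
`ℚ(θ)`, degree `≤ e` in the algebraic constants, and length `≤ M`. -/
structure Size (Rp : ℕ → ℕ → ℝ → ℂ → Prop) : Prop where
  int : ∀ z : ℤ, Rp 0 0 |(z : ℝ)| z
  add : ∀ {d e M M' x y}, Rp d e M x → Rp d e M' y → Rp d e (M + M') (x + y)
  mul : ∀ {d e M d' e' M' x y}, Rp d e M x → Rp d' e' M' y → Rp (d + d') (e + e') (M * M') (x * y)
  mono : ∀ {d e M d' e' M' x}, Rp d e M x → d ≤ d' → e ≤ e' → M ≤ M' → Rp d' e' M' x

/-- Finitely many elements integral over `A` act on a finite family containing `1`.  Hint: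
`Algebra.adjoin A (range x)` is a finite `A`-module (`fg_adjoin_of_finite`). -/
theorem exists_family {A : Type} [CommRing A] [Algebra A ℂ] {ι : Type} [Finite ι] (x : ι → ℂ)
    (hx : ∀ i, IsIntegral A (x i)) :
    ∃ (n : ℕ) (b : Fin (n + 1) → ℂ) (m : ι → Matrix (Fin (n + 1)) (Fin (n + 1)) A), b 0 = 1 ∧
      ∀ i j, x i * b j = ∑ k, m i j k • b k := by
  have h1 := fg_adjoin_of_finite (R := A) (Set.finite_range x) (by rintro _ ⟨i, rfl⟩; exact hx i)
  obtain ⟨n, s, hs⟩ := Submodule.fg_iff_exists_fin_generating_family.mp h1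
  let b : Fin (n + 1) → ℂ := Fin.cons 1 s
  have hb : ∀ j, b j ∈ Algebra.adjoin A (Set.range x) := by
    intro j
    refine Fin.cases (one_mem _) (fun k => ?_) j
    have : s k ∈ Submodule.span A (Set.range s) := Submodule.subset_span ⟨k, rfl⟩
    rw [hs] at this
    exact this
  have h2 : ∀ i j, ∃ c : Fin (n + 1) → A, ∑ k, c k • b k = x i * b j := by
    intro i j
    rw [← Submodule.mem_span_range_iff_exists_fun]
    have h3 : x i * b j ∈ Submodule.span A (Set.range s) := by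
      rw [hs]
      exact (Algebra.adjoin A (Set.range x)).mul_mem (Algebra.subset_adjoin ⟨i, rfl⟩) (hb j)
    refine Submodule.span_mono ?_ h3
    rintro _ ⟨k, rfl⟩
    exact ⟨k.succ, rfl⟩
  choose m hm using h2
  exact ⟨n, b, fun i => Matrix.of (m i), rfl, fun i j => (hm i j).symm⟩

theorem rep_common {A : Type} [CommRing A] [IsDomain A] [Algebra A ℂ] {ι : Type} [Finite ι]
    (x : ι → ℂ) (hx : ∀ i, IsAlgebraic A (x i)) : ∃ q : A, q ≠ 0 ∧ ∀ i, IsIntegral A (q • x i) := by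
  classical
  have := Fintype.ofFinite ι
  choose q hq h using fun i => (hx i).exists_integral_multiple
  refine ⟨∏ i, q i, Finset.prod_ne_zero_iff.mpr fun i _ => hq i, fun i => ?_⟩
  rw [← Finset.prod_erase_mul _ _ (Finset.mem_univ i), mul_smul]
  exact (h i).smul _

theorem rep_poly (θ : ℂ) (hθ : Transcendental ℚ θ) {ι : Type} [Finite ι] (x : ι → ℂ)
    (hx : ∀ i, IsAlgebraic (Algebra.adjoin ℚ {θ}) (x i)) :
    ∃ (q : ℤ[X]) (n : ℕ) (b : Fin (n + 1) → ℂ) (m : ι → Matrix (Fin (n + 1)) (Fin (n + 1)) ℤ[X]),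
      aeval θ q ≠ 0 ∧ b 0 = 1 ∧ ∀ i j, aeval θ q * x i * b j = ∑ k, aeval θ (m i j k) * b k := by
  let : Algebra ℤ[X] ℂ := (aeval θ : ℤ[X] →ₐ[ℤ] ℂ).toRingHom.toAlgebra
  let t : Algebra.adjoin ℚ {θ} := ⟨θ, Algebra.self_mem_adjoin_singleton ℚ θ⟩
  let : Algebra ℤ[X] (Algebra.adjoin ℚ {θ}) :=
    (aeval t : ℤ[X] →ₐ[ℤ] Algebra.adjoin ℚ {θ}).toRingHom.toAlgebra
  have : IsScalarTower ℤ[X] (Algebra.adjoin ℚ {θ}) ℂ :=
    IsScalarTower.of_algebraMap_eq fun f => aeval_algebraMap_apply ℂ t f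
  have h1 : ∀ a ∈ Algebra.adjoin ℚ {θ}, IsAlgebraic ℤ[X] a := by
    intro a ha
    induction ha using Algebra.adjoin_induction with
    | mem a ha =>
      rw [Set.mem_singleton_iff.mp ha]
      have h2 : θ = algebraMap ℤ[X] ℂ X := (aeval_X (R := ℤ) θ).symm
      rw [h2]
      exact isAlgebraic_algebraMap _
    | algebraMap r =>
      refine IsAlgebraic.of_smul (y := C (r.den : ℤ))
        (mem_nonZeroDivisors_of_ne_zero (C_ne_zero.mpr (by exact_mod_cast r.den_nz))) ?_
      have h2 : (C (r.den : ℤ) : ℤ[X]) • algebraMap ℚ ℂ r = algebraMap ℤ[X] ℂ (C r.num) := by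
        change aeval θ (C (r.den : ℤ)) * _ = aeval θ (C r.num)
        rw [aeval_C, aeval_C]
        have h3 : ((r.den : ℚ) : ℂ) * (r : ℂ) = ((r.num : ℚ) : ℂ) := by
          rw [← Rat.cast_mul, Rat.den_mul_eq_num]
        simpa using h3
      rw [h2]
      exact isAlgebraic_algebraMap _
    | add a b _ _ ha hb => exact ha.add hb
    | mul a b _ _ ha hb => exact ha.mul hb
  have : Algebra.IsAlgebraic ℤ[X] (Algebra.adjoin ℚ {θ}) :=
    ⟨fun a => (isAlgebraic_algebraMap_iff Subtype.val_injective).mp (h1 a a.2)⟩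
  obtain ⟨q, hq, h⟩ := rep_common (A := ℤ[X]) x fun i => (hx i).restrictScalars ℤ[X]
  obtain ⟨n, b, m, hb, hm⟩ := exists_family _ h
  refine ⟨q, n, b, m, fun h0 => hθ ?_, hb, hm⟩
  exact IsAlgebraic.extendScalars (R := ℤ) (algebraMap ℤ ℚ).injective_int ⟨q, hq, h0⟩

theorem rep_bound (θ : ℂ) {n J : Type} [Fintype n] [Finite J] (G : J → Matrix n n ℤ[X]) :
    ∃ (c : ℕ) (K : ℝ), (∀ l i j, (G l i j).natDegree ≤ c) ∧
      ∀ l, ∀ z : ℂ, (‖z‖ = 1 ∨ z = θ) → ∀ i, ∑ j, ‖aeval z (G l i j)‖ ≤ K := by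
  obtain ⟨c, hc⟩ := (Set.finite_range fun w : J × n × n => (G w.1 w.2.1 w.2.2).natDegree).bddAbove
  have h1 : ∀ w : J × n, ∃ K : ℝ, ∀ z : ℂ, (‖z‖ = 1 ∨ z = θ) →
      ∑ j, ‖aeval z (G w.1 w.2 j)‖ ≤ K := by
    intro w
    have h2 : Continuous fun z : ℂ => ∑ j, ‖aeval z (G w.1 w.2 j)‖ :=
      continuous_finsetSum _ fun j _ => (Polynomial.continuous_aeval _).norm
    obtain ⟨K, hK⟩ := ((isCompact_sphere (0 : ℂ) 1).insert θ).bddAbove_image h2.continuousOn
    refine ⟨K, fun z hz => hK ⟨z, ?_, rfl⟩⟩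
    rcases hz with hz | hz
    · exact Or.inr (mem_sphere_zero_iff_norm.mpr hz)
    · exact Or.inl hz
  choose K hK using h1
  obtain ⟨K0, hK0⟩ := (Set.finite_range K).bddAbove
  exact ⟨c, K0, fun l i j => hc ⟨(l, i, j), rfl⟩,
    fun l z hz i => (hK (l, i) z hz).trans (hK0 ⟨_, rfl⟩)⟩

/-- The size predicate given by matrices over `ℤ[X]`. -/
def repM {n : Type} [Fintype n] (θ s t : ℂ) (b : n → ℂ) (c : ℕ) (K : ℝ) (d e : ℕ) (M : ℝ)
    (ξ : ℂ) : Prop :=
  0 ≤ M ∧ ∃ A : Matrix n n ℤ[X], (∀ i j, (A i j).natDegree ≤ c * d) ∧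
    (∀ z : ℂ, (‖z‖ = 1 ∨ z = θ) → ∀ i, ∑ j, ‖aeval z (A i j)‖ ≤ M * K ^ (d + e)) ∧
    ∀ i, s ^ d * t ^ e * ξ * b i = ∑ j, aeval θ (A i j) * b j

theorem rep_size {n : Type} [Fintype n] {θ s t : ℂ} {b : n → ℂ} {c : ℕ} {K : ℝ} (hK : 0 ≤ K)
    (h1 : repM θ s t b c K 1 0 1 1) (h2 : repM θ s t b c K 0 1 1 1) :
    Size (repM θ s t b c K) := by
  classical
  have hmul : ∀ {d e M d' e' M' x y}, repM θ s t b c K d e M x → repM θ s t b c K d' e' M' y →
      repM θ s t b c K (d + d') (e + e') (M * M') (x * y) := by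
    rintro d e M d' e' M' x y ⟨hM, A, a1, a2, a3⟩ ⟨hM', B, b1, b2, b3⟩
    refine ⟨mul_nonneg hM hM', A * B, fun i j => ?_, fun z hz i => ?_, fun i => ?_⟩
    · rw [Matrix.mul_apply]
      refine natDegree_sum_le_of_forall_le _ _ fun k _ => natDegree_mul_le.trans ?_
      rw [mul_add]
      exact add_le_add (a1 i k) (b1 k j)
    · calc ∑ j, ‖aeval z ((A * B) i j)‖
          ≤ ∑ j, ∑ k, ‖aeval z (A i k)‖ * ‖aeval z (B k j)‖ := by
            refine Finset.sum_le_sum fun j _ => ?_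
            rw [Matrix.mul_apply, map_sum]
            refine (norm_sum_le _ _).trans (le_of_eq ?_)
            simp only [map_mul, norm_mul]
        _ = ∑ k, ‖aeval z (A i k)‖ * ∑ j, ‖aeval z (B k j)‖ := by
            rw [Finset.sum_comm]; simp only [Finset.mul_sum]
        _ ≤ ∑ k, ‖aeval z (A i k)‖ * (M' * K ^ (d' + e')) :=
            Finset.sum_le_sum fun k _ => mul_le_mul_of_nonneg_left (b2 z hz k) (norm_nonneg _)
        _ ≤ M * K ^ (d + e) * (M' * K ^ (d' + e')) := by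
            rw [← Finset.sum_mul]
            exact mul_le_mul_of_nonneg_right (a2 z hz i) (by positivity)
        _ = M * M' * K ^ (d + d' + (e + e')) := by ring
    · calc s ^ (d + d') * t ^ (e + e') * (x * y) * b i
          = s ^ d' * t ^ e' * y * (s ^ d * t ^ e * x * b i) := by ring
        _ = ∑ k, aeval θ (A i k) * (s ^ d' * t ^ e' * y * b k) := by
            rw [a3, Finset.mul_sum]
            exact Finset.sum_congr rfl fun k _ => by ring
        _ = ∑ j, aeval θ ((A * B) i j) * b j := by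
            simp only [b3, Finset.mul_sum, Matrix.mul_apply, map_sum, map_mul, Finset.sum_mul]
            rw [Finset.sum_comm]
            simp only [mul_assoc]
  refine ⟨fun z => ?_, ?_, hmul, ?_⟩
  · refine ⟨abs_nonneg _, Matrix.diagonal fun _ => C z, fun i j => ?_, fun w _ i => ?_,
      fun i => ?_⟩
    · rw [Matrix.diagonal_apply]
      split_ifs <;> simp
    · simp [Matrix.diagonal_apply, apply_ite (aeval w : ℤ[X] → ℂ), apply_ite norm]
    · simp [Matrix.diagonal_apply, apply_ite (aeval θ : ℤ[X] → ℂ)]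
  · rintro d e M M' x y ⟨hM, A, a1, a2, a3⟩ ⟨hM', B, b1, b2, b3⟩
    refine ⟨add_nonneg hM hM', A + B, fun i j => ?_, fun z hz i => ?_, fun i => ?_⟩
    · exact (natDegree_add_le _ _).trans (max_le (a1 i j) (b1 i j))
    · rw [add_mul]
      refine le_trans ?_ (add_le_add (a2 z hz i) (b2 z hz i))
      rw [← Finset.sum_add_distrib]
      refine Finset.sum_le_sum fun j _ => ?_
      rw [Matrix.add_apply, map_add]
      exact norm_add_le _ _
    · simp only [Matrix.add_apply, map_add, add_mul, mul_add, Finset.sum_add_distrib, a3, b3]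
  · intro d e M d' e' M' x h hd he hM
    have h3 : repM θ s t b c K d' e M x := by
      induction d', hd using Nat.le_induction with
      | base => exact h
      | succ k _ ih => simpa using hmul ih h1
    have h4 : repM θ s t b c K d' e' M x := by
      induction e', he using Nat.le_induction with
      | base => exact h3
      | succ k _ ih => simpa using hmul ih h2
    obtain ⟨h0, A, a1, a2, a3⟩ := h4
    exact ⟨h0.trans hM, A, a1, fun z hz i =>
      (a2 z hz i).trans (mul_le_mul_of_nonneg_right hM (by positivity)), a3⟩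

/-- Hint: choose `q : ℤ[X]`, `q θ ≠ 0`, with `q θ * x i` integral over `ℤ[X]` (acting through
`aeval θ`; `IsAlgebraic.exists_integral_multiple` or `Algebra.IsAlgebraic.exists_integral_multiples`
after clearing denominators between `ℚ[θ]` and `ℤ[θ]`), and an integer `κ ≠ 0` with `κ * y j`
integral over `ℤ`.  `exists_family` gives `β` (over `ℤ`) and `γ` (over `ℤ[X]`); let
`b (μ, ν) = β μ * γ ν`.  Define `Rp d e M ξ` as: there is a matrix `A` over `ℤ[X]` with entries
of degree `≤ c d`, row sums of `‖A i j (z)‖` at most `M * K ^ (d + e)` for `‖z‖ = 1` or `z = θ`,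
and `(q θ ^ d * κ ^ e * ξ) * b i = ∑ j, A i j (θ) * b j`, with `c, K ≥ 1` large (also `0 ≤ M`).
Conclude with `poly_of_matrix`. -/
theorem exists_size (θ : ℂ) (hθ : Transcendental ℚ θ) {ι κ : Type} [Finite ι] [Finite κ]
    (x : ι → ℂ) (y : κ → ℂ) (hx : ∀ i, IsAlgebraic (Algebra.adjoin ℚ {θ}) (x i))
    (hy : ∀ j, IsAlgebraic ℚ (y j)) :
    ∃ (Rp : ℕ → ℕ → ℝ → ℂ → Prop) (c : ℕ), Size Rp ∧ (∀ i, Rp 1 0 1 (x i)) ∧
      (∀ j, Rp 0 1 1 (y j)) ∧ ∀ d e M ξ, 1 ≤ M → Rp d e M ξ → ξ ≠ 0 →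
        ∃ Q : ℤ[X], Q ≠ 0 ∧ Q.natDegree ≤ c * d ∧
          (Q.map (Int.castRingHom ℂ)).mahlerMeasure ≤ (Real.exp (d + e + 1) * M) ^ c ∧
          ‖aeval θ Q‖ ≤ ‖ξ‖ * (Real.exp (d + e + 1) * M) ^ c := by
  classical
  obtain ⟨q, n, γ, m, hq, hγ, hm⟩ := rep_poly θ hθ (fun o : Option ι => o.elim 1 x) (by
    rintro (_ | i)
    · exact isAlgebraic_one
    · exact hx i)
  obtain ⟨k, hk, hk'⟩ := rep_common (A := ℤ) (fun o : Option κ => o.elim 1 y) (by
    rintro (_ | j)
    · exact isAlgebraic_one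
    · exact (IsFractionRing.isAlgebraic_iff ℤ ℚ ℂ).mpr (hy j))
  obtain ⟨n', β, m', hβ, hm'⟩ := exists_family _ hk'
  let b : Fin (n' + 1) × Fin (n + 1) → ℂ := fun i => β i.1 * γ i.2
  let G : Option ι → Matrix (Fin (n' + 1) × Fin (n + 1)) (Fin (n' + 1) × Fin (n + 1)) ℤ[X] :=
    fun l i j => if i.1 = j.1 then m l i.2 j.2 else 0
  let G' : Option κ → Matrix (Fin (n' + 1) × Fin (n + 1)) (Fin (n' + 1) × Fin (n + 1)) ℤ[X] :=
    fun l i j => if i.2 = j.2 then C (m' l i.1 j.1) else 0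
  obtain ⟨c, K1, hc, hK1⟩ := rep_bound θ G
  obtain ⟨-, K2, -, hK2⟩ := rep_bound θ G'
  let K : ℝ := max (max K1 K2) (max 1 (max ‖aeval θ q‖ ‖(k : ℂ)‖))
  have k1 : K1 ≤ K := (le_max_left _ _).trans (le_max_left _ _)
  have k2 : K2 ≤ K := (le_max_right _ _).trans (le_max_left _ _)
  have k3 : 1 ≤ K := (le_max_left _ _).trans (le_max_right _ _)
  have k4 : ‖aeval θ q‖ ≤ K :=
    ((le_max_left _ _).trans (le_max_right _ _)).trans (le_max_right _ _)
  have k5 : ‖(k : ℂ)‖ ≤ K :=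
    ((le_max_right _ _).trans (le_max_right _ _)).trans (le_max_right _ _)
  have r1 : ∀ l : Option ι, repM θ (aeval θ q) k b c K 1 0 1 (l.elim 1 x) := by
    intro l
    refine ⟨zero_le_one, G l, fun i j => by simpa using hc l i j,
      fun z hz i => by simpa using (hK1 l z hz i).trans k1, fun i => ?_⟩
    have h1 := hm l i.2
    simp only [b, G, Fintype.sum_prod_type, apply_ite (aeval θ : ℤ[X] → ℂ), map_zero, ite_mul,
      zero_mul, pow_one, pow_zero, mul_one]
    rw [Finset.sum_comm]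
    simp only [Finset.sum_ite_eq, Finset.mem_univ, if_true]
    calc _ = β i.1 * (aeval θ q * l.elim 1 x * γ i.2) := by ring
      _ = _ := by
        rw [h1, Finset.mul_sum]
        exact Finset.sum_congr rfl fun j _ => by ring
  have r2 : ∀ l : Option κ, repM θ (aeval θ q) k b c K 0 1 1 (l.elim 1 y) := by
    intro l
    refine ⟨zero_le_one, G' l, fun i j => ?_,
      fun z hz i => by simpa using (hK2 l z hz i).trans k2, fun i => ?_⟩
    · simp only [G']
      split_ifs <;> simp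
    have h1 := hm' l i.1
    simp only [zsmul_eq_mul] at h1
    simp only [b, G', Fintype.sum_prod_type, apply_ite (aeval θ : ℤ[X] → ℂ), map_zero, ite_mul,
      zero_mul, pow_one, pow_zero, one_mul, Finset.sum_ite_eq, Finset.mem_univ, if_true,
      eq_intCast, map_intCast]
    calc _ = ((k : ℂ) * l.elim 1 y * β i.1) * γ i.2 := by ring
      _ = _ := by
        rw [h1, Finset.sum_mul]
        exact Finset.sum_congr rfl fun j _ => by ring
  let N := Fintype.card (Fin (n' + 1) × Fin (n + 1))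
  obtain ⟨L, hL⟩ := exists_nat_ge (2 * K)
  refine ⟨repM θ (aeval θ q) k b c K, N * c + (L + 1) * (3 * N + 1),
    rep_size (by linarith) (r1 none) (r2 none), fun i => r1 (some i), fun j => r2 (some j), ?_⟩
  rintro d e M ξ hM ⟨-, A, a1, a2, a3⟩ hξ
  have hb : b ≠ 0 := fun h => by simpa [b, hβ, hγ] using congrFun h (0, 0)
  have hKp : 1 ≤ K ^ (d + e) := one_le_pow₀ k3
  obtain ⟨Q, q1, q2, q3, q4⟩ := poly_of_matrix A θ _ b hb
    (mul_ne_zero (mul_ne_zero (pow_ne_zero d hq) (pow_ne_zero e (Int.cast_ne_zero.mpr hk))) hξ)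
    (one_le_mul_of_one_le_of_one_le hM hKp) a1 a2 a3
  set E := Real.exp (d + e + 1) * M with hE
  have e0 : 1 ≤ Real.exp (d + e + 1) := Real.one_le_exp (by positivity)
  have e1 : 1 ≤ E := one_le_mul_of_one_le_of_one_le e0 hM
  have e2 : 2 * (M * K ^ (d + e)) ≤ E ^ (L + 1) := by
    have h1 : 2 * K ≤ Real.exp (L + 1 : ℕ) := by
      have := Real.add_one_le_exp ((L + 1 : ℕ) : ℝ)
      push_cast at this ⊢
      linarith
    have h2 : 2 * K ^ (d + e) ≤ (2 * K) ^ (d + e + 1) := by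
      rw [mul_pow]
      exact mul_le_mul (le_self_pow₀ one_le_two (by omega)) (pow_le_pow_right₀ k3 (by omega))
        (by positivity) (by positivity)
    have h3 : (2 * K) ^ (d + e + 1) ≤ Real.exp (d + e + 1) ^ (L + 1) := by
      refine (pow_le_pow_left₀ (by linarith) h1 _).trans (le_of_eq ?_)
      rw [← Real.exp_nat_mul, ← Real.exp_nat_mul]
      push_cast
      ring_nf
    rw [hE, mul_pow, mul_left_comm, mul_comm]
    exact mul_le_mul (h2.trans h3) (le_self_pow₀ hM (by omega)) (by linarith) (by positivity)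
  have e3 : K ^ (d + e) ≤ E ^ (L + 1) := by nlinarith
  refine ⟨Q, q1, q2.trans ?_, q3.trans ?_, q4.trans ?_⟩
  · rw [← mul_assoc]
    exact Nat.mul_le_mul_right _ (Nat.le_add_right _ _)
  · refine (pow_le_pow_left₀ (by positivity) e2 _).trans ?_
    rw [← pow_mul]
    exact pow_le_pow_right₀ e1 (by nlinarith)
  · have h1 : ‖aeval θ q ^ d * (k : ℂ) ^ e * ξ‖ ≤ ‖ξ‖ * E ^ (L + 1) := by
      rw [norm_mul, norm_mul, norm_pow, norm_pow, mul_comm]
      refine mul_le_mul_of_nonneg_left (le_trans ?_ e3) (norm_nonneg _)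
      rw [pow_add]
      gcongr
    refine (mul_le_mul h1 (pow_le_pow_left₀ (by positivity) e2 _) (by positivity)
      (by positivity)).trans ?_
    rw [mul_assoc, ← pow_mul, ← pow_add]
    exact mul_le_mul_of_nonneg_left (pow_le_pow_right₀ e1 (by nlinarith)) (norm_nonneg _)

end GPC96

end
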