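import Pool.Agent.MP_57341d_ag.Mg.H96_Constr
import Pool.Agent.MP_57341d_ag.Mg.H96_Rep
import Mathlib
import Pool.Agent.MP_57341d_ag.Mg.H96_GenSpan

-- part MP_57341d_ag.H96.DerRep
section

/-! Sizes of the derivatives of the auxiliary polynomial. -/

open MvPolynomial

namespace GPC96

/-- Polynomials of type `(d, e, M)`: the closure of the generators under the rules of `Size`. -/
inductive DerRepGd (P : Par) (θ : ℂ) : ℕ → ℕ → ℝ → R5 → Prop
  | int (z : ℤ) : DerRepGd P θ 0 0 |(z : ℝ)| (C (z : ℂ))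
  | th : DerRepGd P θ 1 0 1 (C θ)
  | ca : DerRepGd P θ 1 0 1 (C P.a)
  | cr : DerRepGd P θ 1 0 1 (C P.ρ)
  | cb : DerRepGd P θ 1 0 1 (C (P.ρ * P.b))
  | x4 : DerRepGd P θ 1 0 1 (X 4)
  | cg : DerRepGd P θ 0 1 1 (C (P.g / 2))
  | cg' : DerRepGd P θ 0 1 1 (C (P.g' / 2))
  | x0 : DerRepGd P θ 0 1 1 (X 0)
  | x1 : DerRepGd P θ 0 1 1 (X 1)
  | x2 : DerRepGd P θ 0 1 1 (X 2)
  | x3 : DerRepGd P θ 0 1 1 (X 3)
  | add {d e M M' x y} : DerRepGd P θ d e M x → DerRepGd P θ d e M' y →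
      DerRepGd P θ d e (M + M') (x + y)
  | mul {d e M d' e' M' x y} : DerRepGd P θ d e M x → DerRepGd P θ d' e' M' y →
      DerRepGd P θ (d + d') (e + e') (M * M') (x * y)
  | mono {d e M d' e' M' x} : DerRepGd P θ d e M x → d ≤ d' → e ≤ e' → M ≤ M' →
      DerRepGd P θ d' e' M' x

variable {P : Par} {θ : ℂ}

theorem derrep_nonneg {d e : ℕ} {M : ℝ} {f : R5} (h : DerRepGd P θ d e M f) : 0 ≤ M := by
  induction h with
  | int z => exact abs_nonneg _
  | add _ _ h1 h2 => exact add_nonneg h1 h2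
  | mul _ _ h1 h2 => exact mul_nonneg h1 h2
  | mono _ _ _ h h1 => exact h1.trans h
  | _ => exact zero_le_one

theorem derrep_zero (d e : ℕ) {M : ℝ} (hM : 0 ≤ M) : DerRepGd P θ d e M 0 := by
  have h := (DerRepGd.int (P := P) (θ := θ) 0).mono (Nat.zero_le d) (Nat.zero_le e)
    (M' := M) (by simpa using hM)
  simpa using h

theorem derrep_one : DerRepGd P θ 0 0 1 1 := by
  simpa using DerRepGd.int (P := P) (θ := θ) 1

theorem derrep_neg {d e : ℕ} {M : ℝ} {f : R5} (h : DerRepGd P θ d e M f) :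
    DerRepGd P θ d e M (-f) := by
  simpa using (DerRepGd.int (P := P) (θ := θ) (-1)).mul h

theorem derrep_six {d e : ℕ} {M : ℝ} {f : R5} (h : DerRepGd P θ d e M f) :
    DerRepGd P θ d e (6 * M) (6 * f) := by
  have h6 := (DerRepGd.int (P := P) (θ := θ) 6).mul h
  have e1 : |((6 : ℤ) : ℝ)| = 6 := by norm_num
  have e2 : (C (((6 : ℤ) : ℂ)) : R5) = 6 := by
    rw [show ((6 : ℤ) : ℂ) = ((6 : ℕ) : ℂ) by norm_num, map_natCast]; norm_num
  rw [e1, e2, zero_add, zero_add] at h6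
  exact h6

theorem derrep_pow {d e : ℕ} {f : R5} (h : DerRepGd P θ d e 1 f) (n : ℕ) :
    DerRepGd P θ (d * n) (e * n) 1 (f ^ n) := by
  induction n with
  | zero => simpa using derrep_one
  | succ n ih => simpa [pow_succ, mul_add] using ih.mul h

theorem derrep_sum {ι : Type} (s : Finset ι) (f : ι → R5) {d e : ℕ} {H : ℝ}
    (h : ∀ i, DerRepGd P θ d e H (f i)) : DerRepGd P θ d e (s.card * H) (∑ i ∈ s, f i) := by
  classical
  induction s using Finset.induction_on with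
  | empty => simpa using derrep_zero d e le_rfl
  | insert i s hi ih =>
    rw [Finset.sum_insert hi, Finset.card_insert_of_notMem hi]
    have := (h i).add ih
    convert this using 1
    push_cast; ring

/-- A derivation that behaves well on the variables raises the type in a controlled way. -/
theorem derrep_der (D : Derivation ℂ R5 R5) (h0 : DerRepGd P θ 0 2 7 (D (X 0)))
    (h1 : DerRepGd P θ 0 2 7 (D (X 1))) (h2 : DerRepGd P θ 0 2 7 (D (X 2)))
    (h3 : DerRepGd P θ 0 2 7 (D (X 3))) (h4 : DerRepGd P θ 1 1 7 (D (X 4)))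
    {d e : ℕ} {M : ℝ} {f : R5} (h : DerRepGd P θ d e M f) :
    DerRepGd P θ d (e + 1) (7 * (d + e) * M) (D f) := by
  induction h with
  | int z => rw [der_C]; exact derrep_zero _ _ (by simp)
  | th => rw [der_C]; exact derrep_zero _ _ (by simp)
  | ca => rw [der_C]; exact derrep_zero _ _ (by simp)
  | cr => rw [der_C]; exact derrep_zero _ _ (by simp)
  | cb => rw [der_C]; exact derrep_zero _ _ (by simp)
  | cg => rw [der_C]; exact derrep_zero _ _ (by simp)
  | cg' => rw [der_C]; exact derrep_zero _ _ (by simp)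
  | x4 => simpa using h4
  | x0 => simpa using h0
  | x1 => simpa using h1
  | x2 => simpa using h2
  | x3 => simpa using h3
  | add _ _ i1 i2 =>
    rw [map_add, mul_add]
    exact i1.add i2
  | @mul d e M d' e' M' x y hx hy i1 i2 =>
    rw [Derivation.leibniz, smul_eq_mul, smul_eq_mul]
    have a1 := (hx.mul i2).mono le_rfl (show e + (e' + 1) ≤ e + e' + 1 by omega) le_rfl
    have a2 := (hy.mul i1).mono (show d' + d ≤ d + d' by omega)
      (show e' + (e + 1) ≤ e + e' + 1 by omega) le_rfl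
    convert a1.add a2 using 1
    push_cast; ring
  | @mono d e M d' e' M' x hx hd he hM i1 =>
    refine i1.mono hd (by omega) ?_
    have h0 := derrep_nonneg hx
    have hd' : (d : ℝ) ≤ d' := by exact_mod_cast hd
    have he' : (e : ℝ) ≤ e' := by exact_mod_cast he
    have : (0 : ℝ) ≤ d := Nat.cast_nonneg _
    have : (0 : ℝ) ≤ e := Nat.cast_nonneg _
    gcongr

theorem derrep_cubic {c : ℂ} {x : R5} (hc : DerRepGd P θ 0 1 1 (C c)) (hx : DerRepGd P θ 0 1 1 x) :
    DerRepGd P θ 0 2 7 (6 * x ^ 2 - C c) := by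
  have a1 := derrep_six (hx.mul hx)
  have a2 := (derrep_neg hc).mono le_rfl (show 1 ≤ 1 + 1 by omega) le_rfl
  have := a1.add a2
  rw [sub_eq_add_neg, pow_two]
  convert this using 1
  norm_num

theorem derrep_D1 {d e : ℕ} {M : ℝ} {f : R5} (h : DerRepGd P θ d e M f) :
    DerRepGd P θ d (e + 1) (7 * (d + e) * M) (D1 P f) := by
  refine derrep_der (D1 P) ?_ ?_ ?_ ?_ ?_ h
  · rw [D1_X0]; exact DerRepGd.x1.mono le_rfl (by omega) (by norm_num)
  · rw [D1_X1]; exact derrep_cubic DerRepGd.cg DerRepGd.x0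
  · rw [D1_X2]; exact derrep_zero _ _ (by norm_num)
  · rw [D1_X3]; exact derrep_zero _ _ (by norm_num)
  · rw [D1_X4, sub_eq_add_neg]
    have a1 := (derrep_neg (DerRepGd.x0 (P := P) (θ := θ))).mono (Nat.zero_le 1) le_rfl le_rfl
    have a2 := (derrep_neg (DerRepGd.ca (P := P) (θ := θ))).mono le_rfl (Nat.zero_le 1) le_rfl
    exact (a1.add a2).mono le_rfl le_rfl (by norm_num)

theorem derrep_D2 {d e : ℕ} {M : ℝ} {f : R5} (h : DerRepGd P θ d e M f) :
    DerRepGd P θ d (e + 1) (7 * (d + e) * M) (D2 P f) := by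
  refine derrep_der (D2 P) ?_ ?_ ?_ ?_ ?_ h
  · rw [D2_X0]; exact derrep_zero _ _ (by norm_num)
  · rw [D2_X1]; exact derrep_zero _ _ (by norm_num)
  · rw [D2_X2]; exact DerRepGd.x3.mono le_rfl (by omega) (by norm_num)
  · rw [D2_X3]; exact derrep_cubic DerRepGd.cg' DerRepGd.x2
  · rw [D2_X4, mul_add, ← C_mul]
    have a1 := (DerRepGd.cr (P := P) (θ := θ)).mul DerRepGd.x2
    have a2 := (DerRepGd.cb (P := P) (θ := θ)).mono le_rfl (Nat.zero_le 1) le_rfl
    exact (a1.add a2).mono le_rfl le_rfl (by norm_num)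

theorem derrep_iter (T : R5 → R5)
    (hT : ∀ {d e : ℕ} {M : ℝ} {f : R5}, DerRepGd P θ d e M f →
      DerRepGd P θ d (e + 1) (7 * (d + e) * M) (T f))
    {d e : ℕ} {M B : ℝ} {f : R5} (h : DerRepGd P θ d e M f) (k : ℕ)
    (hB : 7 * ((d : ℝ) + e + k) ≤ B) : DerRepGd P θ d (e + k) (M * B ^ k) (T^[k] f) := by
  induction k with
  | zero => simpa using h
  | succ k ih =>
    push_cast at hB
    have h1 := ih (by linarith)
    rw [Function.iterate_succ_apply']
    refine (hT h1).mono le_rfl (by omega) ?_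
    have h0 := derrep_nonneg h1
    have h2 : 7 * ((d : ℝ) + ((e + k : ℕ) : ℝ)) ≤ B := by push_cast; linarith
    calc _ ≤ B * (M * B ^ k) := mul_le_mul_of_nonneg_right h2 h0
      _ = _ := by ring

theorem derrep_aux (N : ℕ) (p : (Fin 4 → Fin (N + 1)) → ℤ) {H : ℝ} (hp : ∀ e, |(p e : ℝ)| ≤ H) :
    DerRepGd P θ (2 * N) (2 * N) ((N + 1) ^ 4 * H) (rename emb (auxP θ N p)) := by
  have key : ∀ e : Fin 4 → Fin (N + 1), DerRepGd P θ (2 * N) (2 * N) H
      (rename emb (C ((p e : ℂ) * θ ^ (e 0 : ℕ)) * X 0 ^ (e 1 : ℕ) * X 1 ^ (e 2 : ℕ) *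
        X 2 ^ (e 3 : ℕ) : MvPolynomial (Fin 3) ℂ)) := by
    intro e
    have a := ((((DerRepGd.int (P := P) (θ := θ) (p e)).mul (derrep_pow DerRepGd.th (e 0))).mul
      (derrep_pow DerRepGd.x0 (e 1))).mul (derrep_pow DerRepGd.x2 (e 2))).mul
      (derrep_pow DerRepGd.x4 (e 3))
    have b0 := (e 0).is_lt
    have b1 := (e 1).is_lt
    have b2 := (e 2).is_lt
    have b3 := (e 3).is_lt
    have a' := a.mono (d' := 2 * N) (e' := 2 * N) (M' := H) (by omega) (by omega)
      (by simpa using hp e)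
    convert a' using 1
    simp [emb]
  have := derrep_sum Finset.univ _ key
  rw [auxP, map_sum]
  convert this using 2
  simp

theorem derrep_eval {Rp : ℕ → ℕ → ℝ → ℂ → Prop} (hR : Size Rp) {e₁ e₂ : ℂ}
    (hθ : Rp 1 0 1 θ) (ha : Rp 1 0 1 P.a) (hρ : Rp 1 0 1 P.ρ) (hb : Rp 1 0 1 (P.ρ * P.b))
    (h₁ : Rp 0 1 1 e₁) (h₂ : Rp 0 1 1 e₂) (hg : Rp 0 1 1 (P.g / 2)) (hg' : Rp 0 1 1 (P.g' / 2))
    {d e : ℕ} {M : ℝ} {f : R5} (h : DerRepGd P θ d e M f) :
    Rp d e M (eval ![e₁, 0, e₂, 0, 0] f) := by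
  have hz : ∀ d e : ℕ, Rp d e 1 0 := fun d e => by
    have := hR.mono (hR.int 0) (Nat.zero_le d) (Nat.zero_le e) (M' := 1) (by simp)
    simpa using this
  induction h with
  | int z => rw [eval_C]; exact hR.int z
  | th => rwa [eval_C]
  | ca => rwa [eval_C]
  | cr => rwa [eval_C]
  | cb => rwa [eval_C]
  | cg => rwa [eval_C]
  | cg' => rwa [eval_C]
  | x4 => simpa using hz 1 0
  | x0 => simpa using h₁
  | x1 => simpa using hz 0 1
  | x2 => simpa using h₂
  | x3 => simpa using hz 0 1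
  | add _ _ i1 i2 => rw [map_add]; exact hR.add i1 i2
  | mul _ _ i1 i2 => rw [map_mul]; exact hR.mul i1 i2
  | mono _ hd he hM i1 => exact hR.mono i1 hd he hM

/-- Hint: call `f : R5` *good of type* `(d, e, M)` if it is a finite sum `∑ z k • mon k`
(`z k : ℤ`, `∑ |z k| ≤ M`), each `mon k` a product of at most `d` factors among
`C θ, C a, C ρ, C (ρ b), X 4` and at most `e` factors among `C (g/2), C (g'/2), X 0, X 1, X 2, X 3`
(lists or multisets of generators, or a universal ring `MvPolynomial (Fin 11) ℤ`, or an inductive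
predicate).  `D1` and `D2` send type `(d, e, M)` to type `(d, e + 1, 7 (d + e) M)`, and evaluation
at `pt` sends type `(d, e, M)` to `Rp d e M`. -/
theorem der_size (P : Par) {Rp : ℕ → ℕ → ℝ → ℂ → Prop} (hR : Size Rp) (θ e₁ e₂ : ℂ)
    (hθ : Rp 1 0 1 θ) (ha : Rp 1 0 1 P.a) (hρ : Rp 1 0 1 P.ρ) (hb : Rp 1 0 1 (P.ρ * P.b))
    (h₁ : Rp 0 1 1 e₁) (h₂ : Rp 0 1 1 e₂) (hg : Rp 0 1 1 (P.g / 2)) (hg' : Rp 0 1 1 (P.g' / 2))
    (N : ℕ) (p : (Fin 4 → Fin (N + 1)) → ℤ) {H : ℝ} (hp : ∀ e, |(p e : ℝ)| ≤ H) (s t : ℕ) :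
    Rp (2 * N) (2 * N + (s + t)) ((N + 1) ^ 4 * H * (7 * (4 * N + (s + t)) : ℝ) ^ (s + t))
      (eval ![e₁, 0, e₂, 0, 0] ((D1 P)^[s] ((D2 P)^[t] (rename emb (auxP θ N p))))) := by
  refine derrep_eval (θ := θ) hR hθ ha hρ hb h₁ h₂ hg hg' ?_
  have hs : (0 : ℝ) ≤ s := Nat.cast_nonneg _
  have a0 := derrep_aux (P := P) (θ := θ) N p hp
  have a1 := derrep_iter (D2 P) derrep_D2 a0 t (B := 7 * (4 * N + (s + t)))
    (by push_cast; linarith)
  have a2 := derrep_iter (D1 P) derrep_D1 a1 s (B := 7 * (4 * N + (s + t)))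
    (by push_cast; linarith)
  convert a2 using 1
  · omega
  · rw [pow_add]; ring

end GPC96

end

-- part MP_57341d_ag.H96.Der
section

/-! Derivations of fields of characteristic zero. -/

namespace GPC96

theorem der_formallySmooth (F E : Type) [Field F] [Field E] [Algebra F E] [CharZero F] :
    Algebra.FormallySmooth F E := by
  obtain ⟨s, hs⟩ := exists_isTranscendenceBasis F E
  have h1 := hs.isAlgebraic_field
  have : Algebra.IsSeparable (IntermediateField.adjoin F (Set.range ((↑) : s → E))) E :=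
    Algebra.IsAlgebraic.isSeparable_of_perfectField
  exact .of_algebraicIndependent_of_isSeparable hs.1

/-- Existence.  Hint: copy the proof of `exists_deriv` in `Pool/Agent/MP_95b452_co/Field.lean`
(formal smoothness and dual numbers) with `ℂ` in place of `ℚ`. -/
theorem exists_der {ι E : Type} [Field E] [Algebra ℂ E] {a : ι → E}
    (ha : AlgebraicIndependent ℂ a) (δ : ι → E) :
    ∃ D : Derivation ℂ E E, ∀ i, D (a i) = δ i := by
  let P := MvPolynomial ι ℂ
  let : Algebra P E := (MvPolynomial.aeval a : P →ₐ[ℂ] E).toRingHom.toAlgebra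
  have hinj : Function.Injective (algebraMap P E) := ha
  have : FaithfulSMul P E := (faithfulSMul_iff_algebraMap_injective _ _).2 hinj
  let : Algebra (FractionRing P) E := FractionRing.liftAlgebra P E
  have : IsScalarTower P (FractionRing P) E := FractionRing.isScalarTower_liftAlgebra _ _
  have : CharZero (FractionRing P) :=
    charZero_of_injective_algebraMap (IsFractionRing.injective P (FractionRing P))
  have h1 : Algebra.FormallySmooth (FractionRing P) E := der_formallySmooth _ _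
  have h2 : Algebra.FormallySmooth P (FractionRing P) :=
    Algebra.FormallySmooth.of_isLocalization (nonZeroDivisors P)
  have h3 : Algebra.FormallySmooth P E := Algebra.FormallySmooth.comp _ (FractionRing P) _
  let σ : P →+* DualNumber E :=
    MvPolynomial.eval₂Hom ((TrivSqZeroExt.inlHom E E).comp (algebraMap ℂ E))
      (fun i => TrivSqZeroExt.inl (a i) + TrivSqZeroExt.inr (δ i))
  let : Algebra P (DualNumber E) := σ.toAlgebra
  let f0 : DualNumber E →+* E := (TrivSqZeroExt.fstHom E E E).toRingHom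
  have hcomp : f0.comp σ = (MvPolynomial.aeval a : P →ₐ[ℂ] E).toRingHom := by
    apply MvPolynomial.ringHom_ext
    · intro k; simp [σ, f0, P]
    · intro i; simp [σ, f0, P]
  let g : DualNumber E →ₐ[P] E :=
    { f0 with
      commutes' := fun p => by
        have := congrArg (fun h : P →+* E => h p) hcomp
        exact this }
  have hg : Function.Surjective g := fun x => ⟨TrivSqZeroExt.inl x, by simp [g, f0]⟩
  have hnil : IsNilpotent (RingHom.ker (g : DualNumber E →+* E)) := by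
    refine ⟨2, ?_⟩
    rw [Submodule.pow_succ, Submodule.pow_one, Ideal.zero_eq_bot, eq_bot_iff, Ideal.mul_le]
    intro x hx y hy
    have hx' : x.fst = 0 := hx
    have hy' : y.fst = 0 := hy
    rw [Ideal.mem_bot]
    ext <;> simp [hx', hy']
  let l := Algebra.FormallySmooth.liftOfSurjective (AlgHom.id P E) g hg hnil
  have hl : ∀ x, (l x).fst = x := fun x =>
    Algebra.FormallySmooth.liftOfSurjective_apply (AlgHom.id P E) g hg hnil x
  have hlp : ∀ p : P, l (MvPolynomial.aeval a p) = σ p := fun p => l.commutes p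
  have hmul : ∀ x y, (l (x * y)).snd = x * (l y).snd + y * (l x).snd := fun x y => by
    simp [hl]; ring
  have hc : ∀ c : ℂ, (l (algebraMap ℂ E c)).snd = 0 := fun c => by
    have := hlp (MvPolynomial.C c)
    rw [MvPolynomial.aeval_C] at this
    simp [this, σ, P]
  let D : E →ₗ[ℂ] E :=
    { toFun := fun x => (l x).snd
      map_add' := fun x y => by simp
      map_smul' := fun c x => by
        rw [RingHom.id_apply, Algebra.smul_def, Algebra.smul_def, hmul, hc, mul_zero, add_zero] }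
  refine ⟨Derivation.mk' D fun x y => hmul x y, fun i => ?_⟩
  have := hlp (MvPolynomial.X i)
  rw [MvPolynomial.aeval_X] at this
  change (l (a i)).snd = δ i
  simp [this, σ, P]

/-- Uniqueness along a homomorphism.  Hint: take `q` of least degree among the polynomials over
`B` whose image under `φ` is nonzero and kills `φ f`; then `e (q(f)) = 0` gives
`φ (q'(f)) * e f = 0`, and `q'` has smaller degree and nonzero image (characteristic zero). -/
theorem der_eq_zero {R E : Type} [CommRing R] [Algebra ℂ R] [Field E] [Algebra ℂ E]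
    (φ : R →ₐ[ℂ] E) (e : R →+ E) (he : ∀ f g, e (f * g) = φ f * e g + φ g * e f)
    (hk : ∀ f, φ f = 0 → e f = 0) (B : Subalgebra ℂ R) (hB : ∀ b ∈ B, e b = 0) (f : R)
    (hf : IsAlgebraic (B.map φ) (φ f)) : e f = 0 := by
  have : CharZero E := charZero_of_injective_algebraMap (algebraMap ℂ E).injective
  let ψ : B →+* E := (φ : R →+* E).comp (algebraMap B R)
  have hφ : ∀ q : Polynomial B, φ (Polynomial.aeval f q) = (q.map ψ).eval (φ f) := fun q => by
    rw [Polynomial.aeval_def, Polynomial.eval_map]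
    exact Polynomial.hom_eval₂ q (algebraMap B R) (φ : R →+* E) f
  have hd : ∀ q : Polynomial B,
      e (Polynomial.aeval f q) = φ (Polynomial.aeval f q.derivative) * e f := fun q => by
    induction q using Polynomial.induction_on with
    | C b =>
      rw [Polynomial.aeval_C, Polynomial.derivative_C, map_zero, map_zero, zero_mul]
      exact hB b b.2
    | add p q hp hq => simp only [map_add, hp, hq, add_mul]
    | monomial n b ih =>
      rw [pow_succ, ← mul_assoc]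
      generalize Polynomial.C b * Polynomial.X ^ n = p at ih ⊢
      rw [map_mul, he, ih, Polynomial.derivative_mul, Polynomial.derivative_X, mul_one,
        Polynomial.aeval_X, map_add, map_mul, Polynomial.aeval_X, map_add, map_mul]
      ring
  have key : ∀ (n : ℕ) (q : Polynomial B), (q.map ψ).natDegree = n → q.map ψ ≠ 0 →
      (q.map ψ).eval (φ f) = 0 → e f = 0 := by
    intro n
    induction n using Nat.strong_induction_on with
    | _ n ih =>
      intro q hn h0 hq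
      have h1 := hd q
      rw [hk _ ((hφ q).trans hq), hφ] at h1
      rcases mul_eq_zero.1 h1.symm with h2 | h2
      · have hn0 : (q.map ψ).natDegree ≠ 0 := fun h3 => by
          rw [Polynomial.eq_C_of_natDegree_eq_zero h3, Polynomial.eval_C] at hq
          rw [Polynomial.eq_C_of_natDegree_eq_zero h3, hq, map_zero] at h0
          exact h0 rfl
        refine ih _ ?_ q.derivative rfl ?_ h2
        · rw [← Polynomial.derivative_map, ← hn]
          exact Polynomial.natDegree_derivative_lt hn0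
        · rw [← Polynomial.derivative_map]
          exact fun h3 => hn0 (Polynomial.derivative_eq_zero.1 h3)
      · exact h2
  obtain ⟨p, hp0, hp⟩ := hf
  obtain ⟨q, rfl⟩ := Polynomial.map_surjective (φ.subalgebraMap B : B →+* B.map φ)
    (φ.subalgebraMap_surjective B) p
  have hq : q.map ψ = (q.map (φ.subalgebraMap B : B →+* B.map φ)).map (algebraMap (B.map φ) E) := by
    rw [Polynomial.map_map]; rfl
  refine key _ q rfl ?_ ?_
  · rw [hq]
    exact (Polynomial.map_ne_zero_iff Subtype.val_injective).2 hp0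
  · rw [hq, Polynomial.eval_map, ← Polynomial.aeval_def, hp]

theorem der_adjoin {E : Type} [Field E] [Algebra ℂ E] (D : Derivation ℂ E E) {S : Set E}
    (hS : ∀ s ∈ S, D s = 0) {x : E} (hx : IsAlgebraic (Algebra.adjoin ℂ S) x) : D x = 0 := by
  refine der_eq_zero (AlgHom.id ℂ E) (D : E →ₗ[ℂ] E).toAddMonoidHom (fun f g => D.leibniz f g)
    (fun f hf => ?_) (Algebra.adjoin ℂ S) (fun b hb => ?_) x ?_
  · have : f = 0 := hf
    rw [this, map_zero]
  · change D b = 0
    induction hb using Algebra.adjoin_induction with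
    | mem s hs => exact hS s hs
    | algebraMap c => exact D.map_algebraMap c
    | add a b _ _ ha hb => rw [map_add, ha, hb, add_zero]
    | mul a b _ _ ha hb => rw [D.leibniz, ha, hb, smul_zero, smul_zero, add_zero]
  · rw [Subalgebra.map_id]; exact hx

theorem der_exists_emb {A Ω : Type} [CommRing A] [IsDomain A] [Algebra ℂ A] [Field Ω]
    [Algebra ℂ Ω] [IsAlgClosed Ω] {t : A} (ht : Transcendental ℂ t)
    (halg : ∀ f : A, IsAlgebraic (Algebra.adjoin ℂ {t}) f) {s : Ω} (hs : Transcendental ℂ s) :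
    ∃ ι : A →ₐ[ℂ] Ω, Function.Injective ι ∧ ι t = s ∧
      ∀ f, IsAlgebraic (Algebra.adjoin ℂ {s}) (ι f) := by
  let ε : Algebra.adjoin ℂ {t} ≃ₐ[ℂ] Algebra.adjoin ℂ {s} :=
    (Polynomial.algEquivOfTranscendental ℂ t ht).symm.trans
      (Polynomial.algEquivOfTranscendental ℂ s hs)
  let ψ : Algebra.adjoin ℂ {t} →ₐ[ℂ] Ω := (Algebra.adjoin ℂ {s}).val.comp ε.toAlgHom
  have hψ : Function.Injective ψ := Subtype.val_injective.comp ε.injective
  have hψt : ψ ⟨t, Algebra.self_mem_adjoin_singleton ℂ t⟩ = s := by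
    simp [ψ, ε]
  let : Algebra (Algebra.adjoin ℂ {t}) Ω := ψ.toRingHom.toAlgebra
  have : FaithfulSMul (Algebra.adjoin ℂ {t}) Ω :=
    (faithfulSMul_iff_algebraMap_injective _ _).2 hψ
  have : Algebra.IsAlgebraic (Algebra.adjoin ℂ {t}) A := ⟨halg⟩
  let j : A →ₐ[Algebra.adjoin ℂ {t}] Ω := IsAlgClosed.lift
  have hj : ∀ b : Algebra.adjoin ℂ {t}, j b = ψ b := fun b => j.commutes b
  refine ⟨{ (j : A →+* Ω) with
    commutes' := fun c => (hj (algebraMap ℂ _ c)).trans (ψ.commutes c) }, ?_, ?_, fun f => ?_⟩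
  · refine (injective_iff_map_eq_zero j).2 fun f hf => ?_
    by_contra h0
    obtain ⟨r, hr, c, hc⟩ := (halg f).exists_nonzero_dvd (mem_nonZeroDivisors_of_ne_zero h0)
    have h1 : ψ r = 0 := by
      rw [← hj]
      change j (algebraMap _ A r) = 0
      rw [hc, map_mul, hf, zero_mul]
    exact hr (hψ (h1.trans (map_zero ψ).symm))
  · exact (hj ⟨t, Algebra.self_mem_adjoin_singleton ℂ t⟩).trans hψt
  · exact (halg f).ringHom_of_comp_eq (ε : Algebra.adjoin ℂ {t} →+* Algebra.adjoin ℂ {s})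
      (j : A →+* Ω) ε.injective (RingHom.ext fun b => (hj b).symm)

/-- A field of transcendence degree two with its two coordinate derivations, receiving two
independent copies of a domain `A` of transcendence degree one.  Hint:
`Ω = AlgebraicClosure (FractionRing (MvPolynomial (Fin 2) ℂ))`, `IsAlgClosed.lift` over
`Polynomial ℂ` acting through `t` on `A` and through `s j` on `Ω`.  For the constants: every
derivation of `Ω` is a combination of the `d j` (`der_eq_zero` with `φ = id`), and a transcendental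
element is moved by some derivation (`exists_der`). -/
theorem exists_two_copies (A : Type) [CommRing A] [IsDomain A] [Algebra ℂ A] (t : A)
    (ht : Transcendental ℂ t) (halg : ∀ f : A, IsAlgebraic (Algebra.adjoin ℂ {t}) f) :
    ∃ (Ω : Type) (_ : Field Ω) (_ : Algebra ℂ Ω) (ι : Fin 2 → A →ₐ[ℂ] Ω)
      (d : Fin 2 → Derivation ℂ Ω Ω),
      Algebra.trdeg ℂ Ω = 2 ∧ (∀ j, Function.Injective (ι j)) ∧ (∀ j, d j (ι j t) = 1) ∧
      (∀ f, d 0 (ι 1 f) = 0) ∧ (∀ f, d 1 (ι 0 f) = 0) ∧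
      ∀ x : Ω, d 0 x = 0 → d 1 x = 0 → ∃ c : ℂ, x = algebraMap ℂ Ω c := by
  let P := MvPolynomial (Fin 2) ℂ
  let Ω := AlgebraicClosure (FractionRing P)
  have h0 : IsTranscendenceBasis ℂ (MvPolynomial.X : Fin 2 → P) :=
    IsTranscendenceBasis.mvPolynomial (Fin 2) ℂ
  have : Algebra.IsAlgebraic P (FractionRing P) :=
    IsLocalization.isAlgebraic _ (nonZeroDivisors P)
  have h1 : IsTranscendenceBasis ℂ (algebraMap P (FractionRing P) ∘ MvPolynomial.X) :=
    h0.algebraMap_comp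
  obtain ⟨s, hs⟩ : ∃ s : Fin 2 → Ω, IsTranscendenceBasis ℂ s := ⟨_, h1.algebraMap_comp⟩
  choose ι hι1 hι2 hι3 using fun j => der_exists_emb ht halg (hs.1.transcendental j)
  choose d hd using fun j => exists_der hs.1 (Pi.single j (1 : Ω))
  refine ⟨Ω, inferInstance, inferInstance, ι, d, ?_, hι1, fun j => ?_, fun f => ?_, fun f => ?_,
    fun x hx0 hx1 => ?_⟩
  · rw [← hs.cardinalMk_eq_trdeg]; simp
  · rw [hι2, hd, Pi.single_eq_same]
  · refine der_adjoin _ (fun z hz => ?_) (hι3 1 f)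
    rw [Set.mem_singleton_iff.1 hz, hd]; simp
  · refine der_adjoin _ (fun z hz => ?_) (hι3 0 f)
    rw [Set.mem_singleton_iff.1 hz, hd]; simp
  · by_cases hx : IsAlgebraic ℂ x
    · obtain ⟨c, hc⟩ := minpoly.mem_range_of_degree_eq_one ℂ x
        (IsAlgClosed.degree_eq_one_of_irreducible ℂ (minpoly.irreducible hx.isIntegral))
      exact ⟨c, hc.symm⟩
    · have hi : AlgebraicIndependent ℂ (fun _ : Unit => x) :=
        algebraicIndependent_unique_type_iff.2 hx
      obtain ⟨D, hD⟩ := exists_der hi fun _ => 1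
      have h2 := der_adjoin (D - D (s 0) • d 0 - D (s 1) • d 1) (S := Set.range s)
        (by
          rintro _ ⟨i, rfl⟩
          fin_cases i <;> simp [hd]) (hs.isAlgebraic.isAlgebraic x)
      simp [hx0, hx1, hD ()] at h2

/-- The addition law on `y² = 4x³ - g x - h` is compatible with a derivation moving the first
point along the invariant vector field with speed `α` and fixing the second point.  Hint: with
`l (x - x') = y - y'` first prove `12 x² - g - 2 l y = 4 (x - x₃)(x - x')` (multiply by `x - x'`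
and cancel), then `d l = 2 α (x - x₃)`. -/
theorem add_law {Ω : Type} [Field Ω] [Algebra ℂ Ω] (d : Derivation ℂ Ω Ω) {g h : ℂ}
    {x y x' y' α l x₃ y₃ : Ω}
    (hE : y ^ 2 = 4 * x ^ 3 - algebraMap ℂ Ω g * x - algebraMap ℂ Ω h)
    (hE' : y' ^ 2 = 4 * x' ^ 3 - algebraMap ℂ Ω g * x' - algebraMap ℂ Ω h) (hne : x ≠ x')
    (hl : l = (y - y') / (x - x')) (hx₃ : x₃ = l ^ 2 / 4 - x - x') (hy₃ : y₃ = -(l * (x₃ - x) + y))
    (hdx : d x = α * y) (hdy : d y = α * (6 * x ^ 2 - algebraMap ℂ Ω (g / 2)))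
    (hdx' : d x' = 0) (hdy' : d y' = 0) :
    y₃ ^ 2 = 4 * x₃ ^ 3 - algebraMap ℂ Ω g * x₃ - algebraMap ℂ Ω h ∧
      y₃ = -(l * (x₃ - x') + y') ∧ d l = 2 * α * (x - x₃) ∧ d x₃ = α * y₃ ∧
      d y₃ = α * (6 * x₃ ^ 2 - algebraMap ℂ Ω (g / 2)) := by
  have : CharZero Ω := charZero_of_injective_algebraMap (algebraMap ℂ Ω).injective
  have hg2 : algebraMap ℂ Ω (g / 2) = algebraMap ℂ Ω g / 2 := by rw [map_div₀, map_ofNat]
  rw [hg2] at hdy ⊢
  generalize algebraMap ℂ Ω g = G at *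
  generalize algebraMap ℂ Ω h = H at *
  have hne' : x - x' ≠ 0 := sub_ne_zero.2 hne
  have hl' : l * (x - x') = y - y' := by rw [hl, div_mul_cancel₀ _ hne']
  have hl2 : l * l = 4 * (x₃ + x + x') := by rw [hx₃]; ring
  have key : 12 * x ^ 2 - G - 2 * l * y = 4 * (x - x₃) * (x - x') := by
    apply mul_left_cancel₀ hne'
    have hy' : y' = y - l * (x - x') := by rw [hl']; ring
    rw [hy'] at hE'
    linear_combination hE' - hE - (x - x') ^ 2 * hl2
  have hdl : d l = 2 * α * (x - x₃) := by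
    apply mul_left_cancel₀ hne'
    have h1 := congrArg d hl'
    rw [d.leibniz, map_sub, map_sub, hdx, hdx', hdy, hdy', smul_eq_mul, smul_eq_mul] at h1
    linear_combination h1 + α / 2 * key
  have h4 : d 4 = 0 := by exact_mod_cast d.map_natCast 4
  have hdx₃ : d x₃ = α * y₃ := by
    have h1 := congrArg d hl2
    rw [d.leibniz, d.leibniz, h4, map_add, map_add, hdx, hdx', hdl] at h1
    simp only [smul_eq_mul] at h1
    rw [hy₃]
    linear_combination (-1 / 4 : Ω) * h1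
  refine ⟨?_, ?_, hdl, hdx₃, ?_⟩
  · rw [hy₃]
    linear_combination hE + (x - x₃) * key + (x - x₃) ^ 2 * hl2
  · rw [hy₃]
    linear_combination hl'
  · have h1 := congrArg d hy₃
    rw [map_neg, map_add, d.leibniz, map_sub, hdx₃, hdx, hdy, hdl] at h1
    simp only [smul_eq_mul] at h1
    rw [h1, hy₃]
    linear_combination (-α) * key - α * (x - x₃) * hl2

end GPC96

end

-- part MP_57341d_ag.H96.Tangent
section

/-! A curve tangent to the foliation is tangent to a constant direction. -/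

open MvPolynomial Pool.Agent.MP_d171e3_nt

namespace GPC96

/-- A prime of dimension one has a coordinate over which the quotient is algebraic. -/
theorem tangent_param (p : Ideal R5) [p.IsPrime] (hd : dm p = 1) :
    ∃ T : R5, Transcendental ℂ (Ideal.Quotient.mk p T) ∧
      ∀ f : R5 ⧸ p, IsAlgebraic (Algebra.adjoin ℂ {Ideal.Quotient.mk p T}) f := by
  obtain ⟨c, -, hc⟩ := exists_indep p
  have hb : IsTranscendenceBasis ℂ fun i => Ideal.Quotient.mk p (X (c i)) := by
    refine hc.isTranscendenceBasis_of_trdeg_le_of_finite ?_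
    rw [← dm_cast, Cardinal.mk_fintype, Fintype.card_fin]
  let i0 : Fin (dm p) := ⟨0, by omega⟩
  have hr : (Set.range fun i => Ideal.Quotient.mk p (X (c i))) =
      {Ideal.Quotient.mk p (X (c i0))} := by
    ext z
    constructor
    · rintro ⟨i, rfl⟩
      have : i = i0 := Fin.ext (by have := i.2; simp only [i0]; omega)
      rw [this]; rfl
    · rintro rfl
      exact ⟨i0, rfl⟩
  refine ⟨X (c i0), hc.transcendental i0, fun f => ?_⟩
  have := hb.isAlgebraic
  rw [hr] at this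
  exact this.isAlgebraic f

/-- The derivation induced on a generic point of a tangent curve. -/
theorem tangent_der (P : Par) (p : Ideal R5) (α β : R5)
    (hs : ∀ f ∈ p, α * D1 P f + β * D2 P f ∈ p) (T : R5)
    (halg : ∀ f : R5 ⧸ p, IsAlgebraic (Algebra.adjoin ℂ {Ideal.Quotient.mk p T}) f)
    {Ω : Type} [Field Ω] [Algebra ℂ Ω] (ι : (R5 ⧸ p) →ₐ[ℂ] Ω) (hι : Function.Injective ι)
    (d : Derivation ℂ Ω Ω) (hT : d (ι (Ideal.Quotient.mk p T)) = 1) :
    ∃ l : Ω, ∀ f : R5, l * d (ι (Ideal.Quotient.mk p f)) =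
      ι (Ideal.Quotient.mk p α) * ι (Ideal.Quotient.mk p (D1 P f)) +
        ι (Ideal.Quotient.mk p β) * ι (Ideal.Quotient.mk p (D2 P f)) := by
  let φ : R5 →ₐ[ℂ] Ω := ι.comp (Ideal.Quotient.mkₐ ℂ p)
  have hφ : ∀ f, φ f = ι (Ideal.Quotient.mk p f) := fun f => rfl
  have hker : ∀ f, φ f = 0 ↔ f ∈ p := fun f => by
    rw [hφ, map_eq_zero_iff ι hι, Ideal.Quotient.eq_zero_iff_mem]
  let l : Ω := φ α * φ (D1 P T) + φ β * φ (D2 P T)
  let e : R5 →+ Ω :=
    { toFun := fun f => l * d (φ f) - (φ α * φ (D1 P f) + φ β * φ (D2 P f))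
      map_zero' := by simp
      map_add' := fun f g => by simp only [map_add]; ring }
  have he0 : ∀ f, e f = l * d (φ f) - (φ α * φ (D1 P f) + φ β * φ (D2 P f)) := fun f => rfl
  have he : ∀ f g, e (f * g) = φ f * e g + φ g * e f := fun f g => by
    simp only [he0, map_mul, Derivation.leibniz, smul_eq_mul, map_add]; ring
  have hk : ∀ f, φ f = 0 → e f = 0 := fun f hf => by
    have h1 := (hker _).2 (hs f ((hker f).1 hf))
    rw [map_add, map_mul, map_mul] at h1
    rw [he0, hf, h1, map_zero, mul_zero, sub_zero]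
  have hB : ∀ b ∈ Algebra.adjoin ℂ {T}, e b = 0 := by
    intro b hb
    induction hb using Algebra.adjoin_induction with
    | mem x hx =>
      rw [Set.mem_singleton_iff.1 hx, he0, hφ T, hT, mul_one, sub_self]
    | algebraMap r =>
      rw [he0, AlgHom.commutes, Derivation.map_algebraMap, Derivation.map_algebraMap,
        Derivation.map_algebraMap]
      simp
    | add x y _ _ hx hy => rw [map_add, hx, hy, add_zero]
    | mul x y _ _ hx hy => rw [he, hx, hy, mul_zero, mul_zero, add_zero]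
  refine ⟨l, fun f => sub_eq_zero.1 ?_⟩
  refine der_eq_zero φ e he hk (Algebra.adjoin ℂ {T}) hB f ?_
  have hm : (Algebra.adjoin ℂ {T}).map φ =
      (Algebra.adjoin ℂ {Ideal.Quotient.mk p T}).map ι := by
    rw [AlgHom.map_adjoin, AlgHom.map_adjoin, Set.image_singleton, Set.image_singleton, hφ]
  rw [hm, hφ]
  exact (halg (Ideal.Quotient.mk p f)).ringHom_of_comp_eq
    (Subalgebra.equivMapOfInjective _ ι hι) ι (Subalgebra.equivMapOfInjective _ ι hι).injective
    (by ext x; rfl)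

theorem tangent_ne {Ω : Type} [Field Ω] [Algebra ℂ Ω] (Δ : Derivation ℂ Ω Ω) {g h : ℂ}
    (ns : ∀ x y : ℂ, y ^ 2 = 4 * x ^ 3 - g * x - h → y ≠ 0 ∨ 6 * x ^ 2 - g / 2 ≠ 0)
    {x y a : Ω} (ha : a ≠ 0) (hE : y ^ 2 = 4 * x ^ 3 - algebraMap ℂ Ω g * x - algebraMap ℂ Ω h)
    (hx : Δ x = a * y) (hy : Δ y = a * (6 * x ^ 2 - algebraMap ℂ Ω (g / 2))) (c : ℂ) :
    x ≠ algebraMap ℂ Ω c := by
  rintro rfl
  rw [Derivation.map_algebraMap] at hx
  have h1 : y = 0 := (mul_eq_zero.1 hx.symm).resolve_left ha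
  rw [h1, map_zero] at hy
  have h2 := (mul_eq_zero.1 hy.symm).resolve_left ha
  rw [h1] at hE
  have hinj := (algebraMap ℂ Ω).injective
  rcases ns c 0 (hinj (by simpa [map_ofNat] using hE)) with h3 | h3
  · exact h3 rfl
  · exact h3 (hinj (by simpa [map_ofNat] using h2))

theorem tangent_ind (P : Par) {Ω : Type} [Field Ω] [Algebra ℂ Ω] (Δ : Derivation ℂ Ω Ω)
    (ψ : R5 →ₐ[ℂ] Ω) (a b : Ω)
    (h : ∀ i, Δ (ψ (X i)) = a * ψ (D1 P (X i)) + b * ψ (D2 P (X i))) (f : R5) :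
    Δ (ψ f) = a * ψ (D1 P f) + b * ψ (D2 P f) := by
  induction f using MvPolynomial.induction_on with
  | C c =>
    rw [der_C, der_C, map_zero, ← MvPolynomial.algebraMap_eq, AlgHom.commutes,
      Derivation.map_algebraMap]
    ring
  | add f g hf hg => simp only [map_add, hf, hg]; ring
  | mul_X f i hf =>
    simp only [map_mul, Derivation.leibniz, smul_eq_mul, map_add, hf, h i]; ring

/-- What a point of the curve moving with speeds `a`, `b` satisfies. -/
theorem tangent_coord (P : Par) {Ω : Type} [Field Ω] [Algebra ℂ Ω] (Δ : Derivation ℂ Ω Ω)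
    (φ : R5 →ₐ[ℂ] Ω) (a b : Ω) (h : ∀ f, Δ (φ f) = a * φ (D1 P f) + b * φ (D2 P f)) :
    Δ (φ (X 0)) = a * φ (X 1) ∧
    Δ (φ (X 1)) = a * (6 * φ (X 0) ^ 2 - algebraMap ℂ Ω (P.g / 2)) ∧
    Δ (φ (X 2)) = b * φ (X 3) ∧
    Δ (φ (X 3)) = b * (6 * φ (X 2) ^ 2 - algebraMap ℂ Ω (P.g' / 2)) ∧
    Δ (φ (X 4)) = a * (-φ (X 0) - algebraMap ℂ Ω P.a) +
      b * (algebraMap ℂ Ω P.ρ * (φ (X 2) + algebraMap ℂ Ω P.b)) := by
  have hC : ∀ c, φ (C c) = algebraMap ℂ Ω c := fun c => φ.commutes c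
  refine ⟨?_, ?_, ?_, ?_, ?_⟩ <;> rw [h] <;>
    simp only [D1_X0, D1_X1, D1_X2, D1_X3, D1_X4, D2_X0, D2_X1, D2_X2, D2_X3, D2_X4, map_zero,
      map_sub, map_mul, map_pow, map_add, map_neg, map_ofNat, hC, mul_zero, add_zero, zero_add]

theorem tangent_E (P : Par) {Ω : Type} [Field Ω] [Algebra ℂ Ω] (φ : R5 →ₐ[ℂ] Ω) :
    φ (E1 P) = φ (X 1) ^ 2 -
      (4 * φ (X 0) ^ 3 - algebraMap ℂ Ω P.g * φ (X 0) - algebraMap ℂ Ω P.h) ∧
    φ (E2 P) = φ (X 3) ^ 2 -
      (4 * φ (X 2) ^ 3 - algebraMap ℂ Ω P.g' * φ (X 2) - algebraMap ℂ Ω P.h') := by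
  have hC : ∀ c, φ (C c) = algebraMap ℂ Ω c := fun c => φ.commutes c
  constructor <;> simp only [E1, E2, map_sub, map_mul, map_pow, map_ofNat, hC]

/-- The sum of two independently moving points. -/
theorem tangent_sum (P : Par) {Ω : Type} [Field Ω] [Algebra ℂ Ω] (Δ Δ' : Derivation ℂ Ω Ω)
    (φ φ' : R5 →ₐ[ℂ] Ω) (a b a' b' : Ω) (h : ∀ f, Δ (φ f) = a * φ (D1 P f) + b * φ (D2 P f))
    (h' : ∀ f, Δ' (φ' f) = a' * φ' (D1 P f) + b' * φ' (D2 P f)) (k : ∀ f, Δ (φ' f) = 0)
    (k' : ∀ f, Δ' (φ f) = 0) (e1 : φ (E1 P) = 0) (e2 : φ (E2 P) = 0) (e1' : φ' (E1 P) = 0)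
    (e2' : φ' (E2 P) = 0) (n0 : φ (X 0) ≠ φ' (X 0)) (n2 : φ (X 2) ≠ φ' (X 2)) :
    ∃ ψ : R5 →ₐ[ℂ] Ω, ψ (E1 P) = 0 ∧ ψ (E2 P) = 0 ∧
      (∀ f, Δ (ψ f) = a * ψ (D1 P f) + b * ψ (D2 P f)) ∧
      ∀ f, Δ' (ψ f) = a' * ψ (D1 P f) + b' * ψ (D2 P f) := by
  obtain ⟨c0, c1, c2, c3, c4⟩ := tangent_coord P Δ φ a b h
  obtain ⟨c0', c1', c2', c3', c4'⟩ := tangent_coord P Δ' φ' a' b' h'
  rw [(tangent_E P φ).1, sub_eq_zero] at e1
  rw [(tangent_E P φ).2, sub_eq_zero] at e2
  rw [(tangent_E P φ').1, sub_eq_zero] at e1'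
  rw [(tangent_E P φ').2, sub_eq_zero] at e2'
  obtain ⟨l, hl⟩ : ∃ l, l = (φ (X 1) - φ' (X 1)) / (φ (X 0) - φ' (X 0)) := ⟨_, rfl⟩
  obtain ⟨x, hx⟩ : ∃ x, x = l ^ 2 / 4 - φ (X 0) - φ' (X 0) := ⟨_, rfl⟩
  obtain ⟨y, hy⟩ : ∃ y, y = -(l * (x - φ (X 0)) + φ (X 1)) := ⟨_, rfl⟩
  obtain ⟨m, hm⟩ : ∃ m, m = (φ (X 3) - φ' (X 3)) / (φ (X 2) - φ' (X 2)) := ⟨_, rfl⟩
  obtain ⟨u, hu⟩ : ∃ u, u = m ^ 2 / 4 - φ (X 2) - φ' (X 2) := ⟨_, rfl⟩
  obtain ⟨v, hv⟩ : ∃ v, v = -(m * (u - φ (X 2)) + φ (X 3)) := ⟨_, rfl⟩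
  obtain ⟨A1, A2, A3, A4, A5⟩ := add_law Δ e1 e1' n0 hl hx hy c0 c1 (k _) (k _)
  obtain ⟨B1, B2, B3, B4, B5⟩ := add_law Δ e2 e2' n2 hm hu hv c2 c3 (k _) (k _)
  obtain ⟨-, -, A3', A4', A5'⟩ := add_law Δ' e1' e1 n0.symm
    (l := l) (by rw [hl, ← neg_div_neg_eq, neg_sub, neg_sub]) (x₃ := x) (by rw [hx]; ring) A2
    c0' c1' (k' _) (k' _)
  obtain ⟨-, -, B3', B4', B5'⟩ := add_law Δ' e2' e2 n2.symm
    (l := m) (by rw [hm, ← neg_div_neg_eq, neg_sub, neg_sub]) (x₃ := u) (by rw [hu]; ring) B2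
    c2' c3' (k' _) (k' _)
  have hch : CharZero Ω := charZero_of_injective_algebraMap (algebraMap ℂ Ω).injective
  have h2 : algebraMap ℂ Ω (1 / 2) = 1 / 2 := by simp [map_ofNat]
  let ψ : R5 →ₐ[ℂ] Ω := aeval ![x, y, u, v,
    φ (X 4) + φ' (X 4) + algebraMap ℂ Ω (1 / 2) * l - algebraMap ℂ Ω (P.ρ / 2) * m]
  have p0 : ψ (X 0) = x := by simp [ψ]
  have p1 : ψ (X 1) = y := by simp [ψ]
  have p2 : ψ (X 2) = u := by simp [ψ]
  have p3 : ψ (X 3) = v := by simp [ψ]
  have p4 : ψ (X 4) =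
      φ (X 4) + φ' (X 4) + algebraMap ℂ Ω (1 / 2) * l - algebraMap ℂ Ω (P.ρ / 2) * m := by
    simp only [ψ, aeval_X]; rfl
  have hC : ∀ c, ψ (C c) = algebraMap ℂ Ω c := fun c => ψ.commutes c
  have h3 : algebraMap ℂ Ω (P.ρ / 2) = algebraMap ℂ Ω P.ρ / 2 := by simp [map_ofNat]
  have main : ∀ (D : Derivation ℂ Ω Ω) (s t : Ω), D x = s * y →
      D y = s * (6 * x ^ 2 - algebraMap ℂ Ω (P.g / 2)) → D u = t * v →
      D v = t * (6 * u ^ 2 - algebraMap ℂ Ω (P.g' / 2)) →
      D (ψ (X 4)) = s * (-x - algebraMap ℂ Ω P.a) +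
        t * (algebraMap ℂ Ω P.ρ * (u + algebraMap ℂ Ω P.b)) →
      ∀ f, D (ψ f) = s * ψ (D1 P f) + t * ψ (D2 P f) := by
    intro D s t q0 q1 q2 q3 q4
    refine tangent_ind P D ψ s t fun i => ?_
    have : ∀ i : Fin 5, i = 0 ∨ i = 1 ∨ i = 2 ∨ i = 3 ∨ i = 4 := by decide
    rcases this i with rfl | rfl | rfl | rfl | rfl <;>
      simp only [D1_X0, D1_X1, D1_X2, D1_X3, D1_X4, D2_X0, D2_X1, D2_X2, D2_X3, D2_X4, map_zero,
        map_sub, map_mul, map_pow, map_add, map_neg, map_ofNat, hC, mul_zero, add_zero, zero_add,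
        p0, p1, p2, p3, q0, q1, q2, q3, q4]
  refine ⟨ψ, ?_, ?_, main Δ a b A4 A5 B4 B5 ?_, main Δ' a' b' A4' A5' B4' B5' ?_⟩
  · rw [(tangent_E P ψ).1, p0, p1, A1, sub_self]
  · rw [(tangent_E P ψ).2, p2, p3, B1, sub_self]
  · rw [p4]
    simp only [map_add, map_sub, Derivation.leibniz, Derivation.map_algebraMap, smul_eq_mul,
      mul_zero, add_zero, c4, k, A3, B3]
    rw [h2, h3]; ring
  · rw [p4]
    simp only [map_add, map_sub, Derivation.leibniz, Derivation.map_algebraMap, smul_eq_mul,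
      mul_zero, add_zero, c4', k', A3', B3']
    rw [h2, h3]; ring

theorem tangent_quot {Ω : Type} [Field Ω] [Algebra ℂ Ω] (d : Derivation ℂ Ω Ω) {a b : Ω}
    (ha : d a = 0) (hb : d b = 0) : d (a / b) = 0 := by
  rw [Derivation.leibniz_div, ha, hb]; simp

/-- No curve on the product of the two cubics and the line is tangent to the foliation. -/
theorem tangent (P : Par) (hP : Good P) (p : Ideal R5) [p.IsPrime] (hE : EI P ≤ p)
    (hd : dm p = 1) (α β : R5) (hαβ : α ∉ p ∨ β ∉ p)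
    (hs : ∀ f ∈ p, α * D1 P f + β * D2 P f ∈ p) : False := by
  have hp : p.IsPrime := inferInstance
  have fin : ∀ a b : ℂ, (a ≠ 0 ∨ b ≠ 0) → (∀ f ∈ p, C a * D1 P f + C b * D2 P f ∈ p) → False := by
    intro a b h1 h2
    have := hP.h1 p hp hE a b h1 h2
    omega
  by_cases hα : α ∈ p
  · have hβ : β ∉ p := hαβ.resolve_left (not_not.2 hα)
    refine fin 0 1 (Or.inr one_ne_zero) fun f hf => ?_
    have h1 := (Ideal.add_mem_iff_right p (p.mul_mem_right (D1 P f) hα)).1 (hs f hf)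
    simpa using (hp.mem_or_mem h1).resolve_left hβ
  by_cases hβ : β ∈ p
  · refine fin 1 0 (Or.inl one_ne_zero) fun f hf => ?_
    have h1 := (Ideal.add_mem_iff_left p (p.mul_mem_right (D2 P f) hβ)).1 (hs f hf)
    simpa using (hp.mem_or_mem h1).resolve_left hα
  obtain ⟨T, hT, halg⟩ := tangent_param p hd
  obtain ⟨Ω, _, _, ι, d, hΩ, hι, hdt, k0, k1, hconst⟩ := exists_two_copies (R5 ⧸ p) _ hT halg
  obtain ⟨l0, hl0⟩ := tangent_der P p α β hs T halg (ι 0) (hι 0) (d 0) (hdt 0)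
  obtain ⟨l1, hl1⟩ := tangent_der P p α β hs T halg (ι 1) (hι 1) (d 1) (hdt 1)
  let φ : Fin 2 → R5 →ₐ[ℂ] Ω := fun j => (ι j).comp (Ideal.Quotient.mkₐ ℂ p)
  have hker : ∀ j f, φ j f = 0 ↔ f ∈ p := fun j f => by
    show ι j (Ideal.Quotient.mk p f) = 0 ↔ _
    rw [map_eq_zero_iff (ι j) (hι j), Ideal.Quotient.eq_zero_iff_mem]
  have g0 : ∀ f, (l0 • d 0) (φ 0 f) = φ 0 α * φ 0 (D1 P f) + φ 0 β * φ 0 (D2 P f) := hl0
  have g1 : ∀ f, (l1 • d 1) (φ 1 f) = φ 1 α * φ 1 (D1 P f) + φ 1 β * φ 1 (D2 P f) := hl1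
  have z0 : ∀ f, d 0 (φ 1 f) = 0 := fun f => k0 _
  have z1 : ∀ f, d 1 (φ 0 f) = 0 := fun f => k1 _
  have na : ∀ j, φ j α ≠ 0 := fun j h => hα ((hker j α).1 h)
  have nb : ∀ j, φ j β ≠ 0 := fun j h => hβ ((hker j β).1 h)
  by_cases hdet : φ 0 α * φ 1 β = φ 0 β * φ 1 α
  · have hq : φ 0 β / φ 0 α = φ 1 β / φ 1 α := by
      rw [div_eq_div_iff (na 0) (na 1), ← hdet, mul_comm]
    obtain ⟨c, hc⟩ := hconst (φ 0 β / φ 0 α) (by rw [hq]; exact tangent_quot _ (z0 _) (z0 _))
      (tangent_quot _ (z1 _) (z1 _))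
    have hm : β - C c * α ∈ p := by
      rw [← hker 0, map_sub, map_mul, show φ 0 (C c) = algebraMap ℂ Ω c from (φ 0).commutes c,
        ← hc, div_mul_cancel₀ _ (na 0), sub_self]
    refine fin 1 c (Or.inl one_ne_zero) fun f hf => ?_
    have h1 := p.sub_mem (hs f hf) (p.mul_mem_right (D2 P f) hm)
    have h2 : α * D1 P f + β * D2 P f - (β - C c * α) * D2 P f =
        α * (C 1 * D1 P f + C c * D2 P f) := by rw [C_1]; ring
    rw [h2] at h1
    exact (hp.mem_or_mem h1).resolve_left hα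
  have e1 : ∀ j, φ j (E1 P) = 0 := fun j => (hker j _).2 (hE (E1_mem P))
  have e2 : ∀ j, φ j (E2 P) = 0 := fun j => (hker j _).2 (hE (E2_mem P))
  obtain ⟨c0, c1, c2, c3, -⟩ := tangent_coord P _ (φ 0) _ _ g0
  have n0 : φ 0 (X 0) ≠ φ 1 (X 0) := fun h => by
    obtain ⟨c, hc⟩ := hconst (φ 0 (X 0)) (by rw [h]; exact z0 _) (z1 _)
    exact tangent_ne _ hP.ns1 (na 0) (sub_eq_zero.1 ((tangent_E P (φ 0)).1.symm.trans (e1 0)))
      c0 c1 c hc
  have n2 : φ 0 (X 2) ≠ φ 1 (X 2) := fun h => by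
    obtain ⟨c, hc⟩ := hconst (φ 0 (X 2)) (by rw [h]; exact z0 _) (z1 _)
    exact tangent_ne _ hP.ns2 (nb 0) (sub_eq_zero.1 ((tangent_E P (φ 0)).2.symm.trans (e2 0)))
      c2 c3 c hc
  obtain ⟨ψ, s1, s2, t0, t1⟩ := tangent_sum P (l0 • d 0) (l1 • d 1) (φ 0) (φ 1) _ _ _ _ g0 g1
    (fun f => by rw [Derivation.smul_apply, z0, smul_zero])
    (fun f => by rw [Derivation.smul_apply, z1, smul_zero]) (e1 0) (e2 0) (e1 1) (e2 1) n0 n2
  have hq : (RingHom.ker ψ).IsPrime := RingHom.ker_isPrime ψ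
  have hst : ∀ f ∈ RingHom.ker ψ, ψ (D1 P f) = 0 ∧ ψ (D2 P f) = 0 := by
    intro f hf
    have h0 : ψ f = 0 := hf
    have u0 := t0 f
    have u1 := t1 f
    rw [h0, map_zero] at u0 u1
    have hn : φ 0 α * φ 1 β - φ 0 β * φ 1 α ≠ 0 := sub_ne_zero.2 hdet
    constructor
    · refine (mul_eq_zero.1 ?_).resolve_left hn
      linear_combination φ 0 β * u1 - φ 1 β * u0
    · refine (mul_eq_zero.1 ?_).resolve_left hn
      linear_combination φ 1 α * u0 - φ 0 α * u1
  have h3 := hP.h2 (RingHom.ker ψ) hq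
    (Ideal.span_le.2 (by
      rintro f (rfl | rfl)
      · exact s1
      · exact s2))
    (fun f hf => (hst f hf).1) fun f hf => (hst f hf).2
  have h4 := trdeg_le_of_injective (Ideal.kerLiftAlg ψ) (Ideal.kerLiftAlg_injective ψ)
  rw [hΩ, ← dm_cast] at h4
  have h5 : dm (RingHom.ker ψ) ≤ 2 := by exact_mod_cast h4
  omega

end GPC96

end

-- part MP_57341d_ag.H96.Core
section

/-! The counting inequality, and the cases of curves and surfaces. -/

open MvPolynomial Pool.Agent.MP_d171e3_nt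

namespace GPC96

variable (P : Par)

/-- The three derivations. -/
noncomputable def DD : Fin 3 → Derivation ℂ R5 R5 := ![D1 P, D2 P, D3]

/-- Weights `1, 1, T`. -/
def ww (T : ℕ) : Fin 3 → ℕ := ![1, 1, T]

theorem ww_pos {T : ℕ} (hT : 1 ≤ T) : ∀ i, 1 ≤ ww T i := by
  intro i; fin_cases i <;> simp [ww, hT]

/-- Below weight `T` only `D1`, `D2` occur, and they commute. -/
theorem mem_Fl_iff (p : Ideal R5) {T n : ℕ} (hT : 1 ≤ T) (hn : n ≤ T) (f : R5) :
    f ∈ Fl p (DD P) (ww T) (ww_pos hT) n ↔ ∀ s t, s + t < n → (D1 P)^[s] ((D2 P)^[t] f) ∈ p := by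
  have h0 : ∀ g, DD P 0 g = D1 P g := fun _ => rfl
  have h1 : ∀ g, DD P 1 g = D2 P g := fun _ => rfl
  rw [mem_Fl]
  constructor
  · intro h s t hst
    have a1 : ∀ (s : ℕ) (g : R5), ap (DD P) (List.replicate s 0) g = (D1 P)^[s] g := by
      intro s
      induction s with
      | zero => intro g; rfl
      | succ s ih => intro g; rw [List.replicate_succ, ap, ih, h0, Function.iterate_succ_apply]
    have a2 : ∀ (t : ℕ) (g : R5), ap (DD P) (List.replicate t 1 ++ List.replicate s 0) g =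
        (D1 P)^[s] ((D2 P)^[t] g) := by
      intro t
      induction t with
      | zero => intro g; exact a1 s g
      | succ t ih =>
        intro g
        rw [List.replicate_succ, List.cons_append, ap, ih, h1, Function.iterate_succ_apply]
    rw [← a2]
    refine h _ ?_
    simp only [List.map_append, List.map_replicate, List.sum_append, List.sum_replicate, ww,
      Matrix.cons_val_zero, Matrix.cons_val_one, smul_eq_mul, mul_one]
    omega
  · intro h l hl
    have hc : Function.Commute (D1 P) (D2 P) := D1_D2 P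
    have a3 : ∀ (l : List (Fin 3)) (g : R5), (l.map (ww T)).sum < T →
        ∃ s t, s + t = (l.map (ww T)).sum ∧ ap (DD P) l g = (D1 P)^[s] ((D2 P)^[t] g) := by
      intro l
      induction l with
      | nil => intro g _; exact ⟨0, 0, rfl, rfl⟩
      | cons i l ih =>
        intro g hg
        rw [List.map_cons, List.sum_cons] at hg ⊢
        obtain ⟨s, t, hst, he⟩ := ih (DD P i g) (by omega)
        rw [ap, he]
        have w0 : ww T 0 = 1 := rfl
        have w1 : ww T 1 = 1 := rfl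
        have w2 : ww T 2 = T := rfl
        match i with
        | 0 =>
          refine ⟨s + 1, t, by omega, ?_⟩
          rw [h0, Function.iterate_succ_apply, (hc.iterate_right t).eq]
        | 1 =>
          refine ⟨s, t + 1, by omega, ?_⟩
          rw [h1, Function.iterate_succ_apply]
        | 2 => omega
    obtain ⟨s, t, hst, he⟩ := a3 l f (hl.trans_le hn)
    rw [he]
    exact h s t (by omega)

/-- Combination of `indep` and `card_bound` with `J = Fl (k * T)`. -/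
theorem core {p I : Ideal R5} [p.IsPrime] (hE : EI P ≤ p) {D T : ℕ} (hT : 1 ≤ T)
    (hp : p ∈ I.minimalPrimes) (hI : I ≤ Ideal.span {f | f ∈ I ∧ f.totalDegree ≤ D})
    (hIT : I ≤ Fl p (DD P) (ww T) (ww_pos hT) T) {κ : Type} [Fintype κ] [DecidableEq κ] (e : κ → Fin 3)
    (x δ : κ → R5) (hδ : ∀ j, δ j ∉ p) (hx : ∀ j, x j ∈ Fl p (DD P) (ww T) (ww_pos hT) (ww T (e j)))
    (hd : ∀ j, DD P (e j) (x j) - δ j ∈ p)
    (hn : ∀ i j, i ≠ j →
      DD P (e i) (x j) ∈ Fl p (DD P) (ww T) (ww_pos hT) (ww T (e j) + 1 - ww T (e i))) :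
    ∃ N₀ : ℕ, ∀ (k : ℕ) (S : Finset (κ → ℕ)), (∀ β ∈ S, ∑ j, ww T (e j) * β j < k * T) →
      S.card ≤ 4 * (3 * (N₀ + k * D) + 1) ^ (3 - dm p) := by
  obtain ⟨S₀, hS₀, hB⟩ := exists_bas P p hE
  obtain ⟨N₀, hN⟩ := card_bound P hB hp hI
  refine ⟨N₀, fun k S hS => ?_⟩
  have h1 : p ^ (k * T) ≤ Fl p (DD P) (ww T) (ww_pos hT) (k * T) := by
    have := pow_le_Fl p (DD P) (ww_pos hT) (I := p) (T := 1) (Fl_one p (DD P) (ww_pos hT)).ge (k * T)
    rwa [mul_one] at this
  have h2 : EI P ≤ Fl p (DD P) (ww T) (ww_pos hT) (k * T) := by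
    rw [EI, Ideal.span_le]
    rintro f (rfl | rfl)
    · refine mem_Fl_of_der_eq_zero p (DD P) (ww_pos hT) (hE (E1_mem P)) (fun i => ?_) _
      match i with
      | 0 => exact D1_E1 P
      | 1 => exact D2_E1 P
      | 2 => exact D3_E1 P
    · refine mem_Fl_of_der_eq_zero p (DD P) (ww_pos hT) (hE (E2_mem P)) (fun i => ?_) _
      match i with
      | 0 => exact D1_E2 P
      | 1 => exact D2_E2 P
      | 2 => exact D3_E2 P
  have h3 := hN _ (k * T) k h1 (pow_le_Fl p (DD P) (ww_pos hT) hIT k) h2 S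
    (fun β => ∏ j, x j ^ β.1 j) fun c hc hs => by
      obtain ⟨c', hc'⟩ : ∃ c' : (κ → ℕ) → R5, ∀ β : S, c' β.1 = c β :=
        ⟨fun β => if h : β ∈ S then c ⟨β, h⟩ else 0, fun β => dif_pos β.2⟩
      have h4 := indep p (DD P) (ww_pos hT) e x δ hδ hx hd hn (k * T) S hS c'
        (fun β hβ => by
          rw [hc' ⟨β, hβ⟩]
          exact hB.inj _ (hc _))
        (by
          rw [← Finset.sum_coe_sort S]
          simp only [hc']
          exact hs)
      funext β
      exact (hc' β).symm.trans (h4 β.1 β.2)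
  rwa [Fintype.card_coe, hS₀] at h3

/-- Some element of `p` is moved out of `p`. -/
theorem core_exists (hP : Good P) {p : Ideal R5} [hp : p.IsPrime] (hE : EI P ≤ p) (hd : dm p < 3) :
    ∃ n ∈ p, D1 P n ∉ p ∨ D2 P n ∉ p := by
  by_contra h
  push Not at h
  have := hP.h2 p hp hE (fun f hf => (h f hf).1) fun f hf => (h f hf).2
  omega

/-- Curves.  Hint: by `h2` some `n₀ ∈ p` has `(D1 n₀, D2 n₀) ∉ p × p`; by `tangent` with
`α = D2 n₀`, `β = -D1 n₀` some `n₁ ∈ p` has `det = D1 n₁ D2 n₀ - D2 n₁ D1 n₀ ∉ p`; take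
`x 0 = D2 n₀ * n₁ - D2 n₁ * n₀`, `x 1 = D1 n₁ * n₀ - D1 n₀ * n₁`, `δ = det`; `core` with `k = 2 k'`
and the box `a, b < k' T`. -/
theorem case_one (hP : Good P) {p I : Ideal R5} [p.IsPrime] (hE : EI P ≤ p) {D T : ℕ}
    (hT : 2 ≤ T) (hp : p ∈ I.minimalPrimes) (hI : I ≤ Ideal.span {f | f ∈ I ∧ f.totalDegree ≤ D})
    (hIT : ∀ f ∈ I, ∀ s t, s + t < T → (D1 P)^[s] ((D2 P)^[t] f) ∈ p) (hd : dm p = 1) :
    T ≤ 12 * D := by
  have hT1 : 1 ≤ T := by omega
  obtain ⟨n₀, hn₀, h₀⟩ := core_exists P hP hE (by omega)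
  obtain ⟨n₁, hn₁, h₁⟩ : ∃ n₁ ∈ p, D2 P n₀ * D1 P n₁ + -D1 P n₀ * D2 P n₁ ∉ p := by
    by_contra h
    push Not at h
    exact tangent P hP p hE hd (D2 P n₀) (-D1 P n₀) (by rw [neg_mem_iff]; exact h₀.symm) h
  have hm : ∀ a b : R5, a * n₀ + b * n₁ ∈ p := fun a b =>
    add_mem (Ideal.mul_mem_left _ _ hn₀) (Ideal.mul_mem_left _ _ hn₁)
  have w0 : ww T 0 = 1 := rfl
  have w1 : ww T 1 = 1 := rfl
  have hF := Fl_one p (DD P) (ww_pos hT1)
  obtain ⟨N₀, hN⟩ := core P hE hT1 hp hI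
    (fun f hf => (mem_Fl_iff P p hT1 le_rfl f).mpr (hIT f hf)) (κ := Fin 2) ![0, 1]
    ![D2 P n₀ * n₁ - D2 P n₁ * n₀, D1 P n₁ * n₀ - D1 P n₀ * n₁]
    (fun _ => D2 P n₀ * D1 P n₁ + -D1 P n₀ * D2 P n₁) (fun _ => h₁)
    (fun j => by
      match j with
      | 0 =>
        show D2 P n₀ * n₁ - D2 P n₁ * n₀ ∈ Fl p (DD P) (ww T) (ww_pos hT1) 1
        rw [hF]
        convert hm (-D2 P n₁) (D2 P n₀) using 1
        ring
      | 1 =>
        show D1 P n₁ * n₀ - D1 P n₀ * n₁ ∈ Fl p (DD P) (ww T) (ww_pos hT1) 1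
        rw [hF]
        convert hm (D1 P n₁) (-D1 P n₀) using 1
        ring)
    (fun j => by
      match j with
      | 0 =>
        show D1 P (D2 P n₀ * n₁ - D2 P n₁ * n₀) - _ ∈ p
        convert hm (-D1 P (D2 P n₁)) (D1 P (D2 P n₀)) using 1
        simp only [map_sub, Derivation.leibniz, smul_eq_mul]
        ring
      | 1 =>
        show D2 P (D1 P n₁ * n₀ - D1 P n₀ * n₁) - _ ∈ p
        convert hm (D2 P (D1 P n₁)) (-D2 P (D1 P n₀)) using 1
        simp only [map_sub, Derivation.leibniz, smul_eq_mul]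
        ring)
    (fun i j hij => by
      match i, j, hij with
      | 0, 0, hij => exact absurd rfl hij
      | 1, 1, hij => exact absurd rfl hij
      | 0, 1, _ =>
        show D1 P (D1 P n₁ * n₀ - D1 P n₀ * n₁) ∈ Fl p (DD P) (ww T) (ww_pos hT1) 1
        rw [hF]
        convert hm (D1 P (D1 P n₁)) (-D1 P (D1 P n₀)) using 1
        simp only [map_sub, Derivation.leibniz, smul_eq_mul]
        ring
      | 1, 0, _ =>
        show D2 P (D2 P n₀ * n₁ - D2 P n₁ * n₀) ∈ Fl p (DD P) (ww T) (ww_pos hT1) 1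
        rw [hF]
        convert hm (-D2 P (D2 P n₁)) (D2 P (D2 P n₀)) using 1
        simp only [map_sub, Derivation.leibniz, smul_eq_mul]
        ring)
  by_contra hlt
  obtain ⟨k, hk⟩ : ∃ k, k = 6 * N₀ + 3 := ⟨_, rfl⟩
  have h1 := hN (2 * k) (Fintype.piFinset fun _ => Finset.range (k * T)) fun β hβ => by
    have a0 := Finset.mem_range.mp (Fintype.mem_piFinset.mp hβ 0)
    have a1 := Finset.mem_range.mp (Fintype.mem_piFinset.mp hβ 1)
    rw [Fin.sum_univ_two, mul_assoc]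
    show 1 * β 0 + 1 * β 1 < _
    omega
  rw [Fintype.card_piFinset, Fin.prod_univ_two, Finset.card_range, hd] at h1
  have h2 : k * T ≤ 2 * (3 * (N₀ + 2 * k * D) + 1) := by
    refine Nat.mul_self_le_mul_self_iff.mp (h1.trans_eq ?_)
    ring
  have h3 : k * (12 * D + 1) ≤ k * T := Nat.mul_le_mul_left k (by omega)
  have h4 : k * (12 * D + 1) = 12 * (k * D) + k := by ring
  have h5 : 2 * (3 * (N₀ + 2 * k * D) + 1) = 6 * N₀ + 12 * (k * D) + 2 := by ring
  omega

/-- Surfaces: one element `n₀ ∈ p` with `D1 n₀ ∉ p` or `D2 n₀ ∉ p` (by `h2`), `κ = Unit`. -/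
theorem case_two (hP : Good P) {p I : Ideal R5} [p.IsPrime] (hE : EI P ≤ p) {D T : ℕ}
    (hT : 2 ≤ T) (hp : p ∈ I.minimalPrimes) (hI : I ≤ Ideal.span {f | f ∈ I ∧ f.totalDegree ≤ D})
    (hIT : ∀ f ∈ I, ∀ s t, s + t < T → (D1 P)^[s] ((D2 P)^[t] f) ∈ p) (hd : dm p = 2) :
    T ≤ 12 * D := by
  have hT1 : 1 ≤ T := by omega
  obtain ⟨n₀, hn₀, h₀⟩ := core_exists P hP hE (by omega)
  obtain ⟨i, hi, hw⟩ : ∃ i, DD P i n₀ ∉ p ∧ ww T i = 1 := by
    rcases h₀ with h | h
    exacts [⟨0, h, rfl⟩, ⟨1, h, rfl⟩]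
  obtain ⟨N₀, hN⟩ := core P hE hT1 hp hI
    (fun f hf => (mem_Fl_iff P p hT1 le_rfl f).mpr (hIT f hf)) (κ := Unit) (fun _ => i)
    (fun _ => n₀) (fun _ => DD P i n₀) (fun _ => hi)
    (fun _ => by
      rw [hw, Fl_one]
      exact hn₀)
    (fun _ => by
      rw [sub_self]
      exact p.zero_mem)
    (fun a b hab => absurd rfl hab)
  by_contra hlt
  obtain ⟨k, hk⟩ : ∃ k, k = 12 * N₀ + 5 := ⟨_, rfl⟩
  have h1 := hN k (Fintype.piFinset fun _ => Finset.range (k * T)) fun β hβ => by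
    have a0 := Finset.mem_range.mp (Fintype.mem_piFinset.mp hβ ())
    rw [Fintype.sum_unique, hw, one_mul]
    exact a0
  rw [Fintype.card_piFinset, Fintype.prod_unique, Finset.card_range, hd] at h1
  have h3 : k * (12 * D + 1) ≤ k * T := Nat.mul_le_mul_left k (by omega)
  have h4 : k * (12 * D + 1) = 12 * (k * D) + k := by ring
  have h5 : 4 * (3 * (N₀ + k * D) + 1) ^ (3 - 2) = 12 * N₀ + 12 * (k * D) + 4 := by ring
  omega

end GPC96

end

-- part MP_57341d_ag.H96.Case0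
section

/-! The case of an isolated point. -/

open MvPolynomial Pool.Agent.MP_d171e3_nt

namespace GPC96

variable (P : Par)

/-- A prime of dimension zero is the kernel of an evaluation. -/
theorem case0_eval {p : Ideal R5} [p.IsPrime] (hd : dm p = 0) :
    ∃ ε : R5 →ₐ[ℂ] ℂ, ∀ f, f ∈ p ↔ ε f = 0 := by
  have h := dm_cast p
  rw [hd, Nat.cast_zero, eq_comm, trdeg_eq_zero_iff] at h
  have hb : Function.Bijective (algebraMap ℂ (R5 ⧸ p)) :=
    IsAlgClosed.algebraMap_bijective_of_isIntegral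
  let e : ℂ ≃ₐ[ℂ] (R5 ⧸ p) := AlgEquiv.ofBijective (Algebra.ofId ℂ (R5 ⧸ p)) hb
  refine ⟨(e.symm : (R5 ⧸ p) →ₐ[ℂ] ℂ).comp (Ideal.Quotient.mkₐ ℂ p), fun f => ?_⟩
  rw [← Ideal.Quotient.eq_zero_iff_mem]
  simp

theorem case0_eps_C (ε : R5 →ₐ[ℂ] ℂ) (c : ℂ) : ε (C c) = c := ε.commutes c

/-- A local parameter on the first cubic. -/
theorem case0_x0 (hP : Good P) {p : Ideal R5} (hE : EI P ≤ p) {ε : R5 →ₐ[ℂ] ℂ}
    (hε : ∀ f, f ∈ p ↔ ε f = 0) :
    ∃ x : R5, x ∈ p ∧ D1 P x ∉ p ∧ D2 P x = 0 ∧ D3 x = 0 := by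
  have h := (hε _).1 (hE (E1_mem P))
  simp only [E1, map_sub, map_mul, map_pow, case0_eps_C, map_ofNat] at h
  rcases hP.ns1 (ε (X 0)) (ε (X 1)) (sub_eq_zero.1 h) with h1 | h1
  · refine ⟨X 0 - C (ε (X 0)), ?_, ?_, ?_, ?_⟩
    · rw [hε, map_sub, case0_eps_C, sub_self]
    · rw [hε, map_sub, der_C, D1_X0, sub_zero]; exact h1
    · rw [map_sub, der_C, D2_X0, sub_zero]
    · rw [map_sub, der_C, D3_X0, sub_zero]
  · refine ⟨X 1 - C (ε (X 1)), ?_, ?_, ?_, ?_⟩
    · rw [hε, map_sub, case0_eps_C, sub_self]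
    · rw [hε, map_sub, der_C, D1_X1, sub_zero]
      simpa only [map_sub, map_mul, map_pow, case0_eps_C, map_ofNat] using h1
    · rw [map_sub, der_C, D2_X1, sub_zero]
    · rw [map_sub, der_C, D3_X1, sub_zero]

/-- A local parameter on the second cubic. -/
theorem case0_x1 (hP : Good P) {p : Ideal R5} (hE : EI P ≤ p) {ε : R5 →ₐ[ℂ] ℂ}
    (hε : ∀ f, f ∈ p ↔ ε f = 0) :
    ∃ x : R5, x ∈ p ∧ D2 P x ∉ p ∧ D1 P x = 0 ∧ D3 x = 0 := by
  have h := (hε _).1 (hE (E2_mem P))
  simp only [E2, map_sub, map_mul, map_pow, case0_eps_C, map_ofNat] at h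
  rcases hP.ns2 (ε (X 2)) (ε (X 3)) (sub_eq_zero.1 h) with h1 | h1
  · refine ⟨X 2 - C (ε (X 2)), ?_, ?_, ?_, ?_⟩
    · rw [hε, map_sub, case0_eps_C, sub_self]
    · rw [hε, map_sub, der_C, D2_X2, sub_zero]; exact h1
    · rw [map_sub, der_C, D1_X2, sub_zero]
    · rw [map_sub, der_C, D3_X2, sub_zero]
  · refine ⟨X 3 - C (ε (X 3)), ?_, ?_, ?_, ?_⟩
    · rw [hε, map_sub, case0_eps_C, sub_self]
    · rw [hε, map_sub, der_C, D2_X3, sub_zero]
      simpa only [map_sub, map_mul, map_pow, case0_eps_C, map_ofNat] using h1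
    · rw [map_sub, der_C, D1_X3, sub_zero]
    · rw [map_sub, der_C, D3_X3, sub_zero]

/-- The exponents of total degree at most `T`. -/
def case0S (T : ℕ) : Finset (Fin 2 → ℕ) :=
  (Fintype.piFinset fun _ => Finset.range (T + 1)).filter fun β => β 0 + β 1 ≤ T

theorem case0_mem {T : ℕ} {β : Fin 2 → ℕ} : β ∈ case0S T ↔ β 0 + β 1 ≤ T := by
  simp only [case0S, Finset.mem_filter, Fintype.mem_piFinset, Finset.mem_range, Fin.forall_fin_two]
  omega

/-- The linear algebra step. -/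
theorem case0_lin (ε : R5 →ₐ[ℂ] ℂ) (T : ℕ) (m : (Fin 2 → ℕ) → R5) :
    ∃ (γ : ℂ) (c : (Fin 2 → ℕ) → ℂ), (γ ≠ 0 ∨ ∃ β ∈ case0S T, c β ≠ 0) ∧ ∀ s t, s + t ≤ T →
      ε ((D1 P)^[s] ((D2 P)^[t] (C γ * X 4 + ∑ β ∈ case0S T, C (c β) * m β))) = 0 := by
  classical
  let v : Option (case0S T) → R5 := fun o => o.elim (X 4) fun β => m β
  let L : (Option (case0S T) → ℂ) →ₗ[ℂ] (case0S T → ℂ) := LinearMap.pi fun β =>
    ε.toLinearMap ∘ₗ (((D1 P).toLinearMap ^ (β.1 0)) ∘ₗ (((D2 P).toLinearMap ^ (β.1 1)) ∘ₗ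
      Fintype.linearCombination ℂ v))
  have hk : LinearMap.ker L ≠ ⊥ := by
    refine LinearMap.ker_ne_bot_of_finrank_lt ?_
    simp
  obtain ⟨u, hu, hu0⟩ := (Submodule.ne_bot_iff _).1 hk
  refine ⟨u none, fun β => if h : β ∈ case0S T then u (some ⟨β, h⟩) else 0, ?_, fun s t hst => ?_⟩
  · by_contra hcon
    push Not at hcon
    refine hu0 (funext fun o => ?_)
    rcases o with _ | ⟨β, hβ⟩
    · exact hcon.1
    · simpa [hβ] using hcon.2 β hβ
  · have hm : ![s, t] ∈ case0S T := case0_mem.2 (by simpa using hst)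
    have h1 := congrFun (LinearMap.mem_ker.1 hu) ⟨_, hm⟩
    have h2 : Fintype.linearCombination ℂ v u = C (u none) * X 4 +
        ∑ β ∈ case0S T, C (if h : β ∈ case0S T then u (some ⟨β, h⟩) else 0) * m β := by
      rw [Fintype.linearCombination_apply, Fintype.sum_option, ← Finset.sum_coe_sort (case0S T)]
      simp [v, smul_eq_C_mul]
    simp only [L, LinearMap.pi_apply, LinearMap.comp_apply, Module.End.pow_apply, h2,
      Matrix.cons_val_zero, Matrix.cons_val_one, Pi.zero_apply, AlgHom.toLinearMap_apply] at h1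
    exact h1

theorem case0_comm (t : ℕ) (f : R5) : (D2 P)^[t] (D1 P f) = D1 P ((D2 P)^[t] f) :=
  ((Function.Commute.iterate_left (f := D2 P) (g := D1 P) (fun f => (D1_D2 P f).symm) t) f)

/-- The third parameter. -/
theorem case0_x2 {p : Ideal R5} [p.IsPrime] {ε : R5 →ₐ[ℂ] ℂ} (hε : ∀ f, f ∈ p ↔ ε f = 0) (T : ℕ)
    {x y : R5} (hx : x ∈ p) (hx1 : D1 P x ∉ p) (hx2 : D2 P x = 0) (hx3 : D3 x = 0)
    (hy : y ∈ p) (hy2 : D2 P y ∉ p) (hy1 : D1 P y = 0) (hy3 : D3 y = 0) :
    ∃ z : R5, D3 z ∉ p ∧ ∀ s t, s + t ≤ T → (D1 P)^[s] ((D2 P)^[t] z) ∈ p := by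
  classical
  obtain ⟨γ, c, hne, hz⟩ := case0_lin P ε T fun β => ∏ j, ![x, y] j ^ β j
  refine ⟨_, ?_, fun s t hst => (hε _).2 (hz s t hst)⟩
  have h3 : D3 (C γ * X 4 + ∑ β ∈ case0S T, C (c β) * ∏ j, ![x, y] j ^ β j) = C γ := by
    rw [map_add, map_sum, Finset.sum_eq_zero]
    · simp
    · intro β _
      simp [Fin.prod_univ_two, Derivation.leibniz_pow, hx3, hy3]
  rw [h3, hε, case0_eps_C]
  intro hγ
  have hT : 1 ≤ T + 1 := Nat.le_add_left 1 T
  have key := indep p (DD P) (ww_pos hT) (κ := Fin 2) ![0, 1] ![x, y] ![D1 P x, D2 P y]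
    (by intro j; fin_cases j; exacts [hx1, hy2])
    (by
      intro j
      fin_cases j
      · simpa [ww, Fl_one] using hx
      · simpa [ww, Fl_one] using hy)
    (by intro j; fin_cases j <;> simp [DD])
    (by
      intro i j hij
      fin_cases i <;> fin_cases j
      · exact absurd rfl hij
      · simp [DD, hy1]
      · simp [DD, hx2]
      · exact absurd rfl hij)
    (T + 1) (case0S T)
    (by
      intro β hβ
      have := case0_mem.1 hβ
      simp [ww, Fin.sum_univ_two]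
      omega)
    (fun β => C (c β))
    (by
      intro β _ h
      rw [hε, case0_eps_C] at h
      rw [h, map_zero])
    (by
      rw [mem_Fl_iff P p hT le_rfl]
      intro s t hst
      have := (hε _).2 (hz s t (by omega))
      rwa [hγ, map_zero, zero_mul, zero_add] at this)
  rcases hne with h | ⟨β, hβ, h⟩
  · exact h hγ
  · exact h (by simpa using key β hβ)

/-- The final limit. -/
theorem case0_limit {T D N : ℕ}
    (h : ∀ k : ℕ, k * T * (k * T) * (2 * k) ≤ 4 * (3 * (N + 4 * k * D) + 1) ^ 3) :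
    T ^ 2 ≤ 3456 * D ^ 3 := by
  by_contra hcon
  have h1 : 3456 * D ^ 3 + 1 ≤ T ^ 2 := Nat.succ_le_of_lt (not_le.1 hcon)
  obtain ⟨M, hM⟩ : ∃ M, M = 3 * N + 1 := ⟨_, rfl⟩
  obtain ⟨A, hA⟩ : ∃ A, A = 432 * M * D ^ 2 + 36 * M ^ 2 * D + M ^ 3 := ⟨_, rfl⟩
  obtain ⟨k, hk⟩ : ∃ k, k = 2 * A + 1 := ⟨_, rfl⟩
  have hk1 : 1 ≤ k := by omega
  have h2 := h k
  have h3 : 4 * (3 * (N + 4 * k * D) + 1) ^ 3 = 6912 * k ^ 3 * D ^ 3 +
      4 * (432 * M * D ^ 2 * k ^ 2 + 36 * M ^ 2 * D * k + M ^ 3) := by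
    rw [hM]; ring
  have h4 : 36 * M ^ 2 * D * k ≤ 36 * M ^ 2 * D * k ^ 2 :=
    Nat.mul_le_mul_left _ (by nlinarith)
  have h5 : M ^ 3 ≤ M ^ 3 * k ^ 2 := Nat.le_mul_of_pos_right _ (by positivity)
  have h6 : 432 * M * D ^ 2 * k ^ 2 + 36 * M ^ 2 * D * k + M ^ 3 ≤ A * k ^ 2 := by
    rw [hA]; nlinarith
  have h7 : 2 * k ^ 3 * (3456 * D ^ 3 + 1) ≤ k * T * (k * T) * (2 * k) := by
    calc 2 * k ^ 3 * (3456 * D ^ 3 + 1) ≤ 2 * k ^ 3 * T ^ 2 := Nat.mul_le_mul_left _ h1
      _ = _ := by ring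
  have h8 : 2 * k ^ 3 = 4 * (A * k ^ 2) + 2 * k ^ 2 := by
    rw [show k ^ 3 = k * k ^ 2 by ring]
    nth_rewrite 1 [hk]
    ring
  have h9 : 0 < k ^ 2 := by positivity
  nlinarith

/-- Points.  Hint: `dm p = 0` makes every variable congruent to a constant (`exists_bas`,
`IsAlgClosed`).  Take `x 0 = X 0 - c` or `X 1 - c'` (by `ns1`), `x 1` likewise with `X 2, X 3`, and
`x 2 = γ X 4 - h(x 0, x 1)` with `D1^s D2^t (x 2) ∈ p` for all `s + t ≤ T`: the
`(T+2).choose 2 + 1` elements `X 4`, `x 0 ^ a * x 1 ^ b` (`a + b ≤ T`) have a nontrivial combination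
killed by the `(T+2).choose 2` linear forms with values in `R5 ⧸ p = ℂ`, and `γ ≠ 0` by `indep`
(used with the filtration of `D1, D2` only, or with weights `1, 1, T+1`).  To see
`D1 (x 2) ∈ Fl T` use `mem_Fl_iff`.  Then `core` with `k = 4 k'` and the box `a, b < k' T`,
`c < 2 k'`: `2 k'³ T² ≤ 4 (3 (N₀ + 4 k' D) + 1)³` for all `k'`. -/
theorem case_zero (hP : Good P) {p I : Ideal R5} [p.IsPrime] (hE : EI P ≤ p) {D T : ℕ}
    (hT : 2 ≤ T) (hp : p ∈ I.minimalPrimes) (hI : I ≤ Ideal.span {f | f ∈ I ∧ f.totalDegree ≤ D})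
    (hIT : ∀ f ∈ I, ∀ s t, s + t < T → (D1 P)^[s] ((D2 P)^[t] f) ∈ p) (hd : dm p = 0) :
    T ^ 2 ≤ 3456 * D ^ 3 := by
  classical
  obtain ⟨ε, hε⟩ := case0_eval hd
  obtain ⟨x, hx, hx1, hx2, hx3⟩ := case0_x0 P hP hE hε
  obtain ⟨y, hy, hy2, hy1, hy3⟩ := case0_x1 P hP hE hε
  obtain ⟨z, hz3, hz⟩ := case0_x2 P hε T hx hx1 hx2 hx3 hy hy2 hy1 hy3
  have hT1 : 1 ≤ T := by omega
  have z0 : z ∈ Fl p (DD P) (ww T) (ww_pos hT1) T :=
    (mem_Fl_iff P p hT1 le_rfl _).2 fun s t hst => hz s t hst.le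
  have z1 : D1 P z ∈ Fl p (DD P) (ww T) (ww_pos hT1) T :=
    (mem_Fl_iff P p hT1 le_rfl _).2 fun s t hst => by
      rw [case0_comm, ← Function.iterate_succ_apply]
      exact hz _ _ (by omega)
  have z2 : D2 P z ∈ Fl p (DD P) (ww T) (ww_pos hT1) T :=
    (mem_Fl_iff P p hT1 le_rfl _).2 fun s t hst => by
      rw [← Function.iterate_succ_apply (D2 P)]
      exact hz _ _ (by omega)
  obtain ⟨N, hN⟩ := core P hE hT1 hp hI
    (fun f hf => (mem_Fl_iff P p hT1 le_rfl _).2 (hIT f hf)) (κ := Fin 3) id ![x, y, z]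
    ![D1 P x, D2 P y, D3 z]
    (by intro j; fin_cases j; exacts [hx1, hy2, hz3])
    (by
      intro j
      fin_cases j
      · simpa [ww, Fl_one] using hx
      · simpa [ww, Fl_one] using hy
      · simpa [ww] using z0)
    (by intro j; fin_cases j <;> simp [DD])
    (by
      intro i j hij
      fin_cases i <;> fin_cases j
      · exact absurd rfl hij
      · simp [DD, hy1]
      · simpa [DD, ww] using z1
      · simp [DD, hx2]
      · exact absurd rfl hij
      · simpa [DD, ww] using z2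
      · simp [DD, hx3]
      · simp [DD, hy3]
      · exact absurd rfl hij)
  refine case0_limit (N := N) fun k => ?_
  have h := hN (4 * k)
    (Fintype.piFinset ![Finset.range (k * T), Finset.range (k * T), Finset.range (2 * k)]) (by
      intro β hβ
      rw [Fintype.mem_piFinset] at hβ
      have h0 : β 0 < k * T := by simpa using hβ 0
      have h1 : β 1 < k * T := by simpa using hβ 1
      have h2 : β 2 < 2 * k := by simpa using hβ 2
      have h3 : T * β 2 ≤ T * (2 * k) := Nat.mul_le_mul_left _ h2.le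
      simp only [ww, Fin.sum_univ_three, id, Matrix.cons_val_zero, Matrix.cons_val_one,
        Matrix.cons_val, one_mul]
      nlinarith)
  rw [hd, Fintype.card_piFinset, Fin.prod_univ_three] at h
  simpa using h

end GPC96

end

-- part MP_57341d_ag.H96.ZeroAlg
section

/-! The zero estimate. -/

open MvPolynomial Pool.Agent.MP_d171e3_nt

namespace GPC96

variable (P : Par)

/-- The ideal of all derivatives of order `≤ k`, together with the cubics. -/
noncomputable def IK (F : R5) (k : ℕ) : Ideal R5 :=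
  Ideal.span {f | ∃ s t, s + t ≤ k ∧ f = (D1 P)^[s] ((D2 P)^[t] F)} ⊔ EI P

theorem zeroalg_der (D : Derivation ℂ R5 R5) (h1 : D (E1 P) = 0) (h2 : D (E2 P) = 0)
    {S : Set R5} {J : Ideal R5} (hS : Ideal.span S ⊔ EI P ≤ J) (hD : ∀ f ∈ S, D f ∈ J) {f : R5}
    (hf : f ∈ Ideal.span S ⊔ EI P) : D f ∈ J := by
  obtain ⟨a, ha, b, hb, rfl⟩ := Submodule.mem_sup.1 hf
  rw [map_add]
  refine add_mem ?_ (hS (Ideal.mem_sup_right (EI_stable P D h1 h2 hb)))
  clear hf
  induction ha using Submodule.span_induction with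
  | mem x hx => exact hD x hx
  | zero => simp
  | add x y _ _ hx hy => rw [map_add]; exact add_mem hx hy
  | smul c x hx h =>
    rw [smul_eq_mul, Derivation.leibniz, smul_eq_mul, smul_eq_mul]
    exact add_mem (Ideal.mul_mem_left _ _ h)
      (Ideal.mul_mem_right _ _ (hS (Ideal.mem_sup_left hx)))

theorem zeroalg_comm (s : ℕ) (f : R5) : D2 P ((D1 P)^[s] f) = (D1 P)^[s] (D2 P f) :=
  (Function.Commute.iterate_left (f := D1 P) (g := D2 P) (D1_D2 P) s f).symm

theorem zeroalg_mono (F : R5) {k k' : ℕ} (h : k ≤ k') : IK P F k ≤ IK P F k' := by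
  refine sup_le_sup_right (Ideal.span_mono ?_) _
  rintro _ ⟨s, t, h1, h2⟩
  exact ⟨s, t, h1.trans h, h2⟩

theorem zeroalg_mem (F : R5) {k s t : ℕ} (h : s + t ≤ k) :
    (D1 P)^[s] ((D2 P)^[t] F) ∈ IK P F k :=
  Ideal.mem_sup_left (Ideal.subset_span ⟨s, t, h, rfl⟩)

theorem zeroalg_d1 (F : R5) (k : ℕ) {f : R5} (hf : f ∈ IK P F k) : D1 P f ∈ IK P F (k + 1) := by
  refine zeroalg_der P _ (D1_E1 P) (D1_E2 P) (zeroalg_mono P F k.le_succ) ?_ hf
  rintro _ ⟨s, t, h, rfl⟩
  rw [← Function.iterate_succ_apply' (D1 P)]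
  exact zeroalg_mem P F (by omega)

theorem zeroalg_d2 (F : R5) (k : ℕ) {f : R5} (hf : f ∈ IK P F k) : D2 P f ∈ IK P F (k + 1) := by
  refine zeroalg_der P _ (D2_E1 P) (D2_E2 P) (zeroalg_mono P F k.le_succ) ?_ hf
  rintro _ ⟨s, t, h, rfl⟩
  rw [zeroalg_comm, ← Function.iterate_succ_apply' (D2 P)]
  exact zeroalg_mem P F (by omega)

/-- The ideal of the derivatives with fewer than `t` letters `D2` and at most `s` letters `D1`. -/
noncomputable def zeroalg_M (F : R5) (s t : ℕ) : Ideal R5 :=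
  Ideal.span {f | ∃ s' ≤ s, ∃ t' < t, f = (D1 P)^[s'] ((D2 P)^[t'] F)} ⊔ EI P

theorem zeroalg_M_iter (F : R5) (t : ℕ) {g : R5} (hg : g ∈ zeroalg_M P F 0 t) (s : ℕ) :
    (D1 P)^[s] g ∈ zeroalg_M P F s t := by
  induction s with
  | zero => exact hg
  | succ s ih =>
    rw [Function.iterate_succ_apply']
    refine zeroalg_der P _ (D1_E1 P) (D1_E2 P) (sup_le_sup_right (Ideal.span_mono ?_) _) ?_ ih
    · rintro _ ⟨s', h1, h2⟩
      exact ⟨s', h1.trans s.le_succ, h2⟩
    rintro _ ⟨s', h1, t', h2, rfl⟩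
    rw [← Function.iterate_succ_apply' (D1 P)]
    exact Ideal.mem_sup_left (Ideal.subset_span ⟨s' + 1, by omega, t', h2, rfl⟩)

theorem zeroalg_cubic (i j : Fin 5) (g h : ℂ) :
    (X j ^ 2 - (4 * X i ^ 3 - C g * X i - C h) : R5).totalDegree ≤ 3 := by
  have h1 : ∀ c : ℂ, ∀ n : ℕ, n ≤ 3 → (C c * X i ^ n : R5).totalDegree ≤ 3 := fun c n hn =>
    (totalDegree_mul _ _).trans (by rw [totalDegree_C, totalDegree_X_pow]; omega)
  refine (totalDegree_sub _ _).trans (max_le (by rw [totalDegree_X_pow]; omega) ?_)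
  refine (totalDegree_sub _ _).trans (max_le ?_ (by rw [totalDegree_C]; omega))
  refine (totalDegree_sub _ _).trans (max_le (h1 4 3 le_rfl) ?_)
  simpa using h1 g 1 (by omega)

/-- Hint: `low2` then `low1`, and a double induction: `D1^s D2^t F` lies in the span of the low
degree elements of `IK F k`.  The cubics have degree `3`. -/
theorem IK_low (hP : Good P) (F : R5) (k : ℕ) :
    IK P F k ≤ Ideal.span {f | f ∈ IK P F k ∧ f.totalDegree ≤ 16 * F.totalDegree + 3} := by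
  set L := Ideal.span {f | f ∈ IK P F k ∧ f.totalDegree ≤ 16 * F.totalDegree + 3} with hL
  have hE : EI P ≤ L := by
    refine Ideal.span_le.2 ?_
    rintro f (rfl | rfl)
    · exact Ideal.subset_span ⟨Ideal.mem_sup_right (E1_mem P),
        (zeroalg_cubic 0 1 P.g P.h).trans (by omega)⟩
    · exact Ideal.subset_span ⟨Ideal.mem_sup_right (E2_mem P),
        (zeroalg_cubic 2 3 P.g' P.h').trans (by omega)⟩
  have key : ∀ t s, s + t ≤ k → (D1 P)^[s] ((D2 P)^[t] F) ∈ L := by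
    intro t
    induction t using Nat.strong_induction_on with
    | _ t iht =>
      obtain ⟨G, hG, hG'⟩ := hP.low2 F t
      have a0 : G - (D2 P)^[t] F ∈ zeroalg_M P F 0 t := by
        refine (sup_le_sup_right (Ideal.span_mono ?_) _ : _ ≤ zeroalg_M P F 0 t) hG'
        rintro _ ⟨t', h1, h2⟩
        exact ⟨0, le_rfl, t', h1, by rw [Function.iterate_zero_apply]; exact h2⟩
      have a1 : ∀ s, s + t ≤ k → (D1 P)^[s] G - (D1 P)^[s] ((D2 P)^[t] F) ∈ L ⊓ IK P F k := by
        intro s hs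
        rw [← iterate_map_sub]
        refine (sup_le (Ideal.span_le.2 ?_) (le_inf hE le_sup_right) :
          zeroalg_M P F s t ≤ L ⊓ IK P F k) (zeroalg_M_iter P F t a0 s)
        rintro _ ⟨s', h1, t', h2, rfl⟩
        exact ⟨iht t' h2 s' (by omega), zeroalg_mem P F (by omega)⟩
      have a2 : ∀ s, s + t ≤ k → (D1 P)^[s] G ∈ IK P F k := fun s hs => by
        simpa using add_mem (a1 s hs).2 (zeroalg_mem P F hs)
      have a3 : ∀ s, s + t ≤ k → (D1 P)^[s] G ∈ L := by
        intro s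
        induction s using Nat.strong_induction_on with
        | _ s ihs =>
          intro hs
          obtain ⟨H, hH, hH'⟩ := hP.low1 G s
          have b1 : H - (D1 P)^[s] G ∈ L ⊓ IK P F k := by
            refine (sup_le (Ideal.span_le.2 ?_) (le_inf hE le_sup_right) : _ ≤ L ⊓ IK P F k) hH'
            rintro _ ⟨s', h1, rfl⟩
            exact ⟨ihs s' h1 (by omega), a2 s' (by omega)⟩
          have b2 : H ∈ IK P F k := by simpa using add_mem b1.2 (a2 s hs)
          have b3 : H ∈ L := Ideal.subset_span ⟨b2, by omega⟩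
          simpa using sub_mem b3 b1.1
      intro s hs
      simpa using sub_mem (a3 s hs) (a1 s hs).1
  refine sup_le (Ideal.span_le.2 ?_) hE
  rintro _ ⟨s, t, h, rfl⟩
  exact key t s h

theorem IK_der (F : R5) (k s t : ℕ) {f : R5} (hf : f ∈ IK P F k) :
    (D1 P)^[s] ((D2 P)^[t] f) ∈ IK P F (k + (s + t)) := by
  induction s with
  | zero =>
    induction t with
    | zero => exact hf
    | succ t ih =>
      rw [Function.iterate_zero_apply] at ih ⊢
      rw [Function.iterate_succ_apply']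
      exact zeroalg_mono P F (by omega) (zeroalg_d2 P F _ ih)
  | succ s ih =>
    rw [Function.iterate_succ_apply']
    exact zeroalg_mono P F (by omega) (zeroalg_d1 P F _ ih)

theorem zeroalg_dm {p : Ideal R5} [p.IsPrime] (hE : EI P ≤ p) {F : MvPolynomial (Fin 3) ℂ}
    (hF : F ≠ 0) (h : rename emb F ∈ p) : dm p ≤ 2 := by
  obtain ⟨S, hS, hB⟩ := exists_bas P p hE
  by_contra hc
  have h1 : S = Finset.univ := Finset.eq_univ_of_card S
    (le_antisymm (Finset.card_le_univ S) (by rw [Fintype.card_fin]; omega))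
  have h2 : rename emb F ∈ Bs S := by
    rw [h1, Bs, Finset.coe_univ, Set.image_univ, Algebra.adjoin_range_eq_range_aeval]
    exact ⟨F, by rw [rename_eq_aeval]; rfl⟩
  exact hF (rename_injective emb (by decide) ((hB.inj _ h2 h).trans (map_zero _).symm))

theorem zeroalg_key (hP : Good P) {F : R5} {D T k : ℕ} (hD : 1 ≤ D) (hF : F.totalDegree ≤ D)
    (hT : 1 ≤ T) {p : Ideal R5} (hp : p ∈ (IK P F k).minimalPrimes) (h : IK P F (k + T) ≤ p)
    (hd : dm p ≤ 2) : (T + 1) ^ 2 ≤ 3456 * (19 * D) ^ 3 := by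
  have := hp.isPrime
  have hE : EI P ≤ p := le_sup_right.trans h
  have hI : IK P F k ≤ Ideal.span {f | f ∈ IK P F k ∧ f.totalDegree ≤ 19 * D} :=
    (IK_low P hP F k).trans (Ideal.span_mono fun f hf => ⟨hf.1, hf.2.trans (by omega)⟩)
  have hIT : ∀ f ∈ IK P F k, ∀ s t, s + t < T + 1 → (D1 P)^[s] ((D2 P)^[t] f) ∈ p :=
    fun f hf s t hst => h (zeroalg_mono P F (by omega) (IK_der P F k s t hf))
  have e : T + 1 ≤ 12 * (19 * D) → (T + 1) ^ 2 ≤ 3456 * (19 * D) ^ 3 := fun h1 => by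
    refine (Nat.pow_le_pow_left h1 2).trans ?_
    have h2 : (19 * D) ^ 2 ≤ (19 * D) ^ 3 := Nat.pow_le_pow_right (by omega) (by omega)
    rw [mul_pow 12]
    omega
  obtain h0 | h0 | h0 : dm p = 0 ∨ dm p = 1 ∨ dm p = 2 := by omega
  · exact case_zero P hP hE (by omega) hp hI hIT h0
  · exact e (case_one P hP hE (by omega) hp hI hIT h0)
  · exact e (case_two P hP hE (by omega) hp hI hIT h0)

/-- The zero estimate.  Hint: `T' = (T-1)/3`, `I j = IK F (j T')`, all inside the maximal ideal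
`ker (eval pt)`; choose `p 3 ≥ p 2 ≥ p 1 ≥ p 0` with `p j` minimal over `I j`
(`Ideal.exists_minimalPrimes_le`).  `dm (p 0) ≤ 2` (`exists_bas`: if `S = univ` then
`rename emb F ∈ Bs S ∩ p 0` is zero), and `dm_lt`, so `p j = p (j+1)` for some `j`; apply the case
`dm (p j)` with `T' + 1` in place of `T`. -/
theorem zero_alg (hP : Good P) : ∃ C : ℕ, ∀ (D T : ℕ) (F : MvPolynomial (Fin 3) ℂ)
    (pt : Fin 5 → ℂ), 1 ≤ D → F ≠ 0 → F.totalDegree ≤ D → eval pt (E1 P) = 0 →
    eval pt (E2 P) = 0 →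
    (∀ s t, s + t < T → eval pt ((D1 P)^[s] ((D2 P)^[t] (rename emb F))) = 0) →
    T ^ 2 ≤ C * D ^ 3 := by
  refine ⟨9 * (3456 * 19 ^ 3), fun D T F pt hD hF hFD h1 h2 h3 => ?_⟩
  have hD3 : 1 ≤ D ^ 3 := Nat.one_le_pow _ _ hD
  by_cases hT : T ≤ 3
  · have := Nat.pow_le_pow_left hT 2
    omega
  obtain ⟨T', hT'⟩ : ∃ T', T' = (T - 1) / 3 := ⟨_, rfl⟩
  have hdeg : (rename emb F).totalDegree ≤ D := (totalDegree_rename_le _ _).trans hFD
  have hm : (RingHom.ker (eval pt : R5 →+* ℂ)).IsPrime := RingHom.ker_isPrime _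
  have h4 : IK P (rename emb F) (0 + T' + T' + T') ≤ RingHom.ker (eval pt : R5 →+* ℂ) := by
    refine sup_le (Ideal.span_le.2 ?_) (Ideal.span_le.2 ?_)
    · rintro _ ⟨s, t, h, rfl⟩
      exact h3 s t (by omega)
    · rintro f (rfl | rfl)
      · exact h1
      · exact h2
  obtain ⟨p3, m3, -⟩ := Ideal.exists_minimalPrimes_le h4
  have := m3.isPrime
  obtain ⟨p2, m2, l2⟩ := Ideal.exists_minimalPrimes_le
    ((zeroalg_mono P _ (Nat.le_add_right _ T')).trans m3.le)
  have := m2.isPrime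
  obtain ⟨p1, m1, l1⟩ := Ideal.exists_minimalPrimes_le
    ((zeroalg_mono P _ (Nat.le_add_right _ T')).trans m2.le)
  have := m1.isPrime
  obtain ⟨p0, m0, l0⟩ := Ideal.exists_minimalPrimes_le
    ((zeroalg_mono P _ (Nat.le_add_right _ T')).trans m1.le)
  have := m0.isPrime
  have d0 : dm p0 ≤ 2 := zeroalg_dm P (le_sup_right.trans m0.le) hF
    (m0.le (zeroalg_mem P _ (s := 0) (t := 0) le_rfl))
  have key : (T' + 1) ^ 2 ≤ 3456 * (19 * D) ^ 3 := by
    rcases l0.eq_or_lt with e0 | e0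
    · exact zeroalg_key P hP hD hdeg (by omega) m0 (e0 ▸ m1.le) d0
    have d1 := dm_lt e0
    rcases l1.eq_or_lt with e1 | e1
    · exact zeroalg_key P hP hD hdeg (by omega) m1 (e1 ▸ m2.le) (by omega)
    have d2 := dm_lt e1
    rcases l2.eq_or_lt with e2 | e2
    · exact zeroalg_key P hP hD hdeg (by omega) m2 (e2 ▸ m3.le) (by omega)
    have d3 := dm_lt e2
    omega
  have h5 : T ^ 2 ≤ (3 * (T' + 1)) ^ 2 := Nat.pow_le_pow_left (by omega) 2
  rw [mul_pow] at h5 key
  omega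

end GPC96

end

-- part MP_57341d_ag.H96.Fibre
section

/-! Finite fibres of the Weierstrass function; formal Laurent data at the origin. -/

open Complex Filter Topology
open scoped PeriodPair

namespace GPC96

variable (L : PeriodPair)

theorem fibre_ev (l : ℂ) : ∀ᶠ w in 𝓝[≠] l, w ∉ L.lattice := by
  filter_upwards [self_mem_nhdsWithin,
    nhdsWithin_le_nhds (L.compl_lattice_sdiff_singleton_mem_nhds l)] with w hw hw' hm
  exact hw' ⟨hm, hw⟩

theorem fibre_isolated {S : Set ℂ} (hS : S.Finite) (z : ℂ) :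
    ∀ᶠ w in 𝓝[≠] z, ¬ (w ∈ L.lattice ∨ ℘[L] w ∈ S) := by
  have key : ∀ᶠ w in 𝓝[≠] z, ℘[L] w ∉ S := by
    by_cases hz : z ∈ L.lattice
    · have h : Tendsto ℘[L] (𝓝[≠] z) (Bornology.cobounded ℂ) := by
        apply tendsto_cobounded_of_meromorphicOrderAt_neg
        rw [L.order_weierstrassP z hz]
        decide
      exact h.eventually hS.isBounded.compl
    · have h : ∀ s ∈ S, ∀ᶠ w in 𝓝[≠] z, ℘[L] w ≠ s := by
        intro s _
        have ha : AnalyticAt ℂ (fun w => ℘[L] w - s) z :=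
          (L.analyticOnNhd_weierstrassP z hz).sub analyticAt_const
        rcases ha.eventually_eq_zero_or_eventually_ne_zero with h | h
        · exact absurd (h.mono fun w hw => sub_eq_zero.1 hw) (wp_not_const L hz)
        · exact h.mono fun w hw => sub_ne_zero.1 hw
      exact ((eventually_all_finite hS).2 h).mono fun w hw hm => hw _ hm rfl
  filter_upwards [key, fibre_ev L z] with w h1 h2 h
  exact h.elim h2 h1

/-- Fibres of `℘` are finite modulo the lattice.  Hint: reduce `u j` into a fixed closed ball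
(`ZSpan.fract`, `ZSpan.norm_fract_le`, `lattice_eq_span_range_basis`); in a compact set the points
with `z ∈ lattice ∨ ℘ z ∈ S` are finite (isolated: off the lattice by `wp_not_const`, at lattice
points since `‖℘‖ → ∞`); pigeonhole. -/
theorem finite_fibre {S : Set ℂ} (hS : S.Finite) (u : ℕ → ℂ)
    (hu : ∀ j, u j ∈ L.lattice ∨ ℘[L] (u j) ∈ S) :
    ∃ j j', j < j' ∧ u j' - u j ∈ L.lattice := by
  have hfin : ({w | w ∈ L.lattice ∨ ℘[L] w ∈ S} ∩
      Metric.closedBall (0 : ℂ) (∑ i, ‖L.basis i‖)).Finite := by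
    by_contra hinf
    obtain ⟨x, -, hx⟩ := Set.Infinite.exists_accPt_of_subset_isCompact hinf
      (isCompact_closedBall (0 : ℂ) (∑ i, ‖L.basis i‖)) Set.inter_subset_right
    rw [accPt_iff_frequently_nhdsNE] at hx
    exact hx ((fibre_isolated L hS x).mono fun w hw h => hw h.1)
  have hmem : ∀ j, ZSpan.fract L.basis (u j) ∈ ({w | w ∈ L.lattice ∨ ℘[L] w ∈ S} ∩
      Metric.closedBall (0 : ℂ) (∑ i, ‖L.basis i‖)) := by
    intro j
    refine ⟨?_, mem_closedBall_zero_iff.2 (ZSpan.norm_fract_le _ _)⟩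
    have hl : (ZSpan.floor L.basis (u j) : ℂ) ∈ L.lattice := by
      rw [L.lattice_eq_span_range_basis]
      exact (ZSpan.floor L.basis (u j)).2
    rw [ZSpan.fract_apply]
    rcases hu j with h | h
    · exact Or.inl (sub_mem h hl)
    · refine Or.inr ?_
      rw [← L.weierstrassP_sub_coe (u j) ⟨_, hl⟩] at h
      exact h
  obtain ⟨j, j', hlt, he⟩ := Set.Finite.exists_lt_map_eq_of_forall_mem hmem hfin
  refine ⟨j, j', hlt, ?_⟩
  rw [ZSpan.fract_eq_fract, ← L.lattice_eq_span_range_basis] at he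
  rwa [sub_eq_neg_add]

/-- Taylor series at the origin -/
noncomputable def fibre_tay (f : ℂ → ℂ) : PowerSeries ℂ :=
  PowerSeries.mk fun k => ((k.factorial : ℂ)⁻¹) * iteratedDeriv k f 0

theorem fibre_coeff (f : ℂ → ℂ) (k : ℕ) :
    PowerSeries.coeff k (fibre_tay f) = ((k.factorial : ℂ)⁻¹) * iteratedDeriv k f 0 := by
  simp [fibre_tay]

theorem fibre_congr {f g : ℂ → ℂ} (h : f =ᶠ[𝓝 0] g) : fibre_tay f = fibre_tay g := by
  ext k
  rw [fibre_coeff, fibre_coeff, h.iteratedDeriv_eq]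

theorem fibre_deriv (f : ℂ → ℂ) :
    fibre_tay (deriv f) = PowerSeries.derivative ℂ (fibre_tay f) := by
  ext k
  rw [PowerSeries.coeff_derivative, fibre_coeff, fibre_coeff, iteratedDeriv_succ',
    Nat.factorial_succ]
  have h3 : (k.factorial : ℂ) ≠ 0 := by exact_mod_cast Nat.factorial_ne_zero _
  have h4 : ((k : ℂ) + 1) ≠ 0 := by exact_mod_cast Nat.succ_ne_zero k
  push_cast
  field_simp

theorem fibre_const (c : ℂ) : fibre_tay (fun _ => c) = PowerSeries.C c := by
  ext k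
  rw [fibre_coeff, iteratedDeriv_const, PowerSeries.coeff_C]
  split_ifs with h
  · subst h
    simp
  · simp

theorem fibre_id : fibre_tay (fun z => z) = PowerSeries.X := by
  ext k
  rw [fibre_coeff, iteratedDeriv_fun_id, PowerSeries.coeff_X]
  rcases k with _ | _ | k <;> simp

theorem fibre_mul {f g : ℂ → ℂ} (hf : AnalyticAt ℂ f 0) (hg : AnalyticAt ℂ g 0) :
    fibre_tay (f * g) = fibre_tay f * fibre_tay g := by
  ext k
  rw [fibre_coeff, iteratedDeriv_mul hf.contDiffAt hg.contDiffAt, PowerSeries.coeff_mul,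
    Finset.Nat.sum_antidiagonal_eq_sum_range_succ_mk, Finset.mul_sum]
  refine Finset.sum_congr rfl fun i hi => ?_
  have hi' : i ≤ k := by simpa [Nat.lt_succ_iff] using hi
  rw [fibre_coeff, fibre_coeff]
  have h := Nat.choose_mul_factorial_mul_factorial hi'
  have h2 : (k.factorial : ℂ) = k.choose i * i.factorial * (k - i).factorial := by
    rw [← h]
    push_cast
    ring
  have h3 : (i.factorial : ℂ) ≠ 0 := by exact_mod_cast Nat.factorial_ne_zero _
  have h4 : ((k - i).factorial : ℂ) ≠ 0 := by exact_mod_cast Nat.factorial_ne_zero _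
  have h5 : (k.choose i : ℂ) ≠ 0 := by
    have : 0 < k.choose i := Nat.choose_pos hi'
    exact_mod_cast this.ne'
  rw [h2]
  field_simp

theorem fibre_add {f g : ℂ → ℂ} (hf : AnalyticAt ℂ f 0) (hg : AnalyticAt ℂ g 0) :
    fibre_tay (f + g) = fibre_tay f + fibre_tay g := by
  ext k
  rw [map_add, fibre_coeff, fibre_coeff, fibre_coeff,
    iteratedDeriv_add hf.contDiffAt hg.contDiffAt]
  ring

theorem fibre_zero (f : ℂ → ℂ) : PowerSeries.constantCoeff (fibre_tay f) = f 0 := by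
  rw [← PowerSeries.coeff_zero_eq_constantCoeff_apply, fibre_coeff]
  simp

/-- functions analytic at the origin -/
def fibre_An : Subalgebra ℂ (ℂ → ℂ) where
  carrier := {f | AnalyticAt ℂ f 0}
  mul_mem' := fun hf hg => AnalyticAt.mul hf hg
  add_mem' := fun hf hg => AnalyticAt.add hf hg
  algebraMap_mem' := fun _ => analyticAt_const

/-- the Taylor homomorphism -/
noncomputable def fibre_T : fibre_An →ₐ[ℂ] PowerSeries ℂ where
  toFun f := fibre_tay f.1
  map_one' := (fibre_const 1).trans (map_one _)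
  map_mul' f g := fibre_mul f.2 g.2
  map_zero' := (fibre_const 0).trans (map_zero _)
  map_add' f g := fibre_add f.2 g.2
  commutes' c := (fibre_const c).trans (by simp)

theorem fibre_T_congr (f g : fibre_An) (h : ∀ᶠ z in 𝓝[≠] 0, f.1 z = g.1 z) :
    fibre_T f = fibre_T g := by
  have hf : AnalyticAt ℂ f.1 0 := f.2
  have hg : AnalyticAt ℂ g.1 0 := g.2
  exact fibre_congr ((hf.frequently_eq_iff_eventually_eq hg).1 h.frequently)

theorem fibre_deriv_eq {F f : ℂ → ℂ} (n : ℕ) (h : ∀ z, z ≠ 0 → F z = z ^ (n + 1) * f z)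
    {z f' : ℂ} (hz : z ≠ 0) (hd : HasDerivAt f f' z) :
    z * deriv F z = (n + 1) * F z + z ^ (n + 2) * f' := by
  have h1 := ((hasDerivAt_pow (n + 1) z).mul hd).congr_of_eventuallyEq (f₁ := F)
    ((eventually_ne_nhds hz).mono h)
  rw [h1.deriv, h z hz]
  simp only [Nat.add_sub_cancel]
  push_cast
  ring

/-- Formal Laurent data at the origin: `u = z² ℘`, `v = z³ ℘'`, `k = z ζ`.  Hint: copy the
lemmas `tay`, `tay_mul`, `tay_add`, `tay_deriv`, `tay_congr`, `tay_id`, `tay_const` from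
`Pool/Agent/MP_d171e3_nt/H48/Taylor.lean` (do not import that file), and apply them to
`U z = 1 + z² ℘[L - 0] z`, `V z = -2 + z³ ℘'[L - 0] z`, `K z = 1 + z g z` (`zeta_pole`); the
identities hold on a punctured neighbourhood of `0`, hence on a neighbourhood by continuity. -/
theorem exists_laurent : ∃ u v k : PowerSeries ℂ,
    PowerSeries.constantCoeff u = 1 ∧ PowerSeries.constantCoeff v = -2 ∧
    PowerSeries.constantCoeff k = 1 ∧ PowerSeries.coeff 1 k = 0 ∧
    PowerSeries.X * PowerSeries.derivative ℂ u = v + 2 * u ∧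
    PowerSeries.X * PowerSeries.derivative ℂ v =
      3 * v + 6 * u ^ 2 - PowerSeries.C (L.g₂ / 2) * PowerSeries.X ^ 4 ∧
    PowerSeries.X * PowerSeries.derivative ℂ k = k - u ∧
    v ^ 2 = 4 * u ^ 3 - PowerSeries.C L.g₂ * u * PowerSeries.X ^ 4 -
      PowerSeries.C L.g₃ * PowerSeries.X ^ 6 := by
  obtain ⟨g, hg, hg0, hz⟩ := zeta_pole L L.lattice.zero_mem
  have a1 := L.analyticAt_weierstrassPExcept 0
  have a2 := L.analyticAt_derivWeierstrassPExcept 0
  obtain ⟨U, hU0, hU⟩ : ∃ U : fibre_An, U.1 0 = 1 ∧ ∀ z, z ≠ 0 → U.1 z = z ^ (1 + 1) * ℘[L] z := by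
    refine ⟨⟨fun z => 1 + z ^ 2 * L.weierstrassPExcept 0 z, ?_⟩, by simp, fun z hz => ?_⟩
    · change AnalyticAt ℂ _ 0
      fun_prop
    · have := L.weierstrassPExcept_add 0 z
      simp only [Submodule.coe_zero, sub_zero] at this
      rw [← this]
      field_simp
      ring
  obtain ⟨V, hV0, hV⟩ : ∃ V : fibre_An, V.1 0 = -2 ∧
      ∀ z, z ≠ 0 → V.1 z = z ^ (2 + 1) * ℘'[L] z := by
    refine ⟨⟨fun z => -2 + z ^ 3 * L.derivWeierstrassPExcept 0 z, ?_⟩, by simp, fun z hz => ?_⟩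
    · change AnalyticAt ℂ _ 0
      fun_prop
    · have := L.derivWeierstrassPExcept_sub 0 z
      simp only [Submodule.coe_zero, sub_zero] at this
      rw [← this]
      field_simp
      ring
  obtain ⟨K, hK0, hK1, hK⟩ : ∃ K : fibre_An, K.1 0 = 1 ∧ deriv K.1 0 = 0 ∧
      ∀ z, z ≠ 0 → K.1 z = z ^ (0 + 1) * zeta L z := by
    refine ⟨⟨fun z => 1 + z * g z, ?_⟩, by simp, ?_, fun z hz' => ?_⟩
    · change AnalyticAt ℂ _ 0
      fun_prop
    · have := (((hasDerivAt_id (0 : ℂ)).mul hg.differentiableAt.hasDerivAt).const_add 1).deriv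
      simpa [hg0 rfl] using this
    · rw [hz z, sub_zero]
      field_simp
      ring
  let X : fibre_An := ⟨fun z => z, analyticAt_id⟩
  let D : fibre_An → fibre_An := fun f => ⟨deriv f.1, AnalyticAt.deriv f.2⟩
  have hX : fibre_T X = PowerSeries.X := fibre_id
  have hD : ∀ f, fibre_T (D f) = PowerSeries.derivative ℂ (fibre_T f) := fun f => fibre_deriv f.1
  have hC : ∀ c : ℂ, fibre_T (algebraMap ℂ _ c) = PowerSeries.C c := fun c => fibre_const c
  have ev : ∀ᶠ z in 𝓝[≠] (0 : ℂ), z ≠ 0 ∧ z ∉ L.lattice :=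
    (eventually_mem_nhdsWithin (s := {0}ᶜ)).and (fibre_ev L 0)
  refine ⟨fibre_T U, fibre_T V, fibre_T K, (fibre_zero _).trans hU0, (fibre_zero _).trans hV0,
    (fibre_zero _).trans hK0, ?_, ?_, ?_, ?_, ?_⟩
  · change PowerSeries.coeff 1 (fibre_tay K.1) = 0
    rw [fibre_coeff, iteratedDeriv_one, hK1, mul_zero]
  · have := fibre_T_congr (X * D U) (V + 2 * U) (ev.mono fun z h => by
      change z * deriv U.1 z = V.1 z + 2 * U.1 z
      rw [fibre_deriv_eq 1 hU h.1 (hasDerivAt_wp L h.2), hV z h.1]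
      push_cast
      ring)
    simpa only [map_mul, map_add, map_ofNat, hX, hD] using this
  · have := fibre_T_congr (X * D V) (3 * V + 6 * U ^ 2 - algebraMap ℂ _ (L.g₂ / 2) * X ^ 4)
      (ev.mono fun z h => by
        change z * deriv V.1 z = 3 * V.1 z + 6 * U.1 z ^ 2 - L.g₂ / 2 * z ^ 4
        rw [fibre_deriv_eq 2 hV h.1 (hasDerivAt_wp' L h.2), hU z h.1]
        push_cast
        ring)
    simpa only [map_mul, map_add, map_sub, map_pow, map_ofNat, hX, hD, hC] using this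
  · have := fibre_T_congr (X * D K) (K - U) (ev.mono fun z h => by
      change z * deriv K.1 z = K.1 z - U.1 z
      rw [fibre_deriv_eq 0 hK h.1 (hasDerivAt_zeta L h.2), hU z h.1]
      push_cast
      ring)
    simpa only [map_mul, map_sub, hX, hD] using this
  · have := fibre_T_congr (V ^ 2)
      (4 * U ^ 3 - algebraMap ℂ _ L.g₂ * U * X ^ 4 - algebraMap ℂ _ L.g₃ * X ^ 6)
      (ev.mono fun z h => by
        change V.1 z ^ 2 = 4 * U.1 z ^ 3 - L.g₂ * U.1 z * z ^ 4 - L.g₃ * z ^ 6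
        rw [hU z h.1, hV z h.1, mul_pow, L.derivWeierstrassP_sq z h.2]
        ring)
    simpa only [map_mul, map_sub, map_pow, map_ofNat, hX, hC] using this

end GPC96

end

-- part MP_57341d_ag.H96.Low
section

/-! Low degree substitutes for iterated derivatives (formal addition theorem at the origin). -/

open MvPolynomial

namespace GPC96

/-- Formal Laurent data `u = z² ℘`, `v = z³ ℘'`, `k = z ζ` for the cubic `4x³ - g x - h`. -/
def Laur (g h : ℂ) : Prop := ∃ u v k : PowerSeries ℂ,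
    PowerSeries.constantCoeff u = 1 ∧ PowerSeries.constantCoeff v = -2 ∧
    PowerSeries.constantCoeff k = 1 ∧ PowerSeries.coeff 1 k = 0 ∧
    PowerSeries.X * PowerSeries.derivative ℂ u = v + 2 * u ∧
    PowerSeries.X * PowerSeries.derivative ℂ v =
      3 * v + 6 * u ^ 2 - PowerSeries.C (g / 2) * PowerSeries.X ^ 4 ∧
    PowerSeries.X * PowerSeries.derivative ℂ k = k - u ∧
    v ^ 2 = 4 * u ^ 3 - PowerSeries.C g * u * PowerSeries.X ^ 4 -
      PowerSeries.C h * PowerSeries.X ^ 6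

section Ids

variable {A : Type} [CommRing A] [Algebra ℂ A] (Δ : Derivation ℂ A A) {x y w z u v k γ h a c : A}

theorem low_id1 (hx : Δ x = z * y) (hy : Δ y = z * (6 * x ^ 2 - γ)) (hz : Δ z = -z)
    (hu : Δ u = -(v + 2 * u)) (hv : Δ v = -(3 * v + 6 * u ^ 2 - γ * z ^ 4)) (hγ : Δ γ = 0)
    (hh : Δ h = 0) (h1 : y ^ 2 = 4 * x ^ 3 - 2 * γ * x - h)
    (h2 : v ^ 2 = 4 * u ^ 3 - 2 * γ * u * z ^ 4 - h * z ^ 6) :
    (u - z ^ 2 * x) * Δ (4 * x * u * (x * z ^ 2 + u) - 2 * γ * (x * z ^ 4 + u * z ^ 2) -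
        2 * h * z ^ 4 - 2 * y * z * v) =
      2 * Δ (u - z ^ 2 * x) * (4 * x * u * (x * z ^ 2 + u) - 2 * γ * (x * z ^ 4 + u * z ^ 2) -
        2 * h * z ^ 4 - 2 * y * z * v) := by
  have e2 : Δ 2 = 0 := Δ.map_natCast 2
  have e4 : Δ 4 = 0 := Δ.map_natCast 4
  simp only [map_add, map_sub, Derivation.leibniz, Derivation.leibniz_pow, smul_eq_mul,
    nsmul_eq_mul, hx, hy, hz, hu, hv, hγ, hh, e2, e4]
  push_cast
  linear_combination (-4 * z ^ 4 * v) * h1 + (-4 * y * z) * h2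

theorem low_id2 (hx : Δ x = z * y) (hy : Δ y = z * (6 * x ^ 2 - γ)) (hw : Δ w = z * (c * (x + a)))
    (hz : Δ z = -z) (hu : Δ u = -(v + 2 * u)) (hv : Δ v = -(3 * v + 6 * u ^ 2 - γ * z ^ 4))
    (hk : Δ k = -(k - u)) (ha : Δ a = 0) (hc : Δ c = 0)
    (h1 : y ^ 2 = 4 * x ^ 3 - 2 * γ * x - h)
    (h2 : v ^ 2 = 4 * u ^ 3 - 2 * γ * u * z ^ 4 - h * z ^ 6) {e : A} (he : z * e = 2 * k * u + v) :
    z * ((u - z ^ 2 * x) * Δ (2 * (u - z ^ 2 * x) * w -
        c * (e - 2 * k * z * x - z ^ 2 * y - 2 * a * z * (u - z ^ 2 * x)))) =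
      z * (Δ (u - z ^ 2 * x) * (2 * (u - z ^ 2 * x) * w -
        c * (e - 2 * k * z * x - z ^ 2 * y - 2 * a * z * (u - z ^ 2 * x)))) := by
  have e2 : Δ 2 = 0 := Δ.map_natCast 2
  have h3 := congrArg Δ he
  simp only [map_add, map_sub, Derivation.leibniz, Derivation.leibniz_pow, smul_eq_mul,
    nsmul_eq_mul, hx, hy, hw, hz, hu, hv, hk, ha, hc, e2] at h3 ⊢
  push_cast
  linear_combination (c * z ^ 6) * h1 - c * h2 - c * (u - z ^ 2 * x) * h3 -
    c * ((u - z ^ 2 * x) + (v + 2 * u) - 2 * z ^ 2 * x + z ^ 3 * y) * he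

end Ids

section Taylor

variable {Q : Type} [CommRing Q] [Algebra ℂ Q] (D : Derivation ℂ Q Q)

/-- The derivation acting on the coefficients. -/
noncomputable def lowC : Derivation ℂ (PowerSeries Q) (PowerSeries Q) :=
  Derivation.mk'
    { toFun := fun φ => PowerSeries.mk fun n => D (PowerSeries.coeff n φ)
      map_add' := fun φ ψ => by ext n; simp
      map_smul' := fun c φ => by ext n; simp }
    fun φ ψ => by
      ext n
      rw [smul_eq_mul, smul_eq_mul, mul_comm ψ]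
      simp only [LinearMap.coe_mk, AddHom.coe_mk, PowerSeries.coeff_mk, map_add,
        PowerSeries.coeff_mul, map_sum, Derivation.leibniz, smul_eq_mul, Finset.sum_add_distrib]
      exact congrArg _ (Finset.sum_congr rfl fun _ _ => mul_comm _ _)

theorem low_coeff_C (φ : PowerSeries Q) (n : ℕ) :
    PowerSeries.coeff n (lowC D φ) = D (PowerSeries.coeff n φ) :=
  PowerSeries.coeff_mk n fun n => D (PowerSeries.coeff n φ)

/-- `D - d/dz`. -/
noncomputable def lowD : Derivation ℂ (PowerSeries Q) (PowerSeries Q) :=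
  lowC D - (PowerSeries.derivative Q).restrictScalars ℂ

theorem low_D_apply (φ : PowerSeries Q) : lowD D φ = lowC D φ - PowerSeries.derivative Q φ := rfl

/-- The Taylor series along the flow. -/
noncomputable def lowT (f : Q) : PowerSeries Q :=
  PowerSeries.mk fun n => ((n.factorial : ℂ)⁻¹) • D^[n] f

theorem low_C_T (f : Q) : lowC D (lowT D f) = lowT D (D f) := by
  ext n
  simp only [low_coeff_C, lowT, PowerSeries.coeff_mk, Derivation.map_smul]
  rw [← Function.iterate_succ_apply' D, Function.iterate_succ_apply]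

theorem low_D_T (f : Q) : lowD D (lowT D f) = 0 := by
  rw [low_D_apply, low_C_T, sub_eq_zero]
  ext n
  simp only [PowerSeries.coeff_derivative, lowT, PowerSeries.coeff_mk,
    Function.iterate_succ_apply]
  have h1 : ((n : Q) + 1) = algebraMap ℂ Q ((n : ℂ) + 1) := by simp
  have h2 : ((n : ℂ) + 1) ≠ 0 := Nat.cast_add_one_ne_zero n
  have h3 : (n.factorial : ℂ) ≠ 0 := Nat.cast_ne_zero.2 n.factorial_ne_zero
  rw [h1, mul_comm, ← Algebra.smul_def, smul_smul, Nat.factorial_succ]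
  congr 1
  push_cast
  field_simp

theorem low_const_T (f : Q) : PowerSeries.constantCoeff (lowT D f) = f := by
  simp [lowT]

theorem low_C_C (f : Q) : lowC D (PowerSeries.C f) = PowerSeries.C (D f) := by
  ext n
  simp only [low_coeff_C, PowerSeries.coeff_C]
  split_ifs <;> simp

theorem low_D_C (f : Q) : lowD D (PowerSeries.C f) = PowerSeries.C (D f) := by
  rw [low_D_apply, low_C_C, PowerSeries.derivative_C, sub_zero]

theorem low_C_map (u : PowerSeries ℂ) : lowC D (PowerSeries.map (algebraMap ℂ Q) u) = 0 := by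
  ext n
  simp [low_coeff_C]

theorem low_D_map (u : PowerSeries ℂ) : lowD D (PowerSeries.map (algebraMap ℂ Q) u) =
    -PowerSeries.map (algebraMap ℂ Q) (PowerSeries.derivative ℂ u) := by
  rw [low_D_apply, low_C_map, zero_sub, neg_inj]
  ext n
  simp [PowerSeries.coeff_derivative]

theorem low_uniq {B Λ Φ : PowerSeries Q} (hB : PowerSeries.constantCoeff B = 1)
    (h : B * lowD D Φ = Λ * Φ) (h0 : PowerSeries.constantCoeff Φ = 0) : Φ = 0 := by
  have hu : IsUnit B := PowerSeries.isUnit_iff_constantCoeff.2 (hB ▸ isUnit_one)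
  have key : ∀ n, PowerSeries.X ^ (n + 1) ∣ Φ := by
    intro n
    induction n with
    | zero => simpa using PowerSeries.X_dvd_iff.2 h0
    | succ n ih =>
      have h1 := PowerSeries.X_pow_dvd_iff.1 ih
      have h2 : PowerSeries.X ^ (n + 1) ∣ lowC D Φ :=
        PowerSeries.X_pow_dvd_iff.2 fun m hm => by rw [low_coeff_C, h1 m hm, map_zero]
      have h3 : B * PowerSeries.derivative Q Φ = B * lowC D Φ - Λ * Φ := by
        rw [← h, low_D_apply]
        ring
      have h4 : PowerSeries.X ^ (n + 1) ∣ PowerSeries.derivative Q Φ :=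
        hu.dvd_mul_left.1 (h3 ▸ (h2.mul_left B).sub (ih.mul_left Λ))
      have h5 := PowerSeries.X_pow_dvd_iff.1 h4 n n.lt_succ_self
      have h6 : ((n : Q) + 1) = algebraMap ℂ Q ((n : ℂ) + 1) := by simp
      rw [PowerSeries.coeff_derivative, h6,
        ((Nat.cast_add_one_ne_zero n).isUnit.map (algebraMap ℂ Q)).mul_left_eq_zero] at h5
      refine PowerSeries.X_pow_dvd_iff.2 fun m hm => ?_
      rcases Nat.lt_succ_iff_lt_or_eq.1 hm with h7 | rfl
      · exact h1 m h7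
      · exact h5
  ext n
  exact PowerSeries.X_pow_dvd_iff.1 (key n) n n.lt_succ_self

theorem low_key {B N : PowerSeries Q} (hB : PowerSeries.constantCoeff B = 1) (m : ℕ)
    (h : B * lowD D N = m * lowD D B * N) :
    B ^ m * lowT D (PowerSeries.constantCoeff N) = N := by
  rw [← sub_eq_zero]
  refine low_uniq D (Λ := m * lowD D B) hB ?_ (by simp [hB, low_const_T])
  rw [map_sub, mul_sub, h, Derivation.leibniz, low_D_T, Derivation.leibniz_pow]
  rcases m with _ | m
  · simp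
  · simp only [smul_eq_mul, nsmul_eq_mul, Nat.add_sub_cancel]
    ring

theorem low_T_eq {N : PowerSeries Q} (h : lowD D N = 0) :
    lowT D (PowerSeries.constantCoeff N) = N := by
  simpa using low_key D (B := 1) (N := N) (map_one _) 0 (by simp [h])

theorem low_T_add (f g : Q) : lowT D (f + g) = lowT D f + lowT D g := by
  simpa [low_const_T] using low_T_eq D (N := lowT D f + lowT D g) (by simp [low_D_T])

theorem low_T_mul (f g : Q) : lowT D (f * g) = lowT D f * lowT D g := by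
  simpa [low_const_T] using low_T_eq D (N := lowT D f * lowT D g) (by simp [low_D_T])

theorem low_T_C {f : Q} (h : D f = 0) : lowT D f = PowerSeries.C f := by
  simpa using low_T_eq D (N := PowerSeries.C f) (by simp [low_D_C, h])

variable (π : R5 →ₐ[ℂ] Q)

/-- All coefficients are images of polynomials of degree at most `n`. -/
def LowLo (n : ℕ) (φ : PowerSeries Q) : Prop :=
  ∀ s, PowerSeries.coeff s φ ∈ (restrictTotalDegree (Fin 5) ℂ n).map π.toLinearMap

variable {π} {m n : ℕ} {φ ψ : PowerSeries Q}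

theorem LowLo.mono (h : LowLo π m φ) (hmn : m ≤ n) : LowLo π n φ := fun s => by
  obtain ⟨F, hF, e⟩ := h s
  exact ⟨F, (mem_restrictTotalDegree _ _ _).2 (((mem_restrictTotalDegree _ _ _).1 hF).trans hmn), e⟩

theorem LowLo.add (h : LowLo π m φ) (h' : LowLo π n ψ) : LowLo π (max m n) (φ + ψ) := fun s => by
  rw [map_add]
  exact add_mem (h.mono (le_max_left m n) s) (h'.mono (le_max_right m n) s)

theorem LowLo.sub (h : LowLo π m φ) (h' : LowLo π n ψ) : LowLo π (max m n) (φ - ψ) := fun s => by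
  rw [map_sub]
  exact sub_mem (h.mono (le_max_left m n) s) (h'.mono (le_max_right m n) s)

theorem LowLo.mul (h : LowLo π m φ) (h' : LowLo π n ψ) : LowLo π (m + n) (φ * ψ) := fun s => by
  rw [PowerSeries.coeff_mul]
  refine Submodule.sum_mem _ fun p _ => ?_
  obtain ⟨F, hF, e⟩ := h p.1
  obtain ⟨G, hG, e'⟩ := h' p.2
  refine ⟨F * G, (mem_restrictTotalDegree _ _ _).2 ((totalDegree_mul F G).trans
    (add_le_add ((mem_restrictTotalDegree _ _ _).1 hF) ((mem_restrictTotalDegree _ _ _).1 hG))), ?_⟩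
  rw [← e, ← e']
  exact map_mul π F G

theorem low_lo_map (u : PowerSeries ℂ) : LowLo π 0 (PowerSeries.map (algebraMap ℂ Q) u) := fun s =>
  ⟨C (PowerSeries.coeff s u), (mem_restrictTotalDegree _ _ _).2 (totalDegree_C _).le, by
    rw [PowerSeries.coeff_map]
    exact π.commutes _⟩

theorem low_lo_X (l : Fin 5) : LowLo π 1 (PowerSeries.C (π (X l))) := fun s => by
  rw [PowerSeries.coeff_C]
  split_ifs
  · exact ⟨X l, (mem_restrictTotalDegree _ _ _).2 (totalDegree_X l).le, rfl⟩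
  · exact zero_mem _

theorem LowLo.pow (h : LowLo π n φ) (d : ℕ) : LowLo π (d * n) (φ ^ d) := by
  induction d with
  | zero => simpa using low_lo_map (π := π) 1
  | succ d ih =>
    rw [pow_succ, Nat.succ_mul]
    exact ih.mul h

/-- From the variables to all polynomials. -/
theorem low_all {B : PowerSeries Q} (hB : LowLo π 4 B)
    (hX : ∀ l, LowLo π 4 (B * lowT D (π (X l)))) (F : R5) :
    LowLo π (4 * F.totalDegree) (B ^ F.totalDegree * lowT D (π F)) := by
  let S : ℕ → R5 → Prop := fun d G => LowLo π (d * 4) (B ^ d * lowT D (π G))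
  have hC : ∀ c, S 0 (C c) := fun c => by
    have h1 : π (C c) = algebraMap ℂ Q c := π.commutes c
    simpa [S, h1, low_T_C D (D.map_algebraMap c)] using low_lo_map (π := π) (PowerSeries.C c)
  have hmul : ∀ d e G H, S d G → S e H → S (d + e) (G * H) := fun d e G H h h' => by
    have h1 := h.mul h'
    rw [mul_mul_mul_comm, ← pow_add, ← low_T_mul, ← map_mul, ← add_mul] at h1
    exact h1
  have hmono : ∀ d e G, d ≤ e → S d G → S e G := fun d e G hde h => by
    obtain ⟨l, rfl⟩ := Nat.exists_eq_add_of_le' hde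
    have h1 := (hB.pow l).mul h
    rw [← mul_assoc, ← pow_add, ← add_mul] at h1
    exact h1
  have hpow : ∀ l e, S e (X l ^ e) := fun l e => by
    induction e with
    | zero => exact hC 1
    | succ e ih =>
      rw [pow_succ]
      exact hmul _ _ _ _ ih (by simpa [S] using hX l)
  have hprod : ∀ (α : Fin 5 → ℕ) (t : Finset (Fin 5)), S (∑ l ∈ t, α l) (∏ l ∈ t, X l ^ α l) := by
    intro α t
    induction t using Finset.induction_on with
    | empty => exact hC 1
    | insert l t hl ih =>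
      rw [Finset.sum_insert hl, Finset.prod_insert hl]
      exact hmul _ _ _ _ (hpow l _) ih
  have hsum : ∀ (d : ℕ) (t : Finset (Fin 5 →₀ ℕ)) (G : (Fin 5 →₀ ℕ) → R5), (∀ α ∈ t, S d (G α)) →
      S d (∑ α ∈ t, G α) := by
    intro d t G
    induction t using Finset.induction_on with
    | empty => exact fun _ => hmono 0 d _ d.zero_le (by simpa using hC 0)
    | insert α t hα ih =>
      intro h
      have h1 := (h α (Finset.mem_insert_self α t)).add
        (ih fun β hβ => h β (Finset.mem_insert_of_mem hβ))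
      rw [max_self, ← mul_add, ← low_T_add, ← map_add, ← Finset.sum_insert hα] at h1
      exact h1
  have h1 := hsum F.totalDegree F.support (fun α => monomial α (coeff α F)) fun α hα => by
    rw [monomial_eq]
    exact hmono _ _ _ ((zero_add _).trans_le (le_totalDegree hα)) (hmul _ _ _ _ (hC _) (hprod α α.support))
  rw [← F.as_sum] at h1
  rw [mul_comm 4]
  exact h1

/-- The formal addition theorem. -/
theorem low_vars {g h a c : ℂ} (hL : Laur g h) {i j : Fin 5} (hx : D (π (X i)) = π (X j))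
    (hy : D (π (X j)) = 6 * π (X i) ^ 2 - algebraMap ℂ Q (g / 2))
    (hw : D (π (X 4)) = algebraMap ℂ Q c * (π (X i) + algebraMap ℂ Q a))
    (hE : π (X j) ^ 2 = 4 * π (X i) ^ 3 - algebraMap ℂ Q g * π (X i) - algebraMap ℂ Q h) :
    ∃ B : PowerSeries Q, PowerSeries.constantCoeff B = 1 ∧ LowLo π 1 B ∧
      LowLo π 4 (B ^ 3 * lowT D (π (X i))) ∧ LowLo π 4 (B ^ 3 * lowT D (π (X j))) ∧
      LowLo π 4 (B ^ 3 * lowT D (π (X 4))) := by
  obtain ⟨u0, v0, k0, cu, cv, ck, ck1, hu, hv, hk, hr⟩ := hL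
  obtain ⟨e0, he⟩ : PowerSeries.X ∣ 2 * k0 * u0 + v0 :=
    PowerSeries.X_dvd_iff.2 (by simp [cu, cv, ck, map_ofNat])
  have ce : PowerSeries.constantCoeff e0 = 0 := by
    have h1 := congrArg (PowerSeries.coeff 1) hk
    have h2 := congrArg (PowerSeries.coeff 1) hu
    have h3 := congrArg (PowerSeries.coeff 1) he
    simp only [PowerSeries.coeff_succ_X_mul, PowerSeries.coeff_derivative, map_add, map_sub,
      PowerSeries.coeff_one_mul, two_mul, add_mul, ck1, ck, cu, zero_add,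
      PowerSeries.coeff_zero_eq_constantCoeff] at h1 h2 h3
    push_cast at h1 h2
    linear_combination -h3 - h2 + h1
  let ι : PowerSeries ℂ →+* PowerSeries Q := PowerSeries.map (algebraMap ℂ Q)
  have hz : ι PowerSeries.X = PowerSeries.X := PowerSeries.map_X _
  have hιC : ∀ t, ι (PowerSeries.C t) = PowerSeries.C (algebraMap ℂ Q t) := fun t =>
    PowerSeries.map_C _ _
  have hι0 : ∀ t, PowerSeries.constantCoeff (ι t) = algebraMap ℂ Q (PowerSeries.constantCoeff t) :=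
    fun t => by
      rw [← PowerSeries.coeff_zero_eq_constantCoeff_apply, PowerSeries.coeff_map,
        PowerSeries.coeff_zero_eq_constantCoeff_apply]
  obtain ⟨Δ, hΔ⟩ : ∃ Δ : Derivation ℂ (PowerSeries Q) (PowerSeries Q),
      ∀ φ, Δ φ = ι PowerSeries.X * lowD D φ := ⟨ι PowerSeries.X • lowD D, fun φ => rfl⟩
  have hΔι : ∀ t, Δ (ι t) = -ι (PowerSeries.X * PowerSeries.derivative ℂ t) := fun t => by
    rw [hΔ, low_D_map, map_mul, mul_neg]
  have hΔC : ∀ t, Δ (ι (PowerSeries.C t)) = 0 := fun t => by simp [hΔι]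
  have hcan : ∀ φ ψ : PowerSeries Q, ι PowerSeries.X * φ = ι PowerSeries.X * ψ → φ = ψ :=
    fun φ ψ h => PowerSeries.X_mul_cancel (hz ▸ h)
  have hg : g = 2 * (g / 2) := by ring
  have dx : Δ (PowerSeries.C (π (X i))) = ι PowerSeries.X * PowerSeries.C (π (X j)) := by
    rw [hΔ, low_D_C, hx]
  have dy : Δ (PowerSeries.C (π (X j))) =
      ι PowerSeries.X * (6 * PowerSeries.C (π (X i)) ^ 2 - ι (PowerSeries.C (g / 2))) := by
    rw [hΔ, low_D_C, hy, hιC, map_sub, map_mul, map_pow, map_ofNat]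
  have dw : Δ (PowerSeries.C (π (X 4))) = ι PowerSeries.X *
      (ι (PowerSeries.C c) * (PowerSeries.C (π (X i)) + ι (PowerSeries.C a))) := by
    rw [hΔ, low_D_C, hw, hιC, hιC, map_mul, map_add]
  have dz : Δ (ι PowerSeries.X) = -ι PowerSeries.X := by
    rw [hΔι, PowerSeries.derivative_X, mul_one]
  have du : Δ (ι u0) = -(ι v0 + 2 * ι u0) := by
    rw [hΔι, hu, map_add, map_mul, map_ofNat]
  have dv : Δ (ι v0) =
      -(3 * ι v0 + 6 * ι u0 ^ 2 - ι (PowerSeries.C (g / 2)) * ι PowerSeries.X ^ 4) := by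
    rw [hΔι, hv]
    simp only [map_add, map_sub, map_mul, map_pow, map_ofNat]
  have dk : Δ (ι k0) = -(ι k0 - ι u0) := by rw [hΔι, hk, map_sub]
  have r1 : (PowerSeries.C (π (X j)) : PowerSeries Q) ^ 2 = 4 * PowerSeries.C (π (X i)) ^ 3 -
      2 * ι (PowerSeries.C (g / 2)) * PowerSeries.C (π (X i)) - ι (PowerSeries.C h) := by
    rw [← map_pow, hE, hιC, hιC]
    conv_lhs => rw [hg]
    simp only [map_sub, map_mul, map_pow, map_ofNat]
  have r2 : ι v0 ^ 2 = 4 * ι u0 ^ 3 - 2 * ι (PowerSeries.C (g / 2)) * ι u0 * ι PowerSeries.X ^ 4 -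
      ι (PowerSeries.C h) * ι PowerSeries.X ^ 6 := by
    rw [← map_pow, hr]
    conv_lhs => rw [hg]
    simp only [map_sub, map_mul, map_pow, map_ofNat]
  have r3 : ι PowerSeries.X * ι e0 = 2 * ι k0 * ι u0 + ι v0 := by
    rw [← map_mul, ← he, map_add, map_mul, map_mul, map_ofNat]
  have i1 := low_id1 Δ dx dy dz du dv (hΔC _) (hΔC h) r1 r2
  have i2 := hcan _ _ (low_id2 Δ dx dy dw dz du dv dk (hΔC a) (hΔC c) r1 r2 r3)
  have cB : PowerSeries.constantCoeff (ι u0 - ι PowerSeries.X ^ 2 * PowerSeries.C (π (X i))) = 1 := by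
    simp [hι0, cu]
  rw [hΔ, hΔ, mul_left_comm, mul_left_comm 2, mul_assoc (ι PowerSeries.X)] at i1
  rw [hΔ, hΔ, mul_left_comm, mul_assoc (ι PowerSeries.X)] at i2
  have k1 := low_key D cB 2 (by rw [Nat.cast_ofNat]; exact hcan _ _ i1)
  have k2 := low_key D cB 1 (by rw [Nat.cast_one, one_mul]; exact hcan _ _ i2)
  have t2 : lowT D 2 = 2 := (low_T_C D (D.map_natCast 2)).trans (map_ofNat _ 2)
  have t4 : lowT D 4 = 4 := (low_T_C D (D.map_natCast 4)).trans (map_ofNat _ 4)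
  simp only [map_sub, map_add, map_mul, map_pow, map_ofNat, hι0, cu, ce, PowerSeries.constantCoeff_X,
    PowerSeries.constantCoeff_C, map_zero, map_one, zero_pow two_ne_zero, mul_zero, zero_mul,
    zero_pow four_ne_zero, zero_add, add_zero, sub_zero, mul_one, low_T_mul, t2, t4] at k1 k2
  have k3 := congrArg (lowC D) k1
  have c2 : lowC D 2 = 0 := (lowC D).map_natCast 2
  have c4 : lowC D 4 = 0 := (lowC D).map_natCast 4
  have cι : ∀ t, lowC D (ι t) = 0 := low_C_map D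
  simp only [map_add, map_sub, Derivation.leibniz, Derivation.leibniz_pow, smul_eq_mul,
    nsmul_eq_mul, c2, c4, cι, low_C_T, low_C_C, hx, hy, map_mul, map_pow, map_ofNat, ← hιC] at k3
  have q4 : ι (PowerSeries.C 4⁻¹) * 4 = 1 := by
    rw [← map_ofNat ι 4, ← map_ofNat (PowerSeries.C (R := ℂ)) 4, ← map_mul, ← map_mul]
    simp
  have l0 : ∀ t, LowLo π 0 (ι t) := low_lo_map
  have l2 : LowLo π 0 (2 : PowerSeries Q) := map_ofNat ι 2 ▸ l0 2
  have lx := low_lo_X (π := π) i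
  have ly := low_lo_X (π := π) j
  have lw := low_lo_X (π := π) 4
  generalize (PowerSeries.C (π (X i)) : PowerSeries Q) = x at *
  generalize (PowerSeries.C (π (X j)) : PowerSeries Q) = y at *
  generalize (PowerSeries.C (π (X 4)) : PowerSeries Q) = w at *
  have lz := l0 PowerSeries.X
  have lu := l0 u0
  have lv := l0 v0
  have lk := l0 k0
  have le := l0 e0
  have lγ := l0 (PowerSeries.C (g / 2))
  have lh := l0 (PowerSeries.C h)
  have la := l0 (PowerSeries.C a)
  have lc := l0 (PowerSeries.C c)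
  have lq := l0 (PowerSeries.C 4⁻¹)
  generalize ι PowerSeries.X = z, ι u0 = u, ι v0 = v, ι k0 = k, ι e0 = e,
    ι (PowerSeries.C (g / 2)) = γ, ι (PowerSeries.C h) = h', ι (PowerSeries.C a) = a',
    ι (PowerSeries.C c) = c', ι (PowerSeries.C 4⁻¹) = q at *
  have lB : LowLo π 1 (u - z ^ 2 * x) := (lu.sub ((lz.pow 2).mul lx)).mono (by norm_num)
  have lN := ((((((l2.mul l2).mul lx).mul lu).mul ((lx.mul (lz.pow 2)).add lu)).sub
    ((l2.mul lγ).mul ((lx.mul (lz.pow 4)).add (lu.mul (lz.pow 2))))).sub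
    ((l2.mul lh).mul (lz.pow 4))).sub (((l2.mul ly).mul lz).mul lv)
  have lN' := (((((l2.mul l2).mul ly).mul lu).mul (((l2.mul lx).mul (lz.pow 2)).add lu)).sub
    (((l2.mul lγ).mul ly).mul (lz.pow 4))).sub
    (((l2.mul lz).mul lv).mul ((((l2.mul l2).add l2).mul (lx.pow 2)).sub lγ))
  have lW := ((l2.mul lB).mul lw).sub (lc.mul (((le.sub (((l2.mul lk).mul lz).mul lx)).sub
    ((lz.pow 2).mul ly)).sub (((l2.mul la).mul lz).mul lB)))
  refine ⟨u - z ^ 2 * x, cB, lB, ?_, ?_, ?_⟩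
  · have h1 := ((lq.mul lB).mul lN).mono (show _ ≤ 4 by norm_num)
    refine Eq.subst (motive := LowLo π 4) ?_ h1
    linear_combination -q * (u - z ^ 2 * x) * k1 + (u - z ^ 2 * x) ^ 3 * lowT D (π (X i)) * q4
  · have h1 := (lq.mul ((lB.mul lN').add (((l2.mul (lz.pow 2)).mul ly).mul lN))).mono
      (show _ ≤ 4 by norm_num)
    refine Eq.subst (motive := LowLo π 4) ?_ h1
    push_cast at k3
    linear_combination -q * (u - z ^ 2 * x) * k3 - q * 2 * z ^ 2 * y * k1 +
      (u - z ^ 2 * x) ^ 3 * lowT D (π (X j)) * q4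
  · have h1 := (((lq.mul l2).mul (lB.pow 2)).mul lW).mono (show _ ≤ 4 by norm_num)
    refine Eq.subst (motive := LowLo π 4) ?_ h1
    linear_combination -q * 2 * (u - z ^ 2 * x) ^ 2 * k2 +
      (u - z ^ 2 * x) ^ 3 * lowT D (π (X 4)) * q4

theorem low_fin {g h a c : ℂ} (hL : Laur g h) (D : Derivation ℂ R5 R5) (i j : Fin 5)
    (hx : D (X i) = X j) (hy : D (X j) = 6 * X i ^ 2 - C (g / 2))
    (hw : D (X 4) = C c * (X i + C a)) (ho : ∀ l, l ≠ i → l ≠ j → l ≠ 4 → D (X l) = 0)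
    (π : R5 →ₐ[ℂ] Q) (E : Derivation ℂ Q Q) (hD : ∀ f, E (π f) = π (D f))
    (hE : π (X j ^ 2 - (4 * X i ^ 3 - C g * X i - C h)) = 0) (F : R5) (s : ℕ) :
    ∃ G : R5, G.totalDegree ≤ 4 * F.totalDegree ∧
      π (G - D^[s] F) ∈ (Ideal.span {f | ∃ s' < s, f = D^[s'] F}).map π.toRingHom := by
  have hC : ∀ t, π (C t) = algebraMap ℂ _ t := π.commutes
  have hit : ∀ n, E^[n] (π F) = π (D^[n] F) := fun n => by
    induction n with
    | zero => rfl
    | succ n ih => rw [Function.iterate_succ_apply', Function.iterate_succ_apply', ih, hD]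
  simp only [map_sub, map_mul, map_pow, map_ofNat, hC] at hE
  obtain ⟨B, cB, lB, l1, l2, l3⟩ := low_vars E (π := π) (a := a) (c := c) (i := i) (j := j) hL
    (by rw [hD, hx]) (by rw [hD, hy, map_sub, map_mul, map_pow, map_ofNat, hC])
    (by rw [hD, hw, map_mul, map_add, hC, hC]) (sub_eq_zero.1 hE)
  obtain ⟨G, hG, e⟩ := low_all E (B := B ^ 3) ((lB.pow 3).mono (by norm_num)) (fun l => by
    by_cases hi : l = i
    · exact hi ▸ l1
    by_cases hj : l = j
    · exact hj ▸ l2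
    by_cases h4 : l = 4
    · exact h4 ▸ l3
    rw [low_T_C E (by rw [hD, ho l hi hj h4, map_zero])]
    exact ((lB.pow 3).mul (low_lo_X l)).mono le_rfl) F s
  have hs : (s.factorial : ℂ) ≠ 0 := Nat.cast_ne_zero.2 s.factorial_ne_zero
  refine ⟨(s.factorial : ℂ) • G,
    (totalDegree_smul_le _ _).trans ((mem_restrictTotalDegree _ _ _).1 hG), ?_⟩
  have hm : ((0, s) : ℕ × ℕ) ∈ Finset.HasAntidiagonal.antidiagonal s := by simp
  have h2 : PowerSeries.coeff 0 ((B ^ 3) ^ F.totalDegree) = 1 := by simp [cB]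
  rw [PowerSeries.coeff_mul, ← Finset.add_sum_erase _ _ hm, h2, one_mul] at e
  rw [map_sub, map_smul, show π G = _ from e, smul_add, lowT, PowerSeries.coeff_mk, smul_smul,
    mul_inv_cancel₀ hs, one_smul, hit, add_sub_cancel_left]
  refine Submodule.smul_of_tower_mem _ _ (Ideal.sum_mem _ fun p hp => Ideal.mul_mem_left _ _ ?_)
  obtain ⟨h3, h4⟩ := Finset.mem_erase.1 hp
  have h5 := Finset.HasAntidiagonal.mem_antidiagonal.1 h4
  have h6 : p.2 < s := by
    by_contra h7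
    exact h3 (Prod.ext (by simp only; omega) (by simp only; omega))
  rw [PowerSeries.coeff_mk, hit]
  exact Submodule.smul_of_tower_mem _ _
    (Ideal.mem_map_of_mem π.toRingHom (Ideal.subset_span ⟨p.2, h6, rfl⟩))

end Taylor

/-- General statement for a derivation `D` moving the variables `x = X i`, `y = X j` along the
cubic and `w = X 4` by `c (x + a)`, and fixing the two other variables.

Hint.  Work in `A = PowerSeries R5` (variable `z`), with `T f = mk fun n => (1/n!) • D^[n] f` (a ring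
hom: Leibniz, or because `δ = D - d/dz` kills `T f`, see below), `D` acting on coefficients, and
`δ = D - d/dz`, a derivation of `A` with `δ (T f) = 0`.  Put (series `u v k` mapped into `A`)
`B = u - z² x`,
`Nx = (-g (x z⁴ + u z²) - 2 h z⁴ - 2 y z v + 4 x u (x z² + u)) / 4`,
`M = (-g (x z³ + u z) - 2 h z³ - 2 y v + 12 x² u z - 4 x³ z³) / 4` (so `Nx - x B² = z M`),
`Ny = -(v - z³ y) M - y B³`, `e` with `z e = 2 k u + v` (and `e 0 = 0`, as the
coefficients of `z` in `u, v, k` vanish),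
`Nw = B w - c ((e - 2 k z x - z² y) / 2 - a z B)`.
These are `B² x(g+z)`, `B³ y(g+z)`, `B w(g+z)`.  Check `z * (B δ N - m (δ B) N) ∈ J[[z]]` for
`(N, m) = (Nx,2), (Ny,3), (Nw,1)` (for `Nw` multiply by `z²`): polynomial identities modulo
`y² = 4x³ - g x - h` and the relations of `Laur`; find the cofactors by dividing by the leading
terms `y²`, `v²` with a small script and use `linear_combination`.  It is convenient to pass to
the quotient ring `R5 ⧸ J` with the induced derivation (then `B` is a unit and `z` a nonzero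
divisor of the power series ring), or to argue coefficientwise: if `B δ Ψ - m (δ B) Ψ ∈ J[[z]]`,
`Ψ 0 ∈ J` and `B 0 = 1` then `Ψ ∈ J[[z]]` (induction on the coefficients).  Apply this to
`Ψ = B ^ m * T x - N`.  Hence for each variable `B³ * T (X l) ≡ N l` with all coefficients of
`N l` and of `B³` of total degree `≤ 4`, so `B ^ (3 d) * T F ≡` a series with coefficients of
degree `≤ 4 d`, `d = F.totalDegree`; take `s!` times the coefficient of `z ^ s`. -/
theorem low_deg {g h a c : ℂ} (hL : Laur g h) (D : Derivation ℂ R5 R5) (i j : Fin 5)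
    (hx : D (X i) = X j) (hy : D (X j) = 6 * X i ^ 2 - C (g / 2))
    (hw : D (X 4) = C c * (X i + C a)) (ho : ∀ l, l ≠ i → l ≠ j → l ≠ 4 → D (X l) = 0)
    (J : Ideal R5) (hJ : ∀ f ∈ J, D f ∈ J)
    (hE : X j ^ 2 - (4 * X i ^ 3 - C g * X i - C h) ∈ J) (F : R5) (s : ℕ) :
    ∃ G : R5, G.totalDegree ≤ 4 * F.totalDegree ∧
      G - D^[s] F ∈ Ideal.span {f | ∃ s' < s, f = D^[s'] F} ⊔ J := by
  have hπ : ∀ f, Ideal.Quotient.mkₐ ℂ J f = 0 ↔ f ∈ J := fun f => Ideal.Quotient.eq_zero_iff_mem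
  obtain ⟨G, hG, h1⟩ := low_fin hL D i j hx hy hw ho (Ideal.Quotient.mkₐ ℂ J) _
    (Derivation.liftOfSurjective_apply (f := Ideal.Quotient.mkₐ ℂ J)
      (Ideal.Quotient.mkₐ_surjective ℂ J) fun f hf => (hπ _).2 (hJ f ((hπ f).1 hf)))
    ((hπ _).2 hE) F s
  exact ⟨G, hG, Ideal.mem_quotient_iff_mem_sup.1 h1⟩

theorem low1 (P : Par) (hL : Laur P.g P.h) (F : R5) (s : ℕ) :
    ∃ G : R5, G.totalDegree ≤ 4 * F.totalDegree ∧
      G - (D1 P)^[s] F ∈ Ideal.span {f | ∃ s' < s, f = (D1 P)^[s'] F} ⊔ EI P := by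
  refine low_deg (a := P.a) (c := -1) hL (D1 P) 0 1 (by simp) (by simp) (by simp; ring) ?_ _
    (fun f => EI_stable P _ (D1_E1 P) (D1_E2 P)) (E1_mem P) F s
  intro l h0 h1 h4
  fin_cases l <;> simp_all

theorem low2 (P : Par) (hL : Laur P.g' P.h') (F : R5) (s : ℕ) :
    ∃ G : R5, G.totalDegree ≤ 4 * F.totalDegree ∧
      G - (D2 P)^[s] F ∈ Ideal.span {f | ∃ s' < s, f = (D2 P)^[s'] F} ⊔ EI P := by
  refine low_deg (a := P.b) (c := P.ρ) hL (D2 P) 2 3 (by simp) (by simp) (by simp) ?_ _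
    (fun f => EI_stable P _ (D2_E1 P) (D2_E2 P)) (E2_mem P) F s
  intro l h0 h1 h4
  fin_cases l <;> simp_all

end GPC96

end
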