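import Pool.Agent.MP_57341d_ag.Mg.H96_Constr
import Pool.Agent.MP_57341d_ag.Mg.H96_Low
import Pool.Agent.MP_57341d_ag.Mg.H96_Trdeg

-- part MP_57341d_ag.H96.Line
section

/-! The leaves contain no algebraic line. -/

open MvPolynomial Complex Filter Topology Pool.Agent.MP_d171e3_nt
open scoped PeriodPair

namespace GPC96

variable (L₁ L₂ : PeriodPair)

theorem line_eval_snd (f : MvPolynomial (Fin 2) ℂ) (x y : ℂ) :
    (aeval ![Polynomial.C x, Polynomial.X] f : Polynomial ℂ).eval y = eval ![x, y] f := by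
  induction f using MvPolynomial.induction_on with
  | C a => simp
  | add p q hp hq => simp [hp, hq]
  | mul_X p i hp => fin_cases i <;> simp [hp]

theorem line_eval_fst (f : MvPolynomial (Fin 2) ℂ) (x y : ℂ) :
    (aeval ![Polynomial.X, Polynomial.C y] f : Polynomial ℂ).eval x = eval ![x, y] f := by
  induction f using MvPolynomial.induction_on with
  | C a => simp
  | add p q hp hq => simp [hp, hq]
  | mul_X p i hp => fin_cases i <;> simp [hp]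

/-- A polynomial in two variables with infinitely many infinite fibres of zeros is zero. -/
theorem line_two (f : MvPolynomial (Fin 2) ℂ) {S : Set ℂ} (hS : S.Infinite)
    (h : ∀ x ∈ S, {y | eval ![x, y] f = 0}.Infinite) : f = 0 := by
  have h1 : ∀ x ∈ S, ∀ y, eval ![x, y] f = 0 := by
    intro x hx y
    have h0 : (aeval ![Polynomial.C x, Polynomial.X] f : Polynomial ℂ) = 0 := by
      refine Polynomial.eq_zero_of_infinite_isRoot _ ((h x hx).mono fun y hy => ?_)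
      simpa only [Set.mem_ofPred_eq, Polynomial.IsRoot.def, line_eval_snd] using hy
    rw [← line_eval_snd, h0, Polynomial.eval_zero]
  have h2 : ∀ x y, eval ![x, y] f = 0 := by
    intro x y
    have h0 : (aeval ![Polynomial.X, Polynomial.C y] f : Polynomial ℂ) = 0 := by
      refine Polynomial.eq_zero_of_infinite_isRoot _ (hS.mono fun x hx => ?_)
      simpa only [Set.mem_ofPred_eq, Polynomial.IsRoot.def, line_eval_fst] using h1 x hx y
    rw [← line_eval_fst, h0, Polynomial.eval_zero]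
  refine MvPolynomial.funext fun v => ?_
  have hv : v = ![v 0, v 1] := by
    funext i
    fin_cases i <;> rfl
  rw [hv, h2, map_zero]

/-- The same with fibres containing arithmetic progressions. -/
theorem line_prog (f : MvPolynomial (Fin 2) ℂ) {S : Set ℂ} (hS : S.Infinite) {d : ℂ} (hd : d ≠ 0)
    (h : ∀ x ∈ S, ∃ c : ℂ, ∀ n : ℕ, eval ![x, c + n * d] f = 0) : f = 0 := by
  refine line_two f hS fun x hx => ?_
  obtain ⟨c, hc⟩ := h x hx
  refine Set.infinite_of_injective_forall_mem (f := fun n : ℕ => c + n * d) ?_ hc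
  intro m n hmn
  have h1 : (m : ℂ) * d = n * d := add_left_cancel hmn
  exact_mod_cast mul_right_cancel₀ hd h1

/-- In dimension at most one any two variables satisfy a relation. -/
theorem line_rel (p : Ideal R5) [p.IsPrime] (h : ¬ 2 ≤ dm p) (i j : Fin 5) :
    ∃ f : MvPolynomial (Fin 2) ℂ, f ≠ 0 ∧
      ∀ v : Fin 5 → ℂ, (∀ g ∈ p, eval v g = 0) → eval ![v i, v j] f = 0 := by
  have hn : ¬ AlgebraicIndependent ℂ
      (fun k : Fin 2 => Ideal.Quotient.mk p (X (![i, j] k) : R5)) := fun hi => h (by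
    simpa using card_le_dm hi)
  rw [algebraicIndependent_iff] at hn
  push Not at hn
  obtain ⟨f, hf, hf0⟩ := hn
  refine ⟨f, hf0, fun v hv => ?_⟩
  have h1 : Ideal.Quotient.mk p (rename ![i, j] f) = 0 := by
    rw [← hf]
    have : (Ideal.Quotient.mkₐ ℂ p).comp (rename ![i, j]) =
        aeval (fun k : Fin 2 => Ideal.Quotient.mk p (X (![i, j] k) : R5)) := by
      ext k
      simp
    exact DFunLike.congr_fun this f
  have h2 := hv _ (Ideal.Quotient.eq_zero_iff_mem.mp h1)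
  rw [eval_rename] at h2
  have h3 : (v ∘ ![i, j]) = ![v i, v j] := by
    funext k
    fin_cases k <;> rfl
  rwa [h3] at h2

theorem line_ev0 (z₁ z₂ t : ℂ) : ev L₁ L₂ z₁ z₂ t 0 = ℘[L₁] z₁ := by simp [ev]

theorem line_ev2 (z₁ z₂ t : ℂ) : ev L₁ L₂ z₁ z₂ t 2 = ℘[L₂] z₂ := by simp [ev]

theorem line_ev4 (z₁ z₂ t : ℂ) :
    ev L₁ L₂ z₁ z₂ t 4 = Zf L₁ z₁ - L₂.ω₁ / L₁.ω₁ * Zf L₂ z₂ + t := by simp [ev]

theorem line_surj (L : PeriodPair) (x : ℂ) : ∃ u, u ∉ L.lattice ∧ ℘[L] u = x := by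
  obtain ⟨y, hy⟩ := IsAlgClosed.exists_pow_nat_eq (4 * x ^ 3 - L.g₂ * x - L.g₃) two_pos
  obtain ⟨u, hu, hx, -⟩ := exists_point L hy
  exact ⟨u, hu, hx⟩

theorem line_mem (L : PeriodPair) (m n : ℤ) : (m * L.ω₁ + n * L.ω₂ : ℂ) ∈ L.lattice :=
  PeriodPair.mem_lattice.mpr ⟨m, n, rfl⟩

theorem line_notMem (L : PeriodPair) {u l : ℂ} (hu : u ∉ L.lattice) (hl : l ∈ L.lattice) :
    u + l ∉ L.lattice := fun h => hu (by simpa using sub_mem h hl)

theorem line_wp (L : PeriodPair) (u : ℂ) {l : ℂ} (hl : l ∈ L.lattice) : ℘[L] (u + l) = ℘[L] u :=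
  L.weierstrassP_add_coe u ⟨l, hl⟩

theorem line_c_ne (L : PeriodPair) : (2 * Real.pi * I / L.ω₁ : ℂ) ≠ 0 :=
  div_ne_zero Complex.two_pi_I_ne_zero (ω₁_ne_zero L)

/-- The case of a horizontal line. -/
theorem line_fst (h₁ : 0 < (L₁.ω₂ / L₁.ω₁).im) (f : MvPolynomial (Fin 2) ℂ) (c : ℂ)
    (h : ∀ u, u ∉ L₁.lattice → eval ![℘[L₁] u, Zf L₁ u + c] f = 0) : f = 0 := by
  refine line_prog f Set.infinite_univ (neg_ne_zero.mpr (line_c_ne L₁)) fun x _ => ?_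
  obtain ⟨u, hu, rfl⟩ := line_surj L₁ x
  refine ⟨Zf L₁ u + c, fun n => ?_⟩
  have h1 := h _ (line_notMem L₁ hu (line_mem L₁ 0 n))
  rw [line_wp L₁ u (line_mem L₁ 0 n), Zf_add_int L₁ h₁ 0 n hu] at h1
  rw [show Zf L₁ u + c + n * -(2 * Real.pi * I / L₁.ω₁) =
    Zf L₁ u - ((n : ℤ) : ℂ) * (2 * Real.pi * I / L₁.ω₁) + c by push_cast; ring]
  exact h1

/-- The case of a vertical line. -/
theorem line_snd (h₂ : 0 < (L₂.ω₂ / L₂.ω₁).im) (f : MvPolynomial (Fin 2) ℂ) (c ρ t : ℂ)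
    (hρ : ρ ≠ 0) (h : ∀ u, u ∉ L₂.lattice → eval ![℘[L₂] u, c - ρ * Zf L₂ u + t] f = 0) :
    f = 0 := by
  refine line_prog f Set.infinite_univ (mul_ne_zero hρ (line_c_ne L₂)) fun x _ => ?_
  obtain ⟨u, hu, rfl⟩ := line_surj L₂ x
  refine ⟨c - ρ * Zf L₂ u + t, fun n => ?_⟩
  have h1 := h _ (line_notMem L₂ hu (line_mem L₂ 0 n))
  rw [line_wp L₂ u (line_mem L₂ 0 n), Zf_add_int L₂ h₂ 0 n hu] at h1
  rw [show c - ρ * Zf L₂ u + t + n * (ρ * (2 * Real.pi * I / L₂.ω₁)) =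
    c - ρ * (Zf L₂ u - ((n : ℤ) : ℂ) * (2 * Real.pi * I / L₂.ω₁)) + t by push_cast; ring]
  exact h1

/-- A relation between the two Weierstrass functions along a line forces commensurability. -/
theorem line_comm (z₁ z₂ γ : ℂ) (f : MvPolynomial (Fin 2) ℂ) (hf : f ≠ 0)
    (h : ∀ s, z₁ + s ∉ L₁.lattice → z₂ + γ * s ∉ L₂.lattice →
      eval ![℘[L₁] (z₁ + s), ℘[L₂] (z₂ + γ * s)] f = 0) {w : ℂ} (hw : w ∈ L₁.lattice) :
    ∃ n : ℕ, 0 < n ∧ n * γ * w ∈ L₂.lattice := by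
  have h1 : ∃ x, {y | eval ![x, y] f = 0}.Finite := by
    by_contra hc
    push Not at hc
    exact hf (line_two f Set.infinite_univ fun x _ => hc x)
  obtain ⟨x, hx⟩ := h1
  obtain ⟨u, hu, rfl⟩ := line_surj L₁ x
  obtain ⟨j, j', hj, hm⟩ := finite_fibre L₂ hx (fun j => z₂ + γ * (u - z₁ + j * w)) fun j => by
    by_cases hc : z₂ + γ * (u - z₁ + j * w) ∈ L₂.lattice
    · exact Or.inl hc
    · right
      have hjw : (j : ℂ) * w ∈ L₁.lattice := by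
        simpa using L₁.lattice.smul_mem (j : ℤ) hw
      have e : z₁ + (u - z₁ + j * w) = u + j * w := by ring
      have h2 := h (u - z₁ + j * w) (by rw [e]; exact line_notMem L₁ hu hjw) hc
      rw [e, line_wp L₁ u hjw] at h2
      exact h2
  refine ⟨j' - j, Nat.sub_pos_of_lt hj, ?_⟩
  convert hm using 1
  rw [Nat.cast_sub hj.le]
  ring

/-- Infinitely many values of the first Weierstrass function along the line. -/
theorem line_inf (z₁ z₂ γ : ℂ) (hγ : γ ≠ 0) :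
    {x | ∃ s, z₁ + s ∉ L₁.lattice ∧ z₂ + γ * s ∉ L₂.lattice ∧ ℘[L₁] (z₁ + s) = x}.Infinite := by
  intro hfin
  have hc : {s : ℂ | z₂ + γ * s ∈ L₂.lattice}.Countable := by
    refine ((countable_lattice L₂).image fun l => (l - z₂) / γ).mono fun s hs => ?_
    exact ⟨z₂ + γ * s, hs, by field_simp; ring⟩
  refine not_countable_complex
    ((hfin.countable.union (hc.image fun s => ℘[L₁] (z₁ + s))).mono fun x _ => ?_)
  obtain ⟨u, hu, rfl⟩ := line_surj L₁ x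
  have e : z₁ + (u - z₁) = u := by ring
  by_cases h : z₂ + γ * (u - z₁) ∈ L₂.lattice
  · exact Or.inr ⟨u - z₁, h, by simp only [e]⟩
  · exact Or.inl ⟨u - z₁, by rwa [e], h, by rw [e]⟩

/-- A multiple of `γ ω₁` in the second lattice has no `ω₂` component. -/
theorem line_b (h₁ : 0 < (L₁.ω₂ / L₁.ω₁).im) (h₂ : 0 < (L₂.ω₂ / L₂.ω₁).im) (z₁ z₂ γ ρ t : ℂ)
    (hγ : γ ≠ 0) (hρ : ρ ≠ 0) (f : MvPolynomial (Fin 2) ℂ) (hf : f ≠ 0)
    (h : ∀ s, z₁ + s ∉ L₁.lattice → z₂ + γ * s ∉ L₂.lattice →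
      eval ![℘[L₁] (z₁ + s), Zf L₁ (z₁ + s) - ρ * Zf L₂ (z₂ + γ * s) + t] f = 0)
    {n : ℕ} {a b : ℤ} (hn : a * L₂.ω₁ + b * L₂.ω₂ = n * γ * L₁.ω₁) : b = 0 := by
  by_contra hb
  have hb' : (b : ℂ) ≠ 0 := by exact_mod_cast hb
  refine hf (line_prog f (line_inf L₁ L₂ z₁ z₂ γ hγ)
    (mul_ne_zero hρ (mul_ne_zero hb' (line_c_ne L₂))) ?_)
  rintro x ⟨s, hs₁, hs₂, rfl⟩
  refine ⟨Zf L₁ (z₁ + s) - ρ * Zf L₂ (z₂ + γ * s) + t, fun k => ?_⟩
  have e₁ : z₁ + (s + k * n * L₁.ω₁) =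
      z₁ + s + (((k * n : ℤ) : ℂ) * L₁.ω₁ + ((0 : ℤ) : ℂ) * L₁.ω₂) := by
    push_cast
    ring
  have e₂ : z₂ + γ * (s + k * n * L₁.ω₁) =
      z₂ + γ * s + (((k * a : ℤ) : ℂ) * L₂.ω₁ + ((k * b : ℤ) : ℂ) * L₂.ω₂) := by
    push_cast
    linear_combination (-k : ℂ) * hn
  have h1 := h (s + k * n * L₁.ω₁) (by rw [e₁]; exact line_notMem L₁ hs₁ (line_mem L₁ _ _))
    (by rw [e₂]; exact line_notMem L₂ hs₂ (line_mem L₂ _ _))
  rw [e₁, e₂, line_wp L₁ _ (line_mem L₁ _ _), Zf_add_int L₁ h₁ _ _ hs₁,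
    Zf_add_int L₂ h₂ _ _ hs₂] at h1
  rw [show Zf L₁ (z₁ + s) - ρ * Zf L₂ (z₂ + γ * s) + t + k * (ρ * (b * (2 * Real.pi * I / L₂.ω₁))) =
    Zf L₁ (z₁ + s) - ((0 : ℤ) : ℂ) * (2 * Real.pi * I / L₁.ω₁) - ρ * (Zf L₂ (z₂ + γ * s) -
      ((k * b : ℤ) : ℂ) * (2 * Real.pi * I / L₂.ω₁)) + t by push_cast; ring]
  exact h1

theorem line_indep (hτ : LinearIndependent ℚ ![1, L₁.ω₂ / L₁.ω₁, L₂.ω₂ / L₂.ω₁]) {γ : ℂ}
    (hγ : γ ≠ 0) {n n' : ℕ} (hn0 : 0 < n) (hn0' : 0 < n') {a a' b' : ℤ}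
    (hn : a * L₂.ω₁ = n * γ * L₁.ω₁) (hn' : a' * L₂.ω₁ + b' * L₂.ω₂ = n' * γ * L₁.ω₂) :
    False := by
  have h1 := ω₁_ne_zero L₁
  have h2 := ω₁_ne_zero L₂
  rw [Fintype.linearIndependent_iff] at hτ
  have h3 := hτ ![(n : ℚ) * a', -((n' : ℚ) * a), (n : ℚ) * b'] (by
    simp only [Fin.sum_univ_three, Matrix.cons_val_zero, Matrix.cons_val_one, Matrix.cons_val,
      Rat.smul_def]
    push_cast
    field_simp
    linear_combination (n : ℂ) * L₁.ω₁ * hn' - n' * L₁.ω₂ * hn) 1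
  have h4 : (n' : ℚ) * a = 0 := by simpa using h3
  have h5 : a = 0 := by
    rcases mul_eq_zero.mp h4 with h | h
    · exact absurd (by exact_mod_cast h) hn0'.ne'
    · exact_mod_cast h
  rw [h5] at hn
  have h6 : (n : ℂ) ≠ 0 := by exact_mod_cast hn0.ne'
  exact mul_ne_zero (mul_ne_zero h6 hγ) h1 (by simpa using hn.symm)

/-- Hint: suppose `dm p ≤ 1`, so any two of the variables satisfy a nonzero polynomial relation
in `p` (`card_le_dm`).  Take `(z₁, z₂, t)` from `exists_ev` and use `flow`.  If `β = 0`: the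
relation `f(x₁, w)` gives `f (℘ u, Zf u + c - n 2πI/ω₁) = 0` for all `u ∉ Λ₁`, `n`, so `f = 0`;
`α = 0` is symmetric.  If `α β ≠ 0` put `γ = β/α`; from the relation `h(x₁, x₂)`, a point `s₀` with
`h (℘ (z₁ + s₀), ·) ≠ 0`, and `finite_fibre` for `u j = z₂ + γ (s₀ + j ω)`, get `n, n' ≥ 1` with
`n γ L₁.ω₁ = a L₂.ω₁ + b L₂.ω₂`, `n' γ L₁.ω₂ = a' L₂.ω₁ + b' L₂.ω₂`.  If `b ≠ 0`, moving `s` by
multiples of `n L₁.ω₁` changes only `w`, by multiples of a nonzero number, and the relation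
`f(x₁, w)` is again zero (use infinitely many values of `℘ (z₁ + s)` with `z₂ + γ s ∉ Λ₂`:
countable exceptional set).  So `b = 0`, and dividing the two relations contradicts `hτ`. -/
theorem no_line (h₁ : 0 < (L₁.ω₂ / L₁.ω₁).im) (h₂ : 0 < (L₂.ω₂ / L₂.ω₁).im)
    (hτ : LinearIndependent ℚ ![1, L₁.ω₂ / L₁.ω₁, L₂.ω₂ / L₂.ω₁]) (p : Ideal R5)
    (hp : p.IsPrime) (hE : EI (par L₁ L₂) ≤ p) (α β : ℂ) (hαβ : α ≠ 0 ∨ β ≠ 0)
    (hD : ∀ f ∈ p, C α * D1 (par L₁ L₂) f + C β * D2 (par L₁ L₂) f ∈ p) : 2 ≤ dm p := by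
  by_contra hd
  obtain ⟨z₁, z₂, t, hz₁, hz₂, hv⟩ := exists_ev L₁ L₂ p hp.ne_top hE
  have hfl := flow L₁ L₂ p α β hD hz₁ hz₂ hv
  have hρ : L₂.ω₁ / L₁.ω₁ ≠ 0 := div_ne_zero (ω₁_ne_zero L₂) (ω₁_ne_zero L₁)
  by_cases hα : α = 0
  · have hβ : β ≠ 0 := hαβ.resolve_left (not_not.mpr hα)
    obtain ⟨f, hf, hr⟩ := line_rel p hd 2 4
    refine hf (line_snd L₂ h₂ f (Zf L₁ z₁) (L₂.ω₁ / L₁.ω₁) t hρ fun u hu => ?_)
    have e₁ : z₁ + α * ((u - z₂) / β) = z₁ := by rw [hα]; ring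
    have e₂ : z₂ + β * ((u - z₂) / β) = u := by field_simp; ring
    have h1 := hfl ((u - z₂) / β) (by rwa [e₁]) (by rwa [e₂])
    rw [e₁, e₂] at h1
    have h2 := hr _ h1
    rwa [line_ev2, line_ev4] at h2
  by_cases hβ : β = 0
  · obtain ⟨f, hf, hr⟩ := line_rel p hd 0 4
    refine hf (line_fst L₁ h₁ f (-(L₂.ω₁ / L₁.ω₁ * Zf L₂ z₂) + t) fun u hu => ?_)
    have e₁ : z₁ + α * ((u - z₁) / α) = u := by field_simp; ring
    have e₂ : z₂ + β * ((u - z₁) / α) = z₂ := by rw [hβ]; ring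
    have h1 := hfl ((u - z₁) / α) (by rwa [e₁]) (by rwa [e₂])
    rw [e₁, e₂] at h1
    have h2 := hr _ h1
    rw [line_ev0, line_ev4] at h2
    rwa [← add_assoc, ← sub_eq_add_neg]
  have hγ : β / α ≠ 0 := div_ne_zero hβ hα
  have hl : ∀ s, z₁ + s ∉ L₁.lattice → z₂ + β / α * s ∉ L₂.lattice →
      ∀ g ∈ p, eval (ev L₁ L₂ (z₁ + s) (z₂ + β / α * s) t) g = 0 := by
    intro s hs₁ hs₂
    have e₁ : z₁ + α * (s / α) = z₁ + s := by field_simp
    have e₂ : z₂ + β * (s / α) = z₂ + β / α * s := by ring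
    have h1 := hfl (s / α) (by rwa [e₁]) (by rwa [e₂])
    rwa [e₁, e₂] at h1
  obtain ⟨f, hf, hr⟩ := line_rel p hd 0 2
  obtain ⟨g, hg, hr'⟩ := line_rel p hd 0 4
  have hf' : ∀ s, z₁ + s ∉ L₁.lattice → z₂ + β / α * s ∉ L₂.lattice →
      eval ![℘[L₁] (z₁ + s), ℘[L₂] (z₂ + β / α * s)] f = 0 := by
    intro s hs₁ hs₂
    have h2 := hr _ (hl s hs₁ hs₂)
    rwa [line_ev0, line_ev2] at h2
  have hg' : ∀ s, z₁ + s ∉ L₁.lattice → z₂ + β / α * s ∉ L₂.lattice →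
      eval ![℘[L₁] (z₁ + s), Zf L₁ (z₁ + s) - L₂.ω₁ / L₁.ω₁ * Zf L₂ (z₂ + β / α * s) + t] g = 0 := by
    intro s hs₁ hs₂
    have h2 := hr' _ (hl s hs₁ hs₂)
    rwa [line_ev0, line_ev4] at h2
  obtain ⟨n, hn0, hn⟩ := line_comm L₁ L₂ z₁ z₂ (β / α) f hf hf' L₁.ω₁_mem_lattice
  obtain ⟨n', hn0', hn'⟩ := line_comm L₁ L₂ z₁ z₂ (β / α) f hf hf' L₁.ω₂_mem_lattice
  obtain ⟨a, b, hab⟩ := PeriodPair.mem_lattice.mp hn
  obtain ⟨a', b', hab'⟩ := PeriodPair.mem_lattice.mp hn'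
  have hb := line_b L₁ L₂ h₁ h₂ z₁ z₂ (β / α) _ t hγ hρ g hg hg' hab
  rw [hb] at hab
  exact line_indep L₁ L₂ hτ hγ hn0 hn0' (a := a) (by simpa using hab) hab'

theorem good_par (h₁ : 0 < (L₁.ω₂ / L₁.ω₁).im) (h₂ : 0 < (L₂.ω₂ / L₂.ω₁).im)
    (hτ : LinearIndependent ℚ ![1, L₁.ω₂ / L₁.ω₁, L₂.ω₂ / L₂.ω₁]) : Good (par L₁ L₂) where
  ns1 _ _ := nonsing L₁
  ns2 _ _ := nonsing L₂
  h2 := leaf_dense L₁ L₂ h₁
  h1 := no_line L₁ L₂ h₁ h₂ hτ
  low1 := low1 _ (exists_laurent L₁)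
  low2 := low2 _ (exists_laurent L₂)

end GPC96

end

-- part MP_57341d_ag.H96.Isog
section

/-! The isogeny formula and translation by half periods. -/

open Complex Filter Topology
open scoped PeriodPair

namespace GPC96

variable (L : PeriodPair)

theorem isog_uniq {f g g' : ℂ → ℂ} {z : ℂ} (h : AnalyticAt ℂ g z) (h' : AnalyticAt ℂ g' z)
    (e : f =ᶠ[𝓝[≠] z] g) (e' : f =ᶠ[𝓝[≠] z] g') : g z = g' z :=
  tendsto_nhds_unique_of_eventuallyEq (l := 𝓝[≠] z) (h.continuousAt.tendsto.mono_left nhdsWithin_le_nhds)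
    (h'.continuousAt.tendsto.mono_left nhdsWithin_le_nhds) (e.symm.trans e')

theorem isog_add (z : ℂ) {l : ℂ} (hl : l ∈ L.lattice) : ℘[L] (z + l) = ℘[L] z :=
  L.weierstrassP_add_coe z ⟨l, hl⟩

theorem isog_an {g : ℂ → ℂ} {z : ℂ} (hg : AnalyticAt ℂ g z) (h : g z ∉ L.lattice) :
    AnalyticAt ℂ (fun w => ℘[L] (g w)) z :=
  (L.analyticOnNhd_weierstrassP _ h).comp hg

/-- Liouville for functions given off a discrete set: a function which near every point agrees,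
on a punctured neighbourhood, with an analytic function, and is periodic off a countable set, is
constant off that set.  Hint: `g z = limUnder (𝓝[≠] z) f` is entire, equals `f` off `S`, is
periodic by density of the complement of countable sets, so bounded
(`IsZLattice.isCompact_range_of_periodic`). -/
theorem liouville {f : ℂ → ℂ} {S : Set ℂ} (hS : S.Countable)
    (hf : ∀ z, z ∉ S → AnalyticAt ℂ f z)
    (hr : ∀ z, ∃ g, AnalyticAt ℂ g z ∧ f =ᶠ[𝓝[≠] z] g)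
    (hp : ∀ l ∈ L.lattice, ∀ z, z ∉ S → z + l ∉ S → f (z + l) = f z) :
    ∃ c, (∀ z, z ∉ S → f z = c) ∧ ∀ z g, AnalyticAt ℂ g z → f =ᶠ[𝓝[≠] z] g → g z = c := by
  choose G hG eG using hr
  have loc : ∀ z, (fun w => G w w) =ᶠ[𝓝 z] G z := by
    intro z
    filter_upwards [(eventually_nhdsWithin_iff.mp (eG z)).eventually_nhds,
      (hG z).eventually_analyticAt] with w h1 h2
    by_cases hw : w = z
    · rw [hw]
    · refine isog_uniq (hG w) h2 (eG w) (Filter.Eventually.filter_mono nhdsWithin_le_nhds ?_)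
      filter_upwards [h1, isOpen_ne.mem_nhds hw] with x h3 h4 using h3 h4
  have an : Differentiable ℂ fun w => G w w := fun z =>
    ((hG z).congr (loc z).symm).differentiableAt
  have eq : ∀ z, z ∉ S → G z z = f z := fun z hz =>
    isog_uniq (hG z) (hf z hz) (eG z) (EventuallyEq.refl _ _)
  have per : ∀ z l, l ∈ L.lattice → G (z + l) (z + l) = G z z := by
    intro z l hl
    have hc : (S ∪ (fun w => w + l) ⁻¹' S).Countable :=
      hS.union (hS.preimage (add_left_injective l))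
    refine congrFun (Continuous.ext_on (f := fun w => G (w + l) (w + l)) (g := fun w => G w w)
      (hc.dense_compl ℂ) (an.continuous.comp (continuous_add_const l)) an.continuous ?_) z
    intro w hw
    simp only [Set.mem_compl_iff, Set.mem_union, Set.mem_preimage, not_or] at hw
    simp only [eq _ hw.1, eq _ hw.2, hp l hl w hw.1 hw.2]
  have cst := an.apply_eq_apply_of_bounded
    (IsZLattice.isCompact_range_of_periodic L.lattice _ an.continuous per).isBounded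
  exact ⟨G 0 0, fun z hz => (eq z hz).symm.trans (cst z 0),
    fun z g hg e => (isog_uniq hg (hG z) e (eG z)).trans (cst z 0)⟩

/-- Representatives of `μ⁻¹ Λ / Λ`.  Hint: `μ⁻¹ Λ` meets the bounded fundamental domain
(`ZSpan.fundamentalDomain`, `ZSpan.exist_unique_vadd_mem_fundamentalDomain`) in a finite set; `0`
lies in it.  Torsion: multiplication by `μ` is an integer matrix on the basis, with nonzero
determinant `N`, and `N μ⁻¹ Λ ⊆ Λ`; or pigeonhole on the multiples of `t`. -/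
theorem exists_reps {μ : ℂ} (hμ : μ ≠ 0) (h : ∀ l ∈ L.lattice, μ * l ∈ L.lattice) :
    ∃ T : Finset ℂ, 0 ∈ T ∧ (∀ t ∈ T, μ * t ∈ L.lattice) ∧
      (∀ t ∈ T, ∀ t' ∈ T, t - t' ∈ L.lattice → t = t') ∧
      (∀ z, μ * z ∈ L.lattice → ∃ t ∈ T, z - t ∈ L.lattice) ∧
      ∀ t ∈ T, ∃ n : ℕ, 0 < n ∧ n * t ∈ L.lattice := by
  have hb := L.lattice_eq_span_range_basis
  have fl : ∀ z, z - ZSpan.fract L.basis z ∈ L.lattice := fun z => by
    rw [ZSpan.fract_apply, sub_sub_cancel, hb]; exact (ZSpan.floor L.basis z).2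
  have fin : {t | t ∈ ZSpan.fundamentalDomain L.basis ∧ μ * t ∈ L.lattice}.Finite := by
    have h1 : Bornology.IsBounded ((fun t => μ * t) '' ZSpan.fundamentalDomain L.basis) :=
      (lipschitzWith_smul μ).isBounded_image (ZSpan.fundamentalDomain_isBounded L.basis)
    refine ((ZSpan.setFinite_inter L.basis h1).preimage
      (mul_right_injective₀ hμ).injOn).subset fun t ht => ⟨⟨t, ht.1, rfl⟩, ?_⟩
    rw [← hb]; exact ht.2
  have mem : ∀ z, μ * z ∈ L.lattice → ZSpan.fract L.basis z ∈ fin.toFinset := fun z hz => by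
    refine fin.mem_toFinset.mpr ⟨ZSpan.fract_mem_fundamentalDomain _ _, ?_⟩
    have := L.lattice.sub_mem hz (h _ (fl z))
    rwa [← mul_sub, sub_sub_cancel] at this
  refine ⟨fin.toFinset, ?_, fun t ht => (fin.mem_toFinset.mp ht).2, fun t ht t' ht' e => ?_,
    fun z hz => ⟨_, mem z hz, fl z⟩, fun t ht => ?_⟩
  · refine fin.mem_toFinset.mpr ⟨?_, by simp⟩
    simp [ZSpan.mem_fundamentalDomain]
  · rw [← ZSpan.fract_eq_self.mpr (fin.mem_toFinset.mp ht).1,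
      ← ZSpan.fract_eq_self.mpr (fin.mem_toFinset.mp ht').1, eq_comm, ZSpan.fract_eq_fract, ← hb,
      neg_add_eq_sub]
    exact e
  · have h1 : ∀ n : ℕ, ZSpan.fract L.basis (n * t) ∈ (fin.toFinset : Set ℂ) := fun n => by
      refine mem _ ?_
      rw [mul_left_comm, ← nsmul_eq_mul]
      exact nsmul_mem (fin.mem_toFinset.mp ht).2 n
    obtain ⟨m, n, hmn, e⟩ := (Finset.finite_toSet _).exists_lt_map_eq_of_forall_mem h1
    rw [ZSpan.fract_eq_fract, ← hb] at e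
    refine ⟨n - m, Nat.sub_pos_of_lt hmn, ?_⟩
    rwa [Nat.cast_sub hmn.le, sub_mul, ← neg_add_eq_sub]

/-- The isogeny formula (recall `℘ 0 = 0` in Mathlib).  Hint: `liouville` with
`S = μ⁻¹ Λ`; near `z₀ ∈ S` both sides have the singular part `1/(z - z₀)²`
(`weierstrassPExcept_add`); the constant is read at `z₀ = 0` (`weierstrassPExcept_zero`,
`weierstrassP_neg`). -/
theorem isog {μ : ℂ} (hμ : μ ≠ 0) (h : ∀ l ∈ L.lattice, μ * l ∈ L.lattice) {T : Finset ℂ}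
    (h0 : 0 ∈ T) (h1 : ∀ t ∈ T, μ * t ∈ L.lattice)
    (h2 : ∀ t ∈ T, ∀ t' ∈ T, t - t' ∈ L.lattice → t = t')
    (h3 : ∀ z, μ * z ∈ L.lattice → ∃ t ∈ T, z - t ∈ L.lattice) {z : ℂ} (hz : μ * z ∉ L.lattice) :
    μ ^ 2 * ℘[L] (μ * z) = ∑ t ∈ T, ℘[L] (z - t) - ∑ t ∈ T, ℘[L] t := by
  classical
  have off : ∀ w, μ * w ∉ L.lattice → ∀ t ∈ T, w - t ∉ L.lattice := fun w hw t ht e => hw (by
    have := L.lattice.add_mem (h _ e) (h1 t ht)
    rwa [← mul_add, sub_add_cancel] at this)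
  have an : ∀ w, μ * w ∉ L.lattice →
      AnalyticAt ℂ (fun w => μ ^ 2 * ℘[L] (μ * w) - ∑ t ∈ T, ℘[L] (w - t)) w := fun w hw =>
    (analyticAt_const.mul (isog_an L (by fun_prop) hw)).sub
      (Finset.analyticAt_fun_sum _ fun t ht => isog_an L (by fun_prop) (off w hw t ht))
  have loc : ∀ z₀, μ * z₀ ∈ L.lattice → ∀ t₀ ∈ T, z₀ - t₀ ∈ L.lattice →
      AnalyticAt ℂ (fun w => μ ^ 2 * (℘[L - μ * z₀] (μ * w) - 1 / (μ * z₀) ^ 2) -
        (℘[L - (z₀ - t₀)] (w - t₀) - 1 / (z₀ - t₀) ^ 2) - ∑ t ∈ T.erase t₀, ℘[L] (w - t)) z₀ ∧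
      (fun w => μ ^ 2 * ℘[L] (μ * w) - ∑ t ∈ T, ℘[L] (w - t)) =
      fun w => μ ^ 2 * (℘[L - μ * z₀] (μ * w) - 1 / (μ * z₀) ^ 2) -
        (℘[L - (z₀ - t₀)] (w - t₀) - 1 / (z₀ - t₀) ^ 2) - ∑ t ∈ T.erase t₀, ℘[L] (w - t) := by
    intro z₀ a1 t₀ a2 a3
    constructor
    · have b1 : AnalyticAt ℂ (fun w => ℘[L - μ * z₀] (μ * w)) z₀ :=
        (L.analyticAt_weierstrassPExcept _).comp_of_eq (by fun_prop) rfl
      have b2 : AnalyticAt ℂ (fun w => ℘[L - (z₀ - t₀)] (w - t₀)) z₀ :=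
        (L.analyticAt_weierstrassPExcept _).comp_of_eq (by fun_prop) rfl
      refine ((analyticAt_const.mul (b1.sub analyticAt_const)).sub (b2.sub analyticAt_const)).sub
        (Finset.analyticAt_fun_sum _ fun t ht => isog_an L (by fun_prop) fun e => ?_)
      obtain ⟨c1, c2⟩ := Finset.mem_erase.mp ht
      refine c1 (h2 t c2 t₀ a2 ?_)
      have := L.lattice.sub_mem a3 e
      rwa [sub_sub_sub_cancel_left] at this
    · funext w
      rw [← Finset.add_sum_erase _ _ a2, ← L.weierstrassPExcept_add ⟨_, a1⟩ (μ * w),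
        ← L.weierstrassPExcept_add ⟨_, a3⟩ (w - t₀)]
      have e : μ ^ 2 * (1 / (μ * w - μ * z₀) ^ 2) = 1 / (w - t₀ - (z₀ - t₀)) ^ 2 := by
        rw [← mul_sub, mul_pow, sub_sub_sub_cancel_right, one_div, mul_inv, ← mul_assoc,
          mul_inv_cancel₀ (pow_ne_zero 2 hμ), one_mul, one_div]
      linear_combination e
  obtain ⟨c, c1, c2⟩ := liouville L (S := (fun w => μ * w) ⁻¹' L.lattice)
    ((countable_lattice L).preimage (mul_right_injective₀ hμ)) an (by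
      intro w
      by_cases hw : μ * w ∈ L.lattice
      · obtain ⟨t, ht, e⟩ := h3 w hw
        obtain ⟨d1, d2⟩ := loc w hw t ht e
        exact ⟨_, d1, d2 ▸ EventuallyEq.refl _ _⟩
      · exact ⟨_, an w hw, EventuallyEq.refl _ _⟩) (by
      intro l hl w _ _
      simp only [mul_add, isog_add L _ (h l hl), add_sub_right_comm, isog_add L _ hl])
  obtain ⟨d1, d2⟩ := loc 0 (by simp) 0 h0 (by simp)
  have e1 := c2 0 _ d1 (d2 ▸ EventuallyEq.refl _ _)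
  have e2 := c1 z hz
  have e3 := Finset.add_sum_erase T (fun t => ℘[L] t) h0
  simp only [mul_zero, zero_sub, PeriodPair.weierstrassPExcept_zero, PeriodPair.weierstrassP_neg,
    ne_eq, OfNat.ofNat_ne_zero, not_false_eq_true, zero_pow, div_zero, sub_self] at e1
  simp only [PeriodPair.weierstrassP_zero, zero_add] at e3
  linear_combination e2 - e1 - e3

/-- Translation by a half period.  Hint: `liouville` for
`(℘ (z - t) - e) (℘ z - e)`, `e = ℘ t`: `℘ - e` has a double zero at `± t + Λ`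
(`wp'_eq_zero`), with second derivative `6 e² - g₂/2`; the constant is read at `z = 0`. -/
theorem half {t : ℂ} (ht : t ∉ L.lattice) (h2 : 2 * t ∈ L.lattice) {z : ℂ}
    (hz : z ∉ L.lattice) (hz' : z - t ∉ L.lattice) :
    (℘[L] (z - t) - ℘[L] t) * (℘[L] z - ℘[L] t) = 3 * ℘[L] t ^ 2 - L.g₂ / 4 := by
  have a0 : AnalyticAt ℂ (fun w => ℘[L] (w + t)) 0 := isog_an L (by fun_prop) (by simpa using ht)
  obtain ⟨F, hF, eF⟩ := a0.exists_eq_sum_add_pow_mul 3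
  have d1 : iteratedDeriv 1 (fun w => ℘[L] (w + t)) 0 = 0 := by
    rw [iteratedDeriv_comp_add_const, iteratedDeriv_one, PeriodPair.deriv_weierstrassP]
    simpa using wp'_eq_zero L h2
  have d2 : iteratedDeriv 2 (fun w => ℘[L] (w + t)) 0 = 6 * ℘[L] t ^ 2 - L.g₂ / 2 := by
    rw [iteratedDeriv_comp_add_const, iteratedDeriv_succ, iteratedDeriv_one,
      PeriodPair.deriv_weierstrassP]
    simpa using (hasDerivAt_wp' L ht).deriv
  simp only [Finset.sum_range_succ, Finset.sum_range_zero, iteratedDeriv_zero, d1, d2, smul_eq_mul,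
    zero_add] at eF
  obtain ⟨H, hH⟩ : ∃ H : ℂ → ℂ, H = fun w => (3 * ℘[L] t ^ 2 - L.g₂ / 4 + w * F w) *
    (1 + w ^ 2 * (℘[L - (0 : ℂ)] w - ℘[L] t)) := ⟨_, rfl⟩
  have aH : AnalyticAt ℂ H 0 := by
    have := L.analyticAt_weierstrassPExcept 0
    rw [hH]; fun_prop
  have eH : ∀ w, w ≠ 0 → (℘[L] (w + t) - ℘[L] t) * (℘[L] w - ℘[L] t) = H w := by
    intro w hw
    have e := L.weierstrassPExcept_add 0 w
    simp only [ZeroMemClass.coe_zero, sub_zero, ne_eq, OfNat.ofNat_ne_zero, not_false_eq_true, zero_pow,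
      div_zero] at e
    rw [eF w, ← e, hH]
    simp only [Nat.factorial]
    push_cast
    field_simp
    ring
  have an : ∀ w, w ∉ (L.lattice : Set ℂ) ∪ (fun w => w - t) ⁻¹' L.lattice →
      AnalyticAt ℂ (fun w => (℘[L] (w - t) - ℘[L] t) * (℘[L] w - ℘[L] t)) w := by
    intro w hw
    have b1 : AnalyticAt ℂ (fun w => ℘[L] (w - t)) w :=
      isog_an L (g := fun w => w - t) (by fun_prop) fun e => hw (Or.inr e)
    have b2 : AnalyticAt ℂ ℘[L] w := L.analyticOnNhd_weierstrassP _ fun e => hw (Or.inl e)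
    fun_prop
  have loc : ∀ z₀ ∈ (L.lattice : Set ℂ) ∪ (fun w => w - t) ⁻¹' L.lattice,
      AnalyticAt ℂ (fun w => H (w - z₀)) z₀ ∧
      (fun w => (℘[L] (w - t) - ℘[L] t) * (℘[L] w - ℘[L] t)) =ᶠ[𝓝[≠] z₀] fun w => H (w - z₀) := by
    intro z₀ h0
    have b0 : AnalyticAt ℂ (fun w : ℂ => w - z₀) z₀ := analyticAt_id.sub analyticAt_const
    refine ⟨AnalyticAt.fun_comp_of_eq aH b0 (sub_self z₀), ?_⟩
    filter_upwards [self_mem_nhdsWithin] with w hw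
    rw [← eH _ (sub_ne_zero.mpr hw)]
    rcases h0 with h0 | h0
    · rw [← isog_add L (w - z₀) h0, ← isog_add L (w - z₀ + t) (L.lattice.sub_mem h0 h2),
        show w - z₀ + t + (z₀ - 2 * t) = w - t by ring, sub_add_cancel]
    · have h1 : z₀ - t ∈ L.lattice := h0
      rw [mul_comm, ← isog_add L (w - z₀) h1, ← isog_add L (w - z₀ + t) h1,
        show w - z₀ + t + (z₀ - t) = w by ring, show w - z₀ + (z₀ - t) = w - t by ring]
  obtain ⟨c, c1, c2⟩ := liouville L ((countable_lattice L).union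
    ((countable_lattice L).preimage (sub_left_injective (b := t)))) an (by
      intro w
      by_cases hw : w ∈ (L.lattice : Set ℂ) ∪ (fun w => w - t) ⁻¹' L.lattice
      · exact ⟨_, loc w hw⟩
      · exact ⟨_, an w hw, EventuallyEq.refl _ _⟩) (by
      intro l hl w _ _
      simp only [add_sub_right_comm, isog_add L _ hl])
  obtain ⟨b1, b2⟩ := loc 0 (Or.inl L.lattice.zero_mem)
  have e1 := c2 0 _ b1 b2
  rw [c1 z (fun e => e.elim hz hz'), ← e1, hH]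
  simp

end GPC96

end

-- part MP_57341d_ag.H96.Tors
section

/-! Torsion points are algebraic. -/

open Complex Filter Topology
open scoped PeriodPair

namespace GPC96

variable (L : PeriodPair)

/-- A transcendental number has a pole at some place which is trivial on the algebraic numbers. -/
theorem tors_val {x : ℂ} (hx : ¬IsAlgebraic ℚ x) :
    ∃ V : ValuationSubring ℂ, (∀ y : ℂ, IsAlgebraic ℚ y → y ∈ V) ∧ x ∉ V := by
  have h : x ∉ (integralClosure ℚ ℂ).toSubring := fun h => hx (IsIntegral.isAlgebraic h)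
  have : IsIntegrallyClosedIn (integralClosure ℚ ℂ).toSubring ℂ :=
    inferInstanceAs (IsIntegrallyClosedIn (integralClosure ℚ ℂ) ℂ)
  obtain ⟨V, h1, h2⟩ := Subring.exists_le_valuationSubring_of_isIntegrallyClosedIn h
  exact ⟨V, fun y hy => h1 hy.isIntegral, h2⟩

theorem tors_rat (q : ℚ) : IsAlgebraic ℚ (q : ℂ) := isAlgebraic_algebraMap q

theorem tors_cancel {V : ValuationSubring ℂ} (hV : ∀ y : ℂ, IsAlgebraic ℚ y → y ∈ V) {q : ℚ}
    (hq : q ≠ 0) {x : ℂ} (h : (q : ℂ) * x ∈ V) : x ∈ V := by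
  have h1 := mul_mem (hV _ (tors_rat q⁻¹)) h
  have h2 : (q : ℂ) ≠ 0 := by exact_mod_cast hq
  rwa [Rat.cast_inv, inv_mul_cancel_left₀ h2] at h1

/-- Values at half periods are roots of the cubic (`wp'_eq_zero`, `derivWeierstrassP_sq`). -/
theorem alg_half (h₂ : IsAlgebraic ℚ L.g₂) (h₃ : IsAlgebraic ℚ L.g₃) {t : ℂ}
    (h2 : 2 * t ∈ L.lattice) : IsAlgebraic ℚ (℘[L] t) := by
  by_cases ht : t ∈ L.lattice
  · rw [L.weierstrassP_coe ⟨t, ht⟩]; exact isAlgebraic_zero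
  by_contra hx
  obtain ⟨V, hV, hxV⟩ := tors_val hx
  have h := L.derivWeierstrassP_sq t ht
  rw [wp'_eq_zero L h2] at h
  have hi : (℘[L] t)⁻¹ ∈ V := (V.mem_or_inv_mem _).resolve_left hxV
  have h0 : ℘[L] t ≠ 0 := fun h0 => hxV (h0 ▸ V.zero_mem)
  refine hxV (tors_cancel hV (q := 4) (by norm_num) ?_)
  have : ((4 : ℚ) : ℂ) * ℘[L] t = L.g₂ * (℘[L] t)⁻¹ + L.g₃ * ((℘[L] t)⁻¹ * (℘[L] t)⁻¹) := by
    push_cast
    field_simp
    linear_combination -h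
  rw [this]
  exact add_mem (mul_mem (hV _ h₂) hi) (mul_mem (hV _ h₃) (mul_mem hi hi))

theorem tors_step (h₂ : IsAlgebraic ℚ L.g₂) (h₃ : IsAlgebraic ℚ L.g₃) {V : ValuationSubring ℂ}
    (hV : ∀ y : ℂ, IsAlgebraic ℚ y → y ∈ V) {z : ℂ} (hz : ℘[L] z ∉ V) :
    4 * ℘[L] (2 * z) - ℘[L] z ∈ V := by
  classical
  have hl : ∀ l ∈ L.lattice, (2 : ℂ) * l ∈ L.lattice := fun l hl => by
    rw [two_mul]; exact add_mem hl hl
  obtain ⟨T, h0, h1, h2, h3, -⟩ := exists_reps L two_ne_zero hl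
  have h2z : 2 * z ∉ L.lattice := fun h => hz (hV _ (alg_half L h₂ h₃ h))
  have h4 := isog L two_ne_zero hl h0 h1 h2 h3 h2z
  rw [← Finset.sum_sub_distrib, ← Finset.add_sum_erase _ _ h0, sub_zero, L.weierstrassP_zero,
    sub_zero] at h4
  have h5 : 4 * ℘[L] (2 * z) - ℘[L] z = ∑ t ∈ T.erase 0, (℘[L] (z - t) - ℘[L] t) := by
    linear_combination h4
  rw [h5]
  refine sum_mem fun t ht => ?_
  obtain ⟨ht0, ht⟩ := Finset.mem_erase.1 ht
  have hA := alg_half L h₂ h₃ (h1 t ht)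
  have he : ℘[L] t ∈ V := hV _ hA
  have hn : ℘[L] z - ℘[L] t ∉ V := fun h => hz (by simpa using add_mem h he)
  have hi : (℘[L] z - ℘[L] t)⁻¹ ∈ V := (V.mem_or_inv_mem _).resolve_left hn
  have hne : ℘[L] z - ℘[L] t ≠ 0 := fun h0 => hn (h0 ▸ V.zero_mem)
  have h6 := half L (t := t) (z := z) (fun h => ht0 (h2 t ht 0 h0 (by simpa using h))) (h1 t ht)
    (fun h => h2z (hl z h)) (fun h => h2z (by
      have := add_mem (hl _ h) (h1 t ht)
      rwa [show 2 * (z - t) + 2 * t = 2 * z by ring] at this))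
  have h7 : ℘[L] (z - t) - ℘[L] t =
      (((3 : ℚ) : ℂ) * (℘[L] t * ℘[L] t) - ((1 / 4 : ℚ) : ℂ) * L.g₂) * (℘[L] z - ℘[L] t)⁻¹ := by
    rw [eq_mul_inv_iff_mul_eq₀ hne, h6]; push_cast; ring
  rw [h7]
  exact mul_mem (sub_mem (mul_mem (hV _ (tors_rat _)) (mul_mem he he))
    (mul_mem (hV _ (tors_rat _)) (hV _ h₂))) hi

/-- Hint: let `K` be the field of algebraic numbers (`algebraicClosure ℚ ℂ`).  `isog` with `μ = 2`
and `half` give, for `2 z ∉ Λ`, `4 ℘(2z) = x + ∑_{t ≠ 0} c t / (x - e t)` with `x = ℘ z`,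
`e t, c t ∈ K`, `c t ≠ 0` by `nonsing` (so `x ≠ e t`).  Thus `℘(2z) * B x = A x` with
`A, B ∈ K[X]`, `A` monic of degree `n + 1`, `B` of degree `n` with leading coefficient `4`
(`n = card T - 1`).  Suppose `℘ t` transcendental.  Then `2 t ∉ Λ` (`alg_half`) and `℘ (2t)` is
transcendental (else `℘ t` is a root of the monic `A - ℘(2t) B`); so all `x k = ℘ (2^k t)` are.
As `n t ∈ Λ`, `x m = x (m + d)` for some `d ≥ 1` (pigeonhole on `2^k mod n`).  By induction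
`x (m + k) * B k (x m) = A k (x m)` with `A k` monic, `deg A k = deg B k + 1`, leading coefficient
of `B k` equal to `4^k`.  Then `x m` is a root of `A d - X * B d`, of leading coefficient
`1 - 4^d ≠ 0`.  (Alternatively use `RatFunc K`, `intDegree` and leading coefficients.) -/
theorem alg_torsion (h₂ : IsAlgebraic ℚ L.g₂) (h₃ : IsAlgebraic ℚ L.g₃) {t : ℂ} {n : ℕ}
    (hn : 0 < n) (ht : n * t ∈ L.lattice) : IsAlgebraic ℚ (℘[L] t) := by
  by_contra hx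
  obtain ⟨V, hV, hxV⟩ := tors_val hx
  have key : ∀ k : ℕ, 4 ^ k * ℘[L] (2 ^ k * t) - ℘[L] t ∈ V := by
    intro k
    induction k with
    | zero => simp
    | succ k ih =>
      have h4 : (4 : ℂ) ^ k ∈ V := by
        have := hV _ (tors_rat (4 ^ k))
        rwa [Rat.cast_pow, Rat.cast_ofNat] at this
      have h1 : ℘[L] (2 ^ k * t) ∉ V := fun h => hxV (by simpa using sub_mem (mul_mem h4 h) ih)
      have h2 := add_mem (mul_mem h4 (tors_step L h₂ h₃ hV h1)) ih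
      rw [show (2 : ℂ) ^ (k + 1) * t = 2 * (2 ^ k * t) by ring]
      convert h2 using 1
      ring
  have : NeZero n := ⟨hn.ne'⟩
  obtain ⟨a, b, hab, he⟩ := Finite.exists_ne_map_eq_of_infinite fun k : ℕ => ((2 ^ k : ℤ) : ZMod n)
  obtain ⟨c, hc⟩ := (ZMod.intCast_eq_intCast_iff_dvd_sub _ _ _).1 he
  have hc' : (2 : ℂ) ^ b * t = 2 ^ a * t + c • (n * t) := by
    have : (2 : ℂ) ^ b - 2 ^ a = n * c := by exact_mod_cast hc
    rw [zsmul_eq_mul]
    linear_combination t * this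
  have hp : ℘[L] (2 ^ b * t) = ℘[L] (2 ^ a * t) := by
    rw [hc']
    exact L.weierstrassP_add_coe _ ⟨_, L.lattice.smul_mem c ht⟩
  have h1 := sub_mem (key b) (key a)
  rw [hp] at h1
  have h2 : ℘[L] (2 ^ a * t) ∈ V := by
    refine tors_cancel hV (q := 4 ^ b - 4 ^ a) ?_ ?_
    · rw [sub_ne_zero]
      exact fun h => hab (pow_right_injective₀ (by norm_num) (by norm_num) h).symm
    · convert h1 using 1
      push_cast; ring
  have h4 : (4 : ℂ) ^ a ∈ V := by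
    have := hV _ (tors_rat (4 ^ a))
    rwa [Rat.cast_pow, Rat.cast_ofNat] at this
  exact hxV (by simpa using sub_mem (mul_mem h4 h2) (key a))

end GPC96

end

-- part MP_57341d_ag.H96.Main
section

/-! The transcendence argument. -/

open MvPolynomial Complex
open scoped PeriodPair

namespace GPC96

theorem main_pow_le {x A T : ℝ} {m j : ℕ} (hm : 1 ≤ m) (hx : 0 ≤ x) (hA : 0 ≤ A)
    (hxA : x ≤ A * (m : ℝ) ^ 9) (hj : (j : ℝ) ≤ T * (m : ℝ) ^ 9) :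
    x ^ j ≤ Real.exp (T * (A + 9) * (m : ℝ) ^ 10) := by
  have hm' : (1 : ℝ) ≤ m := by exact_mod_cast hm
  have h1 : x ≤ Real.exp ((A + 9) * m) := by
    have h2 : A ≤ Real.exp (A * m) :=
      (by nlinarith : A ≤ A * m + 1).trans (Real.add_one_le_exp _)
    have h3 : (m : ℝ) ^ 9 ≤ Real.exp (9 * m) := by
      rw [show (9 : ℝ) * m = (9 : ℕ) * (m : ℝ) by norm_num, Real.exp_nat_mul]
      exact pow_le_pow_left₀ (by positivity) (by linarith [Real.add_one_le_exp (m : ℝ)]) 9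
    calc x ≤ Real.exp (A * m) * Real.exp (9 * m) :=
          hxA.trans (mul_le_mul h2 h3 (by positivity) (by positivity))
      _ = _ := by rw [← Real.exp_add]; ring_nf
  calc x ^ j ≤ Real.exp ((A + 9) * m) ^ j := pow_le_pow_left₀ hx h1 j
    _ = Real.exp (j * ((A + 9) * m)) := by rw [Real.exp_nat_mul]
    _ ≤ _ := by
      refine Real.exp_le_exp.mpr ?_
      calc (j : ℝ) * ((A + 9) * m) ≤ T * (m : ℝ) ^ 9 * ((A + 9) * m) := by gcongr
        _ = _ := by ring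

theorem main_ev_half (L₁ L₂ : PeriodPair) : ev L₁ L₂ (L₁.ω₁ / 2) (L₂.ω₁ / 2) 0 =
    ![℘[L₁] (L₁.ω₁ / 2), 0, ℘[L₂] (L₂.ω₁ / 2), 0, 0] := by
  have h : ∀ L : PeriodPair, ℘'[L] (L.ω₁ / 2) = 0 := fun L =>
    wp'_eq_zero L (by rw [mul_div_cancel₀ _ two_ne_zero]; exact L.ω₁_mem_lattice)
  simp [ev, h, Zf_half]

/-- One polynomial for each large `m`. -/
theorem main_step (L₁ L₂ : PeriodPair) (h₁ : 0 < (L₁.ω₂ / L₁.ω₁).im)
    (h₂ : 0 < (L₂.ω₂ / L₂.ω₁).im)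
    (hτ : LinearIndependent ℚ ![1, L₁.ω₂ / L₁.ω₁, L₂.ω₂ / L₂.ω₁])
    (g₁ : IsAlgebraic ℚ L₁.g₂) (g₁' : IsAlgebraic ℚ L₁.g₃) (g₂ : IsAlgebraic ℚ L₂.g₂)
    (g₂' : IsAlgebraic ℚ L₂.g₃) (θ : ℂ) (hθ : Transcendental ℚ θ)
    (ha : IsAlgebraic (Algebra.adjoin ℚ {θ}) (aa L₁))
    (hb : IsAlgebraic (Algebra.adjoin ℚ {θ}) (aa L₂))
    (hρ : IsAlgebraic (Algebra.adjoin ℚ {θ}) (L₂.ω₁ / L₁.ω₁)) :
    ∃ b : ℝ, 1 ≤ b ∧ ∀ K : ℝ, 0 < K → ∃ m₀ : ℕ, ∀ m : ℕ, m₀ ≤ m → ∃ Q : Polynomial ℤ, Q ≠ 0 ∧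
      (Q.natDegree : ℝ) ≤ b * (m : ℝ) ^ 6 ∧
      (Q.map (Int.castRingHom ℂ)).mahlerMeasure ≤ Real.exp (b * (m : ℝ) ^ 10) ∧
      ‖Polynomial.aeval θ Q‖ ≤ Real.exp (-(K * (m : ℝ) ^ 16)) := by
  obtain ⟨C₁, hZ⟩ := zero_alg _ (good_par L₁ L₂ h₁ h₂ hτ)
  obtain ⟨C₂, hC₂, hA⟩ := aux_exists L₁ L₂ h₁ h₂ θ
  have hh : ∀ L : PeriodPair, 2 * (L.ω₁ / 2) ∈ L.lattice := fun L => by
    rw [mul_div_cancel₀ _ two_ne_zero]; exact L.ω₁_mem_lattice
  have h2 : IsAlgebraic ℚ (2 : ℂ)⁻¹ := (isAlgebraic_natCast 2).inv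
  obtain ⟨Rp, c, hR, hx, hy, hQ⟩ := exists_size θ hθ
    ![θ, aa L₁, L₂.ω₁ / L₁.ω₁, L₂.ω₁ / L₁.ω₁ * aa L₂]
    ![℘[L₁] (L₁.ω₁ / 2), ℘[L₂] (L₂.ω₁ / 2), L₁.g₂ / 2, L₂.g₂ / 2] (by
      intro i
      fin_cases i
      · exact isAlgebraic_algebraMap (⟨θ, Algebra.self_mem_adjoin_singleton ℚ θ⟩ :
          Algebra.adjoin ℚ {θ})
      · exact ha
      · exact hρ
      · exact hρ.mul hb) (by
      intro i
      fin_cases i
      · exact alg_half L₁ g₁ g₁' (hh L₁)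
      · exact alg_half L₂ g₂ g₂' (hh L₂)
      · exact g₁.mul h2
      · exact g₂.mul h2)
  set T : ℝ := 6 * C₁ + 1 with hT
  have hT1 : 1 ≤ T := by have : (0 : ℝ) ≤ C₁ := Nat.cast_nonneg _; linarith
  set B : ℝ := 10 + T + T * (7 * (4 + T) + 9) with hB
  have hB1 : 1 ≤ B := by
    have : 0 ≤ T * (7 * (4 + T) + 9) := by positivity
    linarith
  have hc0 : (0 : ℝ) ≤ c := Nat.cast_nonneg _
  have hcB : 0 ≤ c * B := by positivity
  refine ⟨c * B + 2 * c + 1, by linarith, fun K hK => ?_⟩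
  set K' : ℝ := 2 * (K + T * (C₂ * T + 9) + C₂ + c * B) + 1 with hK'
  have hK1 : 1 ≤ K' := by
    have : 0 ≤ K + T * (C₂ * T + 9) + C₂ + c * B := by positivity
    linarith
  obtain ⟨R, hRK⟩ := exists_nat_ge (C₂ * K')
  have hR1 : (1 : ℝ) ≤ R := le_trans (one_le_mul_of_one_le_of_one_le hC₂ hK1) hRK
  obtain ⟨m₀, hm₀⟩ := exists_nat_ge (C₂ * R * K' + 2)
  refine ⟨m₀, fun m hm => ?_⟩
  have hmm : C₂ * R * K' + 2 ≤ m := hm₀.trans (by exact_mod_cast hm)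
  have hpos : 0 ≤ C₂ * R * K' := by positivity
  have hm2 : (2 : ℝ) ≤ m := by linarith
  have hm1 : (1 : ℝ) ≤ m := by linarith
  have hm1' : 1 ≤ m := by exact_mod_cast hm1
  have hpw : ∀ a b : ℕ, a ≤ b → (m : ℝ) ^ a ≤ (m : ℝ) ^ b := fun a b h => pow_le_pow_right₀ hm1 h
  have h46 : 4 * (m : ℝ) ^ 6 ≤ (m : ℝ) ^ 9 := by
    have : (4 : ℝ) ≤ (m : ℝ) ^ 3 := le_trans (by norm_num) (pow_le_pow_left₀ (by norm_num) hm2 3)
    calc 4 * (m : ℝ) ^ 6 ≤ (m : ℝ) ^ 3 * (m : ℝ) ^ 6 := by gcongr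
      _ = _ := by ring
  obtain ⟨p, hp0, hpH, hpv⟩ := hA (m ^ 6) (R * m ^ 11) ((m : ℝ) ^ 10) (K' * (m : ℝ) ^ 16)
    (Nat.one_le_pow _ _ hm1') (Nat.mul_pos (by exact_mod_cast hR1) (Nat.one_le_pow _ _ hm1'))
    (by push_cast; exact h46.trans (hpw 9 10 (by norm_num)))
    ((hpw 10 16 (by norm_num)).trans (le_mul_of_one_le_left (by positivity) hK1))
    (by
      push_cast
      calc C₂ * (m : ℝ) ^ 6 * (K' * (m : ℝ) ^ 16) = C₂ * K' * (m : ℝ) ^ 22 := by ring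
        _ ≤ (R : ℝ) ^ 2 * (m : ℝ) ^ 22 := by gcongr; exact hRK.trans (le_self_pow₀ hR1 two_ne_zero)
        _ = _ := by ring)
    (by
      push_cast
      calc C₂ * (R * (m : ℝ) ^ 11) * (m : ℝ) ^ 6 * (K' * (m : ℝ) ^ 16)
          = C₂ * R * K' * (m : ℝ) ^ 33 := by ring
        _ ≤ m * (m : ℝ) ^ 33 := by gcongr; linarith
        _ = _ := by ring)
  have hcurve : ∀ L : PeriodPair, (0 : ℂ) ^ 2 =
      4 * ℘[L] (L.ω₁ / 2) ^ 3 - L.g₂ * ℘[L] (L.ω₁ / 2) - L.g₃ := fun L => by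
    rw [← L.derivWeierstrassP_sq _ L.ω₁_div_two_notMem_lattice, wp'_eq_zero L (hh L)]
  obtain ⟨s, t, hst, hξ⟩ : ∃ s t, s + t < (6 * C₁ + 1) * m ^ 9 ∧
      eval ![℘[L₁] (L₁.ω₁ / 2), 0, ℘[L₂] (L₂.ω₁ / 2), 0, 0] ((D1 (par L₁ L₂))^[s]
        ((D2 (par L₁ L₂))^[t] (rename emb (auxP θ (m ^ 6) p)))) ≠ 0 := by
    by_contra hcon
    push Not at hcon
    have := hZ (3 * m ^ 6) _ _ _ (by have := Nat.one_le_pow 6 _ hm1'; omega)
      (auxP_ne_zero hθ hp0) (auxP_deg θ _ p)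
      (by simp [E1, par]; linear_combination hcurve L₁)
      (by simp [E2, par]; linear_combination hcurve L₂) hcon
    have h18 : 0 < m ^ 18 := by positivity
    have e1 : ((6 * C₁ + 1) * m ^ 9) ^ 2 = (6 * C₁ + 1) ^ 2 * m ^ 18 := by ring
    have e2 : C₁ * (3 * m ^ 6) ^ 3 = 27 * C₁ * m ^ 18 := by ring
    rw [e1, e2] at this
    have h19 := Nat.le_of_mul_le_mul_right this h18
    have h20 := Nat.le_mul_self C₁
    rw [show (6 * C₁ + 1) ^ 2 = 36 * (C₁ * C₁) + 12 * C₁ + 1 by ring] at h19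
    omega
  have hj : ((s + t : ℕ) : ℝ) ≤ T * (m : ℝ) ^ 9 := by
    rw [hT]; exact_mod_cast hst.le
  have hS := der_size (par L₁ L₂) hR θ _ _ (hx 0) (hx 1) (hx 2) (hx 3) (hy 0) (hy 1) (hy 2) (hy 3)
    (m ^ 6) p hpH s t
  have hv := hpv s t
  rw [main_ev_half] at hv
  have h9 := hpw 9 10 (by norm_num)
  have h9' : (1 : ℝ) ≤ (m : ℝ) ^ 9 := one_le_pow₀ hm1
  have hM1 : (7 * (4 * ((m ^ 6 : ℕ) : ℝ) + (s + t)) : ℝ) ^ (s + t) ≤
      Real.exp (T * (7 * (4 + T) + 9) * (m : ℝ) ^ 10) := by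
    refine main_pow_le hm1' (by positivity) (by positivity) ?_ hj
    push_cast at hj ⊢
    linarith [hpw 6 9 (by norm_num)]
  have hM2 : (((m ^ 6 : ℕ) : ℝ) + 1) ^ 4 ≤ Real.exp (4 * (m : ℝ) ^ 10) := by
    rw [show (4 : ℝ) * (m : ℝ) ^ 10 = (4 : ℕ) * (m : ℝ) ^ 10 by norm_num, Real.exp_nat_mul]
    refine pow_le_pow_left₀ (by positivity) ?_ 4
    push_cast
    linarith [Real.add_one_le_exp ((m : ℝ) ^ 10), hpw 6 10 (by norm_num)]
  obtain ⟨Q, hQ0, hQd, hQM, hQv⟩ := hQ _ _ _ _ (by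
    refine one_le_mul_of_one_le_of_one_le (one_le_mul_of_one_le_of_one_le
      (one_le_pow₀ (by simp)) (Real.one_le_exp (by positivity))) (one_le_pow₀ ?_)
    have : (1 : ℝ) ≤ ((m ^ 6 : ℕ) : ℝ) := by push_cast; exact one_le_pow₀ hm1
    have : (0 : ℝ) ≤ (s : ℝ) + t := by positivity
    linarith) hS hξ
  have hE : (Real.exp (((2 * m ^ 6 : ℕ) : ℝ) + ((2 * m ^ 6 + (s + t) : ℕ) : ℝ) + 1) *
      ((((m ^ 6 : ℕ) : ℝ) + 1) ^ 4 * Real.exp ((m : ℝ) ^ 10) *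
        (7 * (4 * ((m ^ 6 : ℕ) : ℝ) + (s + t)) : ℝ) ^ (s + t))) ^ c ≤
      Real.exp (c * B * (m : ℝ) ^ 10) := by
    rw [mul_assoc (c : ℝ), Real.exp_nat_mul]
    refine pow_le_pow_left₀ (by positivity) ?_ c
    calc _ ≤ Real.exp ((5 + T) * (m : ℝ) ^ 10) * (Real.exp (4 * (m : ℝ) ^ 10) *
          Real.exp ((m : ℝ) ^ 10) * Real.exp (T * (7 * (4 + T) + 9) * (m : ℝ) ^ 10)) := by
          gcongr
          push_cast at hj ⊢
          linarith [mul_le_mul_of_nonneg_left h9 (by linarith : 0 ≤ T)]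
      _ = _ := by simp only [← Real.exp_add]; congr 1; rw [hB]; ring
  refine ⟨Q, hQ0, ?_, hQM.trans (hE.trans ?_), hQv.trans ?_⟩
  · have : (Q.natDegree : ℝ) ≤ c * (2 * (m : ℝ) ^ 6) := by exact_mod_cast hQd
    have h6 : (0 : ℝ) ≤ (m : ℝ) ^ 6 := by positivity
    linarith [mul_nonneg hcB h6]
  · refine Real.exp_le_exp.mpr ?_
    gcongr
    linarith
  · have hf : (s.factorial : ℝ) * t.factorial * C₂ ^ (s + t) ≤
        Real.exp (T * (C₂ * T + 9) * (m : ℝ) ^ 10) := by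
      refine le_trans ?_ (main_pow_le (x := C₂ * (s + t : ℕ)) hm1' (by positivity) (by positivity)
        (by rw [mul_assoc]; gcongr) hj)
      rw [mul_pow, mul_comm]
      gcongr
      have h1 : s.factorial * t.factorial ≤ (s + t).factorial :=
        Nat.le_of_dvd (Nat.factorial_pos _) (Nat.factorial_mul_factorial_dvd_factorial_add s t)
      exact_mod_cast h1.trans (Nat.factorial_le_pow _)
    calc _ ≤ Real.exp (T * (C₂ * T + 9) * (m : ℝ) ^ 10) *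
          Real.exp (-(K' * (m : ℝ) ^ 16 / 2) + C₂ * (m : ℝ) ^ 10) *
          Real.exp (c * B * (m : ℝ) ^ 10) := by
          gcongr
          exact hv.trans (by gcongr)
      _ ≤ _ := by
        simp only [← Real.exp_add]
        refine Real.exp_le_exp.mpr ?_
        have h16 := hpw 10 16 (by norm_num)
        have h0 : 0 ≤ T * (C₂ * T + 9) + C₂ + c * B := by positivity
        have := mul_le_mul_of_nonneg_left h16 h0
        have h16' : (0 : ℝ) ≤ (m : ℝ) ^ 16 := by positivity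
        rw [hK']
        linarith

theorem not_alg (L₁ L₂ : PeriodPair) (h₁ : 0 < (L₁.ω₂ / L₁.ω₁).im) (h₂ : 0 < (L₂.ω₂ / L₂.ω₁).im)
    (hτ : LinearIndependent ℚ ![1, L₁.ω₂ / L₁.ω₁, L₂.ω₂ / L₂.ω₁])
    (g₁ : IsAlgebraic ℚ L₁.g₂) (g₁' : IsAlgebraic ℚ L₁.g₃) (g₂ : IsAlgebraic ℚ L₂.g₂)
    (g₂' : IsAlgebraic ℚ L₂.g₃) (θ : ℂ) (hθ : Transcendental ℚ θ)
    (ha : IsAlgebraic (Algebra.adjoin ℚ {θ}) (aa L₁))
    (hb : IsAlgebraic (Algebra.adjoin ℚ {θ}) (aa L₂))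
    (hρ : IsAlgebraic (Algebra.adjoin ℚ {θ}) (L₂.ω₁ / L₁.ω₁)) : False := by
  obtain ⟨b, hb1, hs⟩ := main_step L₁ L₂ h₁ h₂ hτ g₁ g₁' g₂ g₂' θ hθ ha hb hρ
  obtain ⟨K, hK, hG⟩ := gelfond θ hθ (2 ^ 10) (by norm_num)
  obtain ⟨m₀, hm⟩ := hs (K * b * b) (by positivity)
  choose Q hQ0 hQd hQM hQv using fun n : ℕ => hm (n + m₀ + 1) (by omega)
  have h1 : ∀ n : ℕ, (1 : ℝ) ≤ ((n + m₀ + 1 : ℕ) : ℝ) := fun n => by exact_mod_cast (by omega)
  have h2 : ∀ n k : ℕ, k ≤ 10 → b * ((n + 1 + m₀ + 1 : ℕ) : ℝ) ^ k ≤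
      2 ^ 10 * (b * ((n + m₀ + 1 : ℕ) : ℝ) ^ k) := fun n k hk => by
    have h3 : ((n + 1 + m₀ + 1 : ℕ) : ℝ) ≤ 2 * ((n + m₀ + 1 : ℕ) : ℝ) := by
      exact_mod_cast (by omega)
    calc _ ≤ b * (2 * ((n + m₀ + 1 : ℕ) : ℝ)) ^ k := by gcongr
      _ = 2 ^ k * (b * ((n + m₀ + 1 : ℕ) : ℝ) ^ k) := by ring
      _ ≤ _ := by gcongr; norm_num
  have h4 : ∀ k : ℕ, Monotone fun n : ℕ => b * ((n + m₀ + 1 : ℕ) : ℝ) ^ k := fun k n n' h => by
    dsimp only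
    gcongr
  refine hG (fun n => b * ((n + m₀ + 1 : ℕ) : ℝ) ^ 6) (fun n => b * ((n + m₀ + 1 : ℕ) : ℝ) ^ 10)
    (fun n => one_le_mul_of_one_le_of_one_le hb1 (one_le_pow₀ (h1 n)))
    (fun n => mul_le_mul_of_nonneg_left (pow_le_pow_right₀ (h1 n) (by norm_num)) (by linarith))
    (h4 6) (h4 10) (fun n => h2 n 6 (by norm_num)) (fun n => h2 n 10 le_rfl) ?_ Q hQ0 hQd hQM
    fun n => (hQv n).trans (le_of_eq (by congr 1; ring))
  refine Filter.Tendsto.const_mul_atTop (by linarith) ?_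
  exact (Filter.tendsto_pow_atTop (by norm_num)).comp (tendsto_natCast_atTop_atTop.comp
    ((Filter.tendsto_add_atTop_nat 1).comp (Filter.tendsto_add_atTop_nat m₀)))

end GPC96

end

-- part MP_57341d_ag.H96.CM
section

/-! The linear relation between `η`, `ω`, `π/ω` under complex multiplication. -/

open Complex Filter Topology
open scoped PeriodPair

namespace GPC96

variable (L : PeriodPair)

theorem cm_div {a b : ℂ} (ha : IsAlgebraic ℚ a) (hb : IsAlgebraic ℚ b) :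
    IsAlgebraic ℚ (a / b) := by
  rw [div_eq_mul_inv]
  exact ha.mul hb.inv

theorem cm_sum {T : Finset ℂ} {f : ℂ → ℂ} (h : ∀ t ∈ T, IsAlgebraic ℚ (f t)) :
    IsAlgebraic ℚ (∑ t ∈ T, f t) :=
  mem_algebraicClosure_iff.1
    (sum_mem fun t ht => (mem_algebraicClosure_iff (F := ℚ)).2 (h t ht))

theorem cm_sq_ne {μ : ℂ} (hμ : μ.im ≠ 0) (N : ℕ) : μ ^ 2 - N ≠ 0 := by
  intro h
  have h1 := congrArg Complex.re h
  have h2 := congrArg Complex.im h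
  simp only [sq, sub_re, mul_re, natCast_re, zero_re, sub_im, mul_im, natCast_im, zero_im] at h1 h2
  have h3 : μ.re = 0 := by
    have : μ.re * μ.im = 0 := by linarith
    exact (mul_eq_zero.1 this).resolve_right hμ
  have h4 : 0 < μ.im * μ.im := mul_self_pos.2 hμ
  have h5 : (0 : ℝ) ≤ N := Nat.cast_nonneg N
  rw [h3] at h1
  linarith

/-- The integrated isogeny formula. -/
theorem cm_const {μ : ℂ} (hμ : μ ≠ 0) (h : ∀ l ∈ L.lattice, μ * l ∈ L.lattice) {T : Finset ℂ}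
    (h0 : 0 ∈ T) (h1 : ∀ t ∈ T, μ * t ∈ L.lattice)
    (h2 : ∀ t ∈ T, ∀ t' ∈ T, t - t' ∈ L.lattice → t = t')
    (h3 : ∀ z, μ * z ∈ L.lattice → ∃ t ∈ T, z - t ∈ L.lattice) {a b : ℤ}
    (hab : a * L.ω₁ + b * L.ω₂ = μ * L.ω₁) :
    μ * (a * eta L L.ω₁ + b * eta L L.ω₂) =
      T.card * eta L L.ω₁ + (∑ t ∈ T, ℘[L] t) * L.ω₁ := by
  set S : Set ℂ := (fun z => μ * z) ⁻¹' L.lattice with hS
  have hc : S.Countable := (countable_lattice L).preimage (mul_right_injective₀ hμ)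
  have hcon : IsConnected Sᶜ := hc.isConnected_compl_of_one_lt_rank (by simp)
  have hop : IsOpen Sᶜ := (L.isClosed_lattice.preimage (by fun_prop)).isOpen_compl
  have hsub : ∀ z ∈ Sᶜ, ∀ t ∈ T, z - t ∉ L.lattice := fun z hz t ht hzt => by
    refine hz ?_
    have := add_mem (h _ hzt) (h1 t ht)
    rwa [mul_sub, sub_add_cancel] at this
  set F : ℂ → ℂ := fun z =>
    μ * zeta L (μ * z) - ∑ t ∈ T, zeta L (z - t) - (∑ t ∈ T, ℘[L] t) * z with hF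
  have hd : ∀ z ∈ Sᶜ, HasDerivAt F 0 z := fun z hz => by
    have e1 : HasDerivAt (fun z => zeta L (μ * z)) (-℘[L] (μ * z) * μ) z :=
      (hasDerivAt_zeta L hz).comp z ((hasDerivAt_id' z).const_mul μ |>.congr_deriv (mul_one μ))
    have e2 : HasDerivAt (fun z => ∑ t ∈ T, zeta L (z - t)) (∑ t ∈ T, -℘[L] (z - t)) z :=
      HasDerivAt.fun_sum fun t ht => (hasDerivAt_zeta L (hsub z hz t ht)).comp_sub_const z t
    have e3 := ((e1.const_mul μ).sub e2).sub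
      ((hasDerivAt_id' z).const_mul (∑ t ∈ T, ℘[L] t))
    refine e3.congr_deriv ?_
    rw [Finset.sum_neg_distrib]
    linear_combination -isog L hμ h h0 h1 h2 h3 hz
  obtain ⟨z, hz⟩ := hcon.nonempty
  have hz' : z + L.ω₁ ∈ Sᶜ := fun h' => by
    refine hz ?_
    have := sub_mem (show μ * (z + L.ω₁) ∈ L.lattice from h') (h _ L.ω₁_mem_lattice)
    rwa [mul_add, add_sub_cancel_right] at this
  have key : F (z + L.ω₁) = F z :=
    hop.is_const_of_deriv_eq_zero hcon.isPreconnected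
      (fun w hw => (hd w hw).differentiableAt.differentiableWithinAt)
      (fun w hw => (hd w hw).deriv) hz' hz
  have k1 : zeta L (μ * (z + L.ω₁)) = zeta L (μ * z) + (a * eta L L.ω₁ + b * eta L L.ω₂) := by
    rw [mul_add, ← hab]
    exact zeta_add_int L a b hz
  have k2 : ∑ t ∈ T, zeta L (z + L.ω₁ - t) = ∑ t ∈ T, zeta L (z - t) + T.card * eta L L.ω₁ := by
    rw [← nsmul_eq_mul, ← Finset.sum_const, ← Finset.sum_add_distrib]
    refine Finset.sum_congr rfl fun t ht => ?_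
    have := zeta_add_int L 1 0 (hsub z hz t ht)
    simp only [Int.cast_one, one_mul, Int.cast_zero, zero_mul, add_zero] at this
    rw [← this, add_sub_right_comm]
  simp only [hF, k1, k2] at key
  linear_combination key

/-- Hint: `μ ω₁ = a ω₁ + b ω₂`, `μ ω₂ = c ω₁ + d ω₂` with integers, `b ≠ 0`; `μ` is a root of the
characteristic polynomial and `ω₂/ω₁ = (μ - a)/b`. -/
theorem alg_tau {μ : ℂ} (hμ : μ.im ≠ 0) (h : ∀ l ∈ L.lattice, μ * l ∈ L.lattice) :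
    IsAlgebraic ℚ μ ∧ IsAlgebraic ℚ (L.ω₂ / L.ω₁) := by
  obtain ⟨a, b, hab⟩ := PeriodPair.mem_lattice.1 (h _ L.ω₁_mem_lattice)
  obtain ⟨c, d, hcd⟩ := PeriodPair.mem_lattice.1 (h _ L.ω₂_mem_lattice)
  have h0 := ω₁_ne_zero L
  have hb : (b : ℂ) ≠ 0 := fun hb => by
    rw [hb, zero_mul, add_zero] at hab
    rw [← mul_right_cancel₀ h0 hab] at hμ
    exact hμ (intCast_im a)
  have h1 : (2 * μ - (a + d)) ^ 2 = (((a - d) ^ 2 + 4 * b * c : ℤ) : ℂ) := by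
    refine mul_right_cancel₀ h0 ?_
    push_cast
    linear_combination (-4 * (μ - d)) * hab - 4 * b * hcd
  have h2 : IsAlgebraic ℚ (2 * μ - (a + d)) :=
    IsAlgebraic.of_pow two_pos (h1 ▸ isAlgebraic_intCast _)
  have h3 : IsAlgebraic ℚ μ := by
    have := cm_div (h2.add ((isAlgebraic_intCast a).add (isAlgebraic_intCast d)))
      (isAlgebraic_natCast 2)
    convert this using 1
    push_cast
    ring
  refine ⟨h3, ?_⟩
  have := cm_div (h3.sub (isAlgebraic_intCast a)) (isAlgebraic_intCast b)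
  convert this using 1
  field_simp
  linear_combination hab

/-- Hint: with `T` from `exists_reps`, `κ = ∑ t ∈ T, ℘ t` (algebraic) and `N = card T`, the
function `μ ζ(μ z) - ∑ ζ(z - t) - κ z` has derivative zero (`isog`) on the connected open set
`(μ⁻¹ Λ)ᶜ`; comparing `z` and `z + ω₁` gives `μ (a η₁ + b η₂) = N η₁ + κ ω₁`.  With `legendre`,
`η₂ = η₁ τ - 2πI/ω₁`, and `μ = a + b τ`: `(μ² - N) η₁ = κ ω₁ + μ b 2πI/ω₁`.  Finally `μ² ≠ N`
because `μ` is not real (`N ≥ 1`). -/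
theorem cm_rel (hτ : 0 < (L.ω₂ / L.ω₁).im) (h₂ : IsAlgebraic ℚ L.g₂) (h₃ : IsAlgebraic ℚ L.g₃)
    {μ : ℂ} (hμ : μ.im ≠ 0) (h : ∀ l ∈ L.lattice, μ * l ∈ L.lattice) :
    ∃ α β : ℂ, IsAlgebraic ℚ α ∧ IsAlgebraic ℚ β ∧
      eta L L.ω₁ = α * L.ω₁ + β * (2 * Real.pi * I / L.ω₁) := by
  have hμ0 : μ ≠ 0 := fun h0 => hμ (by rw [h0, zero_im])
  obtain ⟨T, h0, h1, h2, h3, h4⟩ := exists_reps L hμ0 h
  obtain ⟨a, b, hab⟩ := PeriodPair.mem_lattice.1 (h _ L.ω₁_mem_lattice)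
  have key := cm_const L hμ0 h h0 h1 h2 h3 hab
  have hκ : IsAlgebraic ℚ (∑ t ∈ T, ℘[L] t) := cm_sum fun t ht => by
    obtain ⟨n, hn, hnt⟩ := h4 t ht
    exact alg_torsion L h₂ h₃ hn hnt
  have hm := (alg_tau L hμ h).1
  have hD : IsAlgebraic ℚ (μ ^ 2 - T.card) := (hm.pow 2).sub (isAlgebraic_natCast _)
  refine ⟨_, _, cm_div hκ hD, cm_div (hm.mul (isAlgebraic_intCast b)) hD, ?_⟩
  have hw := ω₁_ne_zero L
  have hne := cm_sq_ne hμ T.card
  rw [← legendre L hτ]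
  field_simp
  linear_combination L.ω₁ * key - μ * eta L L.ω₁ * hab

end GPC96

end

-- part MP_57341d_ag.H96.Final
section

/-! The final statements. -/

open Complex
open scoped PeriodPair

namespace GPC96

theorem tau_im_ne_zero (L : PeriodPair) : (L.ω₂ / L.ω₁).im ≠ 0 := by
  intro h
  have h0 := ω₁_ne_zero L
  have h1 : L.ω₂ / L.ω₁ = ((L.ω₂ / L.ω₁).re : ℂ) := Complex.ext rfl (by simpa using h)
  have h2 := (LinearIndependent.pair_iff.mp L.indep (L.ω₂ / L.ω₁).re (-1) (by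
    rw [Complex.real_smul, ← h1]; simp [h0])).2
  norm_num at h2

theorem exists_orient (L : PeriodPair) : ∃ (L' : PeriodPair) (ε : ℤ), ε * ε = 1 ∧
    L'.lattice = L.lattice ∧ L'.ω₁ = L.ω₁ ∧ L'.ω₂ = ε * L.ω₂ ∧ eta L' L'.ω₁ = eta L L.ω₁ ∧
    eta L' L'.ω₂ = ε * eta L L.ω₂ ∧ 0 < (L'.ω₂ / L'.ω₁).im := by
  rcases (tau_im_ne_zero L).lt_or_gt with h | h
  · let L' : PeriodPair := ⟨L.ω₁, -L.ω₂, LinearIndependent.pair_iff.mpr fun s t hst => by
      have := LinearIndependent.pair_iff.mp L.indep s (-t) (by simpa using hst)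
      exact ⟨this.1, neg_eq_zero.mp this.2⟩⟩
    have hl : L'.lattice = L.lattice := by
      ext x
      simp only [PeriodPair.mem_lattice]
      constructor <;> rintro ⟨m, n, rfl⟩ <;> exact ⟨m, -n, by simp [L']⟩
    have hz := (congr_lattice hl).2.2.1
    refine ⟨L', -1, by norm_num, hl, rfl, by simp [L'], by simp [eta, hz, L'], ?_, ?_⟩
    · simp [eta, hz, L', neg_div, zeta_neg]
    · simpa [L', neg_div] using h
  · exact ⟨L, 1, by norm_num, rfl, rfl, by simp, rfl, by simp, h⟩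

theorem two_le (L₁ L₂ : PeriodPair)
    (hτ : LinearIndependent ℚ ![1, L₁.ω₂ / L₁.ω₁, L₂.ω₂ / L₂.ω₁])
    (g₁ : IsAlgebraic ℚ L₁.g₂) (g₁' : IsAlgebraic ℚ L₁.g₃) (g₂ : IsAlgebraic ℚ L₂.g₂)
    (g₂' : IsAlgebraic ℚ L₂.g₃) :
    2 ≤ Algebra.trdeg ℚ (IntermediateField.adjoin ℚ
      ({eta L₁ L₁.ω₁ / L₁.ω₁, eta L₂ L₂.ω₁ / L₂.ω₁, L₂.ω₁ / L₁.ω₁} : Set ℂ)) := by
  by_contra hlt
  obtain ⟨θ, hθ, hK⟩ := exists_theta_of_lt_two _ (not_le.mp hlt)
  obtain ⟨M₁, ε₁, e₁, hl₁, a₁, b₁, c₁, -, d₁⟩ := exists_orient L₁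
  obtain ⟨M₂, ε₂, e₂, hl₂, a₂, b₂, c₂, -, d₂⟩ := exists_orient L₂
  obtain ⟨-, -, -, k₁, k₁'⟩ := congr_lattice hl₁
  obtain ⟨-, -, -, k₂, k₂'⟩ := congr_lattice hl₂
  refine not_alg M₁ M₂ d₁ d₂ ?_ (k₁ ▸ g₁) (k₁' ▸ g₁') (k₂ ▸ g₂) (k₂' ▸ g₂') θ hθ ?_ ?_ ?_
  · rw [Fintype.linearIndependent_iff] at hτ ⊢
    intro c hc
    have := hτ ![c 0, c 1 * ε₁, c 2 * ε₂] (by
      rw [← hc]
      simp [Fin.sum_univ_three, a₁, a₂, b₁, b₂, Rat.smul_def]
      ring)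
    have h0 : c 0 = 0 := this 0
    have h1 : c 1 * ε₁ = 0 := this 1
    have h2 : c 2 * ε₂ = 0 := this 2
    have n₁ : (ε₁ : ℚ) ≠ 0 := by rintro h; simp_all
    have n₂ : (ε₂ : ℚ) ≠ 0 := by rintro h; simp_all
    intro i
    fin_cases i
    exacts [h0, (mul_eq_zero.mp h1).resolve_right n₁, (mul_eq_zero.mp h2).resolve_right n₂]
  · rw [aa, c₁, a₁]; exact hK _ (IntermediateField.subset_adjoin _ _ (by simp))
  · rw [aa, c₂, a₂]; exact hK _ (IntermediateField.subset_adjoin _ _ (by simp))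
  · rw [a₁, a₂]; exact hK _ (IntermediateField.subset_adjoin _ _ (by simp))

theorem indep_of_not_isog (L₁ L₂ : PeriodPair)
    (hni : ∀ μ : ℂ, (∀ l ∈ L₁.lattice, μ * l ∈ L₂.lattice) → μ = 0) :
    LinearIndependent ℚ ![1, L₁.ω₂ / L₁.ω₁, L₂.ω₂ / L₂.ω₁] := by
  rw [Fintype.linearIndependent_iff]
  intro c hc
  simp only [Fin.sum_univ_three, Matrix.cons_val_zero, Matrix.cons_val_one, Matrix.cons_val,
    Rat.smul_def, mul_one] at hc
  have n₁ := ω₁_ne_zero L₁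
  have n₂ := ω₁_ne_zero L₂
  have h1 : c 1 = 0 := by
    by_contra h1
    have h1' : ((c 1 : ℚ) : ℂ) ≠ 0 := by exact_mod_cast h1
    set r := -(c 0 / c 1)
    set s := -(c 2 / c 1)
    have hτ : L₁.ω₂ / L₁.ω₁ = r + s * (L₂.ω₂ / L₂.ω₁) := by
      simp only [r, s]
      push_cast
      field_simp
      field_simp at hc
      linear_combination hc
    have hr : (r : ℂ) * r.den = r.num := by exact_mod_cast r.mul_den_eq_num
    have hs : (s : ℂ) * s.den = s.num := by exact_mod_cast s.mul_den_eq_num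
    have := hni (r.den * s.den * (L₂.ω₁ / L₁.ω₁)) fun l hl => by
      obtain ⟨m, n, rfl⟩ := PeriodPair.mem_lattice.mp hl
      refine PeriodPair.mem_lattice.mpr ⟨m * r.den * s.den + n * r.num * s.den,
        n * r.den * s.num, ?_⟩
      have e : L₁.ω₂ = (r + s * (L₂.ω₂ / L₂.ω₁)) * L₁.ω₁ := by rw [← hτ]; field_simp
      rw [e]
      push_cast
      rw [← hr, ← hs]
      field_simp
      ring
    simp [n₁, n₂] at this
  have h2 : c 2 = 0 := by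
    have := congrArg Complex.im hc
    simpa [h1, tau_im_ne_zero L₂] using this
  have h0 : c 0 = 0 := by simpa [h1, h2] using hc
  intro i
  fin_cases i
  exacts [h0, h1, h2]

theorem legendre' (L : PeriodPair) : ∃ ε : ℤ, ε * ε = 1 ∧
    eta L L.ω₂ = eta L L.ω₁ * (L.ω₂ / L.ω₁) - ε * (2 * Real.pi * I / L.ω₁) := by
  obtain ⟨M, ε, e, -, a, b, c, d, h⟩ := exists_orient L
  have h1 := legendre M h
  have n := ω₁_ne_zero L
  have e' : (ε : ℂ) * ε = 1 := by exact_mod_cast e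
  rw [c, d, a, b] at h1
  refine ⟨ε, e, ?_⟩
  field_simp
  linear_combination (-ε) * h1 + (eta L L.ω₁ * L.ω₂ - eta L L.ω₂ * L.ω₁) * e'

theorem period_form (L : PeriodPair) (g : IsAlgebraic ℚ L.g₂) (g' : IsAlgebraic ℚ L.g₃)
    (cm : ∃ μ : ℂ, μ.im ≠ 0 ∧ ∀ l ∈ L.lattice, μ * l ∈ L.lattice) {p : ℂ} (hp : p ∈ periods L) :
    ∃ A B : ℂ, IsAlgebraic ℚ A ∧ IsAlgebraic ℚ B ∧
      p = L.ω₁ * (A + B * (2 * Real.pi * I / L.ω₁ ^ 2)) := by
  obtain ⟨μ, hμ, hl⟩ := cm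
  have n := ω₁_ne_zero L
  have hτ := (alg_tau L hμ hl).2
  obtain ⟨α, β, hα, hβ, h⟩ : ∃ α β : ℂ, IsAlgebraic ℚ α ∧ IsAlgebraic ℚ β ∧
      eta L L.ω₁ = α * L.ω₁ + β * (2 * Real.pi * I / L.ω₁) := by
    obtain ⟨M, ε, -, hM, a, -, c, -, d⟩ := exists_orient L
    obtain ⟨-, -, -, k, k'⟩ := congr_lattice hM
    have := cm_rel M d (k ▸ g) (k' ▸ g') hμ (hM ▸ hl)
    rwa [c, a] at this
  obtain ⟨ε, -, hε⟩ := legendre' L
  rcases hp with rfl | rfl | rfl | rfl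
  · exact ⟨1, 0, isAlgebraic_one, isAlgebraic_zero, by simp⟩
  · exact ⟨_, 0, hτ, isAlgebraic_zero, by field_simp; simp⟩
  · exact ⟨α, β, hα, hβ, by rw [h]; field_simp⟩
  · exact ⟨_, _, hα.mul hτ, (hβ.mul hτ).sub (isAlgebraic_intCast ε), by
      rw [hε, h]; field_simp; ring⟩

theorem two_le_periods (L₁ L₂ : PeriodPair)
    (hτ : LinearIndependent ℚ ![1, L₁.ω₂ / L₁.ω₁, L₂.ω₂ / L₂.ω₁])
    (g₁ : IsAlgebraic ℚ L₁.g₂) (g₁' : IsAlgebraic ℚ L₁.g₃) (g₂ : IsAlgebraic ℚ L₂.g₂)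
    (g₂' : IsAlgebraic ℚ L₂.g₃) :
    2 ≤ Algebra.trdeg ℚ (IntermediateField.adjoin ℚ
      {x : ℂ | ∃ p ∈ periods L₁, ∃ q ∈ periods L₂, x = p * q / (2 * Real.pi * I)}) := by
  set K := IntermediateField.adjoin ℚ
    {x : ℂ | ∃ p ∈ periods L₁, ∃ q ∈ periods L₂, x = p * q / (2 * Real.pi * I)}
  have n₁ := ω₁_ne_zero L₁
  have n₂ := ω₁_ne_zero L₂
  have hπ : (Real.pi : ℂ) ≠ 0 := by exact_mod_cast Real.pi_ne_zero
  have hm : ∀ p ∈ periods L₁, ∀ q ∈ periods L₂, p * q / (2 * Real.pi * I) ∈ K :=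
    fun p hp q hq => IntermediateField.subset_adjoin _ _ ⟨p, hp, q, hq, rfl⟩
  have hv := hm L₁.ω₁ (by simp [periods]) L₂.ω₁ (by simp [periods])
  have h1 : ∀ p ∈ periods L₁, p / L₁.ω₁ ∈ K := fun p hp => by
    convert div_mem (hm p hp L₂.ω₁ (by simp [periods])) hv using 1
    field_simp
  have h2 : ∀ q ∈ periods L₂, q / L₂.ω₁ ∈ K := fun q hq => by
    convert div_mem (hm L₁.ω₁ (by simp [periods]) q hq) hv using 1
    field_simp
  have hle : IntermediateField.adjoin ℚ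
      ({eta L₁ L₁.ω₁ / L₁.ω₁, eta L₂ L₂.ω₁ / L₂.ω₁, L₂.ω₁ / L₁.ω₁} : Set ℂ) ≤ K := by
    rw [IntermediateField.adjoin_le_iff]
    rintro x (rfl | rfl | rfl)
    · exact h1 _ (by simp [periods])
    · exact h2 _ (by simp [periods])
    · obtain ⟨ε, e, hε⟩ := legendre' L₁
      have e' : (ε : ℂ) * ε = 1 := by exact_mod_cast e
      have := mul_mem (mul_mem hv (intCast_mem K ε)) (sub_mem (mul_mem
        (h1 (eta L₁ L₁.ω₁) (by simp [periods])) (h1 L₁.ω₂ (by simp [periods])))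
        (h1 (eta L₁ L₁.ω₂) (by simp [periods])))
      refine (congrArg (· ∈ K) ?_).mp this
      rw [hε]
      field_simp
      linear_combination (2 * Real.pi * I) * e'
  exact (two_le L₁ L₂ hτ g₁ g₁' g₂ g₂').trans
    (trdeg_le_of_injective (IntermediateField.inclusion hle)
      (IntermediateField.inclusion_injective hle))

theorem cm_case (L₁ L₂ : PeriodPair)
    (g₁ : IsAlgebraic ℚ L₁.g₂) (g₁' : IsAlgebraic ℚ L₁.g₃) (g₂ : IsAlgebraic ℚ L₂.g₂)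
    (g₂' : IsAlgebraic ℚ L₂.g₃)
    (cm₁ : ∃ μ : ℂ, μ.im ≠ 0 ∧ ∀ l ∈ L₁.lattice, μ * l ∈ L₁.lattice)
    (cm₂ : ∃ μ : ℂ, μ.im ≠ 0 ∧ ∀ l ∈ L₂.lattice, μ * l ∈ L₂.lattice)
    (hni : ∀ μ : ℂ, (∀ l ∈ L₁.lattice, μ * l ∈ L₂.lattice) → μ = 0) :
    Algebra.trdeg ℚ (IntermediateField.adjoin ℚ
      {x : ℂ | ∃ p ∈ periods L₁, ∃ q ∈ periods L₂, x = p * q / (2 * Real.pi * I)}) = 2 := by
  refine le_antisymm ?_ (two_le_periods L₁ L₂ (indep_of_not_isog L₁ L₂ hni) g₁ g₁' g₂ g₂')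
  refine trdeg_le_two _ (2 * Real.pi * I / L₁.ω₁ ^ 2) (2 * Real.pi * I / L₂.ω₁ ^ 2) ?_
  rintro x ⟨p, hp, q, hq, rfl⟩
  obtain ⟨A, B, hA, hB, rfl⟩ := period_form L₁ g₁ g₁' cm₁ hp
  obtain ⟨A', B', hA', hB', rfl⟩ := period_form L₂ g₂ g₂' cm₂ hq
  set F := IntermediateField.adjoin ℚ
    ({2 * Real.pi * I / L₁.ω₁ ^ 2, 2 * Real.pi * I / L₂.ω₁ ^ 2} : Set ℂ)
  have n₁ := ω₁_ne_zero L₁
  have n₂ := ω₁_ne_zero L₂
  have hπ : (Real.pi : ℂ) ≠ 0 := by exact_mod_cast Real.pi_ne_zero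
  have hu : IsAlgebraic F (2 * Real.pi * I / L₁.ω₁ ^ 2) := isAlgebraic_algebraMap
    (⟨_, IntermediateField.subset_adjoin _ _ (Or.inl rfl)⟩ : F)
  have hu' : IsAlgebraic F (2 * Real.pi * I / L₂.ω₁ ^ 2) := isAlgebraic_algebraMap
    (⟨_, IntermediateField.subset_adjoin _ _ (Or.inr rfl)⟩ : F)
  have hv : IsAlgebraic F (L₁.ω₁ * L₂.ω₁ / (2 * Real.pi * I)) := by
    refine IsAlgebraic.of_pow two_pos ?_
    refine (congrArg (IsAlgebraic F) ?_).mp (hu.mul hu').inv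
    field_simp
  refine (congrArg (IsAlgebraic F) ?_).mp ((hv.mul ((hA.tower_top F).add
    ((hB.tower_top F).mul hu))).mul ((hA'.tower_top F).add ((hB'.tower_top F).mul hu')))
  ring

end GPC96

end
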